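import Pool.Agent.E5.Ve39

/-! # PENNY, all small diameters: the vertex row of the set `(1, 1, 6)` with corner claims

At an inner point with `k ≥ 2` which is not tight (`(k, c) = (2, 3)`, all sectors payers) one unit is
paid to every corner with `3` units, to every corner next to a negative digon sector, and, if there
is no contact triangle at the point, to every corner. -/

set_option autoImplicit false

namespace Pool.Agent.PEN.E5

open Classical UpperHalfPlane
open Pool.Agent.PEN.Cl

noncomputable section

variable {V : Type} (G : Tg V) {al : ℝ} {kp : V → V → ℝ} {U : ℕ → ℝ}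

/-- a tight point -/
def Ti39 (al : ℝ) (v : V) : Prop :=
  uv G al v = 8 ∧ cv G v = 3 ∧ ∀ s ∈ Sv G v, 0 ≤ Ds G al s

/-- the condition of a claim -/
def Cn39 (al : ℝ) (v : V) (c : V × V) : Prop :=
  3 ≤ un G al c ∨ (∃ s ∈ Sv G v, rn G s = 0 ∧ Ds G al s < 0 ∧ (sg G s = c ∨ nx G s = c)) ∨
    ∀ s ∈ Sv G v, rn G s = 0

/-- the claiming corners of a point -/
def Vl39 (al : ℝ) (v : V) : Finset (V × V) :=
  (Bv G v).filter (fun c => ¬ Ti39 G al v ∧ Cn39 G al v c)

theorem Vl_le39 (v : V) : (Vl39 G al v).card ≤ cv G v :=
  Finset.card_le_card (Finset.filter_subset _ _)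

/-- the arithmetic for `uv ≥ 9` -/
theorem arithC39 {P c u : ℕ} (h9 : 9 ≤ u) (hcu : 2 * c ≤ u) (hP : P ≤ c) :
    5 * P + 79 ≤ 11 * u := by omega

/-- **the vertex row with corner claims** -/
theorem vertexC39 (hG : G.Geo4 al kp U) (h1 : ∀ x ∈ iJ G, gc G al x ≤ 1) {yy pr : V × V → ℝ}
    {v : V} (hv : v ∈ inN G) (h8 : 8 ≤ uv G al v) (hy1 : ∀ s ∈ Sv G v, 1 ≤ yy s)
    (hy2 : ∀ s ∈ Sv G v, yy s ≤ 2)
    (hr : (∀ s ∈ Sv G v, rn G s = 0) → ∀ s ∈ Sv G v, yy s ≤ 1)
    (hp : ∀ s ∈ Sv G v, pr s ≤ max (4 - (rn G s : ℝ)) 2) :
    ∑ s ∈ (Sv G v).filter (fun s => 0 ≤ Ds G al s), pr s +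
        ∑ s ∈ Sv G v, yy s * Ds G al s + (Vl39 G al v).card ≤
      13 * (kv G al v - 1) - 2 * ep al := by
  have a0 := sum_yyD39 G hG h1 hv hy1 hy2
  have hcS := card_Sv62 G hG hv
  have hus := two_cv_le15 G (al := al) v
  have hspl := uv_split62 G hG (al := al) v
  have hVl := Vl_le39 G (al := al) v
  have hcu : 2 * cv G v ≤ uv G al v := by
    unfold ub15 at hus
    omega
  have hk := kv_eq89 G (al := al) v
  set P := (Sv G v).filter (fun s => 0 ≤ Ds G al s) with hPd
  have hPc : P.card ≤ cv G v := by
    rw [← hcS]
    exact Finset.card_le_card (Finset.filter_subset _ _)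
  have hQ : ((Sv G v).filter (fun s => 0 ≤ Ds G al s ∧ 1 < yy s)).card ≤ P.card := by
    refine Finset.card_le_card fun s hs => ?_
    rw [Finset.mem_filter] at hs
    exact Finset.mem_filter.2 ⟨hs.1, hs.2.1⟩
  have hp4 : ∀ s ∈ Sv G v, pr s ≤ 4 := by
    intro s hs
    have : (0 : ℝ) ≤ rn G s := Nat.cast_nonneg _
    exact (hp s hs).trans (max_le (by linarith) (by norm_num))
  have crude : ∑ s ∈ P, pr s ≤ P.card * 4 := by
    rw [← nsmul_eq_mul]
    exact Finset.sum_le_card_nsmul _ _ _ fun s hs => hp4 s (Finset.mem_filter.1 hs).1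
  -- one payer with a triangle saves one unit
  have crude1 : (∃ s ∈ P, rn G s ≠ 0) → ∑ s ∈ P, pr s ≤ P.card * 4 - 1 := by
    rintro ⟨s, hs, hs0⟩
    have e1 := (Finset.add_sum_erase P pr hs).symm
    have e2 : ∑ x ∈ P.erase s, pr x ≤ (P.erase s).card * 4 := by
      rw [← nsmul_eq_mul]
      exact Finset.sum_le_card_nsmul _ _ _ fun x hx =>
        hp4 x (Finset.mem_filter.1 (Finset.mem_of_mem_erase hx)).1
    have e3 : pr s ≤ 3 := by
      refine (hp s (Finset.mem_filter.1 hs).1).trans (max_le ?_ (by norm_num))
      have : (1 : ℝ) ≤ rn G s := by exact_mod_cast Nat.one_le_iff_ne_zero.2 hs0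
      linarith
    have e4 : ((P.erase s).card : ℝ) + 1 = P.card := by
      exact_mod_cast Finset.card_erase_add_one hs
    rw [e1]
    linarith
  have hQ' : (((Sv G v).filter (fun s => 0 ≤ Ds G al s ∧ 1 < yy s)).card : ℝ) ≤ P.card := by
    exact_mod_cast hQ
  have hPc' : (P.card : ℝ) ≤ cv G v := by exact_mod_cast hPc
  have hVl' : ((Vl39 G al v).card : ℝ) ≤ cv G v := by exact_mod_cast hVl
  rcases Nat.lt_or_ge 8 (uv G al v) with h9 | h9
  · have h := arithC39 h9 hcu hPc
    have h' : 5 * (P.card : ℝ) + 79 ≤ 11 * uv G al v := by exact_mod_cast h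
    rw [hk] at a0 ⊢
    linarith
  have hu8 : uv G al v = 8 := le_antisymm h9 h8
  have hk2 : kv G al v = 2 := by
    rw [hk, hu8]
    norm_num
  have hc4 : cv G v ≤ 4 := by omega
  have hc1 : 1 < cv G v := by
    have := cv_pos15 G hG hv
    by_contra hno
    have := leaf_uv39 G hG h1 hv (by omega)
    omega
  have hep := ep_pos89 G hG
  -- no triangle: no weight above one
  have hQ0 : (∀ s ∈ Sv G v, rn G s = 0) →
      (((Sv G v).filter (fun s => 0 ≤ Ds G al s ∧ 1 < yy s)).card : ℝ) = 0 := by
    intro h0
    rw [Finset.filter_false_of_mem, Finset.card_empty, Nat.cast_zero]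
    rintro s hs ⟨_, h2⟩
    exact absurd h2 (not_lt.2 (hr h0 s hs))
  rw [hk2] at a0 ⊢
  have hc' : cv G v = 2 ∨ cv G v = 3 ∨ cv G v = 4 := by omega
  rcases hc' with hc | hc | hc
  · -- two big corners
    rw [hc] at a0 hPc' hVl'
    push_cast at a0 hPc' hVl'
    by_cases h0 : ∀ s ∈ Sv G v, rn G s = 0
    · rw [hQ0 h0] at a0
      linarith
    · by_cases hP2 : P.card = 2
      · have hPS : P = Sv G v := by
          refine Finset.eq_of_subset_of_card_le (Finset.filter_subset _ _) ?_
          rw [hcS, hc, hP2]
        push Not at h0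
        obtain ⟨s, hs, hs0⟩ := h0
        have := crude1 ⟨s, by rw [hPS]; exact hs, hs0⟩
        linarith
      · have : P.card ≤ 1 := by omega
        have h' : (P.card : ℝ) ≤ 1 := by exact_mod_cast this
        linarith
  · -- three big corners
    rw [hc] at a0 hPc' hVl'
    push_cast at a0 hPc' hVl'
    have hT2 : ∀ s ∈ Sv G v, rn G s ≤ 2 := by
      intro s hs
      have e1 := Finset.single_le_sum (f := fun s => rn G s) (fun _ _ => Nat.zero_le _) hs
      unfold ub15 at hus
      have e2 : rn G s ≤ ∑ s ∈ Sv G v, rn G s := e1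
      omega
    by_cases hP3 : P.card = 3
    · have hPS : P = Sv G v := by
        refine Finset.eq_of_subset_of_card_le (Finset.filter_subset _ _) ?_
        rw [hcS, hc, hP3]
      have hti : Ti39 G al v := ⟨hu8, hc, fun s hs => by
        rw [← hPS] at hs
        exact (Finset.mem_filter.1 hs).2⟩
      have hV0 : Vl39 G al v = ∅ := by
        unfold Vl39
        exact Finset.filter_false_of_mem fun _ _ h => h.1 hti
      rw [hV0, Finset.card_empty]
      have hP3' : (P.card : ℝ) = 3 := by exact_mod_cast hP3
      by_cases h0 : ∀ s ∈ Sv G v, rn G s = 0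
      · rw [hQ0 h0] at a0
        push_cast
        linarith
      · push Not at h0
        obtain ⟨s, hs, hs0⟩ := h0
        have b1 := crude1 ⟨s, by rw [hPS]; exact hs, hs0⟩
        have b2 : ∑ s ∈ Sv G v, yy s * Ds G al s ≤ 2 * ∑ s ∈ Sv G v, Ds G al s := by
          rw [Finset.mul_sum]
          refine Finset.sum_le_sum fun s hs => ?_
          exact mul_le_mul_of_nonneg_right (hy2 s hs) (hti.2.2 s hs)
        rw [sum_Dsv39 G hG hv, hk2, hc] at b2
        push_cast at b2 ⊢
        linarith
    · have hP2 : P.card ≤ 2 := by omega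
      have hP2' : (P.card : ℝ) ≤ 2 := by exact_mod_cast hP2
      by_cases h0 : ∀ s ∈ Sv G v, rn G s = 0
      · rw [hQ0 h0] at a0
        linarith
      · by_cases hP : P.card = 2
        swap
        · have : P.card ≤ 1 := by omega
          have h' : (P.card : ℝ) ≤ 1 := by exact_mod_cast this
          linarith
        by_cases hPr : ∃ s ∈ P, rn G s ≠ 0
        · have := crude1 hPr
          linarith
        · -- both payers are digons, the negative sector has a triangle: at most two claims
          push Not at hPr
          have hV2 : (Vl39 G al v).card ≤ 2 := by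
            by_contra hno
            push Not at hno
            have hBV : Vl39 G al v = Bv G v := by
              refine Finset.eq_of_subset_of_card_le (Finset.filter_subset _ _) ?_
              have : (Bv G v).card = cv G v := rfl
              omega
            -- every corner has three units
            have h3 : ∀ c ∈ Bv G v, 3 ≤ un G al c := by
              intro c hcB
              rw [← hBV] at hcB
              obtain ⟨_, _, h | ⟨s, hs, hs0, hs1, _⟩ | h⟩ := Finset.mem_filter.1 hcB
              · exact h
              · exfalso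
                push Not at h0
                obtain ⟨t, ht, ht0⟩ := h0
                have htP : t ∉ P := fun h => ht0 (hPr t h)
                have hsP : s ∉ P := fun h => absurd (Finset.mem_filter.1 h).2 (not_le.2 hs1)
                have hst : s ≠ t := fun h => ht0 (h ▸ hs0)
                have hsub : insert s (insert t P) ⊆ Sv G v := by
                  intro z hz
                  rcases Finset.mem_insert.1 hz with h | h
                  · rw [h]; exact hs
                  · rcases Finset.mem_insert.1 h with h | h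
                    · rw [h]; exact ht
                    · exact (Finset.mem_filter.1 h).1
                have h4 := Finset.card_le_card hsub
                rw [Finset.card_insert_of_notMem (by
                  rw [Finset.mem_insert]
                  rintro (h | h)
                  · exact hst h
                  · exact hsP h), Finset.card_insert_of_notMem htP, hP, hcS, hc] at h4
                omega
              · exact absurd h h0
            have h4 : ∑ c ∈ Bv G v, 3 ≤ ∑ c ∈ Bv G v, un G al c := Finset.sum_le_sum h3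
            rw [Finset.sum_const, smul_eq_mul] at h4
            have h5 : (Bv G v).card = cv G v := rfl
            omega
          have hV2' : ((Vl39 G al v).card : ℝ) ≤ 2 := by exact_mod_cast hV2
          linarith
  · -- four big corners
    have h4 := two_of_four15 G hG hv hu8 hc
    have h4' : (P.card : ℝ) ≤ 2 := by exact_mod_cast h4
    have h0 : ∀ s ∈ Sv G v, rn G s = 0 := by
      intro s hs
      have e1 : ∑ s ∈ Sv G v, rn G s = 0 := by
        unfold ub15 at hus
        omega
      exact (Finset.sum_eq_zero_iff_of_nonneg (fun _ _ => Nat.zero_le _)).1 e1 s hs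
    rw [hQ0 h0] at a0
    rw [hc] at a0 hVl'
    push_cast at a0 hVl'
    linarith

end

end Pool.Agent.PEN.E5
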