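import Pool.Agent.E5.Ft15
import Pool.Agent.E5.Vc39

/-! # PENNY, all small diameters: set B6, the definitions of the final sum -/

set_option autoImplicit false

namespace Pool.Agent.PEN.E5

open Classical UpperHalfPlane
open Pool.Agent.PEN.Cl

noncomputable section

variable {V : Type} (G : Tg V) {al : ℝ} {kp : V → V → ℝ} {U : ℕ → ℝ}

/-- the hexagon class with 17 units -/
def H17c (al : ℝ) (C : G.adj.ConnectedComponent) : Prop :=
  C ∈ WF G ∧ (G.cT C).card = 4 ∧ (G.cI C).card = 6 ∧ uf G al C = 17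

/-- the pentagon class with 12 units -/
def P12c (al : ℝ) (C : G.adj.ConnectedComponent) : Prop :=
  C ∈ WF G ∧ (G.cT C).card = 3 ∧ (G.cI C).card = 4 ∧ uf G al C = 12

/-- pure leaf fan -/
def Ex1 (al : ℝ) (K : (cg G).ConnectedComponent) (x : V × V) : Prop :=
  Lv G K = {x} ∧ K ∉ Sf G al ∧ WsK G al K = ∅ ∧ tK G K = rn G x ∧ ∀ y ∈ kS G K, y.2 ∈ inN G

/-- pure payer fan -/
def Ex2 (al : ℝ) (K : (cg G).ConnectedComponent) (x : V × V) : Prop :=
  Lv G K = ∅ ∧ PK G al K = {x} ∧ WsK G al K = ∅ ∧ tK G K = rn G x ∧ ∀ y ∈ kS G K, y.2 ∈ inN G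

/-- weak digon -/
def Ex3 (al : ℝ) (K : (cg G).ConnectedComponent) (x : V × V) : Prop :=
  Lv G K = ∅ ∧ K ∉ Sf G al ∧ WsK G al K = {x} ∧ tK G K = 0 ∧ ∀ y ∈ kS G K, y.2 ∈ inN G

/-- the exceptional black faces -/
def Exc (al : ℝ) (K : (cg G).ConnectedComponent) : Prop :=
  ∃ x, Ex1 G al K x ∨ Ex2 G al K x ∨ Ex3 G al K x

/-- the sides `e1 .. e4` of a hexagon with 17 units, and `e5`, `e0` if `v0` is a leaf -/
def gH (al : ℝ) (x : V × V) : Prop :=
  H17c G al (G.cl x) ∧ ∃ z ∈ G.cJ (G.cl x), un G al z = 4 ∧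
    ((x = sg G z ∨ x = sg G (sg G z) ∨ x = sg G (sg G (sg G z)) ∨
      x = sg G (sg G (sg G (sg G z)))) ∨ (z.1 ∈ lfN G))

/-- the good sides that get one unit -/
def GH (al : ℝ) : Finset (V × V) := (BC G).filter (fun x => gH G al x ∧ ¬ Exc G al (ku G x))

/-- the payment of a leaf corner -/
def ps15 (al : ℝ) (z : V × V) : ℝ :=
  if H17c G al (G.cl z) ∨ P12c G al (G.cl z) ∨ Cen61 G al z then max ((un G al z : ℝ) - 2) 0
  else pm G al z

/-- the weight of a weak side -/
def wk15 (al : ℝ) (x : V × V) : ℝ :=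
  if x ∈ BC G ∧ sp G al x < 0 then
    (if P12c G al (G.cl x) ∧ ¬ (tK G (ku G x) = 0 ∧ ku G x ∉ Sf G al ∧ WsK G al (ku G x) = {x})
      then 3 else 4) else 0

/-- the weights of the black faces -/
def yK15 (al : ℝ) (K : (cg G).ConnectedComponent) : ℝ :=
  if ∃ x, Ex2 G al K x ∧ (1 ≤ tK G K ∨ ∃ s ∈ Sv G x.2, rn G s ≠ 0) then 2 else 1

theorem pm_le_ps15 (z : V × V) : pm G al z ≤ ps15 G al z := by
  unfold ps15
  split_ifs
  · unfold pm
    exact max_le_max (by linarith) le_rfl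
  · exact le_rfl

theorem ps_nonneg15 (z : V × V) : 0 ≤ ps15 G al z := (pm_nonneg89 G z).trans (pm_le_ps15 G z)

theorem pc_le_ps15 (z : V × V) : pc15 G al z ≤ ps15 G al z := by
  unfold pc15
  split_ifs with h
  · unfold ps15
    rw [if_pos (Or.inr (Or.inr h.1))]
  · exact pm_le_ps15 G z

theorem yK_one15 (K : (cg G).ConnectedComponent) : 1 ≤ yK15 G al K := by
  unfold yK15
  split_ifs <;> norm_num

theorem yK_two15 (K : (cg G).ConnectedComponent) : yK15 G al K ≤ 2 := by
  unfold yK15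
  split_ifs <;> norm_num

theorem wk_nonneg15 (x : V × V) : 0 ≤ wk15 G al x := by
  unfold wk15
  split_ifs <;> norm_num

theorem wk_le15 (x : V × V) : wk15 G al x ≤ 4 := by
  unfold wk15
  split_ifs <;> norm_num

theorem wk_ge15 {x : V × V} (h1 : x ∈ BC G) (h2 : sp G al x < 0) : 3 ≤ wk15 G al x := by
  unfold wk15
  rw [if_pos ⟨h1, h2⟩]
  split_ifs <;> norm_num

/-- the weights of the sides of a black face -/
theorem sum_wk15 (K : (cg G).ConnectedComponent) :
    ∑ x ∈ (kS G K).filter (fun x => x ∈ BC G), wk15 G al x = ∑ x ∈ WsK G al K, wk15 G al x := by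
  have h : WsK G al K = ((kS G K).filter (fun x => x ∈ BC G)).filter (fun x => sp G al x < 0) := by
    unfold WsK
    rw [Finset.filter_filter]
  rw [h]
  symm
  refine Finset.sum_filter_of_ne fun x hx h2 => ?_
  by_contra h3
  refine h2 ?_
  unfold wk15
  rw [if_neg (fun h4 => h3 h4.2)]

/-- **the vertex row** with the weights `yK15` and the corner claims of `Vl39` -/
theorem vrow15 (hG : G.Geo4 al kp U) (h1 : ∀ x ∈ iJ G, gc G al x ≤ 1) {QV : Finset (V × V)}
    {v : V} (hv : v ∈ A2 G al) (hQ : ∀ x ∈ QV, x.1 = v → x ∈ Vl39 G al v) :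
    ∑ s ∈ (Sv G v).filter (fun s => 0 ≤ Ds G al s), max (4 - (rn G s : ℝ)) 0 +
        ∑ s ∈ Sv G v, yK15 G al (ku G s) * Ds G al s + vV15 QV v ≤
      13 * (kv G al v - 1) - 2 * ep al := by
  obtain ⟨hv1, hv2⟩ := Finset.mem_filter.1 hv
  have h2 : (vV15 QV v : ℝ) ≤ (Vl39 G al v).card := by
    unfold vV15
    have : (QV.filter (fun x => x.1 = v)).card ≤ (Vl39 G al v).card := by
      refine Finset.card_le_card fun x hx => ?_
      obtain ⟨h3, h4⟩ := Finset.mem_filter.1 hx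
      exact hQ x h3 h4
    exact_mod_cast this
  have h3 := vertexC39 G hG h1 (yy := fun s => if 0 ≤ Ds G al s then yK15 G al (ku G s) else 1)
    (pr := fun s => max (4 - (rn G s : ℝ)) 0) hv1 hv2 ?_ ?_ ?_ ?_
  · have h4 : ∑ s ∈ Sv G v, yK15 G al (ku G s) * Ds G al s ≤
        ∑ s ∈ Sv G v, (if 0 ≤ Ds G al s then yK15 G al (ku G s) else 1) * Ds G al s := by
      refine Finset.sum_le_sum fun s _ => ?_
      split_ifs with h5
      · exact le_rfl
      · push Not at h5
        have h6 := yK_one15 G (al := al) (ku G s)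
        nlinarith
    linarith
  · intro s _
    split_ifs
    · exact yK_one15 G _
    · exact le_rfl
  · intro s _
    split_ifs
    · exact yK_two15 G _
    · norm_num
  · intro hr s hs
    split_ifs with h5
    · obtain ⟨h6, h7⟩ := (mem_Sv62 G).1 hs
      have hP : s ∈ PK G al (ku G s) := Finset.mem_filter.2
        ⟨(mem_Pz15 G).2 ⟨h6, by rw [h7]; exact hv1, by rw [h7]; exact hv2, h5⟩, rfl⟩
      unfold yK15
      rw [if_neg]
      rintro ⟨x, ⟨_, h8, _, h9, _⟩, h10⟩
      rw [h8, Finset.mem_singleton] at hP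
      subst hP
      rcases h10 with h10 | ⟨s', hs', h11⟩
      · have := hr s hs
        omega
      · rw [h7] at hs'
        exact h11 (hr s' hs')
    · exact le_rfl
  · intro s _
    exact max_le_max le_rfl (by norm_num)

end

end Pool.Agent.PEN.E5
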