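import Pool.Agent.E5.SL2b

/-! # PENNY, all small diameters: the high side lemma

A side of a black face is good if both its corners have gap at least `1 / 2`. The number of good sides
is at most the number of leaves, payers and weak sides. -/

set_option autoImplicit false

namespace Pool.Agent.PEN.E5

open Classical UpperHalfPlane
open Pool.Agent.PEN.Cl

noncomputable section

variable {V : Type} (G : Tg V) {al : ℝ} {kp : V → V → ℝ} {U : ℕ → ℝ}

/-- indicator of a large gap -/
def hi63 (al : ℝ) (x : V × V) : ℝ := if 1 / 2 ≤ gc G al x then 1 else 0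

/-- the good sides of a black face -/
def Gd63 (al : ℝ) (K : (cg G).ConnectedComponent) : Finset (V × V) :=
  (kS G K).filter (fun x => 1 / 2 ≤ gc G al x ∧ 1 / 2 ≤ gc G al (sg G x))

/-- the sectors which are neither leaves nor payers, with two small gaps -/
def Lo63 (al : ℝ) (K : (cg G).ConnectedComponent) : Finset (V × V) :=
  (kS G K).filter (fun x => gc G al (sg G x) < 1 / 2 ∧ gc G al (nx G x) < 1 / 2)

/-- the sides whose head is not an inner point -/
def Oh63 (K : (cg G).ConnectedComponent) : Finset (V × V) :=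
  (kS G K).filter (fun x => x.2 ∉ inN G)

theorem mem_Gd63 {K : (cg G).ConnectedComponent} {x : V × V} :
    x ∈ Gd63 G al K ↔ x ∈ kS G K ∧ 1 / 2 ≤ gc G al x ∧ 1 / 2 ≤ gc G al (sg G x) := by
  unfold Gd63
  rw [Finset.mem_filter]

theorem mem_Lo63 {K : (cg G).ConnectedComponent} {x : V × V} :
    x ∈ Lo63 G al K ↔ x ∈ kS G K ∧ gc G al (sg G x) < 1 / 2 ∧ gc G al (nx G x) < 1 / 2 := by
  unfold Lo63
  rw [Finset.mem_filter]

theorem mem_WsK63 {K : (cg G).ConnectedComponent} {x : V × V} :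
    x ∈ WsK G al K ↔ x ∈ kS G K ∧ x ∈ BC G ∧ sp G al x < 0 := by
  unfold WsK
  rw [Finset.mem_filter]

theorem mem_PK63 {K : (cg G).ConnectedComponent} {x : V × V} :
    x ∈ PK G al K ↔ x ∈ kS G K ∧ x.2 ∈ inN G ∧ 8 ≤ uv G al x.2 ∧ 0 ≤ Ds G al x := by
  unfold PK
  rw [Finset.mem_filter, mem_Pz15, mem_kS42]
  tauto

/-- a sector which is neither a leaf nor a payer, at an inner point, is negative -/
theorem Ds_neg63 (hG : G.Geo4 al kp U) {K : (cg G).ConnectedComponent} {x : V × V}
    (hx : x ∈ kS G K) (hv : x.2 ∈ inN G) (hl : x ∉ Lv G K) (hp : x ∉ PK G al K) :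
    Ds G al x < 0 := by
  by_contra h
  push Not at h
  rcases pos_sector89 G hG hv (mem_kS89 G hx) rfl h with h1 | h1
  · exact hl ((mem_Lv15 G).2 ⟨hx, hv, h1⟩)
  · exact hp ((mem_PK63 G).2 ⟨hx, hv, h1, h⟩)

/-- the indicator sum of a subset -/
theorem card_sub63 {F E : Finset (V × V)} (h : E ⊆ F) :
    (E.card : ℝ) = ∑ x ∈ F, (if x ∈ E then (1 : ℝ) else 0) := by
  have h1 : (∑ x ∈ F, if x ∈ E then (1 : ℝ) else 0) = ∑ x ∈ E, (1 : ℝ) := by
    rw [← Finset.sum_filter]
    refine Finset.sum_congr ?_ fun _ _ => rfl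
    ext x
    rw [Finset.mem_filter]
    exact ⟨fun h2 => h2.2, fun h2 => ⟨h h2, h2⟩⟩
  rw [h1, Finset.sum_const, nsmul_eq_mul, mul_one]

/-- **the high side lemma**, with the outer heads -/
theorem HHo63 (hG : G.Geo4 al kp U) (K : (cg G).ConnectedComponent) :
    ((Gd63 G al K).card : ℝ) + ((Lo63 G al K).card : ℝ) ≤
      (Lv G K).card + (PK G al K).card + (WsK G al K).card + 3 * (Oh63 G K).card := by
  have sL : Lv G K ⊆ kS G K := Finset.filter_subset _ _
  have sP : PK G al K ⊆ kS G K := fun x hx => ((mem_PK63 G).1 hx).1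
  have sW : WsK G al K ⊆ kS G K := Finset.filter_subset _ _
  have sO : Oh63 G K ⊆ kS G K := Finset.filter_subset _ _
  have sG : Gd63 G al K ⊆ kS G K := Finset.filter_subset _ _
  have sl : Lo63 G al K ⊆ kS G K := Finset.filter_subset _ _
  have e1 : ∑ x ∈ kS G K, hi63 G al (nx G x) = ∑ x ∈ kS G K, hi63 G al x :=
    sum_nx42 G hG (kS G K) (fun x hx => mem_kS89 G hx) (fun x hx => nx_kS89 G hG hx) _
  have h1 : ∀ x ∈ kS G K, hi63 G al (sg G x) + hi63 G al (nx G x) +
      (if x ∈ Lo63 G al K then (1 : ℝ) else 0) ≤ 1 + (if x ∈ Lv G K then (1 : ℝ) else 0) +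
      (if x ∈ PK G al K then (1 : ℝ) else 0) + (if x ∈ Oh63 G K then (1 : ℝ) else 0) := by
    intro x hx
    have p1 : (0 : ℝ) ≤ if x ∈ Lv G K then (1 : ℝ) else 0 := by split_ifs <;> norm_num
    have p2 : (0 : ℝ) ≤ if x ∈ PK G al K then (1 : ℝ) else 0 := by split_ifs <;> norm_num
    have p3 : (0 : ℝ) ≤ if x ∈ Oh63 G K then (1 : ℝ) else 0 := by split_ifs <;> norm_num
    by_cases hlo : x ∈ Lo63 G al K
    · obtain ⟨_, h2, h3⟩ := (mem_Lo63 G).1 hlo
      unfold hi63
      rw [if_neg (not_le.2 h2), if_neg (not_le.2 h3), if_pos hlo]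
      linarith
    rw [if_neg hlo]
    have q1 : hi63 G al (sg G x) ≤ 1 := by unfold hi63; split_ifs <;> norm_num
    have q2 : hi63 G al (nx G x) ≤ 1 := by unfold hi63; split_ifs <;> norm_num
    by_cases hl : x ∈ Lv G K
    · rw [if_pos hl]
      linarith
    by_cases hp : x ∈ PK G al K
    · rw [if_pos hp]
      linarith
    by_cases ho : x ∈ Oh63 G K
    · rw [if_pos ho]
      linarith
    have hv : x.2 ∈ inN G := by
      by_contra hv
      exact ho (Finset.mem_filter.2 ⟨hx, hv⟩)
    have hD := Ds_neg63 G hG hx hv hl hp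
    unfold Ds at hD
    have : hi63 G al (sg G x) + hi63 G al (nx G x) ≤ 1 := by
      unfold hi63
      split_ifs with a b b
      · linarith
      · norm_num
      · norm_num
      · norm_num
    linarith
  have h2 : ∀ x ∈ kS G K, 1 + (if x ∈ Gd63 G al K then (1 : ℝ) else 0) ≤
      hi63 G al x + hi63 G al (sg G x) + (if x ∈ WsK G al K then (1 : ℝ) else 0) +
      2 * (if x ∈ Oh63 G K then (1 : ℝ) else 0) := by
    intro x hx
    have p2 : (0 : ℝ) ≤ if x ∈ WsK G al K then (1 : ℝ) else 0 := by split_ifs <;> norm_num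
    have p3 : (0 : ℝ) ≤ if x ∈ Oh63 G K then (1 : ℝ) else 0 := by split_ifs <;> norm_num
    have q1 : 0 ≤ hi63 G al x := by unfold hi63; split_ifs <;> norm_num
    have q2 : 0 ≤ hi63 G al (sg G x) := by unfold hi63; split_ifs <;> norm_num
    by_cases hg : x ∈ Gd63 G al K
    · obtain ⟨_, h2, h3⟩ := (mem_Gd63 G).1 hg
      have a1 : hi63 G al x = 1 := if_pos h2
      have a2 : hi63 G al (sg G x) = 1 := if_pos h3
      rw [if_pos hg, a1, a2]
      linarith
    rw [if_neg hg]
    by_cases hw : x ∈ WsK G al K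
    · rw [if_pos hw]
      linarith
    by_cases ho : x ∈ Oh63 G K
    · rw [if_pos ho]
      linarith
    have hv : x.2 ∈ inN G := by
      by_contra hv
      exact ho (Finset.mem_filter.2 ⟨hx, hv⟩)
    have hs : 0 ≤ sp G al x := by
      by_contra h
      push Not at h
      exact hw ((mem_WsK63 G).2 ⟨hx, (BC_head14 G hG (mem_kS89 G hx) hv).1, h⟩)
    unfold sp at hs
    have : 1 ≤ hi63 G al x + hi63 G al (sg G x) := by
      unfold hi63
      split_ifs with a b b
      · norm_num
      · norm_num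
      · norm_num
      · exfalso
        linarith
    linarith
  have s1 := Finset.sum_le_sum h1
  have s2 := Finset.sum_le_sum h2
  simp only [Finset.sum_add_distrib, ← Finset.mul_sum] at s1 s2
  rw [← card_sub63 sl, ← card_sub63 sL, ← card_sub63 sP, ← card_sub63 sO, e1] at s1
  rw [← card_sub63 sG, ← card_sub63 sW, ← card_sub63 sO] at s2
  linarith

/-- **the high side lemma** -/
theorem HH63 (hG : G.Geo4 al kp U) {K : (cg G).ConnectedComponent}
    (hin : ∀ x ∈ kS G K, x.2 ∈ inN G) :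
    (Gd63 G al K).card + (Lo63 G al K).card ≤
      (Lv G K).card + (PK G al K).card + (WsK G al K).card := by
  have h := HHo63 G hG K
  have h0 : Oh63 G K = ∅ := by
    unfold Oh63
    rw [Finset.filter_eq_empty_iff]
    exact fun x hx h => h (hin x hx)
  rw [h0, Finset.card_empty] at h
  push_cast at h
  have h' : (((Gd63 G al K).card + (Lo63 G al K).card : ℕ) : ℝ) ≤
      (((Lv G K).card + (PK G al K).card + (WsK G al K).card : ℕ) : ℝ) := by
    push_cast
    linarith
  exact_mod_cast h'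

/-- the good white sides of a black face (any heads) -/
def Gb63 (al : ℝ) (K : (cg G).ConnectedComponent) : Finset (V × V) :=
  (kS G K).filter (fun x => x ∈ BC G ∧ 1 / 2 ≤ gc G al x ∧ 1 / 2 ≤ gc G al (sg G x))

/-- the low low sectors at inner heads -/
def Lb63 (al : ℝ) (K : (cg G).ConnectedComponent) : Finset (V × V) :=
  (kS G K).filter (fun x => x.2 ∈ inN G ∧ gc G al (sg G x) < 1 / 2 ∧ gc G al (nx G x) < 1 / 2)

theorem mem_Gb63 {K : (cg G).ConnectedComponent} {x : V × V} :
    x ∈ Gb63 G al K ↔ x ∈ kS G K ∧ x ∈ BC G ∧ 1 / 2 ≤ gc G al x ∧ 1 / 2 ≤ gc G al (sg G x) := by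
  unfold Gb63
  rw [Finset.mem_filter]

theorem mem_Lb63 {K : (cg G).ConnectedComponent} {x : V × V} :
    x ∈ Lb63 G al K ↔ x ∈ kS G K ∧ x.2 ∈ inN G ∧ gc G al (sg G x) < 1 / 2 ∧
      gc G al (nx G x) < 1 / 2 := by
  unfold Lb63
  rw [Finset.mem_filter]

/-- with inner heads the two kinds of good sides are the same -/
theorem Gb_eq63 (hG : G.Geo4 al kp U) {K : (cg G).ConnectedComponent}
    (hin : ∀ x ∈ kS G K, x.2 ∈ inN G) : Gb63 G al K = Gd63 G al K := by
  ext x
  rw [mem_Gb63, mem_Gd63]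
  exact ⟨fun h => ⟨h.1, h.2.2⟩,
    fun h => ⟨h.1, (BC_head14 G hG (mem_kS89 G h.1) (hin x h.1)).1, h.2⟩⟩

/-- the big gaps of a sector, outer corners do not count -/
def hu63 (al : ℝ) (x : V × V) : ℝ :=
  (if x ∈ BC G then hi63 G al (sg G x) else 0) + (if nx G x ∈ BC G then hi63 G al (nx G x) else 0)

theorem hi_two63 (hG : G.Geo4 al kp U) (x : V × V) : hi63 G al x ≤ 2 * gc G al x := by
  have h := gc_nonneg89 G hG (x := x)
  unfold hi63
  split_ifs with h1
  · linarith
  · linarith

theorem hu_outer63 (hG : G.Geo4 al kp U) (x : V × V) : hu63 G al x ≤ 2 * us14 G al x := by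
  have h1 := hi_two63 G hG (al := al) (sg G x)
  have h2 := hi_two63 G hG (al := al) (nx G x)
  unfold hu63 us14
  split_ifs <;> linarith

/-- **the high side lemma, every black face** -/
theorem HHu63 (hG : G.Geo4 al kp U) (K : (cg G).ConnectedComponent) :
    ((Gb63 G al K).card : ℝ) + ((Lb63 G al K).card : ℝ) + (oK14 G K : ℝ) ≤
      (Lv G K).card + (PK G al K).card + (WsK G al K).card + 2 * uK14 G al K := by
  have sL : Lv G K ⊆ (kS G K).filter (fun x => x.2 ∈ inN G) := fun x hx =>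
    Finset.mem_filter.2 ⟨((mem_Lv15 G).1 hx).1, ((mem_Lv15 G).1 hx).2.1⟩
  have sP : PK G al K ⊆ (kS G K).filter (fun x => x.2 ∈ inN G) := fun x hx =>
    Finset.mem_filter.2 ⟨((mem_PK63 G).1 hx).1, ((mem_PK63 G).1 hx).2.1⟩
  have sl : Lb63 G al K ⊆ (kS G K).filter (fun x => x.2 ∈ inN G) := fun x hx =>
    Finset.mem_filter.2 ⟨((mem_Lb63 G).1 hx).1, ((mem_Lb63 G).1 hx).2.1⟩
  have sW : WsK G al K ⊆ (kS G K).filter (fun x => x ∈ BC G) := fun x hx =>
    Finset.mem_filter.2 ⟨((mem_WsK63 G).1 hx).1, ((mem_WsK63 G).1 hx).2.1⟩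
  have sG : Gb63 G al K ⊆ (kS G K).filter (fun x => x ∈ BC G) := fun x hx =>
    Finset.mem_filter.2 ⟨((mem_Gb63 G).1 hx).1, ((mem_Gb63 G).1 hx).2.1⟩
  have e1 := sum_nx42 G hG (kS G K) (fun x hx => mem_kS89 G hx)
    (fun x hx => nx_kS89 G hG hx) (fun x => if x ∈ BC G then hi63 G al x else 0)
  have e2 : ∑ x ∈ (kS G K).filter (fun x => x ∈ BC G), (hi63 G al x + hi63 G al (sg G x)) =
      ∑ x ∈ kS G K, hu63 G al x := by
    unfold hu63
    rw [Finset.sum_add_distrib, Finset.sum_add_distrib, e1, Finset.sum_filter, Finset.sum_filter]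
    ring
  have e3 : ∑ x ∈ kS G K, hu63 G al x ≤
      ∑ x ∈ (kS G K).filter (fun x => x.2 ∈ inN G), (hi63 G al (sg G x) + hi63 G al (nx G x)) +
        2 * uK14 G al K := by
    rw [← Finset.sum_filter_add_sum_filter_not (kS G K) (fun x => x.2 ∈ inN G)]
    unfold uK14
    rw [Finset.mul_sum]
    refine add_le_add (Finset.sum_le_sum fun x hx => ?_)
      (Finset.sum_le_sum fun x _ => hu_outer63 G hG x)
    obtain ⟨h1, h2⟩ := Finset.mem_filter.1 hx
    obtain ⟨h3, h4⟩ := BC_head14 G hG (mem_kS89 G h1) h2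
    unfold hu63
    rw [if_pos h3, if_pos h4]
  have e4 : ((kS G K).filter (fun x => x ∈ BC G)).card =
      ((kS G K).filter (fun x => x.2 ∈ inN G)).card + oK14 G K := by
    unfold oK14
    rw [← Finset.card_filter_add_card_filter_not (s := (kS G K).filter (fun x => x ∈ BC G))
      (fun x => x.2 ∈ inN G), Finset.filter_filter, Finset.filter_filter]
    congr 2
    refine Finset.filter_congr fun x hx => ?_
    exact ⟨fun h => h.2, fun h => ⟨(BC_head14 G hG (mem_kS89 G hx) h).1, h⟩⟩
  have h1 : ∀ x ∈ (kS G K).filter (fun x => x.2 ∈ inN G),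
      hi63 G al (sg G x) + hi63 G al (nx G x) + (if x ∈ Lb63 G al K then (1 : ℝ) else 0) ≤
        1 + (if x ∈ Lv G K then (1 : ℝ) else 0) + (if x ∈ PK G al K then (1 : ℝ) else 0) := by
    intro x hx
    obtain ⟨hx, hv⟩ := Finset.mem_filter.1 hx
    have p1 : (0 : ℝ) ≤ if x ∈ Lv G K then (1 : ℝ) else 0 := by split_ifs <;> norm_num
    have p2 : (0 : ℝ) ≤ if x ∈ PK G al K then (1 : ℝ) else 0 := by split_ifs <;> norm_num
    by_cases hlo : x ∈ Lb63 G al K
    · obtain ⟨_, _, h2, h3⟩ := (mem_Lb63 G).1 hlo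
      unfold hi63
      rw [if_neg (not_le.2 h2), if_neg (not_le.2 h3), if_pos hlo]
      linarith
    rw [if_neg hlo]
    have q1 : hi63 G al (sg G x) ≤ 1 := by unfold hi63; split_ifs <;> norm_num
    have q2 : hi63 G al (nx G x) ≤ 1 := by unfold hi63; split_ifs <;> norm_num
    by_cases hl : x ∈ Lv G K
    · rw [if_pos hl]
      linarith
    by_cases hp : x ∈ PK G al K
    · rw [if_pos hp]
      linarith
    have hD := Ds_neg63 G hG hx hv hl hp
    unfold Ds at hD
    have : hi63 G al (sg G x) + hi63 G al (nx G x) ≤ 1 := by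
      unfold hi63
      split_ifs with a b b
      · linarith
      · norm_num
      · norm_num
      · norm_num
    linarith
  have h2 : ∀ x ∈ (kS G K).filter (fun x => x ∈ BC G),
      1 + (if x ∈ Gb63 G al K then (1 : ℝ) else 0) ≤
        hi63 G al x + hi63 G al (sg G x) + (if x ∈ WsK G al K then (1 : ℝ) else 0) := by
    intro x hx
    obtain ⟨hx, hb⟩ := Finset.mem_filter.1 hx
    have p2 : (0 : ℝ) ≤ if x ∈ WsK G al K then (1 : ℝ) else 0 := by split_ifs <;> norm_num
    have q1 : 0 ≤ hi63 G al x := by unfold hi63; split_ifs <;> norm_num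
    have q2 : 0 ≤ hi63 G al (sg G x) := by unfold hi63; split_ifs <;> norm_num
    by_cases hg : x ∈ Gb63 G al K
    · obtain ⟨_, _, h2, h3⟩ := (mem_Gb63 G).1 hg
      have a1 : hi63 G al x = 1 := if_pos h2
      have a2 : hi63 G al (sg G x) = 1 := if_pos h3
      rw [if_pos hg, a1, a2]
      linarith
    rw [if_neg hg]
    by_cases hw : x ∈ WsK G al K
    · rw [if_pos hw]
      linarith
    have hs : 0 ≤ sp G al x := by
      by_contra h
      push Not at h
      exact hw ((mem_WsK63 G).2 ⟨hx, hb, h⟩)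
    unfold sp at hs
    have : 1 ≤ hi63 G al x + hi63 G al (sg G x) := by
      unfold hi63
      split_ifs with a b b
      · norm_num
      · norm_num
      · norm_num
      · exfalso
        linarith
    linarith
  have s1 := Finset.sum_le_sum h1
  have s2 := Finset.sum_le_sum h2
  simp only [Finset.sum_add_distrib, Finset.sum_const, nsmul_eq_mul, mul_one] at s1 s2 e2 e3
  rw [← card_sub63 sl, ← card_sub63 sL, ← card_sub63 sP] at s1
  rw [← card_sub63 sG, ← card_sub63 sW] at s2
  have e4' : (((kS G K).filter (fun x => x ∈ BC G)).card : ℝ) =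
      ((kS G K).filter (fun x => x.2 ∈ inN G)).card + (oK14 G K : ℝ) := by
    rw [e4]
    push_cast
    rfl
  linarith

/-- the leaves whose predecessor is a leaf -/
def LP63 (K : (cg G).ConnectedComponent) : Finset (V × V) :=
  (Lv G K).filter (fun y => ∃ z ∈ Lv G K, nx G z = y)

/-- the leaves with two small neighbours: none of their two sides is good -/
def LL63 (al : ℝ) (K : (cg G).ConnectedComponent) : Finset (V × V) :=
  (Lv G K).filter (fun y => y ∉ Gd63 G al K ∧ nx G y ∉ Gd63 G al K)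

/-- the leaves without `H` are paid by the good sides without `H` -/
theorem chain63 (hG : G.Geo4 al kp U) {K : (cg G).ConnectedComponent} (H : V × V → Prop)
    (hH : ∀ y ∈ Lv G K, H (nx G y) ↔ H y) :
    ((Lv G K).filter (fun y => ¬ H y)).card ≤ ((Gb63 G al K).filter (fun y => ¬ H y)).card +
      (((LL63 G al K).filter (fun y => ¬ H y)).card +
        ((LP63 G K).filter (fun y => ¬ H y)).card) := by
  set D := ((Lv G K).filter (fun y => ¬ H y)) \
    ((LL63 G al K).filter (fun y => ¬ H y) ∪ (LP63 G K).filter (fun y => ¬ H y)) with hD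
  have h4 : ((Lv G K).filter (fun y => ¬ H y)).card ≤ D.card +
      (((LL63 G al K).filter (fun y => ¬ H y)).card +
        ((LP63 G K).filter (fun y => ¬ H y)).card) := by
    have := Finset.card_le_card_sdiff_add_card (t := (LL63 G al K).filter (fun y => ¬ H y) ∪
      (LP63 G K).filter (fun y => ¬ H y)) (s := (Lv G K).filter (fun y => ¬ H y))
    have h5 := Finset.card_union_le ((LL63 G al K).filter (fun y => ¬ H y))
      ((LP63 G K).filter (fun y => ¬ H y))
    rw [← hD] at this
    omega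
  have h6 : D.card ≤ ((Gb63 G al K).filter (fun y => ¬ H y)).card := by
    have key : ∀ y ∈ D, y ∈ Lv G K ∧ ¬ H y ∧ (y ∈ Gb63 G al K ∨ nx G y ∈ Gb63 G al K) ∧
        ∀ z ∈ Lv G K, nx G z ≠ y := by
      intro y hy
      rw [hD, Finset.mem_sdiff, Finset.mem_filter, Finset.mem_union, Finset.mem_filter,
        Finset.mem_filter] at hy
      obtain ⟨⟨a1, a2⟩, a3⟩ := hy
      obtain ⟨c1, c2, c3⟩ := (mem_Lv15 G).1 a1
      obtain ⟨c4, c5⟩ := BC_head14 G hG (mem_kS89 G c1) c2
      refine ⟨a1, a2, ?_, ?_⟩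
      · by_contra h
        push Not at h
        refine a3 (Or.inl ⟨Finset.mem_filter.2 ⟨a1, fun h5 => h.1 ?_, fun h5 => h.2 ?_⟩, a2⟩)
        · obtain ⟨d1, d2⟩ := (mem_Gd63 G).1 h5
          exact (mem_Gb63 G).2 ⟨d1, c4, d2⟩
        · obtain ⟨d1, d2⟩ := (mem_Gd63 G).1 h5
          exact (mem_Gb63 G).2 ⟨d1, c5, d2⟩
      · intro z hz he
        exact a3 (Or.inr ⟨Finset.mem_filter.2 ⟨a1, z, hz, he⟩, a2⟩)
    refine Finset.card_le_card_of_injOn
      (fun y => if nx G y ∈ Gb63 G al K then nx G y else y) ?_ ?_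
    · intro y hy
      obtain ⟨a1, a2, a3, a4⟩ := key y (Finset.mem_coe.1 hy)
      dsimp only
      rw [Finset.mem_coe, Finset.mem_filter]
      split_ifs with h
      · exact ⟨h, fun h' => a2 ((hH y a1).1 h')⟩
      · rcases a3 with a3 | a3
        · exact ⟨a3, a2⟩
        · exact absurd a3 h
    · intro y hy z hz he
      obtain ⟨a1, a2, a3, a4⟩ := key y (Finset.mem_coe.1 hy)
      obtain ⟨b1, b2, b3, b4⟩ := key z (Finset.mem_coe.1 hz)
      have c1 := mem_kS89 G ((mem_Lv15 G).1 a1).1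
      have c2 := mem_kS89 G ((mem_Lv15 G).1 b1).1
      dsimp only at he
      split_ifs at he with h h' h'
      · exact nx_inj42 G hG c1 c2 he
      · exact absurd he (b4 y a1)
      · exact absurd he.symm (a4 z b1)
      · exact he
  omega

/-- **the chain free form**: `H` is any property of the sides which does not change at a leaf (the two
sides at a leaf are sides of the same white face) -/
theorem HHc63 (hG : G.Geo4 al kp U) {K : (cg G).ConnectedComponent}
    (hin : ∀ x ∈ kS G K, x.2 ∈ inN G) (H : V × V → Prop)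
    (hH : ∀ y ∈ Lv G K, H (nx G y) ↔ H y) :
    ((Gd63 G al K).filter H).card + (Lo63 G al K).card ≤
      ((Lv G K).filter H).card + (PK G al K).card + (WsK G al K).card +
        ((LL63 G al K).filter (fun y => ¬ H y)).card +
        ((LP63 G K).filter (fun y => ¬ H y)).card := by
  have h1 := HH63 G hG hin
  have h2 := Finset.card_filter_add_card_filter_not (s := Gd63 G al K) H
  have h3 := Finset.card_filter_add_card_filter_not (s := Lv G K) H
  have h4 := chain63 G hG H hH (al := al)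
  rw [Gb_eq63 G hG hin] at h4
  omega

/-- **the chain free form, every black face** -/
theorem HHcu63 (hG : G.Geo4 al kp U) (K : (cg G).ConnectedComponent) (H : V × V → Prop)
    (hH : ∀ y ∈ Lv G K, H (nx G y) ↔ H y) :
    (((Gb63 G al K).filter H).card : ℝ) + ((Lb63 G al K).card : ℝ) + (oK14 G K : ℝ) ≤
      (((Lv G K).filter H).card : ℝ) + ((PK G al K).card : ℝ) + ((WsK G al K).card : ℝ) +
        (((LL63 G al K).filter (fun y => ¬ H y)).card : ℝ) +
        (((LP63 G K).filter (fun y => ¬ H y)).card : ℝ) + 2 * uK14 G al K := by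
  have h1 := HHu63 G hG K (al := al)
  have h2 := Finset.card_filter_add_card_filter_not (s := Gb63 G al K) H
  have h3 := Finset.card_filter_add_card_filter_not (s := Lv G K) H
  have h4 := chain63 G hG H hH (al := al)
  have h2' : (((Gb63 G al K).filter H).card : ℝ) + ((Gb63 G al K).filter (fun y => ¬ H y)).card =
      (Gb63 G al K).card := by exact_mod_cast h2
  have h3' : (((Lv G K).filter H).card : ℝ) + ((Lv G K).filter (fun y => ¬ H y)).card =
      (Lv G K).card := by exact_mod_cast h3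
  have h4' : (((Lv G K).filter (fun y => ¬ H y)).card : ℝ) ≤
      ((Gb63 G al K).filter (fun y => ¬ H y)).card +
      (((LL63 G al K).filter (fun y => ¬ H y)).card +
        ((LP63 G K).filter (fun y => ¬ H y)).card) := by exact_mod_cast h4
  linarith

/-- a leaf of `LL63` is the corner `Cen61`, or one of its two sides is weak -/
theorem LL_cen63 (hG : G.Geo4 al kp U) (h1 : ∀ x ∈ iJ G, gc G al x ≤ 1) (he : ep al ≤ 1 / 2)
    {K : (cg G).ConnectedComponent} {y : V × V} (hy : y ∈ LL63 G al K) :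
    Cen61 G al (sg G y) ∨ y ∈ WsK G al K ∨ nx G y ∈ WsK G al K := by
  unfold LL63 at hy
  obtain ⟨hl, h2, h3⟩ := Finset.mem_filter.1 hy
  obtain ⟨h4, h5, h6⟩ := (mem_Lv15 G).1 hl
  have h7 := mem_kS89 G h4
  have hep := ep_pos89 G hG
  obtain ⟨h8, h9⟩ := leaf_gc2 G hG h1 h7 h5 h6
  obtain ⟨b1, b2⟩ := BC_head14 G hG h7 h5
  have n1 := nx_kS89 G hG h4
  have i1 : 1 / 2 ≤ gc G al (sg G y) := by linarith
  have g1 : gc G al y < 1 / 2 := by
    by_contra h
    push Not at h
    exact h2 ((mem_Gd63 G).2 ⟨h4, h, i1⟩)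
  have g2 : gc G al (sg G (sg G y)) < 1 / 2 := by
    by_contra h
    push Not at h
    refine h3 ((mem_Gd63 G).2 ⟨n1, ?_, ?_⟩)
    · rw [h8]
      exact i1
    · rw [h8]
      exact h
  by_cases s1 : 0 ≤ sp G al y
  · by_cases s2 : 0 ≤ sp G al (sg G y)
    · refine Or.inl ⟨y, ((mem_BC89 G).1 b1).1, rfl, s1, s2, by linarith⟩
    · push Not at s2
      exact Or.inr (Or.inr ((mem_WsK63 G).2 ⟨n1, b2, by rw [h8]; exact s2⟩))
  · push Not at s1
    exact Or.inr (Or.inl ((mem_WsK63 G).2 ⟨h4, b1, s1⟩))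

end

end Pool.Agent.PEN.E5
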