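import Pool.Agent.E5.Pf85
import Pool.Agent.E5.HH63
import Pool.Agent.E5.Dd15

/-! # PENNY, all small diameters: next to a pure fan, next to a tight digon

`s` is a side of a white face. If its black face is a pure fan with at least two triangles whose
centre is not an end of `s`, and both ends of `s` are points with 7 units and a corner of at least 3
units, then a neighbouring side of the white face is a digon. -/

set_option autoImplicit false

namespace Pool.Agent.PEN.E5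

open Classical UpperHalfPlane
open Pool.Agent.PEN.Cl

noncomputable section

variable {V : Type} (G : Tg V) {al : ℝ} {kp : V → V → ℝ} {U : ℕ → ℝ}

/-- the neighbours of a side on a pure fan -/
theorem nbr85 (hG : G.Geo4 al kp U) {K : (cg G).ConnectedComponent} {s r q z : V × V}
    (hs : s ∈ kS G K) (hz : z ∈ kS G K) (hzt : tK G K = rn G z) (h2 : 2 ≤ rn G z)
    (hzs : s ≠ z) (hzp : nx G z ≠ s) (hv1 : s.1 ∈ inN G) (hv2 : s.2 ∈ inN G)
    (u1 : uv G al s.1 = 7) (u2 : uv G al s.2 = 7) (a1 : 3 ≤ un G al s)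
    (a2 : 3 ≤ un G al (sg G s)) (c1 : 2 ≤ cv G s.1) (c2 : 2 ≤ cv G s.2)
    (hr : r ∈ SD G) (hrs : sg G r = s) (hq : q ∈ SD G) (hqs : nx G q = sg G s) :
    rn G r = 0 ∨ rn G q = 0 := by
  have hsS := mem_kS89 G hs
  obtain ⟨p, hp1, hps⟩ := nx_surj42 G hG hsS
  have hp : p ∈ kS G K := (mem_kS42 G).2 ⟨hp1, by
    rw [← ((mem_kS42 G).1 hs).2, ← hps]
    exact (nx_ku63 G hG hp1).2.symm⟩
  have hpz : p ≠ z := fun h => hzp (by rw [← h]; exact hps)
  have hr2 : r.2 = s.1 := by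
    have := congrArg Prod.fst hrs
    exact this
  have hp2 : p.2 = s.1 := by
    have := congrArg Prod.fst hps
    exact this
  have hq2 : q.2 = s.2 := by
    have := congrArg Prod.fst hqs
    exact this
  have hbs : s ∈ BC G := (BC_head14 G hG hsS hv2).1
  have hbsg : sg G s ∈ Bv G s.2 := sg_Bv62 G hG hv2 ((mem_Sv62 G).2 ⟨hsS, rfl⟩)
  have hsB : s ∈ Bv G s.1 := (mem_Bv62 G).2 ⟨hbs, rfl⟩
  rcases pure_ends85 G hG hz hzt h2 hp hpz (by rw [hps]; exact hzs) with h | h | h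
  · -- the run at `s.2` is 2
    rw [hps] at h
    right
    have hne : s ≠ q := fun he => by
      have h3 : sg G s = nx G s := by rw [← hqs, ← he]
      have := (sg_nx_iff89 G hG hv2 hsS rfl).1 h3
      omega
    have := two_le85 G hG u2 hbsg a2 c2 ((mem_Sv62 G).2 ⟨hsS, rfl⟩)
      ((mem_Sv62 G).2 ⟨hq, hq2⟩) hne
    omega
  · left
    have hne : r ≠ p := fun he => by
      have h3 : sg G r = nx G r := by rw [hrs, he, hps]
      have := (sg_nx_iff89 G hG (by rw [← hr2] at hv1; exact hv1) hr rfl).1 h3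
      rw [hr2] at this
      omega
    have := two_le85 G hG u1 hsB a1 c1 ((mem_Sv62 G).2 ⟨hr, hr2⟩)
      ((mem_Sv62 G).2 ⟨hp1, hp2⟩) hne
    omega
  · left
    have hne : r ≠ p := fun he => by
      have h3 : sg G r = nx G r := by rw [hrs, he, hps]
      have := (sg_nx_iff89 G hG (by rw [← hr2] at hv1; exact hv1) hr rfl).1 h3
      rw [hr2] at this
      omega
    have := two_le85 G hG u1 hsB a1 c1 ((mem_Sv62 G).2 ⟨hr, hr2⟩)
      ((mem_Sv62 G).2 ⟨hp1, hp2⟩) hne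
    omega

/-- at a tight point the third corner is not shared -/
theorem tight_ne85 (hG : G.Geo4 al kp U) {v : V} (hv : v ∈ inN G) (hc : cv G v = 3)
    {s z : V × V} (hs : s ∈ Sv G v) (hz : z ∈ Sv G v) (hzs : z ≠ s) (h3 : nx G z = sg G s) :
    nx G s ≠ sg G z := by
  intro h
  have hcard : (Sv G v).card = 3 := by rw [Sv_card89 G hG hv, hc]
  obtain ⟨y, hy⟩ : (((Sv G v).erase s).erase z).Nonempty := by
    apply Finset.card_pos.1
    have h1 := Finset.card_erase_add_one hs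
    have h2 := Finset.card_erase_add_one (Finset.mem_erase.2 ⟨hzs, hz⟩)
    omega
  have hyz := Finset.ne_of_mem_erase hy
  have hy' := Finset.mem_of_mem_erase hy
  have hys := Finset.ne_of_mem_erase hy'
  have hyS := Finset.mem_of_mem_erase hy'
  have hb : nx G y ∈ Bv G v := nx_Bv62 G hG hv hyS
  rw [← image_sg62 G hG hv] at hb
  obtain ⟨w, hw, hwy⟩ := Finset.mem_image.1 hb
  have hws : w ≠ s := fun he => by
    rw [he, ← h3] at hwy
    exact hyz (nx_injSv89 G hG hz hyS hwy).symm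
  have hwz : w ≠ z := fun he => by
    rw [he, ← h] at hwy
    exact hys (nx_injSv89 G hG hs hyS hwy).symm
  have hwy' : w = y := by
    by_contra hne
    have h4 : 4 ≤ (Sv G v).card := by
      have h5 : ({s, z, y, w} : Finset (V × V)) ⊆ Sv G v := by
        intro a ha
        rw [Finset.mem_insert, Finset.mem_insert, Finset.mem_insert, Finset.mem_singleton] at ha
        rcases ha with ha | ha | ha | ha
        · rw [ha]; exact hs
        · rw [ha]; exact hz
        · rw [ha]; exact hyS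
        · rw [ha]; exact hw
      have h6 : ({s, z, y, w} : Finset (V × V)).card = 4 := by
        rw [Finset.card_insert_of_notMem, Finset.card_insert_of_notMem,
          Finset.card_insert_of_notMem, Finset.card_singleton]
        · rw [Finset.mem_singleton]
          exact fun h7 => hne h7.symm
        · rw [Finset.mem_insert, Finset.mem_singleton, not_or]
          exact ⟨hyz.symm, hwz.symm⟩
        · rw [Finset.mem_insert, Finset.mem_insert, Finset.mem_singleton, not_or, not_or]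
          exact ⟨hzs.symm, hys.symm, hws.symm⟩
      rw [← h6]
      exact Finset.card_le_card h5
    omega
  rw [hwy'] at hwy
  obtain ⟨h8, h9⟩ := (mem_Sv62 G).1 hyS
  have := (sg_nx_iff89 G hG hv h8 h9).1 hwy
  omega

/-- a sector at a point with 7 units which is no leaf is negative -/
theorem neg7_85 (hG : G.Geo4 al kp U) {x : V × V} (hx : x ∈ SD G) (hv : x.2 ∈ inN G)
    (hu : uv G al x.2 = 7) (hc : cv G x.2 ≠ 1) : Ds G al x < 0 := by
  by_contra h
  push Not at h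
  rcases pos_sector89 G hG hv hx rfl h with h1 | h1
  · exact hc h1
  · omega

/-- the resource of a tight digon: the digon `K` of the side `a` with payer `c`, `nx c = a`,
`nx a = c` -/
theorem third85 (hG : G.Geo4 al kp U) {c a : V × V} (hc : c ∈ SD G) (h0 : rn G c = 0)
    (hca : nx G c = a) (hac : nx G a = c) (hv : c.2 ∈ inN G) (h8 : 8 ≤ uv G al c.2)
    (hD : 0 ≤ Ds G al c) (h : sp G al c < 0 ∨ sp G al a < 0 ∨ 0 < Ds G al a) :
    tK G (ku G c) = 0 ∧ (2 ≤ (Lv G (ku G c)).card + (PK G al (ku G c)).card +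
      (WsK G al (ku G c)).card ∨ (1 ≤ (PK G al (ku G c)).card ∧ 1 ≤ uK14 G al (ku G c))) := by
  obtain ⟨d1, d2, _, d4, d5, _⟩ := digon54 G hG hc h0
  have hcK : c ∈ kS G (ku G c) := (mem_kS42 G).2 ⟨hc, rfl⟩
  have haK : a ∈ kS G (ku G c) := by rw [← hca]; exact nx_kS89 G hG hcK
  have haS := mem_kS89 G haK
  have hcP : c ∈ PK G al (ku G c) := (mem_PK63 G).2 ⟨hcK, hv, h8, hD⟩
  obtain ⟨b1, b2⟩ := BC_head14 G hG hc hv
  rw [hca] at b2
  have hne : a ≠ c := fun he => by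
    have h3 := head_ne63 G hG hc
    rw [hca, he] at h3
    exact h3 rfl
  have hP1 : 1 ≤ (PK G al (ku G c)).card := Finset.card_pos.2 ⟨c, hcP⟩
  refine ⟨d4, ?_⟩
  rcases h with h | h | h
  · left
    have : 1 ≤ (WsK G al (ku G c)).card :=
      Finset.card_pos.2 ⟨c, (mem_WsK63 G).2 ⟨hcK, b1, h⟩⟩
    omega
  · left
    have : 1 ≤ (WsK G al (ku G c)).card :=
      Finset.card_pos.2 ⟨a, (mem_WsK63 G).2 ⟨haK, b2, h⟩⟩
    omega
  · by_cases hva : a.2 ∈ inN G
    · left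
      rcases pos_sector89 G hG hva haS rfl h.le with h1 | h1
      · have : 1 ≤ (Lv G (ku G c)).card :=
          Finset.card_pos.2 ⟨a, (mem_Lv15 G).2 ⟨haK, hva, h1⟩⟩
        omega
      · have h2 : a ∈ PK G al (ku G c) := (mem_PK63 G).2 ⟨haK, hva, h1, h.le⟩
        have : 2 ≤ (PK G al (ku G c)).card := by
          have h3 : ({a, c} : Finset (V × V)) ⊆ PK G al (ku G c) := by
            intro y hy
            rw [Finset.mem_insert, Finset.mem_singleton] at hy
            rcases hy with hy | hy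
            · rw [hy]; exact h2
            · rw [hy]; exact hcP
          rw [← Finset.card_pair hne]
          exact Finset.card_le_card h3
        omega
    · right
      refine ⟨hP1, ?_⟩
      have hmem : a ∈ (kS G (ku G c)).filter (fun x => x.2 ∉ inN G) :=
        Finset.mem_filter.2 ⟨haK, hva⟩
      have h1 : us14 G al a ≤ uK14 G al (ku G c) := by
        unfold uK14
        exact Finset.single_le_sum (fun x _ => us_nonneg14 G hG x) hmem
      have h2 : us14 G al a = Ds G al a + 1 := by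
        unfold us14 Ds
        rw [if_pos b2, hac, if_pos b1]
        ring
      linarith

/-- the side `c1` with digon behind, at its tail `v1`: weight, claim or resource at `c0` -/
theorem left85 (hG : G.Geo4 al kp U) {c0 c1 : V × V} (hc0 : c0 ∈ SD G) (e0 : sg G c0 = c1)
    (hc1 : c1 ∈ SD G) (hv1 : c1.1 ∈ inN G) (hv2 : c1.2 ∈ inN G) (n1 : cv G c1.1 ≠ 1)
    (n2 : cv G c1.2 ≠ 1) (u2 : uv G al c1.2 = 7) (h0 : rn G c1 = 0)
    (hE : (∃ z, Ex1 G al (ku G c1) z) ∨ (∃ z, Ex2 G al (ku G c1) z))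
    (hm : 2 ≤ gc G al c0 + gc G al c1 + gc G al (sg G c1)) :
    yK15 G al (ku G c1) = 2 ∨ (c1.1 ∈ A2 G al ∧ c1 ∈ Vl39 G al c1.1) ∨
    (tK G (ku G c0) = 0 ∧ (2 ≤ (Lv G (ku G c0)).card + (PK G al (ku G c0)).card +
      (WsK G al (ku G c0)).card ∨ (1 ≤ (PK G al (ku G c0)).card ∧ 1 ≤ uK14 G al (ku G c0)))) := by
  obtain ⟨d1, d2, _, d4, d5, d6⟩ := digon54 G hG hc1 h0
  obtain ⟨_, _, _, _, g5, _⟩ := digon54 G hG d1 d6
  dsimp only at g5
  have hb2 : ((c1.2, c1.1) : V × V).2 = c1.1 := rfl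
  have hc01 : c0.2 = c1.1 := by
    have := congrArg Prod.fst e0
    exact this
  have hcB : c1 ∈ BC G := (BC_head14 G hG hc1 hv2).1
  rcases hE with ⟨z, hz⟩ | ⟨z, hz⟩
  · exfalso
    have hzL : z ∈ Lv G (ku G c1) := by rw [hz.1]; exact Finset.mem_singleton_self z
    obtain ⟨h1, h2, h3⟩ := (mem_Lv15 G).1 hzL
    rw [d2, Finset.mem_insert, Finset.mem_singleton] at h1
    rcases h1 with h1 | h1
    · rw [h1] at h3; exact n2 h3
    · rw [h1] at h3; exact n1 h3
  have hzP : z ∈ PK G al (ku G c1) := by rw [hz.2.1]; exact Finset.mem_singleton_self z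
  obtain ⟨h1, h2, h3, h4⟩ := (mem_PK63 G).1 hzP
  have hzb : z = (c1.2, c1.1) := by
    rw [d2, Finset.mem_insert, Finset.mem_singleton] at h1
    rcases h1 with h1 | h1
    · rw [h1] at h3
      omega
    · exact h1
  rw [hzb] at h3 h4
  dsimp only at h3
  by_cases hT : ∃ s ∈ Sv G c1.1, rn G s ≠ 0
  · left
    unfold yK15
    rw [if_pos]
    refine ⟨z, hz, Or.inr ?_⟩
    rw [hzb]
    exact hT
  push Not at hT
  right
  by_cases hTi : Ti39 G al c1.1
  · right
    obtain ⟨t1, t2, t3⟩ := hTi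
    have hs : c0 ∈ Sv G c1.1 := (mem_Sv62 G).2 ⟨hc0, hc01⟩
    have hbS : (c1.2, c1.1) ∈ Sv G c1.1 := (mem_Sv62 G).2 ⟨d1, rfl⟩
    have hnb : nx G (c1.2, c1.1) = sg G c0 := by rw [e0]; exact g5
    have hne : (c1.2, c1.1) ≠ c0 := fun he => by
      rw [he] at hnb
      exact n1 ((sg_nx_iff89 G hG hv1 hc0 hc01).1 hnb.symm)
    have hr0 := hT c0 hs
    obtain ⟨f1, f2, _, f4, f5, f6⟩ := digon54 G hG hc0 hr0
    obtain ⟨_, _, _, _, k5, _⟩ := digon54 G hG f1 f6
    dsimp only at k5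
    refine third85 G hG hc0 hr0 rfl (by rw [f5]; exact k5) (by rw [hc01]; exact hv1)
      (by rw [hc01]; exact h3) (t3 c0 hs) ?_
    by_contra hno
    push Not at hno
    have h5 := digons18 G hG hv1 hs hbS hne (tight_ne85 G hG hv1 t2 hs hbS hne hnb) n1 hnb hr0
      (hT _ hbS) hno.2.2 (by rw [e0]; exact (neg7_85 G hG hc1 hv2 u2 n2).le) hno.2.1 (by
        by_contra hw
        push Not at hw
        have h6 : (c1.2, c1.1) ∈ WsK G al (ku G c1) := (mem_WsK63 G).2 ⟨by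
          rw [← d5]; exact nx_kS89 G hG ((mem_kS42 G).2 ⟨hc1, rfl⟩), by
          rw [← d5]; exact (BC_head14 G hG hc1 hv2).2, hw⟩
        rw [hz.2.2.1] at h6
        exact absurd h6 (Finset.notMem_empty _))
    have hep := ep_pos89 G hG
    rw [e0, kv_eq89, t1] at h5
    push_cast at h5
    linarith
  · left
    refine ⟨Finset.mem_filter.2 ⟨hv1, h3⟩, Finset.mem_filter.2
      ⟨(mem_Bv62 G).2 ⟨hcB, rfl⟩, hTi, Or.inr (Or.inr hT)⟩⟩

/-- the side `c4` with digon behind, at its head `v5`: weight, claim or resource at `c5` -/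
theorem right85 (hG : G.Geo4 al kp U) {c4 c5 : V × V} (hc4 : c4 ∈ SD G) (e4 : sg G c4 = c5)
    (hv4 : c4.1 ∈ inN G) (hv5 : c4.2 ∈ inN G) (n4 : cv G c4.1 ≠ 1)
    (n5 : cv G c4.2 ≠ 1) (u4 : uv G al c4.1 = 7) (h0 : tK G (ku G c4) = 0)
    (hE : (∃ z, Ex1 G al (ku G c4) z) ∨ (∃ z, Ex2 G al (ku G c4) z))
    (hm : 2 ≤ gc G al c4 + gc G al c5 + gc G al (sg G c5)) :
    yK15 G al (ku G c4) = 2 ∨ (c5.1 ∈ A2 G al ∧ c5 ∈ Vl39 G al c5.1) ∨
    (tK G (ku G c5) = 0 ∧ (2 ≤ (Lv G (ku G c5)).card + (PK G al (ku G c5)).card +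
      (WsK G al (ku G c5)).card ∨ (1 ≤ (PK G al (ku G c5)).card ∧ 1 ≤ uK14 G al (ku G c5)))) := by
  have h0' := (tK_zero54 G hG hc4).1 h0
  obtain ⟨d1, d2, _, d4, d5, d6⟩ := digon54 G hG hc4 h0'
  have hc45 : c5.1 = c4.2 := by
    have := congrArg Prod.fst e4
    exact this.symm
  have h4S : c4 ∈ Sv G c4.2 := (mem_Sv62 G).2 ⟨hc4, rfl⟩
  have h5B : c5 ∈ Bv G c4.2 := by rw [← e4]; exact sg_Bv62 G hG hv5 h4S
  have hc5 : c5 ∈ SD G := Bv_SD62 G h5B
  rcases hE with ⟨z, hz⟩ | ⟨z, hz⟩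
  · exfalso
    have hzL : z ∈ Lv G (ku G c4) := by rw [hz.1]; exact Finset.mem_singleton_self z
    obtain ⟨h1, h2, h3⟩ := (mem_Lv15 G).1 hzL
    rw [d2, Finset.mem_insert, Finset.mem_singleton] at h1
    rcases h1 with h1 | h1
    · rw [h1] at h3; exact n5 h3
    · rw [h1] at h3; exact n4 h3
  have hzP : z ∈ PK G al (ku G c4) := by rw [hz.2.1]; exact Finset.mem_singleton_self z
  obtain ⟨h1, h2, h3, h4⟩ := (mem_PK63 G).1 hzP
  have hzb : z = c4 := by
    rw [d2, Finset.mem_insert, Finset.mem_singleton] at h1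
    rcases h1 with h1 | h1
    · exact h1
    · rw [h1] at h3
      dsimp only at h3
      omega
  rw [hzb] at h3 h4
  by_cases hT : ∃ s ∈ Sv G c4.2, rn G s ≠ 0
  · left
    unfold yK15
    rw [if_pos]
    refine ⟨z, hz, Or.inr ?_⟩
    rw [hzb]
    exact hT
  push Not at hT
  right
  by_cases hTi : Ti39 G al c4.2
  · right
    obtain ⟨t1, t2, t3⟩ := hTi
    obtain ⟨p, hp, hpn⟩ := nx_surj42 G hG hc5
    have hp2 : p.2 = c4.2 := by
      have := congrArg Prod.fst hpn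
      rw [hc45] at this
      exact this
    have hpS : p ∈ Sv G c4.2 := (mem_Sv62 G).2 ⟨hp, hp2⟩
    have hnb : nx G p = sg G c4 := by rw [e4]; exact hpn
    have hne : p ≠ c4 := fun he => by
      rw [he] at hnb
      exact n5 ((sg_nx_iff89 G hG hv5 hc4 rfl).1 hnb.symm)
    have hr0 := hT p hpS
    obtain ⟨f1, f2, _, f4, f5, f6⟩ := digon54 G hG hp hr0
    obtain ⟨_, _, _, _, k5, _⟩ := digon54 G hG f1 f6
    dsimp only at k5
    have hc5s : c5 = (p.2, p.1) := by rw [← hpn]; exact f5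
    have hku : ku G p = ku G c5 := by rw [← hpn]; exact (nx_ku63 G hG hp).2.symm
    have h9 := third85 G hG hp hr0 hpn (by rw [hc5s]; exact k5) (by rw [hp2]; exact hv5)
      (by rw [hp2]; exact h3) (t3 p hpS) (al := al) ?_
    · rw [hku] at h9
      exact h9
    by_contra hno
    push Not at hno
    have h5 := digons18 G hG hv5 h4S hpS hne (tight_ne85 G hG hv5 t2 h4S hpS hne hnb) n5 hnb
      (hT _ h4S) hr0 (by
        rw [d5]
        exact (neg7_85 G hG d1 hv4 u4 n4).le) (by rw [e4]; exact hno.2.2) (by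
        by_contra hw
        push Not at hw
        have h6 : nx G c4 ∈ WsK G al (ku G c4) := (mem_WsK63 G).2
          ⟨nx_kS89 G hG ((mem_kS42 G).2 ⟨hc4, rfl⟩), (BC_head14 G hG hc4 hv5).2, hw⟩
        rw [hz.2.2.1] at h6
        exact absurd h6 (Finset.notMem_empty _)) hno.1
    have hep := ep_pos89 G hG
    rw [e4, kv_eq89, t1] at h5
    push_cast at h5
    linarith
  · left
    rw [hc45]
    refine ⟨Finset.mem_filter.2 ⟨hv5, h3⟩, Finset.mem_filter.2 ⟨h5B, hTi, Or.inr (Or.inr hT)⟩⟩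

/-- a pure leaf fan or a pure payer fan at a side between two points with 7 units, no leaves -/
theorem mid85 (hG : G.Geo4 al kp U) {c : V × V} (hc : c ∈ SD G) (n1 : cv G c.1 ≠ 1) (n2 : cv G c.2 ≠ 1) (u1 : uv G al c.1 = 7)
    (u2 : uv G al c.2 = 7)
    (hE : (∃ z, Ex1 G al (ku G c) z) ∨ (∃ z, Ex2 G al (ku G c) z)) :
    1 ≤ tK G (ku G c) ∧ (yK15 G al (ku G c) = 2 ∨ (∃ z, Ex1 G al (ku G c) z)) := by
  have hne0 : tK G (ku G c) ≠ 0 := by
    intro h0
    obtain ⟨d1, d2, _⟩ := digon54 G hG hc ((tK_zero54 G hG hc).1 h0)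
    rcases hE with ⟨z, hz⟩ | ⟨z, hz⟩
    · have hzL : z ∈ Lv G (ku G c) := by rw [hz.1]; exact Finset.mem_singleton_self z
      obtain ⟨h1, h2, h3⟩ := (mem_Lv15 G).1 hzL
      rw [d2, Finset.mem_insert, Finset.mem_singleton] at h1
      rcases h1 with h1 | h1
      · rw [h1] at h3; exact n2 h3
      · rw [h1] at h3; exact n1 h3
    · have hzP : z ∈ PK G al (ku G c) := by rw [hz.2.1]; exact Finset.mem_singleton_self z
      obtain ⟨h1, h2, h3, h4⟩ := (mem_PK63 G).1 hzP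
      rw [d2, Finset.mem_insert, Finset.mem_singleton] at h1
      rcases h1 with h1 | h1
      · rw [h1] at h3; omega
      · rw [h1] at h3
        dsimp only at h3
        omega
  refine ⟨by omega, ?_⟩
  rcases hE with h | ⟨z, hz⟩
  · exact Or.inr h
  · left
    unfold yK15
    rw [if_pos ⟨z, hz, Or.inl (by omega)⟩]

/-- the centre of a pure leaf fan at a side whose ends are no leaves -/
theorem centre85 {c z : V × V} (n1 : cv G c.1 ≠ 1)
    (n2 : cv G c.2 ≠ 1) (hz : Ex1 G al (ku G c) z) :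
    z ∈ kS G (ku G c) ∧ c ≠ z ∧ nx G z ≠ c := by
  have hzL : z ∈ Lv G (ku G c) := by rw [hz.1]; exact Finset.mem_singleton_self z
  obtain ⟨h1, h2, h3⟩ := (mem_Lv15 G).1 hzL
  refine ⟨h1, fun he => ?_, fun he => ?_⟩
  · rw [← he] at h3
    exact n2 h3
  · have : z.2 = c.1 := by
      have := congrArg Prod.fst he
      exact this
    rw [this] at h3
    exact n1 h3

/-- **case E of the H17 row**: the black faces at `e1 .. e4` are pure leaf fans or pure payer fans, the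
points `v2, v3, v4` have 7 units, `v1 .. v5` are no leaves -/
theorem caseE85 (hG : G.Geo4 al kp U) (h1 : ∀ x ∈ iJ G, gc G al x ≤ 1)
    {c0 c1 c2 c3 c4 c5 : V × V} (hc0 : c0 ∈ BC G)
    (s0 : sg G c0 = c1) (s1 : sg G c1 = c2) (s2 : sg G c2 = c3) (s3 : sg G c3 = c4)
    (s4 : sg G c4 = c5) (s5 : sg G c5 = c0)
    (a2 : 3 ≤ un G al c2) (a3 : 3 ≤ un G al c3) (a4 : 3 ≤ un G al c4)
    (hm : 5 ≤ gc G al c0 + gc G al c1 + gc G al c2 + gc G al c3 + gc G al c4 + gc G al c5)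
    (f1 : 1 + gc G al c1 ≤ gc G al c3 + gc G al c4)
    (f5 : 1 + gc G al c5 ≤ gc G al c3 + gc G al c2)
    (hv1 : c1.1 ∈ inN G) (hv2 : c2.1 ∈ inN G) (hv3 : c3.1 ∈ inN G) (hv4 : c4.1 ∈ inN G)
    (hv5 : c5.1 ∈ inN G) (n1 : cv G c1.1 ≠ 1) (n2 : cv G c2.1 ≠ 1) (n3 : cv G c3.1 ≠ 1)
    (n4 : cv G c4.1 ≠ 1) (n5 : cv G c5.1 ≠ 1)
    (u2 : uv G al c2.1 = 7) (u3 : uv G al c3.1 = 7) (u4 : uv G al c4.1 = 7)
    (E1 : (∃ z, Ex1 G al (ku G c1) z) ∨ (∃ z, Ex2 G al (ku G c1) z))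
    (E2 : (∃ z, Ex1 G al (ku G c2) z) ∨ (∃ z, Ex2 G al (ku G c2) z))
    (E3 : (∃ z, Ex1 G al (ku G c3) z) ∨ (∃ z, Ex2 G al (ku G c3) z))
    (E4 : (∃ z, Ex1 G al (ku G c4) z) ∨ (∃ z, Ex2 G al (ku G c4) z)) :
    1 ≤ (yK15 G al (ku G c1) - 1) * sp G al c1 + (yK15 G al (ku G c2) - 1) * sp G al c2 +
      (yK15 G al (ku G c3) - 1) * sp G al c3 + (yK15 G al (ku G c4) - 1) * sp G al c4 ∨
    (∃ z, (z = c1 ∨ z = c5) ∧ z.1 ∈ A2 G al ∧ z ∈ Vl39 G al z.1) ∨
    (∃ e, (e = c2 ∨ e = c3) ∧ ∃ z, Ex1 G al (ku G e) z ∧ tK G (ku G e) = 1) ∨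
    (∃ e, (e = c0 ∨ e = c5) ∧ tK G (ku G e) = 0 ∧
      (2 ≤ (Lv G (ku G e)).card + (PK G al (ku G e)).card + (WsK G al (ku G e)).card ∨
        (1 ≤ (PK G al (ku G e)).card ∧ 1 ≤ uK14 G al (ku G e)))) := by
  have t01 : c0.2 = c1.1 := congrArg Prod.fst s0
  have t12 : c1.2 = c2.1 := congrArg Prod.fst s1
  have t23 : c2.2 = c3.1 := congrArg Prod.fst s2
  have t34 : c3.2 = c4.1 := congrArg Prod.fst s3
  have t45 : c4.2 = c5.1 := congrArg Prod.fst s4
  have m0 : c0 ∈ SD G := BC_SD14 G hc0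
  have b1 : c1 ∈ Bv G c1.1 := by
    have := sg_Bv62 G hG (v := c1.1) hv1 ((mem_Sv62 G).2 ⟨m0, t01⟩)
    rwa [s0] at this
  have m1 : c1 ∈ SD G := Bv_SD62 G b1
  have b2 : c2 ∈ Bv G c2.1 := by
    have := sg_Bv62 G hG (v := c2.1) hv2 ((mem_Sv62 G).2 ⟨m1, t12⟩)
    rwa [s1] at this
  have m2 : c2 ∈ SD G := Bv_SD62 G b2
  have b3 : c3 ∈ Bv G c3.1 := by
    have := sg_Bv62 G hG (v := c3.1) hv3 ((mem_Sv62 G).2 ⟨m2, t23⟩)
    rwa [s2] at this
  have m3 : c3 ∈ SD G := Bv_SD62 G b3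
  have b4 : c4 ∈ Bv G c4.1 := by
    have := sg_Bv62 G hG (v := c4.1) hv4 ((mem_Sv62 G).2 ⟨m3, t34⟩)
    rwa [s3] at this
  have m4 : c4 ∈ SD G := Bv_SD62 G b4
  have b5 : c5 ∈ Bv G c5.1 := by
    have := sg_Bv62 G hG (v := c5.1) hv5 ((mem_Sv62 G).2 ⟨m4, t45⟩)
    rwa [s4] at this
  have g0 : gc G al c0 ≤ 1 := h1 _ ((mem_BC89 G).1 hc0).1
  have g1 : gc G al c1 ≤ 1 := h1 _ ((mem_BC89 G).1 ((mem_Bv62 G).1 b1).1).1
  have g2 : gc G al c2 ≤ 1 := h1 _ ((mem_BC89 G).1 ((mem_Bv62 G).1 b2).1).1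
  have g3 : gc G al c3 ≤ 1 := h1 _ ((mem_BC89 G).1 ((mem_Bv62 G).1 b3).1).1
  have g4 : gc G al c4 ≤ 1 := h1 _ ((mem_BC89 G).1 ((mem_Bv62 G).1 b4).1).1
  have g5 : gc G al c5 ≤ 1 := h1 _ ((mem_BC89 G).1 ((mem_Bv62 G).1 b5).1).1
  have sp1 : sp G al c1 = gc G al c1 + gc G al c2 - 1 := by unfold sp; rw [s1]
  have sp2 : sp G al c2 = gc G al c2 + gc G al c3 - 1 := by unfold sp; rw [s2]
  have sp3 : sp G al c3 = gc G al c3 + gc G al c4 - 1 := by unfold sp; rw [s3]
  have sp4 : sp G al c4 = gc G al c4 + gc G al c5 - 1 := by unfold sp; rw [s4]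
  have cpos : ∀ v ∈ inN G, cv G v ≠ 1 → 2 ≤ cv G v := fun v hv hn => by
    have := cv_pos15 G hG hv
    omega
  obtain ⟨p2, q2⟩ := mid85 G hG m2 n2 (by rw [t23]; exact n3) u2
    (by rw [t23]; exact u3) E2
  obtain ⟨p3, q3⟩ := mid85 G hG m3 n3 (by rw [t34]; exact n4) u3
    (by rw [t34]; exact u4) E3
  have y1 := yK_one15 G (al := al) (ku G c1)
  have y2 := yK_one15 G (al := al) (ku G c2)
  have y3 := yK_one15 G (al := al) (ku G c3)
  have y4 := yK_one15 G (al := al) (ku G c4)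
  -- the left half
  have L : (yK15 G al (ku G c2) = 2 ∨ yK15 G al (ku G c1) = 2) ∨
      ((c1.1 ∈ A2 G al ∧ c1 ∈ Vl39 G al c1.1) ∨
      ((∃ z, Ex1 G al (ku G c2) z ∧ tK G (ku G c2) = 1) ∨
      (tK G (ku G c0) = 0 ∧ (2 ≤ (Lv G (ku G c0)).card + (PK G al (ku G c0)).card +
      (WsK G al (ku G c0)).card ∨
        (1 ≤ (PK G al (ku G c0)).card ∧ 1 ≤ uK14 G al (ku G c0)))))) := by
    rcases q2 with q2 | ⟨z, hz⟩
    · exact Or.inl (Or.inl q2)
    · by_cases ht : tK G (ku G c2) = 1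
      · exact Or.inr (Or.inr (Or.inl ⟨z, hz, ht⟩))
      · obtain ⟨k1, k2, k3⟩ := centre85 G n2 (by rw [t23]; exact n3) hz
        have hzt : tK G (ku G c2) = rn G z := hz.2.2.2.1
        obtain ⟨q, hq, hqn⟩ := nx_surj42 G hG m3
        have hr0 : rn G c1 = 0 := by
          rcases nbr85 G hG ((mem_kS42 G).2 ⟨m2, rfl⟩) k1 hzt (by omega) k2 k3 hv2
            (by rw [t23]; exact hv3) u2 (by rw [t23]; exact u3) a2 (by rw [s2]; exact a3)
            (cpos _ hv2 n2) (by rw [t23]; exact cpos _ hv3 n3) m1 s1 hq (by rw [s2]; exact hqn)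
            with h | h
          · exact h
          · exfalso
            have h5 := (tK_zero54 G hG hq).2 h
            rw [← (nx_ku63 G hG hq).2, hqn] at h5
            omega
        rcases left85 G hG m0 s0 m1 hv1 (by rw [t12]; exact hv2) n1 (by rw [t12]; exact n2)
          (by rw [t12]; exact u2) hr0 E1 (by rw [s1]; linarith) with h | h | h
        · exact Or.inl (Or.inr h)
        · exact Or.inr (Or.inl h)
        · exact Or.inr (Or.inr (Or.inr h))
  have R : (yK15 G al (ku G c3) = 2 ∨ yK15 G al (ku G c4) = 2) ∨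
      ((c5.1 ∈ A2 G al ∧ c5 ∈ Vl39 G al c5.1) ∨
      ((∃ z, Ex1 G al (ku G c3) z ∧ tK G (ku G c3) = 1) ∨
      (tK G (ku G c5) = 0 ∧ (2 ≤ (Lv G (ku G c5)).card + (PK G al (ku G c5)).card +
      (WsK G al (ku G c5)).card ∨
        (1 ≤ (PK G al (ku G c5)).card ∧ 1 ≤ uK14 G al (ku G c5)))))) := by
    rcases q3 with q3 | ⟨z, hz⟩
    · exact Or.inl (Or.inl q3)
    · by_cases ht : tK G (ku G c3) = 1
      · exact Or.inr (Or.inr (Or.inl ⟨z, hz, ht⟩))
      · obtain ⟨k1, k2, k3⟩ := centre85 G n3 (by rw [t34]; exact n4) hz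
        have hzt : tK G (ku G c3) = rn G z := hz.2.2.2.1
        obtain ⟨q, hq, hqn⟩ := nx_surj42 G hG m4
        have hr0 : tK G (ku G c4) = 0 := by
          rcases nbr85 G hG ((mem_kS42 G).2 ⟨m3, rfl⟩) k1 hzt (by omega) k2 k3 hv3
            (by rw [t34]; exact hv4) u3 (by rw [t34]; exact u4) a3 (by rw [s3]; exact a4)
            (cpos _ hv3 n3) (by rw [t34]; exact cpos _ hv4 n4) m2 s2 hq (by rw [s3]; exact hqn)
            with h | h
          · exfalso
            have h5 := (tK_zero54 G hG m2).2 h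
            omega
          · have h5 := (tK_zero54 G hG hq).2 h
            rw [← (nx_ku63 G hG hq).2, hqn] at h5
            exact h5
        rcases right85 G hG m4 s4 hv4 (by rw [t45]; exact hv5) n4 (by rw [t45]; exact n5) u4
          hr0 E4 (by rw [s5]; linarith) with h | h | h
        · exact Or.inl (Or.inr h)
        · exact Or.inr (Or.inl h)
        · exact Or.inr (Or.inr (Or.inr h))
  rcases L with hL | hL | hL | hL
  · rcases R with hR | hR | hR | hR
    · left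
      have z1 : 0 ≤ (yK15 G al (ku G c1) - 1) * sp G al c1 :=
        mul_nonneg (by linarith) (by rw [sp1]; linarith)
      have z2 : 0 ≤ (yK15 G al (ku G c2) - 1) * sp G al c2 :=
        mul_nonneg (by linarith) (by rw [sp2]; linarith)
      have z3 : 0 ≤ (yK15 G al (ku G c3) - 1) * sp G al c3 :=
        mul_nonneg (by linarith) (by rw [sp3]; linarith)
      have z4 : 0 ≤ (yK15 G al (ku G c4) - 1) * sp G al c4 :=
        mul_nonneg (by linarith) (by rw [sp4]; linarith)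
      rcases hL with hL | hL <;> rcases hR with hR | hR
      · have e1 : (yK15 G al (ku G c2) - 1) * sp G al c2 = gc G al c2 + gc G al c3 - 1 := by
          rw [hL, sp2]; ring
        have e2 : (yK15 G al (ku G c3) - 1) * sp G al c3 = gc G al c3 + gc G al c4 - 1 := by
          rw [hR, sp3]; ring
        linarith
      · have e1 : (yK15 G al (ku G c2) - 1) * sp G al c2 = gc G al c2 + gc G al c3 - 1 := by
          rw [hL, sp2]; ring
        have e2 : (yK15 G al (ku G c4) - 1) * sp G al c4 = gc G al c4 + gc G al c5 - 1 := by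
          rw [hR, sp4]; ring
        linarith
      · have e1 : (yK15 G al (ku G c1) - 1) * sp G al c1 = gc G al c1 + gc G al c2 - 1 := by
          rw [hL, sp1]; ring
        have e2 : (yK15 G al (ku G c3) - 1) * sp G al c3 = gc G al c3 + gc G al c4 - 1 := by
          rw [hR, sp3]; ring
        linarith
      · have e1 : (yK15 G al (ku G c1) - 1) * sp G al c1 = gc G al c1 + gc G al c2 - 1 := by
          rw [hL, sp1]; ring
        have e2 : (yK15 G al (ku G c4) - 1) * sp G al c4 = gc G al c4 + gc G al c5 - 1 := by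
          rw [hR, sp4]; ring
        linarith
    · exact Or.inr (Or.inl ⟨c5, Or.inr rfl, hR⟩)
    · exact Or.inr (Or.inr (Or.inl ⟨c3, Or.inr rfl, hR⟩))
    · exact Or.inr (Or.inr (Or.inr ⟨c5, Or.inr rfl, hR⟩))
  · exact Or.inr (Or.inl ⟨c1, Or.inl rfl, hL⟩)
  · exact Or.inr (Or.inr (Or.inl ⟨c2, Or.inl rfl, hL⟩))
  · exact Or.inr (Or.inr (Or.inr ⟨c0, Or.inl rfl, hL⟩))

end

end Pool.Agent.PEN.E5
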