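import Pool.Agent.E5.Sf19
import Pool.Agent.P4.NumV52

/-! # PENNY, all small diameters: numbers for the hexagon with 17 units and the pentagon

Interpolation of a sum of cosines between two arguments, and the values there. -/

set_option autoImplicit false

namespace Pool.Agent.PEN.E5

open Classical UpperHalfPlane

noncomputable section

/-- bounds of a cosine -/
def Cb14 (x l u : ℝ) : Prop := l ≤ Real.cos x ∧ Real.cos x ≤ u

theorem tay14 {x l u : ℝ} (h0 : 0 ≤ x) (h1 : x ≤ 2)
    (hl : l ≤ 1 - x ^ 2 / 2 + x ^ 4 / 24 - x ^ 6 / 720)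
    (hu : 1 - x ^ 2 / 2 + x ^ 4 / 24 - x ^ 6 / 720 + x ^ 8 / 40320 ≤ u) : Cb14 x l u :=
  ⟨hl.trans (cos_ge52 h0 h1), (cos_le8_52 h0 h1).trans hu⟩

theorem dp14 {x y l u l' u' : ℝ} (h : Cb14 x l u) (h0 : 0 ≤ l) (hy : y = 2 * x)
    (h1 : l' ≤ 2 * l ^ 2 - 1) (h2 : 2 * u ^ 2 - 1 ≤ u') : Cb14 y l' u' := by
  obtain ⟨h3, h4⟩ := h
  have h5 : Real.cos y = 2 * Real.cos x ^ 2 - 1 := by rw [hy, Real.cos_two_mul]
  constructor
  · rw [h5]
    have := mul_self_le_mul_self h0 h3
    nlinarith
  · rw [h5]
    have := mul_self_le_mul_self (h0.trans h3) h4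
    nlinarith

theorem dn14 {x y l u l' u' : ℝ} (h : Cb14 x l u) (h0 : u ≤ 0) (hy : y = 2 * x)
    (h1 : l' ≤ 2 * u ^ 2 - 1) (h2 : 2 * l ^ 2 - 1 ≤ u') : Cb14 y l' u' := by
  obtain ⟨h3, h4⟩ := h
  have h5 : Real.cos y = 2 * Real.cos x ^ 2 - 1 := by rw [hy, Real.cos_two_mul]
  constructor
  · rw [h5]
    have := mul_self_le_mul_self (neg_nonneg.2 h0) (neg_le_neg h4)
    nlinarith
  · rw [h5]
    have := mul_self_le_mul_self (neg_nonneg.2 (h4.trans h0)) (neg_le_neg h3)
    nlinarith

/-- `x ^ 2 / 2 + c cos x` is convex for `|c| ≤ 1` -/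
theorem cvx14 {c : ℝ} (hc : |c| ≤ 1) : ConvexOn ℝ Set.univ (fun x => x ^ 2 / 2 + c * Real.cos x) := by
  have hd : ∀ x : ℝ, HasDerivAt (fun x => x ^ 2 / 2 + c * Real.cos x) (x - c * Real.sin x) x := by
    intro x
    have h1 := ((hasDerivAt_pow 2 x).div_const 2).add ((Real.hasDerivAt_cos x).const_mul c)
    refine h1.congr_deriv ?_
    push_cast
    ring
  refine Monotone.convexOn_univ_of_deriv (fun x => (hd x).differentiableAt) ?_
  have hderiv : deriv (fun x => x ^ 2 / 2 + c * Real.cos x) = fun x => x - c * Real.sin x :=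
    funext fun x => (hd x).deriv
  rw [hderiv]
  intro x y hxy
  have h1 : |Real.sin y - Real.sin x| ≤ |y - x| := by
    have h2 : Real.sin y - Real.sin x = 2 * Real.sin ((y - x) / 2) * Real.cos ((y + x) / 2) :=
      Real.sin_sub_sin y x
    rw [h2, abs_mul, abs_mul, abs_two]
    have h3 : |Real.sin ((y - x) / 2)| ≤ |(y - x) / 2| := Real.abs_sin_le_abs
    have h4 := Real.abs_cos_le_one ((y + x) / 2)
    have h5 : |(y - x) / 2| = |y - x| / 2 := by rw [abs_div, abs_two]
    rw [h5] at h3
    have h6 : 0 ≤ |Real.sin ((y - x) / 2)| := abs_nonneg _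
    nlinarith [abs_nonneg (Real.cos ((y + x) / 2))]
  rw [abs_of_nonneg (sub_nonneg.2 hxy)] at h1
  have h7 : |c * (Real.sin y - Real.sin x)| ≤ y - x := by
    rw [abs_mul]
    have := abs_nonneg (Real.sin y - Real.sin x)
    nlinarith
  have h8 := (abs_le.1 h7).2
  dsimp only
  linarith

/-- interpolation of the cosine -/
theorem chord14 (k : ℝ) {a0 a1 a s : ℝ} (s0 : 0 ≤ s) (s1 : s ≤ 1)
    (ha : a = (1 - s) * a0 + s * a1) :
    (1 - s) * Real.cos (k * a0) + s * Real.cos (k * a1) - k ^ 2 * ((a1 - a0) ^ 2 / 8) ≤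
      Real.cos (k * a) ∧
    Real.cos (k * a) ≤
      (1 - s) * Real.cos (k * a0) + s * Real.cos (k * a1) + k ^ 2 * ((a1 - a0) ^ 2 / 8) := by
  have hs : 0 ≤ 1 - s := by linarith
  have key : k ^ 2 * (s * (1 - s) * (a1 - a0) ^ 2 / 2) ≤ k ^ 2 * ((a1 - a0) ^ 2 / 8) := by
    apply mul_le_mul_of_nonneg_left _ (sq_nonneg k)
    nlinarith [sq_nonneg ((2 * s - 1) * (a1 - a0))]
  have e : k * a = (1 - s) * (k * a0) + s * (k * a1) := by rw [ha]; ring
  have h1 := (cvx14 (c := 1) (by norm_num)).2 (Set.mem_univ (k * a0)) (Set.mem_univ (k * a1)) hs s0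
    (by ring)
  have h2 := (cvx14 (c := -1) (by norm_num)).2 (Set.mem_univ (k * a0)) (Set.mem_univ (k * a1)) hs s0
    (by ring)
  simp only [smul_eq_mul] at h1 h2
  rw [← e] at h1 h2
  have e2 : (k * a) ^ 2 / 2 = (1 - s) * ((k * a0) ^ 2 / 2) + s * ((k * a1) ^ 2 / 2) -
      k ^ 2 * (s * (1 - s) * (a1 - a0) ^ 2 / 2) := by
    rw [ha]
    ring
  rw [e2] at h1 h2
  constructor
  · linarith
  · linarith

/-- half the sum of the squares of the frequencies -/
def Mf14 (p q r : ℝ) : ℝ := ((p + 1) ^ 2 + (p - 1) ^ 2 + (q + 1) ^ 2 + (q - 1) ^ 2 + 2 ^ 2 +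
  (p - q + 1) ^ 2 + (p - q - 1) ^ 2 + (p - q) ^ 2 + (p + q) ^ 2 + 2 * r ^ 2 + (r + 1) ^ 2 +
  (r - 1) ^ 2) / 2

theorem HH_int14 (p q r : ℝ) {a0 a1 a s : ℝ} (s0 : 0 ≤ s) (s1 : s ≤ 1)
    (ha : a = (1 - s) * a0 + s * a1) :
    (1 - s) * HH19 p q r a0 + s * HH19 p q r a1 - Mf14 p q r * ((a1 - a0) ^ 2 / 8) ≤
      HH19 p q r a ∧
    HH19 p q r a ≤
      (1 - s) * HH19 p q r a0 + s * HH19 p q r a1 + Mf14 p q r * ((a1 - a0) ^ 2 / 8) := by
  have f := fun k => chord14 k s0 s1 ha
  obtain ⟨x1, y1⟩ := f (p + 1)
  obtain ⟨x2, y2⟩ := f (p - 1)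
  obtain ⟨x3, y3⟩ := f (q + 1)
  obtain ⟨x4, y4⟩ := f (q - 1)
  obtain ⟨x5, y5⟩ := f 2
  obtain ⟨x6, y6⟩ := f (p - q + 1)
  obtain ⟨x7, y7⟩ := f (p - q - 1)
  obtain ⟨x8, y8⟩ := f (p - q)
  obtain ⟨x9, y9⟩ := f (p + q)
  obtain ⟨x10, y10⟩ := f r
  obtain ⟨x11, y11⟩ := f (r + 1)
  obtain ⟨x12, y12⟩ := f (r - 1)
  clear f
  generalize (a1 - a0) ^ 2 / 8 = δ at *
  unfold HH19 Mf14
  generalize Real.cos ((p + 1) * a) = u1 at *
  generalize Real.cos ((p - 1) * a) = u2 at *
  generalize Real.cos ((q + 1) * a) = u3 at *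
  generalize Real.cos ((q - 1) * a) = u4 at *
  generalize Real.cos (2 * a) = u5 at *
  generalize Real.cos ((p - q + 1) * a) = u6 at *
  generalize Real.cos ((p - q - 1) * a) = u7 at *
  generalize Real.cos ((p - q) * a) = u8 at *
  generalize Real.cos ((p + q) * a) = u9 at *
  generalize Real.cos (r * a) = u10 at *
  generalize Real.cos ((r + 1) * a) = u11 at *
  generalize Real.cos ((r - 1) * a) = u12 at *
  constructor
  · linarith
  · linarith

/-- the parameter of the interpolation -/
theorem par14 {a : ℝ} (h0 : 1029 / 1000 ≤ a) (h1 : a ≤ 1309 / 1250) : ∃ s : ℝ, 0 ≤ s ∧ s ≤ 1 ∧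
    a = (1 - s) * (1029 / 1000) + s * (1309 / 1250) := by
  refine ⟨(a - 1029 / 1000) / (91 / 5000), div_nonneg (by linarith) (by norm_num), ?_, ?_⟩
  · rw [div_le_one (by norm_num)]
    linarith
  · field_simp
    ring

theorem pi3_14 : Real.pi / 3 ≤ 1309 / 1250 := by
  have := Real.pi_lt_d4
  linarith

theorem c0_14 : Cb14 (3087 / 1000) (-6240689 / 6250000) (-99851017 / 100000000) := by
  have h0 : Cb14 (3087 / 16000) (49072261 / 50000000) (98144523 / 100000000) := tay14 (by norm_num) (by norm_num) (by norm_num) (by norm_num)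
  have h1 : Cb14 (3087 / 8000) (92646943 / 100000000) (23161737 / 25000000) := dp14 h0 (by norm_num) (by norm_num) (by norm_num) (by norm_num)
  have h2 : Cb14 (3087 / 4000) (111983 / 156250) (3583457 / 5000000) := dp14 h1 (by norm_num) (by norm_num) (by norm_num) (by norm_num)
  have h3 : Cb14 (3087 / 2000) (545851 / 20000000) (2729313 / 100000000) := dp14 h2 (by norm_num) (by norm_num) (by norm_num) (by norm_num)
  have h4 : Cb14 (3087 / 1000) (-6240689 / 6250000) (-99851017 / 100000000) := dp14 h3 (by norm_num) (by norm_num) (by norm_num) (by norm_num)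
  exact h4

theorem c1_14 : Cb14 (1029 / 1000) (51567581 / 100000000) (51567599 / 100000000) := by
  have h0 : Cb14 (1029 / 4000) (96709329 / 100000000) (9670933 / 10000000) := tay14 (by norm_num) (by norm_num) (by norm_num) (by norm_num)
  have h1 : Cb14 (1029 / 2000) (43526943 / 50000000) (87053891 / 100000000) := dp14 h0 (by norm_num) (by norm_num) (by norm_num) (by norm_num)
  have h2 : Cb14 (1029 / 1000) (51567581 / 100000000) (51567599 / 100000000) := dp14 h1 (by norm_num) (by norm_num) (by norm_num) (by norm_num)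
  exact h2

theorem c2_14 : Cb14 (126567 / 50000) (-81950341 / 100000000) (-1024379 / 1250000) := by
  have h0 : Cb14 (126567 / 400000) (152057 / 160000) (47517813 / 50000000) := tay14 (by norm_num) (by norm_num) (by norm_num) (by norm_num)
  have h1 : Cb14 (126567 / 200000) (403177 / 500000) (16127081 / 20000000) := dp14 h0 (by norm_num) (by norm_num) (by norm_num) (by norm_num)
  have h2 : Cb14 (126567 / 100000) (15020677 / 50000000) (30041371 / 100000000) := dp14 h1 (by norm_num) (by norm_num) (by norm_num) (by norm_num)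
  have h3 : Cb14 (126567 / 50000) (-81950341 / 100000000) (-1024379 / 1250000) := dp14 h2 (by norm_num) (by norm_num) (by norm_num) (by norm_num)
  exact h3

theorem c3_14 : Cb14 (23667 / 50000) (11125633 / 12500000) (89005069 / 100000000) := by
  have h0 : Cb14 (23667 / 100000) (97212413 / 100000000) (48606207 / 50000000) := tay14 (by norm_num) (by norm_num) (by norm_num) (by norm_num)
  have h1 : Cb14 (23667 / 50000) (11125633 / 12500000) (89005069 / 100000000) := dp14 h0 (by norm_num) (by norm_num) (by norm_num) (by norm_num)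
  exact h1

theorem c4_14 : Cb14 (1029 / 500) (-11703923 / 25000000) (-23407827 / 50000000) := by
  have h0 : Cb14 (1029 / 4000) (96709329 / 100000000) (9670933 / 10000000) := tay14 (by norm_num) (by norm_num) (by norm_num) (by norm_num)
  have h1 : Cb14 (1029 / 2000) (43526943 / 50000000) (87053891 / 100000000) := dp14 h0 (by norm_num) (by norm_num) (by norm_num) (by norm_num)
  have h2 : Cb14 (1029 / 1000) (51567581 / 100000000) (51567599 / 100000000) := dp14 h1 (by norm_num) (by norm_num) (by norm_num) (by norm_num)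
  have h3 : Cb14 (1029 / 500) (-11703923 / 25000000) (-23407827 / 50000000) := dp14 h2 (by norm_num) (by norm_num) (by norm_num) (by norm_num)
  exact h3

theorem c5_14 : Cb14 (79233 / 50000) (-86647 / 6250000) (-693149 / 50000000) := by
  have h0 : Cb14 (79233 / 400000) (24511143 / 25000000) (98044573 / 100000000) := tay14 (by norm_num) (by norm_num) (by norm_num) (by norm_num)
  have h1 : Cb14 (79233 / 200000) (92254761 / 100000000) (46127383 / 50000000) := dp14 h0 (by norm_num) (by norm_num) (by norm_num) (by norm_num)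
  have h2 : Cb14 (79233 / 100000) (35109409 / 50000000) (70218837 / 100000000) := dp14 h1 (by norm_num) (by norm_num) (by norm_num) (by norm_num)
  have h3 : Cb14 (79233 / 50000) (-86647 / 6250000) (-693149 / 50000000) := dp14 h2 (by norm_num) (by norm_num) (by norm_num) (by norm_num)
  exact h3

theorem c6_14 : Cb14 (27783 / 50000) (21238811 / 25000000) (84955249 / 100000000) := by
  have h0 : Cb14 (27783 / 100000) (48082643 / 50000000) (96165287 / 100000000) := tay14 (by norm_num) (by norm_num) (by norm_num) (by norm_num)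
  have h1 : Cb14 (27783 / 50000) (21238811 / 25000000) (84955249 / 100000000) := dp14 h0 (by norm_num) (by norm_num) (by norm_num) (by norm_num)
  exact h1

theorem c7_14 : Cb14 (178017 / 50000) (-45679959 / 50000000) (-22839969 / 25000000) := by
  have h0 : Cb14 (178017 / 800000) (97534413 / 100000000) (48767207 / 50000000) := tay14 (by norm_num) (by norm_num) (by norm_num) (by norm_num)
  have h1 : Cb14 (178017 / 400000) (45129617 / 50000000) (90259239 / 100000000) := dp14 h0 (by norm_num) (by norm_num) (by norm_num) (by norm_num)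
  have h2 : Cb14 (178017 / 200000) (31467293 / 50000000) (12586921 / 20000000) := dp14 h1 (by norm_num) (by norm_num) (by norm_num) (by norm_num)
  have h3 : Cb14 (178017 / 100000) (-10392379 / 50000000) (-20784709 / 100000000) := dp14 h2 (by norm_num) (by norm_num) (by norm_num) (by norm_num)
  have h4 : Cb14 (178017 / 50000) (-45679959 / 50000000) (-22839969 / 25000000) := dn14 h3 (by norm_num) (by norm_num) (by norm_num) (by norm_num)
  exact h4

theorem c8_14 : Cb14 (130683 / 50000) (-17277009 / 20000000) (-43192513 / 50000000) := by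
  have h0 : Cb14 (130683 / 400000) (23677603 / 25000000) (94710413 / 100000000) := tay14 (by norm_num) (by norm_num) (by norm_num) (by norm_num)
  have h1 : Cb14 (130683 / 200000) (39700621 / 50000000) (79401247 / 100000000) := dp14 h0 (by norm_num) (by norm_num) (by norm_num) (by norm_num)
  have h2 : Cb14 (130683 / 100000) (3261393 / 12500000) (26091161 / 100000000) := dp14 h1 (by norm_num) (by norm_num) (by norm_num) (by norm_num)
  have h3 : Cb14 (130683 / 50000) (-17277009 / 20000000) (-43192513 / 50000000) := dp14 h2 (by norm_num) (by norm_num) (by norm_num) (by norm_num)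
  exact h3

theorem c9_14 : Cb14 (3927 / 1250) (-1) (-99999999 / 100000000) := by
  have h0 : Cb14 (3927 / 20000) (98078519 / 100000000) (2451963 / 2500000) := tay14 (by norm_num) (by norm_num) (by norm_num) (by norm_num)
  have h1 : Cb14 (3927 / 10000) (92387917 / 100000000) (46193961 / 50000000) := dp14 h0 (by norm_num) (by norm_num) (by norm_num) (by norm_num)
  have h2 : Cb14 (3927 / 5000) (4419409 / 6250000) (70710563 / 100000000) := dp14 h1 (by norm_num) (by norm_num) (by norm_num) (by norm_num)
  have h3 : Cb14 (3927 / 2500) (-19 / 5000000) (-13 / 4000000) := dp14 h2 (by norm_num) (by norm_num) (by norm_num) (by norm_num)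
  have h4 : Cb14 (3927 / 1250) (-1) (-99999999 / 100000000) := dn14 h3 (by norm_num) (by norm_num) (by norm_num) (by norm_num)
  exact h4

theorem c10_14 : Cb14 (1309 / 1250) (1562493 / 3125000) (49999791 / 100000000) := by
  have h0 : Cb14 (1309 / 5000) (48296283 / 50000000) (96592567 / 100000000) := tay14 (by norm_num) (by norm_num) (by norm_num) (by norm_num)
  have h1 : Cb14 (1309 / 2500) (21650619 / 25000000) (1082531 / 1250000) := dp14 h0 (by norm_num) (by norm_num) (by norm_num) (by norm_num)
  have h2 : Cb14 (1309 / 1250) (1562493 / 3125000) (49999791 / 100000000) := dp14 h1 (by norm_num) (by norm_num) (by norm_num) (by norm_num)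
  exact h2

theorem c11_14 : Cb14 (161007 / 62500) (-135093 / 160000) (-84433109 / 100000000) := by
  have h0 : Cb14 (161007 / 500000) (18971999 / 20000000) (23714999 / 25000000) := tay14 (by norm_num) (by norm_num) (by norm_num) (by norm_num)
  have h1 : Cb14 (161007 / 250000) (79968373 / 100000000) (79968377 / 100000000) := dp14 h0 (by norm_num) (by norm_num) (by norm_num) (by norm_num)
  have h2 : Cb14 (161007 / 125000) (27898813 / 100000000) (27898827 / 100000000) := dp14 h1 (by norm_num) (by norm_num) (by norm_num) (by norm_num)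
  have h3 : Cb14 (161007 / 62500) (-135093 / 160000) (-84433109 / 100000000) := dp14 h2 (by norm_num) (by norm_num) (by norm_num) (by norm_num)
  exact h3

theorem c12_14 : Cb14 (30107 / 62500) (88620303 / 100000000) (22155077 / 25000000) := by
  have h0 : Cb14 (30107 / 125000) (48556707 / 50000000) (19422683 / 20000000) := tay14 (by norm_num) (by norm_num) (by norm_num) (by norm_num)
  have h1 : Cb14 (30107 / 62500) (88620303 / 100000000) (22155077 / 25000000) := dp14 h0 (by norm_num) (by norm_num) (by norm_num) (by norm_num)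
  exact h1

theorem c13_14 : Cb14 (1309 / 625) (-781257 / 1562500) (-50000417 / 100000000) := by
  have h0 : Cb14 (1309 / 5000) (48296283 / 50000000) (96592567 / 100000000) := tay14 (by norm_num) (by norm_num) (by norm_num) (by norm_num)
  have h1 : Cb14 (1309 / 2500) (21650619 / 25000000) (1082531 / 1250000) := dp14 h0 (by norm_num) (by norm_num) (by norm_num) (by norm_num)
  have h2 : Cb14 (1309 / 1250) (1562493 / 3125000) (49999791 / 100000000) := dp14 h1 (by norm_num) (by norm_num) (by norm_num) (by norm_num)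
  have h3 : Cb14 (1309 / 625) (-781257 / 1562500) (-50000417 / 100000000) := dp14 h2 (by norm_num) (by norm_num) (by norm_num) (by norm_num)
  exact h3

theorem c14_14 : Cb14 (100793 / 62500) (-4187971 / 100000000) (-2093959 / 50000000) := by
  have h0 : Cb14 (100793 / 500000) (3919001 / 4000000) (48987513 / 50000000) := tay14 (by norm_num) (by norm_num) (by norm_num) (by norm_num)
  have h1 : Cb14 (100793 / 250000) (9198211 / 10000000) (18396423 / 20000000) := dp14 h0 (by norm_num) (by norm_num) (by norm_num) (by norm_num)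
  have h2 : Cb14 (100793 / 125000) (69214171 / 100000000) (6921419 / 10000000) := dp14 h1 (by norm_num) (by norm_num) (by norm_num) (by norm_num)
  have h3 : Cb14 (100793 / 62500) (-4187971 / 100000000) (-2093959 / 50000000) := dp14 h2 (by norm_num) (by norm_num) (by norm_num) (by norm_num)
  exact h3

theorem c15_14 : Cb14 (35343 / 62500) (84432721 / 100000000) (42216363 / 50000000) := by
  have h0 : Cb14 (35343 / 125000) (1920587 / 2000000) (96029351 / 100000000) := tay14 (by norm_num) (by norm_num) (by norm_num) (by norm_num)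
  have h1 : Cb14 (35343 / 62500) (84432721 / 100000000) (42216363 / 50000000) := dp14 h0 (by norm_num) (by norm_num) (by norm_num) (by norm_num)
  exact h1

theorem c16_14 : Cb14 (226457 / 62500) (-88619983 / 100000000) (-2769373 / 3125000) := by
  have h0 : Cb14 (226457 / 1000000) (243617 / 250000) (97446801 / 100000000) := tay14 (by norm_num) (by norm_num) (by norm_num) (by norm_num)
  have h1 : Cb14 (226457 / 500000) (11239697 / 12500000) (89917581 / 100000000) := dp14 h0 (by norm_num) (by norm_num) (by norm_num) (by norm_num)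
  have h2 : Cb14 (226457 / 250000) (61703409 / 100000000) (15425857 / 25000000) := dp14 h1 (by norm_num) (by norm_num) (by norm_num) (by norm_num)
  have h3 : Cb14 (226457 / 125000) (-23853787 / 100000000) (-23853739 / 100000000) := dp14 h2 (by norm_num) (by norm_num) (by norm_num) (by norm_num)
  have h4 : Cb14 (226457 / 62500) (-88619983 / 100000000) (-2769373 / 3125000) := dn14 h3 (by norm_num) (by norm_num) (by norm_num) (by norm_num)
  exact h4

theorem c17_14 : Cb14 (166243 / 62500) (-4431033 / 5000000) (-88620631 / 100000000) := by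
  have h0 : Cb14 (166243 / 500000) (11815423 / 12500000) (47261693 / 50000000) := tay14 (by norm_num) (by norm_num) (by norm_num) (by norm_num)
  have h1 : Cb14 (166243 / 250000) (39346701 / 50000000) (78693411 / 100000000) := dp14 h0 (by norm_num) (by norm_num) (by norm_num) (by norm_num)
  have h2 : Cb14 (166243 / 125000) (2385303 / 10000000) (23853059 / 100000000) := dp14 h1 (by norm_num) (by norm_num) (by norm_num) (by norm_num)
  have h3 : Cb14 (166243 / 62500) (-4431033 / 5000000) (-88620631 / 100000000) := dp14 h2 (by norm_num) (by norm_num) (by norm_num) (by norm_num)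
  exact h3

theorem c18_14 : Cb14 (340599 / 100000) (-12065629 / 12500000) (-24131251 / 25000000) := by
  have h0 : Cb14 (340599 / 1600000) (6108923 / 6250000) (97742769 / 100000000) := tay14 (by norm_num) (by norm_num) (by norm_num) (by norm_num)
  have h1 : Cb14 (340599 / 800000) (91072973 / 100000000) (45536489 / 50000000) := dp14 h0 (by norm_num) (by norm_num) (by norm_num) (by norm_num)
  have h2 : Cb14 (340599 / 400000) (2058929 / 3125000) (65885747 / 100000000) := dp14 h1 (by norm_num) (by norm_num) (by norm_num) (by norm_num)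
  have h3 : Cb14 (340599 / 200000) (-13181417 / 100000000) (-6590683 / 50000000) := dp14 h2 (by norm_num) (by norm_num) (by norm_num) (by norm_num)
  have h4 : Cb14 (340599 / 100000) (-12065629 / 12500000) (-24131251 / 25000000) := dn14 h3 (by norm_num) (by norm_num) (by norm_num) (by norm_num)
  exact h4

theorem c19_14 : Cb14 (134799 / 100000) (5524183 / 25000000) (5524199 / 25000000) := by
  have h0 : Cb14 (134799 / 800000) (24645941 / 25000000) (19716753 / 20000000) := tay14 (by norm_num) (by norm_num) (by norm_num) (by norm_num)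
  have h1 : Cb14 (134799 / 400000) (9437517 / 10000000) (3775007 / 4000000) := dp14 h0 (by norm_num) (by norm_num) (by norm_num) (by norm_num)
  have h2 : Cb14 (134799 / 200000) (39066727 / 50000000) (39066737 / 50000000) := dp14 h1 (by norm_num) (by norm_num) (by norm_num) (by norm_num)
  have h3 : Cb14 (134799 / 100000) (5524183 / 25000000) (5524199 / 25000000) := dp14 h2 (by norm_num) (by norm_num) (by norm_num) (by norm_num)
  exact h3

theorem c20_14 : Cb14 (114219 / 50000) (-13090949 / 20000000) (-32727357 / 50000000) := by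
  have h0 : Cb14 (114219 / 400000) (95950757 / 100000000) (47975379 / 50000000) := tay14 (by norm_num) (by norm_num) (by norm_num) (by norm_num)
  have h1 : Cb14 (114219 / 200000) (16826191 / 20000000) (1051637 / 1250000) := dp14 h0 (by norm_num) (by norm_num) (by norm_num) (by norm_num)
  have h2 : Cb14 (114219 / 100000) (41560351 / 100000000) (41560369 / 100000000) := dp14 h1 (by norm_num) (by norm_num) (by norm_num) (by norm_num)
  have h3 : Cb14 (114219 / 50000) (-13090949 / 20000000) (-32727357 / 50000000) := dp14 h2 (by norm_num) (by norm_num) (by norm_num) (by norm_num)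
  exact h3

theorem c21_14 : Cb14 (11319 / 50000) (97448529 / 100000000) (9744853 / 10000000) := by
  have h0 : Cb14 (11319 / 50000) (97448529 / 100000000) (9744853 / 10000000) := tay14 (by norm_num) (by norm_num) (by norm_num) (by norm_num)
  exact h0

theorem c22_14 : Cb14 (215061 / 100000) (-10957367 / 20000000) (-136967 / 250000) := by
  have h0 : Cb14 (215061 / 800000) (9640833 / 10000000) (96408331 / 100000000) := tay14 (by norm_num) (by norm_num) (by norm_num) (by norm_num)
  have h1 : Cb14 (215061 / 400000) (85891321 / 100000000) (42945663 / 50000000) := dp14 h0 (by norm_num) (by norm_num) (by norm_num) (by norm_num)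
  have h2 : Cb14 (215061 / 200000) (2377319 / 5000000) (23773199 / 50000000) := dp14 h1 (by norm_num) (by norm_num) (by norm_num) (by norm_num)
  have h3 : Cb14 (215061 / 100000) (-10957367 / 20000000) (-136967 / 250000) := dp14 h2 (by norm_num) (by norm_num) (by norm_num) (by norm_num)
  exact h3

theorem c23_14 : Cb14 (9261 / 100000) (3982859 / 4000000) (24892869 / 25000000) := by
  have h0 : Cb14 (9261 / 100000) (3982859 / 4000000) (24892869 / 25000000) := tay14 (by norm_num) (by norm_num) (by norm_num) (by norm_num)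
  exact h0

theorem c24_14 : Cb14 (112161 / 100000) (43423261 / 100000000) (43423279 / 100000000) := by
  have h0 : Cb14 (112161 / 400000) (24023603 / 25000000) (96094413 / 100000000) := tay14 (by norm_num) (by norm_num) (by norm_num) (by norm_num)
  have h1 : Cb14 (112161 / 200000) (529267 / 625000) (3387309 / 4000000) := dp14 h0 (by norm_num) (by norm_num) (by norm_num) (by norm_num)
  have h2 : Cb14 (112161 / 100000) (43423261 / 100000000) (43423279 / 100000000) := dp14 h1 (by norm_num) (by norm_num) (by norm_num) (by norm_num)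
  exact h2

theorem c25_14 : Cb14 (363237 / 100000) (-44098357 / 50000000) (-88196667 / 100000000) := by
  have h0 : Cb14 (363237 / 1600000) (48717037 / 50000000) (3897363 / 4000000) := tay14 (by norm_num) (by norm_num) (by norm_num) (by norm_num)
  have h1 : Cb14 (363237 / 800000) (3594719 / 4000000) (4493399 / 5000000) := dp14 h0 (by norm_num) (by norm_num) (by norm_num) (by norm_num)
  have h2 : Cb14 (363237 / 400000) (30762529 / 50000000) (61525077 / 100000000) := dp14 h1 (by norm_num) (by norm_num) (by norm_num) (by norm_num)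
  have h3 : Cb14 (363237 / 200000) (-4858669 / 20000000) (-12146649 / 50000000) := dp14 h2 (by norm_num) (by norm_num) (by norm_num) (by norm_num)
  have h4 : Cb14 (363237 / 100000) (-44098357 / 50000000) (-88196667 / 100000000) := dn14 h3 (by norm_num) (by norm_num) (by norm_num) (by norm_num)
  exact h4

theorem c26_14 : Cb14 (433279 / 125000) (-94776593 / 100000000) (-94776559 / 100000000) := by
  have h0 : Cb14 (433279 / 2000000) (97662529 / 100000000) (9766253 / 10000000) := tay14 (by norm_num) (by norm_num) (by norm_num) (by norm_num)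
  have h1 : Cb14 (433279 / 1000000) (90759391 / 100000000) (22689849 / 25000000) := dp14 h0 (by norm_num) (by norm_num) (by norm_num) (by norm_num)
  have h2 : Cb14 (433279 / 500000) (64745341 / 100000000) (809317 / 1250000) := dp14 h1 (by norm_num) (by norm_num) (by norm_num) (by norm_num)
  have h3 : Cb14 (433279 / 250000) (-16160817 / 100000000) (-16160767 / 100000000) := dp14 h2 (by norm_num) (by norm_num) (by norm_num) (by norm_num)
  have h4 : Cb14 (433279 / 125000) (-94776593 / 100000000) (-94776559 / 100000000) := dn14 h3 (by norm_num) (by norm_num) (by norm_num) (by norm_num)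
  exact h4

theorem c27_14 : Cb14 (171479 / 125000) (158123 / 800000) (19765437 / 100000000) := by
  have h0 : Cb14 (171479 / 1000000) (49266673 / 50000000) (98533347 / 100000000) := tay14 (by norm_num) (by norm_num) (by norm_num) (by norm_num)
  have h1 : Cb14 (171479 / 500000) (18835281 / 20000000) (9417641 / 10000000) := dp14 h0 (by norm_num) (by norm_num) (by norm_num) (by norm_num)
  have h2 : Cb14 (171479 / 250000) (15476781 / 20000000) (3095357 / 4000000) := dp14 h1 (by norm_num) (by norm_num) (by norm_num) (by norm_num)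
  have h3 : Cb14 (171479 / 125000) (158123 / 800000) (19765437 / 100000000) := dp14 h2 (by norm_num) (by norm_num) (by norm_num) (by norm_num)
  exact h3

theorem c28_14 : Cb14 (145299 / 62500) (-68455121 / 100000000) (-68455093 / 100000000) := by
  have h0 : Cb14 (145299 / 500000) (9580727 / 10000000) (95807271 / 100000000) := tay14 (by norm_num) (by norm_num) (by norm_num) (by norm_num)
  have h1 : Cb14 (145299 / 250000) (83580659 / 100000000) (10447583 / 12500000) := dp14 h0 (by norm_num) (by norm_num) (by norm_num) (by norm_num)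
  have h2 : Cb14 (145299 / 125000) (39714531 / 100000000) (9928637 / 25000000) := dp14 h1 (by norm_num) (by norm_num) (by norm_num) (by norm_num)
  have h3 : Cb14 (145299 / 62500) (-68455121 / 100000000) (-68455093 / 100000000) := dp14 h2 (by norm_num) (by norm_num) (by norm_num) (by norm_num)
  exact h3

theorem c29_14 : Cb14 (14399 / 62500) (97357877 / 100000000) (48678939 / 50000000) := by
  have h0 : Cb14 (14399 / 62500) (97357877 / 100000000) (48678939 / 50000000) := tay14 (by norm_num) (by norm_num) (by norm_num) (by norm_num)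
  exact h0

theorem c30_14 : Cb14 (273581 / 125000) (-1158571 / 2000000) (-14482129 / 25000000) := by
  have h0 : Cb14 (273581 / 1000000) (19256191 / 20000000) (24070239 / 25000000) := tay14 (by norm_num) (by norm_num) (by norm_num) (by norm_num)
  have h1 : Cb14 (273581 / 500000) (17080089 / 20000000) (1708009 / 2000000) := dp14 h0 (by norm_num) (by norm_num) (by norm_num) (by norm_num)
  have h2 : Cb14 (273581 / 250000) (573309 / 1250000) (22932369 / 50000000) := dp14 h1 (by norm_num) (by norm_num) (by norm_num) (by norm_num)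
  have h3 : Cb14 (273581 / 125000) (-1158571 / 2000000) (-14482129 / 25000000) := dp14 h2 (by norm_num) (by norm_num) (by norm_num) (by norm_num)
  exact h3

theorem c31_14 : Cb14 (11781 / 125000) (49778097 / 50000000) (19911239 / 20000000) := by
  have h0 : Cb14 (11781 / 125000) (49778097 / 50000000) (19911239 / 20000000) := tay14 (by norm_num) (by norm_num) (by norm_num) (by norm_num)
  exact h0

theorem c32_14 : Cb14 (142681 / 125000) (41627819 / 100000000) (832557 / 2000000) := by
  have h0 : Cb14 (142681 / 500000) (4797799 / 5000000) (47977991 / 50000000) := tay14 (by norm_num) (by norm_num) (by norm_num) (by norm_num)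
  have h1 : Cb14 (142681 / 250000) (84151001 / 100000000) (8415101 / 10000000) := dp14 h0 (by norm_num) (by norm_num) (by norm_num) (by norm_num)
  have h2 : Cb14 (142681 / 125000) (41627819 / 100000000) (832557 / 2000000) := dp14 h1 (by norm_num) (by norm_num) (by norm_num) (by norm_num)
  exact h2

theorem c33_14 : Cb14 (462077 / 125000) (-84988839 / 100000000) (-42494393 / 50000000) := by
  have h0 : Cb14 (462077 / 2000000) (97342911 / 100000000) (1520983 / 1562500) := tay14 (by norm_num) (by norm_num) (by norm_num) (by norm_num)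
  have h1 : Cb14 (462077 / 1000000) (44756423 / 50000000) (89512851 / 100000000) := dp14 h0 (by norm_num) (by norm_num) (by norm_num) (by norm_num)
  have h2 : Cb14 (462077 / 500000) (60250991 / 100000000) (6025101 / 10000000) := dp14 h1 (by norm_num) (by norm_num) (by norm_num) (by norm_num)
  have h3 : Cb14 (462077 / 250000) (-13698181 / 50000000) (-5479263 / 20000000) := dp14 h2 (by norm_num) (by norm_num) (by norm_num) (by norm_num)
  have h4 : Cb14 (462077 / 125000) (-84988839 / 100000000) (-42494393 / 50000000) := dn14 h3 (by norm_num) (by norm_num) (by norm_num) (by norm_num)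
  exact h4

theorem c34_14 : Cb14 (254163 / 100000) (-82535687 / 100000000) (-16507133 / 20000000) := by
  have h0 : Cb14 (254163 / 800000) (94995523 / 100000000) (23748881 / 25000000) := tay14 (by norm_num) (by norm_num) (by norm_num) (by norm_num)
  have h1 : Cb14 (254163 / 400000) (80482987 / 100000000) (5030187 / 6250000) := dp14 h0 (by norm_num) (by norm_num) (by norm_num) (by norm_num)
  have h2 : Cb14 (254163 / 200000) (29550223 / 100000000) (29550241 / 100000000) := dp14 h1 (by norm_num) (by norm_num) (by norm_num) (by norm_num)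
  have h3 : Cb14 (254163 / 100000) (-82535687 / 100000000) (-16507133 / 20000000) := dp14 h2 (by norm_num) (by norm_num) (by norm_num) (by norm_num)
  exact h3

theorem c35_14 : Cb14 (48363 / 100000) (1106641 / 1250000) (17706257 / 20000000) := by
  have h0 : Cb14 (48363 / 200000) (48545247 / 50000000) (19418099 / 20000000) := tay14 (by norm_num) (by norm_num) (by norm_num) (by norm_num)
  have h1 : Cb14 (48363 / 100000) (1106641 / 1250000) (17706257 / 20000000) := dp14 h0 (by norm_num) (by norm_num) (by norm_num) (by norm_num)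
  exact h1

theorem c36_14 : Cb14 (157437 / 100000) (-178693 / 50000000) (-89333 / 25000000) := by
  have h0 : Cb14 (157437 / 800000) (98069803 / 100000000) (24517451 / 25000000) := tay14 (by norm_num) (by norm_num) (by norm_num) (by norm_num)
  have h1 : Cb14 (157437 / 400000) (3694149 / 4000000) (9235373 / 10000000) := dp14 h0 (by norm_num) (by norm_num) (by norm_num) (by norm_num)
  have h2 : Cb14 (157437 / 200000) (7058421 / 10000000) (70584229 / 100000000) := dp14 h1 (by norm_num) (by norm_num) (by norm_num) (by norm_num)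
  have h3 : Cb14 (157437 / 100000) (-178693 / 50000000) (-89333 / 25000000) := dp14 h2 (by norm_num) (by norm_num) (by norm_num) (by norm_num)
  exact h3

theorem c37_14 : Cb14 (54537 / 100000) (42746769 / 50000000) (85493543 / 100000000) := by
  have h0 : Cb14 (54537 / 200000) (24076281 / 25000000) (770441 / 800000) := tay14 (by norm_num) (by norm_num) (by norm_num) (by norm_num)
  have h1 : Cb14 (54537 / 100000) (42746769 / 50000000) (85493543 / 100000000) := dp14 h0 (by norm_num) (by norm_num) (by norm_num) (by norm_num)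
  exact h1

theorem c38_14 : Cb14 (357063 / 100000) (-9093669 / 10000000) (-90936647 / 100000000) := by
  have h0 : Cb14 (357063 / 1600000) (487601 / 500000) (97520201 / 100000000) := tay14 (by norm_num) (by norm_num) (by norm_num) (by norm_num)
  have h1 : Cb14 (357063 / 800000) (22550947 / 25000000) (90203793 / 100000000) := dp14 h0 (by norm_num) (by norm_num) (by norm_num) (by norm_num)
  have h2 : Cb14 (357063 / 400000) (62734467 / 100000000) (31367243 / 50000000) := dp14 h1 (by norm_num) (by norm_num) (by norm_num) (by norm_num)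
  have h3 : Cb14 (357063 / 200000) (-10643867 / 50000000) (-4257537 / 20000000) := dp14 h2 (by norm_num) (by norm_num) (by norm_num) (by norm_num)
  have h4 : Cb14 (357063 / 100000) (-9093669 / 10000000) (-90936647 / 100000000) := dn14 h3 (by norm_num) (by norm_num) (by norm_num) (by norm_num)
  exact h4

theorem c39_14 : Cb14 (323323 / 125000) (-84989597 / 100000000) (-42494789 / 50000000) := by
  have h0 : Cb14 (323323 / 1000000) (94818487 / 100000000) (11852311 / 12500000) := tay14 (by norm_num) (by norm_num) (by norm_num) (by norm_num)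
  have h1 : Cb14 (323323 / 500000) (79810909 / 100000000) (39905457 / 50000000) := dp14 h0 (by norm_num) (by norm_num) (by norm_num) (by norm_num)
  have h2 : Cb14 (323323 / 250000) (27395623 / 100000000) (684891 / 2500000) := dp14 h1 (by norm_num) (by norm_num) (by norm_num) (by norm_num)
  have h3 : Cb14 (323323 / 125000) (-84989597 / 100000000) (-42494789 / 50000000) := dp14 h2 (by norm_num) (by norm_num) (by norm_num) (by norm_num)
  exact h3

theorem c40_14 : Cb14 (61523 / 125000) (5508143 / 6250000) (88130293 / 100000000) := by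
  have h0 : Cb14 (61523 / 250000) (96987187 / 100000000) (24246797 / 25000000) := tay14 (by norm_num) (by norm_num) (by norm_num) (by norm_num)
  have h1 : Cb14 (61523 / 125000) (5508143 / 6250000) (88130293 / 100000000) := dp14 h0 (by norm_num) (by norm_num) (by norm_num) (by norm_num)
  exact h1

theorem c41_14 : Cb14 (200277 / 125000) (-3141487 / 100000000) (-1570721 / 50000000) := by
  have h0 : Cb14 (200277 / 1000000) (1960023 / 2000000) (98001151 / 100000000) := tay14 (by norm_num) (by norm_num) (by norm_num) (by norm_num)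
  have h1 : Cb14 (200277 / 500000) (23021127 / 25000000) (2877641 / 3125000) := dp14 h0 (by norm_num) (by norm_num) (by norm_num) (by norm_num)
  have h2 : Cb14 (200277 / 250000) (17397783 / 25000000) (17397787 / 25000000) := dp14 h1 (by norm_num) (by norm_num) (by norm_num) (by norm_num)
  have h3 : Cb14 (200277 / 125000) (-3141487 / 100000000) (-1570721 / 50000000) := dp14 h2 (by norm_num) (by norm_num) (by norm_num) (by norm_num)
  exact h3

theorem c42_14 : Cb14 (69377 / 125000) (212473 / 250000) (16997841 / 20000000) := by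
  have h0 : Cb14 (69377 / 250000) (96174113 / 100000000) (48087057 / 50000000) := tay14 (by norm_num) (by norm_num) (by norm_num) (by norm_num)
  have h1 : Cb14 (69377 / 125000) (212473 / 250000) (16997841 / 20000000) := dp14 h0 (by norm_num) (by norm_num) (by norm_num) (by norm_num)
  exact h1

theorem c43_14 : Cb14 (454223 / 125000) (-17625993 / 20000000) (-88129917 / 100000000) := by
  have h0 : Cb14 (454223 / 2000000) (24358021 / 25000000) (19486417 / 20000000) := tay14 (by norm_num) (by norm_num) (by norm_num) (by norm_num)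
  have h1 : Cb14 (454223 / 1000000) (89860219 / 100000000) (702033 / 781250) := dp14 h0 (by norm_num) (by norm_num) (by norm_num) (by norm_num)
  have h2 : Cb14 (454223 / 500000) (61497179 / 100000000) (30748599 / 50000000) := dp14 h1 (by norm_num) (by norm_num) (by norm_num) (by norm_num)
  have h3 : Cb14 (454223 / 250000) (-1218097 / 5000000) (-6090473 / 25000000) := dp14 h2 (by norm_num) (by norm_num) (by norm_num) (by norm_num)
  have h4 : Cb14 (454223 / 125000) (-17625993 / 20000000) (-88129917 / 100000000) := dn14 h3 (by norm_num) (by norm_num) (by norm_num) (by norm_num)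
  exact h4

theorem c44_14 : Cb14 (247989 / 100000) (-78894727 / 100000000) (-4930919 / 6250000) := by
  have h0 : Cb14 (247989 / 800000) (5952111 / 6250000) (95233777 / 100000000) := tay14 (by norm_num) (by norm_num) (by norm_num) (by norm_num)
  have h1 : Cb14 (247989 / 400000) (81389441 / 100000000) (40694723 / 50000000) := dp14 h0 (by norm_num) (by norm_num) (by norm_num) (by norm_num)
  have h2 : Cb14 (247989 / 200000) (16242411 / 50000000) (32484839 / 100000000) := dp14 h1 (by norm_num) (by norm_num) (by norm_num) (by norm_num)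
  have h3 : Cb14 (247989 / 100000) (-78894727 / 100000000) (-4930919 / 6250000) := dp14 h2 (by norm_num) (by norm_num) (by norm_num) (by norm_num)
  exact h3

theorem c45_14 : Cb14 (42189 / 100000) (45615831 / 50000000) (91231667 / 100000000) := by
  have h0 : Cb14 (42189 / 200000) (24445837 / 25000000) (97783349 / 100000000) := tay14 (by norm_num) (by norm_num) (by norm_num) (by norm_num)
  have h1 : Cb14 (42189 / 100000) (45615831 / 50000000) (91231667 / 100000000) := dp14 h0 (by norm_num) (by norm_num) (by norm_num) (by norm_num)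
  exact h1

theorem c46_14 : Cb14 (163611 / 100000) (-6526743 / 100000000) (-652669 / 10000000) := by
  have h0 : Cb14 (163611 / 800000) (19583197 / 20000000) (48957993 / 50000000) := tay14 (by norm_num) (by norm_num) (by norm_num) (by norm_num)
  have h1 : Cb14 (163611 / 400000) (45875401 / 50000000) (91750807 / 100000000) := dp14 h0 (by norm_num) (by norm_num) (by norm_num) (by norm_num)
  have h2 : Cb14 (163611 / 200000) (68364193 / 100000000) (17091053 / 25000000) := dp14 h1 (by norm_num) (by norm_num) (by norm_num) (by norm_num)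
  have h3 : Cb14 (163611 / 100000) (-6526743 / 100000000) (-652669 / 10000000) := dp14 h2 (by norm_num) (by norm_num) (by norm_num) (by norm_num)
  exact h3

theorem c47_14 : Cb14 (60711 / 100000) (41065007 / 50000000) (41065011 / 50000000) := by
  have h0 : Cb14 (60711 / 200000) (95427987 / 100000000) (95427989 / 100000000) := tay14 (by norm_num) (by norm_num) (by norm_num) (by norm_num)
  have h1 : Cb14 (60711 / 100000) (41065007 / 50000000) (41065011 / 50000000) := dp14 h0 (by norm_num) (by norm_num) (by norm_num) (by norm_num)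
  exact h1

theorem c48_14 : Cb14 (350889 / 100000) (-46665069 / 50000000) (-93330101 / 100000000) := by
  have h0 : Cb14 (350889 / 1600000) (48802437 / 50000000) (780839 / 800000) := tay14 (by norm_num) (by norm_num) (by norm_num) (by norm_num)
  have h1 : Cb14 (350889 / 800000) (22633557 / 25000000) (90534233 / 100000000) := dp14 h0 (by norm_num) (by norm_num) (by norm_num) (by norm_num)
  have h2 : Cb14 (350889 / 400000) (1997779 / 3125000) (63928947 / 100000000) := dp14 h1 (by norm_num) (by norm_num) (by norm_num) (by norm_num)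
  have h3 : Cb14 (350889 / 200000) (-4565461 / 25000000) (-9130897 / 50000000) := dp14 h2 (by norm_num) (by norm_num) (by norm_num) (by norm_num)
  have h4 : Cb14 (350889 / 100000) (-46665069 / 50000000) (-93330101 / 100000000) := dn14 h3 (by norm_num) (by norm_num) (by norm_num) (by norm_num)
  exact h4

theorem c49_14 : Cb14 (260337 / 100000) (-85862119 / 100000000) (-858621 / 1000000) := by
  have h0 : Cb14 (260337 / 800000) (94751613 / 100000000) (47375807 / 50000000) := tay14 (by norm_num) (by norm_num) (by norm_num) (by norm_num)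
  have h1 : Cb14 (260337 / 400000) (79557363 / 100000000) (9944671 / 12500000) := dp14 h0 (by norm_num) (by norm_num) (by norm_num) (by norm_num)
  have h2 : Cb14 (260337 / 200000) (664687 / 2500000) (26587497 / 100000000) := dp14 h1 (by norm_num) (by norm_num) (by norm_num) (by norm_num)
  have h3 : Cb14 (260337 / 100000) (-85862119 / 100000000) (-858621 / 1000000) := dp14 h2 (by norm_num) (by norm_num) (by norm_num) (by norm_num)
  exact h3

theorem c50_14 : Cb14 (315469 / 125000) (-4075657 / 5000000) (-81513103 / 100000000) := by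
  have h0 : Cb14 (315469 / 1000000) (11883137 / 12500000) (47532549 / 50000000) := tay14 (by norm_num) (by norm_num) (by norm_num) (by norm_num)
  have h1 : Cb14 (315469 / 500000) (80747449 / 100000000) (40373729 / 50000000) := dp14 h0 (by norm_num) (by norm_num) (by norm_num) (by norm_num)
  have h2 : Cb14 (315469 / 250000) (3040301 / 10000000) (190019 / 625000) := dp14 h1 (by norm_num) (by norm_num) (by norm_num) (by norm_num)
  have h3 : Cb14 (315469 / 125000) (-4075657 / 5000000) (-81513103 / 100000000) := dp14 h2 (by norm_num) (by norm_num) (by norm_num) (by norm_num)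
  exact h3

theorem c51_14 : Cb14 (53669 / 125000) (45461783 / 50000000) (90923571 / 100000000) := by
  have h0 : Cb14 (53669 / 250000) (48852273 / 50000000) (97704547 / 100000000) := tay14 (by norm_num) (by norm_num) (by norm_num) (by norm_num)
  have h1 : Cb14 (53669 / 125000) (45461783 / 50000000) (90923571 / 100000000) := dp14 h0 (by norm_num) (by norm_num) (by norm_num) (by norm_num)
  exact h1

theorem c52_14 : Cb14 (208131 / 125000) (-1882251 / 20000000) (-9411203 / 100000000) := by
  have h0 : Cb14 (208131 / 1000000) (97841881 / 100000000) (48920941 / 50000000) := tay14 (by norm_num) (by norm_num) (by norm_num) (by norm_num)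
  have h1 : Cb14 (208131 / 500000) (91460673 / 100000000) (45730339 / 50000000) := dp14 h0 (by norm_num) (by norm_num) (by norm_num) (by norm_num)
  have h2 : Cb14 (208131 / 250000) (33650547 / 50000000) (67301113 / 100000000) := dp14 h1 (by norm_num) (by norm_num) (by norm_num) (by norm_num)
  have h3 : Cb14 (208131 / 125000) (-1882251 / 20000000) (-9411203 / 100000000) := dp14 h2 (by norm_num) (by norm_num) (by norm_num) (by norm_num)
  exact h3

theorem c53_14 : Cb14 (77231 / 125000) (81512691 / 100000000) (815127 / 1000000) := by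
  have h0 : Cb14 (77231 / 250000) (762129 / 800000) (95266127 / 100000000) := tay14 (by norm_num) (by norm_num) (by norm_num) (by norm_num)
  have h1 : Cb14 (77231 / 125000) (81512691 / 100000000) (815127 / 1000000) := dp14 h0 (by norm_num) (by norm_num) (by norm_num) (by norm_num)
  exact h1

theorem c54_14 : Cb14 (446369 / 125000) (-90923271 / 100000000) (-22730807 / 25000000) := by
  have h0 : Cb14 (446369 / 2000000) (48759877 / 50000000) (19503951 / 20000000) := tay14 (by norm_num) (by norm_num) (by norm_num) (by norm_num)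
  have h1 : Cb14 (446369 / 1000000) (1409407 / 1562500) (90202053 / 100000000) := dp14 h0 (by norm_num) (by norm_num) (by norm_num) (by norm_num)
  have h2 : Cb14 (446369 / 500000) (62728189 / 100000000) (3920513 / 6250000) := dp14 h1 (by norm_num) (by norm_num) (by norm_num) (by norm_num)
  have h3 : Cb14 (446369 / 250000) (-21303487 / 100000000) (-10651719 / 50000000) := dp14 h2 (by norm_num) (by norm_num) (by norm_num) (by norm_num)
  have h4 : Cb14 (446369 / 125000) (-90923271 / 100000000) (-22730807 / 25000000) := dn14 h3 (by norm_num) (by norm_num) (by norm_num) (by norm_num)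
  exact h4

theorem c55_14 : Cb14 (331177 / 125000) (-1762613 / 2000000) (-22032659 / 25000000) := by
  have h0 : Cb14 (331177 / 1000000) (23641507 / 25000000) (94566029 / 100000000) := tay14 (by norm_num) (by norm_num) (by norm_num) (by norm_num)
  have h1 : Cb14 (331177 / 500000) (78854673 / 100000000) (78854677 / 100000000) := dp14 h0 (by norm_num) (by norm_num) (by norm_num) (by norm_num)
  have h2 : Cb14 (331177 / 250000) (24361189 / 100000000) (12180601 / 50000000) := dp14 h1 (by norm_num) (by norm_num) (by norm_num) (by norm_num)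
  have h3 : Cb14 (331177 / 125000) (-1762613 / 2000000) (-22032659 / 25000000) := dp14 h2 (by norm_num) (by norm_num) (by norm_num) (by norm_num)
  exact h3

theorem c56_14 : Cb14 (208887 / 50000) (-50953943 / 100000000) (-25476933 / 50000000) := by
  have h0 : Cb14 (208887 / 800000) (48305217 / 50000000) (19322087 / 20000000) := tay14 (by norm_num) (by norm_num) (by norm_num) (by norm_num)
  have h1 : Cb14 (208887 / 400000) (86671519 / 100000000) (21667881 / 25000000) := dp14 h0 (by norm_num) (by norm_num) (by norm_num) (by norm_num)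
  have h2 : Cb14 (208887 / 200000) (12559761 / 25000000) (25119531 / 50000000) := dp14 h1 (by norm_num) (by norm_num) (by norm_num) (by norm_num)
  have h3 : Cb14 (208887 / 100000) (-4952077 / 10000000) (-12380183 / 25000000) := dp14 h2 (by norm_num) (by norm_num) (by norm_num) (by norm_num)
  have h4 : Cb14 (208887 / 50000) (-50953943 / 100000000) (-25476933 / 50000000) := dn14 h3 (by norm_num) (by norm_num) (by norm_num) (by norm_num)
  exact h4

theorem c57_14 : Cb14 (105987 / 50000) (-13044663 / 25000000) (-6522327 / 12500000) := by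
  have h0 : Cb14 (105987 / 400000) (96510101 / 100000000) (48255051 / 50000000) := tay14 (by norm_num) (by norm_num) (by norm_num) (by norm_num)
  have h1 : Cb14 (105987 / 200000) (86283991 / 100000000) (21570999 / 25000000) := dp14 h0 (by norm_num) (by norm_num) (by norm_num) (by norm_num)
  have h2 : Cb14 (105987 / 100000) (24449271 / 50000000) (38202 / 78125) := dp14 h1 (by norm_num) (by norm_num) (by norm_num) (by norm_num)
  have h3 : Cb14 (105987 / 50000) (-13044663 / 25000000) (-6522327 / 12500000) := dp14 h2 (by norm_num) (by norm_num) (by norm_num) (by norm_num)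
  exact h3

theorem c58_14 : Cb14 (73059 / 25000) (-97606473 / 100000000) (-97606447 / 100000000) := by
  have h0 : Cb14 (73059 / 400000) (49168313 / 50000000) (98336627 / 100000000) := tay14 (by norm_num) (by norm_num) (by norm_num) (by norm_num)
  have h1 : Cb14 (73059 / 200000) (1167523 / 1250000) (18680369 / 20000000) := dp14 h0 (by norm_num) (by norm_num) (by norm_num) (by norm_num)
  have h2 : Cb14 (73059 / 100000) (37239037 / 50000000) (74478093 / 100000000) := dp14 h1 (by norm_num) (by norm_num) (by norm_num) (by norm_num)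
  have h3 : Cb14 (73059 / 50000) (1093967 / 10000000) (10939727 / 100000000) := dp14 h2 (by norm_num) (by norm_num) (by norm_num) (by norm_num)
  have h4 : Cb14 (73059 / 25000) (-97606473 / 100000000) (-97606447 / 100000000) := dp14 h3 (by norm_num) (by norm_num) (by norm_num) (by norm_num)
  exact h4

theorem c59_14 : Cb14 (21609 / 25000) (649127 / 1000000) (64912719 / 100000000) := by
  have h0 : Cb14 (21609 / 100000) (48837163 / 50000000) (97674327 / 100000000) := tay14 (by norm_num) (by norm_num) (by norm_num) (by norm_num)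
  have h1 : Cb14 (21609 / 50000) (90805479 / 100000000) (22701371 / 25000000) := dp14 h0 (by norm_num) (by norm_num) (by norm_num) (by norm_num)
  have h2 : Cb14 (21609 / 25000) (649127 / 1000000) (64912719 / 100000000) := dp14 h1 (by norm_num) (by norm_num) (by norm_num) (by norm_num)
  exact h2

theorem c60_14 : Cb14 (23667 / 12500) (-15849969 / 50000000) (-31699893 / 100000000) := by
  have h0 : Cb14 (23667 / 100000) (97212413 / 100000000) (48606207 / 50000000) := tay14 (by norm_num) (by norm_num) (by norm_num) (by norm_num)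
  have h1 : Cb14 (23667 / 50000) (11125633 / 12500000) (89005069 / 100000000) := dp14 h0 (by norm_num) (by norm_num) (by norm_num) (by norm_num)
  have h2 : Cb14 (23667 / 25000) (14609507 / 25000000) (58438047 / 100000000) := dp14 h1 (by norm_num) (by norm_num) (by norm_num) (by norm_num)
  have h3 : Cb14 (23667 / 12500) (-15849969 / 50000000) (-31699893 / 100000000) := dp14 h2 (by norm_num) (by norm_num) (by norm_num) (by norm_num)
  exact h3

theorem c61_14 : Cb14 (110103 / 25000) (-15170511 / 50000000) (-30340941 / 100000000) := by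
  have h0 : Cb14 (110103 / 400000) (24058881 / 25000000) (3849421 / 4000000) := tay14 (by norm_num) (by norm_num) (by norm_num) (by norm_num)
  have h1 : Cb14 (110103 / 200000) (85225521 / 100000000) (42612763 / 50000000) := dp14 h0 (by norm_num) (by norm_num) (by norm_num) (by norm_num)
  have h2 : Cb14 (110103 / 100000) (11316947 / 25000000) (22633903 / 50000000) := dp14 h1 (by norm_num) (by norm_num) (by norm_num) (by norm_num)
  have h3 : Cb14 (110103 / 50000) (-14754137 / 25000000) (-29508257 / 50000000) := dp14 h2 (by norm_num) (by norm_num) (by norm_num) (by norm_num)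
  have h4 : Cb14 (110103 / 25000) (-15170511 / 50000000) (-30340941 / 100000000) := dn14 h3 (by norm_num) (by norm_num) (by norm_num) (by norm_num)
  exact h4

theorem c62_14 : Cb14 (1029 / 250) (-56165891 / 100000000) (-56165819 / 100000000) := by
  have h0 : Cb14 (1029 / 4000) (96709329 / 100000000) (9670933 / 10000000) := tay14 (by norm_num) (by norm_num) (by norm_num) (by norm_num)
  have h1 : Cb14 (1029 / 2000) (43526943 / 50000000) (87053891 / 100000000) := dp14 h0 (by norm_num) (by norm_num) (by norm_num) (by norm_num)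
  have h2 : Cb14 (1029 / 1000) (51567581 / 100000000) (51567599 / 100000000) := dp14 h1 (by norm_num) (by norm_num) (by norm_num) (by norm_num)
  have h3 : Cb14 (1029 / 500) (-11703923 / 25000000) (-23407827 / 50000000) := dp14 h2 (by norm_num) (by norm_num) (by norm_num) (by norm_num)
  have h4 : Cb14 (1029 / 250) (-56165891 / 100000000) (-56165819 / 100000000) := dn14 h3 (by norm_num) (by norm_num) (by norm_num) (by norm_num)
  exact h4

theorem c63_14 : Cb14 (265727 / 62500) (-44462653 / 100000000) (-2778911 / 6250000) := by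
  have h0 : Cb14 (265727 / 1000000) (96490183 / 100000000) (12061273 / 12500000) := tay14 (by norm_num) (by norm_num) (by norm_num) (by norm_num)
  have h1 : Cb14 (265727 / 500000) (21551777 / 25000000) (86207113 / 100000000) := dp14 h0 (by norm_num) (by norm_num) (by norm_num) (by norm_num)
  have h2 : Cb14 (265727 / 250000) (48633309 / 100000000) (48633327 / 100000000) := dp14 h1 (by norm_num) (by norm_num) (by norm_num) (by norm_num)
  have h3 : Cb14 (265727 / 125000) (-26348013 / 50000000) (-5269599 / 10000000) := dp14 h2 (by norm_num) (by norm_num) (by norm_num) (by norm_num)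
  have h4 : Cb14 (265727 / 62500) (-44462653 / 100000000) (-2778911 / 6250000) := dn14 h3 (by norm_num) (by norm_num) (by norm_num) (by norm_num)
  exact h4

theorem c64_14 : Cb14 (134827 / 62500) (-55339601 / 100000000) (-27669783 / 50000000) := by
  have h0 : Cb14 (134827 / 500000) (12048289 / 12500000) (96386313 / 100000000) := tay14 (by norm_num) (by norm_num) (by norm_num) (by norm_num)
  have h1 : Cb14 (134827 / 250000) (42903211 / 50000000) (85806427 / 100000000) := dp14 h0 (by norm_num) (by norm_num) (by norm_num) (by norm_num)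
  have h2 : Cb14 (134827 / 125000) (47254841 / 100000000) (47254859 / 100000000) := dp14 h1 (by norm_num) (by norm_num) (by norm_num) (by norm_num)
  have h3 : Cb14 (134827 / 62500) (-55339601 / 100000000) (-27669783 / 50000000) := dp14 h2 (by norm_num) (by norm_num) (by norm_num) (by norm_num)
  exact h3

theorem c65_14 : Cb14 (92939 / 31250) (-24649933 / 25000000) (-3081241 / 3125000) := by
  have h0 : Cb14 (92939 / 500000) (24569359 / 25000000) (98277437 / 100000000) := tay14 (by norm_num) (by norm_num) (by norm_num) (by norm_num)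
  have h1 : Cb14 (92939 / 250000) (1455767 / 1562500) (93169093 / 100000000) := dp14 h0 (by norm_num) (by norm_num) (by norm_num) (by norm_num)
  have h2 : Cb14 (92939 / 125000) (73609579 / 100000000) (36804799 / 50000000) := dp14 h1 (by norm_num) (by norm_num) (by norm_num) (by norm_num)
  have h3 : Cb14 (92939 / 62500) (4183701 / 50000000) (8367459 / 100000000) := dp14 h2 (by norm_num) (by norm_num) (by norm_num) (by norm_num)
  have h4 : Cb14 (92939 / 31250) (-24649933 / 25000000) (-3081241 / 3125000) := dp14 h3 (by norm_num) (by norm_num) (by norm_num) (by norm_num)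
  exact h4

theorem c66_14 : Cb14 (27489 / 31250) (3983889 / 6250000) (63742243 / 100000000) := by
  have h0 : Cb14 (27489 / 125000) (6099479 / 6250000) (19518333 / 20000000) := tay14 (by norm_num) (by norm_num) (by norm_num) (by norm_num)
  have h1 : Cb14 (27489 / 62500) (90482657 / 100000000) (45241331 / 50000000) := dp14 h0 (by norm_num) (by norm_num) (by norm_num) (by norm_num)
  have h2 : Cb14 (27489 / 31250) (3983889 / 6250000) (63742243 / 100000000) := dp14 h1 (by norm_num) (by norm_num) (by norm_num) (by norm_num)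
  exact h2

theorem c67_14 : Cb14 (30107 / 15625) (-697153 / 2000000) (-4357201 / 12500000) := by
  have h0 : Cb14 (30107 / 125000) (48556707 / 50000000) (19422683 / 20000000) := tay14 (by norm_num) (by norm_num) (by norm_num) (by norm_num)
  have h1 : Cb14 (30107 / 62500) (88620303 / 100000000) (22155077 / 25000000) := dp14 h0 (by norm_num) (by norm_num) (by norm_num) (by norm_num)
  have h2 : Cb14 (30107 / 31250) (28535581 / 50000000) (2853559 / 5000000) := dp14 h1 (by norm_num) (by norm_num) (by norm_num) (by norm_num)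
  have h3 : Cb14 (30107 / 15625) (-697153 / 2000000) (-4357201 / 12500000) := dp14 h2 (by norm_num) (by norm_num) (by norm_num) (by norm_num)
  exact h3

theorem c68_14 : Cb14 (140063 / 31250) (-5708519 / 25000000) (-5708499 / 25000000) := by
  have h0 : Cb14 (140063 / 500000) (4805103 / 5000000) (96102061 / 100000000) := tay14 (by norm_num) (by norm_num) (by norm_num) (by norm_num)
  have h1 : Cb14 (140063 / 250000) (42356059 / 50000000) (84712123 / 100000000) := dp14 h0 (by norm_num) (by norm_num) (by norm_num) (by norm_num)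
  have h2 : Cb14 (140063 / 125000) (21761429 / 50000000) (10880719 / 25000000) := dp14 h1 (by norm_num) (by norm_num) (by norm_num) (by norm_num)
  have h3 : Cb14 (140063 / 62500) (-62115217 / 100000000) (-12423037 / 20000000) := dp14 h2 (by norm_num) (by norm_num) (by norm_num) (by norm_num)
  have h4 : Cb14 (140063 / 31250) (-5708519 / 25000000) (-5708499 / 25000000) := dn14 h3 (by norm_num) (by norm_num) (by norm_num) (by norm_num)
  exact h4

theorem c69_14 : Cb14 (2618 / 625) (-24999583 / 50000000) (-49999103 / 100000000) := by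
  have h0 : Cb14 (1309 / 5000) (48296283 / 50000000) (96592567 / 100000000) := tay14 (by norm_num) (by norm_num) (by norm_num) (by norm_num)
  have h1 : Cb14 (1309 / 2500) (21650619 / 25000000) (1082531 / 1250000) := dp14 h0 (by norm_num) (by norm_num) (by norm_num) (by norm_num)
  have h2 : Cb14 (1309 / 1250) (1562493 / 3125000) (49999791 / 100000000) := dp14 h1 (by norm_num) (by norm_num) (by norm_num) (by norm_num)
  have h3 : Cb14 (1309 / 625) (-781257 / 1562500) (-50000417 / 100000000) := dp14 h2 (by norm_num) (by norm_num) (by norm_num) (by norm_num)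
  have h4 : Cb14 (2618 / 625) (-24999583 / 50000000) (-49999103 / 100000000) := dn14 h3 (by norm_num) (by norm_num) (by norm_num) (by norm_num)
  exact h4

theorem n1a_14 : (-219 / 10000) ≤ HH19 2 (73 / 50) (77 / 50) (1029 / 1000) ∧
    HH19 2 (73 / 50) (77 / 50) (1029 / 1000) ≤ (-109 / 5000) := by
  have c0h := c0_14
  have c1h := c1_14
  have c2h := c2_14
  have c3h := c3_14
  have c4h := c4_14
  have c5h := c5_14
  have c6h := c6_14
  have c7h := c7_14
  have c8h := c8_14
  unfold Cb14 at c0h
  unfold Cb14 at c1h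
  unfold Cb14 at c2h
  unfold Cb14 at c3h
  unfold Cb14 at c4h
  unfold Cb14 at c5h
  unfold Cb14 at c6h
  unfold Cb14 at c7h
  unfold Cb14 at c8h
  have e0 : Real.cos ((2 + 1) * (1029 / 1000) : ℝ) = Real.cos (3087 / 1000) := by rw [show ((2 + 1) * (1029 / 1000) : ℝ) = (3087 / 1000) by norm_num]
  have e1 : Real.cos ((2 - 1) * (1029 / 1000) : ℝ) = Real.cos (1029 / 1000) := by rw [show ((2 - 1) * (1029 / 1000) : ℝ) = (1029 / 1000) by norm_num]
  have e2 : Real.cos (((73 / 50) + 1) * (1029 / 1000) : ℝ) = Real.cos (126567 / 50000) := by rw [show (((73 / 50) + 1) * (1029 / 1000) : ℝ) = (126567 / 50000) by norm_num]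
  have e3 : Real.cos (((73 / 50) - 1) * (1029 / 1000) : ℝ) = Real.cos (23667 / 50000) := by rw [show (((73 / 50) - 1) * (1029 / 1000) : ℝ) = (23667 / 50000) by norm_num]
  have e4 : Real.cos (2 * (1029 / 1000) : ℝ) = Real.cos (1029 / 500) := by rw [show (2 * (1029 / 1000) : ℝ) = (1029 / 500) by norm_num]
  have e5 : Real.cos ((2 - (73 / 50) + 1) * (1029 / 1000) : ℝ) = Real.cos (79233 / 50000) := by rw [show ((2 - (73 / 50) + 1) * (1029 / 1000) : ℝ) = (79233 / 50000) by norm_num]
  have e6 : Real.cos ((2 - (73 / 50) - 1) * (1029 / 1000) : ℝ) = Real.cos (23667 / 50000) := by rw [show ((2 - (73 / 50) - 1) * (1029 / 1000) : ℝ) = -(23667 / 50000) by norm_num, Real.cos_neg]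
  have e7 : Real.cos ((2 - (73 / 50)) * (1029 / 1000) : ℝ) = Real.cos (27783 / 50000) := by rw [show ((2 - (73 / 50)) * (1029 / 1000) : ℝ) = (27783 / 50000) by norm_num]
  have e8 : Real.cos ((2 + (73 / 50)) * (1029 / 1000) : ℝ) = Real.cos (178017 / 50000) := by rw [show ((2 + (73 / 50)) * (1029 / 1000) : ℝ) = (178017 / 50000) by norm_num]
  have e9 : Real.cos ((77 / 50) * (1029 / 1000) : ℝ) = Real.cos (79233 / 50000) := by rw [show ((77 / 50) * (1029 / 1000) : ℝ) = (79233 / 50000) by norm_num]
  have e10 : Real.cos (((77 / 50) + 1) * (1029 / 1000) : ℝ) = Real.cos (130683 / 50000) := by rw [show (((77 / 50) + 1) * (1029 / 1000) : ℝ) = (130683 / 50000) by norm_num]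
  have e11 : Real.cos (((77 / 50) - 1) * (1029 / 1000) : ℝ) = Real.cos (27783 / 50000) := by rw [show (((77 / 50) - 1) * (1029 / 1000) : ℝ) = (27783 / 50000) by norm_num]
  unfold HH19
  rw [e0, e1, e2, e3, e4, e5, e6, e7, e8, e9, e10, e11]
  constructor <;> linarith

theorem n1b_14 : (-151 / 10000) ≤ HH19 2 (73 / 50) (77 / 50) (1309 / 1250) ∧
    HH19 2 (73 / 50) (77 / 50) (1309 / 1250) ≤ (-3 / 200) := by
  have c10h := c10_14
  have c11h := c11_14
  have c12h := c12_14
  have c13h := c13_14
  have c14h := c14_14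
  have c15h := c15_14
  have c16h := c16_14
  have c17h := c17_14
  have c9h := c9_14
  unfold Cb14 at c10h
  unfold Cb14 at c11h
  unfold Cb14 at c12h
  unfold Cb14 at c13h
  unfold Cb14 at c14h
  unfold Cb14 at c15h
  unfold Cb14 at c16h
  unfold Cb14 at c17h
  unfold Cb14 at c9h
  have e0 : Real.cos ((2 + 1) * (1309 / 1250) : ℝ) = Real.cos (3927 / 1250) := by rw [show ((2 + 1) * (1309 / 1250) : ℝ) = (3927 / 1250) by norm_num]
  have e1 : Real.cos ((2 - 1) * (1309 / 1250) : ℝ) = Real.cos (1309 / 1250) := by rw [show ((2 - 1) * (1309 / 1250) : ℝ) = (1309 / 1250) by norm_num]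
  have e2 : Real.cos (((73 / 50) + 1) * (1309 / 1250) : ℝ) = Real.cos (161007 / 62500) := by rw [show (((73 / 50) + 1) * (1309 / 1250) : ℝ) = (161007 / 62500) by norm_num]
  have e3 : Real.cos (((73 / 50) - 1) * (1309 / 1250) : ℝ) = Real.cos (30107 / 62500) := by rw [show (((73 / 50) - 1) * (1309 / 1250) : ℝ) = (30107 / 62500) by norm_num]
  have e4 : Real.cos (2 * (1309 / 1250) : ℝ) = Real.cos (1309 / 625) := by rw [show (2 * (1309 / 1250) : ℝ) = (1309 / 625) by norm_num]
  have e5 : Real.cos ((2 - (73 / 50) + 1) * (1309 / 1250) : ℝ) = Real.cos (100793 / 62500) := by rw [show ((2 - (73 / 50) + 1) * (1309 / 1250) : ℝ) = (100793 / 62500) by norm_num]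
  have e6 : Real.cos ((2 - (73 / 50) - 1) * (1309 / 1250) : ℝ) = Real.cos (30107 / 62500) := by rw [show ((2 - (73 / 50) - 1) * (1309 / 1250) : ℝ) = -(30107 / 62500) by norm_num, Real.cos_neg]
  have e7 : Real.cos ((2 - (73 / 50)) * (1309 / 1250) : ℝ) = Real.cos (35343 / 62500) := by rw [show ((2 - (73 / 50)) * (1309 / 1250) : ℝ) = (35343 / 62500) by norm_num]
  have e8 : Real.cos ((2 + (73 / 50)) * (1309 / 1250) : ℝ) = Real.cos (226457 / 62500) := by rw [show ((2 + (73 / 50)) * (1309 / 1250) : ℝ) = (226457 / 62500) by norm_num]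
  have e9 : Real.cos ((77 / 50) * (1309 / 1250) : ℝ) = Real.cos (100793 / 62500) := by rw [show ((77 / 50) * (1309 / 1250) : ℝ) = (100793 / 62500) by norm_num]
  have e10 : Real.cos (((77 / 50) + 1) * (1309 / 1250) : ℝ) = Real.cos (166243 / 62500) := by rw [show (((77 / 50) + 1) * (1309 / 1250) : ℝ) = (166243 / 62500) by norm_num]
  have e11 : Real.cos (((77 / 50) - 1) * (1309 / 1250) : ℝ) = Real.cos (35343 / 62500) := by rw [show (((77 / 50) - 1) * (1309 / 1250) : ℝ) = (35343 / 62500) by norm_num]
  unfold HH19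
  rw [e0, e1, e2, e3, e4, e5, e6, e7, e8, e9, e10, e11]
  constructor <;> linarith

theorem n2a_14 : (-5283 / 10000) ≤ HH19 (231 / 100) (61 / 50) 0 (1029 / 1000) ∧
    HH19 (231 / 100) (61 / 50) 0 (1029 / 1000) ≤ (-2641 / 5000) := by
  have c18h := c18_14
  have c19h := c19_14
  have c1h := c1_14
  have c20h := c20_14
  have c21h := c21_14
  have c22h := c22_14
  have c23h := c23_14
  have c24h := c24_14
  have c25h := c25_14
  have c4h := c4_14
  unfold Cb14 at c18h
  unfold Cb14 at c19h
  unfold Cb14 at c1h
  unfold Cb14 at c20h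
  unfold Cb14 at c21h
  unfold Cb14 at c22h
  unfold Cb14 at c23h
  unfold Cb14 at c24h
  unfold Cb14 at c25h
  unfold Cb14 at c4h
  have e0 : Real.cos (((231 / 100) + 1) * (1029 / 1000) : ℝ) = Real.cos (340599 / 100000) := by rw [show (((231 / 100) + 1) * (1029 / 1000) : ℝ) = (340599 / 100000) by norm_num]
  have e1 : Real.cos (((231 / 100) - 1) * (1029 / 1000) : ℝ) = Real.cos (134799 / 100000) := by rw [show (((231 / 100) - 1) * (1029 / 1000) : ℝ) = (134799 / 100000) by norm_num]
  have e2 : Real.cos (((61 / 50) + 1) * (1029 / 1000) : ℝ) = Real.cos (114219 / 50000) := by rw [show (((61 / 50) + 1) * (1029 / 1000) : ℝ) = (114219 / 50000) by norm_num]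
  have e3 : Real.cos (((61 / 50) - 1) * (1029 / 1000) : ℝ) = Real.cos (11319 / 50000) := by rw [show (((61 / 50) - 1) * (1029 / 1000) : ℝ) = (11319 / 50000) by norm_num]
  have e4 : Real.cos (2 * (1029 / 1000) : ℝ) = Real.cos (1029 / 500) := by rw [show (2 * (1029 / 1000) : ℝ) = (1029 / 500) by norm_num]
  have e5 : Real.cos (((231 / 100) - (61 / 50) + 1) * (1029 / 1000) : ℝ) = Real.cos (215061 / 100000) := by rw [show (((231 / 100) - (61 / 50) + 1) * (1029 / 1000) : ℝ) = (215061 / 100000) by norm_num]
  have e6 : Real.cos (((231 / 100) - (61 / 50) - 1) * (1029 / 1000) : ℝ) = Real.cos (9261 / 100000) := by rw [show (((231 / 100) - (61 / 50) - 1) * (1029 / 1000) : ℝ) = (9261 / 100000) by norm_num]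
  have e7 : Real.cos (((231 / 100) - (61 / 50)) * (1029 / 1000) : ℝ) = Real.cos (112161 / 100000) := by rw [show (((231 / 100) - (61 / 50)) * (1029 / 1000) : ℝ) = (112161 / 100000) by norm_num]
  have e8 : Real.cos (((231 / 100) + (61 / 50)) * (1029 / 1000) : ℝ) = Real.cos (363237 / 100000) := by rw [show (((231 / 100) + (61 / 50)) * (1029 / 1000) : ℝ) = (363237 / 100000) by norm_num]
  have e9 : Real.cos (0 * (1029 / 1000) : ℝ) = 1 := by rw [show (0 * (1029 / 1000) : ℝ) = 0 by norm_num, Real.cos_zero]
  have e10 : Real.cos ((0 + 1) * (1029 / 1000) : ℝ) = Real.cos (1029 / 1000) := by rw [show ((0 + 1) * (1029 / 1000) : ℝ) = (1029 / 1000) by norm_num]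
  have e11 : Real.cos ((0 - 1) * (1029 / 1000) : ℝ) = Real.cos (1029 / 1000) := by rw [show ((0 - 1) * (1029 / 1000) : ℝ) = -(1029 / 1000) by norm_num, Real.cos_neg]
  unfold HH19
  rw [e0, e1, e2, e3, e4, e5, e6, e7, e8, e9, e10, e11]
  constructor <;> linarith

theorem n2b_14 : (-1389 / 2500) ≤ HH19 (231 / 100) (61 / 50) 0 (1309 / 1250) ∧
    HH19 (231 / 100) (61 / 50) 0 (1309 / 1250) ≤ (-1111 / 2000) := by
  have c10h := c10_14
  have c13h := c13_14
  have c26h := c26_14
  have c27h := c27_14
  have c28h := c28_14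
  have c29h := c29_14
  have c30h := c30_14
  have c31h := c31_14
  have c32h := c32_14
  have c33h := c33_14
  unfold Cb14 at c10h
  unfold Cb14 at c13h
  unfold Cb14 at c26h
  unfold Cb14 at c27h
  unfold Cb14 at c28h
  unfold Cb14 at c29h
  unfold Cb14 at c30h
  unfold Cb14 at c31h
  unfold Cb14 at c32h
  unfold Cb14 at c33h
  have e0 : Real.cos (((231 / 100) + 1) * (1309 / 1250) : ℝ) = Real.cos (433279 / 125000) := by rw [show (((231 / 100) + 1) * (1309 / 1250) : ℝ) = (433279 / 125000) by norm_num]
  have e1 : Real.cos (((231 / 100) - 1) * (1309 / 1250) : ℝ) = Real.cos (171479 / 125000) := by rw [show (((231 / 100) - 1) * (1309 / 1250) : ℝ) = (171479 / 125000) by norm_num]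
  have e2 : Real.cos (((61 / 50) + 1) * (1309 / 1250) : ℝ) = Real.cos (145299 / 62500) := by rw [show (((61 / 50) + 1) * (1309 / 1250) : ℝ) = (145299 / 62500) by norm_num]
  have e3 : Real.cos (((61 / 50) - 1) * (1309 / 1250) : ℝ) = Real.cos (14399 / 62500) := by rw [show (((61 / 50) - 1) * (1309 / 1250) : ℝ) = (14399 / 62500) by norm_num]
  have e4 : Real.cos (2 * (1309 / 1250) : ℝ) = Real.cos (1309 / 625) := by rw [show (2 * (1309 / 1250) : ℝ) = (1309 / 625) by norm_num]
  have e5 : Real.cos (((231 / 100) - (61 / 50) + 1) * (1309 / 1250) : ℝ) = Real.cos (273581 / 125000) := by rw [show (((231 / 100) - (61 / 50) + 1) * (1309 / 1250) : ℝ) = (273581 / 125000) by norm_num]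
  have e6 : Real.cos (((231 / 100) - (61 / 50) - 1) * (1309 / 1250) : ℝ) = Real.cos (11781 / 125000) := by rw [show (((231 / 100) - (61 / 50) - 1) * (1309 / 1250) : ℝ) = (11781 / 125000) by norm_num]
  have e7 : Real.cos (((231 / 100) - (61 / 50)) * (1309 / 1250) : ℝ) = Real.cos (142681 / 125000) := by rw [show (((231 / 100) - (61 / 50)) * (1309 / 1250) : ℝ) = (142681 / 125000) by norm_num]
  have e8 : Real.cos (((231 / 100) + (61 / 50)) * (1309 / 1250) : ℝ) = Real.cos (462077 / 125000) := by rw [show (((231 / 100) + (61 / 50)) * (1309 / 1250) : ℝ) = (462077 / 125000) by norm_num]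
  have e9 : Real.cos (0 * (1309 / 1250) : ℝ) = 1 := by rw [show (0 * (1309 / 1250) : ℝ) = 0 by norm_num, Real.cos_zero]
  have e10 : Real.cos ((0 + 1) * (1309 / 1250) : ℝ) = Real.cos (1309 / 1250) := by rw [show ((0 + 1) * (1309 / 1250) : ℝ) = (1309 / 1250) by norm_num]
  have e11 : Real.cos ((0 - 1) * (1309 / 1250) : ℝ) = Real.cos (1309 / 1250) := by rw [show ((0 - 1) * (1309 / 1250) : ℝ) = -(1309 / 1250) by norm_num, Real.cos_neg]
  unfold HH19
  rw [e0, e1, e2, e3, e4, e5, e6, e7, e8, e9, e10, e11]
  constructor <;> linarith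

theorem m2a_14 : (-1041 / 2000) ≤ HH19 2 (147 / 100) 0 (1029 / 1000) ∧
    HH19 2 (147 / 100) 0 (1029 / 1000) ≤ (-1301 / 2500) := by
  have c0h := c0_14
  have c1h := c1_14
  have c34h := c34_14
  have c35h := c35_14
  have c36h := c36_14
  have c37h := c37_14
  have c38h := c38_14
  have c4h := c4_14
  unfold Cb14 at c0h
  unfold Cb14 at c1h
  unfold Cb14 at c34h
  unfold Cb14 at c35h
  unfold Cb14 at c36h
  unfold Cb14 at c37h
  unfold Cb14 at c38h
  unfold Cb14 at c4h
  have e0 : Real.cos ((2 + 1) * (1029 / 1000) : ℝ) = Real.cos (3087 / 1000) := by rw [show ((2 + 1) * (1029 / 1000) : ℝ) = (3087 / 1000) by norm_num]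
  have e1 : Real.cos ((2 - 1) * (1029 / 1000) : ℝ) = Real.cos (1029 / 1000) := by rw [show ((2 - 1) * (1029 / 1000) : ℝ) = (1029 / 1000) by norm_num]
  have e2 : Real.cos (((147 / 100) + 1) * (1029 / 1000) : ℝ) = Real.cos (254163 / 100000) := by rw [show (((147 / 100) + 1) * (1029 / 1000) : ℝ) = (254163 / 100000) by norm_num]
  have e3 : Real.cos (((147 / 100) - 1) * (1029 / 1000) : ℝ) = Real.cos (48363 / 100000) := by rw [show (((147 / 100) - 1) * (1029 / 1000) : ℝ) = (48363 / 100000) by norm_num]
  have e4 : Real.cos (2 * (1029 / 1000) : ℝ) = Real.cos (1029 / 500) := by rw [show (2 * (1029 / 1000) : ℝ) = (1029 / 500) by norm_num]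
  have e5 : Real.cos ((2 - (147 / 100) + 1) * (1029 / 1000) : ℝ) = Real.cos (157437 / 100000) := by rw [show ((2 - (147 / 100) + 1) * (1029 / 1000) : ℝ) = (157437 / 100000) by norm_num]
  have e6 : Real.cos ((2 - (147 / 100) - 1) * (1029 / 1000) : ℝ) = Real.cos (48363 / 100000) := by rw [show ((2 - (147 / 100) - 1) * (1029 / 1000) : ℝ) = -(48363 / 100000) by norm_num, Real.cos_neg]
  have e7 : Real.cos ((2 - (147 / 100)) * (1029 / 1000) : ℝ) = Real.cos (54537 / 100000) := by rw [show ((2 - (147 / 100)) * (1029 / 1000) : ℝ) = (54537 / 100000) by norm_num]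
  have e8 : Real.cos ((2 + (147 / 100)) * (1029 / 1000) : ℝ) = Real.cos (357063 / 100000) := by rw [show ((2 + (147 / 100)) * (1029 / 1000) : ℝ) = (357063 / 100000) by norm_num]
  have e9 : Real.cos (0 * (1029 / 1000) : ℝ) = 1 := by rw [show (0 * (1029 / 1000) : ℝ) = 0 by norm_num, Real.cos_zero]
  have e10 : Real.cos ((0 + 1) * (1029 / 1000) : ℝ) = Real.cos (1029 / 1000) := by rw [show ((0 + 1) * (1029 / 1000) : ℝ) = (1029 / 1000) by norm_num]
  have e11 : Real.cos ((0 - 1) * (1029 / 1000) : ℝ) = Real.cos (1029 / 1000) := by rw [show ((0 - 1) * (1029 / 1000) : ℝ) = -(1029 / 1000) by norm_num, Real.cos_neg]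
  unfold HH19
  rw [e0, e1, e2, e3, e4, e5, e6, e7, e8, e9, e10, e11]
  constructor <;> linarith

theorem m2b_14 : (-5437 / 10000) ≤ HH19 2 (147 / 100) 0 (1309 / 1250) ∧
    HH19 2 (147 / 100) 0 (1309 / 1250) ≤ (-1359 / 2500) := by
  have c10h := c10_14
  have c13h := c13_14
  have c39h := c39_14
  have c40h := c40_14
  have c41h := c41_14
  have c42h := c42_14
  have c43h := c43_14
  have c9h := c9_14
  unfold Cb14 at c10h
  unfold Cb14 at c13h
  unfold Cb14 at c39h
  unfold Cb14 at c40h
  unfold Cb14 at c41h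
  unfold Cb14 at c42h
  unfold Cb14 at c43h
  unfold Cb14 at c9h
  have e0 : Real.cos ((2 + 1) * (1309 / 1250) : ℝ) = Real.cos (3927 / 1250) := by rw [show ((2 + 1) * (1309 / 1250) : ℝ) = (3927 / 1250) by norm_num]
  have e1 : Real.cos ((2 - 1) * (1309 / 1250) : ℝ) = Real.cos (1309 / 1250) := by rw [show ((2 - 1) * (1309 / 1250) : ℝ) = (1309 / 1250) by norm_num]
  have e2 : Real.cos (((147 / 100) + 1) * (1309 / 1250) : ℝ) = Real.cos (323323 / 125000) := by rw [show (((147 / 100) + 1) * (1309 / 1250) : ℝ) = (323323 / 125000) by norm_num]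
  have e3 : Real.cos (((147 / 100) - 1) * (1309 / 1250) : ℝ) = Real.cos (61523 / 125000) := by rw [show (((147 / 100) - 1) * (1309 / 1250) : ℝ) = (61523 / 125000) by norm_num]
  have e4 : Real.cos (2 * (1309 / 1250) : ℝ) = Real.cos (1309 / 625) := by rw [show (2 * (1309 / 1250) : ℝ) = (1309 / 625) by norm_num]
  have e5 : Real.cos ((2 - (147 / 100) + 1) * (1309 / 1250) : ℝ) = Real.cos (200277 / 125000) := by rw [show ((2 - (147 / 100) + 1) * (1309 / 1250) : ℝ) = (200277 / 125000) by norm_num]
  have e6 : Real.cos ((2 - (147 / 100) - 1) * (1309 / 1250) : ℝ) = Real.cos (61523 / 125000) := by rw [show ((2 - (147 / 100) - 1) * (1309 / 1250) : ℝ) = -(61523 / 125000) by norm_num, Real.cos_neg]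
  have e7 : Real.cos ((2 - (147 / 100)) * (1309 / 1250) : ℝ) = Real.cos (69377 / 125000) := by rw [show ((2 - (147 / 100)) * (1309 / 1250) : ℝ) = (69377 / 125000) by norm_num]
  have e8 : Real.cos ((2 + (147 / 100)) * (1309 / 1250) : ℝ) = Real.cos (454223 / 125000) := by rw [show ((2 + (147 / 100)) * (1309 / 1250) : ℝ) = (454223 / 125000) by norm_num]
  have e9 : Real.cos (0 * (1309 / 1250) : ℝ) = 1 := by rw [show (0 * (1309 / 1250) : ℝ) = 0 by norm_num, Real.cos_zero]
  have e10 : Real.cos ((0 + 1) * (1309 / 1250) : ℝ) = Real.cos (1309 / 1250) := by rw [show ((0 + 1) * (1309 / 1250) : ℝ) = (1309 / 1250) by norm_num]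
  have e11 : Real.cos ((0 - 1) * (1309 / 1250) : ℝ) = Real.cos (1309 / 1250) := by rw [show ((0 - 1) * (1309 / 1250) : ℝ) = -(1309 / 1250) by norm_num, Real.cos_neg]
  unfold HH19
  rw [e0, e1, e2, e3, e4, e5, e6, e7, e8, e9, e10, e11]
  constructor <;> linarith

theorem n3a_14 : (49 / 5000) ≤ HH19 2 (141 / 100) (153 / 100) (1029 / 1000) ∧
    HH19 2 (141 / 100) (153 / 100) (1029 / 1000) ≤ (99 / 10000) := by
  have c0h := c0_14
  have c1h := c1_14
  have c36h := c36_14
  have c37h := c37_14
  have c44h := c44_14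
  have c45h := c45_14
  have c46h := c46_14
  have c47h := c47_14
  have c48h := c48_14
  have c49h := c49_14
  have c4h := c4_14
  unfold Cb14 at c0h
  unfold Cb14 at c1h
  unfold Cb14 at c36h
  unfold Cb14 at c37h
  unfold Cb14 at c44h
  unfold Cb14 at c45h
  unfold Cb14 at c46h
  unfold Cb14 at c47h
  unfold Cb14 at c48h
  unfold Cb14 at c49h
  unfold Cb14 at c4h
  have e0 : Real.cos ((2 + 1) * (1029 / 1000) : ℝ) = Real.cos (3087 / 1000) := by rw [show ((2 + 1) * (1029 / 1000) : ℝ) = (3087 / 1000) by norm_num]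
  have e1 : Real.cos ((2 - 1) * (1029 / 1000) : ℝ) = Real.cos (1029 / 1000) := by rw [show ((2 - 1) * (1029 / 1000) : ℝ) = (1029 / 1000) by norm_num]
  have e2 : Real.cos (((141 / 100) + 1) * (1029 / 1000) : ℝ) = Real.cos (247989 / 100000) := by rw [show (((141 / 100) + 1) * (1029 / 1000) : ℝ) = (247989 / 100000) by norm_num]
  have e3 : Real.cos (((141 / 100) - 1) * (1029 / 1000) : ℝ) = Real.cos (42189 / 100000) := by rw [show (((141 / 100) - 1) * (1029 / 1000) : ℝ) = (42189 / 100000) by norm_num]
  have e4 : Real.cos (2 * (1029 / 1000) : ℝ) = Real.cos (1029 / 500) := by rw [show (2 * (1029 / 1000) : ℝ) = (1029 / 500) by norm_num]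
  have e5 : Real.cos ((2 - (141 / 100) + 1) * (1029 / 1000) : ℝ) = Real.cos (163611 / 100000) := by rw [show ((2 - (141 / 100) + 1) * (1029 / 1000) : ℝ) = (163611 / 100000) by norm_num]
  have e6 : Real.cos ((2 - (141 / 100) - 1) * (1029 / 1000) : ℝ) = Real.cos (42189 / 100000) := by rw [show ((2 - (141 / 100) - 1) * (1029 / 1000) : ℝ) = -(42189 / 100000) by norm_num, Real.cos_neg]
  have e7 : Real.cos ((2 - (141 / 100)) * (1029 / 1000) : ℝ) = Real.cos (60711 / 100000) := by rw [show ((2 - (141 / 100)) * (1029 / 1000) : ℝ) = (60711 / 100000) by norm_num]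
  have e8 : Real.cos ((2 + (141 / 100)) * (1029 / 1000) : ℝ) = Real.cos (350889 / 100000) := by rw [show ((2 + (141 / 100)) * (1029 / 1000) : ℝ) = (350889 / 100000) by norm_num]
  have e9 : Real.cos ((153 / 100) * (1029 / 1000) : ℝ) = Real.cos (157437 / 100000) := by rw [show ((153 / 100) * (1029 / 1000) : ℝ) = (157437 / 100000) by norm_num]
  have e10 : Real.cos (((153 / 100) + 1) * (1029 / 1000) : ℝ) = Real.cos (260337 / 100000) := by rw [show (((153 / 100) + 1) * (1029 / 1000) : ℝ) = (260337 / 100000) by norm_num]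
  have e11 : Real.cos (((153 / 100) - 1) * (1029 / 1000) : ℝ) = Real.cos (54537 / 100000) := by rw [show (((153 / 100) - 1) * (1029 / 1000) : ℝ) = (54537 / 100000) by norm_num]
  unfold HH19
  rw [e0, e1, e2, e3, e4, e5, e6, e7, e8, e9, e10, e11]
  constructor <;> linarith

theorem n3b_14 : (173 / 10000) ≤ HH19 2 (141 / 100) (153 / 100) (1309 / 1250) ∧
    HH19 2 (141 / 100) (153 / 100) (1309 / 1250) ≤ (87 / 5000) := by
  have c10h := c10_14
  have c13h := c13_14
  have c41h := c41_14
  have c42h := c42_14
  have c50h := c50_14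
  have c51h := c51_14
  have c52h := c52_14
  have c53h := c53_14
  have c54h := c54_14
  have c55h := c55_14
  have c9h := c9_14
  unfold Cb14 at c10h
  unfold Cb14 at c13h
  unfold Cb14 at c41h
  unfold Cb14 at c42h
  unfold Cb14 at c50h
  unfold Cb14 at c51h
  unfold Cb14 at c52h
  unfold Cb14 at c53h
  unfold Cb14 at c54h
  unfold Cb14 at c55h
  unfold Cb14 at c9h
  have e0 : Real.cos ((2 + 1) * (1309 / 1250) : ℝ) = Real.cos (3927 / 1250) := by rw [show ((2 + 1) * (1309 / 1250) : ℝ) = (3927 / 1250) by norm_num]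
  have e1 : Real.cos ((2 - 1) * (1309 / 1250) : ℝ) = Real.cos (1309 / 1250) := by rw [show ((2 - 1) * (1309 / 1250) : ℝ) = (1309 / 1250) by norm_num]
  have e2 : Real.cos (((141 / 100) + 1) * (1309 / 1250) : ℝ) = Real.cos (315469 / 125000) := by rw [show (((141 / 100) + 1) * (1309 / 1250) : ℝ) = (315469 / 125000) by norm_num]
  have e3 : Real.cos (((141 / 100) - 1) * (1309 / 1250) : ℝ) = Real.cos (53669 / 125000) := by rw [show (((141 / 100) - 1) * (1309 / 1250) : ℝ) = (53669 / 125000) by norm_num]
  have e4 : Real.cos (2 * (1309 / 1250) : ℝ) = Real.cos (1309 / 625) := by rw [show (2 * (1309 / 1250) : ℝ) = (1309 / 625) by norm_num]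
  have e5 : Real.cos ((2 - (141 / 100) + 1) * (1309 / 1250) : ℝ) = Real.cos (208131 / 125000) := by rw [show ((2 - (141 / 100) + 1) * (1309 / 1250) : ℝ) = (208131 / 125000) by norm_num]
  have e6 : Real.cos ((2 - (141 / 100) - 1) * (1309 / 1250) : ℝ) = Real.cos (53669 / 125000) := by rw [show ((2 - (141 / 100) - 1) * (1309 / 1250) : ℝ) = -(53669 / 125000) by norm_num, Real.cos_neg]
  have e7 : Real.cos ((2 - (141 / 100)) * (1309 / 1250) : ℝ) = Real.cos (77231 / 125000) := by rw [show ((2 - (141 / 100)) * (1309 / 1250) : ℝ) = (77231 / 125000) by norm_num]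
  have e8 : Real.cos ((2 + (141 / 100)) * (1309 / 1250) : ℝ) = Real.cos (446369 / 125000) := by rw [show ((2 + (141 / 100)) * (1309 / 1250) : ℝ) = (446369 / 125000) by norm_num]
  have e9 : Real.cos ((153 / 100) * (1309 / 1250) : ℝ) = Real.cos (200277 / 125000) := by rw [show ((153 / 100) * (1309 / 1250) : ℝ) = (200277 / 125000) by norm_num]
  have e10 : Real.cos (((153 / 100) + 1) * (1309 / 1250) : ℝ) = Real.cos (331177 / 125000) := by rw [show (((153 / 100) + 1) * (1309 / 1250) : ℝ) = (331177 / 125000) by norm_num]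
  have e11 : Real.cos (((153 / 100) - 1) * (1309 / 1250) : ℝ) = Real.cos (69377 / 125000) := by rw [show (((153 / 100) - 1) * (1309 / 1250) : ℝ) = (69377 / 125000) by norm_num]
  unfold HH19
  rw [e0, e1, e2, e3, e4, e5, e6, e7, e8, e9, e10, e11]
  constructor <;> linarith

theorem n4a_14 : (93 / 5000) ≤ HH19 (153 / 50) (61 / 50) 3 (1029 / 1000) ∧
    HH19 (153 / 50) (61 / 50) 3 (1029 / 1000) ≤ (187 / 10000) := by
  have c0h := c0_14
  have c20h := c20_14
  have c21h := c21_14
  have c4h := c4_14
  have c56h := c56_14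
  have c57h := c57_14
  have c58h := c58_14
  have c59h := c59_14
  have c60h := c60_14
  have c61h := c61_14
  have c62h := c62_14
  unfold Cb14 at c0h
  unfold Cb14 at c20h
  unfold Cb14 at c21h
  unfold Cb14 at c4h
  unfold Cb14 at c56h
  unfold Cb14 at c57h
  unfold Cb14 at c58h
  unfold Cb14 at c59h
  unfold Cb14 at c60h
  unfold Cb14 at c61h
  unfold Cb14 at c62h
  have e0 : Real.cos (((153 / 50) + 1) * (1029 / 1000) : ℝ) = Real.cos (208887 / 50000) := by rw [show (((153 / 50) + 1) * (1029 / 1000) : ℝ) = (208887 / 50000) by norm_num]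
  have e1 : Real.cos (((153 / 50) - 1) * (1029 / 1000) : ℝ) = Real.cos (105987 / 50000) := by rw [show (((153 / 50) - 1) * (1029 / 1000) : ℝ) = (105987 / 50000) by norm_num]
  have e2 : Real.cos (((61 / 50) + 1) * (1029 / 1000) : ℝ) = Real.cos (114219 / 50000) := by rw [show (((61 / 50) + 1) * (1029 / 1000) : ℝ) = (114219 / 50000) by norm_num]
  have e3 : Real.cos (((61 / 50) - 1) * (1029 / 1000) : ℝ) = Real.cos (11319 / 50000) := by rw [show (((61 / 50) - 1) * (1029 / 1000) : ℝ) = (11319 / 50000) by norm_num]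
  have e4 : Real.cos (2 * (1029 / 1000) : ℝ) = Real.cos (1029 / 500) := by rw [show (2 * (1029 / 1000) : ℝ) = (1029 / 500) by norm_num]
  have e5 : Real.cos (((153 / 50) - (61 / 50) + 1) * (1029 / 1000) : ℝ) = Real.cos (73059 / 25000) := by rw [show (((153 / 50) - (61 / 50) + 1) * (1029 / 1000) : ℝ) = (73059 / 25000) by norm_num]
  have e6 : Real.cos (((153 / 50) - (61 / 50) - 1) * (1029 / 1000) : ℝ) = Real.cos (21609 / 25000) := by rw [show (((153 / 50) - (61 / 50) - 1) * (1029 / 1000) : ℝ) = (21609 / 25000) by norm_num]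
  have e7 : Real.cos (((153 / 50) - (61 / 50)) * (1029 / 1000) : ℝ) = Real.cos (23667 / 12500) := by rw [show (((153 / 50) - (61 / 50)) * (1029 / 1000) : ℝ) = (23667 / 12500) by norm_num]
  have e8 : Real.cos (((153 / 50) + (61 / 50)) * (1029 / 1000) : ℝ) = Real.cos (110103 / 25000) := by rw [show (((153 / 50) + (61 / 50)) * (1029 / 1000) : ℝ) = (110103 / 25000) by norm_num]
  have e9 : Real.cos (3 * (1029 / 1000) : ℝ) = Real.cos (3087 / 1000) := by rw [show (3 * (1029 / 1000) : ℝ) = (3087 / 1000) by norm_num]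
  have e10 : Real.cos ((3 + 1) * (1029 / 1000) : ℝ) = Real.cos (1029 / 250) := by rw [show ((3 + 1) * (1029 / 1000) : ℝ) = (1029 / 250) by norm_num]
  have e11 : Real.cos ((3 - 1) * (1029 / 1000) : ℝ) = Real.cos (1029 / 500) := by rw [show ((3 - 1) * (1029 / 1000) : ℝ) = (1029 / 500) by norm_num]
  unfold HH19
  rw [e0, e1, e2, e3, e4, e5, e6, e7, e8, e9, e10, e11]
  constructor <;> linarith

theorem n4b_14 : (6 / 625) ≤ HH19 (153 / 50) (61 / 50) 3 (1309 / 1250) ∧
    HH19 (153 / 50) (61 / 50) 3 (1309 / 1250) ≤ (97 / 10000) := by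
  have c13h := c13_14
  have c28h := c28_14
  have c29h := c29_14
  have c63h := c63_14
  have c64h := c64_14
  have c65h := c65_14
  have c66h := c66_14
  have c67h := c67_14
  have c68h := c68_14
  have c69h := c69_14
  have c9h := c9_14
  unfold Cb14 at c13h
  unfold Cb14 at c28h
  unfold Cb14 at c29h
  unfold Cb14 at c63h
  unfold Cb14 at c64h
  unfold Cb14 at c65h
  unfold Cb14 at c66h
  unfold Cb14 at c67h
  unfold Cb14 at c68h
  unfold Cb14 at c69h
  unfold Cb14 at c9h
  have e0 : Real.cos (((153 / 50) + 1) * (1309 / 1250) : ℝ) = Real.cos (265727 / 62500) := by rw [show (((153 / 50) + 1) * (1309 / 1250) : ℝ) = (265727 / 62500) by norm_num]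
  have e1 : Real.cos (((153 / 50) - 1) * (1309 / 1250) : ℝ) = Real.cos (134827 / 62500) := by rw [show (((153 / 50) - 1) * (1309 / 1250) : ℝ) = (134827 / 62500) by norm_num]
  have e2 : Real.cos (((61 / 50) + 1) * (1309 / 1250) : ℝ) = Real.cos (145299 / 62500) := by rw [show (((61 / 50) + 1) * (1309 / 1250) : ℝ) = (145299 / 62500) by norm_num]
  have e3 : Real.cos (((61 / 50) - 1) * (1309 / 1250) : ℝ) = Real.cos (14399 / 62500) := by rw [show (((61 / 50) - 1) * (1309 / 1250) : ℝ) = (14399 / 62500) by norm_num]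
  have e4 : Real.cos (2 * (1309 / 1250) : ℝ) = Real.cos (1309 / 625) := by rw [show (2 * (1309 / 1250) : ℝ) = (1309 / 625) by norm_num]
  have e5 : Real.cos (((153 / 50) - (61 / 50) + 1) * (1309 / 1250) : ℝ) = Real.cos (92939 / 31250) := by rw [show (((153 / 50) - (61 / 50) + 1) * (1309 / 1250) : ℝ) = (92939 / 31250) by norm_num]
  have e6 : Real.cos (((153 / 50) - (61 / 50) - 1) * (1309 / 1250) : ℝ) = Real.cos (27489 / 31250) := by rw [show (((153 / 50) - (61 / 50) - 1) * (1309 / 1250) : ℝ) = (27489 / 31250) by norm_num]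
  have e7 : Real.cos (((153 / 50) - (61 / 50)) * (1309 / 1250) : ℝ) = Real.cos (30107 / 15625) := by rw [show (((153 / 50) - (61 / 50)) * (1309 / 1250) : ℝ) = (30107 / 15625) by norm_num]
  have e8 : Real.cos (((153 / 50) + (61 / 50)) * (1309 / 1250) : ℝ) = Real.cos (140063 / 31250) := by rw [show (((153 / 50) + (61 / 50)) * (1309 / 1250) : ℝ) = (140063 / 31250) by norm_num]
  have e9 : Real.cos (3 * (1309 / 1250) : ℝ) = Real.cos (3927 / 1250) := by rw [show (3 * (1309 / 1250) : ℝ) = (3927 / 1250) by norm_num]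
  have e10 : Real.cos ((3 + 1) * (1309 / 1250) : ℝ) = Real.cos (2618 / 625) := by rw [show ((3 + 1) * (1309 / 1250) : ℝ) = (2618 / 625) by norm_num]
  have e11 : Real.cos ((3 - 1) * (1309 / 1250) : ℝ) = Real.cos (1309 / 625) := by rw [show ((3 - 1) * (1309 / 1250) : ℝ) = (1309 / 625) by norm_num]
  unfold HH19
  rw [e0, e1, e2, e3, e4, e5, e6, e7, e8, e9, e10, e11]
  constructor <;> linarith

/-- (N1) -/
theorem N1_14 {a : ℝ} (h0 : 1029 / 1000 ≤ a) (h1 : a ≤ Real.pi / 3) :
    HH19 2 (146 / 100) (154 / 100) a < 0 := by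
  obtain ⟨s, s0, s1, hs⟩ := par14 h0 (h1.trans pi3_14)
  have e1 : (146 / 100 : ℝ) = 73 / 50 := by norm_num
  have e2 : (154 / 100 : ℝ) = 77 / 50 := by norm_num
  rw [e1, e2]
  have h := (HH_int14 2 (73 / 50) (77 / 50) s0 s1 hs).2
  obtain ⟨_, h3⟩ := n1a_14
  obtain ⟨_, h5⟩ := n1b_14
  have hM : Mf14 2 (73 / 50) (77 / 50) * ((1309 / 1250 - 1029 / 1000 : ℝ) ^ 2 / 8) ≤ 1 / 100 := by
    unfold Mf14
    norm_num
  nlinarith [mul_le_mul_of_nonneg_left h3 (by linarith : (0:ℝ) ≤ 1 - s),
    mul_le_mul_of_nonneg_left h5 s0]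

/-- (N2) -/
theorem N2_14 {a : ℝ} (h0 : 1029 / 1000 ≤ a) (h1 : a ≤ Real.pi / 3) :
    HH19 (231 / 100) (122 / 100) 0 a < HH19 2 (147 / 100) 0 a := by
  obtain ⟨s, s0, s1, hs⟩ := par14 h0 (h1.trans pi3_14)
  have e1 : (122 / 100 : ℝ) = 61 / 50 := by norm_num
  rw [e1]
  have h := (HH_int14 (231 / 100) (61 / 50) 0 s0 s1 hs).2
  have h' := (HH_int14 2 (147 / 100) 0 s0 s1 hs).1
  obtain ⟨_, h3⟩ := n2a_14
  obtain ⟨_, h5⟩ := n2b_14
  obtain ⟨h3', _⟩ := m2a_14
  obtain ⟨h5', _⟩ := m2b_14
  have hM : Mf14 (231 / 100) (61 / 50) 0 * ((1309 / 1250 - 1029 / 1000 : ℝ) ^ 2 / 8) ≤ 1 / 500 := by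
    unfold Mf14
    norm_num
  have hM' : Mf14 2 (147 / 100) 0 * ((1309 / 1250 - 1029 / 1000 : ℝ) ^ 2 / 8) ≤ 1 / 500 := by
    unfold Mf14
    norm_num
  nlinarith [mul_le_mul_of_nonneg_left h3 (by linarith : (0:ℝ) ≤ 1 - s),
    mul_le_mul_of_nonneg_left h5 s0, mul_le_mul_of_nonneg_left h3' (by linarith : (0:ℝ) ≤ 1 - s),
    mul_le_mul_of_nonneg_left h5' s0]

/-- (N3) -/
theorem N3_14 {a : ℝ} (h0 : 1029 / 1000 ≤ a) (h1 : a ≤ Real.pi / 3) :
    0 < HH19 2 (141 / 100) (153 / 100) a := by
  obtain ⟨s, s0, s1, hs⟩ := par14 h0 (h1.trans pi3_14)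
  have h := (HH_int14 2 (141 / 100) (153 / 100) s0 s1 hs).1
  obtain ⟨h3, _⟩ := n3a_14
  obtain ⟨h5, _⟩ := n3b_14
  have hM : Mf14 2 (141 / 100) (153 / 100) * ((1309 / 1250 - 1029 / 1000 : ℝ) ^ 2 / 8) ≤
      1 / 500 := by
    unfold Mf14
    norm_num
  nlinarith [mul_le_mul_of_nonneg_left h3 (by linarith : (0:ℝ) ≤ 1 - s),
    mul_le_mul_of_nonneg_left h5 s0]

/-- (N4) -/
theorem N4_14 {a : ℝ} (h0 : 1029 / 1000 ≤ a) (h1 : a ≤ Real.pi / 3) :
    0 < HH19 (306 / 100) (122 / 100) 3 a := by
  obtain ⟨s, s0, s1, hs⟩ := par14 h0 (h1.trans pi3_14)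
  have e1 : (306 / 100 : ℝ) = 153 / 50 := by norm_num
  have e2 : (122 / 100 : ℝ) = 61 / 50 := by norm_num
  rw [e1, e2]
  have h := (HH_int14 (153 / 50) (61 / 50) 3 s0 s1 hs).1
  obtain ⟨h3, _⟩ := n4a_14
  obtain ⟨h5, _⟩ := n4b_14
  have hM : Mf14 (153 / 50) (61 / 50) 3 * ((1309 / 1250 - 1029 / 1000 : ℝ) ^ 2 / 8) ≤
      1 / 400 := by
    unfold Mf14
    norm_num
  nlinarith [mul_le_mul_of_nonneg_left h3 (by linarith : (0:ℝ) ≤ 1 - s),
    mul_le_mul_of_nonneg_left h5 s0]

end

end Pool.Agent.PEN.E5
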