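import Pool.Agent.E5.Hl19
import Pool.Agent.E5.Hm14

/-! # PENNY, all small diameters: the facts F2 and F3 for `0 < d ≤ 0.356` -/

set_option autoImplicit false

namespace Pool.Agent.PEN.E5

open Classical UpperHalfPlane
open Pool.Agent.PEN.Cl

noncomputable section

theorem cosh_tight19 {d : ℝ} (hd : 0 < d) (h : d ≤ 89 / 250) : Real.cosh d ≤ 10644 / 10000 := by
  have h1 := Real.cosh_le_exp_half_sq (d / 2)
  have h2 : (d / 2) ^ 2 / 2 ≤ 15842 / 1000000 := by nlinarith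
  have h3 : Real.exp ((d / 2) ^ 2 / 2) ≤ Real.exp (15842 / 1000000) := Real.exp_le_exp.2 h2
  have h4 : Real.exp (15842 / 1000000) ≤ 1015970 / 1000000 := by
    have := Real.exp_bound' (x := 15842 / 1000000) (by norm_num) (by norm_num) (n := 3) (by norm_num)
    norm_num [Finset.sum_range_succ, Nat.factorial] at this
    linarith
  have h5 : Real.cosh (d / 2) ≤ 1015970 / 1000000 := h1.trans (h3.trans h4)
  have h6 : 0 ≤ Real.cosh (d / 2) := (Real.cosh_pos _).le
  have h7 := pow_le_pow_left₀ h6 h5 2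
  have h8 : Real.cosh d = 2 * Real.cosh (d / 2) ^ 2 - 1 := by
    have := Real.cosh_two_mul (d / 2)
    rw [show 2 * (d / 2) = d by ring, Real.sinh_sq] at this
    linarith
  rw [h8]
  norm_num at h7
  linarith

/-- the angle of the contact triangle for `d ≤ 0.356` -/
theorem alpha_ge19 {d : ℝ} (hd : 0 < d) (h : d ≤ 89 / 250) : 1029 / 1000 ≤ alpha d := by
  have hp2 := Real.pi_gt_d6
  have hal := alpha_lt hd
  have hal0 := alpha_pos hd
  have hC := cosh_tight19 hd h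
  have hC1 : 1 < Real.cosh d := Real.one_lt_cosh.2 hd.ne'
  have hc : Real.cos (alpha d) ≤ 5156 / 10000 := by
    rw [cos_alpha hd, div_le_iff₀ (by linarith)]
    linarith
  by_contra hcon
  push Not at hcon
  have h1 : Real.cos (2 * (1029 / 2000)) < Real.cos (alpha d) :=
    Real.cos_lt_cos_of_nonneg_of_le_pi hal0.le (by linarith) (by linarith)
  have h2 := cos_ge52 (t := 1029 / 2000) (by norm_num) (by norm_num)
  have h4 : (87053 : ℝ) / 100000 ≤ Real.cos (1029 / 2000) := by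
    refine le_trans ?_ h2
    norm_num
  rw [Real.cos_two_mul] at h1
  have h3 := pow_le_pow_left₀ (by norm_num) h4 2
  norm_num at h3 h1
  linarith

section conc
variable {G : Tg ℍ} {d : ℝ} {kp : ℍ → ℍ → ℝ} {U : ℕ → ℝ}

/-- **F3**: in a hexagon face with `17` units, `o1 + o2 ≤ 0.53` and `o4 + o5 ≤ 0.53` -/
theorem f3_19 (hG : G.Geo4 (alpha d) kp U) (hD : DelG G d) (hS : Sep d G.P)
    (hd2 : d ≤ 89 / 250)
    {C : G.adj.ConnectedComponent} (hC : C ∈ WF G) (hd6 : (G.cI C).card + 2 = 2 * (G.cT C).card)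
    (h6 : (G.cJ C).card = 6) {x : ℍ × ℍ} (hx : x ∈ G.cJ C) (u0 : un G (alpha d) x = 4)
    (u1 : un G (alpha d) (sg G x) = 2) (u2 : un G (alpha d) (sg G (sg G x)) = 3)
    (u3 : un G (alpha d) (sg G (sg G (sg G x))) = 3)
    (u4 : un G (alpha d) (sg G (sg G (sg G (sg G x)))) = 3)
    (u5 : un G (alpha d) (sg G (sg G (sg G (sg G (sg G x))))) = 2) :
    147 / 100 ≤ gc G (alpha d) (sg G x) + gc G (alpha d) (sg G (sg G x)) ∧
      147 / 100 ≤ gc G (alpha d) (sg G (sg G (sg G (sg G x)))) +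
        gc G (alpha d) (sg G (sg G (sg G (sg G (sg G x))))) := by
  have hd := hD.hd
  have hC := cosh_tight19 hd hd2
  have ha := alpha_ge19 hd hd2
  have hb := (alpha_lt hd).le
  have hp := Real.pi_lt_d6
  exact f3_of19 hG hD hS (by linarith) (by linarith) (N2_14 ha hb) (N3_14 ha hb) (N4_14 ha hb)
    ‹C ∈ WF G› hd6 h6 hx u0 u1 u2 u3 u4 u5

/-- **F2** for `d ≤ 0.356` -/
theorem f2d_19 (hG : G.Geo4 (alpha d) kp U) (hD : DelG G d) (hS : Sep d G.P)
    (hd2 : d ≤ 89 / 250)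
    {C : G.adj.ConnectedComponent} (hC : C ∈ WF G) (hd6 : (G.cI C).card + 2 = 2 * (G.cT C).card)
    (h6 : (G.cJ C).card = 6) {x : ℍ × ℍ} (hx : x ∈ G.cJ C) (u0 : un G (alpha d) x = 4)
    (u1 : un G (alpha d) (sg G x) = 2) (u2 : un G (alpha d) (sg G (sg G x)) = 3)
    (u3 : un G (alpha d) (sg G (sg G (sg G x))) = 3)
    (u4 : un G (alpha d) (sg G (sg G (sg G (sg G x)))) = 3)
    (u5 : un G (alpha d) (sg G (sg G (sg G (sg G (sg G x))))) = 2) :
    1 / 2 ≤ gc G (alpha d) (sg G x) ∧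
      1 / 2 ≤ gc G (alpha d) (sg G (sg G (sg G (sg G (sg G x))))) :=
  f2_19 hG hD hS (by linarith [cosh_tight19 hD.hd hd2]) hC hd6 h6 hx u0 u1 u2 u3 u4 u5

end conc

end

end Pool.Agent.PEN.E5
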