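import Pool.Agent.E5.Dd15

/-! # PENNY, all small diameters: set B6, the options of the hexagon classes with 17 units -/

set_option autoImplicit false

namespace Pool.Agent.PEN.E5

open Classical UpperHalfPlane
open Pool.Agent.PEN.Cl

noncomputable section

variable {V : Type} (G : Tg V)

/-- the payments of the leaf corners of a class -/
def nH15 (al : ℝ) (C : G.adj.ConnectedComponent) : ℝ :=
  ∑ x ∈ (G.cJ C).filter (fun x => x.1 ∈ lfN G), ps15 G al x

/-- (B) a corner whose point can pay -/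
def OB15 (al : ℝ) (C : G.adj.ConnectedComponent) (z : V × V) : Prop :=
  z ∈ G.cJ C ∧ z.1 ∈ A2 G al ∧ z ∈ Vl39 G al z.1

/-- (X1) the black face is a digon whose back side is very weak -/
def Xa15 (al : ℝ) (e : V × V) : Prop :=
  Ex3 G al (ku G e) (e.2, e.1) ∧ gc G al (e.2, e.1) + gc G al (sg G (e.2, e.1)) ≤ 53 / 100 ∧
    uv G al e.1 = 7 ∧ uv G al e.2 = 7 ∧ 1 / 2 ≤ gc G al e ∧ 1 / 2 ≤ gc G al (sg G e)

/-- (X2) the black face is a triangle with a foreign leaf -/
def Xb15 (al : ℝ) (e : V × V) : Prop :=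
  (∃ x, Ex1 G al (ku G e) x) ∧ tK G (ku G e) = 1 ∧ 1 / 2 ≤ gc G al e ∧ 1 / 2 ≤ gc G al (sg G e)

/-- (X3) the black face is a digon with two units -/
def Xc15 (al : ℝ) (e : V × V) : Prop :=
  tK G (ku G e) = 0 ∧
    (2 ≤ (Lv G (ku G e)).card + (PK G al (ku G e)).card + (WsK G al (ku G e)).card ∨
      (1 ≤ (PK G al (ku G e)).card ∧ 1 ≤ uK14 G al (ku G e)))

/-- (X) a side that gets one unit -/
def OX15 (al : ℝ) (C : G.adj.ConnectedComponent) (e : V × V) : Prop :=
  e ∈ G.cJ C ∧ e ∉ GH G al ∧ (Xa15 G al e ∨ Xb15 G al e ∨ Xc15 G al e)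

/-- the options of a hexagon class with 17 units -/
def Opt15 (al : ℝ) (C : G.adj.ConnectedComponent) : Prop :=
  nH15 G al C + 1 ≤ cC15 G (GH G al) C +
      ∑ s ∈ G.cJ C, (yK15 G al (ku G s) - 1) * sp G al s ∨
    (nH15 G al C ≤ cC15 G (GH G al) C ∧ ((∃ z, OB15 G al C z) ∨ ∃ e, OX15 G al C e))

/-- the leaf corners of centre type with at least six units -/
def L615 (al : ℝ) : Finset (V × V) :=
  (BC G).filter (fun z => z.1 ∈ lfN G ∧ 6 ≤ un G al z ∧ Cen61 G al z)

end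

end Pool.Agent.PEN.E5
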