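import Pool.Agent.E5.H6d49
import Pool.Agent.E5.En85
import Pool.Agent.E5.Op15
import Pool.Agent.E5.Ho19

/-! # PENNY, all small diameters: the hexagons with seventeen units in the set B6, the row -/

set_option autoImplicit false

namespace Pool.Agent.PEN.E5

open Classical UpperHalfPlane
open Pool.Agent.PEN.Cl

noncomputable section

variable {V : Type} {G : Tg V} {al : ℝ} {kp : V → V → ℝ} {U : ℕ → ℝ}
variable {C : G.adj.ConnectedComponent} {x : V × V}

/-- the units to be paid -/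
theorem P17.nH (h : P17 G al C x) (hI : (G.cI C).card = 6) :
    nH15 G al C = ∑ y ∈ (G.cJ C).filter (fun y => y.1 ∈ lfN G), ((un G al y : ℝ) - 2) := by
  unfold nH15
  refine Finset.sum_congr rfl fun y hy => ?_
  have hyC := (Finset.mem_filter.1 hy).1
  have hcl := cl_cJ49 G h.wf hyC
  unfold ps15
  rw [hcl, if_pos (Or.inl (h.cls hI))]
  refine max_eq_left ?_
  have h2 : 2 ≤ un G al y := by
    unfold un
    split_ifs with ht
    · exact absurd ht ((mem_BC89 G).1 (h.bc hyC)).2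
    · exact le_max_left _ _
  have h3 : (2 : ℝ) ≤ un G al y := by exact_mod_cast h2
  linarith

/-- the only corner with four units -/
theorem P17.only (h : P17 G al C x) {z : V × V} (hz : z ∈ G.cJ C) (h4 : un G al z = 4) :
    z = x := by
  have h0 := h.u0
  have h1 := h.u1
  have h2 := h.u2
  have h3 := h.u3
  have h5 := h.u4
  have h6 := h.u5
  rw [h.J] at hz
  simp only [Finset.mem_insert, Finset.mem_singleton] at hz
  rcases hz with rfl | rfl | rfl | rfl | rfl | rfl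
  · rfl
  all_goals omega

/-- a leaf at `v0` excludes digons at its sides -/
theorem P17.leaf0 (h : P17 G al C x) (hG : G.Geo4 al kp U) (h1 : ∀ x ∈ iJ G, gc G al x ≤ 1)
    (hl : x.1 ∈ lfN G) : ku G x = ku G (sg G (sg G (sg G (sg G (sg G x))))) ∧
      1 ≤ tK G (ku G x) := by
  obtain ⟨hv, hc⟩ := (mem_lfN15 G).1 hl
  have hS := BC_SD14 G (h.bc h.x5)
  have hcy := h.cyc
  have h2 : (sg G (sg G (sg G (sg G (sg G x))))).2 = x.1 := by
    have : (sg G (sg G (sg G (sg G (sg G (sg G x)))))).1 =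
      (sg G (sg G (sg G (sg G (sg G x))))).2 := rfl
    rw [← this, hcy]
  have hnx := ((sg_nx_iff89 G hG hv hS h2).2 hc).symm
  rw [hcy] at hnx
  have hk : ku G x = ku G (sg G (sg G (sg G (sg G (sg G x))))) := by
    have h3 := (nx_ku63 G hG hS).2
    rw [hnx] at h3
    exact h3
  refine ⟨hk, ?_⟩
  have hL : sg G (sg G (sg G (sg G (sg G x)))) ∈ Lv G (ku G x) := by
    rw [hk]
    exact (mem_Lv15 G).2 ⟨(mem_kS42 G).2 ⟨hS, rfl⟩, by rw [h2]; exact hv, by rw [h2]; exact hc⟩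
  have hs := leaf_sum15 G hG h1 hL
  rw [hcy, h.u0] at hs
  have h3 := sum_rn63 G hG (ku G x)
  have h4 : rn G (sg G (sg G (sg G (sg G (sg G x))))) ≤ ∑ y ∈ kS G (ku G x), rn G y :=
    Finset.single_le_sum (f := rn G) (fun _ _ => Nat.zero_le _)
      (by rw [hk]; exact (mem_kS42 G).2 ⟨hS, rfl⟩)
  omega

/-- the sides at `v0` are not good if their face is a digon -/
theorem P17.ngh (h : P17 G al C x) (hG : G.Geo4 al kp U) (h1 : ∀ x ∈ iJ G, gc G al x ≤ 1)
    {e : V × V} (he : e = x ∨ e = sg G (sg G (sg G (sg G (sg G x))))) (ht : tK G (ku G e) = 0) :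
    e ∉ GH G al := by
  have heC : e ∈ G.cJ C := by
    rcases he with rfl | rfl
    · exact h.x0
    · exact h.x5
  intro hg
  unfold GH at hg
  obtain ⟨_, hg2, _⟩ := Finset.mem_filter.1 hg
  unfold gH at hg2
  obtain ⟨_, z, hz, hz4, hz5⟩ := hg2
  rw [cl_cJ49 G h.wf heC] at hz
  have hzx := h.only hz hz4
  subst hzx
  have h0 := h.u0
  have k1 := h.u1
  have k2 := h.u2
  have k3 := h.u3
  have k4 := h.u4
  have k5 := h.u5
  have cyc := h.cyc
  rcases hz5 with hz5 | hl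
  · rcases he with rfl | he
    · rcases hz5 with q | q | q | q
      · rw [← q] at k1; omega
      · rw [← q] at k2; omega
      · rw [← q] at k3; omega
      · rw [← q] at k4; omega
    · rcases hz5 with q | q | q | q
      · rw [← he, q] at cyc
        rw [cyc] at k2
        omega
      · rw [← q, he] at k2; omega
      · rw [← q, he] at k3; omega
      · rw [← q, he] at k4; omega
  · obtain ⟨q1, q2⟩ := h.leaf0 hG h1 hl
    rcases he with rfl | he
    · omega
    · rw [he, ← q1] at ht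
      omega

/-- **the row of a hexagon with seventeen units** -/
theorem P17.opt (h : P17 G al C x) (hG : G.Geo4 al kp U) (h1 : ∀ x ∈ iJ G, gc G al x ≤ 1)
    (hI : (G.cI C).card = 6) : Opt15 G al C := by
  have hnH := h.nH hI
  obtain ⟨s0, s1, s2, s3, s4, s5⟩ := h.sp0 h1
  have nn : ∀ s, 0 ≤ sp G al s → 0 ≤ (yK15 G al (ku G s) - 1) * sp G al s := fun s hs =>
    mul_nonneg (by linarith [yK_one15 G (al := al) (ku G s)]) hs
  have t0 := nn _ s0
  have t1 := nn _ s1
  have t2 := nn _ s2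
  have t3 := nn _ s3
  have t4 := nn _ s4
  have t5 := nn _ s5
  have hsum := h.sum (fun s => (yK15 G al (ku G s) - 1) * sp G al s)
  unfold Opt15
  rw [hnH]
  rcases h.abc49 hG h1 hI with hA | hA | hA | ⟨hN, a1, a2, a3, a4, u2, u3, u4⟩
  · left
    rw [hsum]
    linarith
  · left
    exact hA
  · right
    obtain ⟨hN, z, hz⟩ := hA
    exact ⟨hN, Or.inl ⟨z, hz⟩⟩
  · have m0 := h.ple h1 h.x0
    have m1 := h.ple h1 h.x1
    have m2 := h.ple h1 h.x2
    have m3 := h.ple h1 h.x3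
    have m4 := h.ple h1 h.x4
    have m5 := h.ple h1 h.x5
    have hm := h.mass
    have f1 := h.f1
    have f5 := h.f5
    have g1 := h.g1
    have g5 := h.g5
    have key : (∃ e b, (e = sg G x ∨ e = sg G (sg G x) ∨ e = sg G (sg G (sg G x)) ∨
        e = sg G (sg G (sg G (sg G x)))) ∧ Ex3 G al (ku G e) b) → (∃ z, OB15 G al C z) ∨
        ∃ e, OX15 G al C e := by
      rintro ⟨e, b, he, hb⟩
      rcases h.d49 hG h1 a1 a2 a3 a4 he hb with ⟨z, hz⟩ | ⟨e', q1, q2, q3, q4, q5, q6, q7, q8⟩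
      · exact Or.inl ⟨z, hz⟩
      · exact Or.inr ⟨e', q1, q2, Or.inl ⟨q3, q4, q5, q6, q7, q8⟩⟩
    by_cases hD : ∃ e b, (e = sg G x ∨ e = sg G (sg G x) ∨ e = sg G (sg G (sg G x)) ∨
        e = sg G (sg G (sg G (sg G x)))) ∧ Ex3 G al (ku G e) b
    · exact Or.inr ⟨hN, key hD⟩
    have red : ∀ e, (e = sg G x ∨ e = sg G (sg G x) ∨ e = sg G (sg G (sg G x)) ∨
        e = sg G (sg G (sg G (sg G x)))) → Exc G al (ku G e) →
        (∃ z, Ex1 G al (ku G e) z) ∨ (∃ z, Ex2 G al (ku G e) z) := by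
      rintro e he ⟨z, hz | hz | hz⟩
      · exact Or.inl ⟨z, hz⟩
      · exact Or.inr ⟨z, hz⟩
      · exact absurd ⟨e, z, he, hz⟩ hD
    have E1 := red _ (Or.inl rfl) a1
    have E2 := red _ (Or.inr (Or.inl rfl)) a2
    have E3 := red _ (Or.inr (Or.inr (Or.inl rfl))) a3
    have E4 := red _ (Or.inr (Or.inr (Or.inr rfl))) a4
    obtain ⟨⟨v1, c1⟩, ⟨v2, c2⟩, ⟨v3, c3⟩, ⟨v4, c4⟩, ⟨v5, c5⟩⟩ := h.pts hG h1 a1 a4 a2 a3
    rcases caseE85 G hG h1 (h.bc h.x0) rfl rfl rfl rfl rfl h.cyc (by rw [h.u2]) (by rw [h.u3])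
      (by rw [h.u4]) hm f1 f5 v1 v2 v3 v4 v5 c1 c2 c3 c4 c5 u2 u3 u4 E1 E2 E3 E4 with
      q | ⟨z, hz, q1, q2⟩ | ⟨e, he, z, q1, q2⟩ | ⟨e, he, q1, q2⟩
    · left
      rw [hsum]
      linarith
    · right
      refine ⟨hN, Or.inl ⟨z, ?_, q1, q2⟩⟩
      rcases hz with rfl | rfl
      · exact h.x1
      · exact h.x5
    · right
      refine ⟨hN, Or.inr ⟨e, ?_, ?_, Or.inr (Or.inl ⟨⟨z, q1⟩, q2, ?_⟩)⟩⟩
      · rcases he with rfl | rfl
        · exact h.x2
        · exact h.x3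
      · exact nGH49 ⟨z, Or.inl q1⟩
      · rcases he with rfl | rfl
        · constructor <;> linarith
        · constructor <;> linarith
    · right
      refine ⟨hN, Or.inr ⟨e, ?_, h.ngh hG h1 he q1, Or.inr (Or.inr ⟨q1, q2⟩)⟩⟩
      rcases he with rfl | rfl
      · exact h.x0
      · exact h.x5

end

noncomputable section

variable {G : Tg ℍ} {d : ℝ} {kp : ℍ → ℍ → ℝ} {U : ℕ → ℝ}

/-- **the options of every class with seventeen units**, all `d ≤ 0.356` -/
theorem opt17 (hG : G.Geo4 (alpha d) kp U) (hD : DelG G d) (hS : Sep d G.P)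
    (hd2 : d ≤ 89 / 250) {C : G.adj.ConnectedComponent} (hC : H17c G (alpha d) C) :
    Opt15 G (alpha d) C := by
  obtain ⟨hW, hT, hI, h17⟩ := hC
  have h1 : ∀ x ∈ iJ G, gc G (alpha d) x ≤ 1 := fun x hx => gc_le_one19' hG hD hS hx
  have hC6 : Real.cosh d ≤ 11 / 10 := by
    have := cosh_tight19 hD.hd hd2
    linarith
  have hd6 : (G.cI C).card + 2 = 2 * (G.cT C).card := by omega
  have h6 : (G.cJ C).card = 6 := by
    have := disc90 G ((mem_WF89 G).1 hW).1 hd6
    omega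
  obtain ⟨x, hx⟩ := pat49 hG hD hS h1 hC6 hW hT hI h17
    (fun x hx u0 u1 u2 u3 u4 u5 => f3_19 hG hD hS hd2 hW hd6 h6 hx u0 u1 u2 u3 u4 u5)
  exact hx.opt hG h1 hI

end

end Pool.Agent.PEN.E5
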