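import Pool.Agent.E5.Vt15

/-! # PENNY, all small diameters: mass at a centre, at a chain of leaves, at two digons

`gc` is the gap of a corner. A white face `W` has the sides `s`, `sg s`, `sg (sg s)`, ...; the
corner of `W` between `s` and `sg s` is at `s.2` and its gap is `gc (sg s)`. -/

set_option autoImplicit false

namespace Pool.Agent.PEN.E5

open Classical UpperHalfPlane
open Pool.Agent.PEN.Cl

noncomputable section

variable {V : Type} (G : Tg V) {al : ℝ} {kp : V → V → ℝ} {U : ℕ → ℝ}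

/-- if all sides of a black face are strong and only the sectors of `F` may be nonnegative, then the
sides of a set `E` are paid by the sectors of `F` -/
theorem only18 (hG : G.Geo4 al kp U) (K : (cg G).ConnectedComponent) (E F : Finset (V × V))
    (hE : E ⊆ kS G K) (hF : F ⊆ kS G K) (hw : ∀ x ∈ kS G K, 0 ≤ sp G al x)
    (hn : ∀ x ∈ kS G K, x ∉ F → Ds G al x < 0) :
    ∑ x ∈ E, sp G al x ≤ ∑ x ∈ F, Ds G al x := by
  have h1 : ∑ x ∈ E, sp G al x ≤ ∑ x ∈ kS G K, sp G al x :=
    Finset.sum_le_sum_of_subset_of_nonneg hE fun x hx _ => hw x hx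
  have h2 : ∑ x ∈ kS G K, Ds G al x ≤ ∑ x ∈ F, Ds G al x := by
    rw [← Finset.sum_sdiff hF]
    have : ∑ x ∈ kS G K \ F, Ds G al x ≤ 0 := Finset.sum_nonpos fun x hx => by
      obtain ⟨h3, h4⟩ := Finset.mem_sdiff.1 hx
      exact (hn x h3 h4).le
    linarith
  rw [sum_Ds89 G hG K] at h2
  exact h1.trans h2

/-- the strict form: some side is not in `F` -/
theorem only_lt18 (hG : G.Geo4 al kp U) (K : (cg G).ConnectedComponent) (E F : Finset (V × V))
    (hE : E ⊆ kS G K) (hF : F ⊆ kS G K) (hw : ∀ x ∈ kS G K, 0 ≤ sp G al x)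
    (hn : ∀ x ∈ kS G K, x ∉ F → Ds G al x < 0) {z : V × V} (hz : z ∈ kS G K) (hzF : z ∉ F) :
    ∑ x ∈ E, sp G al x < ∑ x ∈ F, Ds G al x := by
  have h1 : ∑ x ∈ E, sp G al x ≤ ∑ x ∈ kS G K, sp G al x :=
    Finset.sum_le_sum_of_subset_of_nonneg hE fun x hx _ => hw x hx
  have h2 : ∑ x ∈ kS G K, Ds G al x < ∑ x ∈ F, Ds G al x := by
    rw [← Finset.sum_sdiff hF]
    have : ∑ x ∈ kS G K \ F, Ds G al x < 0 := by
      rw [← Finset.add_sum_erase _ _ (Finset.mem_sdiff.2 ⟨hz, hzF⟩)]
      have h3 : ∑ x ∈ (kS G K \ F).erase z, Ds G al x ≤ 0 := Finset.sum_nonpos fun x hx => by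
        obtain ⟨h3, h4⟩ := Finset.mem_sdiff.1 (Finset.mem_of_mem_erase hx)
        exact (hn x h3 h4).le
      linarith [hn z hz hzF]
    linarith
  rw [sum_Ds89 G hG K] at h2
  exact h1.trans_lt h2

/-- a side whose sector has run `0` at its head: the black face turns back -/
theorem nx_swap18 {x : V × V} (hx : ¬ tt G (x.2, x.1)) : nx G x = (x.2, x.1) := by
  have hN : HasN G x.2 x.1 := ⟨0, hx⟩
  have h0 : Nat.find hN = 0 := by
    rw [Nat.find_eq_zero]
    exact hx
  unfold nx
  rw [nb_eq42 G hN, h0]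
  rfl

theorem run0_18 (hG : G.Geo4 al kp U) {v : V} {x : V × V} (hx : x ∈ Sv G v)
    (h0 : rn G x = 0) : nx G x = (v, x.1) ∧ x = (x.1, v) := by
  obtain ⟨_, h2, _⟩ := run89 G hG hx
  obtain ⟨_, h4⟩ := (mem_Sv89 G).1 hx
  rw [h0] at h2
  exact ⟨h2, Prod.ext rfl h4⟩

/-- the sum of the three gaps at a point with three big corners -/
theorem sum3_18 (hG : G.Geo4 al kp U) {v : V} (hv : v ∈ inN G) {x y z : V × V}
    (hx : x ∈ Sv G v) (hy : y ∈ Sv G v) (hz : z ∈ Sv G v) (hyx : y ≠ x) (hzx : z ≠ x)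
    (hzy : z ≠ y) (hB : Bv G v = {sg G x, sg G y, sg G z}) :
    gc G al (sg G x) + gc G al (sg G y) + gc G al (sg G z) = kv G al v - ep al := by
  have h1 : ∑ w ∈ Bv G v, gc G al w = kv G al v - ep al := by
    rw [← sum_gc89 G hG hv]
    unfold Bv
    rw [cv_BC89]
    exact Finset.sum_filter_of_ne fun x _ h h3 => h (gc_tt89 G hG h3)
  rw [hB, Finset.sum_insert, Finset.sum_insert, Finset.sum_singleton] at h1
  · linarith
  · rw [Finset.mem_singleton]
    exact fun h => hzy (sg_injSv89 G hG hv hy hz h).symm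
  · rw [Finset.mem_insert, Finset.mem_singleton]
    rintro (h | h)
    · exact hyx (sg_injSv89 G hG hv hx hy h).symm
    · exact hzx (sg_injSv89 G hG hv hx hz h).symm

/-- **centre, digon after the corner**: `z` is the side with `nx z = sg s` -/
theorem centreA18 (hG : G.Geo4 al kp U) {v : V} (hv : v ∈ inN G) (hk : kv G al v = 2)
    {s y z : V × V} (hs : s ∈ Sv G v) (hy : y ∈ Sv G v) (hz : z ∈ Sv G v) (hys : y ≠ s)
    (hzs : z ≠ s) (hzy : z ≠ y) (hB : Bv G v = {sg G s, sg G y, sg G z}) (h1 : sg G y = nx G s)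
    (h3 : nx G z = sg G s) (h0 : rn G z = 0) (hneg : Ds G al (sg G s) < 0)
    (hstr : 0 ≤ sp G al z) (hsp : sp G al s ≤ Ds G al s) :
    gc G al s + gc G al (sg G s) + gc G al (sg G (sg G s)) < 2 := by
  obtain ⟨e1, e2⟩ := run0_18 G hG hz h0
  have hsum := sum3_18 G hG hv hs hy hz hys hzs hzy hB (al := al)
  rw [hk] at hsum
  have hz1 := ((mem_Sv89 G).1 hz).1
  have hzt := ((mem_SD42 G).1 hz1).2
  have e3 : nx G (sg G s) = z := by
    rw [← h3, e1]
    have : nx G (v, z.1) = (z.1, v) := nx_swap18 G (x := (v, z.1)) (by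
      dsimp only
      rw [← e2]
      exact hzt)
    rw [this, ← e2]
  have hep := ep_pos89 G hG
  unfold Ds at hneg hsp
  unfold sp at hstr hsp
  rw [e3] at hneg
  rw [← h1] at hsp
  linarith

/-- **centre, digon before the corner** -/
theorem centreB18 (hG : G.Geo4 al kp U) {v : V} (hv : v ∈ inN G) (hk : kv G al v = 2)
    {s y z : V × V} (hs : s ∈ Sv G v) (hy : y ∈ Sv G v) (hz : z ∈ Sv G v) (hys : y ≠ s)
    (hzs : z ≠ s) (hzy : z ≠ y) (hB : Bv G v = {sg G s, sg G y, sg G z}) (h1 : sg G y = nx G s)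
    (h3 : nx G z = sg G s) (h0 : rn G s = 0) (hneg : Ds G al (nx G s) < 0)
    (hstr : 0 ≤ sp G al (nx G s)) (hsp : sp G al (sg G s) ≤ Ds G al z) :
    gc G al s + gc G al (sg G s) + gc G al (sg G (sg G s)) < 2 := by
  obtain ⟨e1, e2⟩ := run0_18 G hG hs h0
  have hsum := sum3_18 G hG hv hs hy hz hys hzs hzy hB (al := al)
  rw [hk] at hsum
  have hs1 := ((mem_Sv89 G).1 hs).1
  have hst := ((mem_SD42 G).1 hs1).2
  have e3 : nx G (nx G s) = s := by
    rw [e1]
    have : nx G (v, s.1) = (s.1, v) := nx_swap18 G (x := (v, s.1)) (by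
      dsimp only
      rw [← e2]
      exact hst)
    rw [this, ← e2]
  have hep := ep_pos89 G hG
  unfold Ds at hneg hsp
  unfold sp at hstr hsp
  rw [e3] at hneg
  rw [h3] at hsp
  rw [← h1] at hneg hstr
  linarith

/-- **(I3) the centre lemma**: `k = 2`, three big corners with at least one extra unit, every black
face at `v` has no other nonnegative sector and no weak side. Then the white corner at `v` and its
two neighbours in `W` have gaps with sum `< 2` -/
theorem centre18 (hG : G.Geo4 al kp U) {v : V} (hv : v ∈ inN G) (hu : uv G al v = 8)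
    (hc : cv G v = 3) (hx : 7 ≤ ub15 G al v) {s : V × V} (hs : s ∈ Sv G v)
    (hp : ∀ x ∈ Sv G v, ∀ w ∈ kS G (ku G x), w ≠ x → Ds G al w < 0)
    (hw : ∀ x ∈ Sv G v, ∀ w ∈ kS G (ku G x), 0 ≤ sp G al w) :
    gc G al s + gc G al (sg G s) + gc G al (sg G (sg G s)) < 2 := by
  obtain ⟨y, hy, z, hz, hys, hzs, hzy, hS, hB, h1, h2, h3⟩ := c3_89 G hG hv hc hs
  have hk : kv G al v = 2 := by rw [kv_eq89, hu]; norm_num
  have hruns := uv_split62 G hG (al := al) v
  rw [hu, hS, Finset.sum_insert, Finset.sum_insert, Finset.sum_singleton] at hruns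
  rotate_left
  · rw [Finset.mem_singleton]; exact fun h => hzy h.symm
  · rw [Finset.mem_insert, Finset.mem_singleton]
    rintro (h | h)
    · exact hys h.symm
    · exact hzs h.symm
  unfold ub15 at hx
  have memK : ∀ x ∈ Sv G v, x ∈ kS G (ku G x) ∧ nx G x ∈ kS G (ku G x) := by
    intro x hx
    have h := ((mem_Sv89 G).1 hx).1
    have h4 := (mem_kS42 G (x := x) (K := ku G x)).2 ⟨h, rfl⟩
    exact ⟨h4, nx_kS89 G hG h4⟩
  have nxne : ∀ x ∈ Sv G v, nx G x ≠ x := by
    intro x hx he
    have h4 := ((mem_Sv89 G).1 hx)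
    have h5 : (nx G x).1 = x.2 := rfl
    rw [he] at h5
    have h6 := ((mem_KJ42 G).1 ((mem_SD42 G).1 h4.1).1).1
    have h7 : x = (x.1, x.1) := Prod.ext rfl h5.symm
    rw [h7] at h6
    exact G.ne _ _ h6 rfl
  by_cases h0 : rn G z = 0
  · refine centreA18 G hG hv hk hs hy hz hys hzs hzy hB h1 h3 h0 ?_ ?_ ?_
    · rw [← h3]
      exact hp z hz _ (memK z hz).2 (nxne z hz)
    · exact hw z hz _ (memK z hz).1
    · have h4 := only18 G hG (ku G s) {s} {s} (Finset.singleton_subset_iff.2 (memK s hs).1)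
        (Finset.singleton_subset_iff.2 (memK s hs).1) (hw s hs) (fun x hx hne =>
          hp s hs x hx fun h => hne (by rw [h]; exact Finset.mem_singleton_self s))
      rw [Finset.sum_singleton, Finset.sum_singleton] at h4
      exact h4
  · have h0' : rn G s = 0 := by omega
    refine centreB18 G hG hv hk hs hy hz hys hzs hzy hB h1 h3 h0' ?_ ?_ ?_
    · exact hp s hs _ (memK s hs).2 (nxne s hs)
    · exact hw s hs _ (memK s hs).2
    · have h4 := only18 G hG (ku G z) {sg G s} {z} (Finset.singleton_subset_iff.2 (by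
          rw [← h3]; exact (memK z hz).2))
        (Finset.singleton_subset_iff.2 (memK z hz).1) (hw z hz) (fun x hx hne =>
          hp z hz x hx fun h => hne (by rw [h]; exact Finset.mem_singleton_self z))
      rw [Finset.sum_singleton, Finset.sum_singleton] at h4
      exact h4

/-- **(I4) two digons at a corner of `W`**: `s` and `sg s` are digons, their back sides are strong, the
sectors behind are not positive. `z` is the side with `nx z = sg s` -/
theorem digons18 (hG : G.Geo4 al kp U) {v : V} (hv : v ∈ inN G) {s z : V × V}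
    (hs : s ∈ Sv G v) (hz : z ∈ Sv G v) (hzs : z ≠ s) (hne : nx G s ≠ sg G z)
    (hc : cv G v ≠ 1) (h3 : nx G z = sg G s) (h0 : rn G s = 0) (h0' : rn G z = 0)
    (hn1 : Ds G al (nx G s) ≤ 0) (hn2 : Ds G al (sg G s) ≤ 0)
    (hs1 : 0 ≤ sp G al (nx G s)) (hs2 : 0 ≤ sp G al z) :
    gc G al s + gc G al (sg G s) + gc G al (sg G (sg G s)) ≤ kv G al v - ep al := by
  obtain ⟨e1, e2⟩ := run0_18 G hG hs h0
  obtain ⟨f1, f2⟩ := run0_18 G hG hz h0'
  have hst := ((mem_SD42 G).1 ((mem_Sv89 G).1 hs).1).2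
  have hzt := ((mem_SD42 G).1 ((mem_Sv89 G).1 hz).1).2
  have e3 : nx G (nx G s) = s := by
    rw [e1]
    have : nx G (v, s.1) = (s.1, v) := nx_swap18 G (x := (v, s.1)) (by
      dsimp only
      rw [← e2]
      exact hst)
    rw [this, ← e2]
  have f3 : nx G (sg G s) = z := by
    rw [← h3, f1]
    have : nx G (v, z.1) = (z.1, v) := nx_swap18 G (x := (v, z.1)) (by
      dsimp only
      rw [← f2]
      exact hzt)
    rw [this, ← f2]
  have hsum : gc G al (sg G s) + (gc G al (nx G s) + gc G al (sg G z)) ≤ kv G al v - ep al := by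
    rw [← sum_gc89 G hG hv]
    have a1 := (sector_corners89 G hG hv ((mem_Sv89 G).1 hs).1 ((mem_Sv89 G).1 hs).2)
    have a2 := (sector_corners89 G hG hv ((mem_Sv89 G).1 hz).1 ((mem_Sv89 G).1 hz).2)
    have hne1 : nx G s ≠ sg G s := fun h =>
      hc ((sg_nx_iff89 G hG hv ((mem_Sv89 G).1 hs).1 ((mem_Sv89 G).1 hs).2).1 h.symm)
    have hne2 : sg G z ≠ sg G s := fun h => hzs (sg_injSv89 G hG hv hz hs h)
    have hsub : ({sg G s, nx G s, sg G z} : Finset (V × V)) ⊆ Jv G v := by
      intro w hw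
      rw [Finset.mem_insert, Finset.mem_insert, Finset.mem_singleton] at hw
      rcases hw with h | h | h
      · rw [h]; exact a1.1
      · rw [h]; exact a1.2.1
      · rw [h]; exact a2.1
    have h5 := Finset.sum_le_sum_of_subset_of_nonneg (f := fun w => gc G al w) hsub
      fun w _ _ => gc_nonneg89 G hG (x := w)
    rw [Finset.sum_insert, Finset.sum_insert, Finset.sum_singleton] at h5
    · exact h5
    · rw [Finset.mem_singleton]; exact hne
    · rw [Finset.mem_insert, Finset.mem_singleton]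
      rintro (h | h)
      · exact hne1 h.symm
      · exact hne2 h.symm
  unfold Ds at hn1 hn2
  unfold sp at hs1 hs2
  rw [e3] at hn1
  rw [f3] at hn2
  linarith

/-- the sides of a black face whose head is a leaf -/
def Lf18 (x : V × V) : Prop := x.2 ∈ inN G ∧ cv G x.2 = 1

/-- at a leaf the next side of the white face is the next side of the black face -/
theorem leaf_nx18 (hG : G.Geo4 al kp U) {x : V × V} (hx : x ∈ SD G) (hl : Lf18 G x) :
    nx G x = sg G x :=
  (c1_89 G hG hl.1 hl.2 ((mem_Sv89 G).2 ⟨hx, rfl⟩)).2.2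

/-- iterating `nx` on a finite black face comes back -/
theorem nx_period18 (hG : G.Geo4 al kp U) {K : (cg G).ConnectedComponent} {x : V × V}
    (hx : x ∈ kS G K) : ∃ N, 0 < N ∧ (nx G)^[N] x = x := by
  have hmem : ∀ i, (nx G)^[i] x ∈ kS G K := by
    intro i
    induction i with
    | zero => exact hx
    | succ i ih =>
      rw [Function.iterate_succ_apply']
      exact nx_kS89 G hG ih
  obtain ⟨i, hi, j, hj, hne, he⟩ := Finset.exists_ne_map_eq_of_card_lt_of_maps_to
    (s := Finset.range ((kS G K).card + 1)) (t := kS G K) (f := fun i => (nx G)^[i] x)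
    (by rw [Finset.card_range]; omega) (fun i _ => Finset.mem_coe.2 (hmem i))
  have key : ∀ a b : ℕ, a < b → (nx G)^[a] x = (nx G)^[b] x → (nx G)^[b - a] x = x := by
    intro a
    induction a with
    | zero =>
      intro b _ h
      rw [Nat.sub_zero]
      exact h.symm
    | succ a ih =>
      intro b hb h
      obtain ⟨c, rfl⟩ : ∃ c, b = c + 1 := ⟨b - 1, by omega⟩
      rw [Function.iterate_succ_apply', Function.iterate_succ_apply'] at h
      have h2 := nx_inj42 G hG (mem_kS89 G (hmem a)) (mem_kS89 G (hmem c)) h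
      have h3 := ih c (by omega) h2
      rw [show c + 1 - (a + 1) = c - a by omega]
      exact h3
  rcases Nat.lt_or_gt_of_ne hne with h | h
  · exact ⟨j - i, by omega, key i j h he⟩
  · exact ⟨i - j, by omega, key j i h he.symm⟩

/-- **(I2) the leaf lemma**: a black face such that every sector which is not at a leaf is negative,
with some such sector. Then there is a chain `s, sg s, ..., (sg)^[j] s` of sides of the black face,
with leaves between them, whose two end corners have gaps with sum `< 1` -/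
theorem leafchain18 (hG : G.Geo4 al kp U) {K : (cg G).ConnectedComponent}
    (hn : ∀ x ∈ kS G K, ¬ Lf18 G x → Ds G al x < 0) {t : V × V} (ht : t ∈ kS G K)
    (htL : ¬ Lf18 G t) :
    ∃ s ∈ kS G K, ∃ j, (∀ i < j, (sg G)^[i] s ∈ kS G K ∧ Lf18 G ((sg G)^[i] s)) ∧
      (sg G)^[j] s ∈ kS G K ∧ ¬ Lf18 G ((sg G)^[j] s) ∧
      gc G al s + gc G al ((sg G)^[j + 1] s) < 1 := by
  by_contra hno
  push Not at hno
  obtain ⟨N, hN, hNt⟩ := nx_period18 G hG ht
  obtain ⟨x, hxdef⟩ : ∃ x : ℕ → V × V, x = fun i => (nx G)^[i] (nx G t) := ⟨_, rfl⟩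
  have hx0 : x 0 = nx G t := by rw [hxdef]; rfl
  have hxs : ∀ i, x (i + 1) = nx G (x i) := fun i => by
    rw [hxdef]
    exact Function.iterate_succ_apply' (nx G) i (nx G t)
  have hxK : ∀ i, x i ∈ kS G K := by
    intro i
    induction i with
    | zero => rw [hx0]; exact nx_kS89 G hG ht
    | succ i ih => rw [hxs]; exact nx_kS89 G hG ih
  have hxN : x (N - 1) = t := by
    rw [hxdef]
    dsimp only
    rw [← Function.iterate_succ_apply, show (N - 1).succ = N by omega, hNt]
  have key : ∀ i, ∃ k ≤ i, (∀ l, k ≤ l → l < i → Lf18 G (x l)) ∧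
      gc G al (x k) ≤ gc G al (x 0) := by
    intro i
    induction i with
    | zero => exact ⟨0, le_rfl, fun l _ h => absurd h (Nat.not_lt_zero l), le_rfl⟩
    | succ i ih =>
      obtain ⟨k, hk, h1, h2⟩ := ih
      by_cases hl : Lf18 G (x i)
      · refine ⟨k, by omega, fun l h3 h4 => ?_, h2⟩
        rcases Nat.lt_or_ge l i with h5 | h5
        · exact h1 l h3 h5
        · have : l = i := by omega
          rw [this]; exact hl
      · refine ⟨i + 1, le_rfl, fun l h3 h4 => absurd h3 (by omega), ?_⟩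
        obtain ⟨j, rfl⟩ : ∃ j, i = k + j := ⟨i - k, by omega⟩
        have hit : ∀ l ≤ j, (sg G)^[l] (x k) = x (k + l) := by
          intro l
          induction l with
          | zero => intro _; rfl
          | succ l ih2 =>
            intro h3
            rw [Function.iterate_succ_apply', ih2 (by omega), show k + (l + 1) = k + l + 1 by omega,
              hxs, leaf_nx18 G hG (mem_kS89 G (hxK _)) (h1 (k + l) (by omega) (by omega))]
        have h6 := hno (x k) (hxK k) j (fun l hl2 => by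
          rw [hit l hl2.le]
          exact ⟨hxK _, h1 (k + l) (by omega) (by omega)⟩) (by
          rw [hit j le_rfl]
          exact hxK _) (by
          rw [hit j le_rfl]
          exact hl)
        rw [Function.iterate_succ_apply', hit j le_rfl] at h6
        have h7 := hn _ (hxK (k + j)) hl
        unfold Ds at h7
        rw [← hxs] at h7
        linarith
  obtain ⟨k, hk, h1, h2⟩ := key (N - 1)
  obtain ⟨j, hj⟩ : ∃ j, N - 1 = k + j := ⟨N - 1 - k, by omega⟩
  have hit : ∀ l ≤ j, (sg G)^[l] (x k) = x (k + l) := by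
    intro l
    induction l with
    | zero => intro _; rfl
    | succ l ih2 =>
      intro h3
      rw [Function.iterate_succ_apply', ih2 (by omega), show k + (l + 1) = k + l + 1 by omega,
        hxs, leaf_nx18 G hG (mem_kS89 G (hxK _)) (h1 (k + l) (by omega) (by omega))]
  have h6 := hno (x k) (hxK k) j (fun l hl2 => by
    rw [hit l hl2.le]
    exact ⟨hxK _, h1 (k + l) (by omega) (by omega)⟩) (by
    rw [hit j le_rfl]
    exact hxK _) (by
    rw [hit j le_rfl, ← hj, hxN]
    exact htL)
  rw [Function.iterate_succ_apply', hit j le_rfl, ← hj, hxN] at h6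
  have h7 := hn _ ht htL
  unfold Ds at h7
  rw [← hx0] at h7
  linarith

end

end Pool.Agent.PEN.E5
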