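import Pool.Agent.E5.R2_63

/-! # PENNY, all small diameters: small black faces

Digons, single contact triangles and pairs of contact triangles. -/

set_option autoImplicit false

namespace Pool.Agent.PEN.E5

open Classical UpperHalfPlane
open Pool.Agent.PEN.Cl

noncomputable section

variable {V : Type} (G : Tg V) {al : ℝ} {kp : V → V → ℝ} {U : ℕ → ℝ}

/-- two contact darts with the same point of the cluster graph -/
theorem same_pt54 {F : Set (V × V)}
    (hr : ∀ a ∈ F, tt G a → (a.2, G.ap a.1 a.2) ∈ F) {c a : V × V} (hc : c ∈ F)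
    (h : pt G a = pt G c) : a ∈ F := by
  by_cases hcT : tt G c
  · by_cases haT : tt G a
    · rw [pt_tt42 G hcT, pt_tt42 G haT] at h
      have h2 := (tri_eq_iff G hcT.1 haT.1).1 (Sum.inl_injective h).symm
      have h3 := hr c hc hcT
      have h4 := hr _ h3 (tt_rot42 G hcT)
      dsimp only at h4
      rw [G.ap3 _ _ hcT.1] at h4
      rcases h2 with h2 | h2 | h2
      · rw [h2]; exact hc
      · rw [h2]; exact h3
      · rw [h2]; exact h4
    · rw [pt_tt42 G hcT, pt_sd42 G haT] at h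
      exact absurd h (by simp)
  · by_cases haT : tt G a
    · rw [pt_sd42 G hcT, pt_tt42 G haT] at h
      exact absurd h (by simp)
    · rw [pt_sd42 G hcT, pt_sd42 G haT] at h
      rw [Sum.inr_injective h]
      exact hc

/-- a set of darts closed under swapping and under rotation in contact triangles contains with a
contact dart its whole black face -/
theorem closed54 {F : Set (V × V)} (hs : ∀ a ∈ F, (a.2, a.1) ∈ F)
    (hr : ∀ a ∈ F, tt G a → (a.2, G.ap a.1 a.2) ∈ F) {x y : V × V} (hx : x ∈ F)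
    (h : ku G y = ku G x) : y ∈ F := by
  have h1 : (cg G).Reachable (pt G x) (pt G y) := SimpleGraph.ConnectedComponent.exact h.symm
  obtain ⟨p⟩ := h1
  have key : ∀ s t : Finset V ⊕ (V × V), (cg G).Walk s t →
      (∀ a, pt G a = s → a ∈ F) → ∀ a, pt G a = t → a ∈ F := by
    intro s t p
    induction p with
    | nil => exact fun h => h
    | cons hadj _ ih =>
      intro h2
      apply ih
      obtain ⟨_, b, _, h4, h5⟩ := hadj
      intro a ha
      exact same_pt54 G hr (hs b (h2 b h4)) (ha.trans h5.symm)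
  exact key _ _ p (fun a ha => same_pt54 G hr hx ha) y rfl

theorem SD_swap54 {x : V × V} (hx : x ∈ SD G) (h : ¬ tt G (x.2, x.1)) : (x.2, x.1) ∈ SD G :=
  (mem_SD42 G).2 ⟨KJ_swap42 G ((mem_SD42 G).1 hx).1, h⟩

theorem swap_SD54 {a b : V} (hx : tt G (a, b)) (h : ¬ tt G (b, a)) : (b, a) ∈ SD G :=
  (mem_SD42 G).2 ⟨KJ_swap42 G (tt_KJ42 G hx), h⟩

theorem rn_zero54 (hG : G.Geo4 al kp U) {x : V × V} (hx : x ∈ SD G) :
    rn G x = 0 ↔ ¬ tt G (x.2, x.1) := by
  rw [rn_eq63 G (hasN63 G hG hx), Nat.find_eq_zero]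
  rfl

theorem rn_pos54 (hG : G.Geo4 al kp U) {x : V × V} (hx : x ∈ SD G) :
    0 < rn G x ↔ tt G (x.2, x.1) := by
  rw [Nat.pos_iff_ne_zero, Ne, rn_zero54 G hG hx, not_not]

/-- the value of `rn` from a run -/
theorem rn_of54 (hG : G.Geo4 al kp U) {x : V × V} (hx : x ∈ SD G) {n : ℕ}
    (h1 : ∀ i < n, tt G (x.2, (G.ap x.2)^[i] x.1)) (h2 : ¬ tt G (x.2, (G.ap x.2)^[n] x.1)) :
    rn G x = n := by
  rw [rn_eq63 G (hasN63 G hG hx), Nat.find_eq_iff]
  exact ⟨h2, fun i hi => not_not.2 (h1 i hi)⟩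

theorem nx_of54 (hG : G.Geo4 al kp U) {x : V × V} (hx : x ∈ SD G) :
    nx G x = (x.2, (G.ap x.2)^[rn G x] x.1) := by
  have h := hasN63 G hG hx
  unfold nx
  rw [nb_eq42 G h, rn_eq63 G h]

/-- **(a)** a side without contact triangle behind: the black face is a digon -/
theorem digon54 (hG : G.Geo4 al kp U) {x : V × V} (hx : x ∈ SD G) (h0 : rn G x = 0) :
    (x.2, x.1) ∈ SD G ∧ kS G (ku G x) = {x, (x.2, x.1)} ∧ kT G (ku G x) = ∅ ∧
      tK G (ku G x) = 0 ∧ nx G x = (x.2, x.1) ∧ rn G (x.2, x.1) = 0 := by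
  have h1 := (rn_zero54 G hG hx).1 h0
  have h2 := SD_swap54 G hx h1
  have h3 := (mem_SD42 G).1 hx
  have hcl : ∀ y, ku G y = ku G x → y ∈ ({x, (x.2, x.1)} : Set (V × V)) := by
    intro y hy
    refine closed54 G (F := {x, (x.2, x.1)}) ?_ ?_ (Set.mem_insert _ _) hy
    · intro a ha
      rcases ha with ha | ha
      · rw [ha]; exact Or.inr rfl
      · have e : a = (x.2, x.1) := ha
        rw [e]; exact Or.inl rfl
    · intro a ha haT
      rcases ha with ha | ha
      · rw [ha] at haT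
        exact absurd haT h3.2
      · have e : a = (x.2, x.1) := ha
        rw [e] at haT
        exact absurd haT h1
  have hT : kT G (ku G x) = ∅ := by
    rw [Finset.eq_empty_iff_forall_notMem]
    intro y hy
    obtain ⟨h4, h5⟩ := (mem_kT42 G).1 hy
    rcases hcl y h5 with ha | ha
    · rw [ha] at h4
      exact h3.2 h4
    · have e : y = (x.2, x.1) := ha
      rw [e] at h4
      exact h1 h4
  refine ⟨h2, ?_, hT, ?_, ?_, ?_⟩
  · ext y
    rw [mem_kS42, Finset.mem_insert, Finset.mem_singleton]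
    constructor
    · rintro ⟨_, h5⟩
      exact hcl y h5
    · rintro (h | h)
      · rw [h]; exact ⟨hx, rfl⟩
      · rw [h]; exact ⟨h2, ku_swap42 G h3.1⟩
  · unfold tK
    rw [hT]
    rfl
  · rw [nx_of54 G hG hx, h0]
    rfl
  · rw [rn_zero54 G hG h2]
    exact h3.2

/-- no contact triangle: every side has a run of length 0 -/
theorem tK_zero54 (hG : G.Geo4 al kp U) {x : V × V} (hx : x ∈ SD G) :
    tK G (ku G x) = 0 ↔ rn G x = 0 := by
  constructor
  · intro h
    have := rn_le_tK63 G hG hx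
    omega
  · intro h
    exact (digon54 G hG hx h).2.2.2.1

/-- the runs of a black face are all 0 or all positive -/
theorem rn_pos_all54 (hG : G.Geo4 al kp U) {x y : V × V} (hx : x ∈ SD G) (hy : y ∈ SD G)
    (h : ku G y = ku G x) : rn G y = 0 ↔ rn G x = 0 := by
  rw [← tK_zero54 G hG hx, ← tK_zero54 G hG hy, h]

/-- the first triangle of a run -/
theorem first54 (hG : G.Geo4 al kp U) {x : V × V} (hx : x ∈ SD G) (h : 0 < rn G x) :
    tt G (x.2, x.1) ∧ tt G (x.1, G.ap x.2 x.1) ∧ tt G (G.ap x.2 x.1, x.2) ∧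
      G.ap x.1 (G.ap x.2 x.1) = x.2 ∧ G.ap (G.ap x.2 x.1) x.2 = x.1 := by
  have h1 := (rn_pos54 G hG hx).1 h
  have h2 := tt_rot42 G h1
  have h3 := tt_rot42' G h1
  dsimp only at h2 h3
  exact ⟨h1, h2, h3, G.ap3 _ _ h1.1, G.ap4 _ _ h1.1⟩

/-- the last triangle of the run of `y` is the first triangle of the run of `nx y` -/
theorem last54 (hG : G.Geo4 al kp U) {x y : V × V} (hy : y ∈ SD G)
    (h : nx G y = x) (hp : 0 < rn G y) :
    y.2 = x.1 ∧ (G.ap x.1)^[rn G y] y.1 = x.2 ∧ (G.ap x.1)^[rn G y - 1] y.1 = G.ap x.2 x.1 ∧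
      tt G (x.2, x.1) ∧ 0 < rn G x := by
  have h1 := nx_of54 G hG hy
  rw [h] at h1
  have hx : x ∈ SD G := by
    rw [← h]
    exact (nx_mem42 G hG ((mem_SD42 G).1 hy).1).1
  have e1 : x.1 = y.2 := by rw [h1]
  have e2 : x.2 = (G.ap y.2)^[rn G y] y.1 := by
    conv_lhs => rw [h1]
  have h2 : rn G y - 1 < rn G y := by omega
  have hN := hasN63 G hG hy
  have h3 : tt G (y.2, (G.ap y.2)^[rn G y - 1] y.1) := by
    rw [rn_eq63 G hN] at h2 ⊢
    exact run_tt42 G hN h2
  have h4 : G.ap y.2 ((G.ap y.2)^[rn G y - 1] y.1) = x.2 := by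
    rw [e2, ← Function.iterate_succ_apply' (G.ap y.2)]
    congr 2
    omega
  have h5 := tt_rot42' G h3
  dsimp only at h5
  rw [h4, ← e1] at h5
  have h6 := G.ap4 _ _ h3.1
  rw [h4, ← e1] at h6
  refine ⟨e1.symm, ?_, ?_, h5, (rn_pos54 G hG hx).2 h5⟩
  · rw [e1]; exact e2.symm
  · rw [h6]

/-- the two triangles on the two sides of an edge are different -/
theorem tri_ne54 {a b : V} (h1 : (a, b) ∈ G.Dp) (h2 : (b, a) ∈ G.Dp) :
    G.tri (a, b) ≠ G.tri (b, a) := by
  intro he
  rcases (tri_eq_iff G h1 h2).1 he with h | h | h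
  · exact G.ne _ _ (G.sub h1) (congrArg Prod.snd h)
  · have e : a = G.ap a b := congrArg Prod.snd h
    exact G.ne _ _ (G.sub (G.ap2 _ _ h1)) e.symm
  · have e : b = G.ap a b := congrArg Prod.fst h
    exact G.ne _ _ (G.sub (G.ap1 _ _ h1)) e

/-- a contact triangle all whose edges are sides on the other side is a black face -/
theorem single_of54 {a b c : V} (h : tt G (a, b)) (hc : G.ap a b = c)
    (h1 : ¬ tt G (b, a)) (h2 : ¬ tt G (c, b)) (h3 : ¬ tt G (a, c)) :
    kS G (ku G (b, a)) = {(b, a), (a, c), (c, b)} ∧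
      kT G (ku G (b, a)) = {(a, b), (b, c), (c, a)} ∧ tK G (ku G (b, a)) = 1 := by
  have r1 := tt_rot42 G h
  have r2 := tt_rot42' G h
  dsimp only at r1 r2
  rw [hc] at r1 r2
  have a3 : G.ap b c = a := by rw [← hc]; exact G.ap3 _ _ h.1
  have a4 : G.ap c a = b := by rw [← hc]; exact G.ap4 _ _ h.1
  have k1 := ku_swap42 G (tt_KJ42 G h)
  have k2 := ku_swap42 G (tt_KJ42 G r1)
  have k3 := ku_swap42 G (tt_KJ42 G r2)
  have m1 := ku_rot42 G h
  have m2 := ku_rot42' G h
  dsimp only at k1 k2 k3 m1 m2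
  rw [hc] at m1 m2
  have hcl : ∀ y, ku G y = ku G (b, a) → y ∈ ({(b, a), (a, c), (c, b), (a, b), (b, c), (c, a)} :
      Set (V × V)) := by
    intro y hy
    refine closed54 G (F := {(b, a), (a, c), (c, b), (a, b), (b, c), (c, a)}) ?_ ?_
      (Set.mem_insert _ _) hy
    · intro x hx
      simp only [Set.mem_insert_iff, Set.mem_singleton_iff] at hx ⊢
      rcases hx with rfl | rfl | rfl | rfl | rfl | rfl <;> simp
    · intro x hx hT
      simp only [Set.mem_insert_iff, Set.mem_singleton_iff] at hx ⊢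
      rcases hx with rfl | rfl | rfl | rfl | rfl | rfl
      · exact absurd hT h1
      · exact absurd hT h3
      · exact absurd hT h2
      · rw [hc]; simp
      · rw [a3]; simp
      · rw [a4]; simp
  have hT : kT G (ku G (b, a)) = {(a, b), (b, c), (c, a)} := by
    ext y
    rw [mem_kT42, Finset.mem_insert, Finset.mem_insert, Finset.mem_singleton]
    constructor
    · rintro ⟨h4, h5⟩
      have h6 := hcl y h5
      simp only [Set.mem_insert_iff, Set.mem_singleton_iff] at h6
      rcases h6 with rfl | rfl | rfl | rfl | rfl | rfl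
      · exact absurd h4 h1
      · exact absurd h4 h3
      · exact absurd h4 h2
      · exact Or.inl rfl
      · exact Or.inr (Or.inl rfl)
      · exact Or.inr (Or.inr rfl)
    · rintro (rfl | rfl | rfl)
      · exact ⟨h, k1.symm⟩
      · exact ⟨r1, by rw [m1, k1]⟩
      · exact ⟨r2, by rw [m2, k1]⟩
  refine ⟨?_, hT, ?_⟩
  · ext y
    rw [mem_kS42, Finset.mem_insert, Finset.mem_insert, Finset.mem_singleton]
    constructor
    · rintro ⟨h4, h5⟩
      have h6 := hcl y h5
      have h7 := ((mem_SD42 G).1 h4).2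
      simp only [Set.mem_insert_iff, Set.mem_singleton_iff] at h6
      rcases h6 with rfl | rfl | rfl | rfl | rfl | rfl
      · exact Or.inl rfl
      · exact Or.inr (Or.inl rfl)
      · exact Or.inr (Or.inr rfl)
      · exact absurd h h7
      · exact absurd r1 h7
      · exact absurd r2 h7
    · rintro (rfl | rfl | rfl)
      · exact ⟨swap_SD54 G h h1, rfl⟩
      · exact ⟨swap_SD54 G r2 h3, by rw [k3, m2, k1]⟩
      · exact ⟨swap_SD54 G r1 h2, by rw [k2, m1, k1]⟩
  · have h8 := card_kT42 G (ku G (b, a))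
    have h9 : (kT G (ku G (b, a))).card ≤ 3 := by
      rw [hT]
      exact Finset.card_le_three
    have h10 : 0 < (kT G (ku G (b, a))).card := by
      rw [hT]
      exact Finset.card_pos.2 ⟨(a, b), by simp⟩
    unfold tK
    omega

/-- **(b)** two consecutive runs of length 1: a single triangle -/
theorem single54 (hG : G.Geo4 al kp U) {x y : V × V} (hy : y ∈ SD G)
    (h : nx G y = x) (hx1 : rn G x = 1) (hy1 : rn G y = 1) :
    y = (G.ap x.2 x.1, x.1) ∧ nx G x = (x.2, G.ap x.2 x.1) ∧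
      kS G (ku G x) = {x, (x.2, G.ap x.2 x.1), (G.ap x.2 x.1, x.1)} ∧
      tK G (ku G x) = 1 := by
  have hx : x ∈ SD G := by
    rw [← h]
    exact (nx_mem42 G hG ((mem_SD42 G).1 hy).1).1
  obtain ⟨e1, e2, e3, e4, e5⟩ := last54 G hG hy h (by omega)
  obtain ⟨f1, f2, f3, f4, f5⟩ := first54 G hG hx (by omega)
  rw [hy1] at e3
  have e6 : y.1 = G.ap x.2 x.1 := e3
  have ey : y = (G.ap x.2 x.1, x.1) := Prod.ext e6 e1
  have en := nx_of54 G hG hx
  rw [hx1, Function.iterate_one] at en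
  have n1 := (mem_SD42 G).1 (nx_mem42 G hG ((mem_SD42 G).1 hx).1).1
  rw [en] at n1
  have n2 := ((mem_SD42 G).1 hy).2
  rw [ey] at n2
  obtain ⟨a, b⟩ := x
  dsimp only at *
  obtain ⟨g1, g2, g3⟩ := single_of54 G (a := b) (b := a) (c := G.ap b a) f1 rfl
    ((mem_SD42 G).1 hx).2 n2 n1.2
  exact ⟨ey, en, g1, g3⟩

/-- one triangle: all runs have length 1 -/
theorem tK_one54 (hG : G.Geo4 al kp U) {x : V × V} (hx : x ∈ SD G) (h : tK G (ku G x) = 1) :
    rn G x = 1 ∧ nx G x = (x.2, G.ap x.2 x.1) ∧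
      kS G (ku G x) = {x, (x.2, G.ap x.2 x.1), (G.ap x.2 x.1, x.1)} := by
  have h1 := rn_le_tK63 G hG hx
  have h2 : rn G x ≠ 0 := fun h3 => by
    rw [(tK_zero54 G hG hx).2 h3] at h
    omega
  have h4 : rn G x = 1 := by omega
  obtain ⟨y, hy, hyx⟩ := nx_surj42 G hG hx
  have hk : ku G y = ku G x := by
    rw [← hyx]
    exact (nx_ku63 G hG hy).2.symm
  have h5 := rn_le_tK63 G hG hy
  rw [hk, h] at h5
  have h6 : rn G y ≠ 0 := fun h3 => h2 ((rn_pos_all54 G hG hx hy hk).1 h3)
  obtain ⟨g1, g2, g3, g4⟩ := single54 G hG hy hyx h4 (by omega)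
  exact ⟨h4, g2, g3⟩

/-- two contact triangles with a common edge: the other darts are not darts of the two triangles -/
theorem pair_aux54 {v a m c : V} (h1 : tt G (v, a)) (e1 : G.ap v a = m) (h2 : tt G (v, m))
    (e2 : G.ap v m = c) : c ≠ a ∧ G.tri (v, a) ≠ G.tri (v, m) ∧
      (tt G (m, a) → G.tri (m, a) ≠ G.tri (v, a) ∧ G.tri (m, a) ≠ G.tri (v, m)) ∧
      (tt G (c, m) → G.tri (c, m) ≠ G.tri (v, a) ∧ G.tri (c, m) ≠ G.tri (v, m)) := by
  have p1 := G.ap4 _ _ h1.1
  rw [e1] at p1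
  have p2 := G.ap3 _ _ h1.1
  rw [e1] at p2
  have q1 := G.ap4 _ _ h2.1
  rw [e2] at q1
  have q2 := G.ap3 _ _ h2.1
  rw [e2] at q2
  have r1 := tt_rot42 G h1
  have r2 := tt_rot42' G h1
  have s1 := tt_rot42 G h2
  have s2 := tt_rot42' G h2
  dsimp only at r1 r2 s1 s2
  rw [e1] at r1 r2
  rw [e2] at s1 s2
  have hca : c ≠ a := by
    intro h
    have := G.ap5 _ _ h2.1 r2.1
    rw [e2, p1] at this
    exact this h
  have t1 : G.tri (m, v) = G.tri (v, a) := by
    have := tri_rot66' G h1.1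
    dsimp only at this
    rw [e1] at this
    exact this
  have t2 : G.tri (a, m) = G.tri (v, a) := by
    have := tri_rot66 G h1.1
    dsimp only at this
    rw [e1] at this
    exact this
  have t3 : G.tri (m, c) = G.tri (v, m) := by
    have := tri_rot66 G h2.1
    dsimp only at this
    rw [e2] at this
    exact this
  have hne : G.tri (v, a) ≠ G.tri (v, m) := by
    rw [← t1]
    exact (tri_ne54 G h2.1 r2.1).symm
  have hva := G.ne _ _ (G.sub h1.1)
  have ham := G.ne _ _ (G.sub r1.1)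
  have hmv := G.ne _ _ (G.sub r2.1)
  have hmc := G.ne _ _ (G.sub s1.1)
  have hcv := G.ne _ _ (G.sub s2.1)
  refine ⟨hca, hne, fun h3 => ⟨?_, ?_⟩, fun h3 => ⟨?_, ?_⟩⟩
  · rw [← t2]
    exact (tri_ne54 G r1.1 h3.1).symm
  · intro he
    rcases (tri_eq_iff G h2.1 h3.1).1 he.symm with h | h | h
    · exact hmv (congrArg Prod.fst h)
    · have e : a = G.ap v m := congrArg Prod.snd h
      rw [e2] at e
      exact hca e.symm
    · have e : a = v := congrArg Prod.snd h
      exact hva e.symm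
  · intro he
    rcases (tri_eq_iff G h1.1 h3.1).1 he.symm with h | h | h
    · exact hcv (congrArg Prod.fst h)
    · exact hca (congrArg Prod.fst h)
    · have e : c = G.ap v a := congrArg Prod.fst h
      rw [e1] at e
      exact hmc e.symm
  · rw [← t3]
    exact (tri_ne54 G s1.1 h3.1).symm

/-- two contact triangles with a common edge, the four other edges are sides -/
theorem pair_of54 {v a m c : V} (h1 : tt G (v, a)) (e1 : G.ap v a = m) (h2 : tt G (v, m))
    (e2 : G.ap v m = c) (n1 : ¬ tt G (a, v)) (n2 : ¬ tt G (m, a)) (n3 : ¬ tt G (c, m))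
    (n4 : ¬ tt G (v, c)) :
    kS G (ku G (a, v)) = {(a, v), (v, c), (c, m), (m, a)} ∧ tK G (ku G (a, v)) = 2 := by
  have p1 := G.ap4 _ _ h1.1
  rw [e1] at p1
  have p2 := G.ap3 _ _ h1.1
  rw [e1] at p2
  have q1 := G.ap4 _ _ h2.1
  rw [e2] at q1
  have q2 := G.ap3 _ _ h2.1
  rw [e2] at q2
  have r1 := tt_rot42 G h1
  have r2 := tt_rot42' G h1
  have s1 := tt_rot42 G h2
  have s2 := tt_rot42' G h2
  dsimp only at r1 r2 s1 s2
  rw [e1] at r1 r2
  rw [e2] at s1 s2
  have k1 := ku_swap42 G (tt_KJ42 G h1)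
  have k2 := ku_swap42 G (tt_KJ42 G r1)
  have k3 := ku_swap42 G (tt_KJ42 G s1)
  have k4 := ku_swap42 G (tt_KJ42 G s2)
  have k5 := ku_swap42 G (tt_KJ42 G h2)
  have m1 := ku_rot42 G h1
  have m2 := ku_rot42' G h1
  have m3 := ku_rot42 G h2
  have m4 := ku_rot42' G h2
  dsimp only at k1 k2 k3 k4 k5 m1 m2 m3 m4
  rw [e1] at m1 m2
  rw [e2] at m3 m4
  -- everything is in one black face
  have w2 : ku G (v, m) = ku G (v, a) := by rw [← k5, m2]
  have hcl : ∀ y, ku G y = ku G (a, v) → y ∈ ({(a, v), (v, c), (c, m), (m, a), (v, a), (a, m),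
      (m, v), (v, m), (m, c), (c, v)} : Set (V × V)) := by
    intro y hy
    refine closed54 G (F := {(a, v), (v, c), (c, m), (m, a), (v, a), (a, m),
      (m, v), (v, m), (m, c), (c, v)}) ?_ ?_ (Set.mem_insert _ _) hy
    · intro x hx
      simp only [Set.mem_insert_iff, Set.mem_singleton_iff] at hx ⊢
      rcases hx with rfl | rfl | rfl | rfl | rfl | rfl | rfl | rfl | rfl | rfl <;> simp
    · intro x hx hT
      simp only [Set.mem_insert_iff, Set.mem_singleton_iff] at hx ⊢
      rcases hx with rfl | rfl | rfl | rfl | rfl | rfl | rfl | rfl | rfl | rfl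
      · exact absurd hT n1
      · exact absurd hT n4
      · exact absurd hT n3
      · exact absurd hT n2
      · rw [e1]; simp
      · rw [p2]; simp
      · rw [p1]; simp
      · rw [e2]; simp
      · rw [q2]; simp
      · rw [q1]; simp
  obtain ⟨_, hne, _, _⟩ := pair_aux54 G h1 e1 h2 e2
  have t1 : G.tri (m, v) = G.tri (v, a) := by
    have := tri_rot66' G h1.1
    dsimp only at this
    rw [e1] at this
    exact this
  have t2 : G.tri (a, m) = G.tri (v, a) := by
    have := tri_rot66 G h1.1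
    dsimp only at this
    rw [e1] at this
    exact this
  have t3 : G.tri (m, c) = G.tri (v, m) := by
    have := tri_rot66 G h2.1
    dsimp only at this
    rw [e2] at this
    exact this
  have t4 : G.tri (c, v) = G.tri (v, m) := by
    have := tri_rot66' G h2.1
    dsimp only at this
    rw [e2] at this
    exact this
  refine ⟨?_, ?_⟩
  · ext y
    simp only [mem_kS42, Finset.mem_insert, Finset.mem_singleton]
    constructor
    · rintro ⟨h4, h5⟩
      have h6 := hcl y h5
      have h7 := ((mem_SD42 G).1 h4).2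
      simp only [Set.mem_insert_iff, Set.mem_singleton_iff] at h6
      rcases h6 with rfl | rfl | rfl | rfl | rfl | rfl | rfl | rfl | rfl | rfl
      · simp
      · simp
      · simp
      · simp
      · exact absurd h1 h7
      · exact absurd r1 h7
      · exact absurd r2 h7
      · exact absurd h2 h7
      · exact absurd s1 h7
      · exact absurd s2 h7
    · rintro (rfl | rfl | rfl | rfl)
      · exact ⟨swap_SD54 G h1 n1, rfl⟩
      · exact ⟨swap_SD54 G s2 n4, by rw [k4, m4, w2, k1]⟩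
      · exact ⟨swap_SD54 G s1 n3, by rw [k3, m3, w2, k1]⟩
      · exact ⟨swap_SD54 G r1 n2, by rw [k2, m1, k1]⟩
  · have hI : (kT G (ku G (a, v))).image G.tri = {G.tri (v, a), G.tri (v, m)} := by
      ext t
      rw [Finset.mem_image, Finset.mem_insert, Finset.mem_singleton]
      constructor
      · rintro ⟨y, hy, rfl⟩
        obtain ⟨h4, h5⟩ := (mem_kT42 G).1 hy
        have h6 := hcl y h5
        simp only [Set.mem_insert_iff, Set.mem_singleton_iff] at h6
        rcases h6 with rfl | rfl | rfl | rfl | rfl | rfl | rfl | rfl | rfl | rfl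
        · exact absurd h4 n1
        · exact absurd h4 n4
        · exact absurd h4 n3
        · exact absurd h4 n2
        · exact Or.inl rfl
        · exact Or.inl t2
        · exact Or.inl t1
        · exact Or.inr rfl
        · exact Or.inr t3
        · exact Or.inr t4
      · rintro (rfl | rfl)
        · exact ⟨(v, a), (mem_kT42 G).2 ⟨h1, k1.symm⟩, rfl⟩
        · exact ⟨(v, m), (mem_kT42 G).2 ⟨h2, by rw [w2, k1]⟩, rfl⟩
    unfold tK
    rw [hI, Finset.card_pair hne]

/-- a black face with two triangles, seen from a side with a run of length 2: `v = x.2`,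
`m` and `c` are the next two neighbours of `v` -/
theorem tK_two54 (hG : G.Geo4 al kp U) {x : V × V} (hx : x ∈ SD G) (h : tK G (ku G x) = 2)
    (h2 : rn G x = 2) {m c : V} (em : G.ap x.2 x.1 = m) (ec : G.ap x.2 m = c) :
    kS G (ku G x) = {x, (x.2, c), (c, m), (m, x.1)} ∧ nx G x = (x.2, c) ∧
      nx G (x.2, c) = (c, m) ∧ nx G (c, m) = (m, x.1) ∧ nx G (m, x.1) = x ∧
      rn G (x.2, c) = 1 ∧ rn G (c, m) = 2 ∧ rn G (m, x.1) = 1 := by
  obtain ⟨a, v⟩ := x
  dsimp only at *
  have hN := hasN63 G hG hx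
  have h0 := h2
  rw [rn_eq63 G hN] at h0
  have t1 : tt G (v, a) := run_tt42 G hN (i := 0) (by omega)
  have t2 : tt G (v, m) := by
    have := run_tt42 G hN (i := 1) (by omega)
    rw [Function.iterate_one] at this
    dsimp only at this
    rw [em] at this
    exact this
  have en := nx_of54 G hG hx
  rw [h2] at en
  have en2 : nx G (a, v) = (v, c) := by
    rw [en]
    dsimp only
    rw [Function.iterate_succ_apply, Function.iterate_one, em, ec]
  have hn := (nx_mem42 G hG ((mem_SD42 G).1 hx).1).1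
  rw [en2] at hn
  have n4 := ((mem_SD42 G).1 hn).2
  have n1 := ((mem_SD42 G).1 hx).2
  have p1 := G.ap4 _ _ t1.1
  rw [em] at p1
  have p2 := G.ap3 _ _ t1.1
  rw [em] at p2
  have q1 := G.ap4 _ _ t2.1
  rw [ec] at q1
  have q2 := G.ap3 _ _ t2.1
  rw [ec] at q2
  have r1 := tt_rot42 G t1
  have r2 := tt_rot42' G t1
  have s1 := tt_rot42 G t2
  have s2 := tt_rot42' G t2
  dsimp only at r1 r2 s1 s2
  rw [em] at r1 r2
  rw [ec] at s1 s2
  have k1 := ku_swap42 G (tt_KJ42 G t1)
  have k2 := ku_swap42 G (tt_KJ42 G r1)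
  have k3 := ku_swap42 G (tt_KJ42 G s1)
  have k5 := ku_swap42 G (tt_KJ42 G t2)
  have m1 := ku_rot42 G t1
  have m2 := ku_rot42' G t1
  have m3 := ku_rot42 G t2
  dsimp only at k1 k2 k3 k5 m1 m2 m3
  rw [em] at m1 m2
  rw [ec] at m3
  have w2 : ku G (v, m) = ku G (v, a) := by rw [← k5, m2]
  obtain ⟨hca, hne, a1, a2⟩ := pair_aux54 G t1 em t2 ec
  have third : ∀ z, tt G z → ku G z = ku G (a, v) → G.tri z ≠ G.tri (v, a) →
      G.tri z ≠ G.tri (v, m) → False := by
    intro z hz1 hz2 hz3 hz4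
    have hsub : ({G.tri z, G.tri (v, a), G.tri (v, m)} : Finset (Finset V)) ⊆
        (kT G (ku G (a, v))).image G.tri := by
      intro t ht
      rw [Finset.mem_insert, Finset.mem_insert, Finset.mem_singleton] at ht
      rcases ht with rfl | rfl | rfl
      · exact Finset.mem_image_of_mem _ ((mem_kT42 G).2 ⟨hz1, hz2⟩)
      · exact Finset.mem_image_of_mem _ ((mem_kT42 G).2 ⟨t1, k1.symm⟩)
      · exact Finset.mem_image_of_mem _ ((mem_kT42 G).2 ⟨t2, by rw [w2, k1]⟩)
    have h5 := Finset.card_le_card hsub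
    rw [Finset.card_eq_three.2 ⟨_, _, _, hz3, hz4, hne, rfl⟩] at h5
    unfold tK at h
    omega
  have n2 : ¬ tt G (m, a) := fun h4 => third (m, a) h4 (by rw [k2, m1, k1]) (a1 h4).1 (a1 h4).2
  have n3 : ¬ tt G (c, m) := fun h4 => third (c, m) h4 (by rw [k3, m3, w2, k1]) (a2 h4).1 (a2 h4).2
  obtain ⟨g1, _⟩ := pair_of54 G t1 em t2 ec n1 n2 n3 n4
  have s3 := swap_SD54 G s1 n3
  have s4 := swap_SD54 G r1 n2
  have l1 : rn G (v, c) = 1 := by
    refine rn_of54 G hG hn ?_ ?_
    · intro i hi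
      have : i = 0 := by omega
      rw [this]
      exact s2
    · rw [Function.iterate_one]
      dsimp only
      rw [q1]
      exact n3
  have l2 : rn G (c, m) = 2 := by
    refine rn_of54 G hG s3 ?_ ?_
    · intro i hi
      rcases Nat.lt_or_ge i 1 with h5 | h5
      · have : i = 0 := by omega
        rw [this]
        exact s1
      · have : i = 1 := by omega
        rw [this, Function.iterate_one]
        dsimp only
        rw [q2]
        exact r2
    · rw [Function.iterate_succ_apply, Function.iterate_one]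
      dsimp only
      rw [q2, p1]
      exact n2
  have l3 : rn G (m, a) = 1 := by
    refine rn_of54 G hG s4 ?_ ?_
    · intro i hi
      have : i = 0 := by omega
      rw [this]
      exact r1
    · rw [Function.iterate_one]
      dsimp only
      rw [p2]
      exact n1
  refine ⟨g1, en2, ?_, ?_, ?_, l1, l2, l3⟩
  · rw [nx_of54 G hG hn, l1, Function.iterate_one]
    dsimp only
    rw [q1]
  · rw [nx_of54 G hG s3, l2, Function.iterate_succ_apply, Function.iterate_one]
    dsimp only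
    rw [q2, p1]
  · rw [nx_of54 G hG s4, l3, Function.iterate_one]
    dsimp only
    rw [p2]

/-- a black face with two triangles: the runs alternate 2, 1, 2, 1 -/
theorem tK_two_alt54 (hG : G.Geo4 al kp U) {x : V × V} (hx : x ∈ SD G)
    (h : tK G (ku G x) = 2) : (kS G (ku G x)).card = 4 ∧ (rn G x = 1 ∨ rn G x = 2) ∧
      rn G x + rn G (nx G x) = 3 := by
  have h1 := sum_rn63 G hG (ku G x)
  have h2 := kS_card63 G (ku G x)
  rw [h] at h1 h2
  have h3 : ∀ y ∈ kS G (ku G x), rn G y ≤ 2 := by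
    intro y hy
    obtain ⟨h4, h5⟩ := (mem_kS42 G).1 hy
    have := rn_le_tK63 G hG h4
    rw [h5, h] at this
    exact this
  have h6 : ∃ y ∈ kS G (ku G x), rn G y = 2 := by
    by_contra hno
    push Not at hno
    have h7 : ∑ y ∈ kS G (ku G x), rn G y ≤ ∑ y ∈ kS G (ku G x), 1 := by
      refine Finset.sum_le_sum fun y hy => ?_
      have := h3 y hy
      have := hno y hy
      omega
    rw [Finset.sum_const, smul_eq_mul, mul_one] at h7
    omega
  obtain ⟨y, hy, hy2⟩ := h6
  obtain ⟨h4, h5⟩ := (mem_kS42 G).1 hy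
  obtain ⟨g1, g2, g3, g4, g5, g6, g7, g8⟩ := tK_two54 G hG h4 (by rw [h5, h]) hy2 rfl rfl
  have hxm : x ∈ kS G (ku G x) := (mem_kS42 G).2 ⟨hx, rfl⟩
  have hc4 : (kS G (ku G x)).card = 4 := by
    rw [h5] at g1
    have : (kS G (ku G x)).card ≤ 4 := by omega
    have h8 : 4 ≤ (kS G (ku G x)).card := by
      by_contra hlt
      push Not at hlt
      -- the sum of the runs is at most 2 + 1 + 2 + 1 with equality only for four sides
      have h9 := Finset.sum_le_card_nsmul _ _ 2 h3
      rw [h1, smul_eq_mul] at h9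
      have h10 : (kS G (ku G x)).card = 3 := by omega
      have h11 : ∀ z ∈ kS G (ku G x), rn G z = 2 := by
        intro z hz
        by_contra hz2
        have h12 := h3 z hz
        have h13 := Finset.add_sum_erase _ (fun z => rn G z) hz
        have h14 := Finset.sum_le_card_nsmul ((kS G (ku G x)).erase z) (fun z => rn G z) 2
          (fun w hw => h3 w (Finset.mem_of_mem_erase hw))
        rw [Finset.card_erase_of_mem hz, h10, smul_eq_mul] at h14
        rw [h1] at h13
        omega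
      have h15 : (y.2, G.ap y.2 (G.ap y.2 y.1)) ∈ kS G (ku G x) := by
        rw [g1]
        simp
      have := h11 _ h15
      omega
    omega
  rw [h5] at g1
  rw [g1] at hxm
  refine ⟨hc4, ?_⟩
  simp only [Finset.mem_insert, Finset.mem_singleton] at hxm
  rcases hxm with h8 | h8 | h8 | h8
  · rw [h8, hy2, g2, g6]
    exact ⟨Or.inr rfl, rfl⟩
  · rw [h8, g6, g3, g7]
    exact ⟨Or.inl rfl, rfl⟩
  · rw [h8, g7, g4, g8]
    exact ⟨Or.inr rfl, rfl⟩
  · rw [h8, g8, g5, hy2]
    exact ⟨Or.inl rfl, rfl⟩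

/-- **(c)** runs `rn y = 2`, `rn x = 1`, `nx y = x`: the third vertex `w` and the fourth vertex
`y.1` -/
theorem two_one54 (hG : G.Geo4 al kp U) {x y : V × V} (hy : y ∈ SD G)
    (h : nx G y = x) (hx1 : rn G x = 1) (hy2 : rn G y = 2) :
    2 ≤ tK G (ku G x) ∧ y.2 = x.1 ∧ tt G (x.2, x.1) ∧ tt G (x.1, y.1) ∧
      G.ap x.1 y.1 = G.ap x.2 x.1 ∧ G.ap x.1 (G.ap x.2 x.1) = x.2 ∧
      nx G x = (x.2, G.ap x.2 x.1) ∧ y.1 ≠ x.2 := by
  have hx : x ∈ SD G := by
    rw [← h]
    exact (nx_mem42 G hG ((mem_SD42 G).1 hy).1).1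
  obtain ⟨e1, e2, e3, e4, e5⟩ := last54 G hG hy h (by omega)
  obtain ⟨f1, f2, f3, f4, f5⟩ := first54 G hG hx (by omega)
  obtain ⟨k1, k2, k3, k4, k5⟩ := first54 G hG hy (by omega)
  rw [hy2] at e3
  have hk : ku G x = ku G y := by
    rw [← h]
    exact (nx_ku63 G hG hy).2
  have en := nx_of54 G hG hx
  rw [hx1, Function.iterate_one] at en
  have h9 := rn_le_tK63 G hG hy
  rw [e1] at k1
  refine ⟨by rw [hk]; omega, e1, f1, k1, e3, f4, en, ?_⟩
  intro he
  rw [he] at k1
  exact ((mem_SD42 G).1 hx).2 k1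

/-- **(c')** runs `rn y = 1`, `rn x = 2`, `nx y = x`: the third vertex `y.1` and the fourth vertex
`ap x.2 y.1` -/
theorem one_two54 (hG : G.Geo4 al kp U) {x y : V × V} (hy : y ∈ SD G)
    (h : nx G y = x) (hx2 : rn G x = 2) (hy1 : rn G y = 1) :
    2 ≤ tK G (ku G x) ∧ y = (G.ap x.2 x.1, x.1) ∧ tt G (x.2, x.1) ∧
      tt G (x.2, G.ap x.2 x.1) ∧ nx G x = (x.2, G.ap x.2 (G.ap x.2 x.1)) ∧
      G.ap x.2 (G.ap x.2 x.1) ≠ x.1 := by
  have hx : x ∈ SD G := by
    rw [← h]
    exact (nx_mem42 G hG ((mem_SD42 G).1 hy).1).1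
  obtain ⟨e1, e2, e3, e4, e5⟩ := last54 G hG hy h (by omega)
  rw [hy1] at e3
  have e6 : y.1 = G.ap x.2 x.1 := e3
  have hN := hasN63 G hG hx
  have h0 := hx2
  rw [rn_eq63 G hN] at h0
  have t2 : tt G (x.2, G.ap x.2 x.1) := by
    have := run_tt42 G hN (i := 1) (by omega)
    rw [Function.iterate_one] at this
    exact this
  have en := nx_of54 G hG hx
  rw [hx2, Function.iterate_succ_apply, Function.iterate_one] at en
  have h9 := rn_le_tK63 G hG hx
  exact ⟨by omega, Prod.ext e6 e1, e4, t2, en, (pair_aux54 G e4 rfl t2 rfl).1⟩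

end

end Pool.Agent.PEN.E5
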