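import Pool.Agent.E5.SkC89
import Pool.Agent.P4.DensC39
import Pool.Agent.P4.Pent66

/-! # PENNY, all small diameters: the corner `TH` is the angle between two contact neighbours

Row R4 of room E. -/

set_option autoImplicit false

namespace Pool.Agent.PEN.E5

open Classical UpperHalfPlane
open Pool.Agent.PEN.Cl

noncomputable section

section abs
variable {V : Type} (G : Tg V) {al : ℝ} {kp : V → V → ℝ} {U : ℕ → ℝ}

theorem sg_surj19 (hG : G.Geo4 al kp U) : ∀ x ∈ iJ G, ∃ y ∈ iJ G, sg G y = x := by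
  have himg : (iJ G).image (sg G) = iJ G := by
    apply Finset.eq_of_subset_of_card_le
    · intro x hx
      obtain ⟨y, hy, rfl⟩ := Finset.mem_image.1 hx
      exact (W4.sg_mem51 G hG hy).1
    · rw [Finset.card_image_of_injOn]
      intro x hx y hy h
      exact W4.sg_inj51 G hG (Finset.mem_coe.1 hx) (Finset.mem_coe.1 hy) h
  intro x hx
  rw [← himg] at hx
  obtain ⟨y, hy, h⟩ := Finset.mem_image.1 hx
  exact ⟨y, hy, h⟩

/-- the darts of the corner after `(u, v)` -/
theorem gp_image19 (hG : G.Geo4 al kp U) {u v : V} (hx : (u, v) ∈ iJ G)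
    (hO : G.HasO v (G.ap u v)) :
    gp G (sg G (u, v)) = (Finset.range (Nat.find hO + 1)).image
      (fun i => (v, (G.bk v)^[i] (G.ap u v))) := by
  rw [mem_iJ71] at hx
  obtain ⟨hin, hcon⟩ := hx
  dsimp only at hcon
  have i1 := inn_rot27 G hin
  dsimp only at i1
  have e1 : G.ap v (G.ap u v) = u := G.ap3 _ _ hin.1
  have hog : ∀ i, i ≤ Nat.find hO → G.og v ((G.bk v)^[i] (G.ap u v)) = G.og v (G.ap u v) := by
    intro i
    induction i with
    | zero => intro _; rfl
    | succ i ih =>
      intro hi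
      have h1 := Nat.find_min hO (m := i) (by omega)
      have h2 : G.HasO v ((G.bk v)^[i] (G.ap u v)) :=
        W4.hasO71 G hG (inn_path51 G i1 hO i (by omega))
      rw [Function.iterate_succ_apply', og_bk51 G h2 h1]
      exact ih (by omega)
  ext y
  unfold gp
  rw [Finset.mem_filter, mem_iD27, Finset.mem_image]
  constructor
  · rintro ⟨h1, h2, h3⟩
    obtain ⟨y1, e⟩ := y
    dsimp only [sg] at h2 h3
    subst h2
    have hO' : G.HasO y1 e := W4.hasO71 G hG h1
    rw [og_eq51 G hO', og_eq51 G hO] at h3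
    have p2 := path51 G h1 hO' 0 (Nat.find hO') (by omega)
    rw [zero_add, Function.iterate_zero, id_eq, h3] at p2
    rcases Nat.lt_or_ge (Nat.find hO) (Nat.find hO') with hlt | hge
    · exfalso
      obtain ⟨k, hk⟩ : ∃ k, k + (Nat.find hO + 1) = Nat.find hO' :=
        ⟨Nat.find hO' - (Nat.find hO + 1), by omega⟩
      have p3 := path51 G h1 hO' k (Nat.find hO + 1) (by omega)
      have p1 := path51 G i1 hO 0 (Nat.find hO) (by omega)
      rw [zero_add, Function.iterate_zero, id_eq] at p1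
      rw [hk, h3, Function.iterate_succ_apply', p1, e1] at p3
      have h4 := Nat.find_min hO' (m := k) (by omega)
      rw [← p3] at h4
      exact h4 (G.csymm _ _ hcon)
    · refine ⟨Nat.find hO - Nat.find hO', Finset.mem_range.2 (by omega), ?_⟩
      have p3 := path51 G i1 hO (Nat.find hO - Nat.find hO') (Nat.find hO') (by omega)
      have e2 : Nat.find hO - Nat.find hO' + Nat.find hO' = Nat.find hO := by omega
      rw [e2] at p3
      rw [← p3, p2]
  · rintro ⟨i, hi, rfl⟩
    rw [Finset.mem_range] at hi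
    exact ⟨inn_path51 G i1 hO i (by omega), rfl, hog i (by omega)⟩

theorem path_inj19 {u v : V} (hin : G.inn (u, v)) (hO : G.HasO v (G.ap u v)) :
    Set.InjOn (fun i => (v, (G.bk v)^[i] (G.ap u v)))
      (Finset.range (Nat.find hO + 1) : Set ℕ) := by
  have i1 := inn_rot27 G hin
  dsimp only at i1
  have key : ∀ i j, i < j → j ≤ Nat.find hO →
      (G.bk v)^[i] (G.ap u v) ≠ (G.bk v)^[j] (G.ap u v) := by
    intro i j hij hj h
    obtain ⟨p, rfl⟩ : ∃ p, j = p + i := ⟨j - i, by omega⟩
    have p1 := path51 G i1 hO 0 i (by omega)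
    have p2 := path51 G i1 hO p i (by omega)
    rw [← h] at p2
    rw [zero_add, Function.iterate_zero, id_eq] at p1
    rw [p1] at p2
    -- `p2 : ap u v = bk^[p] (ap u v)`
    have h1 := Nat.find_spec hO
    obtain ⟨q, hq⟩ : ∃ q, Nat.find hO = q + p := ⟨Nat.find hO - p, by omega⟩
    rw [hq, Function.iterate_add_apply, ← p2] at h1
    exact Nat.find_min hO (m := q) (by omega) h1
  intro i hi j hj h
  rw [Finset.mem_coe, Finset.mem_range] at hi hj
  have h2 : (G.bk v)^[i] (G.ap u v) = (G.bk v)^[j] (G.ap u v) := congrArg Prod.snd h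
  rcases lt_trichotomy i j with hlt | heq | hgt
  · exact absurd h2 (key i j hlt (by omega))
  · exact heq
  · exact absurd h2.symm (key j i hgt (by omega))

/-- gaps are at most one -/
theorem gc_le_one19 (hG : G.Geo4 al kp U) (hge : ∀ x ∈ iJ G, al ≤ TH G x) {x : V × V}
    (hx : x ∈ iJ G) : gc G al x ≤ 1 := by
  have hal := W4.al_pos71 G hG
  by_cases h : tt G x
  · rw [gc_tt89 G hG h]
    norm_num
  · have h1 : 1 ≤ TH G x / al := (le_div_iff₀ hal).2 (by rw [one_mul]; exact hge x hx)
    have h2 : (0 : ℝ) ≤ TH G x / al := by linarith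
    have h3 := Nat.ceil_lt_add_one h2
    unfold gc un wc
    rw [if_neg h]
    rcases le_total 2 ⌈TH G x / al⌉₊ with h4 | h4
    · rw [max_eq_right h4]
      linarith
    · rw [max_eq_left h4]
      push_cast
      linarith

/-- an upper bound of the corner in units bounds the units -/
theorem un_le19 (hG : G.Geo4 al kp U) {x : V × V} {n : ℕ} (hn : 2 ≤ n)
    (h : TH G x ≤ n * al) : un G al x ≤ n := by
  have hal := W4.al_pos71 G hG
  unfold un
  split_ifs with ht
  · omega
  · refine max_le hn ?_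
    unfold wc
    rw [Nat.ceil_le, div_le_iff₀ hal]
    exact h

/-- the corner through the gap -/
theorem TH_gc19 (hG : G.Geo4 al kp U) (x : V × V) : TH G x = al * (un G al x - gc G al x) := by
  have hal := W4.al_pos71 G hG
  unfold gc
  field_simp
  ring

end abs

section conc
variable {G : Tg ℍ} {d : ℝ} {kp : ℍ → ℍ → ℝ} {U : ℕ → ℝ}

/-- the corner after `(u, v)` is the angle from its first contact neighbour to `u` -/
theorem TH_coe19 (hG : G.Geo4 (alpha d) kp U) (hD : DelG G d) {u v : ℍ} (hx : (u, v) ∈ iJ G) :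
    ((TH G (sg G (u, v)) : ℝ) : Real.Angle) = ((ang v (sg G (u, v)).2 u : ℝ) : Real.Angle) := by
  have hx' := hx
  rw [mem_iJ71] at hx'
  obtain ⟨hin, hcon⟩ := hx'
  dsimp only at hcon
  have i1 := inn_rot27 G hin
  dsimp only at i1
  have hO : G.HasO v (G.ap u v) := W4.hasO71 G hG i1
  have e1 : G.ap v (G.ap u v) = u := G.ap3 _ _ hin.1
  have e2 : (sg G (u, v)).2 = (G.bk v)^[Nat.find hO] (G.ap u v) := by
    dsimp only [sg]
    exact og_eq51 G hO
  have hne : ∀ a, G.inn (v, a) → a ≠ v := fun a ha => (G.ne _ _ (G.sub ha.1)).symm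
  have huv : u ≠ v := G.ne _ _ (G.sub hin.1)
  unfold TH
  rw [gp_image19 G hG hx hO, Finset.sum_image (path_inj19 G hin hO), e2]
  have key : ∀ k, k ≤ Nat.find hO →
      ((∑ i ∈ Finset.range (k + 1), G.th v ((G.bk v)^[i] (G.ap u v)) : ℝ) : Real.Angle) =
      ((ang v ((G.bk v)^[k] (G.ap u v)) u : ℝ) : Real.Angle) := by
    intro k
    induction k with
    | zero =>
      intro _
      rw [Finset.sum_range_one]
      dsimp only [Function.iterate_zero, id_eq]
      rw [hD.th _ _ i1.1, e1]
    | succ k ih =>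
      intro hk
      have j1 := inn_path51 G i1 hO k (by omega)
      have j2 := inn_path51 G i1 hO (k + 1) (by omega)
      have j3 := (inn_bk71 G j1 (Nat.find_min hO (m := k) (by omega))).1
      have j4 : G.ap v ((G.bk v)^[k + 1] (G.ap u v)) = (G.bk v)^[k] (G.ap u v) := by
        rw [Function.iterate_succ_apply']
        exact fw_bk71 G j3
      rw [Finset.sum_range_succ, Real.Angle.coe_add, ih (by omega), hD.th _ _ j2.1, j4]
      rw [add_comm]
      exact (ang_coe66 (hne _ j2) (hne _ j1) huv).symm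
  exact key _ le_rfl

/-- **every corner is at least `α`** -/
theorem TH_ge19 (hG : G.Geo4 (alpha d) kp U) (hD : DelG G d) (hS : Sep d G.P) {x : ℍ × ℍ}
    (hx : x ∈ iJ G) : alpha d ≤ TH G x := by
  obtain ⟨⟨u, v⟩, hy, rfl⟩ := sg_surj19 G hG x hx
  have hd := hD.hd
  have hcoe := TH_coe19 hG hD hy
  have hpos := TH_pos71 G hx
  obtain ⟨b, hb⟩ : ∃ b, b = (sg G (u, v)).2 := ⟨_, rfl⟩
  rw [← hb] at hcoe
  have hx1 := (mem_iJ71 G).1 hx
  have hy1 := (mem_iJ71 G).1 hy
  have cb : G.con v b := by
    have := hx1.2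
    rw [hb]
    exact this
  have cu : G.con u v := hy1.2
  have dvb : dist v b = d := hD.con _ _ cb
  have dvu : dist v u = d := by rw [dist_comm]; exact hD.con _ _ cu
  have nb : b ≠ v := fun h => by rw [h, dist_self] at dvb; linarith
  have nu : u ≠ v := fun h => by rw [h, dist_self] at dvu; linarith
  have hal := alpha_lt hd
  by_contra hlt
  rw [not_le] at hlt
  have hp := Real.pi_pos
  have hcos : Real.cos (ang v b u) = Real.cos (TH G (sg G (u, v))) := by
    have := congrArg Real.Angle.cos hcoe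
    rwa [Real.Angle.cos_coe, Real.Angle.cos_coe, eq_comm] at this
  have hl := cosh_law nb nu
  rw [dvb, dvu, hcos] at hl
  have h1 : Real.cos (alpha d) < Real.cos (TH G (sg G (u, v))) :=
    Real.cos_lt_cos_of_nonneg_of_le_pi hpos.le (alpha_le_pi39 d) hlt
  have h2 : Real.cos (TH G (sg G (u, v))) < 1 := by
    rw [← Real.cos_zero]
    exact Real.cos_lt_cos_of_nonneg_of_le_pi le_rfl (by linarith) hpos
  have hC : 1 < Real.cosh d := Real.one_lt_cosh.2 hd.ne'
  have hsq := Real.cosh_sq d
  have hSd : 0 < Real.sinh d := Real.sinh_pos_iff.2 hd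
  have hne : b ≠ u := by
    intro h
    rw [h, dist_self, Real.cosh_zero] at hl
    nlinarith [mul_pos hSd hSd]
  have hbP : b ∈ G.P := by
    have := G.symm _ _ (G.sub hx1.1.1)
    rw [hb]
    exact G.mem _ _ this
  have huP : u ∈ G.P := G.mem _ _ (G.sub hy1.1.1)
  have hbu := hS b hbP u huP hne
  have h3 : Real.cosh d ≤ Real.cosh (dist b u) := by
    rw [Real.cosh_le_cosh, abs_of_pos hd, abs_of_nonneg dist_nonneg]
    exact hbu
  rw [cos_alpha hd, div_lt_iff₀ (by linarith)] at h1
  have h4 : Real.sinh d * Real.sinh d = Real.cosh d ^ 2 - 1 := by linarith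
  rw [h4] at hl
  nlinarith

theorem gc_le_one19' (hG : G.Geo4 (alpha d) kp U) (hD : DelG G d) (hS : Sep d G.P) {x : ℍ × ℍ}
    (hx : x ∈ iJ G) : gc G (alpha d) x ≤ 1 :=
  gc_le_one19 G hG (fun _ h => TH_ge19 hG hD hS h) hx

end conc

end

end Pool.Agent.PEN.E5
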