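import Pool.Agent.E5.Vt15
import Pool.Agent.E5.TH19

/-! # PENNY, all small diameters: the vertex table, weighted with the surplus of the sectors

`Y` is a multiplier per black face (`0 ≤ Y ≤ y`); the uniform multiplier is the special case `Y = y`. -/

set_option autoImplicit false

namespace Pool.Agent.PEN.E5

open Classical UpperHalfPlane
open Pool.Agent.PEN.Cl

noncomputable section

variable {V : Type} (G : Tg V) {al : ℝ} {kp : V → V → ℝ} {U : ℕ → ℝ}

/-- the big corners carry the whole gap -/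
theorem sum_gcB39 (hG : G.Geo4 al kp U) {v : V} (hv : v ∈ inN G) :
    ∑ x ∈ Bv G v, gc G al x = kv G al v - ep al := by
  rw [← sum_gc89 G hG hv]
  unfold Bv
  rw [cv_BC89 G v]
  exact Finset.sum_filter_of_ne fun x _ h h3 => h (gc_tt89 G hG h3)

/-- the surplus of all sectors at a point -/
theorem sum_Dsv39 (hG : G.Geo4 al kp U) {v : V} (hv : v ∈ inN G) :
    ∑ x ∈ Sv G v, Ds G al x = 2 * (kv G al v - ep al) - cv G v := by
  unfold Ds
  rw [Finset.sum_sub_distrib, Finset.sum_add_distrib, sum_sgv62 G hG hv (gc G al),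
    sum_nxv62 G hG hv (gc G al), sum_gcB39 G hG hv, Finset.sum_const, card_Sv62 G hG hv,
    nsmul_eq_mul]
  ring

theorem Ds_le_one39 (hG : G.Geo4 al kp U) (h1 : ∀ x ∈ iJ G, gc G al x ≤ 1) {v : V}
    (hv : v ∈ inN G) {x : V × V} (hx : x ∈ Sv G v) : Ds G al x ≤ 1 := by
  have h2 := h1 _ ((mem_BC89 G).1 ((mem_Bv62 G).1 (sg_Bv62 G hG hv hx)).1).1
  have h3 := h1 _ ((mem_BC89 G).1 ((mem_Bv62 G).1 (nx_Bv62 G hG hv hx)).1).1
  unfold Ds
  linarith

/-- three big corners: every sector has surplus at least `k - 2 - ep` -/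
theorem Ds_three39 (hG : G.Geo4 al kp U) (h1 : ∀ x ∈ iJ G, gc G al x ≤ 1) {v : V}
    (hv : v ∈ inN G) (hc : cv G v = 3) {x : V × V} (hx : x ∈ Sv G v) :
    kv G al v - ep al - 2 ≤ Ds G al x := by
  obtain ⟨y, hy, z, hz, hyx, hzx, hzy, hS, hB, e1, e2, e3⟩ := c3_89 G hG hv hc hx
  have hs := sum_gcB39 G hG hv
  have n1 : sg G x ≠ sg G y := fun h => hyx (sg_injSv89 G hG hv hx hy h).symm
  have n2 : sg G x ≠ sg G z := fun h => hzx (sg_injSv89 G hG hv hx hz h).symm
  have n3 : sg G y ≠ sg G z := fun h => hzy (sg_injSv89 G hG hv hy hz h).symm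
  rw [hB, Finset.sum_insert (by
    simp only [Finset.mem_insert, Finset.mem_singleton]
    rintro (h | h)
    · exact n1 h
    · exact n2 h), Finset.sum_insert (by
    rw [Finset.mem_singleton]; exact n3), Finset.sum_singleton] at hs
  have h2 := h1 _ ((mem_BC89 G).1 ((mem_Bv62 G).1 (sg_Bv62 G hG hv hz)).1).1
  unfold Ds
  rw [← e1]
  linarith

/-- a single big corner needs `uv = 7` -/
theorem leaf_uv39 (hG : G.Geo4 al kp U) (h1 : ∀ x ∈ iJ G, gc G al x ≤ 1) {v : V}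
    (hv : v ∈ inN G) (hc : cv G v = 1) : uv G al v = 7 := by
  have hne : (Sv G v).Nonempty := by
    rw [← Finset.card_pos, card_Sv62 G hG hv, hc]
    norm_num
  obtain ⟨x, hx⟩ := hne
  obtain ⟨_, hB, _⟩ := c1_89 G hG hv hc hx
  have hs := sum_gcB39 G hG hv
  rw [hB, Finset.sum_singleton] at hs
  have h2 := h1 _ ((mem_BC89 G).1 ((mem_Bv62 G).1 (sg_Bv62 G hG hv hx)).1).1
  have h3 := ep_lt89 G hG
  have h4 := uv_ge89 G hG hv
  rw [hs, kv_eq89] at h2
  have h5 : (uv G al v : ℝ) < 8 := by linarith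
  have h6 : uv G al v < 8 := by exact_mod_cast h5
  omega

/-- **the arithmetic table with surplus**: sectors `i ∈ S` with `t i` triangles and surplus `D i`, the
served ones in `P`, `us` the units of the big corners, `u` all units -/
theorem table39 {θ y Λ e : ℝ} (hθ : 0 ≤ θ) (hy : 0 ≤ y) (hy2 : 2 * y + 1 ≤ Λ) (he : 0 ≤ e)
    {ι : Type} (S P : Finset ι) (t : ι → ℕ) (D : ι → ℝ) (u c us : ℕ) (hP : P ⊆ S)
    (hS : S.card = c) (hc : 1 ≤ c) (hus : 2 * c ≤ us) (hu : ∑ i ∈ S, t i + us = u) (h8 : 8 ≤ u)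
    (h4 : u = 8 → c = 4 → P.card ≤ 2) (hD1 : ∀ i ∈ S, D i ≤ 1)
    (h3a : u = 8 → c = 3 → ∀ i ∈ S, - e ≤ D i)
    (h3b : u = 8 → c = 3 → ∑ i ∈ S, D i = 1 - 2 * e) :
    ∑ i ∈ P, (max (2 + 2 * θ - θ * t i) 0 + y * D i) ≤
      (3 + 4 * θ + Λ) * ((u : ℝ) - 6 - 1) +
        (if u = 8 ∧ c = 3 then (y + 3 - Λ) + θ * ((us : ℝ) - 6) else 0) := by
  have crude : ∀ i ∈ P, max (2 + 2 * θ - θ * (t i : ℝ)) 0 + y * D i ≤ 2 + 2 * θ + y := by
    intro i hi
    have h1 : 0 ≤ θ * (t i : ℝ) := mul_nonneg hθ (Nat.cast_nonneg _)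
    have h2 : max (2 + 2 * θ - θ * (t i : ℝ)) 0 ≤ 2 + 2 * θ := max_le (by linarith) (by linarith)
    have h3 := mul_le_mul_of_nonneg_left (hD1 i (hP hi)) hy
    linarith
  have crude1 : ∑ i ∈ P, (max (2 + 2 * θ - θ * (t i : ℝ)) 0 + y * D i) ≤
      P.card * (2 + 2 * θ + y) := by
    rw [← nsmul_eq_mul]
    exact Finset.sum_le_card_nsmul _ _ _ crude
  have hPc : (P.card : ℝ) ≤ c := by
    rw [← hS]
    exact_mod_cast Finset.card_le_card hP
  have crude2 : ∑ i ∈ P, (max (2 + 2 * θ - θ * (t i : ℝ)) 0 + y * D i) ≤ c * (2 + 2 * θ + y) :=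
    crude1.trans (mul_le_mul_of_nonneg_right hPc (by linarith))
  have hcu : 2 * c ≤ u := by omega
  rcases Nat.lt_or_ge 8 u with h9 | h9
  · have hn : ¬ (u = 8 ∧ c = 3) := by omega
    rw [if_neg hn, add_zero]
    rcases Nat.lt_or_ge 9 u with h10 | h10
    · have k3 : (10 : ℝ) ≤ u := by exact_mod_cast h10
      have hcu' : 2 * (c : ℝ) ≤ u := by exact_mod_cast hcu
      have p1 : 0 ≤ ((u : ℝ) / 2 - c) * (2 + 2 * θ + y) := mul_nonneg (by linarith) (by linarith)
      have p2 : 0 ≤ ((u : ℝ) - 10) * (2 + 3 * θ + Λ - 1 / 2 * y) :=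
        mul_nonneg (by linarith) (by linarith)
      nlinarith [p1, p2, crude2]
    · have hu9 : u = 9 := le_antisymm h10 h9
      have hc4 : c ≤ 4 := by omega
      have hc4' : (c : ℝ) ≤ 4 := by exact_mod_cast hc4
      have p1 : 0 ≤ (4 - (c : ℝ)) * (2 + 2 * θ + y) := mul_nonneg (by linarith) (by linarith)
      rw [hu9]
      push_cast
      linarith
  · have hu8 : u = 8 := le_antisymm h9 h8
    have hc4 : c ≤ 4 := by omega
    subst hu8
    by_cases c3 : c = 3
    · rw [if_pos ⟨rfl, c3⟩]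
      have e1 : ∑ i ∈ P, max (2 + 2 * θ - θ * t i) 0 ≤ ∑ i ∈ S, (2 + 2 * θ - θ * (t i : ℝ)) := by
        have e2 : ∀ i ∈ S, max (2 + 2 * θ - θ * (t i : ℝ)) 0 = 2 + 2 * θ - θ * (t i : ℝ) := by
          intro i hi
          have h1 : t i ≤ ∑ j ∈ S, t j := Finset.single_le_sum (fun _ _ => Nat.zero_le _) hi
          have h2 : t i ≤ 2 := by omega
          have h3 : (t i : ℝ) ≤ 2 := by exact_mod_cast h2
          have h4 := mul_le_mul_of_nonneg_left h3 hθ
          exact max_eq_left (by linarith)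
        calc ∑ i ∈ P, max (2 + 2 * θ - θ * (t i : ℝ)) 0 ≤
            ∑ i ∈ S, max (2 + 2 * θ - θ * (t i : ℝ)) 0 :=
              Finset.sum_le_sum_of_subset_of_nonneg hP fun _ _ _ => le_max_right _ _
          _ = _ := Finset.sum_congr rfl e2
      have e3 : ∑ i ∈ S, (2 + 2 * θ - θ * (t i : ℝ)) = 3 * (2 + 2 * θ) - θ * (8 - us) := by
        rw [Finset.sum_sub_distrib, Finset.sum_const, hS, c3, ← Finset.mul_sum, nsmul_eq_mul]
        have : ((∑ i ∈ S, t i : ℕ) : ℝ) + us = 8 := by exact_mod_cast hu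
        rw [Nat.cast_sum] at this
        have h5 : ∑ i ∈ S, (t i : ℝ) = 8 - us := by linarith
        rw [h5]
        norm_num
      have e4 : ∑ i ∈ P, D i ≤ 1 := by
        have hsd := Finset.sum_sdiff (f := D) hP
        have hcd := Finset.card_sdiff_add_card_eq_card hP
        have hS3 : ∑ i ∈ S, D i = 1 - 2 * e := h3b rfl c3
        have hlow : ∀ i ∈ S \ P, -e ≤ D i := fun i hi => h3a rfl c3 i (Finset.mem_sdiff.1 hi).1
        have hup : ∀ i ∈ P, D i ≤ 1 := fun i hi => hD1 i (hP hi)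
        have hlow2 : ((S \ P).card : ℝ) * (-e) ≤ ∑ i ∈ S \ P, D i := by
          rw [← nsmul_eq_mul]
          exact Finset.card_nsmul_le_sum _ _ _ hlow
        have hup2 : ∑ i ∈ P, D i ≤ (P.card : ℝ) * 1 := by
          rw [← nsmul_eq_mul]
          exact Finset.sum_le_card_nsmul _ _ _ hup
        rcases Nat.lt_or_ge P.card 2 with h | h
        · have : (P.card : ℝ) ≤ 1 := by
            have : P.card ≤ 1 := by omega
            exact_mod_cast this
          linarith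
        · have : ((S \ P).card : ℝ) ≤ 1 := by
            have : (S \ P).card ≤ 1 := by omega
            exact_mod_cast this
          nlinarith [mul_le_mul_of_nonneg_right this he]
      rw [Finset.sum_add_distrib, ← Finset.mul_sum]
      rw [e3] at e1
      have e5 := mul_le_mul_of_nonneg_left e4 hy
      push_cast
      linarith
    · rw [if_neg (fun h => c3 h.2), add_zero]
      have hc' : c = 1 ∨ c = 2 ∨ c = 4 := by omega
      rcases hc' with rfl | rfl | rfl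
      · push_cast at crude2 ⊢
        linarith
      · push_cast at crude2 ⊢
        linarith
      · have h2 : (P.card : ℝ) ≤ 2 := by exact_mod_cast h4 rfl rfl
        have h3 := mul_le_mul_of_nonneg_right h2 (by linarith : (0:ℝ) ≤ 2 + 2 * θ + y)
        push_cast
        linarith

/-- **vertex table with surplus** (`k ≥ 2`) -/
theorem vertex39 (hG : G.Geo4 al kp U) (h1 : ∀ x ∈ iJ G, gc G al x ≤ 1) {θ y Λ : ℝ}
    (hθ : 0 ≤ θ) (hy : 0 ≤ y) (hy2 : 2 * y + 1 ≤ Λ) {v : V} (hv : v ∈ inN G)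
    (h8 : 8 ≤ uv G al v) :
    ∑ x ∈ (Sv G v).filter (fun x => 0 ≤ Ds G al x),
        (max (2 + 2 * θ - θ * rn G x) 0 + y * Ds G al x) ≤
      (3 + 4 * θ + Λ) * (kv G al v - 1) +
        (if uv G al v = 8 ∧ cv G v = 3 then (y + 3 - Λ) + θ * ((ub15 G al v : ℝ) - 6) else 0) := by
  rw [kv_eq89]
  have hep := (ep_pos89 G hG).le
  refine table39 hθ hy hy2 hep (Sv G v) _ (rn G) (Ds G al) (uv G al v) (cv G v)
    (ub15 G al v) (Finset.filter_subset _ _) (card_Sv62 G hG hv) (cv_pos15 G hG hv) ?_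
    (uv_split62 G hG v) h8 (fun h2 h3 => two_of_four15 G hG hv h2 h3)
    (fun x hx => Ds_le_one39 G hG h1 hv hx) (fun h2 h3 x hx => ?_) (fun h2 h3 => ?_)
  · exact two_cv_le15 G v
  · have := Ds_three39 G hG h1 hv h3 hx
    rw [kv_eq89, h2] at this
    push_cast at this
    linarith
  · rw [sum_Dsv39 G hG hv, kv_eq89, h2, h3]
    push_cast
    ring

/-- the price paid at a point: served sectors at the price `2 + 2 θ - θ t`, all sectors with the
multiplier of their black face -/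
def pr39 (al θ : ℝ) (Y : (cg G).ConnectedComponent → ℝ) (v : V) : ℝ :=
  ∑ x ∈ (Sv G v).filter (fun x => 0 ≤ Ds G al x), max (2 + 2 * θ - θ * rn G x) 0 +
    ∑ x ∈ Sv G v, Y (ku G x) * Ds G al x

theorem pr_le39 {θ y : ℝ} {Y : (cg G).ConnectedComponent → ℝ} (hY0 : ∀ K, 0 ≤ Y K)
    (hY1 : ∀ K, Y K ≤ y) (v : V) : pr39 G al θ Y v ≤
      ∑ x ∈ (Sv G v).filter (fun x => 0 ≤ Ds G al x),
        (max (2 + 2 * θ - θ * rn G x) 0 + y * Ds G al x) := by
  unfold pr39
  rw [Finset.sum_add_distrib, ← Finset.sum_filter_add_sum_filter_not (Sv G v)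
    (fun x => 0 ≤ Ds G al x)]
  have e1 : ∑ x ∈ (Sv G v).filter (fun x => 0 ≤ Ds G al x), Y (ku G x) * Ds G al x ≤
      ∑ x ∈ (Sv G v).filter (fun x => 0 ≤ Ds G al x), y * Ds G al x :=
    Finset.sum_le_sum fun x hx => mul_le_mul_of_nonneg_right (hY1 _) (Finset.mem_filter.1 hx).2
  have e2 : ∑ x ∈ (Sv G v).filter (fun x => ¬ 0 ≤ Ds G al x), Y (ku G x) * Ds G al x ≤ 0 :=
    Finset.sum_nonpos fun x hx => mul_nonpos_of_nonneg_of_nonpos (hY0 _)
      (not_le.1 (Finset.mem_filter.1 hx).2).le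
  linarith

/-- points with `uv = 7` -/
theorem cv_le39 (hG : G.Geo4 al kp U) {v : V} (h7 : uv G al v = 7) : cv G v ≤ 3 := by
  have h1 := uv_split62 G hG (al := al) v
  have h2 := two_cv_le15 G (al := al) v
  unfold ub15 at h2
  omega

theorem noserve39 (hG : G.Geo4 al kp U) {v : V} (hv : v ∈ inN G) (h7 : uv G al v = 7)
    (hc : cv G v ≠ 1) : (Sv G v).filter (fun x => 0 ≤ Ds G al x) = ∅ := by
  rw [Finset.filter_eq_empty_iff]
  intro x hx hD
  obtain ⟨h1, h2⟩ := (mem_Sv62 G).1 hx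
  rcases pos_sector89 G hG hv h1 h2 hD with h | h
  · exact hc h
  · omega

/-- the leaf: run and corner -/
theorem leaf_rn39 (hG : G.Geo4 al kp U) {v : V} (hv : v ∈ inN G) (hc : cv G v = 1)
    {x : V × V} (hx : x ∈ Sv G v) : rn G x + un G al (nx G x) = uv G al v := by
  obtain ⟨hS, hB, he⟩ := c1_89 G hG hv hc hx
  have h := uv_sectors62 G hG (al := al) hv
  rw [hS, Finset.sum_singleton] at h
  exact h

/-- **a leaf** -/
theorem pr_leaf39 (hG : G.Geo4 al kp U) {θ : ℝ} {Y : (cg G).ConnectedComponent → ℝ}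
    (hY0 : ∀ K, 0 ≤ Y K) {v : V} (hv : v ∈ inN G) (h7 : uv G al v = 7) (hc : cv G v = 1) :
    pr39 G al θ Y v ≤
      ∑ x ∈ Sv G v, (Y (ku G x) + max (2 - 5 * θ + θ * un G al (nx G x)) 0) := by
  have hne : (Sv G v).Nonempty := by
    rw [← Finset.card_pos, card_Sv62 G hG hv, hc]
    norm_num
  obtain ⟨x, hx⟩ := hne
  obtain ⟨hS, hB, he⟩ := c1_89 G hG hv hc hx
  obtain ⟨hx1, hx2⟩ := (mem_Sv62 G).1 hx
  have hD := Ds_one89 G hG hv hx1 hx2 hc
  have hr := leaf_rn39 G hG hv hc hx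
  rw [h7] at hr
  have hr' : (rn G x : ℝ) + un G al (nx G x) = 7 := by exact_mod_cast hr
  have hep := ep_pos89 G hG
  rw [kv_eq89, h7] at hD
  push_cast at hD
  have e1 : 2 + 2 * θ - θ * (rn G x : ℝ) = 2 - 5 * θ + θ * un G al (nx G x) := by
    have : (rn G x : ℝ) = 7 - un G al (nx G x) := by linarith
    rw [this]
    ring
  have e2 : Y (ku G x) * Ds G al x ≤ Y (ku G x) := by
    have := mul_le_mul_of_nonneg_left (show Ds G al x ≤ 1 by linarith) (hY0 (ku G x))
    linarith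
  have e3 : ∑ x ∈ (Sv G v).filter (fun x => 0 ≤ Ds G al x), max (2 + 2 * θ - θ * rn G x) 0 ≤
      ∑ x ∈ Sv G v, max (2 + 2 * θ - θ * (rn G x : ℝ)) 0 :=
    Finset.sum_le_sum_of_subset_of_nonneg (Finset.filter_subset _ _) fun _ _ _ => le_max_right _ _
  unfold pr39
  rw [hS, Finset.sum_singleton, Finset.sum_singleton]
  rw [hS, Finset.sum_singleton, e1] at e3
  linarith

/-- **two or three big corners at `uv = 7`**: nothing is served -/
theorem pr_seven39 (hG : G.Geo4 al kp U) {θ : ℝ} {Y : (cg G).ConnectedComponent → ℝ}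
    {v : V} (hv : v ∈ inN G) (h7 : uv G al v = 7) (hc : cv G v ≠ 1) :
    pr39 G al θ Y v = ∑ x ∈ Sv G v, Y (ku G x) * Ds G al x := by
  unfold pr39
  rw [noserve39 G hG hv h7 hc, Finset.sum_empty, zero_add]

/-- leaves, as sectors -/
def Lf39 (al : ℝ) : Finset (V × V) :=
  (SD G).filter (fun x => x.2 ∈ inN G ∧ uv G al x.2 = 7 ∧ cv G x.2 = 1)

/-- points with `uv = 7` and at least two big corners, as sectors -/
def Mf39 (al : ℝ) : Finset (V × V) :=
  (SD G).filter (fun x => x.2 ∈ inN G ∧ uv G al x.2 = 7 ∧ cv G x.2 ≠ 1)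

/-- the exceptional points: `k = 2` and three big corners -/
def X39 (al : ℝ) : Finset V := (inN G).filter (fun v => uv G al v = 8 ∧ cv G v = 3)

theorem sum_Sv39 (s : Finset V) (p : V → Prop) [DecidablePred p]
    [DecidablePred (fun x : V × V => x.2 ∈ s ∧ p x.2)] (f : V × V → ℝ) :
    ∑ v ∈ s.filter p, ∑ x ∈ Sv G v, f x =
      ∑ x ∈ (SD G).filter (fun x => x.2 ∈ s ∧ p x.2), f x := by
  rw [← Finset.sum_fiberwise_of_maps_to (s := (SD G).filter (fun x => x.2 ∈ s ∧ p x.2))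
    (t := s.filter p) (g := Prod.snd) (fun x hx => by
      obtain ⟨_, h1, h2⟩ := Finset.mem_filter.1 hx
      exact Finset.mem_filter.2 ⟨h1, h2⟩)]
  refine Finset.sum_congr rfl fun v hv => ?_
  obtain ⟨h1, h2⟩ := Finset.mem_filter.1 hv
  unfold Sv
  rw [Finset.filter_filter]
  refine Finset.sum_congr (Finset.filter_congr fun x _ => ?_) fun _ _ => rfl
  constructor
  · rintro rfl
    exact ⟨⟨h1, h2⟩, rfl⟩
  · exact fun h => h.2

/-- **the vertex table, summed** -/
theorem sum_pr39 (hG : G.Geo4 al kp U) (h1 : ∀ x ∈ iJ G, gc G al x ≤ 1) {θ y Λ : ℝ}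
    (hθ : 0 ≤ θ) (hy2 : 2 * y + 1 ≤ Λ) {Y : (cg G).ConnectedComponent → ℝ}
    (hY0 : ∀ K, 0 ≤ Y K) (hY1 : ∀ K, Y K ≤ y) :
    ∑ v ∈ inN G, pr39 G al θ Y v ≤
      (3 + 4 * θ + Λ) * ∑ v ∈ inN G, (kv G al v - 1) +
        ∑ x ∈ Lf39 G al, (Y (ku G x) + max (2 - 5 * θ + θ * un G al (nx G x)) 0) +
        ∑ x ∈ Mf39 G al, Y (ku G x) * Ds G al x +
        ∑ v ∈ X39 G al, ((y + 3 - Λ) + θ * ((ub15 G al v : ℝ) - 6)) := by
  have key : ∀ v ∈ inN G, pr39 G al θ Y v ≤ (3 + 4 * θ + Λ) * (kv G al v - 1) +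
      (if uv G al v = 7 ∧ cv G v = 1 then
        ∑ x ∈ Sv G v, (Y (ku G x) + max (2 - 5 * θ + θ * un G al (nx G x)) 0) else 0) +
      (if uv G al v = 7 ∧ cv G v ≠ 1 then ∑ x ∈ Sv G v, Y (ku G x) * Ds G al x else 0) +
      (if uv G al v = 8 ∧ cv G v = 3 then (y + 3 - Λ) + θ * ((ub15 G al v : ℝ) - 6) else 0) := by
    intro v hv
    have h7 := uv_ge89 G hG hv
    rcases Nat.lt_or_ge 7 (uv G al v) with h8 | h8
    · rw [if_neg (by omega), if_neg (by omega), add_zero, add_zero]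
      exact (pr_le39 G hY0 hY1 v).trans
        (vertex39 G hG h1 hθ ((hY0 (ku G (v, v))).trans (hY1 (ku G (v, v)))) hy2 hv h8)
    · have hu : uv G al v = 7 := le_antisymm h8 h7
      have hk : kv G al v - 1 = 0 := by
        rw [kv_eq89, hu]
        norm_num
      rw [hk, mul_zero, zero_add, if_neg (show ¬ (uv G al v = 8 ∧ cv G v = 3) by omega), add_zero]
      by_cases hc : cv G v = 1
      · rw [if_pos ⟨hu, hc⟩, if_neg (fun h => h.2 hc), add_zero]
        exact pr_leaf39 G hG hY0 hv hu hc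
      · rw [if_neg (fun h => hc h.2), if_pos ⟨hu, hc⟩, zero_add]
        exact (pr_seven39 G hG hv hu hc).le
  refine (Finset.sum_le_sum key).trans (le_of_eq ?_)
  rw [Finset.sum_add_distrib, Finset.sum_add_distrib, Finset.sum_add_distrib, ← Finset.mul_sum,
    ← Finset.sum_filter, ← Finset.sum_filter, ← Finset.sum_filter,
    sum_Sv39 G (inN G) (fun v => uv G al v = 7 ∧ cv G v = 1),
    sum_Sv39 G (inN G) (fun v => uv G al v = 7 ∧ cv G v ≠ 1)]
  rfl

/-- the exceptional term by corners -/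
theorem sum_ub39 (c : ℝ) : ∑ v ∈ X39 G al, c * ((ub15 G al v : ℝ) - 6) =
    ∑ x ∈ (BC G).filter (fun x => x.1 ∈ X39 G al), c * ((un G al x : ℝ) - 2) := by
  rw [← Finset.sum_fiberwise_of_maps_to (s := (BC G).filter (fun x => x.1 ∈ X39 G al))
    (t := X39 G al) (g := Prod.fst) (fun x hx => (Finset.mem_filter.1 hx).2)]
  refine Finset.sum_congr rfl fun v hv => ?_
  have e2 : ((BC G).filter (fun x => x.1 ∈ X39 G al)).filter (fun x => x.1 = v) = Bv G v := by
    unfold Bv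
    rw [Finset.filter_filter]
    refine Finset.filter_congr fun x _ => ?_
    constructor
    · exact fun h => h.2
    · intro h
      exact ⟨by rw [h]; exact hv, h⟩
  have hc : (Bv G v).card = 3 := (Finset.mem_filter.1 hv).2.2
  rw [e2, ← Finset.mul_sum, Finset.sum_sub_distrib, Finset.sum_const, hc]
  unfold ub15
  push_cast
  norm_num

/-- **the identity of the black faces with a multiplier per face** -/
theorem sum_YDs39 (hG : G.Geo4 al kp U) (Y : (cg G).ConnectedComponent → ℝ) :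
    ∑ x ∈ SD G, Y (ku G x) * Ds G al x = ∑ x ∈ SD G, Y (ku G x) * sp G al x := by
  have hh := sum_nx42 G hG (SD G) (fun x hx => hx)
    (fun x hx => (nx_mem42 G hG ((mem_SD42 G).1 hx).1).1) (fun x => Y (ku G x) * gc G al x)
  have e1 : ∑ x ∈ SD G, Y (ku G (nx G x)) * gc G al (nx G x) =
      ∑ x ∈ SD G, Y (ku G x) * gc G al (nx G x) :=
    Finset.sum_congr rfl fun x hx => by rw [(nx_mem42 G hG ((mem_SD42 G).1 hx).1).2]
  rw [e1] at hh
  have e2 : ∀ x ∈ SD G, Y (ku G x) * Ds G al x = Y (ku G x) * gc G al (sg G x) +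
      Y (ku G x) * gc G al (nx G x) - Y (ku G x) := fun x _ => by
    unfold Ds
    ring
  have e3 : ∀ x ∈ SD G, Y (ku G x) * sp G al x = Y (ku G x) * gc G al (sg G x) +
      Y (ku G x) * gc G al x - Y (ku G x) := fun x _ => by
    unfold sp
    ring
  rw [Finset.sum_congr rfl e2, Finset.sum_congr rfl e3, Finset.sum_sub_distrib,
    Finset.sum_sub_distrib, Finset.sum_add_distrib, Finset.sum_add_distrib, hh]

/-- the surplus of the sectors at inner points -/
theorem sum_inN39 (hG : G.Geo4 al kp U) (Y : (cg G).ConnectedComponent → ℝ) :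
    ∑ v ∈ inN G, ∑ x ∈ Sv G v, Y (ku G x) * Ds G al x =
      ∑ x ∈ SD G, Y (ku G x) * sp G al x -
        ∑ x ∈ (SD G).filter (fun x => x.2 ∉ inN G), Y (ku G x) * Ds G al x := by
  have h := sum_Sv39 G (inN G) (fun _ => True) (fun x => Y (ku G x) * Ds G al x)
  rw [Finset.filter_true] at h
  have e : ∑ x ∈ (SD G).filter (fun x => x.2 ∈ inN G ∧ True), Y (ku G x) * Ds G al x =
      ∑ x ∈ (SD G).filter (fun x => x.2 ∈ inN G), Y (ku G x) * Ds G al x :=
    Finset.sum_congr (Finset.filter_congr fun x _ => by tauto) fun _ _ => rfl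
  have h2 := h.trans e
  have h3 := Finset.sum_filter_add_sum_filter_not (SD G) (fun x => x.2 ∈ inN G)
    (fun x => Y (ku G x) * Ds G al x)
  have h4 := sum_YDs39 G hG (al := al) Y
  linarith

end

end Pool.Agent.PEN.E5
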