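import Pool.Agent.E5.Mx15
import Pool.Agent.E5.Ce18
import Pool.Agent.E5.SF54
import Pool.Agent.E5.Vs39

/-! # PENNY, all small diameters: the leaves

A black face with leaves is paid by the white corners at its leaves: `θ (u - 2)` for a corner with `u`
units. -/

set_option autoImplicit false

namespace Pool.Agent.PEN.E5

open Classical UpperHalfPlane
open Pool.Agent.PEN.Cl

noncomputable section

variable {V : Type} (G : Tg V) {al : ℝ} {kp : V → V → ℝ} {U : ℕ → ℝ}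

/-- the leaf sectors of a black face -/
def Lv (K : (cg G).ConnectedComponent) : Finset (V × V) := (kS G K).filter (fun x => Lf18 G x)

theorem mem_Lv15 {K : (cg G).ConnectedComponent} {x : V × V} :
    x ∈ Lv G K ↔ x ∈ kS G K ∧ x.2 ∈ inN G ∧ cv G x.2 = 1 := by
  unfold Lv
  rw [Finset.mem_filter]
  rfl

theorem leaf_sum15 (hG : G.Geo4 al kp U) (h1 : ∀ x ∈ iJ G, gc G al x ≤ 1)
    {K : (cg G).ConnectedComponent} {x : V × V} (hx : x ∈ Lv G K) :
    rn G x + un G al (sg G x) = 7 := by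
  obtain ⟨h2, h3, h4⟩ := (mem_Lv15 G).1 hx
  have h5 := mem_kS89 G h2
  have h6 : x ∈ Sv G x.2 := (mem_Sv62 G).2 ⟨h5, rfl⟩
  have h7 := leaf_rn39 G hG h3 h4 h6
  rw [leaf_nx18 G hG h5 ⟨h3, h4⟩, leaf_uv39 G hG h1 h3 h4] at h7
  exact h7

theorem leaf_un15 (hG : G.Geo4 al kp U) {K : (cg G).ConnectedComponent} {x : V × V}
    (hx : x ∈ Lv G K) : 2 ≤ un G al (sg G x) := by
  obtain ⟨h2, h3, h4⟩ := (mem_Lv15 G).1 hx
  have h5 := mem_kS89 G h2
  exact un_ge15 G (sector_corners89 G hG h3 h5 rfl).2.2.2.1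

/-- the arithmetic of the leaf lemma -/
theorem leaf_arith15 {θ y : ℝ} (hθ : 0 ≤ θ) (hθ1 : θ ≤ 1) (hy : y ≤ 3 * θ - 2) {s t l ρ o : ℕ}
    (hl : 1 ≤ l) (hs : s ≤ t + 2) (h5 : ρ ≤ 5 * l) (h1 : l = 1 → ρ ≤ t) (h2 : l = 2 → ρ ≤ t + 2)
    (ho : 3 ≤ l → s ≤ l + o) (hsum : ρ + o = 3 * t) :
    2 + 2 * θ - θ * t - (1 + θ) * ((t : ℝ) + 2 - s) + y * l ≤ θ * (5 * (l : ℝ) - ρ) := by
  have hs' : (s : ℝ) ≤ t + 2 := by exact_mod_cast hs
  have hl' : (1 : ℝ) ≤ l := by exact_mod_cast hl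
  have hyl : y * l ≤ (3 * θ - 2) * l := mul_le_mul_of_nonneg_right hy (by linarith)
  rcases Nat.lt_or_ge l 3 with h3 | h3
  · have hc : l = 1 ∨ l = 2 := by omega
    rcases hc with rfl | rfl
    · have h6 : (ρ : ℝ) ≤ t := by exact_mod_cast h1 rfl
      have h7 := mul_le_mul_of_nonneg_left h6 hθ
      have h8 := mul_le_mul_of_nonneg_left hs' (by linarith : (0:ℝ) ≤ 1 + θ)
      push_cast at hyl ⊢
      linarith
    · have h6 : (ρ : ℝ) ≤ t + 2 := by exact_mod_cast h2 rfl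
      have h7 := mul_le_mul_of_nonneg_left h6 hθ
      have h8 := mul_le_mul_of_nonneg_left hs' (by linarith : (0:ℝ) ≤ 1 + θ)
      push_cast at hyl ⊢
      linarith
  · have h6 : (s : ℝ) ≤ l + o := by exact_mod_cast ho h3
    have h7 : (ρ : ℝ) + o = 3 * t := by exact_mod_cast hsum
    have h8 : (ρ : ℝ) ≤ 5 * l := by exact_mod_cast h5
    have h9 : (3 : ℝ) ≤ l := by exact_mod_cast h3
    have a1 := mul_le_mul_of_nonneg_left h8 (by linarith : (0:ℝ) ≤ θ / 2)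
    have a2 := mul_le_mul_of_nonneg_left (by linarith : (ρ : ℝ) ≤ 3 * t - s + l)
      (by linarith : (0:ℝ) ≤ θ / 2)
    have a3 := mul_le_mul_of_nonneg_left hs' (by linarith : (0:ℝ) ≤ 1 + θ / 2)
    have a4 : 0 ≤ (1 - θ) * (l - 3) := mul_nonneg (by linarith) (by linarith)
    nlinarith [a1, a2, a3, a4]

/-- **leaf lemma** -/
theorem leaf_lemma15 (hG : G.Geo4 al kp U) (h1 : ∀ x ∈ iJ G, gc G al x ≤ 1) {θ y : ℝ}
    (hθ : 0 ≤ θ) (hθ1 : θ ≤ 1) (hy : y ≤ 3 * θ - 2) {K : (cg G).ConnectedComponent}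
    (hL : (Lv G K).Nonempty) :
    wx G θ K + y * (Lv G K).card ≤ θ * ∑ x ∈ Lv G K, ((un G al (sg G x) : ℝ) - 2) := by
  have hsum : ∑ x ∈ Lv G K, rn G x + ∑ x ∈ Lv G K, un G al (sg G x) = 7 * (Lv G K).card := by
    rw [← Finset.sum_add_distrib, Finset.sum_congr rfl fun x hx => leaf_sum15 G hG h1 hx,
      Finset.sum_const, smul_eq_mul, mul_comm]
  have hun : 2 * (Lv G K).card ≤ ∑ x ∈ Lv G K, un G al (sg G x) := by
    rw [mul_comm, ← smul_eq_mul]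
    exact Finset.card_nsmul_le_sum _ _ _ fun x hx => leaf_un15 G hG hx
  have hsub : Lv G K ⊆ kS G K := Finset.filter_subset _ _
  have h3t := sum_rnK62 G hG K
  rw [← Finset.sum_sdiff hsub, add_comm] at h3t
  have hs := card_kS62 G K
  have e : θ * ∑ x ∈ Lv G K, ((un G al (sg G x) : ℝ) - 2) =
      θ * (5 * ((Lv G K).card : ℝ) - ((∑ x ∈ Lv G K, rn G x : ℕ) : ℝ)) := by
    have h7 : ((∑ x ∈ Lv G K, rn G x : ℕ) : ℝ) + ((∑ x ∈ Lv G K, un G al (sg G x) : ℕ) : ℝ) =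
        7 * ((Lv G K).card : ℝ) := by exact_mod_cast hsum
    rw [Finset.sum_sub_distrib, Finset.sum_const, nsmul_eq_mul]
    push_cast at h7 ⊢
    congr 1
    linarith
  rw [e]
  unfold wx
  refine leaf_arith15 hθ hθ1 hy (Finset.card_pos.2 hL) hs (by omega) ?_ ?_ ?_ h3t
  · intro hc
    obtain ⟨x, hx⟩ := Finset.card_eq_one.1 hc
    have hxK : x ∈ Lv G K := by rw [hx]; exact Finset.mem_singleton_self x
    obtain ⟨h2, _⟩ := (mem_Lv15 G).1 hxK
    obtain ⟨h5, h6⟩ := (mem_kS42 G).1 h2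
    rw [hx, Finset.sum_singleton, ← h6]
    exact rn_le_tK63 G hG h5
  · intro hc
    obtain ⟨x, y', hxy, hx⟩ := Finset.card_eq_two.1 hc
    have hxK : x ∈ Lv G K := by rw [hx]; exact Finset.mem_insert_self _ _
    have hyK : y' ∈ Lv G K := by
      rw [hx]; exact Finset.mem_insert_of_mem (Finset.mem_singleton_self _)
    obtain ⟨h2, h3, h4⟩ := (mem_Lv15 G).1 hxK
    obtain ⟨h2', h3', h4'⟩ := (mem_Lv15 G).1 hyK
    obtain ⟨h5, h6⟩ := (mem_kS42 G).1 h2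
    obtain ⟨h5', h6'⟩ := (mem_kS42 G).1 h2'
    rw [hx, Finset.sum_pair hxy, ← h6]
    refine run_two63 G hG h5 h5' (fun hh => hxy ?_) (h6.trans h6'.symm)
    obtain ⟨hS, _⟩ := c1_89 G hG h3 h4 ((mem_Sv62 G).2 ⟨h5, rfl⟩)
    have h7 : y' ∈ Sv G x.2 := (mem_Sv62 G).2 ⟨h5', hh.symm⟩
    rw [hS, Finset.mem_singleton] at h7
    exact h7.symm
  · intro h3
    have ht : 1 ≤ tK G K := by
      have := Finset.card_le_card hsub
      omega
    have h4 : ∀ x ∈ kS G K \ Lv G K, 1 ≤ rn G x := by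
      intro x hx
      obtain ⟨h5, h6⟩ := (mem_kS42 G).1 (Finset.mem_sdiff.1 hx).1
      have h7 := tK_zero54 G hG h5
      rw [h6] at h7
      by_contra hno
      have := h7.2 (by omega)
      omega
    have h5 : (kS G K \ Lv G K).card ≤ ∑ x ∈ kS G K \ Lv G K, rn G x := by
      rw [Finset.card_eq_sum_ones]
      exact Finset.sum_le_sum h4
    rw [Finset.card_sdiff_of_subset hsub] at h5
    omega

/-- the leaves -/
def lfN : Finset V := (inN G).filter (fun v => cv G v = 1)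

theorem mem_lfN15 {v : V} : v ∈ lfN G ↔ v ∈ inN G ∧ cv G v = 1 := by
  unfold lfN
  rw [Finset.mem_filter]

/-- sums over leaf sectors -/
theorem sum_leafs15 (f : V × V → ℝ) :
    ∑ K ∈ Kc G, ∑ x ∈ Lv G K, f x = ∑ v ∈ lfN G, ∑ s ∈ Sv G v, f s := by
  have h1 : ∑ x ∈ (SD G).filter (fun x => x.2 ∈ lfN G), f x =
      ∑ K ∈ Kc G, ∑ x ∈ Lv G K, f x := by
    rw [← Finset.sum_fiberwise_of_maps_to (s := (SD G).filter (fun x => x.2 ∈ lfN G))
      (t := Kc G) (g := ku G) (fun x hx => ku_Kc15 G (Finset.mem_filter.1 hx).1)]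
    refine Finset.sum_congr rfl fun K _ => Finset.sum_congr ?_ fun _ _ => rfl
    ext x
    rw [Finset.mem_filter, Finset.mem_filter, mem_Lv15, mem_kS42, mem_lfN15]
    tauto
  have h2 : ∑ x ∈ (SD G).filter (fun x => x.2 ∈ lfN G), f x =
      ∑ v ∈ lfN G, ∑ s ∈ Sv G v, f s := by
    rw [← Finset.sum_fiberwise_of_maps_to (s := (SD G).filter (fun x => x.2 ∈ lfN G))
      (t := lfN G) (g := Prod.snd) (fun x hx => (Finset.mem_filter.1 hx).2)]
    refine Finset.sum_congr rfl fun v hv => Finset.sum_congr ?_ fun _ _ => rfl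
    ext x
    rw [Finset.mem_filter, Finset.mem_filter, mem_Sv62]
    constructor
    · rintro ⟨⟨h3, _⟩, h4⟩
      exact ⟨h3, h4⟩
    · rintro ⟨h3, h4⟩
      exact ⟨⟨h3, by rw [h4]; exact hv⟩, h4⟩
  rw [← h1, h2]

/-- sums over leaf corners -/
theorem sum_leafc15 (hG : G.Geo4 al kp U) (g : V × V → ℝ) :
    ∑ v ∈ lfN G, ∑ s ∈ Sv G v, g (sg G s) =
      ∑ C ∈ WF G, ∑ x ∈ (G.cJ C).filter (fun x => x.1 ∈ lfN G), g x := by
  have h1 : ∑ v ∈ lfN G, ∑ s ∈ Sv G v, g (sg G s) = ∑ v ∈ lfN G, ∑ c ∈ Bv G v, g c :=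
    Finset.sum_congr rfl fun v hv => sum_sgv62 G hG ((mem_lfN15 G).1 hv).1 g
  have h2 : ∑ v ∈ lfN G, ∑ c ∈ Bv G v, g c = ∑ c ∈ (BC G).filter (fun c => c.1 ∈ lfN G), g c := by
    rw [← Finset.sum_fiberwise_of_maps_to (s := (BC G).filter (fun c => c.1 ∈ lfN G))
      (t := lfN G) (g := Prod.fst) (fun x hx => (Finset.mem_filter.1 hx).2)]
    refine Finset.sum_congr rfl fun v hv => Finset.sum_congr ?_ fun _ _ => rfl
    ext x
    rw [Finset.mem_filter, Finset.mem_filter, mem_Bv62]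
    constructor
    · rintro ⟨h3, h4⟩
      exact ⟨⟨h3, by rw [h4]; exact hv⟩, h4⟩
    · rintro ⟨⟨h3, _⟩, h4⟩
      exact ⟨h3, h4⟩
  rw [h1, h2, Finset.sum_filter, sum_BC15]
  refine Finset.sum_congr rfl fun C _ => ?_
  rw [Finset.sum_filter]

/-- the leaf slack of a black face: what its leaf corners pay, minus its price and its leaves -/
def lsl (al θ : ℝ) (yK : (cg G).ConnectedComponent → ℝ) (K : (cg G).ConnectedComponent) : ℝ :=
  θ * ∑ x ∈ Lv G K, ((un G al (sg G x) : ℝ) - 2) - wx G θ K - yK K * (Lv G K).card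

/-- the leaf slack is nonnegative if the weight is at most `3 θ - 2` -/
theorem lsl_ge15 (hG : G.Geo4 al kp U) (h1 : ∀ x ∈ iJ G, gc G al x ≤ 1) {θ y : ℝ}
    (hθ : 0 ≤ θ) (hθ1 : θ ≤ 1) (hy : y ≤ 3 * θ - 2) (yK : (cg G).ConnectedComponent → ℝ)
    {K : (cg G).ConnectedComponent} (hL : (Lv G K).Nonempty) :
    - (yK K - y) * (Lv G K).card ≤ lsl G al θ yK K := by
  have h := leaf_lemma15 G hG h1 hθ hθ1 hy hL
  unfold lsl
  linarith

/-- **interior assembly**, with the exact surplus `1 - 2 ep` of the leaves -/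
theorem interiory15 (hG : G.Geo4 al kp U) (h1 : ∀ x ∈ iJ G, gc G al x ≤ 1) {θ Λ R : ℝ}
    (hθ : 0 ≤ θ) {yK : (cg G).ConnectedComponent → ℝ}
    (hR : ∑ K ∈ (Kc G).filter (fun K => Lv G K = ∅ ∧ K ∉ Sf G al), wx G θ K -
        ∑ K ∈ (Kc G).filter (fun K => Lv G K ≠ ∅), lsl G al θ yK K -
        2 * ep al * ∑ K ∈ Kc G, yK K * (Lv G K).card -
        ∑ K ∈ (Sf G al).filter (fun K => Lv G K = ∅), rx G al θ K -
        ∑ K ∈ (Sf G al).filter (fun K => Lv G K ≠ ∅), ∑ s ∈ PK G al K,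
          max (2 + 2 * θ - θ * (rn G s : ℝ)) 0 -
        ∑ v ∈ A2 G al, sl G al θ Λ yK v +
        ∑ v ∈ (inN G).filter (fun v => uv G al v = 7 ∧ cv G v ≠ 1), ∑ s ∈ Sv G v,
          yK (ku G s) * Ds G al s +
        ∑ C ∈ WF G, ((4 + 5 * θ) * qa G C - (3 + 4 * θ + Λ) * ka G al C -
          ∑ s ∈ G.cJ C, yK (ku G s) * sp G al s +
          θ * ∑ x ∈ (G.cJ C).filter (fun x => x.1 ∈ lfN G), ((un G al x : ℝ) - 2)) +
        ∑ s ∈ (SD G).filter (fun s => s.2 ∉ inN G), yK (ku G s) * Ds G al s -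
        ∑ s ∈ G.oJ, yK (ku G s) * sp G al s ≤ R) :
    ((inN G).card : ℝ) ≤ Λ * cost G al + R - (3 + 4 * θ) * (gam G al - cor G al) +
      θ * G.oJ.card - 2 - 4 * θ := by
  refine masterx15 G hG hθ (yK := yK) ?_
  -- the points with one unit too much
  have a1 : ∑ v ∈ (inN G).filter (fun v => ¬ 8 ≤ uv G al v), ∑ s ∈ Sv G v,
      yK (ku G s) * Ds G al s = (1 - 2 * ep al) * ∑ K ∈ Kc G, yK K * (Lv G K).card +
        ∑ v ∈ (inN G).filter (fun v => uv G al v = 7 ∧ cv G v ≠ 1), ∑ s ∈ Sv G v,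
          yK (ku G s) * Ds G al s := by
    rw [← Finset.sum_filter_add_sum_filter_not ((inN G).filter (fun v => ¬ 8 ≤ uv G al v))
      (fun v => cv G v = 1), Finset.filter_filter, Finset.filter_filter]
    have e1 : (inN G).filter (fun v => ¬ 8 ≤ uv G al v ∧ cv G v = 1) = lfN G := by
      ext v
      rw [Finset.mem_filter, mem_lfN15]
      constructor
      · rintro ⟨h2, _, h3⟩
        exact ⟨h2, h3⟩
      · rintro ⟨h2, h3⟩
        have := leaf_uv39 G hG h1 h2 h3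
        exact ⟨h2, by omega, h3⟩
    have e2 : (inN G).filter (fun v => ¬ 8 ≤ uv G al v ∧ ¬ cv G v = 1) =
        (inN G).filter (fun v => uv G al v = 7 ∧ cv G v ≠ 1) := by
      refine Finset.filter_congr fun v hv => ?_
      have := uv_ge89 G hG hv
      constructor
      · rintro ⟨h2, h3⟩
        exact ⟨by omega, h3⟩
      · rintro ⟨h2, h3⟩
        exact ⟨by omega, h3⟩
    rw [e1, e2]
    congr 1
    have e3 : ∑ K ∈ Kc G, yK K * (Lv G K).card = ∑ K ∈ Kc G, ∑ x ∈ Lv G K, yK (ku G x) := by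
      refine Finset.sum_congr rfl fun K _ => ?_
      rw [Finset.sum_congr rfl fun x hx => by
        rw [((mem_kS42 G).1 ((mem_Lv15 G).1 hx).1).2], Finset.sum_const, nsmul_eq_mul, mul_comm]
    rw [e3, sum_leafs15 G (fun x => yK (ku G x)), Finset.mul_sum]
    refine Finset.sum_congr rfl fun v hv => ?_
    rw [Finset.mul_sum]
    refine Finset.sum_congr rfl fun s hs => ?_
    obtain ⟨h2, h3⟩ := (mem_lfN15 G).1 hv
    obtain ⟨h4, h5⟩ := (mem_Sv62 G).1 hs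
    have h6 := Ds_one89 G hG h2 h4 h5 h3
    have h7 := leaf_uv39 G hG h1 h2 h3
    rw [kv_eq89, h7] at h6
    rw [h6]
    push_cast
    ring
  -- the black faces
  have hSf : (Kc G).filter (fun K => K ∈ Sf G al) = Sf G al := by
    ext K
    rw [Finset.mem_filter]
    refine ⟨fun h => h.2, fun h => ⟨?_, h⟩⟩
    unfold Sf at h
    exact (Finset.mem_filter.1 h).1
  have b1 : ∑ K ∈ (Kc G).filter (fun K => K ∉ Sf G al), wx G θ K - ∑ K ∈ Sf G al, rx G al θ K =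
      ∑ K ∈ Kc G, wx G θ K - ∑ K ∈ Sf G al, ∑ s ∈ PK G al K,
        max (2 + 2 * θ - θ * (rn G s : ℝ)) 0 := by
    rw [← Finset.sum_filter_add_sum_filter_not (Kc G) (fun K => K ∈ Sf G al) (wx G θ), hSf]
    unfold rx
    rw [Finset.sum_sub_distrib]
    ring
  have b2 : ∑ K ∈ Sf G al, ∑ s ∈ PK G al K, max (2 + 2 * θ - θ * (rn G s : ℝ)) 0 =
      ∑ K ∈ (Sf G al).filter (fun K => Lv G K = ∅), (rx G al θ K + wx G θ K) +
      ∑ K ∈ (Sf G al).filter (fun K => Lv G K ≠ ∅), ∑ s ∈ PK G al K,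
        max (2 + 2 * θ - θ * (rn G s : ℝ)) 0 := by
    rw [← Finset.sum_filter_add_sum_filter_not (Sf G al) (fun K => Lv G K = ∅)]
    congr 1
    refine Finset.sum_congr rfl fun K _ => ?_
    unfold rx
    ring
  have b3 : ∑ K ∈ Kc G, wx G θ K =
      ∑ K ∈ (Kc G).filter (fun K => Lv G K = ∅ ∧ K ∉ Sf G al), wx G θ K +
      ∑ K ∈ (Sf G al).filter (fun K => Lv G K = ∅), wx G θ K +
      ∑ K ∈ (Kc G).filter (fun K => Lv G K ≠ ∅), wx G θ K := by
    rw [← Finset.sum_filter_add_sum_filter_not (Kc G) (fun K => Lv G K = ∅)]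
    congr 1
    rw [← Finset.sum_filter_add_sum_filter_not ((Kc G).filter (fun K => Lv G K = ∅))
      (fun K => K ∈ Sf G al), Finset.filter_filter, Finset.filter_filter, add_comm]
    congr 1
    refine Finset.sum_congr ?_ fun _ _ => rfl
    rw [← hSf, Finset.filter_filter]
    refine Finset.filter_congr fun K _ => ?_
    rw [hSf]
    exact and_comm
  have b4 : ∑ K ∈ (Kc G).filter (fun K => Lv G K ≠ ∅), (wx G θ K + yK K * (Lv G K).card) =
      - ∑ K ∈ (Kc G).filter (fun K => Lv G K ≠ ∅), lsl G al θ yK K +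
        θ * ∑ C ∈ WF G, ∑ x ∈ (G.cJ C).filter (fun x => x.1 ∈ lfN G), ((un G al x : ℝ) - 2) := by
    have c1 : ∑ K ∈ Kc G, ∑ x ∈ Lv G K, ((un G al (sg G x) : ℝ) - 2) =
        ∑ C ∈ WF G, ∑ x ∈ (G.cJ C).filter (fun x => x.1 ∈ lfN G), ((un G al x : ℝ) - 2) := by
      rw [sum_leafs15 G (fun x => (un G al (sg G x) : ℝ) - 2)]
      exact sum_leafc15 G hG (fun x => (un G al x : ℝ) - 2)
    have c2 : ∑ K ∈ (Kc G).filter (fun K => Lv G K ≠ ∅),
        ∑ x ∈ Lv G K, ((un G al (sg G x) : ℝ) - 2) =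
        ∑ K ∈ Kc G, ∑ x ∈ Lv G K, ((un G al (sg G x) : ℝ) - 2) := by
      refine Finset.sum_filter_of_ne fun K _ h h2 => h ?_
      rw [h2, Finset.sum_empty]
    rw [← c1, ← c2, Finset.mul_sum, ← Finset.sum_neg_distrib, ← Finset.sum_add_distrib]
    refine Finset.sum_congr rfl fun K hK => ?_
    unfold lsl
    ring
  have b5 : ∑ K ∈ (Kc G).filter (fun K => Lv G K ≠ ∅), yK K * (Lv G K).card =
      ∑ K ∈ Kc G, yK K * (Lv G K).card := by
    refine Finset.sum_filter_of_ne fun K _ h h2 => h ?_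
    rw [h2, Finset.card_empty, Nat.cast_zero, mul_zero]
  rw [Finset.sum_add_distrib, b5] at b4
  rw [Finset.sum_add_distrib] at b2
  have b6 : ∑ C ∈ WF G, ((4 + 5 * θ) * qa G C - (3 + 4 * θ + Λ) * ka G al C -
      ∑ s ∈ G.cJ C, yK (ku G s) * sp G al s +
      θ * ∑ x ∈ (G.cJ C).filter (fun x => x.1 ∈ lfN G), ((un G al x : ℝ) - 2)) =
      ∑ C ∈ WF G, ((4 + 5 * θ) * qa G C - (3 + 4 * θ + Λ) * ka G al C -
        ∑ s ∈ G.cJ C, yK (ku G s) * sp G al s) +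
      θ * ∑ C ∈ WF G, ∑ x ∈ (G.cJ C).filter (fun x => x.1 ∈ lfN G), ((un G al x : ℝ) - 2) := by
    rw [Finset.sum_add_distrib, Finset.mul_sum]
  rw [b6] at hR
  rw [b1, b2]
  linarith

/-- **interior assembly**, exact: the leaves are charged to their white corners, the slack is kept -/
theorem interiorx15 (hG : G.Geo4 al kp U) (h1 : ∀ x ∈ iJ G, gc G al x ≤ 1) {θ Λ R : ℝ}
    (hθ : 0 ≤ θ) {yK : (cg G).ConnectedComponent → ℝ} (hyK : ∀ K ∈ Kc G, 0 ≤ yK K)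
    (hR : ∑ K ∈ (Kc G).filter (fun K => Lv G K = ∅ ∧ K ∉ Sf G al), wx G θ K -
        ∑ K ∈ (Kc G).filter (fun K => Lv G K ≠ ∅), lsl G al θ yK K -
        ∑ K ∈ (Sf G al).filter (fun K => Lv G K = ∅), rx G al θ K -
        ∑ K ∈ (Sf G al).filter (fun K => Lv G K ≠ ∅), ∑ s ∈ PK G al K,
          max (2 + 2 * θ - θ * (rn G s : ℝ)) 0 -
        ∑ v ∈ A2 G al, sl G al θ Λ yK v +
        ∑ v ∈ (inN G).filter (fun v => uv G al v = 7 ∧ cv G v ≠ 1), ∑ s ∈ Sv G v,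
          yK (ku G s) * Ds G al s +
        ∑ C ∈ WF G, ((4 + 5 * θ) * qa G C - (3 + 4 * θ + Λ) * ka G al C -
          ∑ s ∈ G.cJ C, yK (ku G s) * sp G al s +
          θ * ∑ x ∈ (G.cJ C).filter (fun x => x.1 ∈ lfN G), ((un G al x : ℝ) - 2)) +
        ∑ s ∈ (SD G).filter (fun s => s.2 ∉ inN G), yK (ku G s) * Ds G al s -
        ∑ s ∈ G.oJ, yK (ku G s) * sp G al s ≤ R) :
    ((inN G).card : ℝ) ≤ Λ * cost G al + R - (3 + 4 * θ) * (gam G al - cor G al) +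
      θ * G.oJ.card - 2 - 4 * θ := by
  refine interiory15 G hG h1 hθ (yK := yK) ?_
  have h2 : 0 ≤ ∑ K ∈ Kc G, yK K * (Lv G K).card :=
    Finset.sum_nonneg fun K hK => mul_nonneg (hyK K hK) (Nat.cast_nonneg _)
  have h3 : 0 ≤ 2 * ep al * ∑ K ∈ Kc G, yK K * (Lv G K).card :=
    mul_nonneg (by linarith [ep_pos89 G hG]) h2
  linarith

/-- **interior assembly**: the leaves are paid by their white corners -/
theorem interior15 (hG : G.Geo4 al kp U) (h1 : ∀ x ∈ iJ G, gc G al x ≤ 1) {θ y Λ R : ℝ}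
    (hθ : 0 ≤ θ) (hθ1 : θ ≤ 1) (hy : y ≤ 3 * θ - 2) {yK : (cg G).ConnectedComponent → ℝ}
    (hyK : ∀ K ∈ Kc G, 0 ≤ yK K)
    (hR : ∑ K ∈ (Kc G).filter (fun K => Lv G K = ∅ ∧ K ∉ Sf G al), wx G θ K +
        ∑ K ∈ (Kc G).filter (fun K => Lv G K ≠ ∅), (yK K - y) * (Lv G K).card -
        ∑ K ∈ (Sf G al).filter (fun K => Lv G K = ∅), rx G al θ K -
        ∑ K ∈ (Sf G al).filter (fun K => Lv G K ≠ ∅), ∑ s ∈ PK G al K,
          max (2 + 2 * θ - θ * (rn G s : ℝ)) 0 -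
        ∑ v ∈ A2 G al, sl G al θ Λ yK v +
        ∑ v ∈ (inN G).filter (fun v => uv G al v = 7 ∧ cv G v ≠ 1), ∑ s ∈ Sv G v,
          yK (ku G s) * Ds G al s +
        ∑ C ∈ WF G, ((4 + 5 * θ) * qa G C - (3 + 4 * θ + Λ) * ka G al C -
          ∑ s ∈ G.cJ C, yK (ku G s) * sp G al s +
          θ * ∑ x ∈ (G.cJ C).filter (fun x => x.1 ∈ lfN G), ((un G al x : ℝ) - 2)) +
        ∑ s ∈ (SD G).filter (fun s => s.2 ∉ inN G), yK (ku G s) * Ds G al s -
        ∑ s ∈ G.oJ, yK (ku G s) * sp G al s ≤ R) :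
    ((inN G).card : ℝ) ≤ Λ * cost G al + R - (3 + 4 * θ) * (gam G al - cor G al) +
      θ * G.oJ.card - 2 - 4 * θ := by
  refine interiorx15 G hG h1 hθ hyK ?_
  have h2 : ∑ K ∈ (Kc G).filter (fun K => Lv G K ≠ ∅), (-(yK K - y) * ((Lv G K).card : ℝ)) ≤
      ∑ K ∈ (Kc G).filter (fun K => Lv G K ≠ ∅), lsl G al θ yK K :=
    Finset.sum_le_sum fun K hK => lsl_ge15 G hG h1 hθ hθ1 hy yK
      (Finset.nonempty_iff_ne_empty.2 (Finset.mem_filter.1 hK).2)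
  have h3 : ∑ K ∈ (Kc G).filter (fun K => Lv G K ≠ ∅), (-(yK K - y) * ((Lv G K).card : ℝ)) =
      - ∑ K ∈ (Kc G).filter (fun K => Lv G K ≠ ∅), (yK K - y) * ((Lv G K).card : ℝ) := by
    rw [← Finset.sum_neg_distrib]
    exact Finset.sum_congr rfl fun K _ => by ring
  linarith

end

end Pool.Agent.PEN.E5
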