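import Pool.Agent.E5.Us14b

/-! # PENNY, all small diameters: the assembly with boundary

Black faces that touch the boundary and have no inner server and no weak side are paid by the gaps
at outer points, black faces without white side by the repeated boundary points. -/

set_option autoImplicit false

namespace Pool.Agent.PEN.E5

open Classical UpperHalfPlane
open Pool.Agent.PEN.Cl

noncomputable section

variable {V : Type} (G : Tg V) {al : ℝ} {kp : V → V → ℝ} {U : ℕ → ℝ}

/-- all sides are outer darts -/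
def ao14 (K : (cg G).ConnectedComponent) : Prop := ∀ x ∈ kS G K, x ∈ G.oJ

/-- the ears: visits with at most one contact triangle -/
def er14 (K : (cg G).ConnectedComponent) : Finset (V × V) := (kS G K).filter (fun x => rn G x ≤ 1)

theorem tt_of_rn14 {x : V × V} (h : 1 ≤ rn G x) : tt G (x.2, x.1) := by
  by_contra hno
  have hN : HasN G x.2 x.1 := ⟨0, hno⟩
  have h0 : Nat.find hN = 0 := Nat.le_zero.1 (Nat.find_min' hN hno)
  unfold rn at h
  rw [dif_pos hN, h0] at h
  omega

theorem rn_le_one14 {x : V × V} (h : ¬ tt G (x.2, G.ap x.2 x.1)) : rn G x ≤ 1 := by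
  have hN : HasN G x.2 x.1 := ⟨1, h⟩
  unfold rn
  rw [dif_pos hN]
  exact Nat.find_min' hN h

theorem ears14 (K : (cg G).ConnectedComponent) :
    (kS G K).card ≤ tK G K + (er14 G K).card := by
  have h1 := Finset.card_filter_add_card_filter_not (s := kS G K) (fun x => rn G x ≤ 1)
  have h2 : ((kS G K).filter (fun x => ¬ rn G x ≤ 1)).card ≤ tK G K := by
    unfold tK
    refine Finset.card_le_card_of_injOn (fun x => G.tri (x.2, x.1)) ?_ ?_
    · intro x hx
      rw [Finset.mem_coe, Finset.mem_filter] at hx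
      obtain ⟨hx1, hx2⟩ := hx
      obtain ⟨hx3, hx4⟩ := (mem_kS42 G).1 hx1
      have h3 := tt_of_rn14 G (x := x) (by omega)
      refine Finset.mem_coe.2 (Finset.mem_image_of_mem _ ((mem_kT42 G).2 ⟨h3, ?_⟩))
      rw [ku_swap42 G ((mem_SD42 G).1 hx3).1, hx4]
    · rintro ⟨c, v⟩ hx ⟨c', v'⟩ hx' he
      rw [Finset.mem_coe, Finset.mem_filter] at hx hx'
      obtain ⟨hx1, hx2⟩ := hx
      obtain ⟨hx1', hx2'⟩ := hx'
      have t1 : tt G (v, c) := tt_of_rn14 G (x := (c, v)) (by omega)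
      have t2 : tt G (v', c') := tt_of_rn14 G (x := (c', v')) (by omega)
      have s1 := ((mem_SD42 G).1 ((mem_kS42 G).1 hx1).1).2
      have s2 := ((mem_SD42 G).1 ((mem_kS42 G).1 hx1').1).2
      rcases (tri_eq_iff G t1.1 t2.1).1 he with h | h | h
      · obtain ⟨rfl, rfl⟩ := Prod.mk.inj h
        rfl
      · exfalso
        obtain ⟨h3, h4⟩ := Prod.mk.inj h
        dsimp only at h3 h4
        subst h3 h4
        refine hx2' (rn_le_one14 G ?_)
        dsimp only
        rw [G.ap3 _ _ t1.1]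
        exact s1
      · exfalso
        obtain ⟨h3, h4⟩ := Prod.mk.inj h
        dsimp only at h3 h4
        subst h3 h4
        exact hx2 (rn_le_one14 G s2)
  unfold er14
  omega

/-- the ears of all black faces without white side -/
theorem ears_total14 (hG : G.Geo4 al kp U) :
    ∑ K ∈ (Kc G).filter (ao14 G), (er14 G K).card + 2 * G.P.card ≤
      2 * G.oJ.card + 2 * (inN G).card := by
  have hE : ∑ K ∈ (Kc G).filter (ao14 G), (er14 G K).card =
      ((SD G).filter (fun x => ao14 G (ku G x) ∧ rn G x ≤ 1)).card := by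
    rw [Finset.card_eq_sum_card_fiberwise (f := ku G) (t := (Kc G).filter (ao14 G))]
    · refine Finset.sum_congr rfl fun K hK => ?_
      congr 1
      unfold er14 kS
      rw [Finset.filter_filter, Finset.filter_filter]
      refine Finset.filter_congr fun x _ => ?_
      constructor
      · rintro ⟨h1, h2⟩
        exact ⟨⟨by rw [h1]; exact (Finset.mem_filter.1 hK).2, h2⟩, h1⟩
      · rintro ⟨⟨_, h2⟩, h3⟩
        exact ⟨h3, h2⟩
    · intro x hx
      rw [Finset.mem_coe, Finset.mem_filter] at hx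
      exact Finset.mem_coe.2 (Finset.mem_filter.2
        ⟨Finset.mem_image_of_mem _ ((mem_SD42 G).1 hx.1).1, hx.2.1⟩)
  rw [hE]
  have hP : G.P.card ≤ (G.P \ inN G).card + (inN G).card := Finset.card_le_card_sdiff_add_card
  have hPo : ∀ v ∈ G.P \ inN G, ∃ a, (v, a) ∈ G.oJ := by
    intro v hv
    unfold inN at hv
    rw [Finset.mem_sdiff, Finset.mem_filter, not_and, not_not] at hv
    exact hv.2 hv.1
  have hmem : ∀ v a, (v, a) ∈ G.oJ → v ∈ G.P \ inN G := by
    intro v a h
    unfold inN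
    rw [Finset.mem_sdiff, Finset.mem_filter, not_and, not_not]
    exact ⟨G.mem _ _ ((mem_oJ66 G).1 h).1, fun _ => ⟨a, h⟩⟩
  have hnx : ∀ x ∈ (SD G).filter (fun x => ao14 G (ku G x) ∧ rn G x ≤ 1),
      nx G x ∈ G.oJ ∧ x ∈ G.oJ := by
    intro x hx
    rw [Finset.mem_filter] at hx
    have h1 : x ∈ kS G (ku G x) := (mem_kS42 G).2 ⟨hx.1, rfl⟩
    exact ⟨hx.2.1 _ (nx_kS89 G hG h1), hx.2.1 _ h1⟩
  have h1 : ((SD G).filter (fun x => ao14 G (ku G x) ∧ rn G x ≤ 1)).card =
      ∑ v ∈ G.P \ inN G, (((SD G).filter (fun x => ao14 G (ku G x) ∧ rn G x ≤ 1)).filter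
        (fun x => x.2 = v)).card := by
    refine Finset.card_eq_sum_card_fiberwise (f := Prod.snd) fun x hx => ?_
    exact Finset.mem_coe.2 (hmem _ _ (hnx x (Finset.mem_coe.1 hx)).1)
  have h2 : G.oJ.card = ∑ v ∈ G.P \ inN G, (G.oJ.filter (fun x => x.1 = v)).card := by
    refine Finset.card_eq_sum_card_fiberwise (f := Prod.fst) fun x hx => ?_
    exact Finset.mem_coe.2 (hmem x.1 x.2 (Finset.mem_coe.1 hx))
  have h3 : ∑ v ∈ G.P \ inN G, ((((SD G).filter (fun x => ao14 G (ku G x) ∧ rn G x ≤ 1)).filter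
        (fun x => x.2 = v)).card + 2) ≤
      ∑ v ∈ G.P \ inN G, 2 * (G.oJ.filter (fun x => x.1 = v)).card := by
    refine Finset.sum_le_sum fun v hv => ?_
    have h4 : 1 ≤ (G.oJ.filter (fun x => x.1 = v)).card := by
      obtain ⟨a, ha⟩ := hPo v hv
      rw [Nat.one_le_iff_ne_zero, Ne, Finset.card_eq_zero]
      intro h0
      have : (v, a) ∈ G.oJ.filter (fun x => x.1 = v) := Finset.mem_filter.2 ⟨ha, rfl⟩
      rw [h0] at this
      exact Finset.notMem_empty _ this
    have h5 : (((SD G).filter (fun x => ao14 G (ku G x) ∧ rn G x ≤ 1)).filter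
        (fun x => x.2 = v)).card ≤ (G.oJ.filter (fun x => x.1 = v)).card := by
      refine Finset.card_le_card_of_injOn (nx G) ?_ ?_
      · intro x hx
        rw [Finset.mem_coe, Finset.mem_filter] at hx
        exact Finset.mem_coe.2 (Finset.mem_filter.2 ⟨(hnx x hx.1).1, hx.2⟩)
      · intro x hx y hy h
        rw [Finset.mem_coe, Finset.mem_filter, Finset.mem_filter] at hx hy
        exact nx_inj42 G hG hx.1.1 hy.1.1 h
    by_cases hne : (((SD G).filter (fun x => ao14 G (ku G x) ∧ rn G x ≤ 1)).filter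
        (fun x => x.2 = v)).Nonempty
    · obtain ⟨⟨c, v'⟩, hx⟩ := hne
      obtain ⟨hx1, hx2⟩ := Finset.mem_filter.1 hx
      dsimp only at hx2
      subst hx2
      obtain ⟨h6, h7⟩ := hnx _ hx1
      have h8 := ear_two14 G hG h7 h6 (Finset.mem_filter.1 hx1).2.2
      omega
    · rw [Finset.not_nonempty_iff_eq_empty] at hne
      rw [hne, Finset.card_empty]
      omega
  rw [Finset.sum_add_distrib, ← h1, Finset.sum_const, smul_eq_mul, ← Finset.mul_sum, ← h2] at h3
  omega

/-- **assembly with boundary**: the black faces in `F` have no white side, or use at least one unit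
of gaps at outer points; all other black faces have to be paid inside -/
theorem bd_assembly14 (hG : G.Geo4 al kp U) {θ Λ R : ℝ} (hθ : 0 ≤ θ)
    (F : Finset (cg G).ConnectedComponent) (hF : F ⊆ Kc G)
    (hF1 : ∀ K ∈ F, ao14 G K ∨ 1 ≤ uK14 G al K)
    (hdis : ∑ K ∈ Kc G \ F, (2 + 2 * θ - θ * tK G K) + (4 + 5 * θ) * ∑ C ∈ WF G, qa G C ≤
      (3 + 4 * θ + Λ) * cost G al + R) :
    ((inN G).card : ℝ) ≤ Λ * cost G al + R + gam G al + (3 + 4 * θ) * cor G al +
      θ * G.oJ.card - 2 - 4 * θ - (2 + 2 * θ) * ∑ K ∈ Kc G \ F, uK14 G al K -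
      θ * ∑ K ∈ F, (tK G K : ℝ) - 2 * θ * (G.oJ.card + (inN G).card - G.P.card) -
      (1 + 2 * θ) * (2 * G.P.card - 2 - G.oJ.card - G.iD.card / 3) := by
  have f3 := F3_89 G hG
  have g1 : ((SD G).card : ℝ) = (BC G).card + G.oJ.card := by exact_mod_cast SD_card89 G
  have g2 : ((iJ G).card : ℝ) = (BC G).card + (TT G).card := by exact_mod_cast iJ_card89 G
  have g3 : (G.iD.card : ℝ) = (iJ G).card + G.iI.card := by exact_mod_cast iD_card89 G
  have g4 := TT_card89 G
  have g5 := Q_sum89 G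
  -- the sides, black face by black face
  have s1 : ((SD G).card : ℝ) = ∑ K ∈ Kc G, ((kS G K).card : ℝ) := by
    rw [← Nat.cast_sum]
    congr 1
    refine Finset.card_eq_sum_card_fiberwise (f := ku G) fun x hx => ?_
    exact Finset.mem_coe.2 (Finset.mem_image_of_mem _ ((mem_SD42 G).1 (Finset.mem_coe.1 hx)).1)
  have k1 : ∀ K, ((kS G K).card : ℝ) ≤ tK G K + 2 := by
    intro K
    have h := conn42 G K
    have h2 := card_kT42 G K
    have h3 : (kS G K).card ≤ tK G K + 2 := by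
      unfold tK
      omega
    exact_mod_cast h3
  -- the total
  have key : ∑ K ∈ Kc G, ((1 + θ) * ((kS G K).card - tK G K) - θ * tK G K) ≤
      ∑ K ∈ Kc G \ F, (2 + 2 * θ - θ * tK G K) + ((2 + 2 * θ) * ∑ K ∈ F, uK14 G al K -
        θ * ∑ K ∈ F, (tK G K : ℝ)) +
        (1 + θ) * (2 * (G.oJ.card + (inN G).card - G.P.card)) := by
    rw [← Finset.sum_sdiff hF]
    have a1 : ∑ K ∈ Kc G \ F, ((1 + θ) * (((kS G K).card : ℝ) - tK G K) - θ * tK G K) ≤
        ∑ K ∈ Kc G \ F, (2 + 2 * θ - θ * tK G K) := by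
      refine Finset.sum_le_sum fun K _ => ?_
      have := k1 K
      nlinarith
    have a2 : ∑ K ∈ F, ((1 + θ) * (((kS G K).card : ℝ) - tK G K) - θ * tK G K) ≤
        ((2 + 2 * θ) * ∑ K ∈ F, uK14 G al K - θ * ∑ K ∈ F, (tK G K : ℝ)) +
          (1 + θ) * ∑ K ∈ (Kc G).filter (ao14 G), ((er14 G K).card : ℝ) := by
      have b1 : ∑ K ∈ F, ((1 + θ) * (((kS G K).card : ℝ) - tK G K) - θ * tK G K) ≤
          ∑ K ∈ F, ((2 + 2 * θ) * uK14 G al K - θ * (tK G K : ℝ) +
            (1 + θ) * (if ao14 G K then ((er14 G K).card : ℝ) else 0)) := by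
        refine Finset.sum_le_sum fun K hK => ?_
        have c1 := uK_nonneg14 G hG K
        have c2 : (0 : ℝ) ≤ tK G K := Nat.cast_nonneg _
        have c3 : 0 ≤ θ * tK G K := mul_nonneg hθ c2
        by_cases h : ao14 G K
        · rw [if_pos h]
          have c4 : ((kS G K).card : ℝ) ≤ tK G K + (er14 G K).card := by
            exact_mod_cast ears14 G K
          have c5 : (1 + θ) * (((kS G K).card : ℝ) - tK G K) ≤ (1 + θ) * (er14 G K).card :=
            mul_le_mul_of_nonneg_left (by linarith) (by linarith)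
          have c6 : 0 ≤ (2 + 2 * θ) * uK14 G al K := mul_nonneg (by linarith) c1
          linarith
        · rw [if_neg h, mul_zero, add_zero]
          have c4 : 1 ≤ uK14 G al K := (hF1 K hK).resolve_left h
          have c5 : (2 + 2 * θ) * 1 ≤ (2 + 2 * θ) * uK14 G al K :=
            mul_le_mul_of_nonneg_left c4 (by linarith)
          have c6 : (1 + θ) * (((kS G K).card : ℝ) - tK G K) ≤ (1 + θ) * 2 :=
            mul_le_mul_of_nonneg_left (by linarith [k1 K]) (by linarith)
          linarith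
      refine b1.trans ?_
      rw [Finset.sum_add_distrib, Finset.sum_sub_distrib, ← Finset.mul_sum, ← Finset.mul_sum,
        ← Finset.mul_sum]
      have b2 : ∑ K ∈ F, (if ao14 G K then ((er14 G K).card : ℝ) else 0) ≤
          ∑ K ∈ (Kc G).filter (ao14 G), ((er14 G K).card : ℝ) := by
        rw [Finset.sum_filter]
        refine Finset.sum_le_sum_of_subset_of_nonneg hF fun K _ _ => ?_
        split_ifs
        · exact Nat.cast_nonneg _
        · exact le_rfl
      have b3 := mul_le_mul_of_nonneg_left b2 (by linarith : (0:ℝ) ≤ 1 + θ)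
      linarith
    have a3 : ∑ K ∈ (Kc G).filter (ao14 G), ((er14 G K).card : ℝ) ≤
        2 * (G.oJ.card + (inN G).card - G.P.card) := by
      have h := ears_total14 G hG
      have h' : ((∑ K ∈ (Kc G).filter (ao14 G), (er14 G K).card : ℕ) : ℝ) + 2 * G.P.card ≤
          2 * G.oJ.card + 2 * (inN G).card := by exact_mod_cast h
      rw [Nat.cast_sum] at h'
      linarith
    have a4 := mul_le_mul_of_nonneg_left a3 (by linarith : (0:ℝ) ≤ 1 + θ)
    linarith
  have e1 : ∑ K ∈ Kc G, ((1 + θ) * (((kS G K).card : ℝ) - tK G K) - θ * tK G K) =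
      (1 + θ) * (SD G).card - (1 + 2 * θ) * ((TT G).card / 3) := by
    have h : ∀ K ∈ Kc G, (1 + θ) * (((kS G K).card : ℝ) - tK G K) - θ * tK G K =
        (1 + θ) * ((kS G K).card : ℝ) - (1 + 2 * θ) * (tK G K : ℝ) := fun K _ => by ring
    rw [Finset.sum_congr rfl h, Finset.sum_sub_distrib, ← Finset.mul_sum, ← Finset.mul_sum,
      ← s1, g4]
    ring
  have e2 : ∑ K ∈ F, uK14 G al K = 2 * gam G al - ∑ K ∈ Kc G \ F, uK14 G al K := by
    have h := Finset.sum_sdiff hF (f := fun K => uK14 G al K)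
    rw [sum_uK14 G hG] at h
    linarith
  rw [e1, e2] at key
  -- linear arithmetic
  have hn : ((inN G).card : ℝ) = (1 + θ) * (SD G).card - (1 + 2 * θ) * ((TT G).card / 3) -
      (3 + 4 * θ) * cost G al + (4 + 5 * θ) * ∑ C ∈ WF G, qa G C -
      (3 + 4 * θ) * (gam G al - cor G al) + θ * G.oJ.card - 2 - 4 * θ -
      (1 + 2 * θ) * ((2 * G.P.card - 2 - G.oJ.card - G.iD.card / 3) +
        2 * (G.oJ.card + (inN G).card - G.P.card)) := by
    rw [g5, g1]
    have h1 : ((BC G).card : ℝ) = G.iD.card - G.iI.card - (TT G).card := by linarith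
    rw [h1, f3]
    ring
  linarith

/-- **assembly with boundary**, standard form: only the black faces with a white side and with an
inner sector of nonnegative surplus or a weak side have to be paid -/
theorem bd_assembly14' (hG : G.Geo4 al kp U) {θ Λ R : ℝ} (hθ : 0 ≤ θ)
    (hdis : ∑ K ∈ (Kc G).filter (fun K => (∃ x ∈ kS G K, x.2 ∈ inN G ∧ 0 ≤ Ds G al x) ∨
        ∃ x ∈ kS G K, x ∈ BC G ∧ sp G al x < 0), (2 + 2 * θ - θ * tK G K) +
      (4 + 5 * θ) * ∑ C ∈ WF G, qa G C ≤ (3 + 4 * θ + Λ) * cost G al + R) :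
    ((inN G).card : ℝ) ≤ Λ * cost G al + R + gam G al + (3 + 4 * θ) * cor G al +
      θ * G.oJ.card - 2 - 4 * θ -
      θ * ∑ K ∈ (Kc G).filter (fun K => ¬ ((∃ x ∈ kS G K, x.2 ∈ inN G ∧ 0 ≤ Ds G al x) ∨
        ∃ x ∈ kS G K, x ∈ BC G ∧ sp G al x < 0)), (tK G K : ℝ) -
      2 * θ * (G.oJ.card + (inN G).card - G.P.card) -
      (1 + 2 * θ) * (2 * G.P.card - 2 - G.oJ.card - G.iD.card / 3) := by
  have hsub : (Kc G).filter (fun K => ¬ ((∃ x ∈ kS G K, x.2 ∈ inN G ∧ 0 ≤ Ds G al x) ∨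
        ∃ x ∈ kS G K, x ∈ BC G ∧ sp G al x < 0)) ⊆ Kc G := Finset.filter_subset _ _
  have hsd : Kc G \ (Kc G).filter (fun K => ¬ ((∃ x ∈ kS G K, x.2 ∈ inN G ∧ 0 ≤ Ds G al x) ∨
        ∃ x ∈ kS G K, x ∈ BC G ∧ sp G al x < 0)) =
      (Kc G).filter (fun K => (∃ x ∈ kS G K, x.2 ∈ inN G ∧ 0 ≤ Ds G al x) ∨
        ∃ x ∈ kS G K, x ∈ BC G ∧ sp G al x < 0) := by
    ext K
    rw [Finset.mem_sdiff, Finset.mem_filter, Finset.mem_filter]
    constructor
    · rintro ⟨h1, h2⟩
      exact ⟨h1, by_contra fun h3 => h2 ⟨h1, h3⟩⟩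
    · rintro ⟨h1, h2⟩
      exact ⟨h1, fun h3 => h3.2 h2⟩
  have h := bd_assembly14 G hG hθ _ hsub (R := R) (Λ := Λ) ?_ ?_
  · rw [hsd] at h
    have h2 : 0 ≤ (2 + 2 * θ) * ∑ K ∈ (Kc G).filter (fun K =>
        (∃ x ∈ kS G K, x.2 ∈ inN G ∧ 0 ≤ Ds G al x) ∨
        ∃ x ∈ kS G K, x ∈ BC G ∧ sp G al x < 0), uK14 G al K :=
      mul_nonneg (by linarith) (Finset.sum_nonneg fun K _ => uK_nonneg14 G hG K)
    linarith
  · intro K hK
    obtain ⟨_, hK2⟩ := Finset.mem_filter.1 hK
    by_cases ha : ao14 G K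
    · exact Or.inl ha
    · right
      unfold ao14 at ha
      push Not at ha
      obtain ⟨x, hx, hxo⟩ := ha
      rcases U3_14 G hG K ⟨x, hx, (BC_or14 G (mem_kS89 G hx)).resolve_right hxo⟩ with h | h | h
      · exact absurd (Or.inl h) hK2
      · exact absurd (Or.inr h) hK2
      · have : (1 : ℝ) ≤ oK14 G K := by exact_mod_cast h.1
        linarith [h.2]
  · rw [hsd]
    exact hdis

end

end Pool.Agent.PEN.E5
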