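import Pool.Agent.E5.ML89
import Pool.Agent.E5.In15
import Pool.Agent.E5.Us14c

/-! # PENNY, all small diameters: the price of one black face (`θ = y = 1`)

`wx G 1 K = 2 |kS K| - 3 tK`. The price of a black face and of its leaves is paid by its payers, by its
weak sides, by the gaps at its outer points and by the corners of its leaves. -/

set_option autoImplicit false

namespace Pool.Agent.PEN.E5

open Classical UpperHalfPlane
open Pool.Agent.PEN.Cl

noncomputable section

variable {V : Type} (G : Tg V) {al : ℝ} {kp : V → V → ℝ} {U : ℕ → ℝ}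

theorem Lk_eq89 (K : (cg G).ConnectedComponent) : Lk G K = Lv G K := by
  ext x
  rw [mem_Lk89, mem_Lv15]

theorem wx_one89 (K : (cg G).ConnectedComponent) :
    wx G 1 K = 2 * ((kS G K).card : ℝ) - 3 * tK G K := by
  unfold wx
  ring

theorem wx_le89 (K : (cg G).ConnectedComponent) : wx G 1 K ≤ 4 - (tK G K : ℝ) := by
  have h := wx_le15 G (θ := 1) zero_le_one K
  linarith

/-- the corner payment of a leaf, if there are several leaves -/
def pm (al : ℝ) (y : V × V) : ℝ := max ((un G al y : ℝ) - 3) 0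

theorem pm_nonneg89 (y : V × V) : 0 ≤ pm G al y := le_max_right _ _

theorem pm_run89 (hG : G.Geo4 al kp U) (hT : ∀ x ∈ iJ G, gc G al x ≤ 1)
    {K : (cg G).ConnectedComponent} {x : V × V} (hx : x ∈ Lv G K) :
    pm G al (sg G x) = ((4 - rn G x : ℕ) : ℝ) := by
  have h := leaf_sum15 G hG hT hx
  unfold pm
  rcases Nat.lt_or_ge (rn G x) 4 with h4 | h4
  · have h5 : un G al (sg G x) = 7 - rn G x := by omega
    have h6 : ((un G al (sg G x) : ℕ) : ℝ) = 7 - rn G x := by
      have : (un G al (sg G x) : ℝ) + rn G x = 7 := by exact_mod_cast (by omega : un G al (sg G x) + rn G x = 7)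
      linarith
    have h7 : ((4 - rn G x : ℕ) : ℝ) = 4 - rn G x := by
      rw [Nat.cast_sub h4.le]
      norm_num
    rw [h6, h7, max_eq_left]
    · ring
    · have : (rn G x : ℝ) < 4 := by exact_mod_cast h4
      linarith
  · have h6 : ((un G al (sg G x) : ℕ) : ℝ) ≤ 3 := by
      exact_mod_cast (by omega : un G al (sg G x) ≤ 3)
    rw [max_eq_right (by linarith), Nat.sub_eq_zero_of_le h4]
    norm_num

/-- **several leaves** -/
theorem kmulti89 (hG : G.Geo4 al kp U) (hT : ∀ x ∈ iJ G, gc G al x ≤ 1)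
    (K : (cg G).ConnectedComponent) (hl : 2 ≤ (Lv G K).card) :
    wx G 1 K + (Lv G K).card ≤ ∑ x ∈ Lv G K, pm G al (sg G x) := by
  have h := multi_leaf89 G hG hT K (by rw [Lk_eq89]; exact hl)
  rw [Lk_eq89] at h
  have h2 : (2 * (kS G K).card : ℝ) + (Lv G K).card ≤
      3 * tK G K + ∑ x ∈ Lv G K, ((4 - rn G x : ℕ) : ℝ) := by
    have h3 : ((2 * (kS G K).card + (Lv G K).card : ℕ) : ℝ) ≤
        ((3 * tK G K + ∑ x ∈ Lv G K, (4 - rn G x) : ℕ) : ℝ) := by exact_mod_cast h
    push_cast at h3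
    push_cast
    linarith
  rw [wx_one89, Finset.sum_congr rfl fun x hx => pm_run89 G hG hT hx]
  linarith

/-- **one leaf** -/
theorem ksingle89 (hG : G.Geo4 al kp U) (hT : ∀ x ∈ iJ G, gc G al x ≤ 1)
    {K : (cg G).ConnectedComponent} {x : V × V} (hl : Lv G K = {x}) :
    wx G 1 K + (Lv G K).card ≤ ∑ x ∈ Lv G K, ((un G al (sg G x) : ℝ) - 2) := by
  have hx : x ∈ Lv G K := by rw [hl]; exact Finset.mem_singleton_self x
  have h := leaf_sum15 G hG hT hx
  obtain ⟨h1, h2⟩ := (mem_kS42 G).1 ((mem_Lv15 G).1 hx).1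
  have h3 := rn_le_tK63 G hG h1
  rw [h2] at h3
  have h4 : (rn G x : ℝ) ≤ tK G K := by exact_mod_cast h3
  have h5 : (rn G x : ℝ) + un G al (sg G x) = 7 := by exact_mod_cast h
  have h6 := wx_le89 G K
  rw [hl, Finset.card_singleton, Finset.sum_singleton]
  push_cast
  linarith

/-- leaves with at least three triangles are at most `tK` -/
theorem kcount89 (hG : G.Geo4 al kp U) (hT : ∀ x ∈ iJ G, gc G al x ≤ 1)
    (K : (cg G).ConnectedComponent) :
    ((Lv G K).card : ℝ) ≤ tK G K + ∑ x ∈ Lv G K, pm G al (sg G x) := by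
  have hsub : Lv G K ⊆ kS G K := Finset.filter_subset _ _
  have h1 : ∑ x ∈ Lv G K, rn G x ≤ 3 * tK G K := by
    rw [← sum_rn63 G hG K]
    exact Finset.sum_le_sum_of_subset hsub
  have h2 : 3 * (Lv G K).card ≤ ∑ x ∈ Lv G K, rn G x + 3 * ∑ x ∈ Lv G K, (4 - rn G x) := by
    rw [Finset.card_eq_sum_ones, Finset.mul_sum, Finset.mul_sum, ← Finset.sum_add_distrib]
    refine Finset.sum_le_sum fun x _ => ?_
    omega
  have h3 : (Lv G K).card ≤ tK G K + ∑ x ∈ Lv G K, (4 - rn G x) := by omega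
  rw [Finset.sum_congr rfl fun x hx => pm_run89 G hG hT hx]
  exact_mod_cast h3

/-- **four units are enough for the price of a black face and of its leaves** -/
theorem kfour89 (hG : G.Geo4 al kp U) (hT : ∀ x ∈ iJ G, gc G al x ≤ 1)
    (K : (cg G).ConnectedComponent) :
    wx G 1 K + (Lv G K).card ≤ 4 + ∑ x ∈ Lv G K, pm G al (sg G x) := by
  have h1 := kcount89 G hG hT K
  have h2 := wx_le89 G K
  linarith

/-- **with a payer** -/
theorem kpayer89 (hG : G.Geo4 al kp U) (hT : ∀ x ∈ iJ G, gc G al x ≤ 1)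
    {K : (cg G).ConnectedComponent} (hK : K ∈ Sf G al) :
    wx G 1 K + (Lv G K).card ≤ ∑ s ∈ PK G al K, max (4 - (rn G s : ℝ)) 0 +
      ∑ x ∈ Lv G K, pm G al (sg G x) := by
  obtain ⟨s, hs1, hs2⟩ := (mem_Sf15 G).1 hK
  obtain ⟨hs3, hs4⟩ := (mem_kS42 G).1 hs1
  have hsP : s ∈ PK G al K := Finset.mem_filter.2 ⟨hs2, hs4⟩
  have h0 : max (4 - (rn G s : ℝ)) 0 ≤ ∑ s ∈ PK G al K, max (4 - (rn G s : ℝ)) 0 :=
    Finset.single_le_sum (f := fun s => max (4 - (rn G s : ℝ)) 0)
      (fun i _ => le_max_right _ _) hsP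
  have h00 : 4 - (rn G s : ℝ) ≤ max (4 - (rn G s : ℝ)) 0 := le_max_left _ _
  have h01 : 0 ≤ max (4 - (rn G s : ℝ)) 0 := le_max_right _ _
  have h1 := wx_le89 G K
  rcases Nat.lt_or_ge (Lv G K).card 2 with h2 | h2
  · have hc : (Lv G K).card = 0 ∨ (Lv G K).card = 1 := by omega
    rcases hc with hc | hc
    · have h3 : ∑ x ∈ Lv G K, pm G al (sg G x) = 0 := by
        rw [Finset.card_eq_zero.1 hc, Finset.sum_empty]
      have h4 := rn_le_tK63 G hG hs3
      rw [hs4] at h4
      have h5 : (rn G s : ℝ) ≤ tK G K := by exact_mod_cast h4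
      rw [h3, hc]
      push_cast
      linarith
    · obtain ⟨x, hx⟩ := Finset.card_eq_one.1 hc
      have hxL : x ∈ Lv G K := by rw [hx]; exact Finset.mem_singleton_self x
      obtain ⟨hx1, hx2, hx3⟩ := (mem_Lv15 G).1 hxL
      obtain ⟨hx4, hx5⟩ := (mem_kS42 G).1 hx1
      have hne : s.2 ≠ x.2 := by
        intro he
        obtain ⟨_, _, p3, _⟩ := (mem_Pz15 G).1 hs2
        have p4 := leaf_uv39 G hG hT hx2 hx3
        rw [he, p4] at p3
        omega
      have h4 := run_two63 G hG hs3 hx4 hne (hs4.trans hx5.symm)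
      rw [hs4] at h4
      have h5 : (rn G s : ℝ) + rn G x ≤ tK G K + 2 := by exact_mod_cast h4
      have h6 := pm_run89 G hG hT hxL
      have h7 : (4 : ℝ) ≤ rn G x + ((4 - rn G x : ℕ) : ℝ) := by
        exact_mod_cast (by omega : 4 ≤ rn G x + (4 - rn G x))
      rw [hx, Finset.card_singleton, Finset.sum_singleton, h6]
      push_cast
      linarith
  · have h3 := kmulti89 G hG hT K h2
    linarith

/-- the weak white sides of a black face -/
def WsK (al : ℝ) (K : (cg G).ConnectedComponent) : Finset (V × V) :=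
  (kS G K).filter (fun x => x ∈ BC G ∧ sp G al x < 0)

/-- **all-outer black faces** -/
theorem kao89 {K : (cg G).ConnectedComponent} :
    wx G 1 K ≤ 2 * ((er14 G K).card : ℝ) := by
  have h := ears14 G K
  have h2 : ((kS G K).card : ℝ) ≤ tK G K + (er14 G K).card := by exact_mod_cast h
  have h3 : (0 : ℝ) ≤ tK G K := Nat.cast_nonneg _
  rw [wx_one89]
  linarith

theorem Lv_ao89 (hG : G.Geo4 al kp U) {K : (cg G).ConnectedComponent} (h : ao14 G K) :
    Lv G K = ∅ := by
  rw [Finset.eq_empty_iff_forall_notMem]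
  intro x hx
  obtain ⟨h1, h2, _⟩ := (mem_Lv15 G).1 hx
  have h3 := (BC_head14 G hG ((mem_kS42 G).1 h1).1 h2).1
  have h4 := ((mem_oJ66 G).1 (h x h1)).2.2
  exact h4 ((mem_iJ71 G).1 ((mem_BC89 G).1 h3).1).1

/-- **the price of one black face.** `p` is any corner payment with the listed properties -/
theorem kcost89 (hG : G.Geo4 al kp U) (hT : ∀ x ∈ iJ G, gc G al x ≤ 1)
    {K : (cg G).ConnectedComponent} {p : V × V → ℝ}
    (hp1 : ∀ x ∈ Lv G K, pm G al (sg G x) ≤ p (sg G x))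
    (hp2 : ∀ x, Lv G K = {x} → K ∉ Sf G al → WsK G al K = ∅ → uK14 G al K < 1 →
      (un G al (sg G x) : ℝ) - 2 ≤ p (sg G x)) :
    wx G 1 K + (Lv G K).card ≤ ∑ s ∈ PK G al K, max (4 - (rn G s : ℝ)) 0 +
      4 * (WsK G al K).card + 4 * uK14 G al K +
      2 * (if ao14 G K then ((er14 G K).card : ℝ) else 0) + ∑ x ∈ Lv G K, p (sg G x) := by
  have hpm : ∑ x ∈ Lv G K, pm G al (sg G x) ≤ ∑ x ∈ Lv G K, p (sg G x) :=
    Finset.sum_le_sum hp1
  have hpos : 0 ≤ ∑ x ∈ Lv G K, pm G al (sg G x) :=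
    Finset.sum_nonneg fun x _ => pm_nonneg89 G _
  have hP : 0 ≤ ∑ s ∈ PK G al K, max (4 - (rn G s : ℝ)) 0 :=
    Finset.sum_nonneg fun s _ => le_max_right _ _
  have hW : (0 : ℝ) ≤ (WsK G al K).card := Nat.cast_nonneg _
  have hU := uK_nonneg14 G hG K
  have hE : (0 : ℝ) ≤ if ao14 G K then ((er14 G K).card : ℝ) else 0 := by
    split_ifs
    · exact Nat.cast_nonneg _
    · exact le_rfl
  by_cases h1 : K ∈ Sf G al
  · have := kpayer89 G hG hT h1
    linarith
  by_cases h2 : WsK G al K = ∅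
  swap
  · have h3 : (1 : ℝ) ≤ (WsK G al K).card := by
      exact_mod_cast Finset.card_pos.2 (Finset.nonempty_iff_ne_empty.2 h2)
    have := kfour89 G hG hT K
    linarith
  by_cases h3 : 1 ≤ uK14 G al K
  · have := kfour89 G hG hT K
    linarith
  push Not at h3
  by_cases h4 : ao14 G K
  · have h5 := Lv_ao89 G hG h4
    have h6 := kao89 G (K := K)
    rw [if_pos h4, h5, Finset.sum_empty, Finset.card_empty]
    push_cast
    linarith
  -- there is a white side, so there is a leaf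
  have h5 : ∃ x ∈ kS G K, x ∈ BC G := by
    unfold ao14 at h4
    push Not at h4
    obtain ⟨x, hx, hxo⟩ := h4
    exact ⟨x, hx, (BC_or14 G (mem_kS89 G hx)).resolve_right hxo⟩
  have h6 : (Lv G K).Nonempty := by
    rcases U3_14 G hG K h5 with ⟨x, hx, hx1, hx2⟩ | ⟨x, hx, hx1, hx2⟩ | h
    · rcases pos_sector89 G hG hx1 (mem_kS89 G hx) rfl hx2 with h7 | h7
      · exact ⟨x, (mem_Lv15 G).2 ⟨hx, hx1, h7⟩⟩
      · exact absurd ((mem_Sf15 G).2 ⟨x, hx, (mem_Pz15 G).2 ⟨mem_kS89 G hx, hx1, h7, hx2⟩⟩) h1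
    · exfalso
      have : x ∈ WsK G al K := Finset.mem_filter.2 ⟨hx, hx1, hx2⟩
      rw [h2] at this
      exact Finset.notMem_empty _ this
    · exfalso
      have : (1 : ℝ) ≤ oK14 G K := by exact_mod_cast h.1
      linarith [h.2]
  rcases Nat.lt_or_ge (Lv G K).card 2 with h7 | h7
  · have h8 : (Lv G K).card = 1 := by
      have := Finset.card_pos.2 h6
      omega
    obtain ⟨x, hx⟩ := Finset.card_eq_one.1 h8
    have h9 := ksingle89 G hG hT hx
    have h10 := hp2 x hx h1 h2 h3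
    have h11 : ∑ x ∈ Lv G K, ((un G al (sg G x) : ℝ) - 2) ≤ ∑ x ∈ Lv G K, p (sg G x) := by
      rw [hx, Finset.sum_singleton, Finset.sum_singleton]
      exact h10
    linarith
  · have := kmulti89 G hG hT K h7
    linarith

end

end Pool.Agent.PEN.E5
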