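import Pool.Agent.E5.Eu14
import Pool.Agent.P4.B9d

/-! # PENNY, all small diameters: the sharp outer darts and the black faces -/

set_option autoImplicit false

namespace Pool.Agent.PEN.E5

open Classical UpperHalfPlane
open Pool.Agent.PEN.Cl

noncomputable section

variable {V : Type} (G : Tg V) {al : ℝ} {kp : V → V → ℝ} {U : ℕ → ℝ}

/-- a visit between two outer darts with one or two triangles is sharp -/
theorem shp_mem14 (hG : G.Geo4 al kp U) {c v : V} (hx : (c, v) ∈ G.oJ)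
    (hn : nx G (c, v) ∈ G.oJ) (h1 : 1 ≤ rn G (c, v)) (h2 : rn G (c, v) ≤ 2) :
    ((nx G (c, v)).2, v) ∈ G.shp al := by
  have hal := W4.al_pos71 G hG
  have hR := rot9_4 G hG
  obtain ⟨hx1, hx2, hx3⟩ := (mem_oJ66 G).1 hx
  obtain ⟨hn1, hn2, hn3⟩ := (mem_oJ66 G).1 hn
  have hN : HasN G v c := hasN42 G hG (G.symm _ _ hx1)
  have hrn : rn G (c, v) = Nat.find hN := by
    unfold rn
    rw [dif_pos hN]
  rw [hrn] at h1 h2
  have ha : (nx G (c, v)).2 = (G.ap v)^[Nat.find hN] c := nb_eq42 G hN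
  have hnx : nx G (c, v) = (v, (nx G (c, v)).2) := rfl
  rw [hnx, ha] at hn3
  rw [ha]
  obtain ⟨N, hNN⟩ : ∃ N, N = Nat.find hN := ⟨_, rfl⟩
  rw [← hNN] at h1 h2 hn3 ⊢
  have htt : ∀ m, m < N → tt G (v, (G.ap v)^[m] c) := fun m hm => run_tt42 G hN (by omega)
  have hin : ∀ m, m < N → G.inn ((G.ap v)^[m + 1] c, v) := by
    intro m hm
    rw [Function.iterate_succ_apply']
    exact (inn_ap9 G (inn_tt89 G (htt m hm))).1
  have hbk : ∀ i, i ≤ N → (G.bk v)^[i] ((G.ap v)^[N] c) = (G.ap v)^[N - i] c := by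
    intro i
    induction i with
    | zero => intro _; rfl
    | succ i ih =>
      intro hi
      rw [Function.iterate_succ_apply', ih (by omega)]
      have e : N - i = (N - (i + 1)) + 1 := by omega
      rw [e, Function.iterate_succ_apply']
      exact (inn_ap9 G (inn_tt89 G (htt (N - (i + 1)) (by omega)))).2
  have hin2 : ∀ i, i < N → G.inn ((G.bk v)^[i] ((G.ap v)^[N] c), v) := by
    intro i hi
    rw [hbk i (by omega)]
    have e : N - i = (N - i - 1) + 1 := by omega
    rw [e]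
    exact hin _ (by omega)
  have hout : ¬ G.inn ((G.bk v)^[N] ((G.ap v)^[N] c), v) := by
    rw [hbk N le_rfl, Nat.sub_self]
    exact hx3
  have hiB : ((G.ap v)^[N] c, v) ∈ G.iB := (mem_iB9 G).2 ⟨hin2 0 (by omega), hn3⟩
  have hex : ∃ i : ℕ, ¬ G.inn ((G.bk (((G.ap v)^[N] c, v) : V × V).2)^[i]
      (((G.ap v)^[N] c, v) : V × V).1, (((G.ap v)^[N] c, v) : V × V).2) := ⟨N, hout⟩
  have hf : Nat.find hex = N := by
    rw [Nat.find_eq_iff]
    exact ⟨hout, fun i hi => not_not.2 (hin2 i hi)⟩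
  have e : G.nx ((G.ap v)^[N] c, v) = (v, (G.bk v)^[(N - 1) + 1] ((G.ap v)^[N] c)) := by
    unfold Tg.nx
    rw [dif_pos hex, hf, Nat.sub_add_cancel h1]
  obtain ⟨hs, _⟩ := secs_eq9 G hR hiB e (fun i hi => hin2 i (by omega))
  unfold Tg.shp
  refine Finset.mem_filter.2 ⟨hiB, ?_⟩
  unfold Tg.secW
  rw [hs]
  have hw : ∀ y ∈ ((Finset.range (N - 1 + 1)).image
      (fun i => ((v, (G.bk v)^[i + 1] ((G.ap v)^[N] c)) : V × V))).filter
      (fun y => G.con y.1 y.2), G.wt al y ≤ 1 := by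
    intro y hy
    obtain ⟨hy1, _⟩ := Finset.mem_filter.1 hy
    obtain ⟨i, hi, rfl⟩ := Finset.mem_image.1 hy1
    rw [Finset.mem_range] at hi
    rw [hbk (i + 1) (by omega)]
    have h3 := htt (N - (i + 1)) (by omega)
    rw [wt_eq9_4 G hG]
    unfold wc
    rw [W4.TH_T51 G hG (tt_iJ89 G h3) (cI_tt89 G h3), div_self hal.ne']
    simp
  refine (Finset.sum_le_card_nsmul _ _ 1 hw).trans ?_
  rw [smul_eq_mul, mul_one]
  refine (Finset.card_filter_le _ _).trans (Finset.card_image_le.trans ?_)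
  rw [Finset.card_range]
  omega

/-- the visits between two outer darts -/
def fv14 (K : (cg G).ConnectedComponent) : Finset (V × V) :=
  (kS G K).filter (fun x => x ∈ G.oJ ∧ nx G x ∈ G.oJ)

/-- the number of visits between two outer darts with at least three triangles -/
def F14 (K : (cg G).ConnectedComponent) : ℕ := ((fv14 G K).filter (fun x => 3 ≤ rn G x)).card

/-- the number of visits between two outer darts without triangle -/
def Z14 (K : (cg G).ConnectedComponent) : ℕ := ((fv14 G K).filter (fun x => rn G x = 0)).card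

/-- the number of visits between two outer darts with one or two triangles -/
def T14 (K : (cg G).ConnectedComponent) : ℕ :=
  ((fv14 G K).filter (fun x => 1 ≤ rn G x ∧ rn G x ≤ 2)).card

theorem fv_card14 (K : (cg G).ConnectedComponent) :
    (fv14 G K).card = F14 G K + Z14 G K + T14 G K := by
  have e1 := Finset.card_filter_add_card_filter_not (s := fv14 G K) (fun x => 3 ≤ rn G x)
  have e2 := Finset.card_filter_add_card_filter_not
    (s := (fv14 G K).filter (fun x => ¬ 3 ≤ rn G x)) (fun x => rn G x = 0)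
  rw [Finset.filter_filter, Finset.filter_filter] at e2
  have e3 : (fv14 G K).filter (fun x => ¬ 3 ≤ rn G x ∧ rn G x = 0) =
      (fv14 G K).filter (fun x => rn G x = 0) := Finset.filter_congr fun x _ => by omega
  have e4 : (fv14 G K).filter (fun x => ¬ 3 ≤ rn G x ∧ ¬ rn G x = 0) =
      (fv14 G K).filter (fun x => 1 ≤ rn G x ∧ rn G x ≤ 2) :=
    Finset.filter_congr fun x _ => by omega
  rw [e3, e4] at e2
  unfold F14 Z14 T14
  omega

/-- the sharp visits are sharp outer darts -/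
theorem T_le_shp14 (hG : G.Geo4 al kp U) : ∑ K ∈ Kc G, T14 G K ≤ (G.shp al).card := by
  have h1 : ∑ K ∈ Kc G, T14 G K = ((SD G).filter (fun x => (x ∈ G.oJ ∧ nx G x ∈ G.oJ) ∧
      1 ≤ rn G x ∧ rn G x ≤ 2)).card := by
    rw [Finset.card_eq_sum_card_fiberwise (f := ku G) (t := Kc G)]
    · refine Finset.sum_congr rfl fun K _ => ?_
      unfold T14 fv14 kS
      rw [Finset.filter_filter, Finset.filter_filter, Finset.filter_filter]
      congr 1
      refine Finset.filter_congr fun x _ => ?_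
      tauto
    · intro x hx
      exact Finset.mem_coe.2 (Finset.mem_image_of_mem _
        ((mem_SD42 G).1 (Finset.mem_filter.1 (Finset.mem_coe.1 hx)).1).1)
  rw [h1]
  refine Finset.card_le_card_of_injOn (fun x => ((nx G x).2, (nx G x).1)) ?_ ?_
  · rintro ⟨c, v⟩ hx
    obtain ⟨_, ⟨h2, h3⟩, h4, h5⟩ := Finset.mem_filter.1 (Finset.mem_coe.1 hx)
    exact Finset.mem_coe.2 (shp_mem14 G hG h2 h3 h4 h5)
  · intro x hx y hy h
    have hx' := (Finset.mem_filter.1 (Finset.mem_coe.1 hx)).1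
    have hy' := (Finset.mem_filter.1 (Finset.mem_coe.1 hy)).1
    obtain ⟨e1, e2⟩ := Prod.mk.inj h
    exact nx_inj42 G hG hx' hy' (Prod.ext e2 e1)

/-- the outer darts of a black face -/
theorem oJ_face14 (hG : G.Geo4 al kp U) (K : (cg G).ConnectedComponent) :
    ((kS G K).filter (fun x => x ∈ G.oJ)).card ≤ (fv14 G K).card + oK14 G K := by
  have e1 := sum_nx42 G hG (kS G K) (fun x hx => mem_kS89 G hx)
    (fun x hx => nx_kS89 G hG hx) (fun x => if x ∈ G.oJ then (1 : ℝ) else 0)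
  have e2 : ((kS G K).filter (fun x => x ∈ G.oJ)).card =
      ((kS G K).filter (fun x => nx G x ∈ G.oJ)).card := by
    rw [Finset.sum_boole, Finset.sum_boole] at e1
    exact_mod_cast e1.symm
  have e3 := Finset.card_filter_add_card_filter_not
    (s := (kS G K).filter (fun x => nx G x ∈ G.oJ)) (fun x => x ∈ G.oJ)
  rw [Finset.filter_filter, Finset.filter_filter] at e3
  have e4 : ((kS G K).filter (fun x => nx G x ∈ G.oJ ∧ ¬ x ∈ G.oJ)).card ≤ oK14 G K := by
    unfold oK14
    refine Finset.card_le_card fun x hx => ?_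
    obtain ⟨h1, h2, h3⟩ := Finset.mem_filter.1 hx
    refine Finset.mem_filter.2 ⟨h1, (BC_or14 G (mem_kS89 G h1)).resolve_right h3, fun h4 => ?_⟩
    unfold inN at h4
    exact (Finset.mem_filter.1 h4).2 ⟨(nx G x).2, h2⟩
  have e5 : (kS G K).filter (fun x => nx G x ∈ G.oJ ∧ x ∈ G.oJ) = fv14 G K := by
    unfold fv14
    exact Finset.filter_congr fun x _ => and_comm
  rw [e5] at e3
  omega

/-- **the outer darts, counted by black faces** -/
theorem oJ_count14 (hG : G.Geo4 al kp U) :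
    (G.oJ.card : ℝ) ≤ ∑ K ∈ Kc G, ((F14 G K : ℝ) + Z14 G K + oK14 G K) + (G.shp al).card := by
  have h1 : G.oJ.card = ∑ K ∈ Kc G, ((kS G K).filter (fun x => x ∈ G.oJ)).card := by
    rw [Finset.card_eq_sum_card_fiberwise (f := ku G) (t := Kc G)]
    · refine Finset.sum_congr rfl fun K _ => ?_
      congr 1
      ext x
      rw [Finset.mem_filter, Finset.mem_filter, mem_kS42]
      constructor
      · rintro ⟨h1, h2⟩
        obtain ⟨h3, h4, h5⟩ := (mem_oJ66 G).1 h1
        exact ⟨⟨(mem_SD42 G).2 ⟨(mem_KJ42 G).2 ⟨h3, h4⟩, fun h => h5 (inn_tt89 G h)⟩, h2⟩, h1⟩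
      · rintro ⟨⟨_, h2⟩, h3⟩
        exact ⟨h3, h2⟩
    · intro x hx
      obtain ⟨h3, h4, h5⟩ := (mem_oJ66 G).1 (Finset.mem_coe.1 hx)
      exact Finset.mem_coe.2 (Finset.mem_image_of_mem _ ((mem_KJ42 G).2 ⟨h3, h4⟩))
  have h2 : ∑ K ∈ Kc G, ((kS G K).filter (fun x => x ∈ G.oJ)).card ≤
      ∑ K ∈ Kc G, ((F14 G K + Z14 G K + oK14 G K) + T14 G K) := by
    refine Finset.sum_le_sum fun K _ => ?_
    have h3 := oJ_face14 G hG K
    rw [fv_card14] at h3
    omega
  rw [Finset.sum_add_distrib] at h2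
  have h3 := T_le_shp14 G hG
  have h4 : G.oJ.card ≤ ∑ K ∈ Kc G, (F14 G K + Z14 G K + oK14 G K) + (G.shp al).card := by
    omega
  exact_mod_cast h4

end

end Pool.Agent.PEN.E5
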