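import Pool.Agent.E5.Bp39
import Pool.Agent.E5.Vc39
import Pool.Agent.E5.Kc89
import Pool.Agent.E5.Shp14

/-! # PENNY, all small diameters: the bad pentagons of the set `(1, 1, 6)` are paid

`x` is the weak side of a pentagon with 12 units on a digon; both three unit corners are leaves. -/

set_option autoImplicit false

namespace Pool.Agent.PEN.E5

open Classical UpperHalfPlane
open Pool.Agent.PEN.Cl

noncomputable section

variable {V : Type} (G : Tg V) {al : ℝ} {kp : V → V → ℝ} {U : ℕ → ℝ}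

/-- **a bad pentagon** -/
structure Bd39 (al : ℝ) (x : V × V) : Prop where
  bc : x ∈ BC G
  u0 : un G al x = 2
  u1 : un G al (sg G x) = 2
  u2 : un G al (sg G (sg G x)) = 3
  u3 : un G al (sg G (sg G (sg G x))) = 2
  u4 : un G al (sg G (sg G (sg G (sg G x)))) = 3
  cyc : sg G (sg G (sg G (sg G (sg G x)))) = x
  wk : sp G al x < 0
  dg : tK G (ku G x) = 0
  sf : ku G x ∉ Sf G al
  ow : WsK G al (ku G x) = {x}
  l1 : sg G x ∈ Lv G (ku G (sg G x))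
  l3 : sg G (sg G (sg G x)) ∈ Lv G (ku G (sg G (sg G (sg G x))))
  g0 : 1 / 4 ≤ gc G al x
  g0' : gc G al x < 1 / 2
  g1 : 1 / 4 ≤ gc G al (sg G x)
  g1' : gc G al (sg G x) < 1 / 2

/-- the predecessor along the black face -/
def pv39 (z : V × V) : V × V := if h : ∃ y ∈ SD G, nx G y = z then Classical.choose h else z

theorem pv_spec39 (hG : G.Geo4 al kp U) {z : V × V} (hz : z ∈ SD G) :
    pv39 G z ∈ SD G ∧ nx G (pv39 G z) = z ∧ ku G (pv39 G z) = ku G z ∧ (pv39 G z).2 = z.1 := by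
  have h : ∃ y ∈ SD G, nx G y = z := nx_surj42 G hG hz
  have e : pv39 G z = Classical.choose h := by
    unfold pv39
    rw [dif_pos h]
  obtain ⟨h1, h2⟩ := Classical.choose_spec h
  rw [← e] at h1 h2
  refine ⟨h1, h2, ?_, ?_⟩
  · rw [← (nx_ku63 G hG h1).2, h2]
  · have : (nx G (pv39 G z)).1 = z.1 := by rw [h2]
    exact this

variable {G}

theorem Bd39.xS {x : V × V} (h : Bd39 G al x) : x ∈ SD G :=
  BC_SD89 G ((mem_BC89 G).1 h.bc).1 ((mem_BC89 G).1 h.bc).2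

/-- the digon -/
theorem Bd39.dig (hG : G.Geo4 al kp U) {x : V × V} (h : Bd39 G al x) :
    rn G x = 0 ∧ (x.2, x.1) ∈ SD G ∧ kS G (ku G x) = {x, (x.2, x.1)} ∧ nx G x = (x.2, x.1) ∧
      rn G (x.2, x.1) = 0 ∧ nx G (x.2, x.1) = x ∧ ku G (x.2, x.1) = ku G x := by
  have hr := (tK_zero54 G hG h.xS).1 h.dg
  obtain ⟨d1, d2, _, _, d3, d4⟩ := digon54 G hG h.xS hr
  obtain ⟨_, _, _, _, d5, _⟩ := digon54 G hG d1 d4
  exact ⟨hr, d1, d2, d3, d4, d5, ku_swap42 G ((mem_SD42 G).1 h.xS).1⟩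

/-- the head end: the sector of the hole -/
theorem Bd39.hd (hG : G.Geo4 al kp U) {x : V × V} (h : Bd39 G al x) :
    pv39 G (sg G x) ∈ SD G ∧ nx G (pv39 G (sg G x)) = sg G x ∧
      ku G (pv39 G (sg G x)) = ku G (sg G x) ∧ (pv39 G (sg G x)).2 = x.2 ∧
      1 ≤ rn G (pv39 G (sg G x)) ∧ cv G (sg G x).2 = 1 := by
  obtain ⟨a1, a2, a3⟩ := (mem_Lv15 G).1 h.l1
  have hS := mem_kS89 G a1
  obtain ⟨b1, b2, b3, b4⟩ := pv_spec39 G hG hS
  refine ⟨b1, b2, b3, b4, ?_, a3⟩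
  by_contra hno
  have h0 : rn G (pv39 G (sg G x)) = 0 := by omega
  have h1 := (rn_pos_all54 G hG b1 hS b3.symm).2 h0
  have h2 : sg G x ∈ Sv G (sg G x).2 := (mem_Sv62 G).2 ⟨hS, rfl⟩
  have h3 := leaf_rn39 G hG a2 a3 h2
  have h4 : nx G (sg G x) = sg G (sg G x) := leaf_nx18 G hG hS ⟨a2, a3⟩
  rw [h4, h.u2, h1] at h3
  have h5 := uv_ge89 G hG a2 (al := al)
  omega

/-- the tail end: the sector of the hole -/
theorem Bd39.tl (hG : G.Geo4 al kp U) {x : V × V} (h : Bd39 G al x) :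
    sg G (sg G (sg G (sg G x))) ∈ SD G ∧
      nx G (sg G (sg G (sg G x))) = sg G (sg G (sg G (sg G x))) ∧
      ku G (sg G (sg G (sg G (sg G x)))) = ku G (sg G (sg G (sg G x))) ∧
      (sg G (sg G (sg G (sg G x)))).2 = x.1 ∧ 1 ≤ rn G (sg G (sg G (sg G (sg G x)))) ∧
      cv G (sg G (sg G (sg G x))).2 = 1 := by
  obtain ⟨a1, a2, a3⟩ := (mem_Lv15 G).1 h.l3
  have hS := mem_kS89 G a1
  have h4 : nx G (sg G (sg G (sg G x))) = sg G (sg G (sg G (sg G x))) :=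
    leaf_nx18 G hG hS ⟨a2, a3⟩
  obtain ⟨b1, b2⟩ := nx_ku63 G hG hS
  rw [h4] at b1 b2
  have h6 : (sg G (sg G (sg G (sg G x)))).2 = x.1 := by
    have : (sg G (sg G (sg G (sg G (sg G x))))).1 = x.1 := by rw [h.cyc]
    exact this
  refine ⟨b1, h4, b2, h6, ?_, a3⟩
  by_contra hno
  have h0 : rn G (sg G (sg G (sg G (sg G x)))) = 0 := by omega
  have h1 := (rn_pos_all54 G hG b1 hS b2.symm).2 h0
  have h2 : sg G (sg G (sg G x)) ∈ Sv G (sg G (sg G (sg G x))).2 := (mem_Sv62 G).2 ⟨hS, rfl⟩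
  have h3 := leaf_rn39 G hG a2 a3 h2
  rw [h4, h.u4, h1] at h3
  have h5 := uv_ge89 G hG a2 (al := al)
  omega

/-- at an inner end there are at least two big corners -/
theorem Bd39.c2h (hG : G.Geo4 al kp U) {x : V × V} (h : Bd39 G al x) (hv : x.2 ∈ inN G) :
    2 ≤ cv G x.2 := by
  obtain ⟨a1, _, _, _, _, _⟩ := h.dig hG
  obtain ⟨b1, b2, b3, b4, b5, _⟩ := h.hd hG
  have hne : x ≠ pv39 G (sg G x) := by
    intro he
    rw [← he, a1] at b5
    omega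
  rw [← card_Sv62 G hG hv]
  have hsub : ({x, pv39 G (sg G x)} : Finset (V × V)) ⊆ Sv G x.2 := by
    intro z hz
    rcases Finset.mem_insert.1 hz with h1 | h1
    · rw [h1]; exact (mem_Sv62 G).2 ⟨h.xS, rfl⟩
    · rw [Finset.mem_singleton.1 h1]; exact (mem_Sv62 G).2 ⟨b1, b4⟩
  have := Finset.card_le_card hsub
  rw [Finset.card_pair hne] at this
  exact this

theorem Bd39.c2t (hG : G.Geo4 al kp U) {x : V × V} (h : Bd39 G al x) (hv : x.1 ∈ inN G) :
    2 ≤ cv G x.1 := by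
  obtain ⟨a1, a2, a3, a4, a5, a6, _⟩ := h.dig hG
  obtain ⟨b1, b2, b3, b4, b5, _⟩ := h.tl hG
  have hne : (x.2, x.1) ≠ sg G (sg G (sg G (sg G x))) := by
    intro he
    rw [← he, a5] at b5
    omega
  rw [← card_Sv62 G hG hv]
  have hsub : ({(x.2, x.1), sg G (sg G (sg G (sg G x)))} : Finset (V × V)) ⊆ Sv G x.1 := by
    intro z hz
    rcases Finset.mem_insert.1 hz with h1 | h1
    · rw [h1]; exact (mem_Sv62 G).2 ⟨a2, rfl⟩
    · rw [Finset.mem_singleton.1 h1]; exact (mem_Sv62 G).2 ⟨b1, b4⟩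
  have := Finset.card_le_card hsub
  rw [Finset.card_pair hne] at this
  exact this

/-- the digon sectors are negative at inner points with `k ≥ 2` -/
theorem neg_of_sf39 {s : V × V} (hs : s ∈ SD G) (hv : s.2 ∈ inN G)
    (h8 : 8 ≤ uv G al s.2) (hK : ku G s ∉ Sf G al) : Ds G al s < 0 := by
  by_contra hno
  push Not at hno
  exact hK ((mem_Sf15 G).2 ⟨s, (mem_kS42 G).2 ⟨hs, rfl⟩, (mem_Pz15 G).2 ⟨hs, hv, h8, hno⟩⟩)

/-- the claim at the head end -/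
theorem Bd39.vh (hG : G.Geo4 al kp U) {x : V × V} (h : Bd39 G al x) (hv : x.2 ∈ inN G)
    (h8 : 8 ≤ uv G al x.2) : sg G x ∈ Vl39 G al x.2 := by
  obtain ⟨a1, a2, a3, a4, a5, a6, a7⟩ := h.dig hG
  have hS : x ∈ Sv G x.2 := (mem_Sv62 G).2 ⟨h.xS, rfl⟩
  have hn := neg_of_sf39 h.xS hv h8 h.sf
  refine Finset.mem_filter.2 ⟨sg_Bv62 G hG hv hS, ?_, Or.inr (Or.inl ⟨x, hS, a1, hn, Or.inl rfl⟩)⟩
  rintro ⟨_, _, h3⟩
  linarith [h3 x hS]

/-- the claim at the tail end -/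
theorem Bd39.vt (hG : G.Geo4 al kp U) {x : V × V} (h : Bd39 G al x) (hv : x.1 ∈ inN G)
    (h8 : 8 ≤ uv G al x.1) : x ∈ Vl39 G al x.1 := by
  obtain ⟨a1, a2, a3, a4, a5, a6, a7⟩ := h.dig hG
  have hS : (x.2, x.1) ∈ Sv G x.1 := (mem_Sv62 G).2 ⟨a2, rfl⟩
  have hn : Ds G al (x.2, x.1) < 0 := neg_of_sf39 a2 hv h8 (by rw [a7]; exact h.sf)
  refine Finset.mem_filter.2 ⟨(mem_Bv62 G).2 ⟨h.bc, rfl⟩, ?_,
    Or.inr (Or.inl ⟨_, hS, a5, hn, Or.inr a6⟩)⟩
  rintro ⟨_, _, h3⟩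
  linarith [h3 _ hS]

theorem Bd39.iJ {x : V × V} (h : Bd39 G al x) : x ∈ iJ G := ((mem_BC89 G).1 h.bc).1

/-- the weak side of one is not the next side of another -/
theorem Bd39.ne {x y : V × V} (hx : Bd39 G al x) (hy : Bd39 G al y) : x ≠ sg G y := by
  intro h
  have h1 := hx.u1
  rw [h, hy.u2] at h1
  omega

/-- the units behind the digon, head end -/
theorem Bd39.uh (hG : G.Geo4 al kp U) {x : V × V} (h : Bd39 G al x) (hv : x.2 ∈ inN G)
    (h7 : uv G al x.2 = 7) (hc : cv G x.2 = 2) :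
    Bv G x.2 = {sg G x, (x.2, x.1)} ∧ sg G x ≠ (x.2, x.1) ∧
      un G al (x.2, x.1) + rn G (pv39 G (sg G x)) = 5 ∧
      gc G al (sg G x) + gc G al (x.2, x.1) = 1 - ep al := by
  obtain ⟨a1, a2, a3, a4, a5, a6, a7⟩ := h.dig hG
  obtain ⟨b1, b2, b3, b4, b5, _⟩ := h.hd hG
  have hS : x ∈ Sv G x.2 := (mem_Sv62 G).2 ⟨h.xS, rfl⟩
  obtain ⟨c1, c2, y, hy, hyx, c3, c4, c5⟩ := c2_89 G hG hv hc hS
  rw [a4] at c1 c2
  have hyp : y = pv39 G (sg G x) := nx_inj42 G hG ((mem_Sv62 G).1 hy).1 b1 (by rw [c5, b2])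
  have hsum := uv_split62 G hG (al := al) x.2
  rw [h7, c3, c2, Finset.sum_pair hyx.symm, Finset.sum_pair c1.symm, a1, hyp, h.u1] at hsum
  have hs := sum_gcB39 G hG hv
  rw [c2, Finset.sum_pair c1.symm, kv_eq89, h7] at hs
  refine ⟨c2, c1.symm, by omega, ?_⟩
  rw [hs]
  push_cast
  ring

/-- the units behind the digon, tail end -/
theorem Bd39.ut (hG : G.Geo4 al kp U) {x : V × V} (h : Bd39 G al x) (hv : x.1 ∈ inN G)
    (h7 : uv G al x.1 = 7) (hc : cv G x.1 = 2) :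
    Bv G x.1 = {x, sg G (x.2, x.1)} ∧ x ≠ sg G (x.2, x.1) ∧
      un G al (sg G (x.2, x.1)) + rn G (sg G (sg G (sg G (sg G x)))) = 5 ∧
      gc G al x + gc G al (sg G (x.2, x.1)) = 1 - ep al := by
  obtain ⟨a1, a2, a3, a4, a5, a6, a7⟩ := h.dig hG
  obtain ⟨b1, b2, b3, b4, b5, _⟩ := h.tl hG
  have hS : (x.2, x.1) ∈ Sv G x.1 := (mem_Sv62 G).2 ⟨a2, rfl⟩
  obtain ⟨c1, c2, y, hy, hyx, c3, c4, c5⟩ := c2_89 G hG hv hc hS
  rw [a6] at c1 c2 c4
  have hys : y = sg G (sg G (sg G (sg G x))) :=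
    sg_injSv89 G hG hv hy ((mem_Sv89 G).2 ⟨b1, b4⟩) (by rw [c4, h.cyc])
  have hsum := uv_split62 G hG (al := al) x.1
  rw [h7, c3, c2, Finset.sum_pair hyx.symm, Finset.sum_pair c1.symm, a5, hys, h.u0] at hsum
  have hs := sum_gcB39 G hG hv
  rw [c2, Finset.sum_pair c1.symm, kv_eq89, h7] at hs
  refine ⟨by rw [c2, Finset.pair_comm], c1, by omega, ?_⟩
  push_cast at hs
  linarith

/-- two corners at a type `(7, 2)` point: the side behind one digon is not next to another -/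
theorem Bd39.zne (hG : G.Geo4 al kp U) {x y : V × V} (hx : Bd39 G al x) (hy : Bd39 G al y)
    (hv : x.1 ∈ inN G) (h7 : uv G al x.1 = 7) (hc : cv G x.1 = 2) (h3 : 3 ≤ un G al (y.2, y.1))
    (he : sg G (x.2, x.1) = (y.2, y.1)) : False := by
  have e0 : x.1 = y.2 := by
    have : (sg G (x.2, x.1)).1 = (y.2, y.1).1 := by rw [he]
    exact this
  have hv' : y.2 ∈ inN G := by rw [← e0]; exact hv
  have h7' : uv G al y.2 = 7 := by rw [← e0]; exact h7
  have hc' : cv G y.2 = 2 := by rw [← e0]; exact hc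
  have a1 := (hx.ut hG hv h7 hc).1
  have b1 := (hy.uh hG hv' h7' hc').1
  rw [he, e0, b1] at a1
  have h5 : x ∈ ({sg G y, (y.2, y.1)} : Finset (V × V)) := by
    rw [a1]
    exact Finset.mem_insert_self _ _
  rw [Finset.mem_insert, Finset.mem_singleton] at h5
  rcases h5 with h5 | h5
  · exact hx.ne hy h5
  · have := hx.u0
    rw [h5] at this
    omega

/-- a set with fibres of size at most two -/
theorem fib39 (S : Finset (V × V)) (f : V × V → V × V)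
    (h : ∀ b ∈ S.image f, (S.filter (fun a => f a = b)).card ≤ 2) :
    S.card ≤ (S.image f).card +
      ((S.image f).filter (fun b => 2 ≤ (S.filter (fun a => f a = b)).card)).card := by
  have h1 : S.card = ∑ b ∈ S.image f, (S.filter (fun a => f a = b)).card :=
    Finset.card_eq_sum_card_fiberwise fun x hx =>
      Finset.mem_coe.2 (Finset.mem_image_of_mem f (Finset.mem_coe.1 hx))
  have h2 : ((S.image f).filter (fun b => 2 ≤ (S.filter (fun a => f a = b)).card)).card =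
      ∑ b ∈ S.image f, if 2 ≤ (S.filter (fun a => f a = b)).card then 1 else 0 :=
    Finset.card_filter _ _
  rw [h1, h2, Finset.card_eq_sum_ones (S.image f), ← Finset.sum_add_distrib]
  refine Finset.sum_le_sum fun b hb => ?_
  have := h b hb
  split_ifs <;> omega

/-- the two corners next to a sector -/
theorem two_fib39 (P Q : V × V → Prop)
    (hP : ∀ x y, P x → P y → x = y) (hQ : ∀ x y, Q x → Q y → x = y) {S : Finset (V × V)}
    (hS : ∀ x ∈ S, P x ∨ Q x) : S.card ≤ 2 ∧ (2 ≤ S.card → (∃ x ∈ S, P x) ∧ ∃ x ∈ S, Q x) := by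
  have h1 : (S.filter P).card ≤ 1 := Finset.card_le_one.2 fun a ha b hb =>
    hP a b (Finset.mem_filter.1 ha).2 (Finset.mem_filter.1 hb).2
  have h2 : (S.filter (fun x => ¬ P x)).card ≤ 1 := Finset.card_le_one.2 fun a ha b hb => by
    obtain ⟨a1, a2⟩ := Finset.mem_filter.1 ha
    obtain ⟨b1, b2⟩ := Finset.mem_filter.1 hb
    exact hQ a b ((hS a a1).resolve_left a2) ((hS b b1).resolve_left b2)
  have h3 := Finset.card_filter_add_card_filter_not (s := S) P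
  refine ⟨by omega, fun h4 => ?_⟩
  have h5 : 0 < (S.filter P).card := by omega
  have h6 : 0 < (S.filter (fun x => ¬ P x)).card := by omega
  obtain ⟨a, ha⟩ := Finset.card_pos.1 h5
  obtain ⟨b, hb⟩ := Finset.card_pos.1 h6
  obtain ⟨a1, a2⟩ := Finset.mem_filter.1 ha
  obtain ⟨b1, b2⟩ := Finset.mem_filter.1 hb
  exact ⟨⟨a, a1, a2⟩, b, b1, (hS b b1).resolve_left b2⟩

/-- a black face with the weak side of a bad pentagon has no leaf -/
theorem Bd39.noLv (hG : G.Geo4 al kp U) {x : V × V} (h : Bd39 G al x) : Lv G (ku G x) = ∅ := by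
  obtain ⟨a1, a2, a3, a4, a5, a6, a7⟩ := h.dig hG
  rw [Finset.eq_empty_iff_forall_notMem]
  intro z hz
  obtain ⟨z1, z2, z3⟩ := (mem_Lv15 G).1 hz
  rw [a3, Finset.mem_insert, Finset.mem_singleton] at z1
  rcases z1 with rfl | rfl
  · have := h.c2h hG z2
    omega
  · have h1 : x.1 ∈ inN G := z2
    have h2 := h.c2t hG h1
    have h3 : cv G x.1 = 1 := z3
    omega

/-- **the bad pentagons are paid**: by black faces with an outer point (`B0`), corners at points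
with `k ≥ 2` (`NP`), points with three big corners, pairs of a leaf and a sector with run at least
three (`RP`), sectors with two small gaps between two leaves (`LO`), and sides with two corners of
at least three units (`ZP`) -/
theorem bad_sum39 (hG : G.Geo4 al kp U) (B : Finset (V × V)) (hB : ∀ x ∈ B, Bd39 G al x) :
    ∃ B0 NP RP LO ZP : Finset (V × V),
      (B0 ⊆ B ∧ ∀ x ∈ B0, x.1 ∉ inN G ∨ x.2 ∉ inN G) ∧
      (∀ c ∈ NP, (c ∈ B ∨ ∃ x ∈ B, c = sg G x) ∧ c.1 ∈ A2 G al ∧ c ∈ Vl39 G al c.1) ∧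
      (∀ y ∈ RP, y ∈ SD G ∧
        ((y ∈ Lv G (ku G y) ∧ nx G y ∉ Lv G (ku G y) ∧ 3 ≤ rn G (nx G y)) ∨
          (y ∉ Lv G (ku G y) ∧ 3 ≤ rn G y ∧ nx G y ∈ Lv G (ku G y)))) ∧
      (∀ s ∈ LO, s ∈ SD G ∧ s.2 ∈ inN G ∧ gc G al (sg G s) < 1 / 2 ∧ gc G al (nx G s) < 1 / 2 ∧
        rn G s = 1 ∧ nx G s ∈ Lv G (ku G s) ∧ ∃ y ∈ Lv G (ku G s), nx G y = s) ∧
      (∀ z ∈ ZP, z ∈ BC G ∧ (z.2, z.1) ∈ B ∧ 3 ≤ un G al z ∧ 3 ≤ un G al (sg G z) ∧
        sg G z ∉ ZP ∧ z.1 ∈ inN G ∧ z.2 ∈ inN G ∧ uv G al z.1 = 7 ∧ uv G al z.2 = 7 ∧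
        cv G z.1 = 2 ∧ cv G z.2 = 2 ∧
        gc G al z + gc G al (sg G z) =
          2 - 2 * ep al - (gc G al (z.2, z.1) + gc G al (sg G (z.2, z.1)))) ∧
      Disjoint B0 (RP ∪ LO) ∧ Disjoint RP LO ∧
      B.card ≤ B0.card + NP.card +
        ((inN G).filter (fun v => uv G al v = 7 ∧ cv G v = 3)).card + RP.card + LO.card +
        ZP.card := by
  -- the classes of bad pentagons
  obtain ⟨B0, hB0⟩ : ∃ S, S = B.filter (fun x => x.1 ∉ inN G ∨ x.2 ∉ inN G) := ⟨_, rfl⟩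
  obtain ⟨B', hB'⟩ : ∃ S, S = B.filter (fun x => ¬ (x.1 ∉ inN G ∨ x.2 ∉ inN G)) := ⟨_, rfl⟩
  have k0 : B0.card + B'.card = B.card := by
    rw [hB0, hB']
    exact Finset.card_filter_add_card_filter_not _
  have hB'p : ∀ x ∈ B', x ∈ B ∧ Bd39 G al x ∧ x.1 ∈ inN G ∧ x.2 ∈ inN G := by
    intro x hx
    rw [hB'] at hx
    obtain ⟨h1, h2⟩ := Finset.mem_filter.1 hx
    push Not at h2
    exact ⟨h1, hB x h1, h2.1, h2.2⟩
  obtain ⟨R1, hR1⟩ : ∃ S, S = B'.filter (fun x => 8 ≤ uv G al x.1 ∨ 8 ≤ uv G al x.2) := ⟨_, rfl⟩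
  obtain ⟨B'', hB''⟩ : ∃ S, S = B'.filter (fun x => ¬ (8 ≤ uv G al x.1 ∨ 8 ≤ uv G al x.2)) :=
    ⟨_, rfl⟩
  have k1 : R1.card + B''.card = B'.card := by
    rw [hR1, hB'']
    exact Finset.card_filter_add_card_filter_not _
  have hB''p : ∀ x ∈ B'', x ∈ B ∧ Bd39 G al x ∧ x.1 ∈ inN G ∧ x.2 ∈ inN G ∧ uv G al x.1 = 7 ∧
      uv G al x.2 = 7 := by
    intro x hx
    rw [hB''] at hx
    obtain ⟨h1, h2⟩ := Finset.mem_filter.1 hx
    obtain ⟨h3, h4, h5, h6⟩ := hB'p x h1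
    have h7 := uv_ge89 G hG h5 (al := al)
    have h8 := uv_ge89 G hG h6 (al := al)
    exact ⟨h3, h4, h5, h6, by omega, by omega⟩
  obtain ⟨Pt, hPt⟩ : ∃ P : V × V → Prop, P = fun x => cv G x.1 = 2 ∧
    3 ≤ rn G (sg G (sg G (sg G (sg G x)))) := ⟨_, rfl⟩
  obtain ⟨Ph, hPh⟩ : ∃ P : V × V → Prop, P = fun x => cv G x.2 = 2 ∧
    3 ≤ rn G (pv39 G (sg G x)) := ⟨_, rfl⟩
  obtain ⟨R2, hR2⟩ : ∃ S, S = B''.filter (fun x => Pt x ∨ Ph x) := ⟨_, rfl⟩
  obtain ⟨B3, hB3⟩ : ∃ S, S = B''.filter (fun x => ¬ (Pt x ∨ Ph x)) := ⟨_, rfl⟩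
  have k2 : R2.card + B3.card = B''.card := by
    rw [hR2, hB3]
    exact Finset.card_filter_add_card_filter_not _
  obtain ⟨R3, hR3⟩ : ∃ S, S = B3.filter (fun x => cv G x.1 = 3 ∨ cv G x.2 = 3) := ⟨_, rfl⟩
  obtain ⟨R4, hR4⟩ : ∃ S, S = B3.filter (fun x => ¬ (cv G x.1 = 3 ∨ cv G x.2 = 3)) := ⟨_, rfl⟩
  have k3 : R3.card + R4.card = B3.card := by
    rw [hR3, hR4]
    exact Finset.card_filter_add_card_filter_not _
  have hB3p : ∀ x ∈ B3, x ∈ B'' ∧ ¬ Pt x ∧ ¬ Ph x := by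
    intro x hx
    rw [hB3] at hx
    obtain ⟨h1, h2⟩ := Finset.mem_filter.1 hx
    exact ⟨h1, fun h => h2 (Or.inl h), fun h => h2 (Or.inr h)⟩
  -- the claims at points with `k ≥ 2`
  obtain ⟨c1, hc1⟩ : ∃ c : V × V → V × V, c = fun x => if 8 ≤ uv G al x.1 then x else sg G x :=
    ⟨_, rfl⟩
  have i1 : Set.InjOn c1 (R1 : Set (V × V)) := by
    intro x hx y hy he
    have hx' := Finset.mem_coe.1 hx
    have hy' := Finset.mem_coe.1 hy
    rw [hR1] at hx' hy'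
    have bx := (hB'p x (Finset.mem_filter.1 hx').1).2.1
    have by' := (hB'p y (Finset.mem_filter.1 hy').1).2.1
    rw [hc1] at he
    dsimp only at he
    split_ifs at he
    · exact he
    · exact absurd he (bx.ne by')
    · exact absurd he.symm (by'.ne bx)
    · exact W4.sg_inj51 G hG bx.iJ by'.iJ he
  -- the pairs
  obtain ⟨c2, hc2⟩ : ∃ c : V × V → V × V, c = fun x => if Pt x then sg G (sg G (sg G x)) else
    pv39 G (sg G x) := ⟨_, rfl⟩
  have i2 : Set.InjOn c2 (R2 : Set (V × V)) := by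
    intro x hx y hy he
    have hx' := Finset.mem_coe.1 hx
    have hy' := Finset.mem_coe.1 hy
    rw [hR2] at hx' hy'
    obtain ⟨x1, x2⟩ := Finset.mem_filter.1 hx'
    obtain ⟨y1, y2⟩ := Finset.mem_filter.1 hy'
    have bx := (hB''p x x1).2.1
    have by' := (hB''p y y1).2.1
    obtain ⟨px1, px2, px3, px4, px5, px6⟩ := bx.hd hG
    obtain ⟨py1, py2, py3, py4, py5, py6⟩ := by'.hd hG
    obtain ⟨_, _, _, _, _, tx6⟩ := bx.tl hG
    obtain ⟨_, _, _, _, _, ty6⟩ := by'.tl hG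
    have m1 := (W4.sg_mem51 G hG bx.iJ).1
    have m2 := (W4.sg_mem51 G hG m1).1
    have n1 := (W4.sg_mem51 G hG by'.iJ).1
    have n2 := (W4.sg_mem51 G hG n1).1
    rw [hc2] at he
    dsimp only at he
    split_ifs at he with e1 e2 e3
    · exact W4.sg_inj51 G hG bx.iJ by'.iJ (W4.sg_inj51 G hG m1 n1 (W4.sg_inj51 G hG m2 n2 he))
    · exfalso
      have h1 := y2.resolve_left e2
      rw [hPh] at h1
      have h2 := h1.1
      rw [he, py4] at tx6
      omega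
    · exfalso
      have h1 := x2.resolve_left e1
      rw [hPh] at h1
      have h2 := h1.1
      rw [← he, px4] at ty6
      omega
    · refine W4.sg_inj51 G hG bx.iJ by'.iJ ?_
      rw [← px2, ← py2, he]
  -- the sectors at the points with three big corners
  obtain ⟨c3, hc3⟩ : ∃ c : V × V → V × V, c = fun x => if cv G x.1 = 3 then
    sg G (sg G (sg G (sg G x))) else pv39 G (sg G x) := ⟨_, rfl⟩
  have hR3p : ∀ x ∈ R3, x ∈ B ∧ Bd39 G al x ∧ c3 x ∈ SD G ∧ (c3 x).2 ∈ inN G ∧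
      uv G al (c3 x).2 = 7 ∧ cv G (c3 x).2 = 3 ∧ rn G (c3 x) = 1 ∧
      ∑ s ∈ Sv G (c3 x).2, rn G s = 1 ∧
      ((sg G (c3 x) = x ∧ ku G (c3 x) = ku G (sg G (sg G (sg G x))) ∧
        nx G (sg G (sg G (sg G x))) = c3 x) ∨
        (nx G (c3 x) = sg G x ∧ ku G (c3 x) = ku G (sg G x))) := by
    intro x hx
    rw [hR3] at hx
    obtain ⟨x1, x2⟩ := Finset.mem_filter.1 hx
    obtain ⟨x3, x4, x5⟩ := hB3p x x1
    obtain ⟨x6, x7, x8, x9, x10, x11⟩ := hB''p x x3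
    obtain ⟨p1, p2, p3, p4, p5, p6⟩ := x7.hd hG
    obtain ⟨t1, t2, t3, t4, t5, t6⟩ := x7.tl hG
    obtain ⟨a1, a2, a3, a4, a5, a6, a7⟩ := x7.dig hG
    have sum1 : ∀ v, v ∈ inN G → uv G al v = 7 → cv G v = 3 → ∀ s ∈ Sv G v, 1 ≤ rn G s →
        rn G s = 1 ∧ ∑ s ∈ Sv G v, rn G s = 1 := by
      intro v _ h2 h3 s h4 h5
      have e1 := Finset.single_le_sum (f := fun s => rn G s) (fun _ _ => Nat.zero_le _) h4
      have e1' : rn G s ≤ ∑ s ∈ Sv G v, rn G s := e1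
      have e2 := uv_split62 G hG (al := al) v
      have e3 := two_cv_le15 G (al := al) v
      unfold ub15 at e3
      exact ⟨by omega, by omega⟩
    rw [hc3]
    dsimp only
    split_ifs with h
    · obtain ⟨s1, s2⟩ := sum1 x.1 x8 x10 h _ ((mem_Sv62 G).2 ⟨t1, t4⟩) t5
      exact ⟨x6, x7, t1, by rw [t4]; exact x8, by rw [t4]; exact x10, by rw [t4]; exact h, s1,
        by rw [t4]; exact s2, Or.inl ⟨x7.cyc, t3, t2⟩⟩
    · have h3 := x2.resolve_left h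
      obtain ⟨s1, s2⟩ := sum1 x.2 x9 x11 h3 _ ((mem_Sv62 G).2 ⟨p1, p4⟩) p5
      exact ⟨x6, x7, p1, by rw [p4]; exact x9, by rw [p4]; exact x11, by rw [p4]; exact h3, s1,
        by rw [p4]; exact s2, Or.inr ⟨p2, p3⟩⟩
  have hfib : ∀ b ∈ R3.image c3, (R3.filter (fun a => c3 a = b)).card ≤ 2 ∧
      (2 ≤ (R3.filter (fun a => c3 a = b)).card →
        (∃ x ∈ R3.filter (fun a => c3 a = b), sg G b = x ∧ ku G b = ku G (sg G (sg G (sg G x))) ∧
          nx G (sg G (sg G (sg G x))) = b) ∧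
        ∃ x ∈ R3.filter (fun a => c3 a = b), (nx G b = sg G x ∧ ku G b = ku G (sg G x)) ∧
          x ∈ iJ G) := by
    intro b _
    refine two_fib39 (fun x => sg G b = x ∧ ku G b = ku G (sg G (sg G (sg G x))) ∧
          nx G (sg G (sg G (sg G x))) = b)
      (fun x => (nx G b = sg G x ∧ ku G b = ku G (sg G x)) ∧ x ∈ iJ G) ?_ ?_ ?_
    · rintro x y ⟨h1, _⟩ ⟨h2, _⟩
      rw [← h1, ← h2]
    · rintro x y ⟨⟨h1, _⟩, h3⟩ ⟨⟨h2, _⟩, h4⟩
      exact W4.sg_inj51 G hG h3 h4 (by rw [← h1, ← h2])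
    · intro x hx
      obtain ⟨h1, h2⟩ := Finset.mem_filter.1 hx
      obtain ⟨_, bx, _, _, _, _, _, _, h3⟩ := hR3p x h1
      rw [h2] at h3
      rcases h3 with h3 | h3
      · exact Or.inl h3
      · exact Or.inr ⟨h3, bx.iJ⟩
  have k4 := fib39 R3 c3 fun b hb => (hfib b hb).1
  have k5 : (R3.image c3).card ≤
      ((inN G).filter (fun v => uv G al v = 7 ∧ cv G v = 3)).card := by
    refine Finset.card_le_card_of_injOn (fun s => s.2) ?_ ?_
    · intro s hs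
      obtain ⟨x, hx, rfl⟩ := Finset.mem_image.1 (Finset.mem_coe.1 hs)
      obtain ⟨_, _, _, h4, h5, h6, _⟩ := hR3p x hx
      exact Finset.mem_coe.2 (Finset.mem_filter.2 ⟨h4, h5, h6⟩)
    · intro s hs t ht he
      obtain ⟨x, hx, rfl⟩ := Finset.mem_image.1 (Finset.mem_coe.1 hs)
      obtain ⟨y, hy, rfl⟩ := Finset.mem_image.1 (Finset.mem_coe.1 ht)
      obtain ⟨_, _, h3, _, _, _, h7, h8, _⟩ := hR3p x hx
      obtain ⟨_, _, g3, _, _, _, g7, _, _⟩ := hR3p y hy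
      by_contra hne
      have he' : (c3 x).2 = (c3 y).2 := he
      have hp : ({c3 x, c3 y} : Finset (V × V)) ⊆ Sv G (c3 x).2 := by
        intro z hz
        rcases Finset.mem_insert.1 hz with h | h
        · rw [h]; exact (mem_Sv62 G).2 ⟨h3, rfl⟩
        · rw [Finset.mem_singleton.1 h]; exact (mem_Sv62 G).2 ⟨g3, he'.symm⟩
      have h9 := Finset.sum_le_sum_of_subset (f := rn G) hp
      rw [Finset.sum_pair hne, h7, g7, h8] at h9
      omega
  -- the sides behind the digons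
  have hR4p : ∀ x ∈ R4, x ∈ B ∧ Bd39 G al x ∧ x.1 ∈ inN G ∧ x.2 ∈ inN G ∧ uv G al x.1 = 7 ∧
      uv G al x.2 = 7 ∧ cv G x.1 = 2 ∧ cv G x.2 = 2 ∧
      rn G (sg G (sg G (sg G (sg G x)))) ≤ 2 ∧ rn G (pv39 G (sg G x)) ≤ 2 := by
    intro x hx
    rw [hR4] at hx
    obtain ⟨x1, x2⟩ := Finset.mem_filter.1 hx
    obtain ⟨x3, x4, x5⟩ := hB3p x x1
    obtain ⟨x6, x7, x8, x9, x10, x11⟩ := hB''p x x3
    have c1 := x7.c2t hG x8
    have c2 := x7.c2h hG x9
    have d1 := cv_le39 G hG x10 (al := al)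
    have d2 := cv_le39 G hG x11 (al := al)
    have e1 : cv G x.1 = 2 := by
      by_contra h
      exact x2 (Or.inl (by omega))
    have e2 : cv G x.2 = 2 := by
      by_contra h
      exact x2 (Or.inr (by omega))
    refine ⟨x6, x7, x8, x9, x10, x11, e1, e2, ?_, ?_⟩
    · by_contra h
      rw [hPt] at x4
      exact x4 ⟨e1, by omega⟩
    · by_contra h
      rw [hPh] at x5
      exact x5 ⟨e2, by omega⟩
  have hun : ∀ x ∈ R4, 3 ≤ un G al (x.2, x.1) ∧ 3 ≤ un G al (sg G (x.2, x.1)) := by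
    intro x hx
    obtain ⟨x1, x2, x3, x4, x5, x6, x7, x8, x9, x10⟩ := hR4p x hx
    have h1 := (x2.uh hG x4 x6 x8).2.2.1
    have h2 := (x2.ut hG x3 x5 x7).2.2.1
    exact ⟨by omega, by omega⟩
  have i4 : Set.InjOn (fun x : V × V => (x.2, x.1)) (R4 : Set (V × V)) := by
    intro x _ y _ h
    have h' : (x.2, x.1) = (y.2, y.1) := h
    exact Prod.ext (Prod.mk.inj h').2 (Prod.mk.inj h').1
  refine ⟨B0, R1.image c1, R2.image c2,
    (R3.image c3).filter (fun b => 2 ≤ (R3.filter (fun a => c3 a = b)).card),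
    R4.image (fun x => (x.2, x.1)), ?_, ?_, ?_, ?_, ?_, ?_, ?_, ?_⟩
  · rw [hB0]
    exact ⟨Finset.filter_subset _ _, fun x hx => (Finset.mem_filter.1 hx).2⟩
  · intro c hc
    obtain ⟨x, hx, rfl⟩ := Finset.mem_image.1 hc
    rw [hR1] at hx
    obtain ⟨x1, x2⟩ := Finset.mem_filter.1 hx
    obtain ⟨x3, x4, x5, x6⟩ := hB'p x x1
    rw [hc1]
    dsimp only
    split_ifs with h
    · exact ⟨Or.inl x3, Finset.mem_filter.2 ⟨x5, h⟩, x4.vt hG x5 h⟩
    · have h8 := x2.resolve_left h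
      exact ⟨Or.inr ⟨x, x3, rfl⟩, Finset.mem_filter.2 ⟨x6, h8⟩, x4.vh hG x6 h8⟩
  · intro y hy
    obtain ⟨x, hx, rfl⟩ := Finset.mem_image.1 hy
    rw [hR2] at hx
    obtain ⟨x1, x2⟩ := Finset.mem_filter.1 hx
    obtain ⟨x6, x7, x8, x9, x10, x11⟩ := hB''p x x1
    obtain ⟨p1, p2, p3, p4, p5, p6⟩ := x7.hd hG
    obtain ⟨t1, t2, t3, t4, t5, t6⟩ := x7.tl hG
    rw [hc2]
    dsimp only
    split_ifs with h
    · refine ⟨mem_kS89 G ((mem_Lv15 G).1 x7.l3).1, Or.inl ⟨x7.l3, ?_, ?_⟩⟩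
      · rw [t2]
        intro h2
        have h3 := ((mem_Lv15 G).1 h2).2.2
        rw [t4] at h3
        rw [hPt] at h
        have := h.1
        omega
      · rw [t2]
        rw [hPt] at h
        exact h.2
    · have h2 := x2.resolve_left h
      rw [hPh] at h2
      refine ⟨p1, Or.inr ⟨?_, h2.2, ?_⟩⟩
      · intro h3
        have h4 := ((mem_Lv15 G).1 h3).2.2
        rw [p4] at h4
        have := h2.1
        omega
      · rw [p2, p3]
        exact x7.l1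
  · intro s hs
    obtain ⟨s1, s2⟩ := Finset.mem_filter.1 hs
    obtain ⟨⟨x, hx, hx1, hx2, hx3⟩, y, hy, ⟨hy1, hy2⟩, _⟩ := (hfib s s1).2 s2
    obtain ⟨x1, x2⟩ := Finset.mem_filter.1 hx
    obtain ⟨y1, y2⟩ := Finset.mem_filter.1 hy
    obtain ⟨_, bx, h3, h4, h5, h6, h7, h8, _⟩ := hR3p x x1
    obtain ⟨_, by', _⟩ := hR3p y y1
    rw [x2] at h3 h4 h7
    refine ⟨h3, h4, by rw [hx1]; exact bx.g0', by rw [hy1]; exact by'.g1', h7, ?_,
      sg G (sg G (sg G x)), ?_, hx3⟩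
    · rw [hy1, hy2]
      exact by'.l1
    · rw [hx2]
      exact bx.l3
  · intro z hz
    obtain ⟨x, hx, rfl⟩ := Finset.mem_image.1 hz
    obtain ⟨x1, x2, x3, x4, x5, x6, x7, x8, x9, x10⟩ := hR4p x hx
    obtain ⟨u1, u2⟩ := hun x hx
    obtain ⟨e1, _, _, e4⟩ := x2.uh hG x4 x6 x8
    obtain ⟨_, _, _, f4⟩ := x2.ut hG x3 x5 x7
    have e5 : (x.2, x.1) ∈ Bv G x.2 := by
      rw [e1]
      exact Finset.mem_insert_of_mem (Finset.mem_singleton_self _)
    refine ⟨((mem_Bv62 G).1 e5).1, x1, u1, u2, ?_, x4, x3, x6, x5, x8, x7, ?_⟩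
    · intro h
      obtain ⟨y, hy, hyx⟩ := Finset.mem_image.1 h
      exact x2.zne hG (hR4p y hy).2.1 x3 x5 x7 (hun y hy).1 hyx.symm
    · change gc G al (x.2, x.1) + gc G al (sg G (x.2, x.1)) =
        2 - 2 * ep al - (gc G al x + gc G al (sg G x))
      linarith
  · rw [Finset.disjoint_left]
    intro x hx hx'
    rw [hB0] at hx
    have hn := (hB x (Finset.mem_filter.1 hx).1).noLv hG
    rcases Finset.mem_union.1 hx' with h | h
    · obtain ⟨y, hy, rfl⟩ := Finset.mem_image.1 h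
      rw [hR2] at hy
      obtain ⟨y1, y2⟩ := Finset.mem_filter.1 hy
      obtain ⟨_, by', _⟩ := hB''p y y1
      obtain ⟨_, _, p3, _⟩ := by'.hd hG
      rw [hc2] at hn
      dsimp only at hn
      split_ifs at hn
      · have := by'.l3
        rw [hn] at this
        exact Finset.notMem_empty _ this
      · have := by'.l1
        rw [← p3, hn] at this
        exact Finset.notMem_empty _ this
    · obtain ⟨s1, s2⟩ := Finset.mem_filter.1 h
      obtain ⟨_, y, hy, ⟨hy1, hy2⟩, _⟩ := (hfib x s1).2 s2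
      obtain ⟨_, by', _⟩ := hR3p y (Finset.mem_filter.1 hy).1
      have := by'.l1
      rw [← hy2, hn] at this
      exact Finset.notMem_empty _ this
  · rw [Finset.disjoint_left]
    intro s hs hs'
    obtain ⟨s1, s2⟩ := Finset.mem_filter.1 hs'
    obtain ⟨⟨x, hx, _⟩, y, hy, ⟨hy1, hy2⟩, _⟩ := (hfib s s1).2 s2
    obtain ⟨x1, x2⟩ := Finset.mem_filter.1 hx
    obtain ⟨_, by', _⟩ := hR3p y (Finset.mem_filter.1 hy).1
    obtain ⟨_, _, _, _, _, _, h7, _, _⟩ := hR3p x x1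
    rw [x2] at h7
    obtain ⟨z, hz, hzs⟩ := Finset.mem_image.1 hs
    rw [hR2] at hz
    obtain ⟨z1, z2⟩ := Finset.mem_filter.1 hz
    obtain ⟨_, bz, _⟩ := hB''p z z1
    obtain ⟨p1, p2, p3, p4, p5, p6⟩ := bz.hd hG
    obtain ⟨t1, t2, t3, t4, t5, t6⟩ := bz.tl hG
    rw [hc2] at hzs
    dsimp only at hzs
    split_ifs at hzs with h
    · have h1 := ((mem_Lv15 G).1 by'.l1).2.2
      have h2 : nx G s = sg G (sg G (sg G (sg G z))) := by rw [← hzs, t2]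
      rw [← hy1, h2, t4] at h1
      rw [hPt] at h
      have := h.1
      omega
    · have h1 := z2.resolve_left h
      rw [hPh] at h1
      have h2 := h1.2
      rw [hzs, h7] at h2
      omega
  · rw [Finset.card_image_of_injOn i1, Finset.card_image_of_injOn i2,
      Finset.card_image_of_injOn i4]
    omega

end

end Pool.Agent.PEN.E5
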