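import Pool.Agent.E5.KH2
import Pool.Agent.E5.Op15
import Pool.Agent.E5.Pb39

/-! # PENNY, all small diameters: set B6, the complete row of the black faces

The row `(K)` of the final sum with the sets `GH`, `XS`, `VW`, `L6`, `RK = RP ∪ LO ∪ B0`. -/

set_option autoImplicit false

namespace Pool.Agent.PEN.E5

open Classical UpperHalfPlane
open Pool.Agent.PEN.Cl

noncomputable section

variable {V : Type} (G : Tg V) {al : ℝ} {kp : V → V → ℝ} {U : ℕ → ℝ}

theorem notSf_PK2 {K : (cg G).ConnectedComponent} (h : PK G al K = ∅) : K ∉ Sf G al := by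
  intro h1
  obtain ⟨s, hs⟩ := PK_ne54 G h1
  rw [h] at hs
  exact absurd hs (Finset.notMem_empty s)

theorem Xc_Exc2 {K : (cg G).ConnectedComponent} (h : Xc2 G al K) : Exc G al K := by
  obtain ⟨hin, h | h | h⟩ := h
  · obtain ⟨x, h1, h2, h3, h4⟩ := h
    exact ⟨x, Or.inl ⟨h1, notSf_PK2 G h2, h3, h4, hin⟩⟩
  · obtain ⟨x, h1, h2, h3, h4⟩ := h
    exact ⟨x, Or.inr (Or.inl ⟨h1, h2, h3, h4, hin⟩)⟩
  · obtain ⟨h1, h2, h3, h4⟩ := h
    obtain ⟨b, hb⟩ := Finset.card_eq_one.1 h3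
    exact ⟨b, Or.inr (Or.inr ⟨h1, notSf_PK2 G h2, hb, h4, hin⟩)⟩

/-- an exceptional black face: one leaf, one payer or one weak side -/
theorem Exc_one2 {K : (cg G).ConnectedComponent} (h : Exc G al K) :
    (∀ y ∈ kS G K, y.2 ∈ inN G) ∧
      (Lv G K).card + (PK G al K).card + (WsK G al K).card = 1 := by
  obtain ⟨x, h | h | h⟩ := h
  · obtain ⟨h1, h2, h3, _, h5⟩ := h
    refine ⟨h5, ?_⟩
    rw [h1, h3, PK_empty15 G h2, Finset.card_singleton, Finset.card_empty]
  · obtain ⟨h1, h2, h3, _, h5⟩ := h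
    refine ⟨h5, ?_⟩
    rw [h1, h2, h3, Finset.card_singleton, Finset.card_empty]
  · obtain ⟨h1, h2, h3, _, h5⟩ := h
    refine ⟨h5, ?_⟩
    rw [h1, h3, PK_empty15 G h2, Finset.card_singleton, Finset.card_empty]

theorem uK_inner2 {K : (cg G).ConnectedComponent} (hin : ∀ y ∈ kS G K, y.2 ∈ inN G) :
    uK14 G al K = 0 ∧ oK14 G K = 0 := by
  constructor
  · unfold uK14
    rw [Finset.sum_eq_zero]
    intro x hx
    obtain ⟨h2, h3⟩ := Finset.mem_filter.1 hx
    exact absurd (hin x h2) h3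
  · unfold oK14
    rw [Finset.card_eq_zero, Finset.filter_eq_empty_iff]
    exact fun x hx h => h.2 (hin x hx)

/-- the class of the next corner -/
theorem H17_sg2 (hG : G.Geo4 al kp U) {x : V × V} (hx : x ∈ BC G) :
    G.cl (sg G x) = G.cl x := (W4.sg_mem51 G hG ((mem_BC89 G).1 hx).1).2

/-- the weights of the weak sides of a black face -/
theorem wk_bad2 {K : (cg G).ConnectedComponent} (ht : tK G K = 0) (hS : K ∉ Sf G al)
    (hW : (WsK G al K).card = 1) : ∀ z ∈ WsK G al K, 4 ≤ wk15 G al z := by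
  intro z hz
  obtain ⟨h1, h2, h3⟩ := (mem_WsK63 G).1 hz
  have hk := ((mem_kS42 G).1 h1).2
  obtain ⟨b, hb⟩ := Finset.card_eq_one.1 hW
  have hzb : z = b := by
    rw [hb, Finset.mem_singleton] at hz
    exact hz
  unfold wk15
  rw [if_pos ⟨h2, h3⟩, if_neg]
  rintro ⟨_, h4⟩
  exact h4 ⟨by rw [hk]; exact ht, by rw [hk]; exact hS, by rw [hk, hb, hzb]⟩

/-- **the row of the black faces without the sets `XS`, `B0`** -/
theorem krow_base2 (hG : G.Geo4 al kp U) (hT : ∀ x ∈ iJ G, gc G al x ≤ 1) (he : ep al ≤ 1 / 2)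
    (hgd : ∀ a ∈ GH G al, 1 / 2 ≤ gc G al a ∧ 1 / 2 ≤ gc G al (sg G a))
    (hF3 : ∀ a ∈ GH G al, Lv G (ku G a) = ∅ → 47 / 100 ≤ sp G al a)
    (hPw : ∀ z ∈ BC G, P12c G al (G.cl z) → -(23 : ℝ) / 50 ≤ sp G al z)
    {RP LO : Finset (V × V)}
    (hRP : ∀ K, Pr2 G K (RP.filter (fun y => y ∈ kS G K)))
    (hLO : ∀ y ∈ LO, y ∈ Lb63 G al (ku G y) ∧ 2 ≤ (Lv G (ku G y)).card)
    (K : (cg G).ConnectedComponent) (hE : ¬ Exc G al K ∨
      (cK15 G (GH G al) K = 0 ∧ rK15 G RP K = 0 ∧ rK15 G LO K = 0)) :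
    wx G 1 K + (Lv G K).card + F14 G K + Z14 G K +
        (cK15 G (GH G al) K + rK15 G RP K + rK15 G LO K) ≤
      ∑ s ∈ PK G al K, max (4 - (rn G s : ℝ)) 0 + ∑ z ∈ WsK G al K, wk15 G al z +
        ∑ x ∈ Lv G K, ps15 G al (sg G x) + 5 * uK14 G al K + 3 * fe14 G K := by
  have hLv : ∀ x ∈ Lv G K, x ∈ BC G ∧ nx G x = sg G x := by
    intro x hx
    obtain ⟨h1, h2, h3⟩ := (mem_Lv15 G).1 hx
    exact ⟨(BC_head14 G hG (mem_kS89 G h1) h2).1, (leaf_gc2 G hG hT (mem_kS89 G h1) h2 h3).1⟩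
  refine kh2 G hG hT he (H := fun x => H17c G al (G.cl x))
    (A := (kS G K).filter (fun x => x ∈ BC G ∧ x ∈ GH G al))
    (P := (kS G K).filter (fun x => x ∈ RP)) (Q := (kS G K).filter (fun x => x ∈ LO))
    ?_ ?_ ?_ ?_ ?_ (fun x _ => pm_le_ps15 G _) ?_ ?_ ?_ ?_ ?_ ?_
  · intro y hy
    obtain ⟨h1, h2⟩ := hLv y hy
    rw [h2, H17_sg2 G hG h1]
  · intro x hx
    obtain ⟨h1, h2, h3⟩ := Finset.mem_filter.1 hx
    refine Finset.mem_filter.2 ⟨(mem_Gb63 G).2 ⟨h1, h2, hgd x h3⟩, ?_⟩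
    unfold GH at h3
    exact (Finset.mem_filter.1 h3).2.1.1
  · intro y hy
    obtain ⟨h1, h2⟩ := Finset.mem_filter.1 hy
    exact hRP K y (Finset.mem_filter.2 ⟨h2, h1⟩)
  · intro y hy
    obtain ⟨h1, h2⟩ := Finset.mem_filter.1 hy
    have h3 := (hLO y h2).1
    rw [((mem_kS42 G).1 h1).2] at h3
    exact h3
  · intro hL
    rw [Finset.filter_eq_empty_iff]
    intro y hy h2
    have h3 := (hLO y h2).2
    rw [((mem_kS42 G).1 hy).2, hL, Finset.card_empty] at h3
    omega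
  · intro x hx h
    obtain ⟨h1, _⟩ := hLv x hx
    unfold ps15
    rw [if_pos (Or.inl (by rw [H17_sg2 G hG h1]; exact h))]
    exact le_max_left _ _
  · intro x _ h
    unfold ps15
    rw [if_pos (Or.inr (Or.inr h))]
    exact le_max_left _ _
  · intro z hz
    obtain ⟨_, h2, h3⟩ := (mem_WsK63 G).1 hz
    exact wk_ge15 G h2 h3
  · exact fun h1 h2 h3 => wk_bad2 G h1 h2 h3
  · intro hL hP z hz
    obtain ⟨h1, h2, h3⟩ := (mem_WsK63 G).1 hz
    by_cases h4 : P12c G al (G.cl z)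
    · right
      intro a ha
      obtain ⟨h5, h6, h7⟩ := Finset.mem_filter.1 ha
      have h8 := hF3 a h7 (by rw [((mem_kS42 G).1 h5).2]; exact hL)
      have h9 := hPw z h2 h4
      linarith
    · left
      unfold wk15
      rw [if_pos ⟨h2, h3⟩, if_neg (fun h => h4 h.1)]
  · rcases hE with hE | ⟨h1, h2, h3⟩
    · exact Or.inr fun h => hE (Xc_Exc2 G h)
    · exact Or.inl ⟨Finset.card_eq_zero.1 h1, Finset.card_eq_zero.1 h2, Finset.card_eq_zero.1 h3⟩

theorem mem_cK2 {S : Finset (V × V)} {K : (cg G).ConnectedComponent} (h : cK15 G S K ≠ 0) :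
    ∃ x ∈ kS G K, x ∈ BC G ∧ x ∈ S := by
  unfold cK15 at h
  obtain ⟨x, hx⟩ := Finset.card_pos.1 (Nat.pos_of_ne_zero h)
  obtain ⟨h1, h2⟩ := Finset.mem_filter.1 hx
  exact ⟨x, h1, h2⟩

theorem mem_rK2 {S : Finset (V × V)} {K : (cg G).ConnectedComponent} (h : rK15 G S K ≠ 0) :
    ∃ x ∈ kS G K, x ∈ S := by
  unfold rK15 at h
  obtain ⟨x, hx⟩ := Finset.card_pos.1 (Nat.pos_of_ne_zero h)
  obtain ⟨h1, h2⟩ := Finset.mem_filter.1 hx
  exact ⟨x, h1, h2⟩

theorem rK_union2 (S T : Finset (V × V)) (K : (cg G).ConnectedComponent) :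
    rK15 G (S ∪ T) K ≤ rK15 G S K + rK15 G T K := by
  unfold rK15
  refine le_trans (Finset.card_le_card ?_) (Finset.card_union_le _ _)
  intro x hx
  obtain ⟨h1, h2⟩ := Finset.mem_filter.1 hx
  rcases Finset.mem_union.1 h2 with h | h
  · exact Finset.mem_union_left _ (Finset.mem_filter.2 ⟨h1, h⟩)
  · exact Finset.mem_union_right _ (Finset.mem_filter.2 ⟨h1, h⟩)

/-- the weights of the faces with weight two vanish in the row -/
theorem yK_row2 (K : (cg G).ConnectedComponent) :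
    yK15 G al K * (Lv G K).card = (Lv G K).card ∧
      (yK15 G al K - 1) * (uK14 G al K - oK14 G K) = 0 := by
  by_cases h : ∃ x, Ex2 G al K x ∧ (1 ≤ tK G K ∨ ∃ s ∈ Sv G x.2, rn G s ≠ 0)
  · obtain ⟨x, h1, _⟩ := h
    obtain ⟨h2, h3⟩ := uK_inner2 G (al := al) h1.2.2.2.2
    rw [h1.1, h2, h3, Finset.card_empty]
    push_cast
    constructor <;> ring
  · have h1 : yK15 G al K = 1 := by
      unfold yK15
      rw [if_neg h]
    rw [h1]
    constructor <;> ring

/-- no pairs of a leaf and a large run in exceptional faces -/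
theorem RP_exc2 (hG : G.Geo4 al kp U) {K : (cg G).ConnectedComponent} (h : Exc G al K)
    {y : V × V} (hy : y ∈ kS G K)
    (hRP : (y ∈ Lv G K ∧ nx G y ∉ Lv G K ∧ 3 ≤ rn G (nx G y)) ∨
      (y ∉ Lv G K ∧ 3 ≤ rn G y ∧ nx G y ∈ Lv G K)) : False := by
  have key : ∀ u ∈ kS G K, ∀ v ∈ Lv G K, u ∉ Lv G K → 3 ≤ rn G u → False := by
    intro u hu v hv hul hr
    obtain ⟨x, h | h | h⟩ := h
    · obtain ⟨h1, h2, h3, h4, h5⟩ := h
      have hvx : v = x := by
        rw [h1, Finset.mem_singleton] at hv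
        exact hv
      have hux : u ≠ x := fun h6 => hul (by rw [h6, ← hvx]; exact hv)
      have hxk : x ∈ kS G K := by
        rw [← hvx]
        exact ((mem_Lv15 G).1 hv).1
      have h6 := rn_le_tK63 G hG (mem_kS89 G hu)
      rw [((mem_kS42 G).1 hu).2] at h6
      have h7 := (pure_le85 G hG hxk h4 (by omega) hu hux).2
      omega
    · rw [h.1] at hv
      exact absurd hv (Finset.notMem_empty v)
    · rw [h.1] at hv
      exact absurd hv (Finset.notMem_empty v)
  rcases hRP with ⟨h1, h2, h3⟩ | ⟨h1, h2, h3⟩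
  · exact key _ (nx_kS89 G hG hy) y h1 h2 h3
  · exact key y hy _ h3 h1 h2

/-- predecessor and successor leaves: two leaves -/
theorem LO_two2 (hG : G.Geo4 al kp U) {K : (cg G).ConnectedComponent} {s : V × V}
    (hr : 1 ≤ rn G s) (h1 : ∃ y ∈ Lv G K, nx G y = s) (h2 : nx G s ∈ Lv G K) :
    2 ≤ (Lv G K).card := by
  obtain ⟨y, hy, hys⟩ := h1
  have hyS := mem_kS89 G ((mem_Lv15 G).1 hy).1
  have hs : s ∈ SD G := by
    rw [← hys]
    exact (nx_ku63 G hG hyS).1
  have hne : y ≠ nx G s := by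
    intro h
    have e1 : y.1 = s.2 := by rw [h]; rfl
    have e2 : s.1 = y.2 := by rw [← hys]; rfl
    have h3 := (rn_pos54 G hG hs).1 (by omega)
    have h4 : y = (s.2, s.1) := Prod.ext e1 e2.symm
    rw [← h4] at h3
    exact ((mem_SD42 G).1 hyS).2 h3
  have h5 : ({y, nx G s} : Finset (V × V)) ⊆ Lv G K := by
    intro u hu
    rw [Finset.mem_insert, Finset.mem_singleton] at hu
    rcases hu with hu | hu
    · rw [hu]; exact hy
    · rw [hu]; exact h2
  have h6 := Finset.card_le_card h5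
  rw [Finset.card_pair hne] at h6
  exact h6

/-- pairs in helper39's form -/
theorem RP_of2 {RP : Finset (V × V)}
    (hRP : ∀ y ∈ RP, y ∈ SD G ∧ ((y ∈ Lv G (ku G y) ∧ nx G y ∉ Lv G (ku G y) ∧
      3 ≤ rn G (nx G y)) ∨ (y ∉ Lv G (ku G y) ∧ 3 ≤ rn G y ∧ nx G y ∈ Lv G (ku G y)))) :
    ∀ K, Pr2 G K (RP.filter (fun y => y ∈ kS G K)) := by
  intro K y hy
  obtain ⟨h1, h2⟩ := Finset.mem_filter.1 hy
  have h3 := (hRP y h1).2
  rw [((mem_kS42 G).1 h2).2] at h3
  exact ⟨h2, h3⟩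

/-- low low sectors in helper39's form -/
theorem LO_of2 (hG : G.Geo4 al kp U) {LO : Finset (V × V)}
    (hLO : ∀ s ∈ LO, s ∈ SD G ∧ s.2 ∈ inN G ∧ gc G al (sg G s) < 1 / 2 ∧
      gc G al (nx G s) < 1 / 2 ∧ rn G s = 1 ∧ nx G s ∈ Lv G (ku G s) ∧
      ∃ y ∈ Lv G (ku G s), nx G y = s) :
    ∀ y ∈ LO, y ∈ Lb63 G al (ku G y) ∧ 2 ≤ (Lv G (ku G y)).card := by
  intro s hs
  obtain ⟨h1, h2, h3, h4, h5, h6, h7⟩ := hLO s hs
  exact ⟨(mem_Lb63 G).2 ⟨(mem_kS42 G).2 ⟨h1, rfl⟩, h2, h3, h4⟩,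
    LO_two2 G hG (by omega) h7 h6⟩

/-- the digons with a payer and a full use -/
theorem kuse2 (hG : G.Geo4 al kp U) (hT : ∀ x ∈ iJ G, gc G al x ≤ 1)
    {K : (cg G).ConnectedComponent} (ht : tK G K = 0)
    (h2 : 1 ≤ (PK G al K).card) (hu : 1 ≤ uK14 G al K) {p w : V × V → ℝ}
    (hp0 : ∀ x ∈ Lv G K, pm G al (sg G x) ≤ p (sg G x)) (hw3 : ∀ z ∈ WsK G al K, 3 ≤ w z) :
    wx G 1 K + (Lv G K).card + F14 G K + Z14 G K + 2 ≤
      ∑ s ∈ PK G al K, max (4 - (rn G s : ℝ)) 0 + ∑ z ∈ WsK G al K, w z +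
        ∑ x ∈ Lv G K, p (sg G x) + 5 * uK14 G al K + 3 * fe14 G K := by
  have hfe : (0 : ℝ) ≤ fe14 G K := Nat.cast_nonneg _
  have hr0 : ∀ x ∈ kS G K, rn G x = 0 := by
    intro x hx
    obtain ⟨h5, h6⟩ := (mem_kS42 G).1 hx
    exact (tK_zero54 G hG h5).1 (by rw [h6]; exact ht)
  have hW : 0 ≤ ∑ z ∈ WsK G al K, w z :=
    Finset.sum_nonneg fun z hz => le_trans (by norm_num) (hw3 z hz)
  have hPK : 4 * ((PK G al K).card : ℝ) ≤ ∑ s ∈ PK G al K, max (4 - (rn G s : ℝ)) 0 := by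
    rw [mul_comm, ← nsmul_eq_mul, ← Finset.sum_const]
    refine Finset.sum_le_sum fun s hs => ?_
    rw [hr0 s ((mem_PK63 G).1 hs).1]
    refine le_trans ?_ (le_max_left _ _)
    norm_num
  have hLp : ((Lv G K).card : ℝ) ≤ ∑ x ∈ Lv G K, p (sg G x) := by
    rw [← nsmul_one, ← Finset.sum_const]
    refine Finset.sum_le_sum fun x hx => ?_
    have h3 := leaf_sum15 G hG hT hx (al := al)
    rw [hr0 x ((mem_Lv15 G).1 hx).1] at h3
    have h4 : (un G al (sg G x) : ℝ) = 7 := by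
      have : un G al (sg G x) = 7 := by omega
      exact_mod_cast this
    have h5 := hp0 x hx
    have h6 : (un G al (sg G x) : ℝ) - 3 ≤ pm G al (sg G x) := le_max_left _ _
    rw [h4] at h6
    linarith
  obtain ⟨y, hy⟩ := Finset.card_pos.1 h2
  obtain ⟨y1, y2, _⟩ := (mem_PK63 G).1 hy
  have h4 := lemTS54 G hG y1 (inner_sides85 G hG (mem_kS89 G y1) y2).1
  have h2' : (1 : ℝ) ≤ (PK G al K).card := by exact_mod_cast h2
  linarith

/-- **the complete row of the black faces**, in the letters of `row_fin15` -/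
theorem krow_fin2 (hG : G.Geo4 al kp U) (hT : ∀ x ∈ iJ G, gc G al x ≤ 1) (he : ep al ≤ 1 / 2)
    (hGH : ∀ a ∈ GH G al, 1 / 2 ≤ gc G al a ∧ 1 / 2 ≤ gc G al (sg G a))
    (hGS : ∀ a ∈ GH G al, Lv G (ku G a) = ∅ → 47 / 100 ≤ sp G al a)
    (hPw : ∀ z ∈ BC G, P12c G al (G.cl z) → -(23 : ℝ) / 50 ≤ sp G al z)
    {XS VW L6 B0 RP LO : Finset (V × V)}
    (hX : ∀ e ∈ XS, e ∈ BC G ∧ e ∉ GH G al ∧
      ((Xa15 G al e ∧ (e.2, e.1) ∈ VW) ∨
       (Xb15 G al e ∧ ∀ x, Ex1 G al (ku G e) x → sg G x ∈ L6) ∨ Xc15 G al e))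
    (hB0 : ∀ z ∈ B0, Lv G (ku G z) = ∅ ∧ PK G al (ku G z) = ∅ ∧ WsK G al (ku G z) = {z} ∧
      4 ≤ wk15 G al z ∧ 1 ≤ oK14 G (ku G z) ∧ 1 / 4 ≤ uK14 G al (ku G z))
    (hRP : ∀ K, Pr2 G K (RP.filter (fun y => y ∈ kS G K)))
    (hLO : ∀ y ∈ LO, y ∈ Lb63 G al (ku G y) ∧ 2 ≤ (Lv G (ku G y)).card)
    (K : (cg G).ConnectedComponent) :
    wx G 1 K + yK15 G al K * (Lv G K).card + F14 G K + Z14 G K +
        cK15 G (GH G al) K + cK15 G XS K + rK15 G B0 K + rK15 G RP K + rK15 G LO K ≤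
      ∑ s ∈ PK G al K, max (4 - (rn G s : ℝ)) 0 +
      ∑ x ∈ (kS G K).filter (fun x => x ∈ BC G), wk15 G al x + cK15 G VW K +
      ∑ x ∈ Lv G K, ps15 G al (sg G x) + lK15 G L6 K +
      11 / 2 * uK14 G al K - (yK15 G al K - 1) * (uK14 G al K - oK14 G K) + 3 * fe14 G K := by
  obtain ⟨y1, y2⟩ := yK_row2 G (al := al) K
  have hU := uK_nonneg14 G hG (al := al) K
  have hfe : (0 : ℝ) ≤ fe14 G K := Nat.cast_nonneg _
  have hVW0 : (0 : ℝ) ≤ cK15 G VW K := Nat.cast_nonneg _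
  have hL60 : (0 : ℝ) ≤ lK15 G L6 K := Nat.cast_nonneg _
  rw [y1, y2, sum_wk15 G K]
  have hGHf : ((kS G K).filter (fun x => x ∈ BC G ∧ x ∈ GH G al)).card =
      cK15 G (GH G al) K := rfl
  have hLOk : ∀ u ∈ kS G K, u ∈ LO → u ∈ Lb63 G al K ∧ 2 ≤ (Lv G K).card := by
    intro u hu h
    have h1 := hLO u h
    rw [((mem_kS42 G).1 hu).2] at h1
    exact h1
  by_cases hE : Exc G al K
  · -- exceptional
    obtain ⟨hin, hone⟩ := Exc_one2 G hE
    obtain ⟨u0, o0⟩ := uK_inner2 G (al := al) hin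
    have g0 : cK15 G (GH G al) K = 0 := by
      by_contra h
      obtain ⟨x, h1, _, h3⟩ := mem_cK2 G h
      unfold GH at h3
      have h4 := (Finset.mem_filter.1 h3).2.2
      rw [((mem_kS42 G).1 h1).2] at h4
      exact h4 hE
    have p0 : rK15 G RP K = 0 := by
      by_contra h
      obtain ⟨x, h1, h2⟩ := mem_rK2 G h
      exact RP_exc2 G hG hE h1 (hRP K x (Finset.mem_filter.2 ⟨h2, h1⟩)).2
    have l0 : rK15 G LO K = 0 := by
      by_contra h
      obtain ⟨x, h1, h2⟩ := mem_rK2 G h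
      have := (hLOk x h1 h2).2
      omega
    have b0 : rK15 G B0 K = 0 := by
      by_contra h
      obtain ⟨x, h1, h2⟩ := mem_rK2 G h
      obtain ⟨_, _, _, _, h3, _⟩ := hB0 x h2
      rw [((mem_kS42 G).1 h1).2] at h3
      omega
    have hXS : cK15 G XS K ≤ cK15 G VW K + lK15 G L6 K := by
      by_cases h2 : cK15 G XS K = 0
      · omega
      -- the sides of `XS` are good
      have hgood : ∀ e ∈ kS G K, e ∈ XS → ((Xa15 G al e ∧ (e.2, e.1) ∈ VW) ∨
          (Xb15 G al e ∧ ∀ x, Ex1 G al (ku G e) x → sg G x ∈ L6)) := by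
        intro e he heX
        obtain ⟨_, _, h6 | h6 | h6⟩ := hX e heX
        · exact Or.inl h6
        · exact Or.inr h6
        · exfalso
          obtain ⟨h7, h8⟩ := h6
          rw [((mem_kS42 G).1 he).2] at h8
          rcases h8 with h8 | ⟨h8, h9⟩
          · omega
          · rw [u0] at h9
            linarith
      have h1 : cK15 G XS K ≤ 1 := by
        have h2 := good_le2 G hG (A := (kS G K).filter (fun x => x ∈ BC G ∧ x ∈ XS)) (Q := ∅)
          (K := K) (al := al) (fun x hx => by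
            obtain ⟨a1, a2, a3⟩ := Finset.mem_filter.1 hx
            rcases hgood x a1 a3 with h | h
            · exact (mem_Gb63 G).2 ⟨a1, a2, h.1.2.2.2.2⟩
            · exact (mem_Gb63 G).2 ⟨a1, a2, h.1.2.2⟩) (Finset.empty_subset _)
        rw [u0, o0] at h2
        have h3 : ((Lv G K).card : ℝ) + (PK G al K).card + (WsK G al K).card = 1 := by
          exact_mod_cast hone
        rw [h3, Finset.card_empty] at h2
        push_cast at h2
        have h4 : (cK15 G XS K : ℝ) ≤ 1 := by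
          unfold cK15
          linarith
        exact_mod_cast h4
      obtain ⟨e, h3, h4, h5⟩ := mem_cK2 G h2
      have hk := ((mem_kS42 G).1 h3).2
      rcases hgood e h3 h5 with ⟨h7, hb⟩ | ⟨h7, h8⟩
      · have h8 : (e.2, e.1) ∈ WsK G al K := by
          have h9 := h7.1.2.2.1
          rw [hk] at h9
          rw [h9]
          exact Finset.mem_singleton_self _
        obtain ⟨h9, h10, _⟩ := (mem_WsK63 G).1 h8
        have : 0 < cK15 G VW K := Finset.card_pos.2 ⟨_, Finset.mem_filter.2 ⟨h9, h10, hb⟩⟩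
        omega
      · obtain ⟨x, hx⟩ := h7.1
        have h9 := h8 x hx
        have h10 : x ∈ Lv G K := by
          have h11 := hx.1
          rw [hk] at h11
          rw [h11]
          exact Finset.mem_singleton_self x
        have : 0 < lK15 G L6 K := Finset.card_pos.2 ⟨x, Finset.mem_filter.2 ⟨h10, h9⟩⟩
        omega
    have h1 := krow_base2 G hG hT he hGH hGS hPw hRP hLO K (Or.inr ⟨g0, p0, l0⟩)
    have hXS' : (cK15 G XS K : ℝ) ≤ cK15 G VW K + lK15 G L6 K := by exact_mod_cast hXS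
    rw [g0, p0, l0] at h1
    rw [g0, p0, l0, b0]
    push_cast at h1 ⊢
    linarith
  · by_cases hX0 : cK15 G XS K = 0
    · rw [hX0]
      by_cases hB : rK15 G B0 K = 0
      · have h1 := krow_base2 G hG hT he hGH hGS hPw hRP hLO K (Or.inl hE)
        rw [hB]
        push_cast
        linarith
      · obtain ⟨x, h1, h2⟩ := mem_rK2 G hB
        obtain ⟨k1, k2, k3, k4, k5, k6⟩ := hB0 x h2
        rw [((mem_kS42 G).1 h1).2] at k1 k2 k3 k5 k6
        have hb1 : rK15 G B0 K ≤ 1 := by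
          unfold rK15
          rw [Finset.card_le_one]
          intro a ha b hb
          obtain ⟨a1, a2⟩ := Finset.mem_filter.1 ha
          obtain ⟨b1, b2⟩ := Finset.mem_filter.1 hb
          have a3 := (hB0 a a2).2.2.1
          have b3 := (hB0 b b2).2.2.1
          rw [((mem_kS42 G).1 a1).2, k3] at a3
          rw [((mem_kS42 G).1 b1).2, k3] at b3
          exact (Finset.singleton_injective a3).symm.trans (Finset.singleton_injective b3)
        have p0 : rK15 G RP K = 0 := by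
          by_contra h
          obtain ⟨u, u1, u2⟩ := mem_rK2 G h
          have u3 := (hRP K u (Finset.mem_filter.2 ⟨u2, u1⟩)).2
          rw [k1] at u3
          rcases u3 with u3 | u3
          · exact Finset.notMem_empty _ u3.1
          · exact Finset.notMem_empty _ u3.2.2
        have l0 : rK15 G LO K = 0 := by
          by_contra h
          obtain ⟨u, u1, u2⟩ := mem_rK2 G h
          have u3 := (hLOk u u1 u2).2
          rw [k1, Finset.card_empty] at u3
          omega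
        have h3 := kzero2 G hG (A := (kS G K).filter (fun x => x ∈ BC G ∧ x ∈ GH G al))
          (w := wk15 G al) (fun a ha => by
            obtain ⟨a1, a2, a3⟩ := Finset.mem_filter.1 ha
            exact (mem_Gb63 G).2 ⟨a1, a2, hGH a a3⟩) k1 k2 k3 k4 k5 k6
        have hb1' : (rK15 G B0 K : ℝ) ≤ 1 := by exact_mod_cast hb1
        rw [hGHf] at h3
        rw [k1, k2, p0, l0, Finset.card_empty, Finset.sum_empty, Finset.sum_empty]
        push_cast
        linarith
    · -- a digon with two sectors or weak sides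
      obtain ⟨e, h3, h4, h5⟩ := mem_cK2 G hX0
      obtain ⟨_, _, h6⟩ := hX e h5
      have hk := ((mem_kS42 G).1 h3).2
      have hdig : tK G K = 0 ∧ (2 ≤ (Lv G K).card + (PK G al K).card + (WsK G al K).card ∨
          (1 ≤ (PK G al K).card ∧ 1 ≤ uK14 G al K)) := by
        rcases h6 with ⟨h7, _⟩ | ⟨h7, _⟩ | h7
        · exfalso
          have h8 := h7.1
          rw [hk] at h8
          exact hE ⟨_, Or.inr (Or.inr h8)⟩
        · exfalso
          obtain ⟨x, h8⟩ := h7.1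
          rw [hk] at h8
          exact hE ⟨x, Or.inl h8⟩
        · have h8 : tK G (ku G e) = 0 ∧ (2 ≤ (Lv G (ku G e)).card + (PK G al (ku G e)).card +
              (WsK G al (ku G e)).card ∨ (1 ≤ (PK G al (ku G e)).card ∧
              1 ≤ uK14 G al (ku G e))) := h7
          rw [hk] at h8
          exact h8
      obtain ⟨ht, h7⟩ := hdig
      have hr0 : ∀ u ∈ kS G K, rn G u = 0 := by
        intro u hu
        have h8 := rn_le_tK63 G hG (mem_kS89 G hu)
        rw [((mem_kS42 G).1 hu).2] at h8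
        omega
      have hk2 := kS_card63 G K
      have p0 : rK15 G RP K = 0 := by
        by_contra h
        obtain ⟨u, u1, u2⟩ := mem_rK2 G h
        rcases (hRP K u (Finset.mem_filter.2 ⟨u2, u1⟩)).2 with u3 | u3
        · have := hr0 _ (nx_kS89 G hG u1)
          omega
        · have := hr0 _ u1
          omega
      have l0 : rK15 G LO K = 0 := by
        by_contra h
        obtain ⟨u, u1, u2⟩ := mem_rK2 G h
        obtain ⟨u3, u4⟩ := hLOk u u1 u2
        obtain ⟨_, _, u5, _⟩ := (mem_Lb63 G).1 u3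
        have u6 : u ∉ Lv G K := by
          intro h8
          obtain ⟨w1, w2, w3⟩ := (mem_Lv15 G).1 h8
          have h9 := (leaf_gc2 G hG hT (mem_kS89 G w1) w2 w3).2
          linarith
        have h8 : insert u (Lv G K) ⊆ kS G K := by
          intro v hv
          rcases Finset.mem_insert.1 hv with h | h
          · rw [h]; exact u1
          · exact ((mem_Lv15 G).1 h).1
        have h9 := Finset.card_le_card h8
        rw [Finset.card_insert_of_notMem u6] at h9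
        omega
      have b0 : rK15 G B0 K = 0 := by
        by_contra h
        obtain ⟨u, u1, u2⟩ := mem_rK2 G h
        obtain ⟨k1, k2, k3, _⟩ := hB0 u u2
        rw [((mem_kS42 G).1 u1).2] at k1 k2 k3
        rw [k1, k2, k3, Finset.card_empty, Finset.card_singleton] at h7
        omega
      have hGX : cK15 G (GH G al) K + cK15 G XS K ≤ 2 := by
        have h8 : Disjoint ((kS G K).filter (fun x => x ∈ BC G ∧ x ∈ GH G al))
            ((kS G K).filter (fun x => x ∈ BC G ∧ x ∈ XS)) := by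
          rw [Finset.disjoint_left]
          intro u u1 u2
          exact (hX u (Finset.mem_filter.1 u2).2.2).2.1 (Finset.mem_filter.1 u1).2.2
        have h9 := Finset.card_union_of_disjoint h8
        have h10 : ((kS G K).filter (fun x => x ∈ BC G ∧ x ∈ GH G al)) ∪
            ((kS G K).filter (fun x => x ∈ BC G ∧ x ∈ XS)) ⊆ kS G K :=
          Finset.union_subset (Finset.filter_subset _ _) (Finset.filter_subset _ _)
        have h11 := Finset.card_le_card h10
        unfold cK15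
        omega
      have hwk : ∀ z ∈ WsK G al K, 3 ≤ wk15 G al z := fun z hz =>
        wk_ge15 G ((mem_WsK63 G).1 hz).2.1 ((mem_WsK63 G).1 hz).2.2
      have h8 : wx G 1 K + (Lv G K).card + F14 G K + Z14 G K + 2 ≤
          ∑ s ∈ PK G al K, max (4 - (rn G s : ℝ)) 0 + ∑ z ∈ WsK G al K, wk15 G al z +
            ∑ x ∈ Lv G K, ps15 G al (sg G x) + 5 * uK14 G al K + 3 * fe14 G K := by
        rcases h7 with h7 | ⟨h7, h8⟩
        · exact kdigon2 G hG hT ht h7 (fun x _ => pm_le_ps15 G _) hwk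
        · exact kuse2 G hG hT ht h7 h8 (fun x _ => pm_le_ps15 G _) hwk
      have hGX' : (cK15 G (GH G al) K : ℝ) + cK15 G XS K ≤ 2 := by exact_mod_cast hGX
      rw [p0, l0, b0]
      push_cast
      linarith

/-- **the bad sides with an outer end** -/
theorem b0_facts2 (hG : G.Geo4 al kp U) {x : V × V} (hx : Bd39 G al x)
    (ho : x.1 ∉ inN G ∨ x.2 ∉ inN G) :
    Lv G (ku G x) = ∅ ∧ PK G al (ku G x) = ∅ ∧ WsK G al (ku G x) = {x} ∧ 4 ≤ wk15 G al x ∧
      1 ≤ oK14 G (ku G x) ∧ 1 / 4 ≤ uK14 G al (ku G x) := by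
  have hxS : x ∈ SD G := hx.xS
  have hr : rn G x = 0 := (tK_zero54 G hG hxS).1 hx.dg
  obtain ⟨d1, d2, _, _, d5, d6⟩ := digon54 G hG hxS hr
  obtain ⟨_, _, _, _, e5, _⟩ := digon54 G hG d1 d6
  have hxk : x ∈ kS G (ku G x) := (mem_kS42 G).2 ⟨hxS, rfl⟩
  have hyk : (x.2, x.1) ∈ kS G (ku G x) := by
    rw [d2]
    exact Finset.mem_insert_of_mem (Finset.mem_singleton_self _)
  have hny : nx G (x.2, x.1) = x := e5
  have hxW : x ∈ WsK G al (ku G x) := by
    rw [hx.ow]
    exact Finset.mem_singleton_self x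
  have hPe : PK G al (ku G x) = ∅ := PK_empty15 G hx.sf
  refine ⟨hx.noLv hG, hPe, hx.ow, wk_bad2 G hx.dg hx.sf
    (by rw [hx.ow, Finset.card_singleton]) x hxW, ?_, ?_⟩
  · by_cases h2 : x.2 ∈ inN G
    · have h1 : x.1 ∉ inN G := ho.resolve_right (not_not.2 h2)
      have h3 := (BC_head14 G hG hxS h2).2
      rw [d5] at h3
      exact Finset.card_pos.2 ⟨(x.2, x.1), Finset.mem_filter.2 ⟨hyk, h3, h1⟩⟩
    · exact Finset.card_pos.2 ⟨x, Finset.mem_filter.2 ⟨hxk, hx.bc, h2⟩⟩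
  · have g1 := gc_nonneg89 G hG (al := al) (x := nx G x)
    have g2 := gc_nonneg89 G hG (al := al) (x := sg G (x.2, x.1))
    unfold uK14
    rcases ho with h1 | h2
    · have h3 : us14 G al (x.2, x.1) ≤
          ∑ z ∈ (kS G (ku G x)).filter (fun z => z.2 ∉ inN G), us14 G al z :=
        Finset.single_le_sum (f := fun z => us14 G al z) (fun z _ => us_nonneg14 G hG z)
          (Finset.mem_filter.2 ⟨hyk, h1⟩)
      refine le_trans ?_ h3
      unfold us14
      rw [hny, if_pos hx.bc]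
      have := hx.g0
      split_ifs <;> linarith
    · have h3 : us14 G al x ≤
          ∑ z ∈ (kS G (ku G x)).filter (fun z => z.2 ∉ inN G), us14 G al z :=
        Finset.single_le_sum (f := fun z => us14 G al z) (fun z _ => us_nonneg14 G hG z)
          (Finset.mem_filter.2 ⟨hxk, h2⟩)
      refine le_trans ?_ h3
      unfold us14
      rw [if_pos hx.bc]
      have := hx.g1
      split_ifs <;> linarith

end

end Pool.Agent.PEN.E5
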