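import Pool.Agent.E5.SkD89
import Pool.Agent.E5.TH19

/-! # PENNY, all small diameters: white faces in gaps

Row R12 of room E. `m = |cJ C|` sides, `t = |cT C|` triangles, `|cI C| = 3 t - m`, `U` units. -/

set_option autoImplicit false

namespace Pool.Agent.PEN.E5

open Classical UpperHalfPlane
open Pool.Agent.PEN.Cl

noncomputable section

variable {V : Type} (G : Tg V) {al : ℝ} {kp : V → V → ℝ} {U : ℕ → ℝ}

/-- the units of a class -/
def uf (al : ℝ) (C : G.adj.ConnectedComponent) : ℕ := ∑ x ∈ G.cJ C, un G al x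

theorem uf_cast46 (C : G.adj.ConnectedComponent) :
    (uf G al C : ℝ) = ∑ x ∈ G.cJ C, (un G al x : ℝ) := by
  unfold uf
  rw [Nat.cast_sum]

theorem ka_uf46 (C : G.adj.ConnectedComponent) :
    ka G al C = (G.cI C).card + 3 * (G.cT C).card - (uf G al C : ℝ) := by
  unfold ka
  rw [uf_cast46]

/-- the corners of a white face are big -/
theorem BC_of_WF46 {C : G.adj.ConnectedComponent} (hC : C ∈ WF G) {x : V × V} (hx : x ∈ G.cJ C) :
    x ∈ BC G := by
  rw [mem_WF89] at hC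
  obtain ⟨h1, h2⟩ := cJ_iJ51 G hC.1 hx
  rw [mem_BC89]
  refine ⟨h1, ?_⟩
  rw [tt_iff89 G h1, h2]
  exact hC.2.ne_empty

theorem un_ge46 {x : V × V} (hx : x ∈ BC G) : 2 ≤ un G al x := by
  unfold un
  rw [if_neg ((mem_BC89 G).1 hx).2]
  exact le_max_left _ _

theorem un_ge_WF46 {C : G.adj.ConnectedComponent} (hC : C ∈ WF G) {x : V × V}
    (hx : x ∈ G.cJ C) : 2 ≤ un G al x := un_ge46 G (BC_of_WF46 G hC hx)

theorem uf_ge46 {C : G.adj.ConnectedComponent} (hC : C ∈ WF G) :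
    2 * (G.cJ C).card ≤ uf G al C := by
  unfold uf
  calc 2 * (G.cJ C).card = ∑ x ∈ G.cJ C, 2 := by simp [mul_comm]
    _ ≤ _ := Finset.sum_le_sum fun x hx => un_ge_WF46 G hC hx

/-- the number of sides -/
theorem m_eq46 {C : G.adj.ConnectedComponent} (hC : C ∈ G.iC) :
    (G.cJ C).card + (G.cI C).card = 3 * (G.cT C).card := by
  have h := card_split66 G C
  rw [cB_of_iC66 G hC, Finset.card_empty] at h
  omega

/-- the side after a side of `C` is a side of `C` -/
theorem sg_cJ46 (hG : G.Geo4 al kp U) {C : G.adj.ConnectedComponent} (hC : C ∈ G.iC) {x : V × V}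
    (hx : x ∈ G.cJ C) : sg G x ∈ G.cJ C := by
  obtain ⟨h1, h2⟩ := cJ_iJ51 G hC hx
  obtain ⟨h3, h4⟩ := W4.sg_mem51 G hG h1
  rw [← iJ_fiber71 G hC, Finset.mem_filter]
  exact ⟨h3, h4.trans h2⟩

/-- `sg` permutes the sides of a class -/
theorem sg_image46 (hG : G.Geo4 al kp U) {C : G.adj.ConnectedComponent} (hC : C ∈ G.iC) :
    (G.cJ C).image (sg G) = G.cJ C := by
  apply Finset.eq_of_subset_of_card_le
  · intro x hx
    obtain ⟨y, hy, rfl⟩ := Finset.mem_image.1 hx
    exact sg_cJ46 G hG hC hy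
  · rw [Finset.card_image_of_injOn]
    intro x hx y hy h
    exact W4.sg_inj51 G hG (cJ_iJ51 G hC (Finset.mem_coe.1 hx)).1
      (cJ_iJ51 G hC (Finset.mem_coe.1 hy)).1 h

theorem sum_sg46 (hG : G.Geo4 al kp U) {C : G.adj.ConnectedComponent} (hC : C ∈ G.iC)
    (f : V × V → ℝ) : ∑ x ∈ G.cJ C, f (sg G x) = ∑ x ∈ G.cJ C, f x := by
  conv_rhs => rw [← sg_image46 G hG hC]
  rw [Finset.sum_image]
  intro x hx y hy h
  exact W4.sg_inj51 G hG (cJ_iJ51 G hC (Finset.mem_coe.1 hx)).1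
    (cJ_iJ51 G hC (Finset.mem_coe.1 hy)).1 h

/-- a side is not its own successor -/
theorem sg_ne46 {x : V × V} (hx : x ∈ iJ G) : sg G x ≠ x := by
  intro h
  have h1 : (sg G x).1 = x.1 := by rw [h]
  have h2 : (sg G x).1 = x.2 := rfl
  rw [h2] at h1
  exact G.ne _ _ (G.sub ((mem_iJ71 G).1 hx).1.1) h1.symm

/-- **(a)** the sum of the gaps of a class, exactly -/
theorem sum_gc_class46 (hG : G.Geo4 al kp U) {C : G.adj.ConnectedComponent} (hC : C ∈ G.iC) :
    ∑ x ∈ G.cJ C, gc G al x = (uf G al C : ℝ) -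
      (Real.pi * (G.cT C).card - ∑ x ∈ G.cD C, G.ar x.1 x.2 / 3) / al := by
  unfold gc
  rw [Finset.sum_sub_distrib, ← Finset.sum_div, W4.sum_TH_class71 G hG hC, sum_th71, uf_cast46]

/-- **(a)** the angles of a class are at most `3 t` units -/
theorem sum_TH_le46 (hG : G.Geo4 al kp U) {C : G.adj.ConnectedComponent} (hC : C ∈ G.iC) :
    ∑ x ∈ G.cJ C, TH G x / al ≤ 3 * (G.cT C).card := by
  have hal := W4.al_pos71 G hG
  rw [← Finset.sum_div, W4.sum_TH_class71 G hG hC, sum_th71, div_le_iff₀ hal]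
  have h := hG.pol C (cB_of_iC66 G hC)
  unfold A3 at h
  linarith

/-- **(a)** the sum of the gaps is at least `U - 3 t` -/
theorem sum_gc_ge46 (hG : G.Geo4 al kp U) {C : G.adj.ConnectedComponent} (hC : C ∈ G.iC) :
    (uf G al C : ℝ) - 3 * (G.cT C).card ≤ ∑ x ∈ G.cJ C, gc G al x := by
  have h := sum_TH_le46 G hG hC
  unfold gc
  rw [Finset.sum_sub_distrib, uf_cast46]
  linarith

/-- **(a)** the sum of the complements of the gaps is at most `m + 3 t - U` -/
theorem sum_cgap46 (hG : G.Geo4 al kp U) {C : G.adj.ConnectedComponent} (hC : C ∈ G.iC) :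
    ∑ x ∈ G.cJ C, (1 - gc G al x) ≤ (G.cJ C).card + 3 * (G.cT C).card - (uf G al C : ℝ) := by
  have h := sum_gc_ge46 G hG hC
  rw [Finset.sum_sub_distrib, Finset.sum_const, nsmul_eq_mul, mul_one]
  linarith

/-- **(b)** the gap of a big corner is at most one -/
theorem gc_le_one46 (hG : G.Geo4 al kp U) {x : V × V} (hx : x ∈ BC G) (hT : al ≤ TH G x) :
    gc G al x ≤ 1 := by
  have hal := W4.al_pos71 G hG
  have h1 : 1 ≤ TH G x / al := (le_div_iff₀ hal).2 (by rw [one_mul]; exact hT)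
  have h2 : (0 : ℝ) ≤ TH G x / al := by linarith
  have h3 := Nat.ceil_lt_add_one h2
  unfold gc un wc
  rw [if_neg ((mem_BC89 G).1 hx).2]
  rcases le_total 2 ⌈TH G x / al⌉₊ with h4 | h4
  · rw [max_eq_right h4]
    linarith
  · rw [max_eq_left h4]
    push_cast
    linarith

/-- **(b)** a corner with at least three units has a gap below one -/
theorem gc_lt_one46 (hG : G.Geo4 al kp U) {x : V × V} (hx : x ∈ BC G) (hT : al ≤ TH G x)
    (hu : 3 ≤ un G al x) : gc G al x < 1 := by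
  have hal := W4.al_pos71 G hG
  have h1 : 1 ≤ TH G x / al := (le_div_iff₀ hal).2 (by rw [one_mul]; exact hT)
  have h2 : (0 : ℝ) ≤ TH G x / al := by linarith
  have h3 := Nat.ceil_lt_add_one h2
  unfold un wc at hu
  unfold gc un wc
  rw [if_neg ((mem_BC89 G).1 hx).2] at hu ⊢
  rcases le_total 2 ⌈TH G x / al⌉₊ with h4 | h4
  · rw [max_eq_right h4]
    linarith
  · rw [max_eq_left h4] at hu
    omega

/-- **(b)** gap one: two units and the corner is `α` -/
theorem gc_one46 (hG : G.Geo4 al kp U) {x : V × V} (hx : x ∈ BC G) (hT : al ≤ TH G x)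
    (h : gc G al x = 1) : TH G x = al ∧ un G al x = 2 := by
  have hal := W4.al_pos71 G hG
  have hu : un G al x = 2 := by
    have h2 : 2 ≤ un G al x := un_ge46 G hx
    by_contra hne
    have h3 := gc_lt_one46 G hG hx hT (by omega)
    linarith
  refine ⟨?_, hu⟩
  unfold gc at h
  rw [hu] at h
  push_cast at h
  have h4 : TH G x / al = 1 := by linarith
  rwa [div_eq_one_iff_eq hal.ne'] at h4

/-- **(c)** the surplus of a side is at least `1 - (m + 3 t - U)` -/
theorem sp_ge46 (hG : G.Geo4 al kp U) (hT : ∀ x ∈ BC G, al ≤ TH G x)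
    {C : G.adj.ConnectedComponent} (hC : C ∈ WF G) {x : V × V} (hx : x ∈ G.cJ C) :
    1 - ((G.cJ C).card + 3 * (G.cT C).card - (uf G al C : ℝ)) ≤ sp G al x := by
  have hCi := ((mem_WF89 G).1 hC).1
  have h1 := sum_cgap46 G hG hCi
  have hs := sg_cJ46 G hG hCi hx
  have hne : x ≠ sg G x := (sg_ne46 G (cJ_iJ51 G hCi hx).1).symm
  have h2 : ∑ y ∈ ({x, sg G x} : Finset (V × V)), (1 - gc G al y) ≤
      ∑ y ∈ G.cJ C, (1 - gc G al y) := by
    apply Finset.sum_le_sum_of_subset_of_nonneg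
    · intro y hy
      rcases Finset.mem_insert.1 hy with h | h
      · rw [h]; exact hx
      · rw [Finset.mem_singleton.1 h]; exact hs
    · intro y hy _
      have hb := BC_of_WF46 G hC hy
      have := gc_le_one46 G hG hb (hT y hb)
      linarith
  rw [Finset.sum_pair hne] at h2
  unfold sp
  linarith

/-- **(c)** if `m + 3 t - U ≤ 1`, every side is strong -/
theorem strong46 (hG : G.Geo4 al kp U) (hT : ∀ x ∈ BC G, al ≤ TH G x)
    {C : G.adj.ConnectedComponent} (hC : C ∈ WF G)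
    (h : (G.cJ C).card + 3 * (G.cT C).card ≤ uf G al C + 1) {x : V × V} (hx : x ∈ G.cJ C) :
    0 ≤ sp G al x := by
  have h1 := sp_ge46 G hG hT hC hx
  have h2 : ((G.cJ C).card : ℝ) + 3 * (G.cT C).card ≤ uf G al C + 1 := by exact_mod_cast h
  linarith

/-- the weak sides of a class -/
def Wk (al : ℝ) (C : G.adj.ConnectedComponent) : Finset (V × V) :=
  (G.cJ C).filter (fun x => sp G al x < 0)

/-- **(c)** twice the sum of the complements of the gaps pays for the weak sides -/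
theorem sum_sp46 (hG : G.Geo4 al kp U) {C : G.adj.ConnectedComponent} (hC : C ∈ G.iC) :
    ∑ x ∈ G.cJ C, (1 - sp G al x) = 2 * ∑ x ∈ G.cJ C, (1 - gc G al x) := by
  have h := sum_sg46 G hG hC (fun x => 1 - gc G al x)
  have h2 : ∑ x ∈ G.cJ C, (1 - sp G al x) =
      ∑ x ∈ G.cJ C, (1 - gc G al x) + ∑ x ∈ G.cJ C, (1 - gc G al (sg G x)) := by
    rw [← Finset.sum_add_distrib]
    refine Finset.sum_congr rfl fun x _ => ?_
    unfold sp
    ring
  rw [h2, h]
  ring

/-- **(c)** the number of weak sides is below `2 (m + 3 t - U)` -/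
theorem weak_lt46 (hG : G.Geo4 al kp U) (hT : ∀ x ∈ BC G, al ≤ TH G x)
    {C : G.adj.ConnectedComponent} (hC : C ∈ WF G) (hne : (Wk G al C).Nonempty) :
    ((Wk G al C).card : ℝ) < 2 * ((G.cJ C).card + 3 * (G.cT C).card - (uf G al C : ℝ)) := by
  have hCi := ((mem_WF89 G).1 hC).1
  have h1 := sum_cgap46 G hG hCi
  have h2 := sum_sp46 (al := al) G hG hCi
  have hle : ∀ y ∈ G.cJ C, gc G al y ≤ 1 := fun y hy =>
    gc_le_one46 G hG (BC_of_WF46 G hC hy) (hT y (BC_of_WF46 G hC hy))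
  have h3 : ∑ x ∈ Wk G al C, (1 - sp G al x) ≤ ∑ x ∈ G.cJ C, (1 - sp G al x) := by
    apply Finset.sum_le_sum_of_subset_of_nonneg (Finset.filter_subset _ _)
    intro y hy _
    have g1 := hle y hy
    have g2 := hle _ (sg_cJ46 G hG hCi hy)
    unfold sp
    linarith
  have h4 : ∑ x ∈ Wk G al C, (1 : ℝ) < ∑ x ∈ Wk G al C, (1 - sp G al x) := by
    apply Finset.sum_lt_sum_of_nonempty hne
    intro y hy
    have := (Finset.mem_filter.1 hy).2
    linarith
  rw [Finset.sum_const, nsmul_eq_mul, mul_one] at h4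
  linarith

/-- **(c)** in natural numbers -/
theorem weak_le46 (hG : G.Geo4 al kp U) (hT : ∀ x ∈ BC G, al ≤ TH G x)
    {C : G.adj.ConnectedComponent} (hC : C ∈ WF G) :
    Wk G al C = ∅ ∨
      (Wk G al C).card + 2 * uf G al C + 1 ≤ 2 * ((G.cJ C).card + 3 * (G.cT C).card) := by
  rcases Finset.eq_empty_or_nonempty (Wk G al C) with h | h
  · exact Or.inl h
  · right
    have h1 := weak_lt46 G hG hT hC h
    have h2 : ((Wk G al C).card : ℝ) + 2 * uf G al C <
        2 * (((G.cJ C).card : ℝ) + 3 * (G.cT C).card) := by linarith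
    have h3 : (Wk G al C).card + 2 * uf G al C <
        2 * ((G.cJ C).card + 3 * (G.cT C).card) := by exact_mod_cast h2
    omega

/-- **(d)** the units of a class are at most `m + 3 t - 1` -/
theorem uf_lt46 (hG : G.Geo4 al kp U) (hT : ∀ x ∈ BC G, al ≤ TH G x)
    {C : G.adj.ConnectedComponent} (hC : C ∈ WF G) :
    uf G al C + 1 ≤ (G.cJ C).card + 3 * (G.cT C).card := by
  have hCi := ((mem_WF89 G).1 hC).1
  have h1 := sum_cgap46 G hG hCi
  have hle : ∀ y ∈ G.cJ C, gc G al y ≤ 1 := fun y hy =>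
    gc_le_one46 G hG (BC_of_WF46 G hC hy) (hT y (BC_of_WF46 G hC hy))
  have h2 : 0 ≤ ∑ x ∈ G.cJ C, (1 - gc G al x) :=
    Finset.sum_nonneg fun y hy => by linarith [hle y hy]
  have h3 : (uf G al C : ℝ) ≤ (G.cJ C).card + 3 * (G.cT C).card := by linarith
  have h4 : uf G al C ≤ (G.cJ C).card + 3 * (G.cT C).card := by exact_mod_cast h3
  rcases Nat.lt_or_ge (uf G al C) ((G.cJ C).card + 3 * (G.cT C).card) with h5 | h5
  · omega
  · exfalso
    have h6 : uf G al C = (G.cJ C).card + 3 * (G.cT C).card := le_antisymm h4 h5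
    have h7 : (uf G al C : ℝ) = (G.cJ C).card + 3 * (G.cT C).card := by
      rw [h6]
      push_cast
      ring
    have h8 : ∑ x ∈ G.cJ C, (1 - gc G al x) = 0 := le_antisymm (by linarith) h2
    have h9 := (Finset.sum_eq_zero_iff_of_nonneg
      (fun y hy => by linarith [hle y hy] : ∀ y ∈ G.cJ C, 0 ≤ 1 - gc G al y)).1 h8
    have h10 : ∀ y ∈ G.cJ C, un G al y = 2 := by
      intro y hy
      have hb := BC_of_WF46 G hC hy
      exact (gc_one46 G hG hb (hT y hb) (by linarith [h9 y hy])).2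
    have h11 : uf G al C = 2 * (G.cJ C).card := by
      unfold uf
      rw [Finset.sum_congr rfl h10, Finset.sum_const, smul_eq_mul, mul_comm]
    have h12 := m_eq46 G hCi
    have h13 := Finset.card_pos.2 ((mem_WF89 G).1 hC).2
    omega

/-- **(d)** `κ ≥ 2 |cI| - 3 t + 1` -/
theorem ka_ge46 (hG : G.Geo4 al kp U) (hT : ∀ x ∈ BC G, al ≤ TH G x)
    {C : G.adj.ConnectedComponent} (hC : C ∈ WF G) :
    2 * ((G.cI C).card : ℝ) - 3 * (G.cT C).card + 1 ≤ ka G al C := by
  have h1 := uf_lt46 G hG hT hC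
  have h2 := m_eq46 G ((mem_WF89 G).1 hC).1
  have h3 : (uf G al C : ℝ) + 1 ≤ (G.cJ C).card + 3 * (G.cT C).card := by exact_mod_cast h1
  have h4 : ((G.cJ C).card : ℝ) + (G.cI C).card = 3 * (G.cT C).card := by exact_mod_cast h2
  rw [ka_uf46]
  linarith

/-- the inner non-contact darts of a class come in pairs -/
theorem cI_even46 (C : G.adj.ConnectedComponent) : Even (G.cI C).card := by
  have h : ∑ x ∈ G.cI C, (1 : ZMod 2) = 0 := by
    refine Finset.sum_involution (fun x _ => (x.2, x.1)) (fun x _ => by decide) ?_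
      (fun x hx => swap_cD66 G hx) (fun x _ => rfl)
    intro x hx _ h
    unfold Tg.cI at hx
    rw [Finset.mem_filter] at hx
    exact G.ne _ _ (G.sub hx.1) (congrArg Prod.snd h)
  rw [Finset.sum_const, nsmul_eq_mul, mul_one, ZMod.natCast_eq_zero_iff_even] at h
  exact h

theorem cT_pos46 {C : G.adj.ConnectedComponent} (hC : C ∈ G.iC) : 0 < (G.cT C).card := by
  unfold Tg.iC at hC
  obtain ⟨x, hx, rfl⟩ := Finset.mem_image.1 hC
  rw [mem_iD27] at hx
  rw [Finset.card_pos]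
  exact ⟨G.tri x, Finset.mem_image_of_mem _ (Finset.mem_filter.2 ⟨hx.1, rfl⟩)⟩

/-- a disc has `|cI| + 2 = 2 t`; the other classes have `|cI| ≥ 2 t` -/
theorem disc_or46 (C : G.adj.ConnectedComponent) :
    (G.cI C).card + 2 = 2 * (G.cT C).card ∨ 2 * (G.cT C).card ≤ (G.cI C).card := by
  have h := conn G C
  obtain ⟨k, hk⟩ := cI_even46 G C
  omega

/-- a disc with `m` sides has `m - 2` triangles -/
theorem disc_m46 {C : G.adj.ConnectedComponent} (hC : C ∈ G.iC)
    (hd : (G.cI C).card + 2 = 2 * (G.cT C).card) :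
    (G.cJ C).card = (G.cT C).card + 2 := by
  have h := m_eq46 G hC
  omega

theorem disc_ka46 {C : G.adj.ConnectedComponent} (hC : C ∈ G.iC)
    (hd : (G.cI C).card + 2 = 2 * (G.cT C).card) :
    ka G al C = 5 * (G.cJ C).card - 12 - (uf G al C : ℝ) := by
  have h := disc_m46 G hC hd
  have h1 : ((G.cJ C).card : ℝ) = (G.cT C).card + 2 := by exact_mod_cast h
  have h2 : ((G.cI C).card : ℝ) + 2 = 2 * (G.cT C).card := by exact_mod_cast hd
  rw [ka_uf46]
  linarith

theorem disc_qa46 {C : G.adj.ConnectedComponent} (hC : C ∈ G.iC)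
    (hd : (G.cI C).card + 2 = 2 * (G.cT C).card) : qa G C = (G.cJ C).card - 4 := by
  have h := disc_m46 G hC hd
  have h1 : ((G.cJ C).card : ℝ) = (G.cT C).card + 2 := by exact_mod_cast h
  have h2 : ((G.cI C).card : ℝ) + 2 = 2 * (G.cT C).card := by exact_mod_cast hd
  unfold qa
  linarith

/-- a white face that is a disc has at least four sides -/
theorem disc_ge46 {C : G.adj.ConnectedComponent} (hC : C ∈ WF G)
    (hd : (G.cI C).card + 2 = 2 * (G.cT C).card) : 4 ≤ (G.cJ C).card := by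
  have h := disc_m46 G ((mem_WF89 G).1 hC).1 hd
  have h2 := Finset.card_pos.2 ((mem_WF89 G).1 hC).2
  omega

/-- **(d)** a disc with `m` sides has at most `4 m - 7` units -/
theorem disc_uf46 (hG : G.Geo4 al kp U) (hT : ∀ x ∈ BC G, al ≤ TH G x)
    {C : G.adj.ConnectedComponent} (hC : C ∈ WF G)
    (hd : (G.cI C).card + 2 = 2 * (G.cT C).card) : uf G al C + 7 ≤ 4 * (G.cJ C).card := by
  have h1 := uf_lt46 G hG hT hC
  have h2 := disc_m46 G ((mem_WF89 G).1 hC).1 hd
  omega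

/-- **(d)** `κ ≥ m - 5` for a disc -/
theorem disc_ka_ge46 (hG : G.Geo4 al kp U) (hT : ∀ x ∈ BC G, al ≤ TH G x)
    {C : G.adj.ConnectedComponent} (hC : C ∈ WF G)
    (hd : (G.cI C).card + 2 = 2 * (G.cT C).card) : ((G.cJ C).card : ℝ) - 5 ≤ ka G al C := by
  have h1 := disc_uf46 G hG hT hC hd
  have h2 : (uf G al C : ℝ) + 7 ≤ 4 * (G.cJ C).card := by exact_mod_cast h1
  rw [disc_ka46 G ((mem_WF89 G).1 hC).1 hd]
  linarith

/-- **(c)** the weak sides of a disc: `|Wk| < 2 (4 m - 6 - U)` -/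
theorem disc_weak46 (hG : G.Geo4 al kp U) (hT : ∀ x ∈ BC G, al ≤ TH G x)
    {C : G.adj.ConnectedComponent} (hC : C ∈ WF G)
    (hd : (G.cI C).card + 2 = 2 * (G.cT C).card) :
    Wk G al C = ∅ ∨ (Wk G al C).card + 2 * uf G al C + 13 ≤ 8 * (G.cJ C).card := by
  have h2 := disc_m46 G ((mem_WF89 G).1 hC).1 hd
  rcases weak_le46 G hG hT hC with h | h
  · exact Or.inl h
  · right
    omega

/-- **(c)** a disc with `4 m - 7` units has strong sides only -/
theorem disc_strong46 (hG : G.Geo4 al kp U) (hT : ∀ x ∈ BC G, al ≤ TH G x)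
    {C : G.adj.ConnectedComponent} (hC : C ∈ WF G)
    (hd : (G.cI C).card + 2 = 2 * (G.cT C).card) (h : 4 * (G.cJ C).card ≤ uf G al C + 7)
    {x : V × V} (hx : x ∈ G.cJ C) : 0 ≤ sp G al x := by
  have h2 := disc_m46 G ((mem_WF89 G).1 hC).1 hd
  exact strong46 G hG hT hC (by omega) hx

/-- the units of a rhombus -/
theorem rhomb_uf46 (hG : G.Geo4 al kp U) {C : G.adj.ConnectedComponent} (hC : C ∈ WF G)
    (ht : (G.cT C).card = 2) (hI : (G.cI C).card = 2) :
    (∀ x ∈ G.cJ C, un G al x = 2) ∧ (G.cJ C).card = 4 ∧ uf G al C = 8 ∧ ka G al C = 0 := by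
  have hCi := ((mem_WF89 G).1 hC).1
  have h1 : ∀ x ∈ G.cJ C, un G al x = 2 := by
    intro x hx
    have h2 := un_ge_WF46 (al := al) G hC hx
    have h3 : wc G al x ≤ 2 := by
      apply W4.wc_le71 G hG
      push_cast
      exact W4.wc_two71 G hG hCi hI x hx ht
    have h4 : un G al x ≤ 2 := by
      unfold un
      rw [if_neg ((mem_BC89 G).1 (BC_of_WF46 G hC hx)).2]
      exact max_le le_rfl h3
    omega
  have h5 := m_eq46 G hCi
  have h6 : (G.cJ C).card = 4 := by omega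
  have h7 : uf G al C = 8 := by
    unfold uf
    rw [Finset.sum_congr rfl h1, Finset.sum_const, smul_eq_mul, h6]
  refine ⟨h1, h6, h7, ?_⟩
  rw [ka_uf46, h7, ht, hI]
  norm_num

/-- **(d)** `κ ≥ 0` -/
theorem ka_nonneg46 (hG : G.Geo4 al kp U) (hT : ∀ x ∈ BC G, al ≤ TH G x)
    {C : G.adj.ConnectedComponent} (hC : C ∈ WF G) : 0 ≤ ka G al C := by
  have hCi := ((mem_WF89 G).1 hC).1
  have h0 := cT_pos46 G hCi
  have h1 := conn G C
  have h2 := Finset.card_pos.2 ((mem_WF89 G).1 hC).2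
  by_cases hr : (G.cT C).card = 2 ∧ (G.cI C).card = 2
  · rw [(rhomb_uf46 G hG hC hr.1 hr.2).2.2.2]
  · have h3 := ka_ge46 G hG hT hC
    have h4 : 3 * (G.cT C).card ≤ 2 * (G.cI C).card + 1 := by omega
    have h5 : 3 * ((G.cT C).card : ℝ) ≤ 2 * (G.cI C).card + 1 := by exact_mod_cast h4
    linarith

/-- **(d)** on all inner classes -/
theorem ka_nonneg_iC46 (hG : G.Geo4 al kp U) (hT : ∀ x ∈ BC G, al ≤ TH G x)
    {C : G.adj.ConnectedComponent} (hC : C ∈ G.iC) : 0 ≤ ka G al C := by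
  rcases Finset.eq_empty_or_nonempty (G.cI C) with h | h
  · rw [ka_zero89 G C hC h]
  · exact ka_nonneg46 G hG hT ((mem_WF89 G).2 ⟨hC, h⟩)

/-- a class that is no disc: `κ ≥ q + 1` -/
theorem nondisc_ka46 (hG : G.Geo4 al kp U) (hT : ∀ x ∈ BC G, al ≤ TH G x)
    {C : G.adj.ConnectedComponent} (hC : C ∈ WF G) (hd : 2 * (G.cT C).card ≤ (G.cI C).card) :
    qa G C + 1 ≤ ka G al C ∧ (G.cJ C).card ≤ (G.cT C).card := by
  have h1 := ka_ge46 G hG hT hC
  have h2 : 2 * ((G.cT C).card : ℝ) ≤ (G.cI C).card := by exact_mod_cast hd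
  have h3 := m_eq46 G ((mem_WF89 G).1 hC).1
  refine ⟨?_, by omega⟩
  unfold qa
  linarith

/-- the corners with at least three units -/
theorem three46 {C : G.adj.ConnectedComponent} (hC : C ∈ WF G) :
    ((G.cJ C).filter (fun x => 3 ≤ un G al x)).card + 2 * (G.cJ C).card ≤ uf G al C := by
  unfold uf
  rw [Finset.card_filter, mul_comm, ← smul_eq_mul, ← Finset.sum_const, ← Finset.sum_add_distrib]
  refine Finset.sum_le_sum fun x hx => ?_
  have h := un_ge_WF46 (al := al) G hC hx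
  split_ifs with h3
  · omega
  · omega

end

end Pool.Agent.PEN.E5
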