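import Pool.Agent.E5.Sk89

/-! # PENNY, all small diameters: counting the contact triangles of a black face

`rd x` are the darts at the head `x.2` of the contact triangles of the sector `x`, `rt x` these
triangles. -/

set_option autoImplicit false

namespace Pool.Agent.PEN.E5

open Classical UpperHalfPlane
open Pool.Agent.PEN.Cl

noncomputable section

variable {V : Type} (G : Tg V) {al : ℝ} {kp : V → V → ℝ} {U : ℕ → ℝ}

/-- the darts of the run of a sector -/
def rd (x : V × V) : Finset (V × V) :=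
  (Finset.range (rn G x)).image (fun i => (x.2, (G.ap x.2)^[i] x.1))

/-- the contact triangles of a sector -/
def rt (x : V × V) : Finset (Finset V) := (rd G x).image G.tri

theorem rn_eq63 {x : V × V} (h : HasN G x.2 x.1) : rn G x = Nat.find h := by
  unfold rn
  rw [dif_pos h]

theorem hasN63 (hG : G.Geo4 al kp U) {x : V × V} (hx : x ∈ SD G) : HasN G x.2 x.1 :=
  hasN42 G hG ((mem_KJ42 G).1 (KJ_swap42 G ((mem_SD42 G).1 hx).1)).1

theorem mem_rd63 {x z : V × V} :
    z ∈ rd G x ↔ ∃ i < rn G x, (x.2, (G.ap x.2)^[i] x.1) = z := by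
  unfold rd
  simp only [Finset.mem_image, Finset.mem_range]

theorem rd_prop63 (hG : G.Geo4 al kp U) {x z : V × V} (hx : x ∈ SD G) (hz : z ∈ rd G x) :
    tt G z ∧ z.1 = x.2 ∧ ku G z = ku G x := by
  obtain ⟨i, hi, rfl⟩ := (mem_rd63 G).1 hz
  have h := hasN63 G hG hx
  rw [rn_eq63 G h] at hi
  have hk := KJ_swap42 G ((mem_SD42 G).1 hx).1
  refine ⟨run_tt42 G h hi, rfl, ?_⟩
  rw [(run_mem42 G h hk i hi.le).2]
  exact ku_swap42 G ((mem_SD42 G).1 hx).1

/-- a dart of a run determines the sector -/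
theorem rd_uniq63 (hG : G.Geo4 al kp U) {x y : V × V} (hx : x ∈ SD G) (hy : y ∈ SD G)
    {i j : ℕ} (hi : i < rn G x) (hj : j < rn G y)
    (he : (x.2, (G.ap x.2)^[i] x.1) = (y.2, (G.ap y.2)^[j] y.1)) : x = y ∧ i = j := by
  obtain ⟨b, v⟩ := x
  obtain ⟨b', v'⟩ := y
  have hv : v = v' := congrArg Prod.fst he
  subst hv
  have h1 : (G.ap v)^[i] b = (G.ap v)^[j] b' := congrArg Prod.snd he
  have hN := hasN63 G hG hx
  have hN' := hasN63 G hG hy
  rw [rn_eq63 G hN] at hi
  rw [rn_eq63 G hN'] at hj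
  dsimp only at hN hN' hi hj
  have key : ∀ (c c' : V) (m k : ℕ) (h : HasN G v c) (h' : HasN G v c'), ¬ tt G (c, v) →
      m < Nat.find h → m + k < Nat.find h' → (G.ap v)^[m] c = (G.ap v)^[m + k] c' →
      c = c' ∧ k = 0 := by
    intro c c' m k h h' hc hm hmk heq
    have p1 := run_bk42 G h 0 m (by omega)
    rw [zero_add, Function.iterate_zero, id_eq, heq] at p1
    have p2 := run_bk42 G h' k m (by omega)
    rw [add_comm k m, p1] at p2
    rcases k with _ | k
    · exact ⟨p2, rfl⟩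
    · exfalso
      have h3 := run_tt42 G h' (i := k) (by omega)
      have h4 := (tt_ap42 G h3).2.2
      rw [← Function.iterate_succ_apply' (G.ap v) k c', ← p2] at h4
      exact hc h4
  rcases le_total i j with hle | hle
  · obtain ⟨k, rfl⟩ := Nat.exists_eq_add_of_le hle
    obtain ⟨h2, h3⟩ := key b b' i k hN hN' ((mem_SD42 G).1 hx).2 hi hj h1
    subst h2
    exact ⟨rfl, by omega⟩
  · obtain ⟨k, rfl⟩ := Nat.exists_eq_add_of_le hle
    obtain ⟨h2, h3⟩ := key b' b j k hN' hN ((mem_SD42 G).1 hy).2 hj hi h1.symm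
    subst h2
    exact ⟨rfl, by omega⟩

theorem card_rd63 (hG : G.Geo4 al kp U) {x : V × V} (hx : x ∈ SD G) :
    (rd G x).card = rn G x := by
  unfold rd
  rw [Finset.card_image_of_injOn, Finset.card_range]
  intro i hi j hj he
  exact (rd_uniq63 G hG hx hx (Finset.mem_range.1 (Finset.mem_coe.1 hi))
    (Finset.mem_range.1 (Finset.mem_coe.1 hj)) he).2

theorem rd_disj63 (hG : G.Geo4 al kp U) {x y : V × V} (hx : x ∈ SD G) (hy : y ∈ SD G)
    (hne : x ≠ y) : Disjoint (rd G x) (rd G y) := by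
  rw [Finset.disjoint_left]
  intro z h1 h2
  obtain ⟨i, hi, e1⟩ := (mem_rd63 G).1 h1
  obtain ⟨j, hj, e2⟩ := (mem_rd63 G).1 h2
  exact hne (rd_uniq63 G hG hx hy hi hj (e1.trans e2.symm)).1

/-- two contact triangles with the same apex and the same first vertex coincide -/
theorem tri_head63 {y z : V × V} (hy : tt G y) (hz : tt G z) (h1 : y.1 = z.1)
    (he : G.tri y = G.tri z) : y = z := by
  rcases (tri_eq_iff G hy.1 hz.1).1 he with h | h | h
  · exact h.symm
  · exfalso
    have : z.1 = y.2 := by rw [h]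
    exact G.ne _ _ (G.sub hy.1) (h1.trans this)
  · exfalso
    have : z.1 = G.ap y.1 y.2 := by rw [h]
    exact G.ne _ _ (G.sub (G.ap2 _ _ hy.1)) (this.symm.trans h1.symm)

theorem card_rt63 (hG : G.Geo4 al kp U) {x : V × V} (hx : x ∈ SD G) :
    (rt G x).card = rn G x := by
  unfold rt
  rw [Finset.card_image_of_injOn, card_rd63 G hG hx]
  intro y hy z hz he
  obtain ⟨h1, h2, _⟩ := rd_prop63 G hG hx (Finset.mem_coe.1 hy)
  obtain ⟨h3, h4, _⟩ := rd_prop63 G hG hx (Finset.mem_coe.1 hz)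
  exact tri_head63 G h1 h3 (h2.trans h4.symm) he

theorem rt_sub63 (hG : G.Geo4 al kp U) {x : V × V} (hx : x ∈ SD G) :
    rt G x ⊆ (kT G (ku G x)).image G.tri := by
  unfold rt
  apply Finset.image_subset_image
  intro z hz
  obtain ⟨h1, _, h3⟩ := rd_prop63 G hG hx hz
  exact (mem_kT42 G).2 ⟨h1, h3⟩

/-- **R2a** -/
theorem rn_le_tK63 (hG : G.Geo4 al kp U) {x : V × V} (hx : x ∈ SD G) :
    rn G x ≤ tK G (ku G x) := by
  rw [← card_rt63 G hG hx]
  exact Finset.card_le_card (rt_sub63 G hG hx)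

theorem kT_card63 (K : (cg G).ConnectedComponent) : (kT G K).card = 3 * tK G K :=
  card_kT42 G K

/-- **R2d** -/
theorem kS_card63 (K : (cg G).ConnectedComponent) : (kS G K).card ≤ tK G K + 2 := by
  have h1 := conn42 G K
  have h2 := kT_card63 G K
  omega

/-- a triangle of a sector: its darts -/
theorem mem_rt63 {x : V × V} {t : Finset V} : t ∈ rt G x ↔ ∃ z ∈ rd G x, G.tri z = t := by
  unfold rt
  rw [Finset.mem_image]

/-- a contact triangle of the run of `x` which contains `w`: it lies on the left of `(x.2, w)` or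
of `(w, x.2)` -/
theorem rt_mem63 (hG : G.Geo4 al kp U) {x : V × V} (hx : x ∈ SD G) {t : Finset V}
    (ht : t ∈ rt G x) {w : V} (hw : w ∈ t) (hne : w ≠ x.2) :
    (tt G (x.2, w) ∧ G.tri (x.2, w) = t) ∨ (tt G (w, x.2) ∧ G.tri (w, x.2) = t) := by
  obtain ⟨z, hz, rfl⟩ := (mem_rt63 G).1 ht
  obtain ⟨h1, h2, _⟩ := rd_prop63 G hG hx hz
  obtain ⟨v, c⟩ := z
  dsimp only at h2
  subst h2
  have hw' : w = x.2 ∨ w = c ∨ w = G.ap x.2 c := by
    unfold Tg.tri at hw
    simpa using hw
  rcases hw' with h | h | h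
  · exact absurd h hne
  · subst h
    exact Or.inl ⟨h1, rfl⟩
  · subst h
    exact Or.inr ⟨tt_rot42' G h1, tri_rot66' G h1.1⟩

/-- two sectors with the same head have no common triangle -/
theorem rt_disj63 (hG : G.Geo4 al kp U) {x y : V × V} (hx : x ∈ SD G) (hy : y ∈ SD G)
    (hne : x ≠ y) (hh : x.2 = y.2) : Disjoint (rt G x) (rt G y) := by
  rw [Finset.disjoint_left]
  intro t h1 h2
  obtain ⟨z, hz, e1⟩ := (mem_rt63 G).1 h1
  obtain ⟨z', hz', e2⟩ := (mem_rt63 G).1 h2
  obtain ⟨p1, p2, _⟩ := rd_prop63 G hG hx hz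
  obtain ⟨q1, q2, _⟩ := rd_prop63 G hG hy hz'
  have h3 : z = z' := tri_head63 G p1 q1 ((p2.trans hh).trans q2.symm) (e1.trans e2.symm)
  subst h3
  exact Finset.disjoint_left.1 (rd_disj63 G hG hx hy hne) hz hz'

/-- two sectors with different heads have at most two common triangles -/
theorem rt_inter63 (hG : G.Geo4 al kp U) {x y : V × V} (hx : x ∈ SD G) (hy : y ∈ SD G)
    (hh : x.2 ≠ y.2) : rt G x ∩ rt G y ⊆ {G.tri (x.2, y.2), G.tri (y.2, x.2)} := by
  intro t ht
  obtain ⟨h1, h2⟩ := Finset.mem_inter.1 ht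
  obtain ⟨z, hz, e2⟩ := (mem_rt63 G).1 h2
  obtain ⟨q1, q2, _⟩ := rd_prop63 G hG hy hz
  have hw : y.2 ∈ t := by
    rw [← e2, ← q2]
    unfold Tg.tri
    simp
  rw [Finset.mem_insert, Finset.mem_singleton]
  rcases rt_mem63 G hG hx h1 hw hh.symm with h | h
  · exact Or.inl h.2.symm
  · exact Or.inr h.2.symm

theorem head_ne63 (hG : G.Geo4 al kp U) {x : V × V} (hx : x ∈ SD G) : x.2 ≠ (nx G x).2 := by
  have h1 := (nx_mem42 G hG ((mem_SD42 G).1 hx).1).1
  have h2 := G.ne _ _ ((mem_KJ42 G).1 ((mem_SD42 G).1 h1).1).1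
  exact h2

/-- consecutive sectors have at most one common triangle -/
theorem rt_inter_adj63 (hG : G.Geo4 al kp U) {x : V × V} (hx : x ∈ SD G) :
    rt G x ∩ rt G (nx G x) ⊆ {G.tri ((nx G x).2, x.2)} := by
  have h1 := (nx_mem42 G hG ((mem_SD42 G).1 hx).1).1
  intro t ht
  obtain ⟨h2, h3⟩ := Finset.mem_inter.1 ht
  obtain ⟨z, hz, e2⟩ := (mem_rt63 G).1 h3
  obtain ⟨q1, q2, _⟩ := rd_prop63 G hG h1 hz
  have hw : (nx G x).2 ∈ t := by
    rw [← e2, ← q2]
    unfold Tg.tri
    simp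
  rw [Finset.mem_singleton]
  rcases rt_mem63 G hG hx h2 hw (head_ne63 G hG hx).symm with h | h
  · exact absurd h.1 ((mem_SD42 G).1 h1).2
  · exact h.2.symm

theorem nx_ku63 (hG : G.Geo4 al kp U) {x : V × V} (hx : x ∈ SD G) :
    nx G x ∈ SD G ∧ ku G (nx G x) = ku G x := nx_mem42 G hG ((mem_SD42 G).1 hx).1

/-- **R2b**: the runs at the two ends of a side -/
theorem run_adj63 (hG : G.Geo4 al kp U) {x : V × V} (hx : x ∈ SD G) :
    rn G x + rn G (nx G x) ≤ tK G (ku G x) + 1 := by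
  obtain ⟨h1, h2⟩ := nx_ku63 G hG hx
  have h3 := Finset.card_union_add_card_inter (rt G x) (rt G (nx G x))
  have h4 := Finset.card_le_card (rt_inter_adj63 G hG hx)
  rw [Finset.card_singleton] at h4
  have h5 : (rt G x ∪ rt G (nx G x)).card ≤ tK G (ku G x) := by
    apply Finset.card_le_card
    apply Finset.union_subset (rt_sub63 G hG hx)
    rw [← h2]
    exact rt_sub63 G hG h1
  rw [card_rt63 G hG hx, card_rt63 G hG h1] at h3
  omega

/-- two sectors of one black face with the same head -/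
theorem run_same63 (hG : G.Geo4 al kp U) {x y : V × V} (hx : x ∈ SD G) (hy : y ∈ SD G)
    (hne : x ≠ y) (hh : x.2 = y.2) (hk : ku G x = ku G y) :
    rn G x + rn G y ≤ tK G (ku G x) := by
  have h3 := Finset.card_union_of_disjoint (rt_disj63 G hG hx hy hne hh)
  rw [card_rt63 G hG hx, card_rt63 G hG hy] at h3
  rw [← h3]
  apply Finset.card_le_card
  apply Finset.union_subset (rt_sub63 G hG hx)
  rw [hk]
  exact rt_sub63 G hG hy

/-- two sectors of one black face with different heads -/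
theorem run_two63 (hG : G.Geo4 al kp U) {x y : V × V} (hx : x ∈ SD G) (hy : y ∈ SD G)
    (hh : x.2 ≠ y.2) (hk : ku G x = ku G y) :
    rn G x + rn G y ≤ tK G (ku G x) + 2 := by
  have h3 := Finset.card_union_add_card_inter (rt G x) (rt G y)
  have h4 := Finset.card_le_card (rt_inter63 G hG hx hy hh)
  have h6 : ({G.tri (x.2, y.2), G.tri (y.2, x.2)} : Finset (Finset V)).card ≤ 2 :=
    Finset.card_le_two
  have h5 : (rt G x ∪ rt G y).card ≤ tK G (ku G x) := by
    apply Finset.card_le_card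
    apply Finset.union_subset (rt_sub63 G hG hx)
    rw [hk]
    exact rt_sub63 G hG hy
  rw [card_rt63 G hG hx, card_rt63 G hG hy] at h3
  omega

/-- two sectors of one black face whose heads are not joined by a contact -/
theorem run_far63 (hG : G.Geo4 al kp U) {x y : V × V} (hx : x ∈ SD G) (hy : y ∈ SD G)
    (hh : x.2 ≠ y.2) (hc : ¬ G.con x.2 y.2) (hk : ku G x = ku G y) :
    rn G x + rn G y ≤ tK G (ku G x) := by
  have hd : Disjoint (rt G x) (rt G y) := by
    rw [Finset.disjoint_left]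
    intro t h1 h2
    obtain ⟨z, hz, e2⟩ := (mem_rt63 G).1 h2
    obtain ⟨q1, q2, _⟩ := rd_prop63 G hG hy hz
    have hw : y.2 ∈ t := by
      rw [← e2, ← q2]
      unfold Tg.tri
      simp
    rcases rt_mem63 G hG hx h1 hw hh.symm with h | h
    · exact hc h.1.2.1
    · exact hc (G.csymm _ _ h.1.2.1)
  have h3 := Finset.card_union_of_disjoint hd
  rw [card_rt63 G hG hx, card_rt63 G hG hy] at h3
  rw [← h3]
  apply Finset.card_le_card
  apply Finset.union_subset (rt_sub63 G hG hx)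
  rw [hk]
  exact rt_sub63 G hG hy

/-- the runs of the sectors of a black face cover the corners of its contact triangles -/
theorem cover63 (hG : G.Geo4 al kp U) (K : (cg G).ConnectedComponent) :
    (kS G K).biUnion (rd G) = kT G K := by
  ext z
  rw [Finset.mem_biUnion]
  constructor
  · rintro ⟨x, hx, hz⟩
    obtain ⟨h1, h2⟩ := (mem_kS42 G).1 hx
    obtain ⟨h3, _, h4⟩ := rd_prop63 G hG h1 hz
    exact (mem_kT42 G).2 ⟨h3, h4.trans h2⟩
  · intro hz
    obtain ⟨h1, h2⟩ := (mem_kT42 G).1 hz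
    obtain ⟨v, c⟩ := z
    have hkj := tt_KJ42 G h1
    have hkj' := KJ_swap42 G hkj
    obtain ⟨h3, h4⟩ := nx_mem42 G hG hkj'
    obtain ⟨x, hx, hxe⟩ := nx_surj42 G hG h3
    obtain ⟨b, v'⟩ := x
    have hv : v' = v := congrArg Prod.fst hxe
    subst hv
    have hb : nb G v' b = nb G v' c := congrArg Prod.snd hxe
    have hN := hasN63 G hG hx
    have hN' : HasN G v' c := hasN42 G hG ((mem_KJ42 G).1 hkj).1
    dsimp only at hN
    have hkk : ku G (b, v') = ku G (v', c) := by
      rw [← (nx_ku63 G hG hx).2, hxe, h4]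
      exact ku_swap42 G hkj
    have hpos : 0 < Nat.find hN' := by
      rw [Nat.pos_iff_ne_zero]
      intro h0
      exact Nat.find_spec hN' (by rw [h0]; exact h1)
    refine ⟨(b, v'), (mem_kS42 G).2 ⟨hx, hkk.trans h2⟩, ?_⟩
    rw [nb_eq42 G hN, nb_eq42 G hN'] at hb
    have p1 := run_bk42 G hN' 0 (Nat.find hN') (by omega)
    rw [zero_add, Function.iterate_zero, id_eq] at p1
    rcases Nat.lt_or_ge (Nat.find hN) (Nat.find hN') with hlt | hle
    case inr =>
      obtain ⟨k, hk⟩ : ∃ k, k + Nat.find hN' = Nat.find hN := ⟨Nat.find hN - Nat.find hN', by omega⟩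
      have p2 := run_bk42 G hN k (Nat.find hN') (by omega)
      rw [hk, hb, p1] at p2
      refine (mem_rd63 G).2 ⟨k, ?_, ?_⟩
      · rw [rn_eq63 G (x := (b, v')) hN]
        omega
      · dsimp only
        rw [← p2]
    case inl =>
      exfalso
      obtain ⟨k, hk⟩ : ∃ k, k + Nat.find hN = Nat.find hN' := ⟨Nat.find hN' - Nat.find hN, by omega⟩
      have p3 := run_bk42 G hN 0 (Nat.find hN) (by omega)
      rw [zero_add, Function.iterate_zero, id_eq] at p3
      have p2 := run_bk42 G hN' k (Nat.find hN) (by omega)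
      rw [hk, ← hb, p3] at p2
      rcases k with _ | k
      · omega
      · have h5 := run_tt42 G hN' (i := k) (by omega)
        have h6 := (tt_ap42 G h5).2.2
        rw [← Function.iterate_succ_apply' (G.ap v') k c, ← p2] at h6
        exact ((mem_SD42 G).1 hx).2 h6

/-- **R2e** -/
theorem sum_rn63 (hG : G.Geo4 al kp U) (K : (cg G).ConnectedComponent) :
    ∑ x ∈ kS G K, rn G x = 3 * tK G K := by
  rw [← kT_card63, ← cover63 G hG K, Finset.card_biUnion]
  · exact Finset.sum_congr rfl fun x hx => (card_rd63 G hG ((mem_kS42 G).1 hx).1).symm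
  · intro x hx y hy hne
    exact rd_disj63 G hG ((mem_kS42 G).1 hx).1 ((mem_kS42 G).1 hy).1 hne

end

end Pool.Agent.PEN.E5
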