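import Pool.Agent.E5.SkB89

/-! # PENNY, all small diameters: sectors and servers -/

set_option autoImplicit false

namespace Pool.Agent.PEN.E5

open Classical UpperHalfPlane
open Pool.Agent.PEN.Cl

noncomputable section

variable {V : Type} (G : Tg V) {al : ℝ} {kp : V → V → ℝ} {U : ℕ → ℝ}

/-- units at a point -/
def uv (al : ℝ) (v : V) : ℕ := ∑ x ∈ Jv G v, un G al x

theorem kv_eq89 (v : V) : kv G al v = (uv G al v : ℝ) - 6 := by
  unfold kv uv
  push_cast
  ring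

theorem ep_pos89 (hG : G.Geo4 al kp U) : 0 < ep al := by
  have hal := W4.al_pos71 G hG
  unfold ep
  rw [sub_pos, lt_div_iff₀ hal]
  linarith [hG.al2]

theorem ep_lt89 (hG : G.Geo4 al kp U) : ep al < 1 := by
  have hal := W4.al_pos71 G hG
  unfold ep
  have : 2 * Real.pi / al < 7 := by
    rw [div_lt_iff₀ hal]
    linarith [hG.al1]
  linarith

/-- at an inner point the units are at least 7 -/
theorem uv_ge89 (hG : G.Geo4 al kp U) {v : V} (hv : v ∈ inN G) : 7 ≤ uv G al v := by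
  have h := sum_gc89 G hG hv
  have h1 : 0 ≤ ∑ x ∈ Jv G v, gc G al x := Finset.sum_nonneg fun x _ => gc_nonneg89 G hG
  have h2 := ep_pos89 G hG
  rw [kv_eq89] at h
  have h3 : (6 : ℝ) < uv G al v := by linarith
  have h4 : 6 < uv G al v := by exact_mod_cast h3
  omega

theorem kv_ge89 (hG : G.Geo4 al kp U) {v : V} (hv : v ∈ inN G) : 1 ≤ kv G al v := by
  have h := uv_ge89 G hG hv
  have h2 : (7 : ℝ) ≤ uv G al v := by exact_mod_cast h
  rw [kv_eq89]
  linarith

theorem mem_kS89 {K : (cg G).ConnectedComponent} {x : V × V} (hx : x ∈ kS G K) : x ∈ SD G :=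
  ((mem_kS42 G).1 hx).1

theorem nx_kS89 (hG : G.Geo4 al kp U) {K : (cg G).ConnectedComponent} {x : V × V}
    (hx : x ∈ kS G K) : nx G x ∈ kS G K := by
  obtain ⟨h1, h2⟩ := (mem_kS42 G).1 hx
  obtain ⟨h3, h4⟩ := nx_mem42 G hG ((mem_SD42 G).1 h1).1
  exact (mem_kS42 G).2 ⟨h3, h4.trans h2⟩

theorem kS_ne89 (hG : G.Geo4 al kp U) {K : (cg G).ConnectedComponent} (hK : K ∈ Kc G) :
    (kS G K).Nonempty := by
  unfold Kc at hK
  obtain ⟨x, hx, rfl⟩ := Finset.mem_image.1 hK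
  obtain ⟨h1, h2⟩ := nx_mem42 G hG hx
  exact ⟨nx G x, (mem_kS42 G).2 ⟨h1, h2⟩⟩

/-- **L2**: the surplus of a black face -/
theorem sum_Ds89 (hG : G.Geo4 al kp U) (K : (cg G).ConnectedComponent) :
    ∑ x ∈ kS G K, Ds G al x = ∑ x ∈ kS G K, sp G al x := by
  unfold Ds sp
  rw [Finset.sum_sub_distrib, Finset.sum_sub_distrib, Finset.sum_add_distrib,
    Finset.sum_add_distrib, sum_nx42 G hG (kS G K) (fun x hx => mem_kS89 G hx)
      (fun x hx => nx_kS89 G hG hx) (gc G al)]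
  ring

/-- **L3**: a black face has a sector with nonnegative surplus or a weak side -/
theorem server89 (hG : G.Geo4 al kp U) {K : (cg G).ConnectedComponent} (hK : K ∈ Kc G) :
    (∃ x ∈ kS G K, 0 ≤ Ds G al x) ∨ ∃ x ∈ kS G K, sp G al x < 0 := by
  by_contra hno
  push Not at hno
  obtain ⟨h1, h2⟩ := hno
  have h3 := sum_Ds89 G hG K
  have h4 : ∑ x ∈ kS G K, Ds G al x < 0 := by
    calc ∑ x ∈ kS G K, Ds G al x < ∑ x ∈ kS G K, (0 : ℝ) :=
          Finset.sum_lt_sum_of_nonempty (kS_ne89 G hG hK) h1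
      _ = 0 := by simp
  have h5 : 0 ≤ ∑ x ∈ kS G K, sp G al x := Finset.sum_nonneg h2
  linarith

/-- the quantitative form: the positive sectors pay for the rest -/
theorem server_q89 (hG : G.Geo4 al kp U) (K : (cg G).ConnectedComponent) :
    ∑ x ∈ (kS G K).filter (fun x => 0 ≤ Ds G al x), Ds G al x +
        ∑ x ∈ (kS G K).filter (fun x => sp G al x < 0), - sp G al x =
      ∑ x ∈ (kS G K).filter (fun x => ¬ 0 ≤ Ds G al x), - Ds G al x +
        ∑ x ∈ (kS G K).filter (fun x => ¬ sp G al x < 0), sp G al x := by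
  have h3 := sum_Ds89 G hG K
  rw [← Finset.sum_filter_add_sum_filter_not (kS G K) (fun x => 0 ≤ Ds G al x),
    ← Finset.sum_filter_add_sum_filter_not (kS G K) (fun x => sp G al x < 0)] at h3
  rw [Finset.sum_neg_distrib, Finset.sum_neg_distrib]
  linarith

/-- the two corners of the sector of an inner side, at an inner point -/
theorem sector_corners89 (hG : G.Geo4 al kp U) {v : V} (hv : v ∈ inN G) {x : V × V}
    (hx : x ∈ SD G) (hxv : x.2 = v) :
    sg G x ∈ Jv G v ∧ nx G x ∈ Jv G v ∧ x ∈ iJ G ∧ ¬ tt G (sg G x) ∧ ¬ tt G (nx G x) := by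
  obtain ⟨v0, w⟩ := x
  dsimp only at hxv
  subst hxv
  obtain ⟨h1, h2⟩ := (mem_SD42 G).1 hx
  have h3 := (mem_iJ_of_inN42 G hG hv (KJ_swap42 G h1)).2
  dsimp only at h3
  obtain ⟨h4, h5⟩ := W4.sg_mem51 G hG h3
  obtain ⟨h6, _⟩ := nx_mem42 G hG h1
  obtain ⟨h7, h8⟩ := (mem_SD42 G).1 h6
  refine ⟨(mem_Jv51 G).2 ⟨h4, rfl⟩, (mem_Jv51 G).2 ⟨?_, rfl⟩, h3, ?_, h8⟩
  · exact (mem_iJ_of_inN42 G hG hv (c := (nx G (v0, w)).2) h7).1
  · rw [tt_iff89 G h4, h5, ← tt_iff89 G h3]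
    exact h2

theorem cv_BC89 (v : V) : (BC G).filter (fun x => x.1 = v) = (Jv G v).filter (fun x => ¬ tt G x) := by
  unfold BC Jv
  rw [Finset.filter_filter, Finset.filter_filter]
  exact Finset.filter_congr fun x _ => by tauto

/-- at a point with one big corner the two corners of the sector coincide, and conversely -/
theorem sg_nx_iff89 (hG : G.Geo4 al kp U) {v : V} (hv : v ∈ inN G) {x : V × V}
    (hx : x ∈ SD G) (hxv : x.2 = v) : sg G x = nx G x ↔ cv G v = 1 := by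
  obtain ⟨h1, h2, h3, h4, h5⟩ := sector_corners89 G hG hv hx hxv
  unfold cv
  rw [cv_BC89]
  constructor
  · intro he
    have h := nofix42 G hG hv hx hxv he
    rw [Finset.card_eq_one]
    refine ⟨nx G x, ?_⟩
    ext y
    rw [Finset.mem_filter, Finset.mem_singleton]
    constructor
    · rintro ⟨h6, h7⟩
      by_contra h8
      obtain ⟨h9, h10⟩ := (mem_Jv51 G).1 h6
      exact h7 (h y h9 h10 h8)
    · rintro rfl
      exact ⟨h2, h5⟩
  · intro hc
    obtain ⟨z, hz⟩ := Finset.card_eq_one.1 hc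
    have h6 : sg G x ∈ (Jv G v).filter (fun x => ¬ tt G x) := Finset.mem_filter.2 ⟨h1, h4⟩
    have h7 : nx G x ∈ (Jv G v).filter (fun x => ¬ tt G x) := Finset.mem_filter.2 ⟨h2, h5⟩
    rw [hz, Finset.mem_singleton] at h6 h7
    rw [h6, h7]

/-- with at least two big corners: `D` is `k - 1 - eps` minus the other gaps -/
theorem Ds_two89 (hG : G.Geo4 al kp U) {v : V} (hv : v ∈ inN G) {x : V × V}
    (hx : x ∈ SD G) (hxv : x.2 = v) (hc : cv G v ≠ 1) :
    Ds G al x = kv G al v - ep al - 1 -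
      ∑ y ∈ ((Jv G v).erase (sg G x)).erase (nx G x), gc G al y := by
  obtain ⟨h1, h2, h3, h4, h5⟩ := sector_corners89 G hG hv hx hxv
  have hne : nx G x ≠ sg G x := fun h => hc ((sg_nx_iff89 G hG hv hx hxv).1 h.symm)
  have h := sum_gc89 G hG hv
  rw [← Finset.add_sum_erase _ _ h1,
    ← Finset.add_sum_erase _ _ (Finset.mem_erase.2 ⟨hne, h2⟩)] at h
  unfold Ds
  linarith

/-- with one big corner -/
theorem Ds_one89 (hG : G.Geo4 al kp U) {v : V} (hv : v ∈ inN G) {x : V × V}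
    (hx : x ∈ SD G) (hxv : x.2 = v) (hc : cv G v = 1) :
    Ds G al x = 2 * (kv G al v - ep al) - 1 := by
  obtain ⟨h1, h2, h3, h4, h5⟩ := sector_corners89 G hG hv hx hxv
  have he := (sg_nx_iff89 G hG hv hx hxv).2 hc
  have h := sum_gc89 G hG hv
  have h6 : ∑ y ∈ Jv G v, gc G al y = gc G al (nx G x) := by
    refine Finset.sum_eq_single_of_mem _ h2 fun y hy hne => ?_
    obtain ⟨h9, h10⟩ := (mem_Jv51 G).1 hy
    exact gc_tt89 G hG (nofix42 G hG hv hx hxv he y h9 h10 hne)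
  unfold Ds
  rw [he]
  linarith

/-- **L3'**: a sector with nonnegative surplus is at a leaf or at a point with `k ≥ 2` -/
theorem pos_sector89 (hG : G.Geo4 al kp U) {v : V} (hv : v ∈ inN G) {x : V × V}
    (hx : x ∈ SD G) (hxv : x.2 = v) (hD : 0 ≤ Ds G al x) : cv G v = 1 ∨ 8 ≤ uv G al v := by
  by_contra hno
  push Not at hno
  obtain ⟨h1, h2⟩ := hno
  have h3 := Ds_two89 G hG hv hx hxv h1
  have h4 : 0 ≤ ∑ y ∈ ((Jv G v).erase (sg G x)).erase (nx G x), gc G al y :=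
    Finset.sum_nonneg fun y _ => gc_nonneg89 G hG
  have h5 : (uv G al v : ℝ) ≤ 7 := by
    have : uv G al v ≤ 7 := by omega
    exact_mod_cast this
  rw [kv_eq89] at h3
  linarith [ep_pos89 G hG]

end

end Pool.Agent.PEN.E5
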