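import Pool.Agent.E5.R13_90
import Pool.Agent.E5.R2_63
import Pool.Agent.E5.SkC89

/-! # PENNY, all small diameters: the sides of a black face form one cycle

`btrans90`: if a black face has `tK + 2` sides, then every `nx`-invariant nonempty set of sides is
everything. `ring90`: otherwise there are at most `tK` sides. `borb90`: `nx^i x`, `i < s`, are all
the sides. -/

set_option autoImplicit false

namespace Pool.Agent.PEN.E5

open Classical UpperHalfPlane
open Pool.Agent.PEN.Cl

noncomputable section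

variable {V : Type} (G : Tg V) {al : ℝ} {kp : V → V → ℝ} {U : ℕ → ℝ}

theorem nb_sd90 {v b : V} (h : ¬ tt G (v, b)) : nb G v b = b := by
  have hh : HasN G v b := ⟨0, h⟩
  rw [nb_eq42 G hh, (Nat.find_eq_zero hh).2 h]
  rfl

theorem nb_tt90 {v b : V} (hh : HasN G v b) (h : tt G (v, b)) :
    nb G v b = nb G v (G.ap v b) := by
  obtain ⟨n, hn⟩ : ∃ n, n = Nat.find hh := ⟨_, rfl⟩
  have hs := Nat.find_spec hh
  rw [← hn] at hs
  have h0 : n ≠ 0 := by
    intro h0
    rw [h0] at hs
    exact hs h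
  obtain ⟨m, hm⟩ : ∃ m, n = m + 1 := ⟨n - 1, by omega⟩
  rw [hm, Function.iterate_succ_apply] at hs
  have h1 : HasN G v (G.ap v b) := ⟨m, hs⟩
  have h2 : Nat.find h1 = m := by
    rw [Nat.find_eq_iff]
    refine ⟨hs, fun i hi => ?_⟩
    rw [not_not]
    have := run_tt42 G hh (i := i + 1) (by omega)
    rw [Function.iterate_succ_apply] at this
    exact this
  rw [nb_eq42 G hh, nb_eq42 G h1, ← hn, h2, hm, Function.iterate_succ_apply]

/-- the contact darts of a black face -/
def Kd (K : (cg G).ConnectedComponent) : Finset (V × V) := kT G K ∪ kS G K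

theorem mem_Kd90 {K : (cg G).ConnectedComponent} {x : V × V} :
    x ∈ Kd G K ↔ x ∈ KJ G ∧ ku G x = K := by
  unfold Kd
  rw [Finset.mem_union, mem_kT42, mem_kS42, mem_SD42]
  constructor
  · rintro (h | h)
    · exact ⟨tt_KJ42 G h.1, h.2⟩
    · exact ⟨h.1.1, h.2⟩
  · rintro ⟨h1, h2⟩
    by_cases h : tt G x
    · exact Or.inl ⟨h, h2⟩
    · exact Or.inr ⟨⟨h1, h⟩, h2⟩

theorem Kd_swap90 {K : (cg G).ConnectedComponent} {x : V × V} (h : x ∈ Kd G K) :
    (x.2, x.1) ∈ Kd G K := by
  rw [mem_Kd90] at h ⊢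
  exact ⟨KJ_swap42 G h.1, (ku_swap42 G h.1).trans h.2⟩

theorem card_Kd90 (K : (cg G).ConnectedComponent) :
    (Kd G K).card = 3 * tK G K + (kS G K).card := by
  unfold Kd tK
  rw [Finset.card_union_of_disjoint, card_kT42 G K]
  rw [Finset.disjoint_left]
  intro y h3 h4
  exact ((mem_SD42 G).1 ((mem_kS42 G).1 h4).1).2 ((mem_kT42 G).1 h3).1

theorem card_pt90 (K : (cg G).ConnectedComponent) :
    ((Kd G K).image (pt G)).card = tK G K + (kS G K).card := by
  have e1 : (kT G K).image (pt G) = ((kT G K).image G.tri).image Sum.inl := by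
    rw [Finset.image_image]
    exact Finset.image_congr fun y hy => pt_tt42 G ((mem_kT42 G).1 (Finset.mem_coe.1 hy)).1
  have e2 : (kS G K).image (pt G) = (kS G K).image Sum.inr :=
    Finset.image_congr fun y hy =>
      pt_sd42 G ((mem_SD42 G).1 ((mem_kS42 G).1 (Finset.mem_coe.1 hy)).1).2
  unfold Kd tK
  rw [Finset.image_union, e1, e2, Finset.card_union_of_disjoint,
    Finset.card_image_of_injective _ Sum.inl_injective,
    Finset.card_image_of_injective _ Sum.inr_injective]
  rw [Finset.disjoint_left]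
  intro y h4 h5
  obtain ⟨a, _, rfl⟩ := Finset.mem_image.1 h4
  obtain ⟨b, _, h6⟩ := Finset.mem_image.1 h5
  exact absurd h6 (by simp)

/-- the number of sides and the number of triangles have the same parity -/
theorem parity90 (K : (cg G).ConnectedComponent) : Even (tK G K + (kS G K).card) := by
  have h : ∑ x ∈ Kd G K, (1 : ZMod 2) = 0 := by
    refine Finset.sum_involution (fun x _ => (x.2, x.1)) (fun x _ => by decide) ?_
      (fun x hx => Kd_swap90 G hx) (fun x _ => rfl)
    intro x hx _ h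
    have h2 := ((mem_KJ42 G).1 ((mem_Kd90 G).1 hx).1).1
    exact G.ne _ _ h2 (congrArg Prod.snd h)
  rw [Finset.sum_const, nsmul_eq_mul, mul_one, ZMod.natCast_eq_zero_iff_even, card_Kd90] at h
  obtain ⟨k, hk⟩ := h
  exact ⟨k - tK G K, by omega⟩

theorem rankK90 {K : (cg G).ConnectedComponent} {T1 : Finset V ⊕ (V × V)}
    (hT1 : T1 ∈ (Kd G K).image (pt G)) : ∃ r : Finset V ⊕ (V × V) → ℕ,
    ∀ T ∈ (Kd G K).image (pt G), T ≠ T1 →
      ∃ x ∈ Kd G K, pt G x = T ∧ r (pt G (x.2, x.1)) < r T := by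
  have hcl : ∀ T ∈ (Kd G K).image (pt G), (cg G).connectedComponentMk T = K := by
    intro T hT
    obtain ⟨x, hx, rfl⟩ := Finset.mem_image.1 hT
    exact ((mem_Kd90 G).1 hx).2
  refine ⟨fun T => (cg G).dist T T1, fun T hT hne => ?_⟩
  have hre : (cg G).Reachable T T1 :=
    SimpleGraph.ConnectedComponent.exact ((hcl T hT).trans (hcl T1 hT1).symm)
  obtain ⟨p, hp⟩ := hre.exists_walk_length_eq_dist
  cases p with
  | nil => exact absurd rfl hne
  | @cons _ T' _ h q =>
    rw [SimpleGraph.Walk.length_cons] at hp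
    have h2 : (cg G).dist T' T1 ≤ q.length := SimpleGraph.dist_le q
    obtain ⟨_, x, h3, h4, h5⟩ := h
    refine ⟨x, (mem_Kd90 G).2 ⟨h3, ?_⟩, h4, ?_⟩
    · unfold ku
      rw [h4]
      exact hcl T hT
    · dsimp only
      rw [h5]
      omega

/-- a function of the contact darts of a black face with `tK + 2` sides that is invariant under the
boundary walk is constant -/
theorem constK90 {K : (cg G).ConnectedComponent} (hd : (kS G K).card = tK G K + 2)
    (Z : V × V → Prop) (h1 : ∀ x ∈ kS G K, (Z x ↔ Z (x.2, x.1)))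
    (h2 : ∀ x ∈ kT G K, (Z x ↔ Z (x.1, G.ap x.1 x.2))) :
    ∀ x ∈ Kd G K, ∀ y ∈ Kd G K, (Z x ↔ Z y) := by
  obtain ⟨A, hA⟩ : ∃ A, A = (Kd G K).filter (fun x => ¬ (Z x ↔ Z (x.2, x.1))) := ⟨_, rfl⟩
  have hmA : ∀ x, x ∈ A ↔ x ∈ Kd G K ∧ ¬ (Z x ↔ Z (x.2, x.1)) := by
    intro x
    rw [hA, Finset.mem_filter]
  have hor : ∀ x ∈ Kd G K, tt G x ∨ x ∈ kS G K := by
    intro x hx
    rcases Finset.mem_union.1 hx with h | h
    · exact Or.inl ((mem_kT42 G).1 h).1
    · exact Or.inr h
  have hT : ∀ x ∈ Kd G K, tt G x → x ∈ kT G K ∧ (x.2, G.ap x.1 x.2) ∈ kT G K ∧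
      (G.ap x.1 x.2, x.1) ∈ kT G K := by
    intro x hx h
    have hk := ((mem_Kd90 G).1 hx).2
    exact ⟨(mem_kT42 G).2 ⟨h, hk⟩, (mem_kT42 G).2 ⟨tt_rot42 G h, (ku_rot42 G h).trans hk⟩,
      (mem_kT42 G).2 ⟨tt_rot42' G h, (ku_rot42' G h).trans hk⟩⟩
  have hTD : ∀ x ∈ kT G K, x ∈ Kd G K := fun x hx => Finset.mem_union_left _ hx
  have hA0 : A = ∅ := by
    apply flow90 (Kd G K) (pt G) (fun x => (x.2, x.1)) ((Kd G K).image (pt G))
    · intro x hx
      exact Kd_swap90 G hx
    · intro x _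
      rfl
    · intro x hx
      exact Finset.mem_image_of_mem _ hx
    · intro T1 hT1
      exact rankK90 G hT1
    · rw [card_Kd90, card_pt90]
      omega
    · intro x hx
      exact ((hmA x).1 hx).1
    · intro x hx
      obtain ⟨h3, h4⟩ := (hmA x).1 hx
      exact (hmA _).2 ⟨Kd_swap90 G h3, fun h => h4 h.symm⟩
    · intro x hx
      obtain ⟨h3, h4⟩ := (hmA x).1 hx
      rcases hor x h3 with h5 | h5
      swap
      · exact absurd (h1 x h5) h4
      obtain ⟨k1, k2, k3⟩ := hT x h3 h5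
      have hxp := h5.1
      have n1 := G.ne _ _ (G.sub hxp)
      have n3 := G.ne _ _ (G.sub (G.ap2 _ _ hxp))
      have p2 : pt G (x.2, G.ap x.1 x.2) = pt G x := by
        rw [pt_tt42 G h5, pt_tt42 G (tt_rot42 G h5), tri_rot66 G hxp]
      have p3 : pt G (G.ap x.1 x.2, x.1) = pt G x := by
        rw [pt_tt42 G h5, pt_tt42 G (tt_rot42' G h5), tri_rot66' G hxp]
      by_cases hA1 : (x.2, G.ap x.1 x.2) ∈ A
      · exact ⟨_, hA1, fun h => n1 (congrArg Prod.fst h).symm, p2⟩
      · by_cases hA2 : (G.ap x.1 x.2, x.1) ∈ A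
        · exact ⟨_, hA2, fun h => n3 (congrArg Prod.fst h), p3⟩
        · exfalso
          have e1 : (Z (x.2, G.ap x.1 x.2) ↔ Z (G.ap x.1 x.2, x.2)) := by
            by_contra h
            exact hA1 ((hmA _).2 ⟨hTD _ k2, h⟩)
          have e2 : (Z (G.ap x.1 x.2, x.1) ↔ Z (x.1, G.ap x.1 x.2)) := by
            by_contra h
            exact hA2 ((hmA _).2 ⟨hTD _ k3, h⟩)
          have f1 := h2 _ k1
          have f2 := h2 _ k2
          have f3 := h2 _ k3
          dsimp only at f2 f3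
          rw [G.ap3 _ _ hxp] at f2
          rw [G.ap4 _ _ hxp] at f3
          exact h4 (((f1.trans e2.symm).trans f3).trans (e1.symm.trans f2))
  have hswap : ∀ x ∈ Kd G K, (Z x ↔ Z (x.2, x.1)) := by
    intro x hx
    by_contra h
    have h7 := (hmA x).2 ⟨hx, h⟩
    rw [hA0] at h7
    exact absurd h7 (Finset.notMem_empty _)
  have hsame : ∀ x ∈ Kd G K, ∀ y ∈ Kd G K, pt G x = pt G y → (Z x ↔ Z y) := by
    intro x hx y hy h
    by_cases h5 : tt G x
    · have h6 : tt G y := by
        by_contra h6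
        rw [pt_tt42 G h5, pt_sd42 G h6] at h
        exact absurd h (by simp)
      rw [pt_tt42 G h5, pt_tt42 G h6, Sum.inl.injEq] at h
      obtain ⟨k1, k2, k3⟩ := hT x hx h5
      have f1 := h2 _ k1
      have f2 := h2 _ k2
      have g1 := hswap _ hx
      have g3 := hswap _ (hTD _ k3)
      dsimp only at f2 g3
      rw [G.ap3 _ _ h5.1] at f2
      rcases (tri_eq_iff G h5.1 h6.1).1 h with h3 | h3 | h3
      · rw [h3]
      · rw [h3]
        exact g1.trans f2.symm
      · rw [h3]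
        exact f1.trans g3.symm
    · have h6 : ¬ tt G y := by
        intro h6
        rw [pt_tt42 G h6, pt_sd42 G h5] at h
        exact absurd h (by simp)
      rw [pt_sd42 G h5, pt_sd42 G h6, Sum.inr.injEq] at h
      rw [h]
  have hwalk : ∀ (T T' : Finset V ⊕ (V × V)) (p : (cg G).Walk T T'), ∀ x ∈ Kd G K,
      ∀ y ∈ Kd G K, pt G x = T → pt G y = T' → (Z x ↔ Z y) := by
    intro T T' p
    induction p with
    | nil =>
      intro x hx y hy h3 h4
      exact hsame x hx y hy (h3.trans h4.symm)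
    | cons h q ih =>
      intro x hx y hy h3 h4
      obtain ⟨_, z, k1, k2, k3⟩ := h
      have hz : z ∈ Kd G K := by
        refine (mem_Kd90 G).2 ⟨k1, ?_⟩
        rw [← ((mem_Kd90 G).1 hx).2]
        unfold ku
        rw [k2, h3]
      exact (hsame x hx z hz (h3.trans k2.symm)).trans
        ((hswap _ hz).trans (ih _ (Kd_swap90 G hz) y hy k3 h4))
  intro x hx y hy
  have hre : (cg G).Reachable (pt G x) (pt G y) :=
    SimpleGraph.ConnectedComponent.exact
      ((((mem_Kd90 G).1 hx).2).trans (((mem_Kd90 G).1 hy).2).symm)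
  obtain ⟨p⟩ := hre
  exact hwalk _ _ p x hx y hy rfl rfl

/-- **transitivity of `nx` on the sides** of a black face with `tK + 2` sides -/
theorem btrans90 (hG : G.Geo4 al kp U) {K : (cg G).ConnectedComponent}
    (hd : (kS G K).card = tK G K + 2) (O : Finset (V × V)) (hO : O ⊆ kS G K)
    (hne : O.Nonempty) (hinv : ∀ x ∈ O, nx G x ∈ O) : O = kS G K := by
  have hinj : ∀ x ∈ kS G K, ∀ y ∈ kS G K, nx G x = nx G y → x = y := by
    intro x hx y hy h
    exact nx_inj42 G hG (mem_kS89 G hx) (mem_kS89 G hy) h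
  have himg : O.image (nx G) = O := by
    apply Finset.eq_of_subset_of_card_le
    · intro y hy
      obtain ⟨x, hx, rfl⟩ := Finset.mem_image.1 hy
      exact hinv x hx
    · rw [Finset.card_image_of_injOn]
      intro x hx y hy h
      exact hinj _ (hO (Finset.mem_coe.1 hx)) _ (hO (Finset.mem_coe.1 hy)) h
  have hinv' : ∀ x ∈ kS G K, (x ∈ O ↔ nx G x ∈ O) := by
    intro x hx
    refine ⟨hinv x, fun h => ?_⟩
    rw [← himg] at h
    obtain ⟨y, hy, hyx⟩ := Finset.mem_image.1 h
    rw [← hinj _ (hO hy) _ hx hyx]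
    exact hy
  have hZ := constK90 G hd (fun x => (x.1, nb G x.1 x.2) ∈ O) ?_ ?_
  · obtain ⟨y, hy⟩ := hne
    have hyS := hO hy
    refine Finset.Subset.antisymm hO fun x hx => ?_
    have e : ∀ z ∈ kS G K, (z.1, nb G z.1 z.2) = z := by
      intro z hz
      rw [nb_sd90 G ((mem_SD42 G).1 (mem_kS89 G hz)).2]
    have h := hZ x (Finset.mem_union_right _ hx) y (Finset.mem_union_right _ hyS)
    rw [e x hx, e y hyS] at h
    exact h.2 hy
  · intro x hx
    rw [nb_sd90 G ((mem_SD42 G).1 (mem_kS89 G hx)).2]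
    exact hinv' x hx
  · intro x hx
    have htt := ((mem_kT42 G).1 hx).1
    have hh := hasN42 G hG (v := x.1) (b := x.2) (G.sub htt.1)
    rw [nb_tt90 G hh htt]

/-- two boundary cycles: at most `tK` sides -/
theorem ring90 (hG : G.Geo4 al kp U) {K : (cg G).ConnectedComponent} (O : Finset (V × V))
    (hO : O ⊆ kS G K) (hne : O.Nonempty) (hinv : ∀ x ∈ O, nx G x ∈ O) (hp : O ≠ kS G K) :
    (kS G K).card ≤ tK G K := by
  have h1 := kS_card63 G K
  obtain ⟨k, hk⟩ := parity90 G K
  by_contra h2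
  exact hp (btrans90 G hG (by omega) O hO hne hinv)

/-- the sides of a black face with `tK + 2` sides: one cycle -/
theorem borb90 (hG : G.Geo4 al kp U) {K : (cg G).ConnectedComponent}
    (hd : (kS G K).card = tK G K + 2) {x : V × V} (hx : x ∈ kS G K) :
    (Finset.range (kS G K).card).image (fun i => (nx G)^[i] x) = kS G K ∧
      (nx G)^[(kS G K).card] x = x :=
  cyc90 (fun _ hy => nx_kS89 G hG hy)
    (fun _ hy _ hz h => nx_inj42 G hG (mem_kS89 G hy) (mem_kS89 G hz) h)
    (fun O hO hne hinv => btrans90 G hG hd O hO hne hinv) hx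

end

end Pool.Agent.PEN.E5
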