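import Pool.Agent.E5.Kb15
import Pool.Agent.E5.Bk90

/-! # PENNY, all small diameters: the row of every black face (`θ = y = 1`) -/

set_option autoImplicit false

namespace Pool.Agent.PEN.E5

open Classical UpperHalfPlane
open Pool.Agent.PEN.Cl

noncomputable section

variable {V : Type} (G : Tg V) {al : ℝ} {kp : V → V → ℝ} {U : ℕ → ℝ}

/-- the black face has a white side followed by an outer dart -/
def Tr15 (K : (cg G).ConnectedComponent) : Prop := ∃ x ∈ kS G K, x ∉ G.oJ ∧ nx G x ∈ G.oJ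

/-- **the row of every black face**: price, leaves and full visits are paid by the payers, the weak
sides, the gaps at outer points, the full ears and the leaf corners. A leaf corner pays more than
`un - 3` only if it is the only leaf of a face without payer, weak side and use, or a centre corner of
a face with white and outer sides -/
theorem krow15 (hG : G.Geo4 al kp U) (hT : ∀ x ∈ iJ G, gc G al x ≤ 1)
    {K : (cg G).ConnectedComponent} {p : V × V → ℝ}
    (hp1 : ∀ x ∈ Lv G K, pm G al (sg G x) ≤ p (sg G x))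
    (hp2 : ∀ x, Lv G K = {x} → K ∉ Sf G al → WsK G al K = ∅ → uK14 G al K < 1 →
      (un G al (sg G x) : ℝ) - 2 ≤ p (sg G x))
    (hp3 : Tr15 G K → ∀ x ∈ Lv G K, Cen61 G al (sg G x) →
      (un G al (sg G x) : ℝ) - 2 ≤ p (sg G x)) :
    wx G 1 K + (Lv G K).card + F14 G K + Z14 G K ≤
      ∑ s ∈ PK G al K, max (4 - (rn G s : ℝ)) 0 + 4 * (WsK G al K).card +
      ∑ x ∈ Lv G K, p (sg G x) + 4 * uK14 G al K + 3 * fe14 G K := by
  have hP0 : 0 ≤ ∑ s ∈ PK G al K, max (4 - (rn G s : ℝ)) 0 :=
    Finset.sum_nonneg fun s _ => le_max_right _ _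
  have hL0 : 0 ≤ ∑ x ∈ Lv G K, p (sg G x) :=
    Finset.sum_nonneg fun x hx => (pm_nonneg89 G _).trans (hp1 x hx)
  have hW0 : (0 : ℝ) ≤ (WsK G al K).card := Nat.cast_nonneg _
  have hU := uK_nonneg14 G hG (al := al) K
  have hF0 : (0 : ℝ) ≤ fe14 G K := Nat.cast_nonneg _
  by_cases h1 : Tr15 G K
  · have := kb15 G hG hT h1 hp1 (hp3 h1)
    linarith
  by_cases h2 : ao14 G K
  · have h3 := ao_cost14 G hG h2
    rw [Lv_ao89 G hG h2, Finset.card_empty, Finset.sum_empty]
    push_cast
    linarith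
  by_cases h3 : ∃ x ∈ kS G K, x ∈ G.oJ
  · -- a ring
    have hcl : ∀ x ∈ (kS G K).filter (fun x => x ∉ G.oJ),
        nx G x ∈ (kS G K).filter (fun x => x ∉ G.oJ) := by
      intro x hx
      obtain ⟨h4, h5⟩ := Finset.mem_filter.1 hx
      exact Finset.mem_filter.2 ⟨nx_kS89 G hG h4, fun h6 => h1 ⟨x, h4, h5, h6⟩⟩
    have hne : ((kS G K).filter (fun x => x ∉ G.oJ)).Nonempty := by
      unfold ao14 at h2
      push Not at h2
      obtain ⟨x, hx, hxo⟩ := h2
      exact ⟨x, Finset.mem_filter.2 ⟨hx, hxo⟩⟩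
    have hpr : (kS G K).filter (fun x => x ∉ G.oJ) ≠ kS G K := by
      intro h
      obtain ⟨x, hx, hxo⟩ := h3
      rw [← h] at hx
      exact (Finset.mem_filter.1 hx).2 hxo
    have h4 := ring90 G hG _ (Finset.filter_subset _ _) hne hcl hpr
    have h5 : (Lv G K).card + (F14 G K + Z14 G K) ≤ (kS G K).card := by
      have hd : Disjoint (Lv G K) (fv14 G K) := by
        rw [Finset.disjoint_left]
        intro x hx hx2
        exact (Lv_out54 G hG hx).2 (Finset.mem_filter.1 hx2).2.1
      have h6 := Finset.card_union_of_disjoint hd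
      have h7 : Lv G K ∪ fv14 G K ⊆ kS G K :=
        Finset.union_subset (Finset.filter_subset _ _) (Finset.filter_subset _ _)
      have h8 := Finset.card_le_card h7
      have h9 := fv_card14 G K
      omega
    have h4' : ((kS G K).card : ℝ) ≤ tK G K := by exact_mod_cast h4
    have h5' : ((Lv G K).card : ℝ) + (F14 G K + Z14 G K) ≤ (kS G K).card := by exact_mod_cast h5
    rw [wx_one89]
    linarith
  · push Not at h3
    have h4 : fv14 G K = ∅ := by
      unfold fv14
      rw [Finset.filter_eq_empty_iff]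
      intro x hx h
      exact h3 x hx h.1
    have h5 : F14 G K = 0 := by
      unfold F14
      rw [h4, Finset.filter_empty, Finset.card_empty]
    have h6 : Z14 G K = 0 := by
      unfold Z14
      rw [h4, Finset.filter_empty, Finset.card_empty]
    have h7 := kcost89 G hG hT hp1 hp2
    rw [if_neg h2] at h7
    rw [h5, h6]
    push_cast
    linarith

/-- the payment of a leaf corner -/
def pc15 (al : ℝ) (z : V × V) : ℝ :=
  if Cen61 G al z ∧ ∃ x ∈ SD G, sg G x = z ∧ x.2 ∈ inN G ∧
      ((Lv G (ku G x) = {x} ∧ ku G x ∉ Sf G al ∧ WsK G al (ku G x) = ∅ ∧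
        uK14 G al (ku G x) < 1) ∨ Tr15 G (ku G x))
  then max ((un G al z : ℝ) - 2) 0 else pm G al z

theorem pc_nonneg15 (z : V × V) : 0 ≤ pc15 G al z := by
  unfold pc15
  split_ifs
  · exact le_max_right _ _
  · exact pm_nonneg89 G z

theorem pm_le_pc15 (z : V × V) : pm G al z ≤ pc15 G al z := by
  unfold pc15
  split_ifs
  · unfold pm
    exact max_le_max (by linarith) le_rfl
  · exact le_rfl

/-- the shape asked for by the white rows -/
theorem pc_white15 {z : V × V} (hz : 2 ≤ un G al z) :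
    pc15 G al z ≤ ((un G al z - 3 : ℕ) : ℝ) ∨
      (Cen61 G al z ∧ pc15 G al z ≤ (un G al z : ℝ) - 2) := by
  have h2 : (2 : ℝ) ≤ un G al z := by exact_mod_cast hz
  unfold pc15
  split_ifs with h
  · right
    exact ⟨h.1, max_le le_rfl (by linarith)⟩
  · left
    unfold pm
    rcases Nat.lt_or_ge (un G al z) 3 with h3 | h3
    · have h4 : (un G al z : ℝ) ≤ 3 := by exact_mod_cast h3.le
      rw [max_eq_right (by linarith)]
      exact Nat.cast_nonneg _
    · rw [Nat.cast_sub h3]
      have h4 : (3 : ℝ) ≤ un G al z := by exact_mod_cast h3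
      exact max_le le_rfl (by push_cast; linarith)

/-- **the row of every black face** with the payments `pc15` -/
theorem krowc15 (hG : G.Geo4 al kp U) (hT : ∀ x ∈ iJ G, gc G al x ≤ 1)
    (K : (cg G).ConnectedComponent) :
    wx G 1 K + (Lv G K).card + F14 G K + Z14 G K ≤
      ∑ s ∈ PK G al K, max (4 - (rn G s : ℝ)) 0 + 4 * (WsK G al K).card +
      ∑ x ∈ Lv G K, pc15 G al (sg G x) + 4 * uK14 G al K + 3 * fe14 G K := by
  refine krow15 G hG hT (fun x _ => pm_le_pc15 G _) ?_ ?_
  · intro x hx h1 h2 h3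
    have hxL : x ∈ Lv G K := by rw [hx]; exact Finset.mem_singleton_self x
    obtain ⟨h4, h5, h6⟩ := (mem_Lv15 G).1 hxL
    obtain ⟨h7, h8⟩ := (mem_kS42 G).1 h4
    have h9 := (single_cen2 G hG hT hx h1 h2 h3).2.2.2.2.2
    unfold pc15
    rw [if_pos ⟨h9, x, h7, rfl, h5, Or.inl ⟨by rw [h8]; exact hx, by rw [h8]; exact h1,
      by rw [h8]; exact h2, by rw [h8]; exact h3⟩⟩]
    exact le_max_left _ _
  · intro h1 x hx h2
    obtain ⟨h4, h5, h6⟩ := (mem_Lv15 G).1 hx
    obtain ⟨h7, h8⟩ := (mem_kS42 G).1 h4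
    unfold pc15
    rw [if_pos ⟨h2, x, h7, rfl, h5, Or.inr (by rw [h8]; exact h1)⟩]
    exact le_max_left _ _

end

end Pool.Agent.PEN.E5
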