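import Pool.Agent.E5.Fb85

/-! # PENNY, all small diameters: pure fans

A black face `K` is the pure fan of its sector `x` if it has only the triangles of the run of `x`. -/

set_option autoImplicit false

namespace Pool.Agent.PEN.E5

open Classical UpperHalfPlane
open Pool.Agent.PEN.Cl

noncomputable section

variable {V : Type} (G : Tg V) {al : ℝ} {kp : V → V → ℝ} {U : ℕ → ℝ}

/-- a positive number of triangles: all runs are positive -/
theorem rn_pos85 (hG : G.Geo4 al kp U) {K : (cg G).ConnectedComponent} (ht : 1 ≤ tK G K)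
    {y : V × V} (hy : y ∈ kS G K) : 1 ≤ rn G y := by
  obtain ⟨h5, h6⟩ := (mem_kS42 G).1 hy
  have h7 := tK_zero54 G hG h5
  rw [h6] at h7
  by_contra hno
  have := h7.2 (by omega)
  omega

/-- the other sectors of a pure fan have one or two triangles -/
theorem pure_le85 (hG : G.Geo4 al kp U) {K : (cg G).ConnectedComponent} {x : V × V}
    (hx : x ∈ kS G K) (h : tK G K = rn G x) (ht : 1 ≤ rn G x) {y : V × V} (hy : y ∈ kS G K)
    (hne : y ≠ x) : 1 ≤ rn G y ∧ rn G y ≤ 2 := by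
  have h1 := rn_pos85 G hG (by omega) hy
  obtain ⟨hx1, hx2⟩ := (mem_kS42 G).1 hx
  obtain ⟨hy1, hy2⟩ := (mem_kS42 G).1 hy
  refine ⟨h1, ?_⟩
  by_cases hh : x.2 = y.2
  · have := run_same63 G hG hx1 hy1 hne.symm hh (hx2.trans hy2.symm)
    rw [hx2] at this
    omega
  · have := run_two63 G hG hx1 hy1 hh (hx2.trans hy2.symm)
    rw [hx2] at this
    omega

theorem pure_nx85 (hG : G.Geo4 al kp U) {K : (cg G).ConnectedComponent} {x : V × V}
    (hx : x ∈ kS G K) (h : tK G K = rn G x) (ht : 1 ≤ rn G x) : rn G (nx G x) = 1 := by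
  obtain ⟨hx1, hx2⟩ := (mem_kS42 G).1 hx
  have h1 := run_adj63 G hG hx1
  have h2 := rn_pos85 G hG (by omega) (nx_kS89 G hG hx)
  rw [hx2] at h1
  omega

theorem pure_pr85 (hG : G.Geo4 al kp U) {K : (cg G).ConnectedComponent} {x p : V × V}
    (h : tK G K = rn G x) (ht : 1 ≤ rn G x) (hp : p ∈ kS G K)
    (hpx : nx G p = x) : rn G p = 1 := by
  obtain ⟨hp1, hp2⟩ := (mem_kS42 G).1 hp
  have h1 := run_adj63 G hG hp1
  have h2 := rn_pos85 G hG (by omega) hp
  rw [hp2, hpx] at h1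
  omega

theorem pure_ne85 (hG : G.Geo4 al kp U) {K : (cg G).ConnectedComponent} {x : V × V}
    (hx : x ∈ kS G K) (ht : 1 ≤ rn G x) : nx G (nx G x) ≠ x := by
  intro he
  obtain ⟨hx1, hx2⟩ := (mem_kS42 G).1 hx
  have e1 : (nx G (nx G x)).1 = (nx G x).2 := rfl
  have e2 : (nx G x).2 = x.1 := by rw [← e1, he]
  have h1 : nx G x = (x.2, x.1) := Prod.ext rfl e2
  exact nx_not_bar42 G hG ((rn_pos54 G hG hx1).1 (by omega)) h1

/-- the number of sides of a pure fan, and the runs of two -/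
theorem pure_card85 (hG : G.Geo4 al kp U) {K : (cg G).ConnectedComponent} {x : V × V}
    (hx : x ∈ kS G K) (h : tK G K = rn G x) (ht : 1 ≤ rn G x) :
    (kS G K).card = tK G K + 2 ∧
      ∀ y ∈ kS G K, y ≠ x → y ≠ nx G x → nx G y ≠ x → rn G y = 2 := by
  obtain ⟨hx1, hx2⟩ := (mem_kS42 G).1 hx
  obtain ⟨p, hp1, hpx⟩ := nx_surj42 G hG hx1
  have hp : p ∈ kS G K := (mem_kS42 G).2 ⟨hp1, by
    rw [← hx2, ← hpx]
    exact (nx_ku63 G hG hp1).2.symm⟩
  have hn := nx_kS89 G hG hx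
  have hn1 := pure_nx85 G hG hx h ht
  have hp2 := pure_pr85 G hG h ht hp hpx
  have hpn : p ≠ nx G x := fun he => by
    rw [he] at hpx
    exact pure_ne85 G hG hx ht hpx
  have hpx' : p ≠ x := fun he => by
    have h3 := head_ne63 G hG hx1
    rw [he] at hpx
    rw [hpx] at h3
    exact h3 rfl
  have hnx' : nx G x ≠ x := fun he => by
    have h3 := head_ne63 G hG hx1
    rw [he] at h3
    exact h3 rfl
  have hsum := sum_rn63 G hG K
  have hcard := kS_card63 G K
  obtain ⟨R, hR⟩ : ∃ R, R = (((kS G K).erase x).erase (nx G x)).erase p := ⟨_, rfl⟩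
  have hR2 : ∀ y ∈ R, rn G y ≤ 2 := by
    intro y hy
    rw [hR] at hy
    have h1 := Finset.mem_of_mem_erase (Finset.mem_of_mem_erase hy)
    exact (pure_le85 G hG hx h ht (Finset.mem_of_mem_erase h1) (Finset.ne_of_mem_erase h1)).2
  have m1 : nx G x ∈ (kS G K).erase x := Finset.mem_erase.2 ⟨hnx', hn⟩
  have m2 : p ∈ ((kS G K).erase x).erase (nx G x) :=
    Finset.mem_erase.2 ⟨hpn, Finset.mem_erase.2 ⟨hpx', hp⟩⟩
  have s1 := Finset.add_sum_erase (kS G K) (rn G) hx
  have s2 := Finset.add_sum_erase ((kS G K).erase x) (rn G) m1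
  have s3 := Finset.add_sum_erase (((kS G K).erase x).erase (nx G x)) (rn G) m2
  rw [← hR] at s3
  have c1 := Finset.card_erase_add_one hx
  have c2 := Finset.card_erase_add_one m1
  have c3 := Finset.card_erase_add_one m2
  rw [← hR] at c3
  have s4 : ∑ y ∈ R, rn G y ≤ R.card * 2 := by
    rw [← smul_eq_mul]
    exact Finset.sum_le_card_nsmul _ _ _ hR2
  have hRc : R.card = rn G x - 1 ∧ ∑ y ∈ R, rn G y = R.card * 2 := by omega
  refine ⟨by omega, ?_⟩
  intro y hy h1 h2 h3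
  by_contra hc
  have hyp : y ≠ p := fun he => h3 (by rw [he]; exact hpx)
  have hyR : y ∈ R := by
    rw [hR]
    exact Finset.mem_erase.2 ⟨hyp, Finset.mem_erase.2 ⟨h2, Finset.mem_erase.2 ⟨h1, hy⟩⟩⟩
  have h5 := hR2 y hyR
  have s5 := Finset.add_sum_erase R (rn G) hyR
  have c5 := Finset.card_erase_add_one hyR
  have s6 : ∑ z ∈ R.erase y, rn G z ≤ (R.erase y).card * 2 := by
    rw [← smul_eq_mul]
    exact Finset.sum_le_card_nsmul _ _ _ fun z hz => hR2 z (Finset.mem_of_mem_erase hz)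
  omega

/-- the price of a pure fan -/
theorem pure_wx85 (hG : G.Geo4 al kp U) {K : (cg G).ConnectedComponent} {x : V × V}
    (hx : x ∈ kS G K) (h : tK G K = rn G x) (ht : 1 ≤ rn G x) : wx G 1 K = 4 - rn G x := by
  obtain ⟨h1, _⟩ := pure_card85 G hG hx h ht
  unfold wx
  rw [h1, h]
  push_cast
  ring

/-- no side of a pure fan with at least two triangles, away from the centre, has two ears as ends -/
theorem pure_side85 (hG : G.Geo4 al kp U) {K : (cg G).ConnectedComponent} {x y : V × V}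
    (h : tK G K = rn G x) (ht : 2 ≤ rn G x) (hy : y ∈ kS G K)
    (h1 : rn G y = 1) : rn G (nx G y) ≠ 1 := by
  intro h2
  have hn := nx_kS89 G hG hy
  have h3 := (single54 G hG (mem_kS89 G hy) rfl h2 h1).2.2.2
  rw [((mem_kS42 G).1 hn).2] at h3
  omega

/-- the runs at the two ends of a side of a pure fan away from the centre: `(1,2)`, `(2,1)` or
`(2,2)` -/
theorem pure_ends85 (hG : G.Geo4 al kp U) {K : (cg G).ConnectedComponent} {x y : V × V}
    (hx : x ∈ kS G K) (h : tK G K = rn G x) (ht : 2 ≤ rn G x) (hy : y ∈ kS G K)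
    (hyx : y ≠ x) (hnx : nx G y ≠ x) :
    (rn G y = 1 ∧ rn G (nx G y) = 2) ∨ (rn G y = 2 ∧ rn G (nx G y) = 1) ∨
      (rn G y = 2 ∧ rn G (nx G y) = 2) := by
  have h1 := pure_le85 G hG hx h (by omega) hy hyx
  have h2 := pure_le85 G hG hx h (by omega) (nx_kS89 G hG hy) hnx
  have h3 := pure_side85 G hG h ht hy
  omega

/-- a point with 7 units and a big corner of 3 units which is no leaf has at most two triangles -/
theorem tri_le85 (hG : G.Geo4 al kp U) {v : V} (hu : uv G al v = 7)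
    {z : V × V} (hz : z ∈ Bv G v) (hz3 : 3 ≤ un G al z) (hc : 2 ≤ cv G v) :
    ∑ s ∈ Sv G v, rn G s ≤ 2 := by
  have h1 := uv_split62 G hG (al := al) v
  have hcb : (Bv G v).card = cv G v := rfl
  have h2 := Finset.add_sum_erase (Bv G v) (un G al) hz
  have h3 : (Bv G v).card - 1 ≤ ((Bv G v).erase z).card := by
    rw [Finset.card_erase_of_mem hz]
  have h4 : ((Bv G v).erase z).card * 2 ≤ ∑ y ∈ (Bv G v).erase z, un G al y := by
    rw [← smul_eq_mul]
    exact Finset.card_nsmul_le_sum _ _ _ fun y hy =>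
      un_ge15 G ((mem_BC89 G).1 ((mem_Bv62 G).1 (Finset.mem_of_mem_erase hy)).1).2
  omega

/-- the two sectors next to such a corner -/
theorem two_le85 (hG : G.Geo4 al kp U) {v : V} (hu : uv G al v = 7)
    {z : V × V} (hz : z ∈ Bv G v) (hz3 : 3 ≤ un G al z) (hc : 2 ≤ cv G v) {s s' : V × V}
    (hs : s ∈ Sv G v) (hs' : s' ∈ Sv G v) (hne : s ≠ s') : rn G s + rn G s' ≤ 2 := by
  have h1 := tri_le85 G hG hu hz hz3 hc
  have h2 := Finset.add_sum_erase (Sv G v) (rn G) hs
  have h3 := Finset.single_le_sum (f := rn G) (fun y _ => Nat.zero_le _)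
    (Finset.mem_erase.2 ⟨hne.symm, hs'⟩)
  omega

end

end Pool.Agent.PEN.E5
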