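import Pool.Agent.E5.Fan2
import Pool.Agent.E5.HH63
import Pool.Agent.E5.Pf85
import Pool.Agent.E5.Kr15

/-! # PENNY, all small diameters: the row of a black face with the units of the hexagons

`A` are good sides with property `H` (sides of hexagons of mass one), `P` pairs of a leaf and a sector
with run at least three, `Q` low low sectors. Each of them takes one unit from the black face, unless
all heads are inner and the face is one of three exceptional kinds. -/

set_option autoImplicit false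

namespace Pool.Agent.PEN.E5

open Classical UpperHalfPlane
open Pool.Agent.PEN.Cl

noncomputable section

variable {V : Type} (G : Tg V) {al : ℝ} {kp : V → V → ℝ} {U : ℕ → ℝ}

/-- the exceptional black faces: all heads inner and (E1) one leaf, pure fan; (E2) one payer, pure fan;
(E3) digon with one weak side and nothing else -/
def Xc2 (al : ℝ) (K : (cg G).ConnectedComponent) : Prop :=
  (∀ x ∈ kS G K, x.2 ∈ inN G) ∧
    ((∃ x, Lv G K = {x} ∧ PK G al K = ∅ ∧ WsK G al K = ∅ ∧ tK G K = rn G x) ∨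
      (∃ x, Lv G K = ∅ ∧ PK G al K = {x} ∧ WsK G al K = ∅ ∧ tK G K = rn G x) ∨
      (Lv G K = ∅ ∧ PK G al K = ∅ ∧ (WsK G al K).card = 1 ∧ tK G K = 0))

theorem Lv_PK_disj2 (hG : G.Geo4 al kp U) (hT : ∀ x ∈ iJ G, gc G al x ≤ 1)
    (K : (cg G).ConnectedComponent) : Disjoint (Lv G K) (PK G al K) := by
  rw [Finset.disjoint_left]
  intro x h1 h2
  obtain ⟨_, h3, h4⟩ := (mem_Lv15 G).1 h1
  have h5 := ((mem_PK63 G).1 h2).2.2.1
  have := leaf_uv39 G hG hT h3 h4
  omega

theorem LP_le2 (K : (cg G).ConnectedComponent) : (LP63 G K).card ≤ (Jl G K).card := by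
  have hsub : LP63 G K ⊆ (Jl G K).image (nx G) := by
    intro y hy
    obtain ⟨h1, z, hz, rfl⟩ := Finset.mem_filter.1 hy
    exact Finset.mem_image_of_mem _ (Finset.mem_filter.2 ⟨hz, h1⟩)
  exact (Finset.card_le_card hsub).trans Finset.card_image_le

theorem LL_le2 (hG : G.Geo4 al kp U) (hT : ∀ x ∈ iJ G, gc G al x ≤ 1) (he : ep al ≤ 1 / 2)
    (K : (cg G).ConnectedComponent) (H : V × V → Prop) :
    ((LL63 G al K).filter (fun y => ¬ H y)).card ≤
      ((Lv G K).filter (fun y => Cen61 G al (sg G y) ∧ ¬ H y)).card +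
        2 * (WsK G al K).card := by
  have hsub : (LL63 G al K).filter (fun y => ¬ H y) ⊆
      (Lv G K).filter (fun y => Cen61 G al (sg G y) ∧ ¬ H y) ∪
        (WsK G al K ∪ (kS G K).filter (fun y => nx G y ∈ WsK G al K)) := by
    intro y hy
    obtain ⟨h1, h2⟩ := Finset.mem_filter.1 hy
    have h3 : y ∈ Lv G K := (Finset.mem_filter.1 h1).1
    rcases LL_cen63 G hG hT he h1 with h4 | h4 | h4
    · exact Finset.mem_union_left _ (Finset.mem_filter.2 ⟨h3, h4, h2⟩)
    · exact Finset.mem_union_right _ (Finset.mem_union_left _ h4)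
    · exact Finset.mem_union_right _ (Finset.mem_union_right _
        (Finset.mem_filter.2 ⟨((mem_Lv15 G).1 h3).1, h4⟩))
  have h1 := Finset.card_le_card hsub
  have h2 := Finset.card_union_le ((Lv G K).filter (fun y => Cen61 G al (sg G y) ∧ ¬ H y))
    (WsK G al K ∪ (kS G K).filter (fun y => nx G y ∈ WsK G al K))
  have h3 := Finset.card_union_le (WsK G al K) ((kS G K).filter (fun y => nx G y ∈ WsK G al K))
  have h4 : ((kS G K).filter (fun y => nx G y ∈ WsK G al K)).card ≤ (WsK G al K).card := by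
    refine Finset.card_le_card_of_injOn (nx G) ?_ ?_
    · intro y hy
      exact (Finset.mem_filter.1 (Finset.mem_coe.1 hy)).2
    · intro x hx y hy h
      exact nx_inj42 G hG (mem_kS89 G (Finset.mem_filter.1 (Finset.mem_coe.1 hx)).1)
        (mem_kS89 G (Finset.mem_filter.1 (Finset.mem_coe.1 hy)).1) h
  omega

/-- the payments of the leaves with full price -/
theorem pay2 {K : (cg G).ConnectedComponent} (H : V × V → Prop) {p : V × V → ℝ}
    (hp0 : ∀ x ∈ Lv G K, pm G al (sg G x) ≤ p (sg G x))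
    (hpH : ∀ x ∈ Lv G K, H x → (un G al (sg G x) : ℝ) - 2 ≤ p (sg G x))
    (hpC : ∀ x ∈ Lv G K, Cen61 G al (sg G x) → (un G al (sg G x) : ℝ) - 2 ≤ p (sg G x)) :
    ∑ x ∈ Lv G K, ((un G al (sg G x) : ℝ) - 3) + ((Lv G K).filter H).card +
      ((Lv G K).filter (fun y => Cen61 G al (sg G y) ∧ ¬ H y)).card ≤
      ∑ x ∈ Lv G K, p (sg G x) := by
  rw [Finset.card_filter, Finset.card_filter]
  push_cast
  rw [← Finset.sum_add_distrib, ← Finset.sum_add_distrib]
  refine Finset.sum_le_sum fun x hx => ?_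
  have h0 := hp0 x hx
  have h1 : (un G al (sg G x) : ℝ) - 3 ≤ pm G al (sg G x) := le_max_left _ _
  by_cases h2 : H x
  · have h3 := hpH x hx h2
    rw [if_pos h2, if_neg (fun h => h.2 h2)]
    linarith
  · rw [if_neg h2]
    by_cases h4 : Cen61 G al (sg G x)
    · have h3 := hpC x hx h4
      rw [if_pos ⟨h4, h2⟩]
      linarith
    · rw [if_neg (fun h => h4 h.1)]
      linarith

/-- the units of the good sides and of the low low sectors -/
theorem core2 (hG : G.Geo4 al kp U) (hT : ∀ x ∈ iJ G, gc G al x ≤ 1) (he : ep al ≤ 1 / 2)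
    {K : (cg G).ConnectedComponent} {H : V × V → Prop} (hH : ∀ y ∈ Lv G K, H (nx G y) ↔ H y)
    {A Q : Finset (V × V)} (hA : A ⊆ (Gb63 G al K).filter H) (hQ : Q ⊆ Lb63 G al K)
    {p : V × V → ℝ}
    (hp0 : ∀ x ∈ Lv G K, pm G al (sg G x) ≤ p (sg G x))
    (hpH : ∀ x ∈ Lv G K, H x → (un G al (sg G x) : ℝ) - 2 ≤ p (sg G x))
    (hpC : ∀ x ∈ Lv G K, Cen61 G al (sg G x) → (un G al (sg G x) : ℝ) - 2 ≤ p (sg G x)) :
    (A.card : ℝ) + Q.card + oK14 G K + ∑ x ∈ Lv G K, ((un G al (sg G x) : ℝ) - 3) ≤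
      ∑ x ∈ Lv G K, p (sg G x) + (PK G al K).card + 3 * (WsK G al K).card + (Jl G K).card +
        2 * uK14 G al K := by
  have h1 := HHcu63 G hG K H hH (al := al)
  have h2 := LL_le2 G hG hT he K H
  have h3 := LP_le2 G K
  have h4 := pay2 G (al := al) H hp0 hpH hpC
  have h5 := Finset.card_le_card hA
  have h6 := Finset.card_le_card hQ
  have h7 : ((LP63 G K).filter (fun y => ¬ H y)).card ≤ (LP63 G K).card :=
    Finset.card_filter_le _ _
  have h2' : (((LL63 G al K).filter (fun y => ¬ H y)).card : ℝ) ≤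
      ((Lv G K).filter (fun y => Cen61 G al (sg G y) ∧ ¬ H y)).card +
        2 * (WsK G al K).card := by exact_mod_cast h2
  have h3' : (((LP63 G K).filter (fun y => ¬ H y)).card : ℝ) ≤ (Jl G K).card := by
    exact_mod_cast h7.trans h3
  have h5' : (A.card : ℝ) ≤ ((Gb63 G al K).filter H).card := by exact_mod_cast h5
  have h6' : (Q.card : ℝ) ≤ (Lb63 G al K).card := by exact_mod_cast h6
  linarith

/-- pairs of a leaf and a sector with run at least three -/
def Pr2 (K : (cg G).ConnectedComponent) (P : Finset (V × V)) : Prop :=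
  ∀ y ∈ P, y ∈ kS G K ∧ ((y ∈ Lv G K ∧ nx G y ∉ Lv G K ∧ 3 ≤ rn G (nx G y)) ∨
    (y ∉ Lv G K ∧ 3 ≤ rn G y ∧ nx G y ∈ Lv G K))

theorem pairs_card2 {K : (cg G).ConnectedComponent} {P : Finset (V × V)} (hP : Pr2 G K P) :
    (Jl G K ∪ P).card = (Jl G K).card + P.card := by
  apply Finset.card_union_of_disjoint
  rw [Finset.disjoint_left]
  intro y h1 h2
  obtain ⟨h3, h4⟩ := Finset.mem_filter.1 h1
  rcases (hP y h2).2 with ⟨_, h5, _⟩ | ⟨h5, _⟩
  · exact h5 h4
  · exact h5 h3

theorem pairs_pr2 (hG : G.Geo4 al kp U) {K : (cg G).ConnectedComponent} {P S : Finset (V × V)}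
    (hP : Pr2 G K P) (hS : Lv G K ⊆ S) : Jl G K ∪ P ⊆ pr2 G K S := by
  intro y hy
  rw [mem_pr2, mem_st2, mem_st2]
  rcases Finset.mem_union.1 hy with h | h
  · obtain ⟨h1, h2⟩ := Finset.mem_filter.1 h
    exact ⟨⟨((mem_Lv15 G).1 h1).1, Or.inl (hS h1)⟩, ((mem_Lv15 G).1 h2).1, Or.inl (hS h2)⟩
  · obtain ⟨h1, h2⟩ := hP y h
    have h3 := nx_kS89 G hG h1
    rcases h2 with ⟨h4, _, h5⟩ | ⟨_, h5, h4⟩
    · exact ⟨⟨h1, Or.inl (hS h4)⟩, h3, Or.inr h5⟩
    · exact ⟨⟨h1, Or.inr h5⟩, h3, Or.inl (hS h4)⟩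

theorem pairs_pf2 (hG : G.Geo4 al kp U) {K : (cg G).ConnectedComponent} {P S : Finset (V × V)}
    (hP : Pr2 G K P) (hS : Lv G K ⊆ S) : Jl G K ∪ P ⊆ pf85 G K S := by
  intro y hy
  unfold pf85
  rw [Finset.mem_filter]
  have hout : ∀ z ∈ Lv G K, z ∉ G.oJ ∧ nx G z ∉ G.oJ := fun z hz =>
    inner_sides85 G hG (mem_kS89 G ((mem_Lv15 G).1 hz).1) ((mem_Lv15 G).1 hz).2.1
  rcases Finset.mem_union.1 hy with h | h
  · obtain ⟨h1, h2⟩ := Finset.mem_filter.1 h
    exact ⟨((mem_Lv15 G).1 h1).1, Or.inl (hS h1), Or.inl (hS h2), (hout y h1).2⟩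
  · obtain ⟨h1, h2⟩ := hP y h
    rcases h2 with ⟨h4, _, h5⟩ | ⟨_, h5, h4⟩
    · exact ⟨h1, Or.inl (hS h4), Or.inr h5, (hout y h4).2⟩
    · exact ⟨h1, Or.inr h5, Or.inl (hS h4), (hout _ h4).1⟩

/-- the sum over leaves and payers -/
theorem sum_S2 (hG : G.Geo4 al kp U) (hT : ∀ x ∈ iJ G, gc G al x ≤ 1)
    (K : (cg G).ConnectedComponent) (c : ℝ) :
    ∑ x ∈ Lv G K ∪ PK G al K, (c - (rn G x : ℝ)) =
      ∑ x ∈ Lv G K, ((un G al (sg G x) : ℝ) - 3) + (c - 4) * (Lv G K).card +
        ∑ x ∈ PK G al K, (c - (rn G x : ℝ)) := by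
  rw [Finset.sum_union (Lv_PK_disj2 G hG hT K)]
  congr 1
  have : ((c - 4) * (Lv G K).card : ℝ) = ∑ x ∈ Lv G K, (c - 4) := by
    rw [Finset.sum_const, nsmul_eq_mul, mul_comm]
  rw [this, ← Finset.sum_add_distrib]
  refine Finset.sum_congr rfl fun x hx => ?_
  have h1 := leaf_sum15 G hG hT hx
  have h2 : (rn G x : ℝ) + un G al (sg G x) = 7 := by exact_mod_cast h1
  linarith

theorem card_S2 (hG : G.Geo4 al kp U) (hT : ∀ x ∈ iJ G, gc G al x ≤ 1)
    (K : (cg G).ConnectedComponent) :
    (Lv G K ∪ PK G al K).card = (Lv G K).card + (PK G al K).card :=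
  Finset.card_union_of_disjoint (Lv_PK_disj2 G hG hT K)

theorem sub_S2 (K : (cg G).ConnectedComponent) : Lv G K ∪ PK G al K ⊆ kS G K := by
  intro x hx
  rcases Finset.mem_union.1 hx with h | h
  · exact ((mem_Lv15 G).1 h).1
  · exact ((mem_PK63 G).1 h).1

theorem in_S2 (K : (cg G).ConnectedComponent) : ∀ x ∈ Lv G K ∪ PK G al K, x.2 ∈ inN G := by
  intro x hx
  rcases Finset.mem_union.1 hx with h | h
  · exact ((mem_Lv15 G).1 h).2.1
  · exact ((mem_PK63 G).1 h).2.1

/-- without outer sides there are no full visits -/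
theorem no_outer2 {K : (cg G).ConnectedComponent} (ho : ∀ x ∈ kS G K, x ∉ G.oJ) :
    F14 G K = 0 ∧ Z14 G K = 0 ∧ fe14 G K = 0 := by
  have h4 : fv14 G K = ∅ := by
    unfold fv14
    rw [Finset.filter_eq_empty_iff]
    intro x hx h
    exact ho x hx h.1
  unfold F14 Z14 fe14
  rw [h4]
  exact ⟨rfl, rfl, rfl⟩

/-- the high side lemma for good sides with `H`, simple form -/
theorem good_le2 (hG : G.Geo4 al kp U) {K : (cg G).ConnectedComponent}
    {A Q : Finset (V × V)} (hA : A ⊆ Gb63 G al K) (hQ : Q ⊆ Lb63 G al K) :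
    (A.card : ℝ) + Q.card + oK14 G K ≤ (Lv G K).card + (PK G al K).card +
      (WsK G al K).card + 2 * uK14 G al K := by
  have h1 := HHu63 G hG K (al := al)
  have h5 := Finset.card_le_card hA
  have h6 := Finset.card_le_card hQ
  have h5' : (A.card : ℝ) ≤ (Gb63 G al K).card := by exact_mod_cast h5
  have h6' : (Q.card : ℝ) ≤ (Lb63 G al K).card := by exact_mod_cast h6
  linarith

/-- a good side and a weak side which is not weaker: the inner sectors cannot all be negative unless
the uses of the outer points are large -/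
theorem weak_use2 (hG : G.Geo4 al kp U) {K : (cg G).ConnectedComponent} {z a : V × V}
    (hL : Lv G K = ∅) (hPe : PK G al K = ∅) (hz : WsK G al K = {z})
    (ha : a ∈ Gb63 G al K) (h : 0 ≤ sp G al a + sp G al z) :
    (oK14 G K : ℝ) ≤ uK14 G al K ∧ ¬ ∀ x ∈ kS G K, x.2 ∈ inN G := by
  obtain ⟨a1, a2, a3, a4⟩ := (mem_Gb63 G).1 ha
  have hz1 : z ∈ WsK G al K := by rw [hz]; exact Finset.mem_singleton_self z
  obtain ⟨z1, z2, z3⟩ := (mem_WsK63 G).1 hz1
  have hne : a ≠ z := by
    intro h1
    rw [h1] at a3 a4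
    unfold sp at z3
    linarith
  have hU1 := U1_14 G hG (al := al) K
  have hsum : 0 ≤ ∑ x ∈ (kS G K).filter (fun x => x ∈ BC G), sp G al x := by
    have haF : a ∈ (kS G K).filter (fun x => x ∈ BC G) := Finset.mem_filter.2 ⟨a1, a2⟩
    have hzF : z ∈ ((kS G K).filter (fun x => x ∈ BC G)).erase a :=
      Finset.mem_erase.2 ⟨hne.symm, Finset.mem_filter.2 ⟨z1, z2⟩⟩
    rw [← Finset.add_sum_erase _ _ haF, ← Finset.add_sum_erase _ _ hzF]
    have : 0 ≤ ∑ x ∈ (((kS G K).filter (fun x => x ∈ BC G)).erase a).erase z, sp G al x := by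
      refine Finset.sum_nonneg fun x hx => ?_
      by_contra hc
      push Not at hc
      have h1 := Finset.ne_of_mem_erase hx
      obtain ⟨h2, h3⟩ := Finset.mem_filter.1 (Finset.mem_of_mem_erase (Finset.mem_of_mem_erase hx))
      have h4 : x ∈ WsK G al K := (mem_WsK63 G).2 ⟨h2, h3, hc⟩
      rw [hz, Finset.mem_singleton] at h4
      exact h1 h4
    linarith
  have hneg : ∀ x ∈ (kS G K).filter (fun x => x.2 ∈ inN G), Ds G al x < 0 := by
    intro x hx
    obtain ⟨h1, h2⟩ := Finset.mem_filter.1 hx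
    exact Ds_neg63 G hG h1 h2 (by rw [hL]; exact Finset.notMem_empty x)
      (by rw [hPe]; exact Finset.notMem_empty x)
  have hle : ∑ x ∈ (kS G K).filter (fun x => x.2 ∈ inN G), Ds G al x ≤ 0 :=
    Finset.sum_nonpos fun x hx => (hneg x hx).le
  refine ⟨by linarith, fun hin => ?_⟩
  have h1 : uK14 G al K = 0 := by
    unfold uK14
    rw [Finset.sum_eq_zero]
    intro x hx
    obtain ⟨h2, h3⟩ := Finset.mem_filter.1 hx
    exact absurd (hin x h2) h3
  have h2 : ∑ x ∈ (kS G K).filter (fun x => x.2 ∈ inN G), Ds G al x < 0 :=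
    Finset.sum_neg hneg ⟨a, Finset.mem_filter.2 ⟨a1, hin a a1⟩⟩
  have h3 : (0 : ℝ) ≤ oK14 G K := Nat.cast_nonneg _
  linarith

/-- **the row of a black face without leaves and payers** -/
theorem kempty2 (hG : G.Geo4 al kp U)
    {K : (cg G).ConnectedComponent} {A : Finset (V × V)}
    (hA : A ⊆ Gb63 G al K) (hL : Lv G K = ∅) (hPe : PK G al K = ∅) {w : V × V → ℝ}
    (hw3 : ∀ z ∈ WsK G al K, 3 ≤ w z)
    (hwb : tK G K = 0 → (WsK G al K).card = 1 → ∀ z ∈ WsK G al K, 4 ≤ w z)
    (hwc : ∀ z ∈ WsK G al K, 4 ≤ w z ∨ ∀ a ∈ A, 0 ≤ sp G al a + sp G al z)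
    (hE : A = ∅ ∨ ¬ ((∀ x ∈ kS G K, x.2 ∈ inN G) ∧ (WsK G al K).card = 1 ∧ tK G K = 0)) :
    wx G 1 K + F14 G K + Z14 G K + A.card ≤
      ∑ z ∈ WsK G al K, w z + 5 * uK14 G al K + 3 * fe14 G K := by
  have hU := uK_nonneg14 G hG (al := al) K
  have hfe : (0 : ℝ) ≤ fe14 G K := Nat.cast_nonneg _
  have hoK : (0 : ℝ) ≤ oK14 G K := Nat.cast_nonneg _
  have hW : 3 * ((WsK G al K).card : ℝ) ≤ ∑ z ∈ WsK G al K, w z := by
    rw [mul_comm, ← nsmul_eq_mul, ← Finset.sum_const]
    exact Finset.sum_le_sum hw3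
  have hgood := good_le2 G hG (A := A) (Q := ∅) (K := K) (al := al) hA (Finset.empty_subset _)
  rw [hL, hPe, Finset.card_empty] at hgood
  push_cast at hgood
  -- all sides outer
  by_cases hao : ∀ x ∈ kS G K, x ∈ G.oJ
  · have hA0 : A = ∅ := by
      rw [Finset.eq_empty_iff_forall_notMem]
      intro a ha
      obtain ⟨a1, a2, _⟩ := (mem_Gb63 G).1 (hA ha)
      exact BC_not_oJ85 G a2 (hao a a1)
    have h1 := lemO54 G hG hao
    have h2 : ((fv14 G K).filter (fun x => rn G x ≤ 1)).card = fe14 G K := rfl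
    rw [h2] at h1
    have h3 : (0 : ℝ) ≤ (WsK G al K).card := Nat.cast_nonneg _
    rw [hA0, Finset.card_empty]
    push_cast
    linarith
  push Not at hao
  obtain ⟨y, hy, hyo⟩ := hao
  have hyB : y ∈ BC G := (BC_or14 G (mem_kS89 G hy)).resolve_right hyo
  have h4 := lemTS54 G hG hy hyo
  -- no weak side
  rcases Nat.eq_zero_or_pos (WsK G al K).card with hw0 | hw0
  · have hWe : WsK G al K = ∅ := Finset.card_eq_zero.1 hw0
    rcases U3_14 G hG (al := al) K ⟨y, hy, hyB⟩ with ⟨x, h1, h2, h3⟩ | ⟨x, h1, h2, h3⟩ | ⟨h1, h2⟩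
    · have := Ds_neg63 G hG h1 h2 (by rw [hL]; exact Finset.notMem_empty x)
        (by rw [hPe]; exact Finset.notMem_empty x) (al := al)
      linarith
    · have : x ∈ WsK G al K := (mem_WsK63 G).2 ⟨h1, h2, h3⟩
      rw [hWe] at this
      exact absurd this (Finset.notMem_empty x)
    · have h1' : (1 : ℝ) ≤ oK14 G K := by exact_mod_cast h1
      rw [hw0] at hgood hW
      push_cast at hgood hW
      linarith
  have hw1 : (1 : ℝ) ≤ (WsK G al K).card := by exact_mod_cast hw0
  -- a ring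
  by_cases hring : wx G 1 K + F14 G K + Z14 G K ≤ 0
  · linarith
  -- the outer heads
  have hout : (∀ x ∈ kS G K, x.2 ∈ inN G) ∨ 1 ≤ oK14 G K := by
    by_cases hin : ∀ x ∈ kS G K, x.2 ∈ inN G
    · exact Or.inl hin
    right
    by_cases ho : ∃ x ∈ kS G K, x ∈ G.oJ
    · have htr : ∃ x ∈ kS G K, x ∉ G.oJ ∧ nx G x ∈ G.oJ := by
        by_contra hno
        push Not at hno
        have hcl : ∀ x ∈ (kS G K).filter (fun x => x ∉ G.oJ),
            nx G x ∈ (kS G K).filter (fun x => x ∉ G.oJ) := by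
          intro x hx
          obtain ⟨h4, h5⟩ := Finset.mem_filter.1 hx
          exact Finset.mem_filter.2 ⟨nx_kS89 G hG h4, fun h6 => hno x h4 h5 h6⟩
        have hpr : (kS G K).filter (fun x => x ∉ G.oJ) ≠ kS G K := by
          intro h
          obtain ⟨x, hx, hxo⟩ := ho
          rw [← h] at hx
          exact (Finset.mem_filter.1 hx).2 hxo
        have h5 := ring90 G hG _ (Finset.filter_subset _ _)
          ⟨y, Finset.mem_filter.2 ⟨hy, hyo⟩⟩ hcl hpr
        have h6 : F14 G K + Z14 G K ≤ (kS G K).card := by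
          have h7 : (fv14 G K).card ≤ (kS G K).card :=
            Finset.card_le_card (Finset.filter_subset _ _)
          have h9 := fv_card14 G K
          omega
        have h5' : ((kS G K).card : ℝ) ≤ tK G K := by exact_mod_cast h5
        have h6' : (F14 G K : ℝ) + Z14 G K ≤ (kS G K).card := by exact_mod_cast h6
        refine hring ?_
        rw [wx_one89]
        linarith
      obtain ⟨x, h5, h6, h7⟩ := htr
      have h8 := a_le_o85 G K
      have h9 : 0 < a85 G K := Finset.card_pos.2 ⟨x, Finset.mem_filter.2 ⟨h5, h6, h7⟩⟩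
      omega
    · push Not at ho hin
      obtain ⟨x, h5, h6⟩ := hin
      refine Finset.card_pos.2 ⟨x, Finset.mem_filter.2 ⟨h5, ?_, h6⟩⟩
      exact (BC_or14 G (mem_kS89 G h5)).resolve_right (ho x h5)
  rcases Nat.lt_or_ge 1 (WsK G al K).card with hw2 | hw2
  · -- at least two weak sides
    have hw2' : (2 : ℝ) ≤ (WsK G al K).card := by exact_mod_cast hw2
    linarith
  have hwe : (WsK G al K).card = 1 := by omega
  obtain ⟨z, hz⟩ := Finset.card_eq_one.1 hwe
  have hzm : z ∈ WsK G al K := by rw [hz]; exact Finset.mem_singleton_self z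
  rw [hwe] at hgood
  push_cast at hgood
  have hsw : ∑ z ∈ WsK G al K, w z = w z := by rw [hz, Finset.sum_singleton]
  rw [hsw]
  have hfz : 1 ≤ tK G K → wx G 1 K + F14 G K + Z14 G K ≤ 3 + fe14 G K := by
    intro ht
    rcases Nat.lt_or_ge 1 (tK G K) with ht2 | ht2
    · have h5 := lemTS54' G hG (K := K) ht2
      have h6 : ((fv14 G K).filter (fun x => rn G x ≤ 1)).card = fe14 G K := rfl
      rw [h6] at h5
      linarith
    · have ht1 : tK G K = 1 := by omega
      have h5 : F14 G K = 0 := by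
        rw [F14_eq54, M54_small G hG (by omega), Finset.card_empty]
      have h6 := Z14_zero54 G hG hy hyo
      have h7 := wx_le89 G K
      rw [h5, h6]
      rw [ht1] at h7
      push_cast at h7 ⊢
      linarith
  rcases hwc z hzm with h5 | h5
  · -- full weight
    rcases hout with hin | ho
    · rcases Nat.eq_zero_or_pos (tK G K) with ht | ht
      · have hA0 : A = ∅ := by
          rcases hE with hE | hE
          · exact hE
          · exact absurd ⟨hin, hwe, ht⟩ hE
        rw [hA0, Finset.card_empty]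
        push_cast
        linarith
      · have h6 := hfz ht
        have h7 : uK14 G al K = 0 := by
          unfold uK14
          rw [Finset.sum_eq_zero]
          intro x hx
          obtain ⟨h2, h3⟩ := Finset.mem_filter.1 hx
          exact absurd (hin x h2) h3
        rw [h7] at hgood ⊢
        linarith
    · have ho' : (1 : ℝ) ≤ oK14 G K := by exact_mod_cast ho
      linarith
  · -- weight three
    by_cases h6 : 4 ≤ w z
    · rcases hout with hin | ho
      · rcases Nat.eq_zero_or_pos (tK G K) with ht | ht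
        · have hA0 : A = ∅ := by
            rcases hE with hE | hE
            · exact hE
            · exact absurd ⟨hin, hwe, ht⟩ hE
          rw [hA0, Finset.card_empty]
          push_cast
          linarith
        · have h6 := hfz ht
          have h7 : uK14 G al K = 0 := by
            unfold uK14
            rw [Finset.sum_eq_zero]
            intro x hx
            obtain ⟨h2, h3⟩ := Finset.mem_filter.1 hx
            exact absurd (hin x h2) h3
          rw [h7] at hgood ⊢
          linarith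
      · have ho' : (1 : ℝ) ≤ oK14 G K := by exact_mod_cast ho
        linarith
    have ht : 1 ≤ tK G K := by
      by_contra h7
      exact h6 (hwb (by omega) hwe z hzm)
    have h8 := hw3 z hzm
    have h9 := hfz ht
    rcases A.eq_empty_or_nonempty with hA0 | ⟨a, ha⟩
    · rw [hA0, Finset.card_empty]
      push_cast
      linarith
    · obtain ⟨k1, k2⟩ := weak_use2 G hG hL hPe hz (hA ha) (h5 a ha)
      rcases hout with hin | ho
      · exact absurd hin k2
      · have ho' : (1 : ℝ) ≤ oK14 G K := by exact_mod_cast ho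
        linarith

/-- **the row of a black face with units** -/
theorem kh2 (hG : G.Geo4 al kp U) (hT : ∀ x ∈ iJ G, gc G al x ≤ 1) (he : ep al ≤ 1 / 2)
    {K : (cg G).ConnectedComponent} {H : V × V → Prop}
    (hH : ∀ y ∈ Lv G K, H (nx G y) ↔ H y)
    {A P Q : Finset (V × V)} (hA : A ⊆ (Gb63 G al K).filter H) (hP : Pr2 G K P)
    (hQ : Q ⊆ Lb63 G al K) (hQL : Lv G K = ∅ → Q = ∅) {p w : V × V → ℝ}
    (hp0 : ∀ x ∈ Lv G K, pm G al (sg G x) ≤ p (sg G x))
    (hpH : ∀ x ∈ Lv G K, H x → (un G al (sg G x) : ℝ) - 2 ≤ p (sg G x))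
    (hpC : ∀ x ∈ Lv G K, Cen61 G al (sg G x) → (un G al (sg G x) : ℝ) - 2 ≤ p (sg G x))
    (hw3 : ∀ z ∈ WsK G al K, 3 ≤ w z)
    (hwb : tK G K = 0 → K ∉ Sf G al → (WsK G al K).card = 1 → ∀ z ∈ WsK G al K, 4 ≤ w z)
    (hwc : Lv G K = ∅ → PK G al K = ∅ → ∀ z ∈ WsK G al K, 4 ≤ w z ∨
      ∀ a ∈ A, 0 ≤ sp G al a + sp G al z)
    (hE : (A = ∅ ∧ P = ∅ ∧ Q = ∅) ∨ ¬ Xc2 G al K) :
    wx G 1 K + (Lv G K).card + F14 G K + Z14 G K + (A.card + P.card + Q.card) ≤
      ∑ s ∈ PK G al K, max (4 - (rn G s : ℝ)) 0 + ∑ z ∈ WsK G al K, w z +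
        ∑ x ∈ Lv G K, p (sg G x) + 5 * uK14 G al K + 3 * fe14 G K := by
  have hcore := core2 G hG hT he hH hA hQ hp0 hpH hpC
  have hU := uK_nonneg14 G hG (al := al) K
  have hfe : (0 : ℝ) ≤ fe14 G K := Nat.cast_nonneg _
  have hoK : (0 : ℝ) ≤ oK14 G K := Nat.cast_nonneg _
  have hW : 3 * ((WsK G al K).card : ℝ) ≤ ∑ z ∈ WsK G al K, w z := by
    rw [mul_comm, ← nsmul_eq_mul, ← Finset.sum_const]
    exact Finset.sum_le_sum hw3
  have hPK : ∑ s ∈ PK G al K, (4 - (rn G s : ℝ)) ≤ ∑ s ∈ PK G al K, max (4 - (rn G s : ℝ)) 0 :=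
    Finset.sum_le_sum fun s _ => le_max_left _ _
  have hPK0 : 0 ≤ ∑ s ∈ PK G al K, max (4 - (rn G s : ℝ)) 0 :=
    Finset.sum_nonneg fun s _ => le_max_right _ _
  have hJP := pairs_card2 G hP
  have hJP' : ((Jl G K ∪ P).card : ℝ) = (Jl G K).card + P.card := by exact_mod_cast hJP
  have hSc := card_S2 G hG hT K (al := al)
  have hSc' : (((Lv G K ∪ PK G al K).card : ℕ) : ℝ) = (Lv G K).card + (PK G al K).card := by
    exact_mod_cast hSc
  have hLS : Lv G K ⊆ Lv G K ∪ PK G al K := Finset.subset_union_left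
  -- the form of the fan lemma
  have formF : wx G 1 K + (Lv G K ∪ PK G al K).card + (Jl G K ∪ P).card ≤
      ∑ x ∈ Lv G K ∪ PK G al K, (4 - (rn G x : ℝ)) → F14 G K = 0 → Z14 G K = 0 →
      wx G 1 K + (Lv G K).card + F14 G K + Z14 G K + (A.card + P.card + Q.card) ≤
      ∑ s ∈ PK G al K, max (4 - (rn G s : ℝ)) 0 + ∑ z ∈ WsK G al K, w z +
        ∑ x ∈ Lv G K, p (sg G x) + 5 * uK14 G al K + 3 * fe14 G K := by
    intro h1 h2 h3
    rw [sum_S2 G hG hT K, hSc', hJP'] at h1
    rw [h2, h3]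
    push_cast
    linarith
  -- no leaf and no payer
  have hempty : ¬ (Lv G K ∪ PK G al K).Nonempty →
      wx G 1 K + (Lv G K).card + F14 G K + Z14 G K + (A.card + P.card + Q.card) ≤
      ∑ s ∈ PK G al K, max (4 - (rn G s : ℝ)) 0 + ∑ z ∈ WsK G al K, w z +
        ∑ x ∈ Lv G K, p (sg G x) + 5 * uK14 G al K + 3 * fe14 G K := by
    intro hSe
    rw [Finset.not_nonempty_iff_eq_empty, Finset.union_eq_empty] at hSe
    obtain ⟨hL0, hP0⟩ := hSe
    have hPe : P = ∅ := by
      rw [Finset.eq_empty_iff_forall_notMem]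
      intro y hy
      rcases (hP y hy).2 with ⟨h1, _⟩ | ⟨_, _, h1⟩
      · rw [hL0] at h1
        exact absurd h1 (Finset.notMem_empty _)
      · rw [hL0] at h1
        exact absurd h1 (Finset.notMem_empty _)
    have hSf : K ∉ Sf G al := by
      intro h1
      obtain ⟨s, hs⟩ := PK_ne54 G h1
      rw [hP0] at hs
      exact absurd hs (Finset.notMem_empty s)
    have h1 := kempty2 G hG (K := K) (A := A) (hA.trans (Finset.filter_subset _ _)) hL0 hP0 hw3
      (fun a b => hwb a hSf b) (hwc hL0 hP0) ?_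
    · rw [hL0, hP0, hPe, hQL hL0, Finset.card_empty, Finset.sum_empty, Finset.sum_empty]
      push_cast
      linarith
    · rcases hE with hE | hE
      · exact Or.inl hE.1
      · exact Or.inr fun h2 => hE ⟨h2.1, Or.inr (Or.inr ⟨hL0, hP0, h2.2.1, h2.2.2⟩)⟩
  by_cases ho : ∃ x ∈ kS G K, x ∈ G.oJ
  · by_cases hSn : (Lv G K ∪ PK G al K).Nonempty
    · -- outer side and a sector of `S`
      have ht : 1 ≤ tK G K := by
        by_contra h0
        obtain ⟨z, hz⟩ := hSn
        have hzk := sub_S2 G K (al := al) hz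
        obtain ⟨z1, z2⟩ := (mem_kS42 G).1 hzk
        have h1 : rn G z = 0 := (tK_zero54 G hG z1).1 (by rw [z2]; omega)
        obtain ⟨_, d2, _, _, d5, _⟩ := digon54 G hG z1 h1
        obtain ⟨b1, b2⟩ := inner_sides85 G hG z1 (in_S2 G K (al := al) z hz)
        obtain ⟨x, hx, hxo⟩ := ho
        rw [z2] at d2
        rw [d2, Finset.mem_insert, Finset.mem_singleton] at hx
        rcases hx with hx | hx
        · rw [hx] at hxo
          exact b1 hxo
        · rw [hx, ← d5] at hxo
          exact b2 hxo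
      have h1 := fanB85 G hG (sub_S2 G K (al := al)) (in_S2 G K (al := al)) (Or.inr ⟨hSn, ho⟩) ht
      have h2 := Finset.card_le_card (pairs_pf2 G hG hP hLS)
      have h2' : ((Jl G K ∪ P).card : ℝ) ≤ (pf85 G K (Lv G K ∪ PK G al K)).card := by
        exact_mod_cast h2
      have h3 := a_le_o85 G K
      have h3' : (a85 G K : ℝ) ≤ oK14 G K := by exact_mod_cast h3
      have h4 : j85 G K ≤ fe14 G K := by
        unfold j85 fe14
        refine Finset.card_le_card fun x hx => ?_
        obtain ⟨h5, h6⟩ := Finset.mem_filter.1 hx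
        exact Finset.mem_filter.2 ⟨h5, by omega⟩
      have h4' : (j85 G K : ℝ) ≤ fe14 G K := by exact_mod_cast h4
      rw [sum_S2 G hG hT K] at h1
      have e1 : ∑ x ∈ PK G al K, ((3 : ℝ) - rn G x) =
          ∑ x ∈ PK G al K, ((4 : ℝ) - rn G x) - (PK G al K).card := by
        rw [Finset.sum_sub_distrib, Finset.sum_sub_distrib, Finset.sum_const, Finset.sum_const,
          nsmul_eq_mul, nsmul_eq_mul]
        ring
      rw [e1] at h1
      linarith
    · exact hempty hSn
  · push Not at ho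
    obtain ⟨n1, n2, n3⟩ := no_outer2 G ho
    have hin_or : (∀ x ∈ kS G K, x.2 ∈ inN G) ∨ (1 : ℝ) ≤ oK14 G K := by
      by_cases hin : ∀ x ∈ kS G K, x.2 ∈ inN G
      · exact Or.inl hin
      right
      push Not at hin
      obtain ⟨x, h5, h6⟩ := hin
      have h7 : 0 < oK14 G K := Finset.card_pos.2 ⟨x, Finset.mem_filter.2 ⟨h5,
        (BC_or14 G (mem_kS89 G h5)).resolve_right (ho x h5), h6⟩⟩
      exact_mod_cast h7
    have hpr := Finset.card_le_card (pairs_pr2 G hG hP hLS)
    have hpr' : ((Jl G K ∪ P).card : ℝ) ≤ (pr2 G K (Lv G K ∪ PK G al K)).card := by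
      exact_mod_cast hpr
    rcases Nat.lt_or_ge 1 (Lv G K ∪ PK G al K).card with hc2 | hc2
    · -- at least two sectors in `S`
      have h1 := fan_wx2 G hG K (sub_S2 G K (al := al)) hc2
      exact formF (by linarith) n1 n2
    rcases Nat.eq_zero_or_pos (Lv G K ∪ PK G al K).card with hc0 | hc1
    · exact hempty (by rw [Finset.not_nonempty_iff_eq_empty]; exact Finset.card_eq_zero.1 hc0)
    obtain ⟨x, hx⟩ := Finset.card_eq_one.1 (by omega : (Lv G K ∪ PK G al K).card = 1)
    have hxS : x ∈ Lv G K ∪ PK G al K := by rw [hx]; exact Finset.mem_singleton_self x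
    have hxk := sub_S2 G K (al := al) hxS
    obtain ⟨hx1, hx2⟩ := (mem_kS42 G).1 hxk
    have hwx4 := wx_le89 G K
    -- the fan lemma or the pure fan
    by_cases hpure : rn G x = tK G K
    swap
    · rcases Nat.eq_zero_or_pos (tK G K) with ht | ht
      · exfalso
        have h1 := rn_le_tK63 G hG hx1
        rw [hx2] at h1
        omega
      rcases fan_one2 G hG K hxk ht with h1 | ⟨h1, _, _⟩
      · rw [← hx] at h1
        have h2 : (2 * ((kS G K).card : ℝ) + 1 + (pr2 G K (Lv G K ∪ PK G al K)).card) ≤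
            3 * (tK G K : ℝ) + (4 - (rn G x : ℝ)) := by exact_mod_cast h1
        refine formF ?_ n1 n2
        have h3 : ∑ x ∈ Lv G K ∪ PK G al K, (4 - (rn G x : ℝ)) = 4 - (rn G x : ℝ) := by
          rw [hx, Finset.sum_singleton]
        rw [h3]
        have h4 : (Lv G K ∪ PK G al K).card = 1 := by rw [hx, Finset.card_singleton]
        rw [h4, wx_one89]
        push_cast
        linarith
      · exact absurd h1 hpure
    -- the pure fan
    have hP0 : P = ∅ := by
      rw [Finset.eq_empty_iff_forall_notMem]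
      intro y hy
      obtain ⟨h1, h2⟩ := hP y hy
      have key : ∀ u ∈ kS G K, u ≠ x → rn G u ≤ 2 := by
        intro u hu hux
        rcases Nat.eq_zero_or_pos (rn G x) with h3 | h3
        · obtain ⟨u1, u2⟩ := (mem_kS42 G).1 hu
          have h4 := rn_le_tK63 G hG u1
          rw [u2] at h4
          omega
        · exact (pure_le85 G hG hxk hpure.symm h3 hu hux).2
      have hxl : ∀ v ∈ Lv G K, v = x := by
        intro v hv
        have h3 := hLS hv
        rw [hx, Finset.mem_singleton] at h3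
        exact h3
      rcases h2 with ⟨h3, h4, h5⟩ | ⟨h3, h4, h5⟩
      · have h6 : nx G y ≠ x := fun h7 => h4 (by rw [h7, ← hxl y h3]; exact h3)
        have := key _ (nx_kS89 G hG h1) h6
        omega
      · have h6 : y ≠ x := fun h7 => h3 (by rw [h7, ← hxl _ h5]; exact h5)
        have := key _ h1 h6
        omega
    have hgood := good_le2 G hG (hA.trans (Finset.filter_subset _ _)) hQ
    have hcl := card_S2 G hG hT K (al := al)
    rw [hx, Finset.card_singleton] at hcl
    have hpure' : (rn G x : ℝ) = tK G K := by rw [hpure]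
    rw [hP0, n1, n2, n3, Finset.card_empty]
    rcases Finset.mem_union.1 hxS with hxl | hxp
    · -- a leaf
      have hl1 : 0 < (Lv G K).card := Finset.card_pos.2 ⟨x, hxl⟩
      have hp00 : (PK G al K).card = 0 := by omega
      have hPe : PK G al K = ∅ := Finset.card_eq_zero.1 hp00
      have hLe : Lv G K = {x} := by
        rw [hPe, Finset.union_empty] at hx
        exact hx
      have hSf : K ∉ Sf G al := by
        intro h1
        obtain ⟨s, hs⟩ := PK_ne54 G h1
        rw [hPe] at hs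
        exact absurd hs (Finset.notMem_empty s)
      have hJ0 : (Jl G K).card = 0 := by
        rw [Finset.card_eq_zero, Finset.eq_empty_iff_forall_notMem]
        intro y hy
        obtain ⟨h1, h2⟩ := Finset.mem_filter.1 hy
        rw [hLe, Finset.mem_singleton] at h1 h2
        rw [h1] at h2
        exact head_ne63 G hG hx1 (by rw [h2])
      have hr := leaf_sum15 G hG hT hxl (al := al)
      have hr' : (rn G x : ℝ) + un G al (sg G x) = 7 := by exact_mod_cast hr
      have hsp : ∑ x ∈ Lv G K, p (sg G x) = p (sg G x) := by rw [hLe, Finset.sum_singleton]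
      have hsu : ∑ x ∈ Lv G K, ((un G al (sg G x) : ℝ) - 3) = (un G al (sg G x) : ℝ) - 3 := by
        rw [hLe, Finset.sum_singleton]
      have hlc : (Lv G K).card = 1 := by rw [hLe, Finset.card_singleton]
      rw [hJ0, hp00, hsp, hsu] at hcore
      rw [hPe, Finset.sum_empty, hsp, hlc]
      push_cast at hcore ⊢
      rcases hin_or with hin | ho1
      · rcases Nat.eq_zero_or_pos (WsK G al K).card with hw0 | hw0
        · have hWe : WsK G al K = ∅ := Finset.card_eq_zero.1 hw0
          have hu0 : uK14 G al K = 0 := by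
            unfold uK14
            rw [Finset.sum_eq_zero]
            intro y hy
            obtain ⟨h2, h3⟩ := Finset.mem_filter.1 hy
            exact absurd (hin y h2) h3
          have hcen := (single_cen2 G hG hT hLe hSf hWe (by rw [hu0]; norm_num)).2.2.2.2.2
          have h3 := hpC x hxl hcen
          rcases hE with hE | hE
          · rw [hE.1, hE.2.2, hWe, Finset.card_empty, Finset.sum_empty, hu0]
            push_cast
            linarith
          · exact absurd ⟨hin, Or.inl ⟨x, hLe, hPe, hWe, hpure.symm⟩⟩ hE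
        · have hw1 : (1 : ℝ) ≤ (WsK G al K).card := by exact_mod_cast hw0
          have h1 := HHcu63 G hG K H hH (al := al)
          have h2 := pay2 G (al := al) H hp0 hpH hpC
          have h3 := LP_le2 G K
          have h4 : ((LP63 G K).filter (fun y => ¬ H y)).card ≤ (LP63 G K).card :=
            Finset.card_filter_le _ _
          have h5 : ((Lv G K).filter H).card + ((LL63 G al K).filter (fun y => ¬ H y)).card ≤ 1 := by
            have h6 := Finset.card_filter_add_card_filter_not (s := Lv G K) H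
            have h7 : ((LL63 G al K).filter (fun y => ¬ H y)).card ≤
                ((Lv G K).filter (fun y => ¬ H y)).card := by
              refine Finset.card_le_card fun y hy => ?_
              obtain ⟨h8, h9⟩ := Finset.mem_filter.1 hy
              exact Finset.mem_filter.2 ⟨(Finset.mem_filter.1 h8).1, h9⟩
            omega
          have h5' : (((Lv G K).filter H).card : ℝ) +
              ((LL63 G al K).filter (fun y => ¬ H y)).card ≤ 1 := by exact_mod_cast h5
          have h4' : (((LP63 G K).filter (fun y => ¬ H y)).card : ℝ) ≤ 0 := by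
            exact_mod_cast (h4.trans h3).trans hJ0.le
          have h6 := Finset.card_le_card hA
          have h6' : (A.card : ℝ) ≤ ((Gb63 G al K).filter H).card := by exact_mod_cast h6
          have h7 := Finset.card_le_card hQ
          have h7' : (Q.card : ℝ) ≤ (Lb63 G al K).card := by exact_mod_cast h7
          have h8 : (0 : ℝ) ≤ ((Lv G K).filter (fun y => Cen61 G al (sg G y) ∧ ¬ H y)).card :=
            Nat.cast_nonneg _
          have h9 : (0 : ℝ) ≤ ((LL63 G al K).filter (fun y => ¬ H y)).card := Nat.cast_nonneg _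
          rw [hp00] at h1
          rw [hsp, hsu] at h2
          push_cast at h1
          linarith
      · linarith
    · -- a payer
      have hl1 : 0 < (PK G al K).card := Finset.card_pos.2 ⟨x, hxp⟩
      have hl00 : (Lv G K).card = 0 := by omega
      have hLe : Lv G K = ∅ := Finset.card_eq_zero.1 hl00
      have hPe : PK G al K = {x} := by
        rw [hLe, Finset.empty_union] at hx
        exact hx
      have hmx := le_max_left (4 - (rn G x : ℝ)) 0
      rw [hLe, hPe, Finset.card_empty, Finset.card_singleton] at hgood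
      rw [hLe, hPe, Finset.card_empty, Finset.sum_singleton, Finset.sum_empty]
      push_cast at hgood ⊢
      rcases hin_or with hin | ho1
      · rcases Nat.eq_zero_or_pos (WsK G al K).card with hw0 | hw0
        · have hWe : WsK G al K = ∅ := Finset.card_eq_zero.1 hw0
          rcases hE with hE | hE
          · rw [hE.1, hE.2.2, hWe, Finset.card_empty, Finset.sum_empty]
            push_cast
            linarith
          · exact absurd ⟨hin, Or.inr (Or.inl ⟨x, hLe, hPe, hWe, hpure.symm⟩)⟩ hE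
        · have hw1 : (1 : ℝ) ≤ (WsK G al K).card := by exact_mod_cast hw0
          linarith
      · linarith

/-- **the digons with at least two leaves, payers or weak sides** have two units -/
theorem kdigon2 (hG : G.Geo4 al kp U) (hT : ∀ x ∈ iJ G, gc G al x ≤ 1)
    {K : (cg G).ConnectedComponent} (ht : tK G K = 0)
    (h2 : 2 ≤ (Lv G K).card + (PK G al K).card + (WsK G al K).card) {p w : V × V → ℝ}
    (hp0 : ∀ x ∈ Lv G K, pm G al (sg G x) ≤ p (sg G x)) (hw3 : ∀ z ∈ WsK G al K, 3 ≤ w z) :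
    wx G 1 K + (Lv G K).card + F14 G K + Z14 G K + 2 ≤
      ∑ s ∈ PK G al K, max (4 - (rn G s : ℝ)) 0 + ∑ z ∈ WsK G al K, w z +
        ∑ x ∈ Lv G K, p (sg G x) + 5 * uK14 G al K + 3 * fe14 G K := by
  have hU := uK_nonneg14 G hG (al := al) K
  have hfe : (0 : ℝ) ≤ fe14 G K := Nat.cast_nonneg _
  have hr0 : ∀ x ∈ kS G K, rn G x = 0 := by
    intro x hx
    obtain ⟨h5, h6⟩ := (mem_kS42 G).1 hx
    exact (tK_zero54 G hG h5).1 (by rw [h6]; exact ht)
  have hW : 3 * ((WsK G al K).card : ℝ) ≤ ∑ z ∈ WsK G al K, w z := by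
    rw [mul_comm, ← nsmul_eq_mul, ← Finset.sum_const]
    exact Finset.sum_le_sum hw3
  have hPK : 3 * ((PK G al K).card : ℝ) ≤ ∑ s ∈ PK G al K, max (4 - (rn G s : ℝ)) 0 := by
    rw [mul_comm, ← nsmul_eq_mul, ← Finset.sum_const]
    refine Finset.sum_le_sum fun s hs => ?_
    rw [hr0 s ((mem_PK63 G).1 hs).1]
    refine le_trans ?_ (le_max_left _ _)
    norm_num
  have hLp : 4 * ((Lv G K).card : ℝ) ≤ ∑ x ∈ Lv G K, p (sg G x) := by
    rw [mul_comm, ← nsmul_eq_mul, ← Finset.sum_const]
    refine Finset.sum_le_sum fun x hx => ?_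
    have h3 := leaf_sum15 G hG hT hx (al := al)
    rw [hr0 x ((mem_Lv15 G).1 hx).1] at h3
    have h4 : (un G al (sg G x) : ℝ) = 7 := by
      have : un G al (sg G x) = 7 := by omega
      exact_mod_cast this
    have h5 := hp0 x hx
    have h6 : (un G al (sg G x) : ℝ) - 3 ≤ pm G al (sg G x) := le_max_left _ _
    rw [h4] at h6
    linarith
  -- a side which is no outer dart
  obtain ⟨y, hy, hyo⟩ : ∃ y ∈ kS G K, y ∉ G.oJ := by
    rcases Nat.eq_zero_or_pos (WsK G al K).card with h3 | h3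
    · rcases Nat.eq_zero_or_pos (PK G al K).card with h4 | h4
      · obtain ⟨y, hy⟩ := Finset.card_pos.1 (by omega : 0 < (Lv G K).card)
        obtain ⟨y1, y2, _⟩ := (mem_Lv15 G).1 hy
        exact ⟨y, y1, (inner_sides85 G hG (mem_kS89 G y1) y2).1⟩
      · obtain ⟨y, hy⟩ := Finset.card_pos.1 h4
        obtain ⟨y1, y2, _⟩ := (mem_PK63 G).1 hy
        exact ⟨y, y1, (inner_sides85 G hG (mem_kS89 G y1) y2).1⟩
    · obtain ⟨y, hy⟩ := Finset.card_pos.1 h3
      obtain ⟨y1, y2, _⟩ := (mem_WsK63 G).1 hy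
      exact ⟨y, y1, BC_not_oJ85 G y2⟩
  have h4 := lemTS54 G hG hy hyo
  have h2' : (2 : ℝ) ≤ (Lv G K).card + (PK G al K).card + (WsK G al K).card := by exact_mod_cast h2
  linarith

/-- **the weak digon with an outer head**: one more unit from the uses -/
theorem kzero2 (hG : G.Geo4 al kp U)
    {K : (cg G).ConnectedComponent} {A : Finset (V × V)}
    (hA : A ⊆ Gb63 G al K) (hL : Lv G K = ∅) (hPe : PK G al K = ∅)
    {z : V × V} (hz : WsK G al K = {z}) {w : V × V → ℝ} (hw : 4 ≤ w z)
    (ho : 1 ≤ oK14 G K) (hu : 1 / 4 ≤ uK14 G al K) :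
    wx G 1 K + F14 G K + Z14 G K + A.card + 1 ≤
      ∑ z ∈ WsK G al K, w z + 11 / 2 * uK14 G al K + 3 * fe14 G K := by
  have hfe : (0 : ℝ) ≤ fe14 G K := Nat.cast_nonneg _
  have hzm : z ∈ WsK G al K := by rw [hz]; exact Finset.mem_singleton_self z
  obtain ⟨z1, z2, _⟩ := (mem_WsK63 G).1 hzm
  have h4 := lemTS54 G hG z1 (BC_not_oJ85 G z2)
  have hgood := good_le2 G hG (A := A) (Q := ∅) (K := K) (al := al) hA (Finset.empty_subset _)
  rw [hL, hPe, hz, Finset.card_empty, Finset.card_singleton] at hgood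
  have ho' : (1 : ℝ) ≤ oK14 G K := by exact_mod_cast ho
  rw [hz, Finset.sum_singleton]
  push_cast at hgood
  rcases Nat.eq_zero_or_pos A.card with h5 | h5
  · rw [h5]
    push_cast
    linarith
  · have h5' : (1 : ℝ) ≤ A.card := by exact_mod_cast h5
    linarith

end

end Pool.Agent.PEN.E5
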