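import Pool.Agent.E5.TH19
import Pool.Agent.P4.Geo19
import Pool.Agent.P4.Stf66
import Pool.Agent.P4.Pn26

/-! # PENNY, all small diameters: the corners of a pentagon class

Row R4 of room E. -/

set_option autoImplicit false

namespace Pool.Agent.PEN.E5

open Classical UpperHalfPlane
open Pool.Agent.PEN.Cl

noncomputable section

section abs
variable {V : Type} (G : Tg V)

theorem og_two19 {v a : V} (h0 : ¬ G.con v a) (h1 : ¬ G.con v (G.bk v a))
    (h2 : G.con v (G.bk v (G.bk v a))) : G.og v a = G.bk v (G.bk v a) := by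
  have hO : G.HasO v a := ⟨2, h2⟩
  unfold Tg.og
  rw [dif_pos hO]
  have : Nat.find hO = 2 := by
    refine (Nat.find_eq_iff hO).2 ⟨h2, ?_⟩
    intro m hm
    have hm' : m = 0 ∨ m = 1 := by omega
    rcases hm' with rfl | rfl
    · exact h0
    · exact h1
  rw [this]
  rfl

end abs

theorem coe_inj19 {s t : ℝ} (h : ((s : ℝ) : Real.Angle) = ((t : ℝ) : Real.Angle)) (h1 : 0 ≤ s)
    (h2 : s ≤ t) (h3 : t < 2 * Real.pi) : s = t := by
  rw [Real.Angle.angle_eq_iff_two_pi_dvd_sub] at h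
  obtain ⟨k, hk⟩ := h
  have hp := Real.pi_pos
  have h5 : -1 < (k : ℝ) := by
    by_contra hc
    push Not at hc
    nlinarith
  have h6 : (k : ℝ) < 1 := by
    by_contra hc
    push Not at hc
    nlinarith
  have h7 : k = 0 := by
    have h8 : -1 < k := by exact_mod_cast h5
    have h9 : k < 1 := by exact_mod_cast h6
    omega
  rw [h7] at hk
  push_cast at hk
  linarith

/-- five points around a pentagon face, with its corners -/
structure Pfr19 (G : Tg ℍ) (d : ℝ) (v1 v2 v3 v4 v5 : ℍ) : Prop where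
  s1 : dist v1 v2 = d
  s2 : dist v2 v3 = d
  s3 : dist v3 v4 = d
  s4 : dist v4 v5 = d
  s5 : dist v5 v1 = d
  d1 : d ≤ dist v1 v3
  d2 : d ≤ dist v2 v4
  d3 : d ≤ dist v3 v5
  d4 : d ≤ dist v4 v1
  d5 : d ≤ dist v5 v2
  g1 : sg G (v1, v2) = (v2, v3)
  g2 : sg G (v2, v3) = (v3, v4)
  g3 : sg G (v3, v4) = (v4, v5)
  g4 : sg G (v4, v5) = (v5, v1)
  g5 : sg G (v5, v1) = (v1, v2)
  e1 : ((ang v1 v2 v5 : ℝ) : Real.Angle) = ((TH G (v1, v2) : ℝ) : Real.Angle)
  e2 : ((ang v2 v3 v1 : ℝ) : Real.Angle) = ((TH G (v2, v3) : ℝ) : Real.Angle)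
  e3 : ((ang v3 v4 v2 : ℝ) : Real.Angle) = ((TH G (v3, v4) : ℝ) : Real.Angle)
  e4 : ((ang v4 v5 v3 : ℝ) : Real.Angle) = ((TH G (v4, v5) : ℝ) : Real.Angle)
  e5 : ((ang v5 v1 v4 : ℝ) : Real.Angle) = ((TH G (v5, v1) : ℝ) : Real.Angle)
  b1 : alpha d ≤ TH G (v1, v2) ∧ TH G (v1, v2) ≤ 3 * alpha d
  b2 : alpha d ≤ TH G (v2, v3) ∧ TH G (v2, v3) ≤ 3 * alpha d
  b3 : alpha d ≤ TH G (v3, v4) ∧ TH G (v3, v4) ≤ 3 * alpha d
  b4 : alpha d ≤ TH G (v4, v5) ∧ TH G (v4, v5) ≤ 3 * alpha d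
  b5 : alpha d ≤ TH G (v5, v1) ∧ TH G (v5, v1) ≤ 3 * alpha d
  t1 : TH G (v1, v2) + TH G (v2, v3) ≤ 4 * alpha d
  t2 : TH G (v2, v3) + TH G (v3, v4) ≤ 4 * alpha d
  t3 : TH G (v3, v4) + TH G (v4, v5) ≤ 4 * alpha d
  t4 : TH G (v4, v5) + TH G (v5, v1) ≤ 4 * alpha d
  t5 : TH G (v5, v1) + TH G (v1, v2) ≤ 4 * alpha d

theorem Pfr19.rot {G : Tg ℍ} {d : ℝ} {v1 v2 v3 v4 v5 : ℍ} (h : Pfr19 G d v1 v2 v3 v4 v5) :
    Pfr19 G d v2 v3 v4 v5 v1 :=
  { s1 := h.s2, s2 := h.s3, s3 := h.s4, s4 := h.s5, s5 := h.s1,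
    d1 := h.d2, d2 := h.d3, d3 := h.d4, d4 := h.d5, d5 := h.d1,
    g1 := h.g2, g2 := h.g3, g3 := h.g4, g4 := h.g5, g5 := h.g1,
    e1 := h.e2, e2 := h.e3, e3 := h.e4, e4 := h.e5, e5 := h.e1,
    b1 := h.b2, b2 := h.b3, b3 := h.b4, b4 := h.b5, b5 := h.b1,
    t1 := h.t2, t2 := h.t3, t3 := h.t4, t4 := h.t5, t5 := h.t1 }

section conc
variable {G : Tg ℍ} {d : ℝ} {kp : ℍ → ℍ → ℝ} {U : ℕ → ℝ}

/-- **the frame of a pentagon class** -/
theorem pent_frame19 (hG : G.Geo4 (alpha d) kp U) (hD : DelG G d) (hS : Sep d G.P)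
    {C : G.adj.ConnectedComponent} (hC : C ∈ G.iC)
    (hm : (G.cT C).card = 3) (hI : (G.cI C).card = 4) :
    ∃ v1 v2 v3 v4 v5 : ℍ, Pfr19 G d v1 v2 v3 v4 v5 ∧ (v1, v2) ∈ G.cJ C ∧
      (∀ x ∈ G.cJ C, x = (v1, v2) ∨ x = (v2, v3) ∨ x = (v3, v4) ∨ x = (v4, v5) ∨
        x = (v5, v1)) := by
  have hB := cB_of_iC66 G hC
  have h7 := hG.al1
  have hgp : ∀ x ∈ G.cJ C, gp G x ⊆ insert x ((G.cI C).filter (fun y => y.1 = x.1)) :=
    fun _ hx => W4.gp_sub71 G hG hC hx
  obtain ⟨a, b, c, h1, h2, ha, cab, cbp, cpc, ccq, cqa, hI4, hJ5⟩ := pent_class26 G hB hm hI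
  obtain ⟨p, hp⟩ : ∃ p, p = G.ap c b := ⟨_, rfl⟩
  obtain ⟨q, hq⟩ : ∃ q, q = G.ap a c := ⟨_, rfl⟩
  rw [← hp] at cbp cpc
  rw [← hq] at ccq cqa
  rw [← hp, ← hq] at hJ5
  have hbc := ((mem_cD66 G).1 (cI_sub11 G h1)).1
  have hca := ((mem_cD66 G).1 (cI_sub11 G h2)).1
  have hcb := cI_swap11 G h1
  have hac := cI_swap11 G h2
  dsimp only at hcb hac
  have hab : (a, b) ∈ G.Dp := by
    rw [← ha]
    exact G.ap2 _ _ hbc
  have eab : G.ap a b = c := by
    rw [← ha]
    exact G.ap4 _ _ hbc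
  have eca : G.ap c a = b := by
    rw [← ha]
    exact G.ap3 _ _ hbc
  have hbp : (b, p) ∈ G.Dp := by
    rw [hp]
    exact G.ap1 _ _ hcb
  have hpc : (p, c) ∈ G.Dp := by
    rw [hp]
    exact G.ap2 _ _ hcb
  have ebp : G.ap b p = c := by
    rw [hp]
    exact G.ap3 _ _ hcb
  have epc : G.ap p c = b := by
    rw [hp]
    exact G.ap4 _ _ hcb
  have hcq : (c, q) ∈ G.Dp := by
    rw [hq]
    exact G.ap1 _ _ hac
  have hqa : (q, a) ∈ G.Dp := by
    rw [hq]
    exact G.ap2 _ _ hac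
  have ecq : G.ap c q = a := by
    rw [hq]
    exact G.ap3 _ _ hac
  have eqa : G.ap q a = c := by
    rw [hq]
    exact G.ap4 _ _ hac
  -- the darts of the class
  have hbcD := cI_sub11 G h1
  have hcaD := cI_sub11 G h2
  have habD : (a, b) ∈ G.cD C := by
    have h := rot_cD66' G hbcD
    dsimp only at h
    rw [ha] at h
    exact h
  have hcbI : (c, b) ∈ G.cI C := swap_cD66 G h1
  have hacI : (a, c) ∈ G.cI C := swap_cD66 G h2
  have hcbD := cI_sub11 G hcbI
  have hacD := cI_sub11 G hacI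
  have hbpD : (b, p) ∈ G.cD C := by
    have h := rot_cD66 G hcbD
    dsimp only at h
    rw [← hp] at h
    exact h
  have hpcD : (p, c) ∈ G.cD C := by
    have h := rot_cD66' G hcbD
    dsimp only at h
    rw [← hp] at h
    exact h
  have hcqD : (c, q) ∈ G.cD C := by
    have h := rot_cD66 G hacD
    dsimp only at h
    rw [← hq] at h
    exact h
  have hqaD : (q, a) ∈ G.cD C := by
    have h := rot_cD66' G hacD
    dsimp only at h
    rw [← hq] at h
    exact h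
  have toJ : ∀ {x : ℍ × ℍ}, x ∈ G.cD C → G.con x.1 x.2 → x ∈ G.cJ C := by
    intro x k1 k2
    have k3 := (mem_cD66 G).1 k1
    unfold Tg.cJ
    rw [Finset.mem_filter]
    exact ⟨k3.1, k3.2, k2⟩
  have Jab := toJ habD cab
  have Jbp := toJ hbpD cbp
  have Jpc := toJ hpcD cpc
  have Jcq := toJ hcqD ccq
  have Jqa := toJ hqaD cqa
  have iab := (cJ_iJ51 G hC Jab).1
  have ibp := (cJ_iJ51 G hC Jbp).1
  have ipc := (cJ_iJ51 G hC Jpc).1
  have icq := (cJ_iJ51 G hC Jcq).1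
  have iqa := (cJ_iJ51 G hC Jqa).1
  -- the cycle of the face
  have nc1 : ¬ G.con b c := cI_ncon11 G h1
  have nc2 : ¬ G.con c a := cI_ncon11 G h2
  have nc3 : ¬ G.con c b := cI_ncon11 G hcbI
  have nc4 : ¬ G.con a c := cI_ncon11 G hacI
  have S1 : sg G (a, b) = (b, p) := by
    unfold sg
    dsimp only
    rw [eab, (og_next66 G nc1 (by unfold Tg.bk; rw [← hp]; exact cbp)).2]
    unfold Tg.bk
    rw [← hp]
  have S2 : sg G (b, p) = (p, c) := by
    unfold sg
    dsimp only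
    rw [ebp, (og_self66 G cpc).2]
  have S3 : sg G (p, c) = (c, q) := by
    unfold sg
    dsimp only
    have b1 : G.bk c b = a := by
      unfold Tg.bk
      exact ha
    have b2 : G.bk c a = q := by
      unfold Tg.bk
      exact hq.symm
    rw [epc, og_two19 G nc3 (by rw [b1]; exact nc2) (by rw [b1, b2]; exact ccq), b1, b2]
  have S4 : sg G (c, q) = (q, a) := by
    unfold sg
    dsimp only
    rw [ecq, (og_self66 G cqa).2]
  have S5 : sg G (q, a) = (a, b) := by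
    unfold sg
    dsimp only
    have b1 : G.bk a c = b := by
      unfold Tg.bk
      exact eca
    rw [eqa, (og_next66 G nc4 (by rw [b1]; exact cab)).2, b1]
  have nbc := G.ne _ _ (G.sub hbc)
  have nca := G.ne _ _ (G.sub hca)
  have nab := G.ne _ _ (G.sub hab)
  have nbp := G.ne _ _ (G.sub hbp)
  have npc := G.ne _ _ (G.sub hpc)
  have ncq := G.ne _ _ (G.sub hcq)
  have nqa := G.ne _ _ (G.sub hqa)
  have nap : a ≠ p := by
    rw [hp, ← ha]
    exact G.ap5 _ _ hbc hcb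
  have nbq : b ≠ q := by
    rw [hq, ← eca]
    exact G.ap5 _ _ hca hac
  have Pa := G.mem _ _ (G.sub hab)
  have Pb := G.mem _ _ (G.sub hbc)
  have Pc := G.mem _ _ (G.sub hca)
  have Pp := G.mem _ _ (G.sub hpc)
  have Pq := G.mem _ _ (G.sub hqa)
  have hd := hD.hd
  have hal : 0 < alpha d := alpha_pos hd
  -- angles
  have tab : G.th a b = ang a b c := by rw [hD.th _ _ hab, eab]
  have tac : G.th a c = ang a c q := by rw [hD.th _ _ hac, ← hq]
  have tbp : G.th b p = ang b p c := by rw [hD.th _ _ hbp, ebp]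
  have tbc : G.th b c = ang b c a := by rw [hD.th _ _ hbc, ha]
  have tpc : G.th p c = ang p c b := by rw [hD.th _ _ hpc, epc]
  have tcq : G.th c q = ang c q a := by rw [hD.th _ _ hcq, ecq]
  have tca : G.th c a = ang c a b := by rw [hD.th _ _ hca, eca]
  have tcb : G.th c b = ang c b p := by rw [hD.th _ _ hcb, ← hp]
  have tqa : G.th q a = ang q a c := by rw [hD.th _ _ hqa, eqa]
  -- the two ears are different
  have npq : p ≠ q := by
    intro hpq
    obtain ⟨S, hSd⟩ : ∃ S : Finset ℍ, S = {a, b, p} := ⟨_, rfl⟩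
    have hcpD : (c, p) ∈ G.Dp := by
      rw [hpq]
      exact hcq
    have hinv : ∀ x ∈ S, (c, x) ∈ G.Dp ∧ G.ap c x ∈ S := by
      intro x hx
      rw [hSd, Finset.mem_insert, Finset.mem_insert, Finset.mem_singleton] at hx
      rw [hSd]
      rcases hx with rfl | rfl | rfl
      · refine ⟨hca, ?_⟩
        rw [eca]
        simp
      · refine ⟨hcb, ?_⟩
        rw [← hp]
        simp
      · refine ⟨hcpD, ?_⟩
        rw [hpq, ecq]
        simp
    have hne : S.Nonempty := ⟨a, by rw [hSd]; simp⟩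
    have hnb : ¬ G.bd c := fun hb => hG.bdno c Pc hb S hne hinv
    have h3 := hG.turn c Pc hnb S hne (fun x hx => G.sub (hinv x hx).1)
      (fun x hx => (hinv x hx).2)
    rw [hSd, Finset.sum_insert (by
      rw [Finset.mem_insert, Finset.mem_singleton, not_or]
      exact ⟨nab, nap⟩), Finset.sum_pair nbp, tca, tcb] at h3
    have tcp : G.th c p = ang c p a := by
      rw [hD.th _ _ hcpD, hpq, ecq]
    rw [tcp] at h3
    have v1 := visual66 hd (hD.con _ _ cab) (hS c Pc a Pa nca) (hS c Pc b Pb nbc.symm)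
    have v2 := visual66 hd (hD.con _ _ cbp) (hS c Pc b Pb nbc.symm) (hS c Pc p Pp npc.symm)
    have v3 := visual66 hd (hD.con _ _ cqa) (hS c Pc q Pq ncq) (hS c Pc a Pa nca)
    rw [← hpq] at v3
    have v1' := (abs_le.1 v1).2
    have v2' := (abs_le.1 v2).2
    have v3' := (abs_le.1 v3).2
    have h5 := Real.pi_pos
    have h8 := hG.al2
    linarith
  -- the gaps
  have two : ∀ x ∈ G.cJ C, ∀ S : Finset (ℍ × ℍ), (∀ y ∈ S, y ∈ G.Dp) → x ∈ S →
      (∀ y, (y = (b, c) ∨ y = (c, b) ∨ y = (c, a) ∨ y = (a, c)) → y.1 = x.1 → y ∈ S) →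
      TH G x ≤ ∑ y ∈ S, G.th y.1 y.2 := by
    intro x hx S k1 k2 k3
    refine TH_le26 G (fun y hy => ?_) k1
    have k4 := hgp x hx hy
    rw [Finset.mem_insert, Finset.mem_filter] at k4
    rcases k4 with k4 | ⟨k4, k5⟩
    · rw [k4]
      exact k2
    · exact k3 y (hI4 y k4) k5
  have G1 : TH G (a, b) ≤ ang a b c + ang a c q := by
    have h3 := two _ Jab {(a, b), (a, c)} (by
      intro y hy
      rw [Finset.mem_insert, Finset.mem_singleton] at hy
      rcases hy with rfl | rfl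
      · exact hab
      · exact hac) (by simp) (by
      rintro y (rfl | rfl | rfl | rfl) hy1
      · exact absurd hy1.symm nab
      · exact absurd hy1 nca
      · exact absurd hy1 nca
      · simp)
    rw [Finset.sum_pair (fun h => nbc (congrArg Prod.snd h)), tab, tac] at h3
    exact h3
  have G2 : TH G (b, p) ≤ ang b p c + ang b c a := by
    have h3 := two _ Jbp {(b, p), (b, c)} (by
      intro y hy
      rw [Finset.mem_insert, Finset.mem_singleton] at hy
      rcases hy with rfl | rfl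
      · exact hbp
      · exact hbc) (by simp) (by
      rintro y (rfl | rfl | rfl | rfl) hy1
      · simp
      · exact absurd hy1.symm nbc
      · exact absurd hy1.symm nbc
      · exact absurd hy1 nab)
    rw [Finset.sum_pair (fun h => npc (congrArg Prod.snd h)), tbp, tbc] at h3
    exact h3
  have G3 : TH G (p, c) ≤ ang p c b := by
    have h3 := two _ Jpc {(p, c)} (by
      intro y hy
      rw [Finset.mem_singleton] at hy
      rw [hy]
      exact hpc) (by simp) (by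
      rintro y (rfl | rfl | rfl | rfl) hy1
      · exact absurd hy1 nbp
      · exact absurd hy1.symm npc
      · exact absurd hy1.symm npc
      · exact absurd hy1 nap)
    rw [Finset.sum_singleton, tpc] at h3
    exact h3
  have G4 : TH G (c, q) ≤ ang c q a + ang c a b + ang c b p := by
    have h3 := two _ Jcq {(c, q), (c, a), (c, b)} (by
      intro y hy
      rw [Finset.mem_insert, Finset.mem_insert, Finset.mem_singleton] at hy
      rcases hy with rfl | rfl | rfl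
      · exact hcq
      · exact hca
      · exact hcb) (by simp) (by
      rintro y (rfl | rfl | rfl | rfl) hy1
      · exact absurd hy1 nbc
      · simp
      · simp
      · exact absurd hy1.symm nca)
    rw [Finset.sum_insert (by
      rw [Finset.mem_insert, Finset.mem_singleton, not_or]
      exact ⟨fun h => nqa (congrArg Prod.snd h), fun h => nbq (congrArg Prod.snd h).symm⟩),
      Finset.sum_pair (fun h => nab (congrArg Prod.snd h)), tcq, tca, tcb, ← add_assoc] at h3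
    exact h3
  have G5 : TH G (q, a) ≤ ang q a c := by
    have h3 := two _ Jqa {(q, a)} (by
      intro y hy
      rw [Finset.mem_singleton] at hy
      rw [hy]
      exact hqa) (by simp) (by
      rintro y (rfl | rfl | rfl | rfl) hy1
      · exact absurd hy1 nbq
      · exact absurd hy1 ncq
      · exact absurd hy1 ncq
      · exact absurd hy1.symm nqa)
    rw [Finset.sum_singleton, tqa] at h3
    exact h3
  -- the geometry
  have o1 : 0 < ori (kl a) (kl b) (kl c) := by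
    have := hD.ori _ _ hab
    rw [eab] at this
    exact this
  have o2 : 0 < ori (kl c) (kl b) (kl p) := by
    have := hD.ori _ _ hcb
    rw [← hp] at this
    exact this
  have o3 : 0 < ori (kl a) (kl c) (kl q) := by
    have := hD.ori _ _ hac
    rw [← hq] at this
    exact this
  have dab := hD.con _ _ cab
  have dbp := hD.con _ _ cbp
  have dpc := hD.con _ _ cpc
  have dcq := hD.con _ _ ccq
  have dqa := hD.con _ _ cqa
  have ebc := hS b Pb c Pc nbc
  have eca' := hS c Pc a Pa nca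
  have eap := hS a Pa p Pp nap
  have ebq := hS b Pb q Pq nbq
  have epq := hS p Pp q Pq npq
  obtain ⟨⟨pa, ba⟩, ⟨pb, bb⟩, ⟨pc, bc⟩, ⟨pp, bp⟩, ⟨pq, bq⟩, -⟩ :=
    pentagon_corners66 hd h7 o1 o2 o3 dab dbp dpc dcq dqa ebc eca' eap ebq epq rfl rfl rfl rfl rfl
  obtain ⟨⟨la, lb, lc, lp, lq⟩, s1, s2, s3, s4, s5⟩ :=
    pentagon_strong66 hd h7 o1 o2 o3 dab dbp dpc dcq dqa ebc eca' eap ebq epq rfl rfl rfl rfl rfl
  obtain ⟨Ea, Eb, Ec⟩ := pentagon_coe19 (a := a) (b := b) (c := c) (p := p) (q := q)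
    nab.symm nca nqa nbp.symm nbc.symm ncq.symm npc rfl rfl rfl
  have T0 : ∀ {x : ℍ × ℍ}, x ∈ iJ G → 0 ≤ TH G x := fun hx => hal.le.trans (TH_ge19 hG hD hS hx)
  have h8 := hG.al2
  have hpi := Real.pi_pos
  have k1 := TH_coe19 hG hD iqa
  rw [S5] at k1
  have k2 := TH_coe19 hG hD iab
  rw [S1] at k2
  have k3 := TH_coe19 hG hD ibp
  rw [S2] at k3
  have k4 := TH_coe19 hG hD ipc
  rw [S3] at k4
  have k5 := TH_coe19 hG hD icq
  rw [S4] at k5
  dsimp only at k1 k2 k3 k4 k5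
  have E1 := coe_inj19 (k1.trans Ea) (T0 iab) G1 (by linarith)
  have E2 := coe_inj19 (k2.trans Eb) (T0 ibp) G2 (by linarith)
  have E3 : TH G (p, c) = ang p c b := coe_inj19 k3 (T0 ipc) G3 (by linarith)
  have E4 := coe_inj19 (k4.trans Ec) (T0 icq) G4 (by linarith)
  have E5 : TH G (q, a) = ang q a c := coe_inj19 k5 (T0 iqa) G5 (by linarith)
  rw [← E1] at la ba s1 s5
  rw [← E2] at lb bb s1 s2
  rw [← E3] at lp bp s2 s3
  rw [← E4] at lc bc s3 s4
  rw [← E5] at lq bq s4 s5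
  refine ⟨a, b, p, c, q, ?_, Jab, hJ5⟩
  exact
  { s1 := dab, s2 := dbp, s3 := dpc, s4 := dcq, s5 := dqa,
    d1 := eap, d2 := ebc, d3 := epq, d4 := eca', d5 := by rw [dist_comm]; exact ebq,
    g1 := S1, g2 := S2, g3 := S3, g4 := S4, g5 := S5,
    e1 := k1.symm, e2 := k2.symm, e3 := k3.symm, e4 := k4.symm, e5 := k5.symm,
    b1 := ⟨la, ba⟩, b2 := ⟨lb, bb⟩, b3 := ⟨lp, bp⟩, b4 := ⟨lc, bc⟩, b5 := ⟨lq, bq⟩,
    t1 := s1, t2 := s2, t3 := s3, t4 := s4, t5 := s5 }

/-- the frame at a given corner -/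
theorem pent_at19 (hG : G.Geo4 (alpha d) kp U) (hD : DelG G d) (hS : Sep d G.P)
    {C : G.adj.ConnectedComponent} (hC : C ∈ G.iC)
    (hm : (G.cT C).card = 3) (hI : (G.cI C).card = 4) {x : ℍ × ℍ} (hx : x ∈ G.cJ C) :
    ∃ v3 v4 v5 : ℍ, Pfr19 G d x.1 x.2 v3 v4 v5 := by
  obtain ⟨v1, v2, v3, v4, v5, h, -, hJ⟩ := pent_frame19 hG hD hS hC hm hI
  rcases hJ x hx with rfl | rfl | rfl | rfl | rfl
  · exact ⟨_, _, _, h⟩
  · exact ⟨_, _, _, h.rot⟩
  · exact ⟨_, _, _, h.rot.rot⟩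
  · exact ⟨_, _, _, h.rot.rot.rot⟩
  · exact ⟨_, _, _, h.rot.rot.rot.rot⟩

/-- corners of a class with a non contact dart are big -/
theorem ntt19 {C : G.adj.ConnectedComponent} (hC : C ∈ G.iC) (hI : (G.cI C).Nonempty)
    {x : ℍ × ℍ} (hx : x ∈ G.cJ C) : ¬ tt G x := by
  intro h
  have h1 := cI_tt89 G h
  rw [(cJ_iJ51 G hC hx).2] at h1
  rw [h1] at hI
  exact Finset.not_nonempty_empty hI

theorem un_two19 {al : ℝ} {x : ℍ × ℍ} (h : ¬ tt G x) : 2 ≤ un G al x := by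
  unfold un
  rw [if_neg h]
  exact le_max_left _ _

/-- the corner exceeds `n` units if it has more than `n >= 2` units -/
theorem un_gt19 (hG : G.Geo4 (alpha d) kp U) {x : ℍ × ℍ} {n : ℕ} (hn : 2 ≤ n)
    (h : n < un G (alpha d) x) : n * alpha d < TH G x := by
  by_contra hc
  push Not at hc
  have := un_le19 G hG hn hc
  omega

/-- the corner is at most its units -/
theorem TH_un19 (hG : G.Geo4 (alpha d) kp U) (x : ℍ × ℍ) :
    TH G x ≤ un G (alpha d) x * alpha d := by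
  have h1 := TH_gc19 G hG x
  have h2 := gc_nonneg89 G hG (x := x)
  have hal := W4.al_pos71 G hG
  nlinarith

/-- surplus of an edge in terms of the angles -/
theorem sp_TH19 (hG : G.Geo4 (alpha d) kp U) (x : ℍ × ℍ) :
    alpha d * sp G (alpha d) x = alpha d * (un G (alpha d) x + un G (alpha d) (sg G x) - 1) -
      (TH G x + TH G (sg G x)) := by
  have h1 := TH_gc19 G hG x
  have h2 := TH_gc19 G hG (sg G x)
  unfold sp
  linarith

/-- the corners of a frame in units, first corner -/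
structure Pun19 (G : Tg ℍ) (d : ℝ) (x : ℍ × ℍ) : Prop where
  cyc : sg G (sg G (sg G (sg G (sg G x)))) = x
  two : 2 ≤ un G (alpha d) x
  three : un G (alpha d) x ≤ 3
  five : un G (alpha d) x + un G (alpha d) (sg G x) ≤ 5
  str : 5 ≤ un G (alpha d) x + un G (alpha d) (sg G x) → 0 ≤ sp G (alpha d) x
  apx : un G (alpha d) x = 2 → un G (alpha d) (sg G x) = 2 →
    gc G (alpha d) (sg G (sg G (sg G x))) + 2 ≤
      gc G (alpha d) x + gc G (alpha d) (sg G x) + un G (alpha d) (sg G (sg G (sg G x)))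
  g0 : 0 ≤ gc G (alpha d) x
  g1 : gc G (alpha d) x ≤ 1

theorem Pfr19.apex {v1 v2 v3 v4 v5 : ℍ} (h : Pfr19 G d v1 v2 v3 v4 v5) (hd : 0 < d)
    (h1 : TH G (v1, v2) ≤ 2 * alpha d) (h2 : TH G (v2, v3) ≤ 2 * alpha d) :
    TH G (v1, v2) + TH G (v2, v3) ≤ 2 * alpha d + TH G (v4, v5) := by
  have hal := alpha_pos hd
  have hal2 := alpha_lt hd
  have hpi := Real.pi_pos
  refine apex19 hd (A := v5) (X := v1) (Y := v2) (B := v3) (M := v4) ?_ h.s1 h.s2 h.d1 h.d5 ?_ h.s4 ?_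
    h.e1 h.e2 h.e4 (hal.le.trans h.b1.1) (hal.le.trans h.b2.1) h1 h2 (hal.le.trans h.b4.1) ?_
  · rw [dist_comm]; exact h.s5
  · rw [dist_comm]; exact h.d3
  · rw [dist_comm]; exact h.s3
  · have := h.b4.2
    linarith

theorem Pfr19.units (hG : G.Geo4 (alpha d) kp U) {v1 v2 v3 v4 v5 : ℍ}
    (h : Pfr19 G d v1 v2 v3 v4 v5) (hd : 0 < d) (ht : ¬ tt G (v1, v2)) :
    Pun19 G d (v1, v2) := by
  have hal := alpha_pos hd
  have u3 : ∀ {x : ℍ × ℍ}, TH G x ≤ 3 * alpha d → un G (alpha d) x ≤ 3 := by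
    intro x hx
    refine un_le19 G hG (by norm_num) ?_
    push_cast
    exact hx
  have a1 := u3 h.b1.2
  have a2 := u3 h.b2.2
  have u2 : ∀ {x : ℍ × ℍ}, un G (alpha d) x = 2 → TH G x ≤ 2 * alpha d := by
    intro x hx
    have h1 := TH_un19 hG x
    rw [hx] at h1
    push_cast at h1
    exact h1
  refine ⟨?_, un_two19 ht, a1, ?_, ?_, ?_, gc_nonneg89 G hG, ?_⟩
  · rw [h.g1, h.g2, h.g3, h.g4, h.g5]
  · rw [h.g1]
    by_contra hc
    have c1 : un G (alpha d) (v1, v2) = 3 := by omega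
    have c2 : un G (alpha d) (v2, v3) = 3 := by omega
    have e1 := un_gt19 hG (x := (v1, v2)) (n := 2) le_rfl (by omega)
    have e2 := un_gt19 hG (x := (v2, v3)) (n := 2) le_rfl (by omega)
    push_cast at e1 e2
    have := h.t1
    linarith
  · intro h5
    rw [h.g1] at h5
    have h6 := sp_TH19 hG (v1, v2)
    rw [h.g1] at h6
    have h7 := h.t1
    have h8 : (5 : ℝ) ≤ un G (alpha d) (v1, v2) + un G (alpha d) (v2, v3) := by exact_mod_cast h5
    by_contra hc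
    push Not at hc
    nlinarith
  · intro k1 k2
    rw [h.g1] at k2 ⊢
    rw [h.g2, h.g3]
    have h6 := h.apex hd (u2 k1) (u2 k2)
    rw [TH_gc19 G hG (v1, v2), TH_gc19 G hG (v2, v3), TH_gc19 G hG (v4, v5), k1, k2] at h6
    push_cast at h6
    by_contra hc
    push Not at hc
    nlinarith
  · have h1 := h.b1.1
    have h2 := TH_gc19 G hG (v1, v2)
    by_contra hc
    push Not at hc
    have h3 := un_two19 (al := alpha d) ht
    rcases Nat.lt_or_ge 2 (un G (alpha d) (v1, v2)) with h4 | h4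
    · have h5 := un_gt19 hG (x := (v1, v2)) (n := 2) le_rfl h4
      have h6 : un G (alpha d) (v1, v2) = 3 := by omega
      rw [h6] at h2
      push_cast at h2 h5
      nlinarith
    · have h6 : un G (alpha d) (v1, v2) = 2 := by omega
      rw [h6] at h2
      push_cast at h2
      nlinarith

/-- **a corner of a pentagon class in units** -/
theorem pent_units19 (hG : G.Geo4 (alpha d) kp U) (hD : DelG G d) (hS : Sep d G.P)
    {C : G.adj.ConnectedComponent} (hC : C ∈ G.iC)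
    (hm : (G.cT C).card = 3) (hI : (G.cI C).card = 4) {x : ℍ × ℍ} (hx : x ∈ G.cJ C) :
    Pun19 G d x := by
  obtain ⟨v3, v4, v5, h⟩ := pent_at19 hG hD hS hC hm hI hx
  exact h.units hG hD.hd (ntt19 hC (Finset.card_pos.1 (by omega)) hx)

/-- the next corner is in the same class -/
theorem sg_cJ19 (hG : G.Geo4 (alpha d) kp U) {C : G.adj.ConnectedComponent} (hC : C ∈ G.iC)
    {x : ℍ × ℍ} (hx : x ∈ G.cJ C) : sg G x ∈ G.cJ C := by
  obtain ⟨h1, h2⟩ := cJ_iJ51 G hC hx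
  obtain ⟨h3, h4⟩ := W4.sg_mem51 G hG h1
  have h5 := iJ_cJ51 G h3
  rw [h4, h2] at h5
  exact h5

theorem pent_sum_le19 (f : ℍ × ℍ → ℕ) {C : G.adj.ConnectedComponent} {x1 x2 x3 x4 x5 : ℍ × ℍ}
    (hJ : ∀ x ∈ G.cJ C, x = x1 ∨ x = x2 ∨ x = x3 ∨ x = x4 ∨ x = x5) :
    ∑ x ∈ G.cJ C, f x ≤ f x1 + (f x2 + (f x3 + (f x4 + f x5))) := by
  have h4 : G.cJ C ⊆ {x1, x2, x3, x4, x5} := by
    intro x hx
    simp only [Finset.mem_insert, Finset.mem_singleton]
    exact hJ x hx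
  calc ∑ x ∈ G.cJ C, f x ≤ ∑ x ∈ ({x1, x2, x3, x4, x5} : Finset (ℍ × ℍ)), f x :=
        Finset.sum_le_sum_of_subset h4
    _ ≤ f x1 + (f x2 + (f x3 + (f x4 + f x5))) := by
        refine (sum_insert_le26 f _ _).trans (Nat.add_le_add_left ?_ _)
        refine (sum_insert_le26 f _ _).trans (Nat.add_le_add_left ?_ _)
        refine (sum_insert_le26 f _ _).trans (Nat.add_le_add_left ?_ _)
        refine (sum_insert_le26 f _ _).trans (Nat.add_le_add_left ?_ _)
        rw [Finset.sum_singleton]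

/-- **the units of a pentagon class**: at most `12`; if `12` then the pattern is `(2,2,3,2,3)` -/
theorem pent_class19 (hG : G.Geo4 (alpha d) kp U) (hD : DelG G d) (hS : Sep d G.P)
    {C : G.adj.ConnectedComponent} (hC : C ∈ G.iC)
    (hm : (G.cT C).card = 3) (hI : (G.cI C).card = 4) :
    ∑ x ∈ G.cJ C, un G (alpha d) x ≤ 12 ∧
    (12 ≤ ∑ x ∈ G.cJ C, un G (alpha d) x → ∃ x ∈ G.cJ C, un G (alpha d) x = 2 ∧
      un G (alpha d) (sg G x) = 2 ∧ un G (alpha d) (sg G (sg G x)) = 3 ∧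
      un G (alpha d) (sg G (sg G (sg G x))) = 2 ∧
      un G (alpha d) (sg G (sg G (sg G (sg G x)))) = 3) := by
  obtain ⟨v1, v2, v3, v4, v5, h, hx, hJ⟩ := pent_frame19 hG hD hS hC hm hI
  have hle := pent_sum_le19 (G := G) (fun x => un G (alpha d) x) hJ
  have x2 := sg_cJ19 hG hC hx
  rw [h.g1] at x2
  have x3 := sg_cJ19 hG hC x2
  rw [h.g2] at x3
  have x4 := sg_cJ19 hG hC x3
  rw [h.g3] at x4
  have x5 := sg_cJ19 hG hC x4
  rw [h.g4] at x5
  have p1 := pent_units19 hG hD hS hC hm hI hx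
  have p2 := pent_units19 hG hD hS hC hm hI x2
  have p3 := pent_units19 hG hD hS hC hm hI x3
  have p4 := pent_units19 hG hD hS hC hm hI x4
  have p5 := pent_units19 hG hD hS hC hm hI x5
  have a1 := p1.two
  have a2 := p2.two
  have a3 := p3.two
  have a4 := p4.two
  have a5 := p5.two
  have b1 := p1.three
  have b2 := p2.three
  have b3 := p3.three
  have b4 := p4.three
  have b5 := p5.three
  have c1 := p1.five
  have c2 := p2.five
  have c3 := p3.five
  have c4 := p4.five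
  have c5 := p5.five
  rw [h.g1] at c1
  rw [h.g2] at c2
  rw [h.g3] at c3
  rw [h.g4] at c4
  rw [h.g5] at c5
  refine ⟨by omega, ?_⟩
  intro h12
  rcases (show
      (un G (alpha d) (v1, v2) = 2 ∧ un G (alpha d) (v2, v3) = 2 ∧
        un G (alpha d) (v3, v4) = 3 ∧ un G (alpha d) (v4, v5) = 2 ∧ un G (alpha d) (v5, v1) = 3) ∨
      (un G (alpha d) (v2, v3) = 2 ∧ un G (alpha d) (v3, v4) = 2 ∧
        un G (alpha d) (v4, v5) = 3 ∧ un G (alpha d) (v5, v1) = 2 ∧ un G (alpha d) (v1, v2) = 3) ∨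
      (un G (alpha d) (v3, v4) = 2 ∧ un G (alpha d) (v4, v5) = 2 ∧
        un G (alpha d) (v5, v1) = 3 ∧ un G (alpha d) (v1, v2) = 2 ∧ un G (alpha d) (v2, v3) = 3) ∨
      (un G (alpha d) (v4, v5) = 2 ∧ un G (alpha d) (v5, v1) = 2 ∧
        un G (alpha d) (v1, v2) = 3 ∧ un G (alpha d) (v2, v3) = 2 ∧ un G (alpha d) (v3, v4) = 3) ∨
      (un G (alpha d) (v5, v1) = 2 ∧ un G (alpha d) (v1, v2) = 2 ∧
        un G (alpha d) (v2, v3) = 3 ∧ un G (alpha d) (v3, v4) = 2 ∧ un G (alpha d) (v4, v5) = 3)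
      by omega) with k | k | k | k | k
  · refine ⟨_, hx, ?_⟩
    rw [h.g1, h.g2, h.g3, h.g4]
    exact k
  · refine ⟨_, x2, ?_⟩
    rw [h.g2, h.g3, h.g4, h.g5]
    exact k
  · refine ⟨_, x3, ?_⟩
    rw [h.g3, h.g4, h.g5, h.g1]
    exact k
  · refine ⟨_, x4, ?_⟩
    rw [h.g4, h.g5, h.g1, h.g2]
    exact k
  · refine ⟨_, x5, ?_⟩
    rw [h.g5, h.g1, h.g2, h.g3]
    exact k

/-- `kappa >= 1` for pentagon classes -/
theorem pent_ka19 (hG : G.Geo4 (alpha d) kp U) (hD : DelG G d) (hS : Sep d G.P)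
    {C : G.adj.ConnectedComponent} (hC : C ∈ G.iC)
    (hm : (G.cT C).card = 3) (hI : (G.cI C).card = 4) : 1 ≤ ka G (alpha d) C := by
  have h1 := (pent_class19 hG hD hS hC hm hI).1
  have h2 : (∑ x ∈ G.cJ C, (un G (alpha d) x : ℝ)) ≤ 12 := by exact_mod_cast h1
  unfold ka
  rw [hm, hI]
  push_cast
  linarith

end conc

end

end Pool.Agent.PEN.E5
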