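import Pool.Agent.E5.SkD89

/-! # PENNY, all small diameters: the contact darts of a white face form one cycle

`trans90`: in a disc face (`|cI| + 2 = 2 |cT|`) every `sg`-invariant set of contact darts is
everything. `orb90`: `sg^i x`, `i < m`, are all the contact darts, and `sg^m x = x`.
`five90`, `six90`, `seven90`: the explicit forms. -/

set_option autoImplicit false

namespace Pool.Agent.PEN.E5

open Classical UpperHalfPlane
open Pool.Agent.PEN.Cl

noncomputable section

/-! ### a flow on a tree vanishes -/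

theorem flow90 {α τ : Type} (D : Finset α) (t : α → τ) (s : α → α) (S : Finset τ)
    (hs : ∀ x ∈ D, s x ∈ D) (hss : ∀ x ∈ D, s (s x) = x) (ht : ∀ x ∈ D, t x ∈ S)
    (hr : ∀ T1 ∈ S, ∃ r : τ → ℕ, ∀ T ∈ S, T ≠ T1 → ∃ x ∈ D, t x = T ∧ r (t (s x)) < r T)
    (hc : D.card + 2 ≤ 2 * S.card) (A : Finset α) (hA : A ⊆ D) (hAs : ∀ x ∈ A, s x ∈ A)
    (hA2 : ∀ x ∈ A, ∃ y ∈ A, y ≠ x ∧ t y = t x) : A = ∅ := by
  by_contra hne
  obtain ⟨x0, hx0⟩ := Finset.nonempty_iff_ne_empty.2 hne
  obtain ⟨r, hr⟩ := hr (t x0) (ht _ (hA hx0))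
  obtain ⟨SA, hSA⟩ : ∃ SA, SA = A.image t := ⟨_, rfl⟩
  have hSAS : SA ⊆ S := by
    intro T hT
    rw [hSA] at hT
    obtain ⟨x, hx, rfl⟩ := Finset.mem_image.1 hT
    exact ht _ (hA hx)
  have h1 : 2 * SA.card ≤ A.card := by
    rw [hSA]
    apply Finset.mul_card_image_le_card
    intro T hT
    obtain ⟨x, hx, rfl⟩ := Finset.mem_image.1 hT
    obtain ⟨y, hy, hyx, hty⟩ := hA2 x hx
    have : ({y, x} : Finset α) ⊆ A.filter (fun z => t z = t x) := by
      intro z hz
      rw [Finset.mem_insert, Finset.mem_singleton] at hz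
      rw [Finset.mem_filter]
      rcases hz with rfl | rfl
      · exact ⟨hy, hty⟩
      · exact ⟨hx, rfl⟩
    have h := Finset.card_le_card this
    rw [Finset.card_pair hyx] at h
    exact h
  have hg : ∀ T : τ, ∃ x : α, T ∈ S → T ∉ SA → x ∈ D ∧ t x = T ∧ r (t (s x)) < r T := by
    intro T
    by_cases h : T ∈ S ∧ T ∉ SA
    · obtain ⟨x, h2, h3, h4⟩ := hr T h.1 (by
        rintro rfl
        exact h.2 (by rw [hSA]; exact Finset.mem_image_of_mem _ hx0))
      exact ⟨x, fun _ _ => ⟨h2, h3, h4⟩⟩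
    · exact ⟨x0, fun h2 h3 => absurd ⟨h2, h3⟩ h⟩
  choose g hg using hg
  obtain ⟨B, hB⟩ : ∃ B, B = (S \ SA).image g := ⟨_, rfl⟩
  have hgm : ∀ x ∈ B, ∃ T, T ∈ S ∧ T ∉ SA ∧ x = g T := by
    intro x hx
    rw [hB] at hx
    obtain ⟨T, hT, rfl⟩ := Finset.mem_image.1 hx
    rw [Finset.mem_sdiff] at hT
    exact ⟨T, hT.1, hT.2, rfl⟩
  have hBc : B.card = (S \ SA).card := by
    rw [hB]
    apply Finset.card_image_of_injOn
    intro T hT T' hT' h
    rw [Finset.mem_coe, Finset.mem_sdiff] at hT hT'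
    rw [← (hg T hT.1 hT.2).2.1, ← (hg T' hT'.1 hT'.2).2.1]
    exact congrArg t h
  have hBD : B ⊆ D := by
    intro x hx
    obtain ⟨T, h2, h3, rfl⟩ := hgm x hx
    exact (hg T h2 h3).1
  obtain ⟨B', hB'⟩ : ∃ B', B' = B.image s := ⟨_, rfl⟩
  have hBc' : B'.card = B.card := by
    rw [hB']
    apply Finset.card_image_of_injOn
    intro x hx y hy h
    rw [← hss x (hBD (Finset.mem_coe.1 hx)), ← hss y (hBD (Finset.mem_coe.1 hy))]
    exact congrArg s h
  have hBD' : B' ⊆ D := by
    intro x hx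
    rw [hB'] at hx
    obtain ⟨y, hy, rfl⟩ := Finset.mem_image.1 hx
    exact hs _ (hBD hy)
  have hnA : ∀ x ∈ B, x ∉ A := by
    intro x hx hxA
    obtain ⟨T, h2, h3, rfl⟩ := hgm x hx
    apply h3
    rw [hSA, ← (hg T h2 h3).2.1]
    exact Finset.mem_image_of_mem _ hxA
  have d1 : Disjoint A B := by
    rw [Finset.disjoint_left]
    exact fun x hx hxB => hnA x hxB hx
  have d2 : Disjoint (A ∪ B) B' := by
    rw [Finset.disjoint_left]
    intro x hx hxB
    rw [hB'] at hxB
    obtain ⟨y, hy, rfl⟩ := Finset.mem_image.1 hxB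
    rcases Finset.mem_union.1 hx with hx | hx
    · apply hnA y hy
      rw [← hss y (hBD hy)]
      exact hAs _ hx
    · obtain ⟨T, h2, h3, h4⟩ := hgm _ hx
      obtain ⟨T', h2', h3', rfl⟩ := hgm _ hy
      obtain ⟨k1, k2, k3⟩ := hg T h2 h3
      obtain ⟨k1', k2', k3'⟩ := hg T' h2' h3'
      rw [h4, k2] at k3'
      rw [← h4, hss _ k1', k2'] at k3
      omega
  have h2 : (A ∪ B ∪ B').card ≤ D.card := by
    apply Finset.card_le_card
    intro x hx
    rcases Finset.mem_union.1 hx with hx | hx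
    · rcases Finset.mem_union.1 hx with hx | hx
      · exact hA hx
      · exact hBD hx
    · exact hBD' hx
  rw [Finset.card_union_of_disjoint d2, Finset.card_union_of_disjoint d1, hBc', hBc,
    Finset.card_sdiff_of_subset hSAS] at h2
  have h3 := Finset.card_le_card hSAS
  omega

/-! ### an injective map of a finite set -/

theorem iter_mem90 {α : Type} {S : Finset α} {f : α → α} (hf : ∀ x ∈ S, f x ∈ S) {x : α}
    (hx : x ∈ S) (i : ℕ) : f^[i] x ∈ S := by
  induction i with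
  | zero => exact hx
  | succ i ih =>
    rw [Function.iterate_succ_apply']
    exact hf _ ih

theorem iter_inj90 {α : Type} {S : Finset α} {f : α → α} (hf : ∀ x ∈ S, f x ∈ S)
    (hi : ∀ x ∈ S, ∀ y ∈ S, f x = f y → x = y) {x y : α} (hx : x ∈ S) (hy : y ∈ S) (i : ℕ)
    (h : f^[i] x = f^[i] y) : x = y := by
  induction i with
  | zero => exact h
  | succ i ih =>
    rw [Function.iterate_succ_apply', Function.iterate_succ_apply'] at h
    exact ih (hi _ (iter_mem90 hf hx i) _ (iter_mem90 hf hy i) h)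

theorem per90 {α : Type} {S : Finset α} {f : α → α} (hf : ∀ x ∈ S, f x ∈ S)
    (hi : ∀ x ∈ S, ∀ y ∈ S, f x = f y → x = y) {x : α} (hx : x ∈ S) :
    ∃ k, 0 < k ∧ k ≤ S.card ∧ f^[k] x = x := by
  obtain ⟨i, hi1, j, hj1, hij, h⟩ := Finset.exists_ne_map_eq_of_card_lt_of_maps_to
    (s := Finset.range (S.card + 1)) (t := S) (f := fun i => f^[i] x)
    (by rw [Finset.card_range]; omega) (fun i _ => iter_mem90 hf hx i)
  rw [Finset.mem_range] at hi1 hj1
  have key : ∀ i j : ℕ, i < j → j < S.card + 1 → f^[i] x = f^[j] x →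
      ∃ k, 0 < k ∧ k ≤ S.card ∧ f^[k] x = x := by
    intro i j hij hj h
    refine ⟨j - i, by omega, by omega, ?_⟩
    have h2 : f^[j] x = f^[i] (f^[j - i] x) := by
      rw [← Function.iterate_add_apply]
      congr 2
      omega
    rw [h2] at h
    exact (iter_inj90 hf hi hx (iter_mem90 hf hx _) i h).symm
  rcases Nat.lt_or_ge i j with h1 | h1
  · exact key i j h1 hj1 h
  · exact key j i (by omega) hi1 h.symm

/-- a transitive injective map of a finite set is one cycle -/
theorem cyc90 {α : Type} [DecidableEq α] {S : Finset α} {f : α → α} (hf : ∀ x ∈ S, f x ∈ S)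
    (hi : ∀ x ∈ S, ∀ y ∈ S, f x = f y → x = y)
    (ht : ∀ O : Finset α, O ⊆ S → O.Nonempty → (∀ x ∈ O, f x ∈ O) → O = S) {x : α}
    (hx : x ∈ S) : (Finset.range S.card).image (fun i => f^[i] x) = S ∧ f^[S.card] x = x := by
  obtain ⟨k, hk, hkS, hkx⟩ := per90 hf hi hx
  obtain ⟨O, hO⟩ : ∃ O, O = (Finset.range k).image (fun i => f^[i] x) := ⟨_, rfl⟩
  have h1 : O = S := by
    apply ht
    · intro y hy
      rw [hO] at hy
      obtain ⟨i, _, rfl⟩ := Finset.mem_image.1 hy
      exact iter_mem90 hf hx i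
    · exact ⟨x, by rw [hO]; exact Finset.mem_image.2 ⟨0, Finset.mem_range.2 hk, rfl⟩⟩
    · intro y hy
      rw [hO] at hy ⊢
      obtain ⟨i, h2, rfl⟩ := Finset.mem_image.1 hy
      rw [Finset.mem_range] at h2
      rw [Finset.mem_image]
      rcases Nat.lt_or_ge (i + 1) k with h3 | h3
      · exact ⟨i + 1, Finset.mem_range.2 h3, Function.iterate_succ_apply' _ _ _⟩
      · refine ⟨0, Finset.mem_range.2 hk, ?_⟩
        have h4 : i.succ = k := by omega
        rw [← Function.iterate_succ_apply' f i x, h4, hkx]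
        rfl
  have h2 : O.card ≤ k := by
    rw [hO]
    exact Finset.card_image_le.trans (by rw [Finset.card_range])
  have h3 : k = S.card := by
    rw [h1] at h2
    omega
  rw [← h3]
  exact ⟨by rw [← hO, h1], hkx⟩

/-- five elements, no fixed point and no 2-cycle: one 5-cycle -/
theorem cyc5_90 {α : Type} [DecidableEq α] {S : Finset α} {f : α → α} (hf : ∀ x ∈ S, f x ∈ S)
    (hi : ∀ x ∈ S, ∀ y ∈ S, f x = f y → x = y) (h1 : ∀ x ∈ S, f x ≠ x)
    (h2 : ∀ x ∈ S, f (f x) ≠ x) (hc : S.card = 5) :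
    ∀ O : Finset α, O ⊆ S → O.Nonempty → (∀ x ∈ O, f x ∈ O) → O = S := by
  -- an invariant nonempty set has at least three elements
  have key : ∀ O : Finset α, O ⊆ S → O.Nonempty → (∀ x ∈ O, f x ∈ O) → 3 ≤ O.card := by
    rintro O hOS ⟨x, hx⟩ hO
    have hxS := hOS hx
    have e : ({x, f x, f (f x)} : Finset α) ⊆ O := by
      intro z hz
      rw [Finset.mem_insert, Finset.mem_insert, Finset.mem_singleton] at hz
      rcases hz with rfl | rfl | rfl
      · exact hx
      · exact hO _ hx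
      · exact hO _ (hO _ hx)
    have e3 := Finset.card_le_card e
    rw [Finset.card_insert_of_notMem, Finset.card_pair] at e3
    · exact e3
    · exact (h1 _ (hf _ hxS)).symm
    · rw [Finset.mem_insert, Finset.mem_singleton]
      rintro (h | h)
      · exact h1 _ hxS h.symm
      · exact h2 _ hxS h.symm
  intro O hOS hne hO
  by_contra hn
  have h3 := key O hOS hne hO
  -- the image of `O` is `O`
  have himg : O.image f = O := by
    apply Finset.eq_of_subset_of_card_le
    · intro y hy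
      obtain ⟨x, hx, rfl⟩ := Finset.mem_image.1 hy
      exact hO x hx
    · rw [Finset.card_image_of_injOn]
      intro x hx y hy h
      exact hi _ (hOS (Finset.mem_coe.1 hx)) _ (hOS (Finset.mem_coe.1 hy)) h
  have h4 := key (S \ O) Finset.sdiff_subset (by
    rw [Finset.sdiff_nonempty]
    intro h
    exact hn (Finset.Subset.antisymm hOS h)) (by
    intro x hx
    rw [Finset.mem_sdiff] at hx ⊢
    refine ⟨hf _ hx.1, fun h => hx.2 ?_⟩
    rw [← himg] at h
    obtain ⟨y, hy, hyx⟩ := Finset.mem_image.1 h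
    rw [← hi _ (hOS hy) _ hx.1 hyx]
    exact hy)
  rw [Finset.card_sdiff_of_subset hOS] at h4
  omega

variable {V : Type} (G : Tg V) {al : ℝ} {kp : V → V → ℝ} {U : ℕ → ℝ}

/-! ### darts of a class and `sg` -/

theorem sg_cJ90 (hG : G.Geo4 al kp U) {C : G.adj.ConnectedComponent} (hC : C ∈ G.iC)
    {x : V × V} (hx : x ∈ G.cJ C) : sg G x ∈ G.cJ C := by
  obtain ⟨h1, h2⟩ := cJ_iJ51 G hC hx
  obtain ⟨h3, h4⟩ := W4.sg_mem51 G hG h1
  have := iJ_cJ51 G h3
  rw [h4, h2] at this
  exact this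

theorem sg_injC90 (hG : G.Geo4 al kp U) {C : G.adj.ConnectedComponent} (hC : C ∈ G.iC) :
    ∀ x ∈ G.cJ C, ∀ y ∈ G.cJ C, sg G x = sg G y → x = y := by
  intro x hx y hy h
  exact W4.sg_inj51 G hG (cJ_iJ51 G hC hx).1 (cJ_iJ51 G hC hy).1 h

theorem sg_ne90 {x : V × V} (hx : x ∈ iJ G) : sg G x ≠ x := by
  intro h
  have h1 : x.2 = x.1 := congrArg Prod.fst h
  exact G.ne _ _ (G.sub ((mem_iJ71 G).1 hx).1.1) h1.symm

/-- (a) no 2-cycle -/
theorem sg2_ne90 (hG : G.Geo4 al kp U) {x : V × V} (hx : x ∈ iJ G) : sg G (sg G x) ≠ x := by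
  intro h
  have hx0 := (mem_iJ71 G).1 hx
  obtain ⟨a, b⟩ := x
  dsimp only at hx0
  -- `og b (ap a b) = a`
  have h1 : G.og b (G.ap a b) = a := congrArg Prod.fst h
  have hin : G.inn (b, G.ap a b) := inn_rot27 G hx0.1
  have hO : G.HasO b (G.ap a b) := W4.hasO71 G hG hin
  obtain ⟨n, hn⟩ : ∃ n, n = Nat.find hO := ⟨_, rfl⟩
  have h2 : (G.bk b)^[n] (G.ap a b) = a := by
    rw [hn, ← og_eq51 G hO]
    exact h1
  have hinn : ∀ i, i ≤ n → G.inn (b, (G.bk b)^[i] (G.ap a b)) := by
    intro i hi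
    exact inn_path51 G hin hO i (by omega)
  have hmin : ∀ i, i < n → ¬ G.con b ((G.bk b)^[i] (G.ap a b)) := by
    intro i hi
    exact Nat.find_min hO (by omega)
  obtain ⟨S, hS⟩ : ∃ S : Finset V, S = (Finset.range (n + 1)).image
      (fun i => (G.bk b)^[i] (G.ap a b)) := ⟨_, rfl⟩
  have hmem : ∀ y ∈ S, ∃ i, i ≤ n ∧ y = (G.bk b)^[i] (G.ap a b) := by
    intro y hy
    rw [hS] at hy
    obtain ⟨i, h3, rfl⟩ := Finset.mem_image.1 hy
    rw [Finset.mem_range] at h3
    exact ⟨i, by omega, rfl⟩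
  have hmem' : ∀ i, i ≤ n → (G.bk b)^[i] (G.ap a b) ∈ S := by
    intro i hi
    rw [hS]
    exact Finset.mem_image.2 ⟨i, Finset.mem_range.2 (by omega), rfl⟩
  have hinv : ∀ y ∈ S, (b, y) ∈ G.Dp ∧ G.ap b y ∈ S := by
    intro y hy
    obtain ⟨i, hi, rfl⟩ := hmem y hy
    refine ⟨(hinn i hi).1, ?_⟩
    cases i with
    | zero =>
      have e : G.ap b (G.ap a b) = a := G.ap3 _ _ hx0.1.1
      rw [Function.iterate_zero, id_eq, e]
      have := hmem' n le_rfl
      rw [h2] at this
      exact this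
    | succ i =>
      have h3 := (inn_bk71 G (hinn i (by omega)) (hmin i (by omega))).1
      rw [Function.iterate_succ_apply', fw_bk71 G h3]
      exact hmem' i (by omega)
  have hne : S.Nonempty := ⟨_, hmem' 0 (by omega)⟩
  have hbP : b ∈ G.P := G.mem _ _ (G.symm _ _ (G.sub hx0.1.1))
  by_cases hb : G.bd b
  · exact hG.bdno b hbP hb S hne hinv
  · -- the other contact neighbour
    have hdeg := hG.deg b hbP
    obtain ⟨y, hy, hya⟩ : ∃ y ∈ G.D.filter (fun x => x.1 = b ∧ G.con x.1 x.2), y ≠ (b, a) := by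
      by_contra hno
      push Not at hno
      have : G.D.filter (fun x => x.1 = b ∧ G.con x.1 x.2) ⊆ {(b, a)} := by
        intro y hy
        exact Finset.mem_singleton.2 (hno y hy)
      have := Finset.card_le_card this
      rw [Finset.card_singleton] at this
      omega
    obtain ⟨y1, c⟩ := y
    rw [Finset.mem_filter] at hy
    obtain ⟨hyD, hy1, hyc⟩ := hy
    dsimp only at hy1 hyc
    subst hy1
    have hcS : c ∉ S := by
      intro hc
      obtain ⟨i, hi, rfl⟩ := hmem c hc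
      rcases Nat.lt_or_ge i n with h3 | h3
      · exact hmin i h3 hyc
      · have h4 : i = n := by omega
        rw [h4, h2] at hya
        exact hya rfl
    have t1 := hG.turn y1 hbP hb S hne (fun y hy => G.sub (hinv y hy).1) (fun y hy => (hinv y hy).2)
    have t2 := hG.tot y1 hbP hb
    have t3 : ∑ z ∈ insert c S, G.th y1 z ≤
        ∑ x ∈ G.D.filter (fun x => x.1 = y1), G.th x.1 x.2 := by
      have e : ∑ z ∈ insert c S, G.th y1 z =
          ∑ x ∈ (insert c S).image (fun z => (y1, z)), G.th x.1 x.2 := by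
        rw [Finset.sum_image]
        intro z _ z' _ h
        exact congrArg Prod.snd h
      rw [e]
      apply Finset.sum_le_sum_of_subset_of_nonneg
      · intro x hx'
        obtain ⟨z, hz, rfl⟩ := Finset.mem_image.1 hx'
        rw [Finset.mem_filter]
        refine ⟨?_, rfl⟩
        rcases Finset.mem_insert.1 hz with rfl | hz
        · exact hyD
        · exact G.sub (hinv z hz).1
      · rintro ⟨x1, x2⟩ hx' _
        rw [Finset.mem_filter] at hx'
        obtain ⟨h3, h4⟩ := hx'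
        dsimp only at h4
        subst h4
        exact (G.thpos _ _ (G.int1 _ _ hbP hb h3)).le
    rw [Finset.sum_insert hcS, t2] at t3
    have t4 := G.thpos _ _ (G.int1 _ _ hbP hb hyD)
    linarith

/-! ### a disc face: one cycle -/

theorem rank90 {C : G.adj.ConnectedComponent} {T1 : Finset V} (hT1 : T1 ∈ G.cT C) :
    ∃ r : Finset V → ℕ, ∀ T ∈ G.cT C, T ≠ T1 →
      ∃ x ∈ G.cI C, G.tri x = T ∧ r (G.tri (x.2, x.1)) < r T := by
  have hcl : ∀ T ∈ G.cT C, G.adj.connectedComponentMk T = C := by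
    intro T hT
    unfold Tg.cT at hT
    obtain ⟨x, hx, rfl⟩ := Finset.mem_image.1 hT
    rw [Finset.mem_filter] at hx
    exact hx.2
  refine ⟨fun T => G.adj.dist T T1, fun T hT hne => ?_⟩
  have hre : G.adj.Reachable T T1 :=
    SimpleGraph.ConnectedComponent.exact ((hcl T hT).trans (hcl T1 hT1).symm)
  obtain ⟨p, hp⟩ := hre.exists_walk_length_eq_dist
  cases p with
  | nil => exact absurd rfl hne
  | @cons _ T' _ h q =>
    rw [SimpleGraph.Walk.length_cons] at hp
    have h2 : G.adj.dist T' T1 ≤ q.length := SimpleGraph.dist_le q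
    obtain ⟨_, a, b, h3, h4, h5, h6, h7⟩ := h
    refine ⟨(a, b), ?_, h6, ?_⟩
    · unfold Tg.cI
      rw [Finset.mem_filter]
      refine ⟨h3, ?_, h5, h4⟩
      unfold Tg.cl
      rw [h6]
      exact hcl T hT
    · dsimp only
      rw [h7]
      omega

/-- a function of the darts of a disc face that is invariant under `x -> the next dart of the
boundary walk` is constant -/
theorem const90 {C : G.adj.ConnectedComponent} (hB : G.cB C = ∅)
    (hd : (G.cI C).card + 2 = 2 * (G.cT C).card) (Z : V × V → Prop)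
    (h1 : ∀ x ∈ G.cD C, G.con x.1 x.2 → (Z x ↔ Z (x.2, G.ap x.1 x.2)))
    (h2 : ∀ x ∈ G.cI C, (Z x ↔ Z (x.1, G.ap x.2 x.1))) :
    ∀ x ∈ G.cD C, ∀ y ∈ G.cD C, (Z x ↔ Z y) := by
  obtain ⟨A, hA⟩ : ∃ A, A = (G.cI C).filter (fun x => ¬ (Z x ↔ Z (x.2, G.ap x.1 x.2))) :=
    ⟨_, rfl⟩
  have hmA : ∀ x, x ∈ A ↔ x ∈ G.cI C ∧ ¬ (Z x ↔ Z (x.2, G.ap x.1 x.2)) := by
    intro x
    rw [hA, Finset.mem_filter]
  have hA0 : A = ∅ := by
    apply flow90 (G.cI C) G.tri (fun x => (x.2, x.1)) (G.cT C)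
    · intro x hx
      exact swap_cD66 G hx
    · intro x _
      rfl
    · intro x hx
      exact mem_cT66 G (cI_sub11 G hx)
    · intro T1 hT1
      exact rank90 G hT1
    · omega
    · intro x hx
      exact ((hmA x).1 hx).1
    · intro x hx
      obtain ⟨h3, h4⟩ := (hmA x).1 hx
      refine (hmA _).2 ⟨swap_cD66 G h3, ?_⟩
      have h5 := h2 x h3
      have h6 := h2 _ (swap_cD66 G h3)
      dsimp only at h6 ⊢
      intro h7
      apply h4
      rw [← h6, h7]
      exact h5
    · intro x hx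
      obtain ⟨h3, h4⟩ := (hmA x).1 hx
      have hxD := cI_sub11 G h3
      have hxp := ((mem_cD66 G).1 hxD).1
      have n1 := G.ne _ _ (G.sub hxp)
      have n3 := G.ne _ _ (G.sub (G.ap2 _ _ hxp))
      have r1 := rot_cD66 G hxD
      have r2 := rot_cD66' G hxD
      -- the equality at a dart outside `A`
      have hout : ∀ y ∈ G.cD C, y ∉ A → (Z y ↔ Z (y.2, G.ap y.1 y.2)) := by
        intro y hy hyA
        by_cases hc : G.con y.1 y.2
        · exact h1 y hy hc
        · have h5 := mem_cI11 G hB hy hc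
          by_contra h6
          exact hyA ((hmA y).2 ⟨h5, h6⟩)
      by_cases hA1 : (x.2, G.ap x.1 x.2) ∈ A
      · exact ⟨_, hA1, fun h => n1 (congrArg Prod.fst h).symm, tri_rot66 G hxp⟩
      · by_cases hA2 : (G.ap x.1 x.2, x.1) ∈ A
        · exact ⟨_, hA2, fun h => n3 (congrArg Prod.fst h), tri_rot66' G hxp⟩
        · exfalso
          have h5 := hout _ r1 hA1
          have h6 := hout _ r2 hA2
          dsimp only at h5 h6
          rw [G.ap3 _ _ hxp] at h5
          rw [G.ap4 _ _ hxp] at h6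
          exact h4 (h6.symm.trans h5.symm)
  -- invariance under rotation and swap
  have hrot : ∀ x ∈ G.cD C, (Z x ↔ Z (x.2, G.ap x.1 x.2)) := by
    intro y hy
    by_cases hc : G.con y.1 y.2
    · exact h1 y hy hc
    · have h5 := mem_cI11 G hB hy hc
      by_contra h6
      have h7 := (hmA y).2 ⟨h5, h6⟩
      rw [hA0] at h7
      exact absurd h7 (Finset.notMem_empty _)
  have hrot2 : ∀ x ∈ G.cD C, ∀ y ∈ G.cD C, G.tri x = G.tri y → (Z x ↔ Z y) := by
    intro x hx y hy h
    have hxp := ((mem_cD66 G).1 hx).1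
    have hyp := ((mem_cD66 G).1 hy).1
    rcases (tri_eq_iff G hxp hyp).1 h with h3 | h3 | h3
    · rw [h3]
    · rw [h3]
      exact hrot x hx
    · rw [h3]
      have h5 := hrot _ (rot_cD66' G hx)
      dsimp only at h5
      rw [G.ap4 _ _ hxp] at h5
      exact h5.symm
  have hswap : ∀ x ∈ G.cI C, (Z x ↔ Z (x.2, x.1)) := by
    intro x hx
    have h3 := h2 x hx
    have h4 := hrot _ (cI_sub11 G (swap_cD66 G hx))
    dsimp only at h4
    exact h3.trans h4.symm
  have hwalk : ∀ (T T' : Finset V) (p : G.adj.Walk T T'), ∀ x ∈ G.cD C, ∀ y ∈ G.cD C,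
      G.tri x = T → G.tri y = T' → (Z x ↔ Z y) := by
    intro T T' p
    induction p with
    | nil =>
      intro x hx y hy h3 h4
      exact hrot2 x hx y hy (h3.trans h4.symm)
    | cons h q ih =>
      intro x hx y hy h3 h4
      obtain ⟨_, a, b, k3, k4, k5, k6, k7⟩ := h
      have hab : (a, b) ∈ G.cD C := by
        rw [mem_cD66] at hx ⊢
        refine ⟨k3, ?_⟩
        rw [← hx.2]
        unfold Tg.cl
        rw [k6, h3]
      have habI := mem_cI11 G hB hab k5
      have hba := cI_sub11 G (swap_cD66 G habI)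
      exact (hrot2 x hx _ hab (h3.trans k6.symm)).trans
        ((hswap _ habI).trans (ih _ hba y hy k7 h4))
  intro x hx y hy
  have hre : G.adj.Reachable (G.tri x) (G.tri y) :=
    SimpleGraph.ConnectedComponent.exact
      ((((mem_cD66 G).1 hx).2).trans (((mem_cD66 G).1 hy).2).symm)
  obtain ⟨p⟩ := hre
  exact hwalk _ _ p x hx y hy rfl rfl

/-- transitivity of `sg` on the contact darts of a disc face -/
theorem trans90 (hG : G.Geo4 al kp U) {C : G.adj.ConnectedComponent} (hC : C ∈ G.iC)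
    (hd : (G.cI C).card + 2 = 2 * (G.cT C).card) (O : Finset (V × V)) (hO : O ⊆ G.cJ C)
    (hne : O.Nonempty) (hinv : ∀ x ∈ O, sg G x ∈ O) : O = G.cJ C := by
  have hB := cB_of_iC66 G hC
  have himg : O.image (sg G) = O := by
    apply Finset.eq_of_subset_of_card_le
    · intro y hy
      obtain ⟨x, hx, rfl⟩ := Finset.mem_image.1 hy
      exact hinv x hx
    · rw [Finset.card_image_of_injOn]
      intro x hx y hy h
      exact sg_injC90 G hG hC _ (hO (Finset.mem_coe.1 hx)) _ (hO (Finset.mem_coe.1 hy)) h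
  have hinv' : ∀ x ∈ G.cJ C, (x ∈ O ↔ sg G x ∈ O) := by
    intro x hx
    refine ⟨hinv x, fun h => ?_⟩
    rw [← himg] at h
    obtain ⟨y, hy, hyx⟩ := Finset.mem_image.1 h
    rw [← sg_injC90 G hG hC _ (hO hy) _ hx hyx]
    exact hy
  have hJD : ∀ x ∈ G.cJ C, x ∈ G.cD C ∧ G.con x.1 x.2 := by
    intro x hx
    unfold Tg.cJ at hx
    rw [Finset.mem_filter] at hx
    exact ⟨(mem_cD66 G).2 ⟨hx.1, hx.2.1⟩, hx.2.2⟩
  have hDJ : ∀ x ∈ G.cD C, G.con x.1 x.2 → x ∈ G.cJ C := by
    intro x hx hc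
    rw [mem_cD66] at hx
    unfold Tg.cJ
    rw [Finset.mem_filter]
    exact ⟨hx.1, hx.2, hc⟩
  have hinnD : ∀ x ∈ G.cD C, G.inn x := by
    intro x hx
    rw [mem_cD66] at hx
    exact ⟨hx.1, by rw [hx.2]; exact hB⟩
  have hog : ∀ x : V × V, G.con x.1 x.2 → G.og x.1 x.2 = x.2 := by
    intro x hc
    have hO2 : G.HasO x.1 x.2 := ⟨0, hc⟩
    have : Nat.find hO2 = 0 := by
      rw [Nat.find_eq_zero]
      exact hc
    rw [og_eq51 G hO2, this]
    rfl
  have key := const90 G hB hd (fun x => (x.1, G.og x.1 x.2) ∈ O) (by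
    intro x hx hc
    dsimp only
    rw [hog x hc]
    exact hinv' x (hDJ x hx hc)) (by
    intro x hx
    have hx2 := cI_sub11 G hx
    have hnc : ¬ G.con x.1 x.2 := by
      unfold Tg.cI at hx
      rw [Finset.mem_filter] at hx
      exact hx.2.2.1
    have hO2 : G.HasO x.1 x.2 := W4.hasO71 G hG (hinnD x hx2)
    have e := og_bk51 G hO2 hnc
    unfold Tg.bk at e
    dsimp only
    rw [e])
  obtain ⟨x0, hx0⟩ := hne
  apply Finset.Subset.antisymm hO
  intro y hy
  obtain ⟨h3, h4⟩ := hJD y hy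
  obtain ⟨h5, h6⟩ := hJD x0 (hO hx0)
  have h7 := (key x0 h5 y h3).1 (by
    rw [hog x0 h6]
    exact hx0)
  rw [hog y h4] at h7
  exact h7

/-- **the contact darts of a disc face form one cycle of `sg`** -/
theorem orb90 (hG : G.Geo4 al kp U) {C : G.adj.ConnectedComponent} (hC : C ∈ G.iC)
    (hd : (G.cI C).card + 2 = 2 * (G.cT C).card) {x : V × V} (hx : x ∈ G.cJ C) :
    (Finset.range (G.cJ C).card).image (fun i => (sg G)^[i] x) = G.cJ C ∧
      (sg G)^[(G.cJ C).card] x = x :=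
  cyc90 (f := sg G) (fun _ h => sg_cJ90 G hG hC h) (sg_injC90 G hG hC) (trans90 G hG hC hd) hx

/-- the same without the disc hypothesis, for five contact darts -/
theorem orb5_90 (hG : G.Geo4 al kp U) {C : G.adj.ConnectedComponent} (hC : C ∈ G.iC)
    (h5 : (G.cJ C).card = 5) {x : V × V} (hx : x ∈ G.cJ C) :
    (Finset.range (G.cJ C).card).image (fun i => (sg G)^[i] x) = G.cJ C ∧
      (sg G)^[(G.cJ C).card] x = x :=
  cyc90 (f := sg G) (fun _ h => sg_cJ90 G hG hC h) (sg_injC90 G hG hC)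
    (cyc5_90 (f := sg G) (fun _ h => sg_cJ90 G hG hC h) (sg_injC90 G hG hC)
      (fun _ h => sg_ne90 G (cJ_iJ51 G hC h).1) (fun _ h => sg2_ne90 G hG (cJ_iJ51 G hC h).1)
      h5) hx

/-- distinctness from the orbit form -/
theorem orb_inj90 {C : G.adj.ConnectedComponent} {x : V × V}
    (h : (Finset.range (G.cJ C).card).image (fun i => (sg G)^[i] x) = G.cJ C) {i j : ℕ}
    (hi : i < (G.cJ C).card) (hj : j < (G.cJ C).card) (hij : (sg G)^[i] x = (sg G)^[j] x) :
    i = j := by
  have h1 : ((Finset.range (G.cJ C).card).image (fun i => (sg G)^[i] x)).card =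
      (Finset.range (G.cJ C).card).card := by
    rw [h, Finset.card_range]
  have h2 := Finset.card_image_iff.1 h1
  exact h2 (Finset.mem_coe.2 (Finset.mem_range.2 hi)) (Finset.mem_coe.2 (Finset.mem_range.2 hj)) hij

/-- (b) five contact darts -/
theorem five90 (hG : G.Geo4 al kp U) {C : G.adj.ConnectedComponent} (hC : C ∈ WF G)
    (h5 : (G.cJ C).card = 5) {x : V × V} (hx : x ∈ G.cJ C) :
    G.cJ C = {x, sg G x, sg G (sg G x), sg G (sg G (sg G x)), sg G (sg G (sg G (sg G x)))} ∧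
      sg G (sg G (sg G (sg G (sg G x)))) = x := by
  obtain ⟨h1, h2⟩ := orb5_90 G hG ((mem_WF89 G).1 hC).1 h5 hx
  rw [h5] at h1 h2
  refine ⟨?_, h2⟩
  rw [← h1]
  ext y
  simp only [Finset.mem_image, Finset.mem_range, Finset.mem_insert, Finset.mem_singleton]
  constructor
  · rintro ⟨i, hi, rfl⟩
    interval_cases i <;> simp [Function.iterate_succ_apply']
  · rintro (h | h | h | h | h)
    · exact ⟨0, by norm_num, h.symm⟩
    · exact ⟨1, by norm_num, h.symm⟩
    · exact ⟨2, by norm_num, h.symm⟩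
    · exact ⟨3, by norm_num, h.symm⟩
    · exact ⟨4, by norm_num, h.symm⟩

/-- (c) six contact darts in a disc -/
theorem six90 (hG : G.Geo4 al kp U) {C : G.adj.ConnectedComponent} (hC : C ∈ WF G)
    (hd : (G.cI C).card + 2 = 2 * (G.cT C).card)
    (h6 : (G.cJ C).card = 6) {x : V × V} (hx : x ∈ G.cJ C) :
    G.cJ C = {x, sg G x, sg G (sg G x), sg G (sg G (sg G x)), sg G (sg G (sg G (sg G x))),
      sg G (sg G (sg G (sg G (sg G x))))} ∧
      sg G (sg G (sg G (sg G (sg G (sg G x))))) = x := by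
  obtain ⟨h1, h2⟩ := orb90 G hG ((mem_WF89 G).1 hC).1 hd hx
  rw [h6] at h1 h2
  refine ⟨?_, h2⟩
  rw [← h1]
  ext y
  simp only [Finset.mem_image, Finset.mem_range, Finset.mem_insert, Finset.mem_singleton]
  constructor
  · rintro ⟨i, hi, rfl⟩
    interval_cases i <;> simp [Function.iterate_succ_apply']
  · rintro (h | h | h | h | h | h)
    · exact ⟨0, by norm_num, h.symm⟩
    · exact ⟨1, by norm_num, h.symm⟩
    · exact ⟨2, by norm_num, h.symm⟩
    · exact ⟨3, by norm_num, h.symm⟩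
    · exact ⟨4, by norm_num, h.symm⟩
    · exact ⟨5, by norm_num, h.symm⟩

/-- (c) seven contact darts in a disc -/
theorem seven90 (hG : G.Geo4 al kp U) {C : G.adj.ConnectedComponent} (hC : C ∈ WF G)
    (hd : (G.cI C).card + 2 = 2 * (G.cT C).card)
    (h7 : (G.cJ C).card = 7) {x : V × V} (hx : x ∈ G.cJ C) :
    G.cJ C = {x, sg G x, sg G (sg G x), sg G (sg G (sg G x)), sg G (sg G (sg G (sg G x))),
      sg G (sg G (sg G (sg G (sg G x)))), sg G (sg G (sg G (sg G (sg G (sg G x)))))} ∧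
      sg G (sg G (sg G (sg G (sg G (sg G (sg G x)))))) = x := by
  obtain ⟨h1, h2⟩ := orb90 G hG ((mem_WF89 G).1 hC).1 hd hx
  rw [h7] at h1 h2
  refine ⟨?_, h2⟩
  rw [← h1]
  ext y
  simp only [Finset.mem_image, Finset.mem_range, Finset.mem_insert, Finset.mem_singleton]
  constructor
  · rintro ⟨i, hi, rfl⟩
    interval_cases i <;> simp [Function.iterate_succ_apply']
  · rintro (h | h | h | h | h | h | h)
    · exact ⟨0, by norm_num, h.symm⟩
    · exact ⟨1, by norm_num, h.symm⟩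
    · exact ⟨2, by norm_num, h.symm⟩
    · exact ⟨3, by norm_num, h.symm⟩
    · exact ⟨4, by norm_num, h.symm⟩
    · exact ⟨5, by norm_num, h.symm⟩
    · exact ⟨6, by norm_num, h.symm⟩

/-- a disc face with `m` contact darts has `m - 2` triangles -/
theorem disc90 {C : G.adj.ConnectedComponent} (hC : C ∈ G.iC)
    (hd : (G.cI C).card + 2 = 2 * (G.cT C).card) :
    (G.cJ C).card = (G.cT C).card + 2 ∧ (G.cI C).card + 6 = 2 * (G.cJ C).card := by
  have h1 := card_split66 G C
  rw [cB_of_iC66 G hC, Finset.card_empty] at h1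
  omega

end

end Pool.Agent.PEN.E5
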