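import Pool.Agent.E5.Bs15
import Pool.Agent.E5.Pc19
import Pool.Agent.E5.R13_90

/-! # PENNY, all small diameters: the pentagon with 12 units -/

set_option autoImplicit false

namespace Pool.Agent.PEN.E5

open Classical UpperHalfPlane
open Pool.Agent.PEN.Cl

noncomputable section

variable {G : Tg ℍ} {d : ℝ} {kp : ℍ → ℍ → ℝ} {U : ℕ → ℝ}

/-- the pattern `(2, 2, 3, 2, 3)` from the corner `x`: `x`, `sg x` are the ends of the weak edge -/
def Pat39 (G : Tg ℍ) (d : ℝ) (x : ℍ × ℍ) : Prop :=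
  un G (alpha d) x = 2 ∧ un G (alpha d) (sg G x) = 2 ∧
    un G (alpha d) (sg G (sg G x)) = 3 ∧ un G (alpha d) (sg G (sg G (sg G x))) = 2 ∧
    un G (alpha d) (sg G (sg G (sg G (sg G x)))) = 3

/-- **the pentagon with 12 units**: corners in order, only the edge `x` can be weak -/
theorem p12_39 (hG : G.Geo4 (alpha d) kp U) (hD : DelG G d) (hS : Sep d G.P)
    {C : G.adj.ConnectedComponent} (hC : C ∈ WF G)
    (hm : (G.cT C).card = 3) (hI : (G.cI C).card = 4) (hU : 12 ≤ uf G (alpha d) C) :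
    ka G (alpha d) C = 1 ∧ qa G C = 1 ∧ ∃ x ∈ G.cJ C, Pat39 G d x ∧
      G.cJ C = {x, sg G x, sg G (sg G x), sg G (sg G (sg G x)), sg G (sg G (sg G (sg G x)))} ∧
      sg G (sg G (sg G (sg G (sg G x)))) = x ∧ Wk G (alpha d) C ⊆ {x} := by
  have hCi := ((mem_WF89 G).1 hC).1
  obtain ⟨c1, c2⟩ := pent_class19 hG hD hS hCi hm hI
  have hU' : 12 ≤ ∑ x ∈ G.cJ C, un G (alpha d) x := hU
  obtain ⟨x, hx, hp⟩ := c2 hU'
  have hm5 : (G.cJ C).card = 5 := by
    have := m_eq46 G hCi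
    omega
  obtain ⟨hJ, hcy⟩ := five90 G hG hC hm5 hx
  have hUe : ∑ x ∈ G.cJ C, un G (alpha d) x = 12 := le_antisymm c1 hU'
  refine ⟨?_, ?_, x, hx, hp, hJ, hcy, ?_⟩
  · have h1 : (∑ x ∈ G.cJ C, (un G (alpha d) x : ℝ)) = 12 := by exact_mod_cast hUe
    unfold ka
    rw [h1, hm, hI]
    norm_num
  · unfold qa
    rw [hm, hI]
    norm_num
  · intro y hy
    obtain ⟨h1, h2⟩ := Finset.mem_filter.1 hy
    have hs := (pent_units19 hG hD hS hCi hm hI h1).str
    obtain ⟨p1, p2, p3, p4, p5⟩ := hp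
    rw [hJ] at h1
    simp only [Finset.mem_insert, Finset.mem_singleton] at h1
    rw [Finset.mem_singleton]
    rcases h1 with h | h | h | h | h
    · exact h
    · exfalso
      have := hs (by rw [h]; omega)
      linarith
    · exfalso
      have := hs (by rw [h]; omega)
      linarith
    · exfalso
      have := hs (by rw [h]; omega)
      linarith
    · exfalso
      have := hs (by rw [h, hcy]; omega)
      linarith

/-- sums over the corners of the pentagon -/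
theorem sum_p39 (f : ℍ × ℍ → ℝ) (hf : ∀ x, 0 ≤ f x) {C : G.adj.ConnectedComponent} {x : ℍ × ℍ}
    (hJ : G.cJ C = {x, sg G x, sg G (sg G x), sg G (sg G (sg G x)),
      sg G (sg G (sg G (sg G x)))}) :
    ∑ y ∈ G.cJ C, f y ≤ f x + (f (sg G x) + (f (sg G (sg G x)) + (f (sg G (sg G (sg G x))) +
      f (sg G (sg G (sg G (sg G x))))))) := by
  have hi : ∀ (a : ℍ × ℍ) (s : Finset (ℍ × ℍ)), ∑ y ∈ insert a s, f y ≤ f a + ∑ y ∈ s, f y := by
    intro a s
    by_cases h : a ∈ s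
    · rw [Finset.insert_eq_of_mem h]
      linarith [hf a]
    · rw [Finset.sum_insert h]
  rw [hJ]
  refine (hi _ _).trans (add_le_add le_rfl ?_)
  refine (hi _ _).trans (add_le_add le_rfl ?_)
  refine (hi _ _).trans (add_le_add le_rfl ?_)
  refine (hi _ _).trans (add_le_add le_rfl ?_)
  rw [Finset.sum_singleton]

/-- **the row of the pentagon with 12 units**: weights `p` with `p ≤ u - 2` -/
theorem p12_row39 (hG : G.Geo4 (alpha d) kp U) (hD : DelG G d) (hS : Sep d G.P)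
    {C : G.adj.ConnectedComponent} (hC : C ∈ WF G)
    (hm : (G.cT C).card = 3) (hI : (G.cI C).card = 4) (hU : 12 ≤ uf G (alpha d) C)
    (p : ℍ × ℍ → ℝ) (hp0 : ∀ x, 0 ≤ p x) (hp : ∀ x ∈ G.cJ C, p x ≤ un G (alpha d) x - 2)
    {Λ : ℝ} (hΛ : 7 ≤ Λ) :
    4 * ((Wk G (alpha d) C).card : ℝ) + ∑ x ∈ G.cJ C, p x ≤
      (Λ + 5) * ka G (alpha d) C - 6 * qa G C := by
  obtain ⟨hk, hq, x, hx, ⟨p1, p2, p3, p4, p5⟩, hJ, hcy, hW⟩ := p12_39 hG hD hS hC hm hI hU
  have hc : ((Wk G (alpha d) C).card : ℝ) ≤ 1 := by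
    have := Finset.card_le_card hW
    rw [Finset.card_singleton] at this
    exact_mod_cast this
  have h0 := sum_p39 p hp0 hJ
  have m1 : sg G x ∈ G.cJ C := sg_cJ19 hG ((mem_WF89 G).1 hC).1 hx
  have m2 := sg_cJ19 hG ((mem_WF89 G).1 hC).1 m1
  have m3 := sg_cJ19 hG ((mem_WF89 G).1 hC).1 m2
  have m4 := sg_cJ19 hG ((mem_WF89 G).1 hC).1 m3
  have a0 := hp _ hx
  have a1 := hp _ m1
  have a2 := hp _ m2
  have a3 := hp _ m3
  have a4 := hp _ m4
  rw [p1] at a0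
  rw [p2] at a1
  rw [p3] at a2
  rw [p4] at a3
  rw [p5] at a4
  push_cast at a0 a1 a2 a3 a4
  rw [hk, hq]
  linarith

end

end Pool.Agent.PEN.E5
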