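import Pool.Agent.E5.Mass61
import Pool.Agent.E5.Fg46
import Pool.Agent.E5.R13_90

/-! # PENNY: the discs pay for their weak sides and centres (helper61) -/

set_option autoImplicit false

namespace Pool.Agent.PEN.E5

open Finset

section
variable {m Γ : ℕ} {h : ℕ → ℝ} {wk : ℕ → Prop} [DecidablePred wk]

/-- one weak side `0` and mass at most two: a centre is at corner `2` or `m - 1` -/
theorem centre_pos61 (h0 : ∀ i, 0 ≤ h i) (hs : ∑ i ∈ range m, h i ≤ 2)
    (hw0 : 1 < h 0 + h 1) {j : ℕ} (hj1 : 3 ≤ j) (hj2 : j + 2 ≤ m)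
    (hj : 1 < h (j - 1) + h j + h (j + 1)) : False := by
  have e1 : insert 0 (insert 1 (insert (j - 1) (insert j {j + 1}))) ⊆ range m := by
    intro i hi
    simp only [Finset.mem_insert, Finset.mem_singleton] at hi
    rw [Finset.mem_range]
    omega
  have e2 := Finset.sum_le_sum_of_subset_of_nonneg (f := h) e1 (fun i _ _ => h0 _)
  rw [Finset.sum_insert (by simp only [Finset.mem_insert, Finset.mem_singleton]; omega),
    Finset.sum_insert (by simp only [Finset.mem_insert, Finset.mem_singleton]; omega),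
    Finset.sum_insert (by simp only [Finset.mem_insert, Finset.mem_singleton]; omega),
    Finset.sum_insert (by simp only [Finset.mem_singleton]; omega),
    Finset.sum_singleton] at e2
  linarith

/-- one weak side `0`, mass at most two, `m ≥ 6`: not both `2` and `m - 1` are centres -/
theorem two_centres61 (hm : 6 ≤ m) (h0 : ∀ i, 0 ≤ h i) (hs : ∑ i ∈ range m, h i ≤ 2)
    (h2 : 1 < h 1 + h 2 + h 3) (h3 : 1 < h (m - 2) + h (m - 1) + h 0) : False := by
  have e1 : insert 0 (insert 1 (insert 2 (insert 3 (insert (m - 2) {m - 1})))) ⊆ range m := by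
    intro i hi
    simp only [Finset.mem_insert, Finset.mem_singleton] at hi
    rw [Finset.mem_range]
    omega
  have e2 := Finset.sum_le_sum_of_subset_of_nonneg (f := h) e1 (fun i _ _ => h0 _)
  rw [Finset.sum_insert (by simp only [Finset.mem_insert, Finset.mem_singleton]; omega),
    Finset.sum_insert (by simp only [Finset.mem_insert, Finset.mem_singleton]; omega),
    Finset.sum_insert (by simp only [Finset.mem_insert, Finset.mem_singleton]; omega),
    Finset.sum_insert (by simp only [Finset.mem_insert, Finset.mem_singleton]; omega),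
    Finset.sum_insert (by simp only [Finset.mem_singleton]; omega),
    Finset.sum_singleton] at e2
  linarith

end

open Classical UpperHalfPlane
open Pool.Agent.PEN.Cl

noncomputable section

variable {V : Type} (G : Tg V) {al : ℝ} {kp : V → V → ℝ} {U : ℕ → ℝ}

/-- cyclic numbering of the corners of a disc -/
theorem num61 (hG : G.Geo4 al kp U) {C : G.adj.ConnectedComponent} (hC : C ∈ G.iC)
    (hd : (G.cI C).card + 2 = 2 * (G.cT C).card) {x : V × V} (hx : x ∈ G.cJ C) :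
    (∀ i, (sg G)^[i] x ∈ G.cJ C) ∧ (∀ i, (sg G)^[i + (G.cJ C).card] x = (sg G)^[i] x) ∧
    (∀ y ∈ G.cJ C, ∃ i < (G.cJ C).card, (sg G)^[i] x = y) ∧
    (∀ f : V × V → ℝ, ∑ y ∈ G.cJ C, f y = ∑ i ∈ range (G.cJ C).card, f ((sg G)^[i] x)) := by
  obtain ⟨h1, h2⟩ := orb90 G hG hC hd hx
  have hmem : ∀ i, (sg G)^[i] x ∈ G.cJ C :=
    fun i => iter_mem90 (f := sg G) (fun _ h => sg_cJ90 G hG hC h) hx i
  refine ⟨hmem, ?_, ?_, ?_⟩
  · intro i
    rw [Function.iterate_add_apply, h2]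
  · intro y hy
    rw [← h1] at hy
    obtain ⟨i, hi, rfl⟩ := Finset.mem_image.1 hy
    exact ⟨i, Finset.mem_range.1 hi, rfl⟩
  · intro f
    conv_lhs => rw [← h1]
    rw [Finset.sum_image]
    intro i hi j hj hij
    exact orb_inj90 G h1 (Finset.mem_range.1 (Finset.mem_coe.1 hi))
      (Finset.mem_range.1 (Finset.mem_coe.1 hj)) hij

/-- counting by the numbering -/
theorem num_card61 (hG : G.Geo4 al kp U) {C : G.adj.ConnectedComponent} (hC : C ∈ G.iC)
    (hd : (G.cI C).card + 2 = 2 * (G.cT C).card) {x : V × V} (hx : x ∈ G.cJ C)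
    (Q : V × V → Prop) :
    ((G.cJ C).filter Q).card = ((range (G.cJ C).card).filter fun i => Q ((sg G)^[i] x)).card := by
  have h := (num61 G hG hC hd hx).2.2.2 (fun y => if Q y then 1 else 0)
  rw [← Finset.sum_filter, ← Finset.sum_filter] at h
  simp only [Finset.sum_const, nsmul_eq_mul, mul_one] at h
  exact_mod_cast h

/-- a centre corner `z` of a white face: both its sides are strong and the three gaps around it have
sum below two -/
def Cen61 (al : ℝ) (z : V × V) : Prop :=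
  ∃ y ∈ iJ G, sg G y = z ∧ 0 ≤ sp G al y ∧ 0 ≤ sp G al z ∧
    gc G al y + gc G al z + gc G al (sg G z) < 2

/-- the combinatorial content of the mass lemma, for a disc -/
theorem disc_mass61 (hG : G.Geo4 al kp U) (hT : ∀ x ∈ BC G, al ≤ TH G x)
    {C : G.adj.ConnectedComponent} (hC : C ∈ WF G) (hd : (G.cI C).card + 2 = 2 * (G.cT C).card)
    (hm : 5 ≤ (G.cJ C).card) {Ce : Finset (V × V)} (hCe : Ce ⊆ G.cJ C)
    (hce : ∀ z ∈ Ce, Cen61 G al z) {Γ : ℕ} (hΓ : uf G al C + Γ + 6 = 4 * (G.cJ C).card) :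
    1 ≤ Γ ∧ (Γ = 1 → (Wk G al C).card = 0 ∧ Ce = ∅) ∧
    ((Wk G al C).card + 2 ≤ 2 * Γ ∨ (Wk G al C).card = 0 ∨
      ((Wk G al C).card = (G.cJ C).card ∧ (G.cJ C).card + 1 ≤ 2 * Γ)) ∧
    (Wk G al C).card ≤ (G.cJ C).card ∧
    ((G.cJ C).card ≤ (Wk G al C).card + 1 → Ce = ∅) ∧
    ((Wk G al C).card + 2 = 2 * Γ → (Wk G al C).card + 2 ≠ (G.cJ C).card → Ce = ∅) ∧
    (6 ≤ (G.cJ C).card → Γ = 2 → (Wk G al C).card = 1 → Ce.card ≤ 1) := by
  have hCi := ((mem_WF89 G).1 hC).1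
  obtain ⟨m, hmm⟩ : ∃ m, m = (G.cJ C).card := ⟨_, rfl⟩
  have hle : ∀ y ∈ G.cJ C, gc G al y ≤ 1 := fun y hy =>
    gc_le_one46 G hG (BC_of_WF46 G hC hy) (hT y (BC_of_WF46 G hC hy))
  have hdm := disc_m46 G hCi hd
  have hufl := disc_uf46 G hG hT hC hd
  have hmass : ∑ y ∈ G.cJ C, (1 - gc G al y) ≤ (Γ : ℝ) := by
    have h1 := sum_cgap46 G hG hCi
    have h2 : ((uf G al C + Γ + 6 : ℕ) : ℝ) = ((4 * (G.cJ C).card : ℕ) : ℝ) := by rw [hΓ]
    have h3 : ((G.cJ C).card : ℝ) = (G.cT C).card + 2 := by exact_mod_cast hdm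
    push_cast at h2
    linarith
  -- general numbering facts
  have gen : ∀ x ∈ G.cJ C,
      (∀ i, 0 ≤ 1 - gc G al ((sg G)^[i] x)) ∧
      (∀ i, 1 - gc G al ((sg G)^[i + m] x) = 1 - gc G al ((sg G)^[i] x)) ∧
      (∑ i ∈ range m, (1 - gc G al ((sg G)^[i] x)) ≤ (Γ : ℝ)) ∧
      (∀ i, (sp G al ((sg G)^[i + m] x) < 0 ↔ sp G al ((sg G)^[i] x) < 0)) ∧
      (∀ i, sp G al ((sg G)^[i] x) < 0 →
        1 < (1 - gc G al ((sg G)^[i] x)) + (1 - gc G al ((sg G)^[i + 1] x))) := by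
    intro x hx
    obtain ⟨n1, n2, n3, n4⟩ := num61 G hG hCi hd hx
    refine ⟨fun i => by linarith [hle _ (n1 i)], fun i => by rw [hmm, n2 i], ?_,
      fun i => by rw [hmm, n2 i], ?_⟩
    · rw [hmm, ← n4 (fun y => 1 - gc G al y)]
      exact hmass
    · intro i hi
      unfold sp at hi
      rw [Function.iterate_succ_apply']
      linarith
  have hWkc : ∀ x ∈ G.cJ C, (Wk G al C).card =
      ((range m).filter fun i => sp G al ((sg G)^[i] x) < 0).card := by
    intro x hx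
    rw [hmm]
    exact num_card61 G hG hCi hd hx (fun y => sp G al y < 0)
  -- a centre
  have cen : ∀ z ∈ Ce, ∃ x ∈ G.cJ C, sg G x = z ∧ 0 ≤ sp G al x ∧ 0 ≤ sp G al z ∧
      gc G al x + gc G al z + gc G al (sg G z) < 2 := by
    intro z hz
    obtain ⟨y, hy, hyz, h1, h2, h3⟩ := hce z hz
    refine ⟨y, ?_, hyz, h1, h2, h3⟩
    -- `y` is in the class of `z`
    have h4 := (W4.sg_mem51 G hG hy).2
    rw [hyz] at h4
    have h5 := (cJ_iJ51 G hCi (hCe hz)).2
    rw [← iJ_fiber71 G hCi, Finset.mem_filter]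
    exact ⟨hy, by rw [← h4, h5]⟩
  have cfact : ∀ z ∈ Ce, (Wk G al C).card + 2 ≤ m ∧ 2 ≤ Γ ∧
      ((Wk G al C).card + 3 ≤ 2 * Γ ∨ (Wk G al C).card + 2 = m) := by
    intro z hz
    obtain ⟨x, hx, hxz, h1, h2, h3⟩ := cen z hz
    obtain ⟨g1, g2, g3, g4, g5⟩ := gen x hx
    have := mass_centre61 (m := m) (Γ := Γ) (h := fun i => 1 - gc G al ((sg G)^[i] x))
      (wk := fun i => sp G al ((sg G)^[i] x) < 0) (by omega) g2 g1 g3 g4 g5 (k := 0)
      (by simpa using h1) (by
        rw [zero_add, Function.iterate_one, hxz]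
        exact not_lt.2 h2) (by
        have e0 : (sg G)^[0] x = x := rfl
        have e1 : (sg G)^[0 + 1] x = z := by rw [zero_add, Function.iterate_one, hxz]
        have e2 : (sg G)^[0 + 2] x = sg G z := by
          rw [zero_add, Function.iterate_succ_apply', Function.iterate_one, hxz]
        rw [e0, e1, e2]
        linarith)
    rw [hWkc x hx]
    exact this
  obtain ⟨x0, hx0⟩ : (G.cJ C).Nonempty := Finset.card_pos.1 (by omega)
  obtain ⟨g1, g2, g3, g4, g5⟩ := gen x0 hx0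
  have w1 := mass_weak61 (m := m) (Γ := Γ) (h := fun i => 1 - gc G al ((sg G)^[i] x0))
    (wk := fun i => sp G al ((sg G)^[i] x0) < 0) g2 g1 g3 g4 g5
  rw [← hWkc x0 hx0] at w1
  rw [← hmm]
  have hWle : (Wk G al C).card ≤ m := by
    rw [hmm]
    exact Finset.card_le_card (Finset.filter_subset _ _)
  refine ⟨by omega, ?_, by tauto, hWle, ?_, ?_, ?_⟩
  · intro hΓ1
    refine ⟨by omega, ?_⟩
    rcases Ce.eq_empty_or_nonempty with h | ⟨z, hz⟩
    · exact h
    · have := cfact z hz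
      omega
  · intro h1
    rcases Ce.eq_empty_or_nonempty with h | ⟨z, hz⟩
    · exact h
    · have := cfact z hz
      omega
  · intro h1 h2
    rcases Ce.eq_empty_or_nonempty with h | ⟨z, hz⟩
    · exact h
    · have := cfact z hz
      omega
  · intro h6 hΓ2 hW1
    by_contra hcard
    push Not at hcard
    obtain ⟨z1, hz1, z2, hz2, hne⟩ := Finset.one_lt_card.1 hcard
    obtain ⟨w, hw⟩ := Finset.card_pos.1 (show 0 < (Wk G al C).card by omega)
    have hwC : w ∈ G.cJ C := (Finset.mem_filter.1 hw).1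
    have hww : sp G al w < 0 := (Finset.mem_filter.1 hw).2
    obtain ⟨n1, n2, n3, n4⟩ := num61 G hG hCi hd hwC
    obtain ⟨g1, g2, g3, g4, g5⟩ := gen w hwC
    have hh2 : ∑ i ∈ range m, (1 - gc G al ((sg G)^[i] w)) ≤ (2 : ℝ) := by
      have h7 : (Γ : ℝ) = 2 := by rw [hΓ2]; norm_num
      linarith
    have hw0 := g5 0 (by simpa using hww)
    -- position of a centre
    have pos : ∀ z ∈ Ce, (z = (sg G)^[2] w ∧ 1 < (1 - gc G al ((sg G)^[1] w)) +
        (1 - gc G al ((sg G)^[2] w)) + (1 - gc G al ((sg G)^[3] w))) ∨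
        (z = (sg G)^[m - 1] w ∧ 1 < (1 - gc G al ((sg G)^[m - 2] w)) +
        (1 - gc G al ((sg G)^[m - 1] w)) + (1 - gc G al ((sg G)^[0] w))) := by
      intro z hz
      obtain ⟨x, hx, hxz, h1, h2, h3⟩ := cen z hz
      obtain ⟨i, hi, hiw⟩ := n3 x hx
      rw [← hmm] at hi
      have hzi : z = (sg G)^[i + 1] w := by rw [Function.iterate_succ_apply', hiw, hxz]
      have hzi2 : sg G z = (sg G)^[i + 2] w := by rw [Function.iterate_succ_apply', ← hzi]
      rw [← hiw] at h1 h3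
      rw [hzi2] at h3
      rw [hzi] at h2 h3
      have hi0 : i ≠ 0 := by
        rintro rfl
        exact absurd hww (not_lt.2 h1)
      have him : i ≠ m - 1 := by
        rintro rfl
        rw [show m - 1 + 1 = 0 + m by omega, hmm, n2 0] at h2
        exact absurd hww (not_lt.2 h2)
      by_cases hi1 : i = 1
      · subst hi1
        left
        exact ⟨hzi, by linarith⟩
      by_cases him2 : i = m - 2
      · subst him2
        right
        rw [show m - 2 + 1 = m - 1 by omega] at hzi h3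
        rw [show m - 2 + 2 = 0 + m by omega] at h3
        nth_rewrite 3 [hmm] at h3
        rw [n2 0] at h3
        exact ⟨hzi, by linarith⟩
      exfalso
      exact centre_pos61 (m := m) (h := fun i => 1 - gc G al ((sg G)^[i] w)) g1 hh2
        (by simpa using hw0) (j := i + 1) (by omega) (by omega) (by
          rw [show i + 1 - 1 = i by omega, show i + 1 + 1 = i + 2 by omega]
          linarith)
    have p1 := pos z1 hz1
    have p2 := pos z2 hz2
    have fin : ∀ (h2 : 1 < (1 - gc G al ((sg G)^[1] w)) +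
        (1 - gc G al ((sg G)^[2] w)) + (1 - gc G al ((sg G)^[3] w)))
        (h3 : 1 < (1 - gc G al ((sg G)^[m - 2] w)) +
        (1 - gc G al ((sg G)^[m - 1] w)) + (1 - gc G al ((sg G)^[0] w))), False :=
      fun h2 h3 => two_centres61 (m := m) (h := fun i => 1 - gc G al ((sg G)^[i] w))
        h6 g1 hh2 h2 h3
    rcases p1 with ⟨e1, q1⟩ | ⟨e1, q1⟩ <;> rcases p2 with ⟨e2, q2⟩ | ⟨e2, q2⟩
    · exact hne (e1.trans e2.symm)
    · exact fin q1 q2
    · exact fin q2 q1
    · exact hne (e1.trans e2.symm)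

/-- **the disc pays**: all weak sides at the full price `2 + 2θ`, all extra units at centres at the
price `θ`, except the six exceptions -/
theorem face_pay61 (hG : G.Geo4 al kp U) (hT : ∀ x ∈ BC G, al ≤ TH G x)
    {θ y Λ : ℝ} (hy : 3 * θ = y + 2) (hΛ : 3 + y ≤ Λ) (h1 : 1 ≤ θ) (h2 : θ ≤ 6 / 5)
    {C : G.adj.ConnectedComponent} (hC : C ∈ WF G) (hd : (G.cI C).card + 2 = 2 * (G.cT C).card)
    (hm : 5 ≤ (G.cJ C).card) (h5 : (G.cJ C).card = 5 → uf G al C ≤ 12)
    (hV : ∀ z ∈ G.cJ C, un G al z + 2 ≤ (G.cJ C).card)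
    {Ce : Finset (V × V)} (hCe : Ce ⊆ G.cJ C) (hce : ∀ z ∈ Ce, Cen61 G al z)
    (e1 : ¬ ((G.cJ C).card = 5 ∧ (uf G al C = 11 ∨ uf G al C = 12)))
    (e2 : ¬ ((G.cJ C).card = 6 ∧ uf G al C = 17))
    (e3 : ¬ ((G.cJ C).card = 6 ∧ uf G al C = 16 ∧ (Wk G al C).card = 2))
    (e4 : ¬ ((G.cJ C).card = 6 ∧ uf G al C = 15 ∧ (Wk G al C).card = 4))
    (e5 : ¬ ((G.cJ C).card = 7 ∧ uf G al C = 18 ∧ (Wk G al C).card = 7)) :
    (2 + 2 * θ) * (Wk G al C).card + θ * ∑ z ∈ Ce, ((un G al z : ℝ) - 2) ≤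
      (3 + 4 * θ + Λ - 2 * y) * ka G al C - (4 + 5 * θ - 3 * y) * qa G C := by
  have hCi := ((mem_WF89 G).1 hC).1
  have hufl := disc_uf46 G hG hT hC hd
  have hufg := uf_ge46 (al := al) G hC
  obtain ⟨Γ, hΓ⟩ : ∃ Γ, uf G al C + Γ + 6 = 4 * (G.cJ C).card :=
    ⟨4 * (G.cJ C).card - 6 - uf G al C, by omega⟩
  obtain ⟨q, hq⟩ : ∃ q, uf G al C = 2 * (G.cJ C).card + q :=
    ⟨uf G al C - 2 * (G.cJ C).card, by omega⟩
  obtain ⟨a1, a2, a3, a4, a5, a6, a7⟩ := disc_mass61 G hG hT hC hd hm hCe hce hΓ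
  obtain ⟨c, hc⟩ : ∃ c, c = ∑ z ∈ Ce, (un G al z - 2) := ⟨_, rfl⟩
  have hun : ∀ z ∈ G.cJ C, 2 ≤ un G al z := fun z hz => un_ge_WF46 (al := al) G hC hz
  have hcq : c ≤ q := by
    have h3 : c ≤ ∑ z ∈ G.cJ C, (un G al z - 2) := by
      rw [hc]
      exact Finset.sum_le_sum_of_subset hCe
    have h4 : ∑ z ∈ G.cJ C, (un G al z - 2) + ∑ z ∈ G.cJ C, 2 = uf G al C := by
      rw [← Finset.sum_add_distrib]
      unfold uf
      exact Finset.sum_congr rfl fun z hz => by have := hun z hz; omega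
    rw [Finset.sum_const, smul_eq_mul] at h4
    omega
  have hempty : Ce = ∅ → c = 0 := by
    intro h
    rw [hc, h, Finset.sum_empty]
  have hcast : ∑ z ∈ Ce, ((un G al z : ℝ) - 2) = c := by
    rw [hc]
    push_cast
    exact Finset.sum_congr rfl fun z hz => by
      have := hun z (hCe hz)
      push_cast [Nat.cast_sub this]
      ring
  rw [hcast, disc_ka46 G hCi hd, disc_qa46 G hCi hd]
  refine disc_table61 hy hΛ h1 h2 (q := q) hm hΓ hq a1 h5 (fun h => ⟨(a2 h).1, hempty (a2 h).2⟩)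
    a3 a4 hcq (fun h => hempty (a5 h)) (fun h h' => hempty (a6 h h')) ?_ e1 e2 e3 e4 e5
  intro hΓ2 hW1
  rcases Nat.lt_or_ge (G.cJ C).card 6 with h6 | h6
  · exfalso
    apply e1
    omega
  · have h7 := a7 h6 hΓ2 hW1
    rcases Ce.eq_empty_or_nonempty with h | ⟨z, hz⟩
    · rw [hempty h]
      omega
    · have h8 : Ce = {z} := by
        symm
        apply Finset.eq_of_subset_of_card_le
        · exact Finset.singleton_subset_iff.2 hz
        · rw [Finset.card_singleton]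
          exact h7
      rw [h8, Finset.sum_singleton] at hc
      have := hV z (hCe hz)
      have := hun z (hCe hz)
      omega

/-- **the non discs pay**: all weak sides, and `5θ - 2 + (Λ - 3 - y)` for every side -/
theorem nondisc_pay61 (hG : G.Geo4 al kp U) (hT : ∀ x ∈ BC G, al ≤ TH G x)
    {θ y Λ : ℝ} (hy : 3 * θ = y + 2) (hΛ : 3 + y ≤ Λ) (h1 : 2 / 3 ≤ θ) (h2 : θ ≤ 4 / 3)
    {C : G.adj.ConnectedComponent} (hC : C ∈ WF G) (hd : 2 * (G.cT C).card ≤ (G.cI C).card) :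
    (2 + 2 * θ) * (Wk G al C).card + (5 * θ - 2 + (Λ - 3 - y)) * (G.cJ C).card ≤
      (3 + 4 * θ + Λ - 2 * y) * ka G al C - (4 + 5 * θ - 3 * y) * qa G C := by
  have hCi := ((mem_WF89 G).1 hC).1
  have h3 := m_eq46 G hCi
  have h3' : ((G.cJ C).card : ℝ) + (G.cI C).card = 3 * (G.cT C).card := by exact_mod_cast h3
  have h4 : 2 * ((G.cT C).card : ℝ) ≤ (G.cI C).card := by exact_mod_cast hd
  have h5 : ((Wk G al C).card : ℝ) ≤
      2 * ((G.cJ C).card + 3 * (G.cT C).card - (uf G al C : ℝ)) := by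
    rcases Finset.eq_empty_or_nonempty (Wk G al C) with h | h
    · rw [h, Finset.card_empty]
      have h6 := uf_lt46 G hG hT hC
      have h7 : (uf G al C : ℝ) + 1 ≤ (G.cJ C).card + 3 * (G.cT C).card := by exact_mod_cast h6
      push_cast
      linarith
    · exact (weak_lt46 G hG hT hC h).le
  have h6 := nondisc61 (θ := θ) (y := y) (Λ := Λ) hy hΛ h1 h2 (I := (G.cI C).card)
    (T := (G.cT C).card) (J := (G.cJ C).card) (U := (uf G al C : ℝ)) (w := (Wk G al C).card)
    (by linarith) h4 (Nat.cast_nonneg _) h5 (Nat.cast_nonneg _)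
  rw [ka_uf46]
  unfold qa
  exact h6

end

end Pool.Agent.PEN.E5
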