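import Pool.Agent.E5.Hf19
import Pool.Agent.E5.Fg46

/-! # PENNY: the row of the hexagonal faces with 17 units, large Lambda

No weak side, and the leaf corners with more than three units cost at most one. -/

set_option autoImplicit false

namespace Pool.Agent.PEN.E5

open Classical UpperHalfPlane
open Pool.Agent.PEN.Cl

noncomputable section

variable {G : Tg ℍ} {d : ℝ} {kp : ℍ → ℍ → ℝ} {U : ℕ → ℝ}

/-- **the H17 row**: no weak side, and the units above three cost at most one -/
theorem h17_row63 (hG : G.Geo4 (alpha d) kp U) (hD : DelG G d) (hS : Sep d G.P)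
    {C : G.adj.ConnectedComponent} (hC : C ∈ WF G) (hT : (G.cT C).card = 4)
    (hI : (G.cI C).card = 6) (hU : uf G (alpha d) C = 17) {L : Finset (ℍ × ℍ)}
    (hL : L ⊆ G.cJ C) {p : ℍ × ℍ → ℝ}
    (hp : ∀ z ∈ L, p z ≤ ((un G (alpha d) z - 3 : ℕ) : ℝ)) :
    Wk G (alpha d) C = ∅ ∧ ∑ z ∈ L, p z ≤ 1 := by
  have hCi := ((mem_WF89 G).1 hC).1
  have hd6 : (G.cI C).card + 2 = 2 * (G.cT C).card := by omega
  have h6 : (G.cJ C).card = 6 := by
    have := (disc90 G hCi hd6).1
    omega
  have hge : ∀ x ∈ BC G, alpha d ≤ TH G x := fun x hx => TH_ge19 hG hD hS ((mem_BC89 G).1 hx).1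
  constructor
  · unfold Wk
    rw [Finset.filter_eq_empty_iff]
    intro x hx
    rw [not_lt]
    exact strong46 G hG hge hC (by omega) hx
  · have hsum : ∑ y ∈ G.cJ C, un G (alpha d) y = 17 := hU
    obtain ⟨x, hx, e0, e1, e2, e3, e4, e5, -, -⟩ :=
      (hex_class19 hG hD hS hC hd6 h6).2 hsum.ge
    have hset := (six90 G hG hC hd6 h6 hx).1
    have h1 : ∀ z ∈ G.cJ C, z ≠ x → un G (alpha d) z - 3 = 0 := by
      intro z hz hne
      rw [hset] at hz
      simp only [Finset.mem_insert, Finset.mem_singleton] at hz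
      rcases hz with h | h | h | h | h | h
      · exact absurd h hne
      · rw [h, e1]
      · rw [h, e2]
      · rw [h, e3]
      · rw [h, e4]
      · rw [h, e5]
    calc ∑ z ∈ L, p z ≤ ∑ z ∈ L, ((un G (alpha d) z - 3 : ℕ) : ℝ) := Finset.sum_le_sum hp
      _ ≤ ∑ z ∈ G.cJ C, ((un G (alpha d) z - 3 : ℕ) : ℝ) :=
          Finset.sum_le_sum_of_subset_of_nonneg hL (fun z _ _ => Nat.cast_nonneg _)
      _ = ((un G (alpha d) x - 3 : ℕ) : ℝ) := by
          rw [Finset.sum_eq_single_of_mem x hx]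
          intro z hz hne
          rw [h1 z hz hne, Nat.cast_zero]
      _ ≤ 1 := by
          rw [e0]
          norm_num

end

end Pool.Agent.PEN.E5
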