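import Pool.Agent.E5.Rp63
import Pool.Agent.E5.H8_63
import Pool.Agent.E5.Disc61

/-! # PENNY: the weak side of a pentagon with 12 units

The corners are `(2, 2, 3, 2, 3)`; the side between the first two corners has weakness at most
`23 / 50`. -/

set_option autoImplicit false

namespace Pool.Agent.PEN

open Classical UpperHalfPlane

noncomputable section

theorem pi3_63 {t a : ℝ} (h : a = Real.pi / 3 - t) :
    Real.cos a = Real.cos t / 2 + Real.sqrt 3 / 2 * Real.sin t := by
  rw [h, Real.cos_sub, Real.cos_pi_div_three, Real.sin_pi_div_three]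
  ring

theorem sqrt3_63 : (1732 : ℝ) / 1000 ≤ Real.sqrt 3 := by
  apply Real.le_sqrt_of_sq_le
  norm_num

/-- `cos (pi / 3 - t)` from below -/
theorem cos_t63 {t : ℝ} (h0 : 0 ≤ t) (h1 : t ≤ 3 / 100) :
    1 + 169 / 100 * t ≤ Real.cos t + Real.sqrt 3 * Real.sin t := by
  rcases h0.eq_or_lt with rfl | h0
  · rw [Real.cos_zero, Real.sin_zero]
    norm_num
  have c1 := Real.one_sub_sq_div_two_le_cos (x := t)
  have s1 := Real.sin_gt_sub_cube h0
  have s2 : 0 ≤ t - t ^ 3 / 6 := by nlinarith [pow_pos h0 3, pow_pos h0 2]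
  have h3 := sqrt3_63
  have h4 : (1732 : ℝ) / 1000 * (t - t ^ 3 / 6) ≤ Real.sqrt 3 * Real.sin t :=
    mul_le_mul h3 s1.le s2 (by linarith)
  have h5 : t ^ 2 ≤ 3 / 100 * t := by nlinarith
  have h6 : t ^ 3 ≤ 9 / 10000 * t := by nlinarith [pow_pos h0 2]
  nlinarith

/-- the two parameters of the size -/
theorem size63 {d : ℝ} (hd : 0 < d) (hC : Real.cosh d ≤ 11 / 10) :
    0 < Real.pi / 3 - alpha d ∧ Real.pi / 3 - alpha d ≤ 3 / 100 ∧
    169 / 100 * (Real.pi / 3 - alpha d) ≤ 2 * Real.cos (alpha d) - 1 ∧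
    2 * Real.cos (alpha d) - 1 ≤ 1 / 21 := by
  have c0 : 1 < Real.cosh d := Real.one_lt_cosh.2 hd.ne'
  have hal := alpha_lt hd
  have hal0 := alpha_pos hd
  have hpi := Real.pi_pos
  have hca := cos_alpha hd
  have q1 : 2 * Real.cos (alpha d) - 1 ≤ 1 / 21 := by
    rw [hca]
    have : Real.cosh d / (Real.cosh d + 1) ≤ 11 / 21 := by
      rw [div_le_div_iff₀ (by linarith) (by norm_num)]
      linarith
    linarith
  have t1 : Real.pi / 3 - alpha d ≤ 3 / 100 := by
    by_contra hc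
    push Not at hc
    have h1 : Real.cos (Real.pi / 3 - 3 / 100) ≤ Real.cos (alpha d) :=
      Real.cos_le_cos_of_nonneg_of_le_pi hal0.le (by linarith) (by linarith)
    rw [pi3_63 (t := 3 / 100) rfl] at h1
    have h2 := cos_t63 (t := 3 / 100) (by norm_num) le_rfl
    linarith
  refine ⟨by linarith, t1, ?_, q1⟩
  have h3 := cos_t63 (t := Real.pi / 3 - alpha d) (by linarith) t1
  rw [pi3_63 (t := Real.pi / 3 - alpha d) (a := alpha d) (by ring)]
  linarith

/-- the first number -/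
theorem bX63 {a q : ℝ} (t0 : 0 < Real.pi / 3 - a) (t1 : Real.pi / 3 - a ≤ 3 / 100)
    (hq : 169 / 100 * (Real.pi / 3 - a) ≤ q) :
    2373 / 10000 - q ≤ - Real.cos (173 / 100 * a) := by
  have p1 := Real.pi_gt_d4
  have p2 := Real.pi_lt_d4
  obtain ⟨t, ht⟩ : ∃ t, t = Real.pi / 3 - a := ⟨_, rfl⟩
  rw [← ht] at t0 t1 hq
  have h1 : - Real.cos (173 / 100 * a) = Real.sin (173 / 100 * a - Real.pi / 2) := by
    rw [Real.sin_sub, Real.cos_pi_div_two, Real.sin_pi_div_two]
    ring
  have h2 : 2408 / 10000 - 173 / 100 * t ≤ 173 / 100 * a - Real.pi / 2 := by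
    rw [ht]
    linarith
  have h3 : 0 < 2408 / 10000 - 173 / 100 * t := by linarith
  have h4 : Real.sin (2408 / 10000 - 173 / 100 * t) ≤ Real.sin (173 / 100 * a - Real.pi / 2) := by
    refine Real.sin_le_sin_of_le_of_le_pi_div_two ?_ ?_ h2
    · linarith
    · rw [ht] at t0
      linarith
  have h5 := Real.sin_gt_sub_cube h3
  have h6 : (2408 / 10000 - 173 / 100 * t) ^ 3 ≤ (2408 / 10000) ^ 2 *
      (2408 / 10000 - 173 / 100 * t) := by
    have a1 : (2408 / 10000 - 173 / 100 * t) ^ 2 ≤ (2408 / 10000) ^ 2 :=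
      pow_le_pow_left₀ h3.le (by linarith) 2
    have a2 := mul_le_mul_of_nonneg_right a1 h3.le
    calc (2408 / 10000 - 173 / 100 * t) ^ 3 = (2408 / 10000 - 173 / 100 * t) ^ 2 *
          (2408 / 10000 - 173 / 100 * t) := by ring
      _ ≤ _ := a2
  rw [h1]
  linarith

/-- the last inequality -/
theorem fin63 {q : ℝ} (q0 : 0 ≤ q) (q1 : q ≤ 1 / 21) :
    (1 + q) / 2 - (2 * q + 2 * q ^ 2) * (11973 / 10000 - q) ^ 2 -
      2 * ((2373 / 10000 - q) * (11973 / 10000 - q)) < -(419 : ℝ) / 10000 := by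
  have m1 : 0 ≤ q * (1 / 21 - q) := mul_nonneg q0 (by linarith)
  have m2 : 0 ≤ q * (q * (1 / 21 - q)) := mul_nonneg q0 m1
  have m3 : 0 ≤ q ^ 4 := by positivity
  nlinarith

/-- the relation in half sums -/
theorem half63 {C x y X Y w : ℝ} (c0 : 1 < C) (hX : X = - Real.cos ((x + y) / 2))
    (hY : Y = Real.cos ((x - y) / 2))
    (hr : C * (Real.cos x + Real.cos y) = C ^ 2 / (C + 1) +
      w + C * Real.cos x * Real.cos y - Real.sin x * Real.sin y) :
    w = C / (C + 1) - (C - 1) * (X + Y) ^ 2 - 2 * X * (X + Y) := by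
  obtain ⟨p, hp⟩ : ∃ p, p = (x + y) / 2 := ⟨_, rfl⟩
  obtain ⟨m, hm⟩ : ∃ m, m = (x - y) / 2 := ⟨_, rfl⟩
  have hx : x = p + m := by rw [hp, hm]; ring
  have hy : y = p - m := by rw [hp, hm]; ring
  rw [← hp] at hX
  rw [← hm] at hY
  rw [hx, hy, Real.cos_add, Real.cos_sub, Real.sin_add, Real.sin_sub] at hr
  have f1 := Real.sin_sq_add_cos_sq p
  have f2 := Real.sin_sq_add_cos_sq m
  have hX' : Real.cos p = - X := by linarith
  rw [hX', ← hY] at hr
  rw [hX'] at f1
  rw [← hY] at f2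
  have hne : C + 1 ≠ 0 := by linarith
  have g3 : C - C ^ 2 / (C + 1) = C / (C + 1) := by
    field_simp
    ring
  linear_combination -hr + g3 + (C * Real.sin m ^ 2 + Y ^ 2) * f1 +
    (C * (1 - X ^ 2) - X ^ 2) * f2

/-- **the weak side of a pentagon**, in numbers -/
theorem weak_num63 {d x y z : ℝ} (hd : 0 < d) (hC : Real.cosh d ≤ 11 / 10)
    (hx : x ≤ 2 * alpha d) (hy : y ≤ 2 * alpha d) (hz0 : 0 ≤ z) (hz : z + x + y ≤ 5 * alpha d)
    (hr : Real.cosh d * (Real.cos x + Real.cos y) = Real.cosh d ^ 2 / (Real.cosh d + 1) +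
      Real.cos z + Real.cosh d * Real.cos x * Real.cos y - Real.sin x * Real.sin y) :
    x + y ≤ 173 / 50 * alpha d := by
  by_contra hc
  push Not at hc
  obtain ⟨t0, t1, q0, q1⟩ := size63 hd hC
  have c0 : 1 < Real.cosh d := Real.one_lt_cosh.2 hd.ne'
  have hcz := half63 c0 rfl rfl hr
  have hal0 := alpha_pos hd
  have hpi := Real.pi_pos
  have p1 := Real.pi_gt_d4
  have p2 := Real.pi_lt_d4
  have hca := cos_alpha hd
  rw [← hca] at hcz
  have bX2 := bX63 t0 t1 q0
  have bX : Real.cos ((x + y) / 2) ≤ Real.cos (173 / 100 * alpha d) :=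
    Real.cos_le_cos_of_nonneg_of_le_pi (by positivity) (by linarith) (by linarith)
  have bY : Real.cos (27 / 100 * alpha d) ≤ Real.cos ((x - y) / 2) := by
    rw [← Real.cos_abs ((x - y) / 2)]
    refine Real.cos_le_cos_of_nonneg_of_le_pi (abs_nonneg _) (by linarith) ?_
    rw [abs_le]
    constructor <;> linarith
  have bY2 : 24 / 25 ≤ Real.cos ((x - y) / 2) := by
    have h1 := Real.one_sub_sq_div_two_le_cos (x := 27 / 100 * alpha d)
    have h2 : 27 / 100 * alpha d ≤ 2828 / 10000 := by linarith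
    have h3 : (27 / 100 * alpha d) ^ 2 ≤ (2828 / 10000) ^ 2 :=
      pow_le_pow_left₀ (by positivity) h2 2
    have h5 : (2828 / 10000 : ℝ) ^ 2 / 2 ≤ 1 / 25 := by norm_num
    linarith
  have bz : -(419 : ℝ) / 10000 ≤ Real.cos z := by
    have h1 : Real.cos (Real.pi / 2 + Real.pi / 75) ≤ Real.cos z :=
      Real.cos_le_cos_of_nonneg_of_le_pi hz0 (by linarith) (by linarith)
    have h2 : Real.cos (Real.pi / 2 + Real.pi / 75) = - Real.sin (Real.pi / 75) := by
      rw [Real.cos_add, Real.cos_pi_div_two, Real.sin_pi_div_two]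
      ring
    have h3 := Real.sin_le (x := Real.pi / 75) (by positivity)
    linarith
  obtain ⟨X, hX⟩ : ∃ X, X = - Real.cos ((x + y) / 2) := ⟨_, rfl⟩
  obtain ⟨Y, hY⟩ : ∃ Y, Y = Real.cos ((x - y) / 2) := ⟨_, rfl⟩
  obtain ⟨q, hq⟩ : ∃ q, q = 2 * Real.cos (alpha d) - 1 := ⟨_, rfl⟩
  rw [← hX, ← hY] at hcz
  rw [← hY] at bY2
  rw [← hq] at q0 q1 bX2
  have bX3 : 2373 / 10000 - q ≤ X := by
    rw [hX]
    linarith
  have qp : 0 ≤ q := by
    have : 0 ≤ 169 / 100 * (Real.pi / 3 - alpha d) := by positivity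
    linarith
  have k1 : 2 * q + 2 * q ^ 2 ≤ Real.cosh d - 1 := by
    have h1 : (Real.cosh d - 1) * (1 - q) = 2 * q := by
      rw [hq, hca]
      field_simp
      ring
    by_contra hk
    push Not at hk
    have h2 : (Real.cosh d - 1) * (1 - q) < (2 * q + 2 * q ^ 2) * (1 - q) :=
      mul_lt_mul_of_pos_right hk (by linarith)
    have h3 : 0 ≤ q * (q * q) := mul_nonneg qp (mul_nonneg qp qp)
    have h4 : (2 * q + 2 * q ^ 2) * (1 - q) = 2 * q - 2 * (q * (q * q)) := by ring
    linarith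
  have k2 : (11973 / 10000 - q) ^ 2 ≤ (X + Y) ^ 2 :=
    pow_le_pow_left₀ (by linarith) (by linarith) 2
  have k3 : (2373 / 10000 - q) * (11973 / 10000 - q) ≤ X * (X + Y) :=
    mul_le_mul bX3 (by linarith) (by linarith) (by linarith)
  have k4 : (2 * q + 2 * q ^ 2) * (11973 / 10000 - q) ^ 2 ≤ (Real.cosh d - 1) * (X + Y) ^ 2 :=
    mul_le_mul k1 k2 (by positivity) (by linarith)
  have k5 : Real.cos (alpha d) = (1 + q) / 2 := by
    rw [hq]
    ring
  have k6 := fin63 qp q1
  rw [k5] at hcz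
  linarith

end

end Pool.Agent.PEN

namespace Pool.Agent.PEN.E5

open Classical UpperHalfPlane
open Pool.Agent.PEN.Cl

noncomputable section

variable {G : Tg ℍ} {d : ℝ} {kp : ℍ → ℍ → ℝ} {U : ℕ → ℝ}

/-- **the weak side of a pentagon**: the side between two corners with two units each, whose other
neighbours have three units -/
theorem pent_weak63 (hG : G.Geo4 (alpha d) kp U) (hD : DelG G d) (hS : Sep d G.P)
    (hC10 : Real.cosh d ≤ 11 / 10) {C : G.adj.ConnectedComponent} (hC : C ∈ G.iC)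
    (hm : (G.cT C).card = 3) (hI : (G.cI C).card = 4) {x : ℍ × ℍ} (hx : x ∈ G.cJ C)
    (u0 : un G (alpha d) x = 2) (u1 : un G (alpha d) (sg G x) = 2)
    (u2 : un G (alpha d) (sg G (sg G x)) = 3)
    (u4 : un G (alpha d) (sg G (sg G (sg G (sg G x)))) = 3) :
    -(23 : ℝ) / 50 ≤ sp G (alpha d) x := by
  have hal0 := alpha_pos hD.hd
  have hdisc : (G.cI C).card + 2 = 2 * (G.cT C).card := by omega
  obtain ⟨v3, v4, v5, h⟩ := pent_at19 hG hD hS hC hm hI hx
  have e1 : sg G x = (x.2, v3) := h.g1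
  have h5 : (G.cJ C).card = 5 := by
    have := (disc90 G hC hdisc).1
    omega
  have hsum := (num61 G hG hC hdisc hx).2.2.2 (fun y => TH G y)
  rw [h5] at hsum
  simp only [Finset.sum_range_succ, Finset.sum_range_zero, Function.iterate_succ,
    Function.iterate_zero, Function.comp_apply, id_eq, zero_add] at hsum
  have hle := sum_TH_le46 G hG hC
  rw [← Finset.sum_div, hm, div_le_iff₀ hal0, hsum] at hle
  push_cast at hle
  have g2 := un_gt19 hG (x := sg G (sg G x)) (n := 2) le_rfl (by omega)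
  have g4 := un_gt19 hG (x := sg G (sg G (sg G (sg G x)))) (n := 2) le_rfl (by omega)
  push_cast at g2 g4
  have a0 := TH_un19 hG x
  have a1 := TH_un19 hG (sg G x)
  rw [u0] at a0
  rw [u1] at a1
  push_cast at a0 a1
  have hz0 : 0 ≤ TH G (sg G (sg G (sg G x))) := by
    rw [e1, h.g2, h.g3]
    exact hal0.le.trans h.b4.1
  have hr := pfr_rel63 hD.hd h
  have hr' : Real.cosh d * (Real.cos (TH G x) + Real.cos (TH G (sg G x))) =
      Real.cosh d ^ 2 / (Real.cosh d + 1) + Real.cos (TH G (sg G (sg G (sg G x)))) +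
      Real.cosh d * Real.cos (TH G x) * Real.cos (TH G (sg G x)) -
      Real.sin (TH G x) * Real.sin (TH G (sg G x)) := by
    rw [e1, h.g2, h.g3]
    exact hr
  have key := weak_num63 hD.hd hC10 a0 a1 hz0 (by linarith) hr'
  have hs := sp_TH19 hG x
  rw [u0, u1] at hs
  push_cast at hs
  have h1 : alpha d * (-(23 : ℝ) / 50) ≤ alpha d * sp G (alpha d) x := by
    rw [hs]
    linarith
  exact le_of_mul_le_mul_left h1 hal0

/-- **P12**: every side of a pentagon with 12 units has weakness at most `23 / 50` -/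
theorem p12_weak63 (hG : G.Geo4 (alpha d) kp U) (hD : DelG G d) (hS : Sep d G.P)
    (hC10 : Real.cosh d ≤ 11 / 10) {C : G.adj.ConnectedComponent} (hC : C ∈ G.iC)
    (hm : (G.cT C).card = 3) (hI : (G.cI C).card = 4)
    (hU : 12 ≤ ∑ x ∈ G.cJ C, un G (alpha d) x) {y : ℍ × ℍ} (hy : y ∈ G.cJ C) :
    -(23 : ℝ) / 50 ≤ sp G (alpha d) y := by
  have hdisc : (G.cI C).card + 2 = 2 * (G.cT C).card := by omega
  have h5 : (G.cJ C).card = 5 := by
    have := (disc90 G hC hdisc).1
    omega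
  obtain ⟨x, hx, u0, u1, u2, u3, u4⟩ := (pent_class19 hG hD hS hC hm hI).2 hU
  obtain ⟨n1, n2, n3, -⟩ := num61 G hG hC hdisc hx
  rw [h5] at n3
  have hcyc := (pent_units19 hG hD hS hC hm hI hx).cyc
  have strong : ∀ z ∈ G.cJ C, 5 ≤ un G (alpha d) z + un G (alpha d) (sg G z) →
      -(23 : ℝ) / 50 ≤ sp G (alpha d) z := fun z hz h => by
    have := (pent_units19 hG hD hS hC hm hI hz).str h
    linarith
  obtain ⟨i, hi, rfl⟩ := n3 y hy
  have hmem := n1 i
  interval_cases i
  · exact pent_weak63 hG hD hS hC10 hC hm hI hx u0 u1 u2 u4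
  · refine strong _ hmem ?_
    simp only [Function.iterate_succ, Function.iterate_zero, Function.comp_apply, id_eq]
    omega
  · refine strong _ hmem ?_
    simp only [Function.iterate_succ, Function.iterate_zero, Function.comp_apply, id_eq]
    omega
  · refine strong _ hmem ?_
    simp only [Function.iterate_succ, Function.iterate_zero, Function.comp_apply, id_eq]
    omega
  · refine strong _ hmem ?_
    simp only [Function.iterate_succ, Function.iterate_zero, Function.comp_apply, id_eq]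
    rw [hcyc]
    omega

end

end Pool.Agent.PEN.E5
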