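import Pool.Agent.E5.SkC89

/-! # PENNY, all small diameters: the uses of the gaps at outer points

The corners at outer points are used by the black faces that touch the boundary. -/

set_option autoImplicit false

namespace Pool.Agent.PEN.E5

open Classical UpperHalfPlane
open Pool.Agent.PEN.Cl

noncomputable section

variable {V : Type} (G : Tg V) {al : ℝ} {kp : V → V → ℝ} {U : ℕ → ℝ}

/-- the gaps of the two corners at the head of a side, outer corners do not count -/
def us14 (al : ℝ) (x : V × V) : ℝ :=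
  (if x ∈ BC G then gc G al (sg G x) else 0) + (if nx G x ∈ BC G then gc G al (nx G x) else 0)

/-- the uses of a black face -/
def uK14 (al : ℝ) (K : (cg G).ConnectedComponent) : ℝ :=
  ∑ x ∈ (kS G K).filter (fun x => x.2 ∉ inN G), us14 G al x

/-- the number of big sides of a black face with outer head -/
def oK14 (K : (cg G).ConnectedComponent) : ℕ :=
  ((kS G K).filter (fun x => x ∈ BC G ∧ x.2 ∉ inN G)).card

theorem us_nonneg14 (hG : G.Geo4 al kp U) (x : V × V) : 0 ≤ us14 G al x := by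
  unfold us14
  have h1 := gc_nonneg89 G hG (x := sg G x)
  have h2 := gc_nonneg89 G hG (x := nx G x)
  split_ifs <;> linarith

theorem uK_nonneg14 (hG : G.Geo4 al kp U) (K : (cg G).ConnectedComponent) : 0 ≤ uK14 G al K :=
  Finset.sum_nonneg fun x _ => us_nonneg14 G hG x

/-- a side is a big inner corner or an outer dart -/
theorem BC_or14 {x : V × V} (hx : x ∈ SD G) : x ∈ BC G ∨ x ∈ G.oJ := by
  obtain ⟨h1, h3⟩ := (mem_SD42 G).1 hx
  obtain ⟨h1, h2⟩ := (mem_KJ42 G).1 h1
  by_cases h : G.inn x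
  · exact Or.inl ((mem_BC89 G).2 ⟨(mem_iJ71 G).2 ⟨h, h2⟩, h3⟩)
  · exact Or.inr ((mem_oJ66 G).2 ⟨h1, h2, h⟩)

theorem BC_SD14 {x : V × V} (hx : x ∈ BC G) : x ∈ SD G := by
  obtain ⟨h1, h2⟩ := (mem_BC89 G).1 hx
  obtain ⟨h3, h4⟩ := (mem_iJ71 G).1 h1
  exact (mem_SD42 G).2 ⟨(mem_KJ42 G).2 ⟨G.sub h3.1, h4⟩, h2⟩

/-- a side with inner head is a big corner, and so is its successor -/
theorem BC_head14 (hG : G.Geo4 al kp U) {x : V × V} (hx : x ∈ SD G) (hv : x.2 ∈ inN G) :
    x ∈ BC G ∧ nx G x ∈ BC G := by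
  obtain ⟨_, h2, h3, _, h5⟩ := sector_corners89 G hG hv hx rfl
  exact ⟨(mem_BC89 G).2 ⟨h3, ((mem_SD42 G).1 hx).2⟩, (mem_BC89 G).2 ⟨((mem_Jv51 G).1 h2).1, h5⟩⟩

theorem us_inner14 (hG : G.Geo4 al kp U) {x : V × V} (hx : x ∈ SD G) (hv : x.2 ∈ inN G) :
    us14 G al x = Ds G al x + 1 := by
  obtain ⟨h1, h2⟩ := BC_head14 G hG hx hv
  unfold us14 Ds
  rw [if_pos h1, if_pos h2]
  ring

/-- **(U1)** the surplus of the white sides of a black face -/
theorem U1_14 (hG : G.Geo4 al kp U) (K : (cg G).ConnectedComponent) :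
    ∑ x ∈ (kS G K).filter (fun x => x ∈ BC G), sp G al x =
      ∑ x ∈ (kS G K).filter (fun x => x.2 ∈ inN G), Ds G al x + uK14 G al K - oK14 G K := by
  have h1 : ∑ x ∈ (kS G K).filter (fun x => x ∈ BC G), sp G al x =
      ∑ x ∈ kS G K, us14 G al x - ((kS G K).filter (fun x => x ∈ BC G)).card := by
    have e1 := sum_nx42 G hG (kS G K) (fun x hx => mem_kS89 G hx)
      (fun x hx => nx_kS89 G hG hx) (fun x => if x ∈ BC G then gc G al x else 0)
    unfold us14 sp
    rw [Finset.sum_add_distrib, e1, Finset.sum_sub_distrib, Finset.sum_add_distrib,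
      Finset.sum_filter, Finset.sum_filter, Finset.sum_const, nsmul_eq_mul, mul_one]
    ring
  have h2 : ∑ x ∈ kS G K, us14 G al x =
      ∑ x ∈ (kS G K).filter (fun x => x.2 ∈ inN G), Ds G al x +
        ((kS G K).filter (fun x => x.2 ∈ inN G)).card + uK14 G al K := by
    rw [← Finset.sum_filter_add_sum_filter_not (kS G K) (fun x => x.2 ∈ inN G)]
    unfold uK14
    congr 1
    rw [← nsmul_one ((kS G K).filter (fun x => x.2 ∈ inN G)).card, ← Finset.sum_const,
      ← Finset.sum_add_distrib]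
    refine Finset.sum_congr rfl fun x hx => ?_
    obtain ⟨hx1, hx2⟩ := Finset.mem_filter.1 hx
    exact us_inner14 G hG (mem_kS89 G hx1) hx2
  have h3 : ((kS G K).filter (fun x => x ∈ BC G)).card =
      ((kS G K).filter (fun x => x.2 ∈ inN G)).card + oK14 G K := by
    unfold oK14
    rw [← Finset.card_filter_add_card_filter_not (s := (kS G K).filter (fun x => x ∈ BC G))
      (fun x => x.2 ∈ inN G), Finset.filter_filter, Finset.filter_filter]
    congr 2
    refine Finset.filter_congr fun x hx => ?_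
    exact ⟨fun h => h.2, fun h => ⟨(BC_head14 G hG (mem_kS89 G hx) h).1, h⟩⟩
  rw [h1, h2, h3]
  push_cast
  ring

/-- the successor in the white face is a bijection of the big corners -/
theorem sum_sg14 (hG : G.Geo4 al kp U) (f : V × V → ℝ) :
    ∑ x ∈ BC G, f (sg G x) = ∑ x ∈ BC G, f x := by
  have hmem : ∀ x ∈ BC G, sg G x ∈ BC G := by
    intro x hx
    obtain ⟨h1, h2⟩ := (mem_BC89 G).1 hx
    obtain ⟨h3, h4⟩ := W4.sg_mem51 G hG h1
    refine (mem_BC89 G).2 ⟨h3, ?_⟩
    rw [tt_iff89 G h3, h4, ← tt_iff89 G h1]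
    exact h2
  have hinj : Set.InjOn (sg G) (BC G : Set (V × V)) := fun x hx z hz h =>
    W4.sg_inj51 G hG ((mem_BC89 G).1 (Finset.mem_coe.1 hx)).1
      ((mem_BC89 G).1 (Finset.mem_coe.1 hz)).1 h
  have himg : (BC G).image (sg G) = BC G := by
    apply Finset.eq_of_subset_of_card_le
    · intro z hz
      obtain ⟨x, hx, rfl⟩ := Finset.mem_image.1 hz
      exact hmem x hx
    · rw [Finset.card_image_of_injOn hinj]
  have e := Finset.sum_image (s := BC G) (g := sg G) (f := f) hinj
  rw [himg] at e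
  exact e.symm

theorem gam_BC14 (hG : G.Geo4 al kp U) :
    ∑ x ∈ BC G, (if x.1 ∉ inN G then gc G al x else 0) = gam G al := by
  unfold gam BC
  rw [← Finset.sum_filter, Finset.filter_filter]
  have e3 : ∀ x ∈ (iJ G).filter (fun x => x.1 ∉ inN G), gc G al x ≠ 0 → ¬ tt G x :=
    fun x _ h h2 => h (gc_tt89 G hG h2)
  rw [← Finset.sum_filter_of_ne e3, Finset.filter_filter]
  refine Finset.sum_congr (Finset.filter_congr fun x _ => ?_) fun _ _ => rfl
  tauto

/-- **(U2)** every gap at an outer point is used exactly twice -/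
theorem U2_14 (hG : G.Geo4 al kp U) :
    ∑ x ∈ (SD G).filter (fun x => x.2 ∉ inN G), us14 G al x = 2 * gam G al := by
  have h1 : ∑ x ∈ (SD G).filter (fun x => x.2 ∉ inN G), (if x ∈ BC G then gc G al (sg G x) else 0) =
      gam G al := by
    have e := sum_sg14 G hG (fun x => if x.1 ∉ inN G then gc G al x else 0)
    rw [gam_BC14 G hG] at e
    rw [← e, Finset.sum_filter, ← Finset.sum_filter_of_ne (s := SD G)
      (p := fun x => x ∈ BC G)]
    · refine Finset.sum_congr ?_ ?_
      · ext x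
        rw [Finset.mem_filter]
        exact ⟨fun h => h.2, fun h => ⟨BC_SD14 G h, h⟩⟩
      · intro x hx
        have e2 : (sg G x).1 = x.2 := rfl
        rw [if_pos hx, e2]
    · intro x _ h
      by_contra h2
      rw [if_neg h2] at h
      exact h (by simp)
  have h2 : ∑ x ∈ (SD G).filter (fun x => x.2 ∉ inN G),
      (if nx G x ∈ BC G then gc G al (nx G x) else 0) = gam G al := by
    have e := sum_nx42 G hG (SD G) (fun x hx => hx)
      (fun x hx => (nx_mem42 G hG ((mem_SD42 G).1 hx).1).1)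
      (fun x => if x.1 ∉ inN G then (if x ∈ BC G then gc G al x else 0) else 0)
    rw [Finset.sum_filter]
    have e2 : ∀ x : V × V, (nx G x).1 = x.2 := fun _ => rfl
    rw [show ∑ x ∈ SD G, (if x.2 ∉ inN G then
        (if nx G x ∈ BC G then gc G al (nx G x) else 0) else 0) =
      ∑ x ∈ SD G, (if (nx G x).1 ∉ inN G then
        (if nx G x ∈ BC G then gc G al (nx G x) else 0) else 0) from rfl, e,
      ← gam_BC14 G hG, ← Finset.sum_filter_of_ne (s := SD G) (p := fun x => x ∈ BC G)]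
    · refine Finset.sum_congr ?_ ?_
      · ext x
        rw [Finset.mem_filter]
        exact ⟨fun h => h.2, fun h => ⟨BC_SD14 G h, h⟩⟩
      · intro x hx
        rw [if_pos hx]
    · intro x _ h
      by_contra h2
      rw [if_neg h2] at h
      exact h (by simp)
  unfold us14
  rw [Finset.sum_add_distrib, h1, h2]
  ring

theorem sum_uK14 (hG : G.Geo4 al kp U) : ∑ K ∈ Kc G, uK14 G al K = 2 * gam G al := by
  rw [← U2_14 G hG]
  unfold uK14 kS
  rw [← Finset.sum_fiberwise_of_maps_to (s := (SD G).filter (fun x => x.2 ∉ inN G))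
    (t := Kc G) (g := ku G)]
  · refine Finset.sum_congr rfl fun K _ => ?_
    rw [Finset.filter_filter, Finset.filter_filter]
    exact Finset.sum_congr (Finset.filter_congr fun x _ => by tauto) fun _ _ => rfl
  · intro x hx
    exact Finset.mem_image_of_mem _ ((mem_SD42 G).1 (Finset.mem_filter.1 hx).1).1

/-- **(U3)** a black face with a white side has an inner sector with nonnegative surplus, or a weak
side, or it uses at least one unit of gaps at outer points for each white side with outer head -/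
theorem U3_14 (hG : G.Geo4 al kp U) (K : (cg G).ConnectedComponent)
    (hK : ∃ x ∈ kS G K, x ∈ BC G) :
    (∃ x ∈ kS G K, x.2 ∈ inN G ∧ 0 ≤ Ds G al x) ∨ (∃ x ∈ kS G K, x ∈ BC G ∧ sp G al x < 0) ∨
      (1 ≤ oK14 G K ∧ (oK14 G K : ℝ) ≤ uK14 G al K) := by
  by_cases h1 : ∃ x ∈ kS G K, x.2 ∈ inN G ∧ 0 ≤ Ds G al x
  · exact Or.inl h1
  by_cases h2 : ∃ x ∈ kS G K, x ∈ BC G ∧ sp G al x < 0
  · exact Or.inr (Or.inl h2)
  refine Or.inr (Or.inr ?_)
  push Not at h1 h2
  have h3 := U1_14 G hG K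
  have h4 : 0 ≤ ∑ x ∈ (kS G K).filter (fun x => x ∈ BC G), sp G al x :=
    Finset.sum_nonneg fun x hx => h2 x (Finset.mem_filter.1 hx).1 (Finset.mem_filter.1 hx).2
  have h5 : ∑ x ∈ (kS G K).filter (fun x => x.2 ∈ inN G), Ds G al x ≤ 0 :=
    Finset.sum_nonpos fun x hx =>
      (h1 x (Finset.mem_filter.1 hx).1 (Finset.mem_filter.1 hx).2).le
  refine ⟨?_, by linarith⟩
  by_contra h6
  have h7 : oK14 G K = 0 := by omega
  unfold oK14 at h7
  rw [Finset.card_eq_zero, Finset.filter_eq_empty_iff] at h7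
  -- all white sides have inner heads
  have h8 : ∀ x ∈ kS G K, x ∈ BC G → x.2 ∈ inN G := by
    intro x hx hb
    by_contra hc
    exact h7 hx ⟨hb, hc⟩
  -- a white side never has an outer tail
  have h9 : ∀ x ∈ kS G K, x.2 ∉ inN G → nx G x ∉ BC G := by
    -- the sides with inner head and the predecessors form a closed set
    have hcl : ∀ x ∈ (kS G K).filter (fun x => x ∈ BC G),
        nx G x ∈ (kS G K).filter (fun x => x ∈ BC G) := by
      intro x hx
      obtain ⟨hx1, hx2⟩ := Finset.mem_filter.1 hx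
      exact Finset.mem_filter.2 ⟨nx_kS89 G hG hx1,
        (BC_head14 G hG (mem_kS89 G hx1) (h8 x hx1 hx2)).2⟩
    intro x hx hv hb
    have himg : ((kS G K).filter (fun x => x ∈ BC G)).image (nx G) =
        (kS G K).filter (fun x => x ∈ BC G) := by
      apply Finset.eq_of_subset_of_card_le
      · intro z hz
        obtain ⟨x, hx, rfl⟩ := Finset.mem_image.1 hz
        exact hcl x hx
      · rw [Finset.card_image_of_injOn]
        intro a ha b hb h
        exact nx_inj42 G hG (mem_kS89 G (Finset.mem_filter.1 (Finset.mem_coe.1 ha)).1)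
          (mem_kS89 G (Finset.mem_filter.1 (Finset.mem_coe.1 hb)).1) h
    have hm : nx G x ∈ (kS G K).filter (fun x => x ∈ BC G) :=
      Finset.mem_filter.2 ⟨nx_kS89 G hG hx, hb⟩
    rw [← himg] at hm
    obtain ⟨z, hz, he⟩ := Finset.mem_image.1 hm
    obtain ⟨hz1, hz2⟩ := Finset.mem_filter.1 hz
    have := nx_inj42 G hG (mem_kS89 G hz1) (mem_kS89 G hx) he
    subst this
    exact hv (h8 _ hz1 hz2)
  have h10 : uK14 G al K = 0 := by
    unfold uK14
    refine Finset.sum_eq_zero fun x hx => ?_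
    obtain ⟨hx1, hx2⟩ := Finset.mem_filter.1 hx
    unfold us14
    rw [if_neg (fun hb => hx2 (h8 x hx1 hb)), if_neg (h9 x hx1 hx2)]
    ring
  have h11 : ∑ x ∈ (kS G K).filter (fun x => x.2 ∈ inN G), Ds G al x < 0 := by
    obtain ⟨x, hx, hb⟩ := hK
    have hne : ((kS G K).filter (fun x => x.2 ∈ inN G)).Nonempty :=
      ⟨x, Finset.mem_filter.2 ⟨hx, h8 x hx hb⟩⟩
    calc ∑ x ∈ (kS G K).filter (fun x => x.2 ∈ inN G), Ds G al x
        < ∑ x ∈ (kS G K).filter (fun x => x.2 ∈ inN G), (0 : ℝ) :=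
          Finset.sum_lt_sum_of_nonempty hne fun x hx =>
            h1 x (Finset.mem_filter.1 hx).1 (Finset.mem_filter.1 hx).2
      _ = 0 := by simp
  have h12 : (oK14 G K : ℝ) = 0 := by
    have : oK14 G K = 0 := by omega
    rw [this]
    norm_num
  rw [h10, h12] at h3
  linarith

/-- **(U4)** the number of black faces paid by the gaps at outer points -/
theorem U4_14 (hG : G.Geo4 al kp U) (F : Finset (cg G).ConnectedComponent) (hF : F ⊆ Kc G)
    (h : ∀ K ∈ F, (∃ x ∈ kS G K, x ∈ BC G) ∧ (∀ x ∈ kS G K, x.2 ∈ inN G → Ds G al x < 0) ∧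
      ∀ x ∈ kS G K, x ∈ BC G → 0 ≤ sp G al x) : (F.card : ℝ) ≤ 2 * gam G al := by
  have h1 : (F.card : ℝ) ≤ ∑ K ∈ F, uK14 G al K := by
    rw [← nsmul_one, ← Finset.sum_const]
    refine Finset.sum_le_sum fun K hK => ?_
    obtain ⟨h2, h3, h4⟩ := h K hK
    rcases U3_14 G hG K h2 with ⟨x, hx, hv, hD⟩ | ⟨x, hx, hb, hs⟩ | ⟨h5, h6⟩
    · exact absurd (h3 x hx hv) (not_lt.2 hD)
    · exact absurd (h4 x hx hb) (not_le.2 hs)
    · have : (1 : ℝ) ≤ oK14 G K := by exact_mod_cast h5
      linarith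
  have h2 : ∑ K ∈ F, uK14 G al K ≤ ∑ K ∈ Kc G, uK14 G al K :=
    Finset.sum_le_sum_of_subset_of_nonneg hF fun K _ _ => uK_nonneg14 G hG K
  rw [sum_uK14 G hG] at h2
  linarith

end

end Pool.Agent.PEN.E5
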