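import Pool.Agent.E5.R13_90
import Pool.Agent.E5.Us14
import Pool.Agent.E5.Vs39
import Pool.Agent.E5.Fg46

/-! # PENNY, all small diameters: a black face whose only source is one leaf

The two neighbours of the white corner of the leaf have gaps with sum at most one, so the white face
has mass more than one. -/

set_option autoImplicit false

namespace Pool.Agent.PEN.E5

open Classical UpperHalfPlane
open Pool.Agent.PEN.Cl

noncomputable section

variable {V : Type} (G : Tg V) {al : ℝ} {kp : V → V → ℝ} {U : ℕ → ℝ}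

/-- if all white sides have inner heads, then nothing is used at outer points -/
theorem uK_zero2 (hG : G.Geo4 al kp U) (K : (cg G).ConnectedComponent) (h : oK14 G K = 0) :
    uK14 G al K = 0 := by
  unfold oK14 at h
  rw [Finset.card_eq_zero, Finset.filter_eq_empty_iff] at h
  have h8 : ∀ x ∈ kS G K, x ∈ BC G → x.2 ∈ inN G := by
    intro x hx hb
    by_contra hc
    exact h hx ⟨hb, hc⟩
  have h9 : ∀ x ∈ kS G K, x.2 ∉ inN G → nx G x ∉ BC G := by
    have hcl : ∀ x ∈ (kS G K).filter (fun x => x ∈ BC G),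
        nx G x ∈ (kS G K).filter (fun x => x ∈ BC G) := by
      intro x hx
      obtain ⟨hx1, hx2⟩ := Finset.mem_filter.1 hx
      exact Finset.mem_filter.2 ⟨nx_kS89 G hG hx1,
        (BC_head14 G hG (mem_kS89 G hx1) (h8 x hx1 hx2)).2⟩
    intro x hx hv hb
    have himg : ((kS G K).filter (fun x => x ∈ BC G)).image (nx G) =
        (kS G K).filter (fun x => x ∈ BC G) := by
      apply Finset.eq_of_subset_of_card_le
      · intro z hz
        obtain ⟨x, hx, rfl⟩ := Finset.mem_image.1 hz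
        exact hcl x hx
      · rw [Finset.card_image_of_injOn]
        intro a ha b hb h
        exact nx_inj42 G hG (mem_kS89 G (Finset.mem_filter.1 (Finset.mem_coe.1 ha)).1)
          (mem_kS89 G (Finset.mem_filter.1 (Finset.mem_coe.1 hb)).1) h
    have hm : nx G x ∈ (kS G K).filter (fun x => x ∈ BC G) :=
      Finset.mem_filter.2 ⟨nx_kS89 G hG hx, hb⟩
    rw [← himg] at hm
    obtain ⟨z, hz, he⟩ := Finset.mem_image.1 hm
    obtain ⟨hz1, hz2⟩ := Finset.mem_filter.1 hz
    have := nx_inj42 G hG (mem_kS89 G hz1) (mem_kS89 G hx) he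
    subst this
    exact hv (h8 _ hz1 hz2)
  unfold uK14
  refine Finset.sum_eq_zero fun x hx => ?_
  obtain ⟨hx1, hx2⟩ := Finset.mem_filter.1 hx
  unfold us14
  rw [if_neg (fun hb => hx2 (h8 x hx1 hb)), if_neg (h9 x hx1 hx2)]
  ring

/-- uses below one are at most the number of white sides with outer head -/
theorem uK_le_oK2 (hG : G.Geo4 al kp U) (K : (cg G).ConnectedComponent) (h : uK14 G al K < 1) :
    uK14 G al K ≤ oK14 G K := by
  rcases Nat.eq_zero_or_pos (oK14 G K) with h1 | h1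
  · rw [uK_zero2 G hG K h1]
    positivity
  · have : (1 : ℝ) ≤ oK14 G K := by exact_mod_cast h1
    linarith

/-- the gap of the white corner of a leaf is `1 - ep` -/
theorem leaf_gc2 (hG : G.Geo4 al kp U) (h1 : ∀ x ∈ iJ G, gc G al x ≤ 1) {x : V × V}
    (hx : x ∈ SD G) (hv : x.2 ∈ inN G) (hc : cv G x.2 = 1) :
    nx G x = sg G x ∧ gc G al (sg G x) = 1 - ep al := by
  have hS : x ∈ Sv G x.2 := (mem_Sv89 G).2 ⟨hx, rfl⟩
  obtain ⟨_, hB, he⟩ := c1_89 G hG hv hc hS
  have hs := sum_gcB39 G hG hv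
  rw [hB, Finset.sum_singleton, kv_eq89, leaf_uv39 G hG h1 hv hc] at hs
  refine ⟨he, ?_⟩
  rw [hs]
  push_cast
  ring

/-- **(L3)** a black face without weak side whose only sector with nonnegative surplus is the leaf
`x`: the neighbours of the white corner of `x` have gaps with sum at most one -/
theorem single2 (hG : G.Geo4 al kp U) (h1 : ∀ x ∈ iJ G, gc G al x ≤ 1)
    {K : (cg G).ConnectedComponent} (hu : uK14 G al K < 1)
    (hp : ∀ y ∈ kS G K, y.2 ∈ inN G → 0 ≤ Ds G al y → cv G y.2 = 1)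
    (hw : ∀ y ∈ kS G K, y ∈ BC G → 0 ≤ sp G al y)
    {x : V × V} (hx : x ∈ kS G K) (hv : x.2 ∈ inN G) (hc : cv G x.2 = 1)
    (ho : ∀ y ∈ kS G K, y.2 ∈ inN G → cv G y.2 = 1 → y = x) :
    gc G al x + gc G al (sg G (sg G x)) ≤ 1 := by
  have hxS := mem_kS89 G hx
  obtain ⟨he, hg⟩ := leaf_gc2 G hG h1 hxS hv hc
  obtain ⟨hb1, hb2⟩ := BC_head14 G hG hxS hv
  have hU := U1_14 G hG (al := al) K
  have hD : ∑ y ∈ (kS G K).filter (fun y => y.2 ∈ inN G), Ds G al y ≤ Ds G al x := by
    have hm : x ∈ (kS G K).filter (fun y => y.2 ∈ inN G) := Finset.mem_filter.2 ⟨hx, hv⟩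
    rw [← Finset.add_sum_erase _ _ hm]
    have : ∑ y ∈ ((kS G K).filter (fun y => y.2 ∈ inN G)).erase x, Ds G al y ≤ 0 := by
      refine Finset.sum_nonpos fun y hy => ?_
      obtain ⟨h3, h4⟩ := Finset.mem_erase.1 hy
      obtain ⟨h5, h6⟩ := Finset.mem_filter.1 h4
      by_contra h7
      push Not at h7
      exact h3 (ho y h5 h6 (hp y h5 h6 h7.le))
    linarith
  have hDx : Ds G al x = 2 * gc G al (sg G x) - 1 := by
    unfold Ds
    rw [he]
    ring
  have hne : sg G x ≠ x := sg_ne46 G ((mem_BC89 G).1 hb1).1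
  have hsub : ({x, sg G x} : Finset (V × V)) ⊆ (kS G K).filter (fun y => y ∈ BC G) := by
    intro y hy
    rcases Finset.mem_insert.1 hy with h | h
    · rw [h]
      exact Finset.mem_filter.2 ⟨hx, hb1⟩
    · rw [Finset.mem_singleton.1 h, ← he]
      exact Finset.mem_filter.2 ⟨nx_kS89 G hG hx, hb2⟩
  have hS : sp G al x + sp G al (sg G x) ≤
      ∑ y ∈ (kS G K).filter (fun y => y ∈ BC G), sp G al y := by
    rw [← Finset.sum_pair hne.symm]
    exact Finset.sum_le_sum_of_subset_of_nonneg hsub fun y hy _ =>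
      hw y (Finset.mem_filter.1 hy).1 (Finset.mem_filter.1 hy).2
  have hK := uK_le_oK2 G hG K hu
  unfold sp at hS
  unfold sp at hU
  linarith

/-- the white face of the only leaf has mass more than one -/
theorem single_mass2 (hG : G.Geo4 al kp U) (h1 : ∀ x ∈ iJ G, gc G al x ≤ 1)
    {K : (cg G).ConnectedComponent} (hu : uK14 G al K < 1)
    (hp : ∀ y ∈ kS G K, y.2 ∈ inN G → 0 ≤ Ds G al y → cv G y.2 = 1)
    (hw : ∀ y ∈ kS G K, y ∈ BC G → 0 ≤ sp G al y)
    {x : V × V} (hx : x ∈ kS G K) (hv : x.2 ∈ inN G) (hc : cv G x.2 = 1)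
    (ho : ∀ y ∈ kS G K, y.2 ∈ inN G → cv G y.2 = 1 → y = x)
    {C : G.adj.ConnectedComponent} (hC : C ∈ WF G) (hxC : nx G x ∈ G.cJ C) :
    uf G al C + 2 ≤ (G.cJ C).card + 3 * (G.cT C).card := by
  have hgg := single2 G hG h1 hu hp hw hx hv hc ho
  have hxS := mem_kS89 G hx
  obtain ⟨he, hg⟩ := leaf_gc2 G hG h1 hxS hv hc
  obtain ⟨hb1, hb2⟩ := BC_head14 G hG hxS hv
  have hCi := ((mem_WF89 G).1 hC).1
  have hi1 := ((mem_BC89 G).1 hb1).1
  rw [he] at hxC
  have hxC0 : x ∈ G.cJ C := by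
    obtain ⟨h2, h3⟩ := cJ_iJ51 G hCi hxC
    rw [← iJ_fiber71 G hCi, Finset.mem_filter]
    exact ⟨hi1, (W4.sg_mem51 G hG hi1).2.symm.trans h3⟩
  have hxC2 : sg G (sg G x) ∈ G.cJ C := sg_cJ46 G hG hCi hxC
  have n1 : x ≠ sg G x := (sg_ne46 G hi1).symm
  have n2 : sg G x ≠ sg G (sg G x) := (sg_ne46 G (cJ_iJ51 G hCi hxC).1).symm
  have n3 : x ≠ sg G (sg G x) := (sg2_ne90 G hG hi1).symm
  have hM := sum_cgap46 G hG hCi (al := al)
  have hsub : ({x, sg G x, sg G (sg G x)} : Finset (V × V)) ⊆ G.cJ C := by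
    intro y hy
    simp only [Finset.mem_insert, Finset.mem_singleton] at hy
    rcases hy with h | h | h <;> rw [h] <;> assumption
  have h3a : ∑ y ∈ ({x, sg G x, sg G (sg G x)} : Finset (V × V)), (1 - gc G al y) =
      (1 - gc G al x) + ((1 - gc G al (sg G x)) + (1 - gc G al (sg G (sg G x)))) := by
    rw [Finset.sum_insert (by
      simp only [Finset.mem_insert, Finset.mem_singleton]
      rintro (h | h)
      · exact n1 h
      · exact n3 h), Finset.sum_pair n2]
  have h3 : ∑ y ∈ ({x, sg G x, sg G (sg G x)} : Finset (V × V)), (1 - gc G al y) ≤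
      ∑ y ∈ G.cJ C, (1 - gc G al y) :=
    Finset.sum_le_sum_of_subset_of_nonneg hsub fun y hy _ => by
      linarith [h1 y (cJ_iJ51 G hCi hy).1]
  rw [h3a] at h3
  have h4 := ep_pos89 G hG
  have h5 : (uf G al C : ℝ) + 1 < (G.cJ C).card + 3 * (G.cT C).card := by linarith
  have h6 : uf G al C + 1 < (G.cJ C).card + 3 * (G.cT C).card := by exact_mod_cast h5
  omega

end

end Pool.Agent.PEN.E5
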