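import Pool.Agent.E5.Sf19
import Pool.Agent.E5.SL2

/-! # PENNY, all small diameters: the pentagon with 12 units and two leaves is symmetric -/

set_option autoImplicit false

namespace Pool.Agent.PEN.E5

open Classical UpperHalfPlane
open Pool.Agent.PEN.Cl

noncomputable section

/-- the chain of three sides grows strictly with its second angle -/
theorem FF_lt39 {d : ℝ} (hd : 0 < d) {y a b : ℝ} (hy : 2 * alpha d ≤ y) (hy1 : y ≤ Real.pi)
    (ha : alpha d ≤ a) (hab : a < b) (hb : b ≤ 2 * alpha d) : FF66 d y a < FF66 d y b := by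
  rw [← sub_pos, FF_sub66]
  have hp := Real.pi_pos
  have hal := alpha_lt hd
  have hal0 := alpha_pos hd
  have hC : 1 < Real.cosh d := Real.one_lt_cosh.2 hd.ne'
  have hS : 0 < Real.sinh d := Real.sinh_pos_iff.2 hd
  have s1 : 0 < Real.sin ((b - a) / 2) := Real.sin_pos_of_pos_of_lt_pi (by linarith) (by linarith)
  have s2 : 0 < Real.sin (y / 2) := Real.sin_pos_of_pos_of_lt_pi (by linarith) (by linarith)
  have s3 : 0 < Real.sin ((a + b) / 2) :=
    Real.sin_pos_of_pos_of_lt_pi (by linarith) (by linarith)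
  have c3 : 0 ≤ Real.cos (y / 2) :=
    Real.cos_nonneg_of_neg_pi_div_two_le_of_le (by linarith) (by linarith)
  have key : 0 < Real.cosh d * Real.sin (y / 2) * Real.sin ((a + b) / 2) -
      Real.cos (y / 2) * Real.cos ((a + b) / 2) := by
    rcases le_total ((a + b) / 2) (Real.pi / 2) with hm | hm
    · have k1 : Real.sin (alpha d) ≤ Real.sin ((a + b) / 2) :=
        Real.sin_le_sin_of_le_of_le_pi_div_two (by linarith) hm (by linarith)
      have k2 : Real.cos ((a + b) / 2) ≤ Real.cos (alpha d) :=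
        Real.cos_le_cos_of_nonneg_of_le_pi hal0.le (by linarith) (by linarith)
      have k3 : Real.sin (alpha d / 2) < Real.sin (y / 2) :=
        Real.sin_lt_sin_of_lt_of_le_pi_div_two (by linarith) (by linarith) (by linarith)
      have k4 : Real.cos (y / 2) ≤ Real.cos (alpha d / 2) :=
        Real.cos_le_cos_of_nonneg_of_le_pi (by linarith) (by linarith) (by linarith)
      have k5 : 0 ≤ Real.cos ((a + b) / 2) :=
        Real.cos_nonneg_of_neg_pi_div_two_le_of_le (by linarith) hm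
      have k7 : 0 < Real.sin (alpha d) :=
        Real.sin_pos_of_pos_of_lt_pi hal0 (by linarith)
      have k8 : Real.sin (alpha d / 2) * Real.sin (alpha d) <
          Real.sin (y / 2) * Real.sin ((a + b) / 2) := mul_lt_mul k3 k1 k7 s2.le
      have k9 : Real.cos (y / 2) * Real.cos ((a + b) / 2) ≤
          Real.cos (alpha d / 2) * Real.cos (alpha d) :=
        mul_le_mul k4 k2 k5 (le_trans c3 k4)
      have k10 := half_alpha66 hd
      have k11 := mul_lt_mul_of_pos_left k8 (by linarith : (0 : ℝ) < Real.cosh d)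
      linarith
    · have k2 : Real.cos ((a + b) / 2) ≤ 0 :=
        Real.cos_nonpos_of_pi_div_two_le_of_le hm (by linarith)
      have k3 : 0 < Real.cosh d * Real.sin (y / 2) * Real.sin ((a + b) / 2) := by positivity
      have k4 : Real.cos (y / 2) * Real.cos ((a + b) / 2) ≤ 0 :=
        mul_nonpos_of_nonneg_of_nonpos c3 k2
      linarith
  positivity

/-- two equal angles at distance two: the two angles between and the edge opposite are equal -/
theorem Pg19.sym39 {d t1 t2 t3 t4 t5 : ℝ} (h : Pg19 d t1 t2 t3 t4 t5) (hd : 0 < d)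
    (h3 : 2 * alpha d ≤ t3) (he : t3 = t5) (h1 : t1 ≤ 2 * alpha d) (h2 : t2 ≤ 2 * alpha d) :
    t1 = t2 := by
  have hal := alpha_lt hd
  have e1 := h.r2
  have e2 := h.r5
  rw [FF_comm66] at e1
  rw [← he] at e1 e2
  have hp : t3 ≤ Real.pi := by
    have := h.b3.2
    linarith
  rcases lt_trichotomy t1 t2 with h4 | h4 | h4
  · have := FF_lt39 hd h3 hp h.b1.1 h4 h2
    linarith
  · exact h4
  · have := FF_lt39 hd h3 hp h.b2.1 h4 h1
    linarith

section conc
variable {G : Tg ℍ} {d : ℝ} {kp : ℍ → ℍ → ℝ} {U : ℕ → ℝ}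

/-- **the pentagon with 12 units whose three unit corners have the same gap**: the gaps at the ends
of the weak side are equal and at least `1/4` -/
theorem p12_sym39 (hG : G.Geo4 (alpha d) kp U) (hD : DelG G d) (hS : Sep d G.P)
    {C : G.adj.ConnectedComponent} (hC : C ∈ WF G)
    (hm : (G.cT C).card = 3) (hI : (G.cI C).card = 4) (hU : 12 ≤ uf G (alpha d) C)
    {x : ℍ × ℍ} (hx : x ∈ G.cJ C) (hp : Pat39 G d x)
    (hg : gc G (alpha d) (sg G (sg G x)) = gc G (alpha d) (sg G (sg G (sg G (sg G x))))) :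
    gc G (alpha d) x = gc G (alpha d) (sg G x) ∧ 1 / 4 ≤ gc G (alpha d) x := by
  have hCi := ((mem_WF89 G).1 hC).1
  have hal := alpha_pos hD.hd
  have hT := pg_of19 hG hD hS hCi hm hI hx
  obtain ⟨p1, p2, p3, p4, p5⟩ := hp
  have m1 : sg G x ∈ G.cJ C := sg_cJ19 hG hCi hx
  have m2 := sg_cJ19 hG hCi m1
  have m3 := sg_cJ19 hG hCi m2
  have m4 := sg_cJ19 hG hCi m3
  have a0 := TH_gc19 G hG x
  have a1 := TH_gc19 G hG (sg G x)
  have a2 := TH_gc19 G hG (sg G (sg G x))
  have a4 := TH_gc19 G hG (sg G (sg G (sg G (sg G x))))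
  have b0 := gc_nonneg89 G hG (x := x)
  have b1 := gc_nonneg89 G hG (x := sg G x)
  have c2 := (pent_units19 hG hD hS hCi hm hI m2).g1
  have c4 := (pent_units19 hG hD hS hCi hm hI m4).g1
  rw [p1] at a0
  rw [p2] at a1
  rw [p3] at a2
  rw [p5] at a4
  push_cast at a0 a1 a2 a4
  have he : TH G x = TH G (sg G x) := by
    refine hT.sym39 hD.hd ?_ ?_ ?_ ?_
    · rw [a2]
      nlinarith
    · rw [a2, a4, hg]
    · rw [a0]
      nlinarith
    · rw [a1]
      nlinarith
  have hgx : gc G (alpha d) x = gc G (alpha d) (sg G x) := by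
    rw [a0, a1] at he
    have := mul_left_cancel₀ hal.ne' he
    linarith
  refine ⟨hgx, ?_⟩
  have hap := (pent_units19 hG hD hS hCi hm hI hx).apx p1 p2
  rw [p4] at hap
  push_cast at hap
  -- the sum of the gaps
  have hm5 : (G.cJ C).card = 5 := by
    have := m_eq46 G hCi
    omega
  obtain ⟨hJ, hcy⟩ := five90 G hG hC hm5 hx
  have hs := sum_gc_exc15 G hG hCi
  have hex := exc_nonneg15 G hG hCi
  have hle : ∑ y ∈ G.cJ C, gc G (alpha d) y ≤ gc G (alpha d) x + (gc G (alpha d) (sg G x) +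
      (gc G (alpha d) (sg G (sg G x)) + (gc G (alpha d) (sg G (sg G (sg G x))) +
      gc G (alpha d) (sg G (sg G (sg G (sg G x))))))) :=
    sum_p39 (gc G (alpha d)) (fun y => gc_nonneg89 G hG) hJ
  have hU' : (12 : ℝ) ≤ uf G (alpha d) C := by exact_mod_cast hU
  rw [hm] at hs
  push_cast at hs
  linarith

/-- **the pentagon with 12 units and two leaves** -/
theorem p12_leaf39 (hG : G.Geo4 (alpha d) kp U) (hD : DelG G d) (hS : Sep d G.P)
    {C : G.adj.ConnectedComponent} (hC : C ∈ WF G)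
    (hm : (G.cT C).card = 3) (hI : (G.cI C).card = 4) (hU : 12 ≤ uf G (alpha d) C)
    {x : ℍ × ℍ} (hx : x ∈ G.cJ C) (hp : Pat39 G d x)
    (h1 : sg G x ∈ Lv G (ku G (sg G x)))
    (h3 : sg G (sg G (sg G x)) ∈ Lv G (ku G (sg G (sg G (sg G x))))) :
    gc G (alpha d) x = gc G (alpha d) (sg G x) ∧ 1 / 4 ≤ gc G (alpha d) x := by
  have hT : ∀ x ∈ iJ G, gc G (alpha d) x ≤ 1 := fun x hx => gc_le_one19' hG hD hS hx
  refine p12_sym39 hG hD hS hC hm hI hU hx hp ?_
  obtain ⟨a1, a2, a3⟩ := (mem_Lv15 G).1 h1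
  obtain ⟨b1, b2, b3⟩ := (mem_Lv15 G).1 h3
  rw [(leaf_gc2 G hG hT (mem_kS89 G a1) a2 a3).2, (leaf_gc2 G hG hT (mem_kS89 G b1) b2 b3).2]

end conc

end

end Pool.Agent.PEN.E5
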