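import Pool.Agent.E5.Dd15
import Pool.Agent.E5.Pb39
import Pool.Agent.E5.Sy39
import Pool.Agent.E5.Pe39
import Pool.Agent.E5.Fg46
import Pool.Agent.E5.Pw63
import Pool.Agent.E5.KH2

/-! # PENNY, all small diameters: the white row of the pentagon with 12 units (set B6)

At most `5`, plus one for every bad weak side. -/

set_option autoImplicit false

namespace Pool.Agent.PEN.E5

open Classical UpperHalfPlane
open Pool.Agent.PEN.Cl

noncomputable section

section gen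
variable {V : Type} (G : Tg V) {al : ℝ} {kp : V → V → ℝ} {U : ℕ → ℝ}

/-- **the black row of a bad weak side with an outer end** -/
theorem kB0_39 (hG : G.Geo4 al kp U) {x : V × V} (h : Bd39 G al x)
    (ho : x.1 ∉ inN G ∨ x.2 ∉ inN G) {A : Finset (V × V)} (hA : A ⊆ Gb63 G al (ku G x))
    {w : V × V → ℝ} (hw : 4 ≤ w x) :
    Lv G (ku G x) = ∅ ∧ PK G al (ku G x) = ∅ ∧
      wx G 1 (ku G x) + F14 G (ku G x) + Z14 G (ku G x) + A.card + 1 ≤
        ∑ z ∈ WsK G al (ku G x), w z + 11 / 2 * uK14 G al (ku G x) + 3 * fe14 G (ku G x) := by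
  obtain ⟨a1, a2, a3, a4, a5, a6, a7⟩ := h.dig hG
  have hL := h.noLv hG
  have hm1 : x ∈ kS G (ku G x) := by
    rw [a3]
    exact Finset.mem_insert_self _ _
  have hm2 : (x.2, x.1) ∈ kS G (ku G x) := by
    rw [a3]
    exact Finset.mem_insert_of_mem (Finset.mem_singleton_self _)
  have hP : PK G al (ku G x) = ∅ := by
    rw [Finset.eq_empty_iff_forall_notMem]
    intro s hs
    obtain ⟨h1, h2⟩ := Finset.mem_filter.1 hs
    exact h.sf ((mem_Sf15 G).2 ⟨s, (mem_kS42 G).2 ⟨((mem_Pz15 G).1 h1).1, h2⟩, h1⟩)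
  have hu : 1 / 4 ≤ uK14 G al (ku G x) := by
    have hS : ∀ z ∈ kS G (ku G x), z.2 ∉ inN G → us14 G al z ≤ uK14 G al (ku G x) := by
      intro z hz hz2
      unfold uK14
      exact Finset.single_le_sum (f := fun z => us14 G al z) (fun z _ => us_nonneg14 G hG z)
        (Finset.mem_filter.2 ⟨hz, hz2⟩)
    rcases ho with h1 | h1
    · have h2 := hS (x.2, x.1) hm2 h1
      refine le_trans ?_ h2
      unfold us14
      rw [a6, if_pos h.bc]
      have h3 := gc_nonneg89 G hG (x := sg G (x.2, x.1)) (al := al)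
      have h4 := h.g0
      split_ifs <;> linarith
    · have h2 := hS x hm1 h1
      refine le_trans ?_ h2
      unfold us14
      rw [if_pos h.bc]
      have h3 := gc_nonneg89 G hG (x := nx G x) (al := al)
      have h4 := h.g1
      split_ifs <;> linarith
  refine ⟨hL, hP, ?_⟩
  by_cases hk : 1 ≤ oK14 G (ku G x)
  · exact kzero2 G hG hA hL hP h.ow hw hk hu
  · have hA0 : A = ∅ := by
      rw [Finset.eq_empty_iff_forall_notMem]
      intro z hz
      obtain ⟨z1, z2, z3, z4⟩ := Finset.mem_filter.1 (hA hz)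
      rw [a3, Finset.mem_insert, Finset.mem_singleton] at z1
      rcases z1 with rfl | rfl
      · have := h.g0'
        linarith
      · refine hk (Finset.card_pos.2 ?_)
        rcases ho with h1 | h1
        · exact ⟨(x.2, x.1), Finset.mem_filter.2 ⟨hm2, z2, h1⟩⟩
        · exact ⟨x, Finset.mem_filter.2 ⟨hm1, h.bc, h1⟩⟩
    have h4 := lemTS54 G hG (K := ku G x) (y := x) hm1
      (BC_not_oJ85 G h.bc)
    have hfe : (0 : ℝ) ≤ fe14 G (ku G x) := Nat.cast_nonneg _
    rw [h.ow, Finset.sum_singleton, hA0, Finset.card_empty]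
    push_cast
    linarith

end gen

section conc
variable {G : Tg ℍ} {d : ℝ} {kp : ℍ → ℍ → ℝ} {U : ℕ → ℝ}

/-- all bad weak sides -/
def Bset39 (G : Tg ℍ) (al : ℝ) : Finset (ℍ × ℍ) :=
  (BC G).filter (fun x => P12c G al (G.cl x) ∧ Bd39 G al x)

theorem mem_Bset39 {al : ℝ} {x : ℍ × ℍ} :
    x ∈ Bset39 G al ↔ x ∈ BC G ∧ P12c G al (G.cl x) ∧ Bd39 G al x := by
  unfold Bset39
  rw [Finset.mem_filter]

/-- **the white row of the pentagon with 12 units** -/
theorem p12_rowD39 (hG : G.Geo4 (alpha d) kp U) (hD : DelG G d) (hS : Sep d G.P)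
    {C : G.adj.ConnectedComponent} (hC : P12c G (alpha d) C) :
    ∑ x ∈ G.cJ C, wk15 G (alpha d) x +
      ∑ x ∈ (G.cJ C).filter (fun x => x.1 ∈ lfN G), ps15 G (alpha d) x ≤
      5 + cC15 G (Bset39 G (alpha d)) C := by
  have hC' := hC
  obtain ⟨hW, hm, hI, hU⟩ := hC
  have hCi := ((mem_WF89 G).1 hW).1
  obtain ⟨-, -, x, hx, hp, hJ, hcy, hWk⟩ := p12_39 hG hD hS hW hm hI hU.ge
  have hcl : ∀ y ∈ G.cJ C, G.cl y = C := fun y hy => (Finset.mem_filter.1 hy).2.1
  have hp' := hp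
  obtain ⟨p1, p2, p3, p4, p5⟩ := hp'
  have m1 : sg G x ∈ G.cJ C := sg_cJ19 hG hCi hx
  have m2 := sg_cJ19 hG hCi m1
  have m3 := sg_cJ19 hG hCi m2
  have m4 := sg_cJ19 hG hCi m3
  -- the weak sides
  have hwk : ∑ y ∈ G.cJ C, wk15 G (alpha d) y ≤ wk15 G (alpha d) x := by
    have h1 : ∀ y ∈ G.cJ C, wk15 G (alpha d) y = if y = x then wk15 G (alpha d) x else 0 := by
      intro y hy
      split_ifs with h
      · rw [h]
      · by_contra h2
        refine h (Finset.mem_singleton.1 (hWk (Finset.mem_filter.2 ⟨hy, ?_⟩)))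
        by_contra h3
        refine h2 ?_
        unfold wk15
        rw [if_neg (fun h4 => h3 h4.2)]
    rw [Finset.sum_congr rfl h1, Finset.sum_ite_eq', if_pos hx]
  -- the leaf corners
  have hps : ∀ y ∈ G.cJ C, ps15 G (alpha d) y = max ((un G (alpha d) y : ℝ) - 2) 0 := by
    intro y hy
    unfold ps15
    rw [if_pos (Or.inr (Or.inl (by rw [hcl y hy]; exact hC')))]
  obtain ⟨g, hg⟩ : ∃ g : ℍ × ℍ → ℝ, g = fun y =>
    if y.1 ∈ lfN G then ps15 G (alpha d) y else 0 := ⟨_, rfl⟩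
  have hsum : ∑ y ∈ (G.cJ C).filter (fun y => y.1 ∈ lfN G), ps15 G (alpha d) y ≤
      g x + (g (sg G x) + (g (sg G (sg G x)) + (g (sg G (sg G (sg G x))) +
        g (sg G (sg G (sg G (sg G x))))))) := by
    rw [Finset.sum_filter]
    have h1 := sum_p39 g (fun y => by
      rw [hg]
      dsimp only
      split_ifs
      · exact ps_nonneg15 G y
      · exact le_rfl) hJ
    rw [hg] at h1 ⊢
    exact h1
  have g0 : g x = 0 := by
    rw [hg]
    dsimp only
    rw [hps x hx, p1]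
    norm_num
  have g1 : g (sg G x) = 0 := by
    rw [hg]
    dsimp only
    rw [hps _ m1, p2]
    norm_num
  have g3 : g (sg G (sg G (sg G x))) = 0 := by
    rw [hg]
    dsimp only
    rw [hps _ m3, p4]
    norm_num
  have g2 : g (sg G (sg G x)) ≤ 1 := by
    rw [hg]
    dsimp only
    rw [hps _ m2, p3]
    split_ifs <;> norm_num
  have g4 : g (sg G (sg G (sg G (sg G x)))) ≤ 1 := by
    rw [hg]
    dsimp only
    rw [hps _ m4, p5]
    split_ifs <;> norm_num
  have hc0 : (0 : ℝ) ≤ cC15 G (Bset39 G (alpha d)) C := Nat.cast_nonneg _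
  by_cases hb : wk15 G (alpha d) x ≤ 3
  · linarith
  · push Not at hb
    have hb4 := wk_le15 G (al := alpha d) x
    by_cases l2 : (sg G (sg G x)).1 ∈ lfN G
    · by_cases l4 : (sg G (sg G (sg G (sg G x)))).1 ∈ lfN G
      · -- bad
        have hw : x ∈ BC G ∧ sp G (alpha d) x < 0 := by
          by_contra h
          unfold wk15 at hb
          rw [if_neg h] at hb
          linarith
        have hdg : tK G (ku G x) = 0 ∧ ku G x ∉ Sf G (alpha d) ∧
            WsK G (alpha d) (ku G x) = {x} := by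
          by_contra h
          unfold wk15 at hb
          rw [if_pos hw, if_pos ⟨by rw [hcl x hx]; exact hC', h⟩] at hb
          linarith
        have hL : ∀ y ∈ G.cJ C, (sg G y).1 ∈ lfN G → y ∈ Lv G (ku G y) := by
          intro y hy h
          have h1 := (mem_BC89 G).1 (BC_of_WF46 G hW hy)
          have h2 := BC_SD89 G h1.1 h1.2
          obtain ⟨h3, h4⟩ := (mem_lfN15 G).1 h
          exact (mem_Lv15 G).2 ⟨(mem_kS42 G).2 ⟨h2, rfl⟩, h3, h4⟩
        have k1 := hL _ m1 l2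
        have k3 := hL _ m3 l4
        obtain ⟨e1, e2⟩ := p12_leaf39 hG hD hS hW hm hI hU.ge hx hp k1 k3
        have e3 : gc G (alpha d) x + gc G (alpha d) (sg G x) < 1 := by
          have := hw.2
          unfold sp at this
          linarith
        have hB : x ∈ Bset39 G (alpha d) := Finset.mem_filter.2 ⟨hw.1, by rw [hcl x hx]; exact hC',
          { bc := hw.1, u0 := p1, u1 := p2, u2 := p3, u3 := p4, u4 := p5, cyc := hcy, wk := hw.2,
            dg := hdg.1, sf := hdg.2.1, ow := hdg.2.2, l1 := k1, l3 := k3, g0 := e2,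
            g0' := by linarith, g1 := by linarith, g1' := by linarith }⟩
        have hc1 : (1 : ℝ) ≤ cC15 G (Bset39 G (alpha d)) C := by
          have : 1 ≤ cC15 G (Bset39 G (alpha d)) C :=
            Finset.card_pos.2 ⟨x, Finset.mem_filter.2 ⟨hx, hB⟩⟩
          exact_mod_cast this
        linarith
      · have : g (sg G (sg G (sg G (sg G x)))) = 0 := by
          rw [hg]
          dsimp only
          rw [if_neg l4]
        linarith
    · have : g (sg G (sg G x)) = 0 := by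
        rw [hg]
        dsimp only
        rw [if_neg l2]
      linarith

/-- no class with 12 units has two corners in a row with three units -/
theorem p12_no39 (hG : G.Geo4 (alpha d) kp U) (hD : DelG G d) (hS : Sep d G.P)
    {C : G.adj.ConnectedComponent} (hC : P12c G (alpha d) C) {z : ℍ × ℍ} (hz : z ∈ G.cJ C) :
    un G (alpha d) z ≤ 3 ∧ ¬ (3 ≤ un G (alpha d) z ∧ 3 ≤ un G (alpha d) (sg G z)) := by
  obtain ⟨hW, hm, hI, hU⟩ := hC
  obtain ⟨-, -, x, hx, hp, hJ, hcy, -⟩ := p12_39 hG hD hS hW hm hI hU.ge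
  obtain ⟨p1, p2, p3, p4, p5⟩ := hp
  rw [hJ] at hz
  simp only [Finset.mem_insert, Finset.mem_singleton] at hz
  rcases hz with rfl | rfl | rfl | rfl | rfl
  · omega
  · omega
  · omega
  · omega
  · rw [hcy]
    omega

/-- the extra weight of a face with weight two is not negative -/
theorem yK_sp39 {C : G.adj.ConnectedComponent} (hW : C ∈ WF G) {s : ℍ × ℍ} (hs : s ∈ G.cJ C) :
    0 ≤ (yK15 G (alpha d) (ku G s) - 1) * sp G (alpha d) s := by
  unfold yK15
  split_ifs with h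
  · obtain ⟨x, ⟨_, _, h3, _, _⟩, _⟩ := h
    have hb := BC_of_WF46 G hW hs
    have h1 := (mem_BC89 G).1 hb
    have h4 : 0 ≤ sp G (alpha d) s := by
      by_contra hno
      push Not at hno
      have : s ∈ WsK G (alpha d) (ku G s) := by
        unfold WsK
        exact Finset.mem_filter.2 ⟨(mem_kS42 G).2 ⟨BC_SD89 G h1.1 h1.2, rfl⟩, hb, hno⟩
      rw [h3] at this
      exact Finset.notMem_empty _ this
    linarith
  · simp

/-- **the complete white row of `row_fin15` for the pentagon with 12 units** -/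
theorem rowC_p12_39 (hG : G.Geo4 (alpha d) kp U) (hD : DelG G d) (hS : Sep d G.P)
    (hC10 : Real.cosh d ≤ 11 / 10)
    {C : G.adj.ConnectedComponent} (hC : P12c G (alpha d) C) {GH XS VW L6 ND ZC : Finset (ℍ × ℍ)}
    (hND : Bset39 G (alpha d) ⊆ ND)
    (hVW : ∀ b ∈ VW, gc G (alpha d) b + gc G (alpha d) (sg G b) ≤ 53 / 100)
    (hL6 : ∀ z ∈ L6, 6 ≤ un G (alpha d) z)
    (hZ : ∀ z ∈ ZC, 3 ≤ un G (alpha d) z ∧ 3 ≤ un G (alpha d) (sg G z)) :
    ∑ x ∈ G.cJ C, wk15 G (alpha d) x + cC15 G VW C +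
      ∑ x ∈ (G.cJ C).filter (fun x => x.1 ∈ lfN G), ps15 G (alpha d) x + lC15 G L6 C +
      cC15 G ZC C ≤
      11 * ka G (alpha d) C - 6 * qa G C +
      ∑ s ∈ G.cJ C, (yK15 G (alpha d) (ku G s) - 1) * sp G (alpha d) s +
      cC15 G GH C + cC15 G XS C + cC15 G ND C := by
  have h1 := p12_rowD39 hG hD hS hC
  have hC' := hC
  obtain ⟨hW, hm, hI, hU⟩ := hC
  have hCi := ((mem_WF89 G).1 hW).1
  obtain ⟨hka, hqa, -⟩ := p12_39 hG hD hS hW hm hI hU.ge
  have e1 : cC15 G VW C = 0 := by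
    unfold cC15
    rw [Finset.card_eq_zero, Finset.filter_eq_empty_iff]
    intro z hz hv
    have h2 := p12_weak63 hG hD hS hC10 hCi hm hI hU.ge hz
    have h3 := hVW z hv
    unfold sp at h2
    linarith
  have e2 : lC15 G L6 C = 0 := by
    unfold lC15
    rw [Finset.card_eq_zero, Finset.filter_eq_empty_iff]
    intro z hz hv
    have h2 := (p12_no39 hG hD hS hC' (Finset.mem_filter.1 hz).1).1
    have h3 := hL6 z hv
    omega
  have e3 : cC15 G ZC C = 0 := by
    unfold cC15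
    rw [Finset.card_eq_zero, Finset.filter_eq_empty_iff]
    intro z hz hv
    exact (p12_no39 hG hD hS hC' hz).2 (hZ z hv)
  have e4 : 0 ≤ ∑ s ∈ G.cJ C, (yK15 G (alpha d) (ku G s) - 1) * sp G (alpha d) s :=
    Finset.sum_nonneg fun s hs => yK_sp39 hW hs
  have e5 : (cC15 G (Bset39 G (alpha d)) C : ℝ) ≤ cC15 G ND C := by
    have : cC15 G (Bset39 G (alpha d)) C ≤ cC15 G ND C := by
      unfold cC15
      refine Finset.card_le_card fun z hz => ?_
      obtain ⟨h2, h3⟩ := Finset.mem_filter.1 hz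
      exact Finset.mem_filter.2 ⟨h2, hND h3⟩
    exact_mod_cast this
  have e6 : (0 : ℝ) ≤ cC15 G GH C := Nat.cast_nonneg _
  have e7 : (0 : ℝ) ≤ cC15 G XS C := Nat.cast_nonneg _
  rw [e1, e2, e3, hka, hqa]
  push_cast
  linarith

/-- **all bad weak sides are paid**, in the form used by the rows -/
theorem bset_plug39 (hG : G.Geo4 (alpha d) kp U) (hD : DelG G d) (hS : Sep d G.P)
    (hC10 : Real.cosh d ≤ 11 / 10) :
    ∃ B0 NP RP LO ZP : Finset (ℍ × ℍ),
      (∀ x ∈ B0, x ∈ Bset39 G (alpha d) ∧ Bd39 G (alpha d) x ∧ (x.1 ∉ inN G ∨ x.2 ∉ inN G)) ∧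
      (∀ c ∈ NP, c ∈ BC G ∧ c.1 ∈ A2 G (alpha d) ∧ c ∈ Vl39 G (alpha d) c.1 ∧
        P12c G (alpha d) (G.cl c)) ∧
      (∀ y ∈ RP, y ∈ SD G ∧
        ((y ∈ Lv G (ku G y) ∧ nx G y ∉ Lv G (ku G y) ∧ 3 ≤ rn G (nx G y)) ∨
          (y ∉ Lv G (ku G y) ∧ 3 ≤ rn G y ∧ nx G y ∈ Lv G (ku G y)))) ∧
      (∀ s ∈ LO, s ∈ SD G ∧ s.2 ∈ inN G ∧ gc G (alpha d) (sg G s) < 1 / 2 ∧
        gc G (alpha d) (nx G s) < 1 / 2 ∧ rn G s = 1 ∧ nx G s ∈ Lv G (ku G s) ∧
        ∃ y ∈ Lv G (ku G s), nx G y = s) ∧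
      (∀ z ∈ ZP, z ∈ BC G ∧ 3 ≤ un G (alpha d) z ∧ 3 ≤ un G (alpha d) (sg G z) ∧ sg G z ∉ ZP ∧
        gc G (alpha d) z + gc G (alpha d) (sg G z) < 147 / 100 ∧ z.1 ∉ lfN G ∧
        (sg G z).1 ∉ lfN G ∧ (z.2, z.1) ∈ Bset39 G (alpha d)) ∧
      Disjoint B0 (RP ∪ LO) ∧ Disjoint RP LO ∧
      (Bset39 G (alpha d)).card ≤ B0.card + NP.card +
        ((inN G).filter (fun v => uv G (alpha d) v = 7 ∧ cv G v = 3)).card + RP.card + LO.card +
        ZP.card := by
  obtain ⟨B0, NP, RP, LO, ZP, h1, h2, h3, h4, h5, h6, h7, h8⟩ :=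
    bad_sum39 hG (Bset39 G (alpha d)) fun x hx => (mem_Bset39.1 hx).2.2
  refine ⟨B0, NP, RP, LO, ZP, ?_, ?_, h3, h4, ?_, h6, h7, h8⟩
  · intro x hx
    exact ⟨h1.1 hx, (mem_Bset39.1 (h1.1 hx)).2.2, h1.2 x hx⟩
  · intro c hc
    obtain ⟨c1, c2, c3⟩ := h2 c hc
    rcases c1 with c1 | ⟨x, hx, rfl⟩
    · obtain ⟨b1, b2, b3⟩ := mem_Bset39.1 c1
      exact ⟨b1, c2, c3, b2⟩
    · obtain ⟨b1, b2, b3⟩ := mem_Bset39.1 hx
      have hxJ : x ∈ G.cJ (G.cl x) := iJ_cJ51 G ((mem_BC89 G).1 b1).1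
      have hsJ := sg_cJ19 hG ((mem_WF89 G).1 b2.1).1 hxJ
      have hcl : G.cl (sg G x) = G.cl x := (Finset.mem_filter.1 hsJ).2.1
      exact ⟨BC_of_WF46 G b2.1 hsJ, c2, c3, by rw [hcl]; exact b2⟩
  · intro z hz
    obtain ⟨z1, z2, z3, z4, z5, z6, z7, z8, z9, z10, z11, z12⟩ := h5 z hz
    obtain ⟨b1, b2, b3⟩ := mem_Bset39.1 z2
    have hzJ : (z.2, z.1) ∈ G.cJ (G.cl (z.2, z.1)) := iJ_cJ51 G ((mem_BC89 G).1 b1).1
    obtain ⟨hW, hm, hI, hU⟩ := b2
    have hw := p12_weak63 hG hD hS hC10 ((mem_WF89 G).1 hW).1 hm hI hU.ge hzJ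
    unfold sp at hw
    have hep := ep_pos89 G hG
    refine ⟨z1, z3, z4, z5, by linarith, ?_, ?_, z2⟩
    · intro h
      have := ((mem_lfN15 G).1 h).2
      omega
    · intro h
      have := ((mem_lfN15 G).1 h).2
      have e : (sg G z).1 = z.2 := rfl
      rw [e] at this
      omega

end conc

end

end Pool.Agent.PEN.E5
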