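import Pool.Agent.E5.Fw15
import Pool.Agent.E5.Kf2
import Pool.Agent.E5.Pc39
import Pool.Agent.E5.H6f49

/-! # PENNY, all small diameters: the row of set B6 -/

set_option autoImplicit false

namespace Pool.Agent.PEN.E5

open Classical UpperHalfPlane
open Pool.Agent.PEN.Cl

noncomputable section

/-- the deficit of the turn is small -/
theorem ep_half15 {d : ℝ} (hd : 0 < d) (hd2 : d ≤ 89 / 250) : ep (alpha d) ≤ 1 / 2 := by
  have h1 := alpha_ge19 hd hd2
  have h2 := Real.pi_lt_d2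
  unfold ep
  rw [sub_le_iff_le_add, div_le_iff₀ (by linarith)]
  linarith

/-- **the row of set B6**: `y0 = 1`, `Λ = 6`, for every `d < 0.356` -/
theorem row14_15 (d : ℝ) (hd : 0 < d) (hd2 : d < 89 / 250) (G : Tg ℍ)
    (hG : G.Geo4 (alpha d) kap (Ust69 d)) (hD : DelG G d) (hH : HullT G) (hS : Sep d G.P) :
    Row14 G (alpha d) := by
  have h1 : ∀ x ∈ iJ G, gc G (alpha d) x ≤ 1 := fun x hx => gc_le_one19' hG hD hS hx
  have he := ep_half15 hd hd2.le
  have hc := cosh_tight19 hd hd2.le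
  have hPw : ∀ z ∈ BC G, P12c G (alpha d) (G.cl z) → -(23 : ℝ) / 50 ≤ sp G (alpha d) z :=
    fun z hz hP => p12_weak15 hG hD hS hd hd2.le hz hP
  have hH17 : ∀ C, H17c G (alpha d) C → ∃ x, P17 G (alpha d) C x :=
    fun C hC => pat15 hG hD hS hd hd2.le hC
  refine glue15 G hG hD hS h1 (fun C hC => opt17 hG hD hS hd2.le hC) ?_ ?_ ?_ hPw ?_ ?_ ?_
  · intro C hC z hz
    obtain ⟨x, hx⟩ := hH17 C hC
    exact h17_un15 hx hz
  · intro C hC z hz z3 z4
    obtain ⟨x, hx⟩ := hH17 C hC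
    exact h17_three15 h1 hx hz z3 z4
  · intro C hC z hz
    exact p12_three15 hG hD hS hC hz
  · intro C hC
    have h5 := p12_rowD39 hG hD hS hC
    have h6 : (cC15 G (Bset39 G (alpha d)) C : ℝ) ≤ cC15 G (Bs15 G (alpha d)) C := by
      refine cC_mono15 G fun x _ hx => ?_
      obtain ⟨h7, h8, h9⟩ := mem_Bset39.1 hx
      exact Finset.mem_filter.2 ⟨h7, h9, h8⟩
    unfold nH15
    linarith
  · intro x hx ho
    obtain ⟨h5, h6, _, _, h9, h10⟩ := b0_facts2 G hG hx ho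
    exact ⟨h5, h6, h9, h10⟩
  · intro XS VW B0 RP LO hX hRP hLO hB0 K _
    refine krow_fin2 G hG h1 he (fun a ha => gh_high15 hG hD hS hd hd2.le he ha)
      (fun a ha hL => gh_sp15 hG hD hS hd hd2.le ha hL) hPw hX ?_ (RP_of2 G hRP) (LO_of2 G hG hLO) K
    intro z hz
    obtain ⟨h5, h6, h7, h8, h9⟩ := hB0 z hz
    refine ⟨h6, h7, h5.ow, ?_, h8, h9⟩
    refine wk_bad2 G h5.dg h5.sf (by rw [h5.ow, Finset.card_singleton]) z ?_
    rw [h5.ow]
    exact Finset.mem_singleton_self z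
end

end Pool.Agent.PEN.E5
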