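import Pool.Agent.E5.Nm69
import Pool.Agent.P4.Uc27

/-! # PENNY, all small diameters: the linear bound `(29 n - 42) / 12` from the row at `Λ = 6` -/

set_option autoImplicit false

namespace Pool.Agent.PEN.E5

open Classical UpperHalfPlane
open Pool.Agent.PEN.Cl

noncomputable section

/-- the numbers at `d ≤ 0.356` -/
theorem data89b {d : ℝ} (hd : 0 < d) (h : d ≤ 89 / 250) :
    0 < alpha d ∧ 0 < A3 (alpha d) ∧ 18 * A3 (alpha d) ≤ alpha d ∧
      13 * (g51 d - A3 (alpha d)) ≤ 4 * alpha d := by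
  obtain ⟨t1, t2, _⟩ := tanh_rg69 hd
  obtain ⟨a1, a2⟩ := A3_tanh69 hd
  have hC := cosh_le69 hd h
  have a3 := a2 (A3_le177_52 hd hC)
  have hal := alpha_pos hd
  have hA := A3_pos69 hd
  have h3 : (1.732 : ℝ) ≤ √3 := by
    rw [Real.le_sqrt (by norm_num) (by norm_num)]
    norm_num
  have hg := g51_le69 hd (by linarith)
  have hpi := Real.pi_gt_d2
  have e1 : A3 (alpha d) = Real.pi - 3 * alpha d := rfl
  set T := Real.tanh (d / 2) with hT
  have hT1 : T ≤ 89 / 500 := by linarith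
  refine ⟨hal, hA, ?_, ?_⟩
  · have : T ^ 2 ≤ (89 / 500) ^ 2 := pow_le_pow_left₀ t1.le hT1 2
    nlinarith
  · have h4 : 1.732 * T ^ 2 ≤ A3 (alpha d) := (mul_le_mul_of_nonneg_right h3 (sq_nonneg T)).trans a1
    have h5 : 26 * T + 442 / 100 * T ^ 3 ≤ 418 / 100 + 20 * T ^ 2 := by
      nlinarith [mul_nonneg t1.le (sub_nonneg.2 hT1), sq_nonneg (T - 89 / 500),
        mul_nonneg (mul_nonneg t1.le t1.le) (sub_nonneg.2 hT1)]
    nlinarith

/-- **the number of contact darts from the row at `Λ = 6`** -/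
theorem darts29_89 {d : ℝ} (hd : 0 < d) (h : d ≤ 89 / 250) {G : Tg ℍ}
    (hG : G.Geo4 (alpha d) kap (Ust69 d)) (hn : 2 ≤ G.P.card)
    (hrow : 7 * ((G.P.card : ℝ) - G.oJ.card) + 4 * (G.oJ.card + (inN G).card - G.P.card) + 6 +
      3 * sE G ≤ 6 * G.iI.card + 11 * cor G (alpha d) + (G.shp (alpha d)).card) :
    6 * (G.D.filter (fun x => G.con x.1 x.2)).card + 42 ≤ 29 * G.P.card := by
  obtain ⟨t, I, A, hN, hiD, hiI, hA⟩ := num4 G hG (Ust69_zero d) (Ust69_mono d) (Ust69_sup d)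
  obtain ⟨hal, hA3, hk, hg⟩ := data89b hd h
  have hAr : Ar G = A := by rw [hA]; rfl
  have e2 : (G.iD.card : ℝ) / 3 = t := by
    rw [hiD]
    push_cast
    ring
  have hs := sE_nonneg71 G hG
  have f4 := card_inN71 G
  have f4' : (G.P.card : ℝ) ≤ G.oJ.card + (inN G).card := by exact_mod_cast f4
  have hshp : ((G.shp (alpha d)).card : ℝ) ≤ G.oJ.card := by
    have h1 : (G.shp (alpha d)).card ≤ G.iB.card := Finset.card_le_card (Finset.filter_subset _ _)
    exact_mod_cast h1.trans (iB_card27 G)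
  have hcor := cor_mul69 G hal
  rw [hAr, e2] at hcor
  have e1 : ((G.D.filter (fun x => G.con x.1 x.2)).card : ℝ) + 2 * I = 3 * t + G.oJ.card := by
    exact_mod_cast hN.edge
  have e3 : (G.iI.card : ℝ) = 2 * I := by exact_mod_cast hiI
  have hE1 : (t : ℝ) + G.oJ.card + 2 ≤ 2 * G.P.card := by exact_mod_cast hN.E1
  have hI0 : (0 : ℝ) ≤ I := Nat.cast_nonneg _
  have hup : A ≤ G.oJ.card * g51 d := hN.up.trans (Ust69_le_g hd.le _)
  have hsE : sE G = 2 * G.P.card - 2 - G.oJ.card - t := by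
    unfold sE
    rw [e2]
  rw [hsE] at hs hrow
  rw [e3] at hrow
  have hn' : (2 : ℝ) ≤ G.P.card := by exact_mod_cast hn
  rcases Nat.eq_zero_or_pos t with ht | ht
  · have h1 : (t : ℝ) = 0 := by rw [ht]; norm_num
    have h2 : 6 * ((G.D.filter (fun x => G.con x.1 x.2)).card : ℝ) + 42 ≤ 29 * G.P.card ∨
        G.P.card < 3 := by
      rcases Nat.lt_or_ge G.P.card 3 with h3 | h3
      · exact Or.inr h3
      · left
        have h4 : (3 : ℝ) ≤ G.P.card := by exact_mod_cast h3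
        rw [h1] at e1 hE1
        linarith
    rcases h2 with h2 | h2
    · exact_mod_cast h2
    · have h3 : G.P.card = 2 := by omega
      have h4 : G.oJ.card ≤ 2 := by
        have := hN.E1
        omega
      have h5 : 6 * (G.D.filter (fun x => G.con x.1 x.2)).card ≤ 12 := by
        have := hN.edge
        omega
      rw [h3]
      omega
  have hb3 : (3 : ℝ) ≤ G.oJ.card := by exact_mod_cast hN.b3 (by omega)
  set D := ((G.D.filter (fun x => G.con x.1 x.2)).card : ℝ) with hD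
  set n := (G.P.card : ℝ) with hnd
  set b := (G.oJ.card : ℝ) with hb
  set ni := ((inN G).card : ℝ) with hni
  obtain ⟨s, hsd⟩ : ∃ s, s = 2 * n - 2 - b - t := ⟨_, rfl⟩
  obtain ⟨δ, hδ⟩ : ∃ δ, δ = b + ni - n := ⟨_, rfl⟩
  have hδ0 : 0 ≤ δ := by linarith
  have hs0 : 0 ≤ s := by linarith
  have c1 : 11 * (cor G (alpha d) * alpha d) ≤
      (44 / 13 * b + 11 / 18 * (2 + s + 2 * δ)) * alpha d := by
    rw [hcor]
    have h1 : 2 * A3 (alpha d) * ni + A - A3 (alpha d) * t ≤
        b * (g51 d - A3 (alpha d)) + A3 (alpha d) * (2 + s + 2 * δ) := by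
      rw [hsd, hδ]
      linarith
    have h4 := mul_le_mul_of_nonneg_left hg (by linarith : (0 : ℝ) ≤ b)
    have h5 : (2 + s + 2 * δ) * (18 * A3 (alpha d)) ≤ (2 + s + 2 * δ) * alpha d :=
      mul_le_mul_of_nonneg_left hk (by linarith)
    nlinarith
  have c2 : 11 * cor G (alpha d) ≤ 44 / 13 * b + 11 / 18 * (2 + s + 2 * δ) := by
    rw [← mul_assoc] at c1
    exact le_of_mul_le_mul_right c1 hal
  have c5 : (t : ℝ) = 2 * n - 2 - b - s := by linarith
  have key : 6 * D + 42 ≤ 29 * n := by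
    rw [← hδ, ← hsd] at hrow
    rw [c5] at e1
    linarith
  rw [hD, hnd] at key
  exact_mod_cast key

/-- **the linear bound** -/
theorem eD_29_89 {d : ℝ} (hd : 0 < d) (h : d ≤ 89 / 250)
    (hrow : ∀ G : Tg ℍ, G.Geo4 (alpha d) kap (Ust69 d) → DelG G d → HullT G → Sep d G.P →
      7 * ((G.P.card : ℝ) - G.oJ.card) + 4 * (G.oJ.card + (inN G).card - G.P.card) + 6 +
      3 * sE G ≤ 6 * G.iI.card + 11 * cor G (alpha d) + (G.shp (alpha d)).card)
    {n : ℕ} (hn : 9 ≤ n) : 12 * eD d n + 42 ≤ 29 * n := by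
  have ha2 : 2 * Real.pi < 7 * alpha d := by
    have h1 := data89b hd h
    have h2 : A3 (alpha d) = Real.pi - 3 * alpha d := rfl
    have h3 := Real.pi_gt_three
    linarith [h1.2.2.1]
  have key : eD d n ≤ (29 * n - 42) / 12 := by
    apply eD_le
    intro P hc hP
    have h1 : cd d P ≤ 2 * ((29 * P.card - 42) / 12) := by
      refine all_gen5 hd ha2 (fun k => (29 * k - 42) / 12) (by norm_num) ?_ n ?_ hP (by omega)
        (by omega)
      · intro k hk
        show (29 * k - 42) / 12 + 2 ≤ (29 * (k + 1) - 42) / 12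
        omega
      · intro G hG hD hH hS h10 _
        obtain ⟨t, I, A, hN, _⟩ := num4 G hG (Ust69_zero d) (Ust69_mono d) (Ust69_sup d)
        obtain ⟨k, hk⟩ := hN.even
        have h1 := darts29_89 hd h hG (by omega) (hrow G hG hD hH hS)
        show _ ≤ 2 * ((29 * G.P.card - 42) / 12)
        omega
    have h4 := two_numEdges hd P
    rw [hc] at h1
    omega
  omega

end

end Pool.Agent.PEN.E5
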