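import Pool.Agent.E5.Nm69

/-! # PENNY: the row of set B6 gives all diameters up to 3 / 20 for at most 860 points

The isoperimetric inequality `A ^ 2 + 4 π A ≤ (b d) ^ 2` for the regular polygon and the
arithmetic. -/

set_option autoImplicit false

namespace Pool.Agent.PEN.E5

open Classical UpperHalfPlane
open Pool.Agent.PEN.Cl

noncomputable section

/-- the isoperimetric inequality in the form with `tanh (d / 4)` -/
theorem iso_reg51 (d : ℝ) {b : ℕ} (hb : 3 ≤ b) :
    (Ust69 d b) ^ 2 + 4 * Real.pi * Ust69 d b ≤ 16 * b ^ 2 * Real.tanh (d / 4) ^ 2 := by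
  have hpi := Real.pi_pos
  have hb3 : (3 : ℝ) ≤ b := by exact_mod_cast hb
  have hb0 : (0 : ℝ) < b := by linarith
  set w := Real.pi / b with hw
  have hw0 : 0 < w := by positivity
  have hw1 : w ≤ Real.pi / 3 := div_le_div_of_nonneg_left hpi.le (by norm_num) hb3
  set Q := Real.cosh (d / 2) with hQ
  have hQ1 : 1 ≤ Q := Real.one_le_cosh _
  have hQ0 : 0 < Q := by linarith
  -- half the apex excess
  set a := astar51 d b / 2 with ha
  have hU : Ust69 d b = 2 * b * a := by
    rw [Ust69_eq (by omega), ha]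
    ring
  have ha0 : 0 ≤ a := by
    have h1 := Ust69_nonneg d b
    rw [hU] at h1
    have h2 : 0 < 2 * (b : ℝ) := by positivity
    exact nonneg_of_mul_nonneg_right h1 h2
  have hcw : 0 ≤ Real.cos w := Real.cos_nonneg_of_neg_pi_div_two_le_of_le (by linarith) (by linarith)
  have hcw1 : Real.cos w / Q ≤ 1 := by
    rw [div_le_one hQ0]
    exact (Real.cos_le_one w).trans hQ1
  have hcos : Real.cos (w + a) = Real.cos w / Q := by
    have e : w + a = Real.arccos (Real.cos w / Q) := by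
      rw [ha]
      unfold astar51 psi51
      rw [← hw, ← hQ]
      ring
    rw [e, Real.cos_arccos (by linarith [div_nonneg hcw hQ0.le]) hcw1]
  have hwa : w + a ≤ Real.pi / 2 := by
    by_contra hcon
    push Not at hcon
    have e : w + a = Real.arccos (Real.cos w / Q) := by
      rw [ha]
      unfold astar51 psi51
      rw [← hw, ← hQ]
      ring
    have h1 : Real.arccos (Real.cos w / Q) ≤ Real.pi / 2 :=
      Real.arccos_le_pi_div_two.2 (div_nonneg hcw hQ0.le)
    linarith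
  -- half of `a`
  set T := Real.tan (a / 2) with hT
  have hca : 0 < Real.cos (a / 2) := Real.cos_pos_of_mem_Ioo ⟨by linarith, by linarith⟩
  have hsa : 0 ≤ Real.sin (a / 2) := Real.sin_nonneg_of_nonneg_of_le_pi (by linarith) (by linarith)
  have hcw' : 0 < Real.cos w := Real.cos_pos_of_mem_Ioo ⟨by linarith, by linarith⟩
  have hsw : 0 < Real.sin w := Real.sin_pos_of_pos_of_lt_pi hw0 (by linarith)
  have e1 : Real.cos a = Real.cos (a / 2) ^ 2 - Real.sin (a / 2) ^ 2 := by
    rw [← Real.cos_two_mul']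
    congr 1
    ring
  have e2 : Real.sin a = 2 * Real.sin (a / 2) * Real.cos (a / 2) := by
    rw [← Real.sin_two_mul]
    congr 1
    ring
  have e3 := Real.sin_sq_add_cos_sq (a / 2)
  set c := Real.cos (a / 2) with hc
  set s := Real.sin (a / 2) with hs
  have hTs : T = s / c := Real.tan_eq_sin_div_cos _
  -- tanh (d / 4)
  set q := Real.tanh (d / 4) with hq
  have hqQ : q ^ 2 * (Q + 1) = Q - 1 := by
    have h1 : Q = 2 * Real.cosh (d / 4) ^ 2 - 1 := by
      have := Real.cosh_two_mul (d / 4)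
      rw [show 2 * (d / 4) = d / 2 by ring] at this
      have h2 := Real.cosh_sq (d / 4)
      linarith
    have h3 : 0 < Real.cosh (d / 4) := Real.cosh_pos _
    rw [hq, Real.tanh_eq_sinh_div_cosh, div_pow, h1]
    have h2 := Real.cosh_sq (d / 4)
    field_simp
    nlinarith
  -- main identity: `Q (cos w cos a - sin w sin a) = cos w`
  have m1 : Q * (Real.cos w * (c ^ 2 - s ^ 2) - Real.sin w * (2 * s * c)) = Real.cos w := by
    rw [Real.cos_add, e1, e2] at hcos
    rw [hcos]
    field_simp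
  -- divide by `cos w c ^ 2`
  have m2 : Q * ((1 - T ^ 2) - 2 * Real.tan w * T) = 1 + T ^ 2 := by
    have hc2 : c ^ 2 = 1 - s ^ 2 := by linarith
    rw [hTs, Real.tan_eq_sin_div_cos w]
    have : Q * (Real.cos w * (c ^ 2 - s ^ 2) - Real.sin w * (2 * s * c)) =
        Real.cos w * (s ^ 2 + c ^ 2) := by rw [m1, e3, mul_one]
    field_simp
    nlinarith
  have hT0 : 0 ≤ T := by rw [hTs]; positivity
  have ht0 : w ≤ Real.tan w := by
    apply Real.le_tan hw0.le
    linarith
  have htan0 : 0 < Real.tan w := by linarith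
  -- `T ^ 2 + T tan w ≤ q ^ 2`
  have m3 : T ^ 2 + T * Real.tan w ≤ q ^ 2 := by
    have h1 : Q - 1 = T ^ 2 * (Q + 1) + 2 * Real.tan w * T * Q := by linarith
    have h2 : 0 ≤ Real.tan w * T := by positivity
    have h3 : q ^ 2 * (Q + 1) = T ^ 2 * (Q + 1) + 2 * Real.tan w * T * Q := by
      rw [hqQ]
      exact h1
    have h4 : (T ^ 2 + T * Real.tan w) * (Q + 1) ≤ q ^ 2 * (Q + 1) := by
      rw [h3]
      nlinarith
    exact le_of_mul_le_mul_right h4 (by linarith)
  have m4 : a / 2 ≤ T := by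
    apply Real.le_tan (by linarith)
    linarith
  have m5 : (a / 2) ^ 2 + (a / 2) * w ≤ q ^ 2 := by
    have h1 : (a / 2) ^ 2 ≤ T ^ 2 := pow_le_pow_left₀ (by linarith) m4 2
    have h2 : (a / 2) * w ≤ T * Real.tan w := mul_le_mul m4 ht0 hw0.le hT0
    linarith
  rw [hU]
  have e4 : (2 * (b : ℝ) * a) ^ 2 + 4 * Real.pi * (2 * b * a) =
      16 * b ^ 2 * ((a / 2) ^ 2 + (a / 2) * w) := by
    rw [hw]
    field_simp
    ring
  rw [e4]
  exact mul_le_mul_of_nonneg_left m5 (by positivity)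

/-- `tanh (d / 4)` against the area of the contact triangle -/
theorem tanh4_51 {d : ℝ} (hd : 0 < d) (h : d ≤ 3 / 20) :
    16 * Real.tanh (d / 4) ^ 2 ≤ 2316 / 1000 * A3 (alpha d) := by
  obtain ⟨a1, _⟩ := A3_tanh69 hd
  have s1 : 1732 / 1000 ≤ √(3 : ℝ) := by
    rw [Real.le_sqrt (by norm_num) (by norm_num)]
    norm_num
  obtain ⟨t0, t1, _⟩ := tanh_rg69 (d := d / 2) (by linarith)
  rw [show d / 2 / 2 = d / 4 by ring] at t0 t1
  have hC : 0 < Real.cosh (d / 4) := Real.cosh_pos _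
  have hdb : Real.tanh (d / 2) * (1 + Real.tanh (d / 4) ^ 2) = 2 * Real.tanh (d / 4) := by
    have e1 := Real.sinh_two_mul (d / 4)
    have e2 := Real.cosh_two_mul (d / 4)
    rw [show 2 * (d / 4) = d / 2 by ring] at e1 e2
    rw [Real.tanh_eq_sinh_div_cosh (d / 2), Real.tanh_eq_sinh_div_cosh (d / 4), e1, e2]
    have h3 : 0 < Real.cosh (d / 4) ^ 2 + Real.sinh (d / 4) ^ 2 := by positivity
    field_simp
  set q := Real.tanh (d / 4) with hq
  set τ := Real.tanh (d / 2) with hτ
  have hq1 : q ≤ 3 / 80 := by linarith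
  have hq2 : q ^ 2 ≤ (3 / 80) ^ 2 := pow_le_pow_left₀ t0.le hq1 2
  have h4 : 4 * q ^ 2 = τ ^ 2 * (1 + q ^ 2) ^ 2 := by
    have : (2 * q) ^ 2 = (τ * (1 + q ^ 2)) ^ 2 := by rw [hdb]
    nlinarith
  have h5 : (1 + q ^ 2) ^ 2 ≤ 1002815 / 1000000 := by
    have : (1 + q ^ 2) ^ 2 ≤ (1 + (3 / 80) ^ 2) ^ 2 :=
      pow_le_pow_left₀ (by positivity) (by linarith) 2
    refine this.trans ?_
    norm_num
  have h6 : τ ^ 2 * (1 + q ^ 2) ^ 2 ≤ τ ^ 2 * (1002815 / 1000000) :=
    mul_le_mul_of_nonneg_left h5 (sq_nonneg _)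
  have h7 := mul_le_mul_of_nonneg_right s1 (sq_nonneg τ)
  nlinarith

/-- the polynomial inequality: `f y < 0` between the two ends -/
theorem poly860_51 {a y : ℝ} (ha : 0 ≤ a) (ha1 : a ≤ 102 / 10000) (h1 : 22 ≤ y)
    (h2 : y ≤ 1630) :
    ((3 / 4 + 3801 / 100 * a) * y + 263 / 2) ^ 2 <
      89741 / 1000 * (y * (12566 / 1000 + a * y)) := by
  have haa : 0 ≤ a * (102 / 10000 - a) := mul_nonneg ha (by linarith)
  set f : ℝ → ℝ := fun z => ((3 / 4 + 3801 / 100 * a) * z + 263 / 2) ^ 2 -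
    89741 / 1000 * (z * (12566 / 1000 + a * z)) with hf
  have f22 : f 22 ≤ -100 := by
    rw [hf]
    nlinarith
  have f1630 : f 1630 ≤ -100 := by
    rw [hf]
    nlinarith
  have c2 : 0 ≤ (3 / 4 + 3801 / 100 * a) ^ 2 - 89741 / 1000 * a := by
    nlinarith [sq_nonneg (a - 113 / 10000)]
  have id1 : f y * 1608 = f 22 * (1630 - y) + f 1630 * (y - 22) -
      ((3 / 4 + 3801 / 100 * a) ^ 2 - 89741 / 1000 * a) * (1608 * ((y - 22) * (1630 - y))) := by
    rw [hf]
    ring
  have t1 : f 22 * (1630 - y) ≤ -100 * (1630 - y) := mul_le_mul_of_nonneg_right f22 (by linarith)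
  have t2 : f 1630 * (y - 22) ≤ -100 * (y - 22) := mul_le_mul_of_nonneg_right f1630 (by linarith)
  have t3 : 0 ≤ ((3 / 4 + 3801 / 100 * a) ^ 2 - 89741 / 1000 * a) *
      (1608 * ((y - 22) * (1630 - y))) :=
    mul_nonneg c2 (mul_nonneg (by norm_num) (mul_nonneg (by linarith) (by linarith)))
  have : f y < 0 := by linarith
  rw [hf] at this
  linarith

/-- the arithmetic of the last clause, `y = A / A3` -/
theorem arith860_51 {a y n b s : ℝ} (ha : 0 < a) (ha1 : a ≤ 102 / 10000) (hb : 0 ≤ b)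
    (hs : 0 ≤ s) (hn1 : 98 ≤ n) (hn2 : n ≤ 860) (hy : 2 * n - 2 - b - s ≤ y) (hy0 : 0 ≤ y)
    (hiso : y * (12566 / 1000 + a * y) ≤ 2316 / 1000 * b ^ 2) :
    3 / 2 * n + 130 + 3801 / 100 * (a * y) ≤ 91 / 6 * b + 60 * s := by
  by_contra hcon
  push Not at hcon
  rcases lt_or_ge y 22 with h | h
  · have h1 : a * y ≤ 102 / 10000 * 22 := by
      apply mul_le_mul ha1 h.le hy0 (by norm_num)
    linarith
  rcases le_or_gt y 1630 with h2 | h2
  · have p := poly860_51 ha.le ha1 h h2
    have h3 : 173 / 12 * b < (3 / 4 + 3801 / 100 * a) * y + 263 / 2 := by nlinarith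
    have h4 : (173 / 12 * b) ^ 2 < ((3 / 4 + 3801 / 100 * a) * y + 263 / 2) ^ 2 :=
      pow_lt_pow_left₀ h3 (by positivity) (by norm_num)
    nlinarith
  · -- many triangles: `b` is large
    set z := a * y with hz
    have hz0 : 0 ≤ z := mul_nonneg ha.le hy0
    have hyz : z / (102 / 10000) ≤ y := by
      rw [div_le_iff₀ (by norm_num), mul_comm]
      exact mul_le_mul_of_nonneg_right ha1 hy0
    have b1 : 1630 * (12566 / 1000 + z) ≤ 2316 / 1000 * b ^ 2 := by
      have : 1630 * (12566 / 1000 + z) ≤ y * (12566 / 1000 + z) :=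
        mul_le_mul_of_nonneg_right h2.le (by positivity)
      linarith
    have b2 : z / (102 / 10000) * (12566 / 1000 + z) ≤ 2316 / 1000 * b ^ 2 := by
      have : z / (102 / 10000) * (12566 / 1000 + z) ≤ y * (12566 / 1000 + z) :=
        mul_le_mul_of_nonneg_right hyz (by positivity)
      linarith
    have b3 : 91 / 6 * b < 1420 + 3801 / 100 * z := by linarith
    have b4 : (91 / 6 * b) ^ 2 < (1420 + 3801 / 100 * z) ^ 2 :=
      pow_lt_pow_left₀ b3 (by positivity) (by norm_num)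
    rcases le_or_gt z 37 with h5 | h5
    · nlinarith
    · nlinarith

/-- **set B6 for small diameters**: the row with the sharp points gives the bound of the strips for
at most 860 points -/
theorem darts_860_51 {d σ : ℝ} (hd : 0 < d) (hd1 : d ≤ 3 / 20) {G : Tg ℍ}
    (hG : G.Geo4 (alpha d) kap (Ust69 d)) (hn : 98 ≤ G.P.card) (hn2 : G.P.card ≤ 860)
    (hσ0 : 0 ≤ σ)
    (hσ : (3 + ep (alpha d)) * σ ≤ (2 + ep (alpha d)) * G.oJ.card + 6 + 3 * sE G +
      6 * (G.oJ.card + (inN G).card - G.P.card) + cor G (alpha d))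
    (hR : 7 * ((G.P.card : ℝ) - G.oJ.card) + 4 * (G.oJ.card + (inN G).card - G.P.card) + 6 +
      3 * sE G ≤ 6 * G.iI.card + 11 * cor G (alpha d) + σ) :
    (G.D.filter (fun x => G.con x.1 x.2)).card ≤ 2 * Lb G.P.card := by
  obtain ⟨t, I, A, hN, hiD, hiI, hA⟩ := num4 G hG (Ust69_zero d) (Ust69_mono d) (Ust69_sup d)
  have hal := alpha_pos hd
  have hA3 := A3_pos69 hd
  have hAr : Ar G = A := by rw [hA]; rfl
  have e2 : (G.iD.card : ℝ) / 3 = t := by
    rw [hiD]
    push_cast
    ring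
  have hs := sE_nonneg71 G hG
  have e3 : (G.iI.card : ℝ) = 2 * I := by exact_mod_cast hiI
  have f4 := card_inN71 G
  have f4' : (G.P.card : ℝ) ≤ G.oJ.card + (inN G).card := by exact_mod_cast f4
  have e1 : ((G.D.filter (fun x => G.con x.1 x.2)).card : ℝ) + 2 * I = 3 * t + G.oJ.card := by
    exact_mod_cast hN.edge
  have hn' : (98 : ℝ) ≤ G.P.card := by exact_mod_cast hn
  have hn2' : (G.P.card : ℝ) ≤ 860 := by exact_mod_cast hn2
  have hlow := hN.low
  have hA0 : 0 ≤ A := (mul_nonneg hA3.le (Nat.cast_nonneg t)).trans hlow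
  set a := A3 (alpha d) with hadef
  set al := alpha d with haldef
  -- numbers
  obtain ⟨t0, t1, _⟩ := tanh_rg69 hd
  have hτ : Real.tanh (d / 2) ≤ 3 / 40 := by linarith
  have hτ2 : Real.tanh (d / 2) ^ 2 ≤ (3 / 40) ^ 2 := pow_le_pow_left₀ t0.le hτ 2
  have a2 := (A3_tanh69 hd).2 (A3_le177_52 hd (cosh_le69 hd (by linarith)))
  rw [← haldef, ← hadef] at a2
  have ha1 : a ≤ 102 / 10000 := by
    norm_num at hτ2
    linarith
  have hpi := Real.pi_gt_d4
  have hal1 : 10437 / 10000 ≤ al := by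
    have e : al = (Real.pi - a) / 3 := by rw [hadef]; unfold A3; ring
    rw [e]
    linarith
  have hs' : sE G = 2 * G.P.card - 2 - G.oJ.card - t := by
    unfold sE
    rw [e2]
  rcases Nat.lt_or_ge G.oJ.card 3 with hb | hb
  · -- no triangles
    have ht : t = 0 := by
      by_contra h
      have := hN.b3 h
      omega
    have hb' : (G.oJ.card : ℝ) ≤ 2 := by
      have : G.oJ.card ≤ 2 := by omega
      exact_mod_cast this
    have h1 : ((G.D.filter (fun x => G.con x.1 x.2)).card : ℝ) ≤ 2 := by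
      rw [ht] at e1
      push_cast at e1
      have : (0 : ℝ) ≤ I := Nat.cast_nonneg _
      linarith
    have h2 : (G.D.filter (fun x => G.con x.1 x.2)).card ≤ 2 := by exact_mod_cast h1
    unfold Lb
    rw [if_neg (by omega), if_pos (by omega)]
    have h6 := le_max_right (max ((7 * G.P.card - 15) / 3) ((19 * G.P.card - 48) / 8))
      ((50 * G.P.card - 135) / 21)
    have h7 : 1 ≤ (50 * G.P.card - 135) / 21 := by
      rw [Nat.le_div_iff_mul_le (by norm_num)]
      omega
    omega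
  have hb3 : (3 : ℝ) ≤ G.oJ.card := by exact_mod_cast hb
  -- the isoperimetric inequality
  have hiso : A ^ 2 + 4 * Real.pi * A ≤ 2316 / 1000 * a * (G.oJ.card : ℝ) ^ 2 := by
    have i1 := iso_reg51 d hb
    have i2 := tanh4_51 hd hd1
    have i3 : A ^ 2 ≤ (Ust69 d G.oJ.card) ^ 2 := pow_le_pow_left₀ hA0 hN.up 2
    have i4 : 4 * Real.pi * A ≤ 4 * Real.pi * Ust69 d G.oJ.card :=
      mul_le_mul_of_nonneg_left hN.up (by positivity)
    have i5 := mul_le_mul_of_nonneg_right i2 (sq_nonneg (G.oJ.card : ℝ))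
    rw [← haldef, ← hadef] at i5
    nlinarith
  have hcor : cor G al * al = 2 * a * (inN G).card + A - a * t := by
    have h1 := cor_mul69 G hal
    rw [hAr, e2] at h1
    exact h1
  set y := A / a with hy
  have hAy : A = a * y := by
    rw [hy]
    field_simp
  have hy0 : 0 ≤ y := div_nonneg hA0 hA3.le
  have hty : (t : ℝ) ≤ y := by
    rw [hy, le_div_iff₀ hA3]
    linarith
  have hD : 0 ≤ (G.oJ.card : ℝ) + (inN G).card - G.P.card := by linarith
  have key := arith860_51 (a := a) (y := y) (n := G.P.card) (b := G.oJ.card) (s := sE G) hA3 ha1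
    (by linarith) hs hn' hn2' (by linarith) hy0 (by
      have h1 : a * (y * (12566 / 1000 + a * y)) ≤ a * (2316 / 1000 * (G.oJ.card : ℝ) ^ 2) := by
        have h2 : a * (y * (12566 / 1000 + a * y)) = 12566 / 1000 * A + A ^ 2 := by
          rw [hAy]
          ring
        rw [h2]
        have h3 : 12566 / 1000 * A ≤ 4 * Real.pi * A :=
          mul_le_mul_of_nonneg_right (by linarith) hA0
        linarith
      exact le_of_mul_le_mul_left h1 hA3)
  rw [← hAy] at key
  -- the curvature term and the excess of the sharp points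
  set D := (G.oJ.card : ℝ) + (inN G).card - G.P.card with hDd
  set b := (G.oJ.card : ℝ) with hbd
  have hep : ep al * al = 2 * a := by
    unfold ep
    rw [hadef]
    unfold A3
    field_simp
    ring
  have hc1 : 119 / 3 * cor G al + 7 / 6 * (ep al * b) ≤ 3801 / 100 * A + 2 / 5 * sE G +
      4 / 5 * D := by
    have h1 : (119 / 3 * cor G al + 7 / 6 * (ep al * b)) * al = 119 / 3 * (A - a * (b - 2) +
        a * sE G + 2 * a * D) + 7 / 3 * (a * b) := by
      have e : (119 / 3 * cor G al + 7 / 6 * (ep al * b)) * al =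
          119 / 3 * (cor G al * al) + 7 / 6 * (ep al * al) * b := by ring
      rw [e, hcor, hep, hs', hDd]
      ring
    have h0 : a * 3 ≤ a * b := mul_le_mul_of_nonneg_left hb3 hA3.le
    have h2 : a * sE G ≤ 102 / 10000 * sE G := mul_le_mul_of_nonneg_right ha1 hs
    have h3 : a * D ≤ 102 / 10000 * D := mul_le_mul_of_nonneg_right ha1 hD
    set Z := 119 / 3 * cor G al + 7 / 6 * (ep al * b) with hZ
    have h6 : Z * al ≤ 119 / 3 * A + 119 / 3 * (102 / 10000) * sE G +
        119 / 3 * (204 / 10000) * D := by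
      rw [h1]
      linarith
    rcases le_or_gt Z 0 with h4 | h4
    · have : 0 ≤ 3801 / 100 * A + 2 / 5 * sE G + 4 / 5 * D := by positivity
      linarith
    · have h5 : Z * (10437 / 10000) ≤ Z * al := mul_le_mul_of_nonneg_left hal1 h4.le
      linarith
  have hep0 : 0 ≤ ep al := by
    have h1 : 0 < ep al * al := by
      rw [hep]
      linarith
    exact (pos_of_mul_pos_left h1 hal.le).le
  have hσ2 : 3 * σ ≤ 2 * b + ep al * b + 6 + 3 * sE G + 6 * D + cor G al := by
    have h1 : 0 ≤ ep al * σ := mul_nonneg hep0 hσ0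
    linarith
  rw [e3] at hR
  -- assembly
  have key2 : 21 * ((G.D.filter (fun x => G.con x.1 x.2)).card : ℝ) + 270 ≤
      100 * G.P.card := by
    linarith
  have key' : 21 * (G.D.filter (fun x => G.con x.1 x.2)).card + 270 ≤ 100 * G.P.card := by
    exact_mod_cast key2
  obtain ⟨k, hk⟩ := hN.even
  unfold Lb
  rw [if_neg (by omega), if_pos (by omega)]
  have h5 : k ≤ (50 * G.P.card - 135) / 21 := by
    rw [Nat.le_div_iff_mul_le (by norm_num)]
    omega
  have h6 := le_max_right (max ((7 * G.P.card - 15) / 3) ((19 * G.P.card - 48) / 8))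
    ((50 * G.P.card - 135) / 21)
  omega

/-- **Q1 for all diameters up to 3 / 20 and at most 860 points** from the row of set B6 -/
theorem q1_860_51 {e d : ℝ} (he : 0 < e) (ha : alpha e = 2 * Real.pi / 7) (hd : 0 < d)
    (hd1 : d ≤ 3 / 20)
    (hrow : ∀ G : Tg ℍ, G.Geo4 (alpha d) kap (Ust69 d) → DelG G d → HullT G → Sep d G.P →
      98 ≤ G.P.card → G.P.card ≤ 860 →
      ∃ σ : ℝ, 0 ≤ σ ∧
        (3 + ep (alpha d)) * σ ≤ (2 + ep (alpha d)) * G.oJ.card + 6 + 3 * sE G +
          6 * (G.oJ.card + (inN G).card - G.P.card) + cor G (alpha d) ∧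
        7 * ((G.P.card : ℝ) - G.oJ.card) + 4 * (G.oJ.card + (inN G).card - G.P.card) + 6 +
          3 * sE G ≤ 6 * G.iI.card + 11 * cor G (alpha d) + σ)
    {n : ℕ} (hn : n ≤ 860) : eD d n ≤ eD e n := by
  refine q1_of_main5 he ha hd 860 (fun _ G hG hD hH hS h10 hN => ?_) hn
  rcases Nat.lt_or_ge G.P.card 98 with hn2 | hn2
  · obtain ⟨t, I, A, hN4, hiD, hiI, _⟩ := num4 G hG (Ust69_zero d) (Ust69_mono d) (Ust69_sup d)
    apply fin52 hN4
    have hE1 := hN4.E1
    exact G_num52 hd (cosh_le69 hd (by linarith)) h10 (by omega) (by omega) hN4.low hN4.up hN4.G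
  · obtain ⟨σ, h0, h1, h2⟩ := hrow G hG hD hH hS hn2 hN
    exact darts_860_51 hd hd1 hG hn2 hN h0 h1 h2

end

end Pool.Agent.PEN.E5
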