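import Pool.Agent.E5.Nf69

/-! # PENNY, all small diameters: the numerics of the row with sharp darts, the intervals above 17 / 100 -/

set_option autoImplicit false

namespace Pool.Agent.PEN.E5

open Classical UpperHalfPlane
open Pool.Agent.PEN.Cl

noncomputable section

/-- the number of contacts at one diameter, with inequality B -/
def CB69 (d : ℝ) : Prop := ∀ G : Tg ℍ, G.Geo4 (alpha d) kap (Ust69 d) → DelG G d → HullT G →
  Sep d G.P → 98 ≤ G.P.card → Row69 6 G (alpha d) →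
    (G.P.card : ℝ) - G.oJ.card - cor G (alpha d) / 2 ≤ G.iI.card →
    (G.D.filter (fun x => G.con x.1 x.2)).card ≤ 2 * Lb G.P.card

theorem ib0_69 {d : ℝ} (hd : 0 < d) (hd2 : d ≤ 89 / 250)
    (h1 : 17 / 100 ≤ Real.tanh (d / 2)) (h2 : Real.tanh (d / 2) ≤ 108 / 625) : CB69 d := by
  intro G hG hD hH hS hn hR hB
  exact int69 hd hd2 (x1 := 50297 / 1000000) (x2 := 26001 / 500000)
    (al0 := 102983 / 100000) (g := 69471 / 200000) (Gc := 339651 / 50000)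
    (c2 := 12127 / 50000) (r := 49447 / 1000000)
    (k := 789 / 15625) (e := 1578 / 15625)
    (lU := 3 / 5) (mU := 40633 / 10000) (l1 := 3 / 5) (m1 := 40633 / 10000)
    (l2 := 4 / 5) (m2 := 3323 / 10000)
    (X := 502) (S := 9854736) (R1 := 11384) (R2 := 37338) (B := 71) h1 h2
    (by constructor <;> norm_num) (by norm_num)
    (by norm_num) (by norm_num) (by norm_num) (by norm_num) (by decide +kernel)
    (by decide +kernel)
    (by refine ⟨?_, ?_, ?_, ?_, ?_, ⟨?_, ?_, ?_, ?_, ?_, ?_⟩, ?_, ?_, ⟨?_, ?_, ?_, ?_, ?_, ?_⟩, ?_, ?_,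
      ⟨?_, ?_, ?_, ?_, ?_, ?_⟩, ?_, ?_⟩ <;> norm_num [Sl69, Kn69])
    (by norm_num) hG hD hH hS hn hR (Or.inr hB)

theorem ib1_69 {d : ℝ} (hd : 0 < d) (hd2 : d ≤ 89 / 250)
    (h1 : 108 / 625 ≤ Real.tanh (d / 2)) (h2 : Real.tanh (d / 2) ≤ 1753 / 10000) : CB69 d := by
  intro G hG hD hH hS hn hR hB
  exact int69 hd hd2 (x1 := 6497 / 125000) (x2 := 26763 / 500000)
    (al0 := 25733 / 25000) (g := 22027 / 62500) (Gc := 83537 / 12500)
    (c2 := 246067 / 1000000) (r := 24853 / 500000)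
    (k := 26001 / 500000) (e := 26001 / 250000)
    (lU := 3 / 5) (mU := 40593 / 10000) (l1 := 3 / 5) (m1 := 40593 / 10000)
    (l2 := 4 / 5) (m2 := 903 / 2500)
    (X := 519) (S := 9849805) (R1 := 11294) (R2 := 38176) (B := 73) h1 h2
    (by constructor <;> norm_num) (by norm_num)
    (by norm_num) (by norm_num) (by norm_num) (by norm_num) (by decide +kernel)
    (by decide +kernel)
    (by refine ⟨?_, ?_, ?_, ?_, ?_, ⟨?_, ?_, ?_, ?_, ?_, ?_⟩, ?_, ?_, ⟨?_, ?_, ?_, ?_, ?_, ?_⟩, ?_, ?_,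
      ⟨?_, ?_, ?_, ?_, ?_, ?_⟩, ?_, ?_⟩ <;> norm_num [Sl69, Kn69])
    (by norm_num) hG hD hH hS hn hR (Or.inr hB)

theorem ib2_69 {d : ℝ} (hd : 0 < d) (hd2 : d ≤ 89 / 250)
    (h1 : 1753 / 10000 ≤ Real.tanh (d / 2)) (h2 : Real.tanh (d / 2) ≤ 887 / 5000) : CB69 d := by
  intro G hG hD hH hS hn hR hB
  exact int69 hd hd2 (x1 := 26749 / 500000) (x2 := 6853 / 125000)
    (al0 := 102889 / 100000) (g := 356699 / 1000000) (Gc := 41173 / 6250)
    (c2 := 24903 / 100000) (r := 49927 / 1000000)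
    (k := 10657 / 200000) (e := 10657 / 100000)
    (lU := 3 / 5) (mU := 507 / 125) (l1 := 3 / 5) (m1 := 507 / 125)
    (l2 := 4 / 5) (m2 := 1919 / 5000)
    (X := 534) (S := 9845453) (R1 := 11218) (R2 := 39050) (B := 75) h1 h2
    (by constructor <;> norm_num) (by norm_num)
    (by norm_num) (by norm_num) (by norm_num) (by norm_num) (by decide +kernel)
    (by decide +kernel)
    (by refine ⟨?_, ?_, ?_, ?_, ?_, ⟨?_, ?_, ?_, ?_, ?_, ?_⟩, ?_, ?_, ⟨?_, ?_, ?_, ?_, ?_, ?_⟩, ?_, ?_,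
      ⟨?_, ?_, ?_, ?_, ?_, ?_⟩, ?_, ?_⟩ <;> norm_num [Sl69, Kn69])
    (by norm_num) hG hD hH hS hn hR (Or.inr hB)

theorem ib3_69 {d : ℝ} (hd : 0 < d) (hd2 : d ≤ 89 / 250)
    (h1 : 887 / 5000 ≤ Real.tanh (d / 2)) (h2 : Real.tanh (d / 2) ≤ 1781 / 10000) : CB69 d := by
  intro G hG hD hH hS hn hR hB
  exact int69 hd hd2 (x1 := 27397 / 500000) (x2 := 2763 / 50000)
    (al0 := 51437 / 50000) (g := 358121 / 1000000) (Gc := 650971 / 100000)
    (c2 := 125009 / 500000) (r := 6263 / 125000)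
    (k := 53717 / 1000000) (e := 53717 / 500000)
    (lU := 3 / 5) (mU := 10137 / 2500) (l1 := 3 / 5) (m1 := 10137 / 2500)
    (l2 := 4 / 5) (m2 := 238 / 625)
    (X := 547) (S := 9841681) (R1 := 11153) (R2 := 39327) (B := 76) h1 h2
    (by constructor <;> norm_num) (by norm_num)
    (by norm_num) (by norm_num) (by norm_num) (by norm_num) (by decide +kernel)
    (by decide +kernel)
    (by refine ⟨?_, ?_, ?_, ?_, ?_, ⟨?_, ?_, ?_, ?_, ?_, ?_⟩, ?_, ?_, ⟨?_, ?_, ?_, ?_, ?_, ?_⟩, ?_, ?_,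
      ⟨?_, ?_, ?_, ?_, ?_, ?_⟩, ?_, ?_⟩ <;> norm_num [Sl69, Kn69])
    (by norm_num) hG hD hH hS hn hR (Or.inr hB)

end

end Pool.Agent.PEN.E5
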