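import Pool.Agent.E5.Ng69
import Pool.Agent.E5.Nh69
import Pool.Agent.P4.Exc56
import Pool.Agent.P4.Y71m

/-! # PENNY: the numerics of the row with sharp darts for `3 / 20 ≤ d ≤ 89 / 250` -/

set_option autoImplicit false

namespace Pool.Agent.PEN.E5

open Classical UpperHalfPlane
open Pool.Agent.PEN.Cl

noncomputable section

theorem e69a : q57 (2119 / 2000) < ch57 (2119 / 2000) 4 := by
  have h : (1 : ℝ) < (2119 / 2000) := by norm_num
  have a0 : ch57 (2119 / 2000) 0 = 2 * Real.arctan (T57 (2119 / 2000) * (18450805 / 16461839)) := by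
    rw [start57 h]
    exact step57 h (by norm_num) (by norm_num)
  have b0 : op57 (2119 / 2000) (ch57 (2119 / 2000) 0) = 2 * Real.arctan (T57 (2119 / 2000) * (102688951682 / 39097255795)) :=
    opv57 h (by norm_num) a0 (by norm_num)
  have a1 : ch57 (2119 / 2000) 1 = 2 * Real.arctan (T57 (2119 / 2000) * (82290787067 / 65668998205)) := by
    change 2 * Real.pi - 3 * al57 (2119 / 2000) - op57 (2119 / 2000) (ch57 (2119 / 2000) 0) = _
    rw [b0]
    exact step57 h (by norm_num) (by norm_num)
  have b1 : op57 (2119 / 2000) (ch57 (2119 / 2000) 1) = 2 * Real.arctan (T57 (2119 / 2000) * (409643210802790 / 174374177794973)) :=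
    opv57 h (by norm_num) a1 (by norm_num)
  have a2 : ch57 (2119 / 2000) 2 = 2 * Real.arctan (T57 (2119 / 2000) * (365620914279709 / 261432655703027)) := by
    change 2 * Real.pi - 3 * al57 (2119 / 2000) - op57 (2119 / 2000) (ch57 (2119 / 2000) 1) = _
    rw [b1]
    exact step57 h (by norm_num) (by norm_num)
  have b2 : op57 (2119 / 2000) (ch57 (2119 / 2000) 2) = 2 * Real.arctan (T57 (2119 / 2000) * (1630816906275482426 / 774750717358703371)) :=
    opv57 h (by norm_num) a2 (by norm_num)
  have a3 : ch57 (2119 / 2000) 3 = 2 * Real.arctan (T57 (2119 / 2000) * (1618999503960540539 / 1038453525626294629)) := by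
    change 2 * Real.pi - 3 * al57 (2119 / 2000) - op57 (2119 / 2000) (ch57 (2119 / 2000) 2) = _
    rw [b2]
    exact step57 h (by norm_num) (by norm_num)
  have b3 : op57 (2119 / 2000) (ch57 (2119 / 2000) 3) = 2 * Real.arctan (T57 (2119 / 2000) * (6477873092856825895702 / 3430659948892385402141)) :=
    opv57 h (by norm_num) a3 (by norm_num)
  have a4 : ch57 (2119 / 2000) 4 = 2 * Real.arctan (T57 (2119 / 2000) * (7147582444997238914125 / 4114703494391768527859)) := by
    change 2 * Real.pi - 3 * al57 (2119 / 2000) - op57 (2119 / 2000) (ch57 (2119 / 2000) 3) = _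
    rw [b3]
    exact step57 h (by norm_num) (by norm_num)
  rw [a4]; exact gt_q57 h (by norm_num) (by norm_num)

/-- there is no chain diameter with `1.0595 ≤ cosh d ≤ 1.06465` -/
theorem noexc69 {d : ℝ} (hd : 0 < d) (h1 : 2119 / 2000 ≤ Real.cosh d)
    (h2 : Real.cosh d ≤ 106465 / 100000) : ¬ Exc66 d := by
  intro hE
  obtain ⟨i, hb, hi⟩ := hE
  have hq : qa66 d = q57 (Real.cosh d) := rfl
  have ho : ∀ t, opp51 d t = op57 (Real.cosh d) t := fun t => rfl
  have hcos : Real.cos (alpha d) ≤ 106465 / 206465 := by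
    rw [cos_alpha hd, div_le_div_iff₀ (by linarith) (by norm_num)]
    linarith
  rcases Nat.lt_trichotomy i 3 with h3 | rfl | h3
  · simp only [ch57_eq hd, hq, ho, al57_eq hd] at hb hi
    generalize Real.cosh d = C at h1 h2 hb hi
    have hC : 1 < C := by linarith
    have h4 : i = 0 ∨ i = 1 ∨ i = 2 := by omega
    rcases h4 with rfl | rfl | rfl
    · have u := lowA57 hC (show C ≤ 611 / 500 by linarith) e57p
      have v := lowB57 hC (show C ≤ 11989 / 10000 by linarith) e57m
      rcases hi with hi | ⟨_, hi⟩ <;> linarith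
    · have u := lowA57 hC (show C ≤ 11477 / 10000 by linarith) e57k
      have v := lowB57 hC (show C ≤ 447 / 400 by linarith) e57g
      rcases hi with hi | ⟨_, hi⟩ <;> linarith
    · have u := lowA57 hC (show C ≤ 439 / 400 by linarith) e57e
      have v := lowB57 hC (show C ≤ 5417 / 5000 by linarith) e57b
      rcases hi with hi | ⟨_, hi⟩ <;> linarith
  · rcases hi with hi | ⟨hi, hi2⟩
    · have h := d7_57 hd hb hi
      norm_num at h hcos
      linarith [h.1]
    · have hb' : ∀ j ≤ 3, ch66 d j < qa66 d := fun j hj => by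
        rcases Nat.lt_or_ge j 3 with h6 | h6
        · exact hb j h6
        · obtain rfl : j = 3 := by omega
          exact hi
      have h := d8_56 hd hb' hi2
      norm_num at h hcos
      linarith [h.1]
  · simp only [ch57_eq hd, hq, ho, al57_eq hd] at hb hi
    generalize Real.cosh d = C at h1 h2 hb hi
    have hC : 1 < C := by linarith
    have k3 := upA57 (i := 4) (by norm_num) h1 (fun j hj => hb j (by omega)) e69a
    rcases Nat.lt_or_ge 4 i with h4 | h4
    · have := hb 4 h4
      linarith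
    · obtain rfl : i = 4 := by omega
      rcases hi with hi | ⟨hi, _⟩
      · linarith
      · linarith

theorem tanh_up69 {y : ℝ} (h0 : 0 ≤ y) (h1 : y ≤ 1 / 4) : Real.tanh y ≤ y - y ^ 3 / 4 := by
  rw [Real.tanh_eq_sinh_div_cosh, div_le_iff₀ (Real.cosh_pos _)]
  have h1' : MonotoneOn (fun x : ℝ => (x - x ^ 3 / 4) * Real.cosh x - Real.sinh x)
      (Set.Icc 0 (1 / 4)) := by
    apply monotoneOn_of_deriv_nonneg (convex_Icc _ _)
    · fun_prop
    · fun_prop
    · intro x hx
      rw [interior_Icc] at hx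
      obtain ⟨hx0, hx1⟩ := hx
      have e : HasDerivAt (fun x : ℝ => (x - x ^ 3 / 4) * Real.cosh x - Real.sinh x)
          ((1 - (3 : ℕ) * x ^ 2 / 4) * Real.cosh x + (x - x ^ 3 / 4) * Real.sinh x -
            Real.cosh x) x :=
        (((hasDerivAt_id' x).sub ((hasDerivAt_pow 3 x).div_const 4)).mul
          (Real.hasDerivAt_cosh x)).sub (Real.hasDerivAt_sinh x)
      rw [e.deriv]
      have hc := Real.cosh_pos x
      have h2 : (x * (1 - x ^ 2 / 2)) * Real.cosh x ≤ Real.sinh x := by
        have := (tanh_rg69 (d := 2 * x) (by linarith)).2.2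
        rw [show 2 * x / 2 = x by ring, Real.tanh_eq_sinh_div_cosh,
          le_div_iff₀ (Real.cosh_pos _)] at this
        exact this
      have x2 : x ^ 2 ≤ 1 / 16 := by nlinarith
      have h3 : 0 ≤ x - x ^ 3 / 4 := by nlinarith
      have h4 := mul_le_mul_of_nonneg_left h2 h3
      have h5 : 3 / 4 * x ^ 2 ≤ (x - x ^ 3 / 4) * (x * (1 - x ^ 2 / 2)) := by
        have e1 : (x - x ^ 3 / 4) * (x * (1 - x ^ 2 / 2)) =
            x ^ 2 * ((1 - x ^ 2 / 4) * (1 - x ^ 2 / 2)) := by ring
        have e2 : 3 / 4 ≤ (1 - x ^ 2 / 4) * (1 - x ^ 2 / 2) := by nlinarith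
        rw [e1]
        have := mul_le_mul_of_nonneg_left e2 (sq_nonneg x)
        linarith
      have h6 := mul_le_mul_of_nonneg_right h5 hc.le
      push_cast
      linarith
  have h2 := h1' (a := 0) ⟨le_rfl, by norm_num⟩ ⟨h0, h1⟩ h0
  simp only [Real.sinh_zero] at h2
  linarith

/-- the hyperbolic cosine from `tanh (d / 2)` -/
theorem cosh_tanh69 (d : ℝ) :
    Real.cosh d * (1 - Real.tanh (d / 2) ^ 2) = 1 + Real.tanh (d / 2) ^ 2 := by
  have h1 : Real.cosh d = 2 * Real.cosh (d / 2) ^ 2 - 1 := by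
    have := Real.cosh_two_mul (d / 2)
    rw [show 2 * (d / 2) = d by ring] at this
    have h2 := Real.cosh_sq (d / 2)
    linarith
  have h3 := Real.cosh_sq (d / 2)
  have hc := Real.cosh_pos (d / 2)
  have hT : Real.tanh (d / 2) ^ 2 = 1 - 1 / Real.cosh (d / 2) ^ 2 := by
    rw [Real.tanh_eq_sinh_div_cosh, div_pow]
    field_simp
    linarith
  rw [hT, h1]
  field_simp
  ring

/-- inequality B in terms of the curvature term -/
theorem rowB69 {d : ℝ} {G : Tg ℍ} (hG : G.Geo4 (alpha d) kap (Ust69 d)) (hD : DelG G d)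
    (hS : Sep d G.P) (hE : ¬ Exc66 d) :
    (G.P.card : ℝ) - G.oJ.card - cor G (alpha d) / 2 ≤ G.iI.card := by
  have hd := hD.hd
  have hA : ∀ C ∈ G.iC, A3 (alpha d) * (G.cT C).card ≤ ∑ x ∈ G.cD C, G.ar x.1 x.2 / 3 :=
    fun C hC => hG.pol C (cB_of_iC66 G hC)
  have hB := W4.B_F66 G hd hE hG (W4.rf51 hG hD hA) hA (penta71 hG hD hS)
  have hal := alpha_pos hd
  have hA3 := A3_pos69 hd
  have h1 := cor_mul69 G hal
  have hAr : Ar G = ∑ x ∈ G.iD, G.ar x.1 x.2 / 3 := rfl
  rw [hAr] at h1
  have f4 := card_inN71 G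
  have f4' : (G.P.card : ℝ) ≤ G.oJ.card + (inN G).card := by exact_mod_cast f4
  have e1 : A3 (alpha d) * ((G.P.card : ℝ) - G.oJ.card) ≤ A3 (alpha d) * (inN G).card :=
    mul_le_mul_of_nonneg_left (by linarith) hA3.le
  have e2 : 8 * alpha d - 2 * Real.pi = 2 * alpha d - 2 * A3 (alpha d) := by
    unfold A3
    ring
  rw [e2] at hB
  have key : alpha d * ((G.P.card : ℝ) - G.oJ.card - cor G (alpha d) / 2) ≤
      alpha d * G.iI.card := by
    linarith
  exact le_of_mul_le_mul_left key hal

/-- **the numerics of the row for `3 / 20 ≤ d ≤ 89 / 250`** -/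
theorem darts_r69 {d : ℝ} (h1 : 3 / 20 ≤ d) (h2 : d ≤ 89 / 250) : CA69 d := by
  have hd : 0 < d := by linarith
  have hlo := tanh_lo69 (y := d / 2) (by linarith)
  have hup := tanh_up69 (y := d / 2) (by linarith) (by linarith)
  have hT0 : 7485 / 100000 ≤ Real.tanh (d / 2) := by
    refine le_trans ?_ hlo
    obtain ⟨y, hy⟩ : ∃ y, y = d / 2 := ⟨_, rfl⟩
    rw [← hy]
    have y1 : 3 / 40 ≤ y := by rw [hy]; linarith
    have y2 : y ≤ 178 / 1000 := by rw [hy]; linarith
    have y3 : 0 ≤ (y - 3 / 40) * (3 - (y ^ 2 + y * (3 / 40) + (3 / 40) ^ 2)) := by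
      apply mul_nonneg (by linarith)
      nlinarith
    nlinarith
  have hT1 : Real.tanh (d / 2) ≤ 1769 / 10000 := by
    refine hup.trans ?_
    obtain ⟨y, hy⟩ : ∃ y, y = d / 2 := ⟨_, rfl⟩
    rw [← hy]
    have y1 : 3 / 40 ≤ y := by rw [hy]; linarith
    have y2 : y ≤ 178 / 1000 := by rw [hy]; linarith
    have y3 : 0 ≤ (178 / 1000 - y) * (4 - (y ^ 2 + y * (178 / 1000) + (178 / 1000) ^ 2)) := by
      apply mul_nonneg (by linarith)
      nlinarith
    nlinarith
  rcases le_total (Real.tanh (d / 2)) (3 / 40) with k0 | k0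
  · exact ia0_69 hd h2 (by linarith) (by linarith)
  rcases le_total (Real.tanh (d / 2)) (7533 / 100000) with k1 | k1
  · exact ia1_69 hd h2 (by linarith) (by linarith)
  rcases le_total (Real.tanh (d / 2)) (19 / 250) with k2 | k2
  · exact ia2_69 hd h2 (by linarith) (by linarith)
  rcases le_total (Real.tanh (d / 2)) (3853 / 50000) with k3 | k3
  · exact ia3_69 hd h2 (by linarith) (by linarith)
  rcases le_total (Real.tanh (d / 2)) (246 / 3125) with k4 | k4
  · exact ia4_69 hd h2 (by linarith) (by linarith)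
  rcases le_total (Real.tanh (d / 2)) (8129 / 100000) with k5 | k5
  · exact ia5_69 hd h2 (by linarith) (by linarith)
  rcases le_total (Real.tanh (d / 2)) (4259 / 50000) with k6 | k6
  · exact ia6_69 hd h2 (by linarith) (by linarith)
  rcases le_total (Real.tanh (d / 2)) (9089 / 100000) with k7 | k7
  · exact ia7_69 hd h2 (by linarith) (by linarith)
  rcases le_total (Real.tanh (d / 2)) (9881 / 100000) with k8 | k8
  · exact ia8_69 hd h2 (by linarith) (by linarith)
  rcases le_total (Real.tanh (d / 2)) (5447 / 50000) with k9 | k9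
  · exact ia9_69 hd h2 (by linarith) (by linarith)
  rcases le_total (Real.tanh (d / 2)) (2411 / 20000) with k10 | k10
  · exact ia10_69 hd h2 (by linarith) (by linarith)
  rcases le_total (Real.tanh (d / 2)) (1323 / 10000) with k11 | k11
  · exact ia11_69 hd h2 (by linarith) (by linarith)
  rcases le_total (Real.tanh (d / 2)) (14287 / 100000) with k12 | k12
  · exact ia12_69 hd h2 (by linarith) (by linarith)
  rcases le_total (Real.tanh (d / 2)) (3787 / 25000) with k13 | k13
  · exact ia13_69 hd h2 (by linarith) (by linarith)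
  rcases le_total (Real.tanh (d / 2)) (79 / 500) with k14 | k14
  · exact ia14_69 hd h2 (by linarith) (by linarith)
  rcases le_total (Real.tanh (d / 2)) (16269 / 100000) with k15 | k15
  · exact ia15_69 hd h2 (by linarith) (by linarith)
  rcases le_total (Real.tanh (d / 2)) (4149 / 25000) with k16 | k16
  · exact ia16_69 hd h2 (by linarith) (by linarith)
  rcases le_total (Real.tanh (d / 2)) (16819 / 100000) with k17 | k17
  · exact ia17_69 hd h2 (by linarith) (by linarith)
  rcases le_total (Real.tanh (d / 2)) (2121 / 12500) with k18 | k18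
  · exact ia18_69 hd h2 (by linarith) (by linarith)
  rcases le_total (Real.tanh (d / 2)) (851 / 5000) with k19 | k19
  · exact ia19_69 hd h2 (by linarith) (by linarith)
  have hc := cosh_tanh69 d
  have hTpos : 0 ≤ Real.tanh (d / 2) := by linarith
  have q1 : (1702 / 10000) ^ 2 ≤ Real.tanh (d / 2) ^ 2 :=
    pow_le_pow_left₀ (by norm_num) (by linarith) 2
  have q2 : Real.tanh (d / 2) ^ 2 ≤ (1769 / 10000) ^ 2 := pow_le_pow_left₀ hTpos hT1 2
  norm_num at q1 q2
  have c1 : 2119 / 2000 ≤ Real.cosh d := by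
    by_contra hcon
    push Not at hcon
    nlinarith
  have c2 : Real.cosh d ≤ 106465 / 100000 := by
    by_contra hcon
    push Not at hcon
    nlinarith
  have hE := noexc69 hd c1 c2
  intro G hG hD hH hS hn hR
  have hB := rowB69 hG hD hS hE
  rcases le_total (Real.tanh (d / 2)) (108 / 625) with m0 | m0
  · exact ib0_69 hd h2 (by linarith) (by linarith) G hG hD hH hS hn hR hB
  rcases le_total (Real.tanh (d / 2)) (1753 / 10000) with m1 | m1
  · exact ib1_69 hd h2 (by linarith) (by linarith) G hG hD hH hS hn hR hB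
  rcases le_total (Real.tanh (d / 2)) (887 / 5000) with m2 | m2
  · exact ib2_69 hd h2 (by linarith) (by linarith) G hG hD hH hS hn hR hB
  exact ib3_69 hd h2 (by linarith) (by linarith) G hG hD hH hS hn hR hB

/-- the same for the row in the form `7 (n - b) + 4 δ + 6 + 3 s ≤ 12 I + 11 cor + σ`, as used in the
combination of the ranges -/
theorem hU69 {d : ℝ} (_hd : 0 < d) (h1 : 3 / 20 ≤ d) (h2 : d < 89 / 250) (G : Tg ℍ)
    (hG : G.Geo4 (alpha d) kap (Ust69 d)) (hD : DelG G d) (hH : HullT G) (hS : Sep d G.P)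
    (hn : 98 ≤ G.P.card)
    (hR : 7 * ((G.P.card : ℝ) - G.oJ.card) + 4 * (G.oJ.card + (inN G).card - G.P.card) + 6 +
      3 * sE G ≤ 6 * G.iI.card + 11 * cor G (alpha d) + (G.shp (alpha d)).card) :
    (G.D.filter (fun x => G.con x.1 x.2)).card ≤ 2 * Lb G.P.card := by
  refine darts_r69 h1 h2.le G hG hD hH hS hn ?_
  unfold Row69
  linarith

end

end Pool.Agent.PEN.E5
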