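import Pool.Agent.E5.In15
import Pool.Agent.E5.Fg46

/-! # PENNY, all small diameters: final form of the interior, and the weak black faces -/

set_option autoImplicit false

namespace Pool.Agent.PEN.E5

open Classical UpperHalfPlane
open Pool.Agent.PEN.Cl

noncomputable section

variable {V : Type} (G : Tg V) {al : ℝ} {kp : V → V → ℝ} {U : ℕ → ℝ}

/-- the excess of the area of a class, in units -/
def exc (al : ℝ) (C : G.adj.ConnectedComponent) : ℝ :=
  (∑ x ∈ G.cD C, G.ar x.1 x.2 / 3 - A3 al * (G.cT C).card) / al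

theorem exc_nonneg15 (hG : G.Geo4 al kp U) {C : G.adj.ConnectedComponent} (hC : C ∈ G.iC) :
    0 ≤ exc G al C := by
  have hal := W4.al_pos71 G hG
  have h := hG.pol C (cB_of_iC66 G hC)
  unfold exc
  exact div_nonneg (by linarith) hal.le

/-- the gaps of a class, exact -/
theorem sum_gc_exc15 (hG : G.Geo4 al kp U) {C : G.adj.ConnectedComponent} (hC : C ∈ G.iC) :
    ∑ x ∈ G.cJ C, gc G al x = (uf G al C : ℝ) - 3 * (G.cT C).card + exc G al C := by
  have hal := W4.al_pos71 G hG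
  rw [sum_gc_class46 G hG hC]
  unfold exc A3
  field_simp
  ring

/-- the surpluses of the sides of a class, exact -/
theorem sum_sp_exc15 (hG : G.Geo4 al kp U) {C : G.adj.ConnectedComponent} (hC : C ∈ G.iC) :
    ∑ x ∈ G.cJ C, sp G al x = 3 * qa G C - 2 * ka G al C + 2 * exc G al C := by
  have h1 := sum_gc_exc15 G hG hC
  have h2 : ((G.cJ C).card : ℝ) + (G.cI C).card = 3 * (G.cT C).card := by
    exact_mod_cast m_eq46 G hC
  unfold sp
  rw [Finset.sum_sub_distrib, Finset.sum_add_distrib, sum_sg46 G hG hC, h1, Finset.sum_const,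
    nsmul_eq_mul, mul_one, ka_uf46]
  unfold qa
  linarith

/-- a contact triangle has no excess -/
theorem exc_tt15 (hG : G.Geo4 al kp U) {C : G.adj.ConnectedComponent} (hC : C ∈ G.iC)
    (hI : G.cI C = ∅) : exc G al C = 0 := by
  have h1 := sum_gc_exc15 G hG hC
  have h2 : ∑ x ∈ G.cJ C, gc G al x = 0 := by
    refine Finset.sum_eq_zero fun x hx => gc_tt89 G hG ?_
    obtain ⟨h3, h4⟩ := cJ_iJ51 G hC hx
    exact (tt_iff89 G h3).2 (by rw [h4]; exact hI)
  have h3 := ka_zero89 G (al := al) C hC hI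
  rw [ka_uf46, hI, Finset.card_empty] at h3
  push_cast at h3
  linarith

/-- **the curvature term** is the sum of the excesses of the points and of the faces -/
theorem cor_eq15 (hG : G.Geo4 al kp U) :
    cor G al = (inN G).card * ep al + ∑ C ∈ WF G, exc G al C := by
  have hal := W4.al_pos71 G hG
  have h1 : ∑ C ∈ WF G, exc G al C = ∑ C ∈ G.iC, exc G al C := by
    unfold WF
    refine Finset.sum_filter_of_ne fun C hC h => ?_
    by_contra h2
    exact h (exc_tt15 G hG hC (Finset.not_nonempty_iff_eq_empty.1 h2))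
  have h2 : ∑ C ∈ G.iC, exc G al C = (Ar G - A3 al * (G.iD.card / 3)) / al := by
    unfold exc
    rw [← Finset.sum_div, Finset.sum_sub_distrib, ← Finset.mul_sum, cT_sum89 G,
      ← sum_iD27 G (fun x => G.ar x.1 x.2 / 3)]
    rfl
  rw [h1, h2]
  unfold cor ep A3
  field_simp
  ring

/-- the inner points are the leaves, the points with `k ≥ 2` and the others -/
theorem card_split15 (hG : G.Geo4 al kp U) (h1 : ∀ x ∈ iJ G, gc G al x ≤ 1) :
    (inN G).card = (A2 G al).card + (lfN G).card +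
      ((inN G).filter (fun v => uv G al v = 7 ∧ cv G v ≠ 1)).card := by
  have h2 := Finset.card_filter_add_card_filter_not (s := inN G) (fun v => 8 ≤ uv G al v)
  have h3 := Finset.card_filter_add_card_filter_not
    (s := (inN G).filter (fun v => ¬ 8 ≤ uv G al v)) (fun v => cv G v = 1)
  rw [Finset.filter_filter, Finset.filter_filter] at h3
  have e1 : (inN G).filter (fun v => ¬ 8 ≤ uv G al v ∧ cv G v = 1) = lfN G := by
    ext v
    rw [Finset.mem_filter, mem_lfN15]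
    constructor
    · rintro ⟨h2, _, h3⟩
      exact ⟨h2, h3⟩
    · rintro ⟨h2, h3⟩
      have := leaf_uv39 G hG h1 h2 h3
      exact ⟨h2, by omega, h3⟩
  have e2 : (inN G).filter (fun v => ¬ 8 ≤ uv G al v ∧ ¬ cv G v = 1) =
      (inN G).filter (fun v => uv G al v = 7 ∧ cv G v ≠ 1) := by
    refine Finset.filter_congr fun v hv => ?_
    have := uv_ge89 G hG hv
    constructor
    · rintro ⟨h2, h3⟩
      exact ⟨by omega, h3⟩
    · rintro ⟨h2, h3⟩
      exact ⟨by omega, h3⟩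
  rw [e1, e2] at h3
  have e3 : ((inN G).filter (fun v => 8 ≤ uv G al v)).card = (A2 G al).card := rfl
  omega

/-- **final form**: base weight `y0`, the curvature credit is exactly `2 y0 cor` -/
theorem final15 (hG : G.Geo4 al kp U) (h1 : ∀ x ∈ iJ G, gc G al x ≤ 1) {θ y0 Λ R : ℝ}
    (hθ : 0 ≤ θ) {yK : (cg G).ConnectedComponent → ℝ} (hyK : ∀ K ∈ Kc G, y0 ≤ yK K)
    (hR : ∑ K ∈ (Kc G).filter (fun K => Lv G K = ∅ ∧ K ∉ Sf G al), wx G θ K -
        ∑ K ∈ (Kc G).filter (fun K => Lv G K ≠ ∅), lsl G al θ yK K -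
        ∑ K ∈ (Sf G al).filter (fun K => Lv G K = ∅), rx G al θ K -
        ∑ K ∈ (Sf G al).filter (fun K => Lv G K ≠ ∅), ∑ s ∈ PK G al K,
          max (2 + 2 * θ - θ * (rn G s : ℝ)) 0 -
        ∑ v ∈ A2 G al, (sl G al θ Λ yK v - 2 * y0 * ep al) +
        ∑ v ∈ (inN G).filter (fun v => uv G al v = 7 ∧ cv G v ≠ 1), (∑ s ∈ Sv G v,
          yK (ku G s) * Ds G al s + 2 * y0 * ep al) +
        ∑ C ∈ WF G, ((4 + 5 * θ - 3 * y0) * qa G C - (3 + 4 * θ + Λ - 2 * y0) * ka G al C -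
          ∑ s ∈ G.cJ C, (yK (ku G s) - y0) * sp G al s +
          θ * ∑ x ∈ (G.cJ C).filter (fun x => x.1 ∈ lfN G), ((un G al x : ℝ) - 2)) +
        ∑ s ∈ (SD G).filter (fun s => s.2 ∉ inN G), yK (ku G s) * Ds G al s -
        ∑ s ∈ G.oJ, yK (ku G s) * sp G al s ≤ R) :
    ((inN G).card : ℝ) ≤ Λ * cost G al + R - 2 * y0 * cor G al -
      (3 + 4 * θ) * (gam G al - cor G al) + θ * G.oJ.card - 2 - 4 * θ := by
  have hep := ep_pos89 G hG
  have key := interiory15 G hG h1 (R := R - 2 * y0 * cor G al) (Λ := Λ) hθ (yK := yK) ?_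
  · linarith
  -- the leaves
  have a1 : y0 * (lfN G).card ≤ ∑ K ∈ Kc G, yK K * (Lv G K).card := by
    have e1 := sum_leafs15 G (fun _ => (1 : ℝ))
    have e2 : ∑ v ∈ lfN G, ∑ s ∈ Sv G v, (1 : ℝ) = (lfN G).card := by
      rw [Finset.card_eq_sum_ones, Nat.cast_sum]
      refine Finset.sum_congr rfl fun v hv => ?_
      obtain ⟨h2, h3⟩ := (mem_lfN15 G).1 hv
      rw [Finset.sum_const, card_Sv62 G hG h2, h3]
      norm_num
    rw [← e2, ← e1, Finset.mul_sum]
    refine Finset.sum_le_sum fun K hK => ?_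
    rw [Finset.sum_const, nsmul_eq_mul, mul_one]
    exact mul_le_mul_of_nonneg_right (hyK K hK) (Nat.cast_nonneg _)
  have a2 := mul_le_mul_of_nonneg_left a1 (by linarith : (0:ℝ) ≤ 2 * ep al)
  -- the points with `k ≥ 2` and the others
  have a3 : ∑ v ∈ A2 G al, (sl G al θ Λ yK v - 2 * y0 * ep al) =
      ∑ v ∈ A2 G al, sl G al θ Λ yK v - (A2 G al).card * (2 * y0 * ep al) := by
    rw [Finset.sum_sub_distrib, Finset.sum_const, nsmul_eq_mul]
  have a4 : ∑ v ∈ (inN G).filter (fun v => uv G al v = 7 ∧ cv G v ≠ 1), (∑ s ∈ Sv G v,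
      yK (ku G s) * Ds G al s + 2 * y0 * ep al) =
      ∑ v ∈ (inN G).filter (fun v => uv G al v = 7 ∧ cv G v ≠ 1), ∑ s ∈ Sv G v,
        yK (ku G s) * Ds G al s +
      ((inN G).filter (fun v => uv G al v = 7 ∧ cv G v ≠ 1)).card * (2 * y0 * ep al) := by
    rw [Finset.sum_add_distrib, Finset.sum_const, nsmul_eq_mul]
  have a5 : ((inN G).card : ℝ) = (A2 G al).card + (lfN G).card +
      ((inN G).filter (fun v => uv G al v = 7 ∧ cv G v ≠ 1)).card := by
    exact_mod_cast card_split15 G hG h1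
  -- the white faces
  have a6 : ∑ C ∈ WF G, ((4 + 5 * θ - 3 * y0) * qa G C - (3 + 4 * θ + Λ - 2 * y0) * ka G al C -
        ∑ s ∈ G.cJ C, (yK (ku G s) - y0) * sp G al s +
        θ * ∑ x ∈ (G.cJ C).filter (fun x => x.1 ∈ lfN G), ((un G al x : ℝ) - 2)) =
      ∑ C ∈ WF G, ((4 + 5 * θ) * qa G C - (3 + 4 * θ + Λ) * ka G al C -
        ∑ s ∈ G.cJ C, yK (ku G s) * sp G al s +
        θ * ∑ x ∈ (G.cJ C).filter (fun x => x.1 ∈ lfN G), ((un G al x : ℝ) - 2)) +
      2 * y0 * ∑ C ∈ WF G, exc G al C := by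
    rw [Finset.mul_sum, ← Finset.sum_add_distrib]
    refine Finset.sum_congr rfl fun C hC => ?_
    have h2 := sum_sp_exc15 G hG ((mem_WF89 G).1 hC).1
    have h3 : ∑ s ∈ G.cJ C, (yK (ku G s) - y0) * sp G al s =
        ∑ s ∈ G.cJ C, yK (ku G s) * sp G al s - y0 * ∑ s ∈ G.cJ C, sp G al s := by
      rw [Finset.mul_sum, ← Finset.sum_sub_distrib]
      exact Finset.sum_congr rfl fun s _ => by ring
    rw [h3, h2]
    ring
  have a7 := cor_eq15 G hG
  rw [a3, a4, a6] at hR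
  have a8 : 2 * y0 * cor G al = 2 * y0 * ep al * (inN G).card + 2 * y0 * ∑ C ∈ WF G, exc G al C := by
    rw [a7]
    ring
  have a9 : 2 * y0 * ep al * (inN G).card = (A2 G al).card * (2 * y0 * ep al) +
      2 * ep al * (y0 * (lfN G).card) +
      ((inN G).filter (fun v => uv G al v = 7 ∧ cv G v ≠ 1)).card * (2 * y0 * ep al) := by
    rw [a5]
    ring
  linarith

/-- the weak black faces: no leaf, no payer, all heads inner -/
def Kw (al : ℝ) : Finset (cg G).ConnectedComponent :=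
  (Kc G).filter (fun K => (Lv G K = ∅ ∧ K ∉ Sf G al) ∧ ∀ x ∈ kS G K, x.2 ∈ inN G)

/-- the unserved black faces without leaf which touch an outer point -/
def Ko (al : ℝ) : Finset (cg G).ConnectedComponent :=
  (Kc G).filter (fun K => (Lv G K = ∅ ∧ K ∉ Sf G al) ∧ ¬ ∀ x ∈ kS G K, x.2 ∈ inN G)

theorem mem_Kw15 {K : (cg G).ConnectedComponent} : K ∈ Kw G al ↔
    K ∈ Kc G ∧ Lv G K = ∅ ∧ K ∉ Sf G al ∧ ∀ x ∈ kS G K, x.2 ∈ inN G := by
  unfold Kw
  rw [Finset.mem_filter, and_assoc]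

theorem sum_KwKo15 (f : (cg G).ConnectedComponent → ℝ) :
    ∑ K ∈ (Kc G).filter (fun K => Lv G K = ∅ ∧ K ∉ Sf G al), f K =
      ∑ K ∈ Kw G al, f K + ∑ K ∈ Ko G al, f K := by
  rw [← Finset.sum_filter_add_sum_filter_not
    ((Kc G).filter (fun K => Lv G K = ∅ ∧ K ∉ Sf G al)) (fun K => ∀ x ∈ kS G K, x.2 ∈ inN G),
    Finset.filter_filter, Finset.filter_filter]
  rfl

/-- a weak black face has a weak inner side -/
theorem weak_side15 (hG : G.Geo4 al kp U) {K : (cg G).ConnectedComponent} (hK : K ∈ Kw G al) :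
    ∃ x ∈ kS G K, x ∈ BC G ∧ sp G al x < 0 := by
  obtain ⟨h1, h2, h3, h4⟩ := (mem_Kw15 G).1 hK
  rcases server89 G hG h1 with ⟨x, hx, hD⟩ | ⟨x, hx, hw⟩
  · exfalso
    have h5 := mem_kS89 G hx
    have h6 := h4 x hx
    rcases pos_sector89 G hG h6 h5 rfl hD with h7 | h7
    · have : x ∈ Lv G K := (mem_Lv15 G).2 ⟨hx, h6, h7⟩
      rw [h2] at this
      exact absurd this (Finset.notMem_empty _)
    · exact h3 ((mem_Sf15 G).2 ⟨x, hx, (mem_Pz15 G).2 ⟨h5, h6, h7, hD⟩⟩)
  · refine ⟨x, hx, ?_, hw⟩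
    have h5 := mem_kS89 G hx
    obtain ⟨_, _, h6, _, _⟩ := sector_corners89 G hG (h4 x hx) h5 rfl
    exact (mem_BC89 G).2 ⟨h6, ((mem_SD42 G).1 h5).2⟩

/-- **charging of the weak black faces**: every weak black face is charged to one weak side -/
theorem charge15 (hG : G.Geo4 al kp U) : ∃ X : Finset (V × V), (∀ x ∈ X, x ∈ BC G ∧
    sp G al x < 0 ∧ ku G x ∈ Kw G al) ∧ (∀ x ∈ X, ∀ y ∈ X, ku G x = ku G y → x = y) ∧
    ∀ f : (cg G).ConnectedComponent → ℝ, ∑ K ∈ Kw G al, f K =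
      ∑ C ∈ WF G, ∑ x ∈ (G.cJ C).filter (fun x => x ∈ X), f (ku G x) := by
  rcases (Kw G al).eq_empty_or_nonempty with h0 | ⟨K0, hK0⟩
  · refine ⟨∅, fun x hx => absurd hx (Finset.notMem_empty _),
      fun x hx => absurd hx (Finset.notMem_empty _), fun f => ?_⟩
    rw [h0, Finset.sum_empty]
    symm
    refine Finset.sum_eq_zero fun C _ => ?_
    rw [Finset.filter_false_of_mem fun _ _ => Finset.notMem_empty _, Finset.sum_empty]
  · obtain ⟨x0, -⟩ := weak_side15 G hG hK0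
    have hs' : ∀ K, ∃ x, K ∈ Kw G al → x ∈ kS G K ∧ x ∈ BC G ∧ sp G al x < 0 := by
      intro K
      by_cases h : K ∈ Kw G al
      · obtain ⟨x, h1, h2⟩ := weak_side15 G hG h
        exact ⟨x, fun _ => ⟨h1, h2⟩⟩
      · exact ⟨x0, fun h2 => absurd h2 h⟩
    choose g hg using hs'
    have hku : ∀ K ∈ Kw G al, ku G (g K) = K := fun K hK => ((mem_kS42 G).1 (hg K hK).1).2
    have hinj : Set.InjOn g (Kw G al : Set (cg G).ConnectedComponent) := by
      intro K hK K' hK' he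
      rw [← hku K (Finset.mem_coe.1 hK), ← hku K' (Finset.mem_coe.1 hK'), he]
    refine ⟨(Kw G al).image g, ?_, ?_, ?_⟩
    · intro x hx
      obtain ⟨K, hK, rfl⟩ := Finset.mem_image.1 hx
      obtain ⟨h1, h2, h3⟩ := hg K hK
      exact ⟨h2, h3, by rw [hku K hK]; exact hK⟩
    · intro x hx y hy he
      obtain ⟨K, hK, rfl⟩ := Finset.mem_image.1 hx
      obtain ⟨K', hK', rfl⟩ := Finset.mem_image.1 hy
      rw [hku K hK, hku K' hK'] at he
      rw [he]
    · intro f
      have e1 : ∑ K ∈ Kw G al, f K = ∑ x ∈ (Kw G al).image g, f (ku G x) := by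
        rw [Finset.sum_image (f := fun x => f (ku G x)) hinj]
        exact Finset.sum_congr rfl fun K hK => by rw [hku K hK]
      have e2 : (Kw G al).image g = (BC G).filter (fun x => x ∈ (Kw G al).image g) := by
        ext x
        rw [Finset.mem_filter]
        refine ⟨fun hx => ⟨?_, hx⟩, fun hx => hx.2⟩
        obtain ⟨K, hK, rfl⟩ := Finset.mem_image.1 hx
        exact (hg K hK).2.1
      rw [e1, e2, Finset.sum_filter, sum_BC15]
      refine Finset.sum_congr rfl fun C _ => ?_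
      rw [← Finset.sum_filter]
      refine Finset.sum_congr (Finset.filter_congr fun x hx => ?_) fun _ _ => rfl
      rw [← e2]

end

end Pool.Agent.PEN.E5
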