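import Pool.Agent.E5.SkC89
import Pool.Agent.P4.NumG52
import Pool.Agent.P4.Q52
import Pool.Agent.P4.Y71l

/-! # PENNY, all small diameters: from the target row to Q1 -/

set_option autoImplicit false

namespace Pool.Agent.PEN.E5

open Classical UpperHalfPlane
open Pool.Agent.PEN.Cl

noncomputable section

/-- the defect of Euler's formula -/
def sE {V : Type} (G : Tg V) : ℝ := 2 * G.P.card - 2 - G.oJ.card - G.iD.card / 3

theorem sE_nonneg71 {V : Type} (G : Tg V) {al : ℝ} {kp : V → V → ℝ} {U : ℕ → ℝ}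
    (hG : G.Geo4 al kp U) : 0 ≤ sE G := by
  have h := W4.E1_ineq G hG
  have h' : (G.iD.card : ℝ) + 3 * G.oJ.card + 6 ≤ 6 * G.P.card := by exact_mod_cast h
  unfold sE
  linarith

/-- the target row -/
def Target71 {V : Type} (G : Tg V) (al : ℝ) : Prop :=
  5 * ((inN G).card : ℝ) + 144 ≤ 21 * (cost G al + gam G al - cor G al) + 16 * G.oJ.card +
    63 * sE G

/-- the target row bounds the number of contact darts -/
theorem darts_of_target71 {V : Type} (G : Tg V) {al : ℝ} {kp : V → V → ℝ} {U : ℕ → ℝ}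
    (hG : G.Geo4 al kp U) (h0 : U 0 = 0) (hm : Monotone U)
    (hs : ∀ a b, U a + U b ≤ U (a + b)) (hn : 98 ≤ G.P.card) (h : Target71 G al) :
    (G.D.filter (fun x => G.con x.1 x.2)).card ≤ 2 * Lb G.P.card := by
  obtain ⟨t, I, A, hN, hiD, hiI, _⟩ := num4 G hG h0 hm hs
  have f3 := F3_89 G hG
  have f4 := card_inN71 G
  have f4' : (G.P.card : ℝ) ≤ G.oJ.card + (inN G).card := by exact_mod_cast f4
  have e1 := hN.edge
  have e1' : ((G.D.filter (fun x => G.con x.1 x.2)).card : ℝ) + 2 * I = 3 * t + G.oJ.card := by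
    exact_mod_cast e1
  have e2 : (G.iD.card : ℝ) = 3 * t := by exact_mod_cast hiD
  have e3 : (G.iI.card : ℝ) = 2 * I := by exact_mod_cast hiI
  unfold Target71 sE at h
  rw [e2] at h
  rw [e3] at f3
  have key : 21 * ((G.D.filter (fun x => G.con x.1 x.2)).card : ℝ) + 270 ≤ 100 * G.P.card := by
    linarith
  have key' : 21 * (G.D.filter (fun x => G.con x.1 x.2)).card + 270 ≤ 100 * G.P.card := by
    exact_mod_cast key
  obtain ⟨k, hk⟩ := hN.even
  unfold Lb
  rw [if_neg (by omega), if_pos (by omega)]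
  have h5 : k ≤ (50 * G.P.card - 135) / 21 := by
    rw [Nat.le_div_iff_mul_le (by norm_num)]
    omega
  have h6 := le_max_right (max ((7 * G.P.card - 15) / 3) ((19 * G.P.card - 48) / 8))
    ((50 * G.P.card - 135) / 21)
  omega

/-- **Q1 at a diameter with `cosh d ≤ 1.222`** from the target row for at least 98 points -/
theorem q1_E71 {e d : ℝ} (he : 0 < e) (ha : alpha e = 2 * Real.pi / 7) (hd : 0 < d)
    (hC : Real.cosh d ≤ 611 / 500)
    (hrow : ∀ G : Tg ℍ, G.Geo4 (alpha d) kap (Ust69 d) → DelG G d → HullT G → Sep d G.P →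
      98 ≤ G.P.card → Target71 G (alpha d)) (n : ℕ) : eD d n ≤ eD e n := by
  refine q1_of_main5 he ha hd n (fun _ G hG hD hH hS hn _ => ?_) le_rfl
  rcases Nat.lt_or_ge G.P.card 98 with hn2 | hn2
  · obtain ⟨t, I, A, hN, hiD, hiI, _⟩ := num4 G hG (Ust69_zero d) (Ust69_mono d) (Ust69_sup d)
    apply fin52 hN
    have hE1 := hN.E1
    exact G_num52 hd hC hn (by omega) (by omega) hN.low hN.up hN.G
  · exact darts_of_target71 G hG (Ust69_zero d) (Ust69_mono d) (Ust69_sup d) hn2
      (hrow G hG hD hH hS hn2)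

end

end Pool.Agent.PEN.E5
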