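import Pool.Agent.E5.Kc89
import Pool.Agent.E5.Bs15
import Pool.Agent.E5.Top71

/-! # PENNY, all small diameters: the assembly at `θ = y = 1` for every `Λ ≥ 6`, crude boundary -/

set_option autoImplicit false

namespace Pool.Agent.PEN.E5

open Classical UpperHalfPlane
open Pool.Agent.PEN.Cl

noncomputable section

variable {V : Type} (G : Tg V) {al : ℝ} {kp : V → V → ℝ} {U : ℕ → ℝ}

/-- **the exact row** at `θ = 1` -/
theorem row89 (hG : G.Geo4 al kp U) :
    ((inN G).card : ℝ) = ∑ K ∈ Kc G, wx G 1 K + 9 * ∑ C ∈ WF G, qa G C - 7 * cost G al -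
      7 * (gam G al - cor G al) + G.oJ.card - 6 - 3 * sE G -
      6 * (G.oJ.card + (inN G).card - G.P.card) := by
  have f3 := F3_89 G hG
  have g1 : ((SD G).card : ℝ) = (BC G).card + G.oJ.card := by exact_mod_cast SD_card89 G
  have g2 : ((iJ G).card : ℝ) = (BC G).card + (TT G).card := by exact_mod_cast iJ_card89 G
  have g3 : (G.iD.card : ℝ) = (iJ G).card + G.iI.card := by exact_mod_cast iD_card89 G
  have g5 := Q_sum89 G
  have g6 := sum_wx15 G 1
  rw [g6, g5, g1]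
  unfold sE
  have h1 : ((BC G).card : ℝ) = G.iD.card - G.iI.card - (TT G).card := by linarith
  rw [h1, f3]
  ring

/-- the ears of the all-outer black faces -/
theorem sum_ears89 (hG : G.Geo4 al kp U) :
    ∑ K ∈ Kc G, (if ao14 G K then ((er14 G K).card : ℝ) else 0) ≤
      2 * (G.oJ.card + (inN G).card - G.P.card) := by
  have h := ears_total14 G hG
  have h' : ((∑ K ∈ (Kc G).filter (ao14 G), (er14 G K).card : ℕ) : ℝ) + 2 * G.P.card ≤
      2 * G.oJ.card + 2 * (inN G).card := by exact_mod_cast h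
  rw [Nat.cast_sum, Finset.sum_filter] at h'
  linarith

/-- the weak white sides, by black faces and by white faces -/
theorem sum_WsK89 : ∑ K ∈ Kc G, ((WsK G al K).card : ℝ) = ∑ C ∈ WF G, ((Wk G al C).card : ℝ) := by
  have h1 : ∑ K ∈ Kc G, ((WsK G al K).card : ℝ) = ∑ s ∈ SD G, (if s ∈ BC G ∧ sp G al s < 0
      then (1 : ℝ) else 0) := by
    rw [sum_kS15]
    refine Finset.sum_congr rfl fun K _ => ?_
    unfold WsK
    rw [Finset.card_filter]
    push_cast
    rfl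
  have h2 : ∑ s ∈ SD G, (if s ∈ BC G ∧ sp G al s < 0 then (1 : ℝ) else 0) =
      ∑ s ∈ BC G, (if sp G al s < 0 then (1 : ℝ) else 0) := by
    have e : ∀ s ∈ SD G, s ∉ BC G → (if s ∈ BC G ∧ sp G al s < 0 then (1 : ℝ) else 0) = 0 := by
      intro s _ h
      rw [if_neg fun h2 => h h2.1]
    rw [← Finset.sum_subset (fun s hs => BC_SD14 G hs) e]
    refine Finset.sum_congr rfl fun s hs => ?_
    by_cases h : sp G al s < 0
    · rw [if_pos h, if_pos ⟨hs, h⟩]
    · rw [if_neg h, if_neg fun h2 => h h2.2]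
  rw [h1, h2, sum_BC15]
  refine Finset.sum_congr rfl fun C _ => ?_
  unfold Wk
  rw [Finset.card_filter]
  push_cast
  rfl

/-- the surpluses of the sectors at inner points, against the surpluses of the white sides -/
theorem heads89 (hG : G.Geo4 al kp U) :
    ∑ C ∈ WF G, ∑ x ∈ G.cJ C, sp G al x ≤
      ∑ v ∈ inN G, ∑ x ∈ Sv G v, Ds G al x + 2 * gam G al := by
  have h1 : ∑ x ∈ BC G, sp G al x = ∑ K ∈ Kc G, ∑ x ∈ (kS G K).filter (fun x => x ∈ BC G),
      sp G al x := by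
    have e := sum_kS15 G (fun s => if s ∈ BC G then sp G al s else 0)
    have e2 : ∑ s ∈ SD G, (if s ∈ BC G then sp G al s else 0) = ∑ s ∈ BC G, sp G al s := by
      rw [← Finset.sum_subset (fun s hs => BC_SD14 G hs)
        (fun s _ h => if_neg h)]
      exact Finset.sum_congr rfl fun s hs => if_pos hs
    rw [← e2, e]
    exact Finset.sum_congr rfl fun K _ => (Finset.sum_filter _ _).symm
  have h2 : ∑ K ∈ Kc G, ∑ x ∈ (kS G K).filter (fun x => x.2 ∈ inN G), Ds G al x =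
      ∑ v ∈ inN G, ∑ x ∈ Sv G v, Ds G al x := by
    have e := sum_kS15 G (fun s => if s.2 ∈ inN G then Ds G al s else 0)
    have e2 : ∑ s ∈ SD G, (if s.2 ∈ inN G then Ds G al s else 0) =
        ∑ v ∈ inN G, ∑ x ∈ Sv G v, Ds G al x := by
      rw [← Finset.sum_filter, ← Finset.sum_fiberwise_of_maps_to
        (s := (SD G).filter (fun x => x.2 ∈ inN G)) (t := inN G) (g := Prod.snd)
        (fun x hx => (Finset.mem_filter.1 hx).2)]
      refine Finset.sum_congr rfl fun v hv => Finset.sum_congr ?_ fun _ _ => rfl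
      ext x
      rw [Finset.mem_filter, Finset.mem_filter, mem_Sv62]
      constructor
      · rintro ⟨⟨h3, _⟩, h4⟩
        exact ⟨h3, h4⟩
      · rintro ⟨h3, h4⟩
        exact ⟨⟨h3, by rw [h4]; exact hv⟩, h4⟩
    rw [← e2, e]
    exact Finset.sum_congr rfl fun K _ => Finset.sum_filter _ _
  have h3 : ∑ K ∈ Kc G, ∑ x ∈ (kS G K).filter (fun x => x ∈ BC G), sp G al x ≤
      ∑ K ∈ Kc G, (∑ x ∈ (kS G K).filter (fun x => x.2 ∈ inN G), Ds G al x + uK14 G al K) := by
    refine Finset.sum_le_sum fun K _ => ?_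
    have := U1_14 G hG K
    have h0 : (0 : ℝ) ≤ oK14 G K := Nat.cast_nonneg _
    linarith
  rw [Finset.sum_add_distrib, sum_uK14 G hG, h2, ← h1, sum_BC15] at h3
  exact h3

/-- the points -/
theorem points89 (hG : G.Geo4 al kp U) (hT : ∀ x ∈ iJ G, gc G al x ≤ 1) {La : ℝ} (hLa : 6 ≤ La) :
    ∑ s ∈ Pz G al, max (4 - (rn G s : ℝ)) 0 + ∑ v ∈ inN G, ∑ x ∈ Sv G v, Ds G al x ≤
      (7 + La) * ∑ v ∈ inN G, (kv G al v - 1) + (lfN G).card := by
  have hgap : ∀ v, ∀ x ∈ Bv G v, gc G al x ≤ 1 := fun v x hx =>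
    hT x ((mem_BC89 G).1 ((mem_Bv62 G).1 hx).1).1
  have hep := ep_pos89 G hG
  -- the points with `k ≥ 2`
  have h1 : ∀ v ∈ A2 G al, ∑ s ∈ (Sv G v).filter (fun s => 0 ≤ Ds G al s),
      max (4 - (rn G s : ℝ)) 0 + ∑ s ∈ Sv G v, Ds G al s ≤ (7 + La) * (kv G al v - 1) := by
    intro v hv
    obtain ⟨hv1, hv2⟩ := Finset.mem_filter.1 hv
    have h := vertexD15 G hG (θ := 1) (y := 1) (Λ := La) zero_le_one zero_le_one (by linarith)
      (by linarith) hv1 (hgap v) hv2 (yy := fun _ => 1) (fun s _ => ⟨zero_le_one, le_rfl⟩)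
    have e1 : ∑ s ∈ Sv G v, 1 * Ds G al s = ∑ s ∈ Sv G v, Ds G al s :=
      Finset.sum_congr rfl fun s _ => one_mul _
    have e2 : ∑ s ∈ (Sv G v).filter (fun s => 0 ≤ Ds G al s),
        max (2 + 2 * (1 : ℝ) - 1 * (rn G s : ℝ)) 0 =
        ∑ s ∈ (Sv G v).filter (fun s => 0 ≤ Ds G al s), max (4 - (rn G s : ℝ)) 0 := by
      refine Finset.sum_congr rfl fun s _ => ?_
      congr 1
      ring
    rw [e1, e2] at h
    split_ifs at h with h8
    · have hub : ub15 G al v ≤ 8 := by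
        have := uv_split62 G hG (al := al) v
        unfold ub15
        omega
      have hub' : (ub15 G al v : ℝ) ≤ 8 := by exact_mod_cast hub
      linarith
    · linarith
  have h2 : ∑ s ∈ Pz G al, max (4 - (rn G s : ℝ)) 0 =
      ∑ v ∈ A2 G al, ∑ s ∈ (Sv G v).filter (fun s => 0 ≤ Ds G al s), max (4 - (rn G s : ℝ)) 0 := by
    unfold Pz
    exact sum_sectors15 G (A2 G al) (fun s => 0 ≤ Ds G al s) _
  have h3 : ∑ v ∈ A2 G al, (∑ s ∈ (Sv G v).filter (fun s => 0 ≤ Ds G al s),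
      max (4 - (rn G s : ℝ)) 0 + ∑ s ∈ Sv G v, Ds G al s) ≤
      (7 + La) * ∑ v ∈ inN G, (kv G al v - 1) := by
    rw [sum_kv15 G hG, Finset.mul_sum]
    exact Finset.sum_le_sum h1
  -- the points with `k = 1`
  have h4 : ∑ v ∈ (inN G).filter (fun v => ¬ 8 ≤ uv G al v), ∑ s ∈ Sv G v, Ds G al s ≤
      (lfN G).card := by
    have e : ((lfN G).card : ℝ) = ∑ v ∈ inN G, if cv G v = 1 then (1 : ℝ) else 0 := by
      unfold lfN
      rw [Finset.card_filter]
      push_cast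
      rfl
    rw [e]
    calc ∑ v ∈ (inN G).filter (fun v => ¬ 8 ≤ uv G al v), ∑ s ∈ Sv G v, Ds G al s ≤
        ∑ v ∈ (inN G).filter (fun v => ¬ 8 ≤ uv G al v), (if cv G v = 1 then (1 : ℝ) else 0) := by
          refine Finset.sum_le_sum fun v hv => ?_
          obtain ⟨hv1, hv2⟩ := Finset.mem_filter.1 hv
          have h7 := uv_ge89 G hG hv1
          have h8 : uv G al v = 7 := by omega
          have h9 := sum_DsSv15 G hG hv1
          rw [kv_eq89, h8] at h9
          push_cast at h9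
          have h10 : 1 ≤ cv G v := by
            have h12 : (Bv G v).Nonempty := by
              by_contra hne
              rw [Finset.not_nonempty_iff_eq_empty] at hne
              have h11 := sum_Bv15 G hG hv1
              rw [hne, Finset.sum_empty, kv_eq89, h8] at h11
              push_cast at h11
              have := ep_lt89 G hG
              linarith
            exact Finset.card_pos.2 h12
          by_cases hc : cv G v = 1
          · rw [if_pos hc, h9, hc]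
            push_cast
            linarith
          · rw [if_neg hc, h9]
            have h13 : (2 : ℝ) ≤ cv G v := by exact_mod_cast (by omega : 2 ≤ cv G v)
            linarith
      _ ≤ _ := Finset.sum_le_sum_of_subset_of_nonneg (Finset.filter_subset _ _)
          fun v _ _ => by split_ifs <;> norm_num
  have h5 : ∑ v ∈ inN G, ∑ x ∈ Sv G v, Ds G al x = ∑ v ∈ A2 G al, ∑ s ∈ Sv G v, Ds G al s +
      ∑ v ∈ (inN G).filter (fun v => ¬ 8 ≤ uv G al v), ∑ s ∈ Sv G v, Ds G al s :=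
    (Finset.sum_filter_add_sum_filter_not (inN G) (fun v => 8 ≤ uv G al v) _).symm
  rw [Finset.sum_add_distrib] at h3
  rw [h2, h5]
  linarith

/-- **the assembly**, crude boundary -/
theorem rung89 (hG : G.Geo4 al kp U) (hT : ∀ x ∈ iJ G, gc G al x ≤ 1) {La : ℝ} (hLa : 6 ≤ La)
    {p : V × V → ℝ}
    (hp1 : ∀ K ∈ Kc G, ∀ x ∈ Lv G K, pm G al (sg G x) ≤ p (sg G x))
    (hp2 : ∀ K ∈ Kc G, ∀ x, Lv G K = {x} → K ∉ Sf G al → WsK G al K = ∅ → uK14 G al K < 1 →
      (un G al (sg G x) : ℝ) - 2 ≤ p (sg G x))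
    (hW : ∀ C ∈ WF G, 4 * ((Wk G al C).card : ℝ) +
      ∑ x ∈ (G.cJ C).filter (fun x => x.1 ∈ lfN G), p x ≤
        (La + 7) * ka G al C - 9 * qa G C + ∑ x ∈ G.cJ C, sp G al x) :
    ((inN G).card : ℝ) ≤ La * cost G al + 3 * gam G al + 7 * cor G al + G.oJ.card - 6 -
      3 * sE G - 2 * (G.oJ.card + (inN G).card - G.P.card) := by
  have a1 : ∑ K ∈ Kc G, (wx G 1 K + (Lv G K).card) ≤
      ∑ K ∈ Kc G, (∑ s ∈ PK G al K, max (4 - (rn G s : ℝ)) 0 +
        4 * (WsK G al K).card + 4 * uK14 G al K +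
        2 * (if ao14 G K then ((er14 G K).card : ℝ) else 0) + ∑ x ∈ Lv G K, p (sg G x)) :=
    Finset.sum_le_sum fun K hK => kcost89 G hG hT (hp1 K hK) (hp2 K hK)
  rw [Finset.sum_add_distrib, Finset.sum_add_distrib, Finset.sum_add_distrib,
    Finset.sum_add_distrib, Finset.sum_add_distrib, ← Finset.mul_sum, ← Finset.mul_sum,
    ← Finset.mul_sum, sum_WsK89, sum_uK14 G hG] at a1
  have a2 : ∑ K ∈ Kc G, ((Lv G K).card : ℝ) = (lfN G).card := by
    have e1 := sum_leafs15 G (fun _ => (1 : ℝ))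
    have e2 : ∑ K ∈ Kc G, ((Lv G K).card : ℝ) = ∑ K ∈ Kc G, ∑ x ∈ Lv G K, (1 : ℝ) :=
      Finset.sum_congr rfl fun K _ => by rw [Finset.sum_const, nsmul_eq_mul, mul_one]
    rw [e2, e1]
    have e3 : ∀ v ∈ lfN G, ∑ s ∈ Sv G v, (1 : ℝ) = 1 := by
      intro v hv
      obtain ⟨h1, h2⟩ := (mem_lfN15 G).1 hv
      rw [Finset.sum_const, card_Sv62 G hG h1, h2]
      norm_num
    rw [Finset.sum_congr rfl e3, Finset.sum_const, nsmul_eq_mul, mul_one]
  have a3 : ∑ K ∈ Kc G, ∑ x ∈ Lv G K, p (sg G x) =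
      ∑ C ∈ WF G, ∑ x ∈ (G.cJ C).filter (fun x => x.1 ∈ lfN G), p x := by
    rw [sum_leafs15 G (fun x => p (sg G x)), sum_leafc15 G hG p]
  have a4 : ∑ K ∈ Kc G, ∑ s ∈ PK G al K, max (4 - (rn G s : ℝ)) 0 =
      ∑ s ∈ Pz G al, max (4 - (rn G s : ℝ)) 0 := by
    unfold PK
    exact Finset.sum_fiberwise_of_maps_to (fun s hs => ku_Kc15 G ((mem_Pz15 G).1 hs).1) _
  rw [a2, a3, a4] at a1
  have b1 := sum_ears89 G hG
  have b2 := heads89 G hG
  have b3 := points89 G hG hT hLa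
  have b4 : ∑ C ∈ WF G, (4 * ((Wk G al C).card : ℝ) +
      ∑ x ∈ (G.cJ C).filter (fun x => x.1 ∈ lfN G), p x) ≤
      ∑ C ∈ WF G, ((La + 7) * ka G al C - 9 * qa G C + ∑ x ∈ G.cJ C, sp G al x) :=
    Finset.sum_le_sum hW
  rw [Finset.sum_add_distrib, Finset.sum_add_distrib, Finset.sum_sub_distrib, ← Finset.mul_sum,
    ← Finset.mul_sum, ← Finset.mul_sum] at b4
  have b5 := row89 G hG
  have e1 : cost G al = ∑ v ∈ inN G, (kv G al v - 1) + ∑ C ∈ WF G, ka G al C := rfl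
  rw [e1] at b5 ⊢
  rw [mul_add] at b5 ⊢
  linarith

end

end Pool.Agent.PEN.E5
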