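import Pool.Agent.E5.Vs39

/-! # PENNY, all small diameters: the points with three big corners and one unit too much

A corner with two units whose two sectors have the runs `0` and `1` is at a point with three big
corners (there are at most two such corners at the point) or has a partner with four units. -/

set_option autoImplicit false

namespace Pool.Agent.PEN.E5

open Classical UpperHalfPlane
open Pool.Agent.PEN.Cl

noncomputable section

variable {V : Type} (G : Tg V) {al : ℝ} {kp : V → V → ℝ} {U : ℕ → ℝ}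

/-- a corner with two units, its two sectors have the runs `0` and `1` -/
def Cl62 (al : ℝ) (v : V) (c : V × V) : Prop :=
  un G al c = 2 ∧ ∃ x ∈ Sv G v, ∃ y ∈ Sv G v, sg G x = c ∧ nx G y = c ∧ rn G x + rn G y = 1

theorem Cl_Bv62 (hG : G.Geo4 al kp U) {v : V} (hv : v ∈ inN G) {c : V × V}
    (hc : Cl62 G al v c) : c ∈ Bv G v := by
  obtain ⟨_, x, hx, _, _, h, _⟩ := hc
  rw [← h]
  exact sg_Bv62 G hG hv hx

theorem un_Bv62 {v : V} {c : V × V} (hc : c ∈ Bv G v) : 2 ≤ un G al c :=
  un_ge15 G ((mem_BC89 G).1 ((mem_Bv62 G).1 hc).1).2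

/-- **Y1** -/
theorem yclaim62 (hG : G.Geo4 al kp U) {v : V} (hv : v ∈ inN G) (h7 : uv G al v = 7)
    {c : V × V} (hc : Cl62 G al v c) :
    (cv G v = 3 ∧ (∀ b ∈ Bv G v, un G al b = 2) ∧ ∑ x ∈ Sv G v, rn G x = 1) ∨
      (cv G v = 2 ∧ ∃ b ∈ Bv G v, b ≠ c ∧ Bv G v = {c, b} ∧ un G al b = 4) := by
  obtain ⟨hu, x, hx, y, hy, h1, h2, h3⟩ := hc
  have hsum := uv_split62 G (al := al) hG v
  rw [h7] at hsum
  have hpos := cv_pos89 G hG hv
  have hle := cv_le39 G hG h7
  have hc4 : cv G v = 1 ∨ cv G v = 2 ∨ cv G v = 3 := by omega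
  rcases hc4 with hc1 | hc2 | hc3
  · exfalso
    obtain ⟨hS, _, _⟩ := c1_89 G hG hv hc1 hx
    rw [hS, Finset.mem_singleton] at hy
    rw [hy] at h3
    omega
  · right
    obtain ⟨hne, hB, z, hz, hzx, hS, h4, h5⟩ := c2_89 G hG hv hc2 hx
    have hyz : y = z := by
      rw [hS, Finset.mem_insert, Finset.mem_singleton] at hy
      rcases hy with h | h
      · exfalso
        rw [h, ← h1] at h2
        exact hne h2
      · exact h
    subst hyz
    rw [hS, Finset.sum_pair hzx.symm, hB, Finset.sum_pair hne.symm, h3, h1, hu] at hsum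
    refine ⟨hc2, nx G x, nx_Bv62 G hG hv hx, ?_, ?_, by omega⟩
    · rw [← h1]; exact hne
    · rw [hB, h1]
  · left
    obtain ⟨w, hw, z, hz, hwx, hzx, hzw, hS, hB, e1, e2, e3⟩ := c3_89 G hG hv hc3 hx
    have hyz : y = z := nx_injSv89 G hG hy hz (by rw [h2, e3, h1])
    subst hyz
    have n1 : sg G x ≠ sg G w := fun h => hwx (sg_injSv89 G hG hv hx hw h).symm
    have n2 : sg G x ≠ sg G y := fun h => hzx (sg_injSv89 G hG hv hx hz h).symm
    have n3 : sg G w ≠ sg G y := fun h => hzw (sg_injSv89 G hG hv hw hz h).symm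
    have hsS : ∑ s ∈ Sv G v, rn G s = rn G x + (rn G w + rn G y) := by
      rw [hS, Finset.sum_insert (by
        simp only [Finset.mem_insert, Finset.mem_singleton]
        rintro (h | h)
        · exact hwx h.symm
        · exact hzx h.symm), Finset.sum_insert (by
        rw [Finset.mem_singleton]; exact hzw.symm), Finset.sum_singleton]
    have hsB : ∑ s ∈ Bv G v, un G al s = un G al (sg G x) + (un G al (sg G w) +
        un G al (sg G y)) := by
      rw [hB, Finset.sum_insert (by
        simp only [Finset.mem_insert, Finset.mem_singleton]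
        rintro (h | h)
        · exact n1 h
        · exact n2 h), Finset.sum_insert (by
        rw [Finset.mem_singleton]; exact n3), Finset.sum_singleton]
    have u1 := un_Bv62 G (al := al) (sg_Bv62 G hG hv hx)
    have u2 := un_Bv62 G (al := al) (sg_Bv62 G hG hv hw)
    have u3 := un_Bv62 G (al := al) (sg_Bv62 G hG hv hy)
    rw [hsS, hsB] at hsum
    refine ⟨hc3, ?_, by omega⟩
    intro b hb
    rw [hB, Finset.mem_insert, Finset.mem_insert, Finset.mem_singleton] at hb
    rcases hb with rfl | rfl | rfl <;> omega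

/-- **Y2**: at most two such corners at a point -/
theorem ycount62 (hG : G.Geo4 al kp U) {v : V} (hv : v ∈ inN G) (h7 : uv G al v = 7)
    (hc3 : cv G v = 3) : ((Bv G v).filter (fun c => Cl62 G al v c)).card ≤ 2 := by
  rcases Finset.eq_empty_or_nonempty ((Bv G v).filter (fun c => Cl62 G al v c)) with h0 | ⟨c, hc⟩
  · rw [h0]; simp
  · have hc' := (Finset.mem_filter.1 hc).2
    rcases yclaim62 G hG hv h7 hc' with ⟨_, _, hs⟩ | ⟨h2, _⟩
    · obtain ⟨_, x, hx, y, hy, _, _, h3⟩ := hc'
      -- the sector with run one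
      obtain ⟨s, hs1, hs2⟩ : ∃ s ∈ Sv G v, rn G s = 1 := by
        have : rn G x = 1 ∨ rn G y = 1 := by omega
        rcases this with h | h
        · exact ⟨x, hx, h⟩
        · exact ⟨y, hy, h⟩
      have huniq : ∀ t ∈ Sv G v, rn G t = 1 → t = s := by
        intro t ht h
        by_contra hne
        have h4 : ({t, s} : Finset (V × V)) ⊆ Sv G v := by
          intro z hz
          rcases Finset.mem_insert.1 hz with h5 | h5
          · rw [h5]; exact ht
          · rw [Finset.mem_singleton.1 h5]; exact hs1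
        have h5 := Finset.sum_le_sum_of_subset (f := rn G) h4
        rw [Finset.sum_pair hne, hs] at h5
        omega
      have hsub : (Bv G v).filter (fun c => Cl62 G al v c) ⊆ {sg G s, nx G s} := by
        intro d hd
        obtain ⟨_, x', hx', y', hy', k1, k2, k3⟩ := (Finset.mem_filter.1 hd).2
        rw [Finset.mem_insert, Finset.mem_singleton]
        have : rn G x' = 1 ∨ rn G y' = 1 := by omega
        rcases this with h | h
        · left
          rw [← huniq x' hx' h, k1]
        · right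
          rw [← huniq y' hy' h, k2]
      exact (Finset.card_le_card hsub).trans Finset.card_le_two
    · omega

/-- **Y3**: the income of the points with three big corners -/
theorem yincome62 (hG : G.Geo4 al kp U) {v : V} (hv : v ∈ inN G) (h7 : uv G al v = 7)
    (hc : cv G v ≠ 1) :
    (if cv G v = 3 then (1 : ℝ) else 0) ≤ - ∑ s ∈ Sv G v, Ds G al s := by
  have h1 := sum_Dsv39 G hG hv
  have h2 := ep_pos89 G hG
  have hpos := cv_pos89 G hG hv
  rw [kv_eq89, h7] at h1
  push_cast at h1
  rw [h1]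
  split_ifs with h3
  · rw [h3]
    push_cast
    linarith
  · have h4 : (2 : ℝ) ≤ cv G v := by
      have : 2 ≤ cv G v := by omega
      exact_mod_cast this
    linarith

/-- the claims: corners with two units and runs `0`, `1` at points with three big corners are paid
one half each -/
theorem ypay62 (hG : G.Geo4 al kp U) (T : Finset (V × V))
    (hT : ∀ c ∈ T, c.1 ∈ inN G ∧ uv G al c.1 = 7 ∧ cv G c.1 = 3 ∧ Cl62 G al c.1 c) :
    (T.card : ℝ) / 2 ≤ - ∑ v ∈ (inN G).filter (fun v => uv G al v = 7 ∧ cv G v ≠ 1),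
      ∑ s ∈ Sv G v, Ds G al s := by
  have h1 : (T.card : ℝ) ≤ ∑ v ∈ (inN G).filter (fun v => uv G al v = 7 ∧ cv G v ≠ 1),
      2 * (if cv G v = 3 then (1 : ℝ) else 0) := by
    have hmap : ∀ c ∈ T, c.1 ∈ (inN G).filter (fun v => uv G al v = 7 ∧ cv G v ≠ 1) := by
      intro c hc
      obtain ⟨h2, h3, h4, _⟩ := hT c hc
      exact Finset.mem_filter.2 ⟨h2, h3, by omega⟩
    rw [Finset.card_eq_sum_card_fiberwise (f := Prod.fst) fun c hc =>
      Finset.mem_coe.2 (hmap c (Finset.mem_coe.1 hc)), Nat.cast_sum]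
    refine Finset.sum_le_sum fun v hv => ?_
    obtain ⟨h2, h3, h4⟩ := Finset.mem_filter.1 hv
    split_ifs with h5
    · have h6 : T.filter (fun c => c.1 = v) ⊆ (Bv G v).filter (fun c => Cl62 G al v c) := by
        intro c hc
        obtain ⟨h7, h8⟩ := Finset.mem_filter.1 hc
        obtain ⟨_, _, _, h9⟩ := hT c h7
        rw [h8] at h9
        exact Finset.mem_filter.2 ⟨Cl_Bv62 G hG h2 h9, h9⟩
      have h7 := (Finset.card_le_card h6).trans (ycount62 G hG h2 h3 h5)
      have h8 : ((T.filter (fun c => c.1 = v)).card : ℝ) ≤ 2 := by exact_mod_cast h7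
      linarith
    · have h6 : T.filter (fun c => c.1 = v) = ∅ := by
        rw [Finset.filter_eq_empty_iff]
        intro c hc h8
        obtain ⟨_, _, h9, _⟩ := hT c hc
        rw [h8] at h9
        exact h5 h9
      rw [h6]
      simp
  rw [← Finset.mul_sum] at h1
  have h2 : ∑ v ∈ (inN G).filter (fun v => uv G al v = 7 ∧ cv G v ≠ 1),
      (if cv G v = 3 then (1 : ℝ) else 0) ≤
      ∑ v ∈ (inN G).filter (fun v => uv G al v = 7 ∧ cv G v ≠ 1), - ∑ s ∈ Sv G v, Ds G al s := by
    refine Finset.sum_le_sum fun v hv => ?_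
    obtain ⟨h2, h3, h4⟩ := Finset.mem_filter.1 hv
    exact yincome62 G hG h2 h3 h4
  rw [Finset.sum_neg_distrib] at h2
  linarith

/-- **Y4**: the partner with four units -/
def pr62 (v : V) (c : V × V) : V × V := if h : ∃ b ∈ Bv G v, b ≠ c then Classical.choose h else c

theorem pr_spec62 (hG : G.Geo4 al kp U) {v : V} (hv : v ∈ inN G) (h7 : uv G al v = 7)
    (hc2 : cv G v = 2) {c : V × V} (hc : Cl62 G al v c) :
    pr62 G v c ∈ Bv G v ∧ pr62 G v c ≠ c ∧ Bv G v = {c, pr62 G v c} ∧
      un G al (pr62 G v c) = 4 := by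
  rcases yclaim62 G hG hv h7 hc with ⟨h3, _⟩ | ⟨_, b, hb, hbc, hB, hu⟩
  · omega
  · have h : ∃ b ∈ Bv G v, b ≠ c := ⟨b, hb, hbc⟩
    obtain ⟨h1, h2⟩ := Classical.choose_spec h
    have e : pr62 G v c = Classical.choose h := by
      unfold pr62
      rw [dif_pos h]
    have h4 : Classical.choose h = b := by
      have h5 : Classical.choose h ∈ ({c, b} : Finset (V × V)) := by
        have h6 := h1
        exact hB.subset h6
      rcases Finset.mem_insert.1 h5 with h5 | h5
      · exact absurd h5 h2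
      · exact Finset.mem_singleton.1 h5
    rw [e, h4]
    exact ⟨hb, hbc, hB, hu⟩

/-- different claims have different partners -/
theorem pr_inj62 (hG : G.Geo4 al kp U) {c d : V × V} (hc : c.1 ∈ inN G) (hd : d.1 ∈ inN G)
    (h7 : uv G al c.1 = 7) (h7' : uv G al d.1 = 7) (h2 : cv G c.1 = 2) (h2' : cv G d.1 = 2)
    (hcc : Cl62 G al c.1 c) (hcd : Cl62 G al d.1 d) (he : pr62 G c.1 c = pr62 G d.1 d) : c = d := by
  obtain ⟨a1, a2, a3, a4⟩ := pr_spec62 G hG hc h7 h2 hcc
  obtain ⟨b1, b2, b3, b4⟩ := pr_spec62 G hG hd h7' h2' hcd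
  have e1 := ((mem_Bv62 G).1 a1).2
  have e2 := ((mem_Bv62 G).1 b1).2
  have e3 : c.1 = d.1 := by rw [← e1, ← e2, he]
  have h3 : d ∈ Bv G c.1 := by
    rw [e3, b3]
    exact Finset.mem_insert_self _ _
  rw [a3, Finset.mem_insert, Finset.mem_singleton] at h3
  rcases h3 with h3 | h3
  · exact h3.symm
  · rw [he] at h3
    exact absurd h3.symm b2

end

end Pool.Agent.PEN.E5
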