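import Pool.Agent.E5.Ve39
import Pool.Agent.E5.Pe39
import Pool.Agent.E5.Yb62
import Pool.Agent.E5.SF54

/-! # PENNY, all small diameters: the pentagons with two fans and a digon

The point row of the set `(1, 1, 6)` with claims. -/

set_option autoImplicit false

namespace Pool.Agent.PEN.E5

open Classical UpperHalfPlane
open Pool.Agent.PEN.Cl

noncomputable section

section abs

variable {V : Type} (G : Tg V) {al : ℝ} {kp : V → V → ℝ} {U : ℕ → ℝ}

/-- the sectors at `v` with negative surplus and a contact triangle -/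
def Ng39 (al : ℝ) (v : V) : Finset (V × V) :=
  (Sv G v).filter (fun s => Ds G al s < 0 ∧ 1 ≤ rn G s)

/-- **point row with claims**: one unit for each negative sector with a triangle -/
theorem vertexN39 (hG : G.Geo4 al kp U) (h1 : ∀ x ∈ iJ G, gc G al x ≤ 1) {yy : V × V → ℝ}
    {v : V} (hv : v ∈ inN G) (h8 : 8 ≤ uv G al v) (hy1 : ∀ s ∈ Sv G v, 1 ≤ yy s)
    (hy2 : ∀ s ∈ Sv G v, yy s ≤ 2) (hr : ∀ s ∈ Sv G v, rn G s = 0 → yy s ≤ 1) :
    ∑ s ∈ (Sv G v).filter (fun s => 0 ≤ Ds G al s), max (4 - (rn G s : ℝ)) 0 +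
        ∑ s ∈ Sv G v, yy s * Ds G al s + (Ng39 G al v).card ≤
      13 * (kv G al v - 1) - 2 * ep al := by
  rcases Nat.eq_zero_or_pos (Ng39 G al v).card with hM | hM
  · rw [hM]
    have := vertexE39 G hG h1 hv h8 hy1 hy2 hr
    push_cast
    linarith
  have a0 := sum_yyD39 G hG h1 hv hy1 hy2
  have hcS := card_Sv62 G hG hv
  have hus := two_cv_le15 G (al := al) v
  have hspl := uv_split62 G hG (al := al) v
  have hcu : 2 * cv G v ≤ uv G al v := by
    unfold ub15 at hus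
    omega
  have hk := kv_eq89 G (al := al) v
  set P := (Sv G v).filter (fun s => 0 ≤ Ds G al s) with hPd
  have hQ : ((Sv G v).filter (fun s => 0 ≤ Ds G al s ∧ 1 < yy s)).card ≤ P.card := by
    refine Finset.card_le_card fun s hs => ?_
    rw [Finset.mem_filter] at hs
    exact Finset.mem_filter.2 ⟨hs.1, hs.2.1⟩
  have hdis : Disjoint P (Ng39 G al v) := by
    rw [Finset.disjoint_left]
    intro s hs1 hs2
    have e1 := (Finset.mem_filter.1 hs1).2
    have e2 := (Finset.mem_filter.1 hs2).2.1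
    linarith
  have hPM : P.card + (Ng39 G al v).card ≤ cv G v := by
    rw [← Finset.card_union_of_disjoint hdis, ← hcS]
    refine Finset.card_le_card fun s hs => ?_
    rcases Finset.mem_union.1 hs with h | h
    · exact (Finset.mem_filter.1 h).1
    · exact (Finset.mem_filter.1 h).1
  have crude : ∑ s ∈ P, max (4 - (rn G s : ℝ)) 0 ≤ P.card * 4 := by
    rw [← nsmul_eq_mul]
    refine Finset.sum_le_card_nsmul _ _ _ fun s _ => ?_
    have : (0 : ℝ) ≤ rn G s := Nat.cast_nonneg _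
    exact max_le (by linarith) (by norm_num)
  have hQ' : (((Sv G v).filter (fun s => 0 ≤ Ds G al s ∧ 1 < yy s)).card : ℝ) ≤ P.card := by
    exact_mod_cast hQ
  have hPM' : (P.card : ℝ) + (Ng39 G al v).card ≤ cv G v := by exact_mod_cast hPM
  have hM' : (1 : ℝ) ≤ (Ng39 G al v).card := by exact_mod_cast hM
  rcases Nat.lt_or_ge 8 (uv G al v) with h9 | h9
  · have h9' : (9 : ℝ) ≤ uv G al v := by exact_mod_cast h9
    have hcu' : 2 * (cv G v : ℝ) ≤ uv G al v := by exact_mod_cast hcu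
    rw [hk] at a0 ⊢
    linarith
  · have hu8 : uv G al v = 8 := le_antisymm h9 h8
    have hk2 : kv G al v = 2 := by
      rw [hk, hu8]
      norm_num
    have hc3 : cv G v ≤ 3 := by
      by_contra hno
      have e1 : ∑ s ∈ Sv G v, rn G s = 0 := by
        unfold ub15 at hus
        omega
      obtain ⟨s, hs⟩ := Finset.card_pos.1 hM
      obtain ⟨s1, s2, s3⟩ := Finset.mem_filter.1 hs
      have e2 := (Finset.sum_eq_zero_iff_of_nonneg (fun _ _ => Nat.zero_le _)).1 e1 s s1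
      omega
    have hc3' : (cv G v : ℝ) ≤ 3 := by exact_mod_cast hc3
    rw [hk2] at a0 ⊢
    linarith

/-- three big corners at `uv = 7`: at least one unit is gained -/
theorem three39 (hG : G.Geo4 al kp U) {yy : V × V → ℝ}
    {v : V} (hv : v ∈ inN G) (h7 : uv G al v = 7) (hc : cv G v = 3)
    (hy1 : ∀ s ∈ Sv G v, 1 ≤ yy s) :
    ∑ s ∈ Sv G v, yy s * Ds G al s + 2 * ep al ≤ -1 := by
  have e1 : ∑ s ∈ Sv G v, yy s * Ds G al s ≤ ∑ s ∈ Sv G v, Ds G al s := by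
    refine Finset.sum_le_sum fun s hs => ?_
    have h2 : Ds G al s ≤ 0 := by
      by_contra hno
      push Not at hno
      obtain ⟨h3, h4⟩ := (mem_Sv62 G).1 hs
      rcases pos_sector89 G hG hv h3 h4 hno.le with h | h <;> omega
    nlinarith [hy1 s hs]
  rw [sum_Dsv39 G hG hv, kv_eq89, h7, hc] at e1
  push_cast at e1
  linarith

/-- **the bad pentagon** at the corner `x`: the weak digon `x` and two leaves -/
structure Bad39 (al : ℝ) (x : V × V) : Prop where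
  bc : x ∈ BC G
  u0 : un G al x = 2
  u1 : un G al (sg G x) = 2
  u2 : un G al (sg G (sg G x)) = 3
  u4 : un G al (sg G (sg G (sg G (sg G x)))) = 3
  cyc : sg G (sg G (sg G (sg G (sg G x)))) = x
  i1 : x.1 ∈ inN G
  i2 : x.2 ∈ inN G
  dg : tK G (ku G x) = 0
  l1 : Lv G (ku G (sg G x)) = {sg G x}
  t1 : tK G (ku G (sg G x)) ≤ 4
  s1 : ku G (sg G x) ∉ Sf G al
  l3 : Lv G (ku G (sg G (sg G (sg G x)))) = {sg G (sg G (sg G x))}
  t3 : tK G (ku G (sg G (sg G (sg G x)))) ≤ 4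
  s3 : ku G (sg G (sg G (sg G x))) ∉ Sf G al

/-- a single leaf with run four and at most four triangles: the two neighbours have run one -/
theorem leaf_nb39 (hG : G.Geo4 al kp U) (h1 : ∀ x ∈ iJ G, gc G al x ≤ 1) {s : V × V}
    (hl : Lv G (ku G s) = {s}) (hu : un G al (sg G s) = 3) (ht : tK G (ku G s) ≤ 4) :
    rn G s = 4 ∧ nx G s = sg G s ∧ sg G s ∈ SD G ∧ ku G (sg G s) = ku G s ∧
      rn G (sg G s) = 1 ∧ ∃ y ∈ SD G, nx G y = s ∧ ku G y = ku G s ∧ rn G y = 1 := by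
  have hs : s ∈ Lv G (ku G s) := by rw [hl]; exact Finset.mem_singleton_self s
  have hs' := (mem_Lv15 G).1 hs
  have hsS := mem_kS89 G hs'.1
  have e1 := leaf_sum15 G hG h1 hs
  have e2 : rn G s = 4 := by omega
  have e3 : nx G s = sg G s := leaf_nx18 G hG hsS hs'.2
  obtain ⟨e4, e5⟩ := nx_ku63 G hG hsS
  have e6 := run_adj63 G hG hsS
  rw [e3] at e4 e5 e6
  have e7 : rn G (sg G s) ≠ 0 := by
    intro h
    have := (rn_pos_all54 G hG hsS e4 e5).1 h
    omega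
  obtain ⟨y, hy, hyn⟩ := nx_surj42 G hG hsS
  have f1 := (nx_ku63 G hG hy).2
  have f2 := run_adj63 G hG hy
  rw [hyn] at f1 f2
  have f3 : rn G y ≠ 0 := by
    intro h
    have := (rn_pos_all54 G hG hsS hy f1.symm).1 h
    omega
  rw [← f1] at f2
  refine ⟨e2, e3, e4, e5, by omega, y, hy, hyn, f1.symm, by omega⟩

/-- the head end -/
theorem endh39 (hG : G.Geo4 al kp U) (h1 : ∀ x ∈ iJ G, gc G al x ≤ 1) {x : V × V}
    (hx : Bad39 G al x) : ∃ s ∈ Sv G x.2, nx G s = sg G x ∧ rn G s = 1 ∧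
      ku G s = ku G (sg G x) ∧ rn G x = 0 ∧ x ∈ Sv G x.2 ∧ nx G x = (x.2, x.1) := by
  obtain ⟨_, _, _, _, _, y, hy, hyn, hyk, hyr⟩ := leaf_nb39 G hG h1 hx.l1 hx.u2 hx.t1
  have hxS : x ∈ SD G := BC_SD89 G ((mem_BC89 G).1 hx.bc).1 ((mem_BC89 G).1 hx.bc).2
  have hr := (tK_zero54 G hG hxS).1 hx.dg
  refine ⟨y, (mem_Sv62 G).2 ⟨hy, ?_⟩, hyn, hyr, hyk, hr, (mem_Sv62 G).2 ⟨hxS, rfl⟩,
    (digon54 G hG hxS hr).2.2.2.2.1⟩
  have : (nx G y).1 = (sg G x).1 := by rw [hyn]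
  exact this

/-- the tail end -/
theorem endt39 (hG : G.Geo4 al kp U) (h1 : ∀ x ∈ iJ G, gc G al x ≤ 1) {x : V × V}
    (hx : Bad39 G al x) : ∃ s ∈ Sv G x.1, sg G s = x ∧ rn G s = 1 ∧
      ku G s = ku G (sg G (sg G (sg G x))) ∧ nx G (sg G (sg G (sg G x))) = s ∧
      0 < rn G (sg G (sg G (sg G x))) ∧ (x.2, x.1) ∈ Sv G x.1 ∧ nx G (x.2, x.1) = x ∧
      rn G (x.2, x.1) = 0 := by
  obtain ⟨e1, e2, e3, e4, e5, _⟩ := leaf_nb39 G hG h1 hx.l3 hx.u4 hx.t3
  have hxS : x ∈ SD G := BC_SD89 G ((mem_BC89 G).1 hx.bc).1 ((mem_BC89 G).1 hx.bc).2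
  have hr := (tK_zero54 G hG hxS).1 hx.dg
  obtain ⟨d1, _, _, _, _, d2⟩ := digon54 G hG hxS hr
  obtain ⟨_, _, _, _, d3, _⟩ := digon54 G hG d1 d2
  refine ⟨_, (mem_Sv62 G).2 ⟨e3, ?_⟩, hx.cyc, e5, e4, e2, by omega,
    (mem_Sv62 G).2 ⟨d1, rfl⟩, d3, d2⟩
  have : (sg G (sg G (sg G (sg G (sg G x))))).1 = x.1 := by rw [hx.cyc]
  exact this

/-- **(U)** the sector of a head end is not the sector of a tail end -/
theorem ends_ne39 (hG : G.Geo4 al kp U) {x y s : V × V} (hx : Bad39 G al x) (hy : Bad39 G al y)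
    (h1 : nx G s = sg G x) (h2 : ku G s = ku G (sg G x))
    (h3 : ku G s = ku G (sg G (sg G (sg G y)))) (h4 : nx G (sg G (sg G (sg G y))) = s)
    (h5 : 0 < rn G (sg G (sg G (sg G y)))) (hs : s ∈ SD G) : False := by
  have e1 : sg G (sg G (sg G y)) = sg G x := by
    have h6 := hx.l1
    rw [← h2, h3, hy.l3] at h6
    exact Finset.singleton_inj.1 h6
  set t := sg G (sg G (sg G y)) with ht
  have htS : t ∈ SD G := by
    have : t ∈ Lv G (ku G t) := by rw [hy.l3]; exact Finset.mem_singleton_self _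
    exact mem_kS89 G ((mem_Lv15 G).1 this).1
  have e2 : nx G s = t := by rw [h1, e1]
  have e3 : s.1 = t.2 := by rw [← h4]; rfl
  have e4 : t.1 = s.2 := by rw [← e2]; rfl
  have e5 := (rn_pos54 G hG htS).1 h5
  rw [← e3, e4] at e5
  exact ((mem_SD42 G).1 hs).2 e5

/-- the sector of a claim of run one at an inner point: three cases -/
theorem claim_case39 (hG : G.Geo4 al kp U) {v : V} (hv : v ∈ inN G) {s c : V × V}
    (hs : s ∈ Sv G v) (hr : rn G s = 1) (hk : ku G s ∉ Sf G al) (hc : Cl62 G al v c) :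
    (8 ≤ uv G al v ∧ s ∈ Ng39 G al v) ∨
      (uv G al v = 7 ∧ cv G v = 3 ∧ ∑ x ∈ Sv G v, rn G x = 1) ∨
      (uv G al v = 7 ∧ cv G v = 2 ∧ ∃ b ∈ Bv G v, b ≠ c ∧ Bv G v = {c, b} ∧
        un G al b = 4) := by
  rcases Nat.lt_or_ge (uv G al v) 8 with h8 | h8
  · have h7 : uv G al v = 7 := by
      have := uv_ge89 G hG hv
      omega
    rcases yclaim62 G hG hv h7 hc with ⟨h1, _, h2⟩ | ⟨h1, h2⟩
    · exact Or.inr (Or.inl ⟨h7, h1, h2⟩)
    · exact Or.inr (Or.inr ⟨h7, h1, h2⟩)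
  · refine Or.inl ⟨h8, Finset.mem_filter.2 ⟨hs, ?_, by omega⟩⟩
    by_contra hno
    push Not at hno
    obtain ⟨h1, h2⟩ := (mem_Sv62 G).1 hs
    exact hk ((mem_Sf15 G).2 ⟨s, (mem_kS42 G).2 ⟨h1, rfl⟩,
      (mem_Pz15 G).2 ⟨h1, by rw [h2]; exact hv, by rw [h2]; exact h8, hno⟩⟩)

/-- both ends of type `(7, 2)` -/
def Zt39 (al : ℝ) (x : V × V) : Prop :=
  (uv G al x.2 = 7 ∧ cv G x.2 = 2) ∧ (uv G al x.1 = 7 ∧ cv G x.1 = 2)

/-- a bad corner with both ends of type `(7, 2)`: the two corners behind have four units -/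
theorem zt39 (hG : G.Geo4 al kp U) (h1 : ∀ x ∈ iJ G, gc G al x ≤ 1) {x : V × V}
    (hx : Bad39 G al x) (hz : Zt39 G al x) :
    Bv G x.2 = {sg G x, (x.2, x.1)} ∧ Bv G x.1 = {x, sg G (x.2, x.1)} ∧
      un G al (x.2, x.1) = 4 ∧ un G al (sg G (x.2, x.1)) = 4 := by
  obtain ⟨s, hs, hs1, hs2, hs3, hs4, hs5, hs6⟩ := endh39 G hG h1 hx
  obtain ⟨t, ht, ht1, ht2, ht3, ht4, ht5, ht6, ht7, ht8⟩ := endt39 G hG h1 hx
  obtain ⟨⟨z1, z2⟩, z3, z4⟩ := hz
  obtain ⟨a1, a2, _⟩ := c2_89 G hG hx.i2 z2 hs5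
  rw [hs6] at a1 a2
  obtain ⟨b1, b2, _⟩ := c2_89 G hG hx.i1 z4 ht6
  rw [ht7] at b1 b2
  have a3 : Cl62 G al x.2 (sg G x) := ⟨hx.u1, x, hs5, s, hs, rfl, hs1, by omega⟩
  have b3 : Cl62 G al x.1 x := ⟨hx.u0, t, ht, _, ht6, ht1, ht7, by omega⟩
  refine ⟨a2, by rw [b2, Finset.pair_comm], ?_, ?_⟩
  · rcases yclaim62 G hG hx.i2 z1 a3 with ⟨h, _⟩ | ⟨_, b, hb, hbc, hB, hu⟩
    · omega
    · rw [a2, Finset.mem_insert, Finset.mem_singleton] at hb
      rcases hb with hb | hb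
      · exact absurd hb hbc
      · rw [← hb]; exact hu
  · rcases yclaim62 G hG hx.i1 z3 b3 with ⟨h, _⟩ | ⟨_, b, hb, hbc, hB, hu⟩
    · omega
    · rw [b2, Finset.mem_insert, Finset.mem_singleton] at hb
      rcases hb with hb | hb
      · rw [← hb]; exact hu
      · exact absurd hb hbc

/-- the set of the corners with four units -/
def Zs39 (B : Finset (V × V)) : Finset (V × V) :=
  B.image (fun x => (x.2, x.1)) ∪ B.image (fun x => sg G (x.2, x.1))

theorem card_Zs39 (hG : G.Geo4 al kp U) (h1 : ∀ x ∈ iJ G, gc G al x ≤ 1)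
    {B : Finset (V × V)} (hB : ∀ x ∈ B, Bad39 G al x ∧ Zt39 G al x) :
    (Zs39 G B).card = 2 * B.card := by
  have hmem : ∀ x ∈ B, (x.2, x.1) ∈ iJ G := by
    intro x hx
    obtain ⟨h2, h3⟩ := hB x hx
    have h4 := (zt39 G hG h1 h2 h3).1
    have h5 : (x.2, x.1) ∈ Bv G x.2 := by
      rw [h4]
      exact Finset.mem_insert_of_mem (Finset.mem_singleton_self _)
    exact ((mem_Bv89 G).1 h5).1
  have i1 : Set.InjOn (fun x : V × V => (x.2, x.1)) (B : Set (V × V)) := by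
    intro x _ y _ h
    have h' : (x.2, x.1) = (y.2, y.1) := h
    exact Prod.ext (Prod.mk.inj h').2 (Prod.mk.inj h').1
  have i2 : Set.InjOn (fun x : V × V => sg G (x.2, x.1)) (B : Set (V × V)) := by
    intro x hx y hy h
    have h' := W4.sg_inj51 G hG (hmem x (Finset.mem_coe.1 hx)) (hmem y (Finset.mem_coe.1 hy)) h
    exact Prod.ext (Prod.mk.inj h').2 (Prod.mk.inj h').1
  have hdis : Disjoint (B.image (fun x : V × V => (x.2, x.1)))
      (B.image (fun x => sg G (x.2, x.1))) := by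
    rw [Finset.disjoint_left]
    intro z hz hz'
    obtain ⟨x, hx, rfl⟩ := Finset.mem_image.1 hz
    obtain ⟨y, hy, hyx⟩ := Finset.mem_image.1 hz'
    have hyx' : sg G (y.2, y.1) = (x.2, x.1) := hyx
    have e0 : y.1 = x.2 := by
      have : (sg G (y.2, y.1)).1 = (x.2, x.1).1 := by rw [hyx']
      exact this
    obtain ⟨bx, zx⟩ := hB x hx
    obtain ⟨by', zy⟩ := hB y hy
    obtain ⟨a1, _, a3, _⟩ := zt39 G hG h1 bx zx
    obtain ⟨_, b2, _, _⟩ := zt39 G hG h1 by' zy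
    rw [hyx', e0, a1] at b2
    have h5 : y ∈ ({sg G x, (x.2, x.1)} : Finset (V × V)) := by
      rw [b2]
      exact Finset.mem_insert_self _ _
    rw [Finset.mem_insert, Finset.mem_singleton] at h5
    rcases h5 with h5 | h5
    · have e1 := by'.u1
      rw [h5, bx.u2] at e1
      omega
    · have e1 := by'.u0
      rw [h5, a3] at e1
      omega
  unfold Zs39
  rw [Finset.card_union_of_disjoint hdis, Finset.card_image_of_injOn i1,
    Finset.card_image_of_injOn i2]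
  ring

/-- **the bad pentagons are paid** by the point rows, the points with three big corners, and
corners with four units -/
theorem bad39 (hG : G.Geo4 al kp U) (h1 : ∀ x ∈ iJ G, gc G al x ≤ 1) (B : Finset (V × V))
    (hB : ∀ x ∈ B, Bad39 G al x) :
    ∃ Z ⊆ BC G, (∀ z ∈ Z, un G al z = 4 ∧ z.1 ∈ inN G ∧ uv G al z.1 = 7 ∧ cv G z.1 = 2 ∧
      (un G al (sg G z) = 4 ∨ ∃ y ∈ BC G, sg G y = z ∧ un G al y = 4)) ∧
      (B.card : ℝ) ≤ ∑ v ∈ A2 G al, ((Ng39 G al v).card : ℝ) +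
        ((inN G).filter (fun v => uv G al v = 7 ∧ cv G v = 3)).card + (Z.card : ℝ) / 2 := by
  set B2 := B.filter (fun x => Zt39 G al x) with hB2
  set B1 := B.filter (fun x => ¬ Zt39 G al x) with hB1
  have hcard : B2.card + B1.card = B.card := Finset.card_filter_add_card_filter_not _
  refine ⟨Zs39 G B2, ?_, ?_, ?_⟩
  · intro z hz
    rcases Finset.mem_union.1 hz with h | h
    · obtain ⟨x, hx, rfl⟩ := Finset.mem_image.1 h
      obtain ⟨hxB, hxz⟩ := Finset.mem_filter.1 hx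
      have h2 := (zt39 G hG h1 (hB x hxB) hxz).1
      have h3 : (x.2, x.1) ∈ Bv G x.2 := by
        rw [h2]
        exact Finset.mem_insert_of_mem (Finset.mem_singleton_self _)
      exact ((mem_Bv62 G).1 h3).1
    · obtain ⟨x, hx, rfl⟩ := Finset.mem_image.1 h
      obtain ⟨hxB, hxz⟩ := Finset.mem_filter.1 hx
      have h2 := (zt39 G hG h1 (hB x hxB) hxz).2.1
      have h3 : sg G (x.2, x.1) ∈ Bv G x.1 := by
        rw [h2]
        exact Finset.mem_insert_of_mem (Finset.mem_singleton_self _)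
      exact ((mem_Bv62 G).1 h3).1
  · intro z hz
    rcases Finset.mem_union.1 hz with h | h
    · obtain ⟨x, hx, rfl⟩ := Finset.mem_image.1 h
      obtain ⟨hxB, hxz⟩ := Finset.mem_filter.1 hx
      obtain ⟨_, _, h3, h4⟩ := zt39 G hG h1 (hB x hxB) hxz
      exact ⟨h3, (hB x hxB).i2, hxz.1.1, hxz.1.2, Or.inl h4⟩
    · obtain ⟨x, hx, rfl⟩ := Finset.mem_image.1 h
      obtain ⟨hxB, hxz⟩ := Finset.mem_filter.1 hx
      obtain ⟨h2, _, h3, h4⟩ := zt39 G hG h1 (hB x hxB) hxz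
      have h5 : (x.2, x.1) ∈ Bv G x.2 := by
        rw [h2]
        exact Finset.mem_insert_of_mem (Finset.mem_singleton_self _)
      exact ⟨h4, (hB x hxB).i1, hxz.2.1, hxz.2.2, Or.inr ⟨_, ((mem_Bv62 G).1 h5).1, rfl, h3⟩⟩
  · have hZ : ((Zs39 G B2).card : ℝ) = 2 * B2.card := by
      exact_mod_cast card_Zs39 G hG h1 (B := B2) fun x hx =>
        ⟨hB x (Finset.mem_filter.1 hx).1, (Finset.mem_filter.1 hx).2⟩
    suffices hmain : B1.card ≤ ∑ v ∈ A2 G al, (Ng39 G al v).card +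
        ((inN G).filter (fun v => uv G al v = 7 ∧ cv G v = 3)).card by
      have h2 : (B1.card : ℝ) ≤ ∑ v ∈ A2 G al, ((Ng39 G al v).card : ℝ) +
          ((inN G).filter (fun v => uv G al v = 7 ∧ cv G v = 3)).card := by
        exact_mod_cast hmain
      have h3 : (B2.card : ℝ) + B1.card = B.card := by exact_mod_cast hcard
      rw [hZ]
      linarith
    have H : ∀ x, ∃ q, x ∈ B1 → q ∈ SD G ∧ ((nx G q = sg G x ∧ ku G q = ku G (sg G x)) ∨
        (sg G q = x ∧ ku G q = ku G (sg G (sg G (sg G x))) ∧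
          nx G (sg G (sg G (sg G x))) = q ∧ 0 < rn G (sg G (sg G (sg G x))))) ∧
        q.2 ∈ inN G ∧ rn G q = 1 ∧ ((8 ≤ uv G al q.2 ∧ q ∈ Ng39 G al q.2) ∨
          (uv G al q.2 = 7 ∧ cv G q.2 = 3 ∧ ∑ x ∈ Sv G q.2, rn G x = 1)) := by
      intro x
      by_cases hx1 : x ∈ B1
      swap
      · exact ⟨x, fun h => absurd h hx1⟩
      obtain ⟨hxB, hxz⟩ := Finset.mem_filter.1 hx1
      have hb := hB x hxB
      obtain ⟨s, hs, hs1, hs2, hs3, hs4, hs5, hs6⟩ := endh39 G hG h1 hb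
      obtain ⟨t, ht, ht1, ht2, ht3, ht4, ht5, ht6, ht7, ht8⟩ := endt39 G hG h1 hb
      have a3 : Cl62 G al x.2 (sg G x) := ⟨hb.u1, x, hs5, s, hs, rfl, hs1, by omega⟩
      have b3 : Cl62 G al x.1 x := ⟨hb.u0, t, ht, _, ht6, ht1, ht7, by omega⟩
      obtain ⟨k1, k2⟩ := (mem_Sv62 G).1 hs
      obtain ⟨k3, k4⟩ := (mem_Sv62 G).1 ht
      have c1 := claim_case39 G hG hb.i2 hs hs2 (by rw [hs3]; exact hb.s1) a3
      have c2 := claim_case39 G hG hb.i1 ht ht2 (by rw [ht3]; exact hb.s3) b3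
      rcases c1 with c1 | c1 | c1
      · exact ⟨s, fun _ => ⟨k1, Or.inl ⟨hs1, hs3⟩, by rw [k2]; exact hb.i2, hs2,
          Or.inl (by rw [k2]; exact c1)⟩⟩
      · exact ⟨s, fun _ => ⟨k1, Or.inl ⟨hs1, hs3⟩, by rw [k2]; exact hb.i2, hs2,
          Or.inr (by rw [k2]; exact c1)⟩⟩
      · rcases c2 with c2 | c2 | c2
        · exact ⟨t, fun _ => ⟨k3, Or.inr ⟨ht1, ht3, ht4, ht5⟩, by rw [k4]; exact hb.i1, ht2,
            Or.inl (by rw [k4]; exact c2)⟩⟩
        · exact ⟨t, fun _ => ⟨k3, Or.inr ⟨ht1, ht3, ht4, ht5⟩, by rw [k4]; exact hb.i1, ht2,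
            Or.inr (by rw [k4]; exact c2)⟩⟩
        · exact absurd ⟨⟨c1.1, c1.2.1⟩, c2.1, c2.2.1⟩ hxz
    choose q hq using H
    have hbc : ∀ x ∈ B1, x ∈ iJ G := fun x hx =>
      ((mem_BC89 G).1 (hB x (Finset.mem_filter.1 hx).1).bc).1
    have hinj : Set.InjOn q (B1 : Set (V × V)) := by
      intro x hx y hy he
      have hx' := Finset.mem_coe.1 hx
      have hy' := Finset.mem_coe.1 hy
      obtain ⟨p1, p2, _⟩ := hq x hx'
      obtain ⟨r1, r2, _⟩ := hq y hy'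
      have bx := hB x (Finset.mem_filter.1 hx').1
      have by' := hB y (Finset.mem_filter.1 hy').1
      rcases p2 with ⟨p2, p3⟩ | ⟨p2, p3, p4, p5⟩
      · rcases r2 with ⟨r2, r3⟩ | ⟨r2, r3, r4, r5⟩
        · exact W4.sg_inj51 G hG (hbc x hx') (hbc y hy') (by rw [← p2, ← r2, he])
        · exact (ends_ne39 G hG bx by' p2 p3 (by rw [he]; exact r3) (by rw [he]; exact r4) r5
            p1).elim
      · rcases r2 with ⟨r2, r3⟩ | ⟨r2, r3, r4, r5⟩
        · exact (ends_ne39 G hG by' bx r2 r3 (by rw [← he]; exact p3) (by rw [← he]; exact p4) p5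
            r1).elim
        · rw [← p2, ← r2, he]
    have hsub : B1.image q ⊆ (A2 G al).biUnion (Ng39 G al) ∪
        (SD G).filter (fun s => s.2 ∈ inN G ∧ uv G al s.2 = 7 ∧ cv G s.2 = 3 ∧
          ∑ x ∈ Sv G s.2, rn G x = 1 ∧ rn G s = 1) := by
      intro s hs
      obtain ⟨x, hx, rfl⟩ := Finset.mem_image.1 hs
      obtain ⟨p1, p2, p3, p4, p5⟩ := hq x hx
      rcases p5 with p5 | p5
      · exact Finset.mem_union_left _ (Finset.mem_biUnion.2
          ⟨_, Finset.mem_filter.2 ⟨p3, p5.1⟩, p5.2⟩)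
      · exact Finset.mem_union_right _ (Finset.mem_filter.2 ⟨p1, p3, p5.1, p5.2.1, p5.2.2, p4⟩)
    have hc3 : ((SD G).filter (fun s => s.2 ∈ inN G ∧ uv G al s.2 = 7 ∧ cv G s.2 = 3 ∧
          ∑ x ∈ Sv G s.2, rn G x = 1 ∧ rn G s = 1)).card ≤
        ((inN G).filter (fun v => uv G al v = 7 ∧ cv G v = 3)).card := by
      refine Finset.card_le_card_of_injOn (fun s => s.2) ?_ ?_
      · intro s hs
        obtain ⟨_, p2, p3, p4, _⟩ := Finset.mem_filter.1 (Finset.mem_coe.1 hs)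
        exact Finset.mem_coe.2 (Finset.mem_filter.2 ⟨p2, p3, p4⟩)
      · intro s hs t ht he
        obtain ⟨p1, p2, p3, p4, p5, p6⟩ := Finset.mem_filter.1 (Finset.mem_coe.1 hs)
        obtain ⟨r1, r2, r3, r4, r5, r6⟩ := Finset.mem_filter.1 (Finset.mem_coe.1 ht)
        by_contra hne
        have he' : s.2 = t.2 := he
        have hp : ({s, t} : Finset (V × V)) ⊆ Sv G s.2 := by
          intro z hz
          rcases Finset.mem_insert.1 hz with h | h
          · rw [h]; exact (mem_Sv62 G).2 ⟨p1, rfl⟩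
          · rw [Finset.mem_singleton.1 h]; exact (mem_Sv62 G).2 ⟨r1, he'.symm⟩
        have h5 := Finset.sum_le_sum_of_subset (f := rn G) hp
        rw [Finset.sum_pair hne, p5, p6, r6] at h5
        omega
    rw [← Finset.card_image_of_injOn hinj]
    exact (Finset.card_le_card hsub).trans ((Finset.card_union_le _ _).trans
      (add_le_add Finset.card_biUnion_le hc3))

end abs

end

end Pool.Agent.PEN.E5
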