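import Pool.Agent.E5.Eu14
import Pool.Agent.E5.Top71

/-! # PENNY, all small diameters: from the assembly with boundary to the target row

The number of big corners at outer points is bounded by the turning of the boundary, so a
remainder that is linear in it can be paid by the boundary. -/

set_option autoImplicit false

namespace Pool.Agent.PEN.E5

open Classical UpperHalfPlane
open Pool.Agent.PEN.Cl

noncomputable section

variable {V : Type} (G : Tg V) {al : ℝ} {kp : V → V → ℝ} {U : ℕ → ℝ}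

/-- the units of the inner corners at outer points -/
def Uo14 (al : ℝ) : ℕ := ∑ x ∈ (iJ G).filter (fun x => x.1 ∉ inN G), un G al x

/-- the units of the inner corners at outer points are given by the turning of the boundary -/
theorem turn14 (hG : G.Geo4 al kp U) :
    (Uo14 G al : ℝ) = G.iD.card - 6 * (inN G).card + gam G al - cor G al := by
  have f3 := F3_89 G hG
  have h1 : ∑ x ∈ iJ G, (un G al x : ℝ) =
      G.iI.card + G.iD.card - ∑ C ∈ WF G, ka G al C := by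
    rw [sum_ka89, sum_iJ71 G (fun x => (un G al x : ℝ))]
    unfold ka
    rw [Finset.sum_sub_distrib, Finset.sum_add_distrib]
    have e1 : ∑ C ∈ G.iC, ((G.cI C).card : ℝ) = G.iI.card := by
      rw [← Nat.cast_sum, sum_cI66 G]
    have e2 : ∑ C ∈ G.iC, (3 * ((G.cT C).card : ℝ)) = G.iD.card := by
      rw [← Finset.mul_sum, ← Nat.cast_sum, card_iD27]
      push_cast
      ring
    rw [e1, e2]
    ring
  have h2 : ∑ x ∈ iJ G, (un G al x : ℝ) = ∑ v ∈ inN G, (kv G al v + 6) + Uo14 G al := by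
    rw [← Finset.sum_filter_add_sum_filter_not (iJ G) (fun x => x.1 ∈ inN G)]
    unfold Uo14
    rw [Nat.cast_sum]
    congr 1
    rw [← Finset.sum_fiberwise_of_maps_to (s := (iJ G).filter (fun x => x.1 ∈ inN G))
      (t := inN G) (g := Prod.fst) (fun x hx => (Finset.mem_filter.1 hx).2)]
    refine Finset.sum_congr rfl fun v hv => ?_
    rw [Finset.filter_filter]
    unfold kv Jv
    rw [sub_add_cancel]
    refine Finset.sum_congr (Finset.filter_congr fun x _ => ?_) fun _ _ => rfl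
    constructor
    · exact fun h => h.2
    · intro h
      exact ⟨by rw [h]; exact hv, h⟩
  have h3 : ∑ v ∈ inN G, (kv G al v + 6) = ∑ v ∈ inN G, (kv G al v - 1) +
      7 * (inN G).card := by
    have h5 : (7 : ℝ) * (inN G).card = ∑ v ∈ inN G, (7 : ℝ) := by
      rw [Finset.sum_const, nsmul_eq_mul, mul_comm]
    rw [h5, ← Finset.sum_add_distrib]
    exact Finset.sum_congr rfl fun v _ => by ring
  unfold cost at f3
  rw [h3, h1] at h2
  linarith

/-- every outer point has at least three contacts -/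
theorem cB5_le14 (hG : G.Geo4 al kp U) :
    cB5 G + 3 * G.P.card ≤ Uo14 G al + G.oJ.card + 3 * (inN G).card := by
  -- the units
  have h1 : ((iJ G).filter (fun x => x.1 ∉ inN G)).card + cB5 G ≤ Uo14 G al := by
    have e1 : cB5 G = ∑ x ∈ (iJ G).filter (fun x => x.1 ∉ inN G), if ¬ tt G x then 1 else 0 := by
      unfold cB5 BC
      rw [← Finset.card_filter, Finset.filter_filter, Finset.filter_filter]
      congr 1
      refine Finset.filter_congr fun x _ => ?_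
      tauto
    rw [e1, Finset.card_eq_sum_ones, ← Finset.sum_add_distrib]
    unfold Uo14
    refine Finset.sum_le_sum fun x _ => ?_
    unfold un
    by_cases h : tt G x
    · rw [if_neg (not_not.2 h), if_pos h]
    · rw [if_pos h, if_neg h]
      omega
  -- the contact darts that start at outer points
  have h2 : Do14 G = ((iJ G).filter (fun x => x.1 ∉ inN G)).card + G.oJ.card := by
    have e : (KJ G).filter (fun x => x.1 ∉ inN G) =
        (iJ G).filter (fun x => x.1 ∉ inN G) ∪ G.oJ := by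
      ext x
      rw [Finset.mem_union, Finset.mem_filter, Finset.mem_filter, mem_KJ42, mem_oJ66, mem_iJ71]
      constructor
      · rintro ⟨⟨h1, h2⟩, h3⟩
        by_cases h : G.inn x
        · exact Or.inl ⟨⟨h, h2⟩, h3⟩
        · exact Or.inr ⟨h1, h2, h⟩
      · rintro (⟨⟨h1, h2⟩, h3⟩ | ⟨h1, h2, h3⟩)
        · exact ⟨⟨G.sub h1.1, h2⟩, h3⟩
        · refine ⟨⟨h1, h2⟩, fun h4 => ?_⟩
          unfold inN at h4
          exact (Finset.mem_filter.1 h4).2 ⟨x.2, (mem_oJ66 G).2 ⟨h1, h2, h3⟩⟩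
    unfold Do14
    rw [e, Finset.card_union_of_disjoint]
    rw [Finset.disjoint_left]
    intro x h1 h2
    exact ((mem_oJ66 G).1 h2).2.2 ((mem_iJ71 G).1 (Finset.mem_filter.1 h1).1).1
  have h3 : 3 * (G.P \ inN G).card ≤ Do14 G := by
    unfold Do14
    have e : ((KJ G).filter (fun x => x.1 ∉ inN G)).card =
        ∑ v ∈ G.P \ inN G, (((KJ G).filter (fun x => x.1 ∉ inN G)).filter
          (fun x => x.1 = v)).card := by
      refine Finset.card_eq_sum_card_fiberwise (f := Prod.fst) fun x hx => ?_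
      obtain ⟨hx1, hx2⟩ := Finset.mem_filter.1 (Finset.mem_coe.1 hx)
      refine Finset.mem_coe.2 (Finset.mem_sdiff.2 ⟨?_, hx2⟩)
      exact G.mem x.1 x.2 ((mem_KJ42 G).1 hx1).1
    rw [e, mul_comm, ← smul_eq_mul, ← Finset.sum_const]
    refine Finset.sum_le_sum fun v hv => ?_
    obtain ⟨hv1, hv2⟩ := Finset.mem_sdiff.1 hv
    refine (hG.deg v hv1).trans (Finset.card_le_card ?_)
    intro x hx
    obtain ⟨h5, h6, h7⟩ := Finset.mem_filter.1 hx
    exact Finset.mem_filter.2 ⟨Finset.mem_filter.2 ⟨(mem_KJ42 G).2 ⟨h5, h7⟩,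
      by rw [h6]; exact hv2⟩, h6⟩
  have h4 : G.P.card ≤ (G.P \ inN G).card + (inN G).card := Finset.card_le_card_sdiff_add_card
  omega

/-- the big corners at outer points, by the turning of the boundary -/
theorem cB5_turn14 (hG : G.Geo4 al kp U) :
    (cB5 G : ℝ) ≤ G.oJ.card - 3 * (G.oJ.card + (inN G).card - G.P.card) - 6 - 3 * sE G +
      gam G al - cor G al := by
  have h1 := turn14 G hG
  have h2 : (cB5 G : ℝ) + 3 * G.P.card ≤ Uo14 G al + G.oJ.card + 3 * (inN G).card := by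
    exact_mod_cast cB5_le14 G hG
  unfold sE
  rw [h1] at h2
  linarith

/-- **from the assembly with boundary to the target row**, for a remainder that is paid by the
boundary -/
theorem target14 (hG : G.Geo4 al kp U) {θ Λ c r R : ℝ} (hΛ : 0 < Λ) (hc : 0 ≤ c)
    (hR : R ≤ c * cB5 G + r * gam G al)
    (hass : ((inN G).card : ℝ) ≤ Λ * cost G al + R + gam G al + (3 + 4 * θ) * cor G al +
      θ * G.oJ.card - 2 - 4 * θ - 2 * θ * (G.oJ.card + (inN G).card - G.P.card) -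
      (1 + 2 * θ) * (2 * G.P.card - 2 - G.oJ.card - G.iD.card / 3))
    (hnum : (5 * Λ / 21 - 1) * (inN G).card + (3 + 4 * θ + Λ - c) * cor G al + 144 * Λ / 21 - 2 -
      4 * θ - 6 * c ≤ (Λ - 1 - c - r) * gam G al + (16 * Λ / 21 - θ - c) * G.oJ.card +
      (2 * θ + 3 * c) * (G.oJ.card + (inN G).card - G.P.card) +
      (1 + 2 * θ + 3 * Λ + 3 * c) * sE G) : Target71 G al := by
  have h1 := mul_le_mul_of_nonneg_left (cB5_turn14 G hG) hc
  have h2 : Λ * (5 * ((inN G).card : ℝ) + 144) ≤ Λ * (21 * (cost G al + gam G al - cor G al) +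
      16 * G.oJ.card + 63 * sE G) := by
    have h3 : (1 + 2 * θ) * (2 * G.P.card - 2 - G.oJ.card - G.iD.card / 3) =
      (1 + 2 * θ) * sE G := rfl
    rw [h3] at hass
    nlinarith
  exact le_of_mul_le_mul_left h2 hΛ

/-- the Euclidean bound of the area of a polygon -/
theorem Ust_q14 {d : ℝ} (hd : 0 < d) {b : ℕ} (hb : 3 ≤ b) :
    Ust69 d b ≤ (1838 / 10000 * (b : ℝ) ^ 2 - 6 / 10) * A3 (alpha d) := by
  have h5 := Ust_euclid_pi69 hd hb
  have hp1 := Real.pi_gt_d6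
  have hpi := Real.pi_pos
  have hb3 : (3 : ℝ) ≤ b := by exact_mod_cast hb
  have hb9 : (9 : ℝ) ≤ (b : ℝ) ^ 2 := by nlinarith
  have hs3 : 173205 / 100000 ≤ √(3 : ℝ) := by
    rw [Real.le_sqrt (by norm_num) (by norm_num)]
    norm_num
  have h6 : ((b : ℝ) ^ 2 / Real.pi - Real.pi / 3) / √3 ≤ 1838 / 10000 * (b : ℝ) ^ 2 - 6 / 10 := by
    have k4 : (b : ℝ) ^ 2 / Real.pi ≤ b ^ 2 * (31831 / 100000) := by
      rw [div_le_iff₀ hpi]
      nlinarith
    have k5 : (1838 / 10000 * (b : ℝ) ^ 2 - 6 / 10) * (173205 / 100000) ≤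
        (1838 / 10000 * (b : ℝ) ^ 2 - 6 / 10) * √3 :=
      mul_le_mul_of_nonneg_left hs3 (by linarith)
    rw [div_le_iff₀ (by positivity)]
    linarith
  exact h5.trans (mul_le_mul_of_nonneg_right h6 (A3_pos69 hd).le)

theorem pos14 {b : ℝ} (h : 30 ≤ b) : 0 ≤ 1838 / 10000 * b ^ 2 - b + 14 / 10 := by
  nlinarith

theorem quad14 {e b B α γ : ℝ} (he : 0 ≤ e) (hb : 30 ≤ b) (hbB : b ≤ B) (hB : 30 < B)
    (c4 : e * 13682 / 100 + γ ≤ α * 30)
    (c5 : e * (1838 / 10000 * B ^ 2 - B + 14 / 10) + γ ≤ α * B) :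
    e * (1838 / 10000 * b ^ 2 - b + 14 / 10) + γ ≤ α * b := by
  have h4 : b ^ 2 ≤ (30 + B) * b - 30 * B := by
    have := mul_nonneg (show 0 ≤ b - 30 by linarith) (show 0 ≤ B - b by linarith)
    linarith
  have h5 : e * (1838 / 10000 * b ^ 2 - b + 14 / 10) ≤
      e * (1838 / 10000 * ((30 + B) * b - 30 * B) - b + 14 / 10) :=
    mul_le_mul_of_nonneg_left (by linarith) he
  have h6 := mul_le_mul_of_nonneg_left c4 (show 0 ≤ B - b by linarith)
  have h7 := mul_le_mul_of_nonneg_left c5 (show 0 ≤ b - 30 by linarith)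
  have h8 : (B - 30) * (e * (1838 / 10000 * ((30 + B) * b - 30 * B) - b + 14 / 10) + γ) ≤
      (B - 30) * (α * b) := by
    linarith
  have h9 := le_of_mul_le_mul_left h8 (by linarith)
  linarith

/-- **the numeric row** -/
theorem row14 {d : ℝ} (hd : 0 < d) (G : Tg ℍ) (hG : G.Geo4 (alpha d) kap (Ust69 d))
    (hn : 98 ≤ G.P.card) {θ Λ c r e : ℝ} {B : ℕ} (hΛ : 21 / 5 ≤ Λ) (hr : c + r ≤ Λ - 1)
    (hθ : 0 ≤ 3 + 4 * θ + Λ - c)
    (he : (5 * Λ / 21 - 1) / 2 + (3 + 4 * θ + Λ - c) * A3 (alpha d) / alpha d ≤ e)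
    (hE : ((5 * Λ / 21 - 1) / (2 * A3 (alpha d)) + (3 + 4 * θ + Λ - c) / alpha d) *
      (g51 d - A3 (alpha d)) ≤ 16 * Λ / 21 - θ - c) (hα0 : 0 ≤ 16 * Λ / 21 - θ - c) (hB : 30 ≤ B)
    (c1 : e * 156 + (144 * Λ / 21 - 2 - 4 * θ - 6 * c) ≤ (1 + 2 * θ + 3 * Λ + 3 * c - e) * 11)
    (c2 : 2 * e ≤ 2 * θ + 3 * c) (c3 : e ≤ 1 + 2 * θ + 3 * Λ + 3 * c)
    (c4 : e * 13682 / 100 + (144 * Λ / 21 - 2 - 4 * θ - 6 * c) ≤ (16 * Λ / 21 - θ - c) * 30)
    (c5 : e * (1838 / 10000 * (B : ℝ) ^ 2 - B + 14 / 10) + (144 * Λ / 21 - 2 - 4 * θ - 6 * c) ≤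
      (16 * Λ / 21 - θ - c) * B) :
    (5 * Λ / 21 - 1) * (inN G).card + (3 + 4 * θ + Λ - c) * cor G (alpha d) + 144 * Λ / 21 - 2 -
      4 * θ - 6 * c ≤ (Λ - 1 - c - r) * gam G (alpha d) + (16 * Λ / 21 - θ - c) * G.oJ.card +
      (2 * θ + 3 * c) * (G.oJ.card + (inN G).card - G.P.card) +
      (1 + 2 * θ + 3 * Λ + 3 * c) * sE G := by
  have hal := W4.al_pos71 G hG
  have hA := A3_pos69 hd
  have hgam : 0 ≤ gam G (alpha d) := Finset.sum_nonneg fun x _ => gc_nonneg89 G hG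
  have hs0 : 0 ≤ sE G := sE_nonneg71 G hG
  have hd0 : (G.P.card : ℝ) ≤ G.oJ.card + (inN G).card := by exact_mod_cast card_inN71 G
  obtain ⟨hup, _⟩ := W4.area_le G hG (Ust69_zero d) (Ust69_mono d) (Ust69_sup d)
  have hlow := area_ge4 G hG
  have hn' : (98 : ℝ) ≤ G.P.card := by exact_mod_cast hn
  have hb0 : (0 : ℝ) ≤ G.oJ.card := Nat.cast_nonneg _
  -- names
  obtain ⟨s, hs⟩ : ∃ s, s = sE G := ⟨_, rfl⟩
  obtain ⟨b, hb⟩ : ∃ b : ℕ, b = G.oJ.card := ⟨_, rfl⟩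
  obtain ⟨d0, hdd⟩ : ∃ d0 : ℝ, d0 = G.oJ.card + (inN G).card - G.P.card := ⟨_, rfl⟩
  obtain ⟨t, ht⟩ : ∃ t : ℝ, t = (G.iD.card : ℝ) / 3 := ⟨_, rfl⟩
  obtain ⟨y, hy⟩ : ∃ y : ℝ, y = Ar G / A3 (alpha d) := ⟨_, rfl⟩
  obtain ⟨x, hx⟩ : ∃ x : ℝ, x = (3 + 4 * θ + Λ - c) * A3 (alpha d) / alpha d := ⟨_, rfl⟩
  have hx0 : 0 ≤ x := by
    rw [hx]
    positivity
  have hAr : Ar G = A3 (alpha d) * y := by
    rw [hy]
    field_simp
  have hty : t ≤ y := by
    have h : A3 (alpha d) * t ≤ A3 (alpha d) * y := by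
      rw [← hAr, ht]
      exact hlow
    exact le_of_mul_le_mul_left h hA
  have hes : s = 2 * G.P.card - 2 - G.oJ.card - t := by
    rw [hs, ht]
    rfl
  have hni : ((inN G).card : ℝ) = (t - b + 2 + s + 2 * d0) / 2 := by
    rw [hes, hdd, hb]
    ring
  have hcor : (3 + 4 * θ + Λ - c) * cor G (alpha d) = x * (y + 2 * d0 + s + 2 - b) := by
    unfold cor
    rw [hAr, hni, ← ht, hx]
    field_simp
    ring
  have hd00 : 0 ≤ d0 := by
    rw [hdd]
    linarith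
  rw [← hs] at hs0
  rw [hcor, ← hs, ← hdd, hni, ← hb]
  -- the left side is at most `(δ / 2 + x) * (y - b + 2 + s + 2 * d0) + γ`
  obtain ⟨f, hf⟩ : ∃ f : ℝ, f = (5 * Λ / 21 - 1) / 2 + x := ⟨_, rfl⟩
  have hf0 : 0 ≤ f := by
    rw [hf]
    linarith
  have hfe : f ≤ e := by
    rw [hf, hx]
    exact he
  have e1 : (5 * Λ / 21 - 1) * ((t - b + 2 + s + 2 * d0) / 2) + x * (y + 2 * d0 + s + 2 - b) ≤
      f * (y - b + 2 + s + 2 * d0) := by
    have := mul_le_mul_of_nonneg_left hty (show 0 ≤ (5 * Λ / 21 - 1) / 2 by linarith)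
    rw [hf]
    linarith
  have e2 : 0 ≤ (Λ - 1 - c - r) * gam G (alpha d) := mul_nonneg (by linarith) hgam
  have e3 : f * (s + 2 * d0) ≤ e * (s + 2 * d0) :=
    mul_le_mul_of_nonneg_right hfe (by linarith)
  have e4 : 2 * e * d0 ≤ (2 * θ + 3 * c) * d0 := mul_le_mul_of_nonneg_right c2 hd00
  have e5 : e * s ≤ (1 + 2 * θ + 3 * Λ + 3 * c) * s := mul_le_mul_of_nonneg_right c3 hs0
  have hbr : (0 : ℝ) ≤ b := Nat.cast_nonneg _
  have hup' : A3 (alpha d) * y ≤ Ust69 d b := by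
    rw [← hAr, hb]
    exact hup
  rcases Nat.lt_or_ge b 30 with h30 | h30
  · -- few outer darts: many missing triangles
    have h1 : A3 (alpha d) * y ≤ (1838 / 10000 * ((29 : ℕ) : ℝ) ^ 2 - 6 / 10) * A3 (alpha d) :=
      hup'.trans ((Ust69_mono d (show b ≤ 29 by omega)).trans (Ust_q14 hd (by norm_num)))
    have h2 : y ≤ 154 := by
      have h3 : A3 (alpha d) * y ≤ A3 (alpha d) * 154 := by
        refine h1.trans ?_
        rw [mul_comm]
        refine mul_le_mul_of_nonneg_left ?_ hA.le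
        norm_num
      exact le_of_mul_le_mul_left h3 hA
    have hb29 : (b : ℝ) ≤ 29 := by exact_mod_cast (show b ≤ 29 by omega)
    have h3 : 11 ≤ s := by
      rw [hes, ← hb]
      linarith
    have h4 : f * (y - b + 2) ≤ e * 156 := by
      have h5 : f * (y - b + 2) ≤ f * 156 := mul_le_mul_of_nonneg_left (by linarith) hf0
      have h6 : f * 156 ≤ e * 156 := mul_le_mul_of_nonneg_right hfe (by norm_num)
      linarith
    have h5 : (1 + 2 * θ + 3 * Λ + 3 * c - e) * 11 ≤ (1 + 2 * θ + 3 * Λ + 3 * c - e) * s :=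
      mul_le_mul_of_nonneg_left h3 (by linarith)
    have h6 : 0 ≤ (16 * Λ / 21 - θ - c) * b := mul_nonneg hα0 hbr
    linarith
  · have hb30 : (30 : ℝ) ≤ b := by exact_mod_cast h30
    have hB30 : (30 : ℝ) ≤ B := by exact_mod_cast hB
    have hmain : f * (y - b + 2) + (144 * Λ / 21 - 2 - 4 * θ - 6 * c) ≤
        (16 * Λ / 21 - θ - c) * b := by
      rcases Nat.lt_or_ge b B with hbB | hbB
      · have hbB' : (b : ℝ) ≤ B := by exact_mod_cast hbB.le
        have h1 : y ≤ 1838 / 10000 * (b : ℝ) ^ 2 - 6 / 10 := by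
          have h3 := hup'.trans (Ust_q14 hd (show 3 ≤ b by omega))
          rw [mul_comm (1838 / 10000 * (b : ℝ) ^ 2 - 6 / 10)] at h3
          exact le_of_mul_le_mul_left h3 hA
        have h2 := pos14 hb30
        have h3 : f * (y - b + 2) ≤ e * (1838 / 10000 * (b : ℝ) ^ 2 - b + 14 / 10) :=
          (mul_le_mul_of_nonneg_left (by linarith) hf0).trans (mul_le_mul_of_nonneg_right hfe h2)
        have hlt : (30 : ℝ) < B := by exact_mod_cast lt_of_le_of_lt h30 hbB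
        have h9 := quad14 (hf0.trans hfe) hb30 hbB' hlt c4 c5
        linarith
      · have hbB' : (B : ℝ) ≤ b := by exact_mod_cast hbB
        have h1 := Ust_tail69 hd (show 2 ≤ B by omega) hbB
        have h2 := Ust_q14 hd (show 3 ≤ B by omega)
        have h3 : A3 (alpha d) * y ≤ (1838 / 10000 * (B : ℝ) ^ 2 - 6 / 10) * A3 (alpha d) +
            (b - B) * g51 d := by linarith
        have hfA : f / A3 (alpha d) * g51 d ≤ 16 * Λ / 21 - θ - c + f := by
          have h6 : f / A3 (alpha d) * g51 d =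
              ((5 * Λ / 21 - 1) / (2 * A3 (alpha d)) + (3 + 4 * θ + Λ - c) / alpha d) *
              (g51 d - A3 (alpha d)) + f := by
            rw [hf, hx]
            field_simp
            ring
          linarith
        have h4 : f * y ≤ f * (1838 / 10000 * (B : ℝ) ^ 2 - 6 / 10) +
            (b - B) * (16 * Λ / 21 - θ - c + f) := by
          have h5 : f / A3 (alpha d) * (A3 (alpha d) * y) ≤ f / A3 (alpha d) *
              ((1838 / 10000 * (B : ℝ) ^ 2 - 6 / 10) * A3 (alpha d) + (b - B) * g51 d) :=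
            mul_le_mul_of_nonneg_left h3 (div_nonneg hf0 hA.le)
          have h6 : f / A3 (alpha d) * (A3 (alpha d) * y) = f * y := by field_simp
          have h7 : f / A3 (alpha d) *
              ((1838 / 10000 * (B : ℝ) ^ 2 - 6 / 10) * A3 (alpha d) + (b - B) * g51 d) =
              f * (1838 / 10000 * (B : ℝ) ^ 2 - 6 / 10) +
                (b - B) * (f / A3 (alpha d) * g51 d) := by
            field_simp
          have h8 := mul_le_mul_of_nonneg_left hfA (show (0 : ℝ) ≤ b - B by linarith)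
          linarith
        have h5 := pos14 hB30
        have h6 : f * (1838 / 10000 * (B : ℝ) ^ 2 - B + 14 / 10) ≤
            e * (1838 / 10000 * (B : ℝ) ^ 2 - B + 14 / 10) :=
          mul_le_mul_of_nonneg_right hfe h5
        linarith
    linarith

theorem cosh_le14 {d D : ℝ} (hd : 0 ≤ d) (hD : d ≤ D) (hD1 : D ≤ 1) :
    Real.cosh d * (1 - D ^ 2 / 2) ≤ 1 := by
  have h1 := Real.cosh_le_exp_half_sq d
  have h2 := Real.add_one_le_exp (-(d ^ 2 / 2))
  have h3 : d ^ 2 ≤ D ^ 2 := pow_le_pow_left₀ hd hD 2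
  have h4 : D ^ 2 ≤ 1 := pow_le_one₀ (hd.trans hD) hD1
  have h5 : Real.exp (d ^ 2 / 2) * Real.exp (-(d ^ 2 / 2)) = 1 := by
    rw [← Real.exp_add, add_neg_cancel, Real.exp_zero]
  calc Real.cosh d * (1 - D ^ 2 / 2) ≤ Real.exp (d ^ 2 / 2) * (1 - D ^ 2 / 2) :=
        mul_le_mul_of_nonneg_right h1 (by linarith)
    _ ≤ Real.exp (d ^ 2 / 2) * Real.exp (-(d ^ 2 / 2)) :=
        mul_le_mul_of_nonneg_left (by linarith) (Real.exp_pos _).le
    _ = 1 := h5

theorem A3_le14 {d D A : ℝ} (hd : 0 < d) (hD : d ≤ D) (hD1 : D ≤ 1) (hA : 0 ≤ A) (hA1 : A ≤ 3)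
    (h : 1 / (2 - D ^ 2 / 2) ≤ (1 - (A / 3) ^ 2 / 2 + (A / 3) ^ 4 / 24 - (A / 3) ^ 6 / 720) / 2 +
      17320508 / 20000000 * (A / 3 - (A / 3) ^ 3 / 6)) : A3 (alpha d) ≤ A := by
  apply A3_le_of52 hA hA1
  refine le_trans (le_trans ?_ h) (cos_third_lb52 (by linarith) (by linarith))
  have h4 : D ^ 2 ≤ 1 := pow_le_one₀ (hd.le.trans hD) hD1
  have h5 := cosh_le14 hd.le hD hD1
  have hc := Real.cosh_pos d
  rw [cos_alpha hd, div_le_div_iff₀ (by linarith) (by linarith)]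
  linarith

theorem g51_le14 {d D g : ℝ} (hd : 0 ≤ d) (hD : d ≤ D) (h0 : 0 ≤ g) (h1 : g ≤ 1)
    (h : 1 - g ^ 2 / 8 + g ^ 4 / 384 ≤ 1 - D ^ 2 / 8) : g51 d ≤ g := by
  have hpi := Real.pi_gt_three
  rw [g51_eq69 hd]
  have h2 : Real.cos (g / 2) ≤ 1 / Real.cosh (d / 2) := by
    have e1 := cos_le52 (t := g / 2) (by linarith) (by linarith)
    have e2 := Real.cosh_le_exp_half_sq (d / 2)
    have e3 := Real.add_one_le_exp (-((d / 2) ^ 2 / 2))
    have e4 : d ^ 2 ≤ D ^ 2 := pow_le_pow_left₀ hd hD 2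
    have e5 : Real.exp (-((d / 2) ^ 2 / 2)) ≤ 1 / Real.cosh (d / 2) := by
      rw [Real.exp_neg, ← one_div]
      exact one_div_le_one_div_of_le (Real.cosh_pos _) e2
    refine le_trans ?_ e5
    refine le_trans ?_ e3
    refine e1.trans ?_
    have e6 : (g / 2) ^ 2 / 2 = g ^ 2 / 8 := by ring
    have e7 : (g / 2) ^ 4 / 24 = g ^ 4 / 384 := by ring
    rw [e6, e7]
    linarith
  have h3 := Real.arccos_le_arccos h2
  rw [Real.arccos_cos (by linarith) (by linarith)] at h3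
  linarith

/-- the numbers for `Λ = 21 / 5`, in terms of bounds of `A3`, `g51` and `alpha` -/
theorem rowS14 {d : ℝ} (hd : 0 < d) (G : Tg ℍ) (hG : G.Geo4 (alpha d) kap (Ust69 d))
    (hn : 98 ≤ G.P.card) {θ c r A g e : ℝ} {B : ℕ} (hr : c + r ≤ 16 / 5) (hθ0 : 0 ≤ θ)
    (hc0 : 0 ≤ c) (hc : c ≤ 16 / 5) (hA : A3 (alpha d) ≤ A) (hg : g51 d ≤ g) (hA1 : A ≤ 1 / 2)
    (he : (36 / 5 + 4 * θ - c) * A ≤ e * ((31415 / 10000 - A) / 3))
    (hE : (36 / 5 + 4 * θ - c) * g ≤ (16 / 5 - θ - c) * ((31415 / 10000 - A) / 3))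
    (hα0 : 0 ≤ 16 / 5 - θ - c) (hB : 30 ≤ B)
    (c1 : e * 156 + (134 / 5 - 4 * θ - 6 * c) ≤ (68 / 5 + 2 * θ + 3 * c - e) * 11)
    (c2 : 2 * e ≤ 2 * θ + 3 * c)
    (c4 : e * 13682 / 100 + (134 / 5 - 4 * θ - 6 * c) ≤ (16 / 5 - θ - c) * 30)
    (c5 : e * (1838 / 10000 * (B : ℝ) ^ 2 - B + 14 / 10) + (134 / 5 - 4 * θ - 6 * c) ≤
      (16 / 5 - θ - c) * B) :
    (5 * (21 / 5 : ℝ) / 21 - 1) * (inN G).card + (3 + 4 * θ + 21 / 5 - c) * cor G (alpha d) +
      144 * (21 / 5) / 21 - 2 - 4 * θ - 6 * c ≤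
      (21 / 5 - 1 - c - r) * gam G (alpha d) + (16 * (21 / 5) / 21 - θ - c) * G.oJ.card +
      (2 * θ + 3 * c) * (G.oJ.card + (inN G).card - G.P.card) +
      (1 + 2 * θ + 3 * (21 / 5) + 3 * c) * sE G := by
  have hal := W4.al_pos71 G hG
  have hA0 := A3_pos69 hd
  have hg0 := g51_nonneg hd.le
  have hal2 : (31415 / 10000 - A) / 3 ≤ alpha d := by
    have h1 := Real.pi_gt_d4
    unfold A3 at hA
    linarith
  have hβ : 0 ≤ 36 / 5 + 4 * θ - c := by linarith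
  have he0 : 0 ≤ e := by
    have h1 : 0 ≤ (36 / 5 + 4 * θ - c) * A := mul_nonneg hβ (hA0.le.trans hA)
    exact nonneg_of_mul_nonneg_left (h1.trans he) (by linarith)
  refine row14 hd G hG hn (e := e) (B := B) (by norm_num) (by linarith) (by linarith) ?_ ?_
    (by linarith) hB (by linarith) c2 (by linarith) (by linarith) (by linarith)
  · have h1 : (3 + 4 * θ + 21 / 5 - c) * A3 (alpha d) / alpha d ≤ e := by
      rw [div_le_iff₀ hal]
      have h2 : (36 / 5 + 4 * θ - c) * A3 (alpha d) ≤ (36 / 5 + 4 * θ - c) * A :=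
        mul_le_mul_of_nonneg_left hA hβ
      have h3 := mul_le_mul_of_nonneg_left hal2 he0
      linarith
    have h2 : (5 * (21 / 5 : ℝ) / 21 - 1) / 2 = 0 := by norm_num
    rw [h2, zero_add]
    exact h1
  · have h2 : (5 * (21 / 5 : ℝ) / 21 - 1) / (2 * A3 (alpha d)) = 0 := by norm_num
    rw [h2, zero_add, div_mul_eq_mul_div, div_le_iff₀ hal]
    have h3 : (36 / 5 + 4 * θ - c) * (g51 d - A3 (alpha d)) ≤ (36 / 5 + 4 * θ - c) * g :=
      mul_le_mul_of_nonneg_left (by linarith) hβ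
    have h4 := mul_le_mul_of_nonneg_left hal2 hα0
    linarith

/-- `d ≤ 9 / 100`, `θ ≤ 4 / 5`: the boundary pays `8 / 5` for each big corner at an outer point -/
theorem rowA14 {d : ℝ} (hd : 0 < d) (hD : d ≤ 9 / 100) (G : Tg ℍ)
    (hG : G.Geo4 (alpha d) kap (Ust69 d)) (hn : 98 ≤ G.P.card) {θ r : ℝ} (hθ0 : 0 ≤ θ)
    (hθ : θ ≤ 4 / 5) (hr : r ≤ 8 / 5) :
    (5 * (21 / 5 : ℝ) / 21 - 1) * (inN G).card + (3 + 4 * θ + 21 / 5 - 8 / 5) * cor G (alpha d) +
      144 * (21 / 5) / 21 - 2 - 4 * θ - 6 * (8 / 5) ≤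
      (21 / 5 - 1 - 8 / 5 - r) * gam G (alpha d) + (16 * (21 / 5) / 21 - θ - 8 / 5) * G.oJ.card +
      (2 * θ + 3 * (8 / 5)) * (G.oJ.card + (inN G).card - G.P.card) +
      (1 + 2 * θ + 3 * (21 / 5) + 3 * (8 / 5)) * sE G := by
  have hA : A3 (alpha d) ≤ 353 / 100000 := A3_le14 hd hD (by norm_num) (by norm_num) (by norm_num)
    (by norm_num)
  have hg : g51 d ≤ 902 / 10000 := g51_le14 hd.le hD (by norm_num) (by norm_num) (by norm_num)
  refine rowS14 hd G hG hn (e := 3 / 100) (B := 120) (by linarith) hθ0 (by norm_num) (by norm_num)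
    hA hg (by norm_num) ?_ ?_ ?_ (by norm_num) ?_ ?_ ?_ ?_ <;> norm_num <;> linarith

/-- `d ≤ 9 / 100`, `θ ≤ 27 / 25`: the boundary pays `6 / 5` for each big corner at an outer
point -/
theorem rowB14 {d : ℝ} (hd : 0 < d) (hD : d ≤ 9 / 100) (G : Tg ℍ)
    (hG : G.Geo4 (alpha d) kap (Ust69 d)) (hn : 98 ≤ G.P.card) {θ r : ℝ} (hθ0 : 0 ≤ θ)
    (hθ : θ ≤ 27 / 25) (hr : r ≤ 2) :
    (5 * (21 / 5 : ℝ) / 21 - 1) * (inN G).card + (3 + 4 * θ + 21 / 5 - 6 / 5) * cor G (alpha d) +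
      144 * (21 / 5) / 21 - 2 - 4 * θ - 6 * (6 / 5) ≤
      (21 / 5 - 1 - 6 / 5 - r) * gam G (alpha d) + (16 * (21 / 5) / 21 - θ - 6 / 5) * G.oJ.card +
      (2 * θ + 3 * (6 / 5)) * (G.oJ.card + (inN G).card - G.P.card) +
      (1 + 2 * θ + 3 * (21 / 5) + 3 * (6 / 5)) * sE G := by
  have hA : A3 (alpha d) ≤ 353 / 100000 := A3_le14 hd hD (by norm_num) (by norm_num) (by norm_num)
    (by norm_num)
  have hg : g51 d ≤ 902 / 10000 := g51_le14 hd.le hD (by norm_num) (by norm_num) (by norm_num)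
  refine rowS14 hd G hG hn (e := 35 / 1000) (B := 120) (by linarith) hθ0 (by norm_num)
    (by norm_num) hA hg (by norm_num) ?_ ?_ ?_ (by norm_num) ?_ ?_ ?_ ?_ <;> norm_num <;> linarith

/-- `d ≤ 3 / 20`, `θ ≤ 4 / 5`: the boundary pays `1` for each big corner at an outer point -/
theorem rowC14 {d : ℝ} (hd : 0 < d) (hD : d ≤ 3 / 20) (G : Tg ℍ)
    (hG : G.Geo4 (alpha d) kap (Ust69 d)) (hn : 98 ≤ G.P.card) {θ r : ℝ} (hθ0 : 0 ≤ θ)
    (hθ : θ ≤ 4 / 5) (hr : r ≤ 11 / 5) :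
    (5 * (21 / 5 : ℝ) / 21 - 1) * (inN G).card + (3 + 4 * θ + 21 / 5 - 1) * cor G (alpha d) +
      144 * (21 / 5) / 21 - 2 - 4 * θ - 6 * 1 ≤
      (21 / 5 - 1 - 1 - r) * gam G (alpha d) + (16 * (21 / 5) / 21 - θ - 1) * G.oJ.card +
      (2 * θ + 3 * 1) * (G.oJ.card + (inN G).card - G.P.card) +
      (1 + 2 * θ + 3 * (21 / 5) + 3 * 1) * sE G := by
  have hA : A3 (alpha d) ≤ 990 / 100000 := A3_le14 hd hD (by norm_num) (by norm_num) (by norm_num)
    (by norm_num)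
  have hg : g51 d ≤ 1503 / 10000 := g51_le14 hd.le hD (by norm_num) (by norm_num) (by norm_num)
  refine rowS14 hd G hG hn (e := 9 / 100) (B := 65) (by linarith) hθ0 (by norm_num)
    (by norm_num) hA hg (by norm_num) ?_ ?_ ?_ (by norm_num) ?_ ?_ ?_ ?_ <;> norm_num <;> linarith

/-- **the target row from the discharging**, general form: `F` is any set of black faces without
white side or with at least one unit of gaps at outer points -/
theorem target_of14 (hG : G.Geo4 al kp U) {θ Λ c r R : ℝ} (hθ : 0 ≤ θ) (hΛ : 0 < Λ) (hc : 0 ≤ c)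
    (F : Finset (cg G).ConnectedComponent) (hF : F ⊆ Kc G)
    (hF1 : ∀ K ∈ F, ao14 G K ∨ 1 ≤ uK14 G al K)
    (hdis : ∑ K ∈ Kc G \ F, (2 + 2 * θ - θ * tK G K) + (4 + 5 * θ) * ∑ C ∈ WF G, qa G C ≤
      (3 + 4 * θ + Λ) * cost G al + R)
    (hR : R ≤ c * cB5 G + r * gam G al + (2 + 2 * θ) * ∑ K ∈ Kc G \ F, uK14 G al K +
      θ * ∑ K ∈ F, (tK G K : ℝ))
    (hnum : (5 * Λ / 21 - 1) * (inN G).card + (3 + 4 * θ + Λ - c) * cor G al + 144 * Λ / 21 - 2 -
      4 * θ - 6 * c ≤ (Λ - 1 - c - r) * gam G al + (16 * Λ / 21 - θ - c) * G.oJ.card +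
      (2 * θ + 3 * c) * (G.oJ.card + (inN G).card - G.P.card) +
      (1 + 2 * θ + 3 * Λ + 3 * c) * sE G) : Target71 G al := by
  have h := bd_assembly14 G hG hθ F hF hF1 hdis
  refine target14 G hG (θ := θ) (Λ := Λ) (c := c) (r := r)
    (R := R - (2 + 2 * θ) * ∑ K ∈ Kc G \ F, uK14 G al K - θ * ∑ K ∈ F, (tK G K : ℝ)) hΛ hc
    (by linarith) (by linarith) hnum

/-- **the target row from the discharging**, standard form: only the black faces with an inner
sector of nonnegative surplus or a weak side have to be paid -/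
theorem target_of14' (hG : G.Geo4 al kp U) {θ Λ c r R : ℝ} (hθ : 0 ≤ θ) (hΛ : 0 < Λ) (hc : 0 ≤ c)
    (hdis : ∑ K ∈ (Kc G).filter (fun K => (∃ x ∈ kS G K, x.2 ∈ inN G ∧ 0 ≤ Ds G al x) ∨
        ∃ x ∈ kS G K, x ∈ BC G ∧ sp G al x < 0), (2 + 2 * θ - θ * tK G K) +
      (4 + 5 * θ) * ∑ C ∈ WF G, qa G C ≤ (3 + 4 * θ + Λ) * cost G al + R)
    (hR : R ≤ c * cB5 G + r * gam G al)
    (hnum : (5 * Λ / 21 - 1) * (inN G).card + (3 + 4 * θ + Λ - c) * cor G al + 144 * Λ / 21 - 2 -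
      4 * θ - 6 * c ≤ (Λ - 1 - c - r) * gam G al + (16 * Λ / 21 - θ - c) * G.oJ.card +
      (2 * θ + 3 * c) * (G.oJ.card + (inN G).card - G.P.card) +
      (1 + 2 * θ + 3 * Λ + 3 * c) * sE G) : Target71 G al := by
  have h := bd_assembly14' G hG hθ hdis
  have h2 : 0 ≤ θ * ∑ K ∈ (Kc G).filter (fun K => ¬ ((∃ x ∈ kS G K, x.2 ∈ inN G ∧
      0 ≤ Ds G al x) ∨ ∃ x ∈ kS G K, x ∈ BC G ∧ sp G al x < 0)), (tK G K : ℝ) :=
    mul_nonneg hθ (Finset.sum_nonneg fun K _ => Nat.cast_nonneg _)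
  exact target14 G hG hΛ hc hR (by linarith) hnum

end

end Pool.Agent.PEN.E5
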