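import Pool.Agent.E5.In15
import Pool.Agent.E5.Sm14
import Pool.Agent.E5.Fg46
import Pool.Agent.E5.Shp14

/-! # PENNY, all small diameters: the assembly of set B6 with boundary

The part `y = 1` of the weights is kept exactly in the excess of the points and in the area: this
gives twice the curvature term. -/

set_option autoImplicit false

namespace Pool.Agent.PEN.E5

open Classical UpperHalfPlane
open Pool.Agent.PEN.Cl

noncomputable section

variable {V : Type} (G : Tg V) {al : ℝ} {kp : V → V → ℝ} {U : ℕ → ℝ}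

/-- the excess area of a class, in units -/
def fl14 (al : ℝ) (C : G.adj.ConnectedComponent) : ℝ :=
  (∑ x ∈ G.cD C, G.ar x.1 x.2 / 3 - A3 al * (G.cT C).card) / al

theorem fl_tri14 (hG : G.Geo4 al kp U) {C : G.adj.ConnectedComponent} (hC : C ∈ G.iC)
    (hI : G.cI C = ∅) : fl14 G al C = 0 := by
  have hal := W4.al_pos71 G hG
  have h1 := W4.sum_TH_class71 G hG hC
  rw [sum_th71] at h1
  have h2 : ∑ x ∈ G.cJ C, TH G x = (G.cJ C).card * al := by
    rw [← nsmul_eq_mul, ← Finset.sum_const]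
    refine Finset.sum_congr rfl fun x hx => ?_
    obtain ⟨h3, h4⟩ := cJ_iJ51 G hC hx
    exact W4.TH_T51 G hG h3 (by rw [h4]; exact hI)
  have h3 := m_eq46 G hC
  rw [hI, Finset.card_empty] at h3
  have h4 : ((G.cJ C).card : ℝ) = 3 * (G.cT C).card := by exact_mod_cast (by omega :
    (G.cJ C).card = 3 * (G.cT C).card)
  unfold fl14 A3
  rw [div_eq_zero_iff]
  left
  rw [h2, h4] at h1
  linarith

/-- the curvature term, point by point and class by class -/
theorem cor_flat14 (hG : G.Geo4 al kp U) :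
    cor G al = ∑ v ∈ inN G, ep al + ∑ C ∈ WF G, fl14 G al C := by
  have hal := W4.al_pos71 G hG
  have e1 : ∑ C ∈ WF G, fl14 G al C = ∑ C ∈ G.iC, fl14 G al C := by
    unfold WF
    refine Finset.sum_filter_of_ne fun C hC h => ?_
    by_contra h2
    exact h (fl_tri14 G hG hC (Finset.not_nonempty_iff_eq_empty.1 h2))
  have e2 : ∑ C ∈ G.iC, fl14 G al C = (Ar G - A3 al * (G.iD.card / 3)) / al := by
    unfold fl14 Ar
    rw [← Finset.sum_div, Finset.sum_sub_distrib, ← Finset.mul_sum, cT_sum89 G,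
      sum_iD27 G (fun x => G.ar x.1 x.2 / 3)]
  rw [e1, e2, Finset.sum_const, nsmul_eq_mul]
  unfold cor ep A3
  field_simp
  ring

/-- the surplus at an inner point, exactly -/
theorem pt_flat14 (hG : G.Geo4 al kp U) {v : V} (hv : v ∈ inN G) :
    ∑ s ∈ Sv G v, Ds G al s + 2 * ep al = 2 * kv G al v - cv G v := by
  have h1 := sum_sgv62 G hG hv (gc G al)
  have h2 := sum_nxv62 G hG hv (gc G al)
  have h3 : ∑ x ∈ Bv G v, gc G al x = kv G al v - ep al := by
    rw [← sum_gc89 G hG hv]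
    have e3 : ∀ x ∈ Jv G v, gc G al x ≠ 0 → ¬ tt G x := fun x _ h h2 => h (gc_tt89 G hG h2)
    rw [← Finset.sum_filter_of_ne e3, ← cv_BC89]
    rfl
  unfold Ds
  rw [Finset.sum_sub_distrib, Finset.sum_add_distrib, h1, h2, h3, Finset.sum_const,
    nsmul_eq_mul, mul_one, Sv_card89 G hG hv]
  ring

/-- the surplus of the sides of a white class, exactly -/
theorem cls_flat14 (hG : G.Geo4 al kp U) {C : G.adj.ConnectedComponent} (hC : C ∈ G.iC) :
    ∑ s ∈ G.cJ C, sp G al s =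
      2 * (uf G al C : ℝ) - 6 * (G.cT C).card - (G.cJ C).card + 2 * fl14 G al C := by
  have hal := W4.al_pos71 G hG
  have h1 := sum_gc_class46 G hG hC
  have h2 := sum_sg46 G hG hC (gc G al)
  have h3 : (Real.pi * (G.cT C).card - ∑ x ∈ G.cD C, G.ar x.1 x.2 / 3) / al =
      3 * (G.cT C).card - fl14 G al C := by
    unfold fl14 A3
    field_simp
    ring
  unfold sp
  rw [Finset.sum_sub_distrib, Finset.sum_add_distrib, h2, h1, h3, Finset.sum_const,
    nsmul_eq_mul, mul_one]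
  ring

/-- the outer terms of the balance, black face by black face -/
theorem outer14 (hG : G.Geo4 al kp U) (yK : (cg G).ConnectedComponent → ℝ) :
    ∑ s ∈ (SD G).filter (fun s => s.2 ∉ inN G), yK (ku G s) * Ds G al s -
      ∑ s ∈ G.oJ, yK (ku G s) * sp G al s = ∑ K ∈ Kc G, yK K * (uK14 G al K - oK14 G K) := by
  have e1 : ∑ s ∈ (SD G).filter (fun s => s.2 ∉ inN G), yK (ku G s) * Ds G al s =
      ∑ K ∈ Kc G, yK K * ∑ s ∈ (kS G K).filter (fun s => s.2 ∉ inN G), Ds G al s := by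
    rw [Finset.sum_filter, sum_kS15]
    refine Finset.sum_congr rfl fun K _ => ?_
    rw [Finset.mul_sum, Finset.sum_filter]
    refine Finset.sum_congr rfl fun s hs => ?_
    rw [((mem_kS42 G).1 hs).2]
  have e2 : ∑ s ∈ G.oJ, yK (ku G s) * sp G al s =
      ∑ K ∈ Kc G, yK K * ∑ s ∈ (kS G K).filter (fun s => s ∉ BC G), sp G al s := by
    have h1 : ∑ s ∈ G.oJ, yK (ku G s) * sp G al s =
        ∑ s ∈ (SD G).filter (fun s => s ∉ BC G), yK (ku G s) * sp G al s := by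
      refine Finset.sum_congr ?_ fun _ _ => rfl
      ext x
      rw [Finset.mem_filter]
      constructor
      · intro hx
        obtain ⟨h1, h2, h3⟩ := (mem_oJ66 G).1 hx
        exact ⟨(mem_SD42 G).2 ⟨(mem_KJ42 G).2 ⟨h1, h2⟩, fun h => h3 (inn_tt89 G h)⟩,
          fun h => h3 ((mem_iJ71 G).1 ((mem_BC89 G).1 h).1).1⟩
      · rintro ⟨h1, h2⟩
        exact (BC_or14 G h1).resolve_left h2
    rw [h1, Finset.sum_filter, sum_kS15]
    refine Finset.sum_congr rfl fun K _ => ?_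
    rw [Finset.mul_sum, Finset.sum_filter]
    refine Finset.sum_congr rfl fun s hs => ?_
    rw [((mem_kS42 G).1 hs).2]
  rw [e1, e2, ← Finset.sum_sub_distrib]
  refine Finset.sum_congr rfl fun K _ => ?_
  rw [← mul_sub]
  congr 1
  have h1 := U1_14 G hG K
  have h2 := sum_Ds89 G hG K
  rw [← Finset.sum_filter_add_sum_filter_not (kS G K) (fun s => s.2 ∈ inN G) (Ds G al),
    ← Finset.sum_filter_add_sum_filter_not (kS G K) (fun s => s ∈ BC G) (sp G al)] at h2
  linarith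

/-- **flat master inequality**: `y0` is the uniform part of the weights -/
theorem masterf14 (hG : G.Geo4 al kp U) {θ Λ y0 R : ℝ}
    {yK : (cg G).ConnectedComponent → ℝ}
    (hR : ∑ K ∈ (Kc G).filter (fun K => K ∉ Sf G al), wx G θ K - ∑ K ∈ Sf G al, rx G al θ K -
        ∑ v ∈ A2 G al, (sl G al θ Λ yK v - 2 * y0 * ep al) +
        ∑ v ∈ (inN G).filter (fun v => ¬ 8 ≤ uv G al v), (∑ s ∈ Sv G v, yK (ku G s) * Ds G al s +
          2 * y0 * ep al) +
        ∑ C ∈ WF G, ((4 + 5 * θ) * qa G C - (3 + 4 * θ + Λ) * ka G al C -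
          ∑ s ∈ G.cJ C, yK (ku G s) * sp G al s + 2 * y0 * fl14 G al C) +
        ∑ K ∈ Kc G, yK K * (uK14 G al K - oK14 G K) ≤ R) :
    ∑ K ∈ Kc G, wx G θ K + (4 + 5 * θ) * ∑ C ∈ WF G, qa G C + 2 * y0 * cor G al ≤
      (3 + 4 * θ + Λ) * cost G al + R := by
  have h1 := pricesx15 G (al := al) θ
  have h2 := balance15 G hG yK
  rw [sum_heads15 G (al := al), sum_SD15 G (fun s => yK (ku G s) * sp G al s)] at h2
  have h3 : ∑ s ∈ Pz G al, max (2 + 2 * θ - θ * (rn G s : ℝ)) 0 =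
      ∑ v ∈ A2 G al, ∑ s ∈ (Sv G v).filter (fun s => 0 ≤ Ds G al s),
        max (2 + 2 * θ - θ * (rn G s : ℝ)) 0 := by
    unfold Pz
    exact sum_sectors15 G (A2 G al) (fun s => 0 ≤ Ds G al s) _
  have h4 : ∑ v ∈ A2 G al, sl G al θ Λ yK v =
      (3 + 4 * θ + Λ) * ∑ v ∈ A2 G al, (kv G al v - 1) -
      ∑ v ∈ A2 G al, ∑ s ∈ (Sv G v).filter (fun s => 0 ≤ Ds G al s),
        max (2 + 2 * θ - θ * (rn G s : ℝ)) 0 -
      ∑ v ∈ A2 G al, ∑ s ∈ Sv G v, yK (ku G s) * Ds G al s := by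
    unfold sl
    rw [Finset.sum_sub_distrib, Finset.sum_sub_distrib, ← Finset.mul_sum]
  have h6 := sum_kv15 G hG
  have h7 : ∑ C ∈ WF G, ((4 + 5 * θ) * qa G C - (3 + 4 * θ + Λ) * ka G al C -
      ∑ s ∈ G.cJ C, yK (ku G s) * sp G al s + 2 * y0 * fl14 G al C) =
      (4 + 5 * θ) * ∑ C ∈ WF G, qa G C -
      (3 + 4 * θ + Λ) * ∑ C ∈ WF G, ka G al C -
      ∑ C ∈ WF G, ∑ s ∈ G.cJ C, yK (ku G s) * sp G al s +
      2 * y0 * ∑ C ∈ WF G, fl14 G al C := by
    rw [Finset.sum_add_distrib, Finset.sum_sub_distrib, Finset.sum_sub_distrib, ← Finset.mul_sum,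
      ← Finset.mul_sum, ← Finset.mul_sum]
  have h8 := outer14 G hG yK
  have h9 : 2 * y0 * cor G al = ∑ v ∈ A2 G al, 2 * y0 * ep al +
      ∑ v ∈ (inN G).filter (fun v => ¬ 8 ≤ uv G al v), 2 * y0 * ep al +
      2 * y0 * ∑ C ∈ WF G, fl14 G al C := by
    rw [cor_flat14 G hG, mul_add, Finset.mul_sum]
    unfold A2
    rw [Finset.sum_filter_add_sum_filter_not]
  rw [h7, Finset.sum_sub_distrib, h4, Finset.sum_add_distrib] at hR
  unfold cost
  rw [h1, h3, h6, h9]
  linarith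

/-- **the result row of set B6** -/
def Row14 (G : Tg V) (al : ℝ) : Prop :=
  7 * ((G.P.card : ℝ) - G.oJ.card) + 4 * (G.oJ.card + (inN G).card - G.P.card) + 6 + 3 * sE G ≤
    6 * G.iI.card + 11 * cor G al + (G.shp al).card

/-- the result row from the discharging inequality, exactly -/
theorem row_of14 (hG : G.Geo4 al kp U)
    (h : ∑ K ∈ Kc G, wx G 1 K + 9 * ∑ C ∈ WF G, qa G C + 2 * cor G al + G.oJ.card ≤
      13 * cost G al + 13 * gam G al + 9 * (G.oJ.card + (inN G).card - G.P.card) +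
        (G.shp al).card) : Row14 G al := by
  have f3 := F3_89 G hG
  have g1 : ((SD G).card : ℝ) = (BC G).card + G.oJ.card := by exact_mod_cast SD_card89 G
  have g2 : ((iJ G).card : ℝ) = (BC G).card + (TT G).card := by exact_mod_cast iJ_card89 G
  have g3 : (G.iD.card : ℝ) = (iJ G).card + G.iI.card := by exact_mod_cast iD_card89 G
  have g5 := Q_sum89 G
  have g6 := sum_wx15 G 1
  unfold Row14 sE
  rw [g6, g5, g1] at h
  have h1 : ((BC G).card : ℝ) = G.iD.card - G.iI.card - (TT G).card := by linarith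
  rw [h1] at h
  linarith

/-- **the result row of set B6**, with the boundary black face by black face -/
theorem row_bd14 (hG : G.Geo4 al kp U) {yK : (cg G).ConnectedComponent → ℝ}
    (hR : ∑ K ∈ (Kc G).filter (fun K => K ∉ Sf G al), wx G 1 K - ∑ K ∈ Sf G al, rx G al 1 K -
        ∑ v ∈ A2 G al, (sl G al 1 6 yK v - 2 * ep al) +
        ∑ v ∈ (inN G).filter (fun v => ¬ 8 ≤ uv G al v), (∑ s ∈ Sv G v, yK (ku G s) * Ds G al s +
          2 * ep al) +
        ∑ C ∈ WF G, (9 * qa G C - 13 * ka G al C -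
          ∑ s ∈ G.cJ C, yK (ku G s) * sp G al s + 2 * fl14 G al C) +
        ∑ K ∈ Kc G, ((F14 G K : ℝ) + Z14 G K - 11 / 2 * uK14 G al K +
          (yK K - 1) * (uK14 G al K - oK14 G K)) ≤
        9 * (G.oJ.card + (inN G).card - G.P.card)) : Row14 G al := by
  refine row_of14 G hG ?_
  have h1 := oJ_count14 G hG
  have h2 := sum_uK14 G hG
  have h3 : ∑ K ∈ Kc G, ((F14 G K : ℝ) + Z14 G K - 11 / 2 * uK14 G al K +
      (yK K - 1) * (uK14 G al K - oK14 G K)) =
      ∑ K ∈ Kc G, ((F14 G K : ℝ) + Z14 G K + oK14 G K) +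
      ∑ K ∈ Kc G, yK K * (uK14 G al K - oK14 G K) - 13 / 2 * ∑ K ∈ Kc G, uK14 G al K := by
    rw [Finset.mul_sum, ← Finset.sum_add_distrib, ← Finset.sum_sub_distrib]
    exact Finset.sum_congr rfl fun K _ => by ring
  have h4 := masterf14 G hG (θ := 1) (Λ := 6) (y0 := 1) (yK := yK)
    (R := 9 * (G.oJ.card + (inN G).card - G.P.card) -
      (∑ K ∈ Kc G, ((F14 G K : ℝ) + Z14 G K + oK14 G K) - 13 * gam G al)) (by
      rw [h3, h2] at hR
      norm_num at hR ⊢
      linarith)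
  norm_num at h4
  linarith

/-- **set B6, interior and boundary**: the leaves are charged to their white corners -/
theorem row_int14 (hG : G.Geo4 al kp U) (h1 : ∀ x ∈ iJ G, gc G al x ≤ 1)
    {yK : (cg G).ConnectedComponent → ℝ} (hyK : ∀ K ∈ Kc G, 1 ≤ yK K)
    (hR : ∑ K ∈ (Kc G).filter (fun K => Lv G K = ∅ ∧ K ∉ Sf G al), wx G 1 K -
        ∑ K ∈ (Kc G).filter (fun K => Lv G K ≠ ∅), lsl G al 1 yK K -
        ∑ K ∈ (Sf G al).filter (fun K => Lv G K = ∅), rx G al 1 K -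
        ∑ K ∈ (Sf G al).filter (fun K => Lv G K ≠ ∅), ∑ s ∈ PK G al K,
          max (4 - (rn G s : ℝ)) 0 -
        ∑ v ∈ A2 G al, (sl G al 1 6 yK v - 2 * ep al) +
        ∑ v ∈ (inN G).filter (fun v => uv G al v = 7 ∧ cv G v ≠ 1), (∑ s ∈ Sv G v,
          yK (ku G s) * Ds G al s + 2 * ep al) +
        ∑ C ∈ WF G, (9 * qa G C - 13 * ka G al C -
          ∑ s ∈ G.cJ C, yK (ku G s) * sp G al s + 2 * fl14 G al C +
          ∑ x ∈ (G.cJ C).filter (fun x => x.1 ∈ lfN G), ((un G al x : ℝ) - 2)) +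
        ∑ K ∈ Kc G, ((F14 G K : ℝ) + Z14 G K - 11 / 2 * uK14 G al K +
          (yK K - 1) * (uK14 G al K - oK14 G K)) ≤
        9 * (G.oJ.card + (inN G).card - G.P.card)) : Row14 G al := by
  have hep := ep_pos89 G hG
  refine row_bd14 G hG (yK := yK) ?_
  -- the points with one unit too much
  have a1 : ∑ v ∈ (inN G).filter (fun v => ¬ 8 ≤ uv G al v), (∑ s ∈ Sv G v,
      yK (ku G s) * Ds G al s + 2 * ep al) ≤ ∑ K ∈ Kc G, yK K * (Lv G K).card +
        ∑ v ∈ (inN G).filter (fun v => uv G al v = 7 ∧ cv G v ≠ 1), (∑ s ∈ Sv G v,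
          yK (ku G s) * Ds G al s + 2 * ep al) := by
    rw [← Finset.sum_filter_add_sum_filter_not ((inN G).filter (fun v => ¬ 8 ≤ uv G al v))
      (fun v => cv G v = 1), Finset.filter_filter, Finset.filter_filter]
    have e1 : (inN G).filter (fun v => ¬ 8 ≤ uv G al v ∧ cv G v = 1) = lfN G := by
      ext v
      rw [Finset.mem_filter, mem_lfN15]
      constructor
      · rintro ⟨h2, _, h3⟩
        exact ⟨h2, h3⟩
      · rintro ⟨h2, h3⟩
        have := leaf_uv39 G hG h1 h2 h3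
        exact ⟨h2, by omega, h3⟩
    have e2 : (inN G).filter (fun v => ¬ 8 ≤ uv G al v ∧ ¬ cv G v = 1) =
        (inN G).filter (fun v => uv G al v = 7 ∧ cv G v ≠ 1) := by
      refine Finset.filter_congr fun v hv => ?_
      have := uv_ge89 G hG hv
      constructor
      · rintro ⟨h2, h3⟩
        exact ⟨by omega, h3⟩
      · rintro ⟨h2, h3⟩
        exact ⟨by omega, h3⟩
    rw [e1, e2]
    refine add_le_add ?_ le_rfl
    have e3 : ∑ K ∈ Kc G, yK K * (Lv G K).card = ∑ K ∈ Kc G, ∑ x ∈ Lv G K, yK (ku G x) := by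
      refine Finset.sum_congr rfl fun K _ => ?_
      rw [Finset.sum_congr rfl fun x hx => by
        rw [((mem_kS42 G).1 ((mem_Lv15 G).1 hx).1).2], Finset.sum_const, nsmul_eq_mul, mul_comm]
    rw [e3, sum_leafs15 G (fun x => yK (ku G x))]
    refine Finset.sum_le_sum fun v hv => ?_
    obtain ⟨h2, h3⟩ := (mem_lfN15 G).1 hv
    obtain ⟨s, hs⟩ := Finset.card_eq_one.1 ((Sv_card89 G hG h2).trans h3)
    rw [hs, Finset.sum_singleton, Finset.sum_singleton]
    have hsm : s ∈ Sv G v := by rw [hs]; exact Finset.mem_singleton_self _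
    obtain ⟨h4, h5⟩ := (mem_Sv62 G).1 hsm
    have h6 := pt_flat14 G hG h2
    rw [hs, Finset.sum_singleton, kv_eq89, leaf_uv39 G hG h1 h2 h3, h3] at h6
    push_cast at h6
    have h7 : Ds G al s = 1 - 2 * ep al := by linarith
    have h8 := hyK _ (ku_Kc15 G h4)
    rw [h7]
    nlinarith
  -- the black faces
  have hSf : (Kc G).filter (fun K => K ∈ Sf G al) = Sf G al := by
    ext K
    rw [Finset.mem_filter]
    refine ⟨fun h => h.2, fun h => ⟨?_, h⟩⟩
    unfold Sf at h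
    exact (Finset.mem_filter.1 h).1
  have hmx : ∀ s : V × V, max (2 + 2 * (1 : ℝ) - 1 * (rn G s : ℝ)) 0 =
      max (4 - (rn G s : ℝ)) 0 := fun s => by norm_num
  have b1 : ∑ K ∈ (Kc G).filter (fun K => K ∉ Sf G al), wx G 1 K - ∑ K ∈ Sf G al, rx G al 1 K =
      ∑ K ∈ Kc G, wx G 1 K - ∑ K ∈ Sf G al, ∑ s ∈ PK G al K,
        max (4 - (rn G s : ℝ)) 0 := by
    rw [← Finset.sum_filter_add_sum_filter_not (Kc G) (fun K => K ∈ Sf G al) (wx G 1), hSf]
    unfold rx
    rw [Finset.sum_sub_distrib]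
    simp only [hmx]
    ring
  have b2 : ∑ K ∈ Sf G al, ∑ s ∈ PK G al K, max (4 - (rn G s : ℝ)) 0 =
      ∑ K ∈ (Sf G al).filter (fun K => Lv G K = ∅), (rx G al 1 K + wx G 1 K) +
      ∑ K ∈ (Sf G al).filter (fun K => Lv G K ≠ ∅), ∑ s ∈ PK G al K,
        max (4 - (rn G s : ℝ)) 0 := by
    rw [← Finset.sum_filter_add_sum_filter_not (Sf G al) (fun K => Lv G K = ∅)]
    congr 1
    refine Finset.sum_congr rfl fun K _ => ?_
    unfold rx
    simp only [hmx]
    ring
  have b3 : ∑ K ∈ Kc G, wx G 1 K =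
      ∑ K ∈ (Kc G).filter (fun K => Lv G K = ∅ ∧ K ∉ Sf G al), wx G 1 K +
      ∑ K ∈ (Sf G al).filter (fun K => Lv G K = ∅), wx G 1 K +
      ∑ K ∈ (Kc G).filter (fun K => Lv G K ≠ ∅), wx G 1 K := by
    rw [← Finset.sum_filter_add_sum_filter_not (Kc G) (fun K => Lv G K = ∅)]
    congr 1
    rw [← Finset.sum_filter_add_sum_filter_not ((Kc G).filter (fun K => Lv G K = ∅))
      (fun K => K ∈ Sf G al), Finset.filter_filter, Finset.filter_filter, add_comm]
    congr 1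
    refine Finset.sum_congr ?_ fun _ _ => rfl
    rw [← hSf, Finset.filter_filter]
    refine Finset.filter_congr fun K _ => ?_
    rw [hSf]
    exact and_comm
  have b4 : ∑ K ∈ (Kc G).filter (fun K => Lv G K ≠ ∅), (wx G 1 K + yK K * (Lv G K).card) =
      - ∑ K ∈ (Kc G).filter (fun K => Lv G K ≠ ∅), lsl G al 1 yK K +
        ∑ C ∈ WF G, ∑ x ∈ (G.cJ C).filter (fun x => x.1 ∈ lfN G), ((un G al x : ℝ) - 2) := by
    have c1 : ∑ K ∈ Kc G, ∑ x ∈ Lv G K, ((un G al (sg G x) : ℝ) - 2) =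
        ∑ C ∈ WF G, ∑ x ∈ (G.cJ C).filter (fun x => x.1 ∈ lfN G), ((un G al x : ℝ) - 2) := by
      rw [sum_leafs15 G (fun x => (un G al (sg G x) : ℝ) - 2)]
      exact sum_leafc15 G hG (fun x => (un G al x : ℝ) - 2)
    have c2 : ∑ K ∈ (Kc G).filter (fun K => Lv G K ≠ ∅),
        ∑ x ∈ Lv G K, ((un G al (sg G x) : ℝ) - 2) =
        ∑ K ∈ Kc G, ∑ x ∈ Lv G K, ((un G al (sg G x) : ℝ) - 2) := by
      refine Finset.sum_filter_of_ne fun K _ h h2 => h ?_
      rw [h2, Finset.sum_empty]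
    rw [← c1, ← c2, ← Finset.sum_neg_distrib, ← Finset.sum_add_distrib]
    refine Finset.sum_congr rfl fun K hK => ?_
    unfold lsl
    ring
  have b5 : ∑ K ∈ (Kc G).filter (fun K => Lv G K ≠ ∅), yK K * (Lv G K).card =
      ∑ K ∈ Kc G, yK K * (Lv G K).card := by
    refine Finset.sum_filter_of_ne fun K _ h h2 => h ?_
    rw [h2, Finset.card_empty, Nat.cast_zero, mul_zero]
  rw [Finset.sum_add_distrib, b5] at b4
  rw [Finset.sum_add_distrib] at b2
  have b6 : ∑ C ∈ WF G, (9 * qa G C - 13 * ka G al C -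
      ∑ s ∈ G.cJ C, yK (ku G s) * sp G al s + 2 * fl14 G al C +
      ∑ x ∈ (G.cJ C).filter (fun x => x.1 ∈ lfN G), ((un G al x : ℝ) - 2)) =
      ∑ C ∈ WF G, (9 * qa G C - 13 * ka G al C -
        ∑ s ∈ G.cJ C, yK (ku G s) * sp G al s + 2 * fl14 G al C) +
      ∑ C ∈ WF G, ∑ x ∈ (G.cJ C).filter (fun x => x.1 ∈ lfN G), ((un G al x : ℝ) - 2) := by
    rw [Finset.sum_add_distrib]
  rw [b6] at hR
  rw [b1, b2]
  linarith

end

end Pool.Agent.PEN.E5
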