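import Pool.Agent.E5.Ms15

/-! # PENNY, all small diameters: the exact master inequality

The exact price of a black face is `2 + 2 θ - θ t - (1 + θ) (t + 2 - s)` with `s` sides; the slack of a
point is kept as it is. -/

set_option autoImplicit false

namespace Pool.Agent.PEN.E5

open Classical UpperHalfPlane
open Pool.Agent.PEN.Cl

noncomputable section

variable {V : Type} (G : Tg V) {al : ℝ} {kp : V → V → ℝ} {U : ℕ → ℝ}

/-- the exact price of a black face -/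
def wx (θ : ℝ) (K : (cg G).ConnectedComponent) : ℝ :=
  2 + 2 * θ - θ * tK G K - (1 + θ) * ((tK G K : ℝ) + 2 - (kS G K).card)

/-- the payers of a black face -/
def PK (al : ℝ) (K : (cg G).ConnectedComponent) : Finset (V × V) :=
  (Pz G al).filter (fun s => ku G s = K)

/-- the refund of a black face with a payer -/
def rx (al θ : ℝ) (K : (cg G).ConnectedComponent) : ℝ :=
  ∑ s ∈ PK G al K, max (2 + 2 * θ - θ * (rn G s : ℝ)) 0 - wx G θ K

/-- the slack of a point with `k ≥ 2` -/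
def sl (al θ Λ : ℝ) (yK : (cg G).ConnectedComponent → ℝ) (v : V) : ℝ :=
  (3 + 4 * θ + Λ) * (kv G al v - 1) -
    ∑ s ∈ (Sv G v).filter (fun s => 0 ≤ Ds G al s), max (2 + 2 * θ - θ * (rn G s : ℝ)) 0 -
    ∑ s ∈ Sv G v, yK (ku G s) * Ds G al s

theorem wx_le15 {θ : ℝ} (hθ : 0 ≤ θ) (K : (cg G).ConnectedComponent) :
    wx G θ K ≤ 2 + 2 * θ - θ * tK G K := by
  have h := kS_card63 G K
  have h2 : ((kS G K).card : ℝ) ≤ tK G K + 2 := by exact_mod_cast h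
  have h3 : 0 ≤ (1 + θ) * ((tK G K : ℝ) + 2 - (kS G K).card) :=
    mul_nonneg (by linarith) (by linarith)
  unfold wx
  linarith

theorem ref_le_rx15 {θ : ℝ} (hθ : 0 ≤ θ) (K : (cg G).ConnectedComponent) :
    ref G al θ K ≤ rx G al θ K := by
  have h := wx_le15 G hθ K
  unfold ref rx PK
  linarith

/-- the sum of the exact prices -/
theorem sum_wx15 (θ : ℝ) : ∑ K ∈ Kc G, wx G θ K =
    (1 + θ) * ((SD G).card - ((TT G).card : ℝ) / 3) - θ * ((TT G).card / 3) := by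
  have hs : ∑ K ∈ Kc G, ((kS G K).card : ℝ) = (SD G).card := by
    rw [← Nat.cast_sum]
    congr 1
    exact (Finset.card_eq_sum_card_fiberwise (f := ku G) fun x hx =>
      Finset.mem_coe.2 (ku_Kc15 G (Finset.mem_coe.1 hx))).symm
  have ht : ∑ K ∈ Kc G, (tK G K : ℝ) = (TT G).card / 3 := by
    rw [TT_card89 G]
    ring
  have e : ∀ K, wx G θ K = (1 + θ) * (kS G K).card - (1 + 2 * θ) * tK G K := by
    intro K
    unfold wx
    ring
  rw [Finset.sum_congr rfl fun K _ => e K, Finset.sum_sub_distrib, ← Finset.mul_sum,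
    ← Finset.mul_sum, hs, ht]
  ring

/-- **assembly** with exact prices -/
theorem assemblyx15 (hG : G.Geo4 al kp U) {θ Λ R : ℝ} (hθ : 0 ≤ θ)
    (hdis : ∑ K ∈ Kc G, wx G θ K + (4 + 5 * θ) * ∑ C ∈ WF G, qa G C ≤
      (3 + 4 * θ + Λ) * cost G al + R) :
    ((inN G).card : ℝ) ≤ Λ * cost G al + R - (3 + 4 * θ) * (gam G al - cor G al) +
      θ * G.oJ.card - 2 - 4 * θ := by
  have f2 := W4.E1_ineq G hG
  have f2' : (G.iD.card : ℝ) + 3 * G.oJ.card + 6 ≤ 6 * G.P.card := by exact_mod_cast f2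
  have f3 := F3_89 G hG
  have f4 := card_inN71 G
  have f4' : (G.P.card : ℝ) ≤ G.oJ.card + (inN G).card := by exact_mod_cast f4
  have g1 : ((SD G).card : ℝ) = (BC G).card + G.oJ.card := by exact_mod_cast SD_card89 G
  have g2 : ((iJ G).card : ℝ) = (BC G).card + (TT G).card := by exact_mod_cast iJ_card89 G
  have g3 : (G.iD.card : ℝ) = (iJ G).card + G.iI.card := by exact_mod_cast iD_card89 G
  have g5 := Q_sum89 G
  rw [sum_wx15 G θ] at hdis
  have i1 : ((inN G).card : ℝ) ≤ ((SD G).card - ((TT G).card : ℝ) / 3) - 3 * cost G al +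
      4 * ∑ C ∈ WF G, qa G C - 3 * (gam G al - cor G al) - 2 := by
    linarith
  have i2 : ((TT G).card : ℝ) / 3 + cost G al - ∑ C ∈ WF G, qa G C + (gam G al - cor G al) -
      G.oJ.card + 2 ≤ (inN G).card := by
    linarith
  have j1 := mul_le_mul_of_nonneg_left i1 (by linarith : (0:ℝ) ≤ 1 + θ)
  have j2 := mul_le_mul_of_nonneg_left i2 hθ
  linarith

/-- the exact prices of all black faces -/
theorem pricesx15 (θ : ℝ) : ∑ K ∈ Kc G, wx G θ K =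
    ∑ s ∈ Pz G al, max (2 + 2 * θ - θ * (rn G s : ℝ)) 0 - ∑ K ∈ Sf G al, rx G al θ K +
      ∑ K ∈ (Kc G).filter (fun K => K ∉ Sf G al), wx G θ K := by
  have h1 : ∑ s ∈ Pz G al, max (2 + 2 * θ - θ * (rn G s : ℝ)) 0 =
      ∑ K ∈ Sf G al, ∑ s ∈ PK G al K, max (2 + 2 * θ - θ * (rn G s : ℝ)) 0 := by
    unfold PK
    refine (Finset.sum_fiberwise_of_maps_to (fun s hs => ?_) _).symm
    refine (mem_Sf15 G).2 ⟨s, (mem_kS42 G).2 ⟨((mem_Pz15 G).1 hs).1, rfl⟩, hs⟩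
  have h2 : (Kc G).filter (fun K => K ∈ Sf G al) = Sf G al := by
    ext K
    rw [Finset.mem_filter]
    refine ⟨fun h => h.2, fun h => ⟨?_, h⟩⟩
    unfold Sf at h
    exact (Finset.mem_filter.1 h).1
  have h3 : ∑ K ∈ Sf G al, rx G al θ K = ∑ K ∈ Sf G al,
      ∑ s ∈ PK G al K, max (2 + 2 * θ - θ * (rn G s : ℝ)) 0 - ∑ K ∈ Sf G al, wx G θ K := by
    unfold rx
    rw [Finset.sum_sub_distrib]
  rw [h3, h1, ← Finset.sum_filter_add_sum_filter_not (Kc G) (fun K => K ∈ Sf G al), h2]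
  ring

/-- **exact master inequality**: only `0 ≤ θ` is used; the weights `yK` are arbitrary -/
theorem masterx15 (hG : G.Geo4 al kp U) {θ Λ R : ℝ} (hθ : 0 ≤ θ)
    {yK : (cg G).ConnectedComponent → ℝ}
    (hR : ∑ K ∈ (Kc G).filter (fun K => K ∉ Sf G al), wx G θ K - ∑ K ∈ Sf G al, rx G al θ K -
        ∑ v ∈ A2 G al, sl G al θ Λ yK v +
        ∑ v ∈ (inN G).filter (fun v => ¬ 8 ≤ uv G al v), ∑ s ∈ Sv G v, yK (ku G s) * Ds G al s +
        ∑ C ∈ WF G, ((4 + 5 * θ) * qa G C - (3 + 4 * θ + Λ) * ka G al C -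
          ∑ s ∈ G.cJ C, yK (ku G s) * sp G al s) +
        ∑ s ∈ (SD G).filter (fun s => s.2 ∉ inN G), yK (ku G s) * Ds G al s -
        ∑ s ∈ G.oJ, yK (ku G s) * sp G al s ≤ R) :
    ((inN G).card : ℝ) ≤ Λ * cost G al + R - (3 + 4 * θ) * (gam G al - cor G al) +
      θ * G.oJ.card - 2 - 4 * θ := by
  refine assemblyx15 G hG hθ ?_
  have h1 := pricesx15 G (al := al) θ
  have h2 := balance15 G hG yK
  rw [sum_heads15 G (al := al), sum_SD15 G (fun s => yK (ku G s) * sp G al s)] at h2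
  have h3 : ∑ s ∈ Pz G al, max (2 + 2 * θ - θ * (rn G s : ℝ)) 0 =
      ∑ v ∈ A2 G al, ∑ s ∈ (Sv G v).filter (fun s => 0 ≤ Ds G al s),
        max (2 + 2 * θ - θ * (rn G s : ℝ)) 0 := by
    unfold Pz
    exact sum_sectors15 G (A2 G al) (fun s => 0 ≤ Ds G al s) _
  have h4 : ∑ v ∈ A2 G al, sl G al θ Λ yK v =
      (3 + 4 * θ + Λ) * ∑ v ∈ A2 G al, (kv G al v - 1) -
      ∑ v ∈ A2 G al, ∑ s ∈ (Sv G v).filter (fun s => 0 ≤ Ds G al s),
        max (2 + 2 * θ - θ * (rn G s : ℝ)) 0 -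
      ∑ v ∈ A2 G al, ∑ s ∈ Sv G v, yK (ku G s) * Ds G al s := by
    unfold sl
    rw [Finset.sum_sub_distrib, Finset.sum_sub_distrib, ← Finset.mul_sum]
  have h6 := sum_kv15 G hG
  have h7 : ∑ C ∈ WF G, ((4 + 5 * θ) * qa G C - (3 + 4 * θ + Λ) * ka G al C -
      ∑ s ∈ G.cJ C, yK (ku G s) * sp G al s) = (4 + 5 * θ) * ∑ C ∈ WF G, qa G C -
      (3 + 4 * θ + Λ) * ∑ C ∈ WF G, ka G al C -
      ∑ C ∈ WF G, ∑ s ∈ G.cJ C, yK (ku G s) * sp G al s := by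
    rw [Finset.sum_sub_distrib, Finset.sum_sub_distrib, ← Finset.mul_sum, ← Finset.mul_sum]
  rw [h7, h4] at hR
  unfold cost
  rw [h1, h3, h6]
  linarith

/-- the slack of a point with `k ≥ 2`, from the weighted vertex table -/
theorem sl_ge15 (hG : G.Geo4 al kp U) {θ y Λ : ℝ} (hθ : 0 ≤ θ) (hy : 0 ≤ y)
    (hy2 : 2 * y + 1 ≤ Λ) (hy4 : 3 + θ + 3 * y ≤ 2 * Λ) {v : V} (hv : v ∈ inN G)
    (hgap : ∀ x ∈ Bv G v, gc G al x ≤ 1) (h8 : 8 ≤ uv G al v)
    {yK : (cg G).ConnectedComponent → ℝ} (hyK : ∀ K ∈ Kc G, 0 ≤ yK K ∧ yK K ≤ y) :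
    - (if uv G al v = 8 ∧ cv G v = 3 then (y + 3 - Λ) + θ * ((ub15 G al v : ℝ) - 6) else 0) ≤
      sl G al θ Λ yK v := by
  have h := vertexD15 G hG hθ hy hy2 hy4 hv hgap h8 (yy := fun s => yK (ku G s))
    fun s hs => hyK _ (ku_Kc15 G ((mem_Sv62 G).1 hs).1)
  unfold sl
  linarith

/-- the slack of a point with `k = 2`, `c = 3` and a sector with negative surplus -/
theorem sl_neg15 (hG : G.Geo4 al kp U) {θ y Λ : ℝ} (hθ : 0 ≤ θ) (hy : 0 ≤ y) {v : V}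
    (hv : v ∈ inN G) (hgap : ∀ x ∈ Bv G v, gc G al x ≤ 1) (hu : uv G al v = 8)
    (hc : cv G v = 3) {yK : (cg G).ConnectedComponent → ℝ}
    (hyK : ∀ K ∈ Kc G, 0 ≤ yK K ∧ yK K ≤ y) (hneg : ∃ s ∈ Sv G v, Ds G al s < 0) :
    Λ - 1 - y + θ * ∑ s ∈ (Sv G v).filter (fun s => 0 ≤ Ds G al s), (rn G s : ℝ) ≤
      sl G al θ Λ yK v := by
  have h := vertexN15 G hG (Λ := Λ) hθ hy hv hgap hu hc (yy := fun s => yK (ku G s))
    (fun s hs => hyK _ (ku_Kc15 G ((mem_Sv62 G).1 hs).1)) hneg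
  unfold sl
  linarith

end

end Pool.Agent.PEN.E5
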