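import Pool.Agent.E5.Shp14
import Pool.Agent.E5.Mx15

/-! # PENNY, all small diameters: the full ears

A full ear is a visit between two outer darts with at most one triangle; there are at most twice as
many as repeated boundary points. -/

set_option autoImplicit false

namespace Pool.Agent.PEN.E5

open Classical UpperHalfPlane
open Pool.Agent.PEN.Cl

noncomputable section

variable {V : Type} (G : Tg V) {al : ℝ} {kp : V → V → ℝ} {U : ℕ → ℝ}

/-- the number of full ears of a black face -/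
def fe14 (K : (cg G).ConnectedComponent) : ℕ := ((fv14 G K).filter (fun x => rn G x ≤ 1)).card

theorem Z_le_fe14 (K : (cg G).ConnectedComponent) : Z14 G K ≤ fe14 G K := by
  unfold Z14 fe14
  refine Finset.card_le_card fun x hx => ?_
  obtain ⟨h1, h2⟩ := Finset.mem_filter.1 hx
  exact Finset.mem_filter.2 ⟨h1, by omega⟩

/-- **the full ears of all black faces** -/
theorem ears_all14 (hG : G.Geo4 al kp U) :
    ∑ K ∈ Kc G, fe14 G K + 2 * G.P.card ≤ 2 * G.oJ.card + 2 * (inN G).card := by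
  have hE : ∑ K ∈ Kc G, fe14 G K =
      ((SD G).filter (fun x => (x ∈ G.oJ ∧ nx G x ∈ G.oJ) ∧ rn G x ≤ 1)).card := by
    rw [Finset.card_eq_sum_card_fiberwise (f := ku G) (t := Kc G)]
    · refine Finset.sum_congr rfl fun K _ => ?_
      unfold fe14 fv14 kS
      rw [Finset.filter_filter, Finset.filter_filter, Finset.filter_filter]
      congr 1
      refine Finset.filter_congr fun x _ => ?_
      tauto
    · intro x hx
      exact Finset.mem_coe.2 (Finset.mem_image_of_mem _
        ((mem_SD42 G).1 (Finset.mem_filter.1 (Finset.mem_coe.1 hx)).1).1)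
  rw [hE]
  have hP : G.P.card ≤ (G.P \ inN G).card + (inN G).card := Finset.card_le_card_sdiff_add_card
  have hPo : ∀ v ∈ G.P \ inN G, ∃ a, (v, a) ∈ G.oJ := by
    intro v hv
    unfold inN at hv
    rw [Finset.mem_sdiff, Finset.mem_filter, not_and, not_not] at hv
    exact hv.2 hv.1
  have hmem : ∀ v a, (v, a) ∈ G.oJ → v ∈ G.P \ inN G := by
    intro v a h
    unfold inN
    rw [Finset.mem_sdiff, Finset.mem_filter, not_and, not_not]
    exact ⟨G.mem _ _ ((mem_oJ66 G).1 h).1, fun _ => ⟨a, h⟩⟩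
  have hnx : ∀ x ∈ (SD G).filter (fun x => (x ∈ G.oJ ∧ nx G x ∈ G.oJ) ∧ rn G x ≤ 1),
      nx G x ∈ G.oJ ∧ x ∈ G.oJ := by
    intro x hx
    obtain ⟨_, ⟨h1, h2⟩, _⟩ := Finset.mem_filter.1 hx
    exact ⟨h2, h1⟩
  have h1 : ((SD G).filter (fun x => (x ∈ G.oJ ∧ nx G x ∈ G.oJ) ∧ rn G x ≤ 1)).card =
      ∑ v ∈ G.P \ inN G, (((SD G).filter (fun x => (x ∈ G.oJ ∧ nx G x ∈ G.oJ) ∧
        rn G x ≤ 1)).filter (fun x => x.2 = v)).card := by
    refine Finset.card_eq_sum_card_fiberwise (f := Prod.snd) fun x hx => ?_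
    exact Finset.mem_coe.2 (hmem _ _ (hnx x (Finset.mem_coe.1 hx)).1)
  have h2 : G.oJ.card = ∑ v ∈ G.P \ inN G, (G.oJ.filter (fun x => x.1 = v)).card := by
    refine Finset.card_eq_sum_card_fiberwise (f := Prod.fst) fun x hx => ?_
    exact Finset.mem_coe.2 (hmem x.1 x.2 (Finset.mem_coe.1 hx))
  have h3 : ∑ v ∈ G.P \ inN G, ((((SD G).filter (fun x => (x ∈ G.oJ ∧ nx G x ∈ G.oJ) ∧
        rn G x ≤ 1)).filter (fun x => x.2 = v)).card + 2) ≤
      ∑ v ∈ G.P \ inN G, 2 * (G.oJ.filter (fun x => x.1 = v)).card := by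
    refine Finset.sum_le_sum fun v hv => ?_
    have h4 : 1 ≤ (G.oJ.filter (fun x => x.1 = v)).card := by
      obtain ⟨a, ha⟩ := hPo v hv
      rw [Nat.one_le_iff_ne_zero, Ne, Finset.card_eq_zero]
      intro h0
      have : (v, a) ∈ G.oJ.filter (fun x => x.1 = v) := Finset.mem_filter.2 ⟨ha, rfl⟩
      rw [h0] at this
      exact Finset.notMem_empty _ this
    have h5 : (((SD G).filter (fun x => (x ∈ G.oJ ∧ nx G x ∈ G.oJ) ∧ rn G x ≤ 1)).filter
        (fun x => x.2 = v)).card ≤ (G.oJ.filter (fun x => x.1 = v)).card := by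
      refine Finset.card_le_card_of_injOn (nx G) ?_ ?_
      · intro x hx
        rw [Finset.mem_coe, Finset.mem_filter] at hx
        exact Finset.mem_coe.2 (Finset.mem_filter.2 ⟨(hnx x hx.1).1, hx.2⟩)
      · intro x hx y hy h
        rw [Finset.mem_coe, Finset.mem_filter, Finset.mem_filter] at hx hy
        exact nx_inj42 G hG hx.1.1 hy.1.1 h
    by_cases hne : (((SD G).filter (fun x => (x ∈ G.oJ ∧ nx G x ∈ G.oJ) ∧ rn G x ≤ 1)).filter
        (fun x => x.2 = v)).Nonempty
    · obtain ⟨⟨c, v'⟩, hx⟩ := hne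
      obtain ⟨hx1, hx2⟩ := Finset.mem_filter.1 hx
      dsimp only at hx2
      subst hx2
      obtain ⟨h6, h7⟩ := hnx _ hx1
      have h8 := ear_two14 G hG h7 h6 (Finset.mem_filter.1 hx1).2.2
      omega
    · rw [Finset.not_nonempty_iff_eq_empty] at hne
      rw [hne, Finset.card_empty]
      omega
  rw [Finset.sum_add_distrib, ← h1, Finset.sum_const, smul_eq_mul, ← Finset.mul_sum, ← h2] at h3
  omega

/-- the full ears in real numbers -/
theorem ears_real14 (hG : G.Geo4 al kp U) :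
    ∑ K ∈ Kc G, (fe14 G K : ℝ) ≤ 2 * (G.oJ.card + (inN G).card - G.P.card) := by
  have h := ears_all14 G hG
  have h' : ((∑ K ∈ Kc G, fe14 G K : ℕ) : ℝ) + 2 * G.P.card ≤
      2 * G.oJ.card + 2 * (inN G).card := by exact_mod_cast h
  rw [Nat.cast_sum] at h'
  linarith

/-- a black face without white side: all its visits are full, and it has as many sides as
triangles and ears -/
theorem ao_cost14 {K : (cg G).ConnectedComponent} (hG : G.Geo4 al kp U) (h : ao14 G K) :
    wx G 1 K + F14 G K + Z14 G K ≤ 3 * fe14 G K := by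
  have hfv : fv14 G K = kS G K := by
    unfold fv14
    refine Finset.filter_true_of_mem fun x hx => ⟨h x hx, h _ (nx_kS89 G hG hx)⟩
  have h1 : er14 G K = (fv14 G K).filter (fun x => rn G x ≤ 1) := by
    unfold er14
    rw [hfv]
  have h2 := ears14 G K
  rw [h1] at h2
  have h3 := sum_rnK62 G hG K
  have h4 : 3 * F14 G K ≤ ∑ x ∈ kS G K, rn G x := by
    unfold F14
    rw [hfv, mul_comm, ← smul_eq_mul, ← Finset.sum_const]
    calc ∑ x ∈ (kS G K).filter (fun x => 3 ≤ rn G x), 3
        ≤ ∑ x ∈ (kS G K).filter (fun x => 3 ≤ rn G x), rn G x :=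
          Finset.sum_le_sum fun x hx => (Finset.mem_filter.1 hx).2
      _ ≤ ∑ x ∈ kS G K, rn G x := Finset.sum_le_sum_of_subset (Finset.filter_subset _ _)
  have h5 := Z_le_fe14 G K
  have h6 : F14 G K ≤ tK G K := by omega
  have h7 : (kS G K).card ≤ tK G K + fe14 G K := h2
  have h6' : (F14 G K : ℝ) ≤ tK G K := by exact_mod_cast h6
  have h7' : ((kS G K).card : ℝ) ≤ tK G K + fe14 G K := by exact_mod_cast h7
  have h5' : (Z14 G K : ℝ) ≤ fe14 G K := by exact_mod_cast h5
  unfold wx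
  linarith

end

end Pool.Agent.PEN.E5
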