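import Pool.Agent.E5.Asm15
import Pool.Agent.E5.Bs14
import Pool.Agent.E5.Ea14
import Pool.Agent.E5.Bd89
import Pool.Agent.E5.Bp39

/-! # PENNY, all small diameters: the result row of set B6 from the rows

One row for every black face, one for every white class, one for every point with `k ≥ 2`. -/

set_option autoImplicit false

namespace Pool.Agent.PEN.E5

open Classical UpperHalfPlane
open Pool.Agent.PEN.Cl

noncomputable section

variable {V : Type} (G : Tg V) {al : ℝ} {kp : V → V → ℝ} {U : ℕ → ℝ}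

theorem fl_exc14 (al : ℝ) (C : G.adj.ConnectedComponent) : fl14 G al C = exc G al C := rfl

/-- three times the full ears are paid by the repeated boundary points -/
theorem three_ears14 (hG : G.Geo4 al kp U) :
    ∑ K ∈ Kc G, 3 * (fe14 G K : ℝ) ≤ 9 * (G.oJ.card + (inN G).card - G.P.card) := by
  have h := ears_real14 G hG
  have h0 : (0 : ℝ) ≤ ∑ K ∈ Kc G, (fe14 G K : ℝ) :=
    Finset.sum_nonneg fun K _ => Nat.cast_nonneg _
  rw [← Finset.mul_sum]
  linarith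

/-- **the result row of set B6 from the rows**: any weights `1 ≤ yK`, payments `w` of the big
sides, payments `p` of the leaf corners, and residues whose sum is not positive -/
theorem row_rows14 (hG : G.Geo4 al kp U) (h1 : ∀ x ∈ iJ G, gc G al x ≤ 1)
    {yK : (cg G).ConnectedComponent → ℝ} (hyK : ∀ K ∈ Kc G, 1 ≤ yK K)
    {w p : V × V → ℝ} {rK : (cg G).ConnectedComponent → ℝ} {rC : G.adj.ConnectedComponent → ℝ}
    {rV : V → ℝ}
    (hK : ∀ K ∈ Kc G, wx G 1 K + yK K * (Lv G K).card + F14 G K + Z14 G K ≤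
      ∑ s ∈ PK G al K, max (4 - (rn G s : ℝ)) 0 +
      ∑ x ∈ (kS G K).filter (fun x => x ∈ BC G), w x + ∑ x ∈ Lv G K, p (sg G x) +
      11 / 2 * uK14 G al K - (yK K - 1) * (uK14 G al K - oK14 G K) + 3 * fe14 G K + rK K)
    (hC : ∀ C ∈ WF G, ∑ x ∈ G.cJ C, w x + ∑ x ∈ (G.cJ C).filter (fun x => x.1 ∈ lfN G), p x ≤
      11 * ka G al C - 6 * qa G C + ∑ s ∈ G.cJ C, (yK (ku G s) - 1) * sp G al s + rC C)
    (hV : ∀ v ∈ A2 G al, ∑ s ∈ (Sv G v).filter (fun s => 0 ≤ Ds G al s),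
        max (4 - (rn G s : ℝ)) 0 + ∑ s ∈ Sv G v, yK (ku G s) * Ds G al s ≤
      13 * (kv G al v - 1) - 2 * ep al + rV v)
    (h7 : ∀ v ∈ inN G, uv G al v = 7 → cv G v ≠ 1 →
      ∑ s ∈ Sv G v, yK (ku G s) * Ds G al s + 2 * ep al ≤ rV v)
    (hr : ∑ K ∈ Kc G, rK K + ∑ C ∈ WF G, rC C + ∑ v ∈ A2 G al, rV v +
      ∑ v ∈ (inN G).filter (fun v => uv G al v = 7 ∧ cv G v ≠ 1), rV v ≤ 0) :
    Row14 G al := by
  have hmx : ∀ s : V × V, max (2 + 2 * (1 : ℝ) - 1 * (rn G s : ℝ)) 0 =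
      max (4 - (rn G s : ℝ)) 0 := fun s => by norm_num
  have hA := rows15 G hG (θ := 1) (y0 := 1) (Λ := 6) (yK := yK) (w := w) (p := p)
    (rK := fun K => rK K + 3 * fe14 G K - (F14 G K + Z14 G K - 11 / 2 * uK14 G al K +
      (yK K - 1) * (uK14 G al K - oK14 G K))) (rC := rC) (rV := rV)
    (fun K hK' => by
      have := hK K hK'
      simp only [hmx]
      linarith)
    (fun C hC' => by
      have := hC C hC'
      norm_num
      linarith)
    (fun v hv => by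
      have := hV v hv
      unfold sl
      simp only [hmx]
      linarith)
    (fun v hv h2 h3 => by
      have := h7 v hv h2 h3
      norm_num
      linarith)
  refine row_int14 G hG h1 hyK ?_
  have e1 : ∑ K ∈ Kc G, (rK K + 3 * fe14 G K - (F14 G K + Z14 G K - 11 / 2 * uK14 G al K +
      (yK K - 1) * (uK14 G al K - oK14 G K))) = ∑ K ∈ Kc G, rK K +
      ∑ K ∈ Kc G, 3 * (fe14 G K : ℝ) - ∑ K ∈ Kc G, ((F14 G K : ℝ) + Z14 G K -
        11 / 2 * uK14 G al K + (yK K - 1) * (uK14 G al K - oK14 G K)) := by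
    rw [Finset.sum_sub_distrib, Finset.sum_add_distrib]
  have e2 : ∑ C ∈ WF G, (9 * qa G C - 13 * ka G al C -
      ∑ s ∈ G.cJ C, yK (ku G s) * sp G al s + 2 * fl14 G al C +
      ∑ x ∈ (G.cJ C).filter (fun x => x.1 ∈ lfN G), ((un G al x : ℝ) - 2)) =
      ∑ C ∈ WF G, ((4 + 5 * 1 - 3 * 1) * qa G C - (3 + 4 * 1 + 6 - 2 * 1) * ka G al C -
        ∑ s ∈ G.cJ C, (yK (ku G s) - 1) * sp G al s +
        1 * ∑ x ∈ (G.cJ C).filter (fun x => x.1 ∈ lfN G), ((un G al x : ℝ) - 2)) := by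
    refine Finset.sum_congr rfl fun C hC' => ?_
    have f1 := sum_sp_exc15 G hG ((mem_WF89 G).1 hC').1
    have f2 : ∑ s ∈ G.cJ C, (yK (ku G s) - 1) * sp G al s =
        ∑ s ∈ G.cJ C, yK (ku G s) * sp G al s - ∑ s ∈ G.cJ C, sp G al s := by
      rw [← Finset.sum_sub_distrib]
      exact Finset.sum_congr rfl fun s _ => by ring
    rw [f2, f1, fl_exc14]
    ring
  have e3 := three_ears14 G hG
  rw [e1] at hA
  rw [e2]
  simp only [hmx] at hA
  norm_num at hA ⊢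
  linarith

/-- the payments of the weak big sides -/
def w14 (al : ℝ) (x : V × V) : ℝ := if x ∈ BC G ∧ sp G al x < 0 then 4 else 0

theorem w_kS14 (K : (cg G).ConnectedComponent) :
    ∑ x ∈ (kS G K).filter (fun x => x ∈ BC G), w14 G al x = 4 * ((WsK G al K).card : ℝ) := by
  unfold w14 WsK
  rw [Finset.sum_filter, Finset.card_filter]
  push_cast
  rw [Finset.mul_sum]
  refine Finset.sum_congr rfl fun x _ => ?_
  by_cases h1 : x ∈ BC G
  · by_cases h2 : sp G al x < 0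
    · rw [if_pos h1, if_pos ⟨h1, h2⟩, if_pos ⟨h1, h2⟩, mul_one]
    · rw [if_pos h1, if_neg fun h => h2 h.2, if_neg fun h => h2 h.2, mul_zero]
  · rw [if_neg h1, if_neg fun h => h1 h.1, mul_zero]

theorem w_cJ14 {C : G.adj.ConnectedComponent} (hC : C ∈ WF G) :
    ∑ x ∈ G.cJ C, w14 G al x = 4 * ((Wk G al C).card : ℝ) := by
  unfold w14 Wk
  rw [Finset.card_filter]
  push_cast
  rw [Finset.mul_sum]
  refine Finset.sum_congr rfl fun x hx => ?_
  by_cases h2 : sp G al x < 0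
  · obtain ⟨h3, h4⟩ := cJ_iJ51 G ((mem_WF89 G).1 hC).1 hx
    have h6 : x ∈ BC G := by
      refine (mem_BC89 G).2 ⟨h3, fun h => ?_⟩
      have h5 := (tt_iff89 G h3).1 h
      rw [h4] at h5
      obtain ⟨y, hy⟩ := ((mem_WF89 G).1 hC).2
      rw [h5] at hy
      exact absurd hy (Finset.notMem_empty y)
    rw [if_pos ⟨h6, h2⟩, if_pos h2, mul_one]
  · rw [if_neg fun h => h2 h.2, if_neg h2, mul_zero]

/-- **the result row of set B6 from the rows**, all weights one, four for each weak side -/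
theorem row_weak14 (hG : G.Geo4 al kp U) (h1 : ∀ x ∈ iJ G, gc G al x ≤ 1)
    {p : V × V → ℝ} {rK : (cg G).ConnectedComponent → ℝ} {rC : G.adj.ConnectedComponent → ℝ}
    {rV : V → ℝ}
    (hK : ∀ K ∈ Kc G, wx G 1 K + (Lv G K).card + F14 G K + Z14 G K ≤
      ∑ s ∈ PK G al K, max (4 - (rn G s : ℝ)) 0 + 4 * (WsK G al K).card +
      ∑ x ∈ Lv G K, p (sg G x) + 11 / 2 * uK14 G al K + 3 * fe14 G K + rK K)
    (hC : ∀ C ∈ WF G, 4 * ((Wk G al C).card : ℝ) +
      ∑ x ∈ (G.cJ C).filter (fun x => x.1 ∈ lfN G), p x ≤ 11 * ka G al C - 6 * qa G C + rC C)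
    (hV : ∀ v ∈ A2 G al, ∑ s ∈ (Sv G v).filter (fun s => 0 ≤ Ds G al s),
        max (4 - (rn G s : ℝ)) 0 + ∑ s ∈ Sv G v, Ds G al s ≤
      13 * (kv G al v - 1) - 2 * ep al + rV v)
    (h7 : ∀ v ∈ inN G, uv G al v = 7 → cv G v ≠ 1 → - ((cv G v : ℝ) - 2) ≤ rV v)
    (hr : ∑ K ∈ Kc G, rK K + ∑ C ∈ WF G, rC C + ∑ v ∈ A2 G al, rV v +
      ∑ v ∈ (inN G).filter (fun v => uv G al v = 7 ∧ cv G v ≠ 1), rV v ≤ 0) :
    Row14 G al := by
  refine row_rows14 G hG h1 (yK := fun _ => 1) (fun _ _ => le_rfl) (w := w14 G al) (p := p)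
    (rK := rK) (rC := rC) (rV := rV) ?_ ?_ ?_ ?_ hr
  · intro K hK'
    have := hK K hK'
    rw [w_kS14]
    linarith
  · intro C hC'
    have h2 := hC C hC'
    rw [w_cJ14 G hC']
    have h3 : ∑ s ∈ G.cJ C, ((1 : ℝ) - 1) * sp G al s = 0 :=
      Finset.sum_eq_zero fun s _ => by rw [sub_self, zero_mul]
    rw [h3]
    linarith
  · intro v hv
    have h2 := hV v hv
    have h3 : ∑ s ∈ Sv G v, (1 : ℝ) * Ds G al s = ∑ s ∈ Sv G v, Ds G al s :=
      Finset.sum_congr rfl fun s _ => one_mul _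
    rw [h3]
    exact h2
  · intro v hv h2 h3
    have h4 := seven15 G hG (y0 := 1) (yK := fun _ => 1) (fun _ _ => le_rfl) hv h2 h3
    have h5 := h7 v hv h2 h3
    linarith

/-- **the result row of set B6**: what the white classes need beyond their own row is paid by the
negative sectors with a triangle at the points with `k ≥ 2`, and by the points with `k = 1` and at
least three big corners -/
theorem row_need14 (hG : G.Geo4 al kp U) (h1 : ∀ x ∈ iJ G, gc G al x ≤ 1)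
    {p : V × V → ℝ} {rC : G.adj.ConnectedComponent → ℝ}
    (hK : ∀ K ∈ Kc G, wx G 1 K + (Lv G K).card + F14 G K + Z14 G K ≤
      ∑ s ∈ PK G al K, max (4 - (rn G s : ℝ)) 0 + 4 * (WsK G al K).card +
      ∑ x ∈ Lv G K, p (sg G x) + 11 / 2 * uK14 G al K + 3 * fe14 G K)
    (hC : ∀ C ∈ WF G, 4 * ((Wk G al C).card : ℝ) +
      ∑ x ∈ (G.cJ C).filter (fun x => x.1 ∈ lfN G), p x ≤ 11 * ka G al C - 6 * qa G C + rC C)
    (hr : ∑ C ∈ WF G, rC C ≤ ∑ v ∈ A2 G al, ((Ng39 G al v).card : ℝ) +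
      ∑ v ∈ (inN G).filter (fun v => uv G al v = 7 ∧ cv G v ≠ 1), ((cv G v : ℝ) - 2)) :
    Row14 G al := by
  have hdis : ∀ v ∈ A2 G al, ¬ (uv G al v = 7 ∧ cv G v ≠ 1) := by
    intro v hv h
    have := (Finset.mem_filter.1 hv).2
    omega
  refine row_weak14 G hG h1 (p := p) (rK := fun _ => 0) (rC := rC)
    (rV := fun v => if uv G al v = 7 ∧ cv G v ≠ 1 then - ((cv G v : ℝ) - 2) else
      - ((Ng39 G al v).card : ℝ)) ?_ hC ?_ ?_ ?_
  · intro K hK'
    have := hK K hK'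
    linarith
  · intro v hv
    obtain ⟨hv1, hv2⟩ := Finset.mem_filter.1 hv
    have h := vertexN39 G hG h1 (yy := fun _ => 1) hv1 hv2 (fun _ _ => le_rfl)
      (fun _ _ => by norm_num) (fun _ _ _ => le_rfl)
    have h3 : ∑ s ∈ Sv G v, (1 : ℝ) * Ds G al s = ∑ s ∈ Sv G v, Ds G al s :=
      Finset.sum_congr rfl fun s _ => one_mul _
    rw [h3] at h
    rw [if_neg (hdis v hv)]
    linarith
  · intro v _ h2 h3
    rw [if_pos ⟨h2, h3⟩]
  · have e1 : ∑ v ∈ A2 G al, (if uv G al v = 7 ∧ cv G v ≠ 1 then - ((cv G v : ℝ) - 2) else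
        - ((Ng39 G al v).card : ℝ)) = - ∑ v ∈ A2 G al, ((Ng39 G al v).card : ℝ) := by
      rw [← Finset.sum_neg_distrib]
      exact Finset.sum_congr rfl fun v hv => if_neg (hdis v hv)
    have e2 : ∑ v ∈ (inN G).filter (fun v => uv G al v = 7 ∧ cv G v ≠ 1),
        (if uv G al v = 7 ∧ cv G v ≠ 1 then - ((cv G v : ℝ) - 2) else
        - ((Ng39 G al v).card : ℝ)) = - ∑ v ∈ (inN G).filter (fun v => uv G al v = 7 ∧
          cv G v ≠ 1), ((cv G v : ℝ) - 2) := by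
      rw [← Finset.sum_neg_distrib]
      exact Finset.sum_congr rfl fun v hv => if_pos (Finset.mem_filter.1 hv).2
    rw [e1, e2, Finset.sum_const_zero]
    linarith

end

end Pool.Agent.PEN.E5
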