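import Pool.Agent.E5.Sm14
import Pool.Agent.P4.PentAdj39

/-! # PENNY, all small diameters: the number of sharp boundary darts

At a boundary point the outer angle is at least `α`, and the angles at the boundary points have a
fixed sum; this bounds the number of sharp boundary darts. -/

set_option autoImplicit false

namespace Pool.Agent.PEN.E5

open Classical UpperHalfPlane
open Pool.Agent.PEN.Cl

noncomputable section

section C
variable {G : Tg ℍ} {d : ℝ}

/-- **the angle of a sector leaves at least `α` outside** -/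
theorem secA_out69 (hD : DelG G d) (hS : Sep d G.P) (hR : G.Rot9) {x : ℍ × ℍ} (hx : x ∈ G.iB)
    (h1 : G.secA x ≤ 2 * Real.pi) : G.secA x ≤ 2 * Real.pi - alpha d := by
  have hd := hD.hd
  obtain ⟨p, q⟩ := x
  obtain ⟨j, e, hj, hnx⟩ := nx_fact9 G hR hx
  have hne : ∀ i ≤ j + 1, Dv q ((G.bk q)^[i] p) ≠ 0 := by
    intro i hi
    rw [Dv_eq49]
    apply Pool.Agent.Penny.disc_ne
    rcases i with _ | i
    · exact G.ne _ _ (G.sub (hj 0 (by omega)).1)
    · rw [Function.iterate_succ_apply']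
      exact (G.ne _ _ (G.sub (inn_bk9 G (hj i (by omega))).1.1)).symm
  have h2 := arg_chain9 (fun i => Dv q ((G.bk q)^[i] p)) (j + 1) hne
  have h3 : G.secA (p, q) = ∑ i ∈ Finset.range (j + 1),
      Complex.arg (Dv q ((G.bk q)^[i] p) / Dv q ((G.bk q)^[i + 1] p)) := by
    rw [sec_sum9 G hR hx e hj]
    apply Finset.sum_congr rfl
    intro i hi
    have hi' := Finset.mem_range.1 hi
    obtain ⟨h4, h5⟩ := inn_bk9 G (hj i (by omega))
    rw [Function.iterate_succ_apply', hD.th _ _ h4.1, h5]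
    rfl
  rw [← h3] at h2
  obtain ⟨a, ha⟩ : ∃ a, a = (G.bk q)^[j + 1] p := ⟨_, rfl⟩
  have e' : G.nx (p, q) = (q, a) := by rw [e, ha]
  have hcos : Real.cos (G.secA (p, q)) = Real.cos (ang q a p) := by
    rw [← Real.Angle.cos_coe, h2, Real.Angle.cos_coe, ha]
    rfl
  rw [e'] at hnx
  have c1 := (iB_oJ9 G hx).1
  have c2 := (iB_oJ9 G hnx).1
  have d1 : dist q p = d := by rw [dist_comm]; exact hD.con _ _ c1
  have d2 : dist q a = d := hD.con _ _ c2
  have m1 := (mem_iB9 G).1 hx
  have m2 := (mem_iB9 G).1 hnx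
  have hap : a ≠ p := by
    rintro rfl
    exact m1.2 m2.1
  have p1 : p ∈ G.P := G.mem _ _ (G.sub m1.1.1)
  have a1 : a ∈ G.P := G.mem _ _ (G.symm _ _ (G.sub m2.1.1))
  have hsep := hS a a1 p p1 hap
  have np : p ≠ q := by
    rintro rfl
    rw [dist_self] at d1
    linarith
  have na : a ≠ q := by
    rintro rfl
    rw [dist_self] at d2
    linarith
  have l1 := cosh_law na np
  rw [d1, d2] at l1
  have l2 : Real.cosh d = Real.cosh d * Real.cosh d - Real.sinh d * Real.sinh d *
    Real.cos (alpha d) := cos_alpha_law39 hd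
  have hs := Real.sinh_pos_iff.2 hd
  have hss := mul_pos hs hs
  have l3 : Real.cosh d ≤ Real.cosh (dist a p) := by
    rw [Real.cosh_le_cosh, abs_of_pos hd, abs_of_nonneg dist_nonneg]
    exact hsep
  have l4 : Real.cos (ang q a p) ≤ Real.cos (alpha d) := by
    by_contra h
    push Not at h
    have := mul_lt_mul_of_pos_left h hss
    linarith
  by_contra hcon
  push Not at hcon
  have l5 : Real.cos (alpha d) < Real.cos (2 * Real.pi - G.secA (p, q)) := by
    have hpi := Real.pi_pos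
    have ha1 : alpha d ≤ Real.pi := Real.arccos_le_pi _
    exact Real.cos_lt_cos_of_nonneg_of_le_pi (by linarith) ha1 (by linarith)
  rw [Real.cos_two_pi_sub, hcos] at l5
  linarith

variable {kp : ℍ → ℍ → ℝ} {U : ℕ → ℝ}

/-- the angle of a sector is at most a full turn -/
theorem secA_tot69 {al : ℝ} (hG : G.Geo4 al kp U) (hH : HullT G) {x : ℍ × ℍ} (hx : x ∈ G.iB) :
    G.secA x ≤ 2 * Real.pi := by
  have hpi := Real.pi_pos
  have hv : x.2 ∈ G.P := G.mem _ _ (G.symm _ _ (G.sub ((mem_iB9 G).1 hx).1.1))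
  have hsub : G.secs x ⊆ G.Dp.filter (fun y => y.1 = x.2) := by
    intro y hy
    unfold Tg.secs at hy
    obtain ⟨h1, h2, _⟩ := Finset.mem_filter.1 hy
    exact Finset.mem_filter.2 ⟨((mem_iD9 G).1 h1).1, h2⟩
  have h1 : G.secA x ≤ ∑ y ∈ G.Dp.filter (fun y => y.1 = x.2), G.th y.1 y.2 := by
    unfold Tg.secA
    refine Finset.sum_le_sum_of_subset_of_nonneg hsub fun y hy _ => ?_
    exact (G.thpos _ _ (Finset.mem_filter.1 hy).1).le
  by_cases hb : G.bd x.2
  · have h2 := hH x.2 hv hb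
    linarith
  · have h2 := hG.tot x.2 hv hb
    have h3 : G.Dp.filter (fun y => y.1 = x.2) = G.D.filter (fun y => y.1 = x.2) := by
      ext ⟨y1, y2⟩
      rw [Finset.mem_filter, Finset.mem_filter]
      constructor
      · rintro ⟨h3, h4⟩
        exact ⟨G.sub h3, h4⟩
      · rintro ⟨h3, h4⟩
        simp only at h4
        subst h4
        exact ⟨G.int1 _ _ hv hb h3, rfl⟩
    rw [h3, h2] at h1
    exact h1

end C

section D
variable {V : Type} (G : Tg V) {al : ℝ} {kp : V → V → ℝ} {U : ℕ → ℝ}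

/-- the sectors contain all inner darts at the boundary points -/
theorem sum_secA69 (hG : G.Geo4 al kp U) :
    ∑ x ∈ G.iB, G.secA x = ∑ x ∈ (iJ G).filter (fun x => x.1 ∉ inN G), TH G x := by
  have hR := rot9_4 G hG
  have hout : ∀ y ∈ G.iD, (y.1 ∉ inN G ↔ ∃ a, (y.1, a) ∈ G.oJ) := by
    intro y hy
    have hv : y.1 ∈ G.P := G.mem _ _ (G.sub ((mem_iD9 G).1 hy).1)
    unfold inN
    rw [Finset.mem_filter]
    tauto
  have h1 := sum_gp9 G hR (fun y => y.1 ∉ inN G) (fun _ _ => Iff.rfl)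
  have h2 : ∀ x, G.gp x = TH G x := by
    intro x
    have h : G.gset x = gp G x := by
      unfold Tg.gset gp
      apply Finset.filter_congr
      rintro ⟨v, a⟩ hy
      rw [mem_iD27] at hy
      constructor
      · rintro ⟨h1, _, h3⟩
        exact ⟨h1, h3⟩
      · rintro ⟨h1, h3⟩
        refine ⟨h1, ?_, h3⟩
        simp only at h1
        rw [← h1]
        exact hasO9 G hR hy
    unfold Tg.gp TH
    rw [h]
  have h3 : G.iJ = iJ G := by
    ext x
    rw [mem_iJ9, mem_iJ71]
  rw [h3] at h1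
  have h4 : ∑ x ∈ (iJ G).filter (fun x => x.1 ∉ inN G), TH G x =
      ∑ y ∈ G.iD.filter (fun y => y.1 ∉ inN G), G.th y.1 y.2 := by
    refine Eq.trans (Finset.sum_congr ?_ fun x _ => (h2 x).symm)
      (h1.trans (Finset.sum_congr ?_ fun _ _ => rfl))
    · ext x
      simp only [Finset.mem_filter]
    · ext x
      simp only [Finset.mem_filter]
  rw [h4]
  unfold Tg.secA
  rw [← Finset.sum_fiberwise_of_maps_to (s := G.iD.filter (fun y => y.1 ∉ inN G)) (t := G.iB)
    (g := G.hd)]
  · refine Finset.sum_congr rfl fun x hx => Finset.sum_congr ?_ fun _ _ => rfl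
    ext y
    unfold Tg.secs
    rw [Finset.mem_filter, Finset.mem_filter, Finset.mem_filter]
    constructor
    · rintro ⟨h4, h5, h6⟩
      refine ⟨⟨h4, (hout y h4).2 ?_⟩, h6⟩
      rw [h5]
      exact ⟨_, (iB_oJ9 G hx).2⟩
    · rintro ⟨⟨h4, h5⟩, h6⟩
      refine ⟨h4, ?_, h6⟩
      obtain ⟨c, hc⟩ := (hout y h4).1 h5
      obtain ⟨y1, y2⟩ := y
      rw [← h6]
      exact (hd_mem9 G hR hc ((mem_iD9 G).1 h4)).2.symm
  · rintro ⟨y1, y2⟩ hy
    obtain ⟨h4, h5⟩ := Finset.mem_filter.1 hy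
    obtain ⟨c, hc⟩ := (hout _ h4).1 h5
    exact (hd_mem9 G hR hc ((mem_iD9 G).1 h4)).1

/-- the angles at the boundary points -/
theorem sum_TH_out69 (hG : G.Geo4 al kp U) :
    ∑ x ∈ (iJ G).filter (fun x => x.1 ∉ inN G), TH G x =
      al * (3 * G.oJ.card - 6 - 3 * sE G - 6 * (G.oJ.card + (inN G).card - G.P.card) -
        cor G al) := by
  have hal := W4.al_pos71 G hG
  have h1 := turn14 G hG
  have h2 : gam G al = Uo14 G al -
      (∑ x ∈ (iJ G).filter (fun x => x.1 ∉ inN G), TH G x) / al := by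
    unfold gam gc Uo14
    rw [Finset.sum_sub_distrib, Nat.cast_sum, Finset.sum_div]
  rw [h2] at h1
  have h3 : (∑ x ∈ (iJ G).filter (fun x => x.1 ∉ inN G), TH G x) / al =
      3 * G.oJ.card - 6 - 3 * sE G - 6 * (G.oJ.card + (inN G).card - G.P.card) - cor G al := by
    unfold sE
    linarith
  rw [div_eq_iff hal.ne'] at h3
  linarith

end D

/-- **the number of sharp boundary darts** -/
theorem shp_bound69 {G : Tg ℍ} {d : ℝ} {kp : ℍ → ℍ → ℝ} {U : ℕ → ℝ}
    (hG : G.Geo4 (alpha d) kp U) (hD : DelG G d) (hH : HullT G) (hS : Sep d G.P) :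
    (3 + ep (alpha d)) * ((G.shp (alpha d)).card : ℝ) ≤ (2 + ep (alpha d)) * G.oJ.card + 6 +
      3 * sE G + 6 * (G.oJ.card + (inN G).card - G.P.card) + cor G (alpha d) := by
  have hR := rot9_4 G hG
  have hal := W4.al_pos71 G hG
  have hep := ep_pos89 G hG
  have h1 := sum_secA69 G hG
  rw [sum_TH_out69 G hG] at h1
  have h2 : ∑ x ∈ G.iB, G.secA x ≤ ∑ x ∈ G.iB, if x ∈ G.shp (alpha d) then 2 * alpha d
      else (5 + ep (alpha d)) * alpha d := by
    refine Finset.sum_le_sum fun x hx => ?_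
    split_ifs with h
    · unfold Tg.shp at h
      have h3 := (Finset.mem_filter.1 h).2
      obtain ⟨_, h4⟩ := secA_le9 G hR hal hx
      have h5 : ((G.secW (alpha d) x : ℕ) : ℝ) ≤ 2 := by exact_mod_cast h3
      nlinarith
    · have h3 := secA_out69 hD hS hR hx (secA_tot69 hG hH hx)
      have h4 : (5 + ep (alpha d)) * alpha d = 2 * Real.pi - alpha d := by
        unfold ep
        field_simp
        ring
      rw [h4]
      exact h3
  have h3 : ∑ x ∈ G.iB, (if x ∈ G.shp (alpha d) then 2 * alpha d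
      else (5 + ep (alpha d)) * alpha d) =
      (G.iB.card : ℝ) * ((5 + ep (alpha d)) * alpha d) -
        (G.shp (alpha d)).card * ((3 + ep (alpha d)) * alpha d) := by
    have e1 : ∀ x ∈ G.iB, (if x ∈ G.shp (alpha d) then 2 * alpha d
      else (5 + ep (alpha d)) * alpha d) = (5 + ep (alpha d)) * alpha d -
        (if x ∈ G.shp (alpha d) then (3 + ep (alpha d)) * alpha d else 0) := by
      intro x _
      split_ifs <;> ring
    rw [Finset.sum_congr rfl e1, Finset.sum_sub_distrib, Finset.sum_const, nsmul_eq_mul,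
      ← Finset.sum_filter, Finset.sum_const, nsmul_eq_mul]
    congr 3
    have : G.iB.filter (fun x => x ∈ G.shp (alpha d)) = G.shp (alpha d) := by
      unfold Tg.shp
      ext x
      simp only [Finset.mem_filter]
      tauto
    rw [this]
  have h4 : (G.iB.card : ℝ) ≤ G.oJ.card := by
    have h5 : G.iB.card ≤ G.oJ.card := by
      apply Finset.card_le_card_of_injOn (fun x => (x.2, x.1))
      · intro x hx
        exact Finset.mem_coe.2 (iB_oJ9 G (Finset.mem_coe.1 hx)).2
      · rintro ⟨a, b⟩ _ ⟨c, e⟩ _ h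
        exact Prod.ext (congrArg Prod.snd h) (congrArg Prod.fst h)
    exact_mod_cast h5
  rw [h3, h1] at h2
  have h5 : (G.iB.card : ℝ) * ((5 + ep (alpha d)) * alpha d) ≤
      G.oJ.card * ((5 + ep (alpha d)) * alpha d) :=
    mul_le_mul_of_nonneg_right h4 (mul_nonneg (by linarith) hal.le)
  have h6 : alpha d * ((3 + ep (alpha d)) * ((G.shp (alpha d)).card : ℝ)) ≤
      alpha d * ((2 + ep (alpha d)) * G.oJ.card + 6 +
      3 * sE G + 6 * (G.oJ.card + (inN G).card - G.P.card) + cor G (alpha d)) := by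
    linarith
  exact le_of_mul_le_mul_left h6 hal

end

end Pool.Agent.PEN.E5
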