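import Pool.Agent.E5.Fin7_71
import Pool.Agent.E5.N860_51
import Pool.Agent.E5.Nr69
import Pool.Agent.E5.Sb69
import Pool.Agent.E5.Cr89b
import Pool.Agent.E5.Rw14

/-! # PENNY, version 7: Q1 for at most 860 points or `d ≥ 0.15`, from the row of set B6 -/

set_option autoImplicit false

namespace Pool.Agent.PEN.E5

open Classical UpperHalfPlane
open Pool.Agent.PEN.Cl

noncomputable section

/-- **version 7** from the row: Q1 if `n ≤ 860` or `3 / 20 ≤ d` -/
theorem q1_v7_56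
    (hrow : ∀ d : ℝ, 0 < d → d < 89 / 250 → ∀ G : Tg ℍ, G.Geo4 (alpha d) kap (Ust69 d) →
      DelG G d → HullT G → Sep d G.P → Row14 G (alpha d))
    {e d : ℝ} (he : 0 < e) (ha : alpha e = 2 * Real.pi / 7) (hd : 0 < d) {n : ℕ}
    (h : n ≤ 860 ∨ 3 / 20 ≤ d) : eD d n ≤ eD e n := by
  refine q1_v7_of71 (fun d G => Row14 G (alpha d)) 860 (3 / 20)
    (fun d hd hd2 G hG hD hH hS _ => hrow d hd hd2 G hG hD hH hS) ?_ ?_ he ha hd h
  · intro d hd hd2 G hG hD hH hS hn hN hR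
    rcases le_or_gt d (3 / 20) with h3 | h3
    · exact darts_860_51 hd h3 hG hn hN (Nat.cast_nonneg _) (shp_bound69 hG hD hH hS) hR
    · exact hU69 hd h3.le hd2 G hG hD hH hS hn hR
  · intro d hd h3 hd2 G hG hD hH hS hn hR
    exact hU69 hd h3 hd2 G hG hD hH hS hn hR

/-- the linear bound from the row -/
theorem eD_29_56
    (hrow : ∀ d : ℝ, 0 < d → d < 89 / 250 → ∀ G : Tg ℍ, G.Geo4 (alpha d) kap (Ust69 d) →
      DelG G d → HullT G → Sep d G.P → Row14 G (alpha d))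
    {d : ℝ} (hd : 0 < d) (h : d < 89 / 250) {n : ℕ} (hn : 9 ≤ n) : 12 * eD d n + 42 ≤ 29 * n :=
  eD_29_89 hd h.le (fun G hG hD hH hS => hrow d hd h G hG hD hH hS) hn

end

end Pool.Agent.PEN.E5
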