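import Pool.Agent.E5.S7_15
import Pool.Agent.E5.Fin15
import Pool.Agent.E5.V7_56

/-! # PENNY: the linear bound `(29 n - 42) / 12` for every diameter -/

set_option autoImplicit false

namespace Pool.Agent.PEN.E5

open Classical UpperHalfPlane
open Pool.Agent.PEN.Cl

noncomputable section

/-- **the linear bound for every diameter** -/
theorem eD_29_all15 {d : ℝ} (hd : 0 < d) {n : ℕ} (hn : 9 ≤ n) : 12 * eD d n + 42 ≤ 29 * n := by
  rcases lt_or_ge d (89 / 250) with h | h
  · exact eD_29_56 row14_15 hd h hn
  · obtain ⟨e, he, ha⟩ := exists_dm (m := 7) (by norm_num)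
    have ha' : alpha e = 2 * Real.pi / 7 := by
      rw [ha]
      norm_num
    have h1 := q1_v6_56 he ha' hd (n := n) (Or.inr h)
    have h2 := eD7_15 he ha' hn
    omega

end

end Pool.Agent.PEN.E5
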