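import Pool.Agent.E5.SkD89

/-! # PENNY, small diameters: the arc identity and the chain along a black face

`x, nx x, nx (nx x), ..` are consecutive sides of a black face; `gc (sg y)` and `gc (nx y)` are the
gaps of the two white corners at the head of `y`. -/

set_option autoImplicit false

namespace Pool.Agent.PEN.E5

open Classical UpperHalfPlane
open Pool.Agent.PEN.Cl

noncomputable section

variable {V : Type} (G : Tg V) {al : ℝ} {kp : V → V → ℝ} {U : ℕ → ℝ}

/-- the surpluses of `n` consecutive sides after `x` -/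
def arcS69 (al : ℝ) (x : V × V) (n : ℕ) : ℝ := ∑ j ∈ Finset.range n, sp G al ((nx G)^[j + 1] x)

/-- the surpluses of `n` consecutive sectors from `x` on -/
def arcD69 (al : ℝ) (x : V × V) (n : ℕ) : ℝ := ∑ j ∈ Finset.range n, Ds G al ((nx G)^[j] x)

/-- **the arc identity**: `n + 1` sectors `x, .., nx^n x`, the sides `nx x, .., nx^n x` between them -/
theorem arc69 (x : V × V) (n : ℕ) : arcD69 G al x (n + 1) =
    gc G al (sg G x) + arcS69 G al x n + gc G al ((nx G)^[n + 1] x) - 1 := by
  induction n with
  | zero =>
    unfold arcD69 arcS69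
    rw [Finset.sum_range_one, Finset.sum_range_zero, Function.iterate_zero, id_eq,
      Function.iterate_one]
    unfold Ds
    ring
  | succ n ih =>
    have e1 : arcD69 G al x (n + 1 + 1) = arcD69 G al x (n + 1) +
        Ds G al ((nx G)^[n + 1] x) := Finset.sum_range_succ _ _
    have e2 : arcS69 G al x (n + 1) = arcS69 G al x n + sp G al ((nx G)^[n + 1] x) :=
      Finset.sum_range_succ _ _
    rw [e1, e2, ih]
    unfold Ds sp
    rw [Function.iterate_succ_apply' (nx G) (n + 1) x]
    ring

/-- **arc balance**: all `n + 1` sectors at most `- e`: surpluses of the sides between them -/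
theorem arc_le69 (x : V × V) (n : ℕ) {e : ℝ}
    (h : ∀ j ≤ n, Ds G al ((nx G)^[j] x) ≤ - e) :
    arcS69 G al x n ≤ 1 - gc G al (sg G x) - gc G al ((nx G)^[n + 1] x) - (n + 1) * e := by
  have h1 := arc69 G (al := al) x n
  have h2 : arcD69 G al x (n + 1) ≤ (n + 1) * (- e) := by
    unfold arcD69
    have := Finset.sum_le_card_nsmul (Finset.range (n + 1))
      (fun j => Ds G al ((nx G)^[j] x)) (- e) fun j hj =>
        h j (Nat.lt_succ_iff.1 (Finset.mem_range.1 hj))
    rw [Finset.card_range, nsmul_eq_mul] at this
    push_cast at this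
    exact this
  linarith

/-- the same with one sector counted exactly -/
theorem arc_third69 (x : V × V) (n : ℕ) {e : ℝ} {k : ℕ} (hk : k ≤ n)
    (h : ∀ j ≤ n, j ≠ k → Ds G al ((nx G)^[j] x) ≤ - e) :
    arcS69 G al x n + (- e - Ds G al ((nx G)^[k] x)) ≤
      1 - gc G al (sg G x) - gc G al ((nx G)^[n + 1] x) - (n + 1) * e := by
  have h1 := arc69 G (al := al) x n
  have h2 : arcD69 G al x (n + 1) ≤ Ds G al ((nx G)^[k] x) + n * (- e) := by
    unfold arcD69
    have hk' : k ∈ Finset.range (n + 1) := Finset.mem_range.2 (by omega)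
    rw [← Finset.add_sum_erase _ _ hk']
    have := Finset.sum_le_card_nsmul ((Finset.range (n + 1)).erase k)
      (fun j => Ds G al ((nx G)^[j] x)) (- e) fun j hj =>
        h j (Nat.lt_succ_iff.1 (Finset.mem_range.1 (Finset.mem_of_mem_erase hj)))
        (Finset.ne_of_mem_erase hj)
    rw [Finset.card_erase_of_mem hk', Finset.card_range, Nat.add_sub_cancel, nsmul_eq_mul] at this
    linarith
  linarith

/-- one step of the chain: the gap on the far side of the next side -/
theorem step69 (x : V × V) (hs : 0 ≤ sp G al (nx G x)) {e : ℝ} (h : Ds G al x ≤ - e) :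
    gc G al (sg G x) + e ≤ gc G al (sg G (nx G x)) := by
  unfold sp at hs
  unfold Ds at h
  linarith

/-- **the chain**: along an arc without server and weak side the gaps behind are increasing -/
theorem chain69 (x : V × V) (n : ℕ) {e : ℝ} (h : ∀ j < n, Ds G al ((nx G)^[j] x) ≤ - e)
    (hs : ∀ j < n, 0 ≤ sp G al ((nx G)^[j + 1] x)) :
    gc G al (sg G x) + n * e ≤ gc G al (sg G ((nx G)^[n] x)) := by
  induction n with
  | zero =>
    rw [Function.iterate_zero, id_eq]
    push_cast
    linarith
  | succ n ih =>
    have h1 := ih (fun j hj => h j (by omega)) (fun j hj => hs j (by omega))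
    have h2 := hs n (by omega)
    rw [Function.iterate_succ_apply'] at h2
    have h3 := step69 G (al := al) ((nx G)^[n] x) h2 (h n (by omega))
    rw [← Function.iterate_succ_apply' (nx G)] at h3
    push_cast
    linarith

/-- **the chain, to the other end**: the gap behind the first side against the gap in front of the
last one: `gc (nx^(n+1) x) ≤ 1 - gc (sg x) - (n + 1) e` -/
theorem chain_end69 (x : V × V) (n : ℕ) {e : ℝ} (h : ∀ j ≤ n, Ds G al ((nx G)^[j] x) ≤ - e)
    (hs : ∀ j < n, 0 ≤ sp G al ((nx G)^[j + 1] x)) :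
    gc G al ((nx G)^[n + 1] x) ≤ 1 - gc G al (sg G x) - (n + 1) * e := by
  have h1 := chain69 G x n (fun j hj => h j hj.le) hs
  have h2 := h n le_rfl
  unfold Ds at h2
  rw [← Function.iterate_succ_apply' (nx G)] at h2
  linarith

/-- a closed walk: all sectors against all sides -/
theorem arc_closed69 (x : V × V) (n : ℕ) (hn : (nx G)^[n + 1] x = x) :
    arcD69 G al x (n + 1) = arcS69 G al x (n + 1) := by
  have h1 := arc69 G (al := al) x n
  have e2 : arcS69 G al x (n + 1) = arcS69 G al x n + sp G al ((nx G)^[n + 1] x) :=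
    Finset.sum_range_succ _ _
  rw [h1, e2, hn]
  unfold sp
  ring

end

end Pool.Agent.PEN.E5
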