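import Pool.Agent.E5.Bs15

/-! # PENNY, all small diameters: the assembly from rows

The rows: one for every black face (its price and its leaves are paid by its payers, by weights `w` of
its big sides, by payments `p` of its leaf corners and by boundary terms), one for every white class,
one for every inner point. -/

set_option autoImplicit false

namespace Pool.Agent.PEN.E5

open Classical UpperHalfPlane
open Pool.Agent.PEN.Cl

noncomputable section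

variable {V : Type} (G : Tg V) {al : ℝ} {kp : V → V → ℝ} {U : ℕ → ℝ}

theorem PK_empty15 {K : (cg G).ConnectedComponent} (hK : K ∉ Sf G al) : PK G al K = ∅ := by
  rw [Finset.eq_empty_iff_forall_notMem]
  intro s hs
  obtain ⟨h1, h2⟩ := Finset.mem_filter.1 hs
  exact hK ((mem_Sf15 G).2 ⟨s, (mem_kS42 G).2 ⟨((mem_Pz15 G).1 h1).1, h2⟩, h1⟩)

/-- the black part of the interior form: price and leaves minus payers -/
theorem black15 (hG : G.Geo4 al kp U) (θ : ℝ) (yK : (cg G).ConnectedComponent → ℝ) :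
    ∑ K ∈ (Kc G).filter (fun K => Lv G K = ∅ ∧ K ∉ Sf G al), wx G θ K -
        ∑ K ∈ (Kc G).filter (fun K => Lv G K ≠ ∅), lsl G al θ yK K -
        ∑ K ∈ (Sf G al).filter (fun K => Lv G K = ∅), rx G al θ K -
        ∑ K ∈ (Sf G al).filter (fun K => Lv G K ≠ ∅), ∑ s ∈ PK G al K,
          max (2 + 2 * θ - θ * (rn G s : ℝ)) 0 +
        θ * ∑ C ∈ WF G, ∑ x ∈ (G.cJ C).filter (fun x => x.1 ∈ lfN G), ((un G al x : ℝ) - 2) =
      ∑ K ∈ Kc G, (wx G θ K + yK K * (Lv G K).card -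
        ∑ s ∈ PK G al K, max (2 + 2 * θ - θ * (rn G s : ℝ)) 0) := by
  have hSf : (Kc G).filter (fun K => K ∈ Sf G al) = Sf G al := by
    ext K
    rw [Finset.mem_filter]
    refine ⟨fun h => h.2, fun h => ⟨?_, h⟩⟩
    unfold Sf at h
    exact (Finset.mem_filter.1 h).1
  have b1 : ∑ K ∈ Kc G, ∑ s ∈ PK G al K, max (2 + 2 * θ - θ * (rn G s : ℝ)) 0 =
      ∑ K ∈ (Sf G al).filter (fun K => Lv G K = ∅), ∑ s ∈ PK G al K,
        max (2 + 2 * θ - θ * (rn G s : ℝ)) 0 +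
      ∑ K ∈ (Sf G al).filter (fun K => Lv G K ≠ ∅), ∑ s ∈ PK G al K,
        max (2 + 2 * θ - θ * (rn G s : ℝ)) 0 := by
    rw [Finset.sum_filter_add_sum_filter_not (Sf G al) (fun K => Lv G K = ∅), ← hSf]
    symm
    refine Finset.sum_filter_of_ne fun K _ h => ?_
    by_contra h2
    exact h (by rw [PK_empty15 G h2, Finset.sum_empty])
  have b2 : ∑ K ∈ (Sf G al).filter (fun K => Lv G K = ∅), rx G al θ K =
      ∑ K ∈ (Sf G al).filter (fun K => Lv G K = ∅), ∑ s ∈ PK G al K,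
        max (2 + 2 * θ - θ * (rn G s : ℝ)) 0 -
      ∑ K ∈ (Sf G al).filter (fun K => Lv G K = ∅), wx G θ K := by
    unfold rx
    rw [Finset.sum_sub_distrib]
  have b3 : ∑ K ∈ Kc G, wx G θ K =
      ∑ K ∈ (Kc G).filter (fun K => Lv G K = ∅ ∧ K ∉ Sf G al), wx G θ K +
      ∑ K ∈ (Sf G al).filter (fun K => Lv G K = ∅), wx G θ K +
      ∑ K ∈ (Kc G).filter (fun K => Lv G K ≠ ∅), wx G θ K := by
    rw [← Finset.sum_filter_add_sum_filter_not (Kc G) (fun K => Lv G K = ∅)]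
    congr 1
    rw [← Finset.sum_filter_add_sum_filter_not ((Kc G).filter (fun K => Lv G K = ∅))
      (fun K => K ∈ Sf G al), Finset.filter_filter, Finset.filter_filter, add_comm]
    congr 1
    refine Finset.sum_congr ?_ fun _ _ => rfl
    rw [← hSf, Finset.filter_filter]
    refine Finset.filter_congr fun K _ => ?_
    rw [hSf]
    exact and_comm
  have b5 : ∑ K ∈ (Kc G).filter (fun K => Lv G K ≠ ∅), yK K * (Lv G K).card =
      ∑ K ∈ Kc G, yK K * (Lv G K).card := by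
    refine Finset.sum_filter_of_ne fun K _ h h2 => h ?_
    rw [h2, Finset.card_empty, Nat.cast_zero, mul_zero]
  have c1 : ∑ K ∈ Kc G, ∑ x ∈ Lv G K, ((un G al (sg G x) : ℝ) - 2) =
      ∑ C ∈ WF G, ∑ x ∈ (G.cJ C).filter (fun x => x.1 ∈ lfN G), ((un G al x : ℝ) - 2) := by
    rw [sum_leafs15 G (fun x => (un G al (sg G x) : ℝ) - 2)]
    exact sum_leafc15 G hG (fun x => (un G al x : ℝ) - 2)
  have c2 : ∑ K ∈ (Kc G).filter (fun K => Lv G K ≠ ∅),
      ∑ x ∈ Lv G K, ((un G al (sg G x) : ℝ) - 2) =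
      ∑ K ∈ Kc G, ∑ x ∈ Lv G K, ((un G al (sg G x) : ℝ) - 2) := by
    refine Finset.sum_filter_of_ne fun K _ h h2 => h ?_
    rw [h2, Finset.sum_empty]
  have c3 : ∑ K ∈ (Kc G).filter (fun K => Lv G K ≠ ∅), lsl G al θ yK K =
      θ * ∑ K ∈ (Kc G).filter (fun K => Lv G K ≠ ∅),
        ∑ x ∈ Lv G K, ((un G al (sg G x) : ℝ) - 2) -
      ∑ K ∈ (Kc G).filter (fun K => Lv G K ≠ ∅), wx G θ K -
      ∑ K ∈ (Kc G).filter (fun K => Lv G K ≠ ∅), yK K * (Lv G K).card := by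
    unfold lsl
    rw [Finset.sum_sub_distrib, Finset.sum_sub_distrib, Finset.mul_sum]
  rw [Finset.sum_sub_distrib, Finset.sum_add_distrib, b1, b3, c3, b2, b5, c2, c1]
  ring

/-- sums over the big sides, black face by black face or white class by white class -/
theorem sum_kBC15 (w : V × V → ℝ) :
    ∑ K ∈ Kc G, ∑ x ∈ (kS G K).filter (fun x => x ∈ BC G), w x =
      ∑ C ∈ WF G, ∑ x ∈ G.cJ C, w x := by
  rw [← sum_BC15 G w]
  have h : (SD G).filter (fun x => x ∈ BC G) = BC G := by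
    ext x
    rw [Finset.mem_filter]
    refine ⟨fun h => h.2, fun h => ⟨?_, h⟩⟩
    obtain ⟨h1, h2⟩ := (mem_BC89 G).1 h
    obtain ⟨h3, h4⟩ := (mem_iJ71 G).1 h1
    exact (mem_SD42 G).2 ⟨(mem_KJ42 G).2 ⟨G.sub h3.1, h4⟩, h2⟩
  rw [← h, ← Finset.sum_fiberwise_of_maps_to (s := (SD G).filter (fun x => x ∈ BC G))
    (t := Kc G) (g := ku G) (fun x hx => ku_Kc15 G (Finset.mem_filter.1 hx).1)]
  refine Finset.sum_congr rfl fun K _ => Finset.sum_congr ?_ fun _ _ => rfl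
  ext x
  simp only [Finset.mem_filter, mem_kS42]
  tauto

/-- **assembly from rows**: the interior form is at most the sum of the defects of the rows -/
theorem rows15 (hG : G.Geo4 al kp U) {θ y0 Λ : ℝ} {yK : (cg G).ConnectedComponent → ℝ}
    {w p : V × V → ℝ} {rK : (cg G).ConnectedComponent → ℝ} {rC : G.adj.ConnectedComponent → ℝ}
    {rV : V → ℝ}
    (hK : ∀ K ∈ Kc G, wx G θ K + yK K * (Lv G K).card ≤
      ∑ s ∈ PK G al K, max (2 + 2 * θ - θ * (rn G s : ℝ)) 0 +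
      ∑ x ∈ (kS G K).filter (fun x => x ∈ BC G), w x + ∑ x ∈ Lv G K, p (sg G x) + rK K)
    (hC : ∀ C ∈ WF G, ∑ x ∈ G.cJ C, w x + ∑ x ∈ (G.cJ C).filter (fun x => x.1 ∈ lfN G), p x ≤
      (3 + 4 * θ + Λ - 2 * y0) * ka G al C - (4 + 5 * θ - 3 * y0) * qa G C +
      ∑ s ∈ G.cJ C, (yK (ku G s) - y0) * sp G al s + rC C)
    (hV : ∀ v ∈ A2 G al, 2 * y0 * ep al - sl G al θ Λ yK v ≤ rV v)
    (h7 : ∀ v ∈ inN G, uv G al v = 7 → cv G v ≠ 1 →
      ∑ s ∈ Sv G v, yK (ku G s) * Ds G al s + 2 * y0 * ep al ≤ rV v) :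
    ∑ K ∈ (Kc G).filter (fun K => Lv G K = ∅ ∧ K ∉ Sf G al), wx G θ K -
        ∑ K ∈ (Kc G).filter (fun K => Lv G K ≠ ∅), lsl G al θ yK K -
        ∑ K ∈ (Sf G al).filter (fun K => Lv G K = ∅), rx G al θ K -
        ∑ K ∈ (Sf G al).filter (fun K => Lv G K ≠ ∅), ∑ s ∈ PK G al K,
          max (2 + 2 * θ - θ * (rn G s : ℝ)) 0 -
        ∑ v ∈ A2 G al, (sl G al θ Λ yK v - 2 * y0 * ep al) +
        ∑ v ∈ (inN G).filter (fun v => uv G al v = 7 ∧ cv G v ≠ 1), (∑ s ∈ Sv G v,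
          yK (ku G s) * Ds G al s + 2 * y0 * ep al) +
        ∑ C ∈ WF G, ((4 + 5 * θ - 3 * y0) * qa G C - (3 + 4 * θ + Λ - 2 * y0) * ka G al C -
          ∑ s ∈ G.cJ C, (yK (ku G s) - y0) * sp G al s +
          θ * ∑ x ∈ (G.cJ C).filter (fun x => x.1 ∈ lfN G), ((un G al x : ℝ) - 2)) ≤
      ∑ K ∈ Kc G, rK K + ∑ C ∈ WF G, rC C + ∑ v ∈ A2 G al, rV v +
        ∑ v ∈ (inN G).filter (fun v => uv G al v = 7 ∧ cv G v ≠ 1), rV v := by
  have a1 := black15 G hG θ yK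
  have a2 : ∑ K ∈ Kc G, (wx G θ K + yK K * (Lv G K).card -
      ∑ s ∈ PK G al K, max (2 + 2 * θ - θ * (rn G s : ℝ)) 0) ≤
      ∑ K ∈ Kc G, (∑ x ∈ (kS G K).filter (fun x => x ∈ BC G), w x +
        ∑ x ∈ Lv G K, p (sg G x) + rK K) :=
    Finset.sum_le_sum fun K hk => by linarith [hK K hk]
  rw [Finset.sum_add_distrib, Finset.sum_add_distrib, sum_kBC15, sum_leafs15 G
    (fun x => p (sg G x)), sum_leafc15 G hG p] at a2
  have a3 : ∑ C ∈ WF G, (∑ x ∈ G.cJ C, w x + ∑ x ∈ (G.cJ C).filter (fun x => x.1 ∈ lfN G), p x) ≤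
      ∑ C ∈ WF G, (rC C - ((4 + 5 * θ - 3 * y0) * qa G C -
        (3 + 4 * θ + Λ - 2 * y0) * ka G al C -
        ∑ s ∈ G.cJ C, (yK (ku G s) - y0) * sp G al s)) :=
    Finset.sum_le_sum fun C hc => by linarith [hC C hc]
  rw [Finset.sum_add_distrib, Finset.sum_sub_distrib] at a3
  have a4 : ∑ v ∈ A2 G al, (2 * y0 * ep al - sl G al θ Λ yK v) ≤ ∑ v ∈ A2 G al, rV v :=
    Finset.sum_le_sum hV
  have a5 : ∑ v ∈ A2 G al, (2 * y0 * ep al - sl G al θ Λ yK v) =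
      - ∑ v ∈ A2 G al, (sl G al θ Λ yK v - 2 * y0 * ep al) := by
    rw [← Finset.sum_neg_distrib]
    exact Finset.sum_congr rfl fun v _ => by ring
  have a6 : ∑ v ∈ (inN G).filter (fun v => uv G al v = 7 ∧ cv G v ≠ 1), (∑ s ∈ Sv G v,
      yK (ku G s) * Ds G al s + 2 * y0 * ep al) ≤
      ∑ v ∈ (inN G).filter (fun v => uv G al v = 7 ∧ cv G v ≠ 1), rV v := by
    refine Finset.sum_le_sum fun v hv => ?_
    obtain ⟨h1, h2, h3⟩ := Finset.mem_filter.1 hv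
    exact h7 v h1 h2 h3
  have a7 : ∑ C ∈ WF G, ((4 + 5 * θ - 3 * y0) * qa G C - (3 + 4 * θ + Λ - 2 * y0) * ka G al C -
        ∑ s ∈ G.cJ C, (yK (ku G s) - y0) * sp G al s +
        θ * ∑ x ∈ (G.cJ C).filter (fun x => x.1 ∈ lfN G), ((un G al x : ℝ) - 2)) =
      ∑ C ∈ WF G, ((4 + 5 * θ - 3 * y0) * qa G C - (3 + 4 * θ + Λ - 2 * y0) * ka G al C -
        ∑ s ∈ G.cJ C, (yK (ku G s) - y0) * sp G al s) +
      θ * ∑ C ∈ WF G, ∑ x ∈ (G.cJ C).filter (fun x => x.1 ∈ lfN G), ((un G al x : ℝ) - 2) := by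
    rw [Finset.sum_add_distrib, Finset.mul_sum]
  rw [a7]
  linarith

/-- weights at least `y0` at a point with one unit too much and several big corners -/
theorem seven15 (hG : G.Geo4 al kp U) {y0 : ℝ}
    {yK : (cg G).ConnectedComponent → ℝ} (hyK : ∀ K ∈ Kc G, y0 ≤ yK K) {v : V} (hv : v ∈ inN G)
    (h7 : uv G al v = 7) (hc : cv G v ≠ 1) :
    ∑ s ∈ Sv G v, yK (ku G s) * Ds G al s + 2 * y0 * ep al ≤ - y0 * (cv G v - 2) := by
  have hk : kv G al v = 1 := by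
    rw [kv_eq89, h7]
    norm_num
  have hD : ∀ s ∈ Sv G v, Ds G al s ≤ 0 := by
    intro s hs
    obtain ⟨hs1, hs2⟩ := (mem_Sv62 G).1 hs
    by_contra h3
    push Not at h3
    rcases pos_sector89 G hG hv hs1 hs2 h3.le with h4 | h4
    · exact hc h4
    · omega
  have h5 : ∑ s ∈ Sv G v, yK (ku G s) * Ds G al s ≤ ∑ s ∈ Sv G v, y0 * Ds G al s := by
    refine Finset.sum_le_sum fun s hs => ?_
    have h6 := hyK (ku G s) (ku_Kc15 G ((mem_Sv62 G).1 hs).1)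
    nlinarith [hD s hs, mul_nonneg (sub_nonneg.2 h6) (neg_nonneg.2 (hD s hs))]
  rw [← Finset.mul_sum, sum_Dsv39 G hG hv, hk] at h5
  linarith

end

end Pool.Agent.PEN.E5
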