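import Pool.Agent.E5.Vs39
import Pool.Agent.E5.Fg46

/-! # PENNY, all small diameters: the mass lemma

Page T2. Exact gap lemmas for a white pentagon `P` with a weak side `w` whose black face has no
server: the partner of `P` next to a demanding corner has mass above one on three consecutive
corners. No shapes are used. -/

set_option autoImplicit false

namespace Pool.Agent.PEN.E5

open Classical UpperHalfPlane
open Pool.Agent.PEN.Cl

noncomputable section

variable {V : Type} (G : Tg V) {al : ℝ} {kp : V → V → ℝ} {U : ℕ → ℝ}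

/-- a sector at a point with seven units and several big corners -/
theorem Ds_seven62 (hG : G.Geo4 al kp U) {v : V} (hv : v ∈ inN G) (h7 : uv G al v = 7)
    (hc : cv G v ≠ 1) {x : V × V} (hx : x ∈ SD G) (hxv : x.2 = v) : Ds G al x ≤ - ep al := by
  have h3 := Ds_two89 G hG hv hx hxv hc
  have h4 : 0 ≤ ∑ y ∈ ((Jv G v).erase (sg G x)).erase (nx G x), gc G al y :=
    Finset.sum_nonneg fun y _ => gc_nonneg89 G hG
  rw [kv_eq89, h7] at h3
  norm_num at h3
  linarith

/-- a finite set of sides closed under the walk around black faces -/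
theorem sum_union62 (hG : G.Geo4 al kp U) (K L : (cg G).ConnectedComponent) :
    ∑ x ∈ kS G K ∪ kS G L, Ds G al x = ∑ x ∈ kS G K ∪ kS G L, sp G al x := by
  have hK := sum_Ds89 G hG K
  have hL := sum_Ds89 G hG L
  by_cases h : K = L
  · rw [h, Finset.union_self]
    exact hL
  · have hd : Disjoint (kS G K) (kS G L) := by
      rw [Finset.disjoint_left]
      intro x hx hy
      exact h (((mem_kS42 G).1 hx).2.symm.trans ((mem_kS42 G).1 hy).2)
    rw [Finset.sum_union hd, Finset.sum_union hd, hK, hL]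

/-- the balance: sectors nonpositive outside a set `A`, sides nonnegative outside a set `B` -/
theorem bal62 {S A B : Finset (V × V)} {D s : V × V → ℝ} (hS : ∑ x ∈ S, D x = ∑ x ∈ S, s x)
    (hA : A ⊆ S) (hB : B ⊆ S) (hD : ∀ y ∈ S, y ∉ A → D y ≤ 0)
    (hs : ∀ y ∈ S, y ∉ B → 0 ≤ s y) {y0 : V × V} (hy : y0 ∈ S) (hyA : y0 ∉ A) :
    ∑ x ∈ B, s x - D y0 ≤ ∑ x ∈ A, D x := by
  have h1 : ∑ x ∈ S, D x ≤ ∑ x ∈ A, D x + D y0 := by
    rw [← Finset.sum_sdiff hA, ← Finset.add_sum_erase (S \ A) D (Finset.mem_sdiff.2 ⟨hy, hyA⟩)]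
    have : ∑ x ∈ (S \ A).erase y0, D x ≤ 0 := by
      refine Finset.sum_nonpos fun x hx => ?_
      obtain ⟨h2, h3⟩ := Finset.mem_erase.1 hx
      obtain ⟨h4, h5⟩ := Finset.mem_sdiff.1 h3
      exact hD x h4 h5
    linarith
  have h2 : ∑ x ∈ B, s x ≤ ∑ x ∈ S, s x := by
    rw [← Finset.sum_sdiff hB]
    have : 0 ≤ ∑ x ∈ S \ B, s x := by
      refine Finset.sum_nonneg fun x hx => ?_
      obtain ⟨h4, h5⟩ := Finset.mem_sdiff.1 hx
      exact hs x h4 h5
    linarith
  linarith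

/-- a demanding corner `sg x` of the class of `x`, at the head of `x`: a leaf, or one of three big
corners of a point with eight units; the two black faces at the sides `x`, `sg x` have no other
server (sector with positive `D`) and no weak side -/
structure Dem62 (al : ℝ) (x : V × V) : Prop where
  inn : x.2 ∈ inN G
  xs : x ∈ SD G
  ys : sg G x ∈ SD G
  strong : ∀ y ∈ kS G (ku G x) ∪ kS G (ku G (sg G x)), 0 ≤ sp G al y
  neg : ∀ y ∈ kS G (ku G x) ∪ kS G (ku G (sg G x)), y ≠ x → nx G y ≠ sg G x → Ds G al y ≤ 0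
  ty : (cv G x.2 = 1 ∧ uv G al x.2 = 7) ∨ (cv G x.2 = 3 ∧ uv G al x.2 = 8)

/-- the black faces at a demanding corner, in one set -/
def KK62 (x : V × V) : Finset (V × V) := kS G (ku G x) ∪ kS G (ku G (sg G x))

theorem dem_left62 {x : V × V} (hx : x ∈ SD G) : x ∈ KK62 G x :=
  Finset.mem_union_left _ ((mem_kS42 G).2 ⟨hx, rfl⟩)

theorem dem_right62 {x : V × V} (hx : sg G x ∈ SD G) : sg G x ∈ KK62 G x :=
  Finset.mem_union_right _ ((mem_kS42 G).2 ⟨hx, rfl⟩)

/-- the surplus of the demanding sectors -/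
theorem dem_sum62 (hG : G.Geo4 al kp U) {x : V × V} (h : Dem62 G al x) :
    ∃ A : Finset (V × V), A ⊆ KK62 G x ∧ (∀ y, y ∈ A ↔ y ∈ KK62 G x ∧ (y = x ∨ nx G y = sg G x)) ∧
      ∑ y ∈ A, Ds G al y ≤ gc G al (sg G x) - ep al := by
  obtain ⟨hin, hxs, hys, -, -, hty⟩ := h
  have hep := ep_pos89 G hG
  refine ⟨(KK62 G x).filter (fun y => y = x ∨ nx G y = sg G x), Finset.filter_subset _ _,
    fun y => Finset.mem_filter, ?_⟩
  have hxS : x ∈ Sv G x.2 := (mem_Sv62 G).2 ⟨hxs, rfl⟩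
  rcases hty with ⟨hc, hu⟩ | ⟨hc, hu⟩
  · obtain ⟨e1, e2, e3⟩ := c1_89 G hG hin hc hxS
    have hA : (KK62 G x).filter (fun y => y = x ∨ nx G y = sg G x) = {x} := by
      ext y
      rw [Finset.mem_filter, Finset.mem_singleton]
      constructor
      · rintro ⟨h1, h2 | h2⟩
        · exact h2
        · have hy : y ∈ SD G := by
            rcases Finset.mem_union.1 h1 with h3 | h3
            · exact mem_kS89 G h3
            · exact mem_kS89 G h3
          have h4 : y.2 = x.2 := by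
            have h5 : (nx G y).1 = (sg G x).1 := by rw [h2]
            exact h5
          have h6 : y ∈ Sv G x.2 := (mem_Sv62 G).2 ⟨hy, h4⟩
          rw [e1] at h6
          exact Finset.mem_singleton.1 h6
      · rintro rfl
        exact ⟨dem_left62 G hxs, Or.inl rfl⟩
    rw [hA, Finset.sum_singleton]
    have h1 := Ds_one89 G hG hin hxs rfl hc
    have h2 := sum_gcB39 G hG hin
    rw [e2, Finset.sum_singleton, kv_eq89, hu] at h2
    rw [h1, kv_eq89, hu, h2]
    norm_num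
    linarith
  · obtain ⟨y, hy, z, hz, hyx, hzx, hzy, hS, hB, e1, e2, e3⟩ := c3_89 G hG hin hc hxS
    have hzK : z ∈ KK62 G x := by
      obtain ⟨hz1, hz2⟩ := (mem_Sv62 G).1 hz
      have h3 := (nx_mem42 G hG ((mem_SD42 G).1 hz1).1).2
      rw [e3] at h3
      exact Finset.mem_union_right _ ((mem_kS42 G).2 ⟨hz1, h3.symm⟩)
    have hA : (KK62 G x).filter (fun y => y = x ∨ nx G y = sg G x) = {x, z} := by
      ext t
      rw [Finset.mem_filter, Finset.mem_insert, Finset.mem_singleton]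
      constructor
      · rintro ⟨h1, h2 | h2⟩
        · exact Or.inl h2
        · right
          have ht : t ∈ SD G := by
            rcases Finset.mem_union.1 h1 with h3 | h3
            · exact mem_kS89 G h3
            · exact mem_kS89 G h3
          have h4 : t.2 = x.2 := by
            have h5 : (nx G t).1 = (sg G x).1 := by rw [h2]
            exact h5
          exact nx_injSv89 G hG ((mem_Sv62 G).2 ⟨ht, h4⟩) hz (by rw [h2, e3])
      · rintro (rfl | rfl)
        · exact ⟨dem_left62 G hxs, Or.inl rfl⟩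
        · exact ⟨hzK, Or.inr e3⟩
    rw [hA, Finset.sum_pair hzx.symm]
    have hs := sum_gcB39 G hG hin
    have n1 : sg G x ≠ sg G y := fun h => hyx (sg_injSv89 G hG hin hxS hy h).symm
    have n2 : sg G x ≠ sg G z := fun h => hzx (sg_injSv89 G hG hin hxS hz h).symm
    have n3 : sg G y ≠ sg G z := fun h => hzy (sg_injSv89 G hG hin hy hz h).symm
    rw [hB, Finset.sum_insert (by
      simp only [Finset.mem_insert, Finset.mem_singleton]
      rintro (h | h)
      · exact n1 h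
      · exact n2 h), Finset.sum_insert (by
      rw [Finset.mem_singleton]; exact n3), Finset.sum_singleton, kv_eq89, hu] at hs
    unfold Ds
    rw [← e1, e3]
    norm_num at hs ⊢
    linarith

/-- **capacity of a demanding corner**: foreign surplus and third gaps -/
theorem dem_cap62 (hG : G.Geo4 al kp U) {x : V × V} (h : Dem62 G al x) {B : Finset (V × V)}
    (hB : B ⊆ KK62 G x) (hxB : x ∉ B) (hsB : sg G x ∉ B) {y0 : V × V} (hy : y0 ∈ KK62 G x)
    (hyx : y0 ≠ x) (hyn : nx G y0 ≠ sg G x) :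
    ∑ y ∈ B, sp G al y + (- ep al - Ds G al y0) ≤
      2 - gc G al x - gc G al (sg G x) - gc G al (sg G (sg G x)) - 2 * ep al := by
  obtain ⟨A, hA1, hA2, hA3⟩ := dem_sum62 G hG h
  have hne : sg G x ≠ x := sg_ne46 G (sector_corners89 G hG h.inn h.xs rfl).2.2.1
  have hbal := bal62 (S := KK62 G x) (A := A) (B := insert x (insert (sg G x) B))
    (D := Ds G al) (s := sp G al) (sum_union62 G hG _ _) hA1
    (by
      intro y hy
      rcases Finset.mem_insert.1 hy with h1 | h1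
      · rw [h1]; exact dem_left62 G h.xs
      · rcases Finset.mem_insert.1 h1 with h2 | h2
        · rw [h2]; exact dem_right62 G h.ys
        · exact hB h2)
    (by
      intro y hy hyA
      have h1 : ¬ (y = x ∨ nx G y = sg G x) := fun h2 => hyA ((hA2 y).2 ⟨hy, h2⟩)
      push Not at h1
      exact h.neg y hy h1.1 h1.2)
    (fun y hy _ => h.strong y hy) hy
    (fun h1 => by
      rcases ((hA2 y0).1 h1).2 with h2 | h2
      · exact hyx h2
      · exact hyn h2)
  rw [Finset.sum_insert (by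
      rw [Finset.mem_insert]
      rintro (h1 | h1)
      · exact hne h1.symm
      · exact hxB h1), Finset.sum_insert hsB] at hbal
  unfold sp at hbal ⊢
  linarith

/-- a weak side `w` whose black face has no server and no other weak side -/
structure WO62 (al : ℝ) (w : V × V) : Prop where
  ws : w ∈ SD G
  strong : ∀ y ∈ kS G (ku G w), y ≠ w → 0 ≤ sp G al y
  neg : ∀ y ∈ kS G (ku G w), Ds G al y ≤ 0

/-- **capacity of the black face of a weak side** -/
theorem wo_cap62 (hG : G.Geo4 al kp U) {w : V × V} (h : WO62 G al w) {B : Finset (V × V)}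
    (hB : B ⊆ kS G (ku G w)) (hwB : w ∉ B) {y0 : V × V} (hy : y0 ∈ kS G (ku G w)) :
    ∑ y ∈ B, sp G al y + (- ep al - Ds G al y0) ≤
      - sp G al w - ep al := by
  have hw : w ∈ kS G (ku G w) := (mem_kS42 G).2 ⟨h.ws, rfl⟩
  have hbal := bal62 (S := kS G (ku G w)) (A := ∅) (B := insert w B)
    (D := Ds G al) (s := sp G al) (sum_Ds89 G hG _) (Finset.empty_subset _)
    (by
      intro y hy
      rcases Finset.mem_insert.1 hy with h1 | h1
      · rw [h1]; exact hw
      · exact hB h1)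
    (fun y hy _ => h.neg y hy)
    (fun y hy hn => h.strong y hy fun h1 => hn (by rw [h1]; exact Finset.mem_insert_self _ _)) hy
    (Finset.notMem_empty _)
  rw [Finset.sum_insert hwB, Finset.sum_empty] at hbal
  linarith

/-- the side of a sector and the next side are different -/
theorem nx_ne62 {x : V × V} (hx : x ∈ SD G) (h : nx G x = x) : False := by
  have h1 : (nx G x).1 = x.2 := rfl
  rw [h] at h1
  have h2 := ((mem_KJ42 G).1 ((mem_SD42 G).1 hx).1).1
  exact G.ne _ _ h2 h1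

/-- **the partner at a point with seven units and two big corners**: `s`, `sg s` are the sides of
one white face at the point, `z`, `sg z = nx s` those of the other -/
theorem partner62 (hG : G.Geo4 al kp U) {s : V × V} (hs : s ∈ SD G) (hin : s.2 ∈ inN G)
    (h7 : uv G al s.2 = 7) (hc : cv G s.2 = 2) :
    ∃ z ∈ SD G, z.2 = s.2 ∧ z ≠ s ∧ sg G z = nx G s ∧ nx G z = sg G s ∧
      ku G z = ku G (sg G s) ∧ ku G (nx G s) = ku G s ∧ nx G s ∈ SD G ∧
      gc G al (sg G s) + gc G al (nx G s) = 1 - ep al ∧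
      (1 - gc G al z) + (1 - gc G al (sg G z)) + (1 - gc G al (sg G (sg G z))) =
        2 - ep al - gc G al (sg G s) - sp G al z - sp G al (nx G s) := by
  have hsS : s ∈ Sv G s.2 := (mem_Sv62 G).2 ⟨hs, rfl⟩
  obtain ⟨h0, hB, z, hz, hzs, hS, e1, e2⟩ := c2_89 G hG hin hc hsS
  obtain ⟨hz1, hz2⟩ := (mem_Sv62 G).1 hz
  have hg := sum_gcB39 G hG hin
  rw [hB, Finset.sum_pair h0.symm, kv_eq89, h7] at hg
  have hk1 := (nx_mem42 G hG ((mem_SD42 G).1 hz1).1).2
  have hk2 := nx_mem42 G hG ((mem_SD42 G).1 hs).1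
  rw [e2] at hk1
  norm_num at hg
  refine ⟨z, hz1, hz2, hzs, e1, e2, hk1.symm, hk2.2, hk2.1, hg, ?_⟩
  unfold sp
  rw [← e1] at hg ⊢
  linarith

/-- a vertex of a weak-only black face next to a demanding corner is no leaf and has not three
big corners; general form with two capacities -/
theorem two_big62 (hG : G.Geo4 al kp U) (he : ep al < 1 / 2) {s : V × V} (hs : s ∈ SD G) (hin : s.2 ∈ inN G)
    (h7 : uv G al s.2 = 7) (hD : Ds G al s ≤ 0) {c1 c2 : ℝ}
    (h1 : ∀ z ∈ SD G, z.2 = s.2 → nx G z = sg G s → ku G z = ku G (sg G s) →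
      - ep al - Ds G al z ≤ c1) (h2 : - ep al - Ds G al s ≤ c2)
    (hlt : c1 + c2 + gc G al (sg G s) < 1 - ep al) : cv G s.2 = 2 := by
  have hsS : s ∈ Sv G s.2 := (mem_Sv62 G).2 ⟨hs, rfl⟩
  have hpos := cv_pos89 G hG hin
  have hle := cv_le39 G hG h7
  have hn1 : cv G s.2 ≠ 1 := by
    intro hc
    have h3 := Ds_one89 G hG hin hs rfl hc
    rw [kv_eq89, h7] at h3
    norm_num at h3
    linarith
  have hn3 : cv G s.2 ≠ 3 := by
    intro hc
    obtain ⟨y, hy, z, hz, hyx, hzx, hzy, hS, hB, e1, e2, e3⟩ := c3_89 G hG hin hc hsS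
    obtain ⟨hz1, hz2⟩ := (mem_Sv62 G).1 hz
    have hk1 := (nx_mem42 G hG ((mem_SD42 G).1 hz1).1).2
    rw [e3] at hk1
    have h3 := h1 z hz1 hz2 e3 hk1.symm
    have hg := sum_gcB39 G hG hin
    have n1 : sg G s ≠ sg G y := fun h => hyx (sg_injSv89 G hG hin hsS hy h).symm
    have n2 : sg G s ≠ sg G z := fun h => hzx (sg_injSv89 G hG hin hsS hz h).symm
    have n3 : sg G y ≠ sg G z := fun h => hzy (sg_injSv89 G hG hin hy hz h).symm
    rw [hB, Finset.sum_insert (by
      simp only [Finset.mem_insert, Finset.mem_singleton]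
      rintro (h | h)
      · exact n1 h
      · exact n2 h), Finset.sum_insert (by
      rw [Finset.mem_singleton]; exact n3), Finset.sum_singleton, kv_eq89, h7] at hg
    unfold Ds at h2 h3
    rw [← e1] at h2
    rw [e3] at h3
    norm_num at hg
    linarith
  omega

theorem nx_self62 {x : V × V} (hx : x ∈ SD G) : nx G x ≠ x := fun h => nx_ne62 G hx h

theorem sg_self62 (hG : G.Geo4 al kp U) {x : V × V} (hx : x ∈ SD G) (hin : x.2 ∈ inN G) :
    sg G x ≠ x := sg_ne46 G (sector_corners89 G hG hin hx rfl).2.2.1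

theorem KK_SD62 {x y : V × V} (h : y ∈ KK62 G x) : y ∈ SD G := by
  rcases Finset.mem_union.1 h with h3 | h3
  · exact mem_kS89 G h3
  · exact mem_kS89 G h3

theorem dem_neg62 {x y : V × V} (h : Dem62 G al x) (hy : y ∈ KK62 G x) (h1 : y ≠ x)
    (h2 : nx G y ≠ sg G x) : Ds G al y ≤ 0 := h.neg y hy h1 h2

theorem KK_two62 (hG : G.Geo4 al kp U) {x : V × V} (h : Dem62 G al x) :
    (2 : ℝ) ≤ (KK62 G x).card := by
  have hne := sg_self62 G hG h.xs h.inn
  have h1 : ({x, sg G x} : Finset (V × V)) ⊆ KK62 G x := by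
    intro y hy
    rcases Finset.mem_insert.1 hy with h1 | h1
    · rw [h1]; exact dem_left62 G h.xs
    · rw [Finset.mem_singleton.1 h1]; exact dem_right62 G h.ys
  have h2 := Finset.card_le_card h1
  rw [Finset.card_pair hne.symm] at h2
  exact_mod_cast h2

theorem wo_two62 (hG : G.Geo4 al kp U) {w : V × V} (h : WO62 G al w) :
    (2 : ℝ) ≤ (kS G (ku G w)).card := by
  have h1 : ({w, nx G w} : Finset (V × V)) ⊆ kS G (ku G w) := by
    intro y hy
    rcases Finset.mem_insert.1 hy with h1 | h1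
    · rw [h1]; exact (mem_kS42 G).2 ⟨h.ws, rfl⟩
    · rw [Finset.mem_singleton.1 h1]
      obtain ⟨h2, h3⟩ := nx_mem42 G hG ((mem_SD42 G).1 h.ws).1
      exact (mem_kS42 G).2 ⟨h2, h3⟩
  have h2 := Finset.card_le_card h1
  rw [Finset.card_pair (nx_self62 G h.ws).symm] at h2
  exact_mod_cast h2

/-- **M1**, the demanding corner before the weak side `sg (sg x)` -/
theorem M1a62 (hG : G.Geo4 al kp U) (he : ep al < 1 / 2) {x : V × V} (h : Dem62 G al x)
    (hw : WO62 G al (sg G (sg G x))) (hin : (sg G x).2 ∈ inN G) (h7 : uv G al (sg G x).2 = 7)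
    (hsum : 3 ≤ gc G al x + gc G al (sg G x) + gc G al (sg G (sg G x)) +
      gc G al (sg G (sg G (sg G x))) + gc G al (sg G (sg G (sg G (sg G x)))))
    (hq : gc G al (sg G (sg G (sg G (sg G x)))) ≤ 1) : cv G (sg G x).2 = 2 := by
  have hep := ep_pos89 G hG
  have hne := sg_self62 G hG h.xs h.inn
  have hys := h.ys
  have hyK := dem_right62 G hys
  have hnx : nx G (sg G x) ≠ sg G x := nx_self62 G hys
  have hD := dem_neg62 G h hyK hne hnx
  have hc1 := dem_cap62 G hG h (B := ∅) (Finset.empty_subset _) (Finset.notMem_empty _)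
    (Finset.notMem_empty _) hyK hne hnx
  rw [Finset.sum_empty, zero_add] at hc1
  have hKK := KK_two62 G hG h
  have hW2 := wo_two62 G hG hw
  refine two_big62 G hG he hys hin h7 hD (c1 := - sp G al (sg G (sg G x)) - ep al)
    (c2 := 2 - gc G al x - gc G al (sg G x) - gc G al (sg G (sg G x)) - 2 * ep al) ?_ ?_ ?_
  · intro z hz hz2 hzn hzk
    have hzK : z ∈ kS G (ku G (sg G (sg G x))) := (mem_kS42 G).2 ⟨hz, hzk⟩
    have hc2 := wo_cap62 G hG hw (B := ∅) (Finset.empty_subset _) (Finset.notMem_empty _) hzK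
    rw [Finset.sum_empty, zero_add] at hc2
    nlinarith
  · nlinarith
  · unfold sp
    linarith

/-- **M2**, the demanding corner before the weak side `sg (sg x)` -/
theorem M2a62 (hG : G.Geo4 al kp U) (he : ep al < 1 / 2) {x : V × V} (h : Dem62 G al x)
    (hw : WO62 G al (sg G (sg G x))) (hin : (sg G x).2 ∈ inN G) (h7 : uv G al (sg G x).2 = 7)
    (hsum : 3 ≤ gc G al x + gc G al (sg G x) + gc G al (sg G (sg G x)) +
      gc G al (sg G (sg G (sg G x))) + gc G al (sg G (sg G (sg G (sg G x)))))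
    (hq : gc G al (sg G (sg G (sg G (sg G x)))) ≤ 1) (hab : (sg G x).2 ≠ x.1) :
    ∃ z ∈ kS G (ku G (sg G (sg G x))), z ≠ sg G (sg G x) ∧ z.2 = (sg G x).2 ∧
      nx G z = sg G (sg G x) ∧ sg G z = nx G (sg G x) ∧ nx G (sg G x) ∈ KK62 G x ∧
      0 ≤ sp G al z ∧ 0 ≤ sp G al (sg G z) ∧
      gc G al (sg G (sg G x)) + gc G al (sg G z) = 1 - ep al ∧
      1 + 2 * ep al + (1 - gc G al (sg G (sg G (sg G (sg G x))))) ≤
        (1 - gc G al z) + (1 - gc G al (sg G z)) + (1 - gc G al (sg G (sg G z))) := by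
  have hep := ep_pos89 G hG
  have hne := sg_self62 G hG h.xs h.inn
  have hys := h.ys
  have hyK := dem_right62 G hys
  have hnx : nx G (sg G x) ≠ sg G x := nx_self62 G hys
  have hD := dem_neg62 G h hyK hne hnx
  have hc := M1a62 G hG he h hw hin h7 hsum hq
  obtain ⟨z, hz, hz2, hzs, e1, e2, k1, k2, hn, hg, hm⟩ := partner62 G hG hys hin h7 hc
  have hzK : z ∈ kS G (ku G (sg G (sg G x))) := (mem_kS42 G).2 ⟨hz, k1⟩
  have hwK : sg G (sg G x) ∈ kS G (ku G (sg G (sg G x))) := (mem_kS42 G).2 ⟨hw.ws, rfl⟩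
  have hzw : z ≠ sg G (sg G x) := fun he => nx_self62 G hz (by rw [e2]; exact he.symm)
  have hcK : nx G (sg G x) ∈ KK62 G x :=
    Finset.mem_union_right _ ((mem_kS42 G).2 ⟨hn, k2⟩)
  have hcx : nx G (sg G x) ≠ x := fun he => hab (by
    have h1 : (nx G (sg G x)).1 = x.1 := by rw [he]
    exact h1)
  have hc1 := dem_cap62 G hG h (B := {nx G (sg G x)}) (Finset.singleton_subset_iff.2 hcK)
    (by rw [Finset.mem_singleton]; exact hcx.symm) (by rw [Finset.mem_singleton]; exact hnx.symm)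
    hyK hne hnx
  have hc2 := wo_cap62 G hG hw (B := {z}) (Finset.singleton_subset_iff.2 hzK)
    (by rw [Finset.mem_singleton]; exact hzw.symm) hzK
  rw [Finset.sum_singleton] at hc1 hc2
  have hD := Ds_seven62 G hG hin h7 (by rw [hc]; norm_num) hys rfl
  have hD2 := Ds_seven62 G hG hin h7 (by rw [hc]; norm_num) hz hz2
  have hKK := KK_two62 G hG h
  have hW2 := wo_two62 G hG hw
  have hs1 := hw.strong z hzK hzw
  have hs2 : 0 ≤ sp G al (nx G (sg G x)) := h.strong _ hcK
  refine ⟨z, hzK, hzw, hz2, e2, e1, hcK, hs1, by rw [e1]; exact hs2, by rw [e1]; exact hg, ?_⟩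
  rw [hm]
  have h5 : sp G al (sg G (sg G x)) = gc G al (sg G (sg G x)) +
    gc G al (sg G (sg G (sg G x))) - 1 := rfl
  nlinarith

/-- **M1**, the demanding corner after the weak side `w`, `sg w = x` -/
theorem M1b62 (hG : G.Geo4 al kp U) (he : ep al < 1 / 2) {w : V × V} (h : Dem62 G al (sg G w)) (hw : WO62 G al w)
    (hin : w.2 ∈ inN G) (h7 : uv G al w.2 = 7)
    (hsum : 3 ≤ gc G al w + gc G al (sg G w) + gc G al (sg G (sg G w)) +
      gc G al (sg G (sg G (sg G w))) + gc G al (sg G (sg G (sg G (sg G w)))))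
    (hq : gc G al (sg G (sg G (sg G (sg G w)))) ≤ 1) : cv G w.2 = 2 := by
  have hep := ep_pos89 G hG
  have hwK : w ∈ kS G (ku G w) := (mem_kS42 G).2 ⟨hw.ws, rfl⟩
  have hD := hw.neg w hwK
  have hc2 := wo_cap62 G hG hw (B := ∅) (Finset.empty_subset _) (Finset.notMem_empty _) hwK
  rw [Finset.sum_empty, zero_add] at hc2
  have hKK := KK_two62 G hG h
  have hW2 := wo_two62 G hG hw
  refine two_big62 G hG he hw.ws hin h7 hD (c2 := - sp G al w - ep al)
    (c1 := 2 - gc G al (sg G w) - gc G al (sg G (sg G w)) - gc G al (sg G (sg G (sg G w))) -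
      2 * ep al) ?_ ?_ ?_
  · intro z hz hz2 hzn hzk
    have hzK : z ∈ KK62 G (sg G w) := Finset.mem_union_left _ ((mem_kS42 G).2 ⟨hz, hzk⟩)
    have hzx : z ≠ sg G w := fun he => nx_self62 G hz (by rw [hzn]; exact he.symm)
    have hzn2 : nx G z ≠ sg G (sg G w) := by
      rw [hzn]
      exact (sg_self62 G hG h.xs h.inn).symm
    have hc1 := dem_cap62 G hG h (B := ∅) (Finset.empty_subset _) (Finset.notMem_empty _)
      (Finset.notMem_empty _) hzK hzx hzn2
    rw [Finset.sum_empty, zero_add] at hc1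
    nlinarith
  · nlinarith
  · unfold sp
    linarith

/-- **M2**, the demanding corner after the weak side `w` -/
theorem M2b62 (hG : G.Geo4 al kp U) (he : ep al < 1 / 2) {w : V × V} (h : Dem62 G al (sg G w)) (hw : WO62 G al w)
    (hin : w.2 ∈ inN G) (h7 : uv G al w.2 = 7)
    (hsum : 3 ≤ gc G al w + gc G al (sg G w) + gc G al (sg G (sg G w)) +
      gc G al (sg G (sg G (sg G w))) + gc G al (sg G (sg G (sg G (sg G w)))))
    (hq : gc G al (sg G (sg G (sg G (sg G w)))) ≤ 1) (hab : w.2 ≠ (sg G (sg G w)).2) :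
    ∃ z ∈ KK62 G (sg G w), z.2 = w.2 ∧ nx G z = sg G w ∧ sg G z = nx G w ∧
      nx G w ∈ kS G (ku G w) ∧ nx G w ≠ w ∧ 0 ≤ sp G al z ∧ 0 ≤ sp G al (sg G z) ∧
      gc G al (sg G w) + gc G al (sg G z) = 1 - ep al ∧
      1 + 2 * ep al + (1 - gc G al (sg G (sg G (sg G (sg G w))))) ≤
        (1 - gc G al z) + (1 - gc G al (sg G z)) + (1 - gc G al (sg G (sg G z))) := by
  have hep := ep_pos89 G hG
  have hc := M1b62 G hG he h hw hin h7 hsum hq
  obtain ⟨z, hz, hz2, hzs, e1, e2, k1, k2, hn, hg, hm⟩ := partner62 G hG hw.ws hin h7 hc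
  have hzK : z ∈ KK62 G (sg G w) := Finset.mem_union_left _ ((mem_kS42 G).2 ⟨hz, k1⟩)
  have hzx : z ≠ sg G w := fun he => nx_self62 G hz (by rw [e2]; exact he.symm)
  have hzn2 : nx G z ≠ sg G (sg G w) := by
    rw [e2]
    exact (sg_self62 G hG h.xs h.inn).symm
  have hzy : z ≠ sg G (sg G w) := fun he => hab (by rw [← hz2, he])
  have hnK : nx G w ∈ kS G (ku G w) := (mem_kS42 G).2 ⟨hn, k2⟩
  have hnw := nx_self62 G hw.ws
  have hc1 := dem_cap62 G hG h (B := {z}) (Finset.singleton_subset_iff.2 hzK)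
    (by rw [Finset.mem_singleton]; exact hzx.symm) (by rw [Finset.mem_singleton]; exact hzy.symm)
    hzK hzx hzn2
  have hc2 := wo_cap62 G hG hw (B := {nx G w}) (Finset.singleton_subset_iff.2 hnK)
    (by rw [Finset.mem_singleton]; exact hnw.symm) ((mem_kS42 G).2 ⟨hw.ws, rfl⟩)
  rw [Finset.sum_singleton] at hc1 hc2
  have hD1 := Ds_seven62 G hG hin h7 (by rw [hc]; norm_num) hz hz2
  have hD2 := Ds_seven62 G hG hin h7 (by rw [hc]; norm_num) hw.ws rfl
  have hKK := KK_two62 G hG h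
  have hW2 := wo_two62 G hG hw
  have hs1 : 0 ≤ sp G al z := h.strong _ hzK
  have hs2 := hw.strong _ hnK hnw
  refine ⟨z, hzK, hz2, e2, e1, hnK, hnw, hs1, by rw [e1]; exact hs2, by rw [e1]; exact hg, ?_⟩
  rw [hm]
  have h5 : sp G al w = gc G al w + gc G al (sg G w) - 1 := rfl
  nlinarith

/-- **M3**: both three unit corners `sg x` and `sg t` of a pentagon are demanding, the weak side
is `sg (sg x)` and `sg (sg t) = x`: the partner at the apex `x.1 = (sg t).2` -/
theorem M3_62 (hG : G.Geo4 al kp U) (he : ep al < 1 / 2) {x t : V × V} (h : Dem62 G al x) (ht : Dem62 G al t)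
    (htx : sg G (sg G t) = x) (hin : (sg G t).2 ∈ inN G) (h7 : uv G al (sg G t).2 = 7)
    (hsum : 3 ≤ gc G al x + gc G al (sg G x) + gc G al (sg G (sg G x)) + gc G al t +
      gc G al (sg G t)) (hab : (sg G x).2 ≠ x.1) (hab2 : x.1 ≠ t.1) :
    ∃ z ∈ KK62 G x, z.2 = x.1 ∧ nx G z = x ∧ sg G z = nx G (sg G t) ∧
      nx G (sg G t) ∈ KK62 G t ∧ 0 ≤ sp G al z ∧ 0 ≤ sp G al (sg G z) ∧
      gc G al x + gc G al (sg G z) = 1 - ep al ∧
      1 + 3 * ep al ≤ (1 - gc G al z) + (1 - gc G al (sg G z)) + (1 - gc G al (sg G (sg G z))) := by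
  have hep := ep_pos89 G hG
  have hx1 : (sg G t).2 = x.1 := by rw [← htx]; rfl
  have hne := sg_self62 G hG h.xs h.inn
  have hnet := sg_self62 G hG ht.xs ht.inn
  have hys := ht.ys
  have hyK := dem_right62 G hys
  have hnt : nx G (sg G t) ≠ sg G t := nx_self62 G hys
  have hD := dem_neg62 G ht hyK hnet hnt
  have hKK := KK_two62 G hG h
  have hKK2 := KK_two62 G hG ht
  have hc : cv G (sg G t).2 = 2 := by
    have hc2 := dem_cap62 G hG ht (B := ∅) (Finset.empty_subset _) (Finset.notMem_empty _)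
      (Finset.notMem_empty _) hyK hnet hnt
    rw [Finset.sum_empty, zero_add, htx] at hc2
    refine two_big62 G hG he hys hin h7 hD
      (c1 := 2 - gc G al x - gc G al (sg G x) - gc G al (sg G (sg G x)) - ep al)
      (c2 := 2 - gc G al t - gc G al (sg G t) - gc G al x - ep al) ?_ ?_ ?_
    · intro z hz hz2 hzn hzk
      rw [htx] at hzn hzk
      have hzK : z ∈ KK62 G x := Finset.mem_union_left _ ((mem_kS42 G).2 ⟨hz, hzk⟩)
      have hzx : z ≠ x := fun he => nx_self62 G hz (by rw [hzn]; exact he.symm)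
      have hzn2 : nx G z ≠ sg G x := by rw [hzn]; exact hne.symm
      have hc1 := dem_cap62 G hG h (B := ∅) (Finset.empty_subset _) (Finset.notMem_empty _)
        (Finset.notMem_empty _) hzK hzx hzn2
      rw [Finset.sum_empty, zero_add] at hc1
      nlinarith
    · nlinarith
    · rw [htx]
      linarith
  obtain ⟨z, hz, hz2, hzs, e1, e2, k1, k2, hn, hg, hm⟩ := partner62 G hG hys hin h7 hc
  rw [htx] at e2 k1 hg hm
  have hzK : z ∈ KK62 G x := Finset.mem_union_left _ ((mem_kS42 G).2 ⟨hz, k1⟩)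
  have hzx : z ≠ x := fun he => nx_self62 G hz (by rw [e2]; exact he.symm)
  have hzn2 : nx G z ≠ sg G x := by rw [e2]; exact hne.symm
  have hzy : z ≠ sg G x := fun he => hab (by rw [← hx1, ← hz2, he])
  have hcK : nx G (sg G t) ∈ KK62 G t :=
    Finset.mem_union_right _ ((mem_kS42 G).2 ⟨hn, k2⟩)
  have hct : nx G (sg G t) ≠ t := fun he => hab2 (by
    have h1 : (nx G (sg G t)).1 = t.1 := by rw [he]
    rw [← hx1]
    exact h1)
  have hc1 := dem_cap62 G hG h (B := {z}) (Finset.singleton_subset_iff.2 hzK)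
    (by rw [Finset.mem_singleton]; exact hzx.symm) (by rw [Finset.mem_singleton]; exact hzy.symm)
    hzK hzx hzn2
  have hc2 := dem_cap62 G hG ht (B := {nx G (sg G t)}) (Finset.singleton_subset_iff.2 hcK)
    (by rw [Finset.mem_singleton]; exact hct.symm) (by rw [Finset.mem_singleton]; exact hnt.symm)
    hyK hnet hnt
  rw [Finset.sum_singleton] at hc1 hc2
  rw [htx] at hc2
  have hD1 := Ds_seven62 G hG hin h7 (by rw [hc]; norm_num) hz hz2
  have hD2 := Ds_seven62 G hG hin h7 (by rw [hc]; norm_num) hys rfl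
  have hs1 : 0 ≤ sp G al z := h.strong _ hzK
  have hs2 : 0 ≤ sp G al (nx G (sg G t)) := ht.strong _ hcK
  refine ⟨z, hzK, hz2.trans hx1, e2, e1, hcK, hs1, by rw [e1]; exact hs2, by rw [e1]; exact hg, ?_⟩
  rw [hm]
  nlinarith

/-- **capacity of the third black face** of a charged point: `y` is the sector not at `sg x` -/
theorem third_cap62 (hG : G.Geo4 al kp U) {v : V} (hv : v ∈ inN G) (hc : cv G v = 3)
    (h8 : uv G al v = 8) {x : V × V} (hx : x ∈ Sv G v) :
    ∃ y ∈ Sv G v, y ≠ x ∧ sg G y = nx G x ∧ Ds G al y = 1 - ep al - gc G al (sg G x) ∧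
      ∀ B : Finset (V × V), B ⊆ kS G (ku G y) → (∀ s ∈ kS G (ku G y), 0 ≤ sp G al s) →
        (∀ s ∈ kS G (ku G y), s ≠ y → Ds G al s ≤ 0) →
        ∑ s ∈ B, sp G al s ≤ 1 - gc G al (sg G x) - ep al := by
  obtain ⟨y, hy, z, hz, hyx, hzx, hzy, hS, hB, e1, e2, e3⟩ := c3_89 G hG hv hc hx
  obtain ⟨hy1, hy2⟩ := (mem_Sv62 G).1 hy
  have hs := sum_gcB39 G hG hv
  have n1 : sg G x ≠ sg G y := fun h => hyx (sg_injSv89 G hG hv hx hy h).symm
  have n2 : sg G x ≠ sg G z := fun h => hzx (sg_injSv89 G hG hv hx hz h).symm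
  have n3 : sg G y ≠ sg G z := fun h => hzy (sg_injSv89 G hG hv hy hz h).symm
  rw [hB, Finset.sum_insert (by
    simp only [Finset.mem_insert, Finset.mem_singleton]
    rintro (h | h)
    · exact n1 h
    · exact n2 h), Finset.sum_insert (by
    rw [Finset.mem_singleton]; exact n3), Finset.sum_singleton, kv_eq89, h8] at hs
  have hDy : Ds G al y = 1 - ep al - gc G al (sg G x) := by
    unfold Ds
    rw [← e2]
    norm_num at hs
    linarith
  refine ⟨y, hy, hyx, e1, hDy, fun B hB hstr hneg => ?_⟩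
  have hyK : y ∈ kS G (ku G y) := (mem_kS42 G).2 ⟨hy1, rfl⟩
  have hnK : nx G y ∈ kS G (ku G y) := nx_kS89 G hG hyK
  have hbal := bal62 (S := kS G (ku G y)) (A := {y}) (B := B)
    (D := Ds G al) (s := sp G al) (sum_Ds89 G hG _) (Finset.singleton_subset_iff.2 hyK) hB
    (fun s hs hn => hneg s hs (fun h => hn (Finset.mem_singleton.2 h)))
    (fun s hs _ => hstr s hs) hnK
    (by rw [Finset.mem_singleton]; exact nx_self62 G hy1)
  rw [Finset.sum_singleton, hDy] at hbal
  have h2 := hneg _ hnK (nx_self62 G hy1)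
  linarith

/-- a black face has at least two sides -/
theorem kS_two62 (hG : G.Geo4 al kp U) {w : V × V} (h : w ∈ SD G) :
    (2 : ℝ) ≤ (kS G (ku G w)).card := by
  have h1 : ({w, nx G w} : Finset (V × V)) ⊆ kS G (ku G w) := by
    intro y hy
    rcases Finset.mem_insert.1 hy with h1 | h1
    · rw [h1]; exact (mem_kS42 G).2 ⟨h, rfl⟩
    · rw [Finset.mem_singleton.1 h1]
      obtain ⟨h2, h3⟩ := nx_mem42 G hG ((mem_SD42 G).1 h).1
      exact (mem_kS42 G).2 ⟨h2, h3⟩
  have h2 := Finset.card_le_card h1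
  rw [Finset.card_pair (nx_self62 G h).symm] at h2
  exact_mod_cast h2

/-- **M4**, a charged corner at the head of `x`, the black face behind `x` is a digon -/
theorem M4a62 (hG : G.Geo4 al kp U) {x : V × V} (hxs : x ∈ SD G) (hin : x.2 ∈ inN G)
    (hc : cv G x.2 = 3) (h8 : uv G al x.2 = 8) (hdi : nx G (nx G x) = x)
    (hia : x.1 ∈ inN G) (h7 : uv G al x.1 = 7) (hc2 : cv G x.1 = 2)
    (hthird : ∀ y ∈ Sv G x.2, sg G y = nx G x → (∀ s ∈ kS G (ku G y), 0 ≤ sp G al s) ∧
      ∀ s ∈ kS G (ku G y), s ≠ y → Ds G al s ≤ 0) :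
    ∃ y ∈ Sv G x.2, y ≠ x ∧ sg G y = nx G x ∧ gc G al x + gc G al (sg G (nx G x)) = 1 - ep al ∧
      1 + sp G al x + 2 * ep al ≤
        (1 - gc G al y) + (1 - gc G al (sg G y)) + (1 - gc G al (sg G (sg G y))) := by
  have hep := ep_pos89 G hG
  have hx : x ∈ Sv G x.2 := (mem_Sv62 G).2 ⟨hxs, rfl⟩
  obtain ⟨y, hy, hyx, e1, -, hcap⟩ := third_cap62 G hG hin hc h8 hx
  obtain ⟨hy1, hy2⟩ := (mem_Sv62 G).1 hy
  obtain ⟨t1, t2⟩ := hthird y hy e1
  have hyK : y ∈ kS G (ku G y) := (mem_kS42 G).2 ⟨hy1, rfl⟩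
  have h1 := hcap {y} (Finset.singleton_subset_iff.2 hyK) t1 t2
  rw [Finset.sum_singleton] at h1
  have h2 := kS_two62 G hG hy1
  have hn := (nx_mem42 G hG ((mem_SD42 G).1 hxs).1).1
  have hn2 : (nx G x).2 = x.1 := by
    have h3 : (nx G (nx G x)).1 = (nx G x).2 := rfl
    rw [← h3, hdi]
  obtain ⟨z, -, -, -, -, -, -, -, -, hg, -⟩ := partner62 G hG hn (by rw [hn2]; exact hia)
    (by rw [hn2]; exact h7) (by rw [hn2]; exact hc2)
  rw [hdi] at hg
  refine ⟨y, hy, hyx, e1, by linarith, ?_⟩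
  have h3 : sp G al y = gc G al y + gc G al (sg G y) - 1 := rfl
  have h4 : sp G al x = gc G al x + gc G al (sg G x) - 1 := rfl
  rw [← e1] at hg
  nlinarith

/-- **M4**, a charged corner at the head of `x`, the black face behind `sg x` is a digon -/
theorem M4b62 (hG : G.Geo4 al kp U) {x : V × V} (hxs : x ∈ SD G) (hys : sg G x ∈ SD G)
    (hin : x.2 ∈ inN G)
    (hc : cv G x.2 = 3) (h8 : uv G al x.2 = 8) (hdi : nx G (nx G (sg G x)) = sg G x)
    (hia : (sg G x).2 ∈ inN G) (h7 : uv G al (sg G x).2 = 7) (hc2 : cv G (sg G x).2 = 2)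
    (hthird : ∀ y ∈ Sv G x.2, sg G y = nx G x → (∀ s ∈ kS G (ku G y), 0 ≤ sp G al s) ∧
      ∀ s ∈ kS G (ku G y), s ≠ y → Ds G al s ≤ 0) :
    ∃ z ∈ Sv G x.2, z ≠ x ∧ z = nx G (sg G x) ∧
      gc G al (sg G (sg G x)) + gc G al z = 1 - ep al ∧
      1 + sp G al (sg G x) + 2 * ep al ≤
        (1 - gc G al z) + (1 - gc G al (sg G z)) + (1 - gc G al (sg G (sg G z))) := by
  have hep := ep_pos89 G hG
  have hx : x ∈ Sv G x.2 := (mem_Sv62 G).2 ⟨hxs, rfl⟩
  obtain ⟨y, hy, hyx, e1, -, hcap⟩ := third_cap62 G hG hin hc h8 hx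
  obtain ⟨hy1, hy2⟩ := (mem_Sv62 G).1 hy
  obtain ⟨t1, t2⟩ := hthird y hy e1
  obtain ⟨y', hy', z, hz, hyx', hzx, hzy, hS, hB, f1, f2, f3⟩ := c3_89 G hG hin hc hx
  have hyy : y' = y := sg_injSv89 G hG hin hy' hy (by rw [f1, e1])
  subst hyy
  obtain ⟨hz1, hz2⟩ := (mem_Sv62 G).1 hz
  have hn := nx_mem42 G hG ((mem_SD42 G).1 hys).1
  have hzn : z = nx G (sg G x) := by
    refine nx_injSv89 G hG hz ((mem_Sv62 G).2 ⟨hn.1, ?_⟩) (by rw [f3, hdi])
    have h3 : (nx G (nx G (sg G x))).1 = (nx G (sg G x)).2 := rfl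
    rw [← h3, hdi]
    rfl
  have hk := nx_mem42 G hG ((mem_SD42 G).1 hy1).1
  rw [← f2] at hk
  have hzK : sg G z ∈ kS G (ku G y') := (mem_kS42 G).2 ⟨hk.1, hk.2⟩
  have h1 := hcap {sg G z} (Finset.singleton_subset_iff.2 hzK) t1 t2
  rw [Finset.sum_singleton] at h1
  have h2 := kS_two62 G hG hy1
  obtain ⟨z', -, -, -, -, -, -, -, -, hg, -⟩ := partner62 G hG hys hia h7 hc2
  rw [← hzn] at hg
  refine ⟨z, hz, hzx, hzn, hg, ?_⟩
  have h3 : sp G al (sg G z) = gc G al (sg G z) + gc G al (sg G (sg G z)) - 1 := rfl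
  have h4 : sp G al (sg G x) = gc G al (sg G x) + gc G al (sg G (sg G x)) - 1 := rfl
  nlinarith

/-- **M6**, a point with two big corners between the two weak sides `w`, `sg w` of one class -/
theorem M6a62 (hG : G.Geo4 al kp U) {w : V × V} (h1 : WO62 G al w) (h2 : WO62 G al (sg G w))
    (hin : w.2 ∈ inN G) (h7 : uv G al w.2 = 7) (hc : cv G w.2 = 2) :
    ∃ z ∈ kS G (ku G (sg G w)), z ≠ sg G w ∧ z.2 = w.2 ∧ nx G z = sg G w ∧ sg G z = nx G w ∧
      nx G w ∈ kS G (ku G w) ∧ nx G w ≠ w ∧ 0 ≤ sp G al z ∧ 0 ≤ sp G al (sg G z) ∧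
      gc G al (sg G w) + gc G al (sg G z) = 1 - ep al ∧
      gc G al w + gc G al (sg G w) + gc G al (sg G (sg G w)) + ep al ≤
        (1 - gc G al z) + (1 - gc G al (sg G z)) + (1 - gc G al (sg G (sg G z))) := by
  have hep := ep_pos89 G hG
  obtain ⟨z, hz, hz2, hzs, e1, e2, k1, k2, hn, hg, hm⟩ := partner62 G hG h1.ws hin h7 hc
  have hzK : z ∈ kS G (ku G (sg G w)) := (mem_kS42 G).2 ⟨hz, k1⟩
  have hzw : z ≠ sg G w := fun he => nx_self62 G hz (by rw [e2]; exact he.symm)
  have hnK : nx G w ∈ kS G (ku G w) := (mem_kS42 G).2 ⟨hn, k2⟩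
  have hnw := nx_self62 G h1.ws
  have c1 := wo_cap62 G hG h1 (B := {nx G w}) (Finset.singleton_subset_iff.2 hnK)
    (by rw [Finset.mem_singleton]; exact hnw.symm) ((mem_kS42 G).2 ⟨h1.ws, rfl⟩)
  have c2 := wo_cap62 G hG h2 (B := {z}) (Finset.singleton_subset_iff.2 hzK)
    (by rw [Finset.mem_singleton]; exact hzw.symm) hzK
  rw [Finset.sum_singleton] at c1 c2
  have d1 := Ds_seven62 G hG hin h7 (by rw [hc]; norm_num) h1.ws rfl
  have d2 := Ds_seven62 G hG hin h7 (by rw [hc]; norm_num) hz hz2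
  have b1 := wo_two62 G hG h1
  have b2 := wo_two62 G hG h2
  refine ⟨z, hzK, hzw, hz2, e2, e1, hnK, hnw, h2.strong z hzK hzw,
    by rw [e1]; exact h1.strong _ hnK hnw, by rw [e1]; exact hg, ?_⟩
  rw [hm]
  have f1 : sp G al w = gc G al w + gc G al (sg G w) - 1 := rfl
  have f2 : sp G al (sg G w) = gc G al (sg G w) + gc G al (sg G (sg G w)) - 1 := rfl
  nlinarith

/-- **M6**, a point with two big corners between the demanding corner `sg x` and the weak side
`sg (sg x)` -/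
theorem M6b62 (hG : G.Geo4 al kp U) {x : V × V} (h : Dem62 G al x)
    (hw : WO62 G al (sg G (sg G x))) (hin : (sg G x).2 ∈ inN G) (h7 : uv G al (sg G x).2 = 7)
    (hc : cv G (sg G x).2 = 2) (hab : (sg G x).2 ≠ x.1) :
    ∃ z ∈ kS G (ku G (sg G (sg G x))), z ≠ sg G (sg G x) ∧ z.2 = (sg G x).2 ∧
      nx G z = sg G (sg G x) ∧ sg G z = nx G (sg G x) ∧ nx G (sg G x) ∈ KK62 G x ∧
      0 ≤ sp G al z ∧ 0 ≤ sp G al (sg G z) ∧
      gc G al (sg G (sg G x)) + gc G al (sg G z) = 1 - ep al ∧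
      gc G al x + gc G al (sg G x) + gc G al (sg G (sg G x)) + gc G al (sg G (sg G (sg G x))) -
        1 + 2 * ep al ≤
        (1 - gc G al z) + (1 - gc G al (sg G z)) + (1 - gc G al (sg G (sg G z))) := by
  have hep := ep_pos89 G hG
  have hne := sg_self62 G hG h.xs h.inn
  have hys := h.ys
  have hyK := dem_right62 G hys
  have hnx : nx G (sg G x) ≠ sg G x := nx_self62 G hys
  have hD := dem_neg62 G h hyK hne hnx
  obtain ⟨z, hz, hz2, hzs, e1, e2, k1, k2, hn, hg, hm⟩ := partner62 G hG hys hin h7 hc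
  have hzK : z ∈ kS G (ku G (sg G (sg G x))) := (mem_kS42 G).2 ⟨hz, k1⟩
  have hzw : z ≠ sg G (sg G x) := fun he => nx_self62 G hz (by rw [e2]; exact he.symm)
  have hcK : nx G (sg G x) ∈ KK62 G x :=
    Finset.mem_union_right _ ((mem_kS42 G).2 ⟨hn, k2⟩)
  have hcx : nx G (sg G x) ≠ x := fun he => hab (by
    have h1 : (nx G (sg G x)).1 = x.1 := by rw [he]
    exact h1)
  have hc1 := dem_cap62 G hG h (B := {nx G (sg G x)}) (Finset.singleton_subset_iff.2 hcK)
    (by rw [Finset.mem_singleton]; exact hcx.symm) (by rw [Finset.mem_singleton]; exact hnx.symm)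
    hyK hne hnx
  have hc2 := wo_cap62 G hG hw (B := {z}) (Finset.singleton_subset_iff.2 hzK)
    (by rw [Finset.mem_singleton]; exact hzw.symm) hzK
  rw [Finset.sum_singleton] at hc1 hc2
  have hD := Ds_seven62 G hG hin h7 (by rw [hc]; norm_num) hys rfl
  have hD2 := Ds_seven62 G hG hin h7 (by rw [hc]; norm_num) hz hz2
  have hKK := KK_two62 G hG h
  have hW2 := wo_two62 G hG hw
  have hs1 := hw.strong z hzK hzw
  have hs2 : 0 ≤ sp G al (nx G (sg G x)) := h.strong _ hcK
  refine ⟨z, hzK, hzw, hz2, e2, e1, hcK, hs1, by rw [e1]; exact hs2, by rw [e1]; exact hg, ?_⟩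
  rw [hm]
  have h5 : sp G al (sg G (sg G x)) = gc G al (sg G (sg G x)) +
    gc G al (sg G (sg G (sg G x))) - 1 := rfl
  nlinarith

/-- **M6**, a point with two big corners between the weak side `w` and the demanding corner
`sg (sg w)` -/
theorem M6c62 (hG : G.Geo4 al kp U) {w : V × V} (h : Dem62 G al (sg G w)) (hw : WO62 G al w)
    (hin : w.2 ∈ inN G) (h7 : uv G al w.2 = 7) (hc : cv G w.2 = 2)
    (hab : w.2 ≠ (sg G (sg G w)).2) :
    ∃ z ∈ KK62 G (sg G w), z.2 = w.2 ∧ nx G z = sg G w ∧ sg G z = nx G w ∧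
      nx G w ∈ kS G (ku G w) ∧ nx G w ≠ w ∧ 0 ≤ sp G al z ∧ 0 ≤ sp G al (sg G z) ∧
      gc G al (sg G w) + gc G al (sg G z) = 1 - ep al ∧
      gc G al w + gc G al (sg G w) + gc G al (sg G (sg G w)) + gc G al (sg G (sg G (sg G w))) -
        1 + 2 * ep al ≤
        (1 - gc G al z) + (1 - gc G al (sg G z)) + (1 - gc G al (sg G (sg G z))) := by
  have hep := ep_pos89 G hG
  obtain ⟨z, hz, hz2, hzs, e1, e2, k1, k2, hn, hg, hm⟩ := partner62 G hG hw.ws hin h7 hc
  have hzK : z ∈ KK62 G (sg G w) := Finset.mem_union_left _ ((mem_kS42 G).2 ⟨hz, k1⟩)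
  have hzx : z ≠ sg G w := fun he => nx_self62 G hz (by rw [e2]; exact he.symm)
  have hzn2 : nx G z ≠ sg G (sg G w) := by
    rw [e2]
    exact (sg_self62 G hG h.xs h.inn).symm
  have hzy : z ≠ sg G (sg G w) := fun he => hab (by rw [← hz2, he])
  have hnK : nx G w ∈ kS G (ku G w) := (mem_kS42 G).2 ⟨hn, k2⟩
  have hnw := nx_self62 G hw.ws
  have hc1 := dem_cap62 G hG h (B := {z}) (Finset.singleton_subset_iff.2 hzK)
    (by rw [Finset.mem_singleton]; exact hzx.symm) (by rw [Finset.mem_singleton]; exact hzy.symm)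
    hzK hzx hzn2
  have hc2 := wo_cap62 G hG hw (B := {nx G w}) (Finset.singleton_subset_iff.2 hnK)
    (by rw [Finset.mem_singleton]; exact hnw.symm) ((mem_kS42 G).2 ⟨hw.ws, rfl⟩)
  rw [Finset.sum_singleton] at hc1 hc2
  have hD1 := Ds_seven62 G hG hin h7 (by rw [hc]; norm_num) hz hz2
  have hD2 := Ds_seven62 G hG hin h7 (by rw [hc]; norm_num) hw.ws rfl
  have hKK := KK_two62 G hG h
  have hW2 := wo_two62 G hG hw
  have hs1 : 0 ≤ sp G al z := h.strong _ hzK
  have hs2 := hw.strong _ hnK hnw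
  refine ⟨z, hzK, hz2, e2, e1, hnK, hnw, hs1, by rw [e1]; exact hs2, by rw [e1]; exact hg, ?_⟩
  rw [hm]
  have h5 : sp G al w = gc G al w + gc G al (sg G w) - 1 := rfl
  nlinarith

end

end Pool.Agent.PEN.E5
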