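import Pool.Agent.E5.KT42
import Pool.Agent.E5.Lm62
import Pool.Agent.E5.SL2

/-! # PENNY, small diameters: demands at the boundary

The black faces at a demanding corner use gaps at outer points if they have outer heads. -/

set_option autoImplicit false

namespace Pool.Agent.PEN.E5

open Classical UpperHalfPlane
open Pool.Agent.PEN.Cl

noncomputable section

variable {V : Type} (G : Tg V) {al : ℝ} {kp : V → V → ℝ} {U : ℕ → ℝ}

/-- the surplus of the sectors at a demanding corner, from the type of the point only -/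
theorem dem_sum42 (hG : G.Geo4 al kp U) {x : V × V} (hin : x.2 ∈ inN G) (hxs : x ∈ SD G)
    (hty : (cv G x.2 = 1 ∧ uv G al x.2 = 7) ∨ (cv G x.2 = 3 ∧ uv G al x.2 = 8)) :
    ∑ y ∈ (KK62 G x).filter (fun y => y = x ∨ nx G y = sg G x), Ds G al y ≤
      gc G al (sg G x) - ep al := by
  have hep := ep_pos89 G hG
  have hxS : x ∈ Sv G x.2 := (mem_Sv62 G).2 ⟨hxs, rfl⟩
  rcases hty with ⟨hc, hu⟩ | ⟨hc, hu⟩
  · obtain ⟨e1, e2, e3⟩ := c1_89 G hG hin hc hxS
    have hA : (KK62 G x).filter (fun y => y = x ∨ nx G y = sg G x) = {x} := by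
      ext y
      rw [Finset.mem_filter, Finset.mem_singleton]
      constructor
      · rintro ⟨h1, h2 | h2⟩
        · exact h2
        · have hy : y ∈ SD G := KK_SD62 G h1
          have h4 : y.2 = x.2 := by
            have h5 : (nx G y).1 = (sg G x).1 := by rw [h2]
            exact h5
          have h6 : y ∈ Sv G x.2 := (mem_Sv62 G).2 ⟨hy, h4⟩
          rw [e1] at h6
          exact Finset.mem_singleton.1 h6
      · rintro rfl
        exact ⟨dem_left62 G hxs, Or.inl rfl⟩
    rw [hA, Finset.sum_singleton]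
    have h1 := Ds_one89 G hG hin hxs rfl hc
    have h2 := sum_gcB39 G hG hin
    rw [e2, Finset.sum_singleton, kv_eq89, hu] at h2
    rw [h1, kv_eq89, hu, h2]
    norm_num
    linarith
  · obtain ⟨y, hy, z, hz, hyx, hzx, hzy, hS, hB, e1, e2, e3⟩ := c3_89 G hG hin hc hxS
    have hzK : z ∈ KK62 G x := by
      obtain ⟨hz1, hz2⟩ := (mem_Sv62 G).1 hz
      have h3 := (nx_mem42 G hG ((mem_SD42 G).1 hz1).1).2
      rw [e3] at h3
      exact Finset.mem_union_right _ ((mem_kS42 G).2 ⟨hz1, h3.symm⟩)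
    have hA : (KK62 G x).filter (fun y => y = x ∨ nx G y = sg G x) = {x, z} := by
      ext t
      rw [Finset.mem_filter, Finset.mem_insert, Finset.mem_singleton]
      constructor
      · rintro ⟨h1, h2 | h2⟩
        · exact Or.inl h2
        · right
          have ht : t ∈ SD G := KK_SD62 G h1
          have h4 : t.2 = x.2 := by
            have h5 : (nx G t).1 = (sg G x).1 := by rw [h2]
            exact h5
          exact nx_injSv89 G hG ((mem_Sv62 G).2 ⟨ht, h4⟩) hz (by rw [h2, e3])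
      · rintro (rfl | rfl)
        · exact ⟨dem_left62 G hxs, Or.inl rfl⟩
        · exact ⟨hzK, Or.inr e3⟩
    rw [hA, Finset.sum_pair hzx.symm]
    have hs := sum_gcB39 G hG hin
    have n1 : sg G x ≠ sg G y := fun h => hyx (sg_injSv89 G hG hin hxS hy h).symm
    have n2 : sg G x ≠ sg G z := fun h => hzx (sg_injSv89 G hG hin hxS hz h).symm
    have n3 : sg G y ≠ sg G z := fun h => hzy (sg_injSv89 G hG hin hy hz h).symm
    rw [hB, Finset.sum_insert (by
      simp only [Finset.mem_insert, Finset.mem_singleton]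
      rintro (h | h)
      · exact n1 h
      · exact n2 h), Finset.sum_insert (by
      rw [Finset.mem_singleton]; exact n3), Finset.sum_singleton, kv_eq89, hu] at hs
    unfold Ds
    rw [← e1, e3]
    norm_num at hs ⊢
    linarith

/-- the balance in the union of two black faces -/
theorem bal42 (hG : G.Geo4 al kp U) (K L : (cg G).ConnectedComponent) :
    ∑ x ∈ (kS G K ∪ kS G L).filter (fun x => x ∈ BC G), sp G al x +
      ∑ M ∈ ({K, L} : Finset (cg G).ConnectedComponent), (oK14 G M : ℝ) =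
    ∑ x ∈ (kS G K ∪ kS G L).filter (fun x => x.2 ∈ inN G), Ds G al x +
      ∑ M ∈ ({K, L} : Finset (cg G).ConnectedComponent), uK14 G al M := by
  have hK := U1_14 G hG (al := al) K
  have hL := U1_14 G hG (al := al) L
  by_cases h : K = L
  · subst h
    rw [Finset.union_self, Finset.pair_eq_singleton, Finset.sum_singleton, Finset.sum_singleton]
    linarith
  · have hd : Disjoint (kS G K) (kS G L) := by
      rw [Finset.disjoint_left]
      intro x hx hy
      exact h (((mem_kS42 G).1 hx).2.symm.trans ((mem_kS42 G).1 hy).2)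
    rw [Finset.filter_union, Finset.filter_union,
      Finset.sum_union (Finset.disjoint_filter_filter hd),
      Finset.sum_union (Finset.disjoint_filter_filter hd), Finset.sum_pair h, Finset.sum_pair h]
    linarith

/-- **the uses of the black faces at a demanding corner** `sg x` at the head of `x` -/
theorem demuse42 (hG : G.Geo4 al kp U) {x : V × V} (hin : x.2 ∈ inN G) (hxs : x ∈ SD G)
    (hys : sg G x ∈ SD G)
    (hty : (cv G x.2 = 1 ∧ uv G al x.2 = 7) ∨ (cv G x.2 = 3 ∧ uv G al x.2 = 8))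
    (hs : ∀ y ∈ KK62 G x, y ∈ BC G → 0 ≤ sp G al y)
    (hn : ∀ y ∈ KK62 G x, y.2 ∈ inN G → y ≠ x → nx G y ≠ sg G x → Ds G al y ≤ 0) :
    gc G al x + gc G al (sg G x) + gc G al (sg G (sg G x)) - 2 + ep al +
      ∑ M ∈ ({ku G x, ku G (sg G x)} : Finset (cg G).ConnectedComponent), (oK14 G M : ℝ) ≤
      ∑ M ∈ ({ku G x, ku G (sg G x)} : Finset (cg G).ConnectedComponent), uK14 G al M := by
  have h1 := bal42 G hG (al := al) (ku G x) (ku G (sg G x))
  have h2 := dem_sum42 G hG hin hxs hty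
  have hb := sector_corners89 G hG hin hxs rfl
  have hxB : x ∈ BC G := (BC_or14 G hxs).resolve_right (inner_sides85 G hG hxs hin).1
  have hyB : sg G x ∈ BC G := by
    refine (BC_or14 G hys).resolve_right fun h => ?_
    exact ((mem_oJ66 G).1 h).2.2 ((mem_iJ71 G).1 ((mem_Jv51 G).1 hb.1).1).1
  have hne : sg G x ≠ x := sg_self62 G hG hxs hin
  have h3 : sp G al x + sp G al (sg G x) ≤
      ∑ y ∈ (KK62 G x).filter (fun y => y ∈ BC G), sp G al y := by
    rw [← Finset.sum_pair hne.symm]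
    refine Finset.sum_le_sum_of_subset_of_nonneg ?_ fun y hy _ => ?_
    · intro y hy
      rcases Finset.mem_insert.1 hy with h | h
      · rw [h]; exact Finset.mem_filter.2 ⟨dem_left62 G hxs, hxB⟩
      · rw [Finset.mem_singleton.1 h]; exact Finset.mem_filter.2 ⟨dem_right62 G hys, hyB⟩
    · obtain ⟨h4, h5⟩ := Finset.mem_filter.1 hy
      exact hs y h4 h5
  have h4 : ∑ y ∈ (KK62 G x).filter (fun y => y.2 ∈ inN G), Ds G al y ≤
      ∑ y ∈ (KK62 G x).filter (fun y => y = x ∨ nx G y = sg G x), Ds G al y := by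
    have e3 : (KK62 G x).filter (fun y => y = x ∨ nx G y = sg G x) ⊆
        (KK62 G x).filter (fun y => y.2 ∈ inN G) := by
      intro y hy
      obtain ⟨h5, h6⟩ := Finset.mem_filter.1 hy
      refine Finset.mem_filter.2 ⟨h5, ?_⟩
      rcases h6 with h6 | h6
      · rw [h6]; exact hin
      · have h7 : (nx G y).1 = (sg G x).1 := by rw [h6]
        have h8 : y.2 = x.2 := h7
        rw [h8]; exact hin
    rw [← Finset.sum_sdiff e3]
    have e4 : ∑ y ∈ (KK62 G x).filter (fun y => y.2 ∈ inN G) \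
        (KK62 G x).filter (fun y => y = x ∨ nx G y = sg G x), Ds G al y ≤ 0 := by
      refine Finset.sum_nonpos fun y hy => ?_
      obtain ⟨h5, h6⟩ := Finset.mem_sdiff.1 hy
      obtain ⟨h7, h8⟩ := Finset.mem_filter.1 h5
      have h9 : ¬ (y = x ∨ nx G y = sg G x) := fun h => h6 (Finset.mem_filter.2 ⟨h7, h⟩)
      push Not at h9
      exact hn y h7 h8 h9.1 h9.2
    linarith
  have h5 : sp G al x + sp G al (sg G x) = gc G al x + 2 * gc G al (sg G x) +
      gc G al (sg G (sg G x)) - 2 := by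
    unfold sp
    ring
  unfold KK62 at h2 h3 h4
  linarith

/-- **the uses of a hole**: leaves only, strong sides, no two consecutive leaves -/
theorem leafuse42 (hG : G.Geo4 al kp U) (h1 : ∀ x ∈ iJ G, gc G al x ≤ 1)
    {K : (cg G).ConnectedComponent} (hP : PK G al K = ∅)
    (hs : ∀ x ∈ kS G K, x ∈ BC G → 0 ≤ sp G al x) (hL : ∀ x ∈ Lv G K, nx G x ∉ Lv G K)
    {B : Finset (V × V)} (hB : B ⊆ (kS G K).filter (fun x => x ∈ BC G ∧ 0 ≤ sp G al x))
    (hB1 : ∀ x ∈ Lv G K, x ∉ B ∧ nx G x ∉ B) {Y : Finset (V × V)}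
    (hY : Y ⊆ (kS G K).filter (fun x => x.2 ∈ inN G ∧ x ∉ LP42 G al K)) :
    ∑ x ∈ Lv G K, (gc G al x + gc G al (sg G (sg G x))) + oK14 G K + ∑ x ∈ B, sp G al x +
      ∑ x ∈ Y, (- Ds G al x) ≤ uK14 G al K + (Lv G K).card := by
  have hw : (kS G K).filter (fun x => x ∈ BC G ∧ sp G al x < 0) = ∅ := by
    rw [Finset.filter_eq_empty_iff]
    intro x hx h
    have := hs x hx h.1
    linarith [h.2]
  have hkS : ∀ x ∈ Lv G K, x ∈ kS G K ∧ nx G x ∈ kS G K := by
    intro x hx
    have h1 := ((mem_Lv15 G).1 hx).1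
    exact ⟨h1, nx_kS89 G hG h1⟩
  have hbc : ∀ x ∈ Lv G K, x ∈ BC G ∧ nx G x ∈ BC G := by
    intro x hx
    obtain ⟨h2, h3, h4⟩ := (mem_Lv15 G).1 hx
    exact BC_head14 G hG (mem_kS89 G h2) h3
  have hinj : Set.InjOn (nx G) (Lv G K : Set (V × V)) := fun x hx y hy h =>
    nx_inj42 G hG (mem_kS89 G (hkS x (Finset.mem_coe.1 hx)).1)
      (mem_kS89 G (hkS y (Finset.mem_coe.1 hy)).1) h
  have d1 : Disjoint (Lv G K) ((Lv G K).image (nx G)) := by
    rw [Finset.disjoint_left]
    intro y hy hy2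
    obtain ⟨z, hz, rfl⟩ := Finset.mem_image.1 hy2
    exact hL z hz hy
  have d2 : Disjoint (Lv G K ∪ (Lv G K).image (nx G)) B := by
    rw [Finset.disjoint_left]
    intro y hy hy2
    rcases Finset.mem_union.1 hy with h | h
    · exact (hB1 y h).1 hy2
    · obtain ⟨z, hz, rfl⟩ := Finset.mem_image.1 h
      exact (hB1 z hz).2 hy2
  have hc := cap42 G hG (al := al) K (B := (Lv G K ∪ (Lv G K).image (nx G)) ∪ B) (Y := Y) (by
    intro y hy
    rcases Finset.mem_union.1 hy with h | h
    · rcases Finset.mem_union.1 h with h | h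
      · exact Finset.mem_filter.2 ⟨(hkS y h).1, (hbc y h).1, hs y (hkS y h).1 (hbc y h).1⟩
      · obtain ⟨z, hz, rfl⟩ := Finset.mem_image.1 h
        exact Finset.mem_filter.2 ⟨(hkS z hz).2, (hbc z hz).2, hs _ (hkS z hz).2 (hbc z hz).2⟩
    · exact hB h) hY
  have hLP : LP42 G al K = Lv G K := by
    unfold LP42
    rw [hP, Finset.union_empty]
  rw [hw, Finset.sum_empty, hLP, Finset.sum_union d2, Finset.sum_union d1,
    Finset.sum_image fun x hx y hy h => hinj (Finset.mem_coe.2 hx) (Finset.mem_coe.2 hy) h] at hc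
  have e1 : ∑ x ∈ Lv G K, (gc G al x + gc G al (sg G (sg G x))) =
      ∑ x ∈ Lv G K, sp G al x + ∑ x ∈ Lv G K, sp G al (nx G x) + 2 * ep al * (Lv G K).card := by
    rw [← Finset.sum_add_distrib]
    have e2 : 2 * ep al * ((Lv G K).card : ℝ) = ∑ x ∈ Lv G K, 2 * ep al := by
      rw [Finset.sum_const, nsmul_eq_mul, mul_comm]
    rw [e2, ← Finset.sum_add_distrib]
    refine Finset.sum_congr rfl fun x hx => ?_
    obtain ⟨h2, h3, h4⟩ := (mem_Lv15 G).1 hx
    obtain ⟨h5, h6⟩ := leaf_gc2 G hG h1 (mem_kS89 G h2) h3 h4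
    rw [h5]
    unfold sp
    linarith
  have e3 : ∑ x ∈ Lv G K, Ds G al x = (1 - 2 * ep al) * (Lv G K).card := by
    rw [mul_comm, ← nsmul_eq_mul, ← Finset.sum_const]
    refine Finset.sum_congr rfl fun x hx => ?_
    obtain ⟨h2, h3, h4⟩ := (mem_Lv15 G).1 hx
    have h5 := Ds_one89 G hG h3 (mem_kS89 G h2) rfl h4
    rw [kv_eq89, leaf_uv39 G hG h1 h3 h4] at h5
    rw [h5]
    push_cast
    ring
  rw [e3] at hc
  rw [e1]
  linarith

end

end Pool.Agent.PEN.E5
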