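import Pool.Agent.E5.Vr69

/-! # PENNY, small diameters: the ends of a digon at a point with seven units -/

set_option autoImplicit false

namespace Pool.Agent.PEN.E5

open Classical UpperHalfPlane
open Pool.Agent.PEN.Cl

noncomputable section

variable {V : Type} (G : Tg V) {al : ℝ} {kp : V → V → ℝ} {U : ℕ → ℝ}

/-- **the end of a digon** at a point with seven units, no leaf: three big corners (`2,2,2` and one
triangle, or `3,2,2` and none), or two big corners and the other sector -/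
theorem end69 (hG : G.Geo4 al kp U) {s : V × V} (hs : s ∈ SD G) (hv : s.2 ∈ inN G)
    (h7 : uv G al s.2 = 7) (h0 : rn G s = 0) (hc : cv G s.2 ≠ 1) :
    (cv G s.2 = 3 ∧ ((∑ x ∈ Sv G s.2, rn G x = 1 ∧ ∀ b ∈ Bv G s.2, un G al b = 2) ∨
      (∑ x ∈ Sv G s.2, rn G x = 0 ∧ ∑ b ∈ Bv G s.2, un G al b = 7))) ∨
    (cv G s.2 = 2 ∧ ∃ y ∈ Sv G s.2, y ≠ s ∧ Sv G s.2 = {s, y} ∧ sg G y = nx G s ∧
      nx G y = sg G s ∧ un G al (sg G s) + un G al (nx G s) + rn G y = 7 ∧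
      2 ≤ un G al (sg G s) ∧ 2 ≤ un G al (nx G s)) := by
  have hsS : s ∈ Sv G s.2 := (mem_Sv62 G).2 ⟨hs, rfl⟩
  have h1 := cv_le39 G hG h7
  have h2 := cv_pos15 G hG hv
  have hspl := uv_split62 G hG (al := al) s.2
  have hub := two_cv_le15 G (al := al) s.2
  unfold ub15 at hub
  rw [h7] at hspl
  have hc' : cv G s.2 = 3 ∨ cv G s.2 = 2 := by omega
  rcases hc' with hc3 | hc2
  · left
    refine ⟨hc3, ?_⟩
    have h3 : ∑ x ∈ Sv G s.2, rn G x = 1 ∨ ∑ x ∈ Sv G s.2, rn G x = 0 := by omega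
    rcases h3 with h3 | h3
    · left
      refine ⟨h3, fun b hb => ?_⟩
      by_contra hno
      have h4 := un_ge15 G (al := al) ((mem_BC89 G).1 ((mem_Bv62 G).1 hb).1).2
      have h5 : ∑ z ∈ Bv G s.2, 2 < ∑ z ∈ Bv G s.2, un G al z :=
        Finset.sum_lt_sum (fun z hz => un_ge15 G
          ((mem_BC89 G).1 ((mem_Bv62 G).1 hz).1).2) ⟨b, hb, by omega⟩
      rw [Finset.sum_const, smul_eq_mul] at h5
      have h6 : (Bv G s.2).card = cv G s.2 := rfl
      omega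
    · right
      exact ⟨h3, by omega⟩
  · right
    obtain ⟨c1, c2, y, hy, hys, hS, e1, e2⟩ := c2_89 G hG hv hc2 hsS
    have h3 := uv_sectors62 G hG (al := al) hv
    rw [hS, Finset.sum_pair hys.symm, h7, h0, e2] at h3
    refine ⟨hc2, y, hy, hys, hS, e1, e2, by omega, ?_, ?_⟩
    · exact un_ge15 G ((mem_BC89 G).1 ((mem_Bv62 G).1 (sg_Bv62 G hG hv hsS)).1).2
    · exact un_ge15 G ((mem_BC89 G).1 ((mem_Bv62 G).1 (nx_Bv62 G hG hv hsS)).1).2

/-- **two units on both sides of the digon**: run three behind (`N0`) -/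
theorem n0_69 (hG : G.Geo4 al kp U) {s : V × V} (hs : s ∈ SD G) (hv : s.2 ∈ inN G)
    (h7 : uv G al s.2 = 7) (h0 : rn G s = 0) (hc : cv G s.2 = 2) (h1 : un G al (sg G s) = 2)
    (h2 : un G al (nx G s) = 2) : ∃ y ∈ Sv G s.2, y ≠ s ∧ Sv G s.2 = {s, y} ∧ sg G y = nx G s ∧
      nx G y = sg G s ∧ rn G y = 3 := by
  rcases end69 G hG hs hv h7 h0 (by omega) with ⟨h3, _⟩ | ⟨_, y, hy, a1, a2, a3, a4, a5, _⟩
  · omega
  · exact ⟨y, hy, a1, a2, a3, a4, by omega⟩

/-- a run three sector at a point with seven units and two big corners: the other sector is a digon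
between two corners with two units -/
theorem run3_69 (hG : G.Geo4 al kp U) {y : V × V} (hy : y ∈ SD G) (hv : y.2 ∈ inN G)
    (h7 : uv G al y.2 = 7) (h3 : rn G y = 3) (hc : cv G y.2 = 2) :
    ∃ s ∈ Sv G y.2, s ≠ y ∧ Sv G y.2 = {y, s} ∧ sg G s = nx G y ∧ nx G s = sg G y ∧
      rn G s = 0 ∧ un G al (sg G y) = 2 ∧ un G al (nx G y) = 2 := by
  have hyS : y ∈ Sv G y.2 := (mem_Sv62 G).2 ⟨hy, rfl⟩
  obtain ⟨c1, c2, s, hs, hsy, hS, e1, e2⟩ := c2_89 G hG hv hc hyS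
  have h4 := uv_sectors62 G hG (al := al) hv
  rw [hS, Finset.sum_pair hsy.symm, h7, h3, e2] at h4
  have a1 := un_ge15 G (al := al) ((mem_BC89 G).1 ((mem_Bv62 G).1 (sg_Bv62 G hG hv hyS)).1).2
  have a2 := un_ge15 G (al := al) ((mem_BC89 G).1 ((mem_Bv62 G).1 (nx_Bv62 G hG hv hyS)).1).2
  exact ⟨s, hs, hsy, hS, e1, e2, by omega, by omega, by omega⟩

/-- at a point with seven units the runs are at most three unless it is a leaf -/
theorem rn_le69 (hG : G.Geo4 al kp U) {y : V × V} (hy : y ∈ SD G) (hv : y.2 ∈ inN G)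
    (h7 : uv G al y.2 = 7) (hc : cv G y.2 ≠ 1) : rn G y ≤ 3 := by
  have hyS : y ∈ Sv G y.2 := (mem_Sv62 G).2 ⟨hy, rfl⟩
  have h1 := cv_pos15 G hG hv
  have hspl := uv_split62 G hG (al := al) y.2
  have hub := two_cv_le15 G (al := al) y.2
  unfold ub15 at hub
  have h2 : rn G y ≤ ∑ x ∈ Sv G y.2, rn G x :=
    Finset.single_le_sum (f := fun x => rn G x) (fun _ _ => Nat.zero_le _) hyS
  omega

/-- a negative sector at a point with eight units has run at most two -/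
theorem rn_neg69 (hG : G.Geo4 al kp U) (h1 : ∀ x ∈ iJ G, gc G al x ≤ 1) {y : V × V}
    (hy : y ∈ SD G) (hv : y.2 ∈ inN G) (h8 : uv G al y.2 = 8) (hD : Ds G al y < 0)
    (hep : ep al < 1) : rn G y ≤ 2 := by
  have hyS : y ∈ Sv G y.2 := (mem_Sv62 G).2 ⟨hy, rfl⟩
  have hspl := uv_split62 G hG (al := al) y.2
  have hub := two_cv_le15 G (al := al) y.2
  unfold ub15 at hub
  have h2 : rn G y ≤ ∑ x ∈ Sv G y.2, rn G x :=
    Finset.single_le_sum (f := fun x => rn G x) (fun _ _ => Nat.zero_le _) hyS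
  have h3 := cv_pos15 G hG hv
  have h4 : cv G y.2 ≠ 1 := by
    intro hc
    have := leaf_uv39 G hG h1 hv hc
    omega
  have h5 : cv G y.2 ≠ 2 := by
    intro hc
    obtain ⟨_, _, s, hs, hsy, hS, _, _⟩ := c2_89 G hG hv hc hyS
    have h6 := sum_Dsv39 G hG (al := al) hv
    rw [hS, Finset.sum_pair hsy.symm, kv_eq89, h8, hc] at h6
    have h7 := Ds_le_one39 G hG h1 hv hs
    push_cast at h6
    have h8' := Ds_ge15 G hG hv (fun x hx => h1 x ((mem_BC89 G).1 ((mem_Bv62 G).1 hx).1).1)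
      (by omega) hyS
    rw [kv_eq89, h8, hc] at h8'
    push_cast at h8'
    linarith
  omega

end

end Pool.Agent.PEN.E5
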