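import Pool.Agent.E5.Shp14
import Pool.Agent.E5.In15

/-! # PENNY, all small diameters: a black face with a leaf and an outer side

`leafB85`: for a black face with a leaf and an outer side the price, the leaves and the visits between
two outer darts with at least three triangles are paid by the leaf corners, up to `a - l` and the full
ears; `a` is the number of outer arcs. -/

set_option autoImplicit false

namespace Pool.Agent.PEN.E5

open Classical UpperHalfPlane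
open Pool.Agent.PEN.Cl

noncomputable section

variable {V : Type} (G : Tg V) {al : ℝ} {kp : V → V → ℝ} {U : ℕ → ℝ}

theorem BC_not_oJ85 {x : V × V} (hx : x ∈ BC G) : x ∉ G.oJ := by
  intro h
  exact ((mem_oJ66 G).1 h).2.2 ((mem_iJ71 G).1 ((mem_BC89 G).1 hx).1).1

theorem run_tt85 (hG : G.Geo4 al kp U) {x : V × V} (hx : x ∈ SD G) {i : ℕ} (hi : i < rn G x) :
    tt G (x.2, (G.ap x.2)^[i] x.1) := by
  have hN := hasN63 G hG hx
  rw [rn_eq63 G hN] at hi
  exact run_tt42 G hN hi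

theorem nxi_mem85 (hG : G.Geo4 al kp U) {K : (cg G).ConnectedComponent} {x : V × V}
    (hx : x ∈ kS G K) (i : ℕ) : (nx G)^[i] x ∈ kS G K := by
  induction i with
  | zero => exact hx
  | succ i ih =>
    rw [Function.iterate_succ_apply']
    exact nx_kS89 G hG ih

theorem nxi_inj85 (hG : G.Geo4 al kp U) {K : (cg G).ConnectedComponent} (i : ℕ) :
    ∀ {x y : V × V}, x ∈ kS G K → y ∈ kS G K → (nx G)^[i] x = (nx G)^[i] y → x = y := by
  induction i with
  | zero => intro x y _ _ h; exact h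
  | succ i ih =>
    intro x y hx hy h
    rw [Function.iterate_succ_apply, Function.iterate_succ_apply] at h
    have h2 := ih (nx_kS89 G hG hx) (nx_kS89 G hG hy) h
    exact nx_inj42 G hG (mem_kS89 G hx) (mem_kS89 G hy) h2

/-- the invariant of the walk along a fan with centre `p` -/
theorem fan_inv85 (hG : G.Geo4 al kp U) {e : V × V} (he : e ∈ SD G) (h0 : rn G e = 1) {k : ℕ}
    (h2 : ∀ i, 1 ≤ i → i < k → rn G ((nx G)^[i] e) = 2) :
    ∀ i, i < k → (nx G)^[i + 1] e = (((nx G)^[i] e).2, G.ap ((nx G)^[i] e).2 e.1) ∧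
      tt G (((nx G)^[i] e).2, e.1) ∧
      tt G (((nx G)^[i + 1] e).2, ((nx G)^[i] e).2) ∧
      G.ap ((nx G)^[i + 1] e).2 ((nx G)^[i] e).2 = e.1 := by
  intro i
  induction i with
  | zero =>
    intro _
    obtain ⟨a1, a2, a3, a4, a5⟩ := first54 G hG he (by omega)
    have h1 := nx_of54 G hG he
    rw [h0] at h1
    have h1' : nx G e = (e.2, G.ap e.2 e.1) := h1
    rw [Function.iterate_succ_apply', Function.iterate_zero, id_eq]
    refine ⟨h1', a1, ?_, ?_⟩
    · rw [h1']; exact a3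
    · rw [h1']; exact a5
  | succ i ih =>
    intro hi
    obtain ⟨b1, b2, b3, b4⟩ := ih (by omega)
    have hm : (nx G)^[i + 1] e ∈ SD G :=
      mem_kS89 G (nxi_mem85 G hG ((mem_kS42 G).2 ⟨he, rfl⟩) (i + 1))
    have hr := h2 (i + 1) (by omega) hi
    have e1 : ((nx G)^[i + 1] e).1 = ((nx G)^[i] e).2 := by rw [b1]
    have h1 := nx_of54 G hG hm
    rw [hr] at h1
    have h1' : nx G ((nx G)^[i + 1] e) =
        (((nx G)^[i + 1] e).2, G.ap ((nx G)^[i + 1] e).2 e.1) := by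
      rw [h1]
      congr 1
      rw [e1]
      exact congrArg (G.ap ((nx G)^[i + 1] e).2) b4
    have h3 := run_tt85 G hG hm (i := 1) (by omega)
    rw [e1] at h3
    have h3' : tt G (((nx G)^[i + 1] e).2, e.1) := by
      have h4 : (G.ap ((nx G)^[i + 1] e).2)^[1] ((nx G)^[i] e).2 = e.1 := b4
      rw [h4] at h3
      exact h3
    rw [Function.iterate_succ_apply' (nx G) (i + 1) e]
    refine ⟨h1', h3', ?_, ?_⟩
    · rw [h1']
      exact tt_rot42' G h3'
    · rw [h1']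
      exact G.ap4 _ _ h3'.1

/-- two ears with only runs of length 2 in between: the black face is a fan -/
theorem fan85 (hG : G.Geo4 al kp U) {e : V × V} (he : e ∈ SD G) (h0 : rn G e = 1) {k : ℕ}
    (hk : 1 ≤ k) (h2 : ∀ i, 1 ≤ i → i < k → rn G ((nx G)^[i] e) = 2)
    (h1 : rn G ((nx G)^[k] e) = 1) {y : V × V} (hy : y ∈ SD G) (hku : ku G y = ku G e) :
    ∃ i ≤ k + 1, y = (nx G)^[i] e := by
  have inv := fan_inv85 G hG he h0 h2
  have hS : ∀ i, (nx G)^[i] e ∈ SD G := fun i =>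
    mem_kS89 G (nxi_mem85 G hG ((mem_kS42 G).2 ⟨he, rfl⟩) i)
  have e1 : ∀ i, ((nx G)^[i + 1] e).1 = ((nx G)^[i] e).2 := by
    intro i
    rw [Function.iterate_succ_apply']
    rfl
  -- the last side
  have hlast : (nx G)^[k + 1] e = (((nx G)^[k] e).2, e.1) := by
    obtain ⟨j, rfl⟩ : ∃ j, k = j + 1 := ⟨k - 1, by omega⟩
    obtain ⟨_, _, _, b4⟩ := inv j (by omega)
    rw [Function.iterate_succ_apply', nx_of54 G hG (hS (j + 1)), h1, e1 j]
    exact Prod.ext rfl b4
  have e0 : ((nx G)^[0] e) = e := rfl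
  let F : Set (V × V) := {a | (∃ i < k, a = (nx G)^[i + 1] e ∨
      a = (((nx G)^[i + 1] e).2, ((nx G)^[i] e).2)) ∨
    (∃ i ≤ k, a = (e.1, ((nx G)^[i] e).2) ∨ a = (((nx G)^[i] e).2, e.1))}
  have hpair : ∀ i, (nx G)^[i + 1] e = (((nx G)^[i] e).2, ((nx G)^[i + 1] e).2) := fun i =>
    Prod.ext (e1 i) rfl
  have hswap : ∀ a ∈ F, (a.2, a.1) ∈ F := by
    rintro a (⟨i, hi, h | h⟩ | ⟨i, hi, h | h⟩)
    · refine Or.inl ⟨i, hi, Or.inr ?_⟩
      rw [h, e1 i]
    · refine Or.inl ⟨i, hi, Or.inl ?_⟩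
      rw [h]
      exact (hpair i).symm
    · exact Or.inr ⟨i, hi, Or.inr (by rw [h])⟩
    · exact Or.inr ⟨i, hi, Or.inl (by rw [h])⟩
  have hrot : ∀ a ∈ F, tt G a → (a.2, G.ap a.1 a.2) ∈ F := by
    rintro a (⟨i, hi, h | h⟩ | ⟨i, hi, h | h⟩) ha
    · exfalso
      rw [h] at ha
      exact ((mem_SD42 G).1 (hS (i + 1))).2 ha
    · obtain ⟨_, _, b3, b4⟩ := inv i hi
      refine Or.inr ⟨i, hi.le, Or.inr ?_⟩
      rw [h]
      dsimp only
      rw [b4]
    · rcases i with _ | i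
      · exfalso
        rw [h] at ha
        exact ((mem_SD42 G).1 he).2 ha
      · obtain ⟨_, _, b3, b4⟩ := inv i (by omega)
        have h5 := G.ap4 _ _ b3.1
        rw [b4] at h5
        refine Or.inl ⟨i, by omega, Or.inr ?_⟩
        rw [h]
        dsimp only
        rw [h5]
    · rcases Nat.lt_or_ge i k with h3 | h3
      · obtain ⟨b1, _, _, _⟩ := inv i h3
        refine Or.inr ⟨i + 1, by omega, Or.inl ?_⟩
        rw [h]
        dsimp only
        rw [b1]
      · exfalso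
        have h4 : i = k := by omega
        rw [h4] at h
        rw [h, ← hlast] at ha
        exact ((mem_SD42 G).1 (hS (k + 1))).2 ha
  have hF : y ∈ F := closed54 G hswap hrot (x := e) (Or.inr ⟨0, by omega, Or.inl rfl⟩) hku
  have hyt := ((mem_SD42 G).1 hy).2
  rcases hF with ⟨i, hi, h | h⟩ | ⟨i, hi, h | h⟩
  · exact ⟨i + 1, by omega, h⟩
  · exfalso
    rw [h] at hyt
    exact hyt (inv i hi).2.2.1
  · rcases i with _ | i
    · exact ⟨0, by omega, h⟩
    · exfalso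
      obtain ⟨_, _, b3, b4⟩ := inv i (by omega)
      have h5 := tt_rot42' G b3
      dsimp only at h5
      rw [b4] at h5
      rw [h] at hyt
      exact hyt h5
  · rcases Nat.lt_or_ge i k with h3 | h3
    · exfalso
      rw [h] at hyt
      exact hyt (inv i h3).2.1
    · have h4 : i = k := by omega
      rw [h4] at h
      exact ⟨k + 1, le_rfl, h.trans hlast.symm⟩

/-- a white-white visit with two triangles which is no leaf -/
def ne85 (x : V × V) : Prop := x ∉ G.oJ ∧ nx G x ∉ G.oJ ∧ rn G x = 2 ∧ ¬ Lf18 G x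

/-- the number of outer arcs of a black face -/
def a85 (K : (cg G).ConnectedComponent) : ℕ :=
  ((kS G K).filter (fun x => x ∉ G.oJ ∧ nx G x ∈ G.oJ)).card

/-- the number of full ears -/
def j85 (K : (cg G).ConnectedComponent) : ℕ := ((fv14 G K).filter (fun x => rn G x = 1)).card

theorem a_le_o85 (K : (cg G).ConnectedComponent) : a85 G K ≤ oK14 G K := by
  unfold a85 oK14
  refine Finset.card_le_card fun x hx => ?_
  obtain ⟨h1, h3, h2⟩ := Finset.mem_filter.1 hx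
  refine Finset.mem_filter.2 ⟨h1, (BC_or14 G (mem_kS89 G h1)).resolve_right h3, fun h4 => ?_⟩
  unfold inN at h4
  exact (Finset.mem_filter.1 h4).2 ⟨(nx G x).2, h2⟩

theorem leaf_BC85 (hG : G.Geo4 al kp U) {x : V × V} (hx : x ∈ SD G) (hl : Lf18 G x) :
    x ∉ G.oJ ∧ nx G x ∉ G.oJ := by
  obtain ⟨h1, h2⟩ := BC_head14 G hG hx hl.1
  exact ⟨BC_not_oJ85 G h1, BC_not_oJ85 G h2⟩

/-- the ears with white outgoing side -/
def ew85 (K : (cg G).ConnectedComponent) : Finset (V × V) :=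
  (kS G K).filter (fun x => rn G x = 1 ∧ nx G x ∉ G.oJ ∧ ¬ Lf18 G x)

/-- the events -/
def ev85 (K : (cg G).ConnectedComponent) : Finset (V × V) :=
  (kS G K).filter (fun y => y ∉ G.oJ ∧ (Lf18 G y ∨ (nx G y ∈ G.oJ ∧ 2 ≤ rn G y) ∨
    (nx G y ∉ G.oJ ∧ 3 ≤ rn G y)))

theorem exists_event85 (hG : G.Geo4 al kp U) {K : (cg G).ConnectedComponent} {e : V × V}
    (he : e ∈ ew85 G K) : ∃ k, 1 ≤ k ∧ ¬ ne85 G ((nx G)^[k] e) := by
  obtain ⟨h1, h2, _⟩ := Finset.mem_filter.1 he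
  obtain ⟨N, hN, hp⟩ := nx_period18 G hG h1
  refine ⟨N, hN, ?_⟩
  rw [hp]
  rintro ⟨_, _, h3, _⟩
  omega

/-- the first event after an ear -/
theorem event85 (hG : G.Geo4 al kp U) {K : (cg G).ConnectedComponent}
    (hl : ∃ x ∈ kS G K, Lf18 G x) (ho : ∃ x ∈ kS G K, x ∈ G.oJ) {e : V × V}
    (he : e ∈ ew85 G K) : ∃ k, 1 ≤ k ∧ (∀ i, 1 ≤ i → i < k → ne85 G ((nx G)^[i] e)) ∧
      (nx G)^[k] e ∈ ev85 G K := by
  have hex := exists_event85 G hG he
  obtain ⟨h1, h2, h3, h4⟩ := Finset.mem_filter.1 he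
  have heS := mem_kS89 G h1
  obtain ⟨k, hkdef⟩ : ∃ k, k = Nat.find hex := ⟨_, rfl⟩
  have hsp := Nat.find_spec hex
  rw [← hkdef] at hsp
  obtain ⟨k1, k2⟩ := hsp
  have hmin : ∀ i, 1 ≤ i → i < k → ne85 G ((nx G)^[i] e) := by
    intro i hi1 hi2
    rw [hkdef] at hi2
    have := Nat.find_min hex hi2
    by_contra hc
    exact this ⟨hi1, hc⟩
  have hmemK : ∀ i, (nx G)^[i] e ∈ kS G K := nxi_mem85 G hG h1
  have hout : ∀ i, 1 ≤ i → i ≤ k → (nx G)^[i] e ∉ G.oJ := by
    intro i hi1 hi2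
    obtain ⟨j, rfl⟩ : ∃ j, i = j + 1 := ⟨i - 1, by omega⟩
    rw [Function.iterate_succ_apply']
    rcases j with _ | j
    · exact h3
    · exact (hmin (j + 1) (by omega) (by omega)).2.1
  refine ⟨k, k1, hmin, Finset.mem_filter.2 ⟨hmemK k, hout k k1 le_rfl, ?_⟩⟩
  by_contra hno
  push Not at hno
  obtain ⟨n1, n2, n3⟩ := hno
  -- no run 0
  have hpos : 1 ≤ rn G ((nx G)^[k] e) := by
    by_contra hc
    have h5 := (rn_pos_all54 G hG heS (mem_kS89 G (hmemK k))
      (((mem_kS42 G).1 (hmemK k)).2.trans ((mem_kS42 G).1 h1).2.symm)).1 (by omega)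
    omega
  have hr1 : rn G ((nx G)^[k] e) = 1 := by
    by_cases h5 : nx G ((nx G)^[k] e) ∈ G.oJ
    · have := n2 h5
      omega
    · have h6 := n3 h5
      by_contra h7
      exact k2 ⟨hout k k1 le_rfl, h5, by omega, n1⟩
  have hfan := fun {y : V × V} (hy : y ∈ kS G K) =>
    fan85 G hG heS h2 k1 (fun i a b => (hmin i a b).2.2.1) hr1 (mem_kS89 G hy)
      (((mem_kS42 G).1 hy).2.trans ((mem_kS42 G).1 h1).2.symm)
  have hnl : ∀ i ≤ k, ¬ Lf18 G ((nx G)^[i] e) := by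
    intro i hi
    rcases i with _ | i
    · exact h4
    · rcases Nat.lt_or_ge (i + 1) k with h5 | h5
      · exact (hmin (i + 1) (by omega) h5).2.2.2
      · have : i + 1 = k := by omega
        rw [this]
        exact n1
  obtain ⟨z, hz, hzl⟩ := hl
  obtain ⟨i, hi, hzi⟩ := hfan hz
  have hik : i = k + 1 := by
    by_contra h5
    exact hnl i (by omega) (hzi ▸ hzl)
  rw [hik] at hzi
  obtain ⟨b1, b2⟩ := leaf_BC85 G hG (mem_kS89 G hz) hzl
  -- the successor of the leaf is `e`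
  obtain ⟨j, hj, hzj⟩ := hfan (nx_kS89 G hG hz)
  have hj0 : j = 0 := by
    by_contra h5
    obtain ⟨m, rfl⟩ : ∃ m, j = m + 1 := ⟨j - 1, by omega⟩
    rw [Function.iterate_succ_apply'] at hzj
    have h6 := nx_inj42 G hG (mem_kS89 G hz) (mem_kS89 G (hmemK m)) hzj
    exact hnl m (by omega) (h6 ▸ hzl)
  rw [hj0] at hzj
  have hee : nx G z = e := hzj
  rw [hee] at b2
  obtain ⟨w, hw, hwo⟩ := ho
  obtain ⟨m, hm, hwm⟩ := hfan hw
  rcases m with _ | m
  · rw [hwm] at hwo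
    exact b2 hwo
  · rcases Nat.lt_or_ge (m + 1) (k + 1) with h5 | h5
    · rw [hwm] at hwo
      exact hout (m + 1) (by omega) (by omega) hwo
    · have : m + 1 = k + 1 := by omega
      rw [hwm, this, ← hzi] at hwo
      exact b1 hwo

theorem card_ew85 (hG : G.Geo4 al kp U) {K : (cg G).ConnectedComponent}
    (hl : ∃ x ∈ kS G K, Lf18 G x) (ho : ∃ x ∈ kS G K, x ∈ G.oJ) :
    (ew85 G K).card ≤ (ev85 G K).card := by
  choose! k hk1 hk2 hk3 using fun (e : V × V) (he : e ∈ ew85 G K) => event85 G hG hl ho he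
  refine Finset.card_le_card_of_injOn (fun e => (nx G)^[k e] e) ?_ ?_
  · intro e he
    exact Finset.mem_coe.2 (hk3 e (Finset.mem_coe.1 he))
  · have key : ∀ e ∈ ew85 G K, ∀ f ∈ ew85 G K, k e ≤ k f →
        (nx G)^[k e] e = (nx G)^[k f] f → e = f := by
      intro e he f hf hle h
      obtain ⟨m, hm⟩ := Nat.exists_eq_add_of_le hle
      rw [hm, Function.iterate_add_apply] at h
      obtain ⟨e1, e2, _⟩ := Finset.mem_filter.1 he
      obtain ⟨f1, _⟩ := Finset.mem_filter.1 hf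
      have h3 := nxi_inj85 G hG (k e) e1 (nxi_mem85 G hG f1 m) h
      rcases m with _ | m
      · exact h3
      · exfalso
        have h4 := (hk2 f hf (m + 1) (by omega) (by have := hk1 e he; omega)).2.2.1
        rw [← h3] at h4
        omega
    intro e he f hf h
    rcases le_total (k e) (k f) with hle | hle
    · exact key e (Finset.mem_coe.1 he) f (Finset.mem_coe.1 hf) hle h
    · exact (key f (Finset.mem_coe.1 hf) e (Finset.mem_coe.1 he) hle h.symm).symm

/-- the exact price with `θ = 1` is the sum of `2 - rn` -/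
theorem wx_sum85 (hG : G.Geo4 al kp U) (K : (cg G).ConnectedComponent) :
    wx G 1 K = ∑ x ∈ kS G K, ((2 : ℝ) - rn G x) := by
  have h := sum_rn63 G hG K
  have h2 : ((∑ x ∈ kS G K, rn G x : ℕ) : ℝ) = 3 * tK G K := by rw [h]; push_cast; ring
  push_cast at h2
  rw [Finset.sum_sub_distrib, h2, Finset.sum_const, nsmul_eq_mul]
  unfold wx
  ring

/-- a black face with a leaf and an outer side has no run of length 0 -/
theorem pos85 (hG : G.Geo4 al kp U) {K : (cg G).ConnectedComponent}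
    (hl' : ∃ x ∈ kS G K, Lf18 G x) (ho : ∃ x ∈ kS G K, x ∈ G.oJ) : ∀ x ∈ kS G K, 1 ≤ rn G x := by
  intro x hx
  by_contra hc
  have hx0 : rn G x = 0 := by omega
  have hxS := mem_kS89 G hx
  obtain ⟨_, d2, _, _, d5, _⟩ := digon54 G hG hxS hx0
  obtain ⟨z, hz, hzl⟩ := hl'
  obtain ⟨w, hw, hwo⟩ := ho
  have hKx := ((mem_kS42 G).1 hx).2
  rw [← hKx, d2, Finset.mem_insert, Finset.mem_singleton] at hz hw
  have hz' : z ∈ SD G := by
    rcases hz with h | h
    · rw [h]; exact hxS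
    · rw [h, ← d5]; exact (nx_mem42 G hG ((mem_SD42 G).1 hxS).1).1
  obtain ⟨b1, b2⟩ := leaf_BC85 G hG hz' hzl
  have hz0 : rn G z = 0 := by
    rw [rn_pos_all54 G hG hxS hz' ?_]
    · exact hx0
    · rcases hz with h | h
      · rw [h]
      · rw [h]; exact ku_swap42 G ((mem_SD42 G).1 hxS).1
  have hzn : nx G z = (z.2, z.1) := (digon54 G hG hz' hz0).2.2.2.2.1
  rw [hzn] at b2
  rcases hz with h | h <;> rcases hw with h' | h'
  · rw [h'] at hwo; rw [h] at b1; exact b1 hwo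
  · rw [h'] at hwo; rw [h] at b2; exact b2 hwo
  · rw [h'] at hwo; rw [h] at b2; exact b2 hwo
  · rw [h'] at hwo; rw [h] at b1; exact b1 hwo

/-- **the leaf lemma with an outer side** -/
theorem leafB85 (hG : G.Geo4 al kp U) {K : (cg G).ConnectedComponent}
    (hl : (Lv G K).Nonempty) (ho : ∃ x ∈ kS G K, x ∈ G.oJ) :
    wx G 1 K + (Lv G K).card + F14 G K ≤
      ∑ x ∈ Lv G K, ((5 : ℝ) - rn G x) + ((a85 G K : ℝ) - (Lv G K).card) + j85 G K := by
  have hl' : ∃ x ∈ kS G K, Lf18 G x := by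
    obtain ⟨x, hx⟩ := hl
    exact ⟨x, (Finset.mem_filter.1 hx).1, (Finset.mem_filter.1 hx).2⟩
  have hcard := card_ew85 G hG hl' ho
  have hpos := pos85 G hG hl' ho
  -- the pointwise weights
  have hS : wx G 1 K + 2 * (Lv G K).card + F14 G K - ∑ x ∈ Lv G K, ((5 : ℝ) - rn G x) -
      a85 G K - j85 G K = ∑ x ∈ kS G K, (((2 : ℝ) - rn G x) +
        (if Lf18 G x then (rn G x : ℝ) - 3 else 0) +
        (if (x ∈ G.oJ ∧ nx G x ∈ G.oJ) ∧ 3 ≤ rn G x then (1 : ℝ) else 0) -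
        (if x ∉ G.oJ ∧ nx G x ∈ G.oJ then (1 : ℝ) else 0) -
        (if (x ∈ G.oJ ∧ nx G x ∈ G.oJ) ∧ rn G x = 1 then (1 : ℝ) else 0)) := by
    have e0 := wx_sum85 G hG K
    rw [Finset.sum_sub_distrib] at e0
    have e00 : ∑ x ∈ kS G K, (((2 : ℝ) - rn G x) +
        (if Lf18 G x then (rn G x : ℝ) - 3 else 0) +
        (if (x ∈ G.oJ ∧ nx G x ∈ G.oJ) ∧ 3 ≤ rn G x then (1 : ℝ) else 0) -
        (if x ∉ G.oJ ∧ nx G x ∈ G.oJ then (1 : ℝ) else 0) -
        (if (x ∈ G.oJ ∧ nx G x ∈ G.oJ) ∧ rn G x = 1 then (1 : ℝ) else 0)) =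
      wx G 1 K + ∑ x ∈ kS G K, (if Lf18 G x then (rn G x : ℝ) - 3 else 0) +
        ∑ x ∈ kS G K, (if (x ∈ G.oJ ∧ nx G x ∈ G.oJ) ∧ 3 ≤ rn G x then (1 : ℝ) else 0) -
        ∑ x ∈ kS G K, (if x ∉ G.oJ ∧ nx G x ∈ G.oJ then (1 : ℝ) else 0) -
        ∑ x ∈ kS G K, (if (x ∈ G.oJ ∧ nx G x ∈ G.oJ) ∧ rn G x = 1 then (1 : ℝ) else 0) := by
      rw [e0]
      simp only [Finset.sum_sub_distrib, Finset.sum_add_distrib]
    rw [e00, Finset.sum_boole, Finset.sum_boole, Finset.sum_boole, ← Finset.sum_filter]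
    have e1 : (kS G K).filter (fun x => Lf18 G x) = Lv G K := rfl
    have e2 : ((kS G K).filter (fun x => (x ∈ G.oJ ∧ nx G x ∈ G.oJ) ∧ 3 ≤ rn G x)).card =
        F14 G K := by
      unfold F14 fv14
      rw [Finset.filter_filter]
    have e3 : ((kS G K).filter (fun x => (x ∈ G.oJ ∧ nx G x ∈ G.oJ) ∧ rn G x = 1)).card =
        j85 G K := by
      unfold j85 fv14
      rw [Finset.filter_filter]
    have e4 : ((kS G K).filter (fun x => x ∉ G.oJ ∧ nx G x ∈ G.oJ)).card = a85 G K := rfl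
    rw [e1, e2, e3, e4]
    have e5 : ∑ x ∈ Lv G K, ((rn G x : ℝ) - 3) =
        2 * (Lv G K).card - ∑ x ∈ Lv G K, ((5 : ℝ) - rn G x) := by
      rw [Finset.sum_sub_distrib, Finset.sum_sub_distrib, Finset.sum_const, Finset.sum_const,
        nsmul_eq_mul, nsmul_eq_mul]
      ring
    rw [e5]
    ring
  have hfin : ∑ x ∈ kS G K, (((2 : ℝ) - rn G x) +
        (if Lf18 G x then (rn G x : ℝ) - 3 else 0) +
        (if (x ∈ G.oJ ∧ nx G x ∈ G.oJ) ∧ 3 ≤ rn G x then (1 : ℝ) else 0) -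
        (if x ∉ G.oJ ∧ nx G x ∈ G.oJ then (1 : ℝ) else 0) -
        (if (x ∈ G.oJ ∧ nx G x ∈ G.oJ) ∧ rn G x = 1 then (1 : ℝ) else 0)) ≤
      ∑ x ∈ kS G K, ((if rn G x = 1 ∧ nx G x ∉ G.oJ ∧ ¬ Lf18 G x then (1 : ℝ) else 0) -
        (if x ∉ G.oJ ∧ (Lf18 G x ∨ (nx G x ∈ G.oJ ∧ 2 ≤ rn G x) ∨
          (nx G x ∉ G.oJ ∧ 3 ≤ rn G x)) then (1 : ℝ) else 0)) := by
    refine Finset.sum_le_sum fun x hx => ?_
    have h1 : (1 : ℝ) ≤ rn G x := by exact_mod_cast hpos x hx
    have hN := hpos x hx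
    by_cases hLf : Lf18 G x
    · obtain ⟨b1, b2⟩ := leaf_BC85 G hG (mem_kS89 G hx) hLf
      simp only [hLf, b1, b2, not_true_eq_false, and_false, false_and, if_false, if_true,
        not_false_eq_true, true_and, true_or]
      linarith
    · by_cases hx1 : x ∈ G.oJ
      · by_cases hx2 : nx G x ∈ G.oJ
        · simp only [hLf, hx1, hx2, not_true_eq_false, and_false, false_and, if_false, true_and,
            and_self]
          rcases Nat.lt_or_ge (rn G x) 3 with h3 | h3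
          · have h4 : rn G x = 1 ∨ rn G x = 2 := by omega
            rcases h4 with h4 | h4
            · rw [h4]; norm_num
            · rw [h4]; norm_num
          · have h4 : (3 : ℝ) ≤ rn G x := by exact_mod_cast h3
            rw [if_pos h3, if_neg (by omega)]
            linarith
        · simp only [hLf, hx1, hx2, not_true_eq_false, and_false, false_and, if_false, true_and,
            and_true, not_false_eq_true]
          rcases Nat.lt_or_ge (rn G x) 2 with h3 | h3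
          · have h4 : rn G x = 1 := by omega
            rw [h4]; norm_num
          · have h4 : (2 : ℝ) ≤ rn G x := by exact_mod_cast h3
            rw [if_neg (by omega : ¬ rn G x = 1)]
            linarith
      · by_cases hx2 : nx G x ∈ G.oJ
        · simp only [hLf, hx1, hx2, not_true_eq_false, and_false, false_and, if_false, true_and,
            and_true, not_false_eq_true, if_true, or_false, false_or]
          rcases Nat.lt_or_ge (rn G x) 2 with h3 | h3
          · have h4 : rn G x = 1 := by omega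
            rw [h4]; norm_num
          · have h4 : (2 : ℝ) ≤ rn G x := by exact_mod_cast h3
            rw [if_pos h3]
            linarith
        · simp only [hLf, hx1, hx2, and_false, false_and, if_false, true_and,
            and_true, not_false_eq_true, false_or]
          rcases Nat.lt_or_ge (rn G x) 3 with h3 | h3
          · have h4 : rn G x = 1 ∨ rn G x = 2 := by omega
            rcases h4 with h4 | h4
            · rw [h4]; norm_num
            · rw [h4]; norm_num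
          · have h4 : (3 : ℝ) ≤ rn G x := by exact_mod_cast h3
            rw [if_pos h3, if_neg (by omega : ¬ rn G x = 1)]
            linarith
  have hval : ∑ x ∈ kS G K, ((if rn G x = 1 ∧ nx G x ∉ G.oJ ∧ ¬ Lf18 G x then (1 : ℝ) else 0) -
        (if x ∉ G.oJ ∧ (Lf18 G x ∨ (nx G x ∈ G.oJ ∧ 2 ≤ rn G x) ∨
          (nx G x ∉ G.oJ ∧ 3 ≤ rn G x)) then (1 : ℝ) else 0)) =
      ((ew85 G K).card : ℝ) - (ev85 G K).card := by
    rw [Finset.sum_sub_distrib, Finset.sum_boole, Finset.sum_boole]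
    rfl
  have hc : ((ew85 G K).card : ℝ) ≤ (ev85 G K).card := by exact_mod_cast hcard
  linarith

theorem Z_zero85 (hG : G.Geo4 al kp U) {K : (cg G).ConnectedComponent}
    (hl : (Lv G K).Nonempty) (ho : ∃ x ∈ kS G K, x ∈ G.oJ) : Z14 G K = 0 := by
  have hl' : ∃ x ∈ kS G K, Lf18 G x := by
    obtain ⟨x, hx⟩ := hl
    exact ⟨x, (Finset.mem_filter.1 hx).1, (Finset.mem_filter.1 hx).2⟩
  have hpos := pos85 G hG hl' ho
  unfold Z14 fv14
  rw [Finset.card_eq_zero, Finset.filter_eq_empty_iff]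
  intro x hx h0
  have := hpos x (Finset.mem_filter.1 hx).1
  omega

/-- the own surplus of a set of leaf sectors -/
def os85 (al : ℝ) (ρ : Finset (V × V)) : ℝ :=
  ∑ y ∈ ρ ∪ ρ.image (nx G), sp G al y - ∑ x ∈ ρ, Ds G al x

/-- the uses of a leaf face without payer and weak side, with the own surplus of the leaves of `ρ` -/
theorem uK_ge85 (hG : G.Geo4 al kp U) (h1 : ∀ x ∈ iJ G, gc G al x ≤ 1)
    {K : (cg G).ConnectedComponent}
    (hp : ∀ x ∈ kS G K, x.2 ∈ inN G → x ∉ Lv G K → Ds G al x ≤ 0)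
    (hw : ∀ x ∈ kS G K, x ∈ BC G → 0 ≤ sp G al x) {ρ : Finset (V × V)} (hρ : ρ ⊆ Lv G K) :
    (oK14 G K : ℝ) + os85 G al ρ ≤ uK14 G al K + ((Lv G K).card - (ρ.card : ℝ)) := by
  unfold os85
  have hU := U1_14 G hG (al := al) K
  have hLS : ∀ x ∈ Lv G K, x ∈ kS G K ∧ x.2 ∈ inN G := fun x hx =>
    ⟨((mem_Lv15 G).1 hx).1, ((mem_Lv15 G).1 hx).2.1⟩
  have e1 : ∑ y ∈ ρ ∪ ρ.image (nx G), sp G al y ≤
      ∑ x ∈ (kS G K).filter (fun x => x ∈ BC G), sp G al x := by
    refine Finset.sum_le_sum_of_subset_of_nonneg ?_ fun x hx _ =>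
      hw x (Finset.mem_filter.1 hx).1 (Finset.mem_filter.1 hx).2
    intro y hy
    rcases Finset.mem_union.1 hy with h | h
    · obtain ⟨h2, h3⟩ := hLS y (hρ h)
      exact Finset.mem_filter.2 ⟨h2, (BC_head14 G hG (mem_kS89 G h2) h3).1⟩
    · obtain ⟨x, hx, rfl⟩ := Finset.mem_image.1 h
      obtain ⟨h2, h3⟩ := hLS x (hρ hx)
      exact Finset.mem_filter.2 ⟨nx_kS89 G hG h2, (BC_head14 G hG (mem_kS89 G h2) h3).2⟩
  have hsub : Lv G K ⊆ (kS G K).filter (fun x => x.2 ∈ inN G) := fun x hx =>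
    Finset.mem_filter.2 (hLS x hx)
  have e2 : ∑ x ∈ (kS G K).filter (fun x => x.2 ∈ inN G), Ds G al x ≤
      ∑ x ∈ Lv G K, Ds G al x := by
    rw [← Finset.sum_sdiff hsub]
    have : ∑ x ∈ (kS G K).filter (fun x => x.2 ∈ inN G) \ Lv G K, Ds G al x ≤ 0 :=
      Finset.sum_nonpos fun x hx => by
        obtain ⟨h2, h3⟩ := Finset.mem_sdiff.1 hx
        obtain ⟨h4, h5⟩ := Finset.mem_filter.1 h2
        exact hp x h4 h5 h3
    linarith
  have e3 : ∑ x ∈ Lv G K, Ds G al x ≤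
      ∑ x ∈ ρ, Ds G al x + ((Lv G K).card - (ρ.card : ℝ)) := by
    rw [← Finset.sum_sdiff hρ, add_comm]
    have h5 : ∑ x ∈ Lv G K \ ρ, Ds G al x ≤ ∑ x ∈ Lv G K \ ρ, (1 : ℝ) := by
      refine Finset.sum_le_sum fun x hx => ?_
      obtain ⟨h2, h3⟩ := hLS x (Finset.mem_sdiff.1 hx).1
      obtain ⟨_, b2, _, _, _⟩ := sector_corners89 G hG h3 (mem_kS89 G h2) rfl
      have h6 := (mem_BC89 G).1 (BC_head14 G hG (mem_kS89 G h2) h3).2
      have h7 := leaf_nx18 G hG (mem_kS89 G h2) (Finset.mem_filter.1 (Finset.mem_sdiff.1 hx).1).2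
      have h8 := h1 _ h6.1
      unfold Ds
      rw [← h7]
      linarith
    rw [Finset.sum_const, nsmul_eq_mul, mul_one, Finset.cast_card_sdiff hρ] at h5
    linarith
  linarith

/-- the own surplus of one leaf: the gaps of the two neighbours minus 1 -/
theorem os_single85 (hG : G.Geo4 al kp U) {K : (cg G).ConnectedComponent} {x : V × V}
    (hx : x ∈ Lv G K) : os85 G al {x} = gc G al x + gc G al (sg G (nx G x)) - 1 := by
  have h2 := ((mem_Lv15 G).1 hx).1
  have h7 := leaf_nx18 G hG (mem_kS89 G h2) (Finset.mem_filter.1 hx).2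
  have hne : x ≠ nx G x := fun h => by
    have h3 := head_ne63 G hG (mem_kS89 G h2)
    rw [← h] at h3
    exact h3 rfl
  have e : ({x} : Finset (V × V)) ∪ ({x} : Finset (V × V)).image (nx G) = {x, nx G x} := by
    rw [Finset.image_singleton]
    rfl
  unfold os85
  rw [e, Finset.sum_pair hne, Finset.sum_singleton]
  unfold Ds sp
  rw [← h7]
  ring

/-- **Lemma B**: a black face with an outer side and leaves, without payer and weak side; `ρ` is any
set of its leaf sectors, the leaves of `ρ` may claim 1 plus their own surplus -/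
theorem lemmaB85 (hG : G.Geo4 al kp U) (h1 : ∀ x ∈ iJ G, gc G al x ≤ 1)
    {K : (cg G).ConnectedComponent} (hl : (Lv G K).Nonempty) (ho : ∃ x ∈ kS G K, x ∈ G.oJ)
    (hp : ∀ x ∈ kS G K, x.2 ∈ inN G → x ∉ Lv G K → Ds G al x ≤ 0)
    (hw : ∀ x ∈ kS G K, x ∈ BC G → 0 ≤ sp G al x) {ρ : Finset (V × V)} (hρ : ρ ⊆ Lv G K) :
    wx G 1 K + (Lv G K).card + F14 G K + Z14 G K + (ρ.card + os85 G al ρ) ≤
      ∑ x ∈ Lv G K, ((un G al (sg G x) : ℝ) - 2) + uK14 G al K + j85 G K := by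
  have hA := leafB85 G hG hl ho
  have hB := uK_ge85 G hG h1 hp hw hρ
  have hZ := Z_zero85 G hG hl ho
  have ha : (a85 G K : ℝ) ≤ oK14 G K := by exact_mod_cast a_le_o85 G K
  have e : ∑ x ∈ Lv G K, ((5 : ℝ) - rn G x) = ∑ x ∈ Lv G K, ((un G al (sg G x) : ℝ) - 2) := by
    refine Finset.sum_congr rfl fun x hx => ?_
    have h := leaf_sum15 G hG h1 hx
    have h2 : (rn G x : ℝ) + un G al (sg G x) = 7 := by exact_mod_cast h
    linarith
  rw [e] at hA
  rw [hZ]
  push_cast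
  linarith

/-- **Lemma B**, with the leaf slack -/
theorem lslB85 (hG : G.Geo4 al kp U) (h1 : ∀ x ∈ iJ G, gc G al x ≤ 1)
    {yK : (cg G).ConnectedComponent → ℝ}
    {K : (cg G).ConnectedComponent} (hl : (Lv G K).Nonempty) (ho : ∃ x ∈ kS G K, x ∈ G.oJ)
    (hp : ∀ x ∈ kS G K, x.2 ∈ inN G → x ∉ Lv G K → Ds G al x ≤ 0)
    (hw : ∀ x ∈ kS G K, x ∈ BC G → 0 ≤ sp G al x) {ρ : Finset (V × V)} (hρ : ρ ⊆ Lv G K)
    (hy : yK K = 1) :
    (F14 G K : ℝ) + Z14 G K + (ρ.card + os85 G al ρ) ≤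
      lsl G al 1 yK K + uK14 G al K + j85 G K := by
  have h := lemmaB85 G hG h1 hl ho hp hw hρ
  unfold lsl
  rw [hy]
  linarith

end

end Pool.Agent.PEN.E5
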