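import Pool.Agent.E5.Rw14
import Pool.Agent.E5.Kr15

/-! # PENNY, all small diameters: the result row of set B6 from the rows and a finite list of claims

A claim is one unit, needed by a white class and paid by a point, by a black face or by another white
class. -/

set_option autoImplicit false

namespace Pool.Agent.PEN.E5

open Classical UpperHalfPlane
open Pool.Agent.PEN.Cl

noncomputable section

variable {V : Type} (G : Tg V) {al : ℝ} {kp : V → V → ℝ} {U : ℕ → ℝ}

/-- the number of claims in `I` on the target `a` -/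
def nc15 {ι β : Type} (I : Finset ι) (f : ι → β) (a : β) : ℕ := (I.filter (fun i => f i = a)).card

theorem sum_nc15 {ι β : Type} (I : Finset ι) (f : ι → β) (S : Finset β) (h : ∀ i ∈ I, f i ∈ S) :
    ∑ a ∈ S, (nc15 I f a : ℝ) = I.card := by
  unfold nc15
  rw [← Nat.cast_sum]
  congr 1
  exact (Finset.card_eq_sum_card_fiberwise (f := f) fun i hi =>
    Finset.mem_coe.2 (h i (Finset.mem_coe.1 hi))).symm

/-- the points that can pay: `k ≥ 2`, or `k = 1` and at least two big corners -/
def PV15 (al : ℝ) : Finset V :=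
  A2 G al ∪ (inN G).filter (fun v => uv G al v = 7 ∧ cv G v ≠ 1)

/-- **the result row of set B6 from rows and claims**: `IV`, `IK`, `IC` are the claims paid by points,
by black faces and by white classes; `src` is the white class that needs the claim -/
theorem row_claims15 (hG : G.Geo4 al kp U) (h1 : ∀ x ∈ iJ G, gc G al x ≤ 1)
    {yK : (cg G).ConnectedComponent → ℝ} (hyK : ∀ K ∈ Kc G, 1 ≤ yK K)
    {w p : V × V → ℝ} {ι : Type} (IV IK IC : Finset ι)
    (src : ι → G.adj.ConnectedComponent) (tV : ι → V) (tK : ι → (cg G).ConnectedComponent)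
    (tC : ι → G.adj.ConnectedComponent)
    (hsV : ∀ i ∈ IV, src i ∈ WF G ∧ tV i ∈ PV15 G al)
    (hsK : ∀ i ∈ IK, src i ∈ WF G ∧ tK i ∈ Kc G)
    (hsC : ∀ i ∈ IC, src i ∈ WF G ∧ tC i ∈ WF G)
    (hK : ∀ K ∈ Kc G, wx G 1 K + yK K * (Lv G K).card + F14 G K + Z14 G K + nc15 IK tK K ≤
      ∑ s ∈ PK G al K, max (4 - (rn G s : ℝ)) 0 +
      ∑ x ∈ (kS G K).filter (fun x => x ∈ BC G), w x + ∑ x ∈ Lv G K, p (sg G x) +
      11 / 2 * uK14 G al K - (yK K - 1) * (uK14 G al K - oK14 G K) + 3 * fe14 G K)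
    (hC : ∀ C ∈ WF G, ∑ x ∈ G.cJ C, w x + ∑ x ∈ (G.cJ C).filter (fun x => x.1 ∈ lfN G), p x +
      nc15 IC tC C ≤
      11 * ka G al C - 6 * qa G C + ∑ s ∈ G.cJ C, (yK (ku G s) - 1) * sp G al s +
      (nc15 IV src C + nc15 IK src C + nc15 IC src C))
    (hV : ∀ v ∈ A2 G al, ∑ s ∈ (Sv G v).filter (fun s => 0 ≤ Ds G al s),
        max (4 - (rn G s : ℝ)) 0 + ∑ s ∈ Sv G v, yK (ku G s) * Ds G al s + nc15 IV tV v ≤
      13 * (kv G al v - 1) - 2 * ep al)
    (h7 : ∀ v ∈ inN G, uv G al v = 7 → cv G v ≠ 1 →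
      ∑ s ∈ Sv G v, yK (ku G s) * Ds G al s + 2 * ep al + nc15 IV tV v ≤ 0) :
    Row14 G al := by
  refine row_rows14 G hG h1 hyK (w := w) (p := p) (rK := fun K => - (nc15 IK tK K : ℝ))
    (rC := fun C => (nc15 IV src C : ℝ) + nc15 IK src C + nc15 IC src C - nc15 IC tC C)
    (rV := fun v => - (nc15 IV tV v : ℝ)) ?_ ?_ ?_ ?_ ?_
  · intro K hK'
    have := hK K hK'
    linarith
  · intro C hC'
    have := hC C hC'
    linarith
  · intro v hv
    have := hV v hv
    linarith
  · intro v hv h2 h3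
    have := h7 v hv h2 h3
    linarith
  · have e1 := sum_nc15 IV src (WF G) fun i hi => (hsV i hi).1
    have e2 := sum_nc15 IK src (WF G) fun i hi => (hsK i hi).1
    have e3 := sum_nc15 IC src (WF G) fun i hi => (hsC i hi).1
    have e4 := sum_nc15 IV tV (PV15 G al) fun i hi => (hsV i hi).2
    have e5 := sum_nc15 IK tK (Kc G) fun i hi => (hsK i hi).2
    have e6 := sum_nc15 IC tC (WF G) fun i hi => (hsC i hi).2
    have hd : Disjoint (A2 G al) ((inN G).filter (fun v => uv G al v = 7 ∧ cv G v ≠ 1)) := by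
      rw [Finset.disjoint_left]
      intro v h2 h3
      have h4 := (Finset.mem_filter.1 h2).2
      have h5 := (Finset.mem_filter.1 h3).2.1
      omega
    unfold PV15 at e4
    rw [Finset.sum_union hd] at e4
    rw [Finset.sum_neg_distrib, Finset.sum_sub_distrib, Finset.sum_add_distrib,
      Finset.sum_add_distrib, Finset.sum_neg_distrib, Finset.sum_neg_distrib, e1, e2, e3, e5, e6]
    linarith

end

end Pool.Agent.PEN.E5
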