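import Pool.Agent.E5.Vr69

/-! # PENNY, all small diameters: capacities of the points with `k ≥ 2` in the set `T(55/13)`

A claim on a point with `k ≥ 2` comes through a negative sector of the point; at most `28` come through
one sector, and at most `42` through two adjacent ones. -/

set_option autoImplicit false

namespace Pool.Agent.PEN.E5

open Classical UpperHalfPlane
open Pool.Agent.PEN.Cl

noncomputable section

variable {V : Type} (G : Tg V) {al : ℝ} {kp : V → V → ℝ} {U : ℕ → ℝ}

/-- **four big corners**: the four sectors in cyclic order -/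
theorem c4_69 (hG : G.Geo4 al kp U) {v : V} (hv : v ∈ inN G) (hc : cv G v = 4) {x : V × V}
    (hx : x ∈ Sv G v) : ∃ y ∈ Sv G v, ∃ z ∈ Sv G v, ∃ t ∈ Sv G v, y ≠ x ∧ z ≠ x ∧ t ≠ x ∧ z ≠ y ∧
      t ≠ y ∧ t ≠ z ∧ Sv G v = {x, y, z, t} ∧ sg G y = nx G x ∧ sg G z = nx G y ∧
      sg G t = nx G z ∧ nx G t = sg G x := by
  obtain ⟨hx1, hx2⟩ := (mem_Sv89 G).1 hx
  have h0 : ∀ s ∈ Sv G v, nx G s ≠ sg G s := fun s hs h => by
    obtain ⟨h1, h2⟩ := (mem_Sv89 G).1 hs
    have := (sg_nx_iff89 G hG hv h1 h2).1 h.symm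
    omega
  have hcS : (Sv G v).card = 4 := by rw [Sv_card89 G hG hv, hc]
  obtain ⟨y, hy, hy2⟩ := sg_ex89 G hG (nx_Bv89 G hG hv hx)
  obtain ⟨z, hz, hz2⟩ := sg_ex89 G hG (nx_Bv89 G hG hv hy)
  obtain ⟨t, ht, ht2⟩ := sg_ex89 G hG (nx_Bv89 G hG hv hz)
  have hyx : y ≠ x := fun h => h0 x hx (by rw [← hy2, h])
  have hzy : z ≠ y := fun h => h0 y hy (by rw [← hz2, h])
  have htz : t ≠ z := fun h => h0 z hz (by rw [← ht2, h])
  have hzx : z ≠ x := by
    intro hzx
    have h10 : nx G y = sg G x := by rw [← hz2, hzx]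
    have hsub : ({x, y} : Finset (V × V)) ⊆ Sv G v := by
      intro w hw
      rcases Finset.mem_insert.1 hw with h | h
      · rw [h]; exact hx
      · rw [Finset.mem_singleton.1 h]; exact hy
    have hrot := rot89 G hG hv {x, y} hsub ⟨x, by simp⟩ (by
      intro w hw u hu huw
      rw [Finset.mem_insert, Finset.mem_singleton] at hw ⊢
      rcases hw with rfl | rfl
      · exact Or.inr (nx_injSv89 G hG hu hy (by rw [huw, h10]))
      · exact Or.inl (nx_injSv89 G hG hu hx (by rw [huw, hy2])))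
    have : (Sv G v).card ≤ 2 := by
      rw [← hrot]
      exact Finset.card_le_two
    omega
  have hty : t ≠ y := by
    intro hty
    refine hzx ?_
    refine nx_injSv89 G hG hz hx ?_
    rw [← ht2, hty, hy2]
  have htx : t ≠ x := by
    intro htx
    have h10 : nx G z = sg G x := by rw [← ht2, htx]
    have hsub : ({x, y, z} : Finset (V × V)) ⊆ Sv G v := by
      intro w hw
      rw [Finset.mem_insert, Finset.mem_insert, Finset.mem_singleton] at hw
      rcases hw with h | h | h
      · rw [h]; exact hx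
      · rw [h]; exact hy
      · rw [h]; exact hz
    have hrot := rot89 G hG hv {x, y, z} hsub ⟨x, by simp⟩ (by
      intro w hw u hu huw
      rw [Finset.mem_insert, Finset.mem_insert, Finset.mem_singleton] at hw ⊢
      rcases hw with rfl | rfl | rfl
      · exact Or.inr (Or.inr (nx_injSv89 G hG hu hz (by rw [huw, h10])))
      · exact Or.inl (nx_injSv89 G hG hu hx (by rw [huw, hy2]))
      · exact Or.inr (Or.inl (nx_injSv89 G hG hu hy (by rw [huw, hz2]))))
    have h3 := Finset.card_le_three (a := x) (b := y) (c := z)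
    rw [hrot] at h3
    omega
  have hS : Sv G v = {x, y, z, t} := by
    symm
    apply Finset.eq_of_subset_of_card_le
    · intro w hw
      rw [Finset.mem_insert, Finset.mem_insert, Finset.mem_insert, Finset.mem_singleton] at hw
      rcases hw with h | h | h | h
      · rw [h]; exact hx
      · rw [h]; exact hy
      · rw [h]; exact hz
      · rw [h]; exact ht
    · rw [hcS, Finset.card_insert_of_notMem, Finset.card_insert_of_notMem,
        Finset.card_insert_of_notMem, Finset.card_singleton]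
      · rw [Finset.mem_singleton]; exact htz.symm
      · rw [Finset.mem_insert, Finset.mem_singleton]
        rintro (h | h)
        · exact hzy h.symm
        · exact hty h.symm
      · rw [Finset.mem_insert, Finset.mem_insert, Finset.mem_singleton]
        rintro (h | h | h)
        · exact hyx h.symm
        · exact hzx h.symm
        · exact htx h.symm
  refine ⟨y, hy, z, hz, t, ht, hyx, hzx, htx, hzy, hty, htz, hS, hy2, hz2, ht2, ?_⟩
  obtain ⟨w, hw, hw2⟩ := nx_ex89 G hG (sg_Bv89 G hG hv hx)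
  have hw3 : w ∈ ({x, y, z, t} : Finset (V × V)) := by rw [← hS]; exact hw
  rw [Finset.mem_insert, Finset.mem_insert, Finset.mem_insert, Finset.mem_singleton] at hw3
  rcases hw3 with h | h | h | h
  · exact absurd (by rw [← hw2, h]) (h0 x hx)
  · exfalso
    refine hzx (sg_injSv89 G hG hv hz hx ?_)
    rw [hz2, ← hw2, h]
  · exfalso
    refine htx (sg_injSv89 G hG hv ht hx ?_)
    rw [ht2, ← hw2, h]
  · rw [← h]
    exact hw2

/-- opposite sectors of a point with four big corners -/
theorem opp69 (hG : G.Geo4 al kp U) {v : V} (hv : v ∈ inN G) {x y z t : V × V}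
    (hyx : y ≠ x) (hzx : z ≠ x) (htx : t ≠ x) (hzy : z ≠ y) (hty : t ≠ y) (htz : t ≠ z)
    (hS : Sv G v = {x, y, z, t}) (e1 : sg G y = nx G x) (e2 : sg G z = nx G y)
    (e3 : sg G t = nx G z) (e4 : nx G t = sg G x) :
    Ds G al x + Ds G al z = kv G al v - ep al - 2 ∧
      Ds G al y + Ds G al t = kv G al v - ep al - 2 := by
  have h1 := sum_gcB39 G hG (al := al) hv
  rw [← sum_sgv62 G hG hv (gc G al), hS, Finset.sum_insert, Finset.sum_insert, Finset.sum_insert,
    Finset.sum_singleton] at h1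
  · unfold Ds
    rw [← e1, ← e2, ← e3, e4]
    constructor <;> linarith
  · rw [Finset.mem_singleton]; exact htz.symm
  · rw [Finset.mem_insert, Finset.mem_singleton]
    rintro (h | h)
    · exact hzy h.symm
    · exact hty h.symm
  · rw [Finset.mem_insert, Finset.mem_insert, Finset.mem_singleton]
    rintro (h | h | h)
    · exact hyx h.symm
    · exact hzx h.symm
    · exact htx h.symm

/-- prices and demands, sector by sector -/
theorem pvdem69 {v : V} {dem : V × V → ℝ}
    (h0 : ∀ s ∈ Sv G v, 0 ≤ Ds G al s → dem s ≤ 0) :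
    ∑ s ∈ Sv G v, dem s + pv69 G al v ≤
      ∑ s ∈ Sv G v, (if 0 ≤ Ds G al s then (54 : ℝ) else dem s) := by
  unfold pv69
  rw [Finset.sum_filter, ← Finset.sum_add_distrib]
  refine Finset.sum_le_sum fun s hs => ?_
  have h3 : (0 : ℝ) ≤ rn G s := Nat.cast_nonneg _
  split_ifs with h
  · have h1 := h0 s hs h
    have h2 : max (54 - 14 * (rn G s : ℝ)) 0 ≤ 54 := max_le (by linarith) (by norm_num)
    linarith
  · rw [add_zero]

/-- prices and demands by the number of payers -/
theorem pvdem69' (hG : G.Geo4 al kp U) {v : V} (hv : v ∈ inN G) {dem : V × V → ℝ} {m : ℝ}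
    (h0 : ∀ s ∈ Sv G v, 0 ≤ Ds G al s → dem s ≤ 0) (h1 : ∀ s ∈ Sv G v, dem s ≤ m) :
    ∑ s ∈ Sv G v, dem s + pv69 G al v ≤
      54 * (((Sv G v).filter (fun s => 0 ≤ Ds G al s)).card : ℝ) +
      m * ((cv G v : ℝ) - ((Sv G v).filter (fun s => 0 ≤ Ds G al s)).card) := by
  refine (pvdem69 G h0).trans ?_
  rw [← Finset.sum_filter_add_sum_filter_not (Sv G v) (fun s => 0 ≤ Ds G al s)]
  have e1 : ∑ s ∈ (Sv G v).filter (fun s => 0 ≤ Ds G al s),
      (if 0 ≤ Ds G al s then (54 : ℝ) else dem s) =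
      54 * (((Sv G v).filter (fun s => 0 ≤ Ds G al s)).card : ℝ) := by
    rw [Finset.sum_congr rfl fun s hs => if_pos (Finset.mem_filter.1 hs).2, Finset.sum_const,
      nsmul_eq_mul, mul_comm]
  have e2 : ∑ s ∈ (Sv G v).filter (fun s => ¬ 0 ≤ Ds G al s),
      (if 0 ≤ Ds G al s then (54 : ℝ) else dem s) ≤
      (((Sv G v).filter (fun s => ¬ 0 ≤ Ds G al s)).card : ℝ) * m := by
    rw [← nsmul_eq_mul]
    refine Finset.sum_le_card_nsmul _ _ _ fun s hs => ?_
    obtain ⟨h2, h3⟩ := Finset.mem_filter.1 hs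
    rw [if_neg h3]
    exact h1 s h2
  have e3 := Finset.card_filter_add_card_filter_not (s := Sv G v) (fun s => 0 ≤ Ds G al s)
  rw [card_Sv62 G hG hv] at e3
  have e4 : (((Sv G v).filter (fun s => ¬ 0 ≤ Ds G al s)).card : ℝ) =
      (cv G v : ℝ) - ((Sv G v).filter (fun s => 0 ≤ Ds G al s)).card := by
    have : (((Sv G v).filter (fun s => 0 ≤ Ds G al s)).card : ℝ) +
      ((Sv G v).filter (fun s => ¬ 0 ≤ Ds G al s)).card = cv G v := by exact_mod_cast e3
    linarith
  rw [e1]
  rw [e4] at e2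
  linarith

/-- **point capacity**: demands through negative sectors, at most `28` each; with `k = 2` and three big
corners at most `26`, with `k = 2` and four big corners at most `42` through two adjacent sectors -/
theorem capV69 (hG : G.Geo4 al kp U) {v : V} (hv : v ∈ inN G) (h8 : 8 ≤ uv G al v)
    (ht : ¬ Ti39 G al v) {dem : V × V → ℝ}
    (h0 : ∀ s ∈ Sv G v, 0 ≤ Ds G al s → dem s ≤ 0) (h1 : ∀ s ∈ Sv G v, dem s ≤ 28)
    (h3 : uv G al v = 8 → cv G v = 3 → ∀ s ∈ Sv G v, dem s ≤ 26)
    (h4 : uv G al v = 8 → cv G v = 4 → ∀ s ∈ Sv G v, ∀ s' ∈ Sv G v, nx G s = sg G s' →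
      Ds G al s < 0 → Ds G al s' < 0 → dem s + dem s' ≤ 42) :
    ∑ s ∈ Sv G v, dem s ≤ sv69 G al v := by
  have a1 := pvdem69' G hG hv h0 h1
  have a2 := cardP69 G hG (al := al) hv
  have a3 := two_cv69 G hG (al := al) v
  have a2' : (((Sv G v).filter (fun s => 0 ≤ Ds G al s)).card : ℝ) ≤ cv G v := by exact_mod_cast a2
  rcases Nat.lt_or_ge 8 (uv G al v) with h9 | h9
  · have b1 : 26 * ((Sv G v).filter (fun s => 0 ≤ Ds G al s)).card + 858 + 12 * cv G v ≤
        118 * uv G al v := by omega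
    have b2 : 26 * (((Sv G v).filter (fun s => 0 ≤ Ds G al s)).card : ℝ) + 858 + 12 * cv G v ≤
        118 * uv G al v := by exact_mod_cast b1
    unfold sv69
    linarith
  have hu8 : uv G al v = 8 := le_antisymm h9 h8
  have hc1 := cv_pos15 G hG hv
  have hc : cv G v = 1 ∨ cv G v = 2 ∨ cv G v = 3 ∨ cv G v = 4 := by omega
  unfold sv69
  rw [hu8]
  rcases hc with hc | hc | hc | hc
  · rw [hc] at a1 a2' ⊢
    push_cast at a1 a2' ⊢
    linarith
  · rw [hc] at a1 a2' ⊢
    push_cast at a1 a2' ⊢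
    linarith
  · -- three big corners
    have b1 := pvdem69' G hG hv h0 (h3 hu8 hc)
    have hneg : ∃ s ∈ Sv G v, Ds G al s < 0 := by
      by_contra hno
      push Not at hno
      exact ht ⟨hu8, hc, hno⟩
    obtain ⟨n, hn, hD⟩ := hneg
    have b4 : ((Sv G v).filter (fun s => 0 ≤ Ds G al s)).card < (Sv G v).card :=
      Finset.card_lt_card (Finset.filter_ssubset.2 ⟨n, hn, not_le.2 hD⟩)
    rw [card_Sv62 G hG hv, hc] at b4
    have b5 : (((Sv G v).filter (fun s => 0 ≤ Ds G al s)).card : ℝ) ≤ 2 := by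
      exact_mod_cast Nat.lt_succ_iff.1 b4
    rw [hc] at b1 ⊢
    push_cast at b1 ⊢
    linarith
  · -- four big corners
    have hne : (Sv G v).Nonempty := by
      rw [← Finset.card_pos, card_Sv62 G hG hv, hc]
      norm_num
    obtain ⟨x, hx⟩ := hne
    obtain ⟨y, hy, z, hz, t, htt, hyx, hzx, htx, hzy, hty, htz, hS, e1, e2, e3, e4⟩ :=
      c4_69 G hG hv hc hx
    obtain ⟨o1, o2⟩ := opp69 G hG (al := al) hv hyx hzx htx hzy hty htz hS e1 e2 e3 e4
    rw [kv_eq89, hu8] at o1 o2
    push_cast at o1 o2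
    have hep := ep_pos89 G hG
    have b1 := pvdem69 G h0
    have b2 : ∑ s ∈ Sv G v, (if 0 ≤ Ds G al s then (54 : ℝ) else dem s) =
        (if 0 ≤ Ds G al x then (54 : ℝ) else dem x) + ((if 0 ≤ Ds G al y then (54 : ℝ) else dem y) +
        ((if 0 ≤ Ds G al z then (54 : ℝ) else dem z) +
        (if 0 ≤ Ds G al t then (54 : ℝ) else dem t))) := by
      rw [hS, Finset.sum_insert, Finset.sum_insert, Finset.sum_insert, Finset.sum_singleton]
      · rw [Finset.mem_singleton]; exact htz.symm
      · rw [Finset.mem_insert, Finset.mem_singleton]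
        rintro (h | h)
        · exact hzy h.symm
        · exact hty h.symm
      · rw [Finset.mem_insert, Finset.mem_insert, Finset.mem_singleton]
        rintro (h | h | h)
        · exact hyx h.symm
        · exact hzx h.symm
        · exact htx h.symm
    rw [b2] at b1
    have d1 := h1 x hx
    have d2 := h1 y hy
    have d3 := h1 z hz
    have d4 := h1 t htt
    have k1 := h4 hu8 hc x hx y hy e1.symm
    have k2 := h4 hu8 hc y hy z hz e2.symm
    have k3 := h4 hu8 hc z hz t htt e3.symm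
    have k4 := h4 hu8 hc t htt x hx e4
    rw [hc]
    push_cast
    by_cases c1 : 0 ≤ Ds G al x
    · have n3 : Ds G al z < 0 := by linarith
      rw [if_pos c1, if_neg (not_le.2 n3)] at b1
      by_cases c2 : 0 ≤ Ds G al y
      · have n4 : Ds G al t < 0 := by linarith
        rw [if_pos c2, if_neg (not_le.2 n4)] at b1
        have := k3 n3 n4
        linarith
      · rw [if_neg c2] at b1
        push Not at c2
        have := k2 c2 n3
        by_cases c4 : 0 ≤ Ds G al t
        · rw [if_pos c4] at b1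
          linarith
        · rw [if_neg c4] at b1
          linarith
    · rw [if_neg c1] at b1
      push Not at c1
      by_cases c2 : 0 ≤ Ds G al y
      · have n4 : Ds G al t < 0 := by linarith
        rw [if_pos c2, if_neg (not_le.2 n4)] at b1
        have := k4 n4 c1
        by_cases c3 : 0 ≤ Ds G al z
        · rw [if_pos c3] at b1
          linarith
        · rw [if_neg c3] at b1
          linarith
      · rw [if_neg c2] at b1
        push Not at c2
        have := k1 c1 c2
        by_cases c3 : 0 ≤ Ds G al z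
        · rw [if_pos c3] at b1
          by_cases c4 : 0 ≤ Ds G al t
          · rw [if_pos c4] at b1
            linarith
          · rw [if_neg c4] at b1
            linarith
        · rw [if_neg c3] at b1
          by_cases c4 : 0 ≤ Ds G al t
          · rw [if_pos c4] at b1
            linarith
          · rw [if_neg c4] at b1
            linarith

/-- **the out row of a point**: transfers given by `v`, each through a sector `sec i` of `v` -/
theorem outV69 (hG : G.Geo4 al kp U) {ι : Type} (I : Finset ι) (gv : ι → V) (sec : ι → V × V)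
    (amt : ι → ℝ) {v : V} (hv : v ∈ inN G) (h8 : 8 ≤ uv G al v) (ht : ¬ Ti39 G al v)
    (hs : ∀ i ∈ I, gv i = v → sec i ∈ Sv G v ∧ Ds G al (sec i) < 0)
    (h1 : ∀ s ∈ Sv G v, ∑ i ∈ I.filter (fun i => gv i = v ∧ sec i = s), amt i ≤ 28)
    (h3 : uv G al v = 8 → cv G v = 3 → ∀ i ∈ I, gv i ≠ v)
    (h4 : uv G al v = 8 → cv G v = 4 → ∀ s ∈ Sv G v, ∀ s' ∈ Sv G v, nx G s = sg G s' →
      Ds G al s < 0 → Ds G al s' < 0 →
      ∑ i ∈ I.filter (fun i => gv i = v ∧ sec i = s), amt i +
        ∑ i ∈ I.filter (fun i => gv i = v ∧ sec i = s'), amt i ≤ 42) :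
    ∑ i ∈ I.filter (fun i => gv i = v), amt i ≤ sv69 G al v := by
  have e1 : ∑ i ∈ I.filter (fun i => gv i = v), amt i =
      ∑ s ∈ Sv G v, ∑ i ∈ I.filter (fun i => gv i = v ∧ sec i = s), amt i := by
    rw [← Finset.sum_fiberwise_of_maps_to (s := I.filter (fun i => gv i = v)) (t := Sv G v)
      (g := sec) (fun i hi => (hs i (Finset.mem_filter.1 hi).1 (Finset.mem_filter.1 hi).2).1)]
    refine Finset.sum_congr rfl fun s _ => ?_
    rw [Finset.filter_filter]
  rw [e1]
  refine capV69 G hG hv h8 ht ?_ h1 ?_ h4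
  · intro s _ hD
    rw [Finset.sum_eq_zero]
    intro i hi
    obtain ⟨h5, h6, h7⟩ := Finset.mem_filter.1 hi
    have h8 := (hs i h5 h6).2
    rw [h7] at h8
    exact absurd hD (not_le.2 h8)
  · intro hu hc s _
    rw [Finset.sum_eq_zero]
    · norm_num
    · intro i hi
      obtain ⟨h5, h6, h7⟩ := Finset.mem_filter.1 hi
      exact absurd h6 (h3 hu hc i h5)

/-- **the out row of a point**, with claims through any negative sector also at `k = 2`, `c = 3`
(at most `26` through one sector there) -/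
theorem outV69b (hG : G.Geo4 al kp U) {ι : Type} (I : Finset ι) (gv : ι → V) (sec : ι → V × V)
    (amt : ι → ℝ) {v : V} (hv : v ∈ inN G) (h8 : 8 ≤ uv G al v) (ht : ¬ Ti39 G al v)
    (hs : ∀ i ∈ I, gv i = v → sec i ∈ Sv G v ∧ Ds G al (sec i) < 0)
    (h1 : ∀ s ∈ Sv G v, ∑ i ∈ I.filter (fun i => gv i = v ∧ sec i = s), amt i ≤ 28)
    (h3 : uv G al v = 8 → cv G v = 3 → ∀ s ∈ Sv G v,
      ∑ i ∈ I.filter (fun i => gv i = v ∧ sec i = s), amt i ≤ 26)
    (h4 : uv G al v = 8 → cv G v = 4 → ∀ s ∈ Sv G v, ∀ s' ∈ Sv G v, nx G s = sg G s' →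
      Ds G al s < 0 → Ds G al s' < 0 →
      ∑ i ∈ I.filter (fun i => gv i = v ∧ sec i = s), amt i +
        ∑ i ∈ I.filter (fun i => gv i = v ∧ sec i = s'), amt i ≤ 42) :
    ∑ i ∈ I.filter (fun i => gv i = v), amt i ≤ sv69 G al v := by
  have e1 : ∑ i ∈ I.filter (fun i => gv i = v), amt i =
      ∑ s ∈ Sv G v, ∑ i ∈ I.filter (fun i => gv i = v ∧ sec i = s), amt i := by
    rw [← Finset.sum_fiberwise_of_maps_to (s := I.filter (fun i => gv i = v)) (t := Sv G v)
      (g := sec) (fun i hi => (hs i (Finset.mem_filter.1 hi).1 (Finset.mem_filter.1 hi).2).1)]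
    refine Finset.sum_congr rfl fun s _ => ?_
    rw [Finset.filter_filter]
  rw [e1]
  refine capV69 G hG hv h8 ht ?_ h1 h3 h4
  intro s _ hD
  rw [Finset.sum_eq_zero]
  intro i hi
  obtain ⟨h5, h6, h7⟩ := Finset.mem_filter.1 hi
  have h8 := (hs i h5 h6).2
  rw [h7] at h8
  exact absurd hD (not_le.2 h8)

end

end Pool.Agent.PEN.E5
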