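import Pool.Agent.E5.Top71

/-! # PENNY, all small diameters: from the assembly with boundary to the target row -/

set_option autoImplicit false

namespace Pool.Agent.PEN.E5

open Classical UpperHalfPlane
open Pool.Agent.PEN.Cl

noncomputable section

/-- the curvature term, multiplied by the angle -/
theorem cor_mul69 {V : Type} (G : Tg V) {al : ℝ} (h : 0 < al) :
    cor G al * al = 2 * A3 al * (inN G).card + Ar G - A3 al * (G.iD.card / 3) := by
  unfold cor
  rw [div_mul_cancel₀ _ h.ne']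

/-- the numerical conditions: `c = 21 / Λ`; `κ` = area of the contact triangle divided by its angle,
`γ` = maximal area per boundary dart divided by the area of the contact triangle -/
structure Cf69 (κ γ Λ θ μ : ℝ) : Prop where
  L0 : 21 / 5 ≤ Λ
  L1 : Λ ≤ 10
  th0 : 0 ≤ θ
  th1 : θ ≤ 2
  mu0 : 0 ≤ 16 * Λ - 21 * θ - μ * Λ
  slope : (5 * Λ - 21) / 2 * γ + (21 * Λ + 21 * (3 + 4 * θ)) * κ * (γ - 1) ≤
    16 * Λ - 21 * θ + (5 * Λ - 21) / 2 - μ * Λ
  base : 144 * Λ - 21 * (2 + 4 * θ) + (5 * Λ - 21) + (5 * Λ - 21) / 2 * (16482 / 100) +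
    (21 * Λ + 21 * (3 + 4 * θ)) * κ * (13682 / 100) ≤
      30 * (16 * Λ - 21 * θ + (5 * Λ - 21) / 2 - μ * Λ)
  del : (5 * Λ - 21) + 2 * ((21 * Λ + 21 * (3 + 4 * θ)) * κ) ≤ 42 * θ
  small : 144 * Λ + (5 * Λ - 21) / 2 * 156 + (21 * Λ + 21 * (3 + 4 * θ)) * κ * 156 ≤
    11 * (63 * Λ - 45)
  kap0 : 0 ≤ κ
  kap1 : κ ≤ 1 / 15

/-- the arithmetic -/
theorem arith69 {κ γ Λ θ μ : ℝ} (H : Cf69 κ γ Λ θ μ) {n ni b s C Γ c R X : ℝ}
    (hn : 98 ≤ n) (hb : 0 ≤ b) (hs : 0 ≤ s) (hδ : n ≤ b + ni)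
    (hc : c = X * κ - κ * (b - 2) + κ * (2 * (b + ni - n) + s))
    (hX1 : 2 * n - 2 - b - s ≤ X)
    (hXs : b ≤ 29 → X ≤ 154) (hXl : 30 ≤ b → X ≤ 16482 / 100 + (b - 30) * γ)
    (hb' : b ≤ 29 ∨ 30 ≤ b)
    (hR : 21 * R ≤ 21 * (Λ - 1) * Γ + μ * Λ * b)
    (hasm : ni ≤ Λ * C + R + Γ + (3 + 4 * θ) * c + θ * b - 2 - 4 * θ - 2 * θ * (b + ni - n) -
      (1 + 2 * θ) * s) :
    5 * ni + 144 ≤ 21 * (C + Γ - c) + 16 * b + 63 * s := by
  obtain ⟨L0, L1, th0, th1, mu0, slope, base, del, small, k0, k1⟩ := H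
  have hΛ : 0 < Λ := by linarith
  -- it is enough to prove the inequality multiplied by `Λ`
  suffices h : 5 * ni * Λ + 144 * Λ ≤ 21 * (C + Γ - c) * Λ + 16 * b * Λ + 63 * s * Λ by
    nlinarith
  set P := (5 * Λ - 21) / 2 with hP
  set E := (21 * Λ + 21 * (3 + 4 * θ)) * κ with hE
  have P0 : 0 ≤ P := by rw [hP]; linarith
  have E0 : 0 ≤ E := by
    rw [hE]
    exact mul_nonneg (by linarith) k0
  have E1 : E ≤ 30 := by
    rw [hE]
    have : (21 * Λ + 21 * (3 + 4 * θ)) ≤ 441 := by linarith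
    nlinarith
  have P1 : P ≤ 29 / 2 := by rw [hP]; linarith
  -- the number of inner points
  have hni : 2 * ni ≤ X + 2 - b + s + 2 * (b + ni - n) := by linarith
  have hD : 0 ≤ b + ni - n := by linarith
  set D := b + ni - n with hDd
  have e1 : (21 * Λ + 21 * (3 + 4 * θ)) * c = E * X - E * (b - 2) + E * (2 * D + s) := by
    rw [hc, hE]
    ring
  have e2 : P * (2 * ni) ≤ P * (X + 2 - b + s + 2 * D) := mul_le_mul_of_nonneg_left hni P0
  have e3 : (5 * Λ - 21) * ni = P * (2 * ni) := by rw [hP]; ring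
  have e4 : (2 * P + 2 * E) * D ≤ 42 * θ * D := by
    apply mul_le_mul_of_nonneg_right _ hD
    rw [hP]
    linarith
  -- main inequality
  have main : 144 * Λ - 21 * (2 + 4 * θ) + 2 * P + (P + E) * X - E * (b - 2) ≤
      (16 * Λ - 21 * θ + P - μ * Λ) * b + (63 * Λ + 21 * (1 + 2 * θ) - P - E) * s := by
    rcases hb' with h1 | h1
    · have X1 := hXs h1
      have s1 : 11 ≤ s := by linarith
      have f1 : 63 * Λ - 45 ≤ 63 * Λ + 21 * (1 + 2 * θ) - P - E := by linarith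
      have f2 : (63 * Λ - 45) * 11 ≤ (63 * Λ + 21 * (1 + 2 * θ) - P - E) * s := by
        apply mul_le_mul f1 s1 (by norm_num)
        linarith
      have f3 : 0 ≤ (16 * Λ - 21 * θ + P - μ * Λ) * b := mul_nonneg (by linarith) hb
      have f4 : (P + E) * X ≤ (P + E) * 154 := mul_le_mul_of_nonneg_left X1 (by linarith)
      have f5 : 0 ≤ E * b := mul_nonneg E0 hb
      have f6 : 144 * Λ - 21 * (2 + 4 * θ) + 2 * P + (P + E) * 154 + 2 * E ≤
          (63 * Λ - 45) * 11 := by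
        linarith
      nlinarith
    · have X1 := hXl h1
      have f4 : (P + E) * X ≤ (P + E) * (16482 / 100 + (b - 30) * γ) :=
        mul_le_mul_of_nonneg_left X1 (by linarith)
      have f5 := mul_le_mul_of_nonneg_left slope (show 0 ≤ b - 30 by linarith)
      have f6 : 0 ≤ (63 * Λ + 21 * (1 + 2 * θ) - P - E) * s := mul_nonneg (by linarith) hs
      nlinarith
  have e5 : 21 * ni * 1 ≤ 21 * (Λ * C + R + Γ + (3 + 4 * θ) * c + θ * b - 2 - 4 * θ -
      2 * θ * D - (1 + 2 * θ) * s) := by linarith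
  nlinarith

/-- **from the assembly with boundary to the target row** -/
theorem target_of69 {d Λ θ μ R : ℝ} (hd : 0 < d) {G : Tg ℍ}
    (hG : G.Geo4 (alpha d) kap (Ust69 d)) (hn : 98 ≤ G.P.card)
    (H : Cf69 (A3 (alpha d) / alpha d) (g51 d / A3 (alpha d)) Λ θ μ)
    (hR : 21 * R ≤ 21 * (Λ - 1) * gam G (alpha d) + μ * Λ * G.oJ.card)
    (hasm : ((inN G).card : ℝ) ≤ Λ * cost G (alpha d) + R + gam G (alpha d) +
      (3 + 4 * θ) * cor G (alpha d) + θ * G.oJ.card - 2 - 4 * θ -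
      2 * θ * (G.oJ.card + (inN G).card - G.P.card) -
      (1 + 2 * θ) * (2 * G.P.card - 2 - G.oJ.card - G.iD.card / 3)) :
    Target71 G (alpha d) := by
  obtain ⟨t, I, A, hN, hiD, hiI, hA⟩ := num4 G hG (Ust69_zero d) (Ust69_mono d) (Ust69_sup d)
  have hal := alpha_pos hd
  have hA3 := A3_pos69 hd
  have hAr : Ar G = A := by rw [hA]; rfl
  have e2 : (G.iD.card : ℝ) / 3 = t := by
    rw [hiD]
    push_cast
    ring
  have hs := sE_nonneg71 G hG
  have f4 := card_inN71 G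
  have f4' : (G.P.card : ℝ) ≤ G.oJ.card + (inN G).card := by exact_mod_cast f4
  have hlow : (t : ℝ) ≤ A / A3 (alpha d) := by
    rw [le_div_iff₀ hA3]
    linarith [hN.low]
  unfold Target71
  refine arith69 (n := G.P.card) (R := R) (X := A / A3 (alpha d)) H (by exact_mod_cast hn)
    (Nat.cast_nonneg _) hs f4' ?_ ?_ ?_ ?_ ?_ hR ?_
  · have h1 := cor_mul69 G hal
    rw [hAr, e2] at h1
    have h2 : cor G (alpha d) = (2 * A3 (alpha d) * (inN G).card + A - A3 (alpha d) * t) /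
        alpha d := by
      rw [eq_div_iff hal.ne']
      exact h1
    rw [h2]
    unfold sE
    rw [e2]
    field_simp
    ring
  · unfold sE
    rw [e2]
    linarith
  · intro hb
    have hb' : G.oJ.card ≤ 29 := by exact_mod_cast hb
    rw [div_le_iff₀ hA3]
    have h1 := hN.up.trans (Ust69_mono d hb')
    have h2 := Ust_zero52 hd (b := 29) (by norm_num)
    have h3 : ((r0_52 29 : ℕ) : ℝ) / 100 ≤ 154 := by
      have : r0_52 29 = 15396 := by decide
      rw [this]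
      norm_num
    exact h1.trans (h2.trans (mul_le_mul_of_nonneg_right h3 hA3.le))
  · intro hb
    have hb' : 30 ≤ G.oJ.card := by exact_mod_cast hb
    rw [div_le_iff₀ hA3]
    have h1 := hN.up.trans (Ust_tail69 hd (by norm_num) hb')
    have h2 := Ust_zero52 hd (b := 30) (by norm_num)
    have h3 : ((r0_52 30 : ℕ) : ℝ) / 100 ≤ 16482 / 100 := by
      have : r0_52 30 = 16480 := by decide
      rw [this]
      norm_num
    have h4 := mul_le_mul_of_nonneg_right h3 hA3.le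
    have h5 : (16482 / 100 + ((G.oJ.card : ℝ) - 30) * (g51 d / A3 (alpha d))) *
        A3 (alpha d) = 16482 / 100 * A3 (alpha d) + ((G.oJ.card : ℝ) - 30) * g51 d := by
      field_simp
    rw [h5]
    push_cast at h1
    linarith
  · rcases Nat.lt_or_ge G.oJ.card 30 with h | h
    · left
      have : G.oJ.card ≤ 29 := by omega
      exact_mod_cast this
    · right
      exact_mod_cast h
  · unfold sE
    exact hasm

/-! ### The constants -/

/-- the area of the contact triangle against `tanh (d / 2)` -/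
theorem A3_tanh69 {d : ℝ} (hd : 0 < d) :
    √3 * Real.tanh (d / 2) ^ 2 ≤ A3 (alpha d) ∧
      (A3 (alpha d) ≤ 177 / 1000 → A3 (alpha d) ≤ 9 / 5 * Real.tanh (d / 2) ^ 2) := by
  have hpi := Real.pi_pos
  have hA := A3_pos69 hd
  set x := A3 (alpha d) / 3 with hx
  have hx0 : 0 < x := by positivity
  have hal : alpha d = Real.pi / 3 - x := by
    rw [hx]
    unfold A3
    ring
  have hC1 : 1 ≤ Real.cosh (d / 2) := Real.one_le_cosh _
  have hC0 : 0 < Real.cosh (d / 2) := by linarith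
  have h1 : Real.cosh d = 2 * Real.cosh (d / 2) ^ 2 - 1 := by
    have := Real.cosh_two_mul (d / 2)
    rw [show 2 * (d / 2) = d by ring] at this
    have h2 := Real.cosh_sq (d / 2)
    linarith
  have hT : Real.tanh (d / 2) ^ 2 = 1 - 1 / Real.cosh (d / 2) ^ 2 := by
    rw [Real.tanh_eq_sinh_div_cosh, div_pow]
    have := Real.cosh_sq (d / 2)
    field_simp
    linarith
  have hcos := cos_alpha hd
  rw [hal, Real.cos_sub, Real.cos_pi_div_three, Real.sin_pi_div_three, h1] at hcos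
  have h2 : (2 * Real.cosh (d / 2) ^ 2 - 1) / (2 * Real.cosh (d / 2) ^ 2 - 1 + 1) =
      1 / 2 + Real.tanh (d / 2) ^ 2 / 2 := by
    rw [hT]
    field_simp
    ring
  rw [h2] at hcos
  have hs3 : 0 ≤ √(3 : ℝ) := Real.sqrt_nonneg _
  have hq3 : √(3 : ℝ) ^ 2 = 3 := Real.sq_sqrt (by norm_num)
  constructor
  · have c1 := Real.cos_le_one x
    have c2 := Real.sin_le hx0.le
    have c3 : √3 / 2 * Real.sin x ≤ √3 / 2 * x := mul_le_mul_of_nonneg_left c2 (by positivity)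
    have c4 : Real.tanh (d / 2) ^ 2 ≤ √3 * x := by linarith
    have c5 := mul_le_mul_of_nonneg_left c4 hs3
    have c6 : √3 * (√3 * x) = 3 * x := by rw [← mul_assoc, ← pow_two, hq3]
    have c7 : 3 * x = A3 (alpha d) := by rw [hx]; ring
    linarith
  · intro hle
    have hx1 : x ≤ 59 / 1000 := by rw [hx]; linarith
    have c1 := Real.one_sub_sq_div_two_le_cos (x := x)
    have c2 := Real.sin_ge_sub_cube hx0.le
    have s1 : 1732 / 1000 ≤ √(3 : ℝ) := by
      rw [Real.le_sqrt (by norm_num) (by norm_num)]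
      norm_num
    have c3 : 1732 / 1000 / 2 * (x - x ^ 3 / 6) ≤ √3 / 2 * Real.sin x := by
      apply mul_le_mul (by linarith) c2 _ (by positivity)
      nlinarith [mul_nonneg hx0.le hx0.le]
    have c4 : x ^ 3 ≤ (59 / 1000) ^ 2 * x := by nlinarith [mul_nonneg hx0.le hx0.le]
    have c5 : x ^ 2 ≤ 59 / 1000 * x := by nlinarith
    have c7 : 3 * x = A3 (alpha d) := by rw [hx]; ring
    norm_num at c4
    linarith

/-- the maximal area per boundary dart -/
theorem g51_le69 {d : ℝ} (hd : 0 < d) (hT : Real.tanh (d / 2) ≤ 9 / 50) :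
    g51 d ≤ 2 * Real.tanh (d / 2) + 17 / 50 * Real.tanh (d / 2) ^ 3 := by
  unfold g51
  set T := Real.tanh (d / 2) with hTd
  have T0 : 0 ≤ T := by
    rw [hTd, Real.tanh_eq_sinh_div_cosh]
    exact div_nonneg (Real.sinh_nonneg_iff.2 (by linarith)) (Real.cosh_pos _).le
  have hpi := Real.pi_gt_three
  have h1 : Real.arcsin T ≤ T + 17 / 100 * T ^ 3 := by
    have hT3 : T ^ 3 ≤ (9 / 50) ^ 3 := pow_le_pow_left₀ T0 hT 3
    have hT3' : 0 ≤ T ^ 3 := by positivity
    norm_num at hT3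
    rw [Real.arcsin_le_iff_le_sin ⟨by linarith, by linarith⟩ ⟨by linarith, by linarith⟩]
    have h2 := Real.sin_ge_sub_cube (x := T + 17 / 100 * T ^ 3) (by positivity)
    have h3 : (T + 17 / 100 * T ^ 3) ^ 3 ≤ 102 / 100 * T ^ 3 := by
      have e : (T + 17 / 100 * T ^ 3) ^ 3 = (1 + 17 / 100 * T ^ 2) ^ 3 * T ^ 3 := by ring
      rw [e]
      apply mul_le_mul_of_nonneg_right _ hT3'
      have h4 : T ^ 2 ≤ (9 / 50) ^ 2 := pow_le_pow_left₀ T0 hT 2
      have h5 : (1 + 17 / 100 * T ^ 2) ^ 3 ≤ (1 + 17 / 100 * (9 / 50) ^ 2) ^ 3 :=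
        pow_le_pow_left₀ (by positivity) (by linarith) 3
      norm_num at h5 ⊢
      linarith
    linarith
  linarith

theorem tanh_rg69 {d : ℝ} (hd : 0 < d) :
    0 < Real.tanh (d / 2) ∧ Real.tanh (d / 2) ≤ d / 2 ∧
      d / 2 * (1 - (d / 2) ^ 2 / 2) ≤ Real.tanh (d / 2) := by
  have hc : 0 < Real.cosh (d / 2) := Real.cosh_pos _
  have hs : 0 < Real.sinh (d / 2) := Real.sinh_pos_iff.2 (by linarith)
  rw [Real.tanh_eq_sinh_div_cosh]
  refine ⟨by positivity, ?_, ?_⟩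
  · rw [div_le_iff₀ hc]
    have h1 : MonotoneOn (fun x : ℝ => x * Real.cosh x - Real.sinh x) (Set.Ici 0) := by
      apply monotoneOn_of_deriv_nonneg (convex_Ici 0)
      · fun_prop
      · fun_prop
      · intro y hy
        rw [interior_Ici] at hy
        have e : HasDerivAt (fun x : ℝ => x * Real.cosh x - Real.sinh x)
            (1 * Real.cosh y + y * Real.sinh y - Real.cosh y) y :=
          ((hasDerivAt_id' y).mul (Real.hasDerivAt_cosh y)).sub (Real.hasDerivAt_sinh y)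
        rw [e.deriv]
        have := mul_nonneg (le_of_lt (Set.mem_Ioi.1 hy))
          (Real.sinh_nonneg_iff.2 (le_of_lt (Set.mem_Ioi.1 hy)))
        linarith
    have h2 := h1 (Set.mem_Ici.2 le_rfl) (Set.mem_Ici.2 (by linarith : (0:ℝ) ≤ d / 2))
      (by linarith)
    simp only [Real.sinh_zero, zero_mul] at h2
    linarith
  · rw [le_div_iff₀ hc]
    have h1 := Real.cosh_le_exp_half_sq (d / 2)
    have h2 := Real.add_one_le_exp (-((d / 2) ^ 2 / 2))
    have h3 : (1 - (d / 2) ^ 2 / 2) * Real.cosh (d / 2) ≤ 1 := by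
      have h4 : Real.exp (-((d / 2) ^ 2 / 2)) * Real.exp ((d / 2) ^ 2 / 2) = 1 := by
        rw [← Real.exp_add]
        simp
      rw [← h4]
      apply mul_le_mul (by linarith) h1 hc.le (Real.exp_pos _).le
    have h5 : d / 2 ≤ Real.sinh (d / 2) := Real.self_le_sinh_iff.2 (by linarith)
    nlinarith

theorem cosh_le69 {d : ℝ} (hd : 0 < d) (h : d ≤ 89 / 250) : Real.cosh d ≤ 611 / 500 := by
  have h1 := Real.cosh_le_exp_half_sq d
  have h2 : Real.exp (d ^ 2 / 2) ≤ 611 / 500 := by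
    have h3 := Real.add_one_le_exp (-(d ^ 2 / 2))
    have h4 : d ^ 2 ≤ (89 / 250) ^ 2 := pow_le_pow_left₀ hd.le h 2
    have h5 : (9 / 10 : ℝ) ≤ Real.exp (-(d ^ 2 / 2)) := by
      norm_num at h4
      linarith
    rw [Real.exp_neg] at h5
    have h6 := Real.exp_pos (d ^ 2 / 2)
    have h7 : Real.exp (d ^ 2 / 2) * (Real.exp (d ^ 2 / 2))⁻¹ = 1 := mul_inv_cancel₀ h6.ne'
    nlinarith
  exact h1.trans h2

/-- all numbers at one diameter -/
theorem data69 {d T0 : ℝ} (hd : 0 < d) (h : d ≤ 2 * T0) (hT0 : T0 ≤ 1 / 8) :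
    0 < Real.tanh (d / 2) ∧ Real.tanh (d / 2) ≤ T0 ∧
    1732 / 1000 * Real.tanh (d / 2) ^ 2 ≤ A3 (alpha d) ∧
    A3 (alpha d) ≤ 9 / 5 * Real.tanh (d / 2) ^ 2 ∧
    g51 d ≤ 2 * Real.tanh (d / 2) + 17 / 50 * Real.tanh (d / 2) ^ 3 ∧
    1047 / 1000 - 3 / 5 * Real.tanh (d / 2) ^ 2 ≤ alpha d := by
  obtain ⟨t1, t2, _⟩ := tanh_rg69 hd
  obtain ⟨a1, a2⟩ := A3_tanh69 hd
  have hC := cosh_le69 hd (by linarith)
  have a3 := a2 (A3_le177_52 hd hC)
  have s1 : 1732 / 1000 ≤ √(3 : ℝ) := by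
    rw [Real.le_sqrt (by norm_num) (by norm_num)]
    norm_num
  have a4 := mul_le_mul_of_nonneg_right s1 (sq_nonneg (Real.tanh (d / 2)))
  have hpi := Real.pi_gt_d4
  refine ⟨t1, by linarith, by linarith, a3, g51_le69 hd (by linarith), ?_⟩
  have e : alpha d = (Real.pi - A3 (alpha d)) / 3 := by unfold A3; ring
  rw [e]
  linarith

theorem kg69 {a al g : ℝ} (ha : 0 < a) (hal : 0 < al) :
    a / al * (g / a - 1) = (g - a) / al := by
  field_simp

/-- the constants for `Λ = 21 / 5` -/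
theorem cfA69 {d θ μ T0 k0 : ℝ} (hd : 0 < d) (h : d ≤ 2 * T0) (hT0 : T0 ≤ 1 / 8)
    (hθ0 : 2 / 3 ≤ θ) (hθ1 : θ ≤ 2) (hμ0 : 0 ≤ μ) (hμ : μ ≤ 6)
    (hs : (36 + 20 * θ) * (2 * T0 + 17 / 50 * T0 ^ 3 - 1732 / 1000 * T0 ^ 2) ≤
      (16 - 5 * θ - μ) * (1047 / 1000 - 3 / 5 * T0 ^ 2))
    (hk : 9 / 5 * T0 ^ 2 ≤ k0 * (1047 / 1000 - 3 / 5 * T0 ^ 2)) (hk1 : k0 ≤ 1 / 28)
    (hb : 144 - 5 * (2 + 4 * θ) + (36 + 20 * θ) * (13682 / 100) * k0 ≤
      30 * (16 - 5 * θ - μ)) :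
    Cf69 (A3 (alpha d) / alpha d) (g51 d / A3 (alpha d)) (21 / 5) θ μ := by
  obtain ⟨t0, t1, a1, a2, g1, al1⟩ := data69 hd h hT0
  have hal := alpha_pos hd
  have hA := A3_pos69 hd
  set T := Real.tanh (d / 2) with hT
  have tt : T ^ 2 ≤ T0 ^ 2 := pow_le_pow_left₀ t0.le t1 2
  have k1 : A3 (alpha d) / alpha d ≤ k0 := by
    rw [div_le_iff₀ hal]
    have k00 : 0 ≤ k0 := by
      by_contra hneg
      push Not at hneg
      have tp : T0 ^ 2 ≤ (1 / 8) ^ 2 := pow_le_pow_left₀ (by linarith) hT0 2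
      have p : 0 < 1047 / 1000 - 3 / 5 * T0 ^ 2 := by
        norm_num at tp
        linarith
      have := mul_neg_of_neg_of_pos hneg p
      linarith [sq_nonneg T0]
    have : k0 * (1047 / 1000 - 3 / 5 * T0 ^ 2) ≤ k0 * alpha d :=
      mul_le_mul_of_nonneg_left (by linarith) k00
    linarith
  have k2 : 0 ≤ A3 (alpha d) / alpha d := by positivity
  have m1 : 2 * T + 17 / 50 * T ^ 3 - 1732 / 1000 * T ^ 2 ≤
      2 * T0 + 17 / 50 * T0 ^ 3 - 1732 / 1000 * T0 ^ 2 := by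
    have e : (2 * T0 + 17 / 50 * T0 ^ 3 - 1732 / 1000 * T0 ^ 2) -
        (2 * T + 17 / 50 * T ^ 3 - 1732 / 1000 * T ^ 2) =
        (T0 - T) * (2 - 1732 / 1000 * (T0 + T) + 17 / 50 * (T0 ^ 2 + T0 * T + T ^ 2)) := by
      ring
    have : 0 ≤ (T0 - T) * (2 - 1732 / 1000 * (T0 + T) + 17 / 50 * (T0 ^ 2 + T0 * T + T ^ 2)) := by
      apply mul_nonneg (by linarith)
      have : 0 ≤ T0 * T := mul_nonneg (by linarith) t0.le
      nlinarith [sq_nonneg T0, sq_nonneg T]
    linarith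
  have hθμ : 0 ≤ 16 - 5 * θ - μ := by linarith
  have sl : (36 + 20 * θ) * (g51 d - A3 (alpha d)) ≤ (16 - 5 * θ - μ) * alpha d := by
    have h1 : (16 - 5 * θ - μ) * (1047 / 1000 - 3 / 5 * T0 ^ 2) ≤ (16 - 5 * θ - μ) * alpha d :=
      mul_le_mul_of_nonneg_left (by linarith) hθμ
    have h2 : (36 + 20 * θ) * (g51 d - A3 (alpha d)) ≤
        (36 + 20 * θ) * (2 * T0 + 17 / 50 * T0 ^ 3 - 1732 / 1000 * T0 ^ 2) :=
      mul_le_mul_of_nonneg_left (by linarith) (by linarith)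
    linarith
  have sl2 : (36 + 20 * θ) * ((g51 d - A3 (alpha d)) / alpha d) ≤ 16 - 5 * θ - μ := by
    rw [← mul_div_assoc, div_le_iff₀ hal]
    exact sl
  have kk : (36 + 20 * θ) * (A3 (alpha d) / alpha d) ≤ (36 + 20 * θ) * k0 :=
    mul_le_mul_of_nonneg_left k1 (by linarith)
  have kk2 : (36 + 20 * θ) * k0 ≤ (36 + 20 * θ) * (1 / 28) :=
    mul_le_mul_of_nonneg_left hk1 (by linarith)
  have ee : (21 * (21 / 5) + 21 * (3 + 4 * θ)) * (A3 (alpha d) / alpha d) =
      21 / 5 * ((36 + 20 * θ) * (A3 (alpha d) / alpha d)) := by ring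
  refine ⟨le_rfl, by norm_num, by linarith, hθ1, by linarith, ?_, ?_, ?_, ?_, k2,
    by linarith⟩
  · have e := kg69 (g := g51 d) hA hal
    have e2 : (21 * (21 / 5) + 21 * (3 + 4 * θ)) * (A3 (alpha d) / alpha d) *
        (g51 d / A3 (alpha d) - 1) =
        21 / 5 * ((36 + 20 * θ) * ((g51 d - A3 (alpha d)) / alpha d)) := by
      rw [← e]
      ring
    rw [e2]
    linarith
  · rw [ee]
    linarith
  · rw [ee]
    linarith
  · rw [ee]
    linarith

/-- the constants for `Λ = 5`, `θ = 2 / 3` -/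
theorem cfB69 {d : ℝ} (hd : 1 / 10 ≤ d) (h : d ≤ 1 / 4) :
    Cf69 (A3 (alpha d) / alpha d) (g51 d / A3 (alpha d)) 5 (2 / 3) (1 / 5) := by
  have hd0 : 0 < d := by linarith
  obtain ⟨t0, t1, a1, a2, g1, al1⟩ := data69 (T0 := 1 / 8) hd0 (by linarith) le_rfl
  have hal := alpha_pos hd0
  have hA := A3_pos69 hd0
  have t2 : 499375 / 10000000 ≤ Real.tanh (d / 2) := by
    obtain ⟨_, _, t3⟩ := tanh_rg69 hd0
    refine le_trans ?_ t3
    obtain ⟨x, hx⟩ : ∃ x, x = d / 2 := ⟨_, rfl⟩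
    rw [← hx]
    have x1 : 1 / 20 ≤ x := by rw [hx]; linarith
    have x2 : x ≤ 1 / 8 := by rw [hx]; linarith
    have x3 : 0 ≤ (x - 1 / 20) * (1 - (x ^ 2 + x / 20 + 1 / 400) / 2) := by
      apply mul_nonneg (by linarith)
      nlinarith
    nlinarith
  set T := Real.tanh (d / 2) with hT
  have tt : T ^ 2 ≤ (1 / 8) ^ 2 := pow_le_pow_left₀ t0.le t1 2
  have k1 : A3 (alpha d) / alpha d ≤ 1 / 35 := by
    rw [div_le_iff₀ hal]
    norm_num at tt
    linarith
  have k2 : 0 ≤ A3 (alpha d) / alpha d := by positivity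
  -- the slope
  have f1 : 2 * (g51 d / A3 (alpha d)) ≤ 2 * (2 + 17 / 50 * T ^ 2) / (1732 / 1000 * T) := by
    have h1 : g51 d / A3 (alpha d) ≤ (2 * T + 17 / 50 * T ^ 3) / (1732 / 1000 * T ^ 2) := by
      apply div_le_div₀ (by positivity) g1 (by positivity) a1
    have h2 : (2 * T + 17 / 50 * T ^ 3) / (1732 / 1000 * T ^ 2) =
        (2 + 17 / 50 * T ^ 2) / (1732 / 1000 * T) := by
      field_simp
    rw [h2] at h1
    rw [mul_div_assoc]
    linarith
  have main : 2 * (g51 d / A3 (alpha d)) + 224 * ((g51 d - A3 (alpha d)) / alpha d) ≤ 67 := by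
    have f2 : g51 d - A3 (alpha d) ≤ 2 * T + 17 / 50 * T ^ 3 - 1732 / 1000 * T ^ 2 := by
      linarith
    have h0 : 0 ≤ 2 * T + 17 / 50 * T ^ 3 - 1732 / 1000 * T ^ 2 := by
      nlinarith [pow_pos t0 3]
    rcases le_total T (9 / 100) with hc | hc
    · have b1 : 10421 / 10000 ≤ alpha d := by nlinarith
      have b2 : (g51 d - A3 (alpha d)) / alpha d ≤
          (2 * T + 17 / 50 * T ^ 3 - 1732 / 1000 * T ^ 2) / (10421 / 10000) :=
        div_le_div₀ h0 f2 (by norm_num) b1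
      have b3 : 2 * (2 + 17 / 50 * T ^ 2) / (1732 / 1000 * T) +
          224 * ((2 * T + 17 / 50 * T ^ 3 - 1732 / 1000 * T ^ 2) / (10421 / 10000)) ≤ 67 := by
        have b4 : 224 * ((2 * T + 17 / 50 * T ^ 3 - 1732 / 1000 * T ^ 2) / (10421 / 10000)) =
            (224 * 10000 / 10421 * T * (2 * T + 17 / 50 * T ^ 3 - 1732 / 1000 * T ^ 2) *
              (1732 / 1000)) / (1732 / 1000 * T) := by
          field_simp
        rw [b4, ← add_div, div_le_iff₀ (by positivity)]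
        have q1 : 0 ≤ (T - 499375 / 10000000) * (9 / 100 - T) :=
          mul_nonneg (by linarith) (by linarith)
        have q2 := mul_nonneg q1 t0.le
        have q3 : T ^ 4 ≤ (9 / 100) ^ 2 * T ^ 2 := by
          have : T ^ 2 ≤ (9 / 100) ^ 2 := pow_le_pow_left₀ t0.le hc 2
          nlinarith [sq_nonneg T]
        nlinarith
      linarith
    · have b1 : 10376 / 10000 ≤ alpha d := by
        norm_num at tt
        linarith
      have b2 : (g51 d - A3 (alpha d)) / alpha d ≤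
          (2 * T + 17 / 50 * T ^ 3 - 1732 / 1000 * T ^ 2) / (10376 / 10000) :=
        div_le_div₀ h0 f2 (by norm_num) b1
      have b3 : 2 * (2 + 17 / 50 * T ^ 2) / (1732 / 1000 * T) +
          224 * ((2 * T + 17 / 50 * T ^ 3 - 1732 / 1000 * T ^ 2) / (10376 / 10000)) ≤ 67 := by
        have b4 : 224 * ((2 * T + 17 / 50 * T ^ 3 - 1732 / 1000 * T ^ 2) / (10376 / 10000)) =
            (224 * 10000 / 10376 * T * (2 * T + 17 / 50 * T ^ 3 - 1732 / 1000 * T ^ 2) *
              (1732 / 1000)) / (1732 / 1000 * T) := by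
          field_simp
        rw [b4, ← add_div, div_le_iff₀ (by positivity)]
        have q1 : 0 ≤ (T - 9 / 100) * (1 / 8 - T) := mul_nonneg (by linarith) (by linarith)
        have q2 := mul_nonneg q1 t0.le
        have q3 : T ^ 4 ≤ (1 / 8) ^ 2 * T ^ 2 := by
          nlinarith [sq_nonneg T]
        nlinarith
      linarith
  refine ⟨by norm_num, by norm_num, by norm_num, by norm_num, by norm_num, ?_, ?_, ?_, ?_, k2,
    by linarith⟩
  · have e := kg69 (g := g51 d) hA hal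
    have e2 : (21 * 5 + 21 * (3 + 4 * (2 / 3))) * (A3 (alpha d) / alpha d) *
        (g51 d / A3 (alpha d) - 1) = 224 * ((g51 d - A3 (alpha d)) / alpha d) := by
      rw [← e]
      ring
    rw [e2]
    linarith
  · linarith
  · linarith
  · linarith

/-- the table for `Λ = 21 / 5`: `θ = 1` up to `11 / 50`, `θ = 16 / 15` up to `1 / 5` -/
def TabA69 (d θ μ : ℝ) : Prop :=
  (θ = 1 ∧ ((d ≤ 1 / 10 ∧ μ = 29 / 5) ∨ (d ≤ 3 / 20 ∧ μ = 17 / 5) ∨ (d ≤ 1 / 5 ∧ μ = 11 / 10) ∨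
    (d ≤ 11 / 50 ∧ μ = 1 / 4))) ∨
  (θ = 16 / 15 ∧ ((d ≤ 1 / 10 ∧ μ = 53 / 10) ∨ (d ≤ 3 / 20 ∧ μ = 29 / 10) ∨
    (d ≤ 1 / 5 ∧ μ = 1 / 2)))

theorem tabA69 {d θ μ : ℝ} (hd : 0 < d) (h : TabA69 d θ μ) :
    Cf69 (A3 (alpha d) / alpha d) (g51 d / A3 (alpha d)) (21 / 5) θ μ := by
  rcases h with ⟨rfl, h⟩ | ⟨rfl, h⟩
  · rcases h with ⟨h, rfl⟩ | ⟨h, rfl⟩ | ⟨h, rfl⟩ | ⟨h, rfl⟩
    · exact cfA69 (T0 := 1 / 20) (k0 := 1 / 220) hd (by linarith) (by norm_num) (by norm_num)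
        (by norm_num) (by norm_num) (by norm_num) (by norm_num) (by norm_num) (by norm_num)
        (by norm_num)
    · exact cfA69 (T0 := 3 / 40) (k0 := 1 / 100) hd (by linarith) (by norm_num) (by norm_num)
        (by norm_num) (by norm_num) (by norm_num) (by norm_num) (by norm_num) (by norm_num)
        (by norm_num)
    · exact cfA69 (T0 := 1 / 10) (k0 := 1 / 50) hd (by linarith) (by norm_num) (by norm_num)
        (by norm_num) (by norm_num) (by norm_num) (by norm_num) (by norm_num) (by norm_num)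
        (by norm_num)
    · exact cfA69 (T0 := 11 / 100) (k0 := 1 / 45) hd (by linarith) (by norm_num) (by norm_num)
        (by norm_num) (by norm_num) (by norm_num) (by norm_num) (by norm_num) (by norm_num)
        (by norm_num)
  · rcases h with ⟨h, rfl⟩ | ⟨h, rfl⟩ | ⟨h, rfl⟩
    · exact cfA69 (T0 := 1 / 20) (k0 := 1 / 220) hd (by linarith) (by norm_num) (by norm_num)
        (by norm_num) (by norm_num) (by norm_num) (by norm_num) (by norm_num) (by norm_num)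
        (by norm_num)
    · exact cfA69 (T0 := 3 / 40) (k0 := 1 / 100) hd (by linarith) (by norm_num) (by norm_num)
        (by norm_num) (by norm_num) (by norm_num) (by norm_num) (by norm_num) (by norm_num)
        (by norm_num)
    · exact cfA69 (T0 := 1 / 10) (k0 := 1 / 50) hd (by linarith) (by norm_num) (by norm_num)
        (by norm_num) (by norm_num) (by norm_num) (by norm_num) (by norm_num) (by norm_num)
        (by norm_num)

/-- **target row, `Λ = 21 / 5`**: white faces with outer corners may cost `R` with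
`5 R ≤ 16 gam + μ b` -/
theorem target_A69 {d θ μ R : ℝ} (hd : 0 < d) (hT : TabA69 d θ μ) {G : Tg ℍ}
    (hG : G.Geo4 (alpha d) kap (Ust69 d)) (hn : 98 ≤ G.P.card)
    (hR : 5 * R ≤ 16 * gam G (alpha d) + μ * G.oJ.card)
    (hasm : ((inN G).card : ℝ) ≤ 21 / 5 * cost G (alpha d) + R + gam G (alpha d) +
      (3 + 4 * θ) * cor G (alpha d) + θ * G.oJ.card - 2 - 4 * θ -
      2 * θ * (G.oJ.card + (inN G).card - G.P.card) -
      (1 + 2 * θ) * (2 * G.P.card - 2 - G.oJ.card - G.iD.card / 3)) :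
    Target71 G (alpha d) :=
  target_of69 hd hG hn (tabA69 hd hT) (by linarith) hasm

/-- **target row, `Λ = 5`, `θ = 2 / 3`, `1 / 10 ≤ d ≤ 1 / 4`**: white faces with outer corners may
cost `R` with `21 R ≤ 84 gam + b` -/
theorem target_B69 {d R : ℝ} (hd : 1 / 10 ≤ d) (hd2 : d ≤ 1 / 4) {G : Tg ℍ}
    (hG : G.Geo4 (alpha d) kap (Ust69 d)) (hn : 98 ≤ G.P.card)
    (hR : 21 * R ≤ 84 * gam G (alpha d) + G.oJ.card)
    (hasm : ((inN G).card : ℝ) ≤ 5 * cost G (alpha d) + R + gam G (alpha d) +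
      (3 + 4 * (2 / 3)) * cor G (alpha d) + 2 / 3 * G.oJ.card - 2 - 4 * (2 / 3) -
      2 * (2 / 3) * (G.oJ.card + (inN G).card - G.P.card) -
      (1 + 2 * (2 / 3)) * (2 * G.P.card - 2 - G.oJ.card - G.iD.card / 3)) :
    Target71 G (alpha d) :=
  target_of69 (by linarith) hG hn (cfB69 hd hd2) (by linarith) hasm

end

end Pool.Agent.PEN.E5
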