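import Pool.Agent.E5.Rg89
import Pool.Agent.E5.Nm69

/-! # PENNY, all small diameters: the number of contacts from the rows with a crude boundary -/

set_option autoImplicit false

namespace Pool.Agent.PEN.E5

open Classical UpperHalfPlane
open Pool.Agent.PEN.Cl

noncomputable section

/-- the numbers at `d ≤ 0.356` -/
theorem data89 {d : ℝ} (hd : 0 < d) (h : d ≤ 89 / 250) :
    0 < alpha d ∧ 0 < A3 (alpha d) ∧ 18 * A3 (alpha d) ≤ alpha d ∧
      13 * (g51 d - A3 (alpha d)) ≤ 4 * alpha d := by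
  obtain ⟨t1, t2, _⟩ := tanh_rg69 hd
  obtain ⟨a1, a2⟩ := A3_tanh69 hd
  have hC := cosh_le69 hd h
  have a3 := a2 (A3_le177_52 hd hC)
  have hal := alpha_pos hd
  have hA := A3_pos69 hd
  have h3 : (1.732 : ℝ) ≤ √3 := by
    rw [Real.le_sqrt (by norm_num) (by norm_num)]
    norm_num
  have hg := g51_le69 hd (by linarith)
  have hpi := Real.pi_gt_d2
  have e1 : A3 (alpha d) = Real.pi - 3 * alpha d := rfl
  set T := Real.tanh (d / 2) with hT
  have hT1 : T ≤ 89 / 500 := by linarith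
  refine ⟨hal, hA, ?_, ?_⟩
  · have : T ^ 2 ≤ (89 / 500) ^ 2 := pow_le_pow_left₀ t1.le hT1 2
    nlinarith
  · have h4 : 1.732 * T ^ 2 ≤ A3 (alpha d) := (mul_le_mul_of_nonneg_right h3 (sq_nonneg T)).trans a1
    have h5 : 26 * T + 442 / 100 * T ^ 3 ≤ 418 / 100 + 20 * T ^ 2 := by
      nlinarith [mul_nonneg t1.le (sub_nonneg.2 hT1), sq_nonneg (T - 89 / 500),
        mul_nonneg (mul_nonneg t1.le t1.le) (sub_nonneg.2 hT1)]
    nlinarith

/-- **the number of contact darts from a row with the crude boundary** -/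
theorem crude89 {d : ℝ} (hd : 0 < d) (h : d ≤ 89 / 250) {G : Tg ℍ}
    (hG : G.Geo4 (alpha d) kap (Ust69 d)) {La : ℝ} (hLa : 6 ≤ La)
    (hrow : ((inN G).card : ℝ) ≤ La * cost G (alpha d) + 3 * gam G (alpha d) +
      7 * cor G (alpha d) + G.oJ.card - 6 - 3 * sE G -
      2 * (G.oJ.card + (inN G).card - G.P.card)) :
    La * (G.D.filter (fun x => G.con x.1 x.2)).card ≤
      (5 * La - 1) * G.P.card - 6 * La - 6 + (La + 7) / 9 := by
  obtain ⟨t, I, A, hN, hiD, hiI, hA⟩ := num4 G hG (Ust69_zero d) (Ust69_mono d) (Ust69_sup d)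
  obtain ⟨hal, hA3, hk, hg⟩ := data89 hd h
  have hAr : Ar G = A := by rw [hA]; rfl
  have e2 : (G.iD.card : ℝ) / 3 = t := by
    rw [hiD]
    push_cast
    ring
  have hs := sE_nonneg71 G hG
  have f3 := F3_89 G hG
  have f4 := card_inN71 G
  have f4' : (G.P.card : ℝ) ≤ G.oJ.card + (inN G).card := by exact_mod_cast f4
  have hgam : 0 ≤ gam G (alpha d) := Finset.sum_nonneg fun x _ => gc_nonneg89 G hG
  have hcor := cor_mul69 G hal
  rw [hAr, e2] at hcor
  have e1 : ((G.D.filter (fun x => G.con x.1 x.2)).card : ℝ) + 2 * I = 3 * t + G.oJ.card := by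
    exact_mod_cast hN.edge
  have e3 : (G.iI.card : ℝ) = 2 * I := by exact_mod_cast hiI
  have hup : A ≤ G.oJ.card * g51 d := hN.up.trans (Ust69_le_g hd.le _)
  have hsE : sE G = 2 * G.P.card - 2 - G.oJ.card - t := by
    unfold sE
    rw [e2]
  rw [hsE] at hs hrow
  rw [e3] at f3
  set D := ((G.D.filter (fun x => G.con x.1 x.2)).card : ℝ) with hD
  set n := (G.P.card : ℝ) with hn
  set b := (G.oJ.card : ℝ) with hb
  set ni := ((inN G).card : ℝ) with hni
  have hb0 : 0 ≤ b := Nat.cast_nonneg _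
  obtain ⟨s, hsd⟩ : ∃ s, s = 2 * n - 2 - b - t := ⟨_, rfl⟩
  obtain ⟨δ, hδ⟩ : ∃ δ, δ = b + ni - n := ⟨_, rfl⟩
  have hδ0 : 0 ≤ δ := by linarith
  have hs0 : 0 ≤ s := by linarith
  -- the curvature term
  have c1 : (La + 7) * (cor G (alpha d) * alpha d) ≤
      ((La - 2) * b + (La + 7) / 18 * (2 + s + 2 * δ)) * alpha d := by
    rw [hcor]
    have h1 : 2 * A3 (alpha d) * ni + A - A3 (alpha d) * t ≤
        b * (g51 d - A3 (alpha d)) + A3 (alpha d) * (2 + s + 2 * δ) := by
      rw [hsd, hδ]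
      linarith
    have h2 : (La + 7) * (g51 d - A3 (alpha d)) ≤ (La - 2) * alpha d := by
      nlinarith
    have h3 := mul_le_mul_of_nonneg_left h1 (by linarith : (0 : ℝ) ≤ La + 7)
    have h4 := mul_le_mul_of_nonneg_left h2 hb0
    have h5 : (La + 7) * (2 + s + 2 * δ) * (18 * A3 (alpha d)) ≤
        (La + 7) * (2 + s + 2 * δ) * alpha d :=
      mul_le_mul_of_nonneg_left hk (mul_nonneg (by linarith) (by linarith))
    nlinarith
  have c2 : (La + 7) * cor G (alpha d) ≤ (La - 2) * b + (La + 7) / 18 * (2 + s + 2 * δ) := by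
    rw [← mul_assoc] at c1
    exact le_of_mul_le_mul_right c1 hal
  have c3 : La * cost G (alpha d) = La * (2 * I) - La * ni - La * gam G (alpha d) +
      La * cor G (alpha d) := by
    rw [f3]
    ring
  have c4 : La * D + La * (2 * I) = La * (3 * t + b) := by
    rw [← e1]
    ring
  have c5 : (t : ℝ) = 2 * n - 2 - b - s := by linarith
  have c6 : ni = n - b + δ := by linarith
  have c7 : 0 ≤ (La - 3) * gam G (alpha d) := mul_nonneg (by linarith) hgam
  have c8 : 0 ≤ (2 * La + 1) * s := mul_nonneg (by linarith) hs0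
  have c9 : 0 ≤ (La - 6) * δ := mul_nonneg (by linarith) hδ0
  have c10 : 0 ≤ (La - 6) * s := mul_nonneg (by linarith) hs0
  rw [c5] at c4
  rw [← hδ, c3, ← hsd, c6] at hrow
  nlinarith

/-- **the linear bound** for `d ≤ 0.356` from the rows with a crude boundary -/
theorem eD_crude89 {d : ℝ} (hd : 0 < d) (h : d ≤ 89 / 250) {La : ℝ} (hLa : 6 ≤ La)
    (hrow : ∀ G : Tg ℍ, G.Geo4 (alpha d) kap (Ust69 d) → DelG G d → HullT G → Sep d G.P →
      ((inN G).card : ℝ) ≤ La * cost G (alpha d) + 3 * gam G (alpha d) +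
        7 * cor G (alpha d) + G.oJ.card - 6 - 3 * sE G -
        2 * (G.oJ.card + (inN G).card - G.P.card)) {n : ℕ} (hn : 9 ≤ n) :
    (eD d n : ℝ) ≤ ((5 * La - 1) * n - 6 * La - 6 + (La + 7) / 9) / (2 * La) := by
  have hLa0 : 0 < 2 * La := by linarith
  set f : ℕ → ℝ := fun n => ((5 * La - 1) * n - 6 * La - 6 + (La + 7) / 9) / (2 * La) with hf
  have ha2 : 2 * Real.pi < 7 * alpha d := by
    have h1 := data89 hd h
    have h2 : A3 (alpha d) = Real.pi - 3 * alpha d := rfl
    have h3 := Real.pi_gt_three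
    linarith [h1.2.2.1]
  have f9 : 16 ≤ f 9 := by
    rw [hf]
    simp only
    rw [le_div_iff₀ hLa0]
    push_cast
    linarith
  have hf0 : ∀ k : ℕ, 9 ≤ k → 0 ≤ f k := by
    intro k hk
    have h1 : (9 : ℝ) ≤ k := by exact_mod_cast hk
    rw [hf]
    simp only
    apply div_nonneg _ hLa0.le
    nlinarith
  have fs : ∀ k, f k + 2 ≤ f (k + 1) := by
    intro k
    rw [hf]
    simp only
    rw [← sub_nonneg]
    have : ((5 * La - 1) * ((k + 1 : ℕ) : ℝ) - 6 * La - 6 + (La + 7) / 9) / (2 * La) -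
        (((5 * La - 1) * (k : ℝ) - 6 * La - 6 + (La + 7) / 9) / (2 * La) + 2) =
        (La - 1) / (2 * La) := by
      push_cast
      field_simp
      ring
    rw [this]
    exact div_nonneg (by linarith) hLa0.le
  have key : eD d n ≤ ⌊f n⌋₊ := by
    apply eD_le
    intro P hc hP
    have h1 : cd d P ≤ 2 * ⌊f P.card⌋₊ := by
      refine all_gen5 hd ha2 (fun k => ⌊f k⌋₊) ?_ ?_ n ?_ hP (by omega) (by omega)
      · exact Nat.le_floor (by exact_mod_cast f9)
      · intro k hk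
        have h1 := fs k
        have h2 : ⌊f k⌋₊ + 2 ≤ ⌊f k + 2⌋₊ := by
          rw [Nat.floor_add_ofNat (hf0 k hk)]
        exact h2.trans (Nat.floor_le_floor h1)
      · intro G hG hD hH hS h10 _
        obtain ⟨t, I, A, hN, _⟩ := num4 G hG (Ust69_zero d) (Ust69_mono d) (Ust69_sup d)
        obtain ⟨k, hk⟩ := hN.even
        have h1 := crude89 hd h hG hLa (hrow G hG hD hH hS)
        rw [hk] at h1 ⊢
        have h2 : k ≤ ⌊f G.P.card⌋₊ := by
          apply Nat.le_floor
          rw [hf]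
          simp only
          rw [le_div_iff₀ hLa0]
          push_cast at h1
          linarith
        omega
    have h4 := two_numEdges hd P
    rw [hc] at h1
    omega
  calc (eD d n : ℝ) ≤ (⌊f n⌋₊ : ℝ) := by exact_mod_cast key
    _ ≤ f n := Nat.floor_le (hf0 n hn)

/-- **the rung `Λ = 8`**: at most `(39 n - 52) / 16` contacts -/
theorem eD_rung8_89 {d : ℝ} (hd : 0 < d) (h : d ≤ 89 / 250) {n : ℕ} (hn : 9 ≤ n) :
    (eD d n : ℝ) ≤ (39 * n - 52) / 16 := by
  have h1 := eD_crude89 hd h (La := 8) (by norm_num) (fun G hG hD _ hS => rung8_89 hG hD hS) hn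
  norm_num at h1
  linarith

end

end Pool.Agent.PEN.E5
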