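import Pool.Agent.E5.In15

/-! # PENNY, all small diameters: ears, middle corners and triangles without sides

For a black face `K` with a nonempty set `L` of sectors (its leaves, or one sector),
`∑ (2 - rn x)` over the other sectors plus the number of outer sectors with run at least 3 is at most
`2 |L|` plus the number of full ears. -/

set_option autoImplicit false

namespace Pool.Agent.PEN.E5

open Classical UpperHalfPlane
open Pool.Agent.PEN.Cl

noncomputable section

variable {V : Type} (G : Tg V) {al : ℝ} {kp : V → V → ℝ} {U : ℕ → ℝ}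

/-- the sectors between two outer darts, run at least 3 -/
def M54 (K : (cg G).ConnectedComponent) : Finset (V × V) :=
  (kS G K).filter (fun x => x ∈ G.oJ ∧ nx G x ∈ G.oJ ∧ 3 ≤ rn G x)

/-- the full ears: between two outer darts, run at most 1 -/
def F54 (K : (cg G).ConnectedComponent) : Finset (V × V) :=
  (kS G K).filter (fun x => x ∈ G.oJ ∧ nx G x ∈ G.oJ ∧ rn G x ≤ 1)

theorem mem_M54 {K : (cg G).ConnectedComponent} {x : V × V} :
    x ∈ M54 G K ↔ x ∈ kS G K ∧ x ∈ G.oJ ∧ nx G x ∈ G.oJ ∧ 3 ≤ rn G x := by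
  unfold M54
  rw [Finset.mem_filter]

theorem mem_F54 {K : (cg G).ConnectedComponent} {x : V × V} :
    x ∈ F54 G K ↔ x ∈ kS G K ∧ x ∈ G.oJ ∧ nx G x ∈ G.oJ ∧ rn G x ≤ 1 := by
  unfold F54
  rw [Finset.mem_filter]

/-- the middle corners of a sector -/
def mc54 (x : V × V) : Finset (V × V) :=
  (rd G x).filter (fun z => tt G (z.2, z.1) ∧ tt G (z.1, G.ap z.1 z.2))

theorem mem_mc54 {x z : V × V} :
    z ∈ mc54 G x ↔ z ∈ rd G x ∧ tt G (z.2, z.1) ∧ tt G (z.1, G.ap z.1 z.2) := by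
  unfold mc54
  rw [Finset.mem_filter]

/-- the run, by positions -/
theorem run54 (hG : G.Geo4 al kp U) {x : V × V} (hx : x ∈ SD G) :
    (∀ i < rn G x, tt G (x.2, (G.ap x.2)^[i] x.1)) ∧ ¬ tt G (x.2, (G.ap x.2)^[rn G x] x.1) := by
  have h := hasN63 G hG hx
  rw [rn_eq63 G h]
  exact ⟨fun i hi => run_tt42 G h hi, Nat.find_spec h⟩

theorem mc_pos54 (hG : G.Geo4 al kp U) {x : V × V} (hx : x ∈ SD G) {i : ℕ} :
    (x.2, (G.ap x.2)^[i] x.1) ∈ mc54 G x ∧ i < rn G x ↔ 1 ≤ i ∧ i + 1 < rn G x := by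
  obtain ⟨r1, r2⟩ := run54 G hG hx
  constructor
  · rintro ⟨h, hi⟩
    obtain ⟨_, h2, h3⟩ := (mem_mc54 G).1 h
    refine ⟨?_, ?_⟩
    · by_contra hc
      have h0 : i = 0 := by omega
      rw [h0] at h2
      exact ((mem_SD42 G).1 hx).2 h2
    · by_contra hc
      have h0 : i + 1 = rn G x := by omega
      dsimp only at h3
      rw [← Function.iterate_succ_apply' (G.ap x.2), Nat.succ_eq_add_one, h0] at h3
      exact r2 h3
  · rintro ⟨h1, h2⟩
    refine ⟨(mem_mc54 G).2 ⟨(mem_rd63 G).2 ⟨i, by omega, rfl⟩, ?_, ?_⟩, by omega⟩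
    · obtain ⟨j, rfl⟩ : ∃ j, i = j + 1 := ⟨i - 1, by omega⟩
      dsimp only
      rw [Function.iterate_succ_apply']
      exact (tt_ap42 G (r1 j (by omega))).2.2
    · dsimp only
      rw [← Function.iterate_succ_apply' (G.ap x.2)]
      exact r1 (i + 1) h2

theorem card_mc54 (hG : G.Geo4 al kp U) {x : V × V} (hx : x ∈ SD G) :
    (mc54 G x).card = rn G x - 2 := by
  have e : mc54 G x = (Finset.Ico 1 (rn G x - 1)).image (fun i => (x.2, (G.ap x.2)^[i] x.1)) := by
    ext z
    rw [Finset.mem_image]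
    constructor
    · intro hz
      obtain ⟨i, hi, rfl⟩ := (mem_rd63 G).1 ((mem_mc54 G).1 hz).1
      obtain ⟨h1, h2⟩ := (mc_pos54 G hG hx).1 ⟨hz, hi⟩
      exact ⟨i, Finset.mem_Ico.2 ⟨h1, by omega⟩, rfl⟩
    · rintro ⟨i, hi, rfl⟩
      rw [Finset.mem_Ico] at hi
      exact ((mc_pos54 G hG hx).2 ⟨hi.1, by omega⟩).1
  rw [e, Finset.card_image_of_injOn, Nat.card_Ico]
  · omega
  · intro i hi j hj he
    have hi' := Finset.mem_Ico.1 (Finset.mem_coe.1 hi)
    have hj' := Finset.mem_Ico.1 (Finset.mem_coe.1 hj)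
    exact (rd_uniq63 G hG hx hx (by omega) (by omega) he).2

theorem mc_disj54 (hG : G.Geo4 al kp U) {x y : V × V} (hx : x ∈ SD G) (hy : y ∈ SD G)
    (hne : x ≠ y) : Disjoint (mc54 G x) (mc54 G y) := by
  have h := rd_disj63 G hG hx hy hne
  exact Finset.disjoint_of_subset_left (Finset.filter_subset _ _)
    (Finset.disjoint_of_subset_right (Finset.filter_subset _ _) h)

/-- the contact triangle on the left of `z` has no side -/
def sl54 (z : V × V) : Prop :=
  tt G (z.2, z.1) ∧ tt G (G.ap z.1 z.2, z.2) ∧ tt G (z.1, G.ap z.1 z.2)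

theorem sl_rot54 {z : V × V} (hz : tt G z) (h : sl54 G z) : sl54 G (z.2, G.ap z.1 z.2) := by
  obtain ⟨h1, h2, h3⟩ := h
  refine ⟨h2, ?_, ?_⟩
  · dsimp only
    rw [G.ap3 _ _ hz.1]
    exact h3
  · dsimp only
    rw [G.ap3 _ _ hz.1]
    exact h1

theorem sl_rot54' {z : V × V} (hz : tt G z) (h : sl54 G z) : sl54 G (G.ap z.1 z.2, z.1) := by
  obtain ⟨h1, h2, h3⟩ := h
  refine ⟨h3, ?_, ?_⟩
  · dsimp only
    rw [G.ap4 _ _ hz.1]
    exact h1
  · dsimp only
    rw [G.ap4 _ _ hz.1]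
    exact h2

/-- the contact triangles of `K` without a side -/
def Id54 (K : (cg G).ConnectedComponent) : Finset (Finset V) :=
  ((kT G K).filter (fun z => sl54 G z)).image G.tri

theorem mem_Id54 {K : (cg G).ConnectedComponent} {D : Finset V} :
    D ∈ Id54 G K ↔ ∃ z, z ∈ kT G K ∧ sl54 G z ∧ G.tri z = D := by
  unfold Id54
  simp only [Finset.mem_image, Finset.mem_filter, and_assoc]

theorem kT_rot54 {K : (cg G).ConnectedComponent} {z : V × V} (hz : z ∈ kT G K) :
    (z.2, G.ap z.1 z.2) ∈ kT G K := by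
  obtain ⟨h1, h2⟩ := (mem_kT42 G).1 hz
  exact (mem_kT42 G).2 ⟨tt_rot42 G h1, (ku_rot42 G h1).trans h2⟩

theorem kT_rot54' {K : (cg G).ConnectedComponent} {z : V × V} (hz : z ∈ kT G K) :
    (G.ap z.1 z.2, z.1) ∈ kT G K := by
  obtain ⟨h1, h2⟩ := (mem_kT42 G).1 hz
  exact (mem_kT42 G).2 ⟨tt_rot42' G h1, (ku_rot42' G h1).trans h2⟩

/-- a corner of a triangle without sides is a middle corner -/
theorem sl_mc54 (hG : G.Geo4 al kp U) {K : (cg G).ConnectedComponent} {z : V × V}
    (hz : z ∈ kT G K) (h : sl54 G z) : ∃ x ∈ kS G K, z ∈ mc54 G x := by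
  have h1 := hz
  rw [← cover63 G hG K, Finset.mem_biUnion] at h1
  obtain ⟨x, hx, h2⟩ := h1
  exact ⟨x, hx, (mem_mc54 G).2 ⟨h2, h.1, h.2.2⟩⟩

/-- the number of ears -/
theorem ears54 (hG : G.Geo4 al kp U) {K : (cg G).ConnectedComponent} (ht : 2 ≤ tK G K) :
    tK G K ≤ ((kS G K).filter (fun x => 2 ≤ rn G x)).card + (Id54 G K).card := by
  have hsub : (kT G K).image G.tri ⊆
      ((kS G K).filter (fun x => 2 ≤ rn G x)).image (fun x => G.tri (x.2, x.1)) ∪ Id54 G K := by
    intro T hT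
    obtain ⟨z, hz, rfl⟩ := Finset.mem_image.1 hT
    rw [Finset.mem_union]
    by_cases hs : sl54 G z
    · exact Or.inr ((mem_Id54 G).2 ⟨z, hz, hs, rfl⟩)
    left
    -- a side of the triangle
    have key : ∀ w ∈ kT G K, G.tri w = G.tri z → ¬ tt G (w.2, w.1) →
        G.tri z ∈ ((kS G K).filter (fun x => 2 ≤ rn G x)).image (fun x => G.tri (x.2, x.1)) := by
      intro w hw hwz hn
      obtain ⟨w1, w2⟩ := (mem_kT42 G).1 hw
      have hx : (w.2, w.1) ∈ SD G := (mem_SD42 G).2 ⟨KJ_swap42 G (tt_KJ42 G w1), hn⟩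
      have hxk : ku G (w.2, w.1) = K := (ku_swap42 G (tt_KJ42 G w1)).trans w2
      have hxS : (w.2, w.1) ∈ kS G K := (mem_kS42 G).2 ⟨hx, hxk⟩
      have hpos : 0 < rn G (w.2, w.1) := (rn_pos54 G hG hx).2 w1
      rw [Finset.mem_image]
      rcases Nat.lt_or_ge (rn G (w.2, w.1)) 2 with h1 | h1
      · have h2 : rn G (w.2, w.1) = 1 := by omega
        have hy := nx_kS89 G hG hxS
        obtain ⟨hy1, hy2⟩ := (mem_kS42 G).1 hy
        have hyn : nx G (w.2, w.1) = (w.1, G.ap w.1 w.2) := by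
          rw [nx_of54 G hG hx, h2, Function.iterate_one]
        refine ⟨nx G (w.2, w.1), Finset.mem_filter.2 ⟨hy, ?_⟩, ?_⟩
        · by_contra hc
          have h3 : 0 < rn G (nx G (w.2, w.1)) := by
            rw [rn_pos54 G hG hy1, hyn]
            exact tt_rot42' G w1
          obtain ⟨_, _, _, h4⟩ := single54 G hG hx rfl (by omega) h2
          rw [hy2] at h4
          omega
        · rw [hyn]
          exact (tri_rot66' G w1.1).trans hwz
      · exact ⟨(w.2, w.1), Finset.mem_filter.2 ⟨hxS, h1⟩, hwz⟩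
    have hz1 := ((mem_kT42 G).1 hz).1
    by_cases n1 : tt G (z.2, z.1)
    · by_cases n2 : tt G (G.ap z.1 z.2, z.2)
      · have n3 : ¬ tt G (z.1, G.ap z.1 z.2) := fun n3 => hs ⟨n1, n2, n3⟩
        exact key (G.ap z.1 z.2, z.1) (kT_rot54' G hz) (tri_rot66' G hz1.1) n3
      · exact key (z.2, G.ap z.1 z.2) (kT_rot54 G hz) (tri_rot66 G hz1.1) n2
    · exact key z hz rfl n1
  have h1 := Finset.card_le_card hsub
  have h2 := Finset.card_union_le (((kS G K).filter (fun x => 2 ≤ rn G x)).image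
    (fun x => G.tri (x.2, x.1))) (Id54 G K)
  have h3 := Finset.card_image_le (s := (kS G K).filter (fun x => 2 ≤ rn G x))
    (f := fun x => G.tri (x.2, x.1))
  unfold tK
  omega

/-- two saturated corners of a triangle without sides: a full ear -/
theorem sat54 (hG : G.Geo4 al kp U) {K : (cg G).ConnectedComponent} {z x y : V × V}
    (hz : z ∈ kT G K) (hs : sl54 G z) (hx : x ∈ M54 G K) (hy : y ∈ M54 G K)
    (hxz : (x.2, (G.ap x.2)^[rn G x - 2] x.1) = z)
    (hyz : (G.ap z.1 z.2, z.1) ∈ mc54 G y) (hyall : ∀ w ∈ mc54 G y, sl54 G w) :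
    ∃ e ∈ F54 G K, G.tri (G.ap e.2 e.1, e.1) = G.tri z := by
  obtain ⟨hx1, hx2, hx3, hx4⟩ := (mem_M54 G).1 hx
  obtain ⟨hy1, hy2, hy3, hy4⟩ := (mem_M54 G).1 hy
  have hxS := ((mem_kS42 G).1 hx1).1
  have hyS := ((mem_kS42 G).1 hy1).1
  obtain ⟨r1, r2⟩ := run54 G hG hxS
  have hz1 := ((mem_kT42 G).1 hz).1
  obtain ⟨a, c⟩ := z
  have ea : x.2 = a := congrArg Prod.fst hxz
  have ec : (G.ap x.2)^[rn G x - 2] x.1 = c := congrArg Prod.snd hxz
  rw [ea] at ec
  obtain ⟨b, hb⟩ : ∃ b, G.ap a c = b := ⟨_, rfl⟩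
  dsimp only at hyz
  rw [hb] at hyz
  -- the last triangle of the run of `x`
  have e1 : (G.ap a)^[rn G x - 1] x.1 = b := by
    rw [← hb, ← ec, ← Function.iterate_succ_apply' (G.ap a)]
    congr 2
    omega
  have t1 : tt G (a, b) := by
    have := r1 (rn G x - 1) (by omega)
    rw [ea, e1] at this
    exact this
  obtain ⟨w, hw⟩ : ∃ w, G.ap a b = w := ⟨_, rfl⟩
  have e2 : (G.ap a)^[rn G x] x.1 = w := by
    rw [← hw, ← e1, ← Function.iterate_succ_apply' (G.ap a)]
    congr 2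
    omega
  have hnx : nx G x = (a, w) := by
    rw [nx_of54 G hG hxS, ea, e2]
  have t2 := tt_rot42 G t1
  have t3 := tt_rot42' G t1
  dsimp only at t2 t3
  rw [hw] at t2 t3
  -- the run of `y`
  obtain ⟨s1, s2⟩ := run54 G hG hyS
  obtain ⟨i, hi, hie⟩ := (mem_rd63 G).1 ((mem_mc54 G).1 hyz).1
  have hi2 := (mc_pos54 G hG hyS (i := i)).1 ⟨by rw [hie]; exact hyz, hi⟩
  have eb : y.2 = b := congrArg Prod.fst hie
  have ei : (G.ap y.2)^[i] y.1 = a := congrArg Prod.snd hie
  rw [eb] at ei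
  obtain ⟨j, rfl⟩ : ∃ j, i = j + 1 := ⟨i - 1, by omega⟩
  have s3 := s1 j (by omega)
  rw [eb] at s3
  have e3 : (G.ap b)^[j] y.1 = w := by
    have h1 := bk_fw71 (G := G) s3.1
    rw [← Function.iterate_succ_apply' (G.ap b), Nat.succ_eq_add_one, ei] at h1
    rw [← h1]
    exact hw
  have hj : j = 0 := by
    by_contra hj0
    have h1 := (mc_pos54 G hG hyS (i := j)).2 ⟨by omega, by omega⟩
    rw [eb, e3] at h1
    have h2 := (hyall _ h1.1).2.1
    dsimp only at h2
    have h3 : G.ap b w = a := by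
      have := G.ap3 _ _ t1.1
      rw [hw] at this
      exact this
    rw [h3, ← hnx] at h2
    have h4 := nx_kS89 G hG hx1
    exact ((mem_SD42 G).1 ((mem_kS42 G).1 h4).1).2 h2
  rw [hj, Function.iterate_zero, id_eq] at e3
  have ey : y = (w, b) := Prod.ext e3 eb
  -- the ear
  have hE := nx_kS89 G hG hx1
  have hES := ((mem_kS42 G).1 hE).1
  rw [hnx] at hE hES hx3
  have h5 : G.ap w a = b := by
    have := G.ap4 _ _ t1.1
    rw [hw] at this
    exact this
  have hrn : rn G (a, w) = 1 := by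
    refine rn_of54 G hG hES ?_ ?_
    · intro k hk
      have : k = 0 := by omega
      rw [this]
      exact t3
    · rw [Function.iterate_one]
      dsimp only
      rw [h5, ← ey]
      exact ((mem_SD42 G).1 hyS).2
  refine ⟨(a, w), (mem_F54 G).2 ⟨hE, hx3, ?_, by omega⟩, ?_⟩
  · rw [nx_of54 G hG hES, hrn, Function.iterate_one]
    dsimp only
    rw [h5, ← ey]
    exact hy2
  · dsimp only
    rw [h5, ← hb]
    exact tri_rot66' G hz1.1

theorem prop54 {L0 L1 L2 T0 T1 T2 : Prop} (c0 : L0 ∨ T0) (c1 : L1 ∨ T1) (c2 : L2 ∨ T2)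
    (m0 : T0 → ¬ T2) (m1 : T1 → ¬ T0) (m2 : T2 → ¬ T1) (l0 : L0 → ¬ L2) (l1 : L1 → ¬ L0)
    (l2 : L2 → ¬ L1) : False := by
  rcases c0 with a | a <;> rcases c1 with b | b <;> rcases c2 with c | c
  · exact l0 a c
  · exact l1 b a
  · exact l0 a c
  · exact m2 c b
  · exact l2 c b
  · exact m0 a c
  · exact m1 b a
  · exact m0 a c

/-- **the main count** -/
theorem count54 (hG : G.Geo4 al kp U) {K : (cg G).ConnectedComponent} {L : Finset (V × V)}
    (hL : L ⊆ kS G K) (hLn : L.Nonempty) (hLM : Disjoint L (M54 G K))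
    (hL5 : 3 ≤ L.card → ∀ x ∈ L, rn G x ≤ 5) :
    (Id54 G K).card + (M54 G K).card + 2 ≤
      ∑ x ∈ kS G K \ L, (rn G x - 2) + 2 * L.card + (F54 G K).card := by
  have hSD : ∀ x ∈ kS G K, x ∈ SD G := fun x hx => ((mem_kS42 G).1 hx).1
  have hMS : M54 G K ⊆ kS G K \ L := by
    intro x hx
    refine Finset.mem_sdiff.2 ⟨((mem_M54 G).1 hx).1, fun h => ?_⟩
    exact Finset.disjoint_left.1 hLM h hx
  -- the corner taken by an `M` sector
  have hex : ∀ x, ∃ z, x ∈ M54 G K → z ∈ mc54 G x ∧ (sl54 G z → (∀ w ∈ mc54 G x, sl54 G w) ∧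
      (x.2, (G.ap x.2)^[rn G x - 2] x.1) = z) := by
    intro x
    by_cases hx : x ∈ M54 G K
    · obtain ⟨h1, h2, h3, h4⟩ := (mem_M54 G).1 hx
      by_cases hc : ∃ w ∈ mc54 G x, ¬ sl54 G w
      · obtain ⟨w, hw1, hw2⟩ := hc
        exact ⟨w, fun _ => ⟨hw1, fun h => absurd h hw2⟩⟩
      · push Not at hc
        refine ⟨_, fun _ => ⟨((mc_pos54 G hG (hSD x h1) (i := rn G x - 2)).2
          ⟨by omega, by omega⟩).1, fun _ => ⟨hc, rfl⟩⟩⟩
    · exact ⟨x, fun h => absurd h hx⟩
  choose τ hτ using hex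
  obtain ⟨B, hB⟩ : ∃ B, B = (kS G K \ L).biUnion (mc54 G) := ⟨_, rfl⟩
  have hBcard : B.card = ∑ x ∈ kS G K \ L, (rn G x - 2) := by
    rw [hB, Finset.card_biUnion]
    · exact Finset.sum_congr rfl fun x hx => card_mc54 G hG (hSD x (Finset.mem_sdiff.1 hx).1)
    · intro x hx y hy hne
      exact mc_disj54 G hG (hSD x (Finset.mem_sdiff.1 hx).1) (hSD y (Finset.mem_sdiff.1 hy).1) hne
  have hτB : (M54 G K).image τ ⊆ B := by
    intro z hz
    obtain ⟨x, hx, rfl⟩ := Finset.mem_image.1 hz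
    rw [hB, Finset.mem_biUnion]
    exact ⟨x, hMS hx, (hτ x hx).1⟩
  have hτcard : ((M54 G K).image τ).card = (M54 G K).card := by
    refine Finset.card_image_of_injOn fun x hx y hy h => ?_
    by_contra hne
    have hx' := Finset.mem_coe.1 hx
    have hy' := Finset.mem_coe.1 hy
    have h1 := (hτ x hx').1
    have h2 := (hτ y hy').1
    have h : τ x = τ y := h
    rw [← h] at h2
    exact Finset.disjoint_left.1 (mc_disj54 G hG (hSD x (Finset.mem_sdiff.1 (hMS hx')).1)
      (hSD y (Finset.mem_sdiff.1 (hMS hy')).1) hne) h1 h2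
  have hA : (B \ (M54 G K).image τ).card + (M54 G K).card = B.card := by
    have h := Finset.card_sdiff_add_card_eq_card hτB
    omega
  -- triangles with two corners in `L`
  obtain ⟨I2, hI2⟩ : ∃ I2, I2 = (Id54 G K).filter (fun D => ∃ z, z ∈ kT G K ∧ G.tri z = D ∧
      sl54 G z ∧ (∃ p ∈ L, z ∈ mc54 G p) ∧ ∃ p ∈ L, (G.ap z.1 z.2, z.1) ∈ mc54 G p) := ⟨_, rfl⟩
  have hcov : Id54 G K ⊆ (B \ (M54 G K).image τ).image G.tri ∪
      (F54 G K).image (fun e => G.tri (G.ap e.2 e.1, e.1)) ∪ I2 := by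
    intro D hD
    obtain ⟨z, hz, hs, hzD⟩ := (mem_Id54 G).1 hD
    by_contra hno
    rw [Finset.mem_union, Finset.mem_union, not_or, not_or] at hno
    obtain ⟨⟨n1, n2⟩, n3⟩ := hno
    -- every corner is in `L` or taken by an `M` sector
    have hcor : ∀ w ∈ kT G K, sl54 G w → G.tri w = D →
        (∃ p ∈ L, w ∈ mc54 G p) ∨ ∃ x ∈ M54 G K, τ x = w := by
      intro w hw hws hwD
      obtain ⟨x, hx, hwx⟩ := sl_mc54 G hG hw hws
      by_cases hxL : x ∈ L
      · exact Or.inl ⟨x, hxL, hwx⟩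
      right
      by_contra hc
      refine n1 (Finset.mem_image.2 ⟨w, Finset.mem_sdiff.2 ⟨?_, ?_⟩, hwD⟩)
      · rw [hB, Finset.mem_biUnion]
        exact ⟨x, Finset.mem_sdiff.2 ⟨hx, hxL⟩, hwx⟩
      · intro h
        obtain ⟨y, hy, h2⟩ := Finset.mem_image.1 h
        exact hc ⟨y, hy, h2⟩
    -- two consecutive corners taken
    have hMM : ∀ w ∈ kT G K, sl54 G w → G.tri w = D → (∃ x ∈ M54 G K, τ x = w) →
        ¬ ∃ x ∈ M54 G K, τ x = (G.ap w.1 w.2, w.1) := by
      rintro w hw hws hwD ⟨x, hx, hxw⟩ ⟨y, hy, hyw⟩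
      have hw1 := ((mem_kT42 G).1 hw).1
      obtain ⟨_, c1⟩ := hτ x hx
      rw [hxw] at c1
      obtain ⟨d0, d1⟩ := hτ y hy
      rw [hyw] at d0 d1
      obtain ⟨d2, _⟩ := d1 (sl_rot54' G hw1 hws)
      obtain ⟨e, he, he2⟩ := sat54 G hG hw hws hx hy (c1 hws).2 d0 d2
      exact n2 (Finset.mem_image.2 ⟨e, he, he2.trans hwD⟩)
    -- two consecutive corners in `L`
    have hLL : ∀ w ∈ kT G K, sl54 G w → G.tri w = D → (∃ p ∈ L, w ∈ mc54 G p) →
        ¬ ∃ p ∈ L, (G.ap w.1 w.2, w.1) ∈ mc54 G p := by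
      intro w hw hws hwD h1 h2
      apply n3
      rw [hI2, Finset.mem_filter]
      exact ⟨hD, w, hw, hwD, hws, h1, h2⟩
    have hz1 := ((mem_kT42 G).1 hz).1
    -- the three corners
    have w1 := kT_rot54 G hz
    have w2 := kT_rot54' G hz
    have v1 := sl_rot54 G hz1 hs
    have v2 := sl_rot54' G hz1 hs
    have u1 : G.tri (z.2, G.ap z.1 z.2) = D := (tri_rot66 G hz1.1).trans hzD
    have u2 : G.tri (G.ap z.1 z.2, z.1) = D := (tri_rot66' G hz1.1).trans hzD
    have a1 : (G.ap (z.2, G.ap z.1 z.2).1 (z.2, G.ap z.1 z.2).2, (z.2, G.ap z.1 z.2).1) = z := by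
      dsimp only
      rw [G.ap3 _ _ hz1.1]
    have a2 : (G.ap (G.ap z.1 z.2, z.1).1 (G.ap z.1 z.2, z.1).2, (G.ap z.1 z.2, z.1).1) =
        (z.2, G.ap z.1 z.2) := by
      dsimp only
      rw [G.ap4 _ _ hz1.1]
    have m0 := hMM z hz hs hzD
    have m1 := hMM _ w1 v1 u1
    have m2 := hMM _ w2 v2 u2
    have l0 := hLL z hz hs hzD
    have l1 := hLL _ w1 v1 u1
    have l2 := hLL _ w2 v2 u2
    rw [a1] at m1 l1
    rw [a2] at m2 l2
    have c0 := hcor z hz hs hzD
    have c1 := hcor _ w1 v1 u1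
    have c2 := hcor _ w2 v2 u2
    exact prop54 c0 c1 c2 m0 m1 m2 l0 l1 l2
  -- the number of triangles with two corners in `L`
  have hI2c : I2.card + 2 ≤ 2 * L.card := by
    have hLpos := Finset.card_pos.2 hLn
    rcases Nat.lt_or_ge L.card 2 with h1 | h1
    · have h2 : L.card = 1 := by omega
      obtain ⟨p, hp⟩ := Finset.card_eq_one.1 h2
      have h3 : I2 = ∅ := by
        rw [hI2, Finset.filter_eq_empty_iff]
        rintro D _ ⟨z, hz, _, _, ⟨p1, hp1, hz1⟩, p2, hp2, hz2⟩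
        rw [hp, Finset.mem_singleton] at hp1 hp2
        rw [hp1] at hz1
        rw [hp2] at hz2
        have hpS : p ∈ kS G K := hL (by rw [hp]; exact Finset.mem_singleton_self p)
        have e1 := (rd_prop63 G hG (hSD p hpS) ((mem_mc54 G).1 hz1).1).2.1
        have e2 := (rd_prop63 G hG (hSD p hpS) ((mem_mc54 G).1 hz2).1).2.1
        dsimp only at e2
        rw [← e1] at e2
        exact G.ne _ _ (G.sub (G.ap2 _ _ ((mem_kT42 G).1 hz).1.1)) e2
      rw [h3, Finset.card_empty]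
      omega
    rcases Nat.lt_or_ge L.card 3 with h2 | h2
    · have h3 : L.card = 2 := by omega
      obtain ⟨p, q, hpq, hp⟩ := Finset.card_eq_two.1 h3
      have hpS : p ∈ kS G K := hL (by rw [hp]; exact Finset.mem_insert_self _ _)
      have hqS : q ∈ kS G K :=
        hL (by rw [hp]; exact Finset.mem_insert_of_mem (Finset.mem_singleton_self _))
      have h4 : I2 ⊆ {G.tri (p.2, q.2), G.tri (q.2, p.2)} := by
        intro D hD
        rw [hI2, Finset.mem_filter] at hD
        obtain ⟨_, z, hz, hzD, _, ⟨p1, hp1, hz1⟩, p2, hp2, hz2⟩ := hD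
        have hzt := ((mem_kT42 G).1 hz).1
        rw [hp, Finset.mem_insert, Finset.mem_singleton] at hp1 hp2
        rw [Finset.mem_insert, Finset.mem_singleton, ← hzD, ← tri_rot66' G hzt.1]
        have hne := G.ne _ _ (G.sub (G.ap2 _ _ hzt.1))
        have f1 : ∀ s ∈ kS G K, z ∈ mc54 G s → z.1 = s.2 := fun s hs h =>
          (rd_prop63 G hG (hSD s hs) ((mem_mc54 G).1 h).1).2.1
        have f2 : ∀ s ∈ kS G K, (G.ap z.1 z.2, z.1) ∈ mc54 G s → G.ap z.1 z.2 = s.2 :=
          fun s hs h => (rd_prop63 G hG (hSD s hs) ((mem_mc54 G).1 h).1).2.1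
        rcases hp1 with rfl | rfl
        · rcases hp2 with rfl | rfl
          · exact absurd ((f2 _ hpS hz2).trans (f1 _ hpS hz1).symm) hne
          · right
            rw [f2 _ hqS hz2, f1 _ hpS hz1]
        · rcases hp2 with rfl | rfl
          · left
            rw [f2 _ hpS hz2, f1 _ hqS hz1]
          · exact absurd ((f2 _ hqS hz2).trans (f1 _ hqS hz1).symm) hne
      have h5 := Finset.card_le_card h4
      have h6 : ({G.tri (p.2, q.2), G.tri (q.2, p.2)} : Finset (Finset V)).card ≤ 2 :=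
        Finset.card_le_two
      omega
    · -- at least three leaves
      have h3 : (L.biUnion (mc54 G)).card ≤ 3 * L.card := by
        rw [Finset.card_biUnion]
        · rw [mul_comm, ← smul_eq_mul]
          refine Finset.sum_le_card_nsmul _ _ _ fun x hx => ?_
          rw [card_mc54 G hG (hSD x (hL hx))]
          have := hL5 h2 x hx
          omega
        · intro x hx y hy hne
          exact mc_disj54 G hG (hSD x (hL hx)) (hSD y (hL hy)) hne
      have h4 : I2.card * 2 ≤ (L.biUnion (mc54 G)).card := by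
        have h5 : ∑ D ∈ I2, ((L.biUnion (mc54 G)).filter (fun w => G.tri w = D)).card ≤
            (L.biUnion (mc54 G)).card := by
          rw [← Finset.card_biUnion]
          · refine Finset.card_le_card fun w hw => ?_
            obtain ⟨D, _, h⟩ := Finset.mem_biUnion.1 hw
            exact (Finset.mem_filter.1 h).1
          · intro D _ D' _ hne
            rw [Function.onFun, Finset.disjoint_left]
            intro w h6 h7
            exact hne ((Finset.mem_filter.1 h6).2.symm.trans (Finset.mem_filter.1 h7).2)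
        refine le_trans ?_ h5
        rw [← smul_eq_mul]
        refine Finset.card_nsmul_le_sum _ _ _ fun D hD => ?_
        rw [hI2, Finset.mem_filter] at hD
        obtain ⟨_, z, hz, hzD, _, ⟨p1, hp1, hz1⟩, p2, hp2, hz2⟩ := hD
        have hzt := ((mem_kT42 G).1 hz).1
        have hne : z ≠ (G.ap z.1 z.2, z.1) := fun h =>
          G.ne _ _ (G.sub (G.ap2 _ _ hzt.1)) (congrArg Prod.fst h).symm
        rw [← Finset.card_pair hne]
        refine Finset.card_le_card fun w hw => ?_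
        rw [Finset.mem_insert, Finset.mem_singleton] at hw
        rw [Finset.mem_filter, Finset.mem_biUnion]
        rcases hw with rfl | rfl
        · exact ⟨⟨p1, hp1, hz1⟩, hzD⟩
        · exact ⟨⟨p2, hp2, hz2⟩, (tri_rot66' G hzt.1).trans hzD⟩
      omega
  have g1 := Finset.card_le_card hcov
  have g2 := Finset.card_union_le ((B \ (M54 G K).image τ).image G.tri ∪
      (F54 G K).image (fun e => G.tri (G.ap e.2 e.1, e.1))) I2
  have g3 := Finset.card_union_le ((B \ (M54 G K).image τ).image G.tri)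
      ((F54 G K).image (fun e => G.tri (G.ap e.2 e.1, e.1)))
  have g4 := Finset.card_image_le (s := B \ (M54 G K).image τ) (f := G.tri)
  have g5 := Finset.card_image_le (s := F54 G K) (f := fun e => G.tri (G.ap e.2 e.1, e.1))
  omega

/-- **the inequality for a black face** -/
theorem black54 (hG : G.Geo4 al kp U) {K : (cg G).ConnectedComponent} {L : Finset (V × V)}
    (hL : L ⊆ kS G K) (hLn : L.Nonempty) (hLM : Disjoint L (M54 G K))
    (hL5 : 3 ≤ L.card → ∀ x ∈ L, rn G x ≤ 5) :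
    ∑ x ∈ kS G K \ L, (2 - (rn G x : ℝ)) + (M54 G K).card ≤ 2 * L.card + (F54 G K).card := by
  have hs := kS_card63 G K
  have hLpos := Finset.card_pos.2 hLn
  have hsd := Finset.card_sdiff_add_card_eq_card hL
  obtain ⟨x0, hx0⟩ := hLn
  have hx0S := hL hx0
  obtain ⟨hx0D, hx0K⟩ := (mem_kS42 G).1 hx0S
  have hF0 : (0 : ℝ) ≤ (F54 G K).card := Nat.cast_nonneg _
  rcases Nat.lt_or_ge (tK G K) 2 with ht | ht
  · -- small faces
    have hM : M54 G K = ∅ := by
      rw [Finset.eq_empty_iff_forall_notMem]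
      intro x hx
      obtain ⟨h1, h2, h3, h4⟩ := (mem_M54 G).1 hx
      obtain ⟨h5, h6⟩ := (mem_kS42 G).1 h1
      have := rn_le_tK63 G hG h5
      rw [h6] at this
      omega
    rw [hM, Finset.card_empty, Nat.cast_zero, add_zero]
    have hr : ∀ x ∈ kS G K, rn G x = tK G K := by
      intro x hx
      obtain ⟨h5, h6⟩ := (mem_kS42 G).1 hx
      have h7 := rn_le_tK63 G hG h5
      have h8 := tK_zero54 G hG h5
      rw [h6] at h7 h8
      rcases Nat.eq_zero_or_pos (tK G K) with h | h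
      · rw [h8.1 h, h]
      · have : rn G x ≠ 0 := fun h9 => by
          have := h8.2 h9
          omega
        omega
    have e : ∑ x ∈ kS G K \ L, (2 - (rn G x : ℝ)) =
        (kS G K \ L).card * (2 - (tK G K : ℝ)) := by
      rw [Finset.sum_congr rfl fun x hx => by rw [hr x (Finset.mem_sdiff.1 hx).1],
        Finset.sum_const, nsmul_eq_mul]
    rw [e]
    have h1 : ((kS G K \ L).card : ℝ) + L.card ≤ tK G K + 2 := by
      exact_mod_cast (by omega : (kS G K \ L).card + L.card ≤ tK G K + 2)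
    have h2 : (1 : ℝ) ≤ L.card := by exact_mod_cast hLpos
    have h3 : (0 : ℝ) ≤ (kS G K \ L).card := Nat.cast_nonneg _
    have h4 : tK G K = 0 ∨ tK G K = 1 := by omega
    rcases h4 with h | h
    · rw [h] at h1 ⊢
      push_cast at h1 ⊢
      linarith
    · rw [h] at h1 ⊢
      push_cast at h1 ⊢
      linarith
  · have c1 := count54 G hG hL ⟨x0, hx0⟩ hLM hL5
    have c2 := ears54 G hG ht
    have hpos : ∀ x ∈ kS G K, 1 ≤ rn G x := by
      intro x hx
      obtain ⟨h5, h6⟩ := (mem_kS42 G).1 hx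
      have h8 := tK_zero54 G hG h5
      rw [h6] at h8
      by_contra hc
      have := h8.2 (by omega)
      omega
    have c3 : ((kS G K).filter (fun x => 2 ≤ rn G x)).card +
        ((kS G K).filter (fun x => ¬ 2 ≤ rn G x)).card = (kS G K).card :=
      Finset.card_filter_add_card_filter_not (s := kS G K) (fun x => 2 ≤ rn G x)
    have c4 : ∑ x ∈ kS G K \ L, (2 - (rn G x : ℝ)) ≤
        ((kS G K).filter (fun x => ¬ 2 ≤ rn G x)).card -
          ((∑ x ∈ kS G K \ L, (rn G x - 2) : ℕ) : ℝ) := by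
      have e1 : ∀ x ∈ kS G K \ L, (2 - (rn G x : ℝ)) =
          (if ¬ 2 ≤ rn G x then (1 : ℝ) else 0) - ((rn G x - 2 : ℕ) : ℝ) := by
        intro x hx
        have h1 := hpos x (Finset.mem_sdiff.1 hx).1
        by_cases h2 : 2 ≤ rn G x
        · rw [if_neg (not_not.2 h2), Nat.cast_sub h2]
          push_cast
          ring
        · have h3 : rn G x = 1 := by omega
          rw [if_pos h2, h3]
          norm_num
      rw [Finset.sum_congr rfl e1, Finset.sum_sub_distrib, Nat.cast_sum]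
      have e2 : ∑ x ∈ kS G K \ L, (if ¬ 2 ≤ rn G x then (1 : ℝ) else 0) ≤
          ∑ x ∈ kS G K, (if ¬ 2 ≤ rn G x then (1 : ℝ) else 0) :=
        Finset.sum_le_sum_of_subset_of_nonneg Finset.sdiff_subset fun x _ _ => by
          split_ifs <;> norm_num
      have e3 : ∑ x ∈ kS G K, (if ¬ 2 ≤ rn G x then (1 : ℝ) else 0) =
          ((kS G K).filter (fun x => ¬ 2 ≤ rn G x)).card := Finset.sum_boole _ _
      rw [e3] at e2
      linarith
    have c1' : ((Id54 G K).card : ℝ) + (M54 G K).card + 2 ≤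
        ((∑ x ∈ kS G K \ L, (rn G x - 2) : ℕ) : ℝ) + 2 * L.card + (F54 G K).card := by
      exact_mod_cast c1
    have c5 : ((kS G K).filter (fun x => ¬ 2 ≤ rn G x)).card ≤ 2 + (Id54 G K).card := by omega
    have c5' : (((kS G K).filter (fun x => ¬ 2 ≤ rn G x)).card : ℝ) ≤ 2 + (Id54 G K).card := by
      exact_mod_cast c5
    linarith

/-- the exact price at `θ = 1` -/
theorem wx_one54 (hG : G.Geo4 al kp U) (K : (cg G).ConnectedComponent) :
    wx G 1 K = ∑ x ∈ kS G K, (2 - (rn G x : ℝ)) := by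
  have h := sum_rn63 G hG K
  have h' : ∑ x ∈ kS G K, (rn G x : ℝ) = 3 * tK G K := by exact_mod_cast h
  unfold wx
  rw [Finset.sum_sub_distrib, h', Finset.sum_const, nsmul_eq_mul]
  ring

/-- **Lemma T** -/
theorem lemT54 (hG : G.Geo4 al kp U) (K : (cg G).ConnectedComponent) :
    (M54 G K).card ≤ tK G K ∧ wx G 1 K + (M54 G K).card ≤ 4 := by
  have h1 : (M54 G K).card ≤ tK G K := by
    unfold tK
    refine Finset.card_le_card_of_injOn (fun x => G.tri (x.2, x.1)) ?_ ?_
    · intro x hx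
      obtain ⟨h1, _, _, h4⟩ := (mem_M54 G).1 (Finset.mem_coe.1 hx)
      obtain ⟨h5, h6⟩ := (mem_kS42 G).1 h1
      have h7 := (rn_pos54 G hG h5).1 (by omega)
      refine Finset.mem_coe.2 (Finset.mem_image_of_mem _ ((mem_kT42 G).2 ⟨h7, ?_⟩))
      exact (ku_swap42 G ((mem_SD42 G).1 h5).1).trans h6
    · intro x hx y hy he
      obtain ⟨h1, _, _, h4⟩ := (mem_M54 G).1 (Finset.mem_coe.1 hx)
      obtain ⟨g1, _, _, g4⟩ := (mem_M54 G).1 (Finset.mem_coe.1 hy)
      have h5 := ((mem_kS42 G).1 h1).1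
      have g5 := ((mem_kS42 G).1 g1).1
      have h7 := (rn_pos54 G hG h5).1 (by omega)
      have g7 := (rn_pos54 G hG g5).1 (by omega)
      have r1 := (run54 G hG h5).1 1 (by omega)
      have r2 := (run54 G hG g5).1 1 (by omega)
      rw [Function.iterate_one] at r1 r2
      have he : G.tri (x.2, x.1) = G.tri (y.2, y.1) := he
      rcases (tri_eq_iff G h7.1 g7.1).1 he with h | h | h
      · exact Prod.ext (congrArg Prod.snd h).symm (congrArg Prod.fst h).symm
      · -- `y.2 = x.1`, `y.1 = ap x.2 x.1`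
        exfalso
        have e1 : y.2 = x.1 := congrArg Prod.fst h
        have e2 : y.1 = G.ap x.2 x.1 := congrArg Prod.snd h
        have e3 : G.ap y.2 y.1 = x.2 := by
          rw [e1, e2]
          exact G.ap3 _ _ h7.1
        rw [e3, e1] at r2
        exact ((mem_SD42 G).1 h5).2 r2
      · exfalso
        have e1 : y.2 = G.ap x.2 x.1 := congrArg Prod.fst h
        have e2 : y.1 = x.2 := congrArg Prod.snd h
        rw [← e1, ← e2] at r1
        exact ((mem_SD42 G).1 g5).2 r1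
  refine ⟨h1, ?_⟩
  have h2 := wx_le15 G (θ := 1) (by norm_num) K
  have h3 : ((M54 G K).card : ℝ) ≤ tK G K := by exact_mod_cast h1
  linarith

/-- **Lemma P**: `p` is a sector of `K` which is not in `M` -/
theorem lemP54 (hG : G.Geo4 al kp U) {K : (cg G).ConnectedComponent} {p : V × V}
    (hp : p ∈ kS G K) (hpM : p ∉ M54 G K) :
    wx G 1 K + (M54 G K).card ≤ 4 - rn G p + (F54 G K).card := by
  have h := black54 G hG (K := K) (L := {p}) (Finset.singleton_subset_iff.2 hp)
    (Finset.singleton_nonempty p) (Finset.disjoint_singleton_left.2 hpM) (fun h => by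
      rw [Finset.card_singleton] at h
      omega)
  rw [Finset.sdiff_singleton_eq_erase, Finset.card_singleton] at h
  have h2 := Finset.add_sum_erase (kS G K) (fun x => 2 - (rn G x : ℝ)) hp
  rw [wx_one54 G hG]
  push_cast at h
  linarith

/-- **Lemma I**: a black face with leaves -/
theorem lemI54 (hG : G.Geo4 al kp U) (h1 : ∀ x ∈ iJ G, gc G al x ≤ 1)
    {K : (cg G).ConnectedComponent} (hL : (Lv G K).Nonempty) :
    wx G 1 K + (Lv G K).card + (M54 G K).card ≤
      ∑ x ∈ Lv G K, ((un G al (sg G x) : ℝ) - 2) + (F54 G K).card := by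
  have hsub : Lv G K ⊆ kS G K := Finset.filter_subset _ _
  have hr : ∀ x ∈ Lv G K, rn G x + un G al (sg G x) = 7 := fun x hx => leaf_sum15 G hG h1 hx
  have hdis : Disjoint (Lv G K) (M54 G K) := by
    rw [Finset.disjoint_left]
    intro x hx hx2
    obtain ⟨h2, h3, _⟩ := (mem_Lv15 G).1 hx
    obtain ⟨_, h4, _⟩ := (mem_M54 G).1 hx2
    obtain ⟨_, _, h5, _⟩ := sector_corners89 G hG h3 (mem_kS89 G h2) rfl
    exact ((mem_oJ66 G).1 h4).2.2 ((mem_iJ71 G).1 h5).1
  have h := black54 G hG hsub hL hdis (fun _ x hx => by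
    have h2 := hr x hx
    have h3 := leaf_un15 G hG hx (al := al)
    omega)
  have e1 := Finset.sum_sdiff (f := fun x => 2 - (rn G x : ℝ)) hsub
  have e2 : ∑ x ∈ Lv G K, (2 - (rn G x : ℝ)) =
      ∑ x ∈ Lv G K, ((un G al (sg G x) : ℝ) - 2) - 3 * (Lv G K).card := by
    rw [mul_comm, ← nsmul_eq_mul, ← Finset.sum_const, ← Finset.sum_sub_distrib]
    refine Finset.sum_congr rfl fun x hx => ?_
    have h3 : (rn G x : ℝ) + un G al (sg G x) = 7 := by exact_mod_cast hr x hx
    linarith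
  rw [wx_one54 G hG, ← e1, e2]
  linarith

end

end Pool.Agent.PEN.E5
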