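import Pool.Agent.E5.Er54
import Pool.Agent.E5.Shp14

/-! # PENNY, all small diameters: the refined count of ears, and faces with payers

The count of the previous file with the exact number of triangles that have two corners in `L`. -/

set_option autoImplicit false

namespace Pool.Agent.PEN.E5

open Classical UpperHalfPlane
open Pool.Agent.PEN.Cl

noncomputable section

variable {V : Type} (G : Tg V) {al : ℝ} {kp : V → V → ℝ} {U : ℕ → ℝ}

/-- the triangles without a side that have two consecutive corners in `L` -/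
def I254 (K : (cg G).ConnectedComponent) (L : Finset (V × V)) : Finset (Finset V) :=
  (Id54 G K).filter (fun D => ∃ z, z ∈ kT G K ∧ G.tri z = D ∧
    sl54 G z ∧ (∃ p ∈ L, z ∈ mc54 G p) ∧ ∃ p ∈ L, (G.ap z.1 z.2, z.1) ∈ mc54 G p)

theorem mem_I254 {K : (cg G).ConnectedComponent} {L : Finset (V × V)} {D : Finset V} :
    D ∈ I254 G K L ↔ D ∈ Id54 G K ∧ ∃ z, z ∈ kT G K ∧ G.tri z = D ∧
    sl54 G z ∧ (∃ p ∈ L, z ∈ mc54 G p) ∧ ∃ p ∈ L, (G.ap z.1 z.2, z.1) ∈ mc54 G p := by
  unfold I254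
  rw [Finset.mem_filter]

/-- **the main count**, with the triangles that have two corners in `L` -/
theorem countA54 (hG : G.Geo4 al kp U) {K : (cg G).ConnectedComponent} {L : Finset (V × V)}
    (hLM : Disjoint L (M54 G K)) :
    (Id54 G K).card + (M54 G K).card ≤
      ∑ x ∈ kS G K \ L, (rn G x - 2) + (I254 G K L).card + (F54 G K).card := by
  have hSD : ∀ x ∈ kS G K, x ∈ SD G := fun x hx => ((mem_kS42 G).1 hx).1
  have hMS : M54 G K ⊆ kS G K \ L := by
    intro x hx
    refine Finset.mem_sdiff.2 ⟨((mem_M54 G).1 hx).1, fun h => ?_⟩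
    exact Finset.disjoint_left.1 hLM h hx
  -- the corner taken by an `M` sector
  have hex : ∀ x, ∃ z, x ∈ M54 G K → z ∈ mc54 G x ∧ (sl54 G z → (∀ w ∈ mc54 G x, sl54 G w) ∧
      (x.2, (G.ap x.2)^[rn G x - 2] x.1) = z) := by
    intro x
    by_cases hx : x ∈ M54 G K
    · obtain ⟨h1, h2, h3, h4⟩ := (mem_M54 G).1 hx
      by_cases hc : ∃ w ∈ mc54 G x, ¬ sl54 G w
      · obtain ⟨w, hw1, hw2⟩ := hc
        exact ⟨w, fun _ => ⟨hw1, fun h => absurd h hw2⟩⟩
      · push Not at hc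
        refine ⟨_, fun _ => ⟨((mc_pos54 G hG (hSD x h1) (i := rn G x - 2)).2
          ⟨by omega, by omega⟩).1, fun _ => ⟨hc, rfl⟩⟩⟩
    · exact ⟨x, fun h => absurd h hx⟩
  choose τ hτ using hex
  obtain ⟨B, hB⟩ : ∃ B, B = (kS G K \ L).biUnion (mc54 G) := ⟨_, rfl⟩
  have hBcard : B.card = ∑ x ∈ kS G K \ L, (rn G x - 2) := by
    rw [hB, Finset.card_biUnion]
    · exact Finset.sum_congr rfl fun x hx => card_mc54 G hG (hSD x (Finset.mem_sdiff.1 hx).1)
    · intro x hx y hy hne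
      exact mc_disj54 G hG (hSD x (Finset.mem_sdiff.1 hx).1) (hSD y (Finset.mem_sdiff.1 hy).1) hne
  have hτB : (M54 G K).image τ ⊆ B := by
    intro z hz
    obtain ⟨x, hx, rfl⟩ := Finset.mem_image.1 hz
    rw [hB, Finset.mem_biUnion]
    exact ⟨x, hMS hx, (hτ x hx).1⟩
  have hτcard : ((M54 G K).image τ).card = (M54 G K).card := by
    refine Finset.card_image_of_injOn fun x hx y hy h => ?_
    by_contra hne
    have hx' := Finset.mem_coe.1 hx
    have hy' := Finset.mem_coe.1 hy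
    have h1 := (hτ x hx').1
    have h2 := (hτ y hy').1
    have h : τ x = τ y := h
    rw [← h] at h2
    exact Finset.disjoint_left.1 (mc_disj54 G hG (hSD x (Finset.mem_sdiff.1 (hMS hx')).1)
      (hSD y (Finset.mem_sdiff.1 (hMS hy')).1) hne) h1 h2
  have hA : (B \ (M54 G K).image τ).card + (M54 G K).card = B.card := by
    have h := Finset.card_sdiff_add_card_eq_card hτB
    omega
  -- triangles with two corners in `L`
  obtain ⟨I2, hI2⟩ : ∃ I2, I2 = I254 G K L := ⟨_, rfl⟩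
  have hcov : Id54 G K ⊆ (B \ (M54 G K).image τ).image G.tri ∪
      (F54 G K).image (fun e => G.tri (G.ap e.2 e.1, e.1)) ∪ I2 := by
    intro D hD
    obtain ⟨z, hz, hs, hzD⟩ := (mem_Id54 G).1 hD
    by_contra hno
    rw [Finset.mem_union, Finset.mem_union, not_or, not_or] at hno
    obtain ⟨⟨n1, n2⟩, n3⟩ := hno
    -- every corner is in `L` or taken by an `M` sector
    have hcor : ∀ w ∈ kT G K, sl54 G w → G.tri w = D →
        (∃ p ∈ L, w ∈ mc54 G p) ∨ ∃ x ∈ M54 G K, τ x = w := by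
      intro w hw hws hwD
      obtain ⟨x, hx, hwx⟩ := sl_mc54 G hG hw hws
      by_cases hxL : x ∈ L
      · exact Or.inl ⟨x, hxL, hwx⟩
      right
      by_contra hc
      refine n1 (Finset.mem_image.2 ⟨w, Finset.mem_sdiff.2 ⟨?_, ?_⟩, hwD⟩)
      · rw [hB, Finset.mem_biUnion]
        exact ⟨x, Finset.mem_sdiff.2 ⟨hx, hxL⟩, hwx⟩
      · intro h
        obtain ⟨y, hy, h2⟩ := Finset.mem_image.1 h
        exact hc ⟨y, hy, h2⟩
    -- two consecutive corners taken
    have hMM : ∀ w ∈ kT G K, sl54 G w → G.tri w = D → (∃ x ∈ M54 G K, τ x = w) →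
        ¬ ∃ x ∈ M54 G K, τ x = (G.ap w.1 w.2, w.1) := by
      rintro w hw hws hwD ⟨x, hx, hxw⟩ ⟨y, hy, hyw⟩
      have hw1 := ((mem_kT42 G).1 hw).1
      obtain ⟨_, c1⟩ := hτ x hx
      rw [hxw] at c1
      obtain ⟨d0, d1⟩ := hτ y hy
      rw [hyw] at d0 d1
      obtain ⟨d2, _⟩ := d1 (sl_rot54' G hw1 hws)
      obtain ⟨e, he, he2⟩ := sat54 G hG hw hws hx hy (c1 hws).2 d0 d2
      exact n2 (Finset.mem_image.2 ⟨e, he, he2.trans hwD⟩)
    -- two consecutive corners in `L`
    have hLL : ∀ w ∈ kT G K, sl54 G w → G.tri w = D → (∃ p ∈ L, w ∈ mc54 G p) →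
        ¬ ∃ p ∈ L, (G.ap w.1 w.2, w.1) ∈ mc54 G p := by
      intro w hw hws hwD h1 h2
      apply n3
      rw [hI2]
      exact (mem_I254 G).2 ⟨hD, w, hw, hwD, hws, h1, h2⟩
    have hz1 := ((mem_kT42 G).1 hz).1
    -- the three corners
    have w1 := kT_rot54 G hz
    have w2 := kT_rot54' G hz
    have v1 := sl_rot54 G hz1 hs
    have v2 := sl_rot54' G hz1 hs
    have u1 : G.tri (z.2, G.ap z.1 z.2) = D := (tri_rot66 G hz1.1).trans hzD
    have u2 : G.tri (G.ap z.1 z.2, z.1) = D := (tri_rot66' G hz1.1).trans hzD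
    have a1 : (G.ap (z.2, G.ap z.1 z.2).1 (z.2, G.ap z.1 z.2).2, (z.2, G.ap z.1 z.2).1) = z := by
      dsimp only
      rw [G.ap3 _ _ hz1.1]
    have a2 : (G.ap (G.ap z.1 z.2, z.1).1 (G.ap z.1 z.2, z.1).2, (G.ap z.1 z.2, z.1).1) =
        (z.2, G.ap z.1 z.2) := by
      dsimp only
      rw [G.ap4 _ _ hz1.1]
    have m0 := hMM z hz hs hzD
    have m1 := hMM _ w1 v1 u1
    have m2 := hMM _ w2 v2 u2
    have l0 := hLL z hz hs hzD
    have l1 := hLL _ w1 v1 u1
    have l2 := hLL _ w2 v2 u2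
    rw [a1] at m1 l1
    rw [a2] at m2 l2
    have c0 := hcor z hz hs hzD
    have c1 := hcor _ w1 v1 u1
    have c2 := hcor _ w2 v2 u2
    exact prop54 c0 c1 c2 m0 m1 m2 l0 l1 l2
  have g1 := Finset.card_le_card hcov
  have g2 := Finset.card_union_le ((B \ (M54 G K).image τ).image G.tri ∪
      (F54 G K).image (fun e => G.tri (G.ap e.2 e.1, e.1))) I2
  have g3 := Finset.card_union_le ((B \ (M54 G K).image τ).image G.tri)
      ((F54 G K).image (fun e => G.tri (G.ap e.2 e.1, e.1)))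
  have g4 := Finset.card_image_le (s := B \ (M54 G K).image τ) (f := G.tri)
  have g5 := Finset.card_image_le (s := F54 G K) (f := fun e => G.tri (G.ap e.2 e.1, e.1))
  rw [← hI2]
  omega

theorem I2_le54 (hG : G.Geo4 al kp U) {K : (cg G).ConnectedComponent} {L : Finset (V × V)}
    (hL : L ⊆ kS G K) : (I254 G K L).card * 2 ≤ ∑ x ∈ L, (rn G x - 2) := by
  have hSD : ∀ x ∈ kS G K, x ∈ SD G := fun x hx => ((mem_kS42 G).1 hx).1
  have h3 : (L.biUnion (mc54 G)).card = ∑ x ∈ L, (rn G x - 2) := by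
    rw [Finset.card_biUnion]
    · exact Finset.sum_congr rfl fun x hx => card_mc54 G hG (hSD x (hL hx))
    · intro x hx y hy hne
      exact mc_disj54 G hG (hSD x (hL hx)) (hSD y (hL hy)) hne
  rw [← h3]
  have h5 : ∑ D ∈ I254 G K L, ((L.biUnion (mc54 G)).filter (fun w => G.tri w = D)).card ≤
      (L.biUnion (mc54 G)).card := by
    rw [← Finset.card_biUnion]
    · refine Finset.card_le_card fun w hw => ?_
      obtain ⟨D, _, h⟩ := Finset.mem_biUnion.1 hw
      exact (Finset.mem_filter.1 h).1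
    · intro D _ D' _ hne
      rw [Function.onFun, Finset.disjoint_left]
      intro w h6 h7
      exact hne ((Finset.mem_filter.1 h6).2.symm.trans (Finset.mem_filter.1 h7).2)
  refine le_trans ?_ h5
  rw [← smul_eq_mul]
  refine Finset.card_nsmul_le_sum _ _ _ fun D hD => ?_
  obtain ⟨_, z, hz, hzD, _, ⟨p1, hp1, hz1⟩, p2, hp2, hz2⟩ := (mem_I254 G).1 hD
  have hzt := ((mem_kT42 G).1 hz).1
  have hne : z ≠ (G.ap z.1 z.2, z.1) := fun h =>
    G.ne _ _ (G.sub (G.ap2 _ _ hzt.1)) (congrArg Prod.fst h).symm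
  rw [← Finset.card_pair hne]
  refine Finset.card_le_card fun w hw => ?_
  rw [Finset.mem_insert, Finset.mem_singleton] at hw
  rw [Finset.mem_filter, Finset.mem_biUnion]
  rcases hw with rfl | rfl
  · exact ⟨⟨p1, hp1, hz1⟩, hzD⟩
  · exact ⟨⟨p2, hp2, hz2⟩, (tri_rot66' G hzt.1).trans hzD⟩

/-- **the inequality for a black face with two triangles**, any set `L` of sectors -/
theorem blackA54 (hG : G.Geo4 al kp U) {K : (cg G).ConnectedComponent} (ht : 2 ≤ tK G K)
    {L : Finset (V × V)} (hLM : Disjoint L (M54 G K)) :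
    ∑ x ∈ kS G K \ L, (2 - (rn G x : ℝ)) + (M54 G K).card ≤
      2 + (I254 G K L).card + (F54 G K).card := by
  have c1 := countA54 G hG (K := K) (L := L) hLM
  have c2 := ears54 G hG ht
  have hs := kS_card63 G K
  have hpos : ∀ x ∈ kS G K, 1 ≤ rn G x := by
    intro x hx
    obtain ⟨h5, h6⟩ := (mem_kS42 G).1 hx
    have h8 := tK_zero54 G hG h5
    rw [h6] at h8
    by_contra hc
    have := h8.2 (by omega)
    omega
  have c3 : ((kS G K).filter (fun x => 2 ≤ rn G x)).card +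
      ((kS G K).filter (fun x => ¬ 2 ≤ rn G x)).card = (kS G K).card :=
    Finset.card_filter_add_card_filter_not (s := kS G K) (fun x => 2 ≤ rn G x)
  have c4 : ∑ x ∈ kS G K \ L, (2 - (rn G x : ℝ)) ≤
      ((kS G K).filter (fun x => ¬ 2 ≤ rn G x)).card -
        ((∑ x ∈ kS G K \ L, (rn G x - 2) : ℕ) : ℝ) := by
    have e1 : ∀ x ∈ kS G K \ L, (2 - (rn G x : ℝ)) =
        (if ¬ 2 ≤ rn G x then (1 : ℝ) else 0) - ((rn G x - 2 : ℕ) : ℝ) := by
      intro x hx
      have h1 := hpos x (Finset.mem_sdiff.1 hx).1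
      by_cases h2 : 2 ≤ rn G x
      · rw [if_neg (not_not.2 h2), Nat.cast_sub h2]
        push_cast
        ring
      · have h3 : rn G x = 1 := by omega
        rw [if_pos h2, h3]
        norm_num
    rw [Finset.sum_congr rfl e1, Finset.sum_sub_distrib, Nat.cast_sum]
    have e2 : ∑ x ∈ kS G K \ L, (if ¬ 2 ≤ rn G x then (1 : ℝ) else 0) ≤
        ∑ x ∈ kS G K, (if ¬ 2 ≤ rn G x then (1 : ℝ) else 0) :=
      Finset.sum_le_sum_of_subset_of_nonneg Finset.sdiff_subset fun x _ _ => by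
        split_ifs <;> norm_num
    have e3 : ∑ x ∈ kS G K, (if ¬ 2 ≤ rn G x then (1 : ℝ) else 0) =
        ((kS G K).filter (fun x => ¬ 2 ≤ rn G x)).card := Finset.sum_boole _ _
    rw [e3] at e2
    linarith
  have c1' : ((Id54 G K).card : ℝ) + (M54 G K).card ≤
      ((∑ x ∈ kS G K \ L, (rn G x - 2) : ℕ) : ℝ) + (I254 G K L).card + (F54 G K).card := by
    exact_mod_cast c1
  have c5 : ((kS G K).filter (fun x => ¬ 2 ≤ rn G x)).card ≤ 2 + (Id54 G K).card := by omega
  have c5' : (((kS G K).filter (fun x => ¬ 2 ≤ rn G x)).card : ℝ) ≤ 2 + (Id54 G K).card := by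
    exact_mod_cast c5
  linarith

/-- **a black face with at least two triangles** has price at most 2 -/
theorem lemM54 (hG : G.Geo4 al kp U) {K : (cg G).ConnectedComponent} (ht : 2 ≤ tK G K) :
    wx G 1 K + (M54 G K).card ≤ 2 + (F54 G K).card := by
  have h := blackA54 G hG ht (L := ∅) (Finset.disjoint_empty_left _)
  have h2 := I2_le54 G hG (K := K) (Finset.empty_subset _)
  rw [Finset.sum_empty] at h2
  have h3 : (I254 G K ∅).card = 0 := by omega
  rw [h3, Finset.sdiff_empty, ← wx_one54 G hG] at h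
  push_cast at h
  linarith

/-- small faces: no `M` sector -/
theorem M54_small (hG : G.Geo4 al kp U) {K : (cg G).ConnectedComponent} (ht : tK G K < 3) :
    M54 G K = ∅ := by
  rw [Finset.eq_empty_iff_forall_notMem]
  intro x hx
  obtain ⟨h1, h2, h3, h4⟩ := (mem_M54 G).1 hx
  obtain ⟨h5, h6⟩ := (mem_kS42 G).1 h1
  have := rn_le_tK63 G hG h5
  rw [h6] at this
  omega

theorem rn_small54 (hG : G.Geo4 al kp U) {K : (cg G).ConnectedComponent} (ht : tK G K < 2)
    {x : V × V} (hx : x ∈ kS G K) : rn G x = tK G K := by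
  obtain ⟨h5, h6⟩ := (mem_kS42 G).1 hx
  have h7 := rn_le_tK63 G hG h5
  have h8 := tK_zero54 G hG h5
  rw [h6] at h7 h8
  rcases Nat.eq_zero_or_pos (tK G K) with h | h
  · rw [h8.1 h, h]
  · have : rn G x ≠ 0 := fun h9 => by
      have := h8.2 h9
      omega
    omega

theorem Lv_disj54 (hG : G.Geo4 al kp U) (K : (cg G).ConnectedComponent) :
    Disjoint (Lv G K) (M54 G K) := by
  rw [Finset.disjoint_left]
  intro x hx hx2
  obtain ⟨h2, h3, _⟩ := (mem_Lv15 G).1 hx
  obtain ⟨_, h4, _⟩ := (mem_M54 G).1 hx2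
  obtain ⟨_, _, h5, _⟩ := sector_corners89 G hG h3 (mem_kS89 G h2) rfl
  exact ((mem_oJ66 G).1 h4).2.2 ((mem_iJ71 G).1 h5).1

/-- **the excess of a black face over its reduced leaf prices is at most 2** -/
theorem lemX54 (hG : G.Geo4 al kp U) (h1 : ∀ x ∈ iJ G, gc G al x ≤ 1)
    {K : (cg G).ConnectedComponent} (hL : (Lv G K).Nonempty) :
    wx G 1 K + (Lv G K).card + (M54 G K).card ≤
      ∑ x ∈ Lv G K, max ((un G al (sg G x) : ℝ) - 3) 0 + 2 + (F54 G K).card := by
  have hsub : Lv G K ⊆ kS G K := Finset.filter_subset _ _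
  have hr : ∀ x ∈ Lv G K, (rn G x : ℝ) = 7 - un G al (sg G x) := fun x hx => by
    have := leaf_sum15 G hG h1 hx
    have h2 : (rn G x : ℝ) + un G al (sg G x) = 7 := by exact_mod_cast this
    linarith
  have hF0 : (0 : ℝ) ≤ (F54 G K).card := Nat.cast_nonneg _
  have hl : (1 : ℝ) ≤ (Lv G K).card := by exact_mod_cast Finset.card_pos.2 hL
  rcases Nat.lt_or_ge (tK G K) 2 with ht | ht
  · rw [M54_small G hG (by omega), Finset.card_empty, Nat.cast_zero, add_zero]
    have h2 := wx_le15 G (θ := 1) (by norm_num) K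
    have h3 : (3 : ℝ) * (Lv G K).card ≤ ∑ x ∈ Lv G K, max ((un G al (sg G x) : ℝ) - 3) 0 := by
      rw [mul_comm, ← nsmul_eq_mul]
      refine Finset.card_nsmul_le_sum _ _ _ fun x hx => ?_
      have h4 := hr x hx
      rw [rn_small54 G hG ht (hsub hx)] at h4
      have h5 : (tK G K : ℝ) ≤ 1 := by exact_mod_cast (by omega : tK G K ≤ 1)
      exact le_max_of_le_left (by linarith)
    have h6 : (0 : ℝ) ≤ tK G K := Nat.cast_nonneg _
    linarith
  · have h2 := blackA54 G hG ht (L := Lv G K) (Lv_disj54 G hG K)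
    have h3 := I2_le54 G hG hsub
    have h3' : ((I254 G K (Lv G K)).card : ℝ) * 2 ≤
        ∑ x ∈ Lv G K, ((rn G x - 2 : ℕ) : ℝ) := by exact_mod_cast h3
    have e1 := Finset.sum_sdiff (f := fun x => 2 - (rn G x : ℝ)) hsub
    have e2 : ∑ x ∈ Lv G K, (2 - (rn G x : ℝ)) + (Lv G K).card +
        (∑ x ∈ Lv G K, ((rn G x - 2 : ℕ) : ℝ)) / 2 ≤
        ∑ x ∈ Lv G K, max ((un G al (sg G x) : ℝ) - 3) 0 := by
      rw [← nsmul_one (Lv G K).card, ← Finset.sum_const, Finset.sum_div, ← Finset.sum_add_distrib,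
        ← Finset.sum_add_distrib]
      refine Finset.sum_le_sum fun x hx => ?_
      have h4 := hr x hx
      have h5 : ((rn G x - 2 : ℕ) : ℝ) ≤ max ((rn G x : ℝ) - 2) 0 := by
        rcases Nat.lt_or_ge (rn G x) 2 with h | h
        · rw [show rn G x - 2 = 0 by omega]
          push_cast
          exact le_max_right _ _
        · rw [Nat.cast_sub h]
          push_cast
          exact le_max_left _ _
      have h6 : (rn G x : ℝ) ≤ 5 := by
        have h7 := leaf_un15 G hG hx (al := al)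
        have h8 : (2 : ℝ) ≤ un G al (sg G x) := by exact_mod_cast h7
        linarith
      have h9 := le_max_left ((un G al (sg G x) : ℝ) - 3) 0
      have h10 := le_max_right ((un G al (sg G x) : ℝ) - 3) 0
      rcases le_total ((rn G x : ℝ) - 2) 0 with h | h
      · rw [max_eq_right h] at h5
        linarith
      · rw [max_eq_left h] at h5
        rcases le_total (rn G x : ℝ) 4 with h8 | h8
        · linarith
        · linarith
    rw [wx_one54 G hG, ← e1]
    linarith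

/-! ## the letters of the boundary assembly -/

theorem F14_eq54 (K : (cg G).ConnectedComponent) : F14 G K = (M54 G K).card := by
  unfold F14 fv14 M54
  rw [Finset.filter_filter]
  congr 1
  exact Finset.filter_congr fun x _ => by tauto

/-- the full ears of the boundary assembly -/
theorem F54_eq14 (K : (cg G).ConnectedComponent) :
    F54 G K = (fv14 G K).filter (fun x => rn G x ≤ 1) := by
  unfold fv14 F54
  rw [Finset.filter_filter]
  exact Finset.filter_congr fun x _ => by tauto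

/-- a digon between two outer darts has only outer sides -/
theorem Z14_zero54 (hG : G.Geo4 al kp U) {K : (cg G).ConnectedComponent} {y : V × V}
    (hy : y ∈ kS G K) (hyo : y ∉ G.oJ) : Z14 G K = 0 := by
  unfold Z14
  rw [Finset.card_eq_zero, Finset.filter_eq_empty_iff]
  intro x hx h0
  unfold fv14 at hx
  obtain ⟨h1, h2, h3⟩ := Finset.mem_filter.1 hx
  obtain ⟨h5, h6⟩ := (mem_kS42 G).1 h1
  have h8 := (tK_zero54 G hG h5).2 h0
  rw [h6] at h8
  have hs := kS_card63 G K
  have hn := nx_kS89 G hG h1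
  have e : nx G x = (x.2, x.1) := by
    rw [nx_of54 G hG h5, h0, Function.iterate_zero, id_eq]
  have hne : x ≠ nx G x := fun h => by
    rw [e] at h
    exact G.ne x.1 x.2 ((mem_oJ66 G).1 h2).1 (congrArg Prod.fst h)
  have h9 : ({x, nx G x} : Finset (V × V)) = kS G K := by
    refine Finset.eq_of_subset_of_card_le ?_ ?_
    · intro z hz
      rw [Finset.mem_insert, Finset.mem_singleton] at hz
      rcases hz with rfl | rfl
      · exact h1
      · exact hn
    · rw [Finset.card_pair hne]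
      omega
  rw [← h9, Finset.mem_insert, Finset.mem_singleton] at hy
  rcases hy with rfl | rfl
  · exact hyo h2
  · exact hyo h3

theorem PK_kS54 (hG : G.Geo4 al kp U) {K : (cg G).ConnectedComponent} {p : V × V}
    (hp : p ∈ PK G al K) : p ∈ kS G K ∧ p ∉ G.oJ := by
  obtain ⟨h1, h2⟩ := Finset.mem_filter.1 hp
  obtain ⟨h3, h4, _⟩ := (mem_Pz15 G).1 h1
  refine ⟨(mem_kS42 G).2 ⟨h3, h2⟩, fun h5 => ?_⟩
  obtain ⟨_, _, h6, _⟩ := sector_corners89 G hG h4 h3 rfl
  exact ((mem_oJ66 G).1 h5).2.2 ((mem_iJ71 G).1 h6).1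

theorem PK_ne54 {K : (cg G).ConnectedComponent} (hK : K ∈ Sf G al) : ∃ p, p ∈ PK G al K := by
  obtain ⟨s, h1, h2⟩ := (mem_Sf15 G).1 hK
  exact ⟨s, Finset.mem_filter.2 ⟨h2, ((mem_kS42 G).1 h1).2⟩⟩

/-- **Lemma P**, faces with a payer -/
theorem lemPS54 (hG : G.Geo4 al kp U) {K : (cg G).ConnectedComponent} (hK : K ∈ Sf G al) :
    wx G 1 K + F14 G K + Z14 G K ≤ ∑ s ∈ PK G al K, max (4 - (rn G s : ℝ)) 0 +
      ((fv14 G K).filter (fun x => rn G x ≤ 1)).card := by
  obtain ⟨p, hp⟩ := PK_ne54 G hK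
  obtain ⟨h1, h2⟩ := PK_kS54 G hG hp
  have h3 := lemP54 G hG h1 fun h => h2 ((mem_M54 G).1 h).2.1
  have h4 := Finset.single_le_sum (s := PK G al K) (f := fun s => max (4 - (rn G s : ℝ)) 0)
    (fun s _ => le_max_right _ _) hp
  have h5 := le_max_left (4 - (rn G p : ℝ)) 0
  rw [F14_eq54, Z14_zero54 G hG h1 h2, ← F54_eq14]
  push_cast
  linarith

/-- leaves are not outer darts -/
theorem Lv_out54 (hG : G.Geo4 al kp U) {K : (cg G).ConnectedComponent} {x : V × V}
    (hx : x ∈ Lv G K) : x ∈ kS G K ∧ x ∉ G.oJ := by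
  obtain ⟨h2, h3, _⟩ := (mem_Lv15 G).1 hx
  refine ⟨h2, fun h4 => ?_⟩
  obtain ⟨_, _, h5, _⟩ := sector_corners89 G hG h3 (mem_kS89 G h2) rfl
  exact ((mem_oJ66 G).1 h4).2.2 ((mem_iJ71 G).1 h5).1

/-- **Lemma I**, in the letters of the boundary assembly -/
theorem lemIS54 (hG : G.Geo4 al kp U) (h1 : ∀ x ∈ iJ G, gc G al x ≤ 1)
    {K : (cg G).ConnectedComponent} (hL : (Lv G K).Nonempty) :
    wx G 1 K + (Lv G K).card + F14 G K + Z14 G K ≤
      ∑ x ∈ Lv G K, ((un G al (sg G x) : ℝ) - 2) +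
        ((fv14 G K).filter (fun x => rn G x ≤ 1)).card := by
  obtain ⟨p, hp⟩ := hL
  obtain ⟨h3, h4⟩ := Lv_out54 G hG hp
  rw [F14_eq54, Z14_zero54 G hG h3 h4, ← F54_eq14]
  have := lemI54 G hG h1 ⟨p, hp⟩
  push_cast
  linarith

/-- **faces with leaves**: the excess over the reduced prices is at most 2 -/
theorem lemXS54 (hG : G.Geo4 al kp U) (h1 : ∀ x ∈ iJ G, gc G al x ≤ 1)
    {K : (cg G).ConnectedComponent} (hL : (Lv G K).Nonempty) :
    wx G 1 K + (Lv G K).card + F14 G K + Z14 G K ≤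
      ∑ x ∈ Lv G K, max ((un G al (sg G x) : ℝ) - 3) 0 + 2 +
        ((fv14 G K).filter (fun x => rn G x ≤ 1)).card := by
  obtain ⟨p, hp⟩ := hL
  obtain ⟨h3, h4⟩ := Lv_out54 G hG hp
  rw [F14_eq54, Z14_zero54 G hG h3 h4, ← F54_eq14]
  have := lemX54 G hG h1 ⟨p, hp⟩
  push_cast
  linarith

/-- **faces with a payer and leaves**, price `max (4 - rn) 2` -/
theorem lemPX54 (hG : G.Geo4 al kp U) (h1 : ∀ x ∈ iJ G, gc G al x ≤ 1)
    {K : (cg G).ConnectedComponent} (hK : K ∈ Sf G al) (hL : (Lv G K).Nonempty) :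
    wx G 1 K + (Lv G K).card + F14 G K + Z14 G K ≤
      ∑ s ∈ PK G al K, max (4 - (rn G s : ℝ)) 2 +
      ∑ x ∈ Lv G K, max ((un G al (sg G x) : ℝ) - 3) 0 +
        ((fv14 G K).filter (fun x => rn G x ≤ 1)).card := by
  obtain ⟨p, hp⟩ := PK_ne54 G hK
  have h4 := Finset.single_le_sum (s := PK G al K) (f := fun s => max (4 - (rn G s : ℝ)) 2)
    (fun s _ => le_trans (by norm_num) (le_max_right _ _)) hp
  have h5 := le_max_right (4 - (rn G p : ℝ)) 2
  have h6 := lemXS54 G hG h1 hL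
  linarith

/-- **Lemma T**: a face with a side that is not outer -/
theorem lemTS54 (hG : G.Geo4 al kp U) {K : (cg G).ConnectedComponent} {y : V × V}
    (hy : y ∈ kS G K) (hyo : y ∉ G.oJ) : wx G 1 K + F14 G K + Z14 G K ≤ 4 := by
  rw [F14_eq54, Z14_zero54 G hG hy hyo]
  have := (lemT54 G hG K).2
  push_cast
  linarith

/-- **Lemma T**, at least two triangles -/
theorem lemTS54' (hG : G.Geo4 al kp U) {K : (cg G).ConnectedComponent} (ht : 2 ≤ tK G K) :
    wx G 1 K + F14 G K + Z14 G K ≤ 2 + ((fv14 G K).filter (fun x => rn G x ≤ 1)).card := by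
  have h1 : Z14 G K = 0 := by
    unfold Z14
    rw [Finset.card_eq_zero, Finset.filter_eq_empty_iff]
    intro x hx h0
    unfold fv14 at hx
    obtain ⟨h5, h6⟩ := (mem_kS42 G).1 (Finset.mem_filter.1 hx).1
    have h8 := (tK_zero54 G hG h5).2 h0
    rw [h6] at h8
    omega
  rw [F14_eq54, h1, ← F54_eq14]
  have := lemM54 G hG ht
  push_cast
  linarith

/-- a face with only outer sides -/
theorem lemO54 (hG : G.Geo4 al kp U) {K : (cg G).ConnectedComponent}
    (hK : ∀ y ∈ kS G K, y ∈ G.oJ) :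
    wx G 1 K + F14 G K + Z14 G K ≤ 3 * ((fv14 G K).filter (fun x => rn G x ≤ 1)).card := by
  have e : fv14 G K = kS G K := by
    unfold fv14
    exact Finset.filter_true_of_mem fun x hx => ⟨hK x hx, hK _ (nx_kS89 G hG hx)⟩
  unfold F14 Z14
  rw [e, wx_one54 G hG, ← Finset.sum_boole, ← Finset.sum_boole, ← Finset.sum_boole,
    ← Finset.sum_add_distrib, ← Finset.sum_add_distrib, Finset.mul_sum]
  refine Finset.sum_le_sum fun x _ => ?_
  rcases Nat.lt_or_ge (rn G x) 1 with h | h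
  · have h0 : rn G x = 0 := by omega
    rw [h0]
    norm_num
  rcases Nat.lt_or_ge (rn G x) 2 with h2 | h2
  · have h0 : rn G x = 1 := by omega
    rw [h0]
    norm_num
  rcases Nat.lt_or_ge (rn G x) 3 with h3 | h3
  · have h0 : rn G x = 2 := by omega
    rw [h0]
    norm_num
  · rw [if_pos h3, if_neg (by omega), if_neg (by omega)]
    have : (3 : ℝ) ≤ rn G x := by exact_mod_cast h3
    linarith

end

end Pool.Agent.PEN.E5
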