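import Pool.Agent.E5.SkD89

/-! # PENNY, all small diameters: the sectors at an inner point

`nx` is a bijection from the sides which end at `v` onto the big corners at `v`, and the runs of
these sides contain every contact triangle corner at `v` exactly once. -/

set_option autoImplicit false

namespace Pool.Agent.PEN.E5

open Classical UpperHalfPlane
open Pool.Agent.PEN.Cl

noncomputable section

variable {V : Type} (G : Tg V) {al : ℝ} {kp : V → V → ℝ} {U : ℕ → ℝ}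

/-- the contact triangle corners at `v` -/
def Tv (v : V) : Finset (V × V) := (TT G).filter (fun x => x.1 = v)

theorem mem_Sv62 {v : V} {x : V × V} : x ∈ Sv G v ↔ x ∈ SD G ∧ x.2 = v := by
  unfold Sv
  rw [Finset.mem_filter]

theorem mem_Bv62 {v : V} {x : V × V} : x ∈ Bv G v ↔ x ∈ BC G ∧ x.1 = v := by
  unfold Bv
  rw [Finset.mem_filter]

theorem mem_Tv62 {v : V} {x : V × V} : x ∈ Tv G v ↔ tt G x ∧ x.1 = v := by
  unfold Tv
  rw [Finset.mem_filter, mem_TT42']

theorem iJ_KJ62 {x : V × V} (h : x ∈ iJ G) : x ∈ KJ G := by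
  have h1 := (mem_iJ71 G).1 h
  exact (mem_KJ42 G).2 ⟨G.sub h1.1.1, h1.2⟩

theorem Bv_SD62 {v : V} {y : V × V} (h : y ∈ Bv G v) : y ∈ SD G := by
  obtain ⟨h1, _⟩ := (mem_Bv62 G).1 h
  obtain ⟨h2, h3⟩ := (mem_BC89 G).1 h1
  exact (mem_SD42 G).2 ⟨iJ_KJ62 G h2, h3⟩

/-- the white corner `nx x` of a sector at an inner point -/
theorem nx_Bv62 (hG : G.Geo4 al kp U) {v : V} (hv : v ∈ inN G) {x : V × V} (hx : x ∈ Sv G v) :
    nx G x ∈ Bv G v := by
  obtain ⟨h1, h2⟩ := (mem_Sv62 G).1 hx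
  obtain ⟨h3, h4, _, _, h7⟩ := sector_corners89 G hG hv h1 h2
  obtain ⟨h5, h6⟩ := (mem_Jv51 G).1 h4
  exact (mem_Bv62 G).2 ⟨(mem_BC89 G).2 ⟨h5, h7⟩, h6⟩

theorem sg_Bv62 (hG : G.Geo4 al kp U) {v : V} (hv : v ∈ inN G) {x : V × V} (hx : x ∈ Sv G v) :
    sg G x ∈ Bv G v := by
  obtain ⟨h1, h2⟩ := (mem_Sv62 G).1 hx
  obtain ⟨h3, _, _, h6, _⟩ := sector_corners89 G hG hv h1 h2
  obtain ⟨h4, h5⟩ := (mem_Jv51 G).1 h3
  exact (mem_Bv62 G).2 ⟨(mem_BC89 G).2 ⟨h4, h6⟩, h5⟩

theorem nx_injOn62 (hG : G.Geo4 al kp U) (v : V) : Set.InjOn (nx G) (Sv G v : Set (V × V)) :=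
  fun _ hx _ hz h => nx_inj42 G hG ((mem_Sv62 G).1 (Finset.mem_coe.1 hx)).1
    ((mem_Sv62 G).1 (Finset.mem_coe.1 hz)).1 h

/-- `nx` maps the sectors at `v` onto the big corners at `v` -/
theorem image_nx62 (hG : G.Geo4 al kp U) {v : V} (hv : v ∈ inN G) :
    (Sv G v).image (nx G) = Bv G v := by
  ext y
  rw [Finset.mem_image]
  constructor
  · rintro ⟨x, hx, rfl⟩
    exact nx_Bv62 G hG hv hx
  · intro hy
    obtain ⟨x, hx, rfl⟩ := nx_surj42 G hG (Bv_SD62 G hy)
    exact ⟨x, (mem_Sv62 G).2 ⟨hx, ((mem_Bv62 G).1 hy).2⟩, rfl⟩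

/-- the number of sectors at `v` is the number of big corners -/
theorem card_Sv62 (hG : G.Geo4 al kp U) {v : V} (hv : v ∈ inN G) :
    (Sv G v).card = cv G v := by
  have h := Finset.card_image_of_injOn (nx_injOn62 G hG v)
  rw [image_nx62 G hG hv] at h
  exact h.symm

/-- sums over the big corners at `v`, by sectors -/
theorem sum_nxv62 (hG : G.Geo4 al kp U) {v : V} (hv : v ∈ inN G) {M : Type} [AddCommMonoid M]
    (f : V × V → M) : ∑ x ∈ Sv G v, f (nx G x) = ∑ y ∈ Bv G v, f y := by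
  rw [← image_nx62 G hG hv, Finset.sum_image (nx_injOn62 G hG v)]

theorem sg_injOn62 (hG : G.Geo4 al kp U) {v : V} (hv : v ∈ inN G) :
    Set.InjOn (sg G) (Sv G v : Set (V × V)) := by
  intro x hx z hz h
  obtain ⟨h1, h2⟩ := (mem_Sv62 G).1 (Finset.mem_coe.1 hx)
  obtain ⟨h3, h4⟩ := (mem_Sv62 G).1 (Finset.mem_coe.1 hz)
  exact W4.sg_inj51 G hG (sector_corners89 G hG hv h1 h2).2.2.1
    (sector_corners89 G hG hv h3 h4).2.2.1 h

/-- `sg` maps the sectors at `v` onto the big corners at `v` -/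
theorem image_sg62 (hG : G.Geo4 al kp U) {v : V} (hv : v ∈ inN G) :
    (Sv G v).image (sg G) = Bv G v := by
  apply Finset.eq_of_subset_of_card_le
  · intro y hy
    obtain ⟨x, hx, rfl⟩ := Finset.mem_image.1 hy
    exact sg_Bv62 G hG hv hx
  · rw [Finset.card_image_of_injOn (sg_injOn62 G hG hv), card_Sv62 G hG hv]
    exact le_rfl

/-- sums over the big corners at `v`, by sectors, with the other corner -/
theorem sum_sgv62 (hG : G.Geo4 al kp U) {v : V} (hv : v ∈ inN G) {M : Type} [AddCommMonoid M]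
    (f : V × V → M) : ∑ x ∈ Sv G v, f (sg G x) = ∑ y ∈ Bv G v, f y := by
  rw [← image_sg62 G hG hv, Finset.sum_image (sg_injOn62 G hG hv)]

theorem rn_eq62 {v b : V} (h : HasN G v b) : rn G (b, v) = Nat.find h := by
  unfold rn
  rw [dif_pos h]

/-- the corners of the run of a side -/
def Rn (x : V × V) : Finset (V × V) :=
  (Finset.range (rn G x)).image (fun i => (x.2, (G.ap x.2)^[i] x.1))

theorem Rn_tt62 {x y : V × V} (hy : y ∈ Rn G x) : tt G y ∧ y.1 = x.2 := by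
  unfold Rn at hy
  obtain ⟨i, hi, rfl⟩ := Finset.mem_image.1 hy
  rw [Finset.mem_range] at hi
  refine ⟨?_, rfl⟩
  unfold rn at hi
  split_ifs at hi with h
  · exact run_tt42 G h hi
  · omega

/-- two runs at `v` meet only if they are equal -/
theorem run_inj62 {v b b' : V} (hb : ¬ tt G (b, v)) (hb' : ¬ tt G (b', v)) (h : HasN G v b)
    (h' : HasN G v b') {i j : ℕ} (hi : i < Nat.find h) (hj : j < Nat.find h')
    (he : (G.ap v)^[i] b = (G.ap v)^[j] b') : b = b' ∧ i = j := by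
  have key : ∀ {b b' : V} (_ : ¬ tt G (b, v)) (h : HasN G v b)
      (h' : HasN G v b') {i j : ℕ} (_ : i < Nat.find h) (_ : j < Nat.find h')
      (_ : (G.ap v)^[i] b = (G.ap v)^[j] b') (_ : i ≤ j), b = b' ∧ i = j := by
    intro b b' hb h h' i j hi hj he hij
    have p1 := run_bk42 G h 0 i (by omega)
    rw [zero_add, Function.iterate_zero, id_eq, he] at p1
    obtain ⟨k, hk⟩ : ∃ k, k + i = j := ⟨j - i, by omega⟩
    have p2 := run_bk42 G h' k i (by omega)
    rw [hk, p1] at p2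
    rcases k with _ | k
    · exact ⟨p2, by omega⟩
    · exfalso
      have h1 := run_tt42 G h' (i := k) (by omega)
      have h2 := (tt_ap42 G h1).2.2
      rw [← Function.iterate_succ_apply' (G.ap v) k b', ← p2] at h2
      exact hb h2
  rcases le_total i j with hij | hij
  · exact key hb h h' hi hj he hij
  · obtain ⟨h1, h2⟩ := key hb' h' h hj hi he.symm hij
    exact ⟨h1.symm, h2.symm⟩

/-- the number of corners of a run -/
theorem card_Rn62 (hG : G.Geo4 al kp U) {x : V × V} (hx : x ∈ SD G) :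
    (Rn G x).card = rn G x := by
  obtain ⟨b, v⟩ := x
  obtain ⟨h1, h2⟩ := (mem_SD42 G).1 hx
  have hN := hasN42 G hG ((mem_KJ42 G).1 (KJ_swap42 G h1)).1
  dsimp only at hN
  unfold Rn
  rw [Finset.card_image_of_injOn, Finset.card_range]
  intro i hi j hj he
  have hi' := Finset.mem_range.1 (Finset.mem_coe.1 hi)
  have hj' := Finset.mem_range.1 (Finset.mem_coe.1 hj)
  rw [rn_eq62 G hN] at hi' hj'
  exact (run_inj62 G h2 h2 hN hN hi' hj' (Prod.mk.inj he).2).2

/-- every contact triangle corner is in a run -/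
theorem mem_run62 (hG : G.Geo4 al kp U) {y : V × V} (hy : tt G y) :
    ∃ x ∈ SD G, y ∈ Rn G x := by
  obtain ⟨v, c⟩ := y
  have hK := tt_KJ42 G hy
  have hc := hasN42 G hG ((mem_KJ42 G).1 hK).1
  obtain ⟨h1, _⟩ := nx_mem42 G hG (x := (c, v)) (KJ_swap42 G hK)
  obtain ⟨x, hx, hxe⟩ := nx_surj42 G hG h1
  obtain ⟨b, v'⟩ := x
  have hv' : v' = v := (Prod.mk.inj hxe).1
  subst hv'
  obtain ⟨h2, h3⟩ := (mem_SD42 G).1 hx
  have hb := hasN42 G hG ((mem_KJ42 G).1 (KJ_swap42 G h2)).1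
  dsimp only at hb
  have he : nb G v' b = nb G v' c := (Prod.mk.inj hxe).2
  rw [nb_eq42 G hb, nb_eq42 G hc] at he
  refine ⟨(b, v'), hx, ?_⟩
  rcases le_or_gt (Nat.find hc) (Nat.find hb) with hle | hlt
  · obtain ⟨k, hk⟩ : ∃ k, k + Nat.find hc = Nat.find hb := ⟨Nat.find hb - Nat.find hc, by omega⟩
    have p1 := run_bk42 G hc 0 (Nat.find hc) (by omega)
    rw [zero_add, Function.iterate_zero, id_eq] at p1
    have p2 := run_bk42 G hb k (Nat.find hc) (by omega)
    rw [hk, he, p1] at p2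
    unfold Rn
    rw [Finset.mem_image]
    refine ⟨k, ?_, ?_⟩
    · rw [Finset.mem_range, rn_eq62 G hb]
      have hpos : 0 < Nat.find hc := by
        by_contra h0
        have h0' : Nat.find hc = 0 := by omega
        have h9 := Nat.find_spec hc
        rw [h0'] at h9
        exact h9 hy
      omega
    · dsimp only
      rw [← p2]
  · exfalso
    obtain ⟨k, hk⟩ : ∃ k, (k + 1) + Nat.find hb = Nat.find hc :=
      ⟨Nat.find hc - Nat.find hb - 1, by omega⟩
    have p1 := run_bk42 G hb 0 (Nat.find hb) (by omega)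
    rw [zero_add, Function.iterate_zero, id_eq] at p1
    have p2 := run_bk42 G hc (k + 1) (Nat.find hb) (by omega)
    rw [hk, ← he, p1] at p2
    have h4 := run_tt42 G hc (i := k) (by omega)
    have h5 := (tt_ap42 G h4).2.2
    rw [← Function.iterate_succ_apply' (G.ap v') k c, ← p2] at h5
    exact h3 h5

/-- the contact triangle corners at `v` are the runs of the sides which end at `v` -/
theorem biUnion_Rn62 (hG : G.Geo4 al kp U) (v : V) : (Sv G v).biUnion (Rn G) = Tv G v := by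
  ext y
  rw [Finset.mem_biUnion, mem_Tv62]
  constructor
  · rintro ⟨x, hx, hy⟩
    obtain ⟨h1, h2⟩ := Rn_tt62 G hy
    exact ⟨h1, h2.trans ((mem_Sv62 G).1 hx).2⟩
  · rintro ⟨h1, h2⟩
    obtain ⟨x, hx, hy⟩ := mem_run62 G hG h1
    exact ⟨x, (mem_Sv62 G).2 ⟨hx, (Rn_tt62 G hy).2.symm.trans h2⟩, hy⟩

theorem disj_Rn62 (hG : G.Geo4 al kp U) {x z : V × V} (hx : x ∈ SD G) (hz : z ∈ SD G)
    (hne : x ≠ z) : Disjoint (Rn G x) (Rn G z) := by
  rw [Finset.disjoint_left]
  intro y h1 h2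
  have e1 := (Rn_tt62 G h1).2
  have e2 := (Rn_tt62 G h2).2
  obtain ⟨b, v⟩ := x
  obtain ⟨b', v'⟩ := z
  have hv : v = v' := e1.symm.trans e2
  subst hv
  obtain ⟨k1, k2⟩ := (mem_SD42 G).1 hx
  obtain ⟨k3, k4⟩ := (mem_SD42 G).1 hz
  have hN := hasN42 G hG ((mem_KJ42 G).1 (KJ_swap42 G k1)).1
  have hN' := hasN42 G hG ((mem_KJ42 G).1 (KJ_swap42 G k3)).1
  dsimp only at hN hN'
  unfold Rn at h1 h2
  obtain ⟨i, hi, rfl⟩ := Finset.mem_image.1 h1
  obtain ⟨j, hj, he⟩ := Finset.mem_image.1 h2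
  rw [Finset.mem_range] at hi hj
  rw [rn_eq62 G hN] at hi
  rw [rn_eq62 G hN'] at hj
  have := (run_inj62 G k2 k4 hN hN' hi hj (Prod.mk.inj he).2.symm).1
  exact hne (by rw [this])

/-- **V1**: the sum of the runs at `v` is the number of contact triangles at `v` -/
theorem sum_rn62 (hG : G.Geo4 al kp U) (v : V) :
    ∑ x ∈ Sv G v, rn G x = (Tv G v).card := by
  rw [← biUnion_Rn62 G hG v, Finset.card_biUnion]
  · exact Finset.sum_congr rfl fun x hx => (card_Rn62 G hG ((mem_Sv62 G).1 hx).1).symm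
  · intro x hx z hz hne
    exact disj_Rn62 G hG ((mem_Sv62 G).1 hx).1 ((mem_Sv62 G).1 hz).1 hne

theorem Tv_Jv62 (v : V) : Tv G v = (Jv G v).filter (fun x => tt G x) := by
  ext y
  rw [mem_Tv62, Finset.mem_filter, mem_Jv51]
  constructor
  · rintro ⟨h1, h2⟩
    exact ⟨⟨tt_iJ89 G h1, h2⟩, h1⟩
  · rintro ⟨⟨_, h2⟩, h1⟩
    exact ⟨h1, h2⟩

/-- **V1**: the units at a point: runs and big corners -/
theorem uv_split62 (hG : G.Geo4 al kp U) (v : V) :
    ∑ x ∈ Sv G v, rn G x + ∑ y ∈ Bv G v, un G al y = uv G al v := by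
  rw [sum_rn62 G hG v]
  unfold uv
  rw [← Finset.sum_filter_add_sum_filter_not (Jv G v) (fun x => tt G x)]
  congr 1
  · rw [← Tv_Jv62 G v, Finset.card_eq_sum_ones]
    refine Finset.sum_congr rfl fun x hx => ?_
    unfold un
    rw [if_pos ((mem_Tv62 G).1 hx).1]
  · unfold Bv
    rw [cv_BC89 G v]

/-- the run of a side lies in its black face -/
theorem Rn_ku62 (hG : G.Geo4 al kp U) {x y : V × V} (hx : x ∈ SD G) (hy : y ∈ Rn G x) :
    ku G y = ku G x := by
  obtain ⟨b, v⟩ := x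
  obtain ⟨k1, k2⟩ := (mem_SD42 G).1 hx
  have hN := hasN42 G hG ((mem_KJ42 G).1 (KJ_swap42 G k1)).1
  dsimp only at hN
  unfold Rn at hy
  obtain ⟨i, hi, rfl⟩ := Finset.mem_image.1 hy
  rw [Finset.mem_range, rn_eq62 G hN] at hi
  exact (run_mem42 G hN (KJ_swap42 G k1) i hi.le).2.trans (ku_swap42 G k1)

/-- the contact triangle darts of a black face are the runs of its sides -/
theorem biUnion_kS62 (hG : G.Geo4 al kp U) (K : (cg G).ConnectedComponent) :
    (kS G K).biUnion (Rn G) = kT G K := by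
  ext y
  rw [Finset.mem_biUnion, mem_kT42]
  constructor
  · rintro ⟨x, hx, hy⟩
    obtain ⟨h1, h2⟩ := (mem_kS42 G).1 hx
    exact ⟨(Rn_tt62 G hy).1, (Rn_ku62 G hG h1 hy).trans h2⟩
  · rintro ⟨h1, h2⟩
    obtain ⟨x, hx, hy⟩ := mem_run62 G hG h1
    exact ⟨x, (mem_kS42 G).2 ⟨hx, (Rn_ku62 G hG hx hy).symm.trans h2⟩, hy⟩

/-- **V2**: the sum of the runs of a black face (no condition on the heads) -/
theorem sum_rnK62 (hG : G.Geo4 al kp U) (K : (cg G).ConnectedComponent) :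
    ∑ x ∈ kS G K, rn G x = 3 * tK G K := by
  unfold tK
  rw [← card_kT42 G K, ← biUnion_kS62 G hG K, Finset.card_biUnion]
  · exact Finset.sum_congr rfl fun x hx => (card_Rn62 G hG (mem_kS89 G hx)).symm
  · intro x hx z hz hne
    exact disj_Rn62 G hG (mem_kS89 G hx) (mem_kS89 G hz) hne

/-- the number of sides of a black face -/
theorem card_kS62 (K : (cg G).ConnectedComponent) : (kS G K).card ≤ tK G K + 2 := by
  have h1 := conn42 G K
  have h2 := card_kT42 G K
  unfold tK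
  omega

/-- **V1**, by sectors -/
theorem uv_sectors62 (hG : G.Geo4 al kp U) {v : V} (hv : v ∈ inN G) :
    ∑ x ∈ Sv G v, (rn G x + un G al (nx G x)) = uv G al v := by
  rw [Finset.sum_add_distrib, sum_nxv62 G hG hv (un G al), uv_split62 G hG v]

end

end Pool.Agent.PEN.E5
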