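import Pool.Agent.E5.Us14c
import Pool.Agent.E5.V1_62

/-! # PENNY, all small diameters: the Euler identity with boundary -/

set_option autoImplicit false

namespace Pool.Agent.PEN.E5

open Classical UpperHalfPlane
open Pool.Agent.PEN.Cl

noncomputable section

variable {V : Type} (G : Tg V) {al : ℝ} {kp : V → V → ℝ} {U : ℕ → ℝ}

/-- the contact degree -/
def dg14 (v : V) : ℕ := ((KJ G).filter (fun x => x.1 = v)).card

/-- the contact darts that start at outer points -/
def Do14 : ℕ := ((KJ G).filter (fun x => x.1 ∉ inN G)).card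

theorem KJ_card14 : (KJ G).card = (iJ G).card + G.oJ.card := by
  have e : KJ G = iJ G ∪ G.oJ := by
    ext x
    rw [Finset.mem_union, mem_KJ42, mem_oJ66, mem_iJ71]
    constructor
    · rintro ⟨h1, h2⟩
      by_cases h : G.inn x
      · exact Or.inl ⟨h, h2⟩
      · exact Or.inr ⟨h1, h2, h⟩
    · rintro (⟨h1, h2⟩ | ⟨h1, h2, h3⟩)
      · exact ⟨G.sub h1.1, h2⟩
      · exact ⟨h1, h2⟩
  rw [e, Finset.card_union_of_disjoint]
  rw [Finset.disjoint_left]
  intro x h1 h2
  exact ((mem_oJ66 G).1 h2).2.2 ((mem_iJ71 G).1 h1).1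

/-- at an inner point the degree is the number of big corners plus the number of contact
triangles -/
theorem dg_eq14 (hG : G.Geo4 al kp U) {v : V} (hv : v ∈ inN G) :
    dg14 G v = cv G v + ((Jv G v).filter (fun x => tt G x)).card := by
  have e : (KJ G).filter (fun x => x.1 = v) = Jv G v := by
    ext ⟨a, b⟩
    rw [Finset.mem_filter, mem_Jv51]
    constructor
    · rintro ⟨h1, h2⟩
      dsimp only at h2
      subst h2
      exact ⟨(mem_iJ_of_inN42 G hG hv h1).1, rfl⟩
    · rintro ⟨h1, h2⟩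
      obtain ⟨h3, h4⟩ := (mem_iJ71 G).1 h1
      exact ⟨(mem_KJ42 G).2 ⟨G.sub h3.1, h4⟩, h2⟩
  unfold dg14 cv
  rw [e, cv_BC89, add_comm, Finset.card_filter_add_card_filter_not]

/-- **the Euler identity with boundary** -/
theorem E_14 (hG : G.Geo4 al kp U) :
    ∑ v ∈ inN G, ((dg14 G v : ℝ) - 6 + kv G al v) + ∑ C ∈ WF G, ka G al C =
      G.iD.card + G.oJ.card - Do14 G - 6 * (inN G).card - gam G al + cor G al := by
  have f3 := F3_89 G hG
  have g3 : (G.iD.card : ℝ) = (iJ G).card + G.iI.card := by exact_mod_cast iD_card89 G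
  have g4 : ((KJ G).card : ℝ) = (iJ G).card + G.oJ.card := by exact_mod_cast KJ_card14 G
  have h1 : ((KJ G).card : ℝ) = ∑ v ∈ inN G, (dg14 G v : ℝ) + Do14 G := by
    have h2 := Finset.card_filter_add_card_filter_not (s := KJ G) (fun x => x.1 ∈ inN G)
    have h3 : ((KJ G).filter (fun x => x.1 ∈ inN G)).card = ∑ v ∈ inN G, dg14 G v := by
      rw [Finset.card_eq_sum_card_fiberwise (f := Prod.fst) (t := inN G)]
      · refine Finset.sum_congr rfl fun v hv => ?_
        unfold dg14
        congr 1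
        rw [Finset.filter_filter]
        refine Finset.filter_congr fun x _ => ?_
        exact ⟨fun h => h.2, fun h => ⟨by rw [h]; exact hv, h⟩⟩
      · intro x hx
        exact Finset.mem_coe.2 (Finset.mem_filter.1 (Finset.mem_coe.1 hx)).2
    rw [← h2, h3]
    unfold Do14
    push_cast
    ring
  have h4 : ∑ v ∈ inN G, ((dg14 G v : ℝ) - 6 + kv G al v) =
      ∑ v ∈ inN G, (dg14 G v : ℝ) + ∑ v ∈ inN G, (kv G al v - 1) - 5 * (inN G).card := by
    have h5 : (5 : ℝ) * (inN G).card = ∑ v ∈ inN G, (5 : ℝ) := by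
      rw [Finset.sum_const, nsmul_eq_mul, mul_comm]
    rw [h5, ← Finset.sum_add_distrib, ← Finset.sum_sub_distrib]
    exact Finset.sum_congr rfl fun v _ => by ring
  rw [h4]
  unfold cost at f3
  linarith

/-- the same with the exact slacks `s = 2 n - 2 - b0 - t` and `d0 = b0 + n_i - n` -/
theorem E_14' (hG : G.Geo4 al kp U) :
    ∑ v ∈ inN G, ((dg14 G v : ℝ) - 6 + kv G al v) + ∑ C ∈ WF G, ka G al C =
      4 * G.oJ.card - Do14 G - 6 - 3 * (2 * G.P.card - 2 - G.oJ.card - G.iD.card / 3) -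
        6 * (G.oJ.card + (inN G).card - G.P.card) - gam G al + cor G al := by
  rw [E_14 G hG]
  ring

end

end Pool.Agent.PEN.E5
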