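import Pool.Agent.P4.Pent66

/-! # PENNY, all small diameters: the opened fan

Trigonometry of four triangles around a corner `v0 > 3 α` of an equilateral hexagon. -/

set_option autoImplicit false

namespace Pool.Agent.PEN

open Classical UpperHalfPlane

noncomputable section

theorem cosal_19 {d : ℝ} (hd : 0 < d) :
    (Real.cosh d + 1) * Real.cos (alpha d) = Real.cosh d := by
  have hC : 1 < Real.cosh d := Real.one_lt_cosh.2 hd.ne'
  rw [cos_alpha hd]
  have hne : Real.cosh d + 1 ≠ 0 := by linarith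
  field_simp

theorem le_of_sq_le_sq19 {a b : ℝ} (h : a ^ 2 ≤ b ^ 2) (hb : 0 ≤ b) : a ≤ b :=
  (abs_le_of_sq_le_sq' h hb).2

theorem sinhsq_19 (d : ℝ) : Real.sinh d ^ 2 = Real.cosh d ^ 2 - 1 := by
  have := Real.cosh_sq d
  linarith

/-- `4 sin² (α/2) = 2 / (1 + cosh d)` -/
theorem half_19 {d : ℝ} (hd : 0 < d) :
    2 * (1 + Real.cosh d) * Real.sin (alpha d / 2) ^ 2 = 1 := by
  have h1 := cosal_19 hd
  have h2 := Real.cos_two_mul (alpha d / 2)
  rw [mul_div_cancel₀ _ (two_ne_zero)] at h2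
  have h3 := Real.sin_sq_add_cos_sq (alpha d / 2)
  have h4 : Real.cos (alpha d) = 1 - 2 * Real.sin (alpha d / 2) ^ 2 := by linarith
  rw [h4] at h1
  linarith

/-- the base angle: `2 b + φ ≤ 3 α` -/
theorem base19 {d : ℝ} (hd : 0 < d) {f b : ℝ} (f1 : alpha d ≤ f) (f2 : f ≤ 2 * alpha d)
    (b1 : 0 ≤ b) (b2 : b ≤ Real.pi / 2)
    (h : Real.cosh d * Real.sin (f / 2) * Real.sin b = Real.cos (f / 2) * Real.cos b) :
    2 * b + f ≤ 3 * alpha d := by
  have hC : 1 < Real.cosh d := Real.one_lt_cosh.2 hd.ne'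
  have hal := alpha_lt hd
  have hal0 := alpha_pos hd
  have hp := Real.pi_pos
  by_contra hc
  push Not at hc
  obtain ⟨e, he⟩ : ∃ e, e = (3 * alpha d - f) / 2 := ⟨_, rfl⟩
  have hlt : e < b := by rw [he]; linarith
  have e0 : 0 ≤ e := by rw [he]; linarith
  have s1 : Real.sin e < Real.sin b :=
    Real.sin_lt_sin_of_lt_of_le_pi_div_two (by linarith) b2 hlt
  have s2 : Real.cos b < Real.cos e := Real.cos_lt_cos_of_nonneg_of_le_pi e0 (by linarith) hlt
  have s3 : 0 < Real.sin (f / 2) := Real.sin_pos_of_pos_of_lt_pi (by linarith) (by linarith)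
  have s4 : 0 < Real.cos (f / 2) := Real.cos_pos_of_mem_Ioo ⟨by linarith, by linarith⟩
  -- the value at `e`
  have k1 : Real.cos (f / 2 - e) = Real.cos (f / 2) * Real.cos e + Real.sin (f / 2) * Real.sin e :=
    Real.cos_sub _ _
  have k2 : Real.cos (3 * (alpha d / 2)) =
      Real.cos (f / 2) * Real.cos e - Real.sin (f / 2) * Real.sin e := by
    rw [← Real.cos_add]
    congr 1
    rw [he]
    ring
  have k3 := Real.cos_three_mul (alpha d / 2)
  have k4 : Real.cos (alpha d / 2) ≤ Real.cos (f / 2 - e) := by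
    rw [← Real.cos_abs (f / 2 - e)]
    refine Real.cos_le_cos_of_nonneg_of_le_pi (abs_nonneg _) (by linarith) ?_
    rw [abs_le]
    constructor <;> rw [he] <;> linarith
  have k5 := half_19 hd
  have k6 := Real.sin_sq_add_cos_sq (alpha d / 2)
  have k7 : 0 < Real.cos (alpha d / 2) := Real.cos_pos_of_mem_Ioo ⟨by linarith, by linarith⟩
  have k8 : (Real.cosh d + 1) * Real.cos (3 * (alpha d / 2)) =
      (Real.cosh d - 1) * Real.cos (alpha d / 2) := by
    rw [k3]
    have : 4 * Real.cos (alpha d / 2) ^ 2 * (Real.cosh d + 1) = 4 * Real.cosh d + 2 := by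
      have : Real.cos (alpha d / 2) ^ 2 = 1 - Real.sin (alpha d / 2) ^ 2 := by linarith
      rw [this]
      linarith
    linear_combination Real.cos (alpha d / 2) * this
  have k9 : 0 ≤ Real.cosh d * Real.sin (f / 2) * Real.sin e - Real.cos (f / 2) * Real.cos e := by
    have : 0 ≤ (Real.cosh d - 1) * (Real.cos (f / 2 - e) - Real.cos (alpha d / 2)) :=
      mul_nonneg (by linarith) (by linarith)
    nlinarith
  have m1 : Real.cosh d * Real.sin (f / 2) * Real.sin e <
      Real.cosh d * Real.sin (f / 2) * Real.sin b :=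
    mul_lt_mul_of_pos_left s1 (by positivity)
  have m2 : Real.cos (f / 2) * Real.cos b < Real.cos (f / 2) * Real.cos e :=
    mul_lt_mul_of_pos_left s2 s4
  linarith

/-- (M2) -/
theorem m2_19 {d : ℝ} (hd : 0 < d) {f b A H m t : ℝ} (f1 : alpha d ≤ f) (f2 : f ≤ 2 * alpha d)
    (hH : H = Real.cosh d ^ 2 - Real.sinh d ^ 2 * Real.cos f) (hA : 0 < A)
    (hb1 : A * Real.cos b = Real.cosh d * (H - 1)) (hb2 : A * Real.sin b = Real.sinh d ^ 2 * Real.sin f)
    (b1 : 0 ≤ b) (t1 : alpha d ≤ t) (bt : b + t - alpha d ≤ Real.pi) (m2 : m ≤ Real.pi)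
    (hm : Real.cosh d * H - A * Real.cos m = Real.cosh d ^ 2 - Real.sinh d ^ 2 * Real.cos t)
    (tp : t - alpha d ≤ Real.pi) :
    m ≤ b + t - alpha d := by
  have hC : 1 < Real.cosh d := Real.one_lt_cosh.2 hd.ne'
  have hal := alpha_lt hd
  have hal0 := alpha_pos hd
  have hp := Real.pi_pos
  have hS := sinhsq_19 d
  by_contra hc
  push Not at hc
  have s1 : Real.cos m < Real.cos (b + t - alpha d) :=
    Real.cos_lt_cos_of_nonneg_of_le_pi (by linarith) m2 hc
  obtain ⟨X, hX⟩ : ∃ X, X = t - alpha d := ⟨_, rfl⟩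
  have e1 : Real.cos (b + t - alpha d) = Real.cos b * Real.cos X - Real.sin b * Real.sin X := by
    rw [← Real.cos_add, hX]
    congr 1
    ring
  have e2 : Real.cos t = Real.cos (alpha d) * Real.cos X - Real.sin (alpha d) * Real.sin X := by
    rw [← Real.cos_add, hX]
    congr 1
    ring
  have e3 : Real.cos X ≤ 1 := Real.cos_le_one X
  have e4 : 0 ≤ Real.sin X := Real.sin_nonneg_of_nonneg_of_le_pi (by linarith) (by linarith)
  have e5 := cosal_19 hd
  have e6 : Real.cos f ≤ Real.cos (alpha d) :=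
    Real.cos_le_cos_of_nonneg_of_le_pi hal0.le (by linarith) f1
  have e7 : Real.sin (alpha d) ≤ Real.sin f := by
    have h1 : Real.sin f - Real.sin (alpha d) =
        2 * Real.sin ((f - alpha d) / 2) * Real.cos ((f + alpha d) / 2) := Real.sin_sub_sin _ _
    have h2 : 0 ≤ Real.sin ((f - alpha d) / 2) :=
      Real.sin_nonneg_of_nonneg_of_le_pi (by linarith) (by linarith)
    have h3 : 0 ≤ Real.cos ((f + alpha d) / 2) :=
      Real.cos_nonneg_of_mem_Icc ⟨by linarith, by linarith⟩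
    have := mul_nonneg h2 h3
    linarith
  have hS0 : 0 < Real.sinh d ^ 2 := by rw [hS]; nlinarith
  have e8 : Real.sinh d ^ 2 * Real.cos (alpha d) = Real.cosh d ^ 2 - Real.cosh d := by
    rw [hS]
    linear_combination (Real.cosh d - 1) * e5
  have K : 0 ≤ (Real.cosh d * (H - 1) - Real.sinh d ^ 2 * Real.cos (alpha d)) * (1 - Real.cos X) := by
    refine mul_nonneg ?_ (by linarith)
    have h1 : Real.sinh d ^ 2 * Real.cos f ≤ Real.sinh d ^ 2 * Real.cos (alpha d) :=
      mul_le_mul_of_nonneg_left e6 hS0.le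
    have h2 : Real.cosh d ≤ H := by rw [hH]; linarith
    rw [e8]
    nlinarith
  have L : 0 ≤ Real.sinh d ^ 2 * (Real.sin f - Real.sin (alpha d)) * Real.sin X :=
    mul_nonneg (mul_nonneg hS0.le (by linarith)) e4
  have key : A * Real.cos (b + t - alpha d) ≤ A * Real.cos m := by
    have h1 : A * Real.cos (b + t - alpha d) =
        Real.cosh d * (H - 1) * Real.cos X - Real.sinh d ^ 2 * Real.sin f * Real.sin X := by
      rw [e1, ← hb1, ← hb2]
      ring
    have h2 : A * Real.cos m = Real.cosh d * H - Real.cosh d ^ 2 +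
        (Real.sinh d ^ 2 * Real.cos (alpha d) * Real.cos X -
          Real.sinh d ^ 2 * Real.sin (alpha d) * Real.sin X) := by
      rw [e2] at hm
      linarith
    rw [h1, h2]
    nlinarith
  have := mul_lt_mul_of_pos_left s1 hA
  linarith

/-- the algebraic identity of (M4), first step -/
theorem core_a19 {C S2 H R A cb sb cf sf cD sD co so ca : ℝ} (hS : S2 = C ^ 2 - 1)
    (hH : H = C ^ 2 - S2 * cf) (hb1 : A * cb = C * (H - 1)) (hb2 : A * sb = S2 * sf)
    (hR : R = C * H - A * (cb * cD - sb * sD)) (hca : S2 * ca = C ^ 2 - C) :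
    C * R - co * (C * R - H) - so * (A * (sb * cD + cb * sD)) - C =
      S2 * (ca - cf * co - sf * cD * so + C ^ 2 * (1 - cf) * (1 - cD) * (1 - co) +
        C * sD * (sf * (1 - co) - (1 - cf) * so)) := by
  have e1 : A * (cb * cD - sb * sD) = C * (H - 1) * cD - S2 * sf * sD := by
    rw [← hb1, ← hb2]
    ring
  have e2 : A * (sb * cD + cb * sD) = S2 * sf * cD + C * (H - 1) * sD := by
    rw [← hb1, ← hb2]
    ring
  rw [e1] at hR
  rw [e2, hR, hH]
  have : C ^ 2 = 1 + S2 := by linarith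
  have h4 : C ^ 2 - C = S2 * ca := by linarith
  clear hb1 hb2 hR hH e1 e2 hS hca
  linear_combination (C ^ 2 * (1 - cD) * (1 - co) - C * sD * so) * this + h4

/-- the trigonometric identity of (M4) -/
theorem core_b19 (C p t u : ℝ) :
    Real.cos (2 * t) - Real.cos (2 * p) * Real.cos (2 * (p + t - u)) -
        Real.sin (2 * p) * Real.cos (2 * u) * Real.sin (2 * (p + t - u)) +
        C ^ 2 * (1 - Real.cos (2 * p)) * (1 - Real.cos (2 * u)) * (1 - Real.cos (2 * (p + t - u))) +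
        C * Real.sin (2 * u) * (Real.sin (2 * p) * (1 - Real.cos (2 * (p + t - u))) -
          (1 - Real.cos (2 * p)) * Real.sin (2 * (p + t - u))) =
      2 * Real.sin u * (2 * Real.sin p * Real.sin (p + t - u) *
        (2 * Real.cos (t - u) * Real.sin u +
          (C ^ 2 - 1) * (2 * Real.sin p * Real.sin (p + t - u)) * Real.sin u +
          2 * C * Real.cos u * Real.sin (t - u)) - Real.sin (2 * t - u)) := by
  obtain ⟨q, hq⟩ : ∃ q, q = p + t - u := ⟨_, rfl⟩
  obtain ⟨v, hv⟩ : ∃ v, v = t - u := ⟨_, rfl⟩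
  have qv : v = q - p := by rw [hq, hv]; ring
  have a1 : Real.sin v = Real.sin q * Real.cos p - Real.cos q * Real.sin p := by
    rw [qv, Real.sin_sub]
  have a2 : Real.cos v = Real.cos q * Real.cos p + Real.sin q * Real.sin p := by
    rw [qv, Real.cos_sub]
  have a3 : Real.cos (2 * t) - Real.cos (2 * v) = - 2 * Real.sin u * Real.sin (2 * t - u) := by
    rw [Real.cos_sub_cos]
    have e1 : (2 * t + 2 * v) / 2 = 2 * t - u := by rw [hv]; ring
    have e2 : (2 * t - 2 * v) / 2 = u := by rw [hv]; ring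
    rw [e1, e2]
    ring
  have a4 : Real.cos (2 * v) = Real.cos (2 * q) * Real.cos (2 * p) +
      Real.sin (2 * q) * Real.sin (2 * p) := by
    rw [← Real.cos_sub, qv]
    congr 1
    ring
  have c1 : Real.cos (2 * p) = 1 - 2 * Real.sin p ^ 2 := by
    have := Real.cos_two_mul p
    have := Real.sin_sq_add_cos_sq p
    linarith
  have c2 : Real.cos (2 * u) = 1 - 2 * Real.sin u ^ 2 := by
    have := Real.cos_two_mul u
    have := Real.sin_sq_add_cos_sq u
    linarith
  have c3 : Real.cos (2 * q) = 1 - 2 * Real.sin q ^ 2 := by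
    have := Real.cos_two_mul q
    have := Real.sin_sq_add_cos_sq q
    linarith
  have s1 := Real.sin_two_mul p
  have s2 := Real.sin_two_mul u
  have s3 := Real.sin_two_mul q
  rw [← hq, ← hv]
  have b1 : Real.cos (2 * t) - Real.cos (2 * p) * Real.cos (2 * q) -
      Real.sin (2 * p) * Real.cos (2 * u) * Real.sin (2 * q) =
      - 2 * Real.sin u * Real.sin (2 * t - u) +
        Real.sin (2 * p) * Real.sin (2 * q) * (1 - Real.cos (2 * u)) := by
    rw [← a3, a4]
    ring
  rw [b1, c1, c2, c3, s1, s2, s3, a1, a2]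
  ring

/-- the last step of (M4): the rhombus -/
theorem core_c19 {C t u : ℝ} (h : 2 * (1 + C) * Real.sin t ^ 2 = 1) :
    2 * Real.sin t * (2 * Real.cos (t - u) * Real.sin u +
      (C ^ 2 - 1) * (2 * Real.sin (2 * t - u) * Real.sin t) * Real.sin u +
      2 * C * Real.cos u * Real.sin (t - u)) - 1 = (C - 1) * (Real.cos (2 * u) - Real.cos (2 * t)) := by
  have c1 : Real.cos (2 * t) = 1 - 2 * Real.sin t ^ 2 := by
    have := Real.cos_two_mul t
    have := Real.sin_sq_add_cos_sq t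
    linarith
  have c2 : Real.cos (2 * u) = 1 - 2 * Real.sin u ^ 2 := by
    have := Real.cos_two_mul u
    have := Real.sin_sq_add_cos_sq u
    linarith
  have d1 := Real.sin_sq_add_cos_sq u
  have d2 := Real.sin_sq_add_cos_sq t
  rw [Real.sin_sub (2 * t) u, Real.sin_two_mul, c1, c2, Real.cos_sub, Real.sin_sub]
  obtain ⟨st, hst⟩ : ∃ z, z = Real.sin t := ⟨_, rfl⟩
  obtain ⟨ct, hct⟩ : ∃ z, z = Real.cos t := ⟨_, rfl⟩
  obtain ⟨su, hsu⟩ : ∃ z, z = Real.sin u := ⟨_, rfl⟩
  obtain ⟨cu, hcu⟩ : ∃ z, z = Real.cos u := ⟨_, rfl⟩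
  rw [← hst] at h ⊢
  rw [← hst] at d2
  rw [← hct] at d2 ⊢
  rw [← hsu] at d1 ⊢
  rw [← hcu] at d1 ⊢
  have e1 : cu ^ 2 = 1 - su ^ 2 := by linarith
  linear_combination (2 * (C - 1) * (2 * st * ct * cu - (1 - 2 * st ^ 2) * su) * su + 1) * h +
    4 * C * st ^ 2 * e1

/-- the inequality of (M4) -/
theorem core_d19 {d p t u : ℝ} (hd : 0 < d) (ht : t = alpha d / 2) (p1 : t ≤ p) (p2 : p ≤ 2 * t)
    (u0 : 0 ≤ u) (u1 : u ≤ t) :
    Real.sin (2 * t - u) ≤ 2 * Real.sin p * Real.sin (p + t - u) *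
        (2 * Real.cos (t - u) * Real.sin u +
          (Real.cosh d ^ 2 - 1) * (2 * Real.sin p * Real.sin (p + t - u)) * Real.sin u +
          2 * Real.cosh d * Real.cos u * Real.sin (t - u)) := by
  have hC : 1 < Real.cosh d := Real.one_lt_cosh.2 hd.ne'
  have hal := alpha_lt hd
  have hal0 := alpha_pos hd
  have hp := Real.pi_pos
  have t0 : 0 < t := by rw [ht]; linarith
  have t3 : 6 * t < Real.pi := by rw [ht]; linarith
  have e1 : 2 * Real.sin p * Real.sin (p + t - u) = Real.cos (t - u) - Real.cos (2 * p + t - u) := by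
    rw [Real.cos_sub_cos]
    have h1 : (t - u + (2 * p + t - u)) / 2 = p + t - u := by ring
    have h2 : (t - u - (2 * p + t - u)) / 2 = - p := by ring
    rw [h1, h2, Real.sin_neg]
    ring
  have e2 : 2 * Real.sin (2 * t - u) * Real.sin t = Real.cos (t - u) - Real.cos (3 * t - u) := by
    rw [Real.cos_sub_cos]
    have h1 : (t - u + (3 * t - u)) / 2 = 2 * t - u := by ring
    have h2 : (t - u - (3 * t - u)) / 2 = - t := by ring
    rw [h1, h2, Real.sin_neg]
    ring
  have e3 : Real.cos (2 * p + t - u) ≤ Real.cos (3 * t - u) :=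
    Real.cos_le_cos_of_nonneg_of_le_pi (by linarith) (by linarith) (by linarith)
  have s1 : 0 ≤ Real.sin u := Real.sin_nonneg_of_nonneg_of_le_pi u0 (by linarith)
  have s2 : 0 ≤ Real.sin (t - u) := Real.sin_nonneg_of_nonneg_of_le_pi (by linarith) (by linarith)
  have s3 : 0 ≤ Real.cos (t - u) := Real.cos_nonneg_of_mem_Icc ⟨by linarith, by linarith⟩
  have s4 : 0 ≤ Real.cos u := Real.cos_nonneg_of_mem_Icc ⟨by linarith, by linarith⟩
  have s5 : 0 ≤ Real.sin t := Real.sin_nonneg_of_nonneg_of_le_pi (by linarith) (by linarith)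
  have s6 : 0 ≤ Real.sin (2 * t - u) :=
    Real.sin_nonneg_of_nonneg_of_le_pi (by linarith) (by linarith)
  have hh := half_19 hd
  rw [← ht] at hh
  have g := core_c19 (C := Real.cosh d) (t := t) (u := u) hh
  have g1 : 0 ≤ (Real.cosh d - 1) * (Real.cos (2 * u) - Real.cos (2 * t)) := by
    refine mul_nonneg (by linarith) ?_
    have := Real.cos_le_cos_of_nonneg_of_le_pi (x := 2 * u) (y := 2 * t) (by linarith) (by linarith)
      (by linarith)
    linarith
  obtain ⟨w, hw⟩ : ∃ w, w = 2 * Real.sin p * Real.sin (p + t - u) := ⟨_, rfl⟩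
  obtain ⟨w0, hw0⟩ : ∃ w, w = 2 * Real.sin (2 * t - u) * Real.sin t := ⟨_, rfl⟩
  rw [← hw]
  rw [← hw0] at g
  have w1 : w0 ≤ w := by rw [hw, hw0, e1, e2]; linarith
  have w2 : 0 ≤ w0 := by rw [hw0]; positivity
  obtain ⟨a, ha⟩ : ∃ a, a = 2 * Real.cos (t - u) * Real.sin u +
    2 * Real.cosh d * Real.cos u * Real.sin (t - u) := ⟨_, rfl⟩
  have a0 : 0 ≤ a := by rw [ha]; positivity
  obtain ⟨S, hS⟩ : ∃ S, S = (Real.cosh d ^ 2 - 1) * Real.sin u := ⟨_, rfl⟩
  have S0 : 0 ≤ S := by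
    rw [hS]
    exact mul_nonneg (by nlinarith) s1
  have k1 : w0 * (a + S * w0) ≤ w * (a + S * w) := by
    apply mul_le_mul w1 _ _ (w2.trans w1)
    · have := mul_le_mul_of_nonneg_left w1 S0
      linarith
    · have := mul_nonneg S0 w2
      linarith
  have k2 : Real.sin (2 * t - u) ≤ w0 * (a + S * w0) := by
    have h1 : w0 * (a + S * w0) = Real.sin (2 * t - u) * (2 * Real.sin t * (a + S * w0)) := by
      rw [hw0]
      ring
    have h2 : 1 ≤ 2 * Real.sin t * (a + S * w0) := by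
      have : 2 * Real.sin t * (a + S * w0) - 1 =
          2 * Real.sin t * (2 * Real.cos (t - u) * Real.sin u +
      (Real.cosh d ^ 2 - 1) * w0 * Real.sin u +
      2 * Real.cosh d * Real.cos u * Real.sin (t - u)) - 1 := by
        rw [ha, hS]
        ring
      linarith
    rw [h1]
    have := mul_le_mul_of_nonneg_left h2 s6
    linarith
  calc Real.sin (2 * t - u) ≤ w0 * (a + S * w0) := k2
    _ ≤ w * (a + S * w) := k1
    _ = _ := by
      rw [ha, hS]
      ring

/-- (M4) -/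
theorem m4_19 {d : ℝ} (hd : 0 < d) {f b A H R B m k b5 : ℝ} (f1 : alpha d ≤ f)
    (f2 : f ≤ 2 * alpha d) (hH : H = Real.cosh d ^ 2 - Real.sinh d ^ 2 * Real.cos f)
    (hb1 : A * Real.cos b = Real.cosh d * (H - 1)) (hb2 : A * Real.sin b = Real.sinh d ^ 2 * Real.sin f)
    (hR : R = Real.cosh d * H - A * Real.cos m) (m1 : b ≤ m) (m2 : m ≤ b + alpha d) (hB : 0 < B)
    (hk1 : B * Real.cos k = Real.cosh d * R - H) (hk2 : B * Real.sin k = A * Real.sin m)
    (hb5 : B * Real.cos b5 = Real.cosh d * (R - 1)) (kf : k ≤ f) (b5p : b5 ≤ Real.pi) :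
    k + b5 ≤ f + alpha d - (m - b) := by
  have hal := alpha_lt hd
  have hal0 := alpha_pos hd
  have hp := Real.pi_pos
  have hC : 1 < Real.cosh d := Real.one_lt_cosh.2 hd.ne'
  have hS := sinhsq_19 d
  obtain ⟨D, hD⟩ : ∃ D, D = m - b := ⟨_, rfl⟩
  have D0 : 0 ≤ D := by rw [hD]; linarith
  have D1 : D ≤ alpha d := by rw [hD]; linarith
  have em : m = b + D := by rw [hD]; ring
  have e1 : Real.cos m = Real.cos b * Real.cos D - Real.sin b * Real.sin D := by
    rw [em, Real.cos_add]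
  have e2 : Real.sin m = Real.sin b * Real.cos D + Real.cos b * Real.sin D := by
    rw [em, Real.sin_add]
  have hca : Real.sinh d ^ 2 * Real.cos (alpha d) = Real.cosh d ^ 2 - Real.cosh d := by
    rw [hS]
    linear_combination (Real.cosh d - 1) * cosal_19 hd
  have hE := core_a19 (C := Real.cosh d) (S2 := Real.sinh d ^ 2) (H := H) (R := R) (A := A)
    (cb := Real.cos b) (sb := Real.sin b) (cf := Real.cos f) (sf := Real.sin f)
    (cD := Real.cos D) (sD := Real.sin D) (so := Real.sin (f + alpha d - D))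
    (co := Real.cos (f + alpha d - D)) (ca := Real.cos (alpha d)) hS hH hb1 hb2
    (by rw [hR, e1]) hca
  have hb := core_b19 (Real.cosh d) (f / 2) (alpha d / 2) (D / 2)
  have r1 : 2 * (alpha d / 2) = alpha d := by ring
  have r2 : 2 * (f / 2) = f := by ring
  have r3 : 2 * (D / 2) = D := by ring
  have r4 : 2 * (f / 2 + alpha d / 2 - D / 2) = f + alpha d - D := by ring
  rw [r1, r2, r3, r4] at hb
  rw [hb] at hE
  have hd' := core_d19 (p := f / 2) (t := alpha d / 2) (u := D / 2) hd rfl (by linarith)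
    (by linarith) (by linarith) (by linarith)
  rw [r1] at hd'
  have s1 : 0 ≤ Real.sin (D / 2) := Real.sin_nonneg_of_nonneg_of_le_pi (by linarith) (by linarith)
  have hS0 : 0 ≤ Real.sinh d ^ 2 := sq_nonneg _
  have hpos : 0 ≤ Real.cosh d * R - Real.cos (f + alpha d - D) * (Real.cosh d * R - H) -
      Real.sin (f + alpha d - D) * (A * (Real.sin b * Real.cos D + Real.cos b * Real.sin D)) -
      Real.cosh d := by
    rw [hE]
    refine mul_nonneg hS0 (mul_nonneg (by linarith) (by linarith))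
  rw [← e2, ← hk1, ← hk2] at hpos
  rw [← hD]
  by_contra hc
  push Not at hc
  have c1 : Real.cos (f + alpha d - D - k) = Real.cos (f + alpha d - D) * Real.cos k +
      Real.sin (f + alpha d - D) * Real.sin k := Real.cos_sub _ _
  have c2 : B * Real.cos (f + alpha d - D - k) ≤ B * Real.cos b5 := by
    rw [c1, hb5]
    linarith
  have c3 : Real.cos b5 < Real.cos (f + alpha d - D - k) :=
    Real.cos_lt_cos_of_nonneg_of_le_pi (by linarith) b5p (by linarith)
  have := mul_lt_mul_of_pos_left c3 hB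
  linarith

/-- `C² - S² cos` is increasing -/
theorem le_of_ch19 {d t : ℝ} (hd : 0 < d) (h : Real.cosh d ≤ Real.cosh d ^ 2 - Real.sinh d ^ 2 * Real.cos t)
    (t0 : 0 ≤ t) : alpha d ≤ t := by
  have hC : 1 < Real.cosh d := Real.one_lt_cosh.2 hd.ne'
  have hal := alpha_lt hd
  have hp := Real.pi_pos
  have hS := sinhsq_19 d
  have hS0 : 0 < Real.sinh d ^ 2 := by rw [hS]; nlinarith
  have hca : Real.sinh d ^ 2 * Real.cos (alpha d) = Real.cosh d ^ 2 - Real.cosh d := by
    rw [hS]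
    linear_combination (Real.cosh d - 1) * cosal_19 hd
  by_contra hc
  push Not at hc
  have h1 : Real.cos (alpha d) < Real.cos t := Real.cos_lt_cos_of_nonneg_of_le_pi t0 (by linarith) hc
  have := mul_lt_mul_of_pos_left h1 hS0
  linarith

/-- **the opened fan, numbers**: `m2`, `m3` the angles at `v3`, `k + b5` the angle at `v4`, `t1` the
angle at `v1` -/
theorem fan_num19 {d r2 r3 r4 t1 t5 m2 m3 k b5 : ℝ} (hd : 0 < d) (h2 : d ≤ r2) (h3 : d ≤ r3)
    (h4 : d ≤ r4)
    (hu : Real.cosh r3 ≤ Real.cosh d ^ 2 - Real.sinh d ^ 2 * Real.cos (2 * alpha d))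
    (a1 : Real.cosh r2 = Real.cosh d ^ 2 - Real.sinh d ^ 2 * Real.cos t1) (t1p : 0 ≤ t1)
    (t1' : t1 ≤ 2 * alpha d)
    (a5 : Real.cosh r4 = Real.cosh d ^ 2 - Real.sinh d ^ 2 * Real.cos t5) (t5p : 0 ≤ t5)
    (t5' : t5 ≤ 2 * alpha d)
    (hm2 : Real.cosh r2 = Real.cosh d * Real.cosh r3 - Real.sinh d * Real.sinh r3 * Real.cos m2)
    (m2p : m2 ≤ Real.pi)
    (hm3 : Real.cosh r4 = Real.cosh d * Real.cosh r3 - Real.sinh d * Real.sinh r3 * Real.cos m3)
    (m30 : 0 ≤ m3) (m3p : m3 ≤ Real.pi)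
    (hk : Real.cosh r3 = Real.cosh d * Real.cosh r4 - Real.sinh d * Real.sinh r4 * Real.cos k)
    (kp : k ≤ Real.pi) (hks : Real.sinh r4 * Real.sin k = Real.sinh r3 * Real.sin m3)
    (hb5 : Real.cosh d = Real.cosh d * Real.cosh r4 - Real.sinh d * Real.sinh r4 * Real.cos b5)
    (b5p : b5 ≤ Real.pi) :
    k + b5 ≤ 3 * alpha d ∧ m2 + m3 + (k + b5) ≤ t1 + 3 * alpha d := by
  have hal := alpha_lt hd
  have hal0 := alpha_pos hd
  have hp := Real.pi_pos
  have hC : 1 < Real.cosh d := Real.one_lt_cosh.2 hd.ne'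
  have hS := sinhsq_19 d
  have hs0 : 0 < Real.sinh d := Real.sinh_pos_iff.2 hd
  have hS0 : 0 < Real.sinh d ^ 2 := by positivity
  have hca : Real.sinh d ^ 2 * Real.cos (alpha d) = Real.cosh d ^ 2 - Real.cosh d := by
    rw [hS]
    linear_combination (Real.cosh d - 1) * cosal_19 hd
  have cl : ∀ {r : ℝ}, d ≤ r → Real.cosh d ≤ Real.cosh r := by
    intro r hr
    rw [Real.cosh_le_cosh, abs_of_pos hd, abs_of_pos (by linarith)]
    exact hr
  have sl : ∀ {r : ℝ}, d ≤ r → Real.sinh d ≤ Real.sinh r := fun hr => Real.sinh_le_sinh.2 hr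
  obtain ⟨H, hH⟩ : ∃ H, H = Real.cosh r3 := ⟨_, rfl⟩
  obtain ⟨A, hA⟩ : ∃ A, A = Real.sinh d * Real.sinh r3 := ⟨_, rfl⟩
  obtain ⟨R, hR⟩ : ∃ R, R = Real.cosh r4 := ⟨_, rfl⟩
  obtain ⟨B, hB⟩ : ∃ B, B = Real.sinh d * Real.sinh r4 := ⟨_, rfl⟩
  have H1 : Real.cosh d ≤ H := by rw [hH]; exact cl h3
  have R1 : Real.cosh d ≤ R := by rw [hR]; exact cl h4
  have A0 : 0 < A := by
    rw [hA]
    exact mul_pos hs0 (lt_of_lt_of_le hs0 (sl h3))
  have B0 : 0 < B := by
    rw [hB]
    exact mul_pos hs0 (lt_of_lt_of_le hs0 (sl h4))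
  have A2 : A ^ 2 = Real.sinh d ^ 2 * (H ^ 2 - 1) := by
    rw [hA, hH, mul_pow, sinhsq_19 r3]
  -- the apex angle `f`
  obtain ⟨f, hf⟩ : ∃ f, f = Real.arccos ((Real.cosh d ^ 2 - H) / Real.sinh d ^ 2) := ⟨_, rfl⟩
  have q1 : Real.cos (2 * alpha d) ≤ (Real.cosh d ^ 2 - H) / Real.sinh d ^ 2 := by
    rw [le_div_iff₀ hS0]
    rw [← hH] at hu
    linarith
  have q2 : (Real.cosh d ^ 2 - H) / Real.sinh d ^ 2 ≤ Real.cos (alpha d) := by
    rw [div_le_iff₀ hS0]
    linarith
  have q3 := Real.neg_one_le_cos (2 * alpha d)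
  have q4 := Real.cos_le_one (alpha d)
  have cf : Real.cos f = (Real.cosh d ^ 2 - H) / Real.sinh d ^ 2 := by
    rw [hf, Real.cos_arccos (by linarith) (by linarith)]
  have f0 : 0 ≤ f := by rw [hf]; exact Real.arccos_nonneg _
  have fp : f ≤ Real.pi := by rw [hf]; exact Real.arccos_le_pi _
  have eH : H = Real.cosh d ^ 2 - Real.sinh d ^ 2 * Real.cos f := by
    rw [cf]
    field_simp
    ring
  have f1 : alpha d ≤ f := le_of_ch19 hd (by rw [← eH]; exact H1) f0
  have f2 : f ≤ 2 * alpha d := by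
    by_contra hc
    push Not at hc
    have h5 : Real.cos f < Real.cos (2 * alpha d) :=
      Real.cos_lt_cos_of_nonneg_of_le_pi (by linarith) fp hc
    rw [cf] at h5
    linarith
  -- the base angle `b`
  have key : A ^ 2 - (Real.cosh d * (H - 1)) ^ 2 = (Real.sinh d ^ 2 * Real.sin f) ^ 2 := by
    have h5 : Real.sinh d ^ 2 * Real.cos f = Real.cosh d ^ 2 - H := by linarith
    have h6 : (Real.sinh d ^ 2 * Real.sin f) ^ 2 =
        (Real.sinh d ^ 2) ^ 2 - (Real.sinh d ^ 2 * Real.cos f) ^ 2 := by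
      have := Real.sin_sq_add_cos_sq f
      have e : Real.sin f ^ 2 = 1 - Real.cos f ^ 2 := by linarith
      rw [mul_pow, e]
      ring
    rw [h6, h5, A2, hS]
    ring
  have sf0 : 0 ≤ Real.sin f := Real.sin_nonneg_of_nonneg_of_le_pi f0 fp
  obtain ⟨b, hb⟩ : ∃ b, b = Real.arccos (Real.cosh d * (H - 1) / A) := ⟨_, rfl⟩
  have u0 : 0 ≤ Real.cosh d * (H - 1) / A :=
    div_nonneg (mul_nonneg (by linarith) (by linarith)) A0.le
  have u1 : Real.cosh d * (H - 1) / A ≤ 1 := by
    rw [div_le_one A0]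
    have h5 : (Real.cosh d * (H - 1)) ^ 2 ≤ A ^ 2 := by
      have := sq_nonneg (Real.sinh d ^ 2 * Real.sin f)
      linarith
    exact le_of_sq_le_sq19 h5 A0.le
  have cb : Real.cos b = Real.cosh d * (H - 1) / A := by
    rw [hb, Real.cos_arccos (by linarith) u1]
  have hb1 : A * Real.cos b = Real.cosh d * (H - 1) := by
    rw [cb]
    field_simp
  have b0 : 0 ≤ b := by rw [hb]; exact Real.arccos_nonneg _
  have b1 : b ≤ Real.pi / 2 := by rw [hb]; exact Real.arccos_le_pi_div_two.2 u0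
  have hb2 : A * Real.sin b = Real.sinh d ^ 2 * Real.sin f := by
    have sb0 : 0 ≤ Real.sin b := Real.sin_nonneg_of_nonneg_of_le_pi b0 (by linarith)
    have h5 : (A * Real.sin b) ^ 2 = (Real.sinh d ^ 2 * Real.sin f) ^ 2 := by
      rw [← key, ← hb1]
      have := Real.sin_sq_add_cos_sq b
      have e : Real.sin b ^ 2 = 1 - Real.cos b ^ 2 := by linarith
      rw [mul_pow, e]
      ring
    exact (sq_eq_sq₀ (mul_nonneg A0.le sb0) (mul_nonneg hS0.le sf0)).1 h5
  have hbase : 2 * b + f ≤ 3 * alpha d := by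
    refine base19 hd f1 f2 b0 b1 ?_
    have e1 : Real.sin f = 2 * Real.sin (f / 2) * Real.cos (f / 2) := by
      have := Real.sin_two_mul (f / 2)
      rw [mul_div_cancel₀ _ (two_ne_zero)] at this
      exact this
    have e2 : Real.cos f = 1 - 2 * Real.sin (f / 2) ^ 2 := by
      have h5 := Real.cos_two_mul (f / 2)
      rw [mul_div_cancel₀ _ (two_ne_zero)] at h5
      have := Real.sin_sq_add_cos_sq (f / 2)
      linarith
    have e3 : A * Real.cos b = 2 * Real.cosh d * Real.sinh d ^ 2 * Real.sin (f / 2) ^ 2 := by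
      rw [hb1, eH, e2, hS]
      ring
    have e4 : A * Real.sin b = 2 * Real.sinh d ^ 2 * Real.sin (f / 2) * Real.cos (f / 2) := by
      rw [hb2, e1]
      ring
    apply mul_left_cancel₀ A0.ne'
    linear_combination Real.cosh d * Real.sin (f / 2) * e4 - Real.cos (f / 2) * e3
  -- (M2)
  have ta1 : alpha d ≤ t1 := le_of_ch19 hd (by rw [← a1]; exact cl h2) t1p
  have ta5 : alpha d ≤ t5 := le_of_ch19 hd (by rw [← a5]; exact cl h4) t5p
  have M2 : m2 ≤ b + t1 - alpha d :=
    m2_19 hd f1 f2 eH A0 hb1 hb2 b0 ta1 (by linarith) m2p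
      (by rw [← a1, hm2, hA, hH]) (by linarith)
  have M3 : m3 ≤ b + t5 - alpha d :=
    m2_19 hd f1 f2 eH A0 hb1 hb2 b0 ta5 (by linarith) m3p
      (by rw [← a5, hm3, hA, hH]) (by linarith)
  have hR' : R = Real.cosh d * H - A * Real.cos m3 := by
    rw [hR, hm3, hA, hH]
  have bm : b ≤ m3 := by
    by_contra hc
    push Not at hc
    have h5 : Real.cos b < Real.cos m3 := Real.cos_lt_cos_of_nonneg_of_le_pi m30 (by linarith) hc
    have h6 := mul_lt_mul_of_pos_left h5 A0
    rw [hb1] at h6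
    linarith
  have hk1 : B * Real.cos k = Real.cosh d * R - H := by
    rw [hB, hR, hH]
    linarith
  have hk2 : B * Real.sin k = A * Real.sin m3 := by
    rw [hB, hA]
    linear_combination Real.sinh d * hks
  have hb5' : B * Real.cos b5 = Real.cosh d * (R - 1) := by
    rw [hB, hR]
    linarith
  -- `k ≤ f`
  have kf : k ≤ f := by
    by_contra hc
    push Not at hc
    have h5 : Real.cos k < Real.cos f := Real.cos_lt_cos_of_nonneg_of_le_pi f0 kp hc
    have h6 := mul_lt_mul_of_pos_left h5 B0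
    rw [hk1] at h6
    have hBS : Real.sinh d ^ 2 ≤ B := by
      rw [hB, sq]
      exact mul_le_mul_of_nonneg_left (sl h4) hs0.le
    have hSf : Real.sinh d ^ 2 * Real.cos f = Real.cosh d ^ 2 - H := by linarith
    have hCR : Real.cosh d * Real.cosh d ≤ Real.cosh d * R :=
      mul_le_mul_of_nonneg_left R1 (by linarith)
    rcases le_total (Real.cos f) 0 with h7 | h7
    · have h8 : B * Real.cos f ≤ Real.sinh d ^ 2 * Real.cos f :=
        mul_le_mul_of_nonpos_right hBS h7
      rw [hSf] at h8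
      have h9 : Real.cosh d ^ 2 = Real.cosh d * Real.cosh d := sq _
      linarith
    · have hBC : B ≤ Real.cosh d * R - 1 := by
        have h8 : B ^ 2 ≤ (Real.cosh d * R - 1) ^ 2 := by
          have e : B ^ 2 = (Real.cosh d ^ 2 - 1) * (R ^ 2 - 1) := by
            rw [hB, hR, mul_pow, sinhsq_19 r4, hS]
          have e2 : (Real.cosh d * R - 1) ^ 2 - (Real.cosh d ^ 2 - 1) * (R ^ 2 - 1) =
              (Real.cosh d - R) ^ 2 := by ring
          have e3 := sq_nonneg (Real.cosh d - R)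
          rw [e]
          linarith
        have h9 : 1 ≤ Real.cosh d * Real.cosh d := one_le_mul_of_one_le_of_one_le hC.le hC.le
        exact le_of_sq_le_sq19 h8 (by linarith)
      have h9 : (B - Real.sinh d ^ 2) * Real.cos f ≤ (B - Real.sinh d ^ 2) * 1 :=
        mul_le_mul_of_nonneg_left (Real.cos_le_one f) (by linarith)
      have h10 : (B - Real.sinh d ^ 2) * Real.cos f = B * Real.cos f - (Real.cosh d ^ 2 - H) := by
        rw [← hSf]
        ring
      rw [h10] at h9
      linarith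
  have M4 := m4_19 hd f1 f2 eH hb1 hb2 hR' bm (by linarith) B0 hk1 hk2 hb5' kf b5p
  constructor <;> linarith

end

end Pool.Agent.PEN
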