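import Pool.Agent.E5.SF54
import Pool.Agent.E5.Mx15

/-! # PENNY, all small diameters: the fan lemma with stopper pairs

For a set `S` of sectors of a black face `K`, a stopper is a sector of `S` or a sector with run at
least three. If `S` has at least two elements, then
`2 |kS K| - 3 tK + |S| + (number of pairs of consecutive stoppers) ≤ sum over S of (4 - run)`. -/

set_option autoImplicit false

namespace Pool.Agent.PEN.E5

open Classical UpperHalfPlane
open Pool.Agent.PEN.Cl

section abstractpart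

variable {α : Type}

theorem iter_mem2 {S : Finset α} {nx : α → α} (hm : ∀ x ∈ S, nx x ∈ S) {x : α} (hx : x ∈ S) :
    ∀ n, nx^[n] x ∈ S := by
  intro n
  induction n with
  | zero => exact hx
  | succ n ih =>
    rw [Function.iterate_succ_apply']
    exact hm _ ih

theorem iter_inj2 {S : Finset α} {nx : α → α} (hm : ∀ x ∈ S, nx x ∈ S) (hi : Set.InjOn nx S)
    (n : ℕ) : ∀ {x y : α}, x ∈ S → y ∈ S → nx^[n] x = nx^[n] y → x = y := by
  induction n with
  | zero => exact fun _ _ h => h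
  | succ n ih =>
    intro x y hx hy h
    rw [Function.iterate_succ_apply', Function.iterate_succ_apply'] at h
    exact ih hx hy (hi (iter_mem2 hm hx n) (iter_mem2 hm hy n) h)

/-- every element comes back -/
theorem iter_per2 {S : Finset α} {nx : α → α} (hm : ∀ x ∈ S, nx x ∈ S) (hi : Set.InjOn nx S)
    {x : α} (hx : x ∈ S) : ∃ k, 1 ≤ k ∧ nx^[k] x = x := by
  have hlt : S.card < (Finset.range (S.card + 1)).card := by
    rw [Finset.card_range]
    omega
  obtain ⟨i, _, j, _, hne, he⟩ := Finset.exists_ne_map_eq_of_card_lt_of_maps_to hlt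
    (f := fun n => nx^[n] x) (fun n _ => iter_mem2 hm hx n)
  have key : ∀ a b : ℕ, a < b → nx^[a] x = nx^[b] x → ∃ k, 1 ≤ k ∧ nx^[k] x = x := by
    intro a b hab h
    obtain ⟨k, rfl⟩ := Nat.exists_eq_add_of_lt hab
    refine ⟨k + 1, by omega, ?_⟩
    have h1 : nx^[a] x = nx^[a] (nx^[k + 1] x) := by
      rw [h, ← Function.iterate_add_apply]
      rfl
    exact (iter_inj2 hm hi a hx (iter_mem2 hm hx _) h1).symm
  rcases Nat.lt_or_gt_of_ne hne with h | h
  · exact key i j h he
  · exact key j i h he.symm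

/-- **walks**: `O` a set, `P` the set of sectors to walk through; every walk from `O` through `P`
ends in `T` (not in `O`, not in `P`); a stopper after a stopper is not reached -/
theorem walk_card2 {S O P T R : Finset α} {nx : α → α} (hR : ∀ z, z ∈ R ↔ z ∈ T ∧ nx z ∈ T)
    (hm : ∀ x ∈ S, nx x ∈ S)
    (hi : Set.InjOn nx S) (hO : O ⊆ S) (hOP : ∀ x ∈ O, x ∉ P)
    (hT : ∀ x ∈ S, x ∉ P → x ∉ O → x ∈ T) (hTO : ∀ x ∈ T, x ∉ O) (hTP : ∀ x ∈ T, x ∉ P)
    (hTS : T ⊆ S)
    (hw : ∀ x ∈ O, ∀ m, 1 ≤ m → (∀ i, 1 ≤ i → i < m → nx^[i] x ∈ P) → nx^[m] x ∉ O) :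
    O.card + R.card ≤ T.card := by
  -- the length of the walk
  have hex : ∀ x ∈ O, ∃ m, 1 ≤ m ∧ nx^[m] x ∉ P := by
    intro x hx
    obtain ⟨k, hk1, hk2⟩ := iter_per2 hm hi (hO hx)
    exact ⟨k, hk1, by rw [hk2]; exact hOP x hx⟩
  set L : α → ℕ := fun x => if h : ∃ m, 1 ≤ m ∧ nx^[m] x ∉ P then Nat.find h else 0 with hL
  have hL1 : ∀ x ∈ O, 1 ≤ L x ∧ nx^[L x] x ∉ P := by
    intro x hx
    have h := hex x hx
    have e : L x = Nat.find h := by
      rw [hL]
      dsimp only
      rw [dif_pos h]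
    rw [e]
    exact Nat.find_spec h
  have hL2 : ∀ x ∈ O, ∀ i, 1 ≤ i → i < L x → nx^[i] x ∈ P := by
    intro x hx i h1 h2
    have h := hex x hx
    have e : L x = Nat.find h := by
      rw [hL]
      dsimp only
      rw [dif_pos h]
    rw [e] at h2
    have h3 := Nat.find_min h h2
    by_contra h4
    exact h3 ⟨h1, h4⟩
  have hL3 : ∀ x ∈ O, nx^[L x] x ∈ T := by
    intro x hx
    obtain ⟨h1, h2⟩ := hL1 x hx
    exact hT _ (iter_mem2 hm (hO hx) _) h2 (hw x hx _ h1 (hL2 x hx))
  -- the heads of the pairs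
  set Q := R.image nx with hQ
  have hQc : Q.card = R.card := by
    rw [hQ]
    apply Finset.card_image_of_injOn
    intro a ha b hb h
    exact hi (hTS ((hR a).1 (Finset.mem_coe.1 ha)).1)
      (hTS ((hR b).1 (Finset.mem_coe.1 hb)).1) h
  have hQT : Q ⊆ T := by
    intro y hy
    obtain ⟨z, hz, rfl⟩ := Finset.mem_image.1 hy
    exact ((hR z).1 hz).2
  have hmap : ∀ x ∈ O, nx^[L x] x ∈ T \ Q := by
    intro x hx
    rw [Finset.mem_sdiff]
    refine ⟨hL3 x hx, fun hq => ?_⟩
    obtain ⟨z, hz, he⟩ := Finset.mem_image.1 hq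
    have hzT := ((hR z).1 hz).1
    obtain ⟨h1, _⟩ := hL1 x hx
    obtain ⟨n, hn⟩ := Nat.exists_eq_add_of_le h1
    have h3 : nx (nx^[n] x) = nx^[L x] x := by
      rw [hn, ← Function.iterate_succ_apply' nx n x, Nat.succ_eq_add_one, add_comm]
    have h4 : z = nx^[n] x := hi (hTS hzT) (iter_mem2 hm (hO hx) n) (he.trans h3.symm)
    rcases Nat.eq_zero_or_pos n with h5 | h5
    · rw [h5] at h4
      have h6 : z = x := h4
      rw [h6] at hzT
      exact hTO x hzT hx
    · have h6 := hL2 x hx n h5 (by omega)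
      rw [← h4] at h6
      exact hTP z hzT h6
  have hinj : Set.InjOn (fun x => nx^[L x] x) (O : Set α) := by
    have key : ∀ x ∈ O, ∀ y ∈ O, L x ≤ L y → nx^[L x] x = nx^[L y] y → x = y := by
      intro x hx y hy hle h
      obtain ⟨k, hk⟩ := Nat.exists_eq_add_of_le hle
      have h1 : nx^[L x] x = nx^[L x] (nx^[k] y) := by
        rw [h, ← Function.iterate_add_apply, ← hk]
      have h2 := iter_inj2 hm hi (L x) (hO hx) (iter_mem2 hm (hO hy) k) h1
      rcases Nat.eq_zero_or_pos k with h3 | h3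
      · rw [h3] at h2
        exact h2
      · have h4 := hL2 y hy k h3 (by have := (hL1 x hx).1; omega)
        rw [← h2] at h4
        exact absurd h4 (hOP x hx)
    intro x hx y hy h
    rcases le_total (L x) (L y) with h1 | h1
    · exact key x hx y hy h1 h
    · exact (key y hy x hx h1 h.symm).symm
  have h1 := Finset.card_le_card_of_injOn (fun x => nx^[L x] x) hmap hinj
  have h2 := Finset.card_sdiff_add_card_eq_card hQT
  omega

end abstractpart

noncomputable section

variable {V : Type} (G : Tg V) {al : ℝ} {kp : V → V → ℝ} {U : ℕ → ℝ}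

theorem iter_SD2 (hG : G.Geo4 al kp U) {x : V × V} (hx : x ∈ SD G) (n : ℕ) :
    (nx G)^[n] x ∈ SD G ∧ ku G ((nx G)^[n] x) = ku G x := by
  induction n with
  | zero => exact ⟨hx, rfl⟩
  | succ n ih =>
    rw [Function.iterate_succ_apply']
    obtain ⟨h1, h2⟩ := nx_ku63 G hG ih.1
    exact ⟨h1, h2.trans ih.2⟩

/-- **the pattern lemma**: runs `1, 2, …, 2, 1` of consecutive sectors: the black face is the fan of
the point `x.1`, it has only one more sector -/
theorem pattern2 (hG : G.Geo4 al kp U) {x : V × V} (hx : x ∈ SD G) (h1 : rn G x = 1) {m : ℕ}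
    (hm : 1 ≤ m) (h2 : ∀ i, 1 ≤ i → i < m → rn G ((nx G)^[i] x) = 2)
    (h3 : rn G ((nx G)^[m] x) = 1) :
    (∀ y ∈ kS G (ku G x), ∃ i ≤ m + 1, y = (nx G)^[i] x) ∧
      (nx G)^[m + 1] x = (((nx G)^[m] x).2, x.1) := by
  set z : ℕ → V × V := fun i => (nx G)^[i] x with hz
  have z0 : z 0 = x := rfl
  have zs : ∀ i, z (i + 1) = nx G (z i) := fun i => Function.iterate_succ_apply' (nx G) i x
  have zS : ∀ i, z i ∈ SD G := fun i => (iter_SD2 G hG hx i).1
  -- the apex
  have ha : ∀ i, i < m → (z (i + 1)).1 = (z i).2 ∧ G.ap (z (i + 1)).2 (z (i + 1)).1 = x.1 ∧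
      tt G ((z (i + 1)).2, (z (i + 1)).1) := by
    intro i
    induction i with
    | zero =>
      intro _
      obtain ⟨e1, e2, e3, e4, _⟩ := last54 G hG (zS 0) (zs 0).symm (by rw [z0, h1]; omega)
      rw [z0, h1] at e3
      have e5 : x.1 = G.ap (z (0 + 1)).2 (z (0 + 1)).1 := e3
      exact ⟨e1.symm, e5.symm, e4⟩
    | succ i ih =>
      intro hi
      obtain ⟨k1, k2, k3⟩ := ih (by omega)
      have h4 := h2 (i + 1) (by omega) (by omega)
      obtain ⟨e1, e2, e3, e4, _⟩ := last54 G hG (zS (i + 1)) (zs (i + 1)).symm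
        (by rw [hz] at *; dsimp only at *; omega)
      have h5 : rn G (z (i + 1)) = 2 := h4
      rw [h5] at e3
      have e6 : G.ap (z (i + 1 + 1)).1 (z (i + 1)).1 = G.ap (z (i + 1 + 1)).2 (z (i + 1 + 1)).1 := e3
      have e7 : G.ap (z (i + 1)).2 (z (i + 1)).1 = G.ap (z (i + 1 + 1)).2 (z (i + 1 + 1)).1 := by
        rw [← e6, e1]
      exact ⟨e1.symm, by rw [← e7, k2], e4⟩
  -- the last step
  have hl : z (m + 1) = ((z m).2, x.1) := by
    obtain ⟨n, rfl⟩ : ∃ n, m = n + 1 := ⟨m - 1, by omega⟩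
    obtain ⟨k1, k2, k3⟩ := ha n (by omega)
    rw [zs (n + 1), nx_of54 G hG (zS (n + 1))]
    have h5 : rn G (z (n + 1)) = 1 := h3
    rw [h5, Function.iterate_one, k2]
  refine ⟨?_, hl⟩
  -- the closed set
  set F : Set (V × V) := {a | (∃ i ≤ m, a = (x.1, (z i).2) ∨ a = ((z i).2, x.1)) ∨
    (∃ i < m, a = z (i + 1) ∨ a = ((z (i + 1)).2, (z (i + 1)).1))} with hF
  have hxF : x ∈ F := Or.inl ⟨0, by omega, Or.inl rfl⟩
  have hs : ∀ a ∈ F, (a.2, a.1) ∈ F := by
    rintro a (⟨i, hi, h | h⟩ | ⟨i, hi, h | h⟩)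
    · rw [h]; exact Or.inl ⟨i, hi, Or.inr rfl⟩
    · rw [h]; exact Or.inl ⟨i, hi, Or.inl rfl⟩
    · rw [h]; exact Or.inr ⟨i, hi, Or.inr rfl⟩
    · rw [h]; exact Or.inr ⟨i, hi, Or.inl rfl⟩
  have nS : ∀ a ∈ SD G, ¬ tt G a := fun a h => ((mem_SD42 G).1 h).2
  have hr : ∀ a ∈ F, tt G a → (a.2, G.ap a.1 a.2) ∈ F := by
    rintro a (⟨i, hi, h | h⟩ | ⟨i, hi, h | h⟩) hT
    · -- `(x.1, q i)`
      rw [h] at hT ⊢
      rcases i with _ | i
      · exact absurd hT (nS x hx)
      · obtain ⟨k1, k2, k3⟩ := ha i (by omega)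
        have r := G.ap4 _ _ k3.1
        dsimp only at r ⊢
        rw [k2] at r
        rw [r]
        exact Or.inr ⟨i, by omega, Or.inr rfl⟩
    · rw [h] at hT ⊢
      rcases Nat.lt_or_ge i m with h4 | h4
      · obtain ⟨k1, k2, k3⟩ := ha i h4
        have r := G.ap3 _ _ k3.1
        rw [k2, k1] at r
        rw [r]
        exact Or.inl ⟨i + 1, by omega, Or.inl rfl⟩
      · have e : i = m := by omega
        rw [e, ← hl] at hT
        exact absurd hT (nS _ (zS _))
    · rw [h] at hT
      exact absurd hT (nS _ (zS _))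
    · obtain ⟨k1, k2, k3⟩ := ha i hi
      rw [h]
      dsimp only
      rw [k2, k1]
      exact Or.inl ⟨i, by omega, Or.inr rfl⟩
  intro y hy
  obtain ⟨hy1, hy2⟩ := (mem_kS42 G).1 hy
  have hyn := nS y hy1
  rcases closed54 G hs hr hxF hy2 with ⟨i, hi, h | h⟩ | ⟨i, hi, h | h⟩
  · rcases i with _ | i
    · exact ⟨0, by omega, h⟩
    · exfalso
      obtain ⟨k1, k2, k3⟩ := ha i (by omega)
      have r := tt_rot42' G k3
      dsimp only at r
      rw [k2] at r
      rw [h] at hyn
      exact hyn r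
  · rcases Nat.lt_or_ge i m with h4 | h4
    · exfalso
      obtain ⟨k1, k2, k3⟩ := ha i h4
      have r := tt_rot42 G k3
      dsimp only at r
      rw [k2, k1] at r
      rw [h] at hyn
      exact hyn r
    · have e : i = m := by omega
      refine ⟨m + 1, le_refl _, ?_⟩
      rw [h, e, ← hl]
  · exact ⟨i + 1, by omega, h⟩
  · exfalso
    obtain ⟨k1, k2, k3⟩ := ha i hi
    rw [h] at hyn
    exact hyn k3

/-- the stoppers of a black face: the sectors of `S` and the runs at least three -/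
def st2 (K : (cg G).ConnectedComponent) (S : Finset (V × V)) : Finset (V × V) :=
  (kS G K).filter (fun x => x ∈ S ∨ 3 ≤ rn G x)

/-- the pairs of consecutive stoppers -/
def pr2 (K : (cg G).ConnectedComponent) (S : Finset (V × V)) : Finset (V × V) :=
  (st2 G K S).filter (fun x => nx G x ∈ st2 G K S)

theorem mem_st2 {K : (cg G).ConnectedComponent} {S : Finset (V × V)} {x : V × V} :
    x ∈ st2 G K S ↔ x ∈ kS G K ∧ (x ∈ S ∨ 3 ≤ rn G x) := by
  unfold st2
  rw [Finset.mem_filter]

theorem mem_pr2 {K : (cg G).ConnectedComponent} {S : Finset (V × V)} {x : V × V} :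
    x ∈ pr2 G K S ↔ x ∈ st2 G K S ∧ nx G x ∈ st2 G K S := by
  unfold pr2
  rw [Finset.mem_filter]

/-- **ears**: without the pattern `1, 2, …, 2, 1` outside `S` the ears outside `S` are at most the
stoppers without predecessor -/
theorem ears2 (hG : G.Geo4 al kp U) (K : (cg G).ConnectedComponent) {S : Finset (V × V)}
    (hno : ∀ x ∈ kS G K, ∀ m, 1 ≤ m → x ∉ S → rn G x = 1 →
      (∀ i, 1 ≤ i → i < m → (nx G)^[i] x ∉ S ∧ rn G ((nx G)^[i] x) = 2) →
      (nx G)^[m] x ∉ S → rn G ((nx G)^[m] x) ≠ 1) (hp : ∀ x ∈ kS G K, 1 ≤ rn G x) :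
    ((kS G K).filter (fun x => x ∉ S ∧ rn G x = 1)).card + (pr2 G K S).card ≤
      (st2 G K S).card := by
  have hm : ∀ x ∈ kS G K, nx G x ∈ kS G K := fun x hx => nx_kS89 G hG hx
  have hi : Set.InjOn (nx G) (kS G K) := by
    intro x hx y hy h
    exact nx_inj42 G hG ((mem_kS42 G).1 (Finset.mem_coe.1 hx)).1
      ((mem_kS42 G).1 (Finset.mem_coe.1 hy)).1 h
  refine walk_card2 (fun z => mem_pr2 G (x := z)) (S := kS G K) (O := (kS G K).filter (fun x => x ∉ S ∧ rn G x = 1))
    (P := (kS G K).filter (fun x => x ∉ S ∧ rn G x = 2)) (T := st2 G K S) hm hi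
    (Finset.filter_subset _ _) ?_ ?_ ?_ ?_ ?_ ?_
  · intro x hx h
    have h1 := (Finset.mem_filter.1 hx).2.2
    have h2 := (Finset.mem_filter.1 h).2.2
    omega
  · intro x hx hP hO
    rw [mem_st2]
    refine ⟨hx, ?_⟩
    by_contra hc
    push Not at hc
    have h1 := hp x hx
    rw [Finset.mem_filter] at hP hO
    have h2 : rn G x ≠ 2 := fun h => hP ⟨hx, hc.1, h⟩
    have h3 : rn G x ≠ 1 := fun h => hO ⟨hx, hc.1, h⟩
    omega
  · intro x hx h
    have h1 := ((mem_st2 G).1 hx).2
    have h2 := (Finset.mem_filter.1 h).2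
    rcases h1 with h1 | h1
    · exact h2.1 h1
    · omega
  · intro x hx h
    have h1 := ((mem_st2 G).1 hx).2
    have h2 := (Finset.mem_filter.1 h).2
    rcases h1 with h1 | h1
    · exact h2.1 h1
    · omega
  · exact Finset.filter_subset _ _
  · intro x hx m hm1 hP hO
    obtain ⟨h1, h2, h3⟩ := Finset.mem_filter.1 hx
    obtain ⟨h4, h5, h6⟩ := Finset.mem_filter.1 hO
    refine hno x h1 m hm1 h2 h3 (fun i hi1 hi2 => ?_) h5 h6
    exact (Finset.mem_filter.1 (hP i hi1 hi2)).2

/-- the counting of the runs outside `S` -/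
theorem count_out2 (K : (cg G).ConnectedComponent) {S : Finset (V × V)} (hS : S ⊆ kS G K)
    (hp : ∀ x ∈ kS G K, 1 ≤ rn G x) {e q : ℕ}
    (he : ((kS G K).filter (fun x => x ∉ S ∧ rn G x = 1)).card = e)
    (h : e + q ≤ (st2 G K S).card) :
    ∑ x ∈ kS G K \ S, (2 - (rn G x : ℤ)) + q ≤ S.card := by
  have h1 : (st2 G K S).card = S.card + ((kS G K).filter (fun x => x ∉ S ∧ 3 ≤ rn G x)).card := by
    have : st2 G K S = S ∪ (kS G K).filter (fun x => x ∉ S ∧ 3 ≤ rn G x) := by
      ext x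
      rw [mem_st2, Finset.mem_union, Finset.mem_filter]
      constructor
      · rintro ⟨h1, h2 | h2⟩
        · exact Or.inl h2
        · by_cases h3 : x ∈ S
          · exact Or.inl h3
          · exact Or.inr ⟨h1, h3, h2⟩
      · rintro (h1 | ⟨h1, h2, h3⟩)
        · exact ⟨hS h1, Or.inl h1⟩
        · exact ⟨h1, Or.inr h3⟩
    rw [this, Finset.card_union_of_disjoint]
    rw [Finset.disjoint_left]
    intro x h2 h3
    exact (Finset.mem_filter.1 h3).2.1 h2
  have h2 : ∑ x ∈ kS G K \ S, (2 - (rn G x : ℤ)) ≤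
      ∑ x ∈ kS G K \ S, ((if rn G x = 1 then (1 : ℤ) else 0) - if 3 ≤ rn G x then 1 else 0) := by
    refine Finset.sum_le_sum fun x hx => ?_
    have := hp x (Finset.mem_sdiff.1 hx).1
    split_ifs <;> omega
  have h3 : ∑ x ∈ kS G K \ S, ((if rn G x = 1 then (1 : ℤ) else 0) - if 3 ≤ rn G x then 1 else 0) =
      (e : ℤ) - ((kS G K).filter (fun x => x ∉ S ∧ 3 ≤ rn G x)).card := by
    rw [Finset.sum_sub_distrib, ← Finset.sum_filter, ← Finset.sum_filter, Finset.sum_const,
      Finset.sum_const, nsmul_one, nsmul_one, ← he]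
    have e1 : (kS G K \ S).filter (fun x => rn G x = 1) =
        (kS G K).filter (fun x => x ∉ S ∧ rn G x = 1) := by
      ext x
      rw [Finset.mem_filter, Finset.mem_filter, Finset.mem_sdiff]
      tauto
    have e2 : (kS G K \ S).filter (fun x => 3 ≤ rn G x) =
        (kS G K).filter (fun x => x ∉ S ∧ 3 ≤ rn G x) := by
      ext x
      rw [Finset.mem_filter, Finset.mem_filter, Finset.mem_sdiff]
      tauto
    rw [e1, e2]
  omega

/-- **THE FAN LEMMA** -/
theorem fan2 (hG : G.Geo4 al kp U) (K : (cg G).ConnectedComponent) {S : Finset (V × V)}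
    (hS : S ⊆ kS G K) (h2 : 2 ≤ S.card) :
    2 * ((kS G K).card : ℤ) + S.card + (pr2 G K S).card ≤
      3 * (tK G K : ℤ) + ∑ x ∈ S, (4 - (rn G x : ℤ)) := by
  have hsum : (∑ x ∈ kS G K, (rn G x : ℤ)) = 3 * (tK G K : ℤ) := by
    exact_mod_cast sum_rn63 G hG K
  have hsplit : ∑ x ∈ kS G K \ S, (2 - (rn G x : ℤ)) + ∑ x ∈ S, (2 - (rn G x : ℤ)) =
      ∑ x ∈ kS G K, (2 - (rn G x : ℤ)) := Finset.sum_sdiff hS
  have htot : ∑ x ∈ kS G K, (2 - (rn G x : ℤ)) = 2 * ((kS G K).card : ℤ) - 3 * (tK G K : ℤ) := by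
    rw [Finset.sum_sub_distrib, hsum, Finset.sum_const, nsmul_eq_mul]
    ring
  have h4 : ∑ x ∈ S, (4 - (rn G x : ℤ)) = ∑ x ∈ S, (2 - (rn G x : ℤ)) + 2 * S.card := by
    rw [Finset.sum_sub_distrib, Finset.sum_sub_distrib, Finset.sum_const, Finset.sum_const,
      nsmul_eq_mul, nsmul_eq_mul]
    ring
  obtain ⟨x0, hx0⟩ : S.Nonempty := Finset.card_pos.1 (by omega)
  obtain ⟨hx1, hx2⟩ := (mem_kS42 G).1 (hS hx0)
  rcases Nat.eq_zero_or_pos (rn G x0) with h0 | h0
  · -- a digon
    obtain ⟨d1, d2, d3, d4, d5, d6⟩ := digon54 G hG hx1 h0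
    rw [hx2] at d2 d4
    have hc : (kS G K).card ≤ 2 := by
      rw [d2]
      exact Finset.card_le_two
    have hSe : S = kS G K := Finset.eq_of_subset_of_card_le hS (by omega)
    have hp : (pr2 G K S).card ≤ (kS G K).card :=
      Finset.card_le_card ((Finset.filter_subset _ _).trans (Finset.filter_subset _ _))
    rw [hSe] at h4 h2 ⊢
    rw [hSe] at hp
    rw [h4, htot]
    omega
  · have hp : ∀ x ∈ kS G K, 1 ≤ rn G x := by
      intro x hx
      obtain ⟨k1, k2⟩ := (mem_kS42 G).1 hx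
      have := (rn_pos_all54 G hG hx1 k1 (k2.trans hx2.symm)).not
      omega
    have he := ears2 G hG K (S := S) ?_ hp
    · have := count_out2 G K hS hp rfl he
      omega
    · intro x hx m hm1 hxS hx1' hmid hmS hm1'
      obtain ⟨k1, k2⟩ := (mem_kS42 G).1 hx
      obtain ⟨k3, _⟩ := pattern2 G hG k1 hx1' hm1 (fun i hi1 hi2 => (hmid i hi1 hi2).2) hm1'
      rw [k2] at k3
      -- every element of `S` is the last sector
      have h5 : S ⊆ {(nx G)^[m + 1] x} := by
        intro y hy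
        obtain ⟨i, hi, he⟩ := k3 y (hS hy)
        rw [Finset.mem_singleton, he]
        rcases Nat.lt_or_ge i (m + 1) with h6 | h6
        · exfalso
          rcases Nat.eq_zero_or_pos i with h7 | h7
          · rw [h7] at he
            rw [he] at hy
            exact hxS hy
          · rcases Nat.lt_or_ge i m with h8 | h8
            · rw [he] at hy
              exact (hmid i h7 h8).1 hy
            · have h9 : i = m := by omega
              rw [he, h9] at hy
              exact hmS hy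
        · have h9 : i = m + 1 := by omega
          rw [h9]
      have h6 := Finset.card_le_card h5
      rw [Finset.card_singleton] at h6
      omega

/-- **one stopper**: the same inequality, or the black face is the fan of the head of the stopper -/
theorem fan_one2 (hG : G.Geo4 al kp U) (K : (cg G).ConnectedComponent) {z : V × V}
    (hz : z ∈ kS G K) (ht : 1 ≤ tK G K) :
    2 * ((kS G K).card : ℤ) + 1 + (pr2 G K {z}).card ≤ 3 * (tK G K : ℤ) + (4 - (rn G z : ℤ)) ∨
      (rn G z = tK G K ∧ (kS G K).card = tK G K + 2 ∧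
        ∀ y ∈ kS G K, y ≠ z → 1 ≤ rn G y ∧ rn G y ≤ 2) := by
  have hS : ({z} : Finset (V × V)) ⊆ kS G K := Finset.singleton_subset_iff.2 hz
  obtain ⟨hz1, hz2⟩ := (mem_kS42 G).1 hz
  have h0 : rn G z ≠ 0 := fun h => by
    have := (tK_zero54 G hG hz1).2 h
    rw [hz2] at this
    omega
  have hp : ∀ x ∈ kS G K, 1 ≤ rn G x := by
    intro x hx
    obtain ⟨k1, k2⟩ := (mem_kS42 G).1 hx
    have := (rn_pos_all54 G hG hz1 k1 (k2.trans hz2.symm)).not
    omega
  have hsumN := sum_rn63 G hG K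
  have hsum : (∑ x ∈ kS G K, (rn G x : ℤ)) = 3 * (tK G K : ℤ) := by
    exact_mod_cast hsumN
  have hsplit : ∑ x ∈ kS G K \ {z}, (2 - (rn G x : ℤ)) + ∑ x ∈ ({z} : Finset (V × V)),
      (2 - (rn G x : ℤ)) = ∑ x ∈ kS G K, (2 - (rn G x : ℤ)) := Finset.sum_sdiff hS
  rw [Finset.sum_singleton] at hsplit
  have htot : ∑ x ∈ kS G K, (2 - (rn G x : ℤ)) = 2 * ((kS G K).card : ℤ) - 3 * (tK G K : ℤ) := by
    rw [Finset.sum_sub_distrib, hsum, Finset.sum_const, nsmul_eq_mul]
    ring
  by_cases hpat : ∀ x ∈ kS G K, ∀ m, 1 ≤ m → x ∉ ({z} : Finset (V × V)) → rn G x = 1 →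
      (∀ i, 1 ≤ i → i < m → (nx G)^[i] x ∉ ({z} : Finset (V × V)) ∧
        rn G ((nx G)^[i] x) = 2) →
      (nx G)^[m] x ∉ ({z} : Finset (V × V)) → rn G ((nx G)^[m] x) ≠ 1
  · left
    have he := ears2 G hG K (S := {z}) hpat hp
    have := count_out2 G K hS hp rfl he
    rw [Finset.card_singleton] at this
    omega
  · right
    push Not at hpat
    obtain ⟨x, hx, m, hm1, hxz, hx1, hmid, hmz, hm2⟩ := hpat
    rw [Finset.mem_singleton] at hxz hmz
    obtain ⟨k1, k2⟩ := (mem_kS42 G).1 hx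
    obtain ⟨k3, _⟩ := pattern2 G hG k1 hx1 hm1 (fun i hi1 hi2 => (hmid i hi1 hi2).2) hm2
    rw [k2] at k3
    have hle2 : ∀ y ∈ kS G K, y ≠ z → rn G y ≤ 2 ∧ (y = (nx G)^[m + 1] x → False) := by
      have hzz : z = (nx G)^[m + 1] x := by
        obtain ⟨i, hi, he⟩ := k3 z hz
        rcases Nat.lt_or_ge i (m + 1) with h6 | h6
        · exfalso
          rcases Nat.eq_zero_or_pos i with h7 | h7
          · rw [h7] at he
            exact hxz he.symm
          · rcases Nat.lt_or_ge i m with h8 | h8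
            · exact (hmid i h7 h8).1 (Finset.mem_singleton.2 he.symm)
            · have h9 : i = m := by omega
              rw [h9] at he
              exact hmz he.symm
        · have h9 : i = m + 1 := by omega
          rw [h9] at he
          exact he
      intro y hy hyz
      obtain ⟨i, hi, he⟩ := k3 y hy
      refine ⟨?_, fun h => hyz (h.trans hzz.symm)⟩
      rcases Nat.lt_or_ge i (m + 1) with h6 | h6
      · rcases Nat.eq_zero_or_pos i with h7 | h7
        · rw [h7] at he
          rw [he]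
          have : rn G ((nx G)^[0] x) = 1 := hx1
          omega
        · rcases Nat.lt_or_ge i m with h8 | h8
          · rw [he, (hmid i h7 h8).2]
          · have h9 : i = m := by omega
            rw [he, h9, hm2]
            omega
      · have h9 : i = m + 1 := by omega
        rw [h9] at he
        exact absurd (he.trans hzz.symm) hyz
    -- the two ears are different
    have hne : x ≠ (nx G)^[m] x := by
      intro h
      obtain ⟨i, hi, he⟩ := k3 z hz
      have hnx : nx G x = (nx G)^[m + 1] x := by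
        rw [Function.iterate_succ_apply', ← h]
      have h10 : nx G x ∈ kS G K := nx_kS89 G hG hx
      have h11 : nx G x = z := by
        by_contra hc
        exact (hle2 _ h10 hc).2 hnx
      rcases Nat.lt_or_ge 1 m with h12 | h12
      · exact (hmid 1 le_rfl h12).1 (Finset.mem_singleton.2 h11)
      · have h13 : m = 1 := by omega
        rw [h13] at hmz
        exact hmz h11
    have hyk : (nx G)^[m] x ∈ kS G K := iter_mem2 (fun a ha => nx_kS89 G hG ha) hx m
    set y := (nx G)^[m] x with hy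
    have hcz : ∑ w ∈ (kS G K).erase z, rn G w + rn G z = 3 * tK G K := by
      rw [Finset.sum_erase_add _ _ hz]
      exact hsumN
    have hxe : x ∈ (kS G K).erase z := Finset.mem_erase.2 ⟨hxz, hx⟩
    have hye : y ∈ ((kS G K).erase z).erase x := Finset.mem_erase.2 ⟨hne.symm,
      Finset.mem_erase.2 ⟨hmz, hyk⟩⟩
    have h12 := Finset.sum_erase_add _ (fun w => rn G w) hxe
    have h13 := Finset.sum_erase_add _ (fun w => rn G w) hye
    have h14 : ∑ w ∈ (((kS G K).erase z).erase x).erase y, rn G w ≤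
        ((((kS G K).erase z).erase x).erase y).card • 2 := by
      refine Finset.sum_le_card_nsmul _ _ 2 fun w hw => ?_
      have h15 := Finset.mem_of_mem_erase (Finset.mem_of_mem_erase hw)
      exact (hle2 w (Finset.mem_of_mem_erase h15) (Finset.ne_of_mem_erase h15)).1
    rw [Finset.card_erase_of_mem hye, Finset.card_erase_of_mem hxe,
      Finset.card_erase_of_mem hz, smul_eq_mul] at h14
    have h15 := kS_card63 G K
    have h16 := rn_le_tK63 G hG hz1
    rw [hz2] at h16
    have h17 : 3 ≤ (kS G K).card := by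
      have : ({z, x, y} : Finset (V × V)) ⊆ kS G K := by
        intro w hw
        rw [Finset.mem_insert, Finset.mem_insert, Finset.mem_singleton] at hw
        rcases hw with rfl | rfl | rfl
        · exact hz
        · exact hx
        · exact hyk
      have h18 := Finset.card_le_card this
      rw [Finset.card_eq_three.2 ⟨z, x, y, fun h => hxz h.symm, fun h => hmz h.symm, hne, rfl⟩]
        at h18
      exact h18
    have h19 : rn G x = 1 := hx1
    have h20 : rn G y = 1 := hm2
    refine ⟨by omega, by omega, fun w hw hwz => ⟨hp w hw, (hle2 w hw hwz).1⟩⟩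

/-- the same with the exact price `wx` -/
theorem fan_wx2 (hG : G.Geo4 al kp U) (K : (cg G).ConnectedComponent) {S : Finset (V × V)}
    (hS : S ⊆ kS G K) (h2 : 2 ≤ S.card) :
    wx G 1 K + S.card + (pr2 G K S).card ≤ ∑ x ∈ S, (4 - (rn G x : ℝ)) := by
  have h := fan2 G hG K hS h2
  have h3 : (2 * ((kS G K).card : ℝ) + S.card + (pr2 G K S).card) ≤
      3 * (tK G K : ℝ) + ∑ x ∈ S, (4 - (rn G x : ℝ)) := by
    exact_mod_cast h
  unfold wx
  linarith

end

end Pool.Agent.PEN.E5
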