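import Pool.Agent.E5.Bl85

/-! # PENNY, all small diameters: the fan lemma, inside and at the boundary

`S` is a set of sectors of a black face with inner heads. If `|S| ≥ 2`, or `|S| ≥ 1` and the face has
an outer side, then `Σ_(x ∉ S) (2 - rn x)` is at most `|S|` plus the outer arcs, minus the pairs of
consecutive stoppers. -/

set_option autoImplicit false

namespace Pool.Agent.PEN.E5

open Classical UpperHalfPlane
open Pool.Agent.PEN.Cl

noncomputable section

variable {V : Type} (G : Tg V) {al : ℝ} {kp : V → V → ℝ} {U : ℕ → ℝ}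

/-- neutral visits: two triangles, no outer side, not in `S` -/
def nf85 (S : Finset (V × V)) (x : V × V) : Prop :=
  x ∉ G.oJ ∧ nx G x ∉ G.oJ ∧ rn G x = 2 ∧ x ∉ S

/-- the ears with white outgoing side which are not in `S` -/
def ef85 (K : (cg G).ConnectedComponent) (S : Finset (V × V)) : Finset (V × V) :=
  (kS G K).filter (fun x => rn G x = 1 ∧ nx G x ∉ G.oJ ∧ x ∉ S)

/-- the stoppers with white incoming side -/
def vf85 (K : (cg G).ConnectedComponent) (S : Finset (V × V)) : Finset (V × V) :=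
  (kS G K).filter (fun y => y ∉ G.oJ ∧ (y ∈ S ∨ (nx G y ∈ G.oJ ∧ 2 ≤ rn G y) ∨
    (nx G y ∉ G.oJ ∧ 3 ≤ rn G y)))

/-- the pairs of consecutive stoppers, given by the first one -/
def pf85 (K : (cg G).ConnectedComponent) (S : Finset (V × V)) : Finset (V × V) :=
  (kS G K).filter (fun y => (y ∈ S ∨ 3 ≤ rn G y) ∧ (nx G y ∈ S ∨ 3 ≤ rn G (nx G y)) ∧
    nx G y ∉ G.oJ)

theorem inner_sides85 (hG : G.Geo4 al kp U) {x : V × V} (hx : x ∈ SD G) (hv : x.2 ∈ inN G) :
    x ∉ G.oJ ∧ nx G x ∉ G.oJ := by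
  obtain ⟨h1, h2⟩ := BC_head14 G hG hx hv
  exact ⟨BC_not_oJ85 G h1, BC_not_oJ85 G h2⟩

/-- the first stopper after an ear -/
theorem stop85 (hG : G.Geo4 al kp U) {K : (cg G).ConnectedComponent} {S : Finset (V × V)}
    (hS : S ⊆ kS G K) (hin : ∀ x ∈ S, x.2 ∈ inN G)
    (h : 2 ≤ S.card ∨ (S.Nonempty ∧ ∃ x ∈ kS G K, x ∈ G.oJ)) {e : V × V}
    (he : e ∈ ef85 G K S) : ∃ k, 1 ≤ k ∧ (∀ i, 1 ≤ i → i < k → nf85 G S ((nx G)^[i] e)) ∧
      (nx G)^[k] e ∈ vf85 G K S := by
  obtain ⟨h1, h2, h3, h4⟩ := Finset.mem_filter.1 he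
  have heS := mem_kS89 G h1
  have hex : ∃ k, 1 ≤ k ∧ ¬ nf85 G S ((nx G)^[k] e) := by
    obtain ⟨N, hN, hp⟩ := nx_period18 G hG h1
    refine ⟨N, hN, ?_⟩
    rw [hp]
    rintro ⟨_, _, h5, _⟩
    omega
  obtain ⟨k, hkdef⟩ : ∃ k, k = Nat.find hex := ⟨_, rfl⟩
  have hsp := Nat.find_spec hex
  rw [← hkdef] at hsp
  obtain ⟨k1, k2⟩ := hsp
  have hmin : ∀ i, 1 ≤ i → i < k → nf85 G S ((nx G)^[i] e) := by
    intro i hi1 hi2
    rw [hkdef] at hi2
    have := Nat.find_min hex hi2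
    by_contra hc
    exact this ⟨hi1, hc⟩
  have hmemK : ∀ i, (nx G)^[i] e ∈ kS G K := nxi_mem85 G hG h1
  have hout : ∀ i, 1 ≤ i → i ≤ k → (nx G)^[i] e ∉ G.oJ := by
    intro i hi1 hi2
    obtain ⟨j, rfl⟩ : ∃ j, i = j + 1 := ⟨i - 1, by omega⟩
    rw [Function.iterate_succ_apply']
    rcases j with _ | j
    · exact h3
    · exact (hmin (j + 1) (by omega) (by omega)).2.1
  refine ⟨k, k1, hmin, Finset.mem_filter.2 ⟨hmemK k, hout k k1 le_rfl, ?_⟩⟩
  by_contra hno
  push Not at hno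
  obtain ⟨n1, n2, n3⟩ := hno
  have hpos : 1 ≤ rn G ((nx G)^[k] e) := by
    by_contra hc
    have h5 := (rn_pos_all54 G hG heS (mem_kS89 G (hmemK k))
      (((mem_kS42 G).1 (hmemK k)).2.trans ((mem_kS42 G).1 h1).2.symm)).1 (by omega)
    omega
  have hr1 : rn G ((nx G)^[k] e) = 1 := by
    by_cases h5 : nx G ((nx G)^[k] e) ∈ G.oJ
    · have := n2 h5
      omega
    · have h6 := n3 h5
      by_contra h7
      exact k2 ⟨hout k k1 le_rfl, h5, by omega, n1⟩
  have hfan := fun {y : V × V} (hy : y ∈ kS G K) =>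
    fan85 G hG heS h2 k1 (fun i a b => (hmin i a b).2.2.1) hr1 (mem_kS89 G hy)
      (((mem_kS42 G).1 hy).2.trans ((mem_kS42 G).1 h1).2.symm)
  have hnl : ∀ i ≤ k, (nx G)^[i] e ∉ S := by
    intro i hi
    rcases i with _ | i
    · exact h4
    · rcases Nat.lt_or_ge (i + 1) k with h5 | h5
      · exact (hmin (i + 1) (by omega) h5).2.2.2
      · have : i + 1 = k := by omega
        rw [this]
        exact n1
  have hlastS : ∀ z ∈ S, z = (nx G)^[k + 1] e := by
    intro z hz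
    obtain ⟨i, hi, hzi⟩ := hfan (hS hz)
    have hik : i = k + 1 := by
      by_contra h5
      exact hnl i (by omega) (hzi ▸ hz)
    rw [hzi, hik]
  have hcard : S.card ≤ 1 := by
    rw [Finset.card_le_one]
    intro a ha b hb
    rw [hlastS a ha, hlastS b hb]
  rcases h with h | ⟨⟨z, hz⟩, ho⟩
  · omega
  have hzi := hlastS z hz
  obtain ⟨b1, b2⟩ := inner_sides85 G hG (mem_kS89 G (hS hz)) (hin z hz)
  obtain ⟨j, hj, hzj⟩ := hfan (nx_kS89 G hG (hS hz))
  have hj0 : j = 0 := by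
    by_contra h5
    obtain ⟨m, rfl⟩ : ∃ m, j = m + 1 := ⟨j - 1, by omega⟩
    rw [Function.iterate_succ_apply'] at hzj
    have h6 := nx_inj42 G hG (mem_kS89 G (hS hz)) (mem_kS89 G (hmemK m)) hzj
    exact hnl m (by omega) (h6 ▸ hz)
  rw [hj0] at hzj
  have hee : nx G z = e := hzj
  rw [hee] at b2
  obtain ⟨w, hw, hwo⟩ := ho
  obtain ⟨m, hm, hwm⟩ := hfan hw
  rcases m with _ | m
  · rw [hwm] at hwo
    exact b2 hwo
  · rcases Nat.lt_or_ge (m + 1) (k + 1) with h5 | h5
    · rw [hwm] at hwo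
      exact hout (m + 1) (by omega) (by omega) hwo
    · have : m + 1 = k + 1 := by omega
      rw [hwm, this, ← hzi] at hwo
      exact b1 hwo

theorem card_ef85 (hG : G.Geo4 al kp U) {K : (cg G).ConnectedComponent} {S : Finset (V × V)}
    (hS : S ⊆ kS G K) (hin : ∀ x ∈ S, x.2 ∈ inN G)
    (h : 2 ≤ S.card ∨ (S.Nonempty ∧ ∃ x ∈ kS G K, x ∈ G.oJ)) :
    (ef85 G K S).card + (pf85 G K S).card ≤ (vf85 G K S).card := by
  choose! k hk1 hk2 hk3 using fun (e : V × V) (he : e ∈ ef85 G K S) => stop85 G hG hS hin h he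
  have key : ∀ e ∈ ef85 G K S, ∀ f ∈ ef85 G K S, k e ≤ k f →
      (nx G)^[k e] e = (nx G)^[k f] f → e = f := by
    intro e he f hf hle h
    obtain ⟨m, hm⟩ := Nat.exists_eq_add_of_le hle
    rw [hm, Function.iterate_add_apply] at h
    obtain ⟨e1, e2, _⟩ := Finset.mem_filter.1 he
    obtain ⟨f1, _⟩ := Finset.mem_filter.1 hf
    have h3 := nxi_inj85 G hG (k e) e1 (nxi_mem85 G hG f1 m) h
    rcases m with _ | m
    · exact h3
    · exfalso
      have h4 := (hk2 f hf (m + 1) (by omega) (by have := hk1 e he; omega)).2.2.1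
      rw [← h3] at h4
      omega
  have hinj : Set.InjOn (fun e => (nx G)^[k e] e) (ef85 G K S : Set (V × V)) := by
    intro e he f hf h
    rcases le_total (k e) (k f) with hle | hle
    · exact key e (Finset.mem_coe.1 he) f (Finset.mem_coe.1 hf) hle h
    · exact (key f (Finset.mem_coe.1 hf) e (Finset.mem_coe.1 he) hle h.symm).symm
  have hinj2 : Set.InjOn (nx G) (pf85 G K S : Set (V × V)) := fun a ha b hb h =>
    nx_inj42 G hG (mem_kS89 G (Finset.mem_filter.1 (Finset.mem_coe.1 ha)).1)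
      (mem_kS89 G (Finset.mem_filter.1 (Finset.mem_coe.1 hb)).1) h
  rw [← Finset.card_image_of_injOn hinj, ← Finset.card_image_of_injOn hinj2,
    ← Finset.card_union_of_disjoint]
  · refine Finset.card_le_card fun y hy => ?_
    rcases Finset.mem_union.1 hy with hy | hy
    · obtain ⟨e, he, rfl⟩ := Finset.mem_image.1 hy
      exact hk3 e he
    · obtain ⟨z, hz, rfl⟩ := Finset.mem_image.1 hy
      obtain ⟨z1, _, z3, z4⟩ := Finset.mem_filter.1 hz
      refine Finset.mem_filter.2 ⟨nx_kS89 G hG z1, z4, ?_⟩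
      rcases z3 with z3 | z3
      · exact Or.inl z3
      · by_cases h5 : nx G (nx G z) ∈ G.oJ
        · exact Or.inr (Or.inl ⟨h5, by omega⟩)
        · exact Or.inr (Or.inr ⟨h5, z3⟩)
  · rw [Finset.disjoint_left]
    intro y hy1 hy2
    obtain ⟨e, he, rfl⟩ := Finset.mem_image.1 hy1
    obtain ⟨z, hz, hze⟩ := Finset.mem_image.1 hy2
    obtain ⟨z1, z2, _, _⟩ := Finset.mem_filter.1 hz
    obtain ⟨e1, e2, _, e4⟩ := Finset.mem_filter.1 he
    obtain ⟨j, hj⟩ : ∃ j, k e = j + 1 := ⟨k e - 1, by have := hk1 e he; omega⟩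
    rw [hj, Function.iterate_succ_apply'] at hze
    have h6 := nx_inj42 G hG (mem_kS89 G z1) (mem_kS89 G (nxi_mem85 G hG e1 j)) hze
    rcases j with _ | j
    · have h7 : z = e := h6
      rw [h7] at z2
      rcases z2 with z2 | z2
      · exact e4 z2
      · omega
    · have h7 := hk2 e he (j + 1) (by omega) (by omega)
      rw [← h6] at h7
      obtain ⟨_, _, h8, h9⟩ := h7
      rcases z2 with z2 | z2
      · exact h9 z2
      · omega

/-- **the fan lemma** -/
theorem fanB85 (hG : G.Geo4 al kp U) {K : (cg G).ConnectedComponent} {S : Finset (V × V)}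
    (hS : S ⊆ kS G K) (hin : ∀ x ∈ S, x.2 ∈ inN G)
    (h : 2 ≤ S.card ∨ (S.Nonempty ∧ ∃ x ∈ kS G K, x ∈ G.oJ)) (ht : 1 ≤ tK G K) :
    wx G 1 K + F14 G K + Z14 G K + (pf85 G K S).card ≤
      ∑ x ∈ S, ((3 : ℝ) - rn G x) + a85 G K + j85 G K := by
  have hcard := card_ef85 G hG hS hin h
  have hpos : ∀ x ∈ kS G K, 1 ≤ rn G x := by
    intro x hx
    obtain ⟨h5, h6⟩ := (mem_kS42 G).1 hx
    have h7 := tK_zero54 G hG h5
    rw [h6] at h7
    by_contra hno
    have := h7.2 (by omega)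
    omega
  have hZ : Z14 G K = 0 := by
    unfold Z14 fv14
    rw [Finset.card_eq_zero, Finset.filter_eq_empty_iff]
    intro x hx h0
    have := hpos x (Finset.mem_filter.1 hx).1
    omega
  have hsum : wx G 1 K + F14 G K - ∑ x ∈ S, ((3 : ℝ) - rn G x) - a85 G K - j85 G K =
      ∑ x ∈ kS G K, (((2 : ℝ) - rn G x) -
        (if x ∈ S then (3 : ℝ) - rn G x else 0) +
        (if (x ∈ G.oJ ∧ nx G x ∈ G.oJ) ∧ 3 ≤ rn G x then (1 : ℝ) else 0) -
        (if x ∉ G.oJ ∧ nx G x ∈ G.oJ then (1 : ℝ) else 0) -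
        (if (x ∈ G.oJ ∧ nx G x ∈ G.oJ) ∧ rn G x = 1 then (1 : ℝ) else 0)) := by
    have e0 := wx_sum85 G hG K
    rw [Finset.sum_sub_distrib] at e0
    have e00 : ∑ x ∈ kS G K, (((2 : ℝ) - rn G x) -
        (if x ∈ S then (3 : ℝ) - rn G x else 0) +
        (if (x ∈ G.oJ ∧ nx G x ∈ G.oJ) ∧ 3 ≤ rn G x then (1 : ℝ) else 0) -
        (if x ∉ G.oJ ∧ nx G x ∈ G.oJ then (1 : ℝ) else 0) -
        (if (x ∈ G.oJ ∧ nx G x ∈ G.oJ) ∧ rn G x = 1 then (1 : ℝ) else 0)) =
      wx G 1 K - ∑ x ∈ kS G K, (if x ∈ S then (3 : ℝ) - rn G x else 0) +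
        ∑ x ∈ kS G K, (if (x ∈ G.oJ ∧ nx G x ∈ G.oJ) ∧ 3 ≤ rn G x then (1 : ℝ) else 0) -
        ∑ x ∈ kS G K, (if x ∉ G.oJ ∧ nx G x ∈ G.oJ then (1 : ℝ) else 0) -
        ∑ x ∈ kS G K, (if (x ∈ G.oJ ∧ nx G x ∈ G.oJ) ∧ rn G x = 1 then (1 : ℝ) else 0) := by
      rw [e0]
      simp only [Finset.sum_sub_distrib, Finset.sum_add_distrib]
    rw [e00, Finset.sum_boole, Finset.sum_boole, Finset.sum_boole, ← Finset.sum_filter]
    have e1 : (kS G K).filter (fun x => x ∈ S) = S := by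
      ext y
      rw [Finset.mem_filter]
      exact ⟨fun h => h.2, fun h => ⟨hS h, h⟩⟩
    have e2 : ((kS G K).filter (fun x => (x ∈ G.oJ ∧ nx G x ∈ G.oJ) ∧ 3 ≤ rn G x)).card =
        F14 G K := by
      unfold F14 fv14
      rw [Finset.filter_filter]
    have e3 : ((kS G K).filter (fun x => (x ∈ G.oJ ∧ nx G x ∈ G.oJ) ∧ rn G x = 1)).card =
        j85 G K := by
      unfold j85 fv14
      rw [Finset.filter_filter]
    have e4 : ((kS G K).filter (fun x => x ∉ G.oJ ∧ nx G x ∈ G.oJ)).card = a85 G K := rfl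
    rw [e1, e2, e3, e4]
    ring
  have hfin : ∑ x ∈ kS G K, (((2 : ℝ) - rn G x) -
        (if x ∈ S then (3 : ℝ) - rn G x else 0) +
        (if (x ∈ G.oJ ∧ nx G x ∈ G.oJ) ∧ 3 ≤ rn G x then (1 : ℝ) else 0) -
        (if x ∉ G.oJ ∧ nx G x ∈ G.oJ then (1 : ℝ) else 0) -
        (if (x ∈ G.oJ ∧ nx G x ∈ G.oJ) ∧ rn G x = 1 then (1 : ℝ) else 0)) ≤
      ∑ x ∈ kS G K, ((if rn G x = 1 ∧ nx G x ∉ G.oJ ∧ x ∉ S then (1 : ℝ) else 0) -
        (if x ∉ G.oJ ∧ (x ∈ S ∨ (nx G x ∈ G.oJ ∧ 2 ≤ rn G x) ∨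
          (nx G x ∉ G.oJ ∧ 3 ≤ rn G x)) then (1 : ℝ) else 0)) := by
    refine Finset.sum_le_sum fun x hx => ?_
    have h1 : (1 : ℝ) ≤ rn G x := by exact_mod_cast hpos x hx
    have hN := hpos x hx
    by_cases hLf : x ∈ S
    · obtain ⟨b1, b2⟩ := inner_sides85 G hG (mem_kS89 G hx) (hin x hLf)
      simp only [hLf, b1, b2, not_true_eq_false, and_false, false_and, if_false, if_true,
        not_false_eq_true, true_and, true_or]
      linarith
    · by_cases hx1 : x ∈ G.oJ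
      · by_cases hx2 : nx G x ∈ G.oJ
        · simp only [hLf, hx1, hx2, not_true_eq_false, and_false, false_and, if_false, true_and,
            and_self]
          rcases Nat.lt_or_ge (rn G x) 3 with h3 | h3
          · have h4 : rn G x = 1 ∨ rn G x = 2 := by omega
            rcases h4 with h4 | h4
            · rw [h4]; norm_num
            · rw [h4]; norm_num
          · have h4 : (3 : ℝ) ≤ rn G x := by exact_mod_cast h3
            rw [if_pos h3, if_neg (by omega)]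
            linarith
        · simp only [hLf, hx1, hx2, not_true_eq_false, and_false, false_and, if_false, true_and,
            and_true, not_false_eq_true]
          rcases Nat.lt_or_ge (rn G x) 2 with h3 | h3
          · have h4 : rn G x = 1 := by omega
            rw [h4]; norm_num
          · have h4 : (2 : ℝ) ≤ rn G x := by exact_mod_cast h3
            rw [if_neg (by omega : ¬ rn G x = 1)]
            linarith
      · by_cases hx2 : nx G x ∈ G.oJ
        · simp only [hLf, hx1, hx2, not_true_eq_false, and_false, false_and, if_false, true_and,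
            and_true, not_false_eq_true, if_true, or_false, false_or]
          rcases Nat.lt_or_ge (rn G x) 2 with h3 | h3
          · have h4 : rn G x = 1 := by omega
            rw [h4]; norm_num
          · have h4 : (2 : ℝ) ≤ rn G x := by exact_mod_cast h3
            rw [if_pos h3]
            linarith
        · simp only [hLf, hx1, hx2, and_false, false_and, if_false, true_and,
            and_true, not_false_eq_true, false_or]
          rcases Nat.lt_or_ge (rn G x) 3 with h3 | h3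
          · have h4 : rn G x = 1 ∨ rn G x = 2 := by omega
            rcases h4 with h4 | h4
            · rw [h4]; norm_num
            · rw [h4]; norm_num
          · have h4 : (3 : ℝ) ≤ rn G x := by exact_mod_cast h3
            rw [if_pos h3, if_neg (by omega : ¬ rn G x = 1)]
            linarith
  have hval : ∑ x ∈ kS G K, ((if rn G x = 1 ∧ nx G x ∉ G.oJ ∧ x ∉ S then (1 : ℝ) else 0) -
        (if x ∉ G.oJ ∧ (x ∈ S ∨ (nx G x ∈ G.oJ ∧ 2 ≤ rn G x) ∨
          (nx G x ∉ G.oJ ∧ 3 ≤ rn G x)) then (1 : ℝ) else 0)) =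
      ((ef85 G K S).card : ℝ) - (vf85 G K S).card := by
    rw [Finset.sum_sub_distrib, Finset.sum_boole, Finset.sum_boole]
    rfl
  have hc : ((ef85 G K S).card : ℝ) + (pf85 G K S).card ≤ (vf85 G K S).card := by
    exact_mod_cast hcard
  rw [hZ]
  push_cast
  linarith

/-- the fan lemma for a black face without outer side -/
theorem fanI85 (hG : G.Geo4 al kp U) {K : (cg G).ConnectedComponent} {S : Finset (V × V)}
    (hS : S ⊆ kS G K) (hin : ∀ x ∈ S, x.2 ∈ inN G) (h : 2 ≤ S.card) (ht : 1 ≤ tK G K)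
    (ho : ∀ x ∈ kS G K, x ∉ G.oJ) :
    wx G 1 K + (pf85 G K S).card ≤ ∑ x ∈ S, ((3 : ℝ) - rn G x) := by
  have h1 := fanB85 G hG hS hin (Or.inl h) ht
  have h2 : a85 G K = 0 := by
    unfold a85
    rw [Finset.card_eq_zero, Finset.filter_eq_empty_iff]
    exact fun x hx h3 => ho _ (nx_kS89 G hG hx) h3.2
  have h4 : fv14 G K = ∅ := by
    unfold fv14
    rw [Finset.filter_eq_empty_iff]
    exact fun x hx h3 => ho x hx h3.1
  have h5 : j85 G K = 0 := by
    unfold j85
    rw [h4]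
    rfl
  have h6 : F14 G K = 0 := by
    unfold F14
    rw [h4]
    rfl
  have h7 : Z14 G K = 0 := by
    unfold Z14
    rw [h4]
    rfl
  rw [h2, h5, h6, h7] at h1
  push_cast at h1
  linarith

end

end Pool.Agent.PEN.E5
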