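import Pool.Agent.E5.Top71
import Pool.Agent.P4.Fin56

/-! # PENNY: Q1 for all diameters from the target row below 0.356 -/

set_option autoImplicit false

namespace Pool.Agent.PEN.E5

open Classical UpperHalfPlane
open Pool.Agent.PEN.Cl

noncomputable section

theorem cosh_le71 {d : ℝ} (hd : 0 < d) (h : d < 89 / 250) : Real.cosh d ≤ 611 / 500 := by
  have h1 := Real.cosh_le_exp_half_sq d
  have h2 : Real.exp (d ^ 2 / 2) ≤ 611 / 500 := by
    have h3 := Real.add_one_le_exp (-(d ^ 2 / 2))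
    have h4 : d ^ 2 ≤ (89 / 250) ^ 2 := pow_le_pow_left₀ hd.le h.le 2
    have h5 : (9 / 10 : ℝ) ≤ Real.exp (-(d ^ 2 / 2)) := by
      norm_num at h4
      linarith
    rw [Real.exp_neg] at h5
    have h6 := Real.exp_pos (d ^ 2 / 2)
    have h7 : Real.exp (d ^ 2 / 2) * (Real.exp (d ^ 2 / 2))⁻¹ = 1 := mul_inv_cancel₀ h6.ne'
    nlinarith
  exact h1.trans h2

/-- **Q1 for all diameters** from the target row -/
theorem q1_all71
    (hrow : ∀ d : ℝ, 0 < d → d < 89 / 250 → ∀ G : Tg ℍ, G.Geo4 (alpha d) kap (Ust69 d) →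
      DelG G d → HullT G → Sep d G.P → 98 ≤ G.P.card → Target71 G (alpha d))
    {e d : ℝ} (he : 0 < e) (ha : alpha e = 2 * Real.pi / 7) (hd : 0 < d) (n : ℕ) :
    eD d n ≤ eD e n := by
  rcases lt_or_ge d (89 / 250) with h | h
  · exact q1_E71 he ha hd (cosh_le71 hd h)
      (fun G hG hD hH hS hn => hrow d hd h G hG hD hH hS hn) n
  · exact q1_v6_56 he ha hd (Or.inr h)

end

end Pool.Agent.PEN.E5
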