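import Pool.Agent.E5.Fin71

/-! # PENNY, version 7: from the row and its numerics to Q1 (combination of the ranges) -/

set_option autoImplicit false

namespace Pool.Agent.PEN.E5

open Classical UpperHalfPlane
open Pool.Agent.PEN.Cl

noncomputable section

/-- **Q1 at one diameter with `cosh d ≤ 1.222` and at most `N` points**, from the bound of the
contact darts for the configurations with at least 98 and at most `N` points -/
theorem q1_dN71 {e d : ℝ} (he : 0 < e) (ha : alpha e = 2 * Real.pi / 7) (hd : 0 < d)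
    (hC : Real.cosh d ≤ 611 / 500) (N : ℕ)
    (hrow : ∀ G : Tg ℍ, G.Geo4 (alpha d) kap (Ust69 d) → DelG G d → HullT G → Sep d G.P →
      98 ≤ G.P.card → G.P.card ≤ N → (G.D.filter (fun x => G.con x.1 x.2)).card ≤ 2 * Lb G.P.card)
    {n : ℕ} (hn : n ≤ N) : eD d n ≤ eD e n := by
  refine q1_of_main5 he ha hd N (fun _ G hG hD hH hS hn1 hn3 => ?_) hn
  rcases Nat.lt_or_ge G.P.card 98 with hn2 | hn2
  · obtain ⟨t, I, A, hN, hiD, hiI, _⟩ := num4 G hG (Ust69_zero d) (Ust69_mono d) (Ust69_sup d)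
    apply fin52 hN
    have hE1 := hN.E1
    exact G_num52 hd hC hn1 (by omega) (by omega) hN.low hN.up hN.G
  · exact hrow G hG hD hH hS hn2 hn3

/-- **version 7**: a row for all configurations with `d < 0.356`, its numerics for at most `N`
points at every `d`, and its numerics for `d0 ≤ d` -/
theorem q1_v7_of71 (Row : ℝ → Tg ℍ → Prop) (N : ℕ) (d0 : ℝ)
    (hrow : ∀ d : ℝ, 0 < d → d < 89 / 250 → ∀ G : Tg ℍ, G.Geo4 (alpha d) kap (Ust69 d) →
      DelG G d → HullT G → Sep d G.P → 98 ≤ G.P.card → Row d G)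
    (hN : ∀ d : ℝ, 0 < d → d < 89 / 250 → ∀ G : Tg ℍ, G.Geo4 (alpha d) kap (Ust69 d) →
      DelG G d → HullT G → Sep d G.P → 98 ≤ G.P.card → G.P.card ≤ N → Row d G →
      (G.D.filter (fun x => G.con x.1 x.2)).card ≤ 2 * Lb G.P.card)
    (hU : ∀ d : ℝ, 0 < d → d0 ≤ d → d < 89 / 250 → ∀ G : Tg ℍ,
      G.Geo4 (alpha d) kap (Ust69 d) → DelG G d → HullT G → Sep d G.P → 98 ≤ G.P.card → Row d G →
      (G.D.filter (fun x => G.con x.1 x.2)).card ≤ 2 * Lb G.P.card)
    {e d : ℝ} (he : 0 < e) (ha : alpha e = 2 * Real.pi / 7) (hd : 0 < d) {n : ℕ}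
    (h : n ≤ N ∨ d0 ≤ d) : eD d n ≤ eD e n := by
  rcases lt_or_ge d (89 / 250) with hd2 | hd2
  · have hC := cosh_le71 hd hd2
    rcases h with h | h
    · exact q1_dN71 he ha hd hC N (fun G hG hD hH hS h1 h2 =>
        hN d hd hd2 G hG hD hH hS h1 h2 (hrow d hd hd2 G hG hD hH hS h1)) h
    · exact q1_dN71 he ha hd hC n (fun G hG hD hH hS h1 _ =>
        hU d hd h hd2 G hG hD hH hS h1 (hrow d hd hd2 G hG hD hH hS h1)) le_rfl
  · exact q1_v6_56 he ha hd (Or.inr hd2)

end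

end Pool.Agent.PEN.E5
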