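import Pool.Agent.E5.Cm15

/-! # PENNY, all small diameters: the final sum of set B6, with the sets of helper89's table

`GH` good sides of hexagons, `XS` further sides used by a hexagon, `VW` very weak sides (weight 5),
`L6` leaf corners that pay one more, `wk` the weight of a weak side (3 or 4), `ps` the payment of a leaf
corner. -/

set_option autoImplicit false

namespace Pool.Agent.PEN.E5

open Classical UpperHalfPlane
open Pool.Agent.PEN.Cl

noncomputable section

variable {V : Type} (G : Tg V) {al : ℝ} {kp : V → V → ℝ} {U : ℕ → ℝ}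

/-- the number of big sides of a black face in the set `S` -/
def cK15 (S : Finset (V × V)) (K : (cg G).ConnectedComponent) : ℕ :=
  ((kS G K).filter (fun x => x ∈ BC G ∧ x ∈ S)).card

/-- the number of corners of a class in the set `S` -/
def cC15 (S : Finset (V × V)) (C : G.adj.ConnectedComponent) : ℕ :=
  ((G.cJ C).filter (fun x => x ∈ S)).card

/-- the number of leaves of a black face with corner in `S` -/
def lK15 (S : Finset (V × V)) (K : (cg G).ConnectedComponent) : ℕ :=
  ((Lv G K).filter (fun x => sg G x ∈ S)).card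

/-- the number of leaf corners of a class in `S` -/
def lC15 (S : Finset (V × V)) (C : G.adj.ConnectedComponent) : ℕ :=
  (((G.cJ C).filter (fun x => x.1 ∈ lfN G)).filter (fun x => x ∈ S)).card

/-- **the final sum of set B6** -/
theorem row_sets15 (hG : G.Geo4 al kp U) (h1 : ∀ x ∈ iJ G, gc G al x ≤ 1)
    {yK : (cg G).ConnectedComponent → ℝ} (hyK : ∀ K ∈ Kc G, 1 ≤ yK K)
    {wk ps : V × V → ℝ} (GH XS VW L6 : Finset (V × V)) {ι : Type} (IV IK IC : Finset ι)
    (src : ι → G.adj.ConnectedComponent) (tV : ι → V) (tK' : ι → (cg G).ConnectedComponent)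
    (tC : ι → G.adj.ConnectedComponent)
    (hsV : ∀ i ∈ IV, src i ∈ WF G ∧ tV i ∈ PV15 G al)
    (hsK : ∀ i ∈ IK, src i ∈ WF G ∧ tK' i ∈ Kc G)
    (hsC : ∀ i ∈ IC, src i ∈ WF G ∧ tC i ∈ WF G)
    (hK : ∀ K ∈ Kc G, wx G 1 K + yK K * (Lv G K).card + F14 G K + Z14 G K +
        cK15 G GH K + cK15 G XS K + nc15 IK tK' K ≤
      ∑ s ∈ PK G al K, max (4 - (rn G s : ℝ)) 0 +
      ∑ x ∈ (kS G K).filter (fun x => x ∈ BC G), wk x + cK15 G VW K +
      ∑ x ∈ Lv G K, ps (sg G x) + lK15 G L6 K +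
      11 / 2 * uK14 G al K - (yK K - 1) * (uK14 G al K - oK14 G K) + 3 * fe14 G K)
    (hC : ∀ C ∈ WF G, ∑ x ∈ G.cJ C, wk x + cC15 G VW C +
        ∑ x ∈ (G.cJ C).filter (fun x => x.1 ∈ lfN G), ps x + lC15 G L6 C + nc15 IC tC C ≤
      11 * ka G al C - 6 * qa G C + ∑ s ∈ G.cJ C, (yK (ku G s) - 1) * sp G al s +
      cC15 G GH C + cC15 G XS C + (nc15 IV src C + nc15 IK src C + nc15 IC src C))
    (hV : ∀ v ∈ A2 G al, ∑ s ∈ (Sv G v).filter (fun s => 0 ≤ Ds G al s),
        max (4 - (rn G s : ℝ)) 0 + ∑ s ∈ Sv G v, yK (ku G s) * Ds G al s + nc15 IV tV v ≤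
      13 * (kv G al v - 1) - 2 * ep al)
    (h7 : ∀ v ∈ inN G, uv G al v = 7 → cv G v ≠ 1 →
      ∑ s ∈ Sv G v, yK (ku G s) * Ds G al s + 2 * ep al + nc15 IV tV v ≤ 0) :
    Row14 G al := by
  have hsum : ∀ (T S : Finset (V × V)), ∑ x ∈ T, (if x ∈ S then (1 : ℝ) else 0) =
      ((T.filter (fun x => x ∈ S)).card : ℝ) := by
    intro T S
    rw [← Finset.sum_filter, Finset.sum_const, nsmul_eq_mul, mul_one]
  refine row_claims15 G hG h1 hyK
    (w := fun x => wk x - (if x ∈ GH then 1 else 0) - (if x ∈ XS then 1 else 0) +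
      (if x ∈ VW then 1 else 0))
    (p := fun x => ps x + (if x ∈ L6 then 1 else 0)) IV IK IC src tV tK' tC hsV hsK hsC
    ?_ ?_ hV h7
  · intro K hK'
    have h := hK K hK'
    have e1 : ∀ S : Finset (V × V), ∑ x ∈ (kS G K).filter (fun x => x ∈ BC G),
        (if x ∈ S then (1 : ℝ) else 0) = cK15 G S K := by
      intro S
      rw [hsum, Finset.filter_filter]
      rfl
    have e2 : ∑ x ∈ Lv G K, (if sg G x ∈ L6 then (1 : ℝ) else 0) = lK15 G L6 K := by
      rw [← Finset.sum_filter, Finset.sum_const, nsmul_eq_mul, mul_one]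
      rfl
    rw [Finset.sum_add_distrib, Finset.sum_sub_distrib, Finset.sum_sub_distrib, e1, e1, e1,
      Finset.sum_add_distrib, e2]
    linarith
  · intro C hC'
    have h := hC C hC'
    have e1 : ∀ S : Finset (V × V), ∑ x ∈ G.cJ C, (if x ∈ S then (1 : ℝ) else 0) =
        cC15 G S C := by
      intro S
      rw [hsum]
      rfl
    have e2 : ∑ x ∈ (G.cJ C).filter (fun x => x.1 ∈ lfN G), (if x ∈ L6 then (1 : ℝ) else 0) =
        lC15 G L6 C := by
      rw [hsum]
      rfl
    rw [Finset.sum_add_distrib, Finset.sum_sub_distrib, Finset.sum_sub_distrib, e1, e1, e1,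
      Finset.sum_add_distrib, e2]
    linarith

end

end Pool.Agent.PEN.E5
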