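import Pool.Agent.E5.Fs15

/-! # PENNY, all small diameters: the final sum of set B6, counted

`ND` the needing corners (one unit each), `QV` the corners paid by their points, `RK` the visits paid by
their black faces, `ZC` the sides paid by their white classes; only one inequality between the numbers
is needed. -/

set_option autoImplicit false

namespace Pool.Agent.PEN.E5

open Classical UpperHalfPlane
open Pool.Agent.PEN.Cl

noncomputable section

variable {V : Type} (G : Tg V) {al : ℝ} {kp : V → V → ℝ} {U : ℕ → ℝ}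

/-- the number of visits of a black face in the set `S` -/
def rK15 (S : Finset (V × V)) (K : (cg G).ConnectedComponent) : ℕ :=
  ((kS G K).filter (fun x => x ∈ S)).card

/-- the number of elements of `S` starting at `v` -/
def vV15 (S : Finset (V × V)) (v : V) : ℕ := (S.filter (fun x => x.1 = v)).card

theorem sum_cC15 (S : Finset (V × V)) (hS : S ⊆ BC G) :
    ∑ C ∈ WF G, (cC15 G S C : ℝ) = S.card := by
  have h := sum_BC15 G (fun x => if x ∈ S then (1 : ℝ) else 0)
  rw [← Finset.sum_filter, Finset.sum_const, nsmul_eq_mul, mul_one] at h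
  have h2 : (BC G).filter (fun x => x ∈ S) = S := by
    ext x
    rw [Finset.mem_filter]
    exact ⟨fun h => h.2, fun h => ⟨hS h, h⟩⟩
  rw [h2] at h
  rw [h]
  refine Finset.sum_congr rfl fun C _ => ?_
  rw [← Finset.sum_filter, Finset.sum_const, nsmul_eq_mul, mul_one]
  rfl

theorem sum_rK15 (S : Finset (V × V)) (hS : S ⊆ SD G) :
    ∑ K ∈ Kc G, (rK15 G S K : ℝ) = S.card := by
  rw [← Nat.cast_sum]
  congr 1
  rw [Finset.card_eq_sum_card_fiberwise (f := ku G) (t := Kc G)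
    (fun x hx => Finset.mem_coe.2 (ku_Kc15 G (hS (Finset.mem_coe.1 hx))))]
  refine Finset.sum_congr rfl fun K _ => ?_
  unfold rK15
  congr 1
  ext x
  rw [Finset.mem_filter, Finset.mem_filter, mem_kS42]
  constructor
  · rintro ⟨⟨_, h2⟩, h3⟩
    exact ⟨h3, h2⟩
  · rintro ⟨h2, h3⟩
    exact ⟨⟨hS h2, h3⟩, h2⟩

theorem sum_vV15 (S : Finset (V × V)) (T : Finset V) (h : ∀ x ∈ S, x.1 ∈ T) :
    ∑ v ∈ T, (vV15 S v : ℝ) = S.card := by
  rw [← Nat.cast_sum]
  congr 1
  exact (Finset.card_eq_sum_card_fiberwise (f := Prod.fst) fun x hx =>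
    Finset.mem_coe.2 (h x (Finset.mem_coe.1 hx))).symm

/-- **the final sum of set B6, counted** -/
theorem row_fin15 (hG : G.Geo4 al kp U) (h1 : ∀ x ∈ iJ G, gc G al x ≤ 1)
    {yK : (cg G).ConnectedComponent → ℝ} (hyK : ∀ K ∈ Kc G, 1 ≤ yK K)
    {wk ps : V × V → ℝ} (GH XS VW L6 ND QV RK ZC : Finset (V × V))
    (hND : ND ⊆ BC G) (hQV : ∀ x ∈ QV, x.1 ∈ A2 G al) (hRK : RK ⊆ SD G) (hZC : ZC ⊆ BC G)
    (hcount : (ND.card : ℝ) ≤ QV.card +
      ∑ v ∈ (inN G).filter (fun v => uv G al v = 7 ∧ cv G v ≠ 1), ((cv G v : ℝ) - 2) +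
      RK.card + ZC.card)
    (hK : ∀ K ∈ Kc G, wx G 1 K + yK K * (Lv G K).card + F14 G K + Z14 G K +
        cK15 G GH K + cK15 G XS K + rK15 G RK K ≤
      ∑ s ∈ PK G al K, max (4 - (rn G s : ℝ)) 0 +
      ∑ x ∈ (kS G K).filter (fun x => x ∈ BC G), wk x + cK15 G VW K +
      ∑ x ∈ Lv G K, ps (sg G x) + lK15 G L6 K +
      11 / 2 * uK14 G al K - (yK K - 1) * (uK14 G al K - oK14 G K) + 3 * fe14 G K)
    (hC : ∀ C ∈ WF G, ∑ x ∈ G.cJ C, wk x + cC15 G VW C +
        ∑ x ∈ (G.cJ C).filter (fun x => x.1 ∈ lfN G), ps x + lC15 G L6 C + cC15 G ZC C ≤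
      11 * ka G al C - 6 * qa G C + ∑ s ∈ G.cJ C, (yK (ku G s) - 1) * sp G al s +
      cC15 G GH C + cC15 G XS C + cC15 G ND C)
    (hV : ∀ v ∈ A2 G al, ∑ s ∈ (Sv G v).filter (fun s => 0 ≤ Ds G al s),
        max (4 - (rn G s : ℝ)) 0 + ∑ s ∈ Sv G v, yK (ku G s) * Ds G al s + vV15 QV v ≤
      13 * (kv G al v - 1) - 2 * ep al) :
    Row14 G al := by
  have hsum : ∀ (T S : Finset (V × V)), ∑ x ∈ T, (if x ∈ S then (1 : ℝ) else 0) =
      ((T.filter (fun x => x ∈ S)).card : ℝ) := by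
    intro T S
    rw [← Finset.sum_filter, Finset.sum_const, nsmul_eq_mul, mul_one]
  refine row_rows14 G hG h1 hyK
    (w := fun x => wk x - (if x ∈ GH then 1 else 0) - (if x ∈ XS then 1 else 0) +
      (if x ∈ VW then 1 else 0))
    (p := fun x => ps x + (if x ∈ L6 then 1 else 0)) (rK := fun K => - (rK15 G RK K : ℝ))
    (rC := fun C => (cC15 G ND C : ℝ) - cC15 G ZC C)
    (rV := fun v => if uv G al v = 7 ∧ cv G v ≠ 1 then - ((cv G v : ℝ) - 2) else
      - (vV15 QV v : ℝ)) ?_ ?_ ?_ ?_ ?_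
  · intro K hK'
    have h := hK K hK'
    have e1 : ∀ S : Finset (V × V), ∑ x ∈ (kS G K).filter (fun x => x ∈ BC G),
        (if x ∈ S then (1 : ℝ) else 0) = cK15 G S K := by
      intro S
      rw [hsum, Finset.filter_filter]
      rfl
    have e2 : ∑ x ∈ Lv G K, (if sg G x ∈ L6 then (1 : ℝ) else 0) = lK15 G L6 K := by
      rw [← Finset.sum_filter, Finset.sum_const, nsmul_eq_mul, mul_one]
      rfl
    rw [Finset.sum_add_distrib, Finset.sum_sub_distrib, Finset.sum_sub_distrib, e1, e1, e1,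
      Finset.sum_add_distrib, e2]
    linarith
  · intro C hC'
    have h := hC C hC'
    have e1 : ∀ S : Finset (V × V), ∑ x ∈ G.cJ C, (if x ∈ S then (1 : ℝ) else 0) =
        cC15 G S C := by
      intro S
      rw [hsum]
      rfl
    have e2 : ∑ x ∈ (G.cJ C).filter (fun x => x.1 ∈ lfN G), (if x ∈ L6 then (1 : ℝ) else 0) =
        lC15 G L6 C := by
      rw [hsum]
      rfl
    rw [Finset.sum_add_distrib, Finset.sum_sub_distrib, Finset.sum_sub_distrib, e1, e1, e1,
      Finset.sum_add_distrib, e2]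
    linarith
  · intro v hv
    have h := hV v hv
    have h2 := (Finset.mem_filter.1 hv).2
    rw [if_neg (by omega)]
    linarith
  · intro v hv h2 h3
    have h4 := seven15 G hG (y0 := 1) hyK hv h2 h3
    rw [if_pos ⟨h2, h3⟩]
    linarith
  · have e1 := sum_cC15 G ND hND
    have e2 := sum_cC15 G ZC hZC
    have e3 := sum_rK15 G RK hRK
    have e4 := sum_vV15 QV (A2 G al) hQV
    have e5 : ∑ v ∈ A2 G al, (if uv G al v = 7 ∧ cv G v ≠ 1 then - ((cv G v : ℝ) - 2) else
        - (vV15 QV v : ℝ)) = - QV.card := by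
      rw [← e4, ← Finset.sum_neg_distrib]
      refine Finset.sum_congr rfl fun v hv => ?_
      have h2 := (Finset.mem_filter.1 hv).2
      rw [if_neg (by omega)]
    have e6 : ∑ v ∈ (inN G).filter (fun v => uv G al v = 7 ∧ cv G v ≠ 1),
        (if uv G al v = 7 ∧ cv G v ≠ 1 then - ((cv G v : ℝ) - 2) else - (vV15 QV v : ℝ)) =
        - ∑ v ∈ (inN G).filter (fun v => uv G al v = 7 ∧ cv G v ≠ 1), ((cv G v : ℝ) - 2) := by
      rw [← Finset.sum_neg_distrib]
      refine Finset.sum_congr rfl fun v hv => ?_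
      rw [if_pos (Finset.mem_filter.1 hv).2]
    rw [e5, e6, Finset.sum_neg_distrib, e3, Finset.sum_sub_distrib, e1, e2]
    linarith

end

end Pool.Agent.PEN.E5
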