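import Pool.Agent.E5.SL2
import Pool.Agent.E5.Kc89
import Pool.Agent.E5.Disc61

/-! # PENNY, all small diameters: the single leaf lemma in the letters of `Kc89` and `Wb61` -/

set_option autoImplicit false

namespace Pool.Agent.PEN.E5

open Classical UpperHalfPlane
open Pool.Agent.PEN.Cl

noncomputable section

variable {V : Type} (G : Tg V) {al : ℝ} {kp : V → V → ℝ} {U : ℕ → ℝ}

/-- the hypotheses of `single2` for a black face that is not in `Sf`, has no weak side, and has exactly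
one leaf -/
theorem single_hyp2 (hG : G.Geo4 al kp U) {K : (cg G).ConnectedComponent} {x : V × V}
    (hL : Lv G K = {x}) (hS : K ∉ Sf G al) (hW : WsK G al K = ∅) :
    x ∈ kS G K ∧ x.2 ∈ inN G ∧ cv G x.2 = 1 ∧
    (∀ y ∈ kS G K, y.2 ∈ inN G → 0 ≤ Ds G al y → cv G y.2 = 1) ∧
    (∀ y ∈ kS G K, y ∈ BC G → 0 ≤ sp G al y) ∧
    (∀ y ∈ kS G K, y.2 ∈ inN G → cv G y.2 = 1 → y = x) := by
  have hx : x ∈ Lv G K := by rw [hL]; exact Finset.mem_singleton_self x
  obtain ⟨h1, h2, h3⟩ := (mem_Lv15 G).1 hx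
  refine ⟨h1, h2, h3, fun y hy hv hD => ?_, fun y hy hb => ?_, fun y hy hv hc => ?_⟩
  · by_contra hc
    apply hS
    rw [mem_Sf15]
    refine ⟨y, hy, (mem_Pz15 G).2 ⟨mem_kS89 G hy, hv, ?_, hD⟩⟩
    rcases pos_sector89 G hG hv (mem_kS89 G hy) rfl hD with h | h
    · exact absurd h hc
    · exact h
  · by_contra h
    push Not at h
    have : y ∈ WsK G al K := Finset.mem_filter.2 ⟨hy, hb, h⟩
    rw [hW] at this
    exact absurd this (Finset.notMem_empty y)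
  · have : y ∈ Lv G K := (mem_Lv15 G).2 ⟨hy, hv, hc⟩
    rw [hL] at this
    exact Finset.mem_singleton.1 this

/-- **the single leaf is a centre corner** -/
theorem single_cen2 (hG : G.Geo4 al kp U) (h1 : ∀ x ∈ iJ G, gc G al x ≤ 1)
    {K : (cg G).ConnectedComponent} {x : V × V}
    (hL : Lv G K = {x}) (hS : K ∉ Sf G al) (hW : WsK G al K = ∅) (hu : uK14 G al K < 1) :
    x ∈ iJ G ∧ 0 ≤ sp G al x ∧ 0 ≤ sp G al (sg G x) ∧
      gc G al x + gc G al (sg G (sg G x)) ≤ 1 ∧ gc G al (sg G x) < 1 ∧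
      Cen61 G al (sg G x) := by
  obtain ⟨hx, hv, hc, hp, hw, ho⟩ := single_hyp2 G hG hL hS hW
  have hgg := single2 G hG h1 hu hp hw hx hv hc ho
  have hxS := mem_kS89 G hx
  obtain ⟨he, hg⟩ := leaf_gc2 G hG h1 hxS hv hc
  obtain ⟨hb1, hb2⟩ := BC_head14 G hG hxS hv
  have h4 := ep_pos89 G hG
  have hi := ((mem_BC89 G).1 hb1).1
  have s1 := hw x hx hb1
  have s2 : 0 ≤ sp G al (sg G x) := by
    rw [← he]
    exact hw _ (nx_kS89 G hG hx) hb2
  refine ⟨hi, s1, s2, hgg, by linarith, x, hi, rfl, s1, s2, by linarith⟩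

/-- a disc with `U = 4 m - 7` (mass one) has no single leaf -/
theorem single_no2 (hG : G.Geo4 al kp U) (h1 : ∀ x ∈ iJ G, gc G al x ≤ 1)
    {K : (cg G).ConnectedComponent} {x : V × V}
    (hL : Lv G K = {x}) (hS : K ∉ Sf G al) (hW : WsK G al K = ∅) (hu : uK14 G al K < 1)
    {C : G.adj.ConnectedComponent} (hC : C ∈ WF G) (hxC : sg G x ∈ G.cJ C) :
    uf G al C + 2 ≤ (G.cJ C).card + 3 * (G.cT C).card := by
  obtain ⟨hx, hv, hc, hp, hw, ho⟩ := single_hyp2 G hG hL hS hW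
  refine single_mass2 G hG h1 hu hp hw hx hv hc ho hC ?_
  rw [(leaf_gc2 G hG h1 (mem_kS89 G hx) hv hc).1]
  exact hxC

end

end Pool.Agent.PEN.E5
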