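import Pool.Agent.P4.Pent66

/-! # Hyperbolic penny graphs: four consecutive large corners of a hexagon

An equilateral hexagon of side `d` has no four consecutive corners in `[2 α, 3 α]`: the apex of the
equilateral triangle on the middle side would see the six sides under angles at most `α`. -/

set_option autoImplicit false

namespace Pool.Agent.PEN

open Classical UpperHalfPlane

noncomputable section

/-- the point at the same distance from `v` as `a`, rotated by `t` -/
theorem exists_rot63 {v a : ℍ} (ha : a ≠ v) {t : ℝ} (h1 : -Real.pi < t) (h2 : t ≤ Real.pi) :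
    ∃ p : ℍ, dist v p = dist v a ∧ ang v a p = t := by
  have hz : Penny.disc v a ≠ 0 := Penny.disc_ne ha
  set w : ℂ := Penny.disc v a * Complex.exp ((t : ℂ) * Complex.I) with hw
  have hn : Complex.normSq w = Complex.normSq (Penny.disc v a) := by
    rw [hw, map_mul]
    have : Complex.normSq (Complex.exp ((t : ℂ) * Complex.I)) = 1 := by
      rw [Complex.normSq_eq_norm_sq, Complex.norm_exp_ofReal_mul_I]
      norm_num
    rw [this, mul_one]
  have hlt : Complex.normSq w < 1 := by
    rw [hn]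
    exact Penny.normSq_disc_lt v a
  have h1w : (1 : ℂ) - w ≠ 0 := by
    intro h
    have : w = 1 := (sub_eq_zero.1 h).symm
    rw [this] at hlt
    simp at hlt
  have him : 0 < (((v : ℂ) - w * (starRingEnd ℂ) (v : ℂ)) / (1 - w)).im := by
    have e : (((v : ℂ) - w * (starRingEnd ℂ) (v : ℂ)) / (1 - w)).im =
        v.im * (1 - Complex.normSq w) / Complex.normSq (1 - w) := by
      rw [Complex.div_im]
      have h0 : Complex.normSq (1 - w) ≠ 0 := (Complex.normSq_pos.2 h1w).ne'
      rw [← sub_div]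
      congr 1
      rw [Complex.normSq_apply w]
      simp only [Complex.sub_re, Complex.sub_im, Complex.mul_re, Complex.mul_im, Complex.conj_re,
        Complex.conj_im, Complex.one_re, Complex.one_im, UpperHalfPlane.coe_re,
        UpperHalfPlane.coe_im]
      ring
    rw [e]
    have := v.im_pos
    have h0 := Complex.normSq_pos.2 h1w
    have h3 : 0 < 1 - Complex.normSq w := by linarith
    positivity
  set p : ℍ := ⟨((v : ℂ) - w * (starRingEnd ℂ) (v : ℂ)) / (1 - w), him⟩ with hp
  have hdp : Penny.disc v p = w := by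
    have h2 : ((p : ℍ) : ℂ) = ((v : ℂ) - w * (starRingEnd ℂ) (v : ℂ)) / (1 - w) := rfl
    unfold Penny.disc
    rw [h2]
    have h3 : ((v : ℂ) - w * (starRingEnd ℂ) (v : ℂ)) / (1 - w) - (v : ℂ) =
        w * ((v : ℂ) - (starRingEnd ℂ) (v : ℂ)) / (1 - w) := by
      field_simp
      ring
    have h4 : ((v : ℂ) - w * (starRingEnd ℂ) (v : ℂ)) / (1 - w) - (starRingEnd ℂ) (v : ℂ) =
        ((v : ℂ) - (starRingEnd ℂ) (v : ℂ)) / (1 - w) := by
      field_simp
      ring
    have h5 : (v : ℂ) - (starRingEnd ℂ) (v : ℂ) ≠ 0 := by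
      intro h
      have h6 := congrArg Complex.im h
      simp only [Complex.sub_im, Complex.conj_im, UpperHalfPlane.coe_im, Complex.zero_im] at h6
      have := v.im_pos
      linarith
    rw [h3, h4]
    field_simp
  refine ⟨p, ?_, ?_⟩
  · have h6 : Real.cosh (dist v p) = Real.cosh (dist v a) := by
      rw [Penny.cosh_disc, Penny.cosh_disc, hdp, hn]
    have h7 := Real.cosh_le_cosh.1 h6.le
    have h8 := Real.cosh_le_cosh.1 h6.ge
    rw [abs_of_nonneg dist_nonneg, abs_of_nonneg dist_nonneg] at h7 h8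
    exact le_antisymm h7 h8
  · rw [ang_eq49]
    unfold Penny.ang
    rw [hdp, hw, mul_div_cancel_left₀ _ hz, Complex.exp_mul_I]
    have h9 := Complex.arg_mul_cos_add_sin_mul_I (r := 1) one_pos (θ := t) ⟨h1, h2⟩
    rwa [Complex.ofReal_one, one_mul] at h9

theorem ne63 {d : ℝ} (hd : 0 < d) {x y : ℍ} (h : d ≤ dist x y) : y ≠ x := by
  intro hh
  rw [hh, dist_self] at h
  linarith

/-- positive orientation in terms of the angle -/
theorem ori_sin63 {v a b : ℍ} (ha : a ≠ v) (hb : b ≠ v) :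
    0 < ori (kl v) (kl a) (kl b) ↔ 0 < Real.sin (ang v a b) := by
  have h := sin_law66 ha hb
  have i1 := v.im_pos
  have i2 := a.im_pos
  have i3 := b.im_pos
  have s1 : 0 < Real.sinh (dist v a) := Real.sinh_pos_iff.2 (dist_pos.2 ha.symm)
  have s2 : 0 < Real.sinh (dist v b) := Real.sinh_pos_iff.2 (dist_pos.2 hb.symm)
  have h3 : 0 < 2 * v.im * a.im * b.im := by positivity
  constructor
  · intro ho
    have : 0 < Real.sinh (dist v a) * Real.sinh (dist v b) * Real.sin (ang v a b) := by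
      rw [h]
      positivity
    exact pos_of_mul_pos_right this (by positivity)
  · intro hs
    have : 0 < ori (kl v) (kl a) (kl b) / (2 * v.im * a.im * b.im) := by
      rw [← h]
      positivity
    have h4 := mul_pos this h3
    rwa [div_mul_cancel₀ _ h3.ne'] at h4

theorem ang_pos63 {v a b : ℍ} (ha : a ≠ v) (hb : b ≠ v)
    (h : 0 < ori (kl v) (kl a) (kl b)) : 0 < ang v a b := by
  have h1 := (ori_sin63 ha hb).1 h
  by_contra hc
  rw [not_lt] at hc
  have h2 : -Real.pi < ang v a b := Complex.neg_pi_lt_arg _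
  have h3 := Real.sin_nonpos_of_nonpos_of_neg_pi_le hc h2.le
  linarith

theorem ori_cyc63 (a b c : Pt) : ori b c a = ori a b c := by
  unfold ori
  ring

/-- the third side of a triangle with sides `r ≥ d` and `d` and angle at least `α` -/
theorem third63 {d : ℝ} (hd : 0 < d) {a O b : ℍ} (h1 : d ≤ dist a O) (h2 : dist a b = d)
    (hc : Real.cos (ang a O b) ≤ Real.cos (alpha d)) : d ≤ dist O b := by
  have n1 := ne63 hd h1
  have n2 := ne63 hd h2.ge
  have hl := cosh_law n1 n2
  rw [h2] at hl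
  have hr0 : 0 < dist a O := lt_of_lt_of_le hd h1
  have c1 : Real.cosh d ≤ Real.cosh (dist a O) := by
    rw [Real.cosh_le_cosh, abs_of_pos hd, abs_of_pos hr0]
    exact h1
  have c0 : 1 < Real.cosh d := Real.one_lt_cosh.2 hd.ne'
  have q1 := Real.cosh_sq (dist a O)
  have q2 := Real.cosh_sq d
  have s1 : 0 < Real.sinh (dist a O) := Real.sinh_pos_iff.2 hr0
  have s2 : 0 < Real.sinh d := Real.sinh_pos_iff.2 hd
  rw [cos_alpha hd] at hc
  have hgoal : Real.cosh d ≤ Real.cosh (dist O b) := by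
    rw [hl]
    generalize Real.cosh (dist a O) = R at *
    generalize Real.sinh (dist a O) = r at *
    generalize Real.cos (ang a O b) = k at *
    generalize Real.cosh d = C at *
    generalize Real.sinh d = S at *
    have h3 : r * S * k ≤ r * S * (C / (C + 1)) := mul_le_mul_of_nonneg_left hc (by positivity)
    have h4 : r * S * (C / (C + 1)) ≤ C * (R - 1) := by
      rw [mul_div_assoc', div_le_iff₀ (by linarith)]
      have h5 : r * S ≤ (R - 1) * (C + 1) := by
        have h6 : (r * S) ^ 2 ≤ ((R - 1) * (C + 1)) ^ 2 := by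
          have e1 : (r * S) ^ 2 = (R - 1) * (R + 1) * ((C - 1) * (C + 1)) := by
            rw [mul_pow]
            have e2 : r ^ 2 = R ^ 2 - 1 := by linarith
            have e3 : S ^ 2 = C ^ 2 - 1 := by linarith
            rw [e2, e3]
            ring
          have e4 : ((R - 1) * (C + 1)) ^ 2 - (R - 1) * (R + 1) * ((C - 1) * (C + 1)) =
              (R - 1) * (C + 1) * (2 * (R - C)) := by ring
          have : 0 ≤ (R - 1) * (C + 1) * (2 * (R - C)) := by
            apply mul_nonneg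
            · apply mul_nonneg <;> linarith
            · linarith
          linarith
        have h7 : 0 ≤ (R - 1) * (C + 1) := mul_nonneg (by linarith) (by linarith)
        exact (abs_le_of_sq_le_sq' h6 h7).2
      nlinarith
    nlinarith
  by_contra hcon
  rw [not_le] at hcon
  have h9 : Real.cosh (dist O b) < Real.cosh d := by
    rw [Real.cosh_lt_cosh, abs_of_nonneg dist_nonneg, abs_of_pos hd]
    exact hcon
  linarith

theorem cos_ang_comm63 {v a b : ℍ} (ha : a ≠ v) (hb : b ≠ v) :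
    Real.cos (ang v a b) = Real.cos (ang v b a) := by
  have h1 := cosh_law ha hb
  have h2 := cosh_law hb ha
  rw [dist_comm b a] at h2
  have s1 : 0 < Real.sinh (dist v a) := Real.sinh_pos_iff.2 (dist_pos.2 ha.symm)
  have s2 : 0 < Real.sinh (dist v b) := Real.sinh_pos_iff.2 (dist_pos.2 hb.symm)
  have h3 : Real.sinh (dist v a) * Real.sinh (dist v b) * Real.cos (ang v a b) =
      Real.sinh (dist v a) * Real.sinh (dist v b) * Real.cos (ang v b a) := by
    linarith
  exact mul_left_cancel₀ (mul_pos s1 s2).ne' h3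

theorem ang_sub63 {v x y z : ℍ} (hx : x ≠ v) (hy : y ≠ v) (hz : z ≠ v)
    (h1 : -Real.pi < ang v x z - ang v x y) (h2 : ang v x z - ang v x y ≤ Real.pi) :
    ang v y z = ang v x z - ang v x y := by
  have h := ang_coe66 hx hy hz
  have h3 : ((ang v y z : ℝ) : Real.Angle) = ((ang v x z - ang v x y : ℝ) : Real.Angle) := by
    rw [Real.Angle.coe_sub, h]
    abel
  have h4 := congrArg Real.Angle.toReal h3
  rw [Real.Angle.toReal_coe_eq_self_iff.2 ⟨h1, h2⟩] at h4
  have h5 : ((ang v y z : ℝ) : Real.Angle).toReal = ang v y z :=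
    Real.Angle.toReal_coe_eq_self_iff.2 ⟨Complex.neg_pi_lt_arg _, Complex.arg_le_pi _⟩
  rwa [h5] at h4

theorem ang_sub63' {v x y z : ℍ} (hx : x ≠ v) (hy : y ≠ v) (hz : z ≠ v)
    (h1 : -Real.pi < ang v x z - ang v y z) (h2 : ang v x z - ang v y z ≤ Real.pi) :
    ang v x y = ang v x z - ang v y z := by
  have h := ang_coe66 hx hy hz
  have h3 : ((ang v x y : ℝ) : Real.Angle) = ((ang v x z - ang v y z : ℝ) : Real.Angle) := by
    rw [Real.Angle.coe_sub, h]
    abel
  have h4 := congrArg Real.Angle.toReal h3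
  rw [Real.Angle.toReal_coe_eq_self_iff.2 ⟨h1, h2⟩] at h4
  have h5 : ((ang v x y : ℝ) : Real.Angle).toReal = ang v x y :=
    Real.Angle.toReal_coe_eq_self_iff.2 ⟨Complex.neg_pi_lt_arg _, Complex.arg_le_pi _⟩
  rwa [h5] at h4

theorem pos_le63 {d : ℝ} (hd : 0 < d) {v x y : ℍ} (h : dist x y = d) (hx : d ≤ dist v x)
    (hy : d ≤ dist v y) (ho : 0 < ori (kl v) (kl x) (kl y)) :
    0 < ang v x y ∧ ang v x y ≤ alpha d :=
  ⟨ang_pos63 (ne63 hd hx) (ne63 hd hy) ho, (abs_le.1 (visual66 hd h hx hy)).2⟩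

/-- the apex of the equilateral triangle on the left of `(a, b)` -/
theorem apex63 {d : ℝ} (hd : 0 < d) {a b : ℍ} (h : dist a b = d) :
    ∃ O : ℍ, dist a O = d ∧ dist b O = d ∧ 0 < ori (kl a) (kl b) (kl O) ∧
      ang a b O = alpha d ∧ ang O a b = alpha d := by
  have nb : b ≠ a := ne63 hd h.ge
  have hal := alpha_lt hd
  have hal0 := alpha_pos hd
  have hp := Real.pi_pos
  obtain ⟨O, h1, h2⟩ := exists_rot63 nb (t := alpha d) (by linarith) (by linarith)
  rw [h] at h1
  have nO : O ≠ a := ne63 hd h1.ge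
  have c0 : 1 < Real.cosh d := Real.one_lt_cosh.2 hd.ne'
  have q2 := Real.cosh_sq d
  have hl := cosh_law nb nO
  rw [h, h1, h2, cos_alpha hd] at hl
  have e1 : Real.cosh (dist b O) = Real.cosh d := by
    rw [hl]
    have e2 : Real.sinh d * Real.sinh d = (Real.cosh d - 1) * (Real.cosh d + 1) := by
      nlinarith
    rw [e2]
    have : Real.cosh d + 1 ≠ 0 := by linarith
    field_simp
    ring
  have e3 : dist b O = d := by
    have h7 := Real.cosh_le_cosh.1 e1.le
    have h8 := Real.cosh_le_cosh.1 e1.ge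
    rw [abs_of_nonneg dist_nonneg, abs_of_pos hd] at h7 h8
    exact le_antisymm h7 h8
  have ho : 0 < ori (kl a) (kl b) (kl O) := by
    rw [ori_sin63 nb nO, h2]
    exact Real.sin_pos_of_pos_of_lt_pi hal0 (by linarith)
  refine ⟨O, h1, e3, ho, h2, ?_⟩
  have na : a ≠ O := ne63 hd (by rw [dist_comm]; exact h1.ge)
  have nbO : b ≠ O := ne63 hd (by rw [dist_comm]; exact e3.ge)
  have hpos : 0 < ang O a b := ang_pos63 na nbO (by rw [← ori_cyc63]; exact ho)
  have hl2 := cosh_law na nbO
  rw [h, dist_comm O a, dist_comm O b, h1, e3] at hl2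
  have hcos : Real.cos (ang O a b) = Real.cos (alpha d) := by
    rw [cos_alpha hd, eq_div_iff (by linarith)]
    have s2 : 0 < Real.sinh d := Real.sinh_pos_iff.2 hd
    have e5 : Real.sinh d * Real.sinh d * (Real.cos (ang O a b) * (Real.cosh d + 1)) =
        Real.sinh d * Real.sinh d * Real.cosh d := by
      have e6 : Real.sinh d * Real.sinh d * Real.cos (ang O a b) =
          Real.cosh d * Real.cosh d - Real.cosh d := by linarith
      have e7 : Real.sinh d * Real.sinh d = Real.cosh d * Real.cosh d - 1 := by nlinarith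
      calc Real.sinh d * Real.sinh d * (Real.cos (ang O a b) * (Real.cosh d + 1))
          = (Real.sinh d * Real.sinh d * Real.cos (ang O a b)) * (Real.cosh d + 1) := by ring
        _ = (Real.cosh d * Real.cosh d - Real.cosh d) * (Real.cosh d + 1) := by rw [e6]
        _ = (Real.cosh d * Real.cosh d - 1) * Real.cosh d := by ring
        _ = Real.sinh d * Real.sinh d * Real.cosh d := by rw [e7]
    exact mul_left_cancel₀ (mul_pos s2 s2).ne' e5
  exact Real.injOn_cos ⟨hpos.le, Complex.arg_le_pi _⟩ ⟨hal0.le, by linarith⟩ hcos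

/-- from the vertex `p` the chain turns to `a`, and from `a` to `b` (clockwise around `O`) -/
theorem left63 {d : ℝ} (hd : 0 < d) {O q p a b : ℍ} (hO : dist p O = d)
    (hpa : dist p a = d) (hab : dist a b = d)
    (hgp : 0 < ang p q O) (hgp' : ang p q O ≤ alpha d) (nq : q ≠ p)
    {t s : ℝ} (ht : ang p q a = t) (hs : ang a p b = s)
    (t1 : 2 * alpha d ≤ t) (t2 : t ≤ 3 * alpha d) (s1 : 2 * alpha d ≤ s) (s2 : s ≤ 3 * alpha d) :
    d ≤ dist O a ∧ d ≤ dist O b ∧ 0 < ori (kl O) (kl a) (kl p) ∧ 0 < ori (kl O) (kl b) (kl a) := by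
  have hal := alpha_lt hd
  have hal0 := alpha_pos hd
  have hp := Real.pi_pos
  have nO : O ≠ p := ne63 hd hO.ge
  have na : a ≠ p := ne63 hd hpa.ge
  have e1 : ang p O a = t - ang p q O := by
    rw [← ht]
    exact ang_sub63 nq nO na (by linarith) (by linarith)
  have c1 : Real.cos (ang p O a) ≤ Real.cos (alpha d) :=
    Real.cos_le_cos_of_nonneg_of_le_pi hal0.le (by linarith) (by linarith)
  have d1 : d ≤ dist O a := third63 hd hO.ge hpa c1
  have o1 : 0 < ori (kl p) (kl O) (kl a) := by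
    rw [ori_sin63 nO na]
    exact Real.sin_pos_of_pos_of_lt_pi (by linarith) (by linarith)
  have o2 : 0 < ori (kl a) (kl p) (kl O) := by
    rw [← ori_cyc63]
    exact o1
  have o3 : 0 < ori (kl O) (kl a) (kl p) := by
    rw [← ori_cyc63]
    exact o2
  have hap : dist a p = d := by rw [dist_comm]; exact hpa
  have haO : d ≤ dist a O := by rw [dist_comm]; exact d1
  obtain ⟨g1, g2⟩ := pos_le63 hd hO hap.ge haO o2
  have nO' : O ≠ a := ne63 hd haO
  have nb : b ≠ a := ne63 hd hab.ge
  have np : p ≠ a := ne63 hd hap.ge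
  have e2 : ang a O b = s - ang a p O := by
    rw [← hs]
    exact ang_sub63 np nO' nb (by linarith) (by linarith)
  have c2 : Real.cos (ang a O b) ≤ Real.cos (alpha d) :=
    Real.cos_le_cos_of_nonneg_of_le_pi hal0.le (by linarith) (by linarith)
  have d2 : d ≤ dist O b := third63 hd haO hab c2
  have o4 : 0 < ori (kl a) (kl O) (kl b) := by
    rw [ori_sin63 nO' nb]
    exact Real.sin_pos_of_pos_of_lt_pi (by linarith) (by linarith)
  refine ⟨d1, d2, o3, ?_⟩
  rw [ori_cyc63]
  exact o4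

/-- from the vertex `p` the chain turns to `a`, and from `a` to `b` (counterclockwise around `O`) -/
theorem right63 {d : ℝ} (hd : 0 < d) {O q p a b : ℍ} (hO : dist p O = d)
    (hpa : dist p a = d) (hab : dist a b = d)
    (hgp : 0 < ang p O q) (hgp' : ang p O q ≤ alpha d) (nq : q ≠ p)
    {t s : ℝ} (ht : ang p a q = t) (hs : ang a b p = s)
    (t1 : 2 * alpha d ≤ t) (t2 : t ≤ 3 * alpha d) (s1 : 2 * alpha d ≤ s) (s2 : s ≤ 3 * alpha d) :
    d ≤ dist O a ∧ d ≤ dist O b ∧ 0 < ori (kl O) (kl p) (kl a) ∧ 0 < ori (kl O) (kl a) (kl b) := by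
  have hal := alpha_lt hd
  have hal0 := alpha_pos hd
  have hp := Real.pi_pos
  have nO : O ≠ p := ne63 hd hO.ge
  have na : a ≠ p := ne63 hd hpa.ge
  have e1 : ang p a O = t - ang p O q := by
    rw [← ht]
    exact ang_sub63' na nO nq (by linarith) (by linarith)
  have c1 : Real.cos (ang p O a) ≤ Real.cos (alpha d) := by
    rw [cos_ang_comm63 nO na]
    exact Real.cos_le_cos_of_nonneg_of_le_pi hal0.le (by linarith) (by linarith)
  have d1 : d ≤ dist O a := third63 hd hO.ge hpa c1
  have o1 : 0 < ori (kl p) (kl a) (kl O) := by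
    rw [ori_sin63 na nO]
    exact Real.sin_pos_of_pos_of_lt_pi (by linarith) (by linarith)
  have o2 : 0 < ori (kl a) (kl O) (kl p) := by
    rw [ori_cyc63]
    exact o1
  have o3 : 0 < ori (kl O) (kl p) (kl a) := by
    rw [ori_cyc63]
    exact o2
  have hap : dist a p = d := by rw [dist_comm]; exact hpa
  have haO : d ≤ dist a O := by rw [dist_comm]; exact d1
  have hOp : dist O p = d := by rw [dist_comm]; exact hO
  obtain ⟨g1, g2⟩ := pos_le63 hd hOp haO hap.ge o2
  have nO' : O ≠ a := ne63 hd haO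
  have nb : b ≠ a := ne63 hd hab.ge
  have np : p ≠ a := ne63 hd hap.ge
  have e2 : ang a b O = s - ang a O p := by
    rw [← hs]
    exact ang_sub63' nb nO' np (by linarith) (by linarith)
  have c2 : Real.cos (ang a O b) ≤ Real.cos (alpha d) := by
    rw [cos_ang_comm63 nO' nb]
    exact Real.cos_le_cos_of_nonneg_of_le_pi hal0.le (by linarith) (by linarith)
  have d2 : d ≤ dist O b := third63 hd haO hab c2
  have o4 : 0 < ori (kl a) (kl b) (kl O) := by
    rw [ori_sin63 nb nO']
    exact Real.sin_pos_of_pos_of_lt_pi (by linarith) (by linarith)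
  refine ⟨d1, d2, o3, ?_⟩
  rw [← ori_cyc63]
  exact o4

/-- **Hexagon lemma**: an equilateral hexagon `v1 .. v6` (counterclockwise) has no four consecutive
corners in `[2 α, 3 α]` -/
theorem hexagon63 {d : ℝ} (hd : 0 < d) {v1 v2 v3 v4 v5 v6 : ℍ}
    (s12 : dist v1 v2 = d) (s23 : dist v2 v3 = d) (s34 : dist v3 v4 = d) (s45 : dist v4 v5 = d)
    (s56 : dist v5 v6 = d) (s61 : dist v6 v1 = d) {t2 t3 t4 t5 : ℝ}
    (e2 : ang v2 v3 v1 = t2) (e3 : ang v3 v4 v2 = t3) (e4 : ang v4 v5 v3 = t4)
    (e5 : ang v5 v6 v4 = t5)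
    (l2 : 2 * alpha d ≤ t2) (u2 : t2 ≤ 3 * alpha d) (l3 : 2 * alpha d ≤ t3)
    (u3 : t3 ≤ 3 * alpha d) (l4 : 2 * alpha d ≤ t4) (u4 : t4 ≤ 3 * alpha d)
    (l5 : 2 * alpha d ≤ t5) (u5 : t5 ≤ 3 * alpha d) : False := by
  have hal := alpha_lt hd
  have hal0 := alpha_pos hd
  have hp := Real.pi_pos
  obtain ⟨O, h3O, h4O, o34, a3, aO⟩ := apex63 hd s34
  have n43 : v4 ≠ v3 := ne63 hd s34.ge
  have s43 : dist v4 v3 = d := by rw [dist_comm]; exact s34
  have s32 : dist v3 v2 = d := by rw [dist_comm]; exact s23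
  have s21 : dist v2 v1 = d := by rw [dist_comm]; exact s12
  have n34 : v3 ≠ v4 := n43.symm
  have hO3 : dist O v3 = d := by rw [dist_comm]; exact h3O
  have hO4 : dist O v4 = d := by rw [dist_comm]; exact h4O
  -- the angle at v4
  have o4 : 0 < ori (kl v4) (kl O) (kl v3) := by
    rw [ori_cyc63]
    exact o34
  obtain ⟨g4, g4'⟩ := pos_le63 hd hO3 h4O.ge s43.ge o4
  obtain ⟨dO2, dO1, o23, o12⟩ := left63 hd h3O s32 s21 (by rw [a3]; exact hal0) a3.le n43 e3 e2
    l3 u3 l2 u2
  obtain ⟨dO5, dO6, o45, o56⟩ := right63 hd h4O s45 s56 g4 g4' n34 e4 e5 l4 u4 l5 u5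
  obtain ⟨p1, q1⟩ := pos_le63 hd s12 dO1 dO2 o12
  obtain ⟨p2, q2⟩ := pos_le63 hd s23 dO2 hO3.ge o23
  obtain ⟨p4, q4⟩ := pos_le63 hd s45 hO4.ge dO5 o45
  obtain ⟨p5, q5⟩ := pos_le63 hd s56 dO5 dO6 o56
  obtain ⟨r1, r2⟩ := abs_le.1 (visual66 hd s61 dO6 dO1)
  have n1 := ne63 hd dO1
  have n2 := ne63 hd dO2
  have n3 := ne63 hd hO3.ge
  have n4 := ne63 hd hO4.ge
  have n5 := ne63 hd dO5
  have n6 := ne63 hd dO6
  have hsum : ((ang O v1 v2 + ang O v2 v3 + ang O v3 v4 + ang O v4 v5 + ang O v5 v6 +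
      ang O v6 v1 : ℝ) : Real.Angle) = 0 := by
    have k0 := ang_coe66 n1 n1 n1
    have k1 := ang_coe66 n1 n2 n3
    have k2 := ang_coe66 n1 n3 n4
    have k3 := ang_coe66 n1 n4 n5
    have k4 := ang_coe66 n1 n5 n6
    have k5 := ang_coe66 n1 n6 n1
    rw [Real.Angle.coe_add, Real.Angle.coe_add, Real.Angle.coe_add, Real.Angle.coe_add,
      Real.Angle.coe_add, ← k1, ← k2, ← k3, ← k4, ← k5]
    simpa using k0
  rw [Real.Angle.coe_eq_zero_iff] at hsum
  obtain ⟨m, hm⟩ := hsum
  rw [zsmul_eq_mul] at hm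
  have hpp : 0 < 2 * Real.pi := by linarith
  have m1 : (0 : ℝ) < m := by
    by_contra hc
    rw [not_lt] at hc
    have := mul_nonpos_of_nonpos_of_nonneg hc hpp.le
    linarith
  have m2 : (m : ℝ) < 1 := by
    by_contra hc
    rw [not_lt] at hc
    have := mul_le_mul_of_nonneg_right hc hpp.le
    linarith
  have m3 : (0 : ℤ) < m := by exact_mod_cast m1
  have m4 : m < (1 : ℤ) := by exact_mod_cast m2
  omega

end

end Pool.Agent.PEN
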