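import Pool.Agent.E5.TH19
import Pool.Agent.E5.Hx63
import Pool.Agent.P4.Pn26

/-! # PENNY, all small diameters: the visual bound of a corner of a face

For a class with `m` contact sides every corner is at most `(m - 2) α`. -/

set_option autoImplicit false

namespace Pool.Agent.PEN.E5

open Classical UpperHalfPlane
open Pool.Agent.PEN.Cl

noncomputable section

/-- the signed visual angle, `0` if the two points are opposite -/
def vf19 (v x y : ℍ) : ℝ := if ang v x y = Real.pi then 0 else ang v x y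

theorem vf_anti19 {v x y : ℍ} : vf19 v y x = - vf19 v x y := by
  have h : ang v y x = if ang v x y = Real.pi then Real.pi else - ang v x y := by
    unfold ang
    have e : Dv v x / Dv v y = (Dv v y / Dv v x)⁻¹ := by
      rw [inv_div]
    rw [e, Complex.arg_inv]
  unfold vf19
  by_cases h1 : ang v x y = Real.pi
  · rw [if_pos h1] at h ⊢
    rw [if_pos h]
    simp
  · rw [if_neg h1] at h ⊢
    rw [h]
    have h2 : - Real.pi < ang v x y := Complex.neg_pi_lt_arg _
    rw [if_neg (by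
      intro h3
      linarith)]

theorem vf_ori19 {v x y : ℍ} (hx : x ≠ v) (hy : y ≠ v) (h : vf19 v x y ≤ 0) :
    ori (kl v) (kl x) (kl y) ≤ 0 := by
  by_contra hc
  push Not at hc
  have h1 := (ori_sin63 hx hy).1 hc
  have h2 := ang_pos63 hx hy hc
  unfold vf19 at h
  split_ifs at h with h3
  · rw [h3, Real.sin_pi] at h1
    exact lt_irrefl _ h1
  · linarith

/-- the visual sum over a positive triangle is nonnegative -/
theorem vf_tri19 {v a b c : ℍ} (ha : a ≠ v) (hb : b ≠ v) (hc : c ≠ v)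
    (h : 0 < ori (kl a) (kl b) (kl c)) : 0 ≤ vf19 v a b + vf19 v b c + vf19 v c a := by
  have hp := Real.pi_pos
  have hpos : 0 < vf19 v a b ∨ 0 < vf19 v b c ∨ 0 < vf19 v c a := by
    by_contra hcon
    push Not at hcon
    obtain ⟨k1, k2, k3⟩ := hcon
    have o1 := vf_ori19 ha hb k1
    have o2 := vf_ori19 hb hc k2
    have o3 := vf_ori19 hc ha k3
    have e : ori (kl a) (kl b) (kl c) = ori (kl v) (kl a) (kl b) + ori (kl v) (kl b) (kl c) +
        ori (kl v) (kl c) (kl a) := by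
      unfold ori
      ring
    linarith
  have hsum : ((ang v a b + ang v b c + ang v c a : ℝ) : Real.Angle) = 0 := by
    have k0 := ang_coe66 ha ha ha
    have k1 := ang_coe66 ha hb hc
    have k2 := ang_coe66 ha hc ha
    rw [Real.Angle.coe_add, Real.Angle.coe_add, ← k1, ← k2]
    simpa using k0
  rw [Real.Angle.coe_eq_zero_iff] at hsum
  obtain ⟨k, hk⟩ := hsum
  rw [zsmul_eq_mul] at hk
  have a1 : - Real.pi < ang v a b := Complex.neg_pi_lt_arg _
  have a2 : ang v a b ≤ Real.pi := Complex.arg_le_pi _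
  have b1 : - Real.pi < ang v b c := Complex.neg_pi_lt_arg _
  have b2 : ang v b c ≤ Real.pi := Complex.arg_le_pi _
  have c1 : - Real.pi < ang v c a := Complex.neg_pi_lt_arg _
  have c2 : ang v c a ≤ Real.pi := Complex.arg_le_pi _
  have hk3 : (k : ℝ) * (2 * Real.pi) ≤ - (2 * Real.pi) ∨ (k : ℝ) * (2 * Real.pi) = 0 ∨
      2 * Real.pi ≤ (k : ℝ) * (2 * Real.pi) := by
    rcases lt_trichotomy k 0 with h1 | h1 | h1
    · left
      have h2 : (k : ℝ) ≤ -1 := by exact_mod_cast (show k ≤ -1 by omega)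
      nlinarith
    · right; left
      rw [h1]
      simp
    · right; right
      have h2 : (1 : ℝ) ≤ k := by exact_mod_cast (show 1 ≤ k by omega)
      nlinarith
  unfold vf19 at *
  split_ifs at * with h1 h2 h3 h3 h2 h3 h3 <;>
    rcases hpos with hpos | hpos | hpos <;> rcases hk3 with hk3 | hk3 | hk3 <;> linarith

section conc
variable {G : Tg ℍ} {d : ℝ} {kp : ℍ → ℍ → ℝ} {U : ℕ → ℝ}

/-- **the visual inequality** of a class at a point: the angle of the class at `v` is at most the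
sum of the signed angles under which `v` sees the contact sides of the class -/
theorem vis_ang19 (hD : DelG G d) (hS : Sep d G.P)
    {C : G.adj.ConnectedComponent} (hC : C ∈ G.iC) {v : ℍ} (hv : v ∈ G.P) :
    ∑ y ∈ (G.cD C).filter (fun y => y.1 = v), G.th y.1 y.2 ≤
      ∑ y ∈ (G.cJ C).filter (fun y => y.1 ≠ v ∧ y.2 ≠ v), ang v y.1 y.2 := by
  have hB := cB_of_iC66 G hC
  have hd := hD.hd
  have hp := Real.pi_pos
  obtain ⟨f, hf⟩ : ∃ f : ℍ → ℍ → ℝ, f = fun a b => if a = v ∨ b = v then 0 else vf19 v a b :=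
    ⟨_, rfl⟩
  obtain ⟨g, hg⟩ : ∃ g : ℍ → ℍ → ℝ, g = fun a b => if a = v then G.th a b else 0 := ⟨_, rfl⟩
  have fanti : ∀ a b, f b a = - f a b := by
    intro a b
    rw [hf]
    dsimp only
    by_cases h : a = v ∨ b = v
    · rw [if_pos h, if_pos h.symm]
      simp
    · rw [if_neg h, if_neg (fun h' => h h'.symm), vf_anti19]
  -- th is the visual angle of the opposite side
  have thv : ∀ a b, (a, b) ∈ G.Dp → G.th a b = vf19 a b (G.ap a b) := by
    intro a b h
    have h1 := hD.th _ _ h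
    have h2 := hD.ori _ _ h
    have n1 : b ≠ a := (G.ne _ _ (G.sub h)).symm
    have n2 : G.ap a b ≠ a := G.ne _ _ (G.sub (G.ap2 _ _ h))
    have h3 := (ori_sin63 n1 n2).1 h2
    unfold vf19
    rw [h1]
    split_ifs with h4
    · rw [h4, Real.sin_pi] at h3
      exact absurd h3 (lt_irrefl _)
    · rfl
  -- each triangle
  have tri : ∀ x ∈ G.cD C, g x.1 x.2 + g x.2 (G.ap x.1 x.2) + g (G.ap x.1 x.2) x.1 ≤
      f x.1 x.2 + f x.2 (G.ap x.1 x.2) + f (G.ap x.1 x.2) x.1 := by
    rintro ⟨a, b⟩ hx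
    have hab := ((mem_cD66 G).1 hx).1
    obtain ⟨c, hc⟩ : ∃ c, c = G.ap a b := ⟨_, rfl⟩
    dsimp only
    rw [← hc]
    have hbc := G.ap1 _ _ hab
    have hca := G.ap2 _ _ hab
    rw [← hc] at hbc hca
    have ebc : G.ap b c = a := by rw [hc]; exact G.ap3 _ _ hab
    have eca : G.ap c a = b := by rw [hc]; exact G.ap4 _ _ hab
    have nab := G.ne _ _ (G.sub hab)
    have nbc := G.ne _ _ (G.sub hbc)
    have nca := G.ne _ _ (G.sub hca)
    have ho := hD.ori _ _ hab
    rw [← hc] at ho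
    have t1 := thv _ _ hab
    rw [← hc] at t1
    have t2 := thv _ _ hbc
    rw [ebc] at t2
    have t3 := thv _ _ hca
    rw [eca] at t3
    rw [hf, hg]
    dsimp only
    by_cases ha : a = v
    · have hb : ¬ b = v := fun h => nab (by rw [ha, h])
      have hc' : ¬ c = v := fun h => nca (by rw [ha, h])
      subst ha
      simp only [hb, hc', if_true, if_false, true_or, or_true, or_false, or_self]
      linarith
    · by_cases hb : b = v
      · have hc' : ¬ c = v := fun h => nbc (by rw [hb, h])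
        subst hb
        simp only [ha, hc', if_true, if_false, true_or, or_true, or_false, or_self]
        linarith
      · by_cases hc' : c = v
        · subst hc'
          simp only [ha, hb, if_true, if_false, true_or, or_true, or_false, or_self]
          linarith
        · simp only [ha, hb, hc', if_false, or_self]
          have := vf_tri19 (v := v) (a := a) (b := b) (c := c) ha hb hc' ho
          linarith
  have hsum := Finset.sum_le_sum tri
  rw [Finset.sum_add_distrib, Finset.sum_add_distrib, Finset.sum_add_distrib,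
    Finset.sum_add_distrib, sum_rotC39 G g, sum_rotC39' G g, sum_rotC39 G f, sum_rotC39' G f] at hsum
  have hg1 : ∑ x ∈ G.cD C, g x.1 x.2 =
      ∑ y ∈ (G.cD C).filter (fun y => y.1 = v), G.th y.1 y.2 := by
    rw [Finset.sum_filter, hg]
  -- the diagonals cancel
  have hI : ∑ x ∈ G.cI C, f x.1 x.2 = 0 := by
    have h1 : ∑ x ∈ G.cI C, f x.1 x.2 = ∑ x ∈ G.cI C, f x.2 x.1 := by
      refine Finset.sum_nbij' (fun x => (x.2, x.1)) (fun x => (x.2, x.1)) ?_ ?_ ?_ ?_ ?_
      · intro x hx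
        exact swap_cD66 G hx
      · intro x hx
        exact swap_cD66 G hx
      · intro x _
        rfl
      · intro x _
        rfl
      · intro x _
        rfl
    have h2 : ∑ x ∈ G.cI C, f x.2 x.1 = - ∑ x ∈ G.cI C, f x.1 x.2 := by
      rw [← Finset.sum_neg_distrib]
      exact Finset.sum_congr rfl fun x _ => fanti _ _
    linarith
  have hsplit : ∑ x ∈ G.cD C, f x.1 x.2 = ∑ x ∈ G.cJ C, f x.1 x.2 := by
    have e1 : (G.cD C).filter (fun x => G.con x.1 x.2) = G.cJ C := by
      ext x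
      unfold Tg.cJ
      rw [Finset.mem_filter, Finset.mem_filter, mem_cD66]
      tauto
    have e2 : (G.cD C).filter (fun x => ¬ G.con x.1 x.2) = G.cI C := by
      ext x
      rw [Finset.mem_filter]
      constructor
      · rintro ⟨h1, h2⟩
        exact mem_cI11 G hB h1 h2
      · intro h1
        exact ⟨cI_sub11 G h1, cI_ncon11 G h1⟩
    rw [← Finset.sum_filter_add_sum_filter_not _ (fun x => G.con x.1 x.2), e1, e2, hI, add_zero]
  have hle : ∑ x ∈ G.cJ C, f x.1 x.2 =
      ∑ y ∈ (G.cJ C).filter (fun y => y.1 ≠ v ∧ y.2 ≠ v), ang v y.1 y.2 := by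
    rw [Finset.sum_filter, hf]
    refine Finset.sum_congr rfl fun x hx => ?_
    dsimp only
    by_cases h : x.1 = v ∨ x.2 = v
    · rw [if_pos h, if_neg (by tauto)]
    · rw [if_neg h, if_pos (by tauto)]
      rw [not_or] at h
      unfold Tg.cJ at hx
      rw [Finset.mem_filter] at hx
      have h3 := hx.1
      have P1 := G.mem _ _ (G.sub h3)
      have P2 := G.mem _ _ (G.sub (G.ap1 _ _ h3))
      have h4 := (abs_le.1 (visual66 hd (hD.con _ _ hx.2.2) (hS v hv x.1 P1 (Ne.symm h.1))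
        (hS v hv x.2 P2 (Ne.symm h.2)))).2
      have h5 := alpha_lt hd
      unfold vf19
      rw [if_neg (by
        intro h6
        linarith)]
  rw [← hg1, ← hle]
  linarith

/-- **the visual bound** of the angle of a class at a point -/
theorem vis_sum19 (hD : DelG G d) (hS : Sep d G.P)
    {C : G.adj.ConnectedComponent} (hC : C ∈ G.iC) {v : ℍ} (hv : v ∈ G.P) :
    ∑ y ∈ (G.cD C).filter (fun y => y.1 = v), G.th y.1 y.2 ≤
      alpha d * ((G.cJ C).filter (fun y => y.1 ≠ v ∧ y.2 ≠ v)).card := by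
  refine (vis_ang19 hD hS hC hv).trans ?_
  have hd := hD.hd
  rw [mul_comm, ← nsmul_eq_mul]
  refine Finset.sum_le_card_nsmul _ _ _ fun x hx => ?_
  rw [Finset.mem_filter] at hx
  obtain ⟨hxJ, h1, h2⟩ := hx
  unfold Tg.cJ at hxJ
  rw [Finset.mem_filter] at hxJ
  have h3 := hxJ.1
  have P1 := G.mem _ _ (G.sub h3)
  have P2 := G.mem _ _ (G.sub (G.ap1 _ _ h3))
  exact (abs_le.1 (visual66 hd (hD.con _ _ hxJ.2.2) (hS v hv x.1 P1 (Ne.symm h1))
    (hS v hv x.2 P2 (Ne.symm h2)))).2

/-- the corner is at most the angle of the class at its point -/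
theorem TH_le_sum19 (hG : G.Geo4 (alpha d) kp U) {C : G.adj.ConnectedComponent} (hC : C ∈ G.iC)
    {x : ℍ × ℍ} (hx : x ∈ G.cJ C) :
    TH G x ≤ ∑ y ∈ (G.cD C).filter (fun y => y.1 = x.1), G.th y.1 y.2 := by
  have hxJ := hx
  unfold Tg.cJ at hxJ
  rw [Finset.mem_filter] at hxJ
  have hxD : x ∈ G.cD C := (mem_cD66 G).2 ⟨hxJ.1, hxJ.2.1⟩
  unfold TH
  refine Finset.sum_le_sum_of_subset_of_nonneg ?_ ?_
  · intro y hy
    have h5 := W4.gp_sub71 G hG hC hx hy
    rw [Finset.mem_insert, Finset.mem_filter] at h5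
    rw [Finset.mem_filter]
    rcases h5 with h5 | ⟨h5, h6⟩
    · rw [h5]
      exact ⟨hxD, rfl⟩
    · exact ⟨cI_sub11 G h5, h6⟩
  · intro y hy _
    rw [Finset.mem_filter] at hy
    exact (G.thpos _ _ ((mem_cD66 G).1 hy.1).1).le

/-- **the visual inequality** for a corner -/
theorem TH_vis_ang19 (hG : G.Geo4 (alpha d) kp U) (hD : DelG G d) (hS : Sep d G.P)
    {C : G.adj.ConnectedComponent} (hC : C ∈ G.iC) {x : ℍ × ℍ} (hx : x ∈ G.cJ C) :
    TH G x ≤ ∑ y ∈ (G.cJ C).filter (fun y => y.1 ≠ x.1 ∧ y.2 ≠ x.1), ang x.1 y.1 y.2 := by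
  have hxJ := hx
  unfold Tg.cJ at hxJ
  rw [Finset.mem_filter] at hxJ
  exact (TH_le_sum19 hG hC hx).trans (vis_ang19 hD hS hC (G.mem _ _ (G.sub hxJ.1)))

/-- the corner is at most `(m - 2) α` -/
theorem TH_vis19 (hG : G.Geo4 (alpha d) kp U) (hD : DelG G d) (hS : Sep d G.P)
    {C : G.adj.ConnectedComponent} (hC : C ∈ G.iC) {x : ℍ × ℍ} (hx : x ∈ G.cJ C) :
    TH G x ≤ alpha d * ((G.cJ C).card - 2) := by
  obtain ⟨h1, h2⟩ := cJ_iJ51 G hC hx
  have hal := alpha_pos hD.hd
  have hxJ := hx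
  unfold Tg.cJ at hxJ
  rw [Finset.mem_filter] at hxJ
  have hDp := hxJ.1
  have hv := G.mem _ _ (G.sub hDp)
  have h3 := vis_sum19 hD hS hC hv
  have h4 := TH_le_sum19 hG hC hx
  obtain ⟨w, hw, hwx⟩ := sg_surj19 G hG x h1
  have hwC : w ∈ G.cJ C := by
    have h5 := iJ_cJ51 G hw
    have h6 := (W4.sg_mem51 G hG hw).2
    rw [hwx, h2] at h6
    rw [← h6] at h5
    exact h5
  have hw2 : w.2 = x.1 := by
    rw [← hwx]
    rfl
  have hne : x ≠ w := by
    intro h
    have h5 := G.ne _ _ (G.sub hDp)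
    rw [← h] at hw2
    exact h5 hw2.symm
  have h5 : ((G.cJ C).filter (fun y => y.1 ≠ x.1 ∧ y.2 ≠ x.1)).card + 2 ≤ (G.cJ C).card := by
    have h6 : (G.cJ C).filter (fun y => y.1 ≠ x.1 ∧ y.2 ≠ x.1) ⊆ ((G.cJ C).erase x).erase w := by
      intro y hy
      rw [Finset.mem_filter] at hy
      rw [Finset.mem_erase, Finset.mem_erase]
      refine ⟨?_, ?_, hy.1⟩
      · rintro rfl
        exact hy.2.2 hw2
      · rintro rfl
        exact hy.2.1 rfl
    have h7 := Finset.card_le_card h6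
    rw [Finset.card_erase_of_mem (by
      rw [Finset.mem_erase]
      exact ⟨hne.symm, hwC⟩), Finset.card_erase_of_mem hx] at h7
    have h8 : 2 ≤ (G.cJ C).card := Finset.one_lt_card.2 ⟨x, hx, w, hwC, hne⟩
    omega
  have h6 : (((G.cJ C).filter (fun y => y.1 ≠ x.1 ∧ y.2 ≠ x.1)).card : ℝ) ≤ (G.cJ C).card - 2 := by
    have h7 : ((((G.cJ C).filter (fun y => y.1 ≠ x.1 ∧ y.2 ≠ x.1)).card + 2 : ℕ) : ℝ) ≤
        ((G.cJ C).card : ℝ) := by exact_mod_cast h5
    push_cast at h7
    linarith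
  calc TH G x ≤ _ := h4
    _ ≤ _ := h3
    _ ≤ _ := mul_le_mul_of_nonneg_left h6 hal.le

/-- **the visual bound in units**: a corner of a face with `m` sides has at most
`max 2 (m - 2)` units -/
theorem un_vis19 (hG : G.Geo4 (alpha d) kp U) (hD : DelG G d) (hS : Sep d G.P)
    {C : G.adj.ConnectedComponent} (hC : C ∈ G.iC) {m : ℕ} (hm : (G.cJ C).card ≤ m + 2)
    (h2 : 2 ≤ m) {x : ℍ × ℍ} (hx : x ∈ G.cJ C) : un G (alpha d) x ≤ m := by
  have hal := alpha_pos hD.hd
  refine un_le19 G hG h2 ((TH_vis19 hG hD hS hC hx).trans ?_)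
  have h3 : ((G.cJ C).card : ℝ) ≤ m + 2 := by exact_mod_cast hm
  nlinarith

end conc

end

end Pool.Agent.PEN.E5
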