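import Pool.Agent.E5.Hp63
import Pool.Agent.E5.Vb19
import Pool.Agent.E5.R13_90

/-! # PENNY, hexagonal faces: the neighbours of a corner larger than `3 α`

In a hexagonal white face the neighbours of a corner larger than `3 α` are smaller than `2 α`. -/

set_option autoImplicit false

namespace Pool.Agent.PEN.E5

open Classical UpperHalfPlane
open Pool.Agent.PEN.Cl

noncomputable section

theorem abs_ang_comm63 {v a b : ℍ} (ha : a ≠ v) (hb : b ≠ v) : |ang v a b| = |ang v b a| := by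
  have h := cos_ang_comm63 ha hb
  have h0 : ∀ a b : ℍ, |ang v a b| ≤ Real.pi := fun a b =>
    abs_le.2 ⟨(Complex.neg_pi_lt_arg _).le, Complex.arg_le_pi _⟩
  have h1 : |ang v a b| = Real.arccos (Real.cos (ang v a b)) := by
    rw [← Real.cos_abs, Real.arccos_cos (abs_nonneg _) (h0 a b)]
  have h2 : |ang v b a| = Real.arccos (Real.cos (ang v b a)) := by
    rw [← Real.cos_abs, Real.arccos_cos (abs_nonneg _) (h0 b a)]
  rw [h1, h2, h]

theorem sum_insert_le63 {α : Type} [DecidableEq α] (f : α → ℝ) (hf : ∀ x, 0 ≤ f x) (a : α)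
    (s : Finset α) : ∑ x ∈ insert a s, f x ≤ f a + ∑ x ∈ s, f x := by
  by_cases h : a ∈ s
  · rw [Finset.insert_eq_of_mem h]
    linarith [hf a]
  · rw [Finset.sum_insert h]

/-- the numeric part: four sides seen from `v0` -/
theorem four_sides63 {d : ℝ} (hd : 0 < d) {P : Finset ℍ} (hS : Sep d P)
    {v0 v1 v2 v3 v4 v5 : ℍ} (m0 : v0 ∈ P) (m1 : v1 ∈ P) (m2 : v2 ∈ P) (m3 : v3 ∈ P) (m4 : v4 ∈ P)
    (m5 : v5 ∈ P) (h01 : dist v0 v1 = d)
    (h12 : dist v1 v2 = d) (h23 : dist v2 v3 = d) (h34 : dist v3 v4 = d) (h45 : dist v4 v5 = d)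
    (h05 : dist v0 v5 = d) (hc : Real.cos (ang v1 v2 v0) ≤ Real.cos (2 * alpha d)) (g : ℍ × ℍ → ℝ)
    (hg0 : ∀ a b, a = v0 ∨ b = v0 → g (a, b) = 0)
    (hg1 : ∀ a b, a ≠ v0 → b ≠ v0 → g (a, b) = |ang v0 a b|) :
    g (v1, v2) + g (v2, v3) + g (v3, v4) + g (v4, v5) ≤ 3 * alpha d := by
  have hal := alpha_pos hd
  have hle : ∀ a b, a ∈ P → b ∈ P → dist a b = d → g (a, b) ≤ alpha d := by
    intro a b ha hb hab
    by_cases h : a = v0 ∨ b = v0
    · rw [hg0 a b h]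
      exact hal.le
    · push Not at h
      rw [hg1 a b h.1 h.2]
      exact visual66 hd hab (hS v0 m0 a ha h.1.symm) (hS v0 m0 b hb h.2.symm)
  have e1 := hle v1 v2 m1 m2 h12
  have e2 := hle v2 v3 m2 m3 h23
  have e3 := hle v3 v4 m3 m4 h34
  have e4 := hle v4 v5 m4 m5 h45
  have n1 : v1 ≠ v0 := ne63 hd h01.ge
  have n5 : v5 ≠ v0 := ne63 hd h05.ge
  by_cases h2 : v2 = v0
  · have := hg0 v1 v2 (Or.inr h2)
    have := hg0 v2 v3 (Or.inl h2)
    linarith
  by_cases h3 : v3 = v0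
  · have := hg0 v2 v3 (Or.inr h3)
    have := hg0 v3 v4 (Or.inl h3)
    linarith
  by_cases h4 : v4 = v0
  · have := hg0 v3 v4 (Or.inr h4)
    have := hg0 v4 v5 (Or.inl h4)
    linarith
  rw [hg1 v1 v2 n1 h2, hg1 v2 v3 h2 h3, hg1 v3 v4 h3 h4, hg1 v4 v5 h4 n5]
  exact seen63 hd h01 h12 h23 h34 h45 h05 (hS v0 m0 v3 m3 (Ne.symm h3))
    (hS v0 m0 v4 m4 (Ne.symm h4)) hc

/-- the size of the difference of the corner `0` and the four sides -/
def vg63 (v : ℍ) (y : ℍ × ℍ) : ℝ := if y.1 = v ∨ y.2 = v then 0 else |ang v y.1 y.2|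

theorem vg_nonneg63 (v : ℍ) (y : ℍ × ℍ) : 0 ≤ vg63 v y := by
  unfold vg63
  split_ifs
  · exact le_rfl
  · exact abs_nonneg _

section conc
variable {G : Tg ℍ} {d : ℝ} {kp : ℍ → ℍ → ℝ} {U : ℕ → ℝ}

/-- the corner of a hexagon is seen through the four sides not at it -/
theorem TH_six63 (hG : G.Geo4 (alpha d) kp U) (hD : DelG G d) (hS : Sep d G.P)
    {C : G.adj.ConnectedComponent} (hC : C ∈ WF G) (hd6 : (G.cI C).card + 2 = 2 * (G.cT C).card)
    (h6 : (G.cJ C).card = 6) {x : ℍ × ℍ} (hx : x ∈ G.cJ C) :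
    TH G x ≤ vg63 x.1 (sg G x) + vg63 x.1 (sg G (sg G x)) + vg63 x.1 (sg G (sg G (sg G x))) +
      vg63 x.1 (sg G (sg G (sg G (sg G x)))) := by
  have hCi := ((mem_WF89 G).1 hC).1
  obtain ⟨hset, hcyc⟩ := six90 G hG hC hd6 h6 hx
  refine (TH_vis_ang19 hG hD hS hCi hx).trans ?_
  have h1 : ∑ y ∈ (G.cJ C).filter (fun y => y.1 ≠ x.1 ∧ y.2 ≠ x.1), ang x.1 y.1 y.2 ≤
      ∑ y ∈ (G.cJ C).filter (fun y => y.1 ≠ x.1 ∧ y.2 ≠ x.1), vg63 x.1 y := by
    apply Finset.sum_le_sum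
    intro y hy
    rw [Finset.mem_filter] at hy
    unfold vg63
    rw [if_neg (by push Not; exact hy.2)]
    exact le_abs_self _
  refine h1.trans ?_
  have h2 : (G.cJ C).filter (fun y => y.1 ≠ x.1 ∧ y.2 ≠ x.1) ⊆
      {sg G x, sg G (sg G x), sg G (sg G (sg G x)), sg G (sg G (sg G (sg G x)))} := by
    intro y hy
    rw [Finset.mem_filter, hset] at hy
    obtain ⟨hy, hy1, hy2⟩ := hy
    simp only [Finset.mem_insert, Finset.mem_singleton] at hy ⊢
    rcases hy with h | h | h | h | h | h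
    · exact absurd (by rw [h]) hy1
    · exact Or.inl h
    · exact Or.inr (Or.inl h)
    · exact Or.inr (Or.inr (Or.inl h))
    · exact Or.inr (Or.inr (Or.inr h))
    · exfalso
      apply hy2
      have h3 : (sg G y).1 = y.2 := rfl
      rw [← h3, h, hcyc]
  refine (Finset.sum_le_sum_of_subset_of_nonneg h2 (fun y _ _ => vg_nonneg63 _ y)).trans ?_
  have g1 := sum_insert_le63 (vg63 x.1) (vg_nonneg63 x.1) (sg G x)
    {sg G (sg G x), sg G (sg G (sg G x)), sg G (sg G (sg G (sg G x)))}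
  have g2 := sum_insert_le63 (vg63 x.1) (vg_nonneg63 x.1) (sg G (sg G x))
    {sg G (sg G (sg G x)), sg G (sg G (sg G (sg G x)))}
  have g3 := sum_insert_le63 (vg63 x.1) (vg_nonneg63 x.1) (sg G (sg G (sg G x)))
    {sg G (sg G (sg G (sg G x)))}
  rw [Finset.sum_singleton] at g3
  linarith

/-- `cos` of a corner of a hexagon larger than `2 α` -/
theorem cos_six63 (hG : G.Geo4 (alpha d) kp U) (hD : DelG G d) (hS : Sep d G.P)
    {C : G.adj.ConnectedComponent} (hC : C ∈ WF G)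
    (h6 : (G.cJ C).card = 6) {x : ℍ × ℍ} (hx : x ∈ G.cJ C) (h : 2 * alpha d ≤ TH G (sg G x)) :
    Real.cos (ang x.2 (sg G x).2 x.1) ≤ Real.cos (2 * alpha d) := by
  have hCi := ((mem_WF89 G).1 hC).1
  have hxi := (cJ_iJ51 G hCi hx).1
  have h1 := TH_coe19 (u := x.1) (v := x.2) hG hD hxi
  have h2 := congrArg Real.Angle.cos h1
  rw [Real.Angle.cos_coe, Real.Angle.cos_coe] at h2
  rw [← h2]
  have h3 := TH_vis19 hG hD hS hCi (sg_cJ90 G hG hCi hx)
  rw [h6] at h3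
  have hal := alpha_lt hD.hd
  have hap := alpha_pos hD.hd
  have h4 : TH G (sg G x) ≤ 2 * Real.pi - 2 * alpha d := by
    push_cast at h3
    linarith
  rcases le_total (TH G (sg G x)) Real.pi with h5 | h5
  · exact Real.cos_le_cos_of_nonneg_of_le_pi (by linarith) h5 h
  · have h7 : Real.cos (TH G (sg G x)) = Real.cos (2 * Real.pi - TH G (sg G x)) := by
      rw [Real.cos_two_pi_sub]
    rw [show ((x.1, x.2) : ℍ × ℍ) = x from rfl, h7]
    exact Real.cos_le_cos_of_nonneg_of_le_pi (by linarith) (by linarith) (by linarith)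

theorem side63 (hD : DelG G d) {C : G.adj.ConnectedComponent} {y : ℍ × ℍ} (hy : y ∈ G.cJ C) :
    y.1 ∈ G.P ∧ y.2 ∈ G.P ∧ dist y.1 y.2 = d := by
  unfold Tg.cJ at hy
  rw [Finset.mem_filter] at hy
  exact ⟨G.mem _ _ (G.sub hy.1), G.mem _ _ (G.sub (G.ap1 _ _ hy.1)), hD.con _ _ hy.2.2⟩

/-- **the corner before a corner at least `2 α`** is at most `3 α` -/
theorem six_before63 (hG : G.Geo4 (alpha d) kp U) (hD : DelG G d) (hS : Sep d G.P)
    {C : G.adj.ConnectedComponent} (hC : C ∈ WF G) (hd6 : (G.cI C).card + 2 = 2 * (G.cT C).card)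
    (h6 : (G.cJ C).card = 6) {x : ℍ × ℍ} (hx : x ∈ G.cJ C) (h : 2 * alpha d ≤ TH G (sg G x)) :
    TH G x ≤ 3 * alpha d := by
  have hCi := ((mem_WF89 G).1 hC).1
  obtain ⟨hset, hcyc⟩ := six90 G hG hC hd6 h6 hx
  have hc := cos_six63 hG hD hS hC h6 hx h
  refine (TH_six63 hG hD hS hC hd6 h6 hx).trans ?_
  have x1 := sg_cJ90 G hG hCi hx
  have x2 := sg_cJ90 G hG hCi x1
  have x3 := sg_cJ90 G hG hCi x2
  have x4 := sg_cJ90 G hG hCi x3
  have x5 := sg_cJ90 G hG hCi x4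
  obtain ⟨p0, -, d0⟩ := side63 hD hx
  obtain ⟨p1, q1, d1⟩ := side63 hD x1
  obtain ⟨p2, q2, d2⟩ := side63 hD x2
  obtain ⟨p3, q3, d3⟩ := side63 hD x3
  obtain ⟨p4, q4, d4⟩ := side63 hD x4
  obtain ⟨p5, q5, d5⟩ := side63 hD x5
  have e6 : (sg G (sg G (sg G (sg G (sg G x))))).2 = x.1 := by
    have h3 : (sg G (sg G (sg G (sg G (sg G (sg G x)))))).1 =
        (sg G (sg G (sg G (sg G (sg G x))))).2 := rfl
    rw [← h3, hcyc]
  rw [e6, dist_comm] at d5
  exact four_sides63 hD.hd hS (v0 := x.1) (v1 := x.2) (v2 := (sg G x).2) (v3 := (sg G (sg G x)).2)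
    (v4 := (sg G (sg G (sg G x))).2) (v5 := (sg G (sg G (sg G (sg G x)))).2) p0 p1 q1 q2 q3 q4
    d0 d1 d2 d3 d4 d5 hc (vg63 x.1)
    (by
      intro a b hab
      unfold vg63
      rw [if_pos hab])
    (by
      intro a b ha hb
      unfold vg63
      rw [if_neg (by push Not; exact ⟨ha, hb⟩)])

/-- **the corner after a corner at least `2 α`** is at most `3 α` -/
theorem six_after63 (hG : G.Geo4 (alpha d) kp U) (hD : DelG G d) (hS : Sep d G.P)
    {C : G.adj.ConnectedComponent} (hC : C ∈ WF G) (hd6 : (G.cI C).card + 2 = 2 * (G.cT C).card)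
    (h6 : (G.cJ C).card = 6) {x : ℍ × ℍ} (hx : x ∈ G.cJ C) (h : 2 * alpha d ≤ TH G x) :
    TH G (sg G x) ≤ 3 * alpha d := by
  have hCi := ((mem_WF89 G).1 hC).1
  obtain ⟨hset, hcyc⟩ := six90 G hG hC hd6 h6 hx
  have x1 := sg_cJ90 G hG hCi hx
  have x2 := sg_cJ90 G hG hCi x1
  have x3 := sg_cJ90 G hG hCi x2
  have x4 := sg_cJ90 G hG hCi x3
  have x5 := sg_cJ90 G hG hCi x4
  have e6 : (sg G (sg G (sg G (sg G (sg G x))))).2 = x.1 := by
    have h3 : (sg G (sg G (sg G (sg G (sg G (sg G x)))))).1 =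
        (sg G (sg G (sg G (sg G (sg G x))))).2 := rfl
    rw [← h3, hcyc]
  have hc := cos_six63 hG hD hS hC h6 x5 (by rw [hcyc]; exact h)
  rw [e6, hcyc] at hc
  obtain ⟨p0, q0, d0⟩ := side63 hD hx
  obtain ⟨p1, q1, d1⟩ := side63 hD x1
  obtain ⟨p2, q2, d2⟩ := side63 hD x2
  obtain ⟨p3, q3, d3⟩ := side63 hD x3
  obtain ⟨p4, q4, d4⟩ := side63 hD x4
  obtain ⟨p5, q5, d5⟩ := side63 hD x5
  rw [e6] at d5
  refine (TH_six63 hG hD hS hC hd6 h6 x1).trans ?_
  have n0 : x.1 ≠ x.2 := ne63 hD.hd (by rw [dist_comm]; exact d0.ge)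
  rw [hcyc] at *
  have n5 : (sg G (sg G (sg G (sg G (sg G x))))).1 ≠ x.1 := ne63 hD.hd (by
    rw [dist_comm]
    exact d5.ge)
  have hc' : Real.cos (ang x.1 (sg G (sg G (sg G (sg G (sg G x))))).1 x.2) ≤
      Real.cos (2 * alpha d) := by
    rw [cos_ang_comm63 n5 n0.symm]
    exact hc
  have hfin := four_sides63 hD.hd hS (v0 := x.2) (v1 := x.1)
    (v2 := (sg G (sg G (sg G (sg G (sg G x))))).1) (v3 := (sg G (sg G (sg G (sg G x)))).1)
    (v4 := (sg G (sg G (sg G x))).1) (v5 := (sg G (sg G x)).1) q0 p0 p5 p4 p3 p2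
    (by rw [dist_comm]; exact d0) (by rw [dist_comm]; exact d5) (by rw [dist_comm]; exact d4)
    (by rw [dist_comm]; exact d3) (by rw [dist_comm]; exact d2) d1 hc'
    (fun y => vg63 x.2 (y.2, y.1))
    (by
      intro a b hab
      unfold vg63
      rw [if_pos hab.symm])
    (by
      intro a b ha hb
      unfold vg63
      rw [if_neg (by push Not; exact ⟨hb, ha⟩), abs_ang_comm63 ha hb])
  dsimp only at hfin
  have r1 : sg G (sg G x) = ((sg G (sg G x)).1, (sg G (sg G (sg G x))).1) := rfl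
  have r2 : sg G (sg G (sg G x)) = ((sg G (sg G (sg G x))).1, (sg G (sg G (sg G (sg G x)))).1) := rfl
  have r3 : sg G (sg G (sg G (sg G x))) = ((sg G (sg G (sg G (sg G x)))).1,
    (sg G (sg G (sg G (sg G (sg G x))))).1) := rfl
  have r4 : sg G (sg G (sg G (sg G (sg G x)))) = ((sg G (sg G (sg G (sg G (sg G x))))).1,
    x.1) := by
    rw [← e6]
  have r0 : (sg G x).1 = x.2 := rfl
  rw [r0]
  rw [← r1, ← r2, ← r3, ← r4] at hfin
  linarith

/-- more than `m ≥ 2` units -/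
theorem un_gt63 (hG : G.Geo4 (alpha d) kp U) {x : ℍ × ℍ} {m : ℕ} (hm : 2 ≤ m)
    (h : m < un G (alpha d) x) : m * alpha d < TH G x := by
  by_contra hc
  push Not at hc
  exact absurd (un_le19 G hG hm hc) (by omega)

/-- in units: before a corner of at least three units there are at most three units -/
theorem un_before63 (hG : G.Geo4 (alpha d) kp U) (hD : DelG G d) (hS : Sep d G.P)
    {C : G.adj.ConnectedComponent} (hC : C ∈ WF G) (hd6 : (G.cI C).card + 2 = 2 * (G.cT C).card)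
    (h6 : (G.cJ C).card = 6) {x : ℍ × ℍ} (hx : x ∈ G.cJ C) (h : 3 ≤ un G (alpha d) (sg G x)) :
    un G (alpha d) x ≤ 3 := by
  have h1 := un_gt63 hG (m := 2) le_rfl (by omega) (x := sg G x)
  push_cast at h1
  exact un_le19 G hG (n := 3) (by norm_num) (by
    push_cast
    exact six_before63 hG hD hS hC hd6 h6 hx h1.le)

/-- in units: after a corner of at least three units there are at most three units -/
theorem un_after63 (hG : G.Geo4 (alpha d) kp U) (hD : DelG G d) (hS : Sep d G.P)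
    {C : G.adj.ConnectedComponent} (hC : C ∈ WF G) (hd6 : (G.cI C).card + 2 = 2 * (G.cT C).card)
    (h6 : (G.cJ C).card = 6) {x : ℍ × ℍ} (hx : x ∈ G.cJ C) (h : 3 ≤ un G (alpha d) x) :
    un G (alpha d) (sg G x) ≤ 3 := by
  have h1 := un_gt63 hG (m := 2) le_rfl (by omega) (x := x)
  push_cast at h1
  exact un_le19 G hG (n := 3) (by norm_num) (by
    push_cast
    exact six_after63 hG hD hS hC hd6 h6 hx h1.le)

end conc

end

end Pool.Agent.PEN.E5
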