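import Pool.Agent.E5.Fan19
import Pool.Agent.E5.Hn63

/-! # PENNY, all small diameters: hexagon faces

No four consecutive corners of three units; a corner `> 3 α` (the opened fan); a hexagon face has
at most 17 units, and 17 only with the pattern `(4,2,3,3,3,2)`. -/

set_option autoImplicit false

namespace Pool.Agent.PEN.E5

open Classical UpperHalfPlane
open Pool.Agent.PEN.Cl

noncomputable section

theorem abs_ang_le19 (v a b : ℍ) : |ang v a b| ≤ Real.pi :=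
  abs_le.2 ⟨(Complex.neg_pi_lt_arg _).le, Complex.arg_le_pi _⟩

theorem sin_abs_ang19 (v a b : ℍ) : Real.sin |ang v a b| = |Real.sin (ang v a b)| := by
  rcases le_total 0 (ang v a b) with h | h
  · rw [abs_of_nonneg h, abs_of_nonneg (Real.sin_nonneg_of_nonneg_of_le_pi h (Complex.arg_le_pi _))]
  · rw [abs_of_nonpos h, Real.sin_neg, abs_of_nonpos
      (Real.sin_nonpos_of_nonpos_of_neg_pi_le h (Complex.neg_pi_lt_arg _).le)]

/-- law of sines for the sides `a v`, `b v` of a triangle `v a b` -/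
theorem sines19 {v a b : ℍ} (h1 : a ≠ v) (h2 : b ≠ v) (h3 : b ≠ a) :
    Real.sinh (dist a v) * Real.sin |ang a v b| = Real.sinh (dist b v) * Real.sin |ang b a v| := by
  have e1 := sin_law66 (v := a) (a := v) (b := b) h1.symm h3
  have e2 := sin_law66 (v := b) (a := a) (b := v) h3.symm h2.symm
  have s : 0 < Real.sinh (dist a b) := Real.sinh_pos_iff.2 (dist_pos.2 h3.symm)
  have e3 : Real.sinh (dist a b) * (Real.sinh (dist a v) * Real.sin (ang a v b)) =
      Real.sinh (dist a b) * (Real.sinh (dist b v) * Real.sin (ang b a v)) := by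
    have o : ori (kl a) (kl v) (kl b) = ori (kl b) (kl a) (kl v) := by
      unfold ori
      ring
    rw [dist_comm b a] at e2
    rw [show Real.sinh (dist a b) * (Real.sinh (dist a v) * Real.sin (ang a v b)) =
      Real.sinh (dist a v) * Real.sinh (dist a b) * Real.sin (ang a v b) by ring, e1, o,
      show Real.sinh (dist a b) * (Real.sinh (dist b v) * Real.sin (ang b a v)) =
      Real.sinh (dist a b) * Real.sinh (dist b v) * Real.sin (ang b a v) by ring, e2]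
    ring
  have e4 := mul_left_cancel₀ s.ne' e3
  rw [sin_abs_ang19, sin_abs_ang19]
  have s1 : 0 ≤ Real.sinh (dist a v) := Real.sinh_nonneg_iff.2 dist_nonneg
  have s2 : 0 ≤ Real.sinh (dist b v) := Real.sinh_nonneg_iff.2 dist_nonneg
  have e5 := congrArg abs e4
  rw [abs_mul, abs_mul, abs_of_nonneg s1, abs_of_nonneg s2] at e5
  exact e5

/-- **the opened fan**, sizes of angles -/
theorem fan_abs19 {d : ℝ} (hd : 0 < d) {v0 v1 v2 v3 v4 v5 : ℍ} (s1 : dist v0 v1 = d)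
    (s2 : dist v1 v2 = d) (s3 : dist v2 v3 = d) (s4 : dist v3 v4 = d) (s5 : dist v4 v5 = d)
    (s6 : dist v0 v5 = d) (r2 : d ≤ dist v0 v2) (r3 : d ≤ dist v0 v3) (r4 : d ≤ dist v0 v4)
    (hu : Real.cosh (dist v0 v3) ≤
      Real.cosh d ^ 2 - Real.sinh d ^ 2 * Real.cos (2 * alpha d))
    (t1 : |ang v1 v2 v0| ≤ 2 * alpha d) (t5 : |ang v5 v0 v4| ≤ 2 * alpha d) :
    |ang v4 v5 v0| + |ang v4 v0 v3| ≤ 3 * alpha d ∧
    |ang v3 v0 v2| + |ang v3 v4 v0| + (|ang v4 v5 v0| + |ang v4 v0 v3|) ≤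
      |ang v1 v2 v0| + 3 * alpha d := by
  have n01 : v1 ≠ v0 := ne63 hd s1.ge
  have n02 : v2 ≠ v0 := ne63 hd r2
  have n03 : v3 ≠ v0 := ne63 hd r3
  have n04 : v4 ≠ v0 := ne63 hd r4
  have n05 : v5 ≠ v0 := ne63 hd s6.ge
  have n12 : v2 ≠ v1 := ne63 hd s2.ge
  have n23 : v3 ≠ v2 := ne63 hd s3.ge
  have n34 : v4 ≠ v3 := ne63 hd s4.ge
  have n45 : v5 ≠ v4 := ne63 hd s5.ge
  have a1 := cosh_law (v := v1) (a := v2) (b := v0) n12 n01.symm
  rw [s2, dist_comm v1 v0, s1, dist_comm v2 v0] at a1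
  have a5 := cosh_law (v := v5) (a := v0) (b := v4) n05.symm n45.symm
  rw [dist_comm v5 v0, s6, dist_comm v5 v4, s5] at a5
  have a2 := cosh_law (v := v3) (a := v0) (b := v2) n03.symm n23.symm
  rw [dist_comm v3 v0, dist_comm v3 v2, s3] at a2
  have a3 := cosh_law (v := v3) (a := v4) (b := v0) n34 n03.symm
  rw [s4, dist_comm v3 v0, dist_comm v4 v0] at a3
  have a4 := cosh_law (v := v4) (a := v0) (b := v3) n04.symm n34.symm
  rw [dist_comm v4 v0, dist_comm v4 v3, s4] at a4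
  have a6 := cosh_law (v := v4) (a := v5) (b := v0) n45 n04.symm
  rw [s5, dist_comm v4 v0, dist_comm v5 v0, s6] at a6
  have a7 := sines19 (v := v0) (a := v4) (b := v3) n04 n03 n34.symm
  rw [dist_comm v4 v0, dist_comm v3 v0] at a7
  obtain ⟨c1, c2⟩ := fan_num19 (r2 := dist v0 v2) (r3 := dist v0 v3) (r4 := dist v0 v4)
    (t1 := |ang v1 v2 v0|) (t5 := |ang v5 v0 v4|) (m2 := |ang v3 v0 v2|) (m3 := |ang v3 v4 v0|)
    (k := |ang v4 v0 v3|) (b5 := |ang v4 v5 v0|) hd r2 r3 r4 hu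
    (by rw [Real.cos_abs, a1]; ring) (abs_nonneg _) t1
    (by rw [Real.cos_abs, a5]; ring) (abs_nonneg _) t5
    (by rw [Real.cos_abs, a2]; ring) (abs_ang_le19 _ _ _)
    (by rw [Real.cos_abs, a3]) (abs_nonneg _) (abs_ang_le19 _ _ _)
    (by rw [Real.cos_abs, a4]; ring) (abs_ang_le19 _ _ _) a7
    (by
      rw [Real.cos_abs]
      exact a6) (abs_ang_le19 _ _ _)
  constructor <;> linarith

theorem coe_inj19' {s t : ℝ} (h : ((s : ℝ) : Real.Angle) = ((t : ℝ) : Real.Angle)) (h1 : 0 ≤ s)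
    (h2 : s ≤ t) (h3 : t < 2 * Real.pi) : s = t := by
  rw [Real.Angle.angle_eq_iff_two_pi_dvd_sub] at h
  obtain ⟨k, hk⟩ := h
  have hp := Real.pi_pos
  have h5 : -1 < (k : ℝ) := by
    by_contra hc
    push Not at hc
    nlinarith
  have h6 : (k : ℝ) < 1 := by
    by_contra hc
    push Not at hc
    nlinarith
  have h7 : k = 0 := by
    have h8 : -1 < k := by exact_mod_cast h5
    have h9 : k < 1 := by exact_mod_cast h6
    omega
  rw [h7] at hk
  push_cast at hk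
  linarith

/-- two representatives in `(0, 2 π)` are equal -/
theorem coe_eq19 {s t : ℝ} (h : ((s : ℝ) : Real.Angle) = ((t : ℝ) : Real.Angle)) (s0 : 0 < s)
    (s1 : s < 2 * Real.pi) (t0 : 0 < t) (t1 : t < 2 * Real.pi) : s = t := by
  rcases le_total s t with h1 | h1
  · exact coe_inj19' h s0.le h1 t1
  · exact (coe_inj19' h.symm t0.le h1 s1).symm

section conc
variable {G : Tg ℍ} {d : ℝ} {kp : ℍ → ℍ → ℝ} {U : ℕ → ℝ}

/-- the angle of a corner at most `π` -/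
theorem ang_TH19 (hG : G.Geo4 (alpha d) kp U) (hD : DelG G d) (hS : Sep d G.P) {u v : ℍ}
    (hx : (u, v) ∈ iJ G) (h : TH G (sg G (u, v)) ≤ Real.pi) :
    ang v (sg G (u, v)).2 u = TH G (sg G (u, v)) := by
  have hal := alpha_pos hD.hd
  have h1 := TH_ge19 hG hD hS (W4.sg_mem51 G hG hx).1
  have h2 := congrArg Real.Angle.toReal (TH_coe19 hG hD hx)
  rw [Real.Angle.toReal_coe_eq_self_iff.2 ⟨by linarith [Real.pi_pos], h⟩] at h2
  have h3 : ((ang v (sg G (u, v)).2 u : ℝ) : Real.Angle).toReal = ang v (sg G (u, v)).2 u :=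
    Real.Angle.toReal_coe_eq_self_iff.2 ⟨Complex.neg_pi_lt_arg _, Complex.arg_le_pi _⟩
  rw [h3] at h2
  exact h2.symm

/-- the six points of a hexagon face -/
theorem hex_pts19 (hG : G.Geo4 (alpha d) kp U) {C : G.adj.ConnectedComponent} (hC : C ∈ WF G)
    (hd6 : (G.cI C).card + 2 = 2 * (G.cT C).card) (h6 : (G.cJ C).card = 6) {v0 v1 : ℍ}
    (hx : (v0, v1) ∈ G.cJ C) :
    ∃ v2 v3 v4 v5 : ℍ, sg G (v0, v1) = (v1, v2) ∧ sg G (v1, v2) = (v2, v3) ∧
      sg G (v2, v3) = (v3, v4) ∧ sg G (v3, v4) = (v4, v5) ∧ sg G (v4, v5) = (v5, v0) ∧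
      sg G (v5, v0) = (v0, v1) ∧
      G.cJ C = {(v0, v1), (v1, v2), (v2, v3), (v3, v4), (v4, v5), (v5, v0)} := by
  obtain ⟨hset, hcyc⟩ := six90 G hG hC hd6 h6 hx
  obtain ⟨v2, h2⟩ : ∃ v2, v2 = (sg G (v0, v1)).2 := ⟨_, rfl⟩
  have g0 : sg G (v0, v1) = (v1, v2) := by rw [h2]; rfl
  obtain ⟨v3, h3⟩ : ∃ v3, v3 = (sg G (v1, v2)).2 := ⟨_, rfl⟩
  have g1 : sg G (v1, v2) = (v2, v3) := by rw [h3]; rfl
  obtain ⟨v4, h4⟩ : ∃ v4, v4 = (sg G (v2, v3)).2 := ⟨_, rfl⟩
  have g2 : sg G (v2, v3) = (v3, v4) := by rw [h4]; rfl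
  obtain ⟨v5, h5⟩ : ∃ v5, v5 = (sg G (v3, v4)).2 := ⟨_, rfl⟩
  have g3 : sg G (v3, v4) = (v4, v5) := by rw [h5]; rfl
  rw [g0, g1, g2, g3] at hset hcyc
  have e : (sg G (v4, v5)).2 = v0 := by
    have h7 : (sg G (sg G (v4, v5))).1 = (sg G (v4, v5)).2 := rfl
    rw [← h7, hcyc]
  have g4 : sg G (v4, v5) = (v5, v0) := by rw [← e]; rfl
  rw [g4] at hset hcyc
  exact ⟨v2, v3, v4, v5, g0, g1, g2, g3, g4, hcyc, hset⟩

/-- **no four consecutive corners of three units** -/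
theorem hex_four19 (hG : G.Geo4 (alpha d) kp U) (hD : DelG G d) (hS : Sep d G.P)
    {C : G.adj.ConnectedComponent} (hC : C ∈ WF G) (hd6 : (G.cI C).card + 2 = 2 * (G.cT C).card)
    (h6 : (G.cJ C).card = 6) {x : ℍ × ℍ} (hx : x ∈ G.cJ C)
    (u0 : un G (alpha d) x = 3) (u1 : un G (alpha d) (sg G x) = 3)
    (u2 : un G (alpha d) (sg G (sg G x)) = 3) (u3 : un G (alpha d) (sg G (sg G (sg G x))) = 3) :
    False := by
  have hCi := ((mem_WF89 G).1 hC).1
  have hal := alpha_lt hD.hd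
  have hal0 := alpha_pos hD.hd
  obtain ⟨v0, v1⟩ := x
  obtain ⟨v2, v3, v4, v5, g0, g1, g2, g3, g4, g5, hset⟩ := hex_pts19 hG hC hd6 h6 hx
  rw [g0] at u1 u2 u3
  rw [g1] at u2 u3
  rw [g2] at u3
  have x0 := hx
  have x1 := sg_cJ90 G hG hCi x0
  rw [g0] at x1
  have x2 := sg_cJ90 G hG hCi x1
  rw [g1] at x2
  have x3 := sg_cJ90 G hG hCi x2
  rw [g2] at x3
  have x4 := sg_cJ90 G hG hCi x3
  rw [g3] at x4
  have x5 := sg_cJ90 G hG hCi x4
  rw [g4] at x5
  have b : ∀ {y : ℍ × ℍ}, un G (alpha d) y = 3 → 2 * alpha d ≤ TH G y ∧ TH G y ≤ 3 * alpha d := by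
    intro y hy
    have h1 := un_gt63 hG (m := 2) le_rfl (x := y) (by omega)
    push_cast at h1
    have h2 := TH_gc19 G hG y
    have h3 := gc_nonneg89 G hG (x := y)
    rw [hy] at h2
    push_cast at h2
    exact ⟨h1.le, by nlinarith⟩
  obtain ⟨l0, r0⟩ := b u0
  obtain ⟨l1, r1⟩ := b u1
  obtain ⟨l2, r2⟩ := b u2
  obtain ⟨l3, r3⟩ := b u3
  have i5 := (cJ_iJ51 G hCi x5).1
  have i0 := (cJ_iJ51 G hCi x0).1
  have i1 := (cJ_iJ51 G hCi x1).1
  have i2 := (cJ_iJ51 G hCi x2).1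
  have k0 := ang_TH19 hG hD hS i5 (by rw [g5]; linarith)
  have k1 := ang_TH19 hG hD hS i0 (by rw [g0]; linarith)
  have k2 := ang_TH19 hG hD hS i1 (by rw [g1]; linarith)
  have k3 := ang_TH19 hG hD hS i2 (by rw [g2]; linarith)
  rw [g5] at k0
  rw [g0] at k1
  rw [g1] at k2
  rw [g2] at k3
  dsimp only at k0 k1 k2 k3
  have d0 := (side63 hD x0).2.2
  have d1 := (side63 hD x1).2.2
  have d2 := (side63 hD x2).2.2
  have d3 := (side63 hD x3).2.2
  have d4 := (side63 hD x4).2.2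
  have d5 := (side63 hD x5).2.2
  dsimp only at d0 d1 d2 d3 d4 d5
  exact hexagon63 hD.hd (v1 := v5) (v2 := v0) (v3 := v1) (v4 := v2) (v5 := v3) (v6 := v4)
    d5 d0 d1 d2 d3 d4 k0 k1 k2 k3 l0 r0 l1 r1 l2 r2 l3 r3

/-- **a corner larger than `3 α` of a hexagon face**: the opened fan -/
theorem hex_fan19 (hG : G.Geo4 (alpha d) kp U) (hD : DelG G d) (hS : Sep d G.P)
    {C : G.adj.ConnectedComponent} (hC : C ∈ WF G) (hd6 : (G.cI C).card + 2 = 2 * (G.cT C).card)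
    (h6 : (G.cJ C).card = 6) {x : ℍ × ℍ} (hx : x ∈ G.cJ C) (h : 3 * alpha d < TH G x) :
    TH G (sg G (sg G x)) ≤ 3 * alpha d ∧ TH G (sg G (sg G (sg G (sg G x)))) ≤ 3 * alpha d ∧
    TH G (sg G (sg G (sg G x))) + TH G (sg G (sg G (sg G (sg G x)))) ≤
      TH G (sg G x) + 3 * alpha d ∧
    TH G (sg G (sg G (sg G x))) + TH G (sg G (sg G x)) ≤
      TH G (sg G (sg G (sg G (sg G (sg G x))))) + 3 * alpha d := by
  have hCi := ((mem_WF89 G).1 hC).1
  have hd := hD.hd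
  have hal := alpha_lt hd
  have hal0 := alpha_pos hd
  have hp := Real.pi_pos
  obtain ⟨v0, v1⟩ := x
  obtain ⟨v2, v3, v4, v5, g0, g1, g2, g3, g4, g5, hset⟩ := hex_pts19 hG hC hd6 h6 hx
  have x0 := hx
  have x1 := sg_cJ90 G hG hCi x0
  rw [g0] at x1
  have x2 := sg_cJ90 G hG hCi x1
  rw [g1] at x2
  have x3 := sg_cJ90 G hG hCi x2
  rw [g2] at x3
  have x4 := sg_cJ90 G hG hCi x3
  rw [g3] at x4
  have x5 := sg_cJ90 G hG hCi x4
  rw [g4] at x5
  obtain ⟨P0, P1, d0⟩ := side63 hD x0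
  obtain ⟨-, P2, d1⟩ := side63 hD x1
  obtain ⟨-, P3, d2⟩ := side63 hD x2
  obtain ⟨-, P4, d3⟩ := side63 hD x3
  obtain ⟨-, P5, d4⟩ := side63 hD x4
  have d5 := (side63 hD x5).2.2
  dsimp only at P0 P1 P2 P3 P4 P5 d0 d1 d2 d3 d4 d5
  have i0 := (cJ_iJ51 G hCi x0).1
  have i1 := (cJ_iJ51 G hCi x1).1
  have i2 := (cJ_iJ51 G hCi x2).1
  have i3 := (cJ_iJ51 G hCi x3).1
  have i4 := (cJ_iJ51 G hCi x4).1
  have i5 := (cJ_iJ51 G hCi x5).1
  -- the neighbours
  have n1 : TH G (v1, v2) < 2 * alpha d := by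
    by_contra hc
    push Not at hc
    have := six_before63 hG hD hS hC hd6 h6 x0 (by rw [g0]; exact hc)
    linarith
  have n5 : TH G (v5, v0) < 2 * alpha d := by
    by_contra hc
    push Not at hc
    have := six_after63 hG hD hS hC hd6 h6 x5 hc
    rw [g5] at this
    linarith
  -- the four sides seen from `v0`
  obtain ⟨F, hF⟩ : ∃ F, F = (G.cJ C).filter (fun y => y.1 ≠ v0 ∧ y.2 ≠ v0) := ⟨_, rfl⟩
  have hv := TH_vis_ang19 hG hD hS hCi x0
  dsimp only at hv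
  rw [← hF] at hv
  have hle : ∀ y ∈ F, ang v0 y.1 y.2 ≤ alpha d := by
    intro y hy
    rw [hF, Finset.mem_filter] at hy
    obtain ⟨q1, q2, q3⟩ := side63 hD hy.1
    exact (abs_le.1 (visual66 hd q3 (hS v0 P0 _ q1 (Ne.symm hy.2.1))
      (hS v0 P0 _ q2 (Ne.symm hy.2.2)))).2
  have hFc : ∀ y, (∑ z ∈ F.erase y, ang v0 z.1 z.2) ≤ (F.erase y).card * alpha d := by
    intro y
    rw [← nsmul_eq_mul]
    exact Finset.sum_le_card_nsmul _ _ _ fun z hz => hle z (Finset.mem_of_mem_erase hz)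
  obtain ⟨T, hT⟩ : ∃ T : Finset (ℍ × ℍ), T = {(v1, v2), (v2, v3), (v3, v4), (v4, v5)} := ⟨_, rfl⟩
  have hFT : F ⊆ T := by
    intro y hy
    rw [hF, Finset.mem_filter, hset] at hy
    obtain ⟨hy, hy1, hy2⟩ := hy
    rw [hT]
    simp only [Finset.mem_insert, Finset.mem_singleton] at hy ⊢
    rcases hy with e | e | e | e | e | e
    · exact absurd (by rw [e]) hy1
    · exact Or.inl e
    · exact Or.inr (Or.inl e)
    · exact Or.inr (Or.inr (Or.inl e))
    · exact Or.inr (Or.inr (Or.inr e))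
    · exact absurd (by rw [e]) hy2
  have hTc : T.card ≤ 4 := by
    rw [hT]
    exact Finset.card_le_four
  have hFle := Finset.card_le_card hFT
  have hFs : (∑ z ∈ F, ang v0 z.1 z.2) ≤ F.card * alpha d := by
    rw [← nsmul_eq_mul]
    exact Finset.sum_le_card_nsmul _ _ _ fun z hz => hle z hz
  have hF4 : F.card = 4 := by
    have h1 : 3 * alpha d < F.card * alpha d := lt_of_lt_of_le h (hv.trans hFs)
    have h2 : (3 : ℝ) < F.card := lt_of_mul_lt_mul_right h1 hal0.le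
    have h3 : 3 < F.card := by exact_mod_cast h2
    omega
  have hFe : F = T := Finset.eq_of_subset_of_card_le hFT (by omega)
  have pos : ∀ y ∈ F, 0 < ang v0 y.1 y.2 := by
    intro y hy
    have h1 := Finset.add_sum_erase F (fun z => ang v0 z.1 z.2) hy
    have h2 := hFc y
    rw [Finset.card_erase_of_mem hy, hF4] at h2
    push_cast at h2
    norm_num at h2
    linarith
  have m1 : (v1, v2) ∈ F := by rw [hFe, hT]; simp
  have m2 : (v2, v3) ∈ F := by rw [hFe, hT]; simp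
  have m3 : (v3, v4) ∈ F := by rw [hFe, hT]; simp
  have m4 : (v4, v5) ∈ F := by rw [hFe, hT]; simp
  have p1 := pos _ m1
  have p2 := pos _ m2
  have p3 := pos _ m3
  have p4 := pos _ m4
  have l1 := hle _ m1
  have l2 := hle _ m2
  have l3 := hle _ m3
  have l4 := hle _ m4
  rw [hF, Finset.mem_filter] at m1 m2 m3 m4
  dsimp only at p1 p2 p3 p4 l1 l2 l3 l4 m1 m2 m3 m4
  have n01 : v1 ≠ v0 := m1.2.1
  have n02 : v2 ≠ v0 := m1.2.2
  have n03 : v3 ≠ v0 := m2.2.2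
  have n04 : v4 ≠ v0 := m3.2.2
  have n05 : v5 ≠ v0 := m4.2.2
  have r2 := hS v0 P0 v2 P2 n02.symm
  have r3 := hS v0 P0 v3 P3 n03.symm
  have r4 := hS v0 P0 v4 P4 n04.symm
  have n12 : v2 ≠ v1 := ne63 hd d1.ge
  have n23 : v3 ≠ v2 := ne63 hd d2.ge
  have n34 : v4 ≠ v3 := ne63 hd d3.ge
  have n45 : v5 ≠ v4 := ne63 hd d4.ge
  -- the middle spoke is short
  have hu : Real.cosh (dist v0 v3) ≤
      Real.cosh d ^ 2 - Real.sinh d ^ 2 * Real.cos (2 * alpha d) := by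
    rw [← lon_eq63 hd]
    by_contra hc
    push Not at hc
    have q1 := quarter63 hd (O := v0) (A := v3) (B := v4) (D := v5) d3 d4 hc.le r4
      (by rw [dist_comm]; exact d5.ge)
    have q2 := quarter63 hd (O := v0) (A := v3) (B := v2) (D := v1) (by rw [dist_comm]; exact d2)
      (by rw [dist_comm]; exact d1) hc.le r2 d0.ge
    rw [abs_ang_comm63 n03 n02, abs_ang_comm63 n02 n01] at q2
    have h1 : (∑ z ∈ F, ang v0 z.1 z.2) ≤ ∑ z ∈ T, |ang v0 z.1 z.2| := by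
      rw [hFe]
      exact Finset.sum_le_sum fun z _ => le_abs_self _
    have a1 := sum_insert_le63 (fun z : ℍ × ℍ => |ang v0 z.1 z.2|) (fun _ => abs_nonneg _) (v1, v2)
      {(v2, v3), (v3, v4), (v4, v5)}
    have a2 := sum_insert_le63 (fun z : ℍ × ℍ => |ang v0 z.1 z.2|) (fun _ => abs_nonneg _) (v2, v3)
      {(v3, v4), (v4, v5)}
    have a3 := sum_insert_le63 (fun z : ℍ × ℍ => |ang v0 z.1 z.2|) (fun _ => abs_nonneg _) (v3, v4)
      {(v4, v5)}
    rw [Finset.sum_singleton] at a3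
    dsimp only at a1 a2 a3
    rw [hT] at h1
    linarith
  -- the orientations
  have ori_of : ∀ {a b : ℍ}, a ≠ v0 → b ≠ v0 → 0 < ang v0 a b → ang v0 a b ≤ alpha d →
      0 < ori (kl v0) (kl a) (kl b) := fun ha hb h1 h2 =>
    (ori_sin63 ha hb).2 (Real.sin_pos_of_pos_of_lt_pi h1 (by linarith))
  have o1 := ori_of n01 n02 p1 l1
  have o2 := ori_of n02 n03 p2 l2
  have o3 := ori_of n03 n04 p3 l3
  have o4 := ori_of n04 n05 p4 l4
  have z1 : 0 < ang v1 v2 v0 := ang_pos63 n12 n01.symm (by rw [ori_cyc63]; exact o1)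
  have z2 : 0 < ang v2 v0 v1 := ang_pos63 n02.symm n12.symm (by rw [← ori_cyc63]; exact o1)
  have z3 : 0 < ang v2 v3 v0 := ang_pos63 n23 n02.symm (by rw [ori_cyc63]; exact o2)
  have z4 : 0 < ang v3 v0 v2 := ang_pos63 n03.symm n23.symm (by rw [← ori_cyc63]; exact o2)
  have z5 : 0 < ang v3 v4 v0 := ang_pos63 n34 n03.symm (by rw [ori_cyc63]; exact o3)
  have z6 : 0 < ang v4 v0 v3 := ang_pos63 n04.symm n34.symm (by rw [← ori_cyc63]; exact o3)
  have z7 : 0 < ang v4 v5 v0 := ang_pos63 n45 n04.symm (by rw [ori_cyc63]; exact o4)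
  have z8 : 0 < ang v5 v0 v4 := ang_pos63 n05.symm n45.symm (by rw [← ori_cyc63]; exact o4)
  -- the corners
  have T0 : ∀ {y : ℍ × ℍ}, y ∈ G.cJ C → 0 < TH G y ∧ TH G y < 2 * Real.pi := by
    intro y hy
    have h1 := TH_ge19 hG hD hS (cJ_iJ51 G hCi hy).1
    have h2 := TH_vis19 hG hD hS hCi hy
    rw [h6] at h2
    push_cast at h2
    exact ⟨by linarith, by linarith⟩
  have k1 := TH_coe19 hG hD i0
  rw [g0] at k1
  have k2 := TH_coe19 hG hD i1
  rw [g1] at k2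
  have k3 := TH_coe19 hG hD i2
  rw [g2] at k3
  have k4 := TH_coe19 hG hD i3
  rw [g3] at k4
  have k5 := TH_coe19 hG hD i4
  rw [g4] at k5
  dsimp only at k1 k2 k3 k4 k5
  have lpi : ∀ v a b : ℍ, ang v a b ≤ Real.pi := fun v a b => Complex.arg_le_pi _
  have E1 := coe_eq19 k1 (T0 x1).1 (T0 x1).2 z1 (by linarith [lpi v1 v2 v0])
  have E5 := coe_eq19 k5 (T0 x5).1 (T0 x5).2 z8 (by linarith [lpi v5 v0 v4])
  obtain ⟨c1, c2⟩ := fan_abs19 hd (v0 := v0) (v1 := v1) (v2 := v2) (v3 := v3) (v4 := v4)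
    (v5 := v5) d0 d1 d2 d3 d4 (by rw [dist_comm]; exact d5) r2 r3 r4 hu
    (by rw [abs_of_pos z1]; linarith) (by rw [abs_of_pos z8]; linarith)
  obtain ⟨c3, c4⟩ := fan_abs19 hd (v0 := v0) (v1 := v5) (v2 := v4) (v3 := v3) (v4 := v2)
    (v5 := v1) (by rw [dist_comm]; exact d5) (by rw [dist_comm]; exact d4)
    (by rw [dist_comm]; exact d3) (by rw [dist_comm]; exact d2) (by rw [dist_comm]; exact d1)
    d0 r4 r3 r2 hu
    (by rw [abs_ang_comm63 n45.symm n05.symm, abs_of_pos z8]; linarith)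
    (by rw [abs_ang_comm63 n01.symm n12, abs_of_pos z1]; linarith)
  rw [abs_of_pos z7, abs_of_pos z6] at c1
  rw [abs_of_pos z4, abs_of_pos z5, abs_of_pos z7, abs_of_pos z6, abs_of_pos z1] at c2
  rw [abs_ang_comm63 n12.symm n02.symm, abs_ang_comm63 n02.symm n23, abs_of_pos z2,
    abs_of_pos z3] at c3
  rw [abs_ang_comm63 n03.symm n34, abs_ang_comm63 n23.symm n03.symm,
    abs_ang_comm63 n12.symm n02.symm, abs_ang_comm63 n02.symm n23,
    abs_ang_comm63 n45.symm n05.symm, abs_of_pos z5, abs_of_pos z4, abs_of_pos z2,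
    abs_of_pos z3, abs_of_pos z8] at c4
  have F2 : TH G (v2, v3) = ang v2 v3 v0 + ang v2 v0 v1 := by
    refine coe_eq19 ?_ (T0 x2).1 (T0 x2).2 (by linarith) (by linarith)
    rw [k2, Real.Angle.coe_add]
    exact ang_coe66 n23 n02.symm n12.symm
  have F3 : TH G (v3, v4) = ang v3 v4 v0 + ang v3 v0 v2 := by
    refine coe_eq19 ?_ (T0 x3).1 (T0 x3).2 (by linarith) (by linarith)
    rw [k3, Real.Angle.coe_add]
    exact ang_coe66 n34 n03.symm n23.symm
  have F4 : TH G (v4, v5) = ang v4 v5 v0 + ang v4 v0 v3 := by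
    refine coe_eq19 ?_ (T0 x4).1 (T0 x4).2 (by linarith) (by linarith)
    rw [k4, Real.Angle.coe_add]
    exact ang_coe66 n45 n04.symm n34.symm
  rw [g0, g1, g2, g3, g4]
  refine ⟨by linarith, by linarith, by linarith, by linarith⟩

/-- a corner of a hexagon face has 2, 3 or 4 units -/
theorem hex_un19 (hG : G.Geo4 (alpha d) kp U) (hD : DelG G d) (hS : Sep d G.P)
    {C : G.adj.ConnectedComponent} (hC : C ∈ WF G) (h6 : (G.cJ C).card = 6) {x : ℍ × ℍ}
    (hx : x ∈ G.cJ C) : 2 ≤ un G (alpha d) x ∧ un G (alpha d) x ≤ 4 := by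
  have hCi := ((mem_WF89 G).1 hC).1
  refine ⟨?_, un_vis19 hG hD hS hCi (m := 4) (by omega) (by norm_num) hx⟩
  have h1 : ¬ tt G x := by
    intro h
    have h1 := cI_tt89 G h
    rw [(cJ_iJ51 G hCi hx).2] at h1
    have h2 := ((mem_WF89 G).1 hC).2
    rw [h1] at h2
    exact Finset.not_nonempty_empty h2
  unfold un
  rw [if_neg h1]
  exact le_max_left _ _

/-- the sum of the units of a hexagon face from a corner on -/
theorem hex_sum19 (hG : G.Geo4 (alpha d) kp U)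
    {C : G.adj.ConnectedComponent} (hC : C ∈ WF G) (hd6 : (G.cI C).card + 2 = 2 * (G.cT C).card)
    (h6 : (G.cJ C).card = 6) {x : ℍ × ℍ} (hx : x ∈ G.cJ C) (f : ℍ × ℍ → ℕ) :
    ∑ y ∈ G.cJ C, f y = f x + f (sg G x) + f (sg G (sg G x)) + f (sg G (sg G (sg G x))) +
      f (sg G (sg G (sg G (sg G x)))) + f (sg G (sg G (sg G (sg G (sg G x))))) := by
  have hCi := ((mem_WF89 G).1 hC).1
  obtain ⟨h1, h2⟩ := orb90 G hG hCi hd6 hx
  have h3 : ∑ y ∈ G.cJ C, f y = ∑ i ∈ Finset.range (G.cJ C).card, f ((sg G)^[i] x) := by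
    conv_lhs => rw [← h1]
    rw [Finset.sum_image]
    intro i hi j hj hij
    exact orb_inj90 G h1 (Finset.mem_range.1 hi) (Finset.mem_range.1 hj) hij
  rw [h3, h6]
  simp only [Finset.sum_range_succ, Finset.sum_range_zero, Function.iterate_succ_apply',
    Function.iterate_zero, id_eq, zero_add]

/-- a hexagon face with a corner of four units -/
theorem hex_at19 (hG : G.Geo4 (alpha d) kp U) (hD : DelG G d) (hS : Sep d G.P)
    {C : G.adj.ConnectedComponent} (hC : C ∈ WF G) (hd6 : (G.cI C).card + 2 = 2 * (G.cT C).card)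
    (h6 : (G.cJ C).card = 6) {x : ℍ × ℍ} (hx : x ∈ G.cJ C) (h4 : un G (alpha d) x = 4) :
    ∑ y ∈ G.cJ C, un G (alpha d) y ≤ 17 ∧
    (17 ≤ ∑ y ∈ G.cJ C, un G (alpha d) y →
      un G (alpha d) (sg G x) = 2 ∧ un G (alpha d) (sg G (sg G x)) = 3 ∧
      un G (alpha d) (sg G (sg G (sg G x))) = 3 ∧
      un G (alpha d) (sg G (sg G (sg G (sg G x)))) = 3 ∧
      un G (alpha d) (sg G (sg G (sg G (sg G (sg G x))))) = 2 ∧
      1 + gc G (alpha d) (sg G x) ≤ gc G (alpha d) (sg G (sg G (sg G x))) +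
        gc G (alpha d) (sg G (sg G (sg G (sg G x)))) ∧
      1 + gc G (alpha d) (sg G (sg G (sg G (sg G (sg G x))))) ≤
        gc G (alpha d) (sg G (sg G (sg G x))) + gc G (alpha d) (sg G (sg G x))) := by
  have hCi := ((mem_WF89 G).1 hC).1
  have hal := alpha_pos hD.hd
  have hcyc := (six90 G hG hC hd6 h6 hx).2
  have x1 := sg_cJ90 G hG hCi hx
  have x2 := sg_cJ90 G hG hCi x1
  have x3 := sg_cJ90 G hG hCi x2
  have x4 := sg_cJ90 G hG hCi x3
  have x5 := sg_cJ90 G hG hCi x4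
  have hbig := un_gt63 hG (m := 3) (x := x) (by norm_num) (by omega)
  push_cast at hbig
  obtain ⟨f2, f4, f5, f6⟩ := hex_fan19 hG hD hS hC hd6 h6 hx hbig
  have b1 := un_before63 hG hD hS hC hd6 h6 hx
  have b5 := un_after63 hG hD hS hC hd6 h6 x5
  rw [hcyc] at b5
  have b2 : un G (alpha d) (sg G (sg G x)) ≤ 3 := un_le19 G hG (n := 3) (by norm_num) (by
    push_cast
    exact f2)
  have b4 : un G (alpha d) (sg G (sg G (sg G (sg G x)))) ≤ 3 :=
    un_le19 G hG (n := 3) (by norm_num) (by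
    push_cast
    exact f4)
  have c3 := un_before63 hG hD hS hC hd6 h6 x2
  have c3' := un_after63 hG hD hS hC hd6 h6 x3
  have d3 := un_after63 hG hD hS hC hd6 h6 x2
  have d3' := un_before63 hG hD hS hC hd6 h6 x3
  have e1 := hex_un19 hG hD hS hC h6 x1
  have e2 := hex_un19 hG hD hS hC h6 x2
  have e3 := hex_un19 hG hD hS hC h6 x3
  have e4 := hex_un19 hG hD hS hC h6 x4
  have e5 := hex_un19 hG hD hS hC h6 x5
  have hs := hex_sum19 hG hC hd6 h6 hx (fun y => un G (alpha d) y)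
  rw [h4] at hs
  refine ⟨by omega, ?_⟩
  intro h17
  have q1 : un G (alpha d) (sg G x) = 2 := by omega
  have q5 : un G (alpha d) (sg G (sg G (sg G (sg G (sg G x))))) = 2 := by omega
  have q3 : un G (alpha d) (sg G (sg G (sg G x))) = 3 := by omega
  have q2 : un G (alpha d) (sg G (sg G x)) = 3 := by omega
  have q4 : un G (alpha d) (sg G (sg G (sg G (sg G x)))) = 3 := by omega
  refine ⟨q1, q2, q3, q4, q5, ?_, ?_⟩
  · rw [TH_gc19 G hG (sg G (sg G (sg G x))), TH_gc19 G hG (sg G (sg G (sg G (sg G x)))),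
      TH_gc19 G hG (sg G x), q1, q3, q4] at f5
    push_cast at f5
    by_contra hc
    push Not at hc
    nlinarith
  · rw [TH_gc19 G hG (sg G (sg G (sg G x))), TH_gc19 G hG (sg G (sg G x)),
      TH_gc19 G hG (sg G (sg G (sg G (sg G (sg G x))))), q2, q3, q5] at f6
    push_cast at f6
    by_contra hc
    push Not at hc
    nlinarith

/-- **the units of a hexagon face**: at most `17`; if `17`, the pattern is `(4,2,3,3,3,2)`, with
`o1 ≥ o3 + o4`, `o5 ≥ o3 + o2` (`o = 1 - gap`) -/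
theorem hex_class19 (hG : G.Geo4 (alpha d) kp U) (hD : DelG G d) (hS : Sep d G.P)
    {C : G.adj.ConnectedComponent} (hC : C ∈ WF G) (hd6 : (G.cI C).card + 2 = 2 * (G.cT C).card)
    (h6 : (G.cJ C).card = 6) :
    ∑ y ∈ G.cJ C, un G (alpha d) y ≤ 17 ∧
    (17 ≤ ∑ y ∈ G.cJ C, un G (alpha d) y → ∃ x ∈ G.cJ C, un G (alpha d) x = 4 ∧
      un G (alpha d) (sg G x) = 2 ∧ un G (alpha d) (sg G (sg G x)) = 3 ∧
      un G (alpha d) (sg G (sg G (sg G x))) = 3 ∧
      un G (alpha d) (sg G (sg G (sg G (sg G x)))) = 3 ∧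
      un G (alpha d) (sg G (sg G (sg G (sg G (sg G x))))) = 2 ∧
      1 + gc G (alpha d) (sg G x) ≤ gc G (alpha d) (sg G (sg G (sg G x))) +
        gc G (alpha d) (sg G (sg G (sg G (sg G x)))) ∧
      1 + gc G (alpha d) (sg G (sg G (sg G (sg G (sg G x))))) ≤
        gc G (alpha d) (sg G (sg G (sg G x))) + gc G (alpha d) (sg G (sg G x))) := by
  have hCi := ((mem_WF89 G).1 hC).1
  by_cases h : ∃ x ∈ G.cJ C, un G (alpha d) x = 4
  · obtain ⟨x, hx, h4⟩ := h
    obtain ⟨k1, k2⟩ := hex_at19 hG hD hS hC hd6 h6 hx h4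
    exact ⟨k1, fun h17 => ⟨x, hx, h4, k2 h17⟩⟩
  · push Not at h
    obtain ⟨x, hx⟩ : (G.cJ C).Nonempty := Finset.card_pos.1 (by omega)
    have hcyc := (six90 G hG hC hd6 h6 hx).2
    have x1 := sg_cJ90 G hG hCi hx
    have x2 := sg_cJ90 G hG hCi x1
    have x3 := sg_cJ90 G hG hCi x2
    have x4 := sg_cJ90 G hG hCi x3
    have x5 := sg_cJ90 G hG hCi x4
    have le3 : ∀ y ∈ G.cJ C, un G (alpha d) y ≤ 3 := by
      intro y hy
      have h1 := (hex_un19 hG hD hS hC h6 hy).2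
      have h2 := h y hy
      omega
    have win : ∀ y ∈ G.cJ C, un G (alpha d) y + un G (alpha d) (sg G y) +
        un G (alpha d) (sg G (sg G y)) + un G (alpha d) (sg G (sg G (sg G y))) ≤ 11 := by
      intro y hy
      have y1 := sg_cJ90 G hG hCi hy
      have y2 := sg_cJ90 G hG hCi y1
      have y3 := sg_cJ90 G hG hCi y2
      have l0 := le3 _ hy
      have l1 := le3 _ y1
      have l2 := le3 _ y2
      have l3 := le3 _ y3
      by_contra hc
      exact hex_four19 hG hD hS hC hd6 h6 hy (by omega) (by omega) (by omega) (by omega)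
    have w0 := win _ hx
    have w2 := win _ x2
    have w4 := win _ x4
    rw [hcyc] at w4
    have hs := hex_sum19 hG hC hd6 h6 hx (fun y => un G (alpha d) y)
    constructor
    · omega
    · intro h17
      omega

/-- `kappa >= 1` for hexagon faces -/
theorem hex_ka19 (hG : G.Geo4 (alpha d) kp U) (hD : DelG G d) (hS : Sep d G.P)
    {C : G.adj.ConnectedComponent} (hC : C ∈ WF G) (hd6 : (G.cI C).card + 2 = 2 * (G.cT C).card)
    (h6 : (G.cJ C).card = 6) : 1 ≤ ka G (alpha d) C := by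
  have h1 := (hex_class19 hG hD hS hC hd6 h6).1
  have h2 : (∑ x ∈ G.cJ C, (un G (alpha d) x : ℝ)) ≤ 17 := by exact_mod_cast h1
  have h3 := disc90 G ((mem_WF89 G).1 hC).1 hd6
  have h4 : (G.cT C).card = 4 := by omega
  have h5 : (G.cI C).card = 6 := by omega
  unfold ka
  rw [h4, h5]
  push_cast
  linarith

end conc

end

end Pool.Agent.PEN.E5
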