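import Pool.Agent.E5.Wb61
import Pool.Agent.E5.Hf19

/-! # PENNY: the white row with claims (helper61)

The row of `white61` with three extra counts: very weak sides `Vw`, big centre leaves `L6`, and pairs `Zp` of
adjacent corners of three units. -/

set_option autoImplicit false

namespace Pool.Agent.PEN.E5

open Finset

/-- the table -/
theorem disc_tableP61 {m U Γ w D v l q : ℕ} (hm : 5 ≤ m) (hG : U + Γ + 6 = 4 * m) (hq : U = 2 * m + q)
    (hΓ : 1 ≤ Γ) (h5 : m = 5 → U ≤ 12)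
    (hw : w + 2 ≤ 2 * Γ ∨ w = 0 ∨ (w = m ∧ m + 1 ≤ 2 * Γ)) (hwm : w ≤ m) (hD : D ≤ q)
    (hv : 147 * v ≤ 100 * Γ) (hvw : w = 0 → v = 0) (hl : 4 * l ≤ q) (hl0 : m ≤ 7 → l = 0)
    (hl1 : Γ = 1 → l = 0)
    (h7 : m = 7 → Γ = 1 → D ≤ 4) (h6 : m = 6 → Γ = 2 → w = 2 → D + v ≤ 2)
    (h51 : m = 5 → U = 11 → w ≤ 3) (e1 : ¬ (m = 5 ∧ U = 12)) (e2 : ¬ (m = 6 ∧ U = 17)) :
    4 * w + D + v + l + 42 ≤ 5 * m + 11 * Γ := by
  have hU : U = 4 * m - 6 - Γ := by omega
  subst hU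
  have hq' : q + Γ + 6 = 2 * m := by omega
  clear hq hG
  rcases Nat.lt_or_ge m 8 with h8 | h8
  · have hΓ2 : Γ ≤ 8 := by omega
    have hl0' := hl0 (by omega)
    subst hl0'
    interval_cases m <;> interval_cases Γ <;> omega
  · clear e1 e2 h5 h7 h6 h51 hl0
    rcases Nat.lt_or_ge Γ 5 with h | h
    · interval_cases Γ <;> omega
    · rcases hw with hw | hw | hw <;> omega

end Pool.Agent.PEN.E5

namespace Pool.Agent.PEN.E5

open Finset

open Classical UpperHalfPlane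
open Pool.Agent.PEN.Cl

noncomputable section

variable {V : Type} (G : Tg V) {al : ℝ} {kp : V → V → ℝ} {U : ℕ → ℝ}

/-- pairwise disjoint sides -/
theorem disj_sum61 (hG : G.Geo4 al kp U) {C : G.adj.ConnectedComponent} (hC : C ∈ G.iC)
    {S : Finset (V × V)} (hS : S ⊆ G.cJ C) (hd : ∀ x ∈ S, sg G x ∉ S) {M : Type}
    [AddCommMonoid M] [PartialOrder M] [IsOrderedAddMonoid M] {f : V × V → M}
    (f0 : ∀ y ∈ G.cJ C, 0 ≤ f y) :
    ∑ x ∈ S, (f x + f (sg G x)) ≤ ∑ y ∈ G.cJ C, f y := by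
  rw [Finset.sum_add_distrib]
  have e2 : ∑ x ∈ S, f (sg G x) = ∑ y ∈ S.image (sg G), f y := by
    rw [Finset.sum_image]
    intro x hx y hy hxy
    exact sg_injC90 G hG hC x (hS (Finset.mem_coe.1 hx)) y (hS (Finset.mem_coe.1 hy)) hxy
  have hdis : Disjoint S (S.image (sg G)) := by
    rw [Finset.disjoint_left]
    intro i hi hi2
    obtain ⟨j, hj, rfl⟩ := Finset.mem_image.1 hi2
    exact hd j hj hi
  rw [e2, ← Finset.sum_union hdis]
  apply Finset.sum_le_sum_of_subset_of_nonneg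
  · intro i hi
    rcases Finset.mem_union.1 hi with hi | hi
    · exact hS hi
    · obtain ⟨j, hj, rfl⟩ := Finset.mem_image.1 hi
      exact sg_cJ90 G hG hC (hS hj)
  · intro i hi _
    exact f0 i hi

/-- the number of pairwise disjoint sides with small gaps -/
theorem disj_card61 (hG : G.Geo4 al kp U) (hT : ∀ x ∈ BC G, al ≤ TH G x)
    {C : G.adj.ConnectedComponent} (hC : C ∈ WF G)
    {S : Finset (V × V)} (hS : S ⊆ G.cJ C) (hd : ∀ x ∈ S, sg G x ∉ S) {a : ℝ}
    (ha : ∀ x ∈ S, gc G al x + gc G al (sg G x) ≤ 2 - a) :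
    a * S.card ≤ (G.cJ C).card + 3 * (G.cT C).card - (uf G al C : ℝ) := by
  have hCi := ((mem_WF89 G).1 hC).1
  have hle : ∀ y ∈ G.cJ C, gc G al y ≤ 1 := fun y hy =>
    gc_le_one46 G hG (BC_of_WF46 G hC hy) (hT y (BC_of_WF46 G hC hy))
  have h1 := sum_cgap46 G hG hCi
  have h2 := disj_sum61 G hG hCi hS hd (f := fun y => 1 - gc G al y) fun y hy => by
    linarith [hle y hy]
  have h3 : ∑ x ∈ S, a ≤ ∑ x ∈ S, ((1 - gc G al x) + (1 - gc G al (sg G x))) :=
    Finset.sum_le_sum fun x hx => by linarith [ha x hx]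
  rw [Finset.sum_const, nsmul_eq_mul] at h3
  linarith

/-- the sum over the pairs -/
theorem pair_units61 (hG : G.Geo4 al kp U) {C : G.adj.ConnectedComponent} (hC : C ∈ WF G) {q : ℕ}
    (hq : uf G al C = 2 * (G.cJ C).card + q) {L Zp : Finset (V × V)} (hL : L ⊆ G.cJ C)
    (hZ : Zp ⊆ G.cJ C) (hZd : ∀ x ∈ Zp, sg G x ∉ Zp)
    (hZ1 : ∀ x ∈ Zp, x ∉ L ∧ sg G x ∉ L ∧ 3 ≤ un G al x ∧ 3 ≤ un G al (sg G x)) :
    ∑ z ∈ L, (un G al z - 2) + 2 * Zp.card ≤ q := by
  have hCi := ((mem_WF89 G).1 hC).1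
  obtain ⟨f, hf⟩ : ∃ f : V × V → ℕ, f = fun y => if y ∈ L then 0 else un G al y - 2 := ⟨_, rfl⟩
  have h1 := disj_sum61 G hG hCi hZ hZd (f := f) fun y _ => Nat.zero_le _
  have h2 : 2 * Zp.card ≤ ∑ x ∈ Zp, (f x + f (sg G x)) := by
    have : ∑ x ∈ Zp, 2 ≤ ∑ x ∈ Zp, (f x + f (sg G x)) := by
      refine Finset.sum_le_sum fun x hx => ?_
      obtain ⟨a1, a2, a3, a4⟩ := hZ1 x hx
      rw [hf]
      dsimp only
      rw [if_neg a1, if_neg a2]
      omega
    rw [Finset.sum_const, smul_eq_mul] at this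
    omega
  have h3 : ∑ y ∈ G.cJ C, f y + ∑ z ∈ L, (un G al z - 2) = ∑ y ∈ G.cJ C, (un G al y - 2) := by
    have e1 : ∑ z ∈ L, (un G al z - 2) = ∑ y ∈ G.cJ C, if y ∈ L then un G al y - 2 else 0 := by
      rw [← Finset.sum_filter]
      congr 1
      ext y
      rw [Finset.mem_filter]
      exact ⟨fun h => ⟨hL h, h⟩, fun h => h.2⟩
    rw [e1, ← Finset.sum_add_distrib]
    refine Finset.sum_congr rfl fun y _ => ?_
    rw [hf]
    dsimp only
    split_ifs <;> omega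
  have h4 : ∑ z ∈ G.cJ C, (un G al z - 2) + ∑ z ∈ G.cJ C, 2 = uf G al C := by
    rw [← Finset.sum_add_distrib]
    unfold uf
    exact Finset.sum_congr rfl fun z hz => by
      have := un_ge_WF46 (al := al) G hC hz
      omega
  rw [Finset.sum_const, smul_eq_mul] at h4
  omega

/-- the corners with a claim, for the classes that are no disc -/
theorem whiteNP61 (hG : G.Geo4 al kp U) (hT : ∀ x ∈ BC G, al ≤ TH G x)
    {C : G.adj.ConnectedComponent} (hC : C ∈ WF G) (hd : 2 * (G.cT C).card ≤ (G.cI C).card)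
    {L Vw L6 Zp : Finset (V × V)} (hL : L ⊆ G.cJ C)
    (hV : Vw ⊆ G.cJ C) (hVd : ∀ x ∈ Vw, sg G x ∉ Vw)
    (hV1 : ∀ x ∈ Vw, gc G al x + gc G al (sg G x) ≤ 53 / 100)
    (h6 : L6 ⊆ L) (h61 : ∀ z ∈ L6, 6 ≤ un G al z ∧ Cen61 G al z)
    (hZ : Zp ⊆ G.cJ C) (hZd : ∀ x ∈ Zp, sg G x ∉ Zp)
    (hZ1 : ∀ x ∈ Zp, x ∉ L ∧ sg G x ∉ L ∧ 3 ≤ un G al x ∧ 3 ≤ un G al (sg G x)) :
    (4 : ℝ) * (Wk G al C).card + ∑ z ∈ L, (cc61 G al z : ℝ) + Vw.card + L6.card + Zp.card ≤
      11 * ka G al C - 6 * qa G C := by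
  have hCi := ((mem_WF89 G).1 hC).1
  have h3 := m_eq46 G hCi
  have h3' : ((G.cJ C).card : ℝ) + (G.cI C).card = 3 * (G.cT C).card := by exact_mod_cast h3
  have h4 : 2 * ((G.cT C).card : ℝ) ≤ (G.cI C).card := by exact_mod_cast hd
  have h6 := uf_lt46 G hG hT hC
  have h7 : (uf G al C : ℝ) + 1 ≤ (G.cJ C).card + 3 * (G.cT C).card := by exact_mod_cast h6
  have h5 : ((Wk G al C).card : ℝ) ≤
      2 * ((G.cJ C).card + 3 * (G.cT C).card - (uf G al C : ℝ)) := by
    rcases Finset.eq_empty_or_nonempty (Wk G al C) with h | h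
    · rw [h, Finset.card_empty]
      push_cast
      linarith
    · exact (weak_lt46 G hG hT hC h).le
  have hv := disj_card61 G hG hT hC hV hVd (a := 147 / 100) (fun x hx => by
      linarith [hV1 x hx])
  have hufg := uf_ge46 (al := al) G hC
  obtain ⟨q, hq⟩ : ∃ q, uf G al C = 2 * (G.cJ C).card + q :=
    ⟨uf G al C - 2 * (G.cJ C).card, by omega⟩
  have hpu := pair_units61 G (al := al) hG hC hq hL hZ hZd hZ1
  have hcq : ∑ z ∈ L, cc61 G al z ≤ ∑ z ∈ L, (un G al z - 2) :=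
    Finset.sum_le_sum fun z _ => cc_le61 G z
  have hl : 4 * L6.card ≤ ∑ z ∈ L, (un G al z - 2) := by
    have e1 : ∑ z ∈ L6, 4 ≤ ∑ z ∈ L6, (un G al z - 2) := Finset.sum_le_sum fun z hz => by
      have := (h61 z hz).1
      omega
    rw [Finset.sum_const, smul_eq_mul] at e1
    have e2 : ∑ z ∈ L6, (un G al z - 2) ≤ ∑ z ∈ L, (un G al z - 2) :=
      Finset.sum_le_sum_of_subset (by assumption)
    omega
  have hcq' : ∑ z ∈ L, (cc61 G al z : ℝ) + Zp.card ≤ q := by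
    have : ∑ z ∈ L, cc61 G al z + Zp.card ≤ q := by omega
    exact_mod_cast this
  have hl' : 4 * (L6.card : ℝ) ≤ q := by
    have : 4 * L6.card ≤ q := by omega
    exact_mod_cast this
  have hq' : (uf G al C : ℝ) = 2 * (G.cJ C).card + q := by exact_mod_cast hq
  have hw0 : (0 : ℝ) ≤ (Wk G al C).card := Nat.cast_nonneg _
  have hT0 : (0 : ℝ) ≤ (G.cT C).card := Nat.cast_nonneg _
  have hJ0 : (0 : ℝ) ≤ (G.cJ C).card := Nat.cast_nonneg _
  rw [ka_uf46]
  unfold qa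
  linarith

/-- the corners with a claim, for the discs -/
theorem whiteDP61 (hG : G.Geo4 al kp U) (hT : ∀ x ∈ BC G, al ≤ TH G x)
    {C : G.adj.ConnectedComponent} (hC : C ∈ WF G) (hd : (G.cI C).card + 2 = 2 * (G.cT C).card)
    (hm : 5 ≤ (G.cJ C).card) (h5 : (G.cJ C).card = 5 → uf G al C ≤ 12)
    (hV0 : ∀ z ∈ G.cJ C, un G al z + 2 ≤ (G.cJ C).card)
    (h51 : (G.cJ C).card = 5 → uf G al C = 11 → (Wk G al C).card ≤ 3)
    (e1 : ¬ ((G.cJ C).card = 5 ∧ uf G al C = 12)) (e2 : ¬ ((G.cJ C).card = 6 ∧ uf G al C = 17))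
    {L Vw L6 Zp : Finset (V × V)} (hL : L ⊆ G.cJ C)
    (hV : Vw ⊆ G.cJ C) (hVd : ∀ x ∈ Vw, sg G x ∉ Vw)
    (hV1 : ∀ x ∈ Vw, gc G al x + gc G al (sg G x) ≤ 53 / 100)
    (h6 : L6 ⊆ L) (h61 : ∀ z ∈ L6, 6 ≤ un G al z ∧ Cen61 G al z)
    (hZ : Zp ⊆ G.cJ C) (hZd : ∀ x ∈ Zp, sg G x ∉ Zp)
    (hZ1 : ∀ x ∈ Zp, x ∉ L ∧ sg G x ∉ L ∧ 3 ≤ un G al x ∧ 3 ≤ un G al (sg G x))
    (hH : (G.cJ C).card = 6 → uf G al C = 16 →
      ∑ z ∈ L, (un G al z - 3) + Zp.card + Vw.card ≤ 2) :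
    (4 : ℝ) * (Wk G al C).card + ∑ z ∈ L, (cc61 G al z : ℝ) + Vw.card + L6.card + Zp.card ≤
      11 * ka G al C - 6 * qa G C := by
  have hCi := ((mem_WF89 G).1 hC).1
  have hufl := disc_uf46 G hG hT hC hd
  have hufg := uf_ge46 (al := al) G hC
  have hmT := disc_m46 G hCi hd
  obtain ⟨Γ, hΓ⟩ : ∃ Γ, uf G al C + Γ + 6 = 4 * (G.cJ C).card :=
    ⟨4 * (G.cJ C).card - 6 - uf G al C, by omega⟩
  obtain ⟨q, hq⟩ : ∃ q, uf G al C = 2 * (G.cJ C).card + q :=
    ⟨uf G al C - 2 * (G.cJ C).card, by omega⟩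
  obtain ⟨Ce, hCe⟩ : ∃ Ce, Ce = L.filter (fun z => Cen61 G al z) := ⟨_, rfl⟩
  have hCe1 : Ce ⊆ G.cJ C := by
    rw [hCe]
    exact (Finset.filter_subset _ _).trans hL
  have hCe2 : ∀ z ∈ Ce, Cen61 G al z := by
    intro z hz
    rw [hCe, Finset.mem_filter] at hz
    exact hz.2
  obtain ⟨a1, a2, a3, a4, a5, a6, a7⟩ := disc_mass61 G hG hT hC hd hm hCe1 hCe2 hΓ
  have hpu := pair_units61 G (al := al) hG hC hq hL hZ hZd hZ1
  obtain ⟨c, hc⟩ : ∃ c, c = ∑ z ∈ L, cc61 G al z := ⟨_, rfl⟩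
  have hcq : c ≤ ∑ z ∈ L, (un G al z - 2) := by
    rw [hc]
    exact Finset.sum_le_sum fun z _ => cc_le61 G z
  -- without centres
  have hemp : Ce = ∅ → c = ∑ z ∈ L, (un G al z - 3) := by
    intro h
    rw [hc]
    refine Finset.sum_congr rfl fun z hz => ?_
    unfold cc61
    rw [if_neg]
    intro h2
    have : z ∈ Ce := by
      rw [hCe, Finset.mem_filter]
      exact ⟨hz, h2⟩
    rw [h] at this
    exact absurd this (Finset.notMem_empty z)
  have hv : 147 * Vw.card ≤ 100 * Γ := by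
    have h1 := disj_card61 G hG hT hC hV hVd (a := 147 / 100) (fun x hx => by
      linarith [hV1 x hx])
    have h2 : ((uf G al C + Γ + 6 : ℕ) : ℝ) = ((4 * (G.cJ C).card : ℕ) : ℝ) := by rw [hΓ]
    have h3 : ((G.cJ C).card : ℝ) = (G.cT C).card + 2 := by exact_mod_cast hmT
    push_cast at h2
    have h4 : (147 : ℝ) * Vw.card ≤ 100 * Γ := by linarith
    exact_mod_cast h4
  have hvw : (Wk G al C).card = 0 → Vw.card = 0 := by
    intro h
    rw [Finset.card_eq_zero] at h ⊢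
    rw [Finset.eq_empty_iff_forall_notMem]
    intro x hx
    have : x ∈ Wk G al C := by
      unfold Wk
      rw [Finset.mem_filter]
      refine ⟨hV hx, ?_⟩
      unfold sp
      linarith [hV1 x hx]
    rw [h] at this
    exact absurd this (Finset.notMem_empty x)
  have hl : 4 * L6.card ≤ ∑ z ∈ L, (un G al z - 2) := by
    have e1 : ∑ z ∈ L6, 4 ≤ ∑ z ∈ L6, (un G al z - 2) := Finset.sum_le_sum fun z hz => by
      have := (h61 z hz).1
      omega
    rw [Finset.sum_const, smul_eq_mul] at e1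
    have e2 : ∑ z ∈ L6, (un G al z - 2) ≤ ∑ z ∈ L, (un G al z - 2) :=
      Finset.sum_le_sum_of_subset h6
    omega
  have hl0 : (G.cJ C).card ≤ 7 → L6.card = 0 := by
    intro h7
    rw [Finset.card_eq_zero, Finset.eq_empty_iff_forall_notMem]
    intro z hz
    have k1 := hV0 z (hL (h6 hz))
    have k2 := (h61 z hz).1
    omega
  have hl1 : Γ = 1 → L6.card = 0 := by
    intro hΓ1
    have h8 := (a2 hΓ1).2
    rw [Finset.card_eq_zero, Finset.eq_empty_iff_forall_notMem]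
    intro z hz
    have : z ∈ Ce := by
      rw [hCe, Finset.mem_filter]
      exact ⟨h6 hz, (h61 z hz).2⟩
    rw [h8] at this
    exact absurd this (Finset.notMem_empty z)
  have h7 : (G.cJ C).card = 7 → Γ = 1 → c + Zp.card ≤ 4 := by
    intro hm7 hΓ1
    have h8 := hemp (a2 hΓ1).2
    have h9 : 3 * c ≤ 2 * ∑ z ∈ L, (un G al z - 2) := by
      rw [h8, Finset.mul_sum, Finset.mul_sum]
      refine Finset.sum_le_sum fun z hz => ?_
      have := hV0 z (hL hz)
      have := un_ge_WF46 (al := al) G hC (hL hz)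
      omega
    omega
  have h6' : (G.cJ C).card = 6 → Γ = 2 → (Wk G al C).card = 2 → c + Zp.card + Vw.card ≤ 2 := by
    intro hm6 hΓ2 hw2
    rw [hemp (a6 (by omega) (by omega))]
    exact hH hm6 (by omega)
  have key := disc_tableP61 (D := c + Zp.card) hm hΓ hq a1 h5 a3 a4 (by omega) hv hvw (by omega) hl0
    hl1 h7 h6' h51 e1 e2
  have key' : (4 : ℝ) * (Wk G al C).card + (c + Zp.card) + Vw.card + L6.card + 42 ≤
      5 * (G.cJ C).card + 11 * Γ := by
    exact_mod_cast key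
  have hΓ' : (uf G al C : ℝ) + Γ + 6 = 4 * (G.cJ C).card := by exact_mod_cast hΓ
  have hc' : ∑ z ∈ L, (cc61 G al z : ℝ) = c := by
    rw [hc]
    push_cast
    rfl
  rw [hc', disc_ka46 G hCi hd, disc_qa46 G hCi hd]
  linarith

section conc
variable {G : Tg ℍ} {d : ℝ} {kp : ℍ → ℍ → ℝ} {U : ℕ → ℝ}

/-- **at most one corner of a hexagon face has four units** -/
theorem hex_four61 (hG : G.Geo4 (alpha d) kp U) (hD : DelG G d) (hS : Sep d G.P)
    {C : G.adj.ConnectedComponent} (hC : C ∈ WF G) (hd6 : (G.cI C).card + 2 = 2 * (G.cT C).card)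
    (h6 : (G.cJ C).card = 6) {x y : ℍ × ℍ} (hx : x ∈ G.cJ C) (hy : y ∈ G.cJ C)
    (ux : un G (alpha d) x = 4) (uy : un G (alpha d) y = 4) : x = y := by
  have hCi := ((mem_WF89 G).1 hC).1
  obtain ⟨hset, hcyc⟩ := six90 G hG hC hd6 h6 hx
  have x1 := sg_cJ90 G hG hCi hx
  have x2 := sg_cJ90 G hG hCi x1
  have x3 := sg_cJ90 G hG hCi x2
  have x4 := sg_cJ90 G hG hCi x3
  have x5 := sg_cJ90 G hG hCi x4
  have big : ∀ {z : ℍ × ℍ}, un G (alpha d) z = 4 → 3 * alpha d < TH G z := by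
    intro z hz
    have := un_gt63 hG (m := 3) (x := z) (by norm_num) (by omega)
    push_cast at this
    exact this
  obtain ⟨f2, f4, f5, f6⟩ := hex_fan19 hG hD hS hC hd6 h6 hx (big ux)
  rw [hset] at hy
  simp only [Finset.mem_insert, Finset.mem_singleton] at hy
  rcases hy with e | e | e | e | e | e
  · exact e.symm
  · exfalso
    have := un_before63 hG hD hS hC hd6 h6 hx (by rw [← e]; omega)
    omega
  · exfalso
    rw [← e] at f2
    linarith [big uy]
  · exfalso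
    have hy' : y ∈ G.cJ C := by rw [e]; exact x3
    obtain ⟨g2, g4, g5, g6⟩ := hex_fan19 hG hD hS hC hd6 h6 hy' (big uy)
    rw [← e] at f5
    rw [e, hcyc] at g5
    rw [← e] at g5
    have b1 := big ux
    have b2 := big uy
    linarith
  · exfalso
    rw [← e] at f4
    linarith [big uy]
  · exfalso
    have := un_after63 hG hD hS hC hd6 h6 x5 (by rw [← e]; omega)
    rw [hcyc] at this
    omega

/-- the sum over the corners of a hexagon face -/
theorem hex_sumR61 (hG : G.Geo4 (alpha d) kp U)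
    {C : G.adj.ConnectedComponent} (hC : C ∈ WF G) (hd6 : (G.cI C).card + 2 = 2 * (G.cT C).card)
    (h6 : (G.cJ C).card = 6) {x : ℍ × ℍ} (hx : x ∈ G.cJ C) (f : ℍ × ℍ → ℝ) :
    ∑ y ∈ G.cJ C, f y = f x + f (sg G x) + f (sg G (sg G x)) + f (sg G (sg G (sg G x))) +
      f (sg G (sg G (sg G (sg G x)))) + f (sg G (sg G (sg G (sg G (sg G x))))) := by
  rw [(num61 G hG ((mem_WF89 G).1 hC).1 hd6 hx).2.2.2 f, h6]
  simp only [Finset.sum_range_succ, Finset.sum_range_zero, Function.iterate_succ_apply',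
    Function.iterate_zero, id_eq, zero_add]

/-- a hexagon of `16` units with a corner of four units and a pair: the pair is paid by a neighbour
of the big corner -/
theorem hex_pair61 (hG : G.Geo4 (alpha d) kp U) (hD : DelG G d) (hS : Sep d G.P)
    {C : G.adj.ConnectedComponent} (hC : C ∈ WF G) (hd6 : (G.cI C).card + 2 = 2 * (G.cT C).card)
    (h6 : (G.cJ C).card = 6) (hu : uf G (alpha d) C = 16) {a x z : ℍ × ℍ} (ha : a ∈ G.cJ C)
    (hx : x ∈ G.cJ C) (hz : z ∈ G.cJ C) (ua : un G (alpha d) a = 4) (n1 : x ≠ a) (n2 : sg G x ≠ a)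
    (u1 : 3 ≤ un G (alpha d) x) (u2 : 3 ≤ un G (alpha d) (sg G x))
    (gx : gc G (alpha d) x + gc G (alpha d) (sg G x) < 147 / 100)
    (gz : gc G (alpha d) z + gc G (alpha d) (sg G z) ≤ 53 / 100) : False := by
  have hCi := ((mem_WF89 G).1 hC).1
  have hal := alpha_pos hD.hd
  have hT : ∀ x ∈ BC G, alpha d ≤ TH G x := fun x hx =>
    TH_ge19 hG hD hS ((mem_BC89 G).1 hx).1
  have hle : ∀ y ∈ G.cJ C, gc G (alpha d) y ≤ 1 := fun y hy =>
    gc_le_one46 G hG (BC_of_WF46 G hC hy) (hT y (BC_of_WF46 G hC hy))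
  obtain ⟨hset, hcyc⟩ := six90 G hG hC hd6 h6 ha
  have a1 := sg_cJ90 G hG hCi ha
  have a2 := sg_cJ90 G hG hCi a1
  have a3 := sg_cJ90 G hG hCi a2
  have a4 := sg_cJ90 G hG hCi a3
  have a5 := sg_cJ90 G hG hCi a4
  have hbig := un_gt63 hG (m := 3) (x := a) (by norm_num) (by omega)
  push_cast at hbig
  obtain ⟨f2, f4, f5, f6⟩ := hex_fan19 hG hD hS hC hd6 h6 ha hbig
  have hb := un_before63 hG hD hS hC hd6 h6 ha
  have hb' := un_after63 hG hD hS hC hd6 h6 a5
  rw [hcyc] at hb'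
  have e1 := hex_un19 hG hD hS hC h6 a1
  have e2 := hex_un19 hG hD hS hC h6 a2
  have e3 := hex_un19 hG hD hS hC h6 a3
  have e4 := hex_un19 hG hD hS hC h6 a4
  have e5 := hex_un19 hG hD hS hC h6 a5
  have hs := hex_sum19 hG hC hd6 h6 ha (fun y => un G (alpha d) y)
  have hs' : uf G (alpha d) C = ∑ y ∈ G.cJ C, un G (alpha d) y := rfl
  rw [← hs', hu] at hs
  have hm := sum_cgap46 (al := alpha d) G hG hCi
  rw [hex_sumR61 hG hC hd6 h6 ha (fun y => 1 - gc G (alpha d) y), hu, h6] at hm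
  have h4 := disc_m46 G hCi hd6
  have h4' : (G.cT C).card = 4 := by omega
  rw [h4'] at hm
  push_cast at hm
  have l0 := hle a ha
  have l1 := hle _ a1
  have l2 := hle _ a2
  have l3 := hle _ a3
  have l4 := hle _ a4
  have l5 := hle _ a5
  rw [hset] at hx hz
  simp only [Finset.mem_insert, Finset.mem_singleton] at hx hz
  rw [TH_gc19 G hG (sg G (sg G (sg G a))), TH_gc19 G hG (sg G (sg G (sg G (sg G a)))),
    TH_gc19 G hG (sg G a)] at f5
  rw [TH_gc19 G hG (sg G (sg G (sg G a))), TH_gc19 G hG (sg G (sg G a)),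
    TH_gc19 G hG (sg G (sg G (sg G (sg G (sg G a)))))] at f6
  rcases hx with e | e | e | e | e | e
  · exact n1 e
  · rw [e] at u1
    have := hb (by omega)
    omega
  · rw [e] at u1 u2 gx
    have k2 : un G (alpha d) (sg G (sg G a)) = 3 := by omega
    have k3 : un G (alpha d) (sg G (sg G (sg G a))) = 3 := by omega
    have k5 : un G (alpha d) (sg G (sg G (sg G (sg G (sg G a))))) = 2 := by omega
    rw [k2, k3, k5] at f6
    push_cast at f6
    have g6 : 1 + gc G (alpha d) (sg G (sg G (sg G (sg G (sg G a))))) ≤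
        gc G (alpha d) (sg G (sg G (sg G a))) + gc G (alpha d) (sg G (sg G a)) := by
      by_contra hc
      push Not at hc
      nlinarith
    rcases hz with r | r | r | r | r | r <;> rw [r] at gz <;>
      first
      | linarith
      | (rw [hcyc] at gz
         linarith)
  · rw [e] at u1 u2 gx
    have k3 : un G (alpha d) (sg G (sg G (sg G a))) = 3 := by omega
    have k4 : un G (alpha d) (sg G (sg G (sg G (sg G a)))) = 3 := by omega
    have k1 : un G (alpha d) (sg G a) = 2 := by omega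
    rw [k1, k3, k4] at f5
    push_cast at f5
    have g5 : 1 + gc G (alpha d) (sg G a) ≤
        gc G (alpha d) (sg G (sg G (sg G a))) + gc G (alpha d) (sg G (sg G (sg G (sg G a)))) := by
      by_contra hc
      push Not at hc
      nlinarith
    rcases hz with r | r | r | r | r | r <;> rw [r] at gz <;>
      first
      | linarith
      | (rw [hcyc] at gz
         linarith)
  · rw [e] at u1 u2
    have := hb' (by omega)
    omega
  · rw [e, hcyc] at n2
    exact n2 rfl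

/-- two pairs and a very weak side in a hexagon -/
theorem hex_two61 (hG : G.Geo4 (alpha d) kp U) (hD : DelG G d) (hS : Sep d G.P)
    {C : G.adj.ConnectedComponent} (hC : C ∈ WF G) (hd6 : (G.cI C).card + 2 = 2 * (G.cT C).card)
    (h6 : (G.cJ C).card = 6) (hu : uf G (alpha d) C = 16) {x y z : ℍ × ℍ} (hy : y ∈ G.cJ C)
    (hx : x ∈ G.cJ C) (hz : z ∈ G.cJ C) (n0 : x ≠ y) (n1 : sg G x ≠ y) (n2 : sg G y ≠ x)
    (u1 : 3 ≤ un G (alpha d) x) (u2 : 3 ≤ un G (alpha d) (sg G x))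
    (u3 : 3 ≤ un G (alpha d) y) (u4 : 3 ≤ un G (alpha d) (sg G y))
    (gx : gc G (alpha d) x + gc G (alpha d) (sg G x) < 147 / 100)
    (gy : gc G (alpha d) y + gc G (alpha d) (sg G y) < 147 / 100)
    (gz : gc G (alpha d) z + gc G (alpha d) (sg G z) ≤ 53 / 100) : False := by
  have hCi := ((mem_WF89 G).1 hC).1
  have hT : ∀ x ∈ BC G, alpha d ≤ TH G x := fun x hx =>
    TH_ge19 hG hD hS ((mem_BC89 G).1 hx).1
  have hle : ∀ y ∈ G.cJ C, gc G (alpha d) y ≤ 1 := fun y hy =>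
    gc_le_one46 G hG (BC_of_WF46 G hC hy) (hT y (BC_of_WF46 G hC hy))
  have hm := sum_cgap46 (al := alpha d) G hG hCi
  rw [hu, h6] at hm
  have h4 := disc_m46 G hCi hd6
  have h4' : (G.cT C).card = 4 := by omega
  rw [h4'] at hm
  push_cast at hm
  have inj := sg_injC90 G hG hCi
  -- a pair meets `z`
  have meet : ∀ t ∈ G.cJ C, gc G (alpha d) t + gc G (alpha d) (sg G t) < 147 / 100 →
      t = z ∨ t = sg G z ∨ sg G t = z := by
    intro t ht gt
    by_contra hc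
    push Not at hc
    obtain ⟨c1, c2, c3⟩ := hc
    have hsub : ({t, z} : Finset (ℍ × ℍ)) ⊆ G.cJ C := by
      intro s hs
      rcases Finset.mem_insert.1 hs with rfl | hs
      · exact ht
      · rw [Finset.mem_singleton.1 hs]
        exact hz
    have hd : ∀ s ∈ ({t, z} : Finset (ℍ × ℍ)), sg G s ∉ ({t, z} : Finset (ℍ × ℍ)) := by
      intro s hs hs2
      rcases Finset.mem_insert.1 hs with rfl | hs
      · rcases Finset.mem_insert.1 hs2 with h | h
        · exact sg_ne46 G (cJ_iJ51 G hCi ht).1 h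
        · exact c3 (Finset.mem_singleton.1 h)
      · rw [Finset.mem_singleton.1 hs] at hs2
        rcases Finset.mem_insert.1 hs2 with h | h
        · exact c2 h.symm
        · exact sg_ne46 G (cJ_iJ51 G hCi hz).1 (Finset.mem_singleton.1 h)
    have h1 := disj_sum61 G hG hCi hsub hd (f := fun y => 1 - gc G (alpha d) y) fun y hy => by
      linarith [hle y hy]
    rw [Finset.sum_pair c1] at h1
    linarith
  have far : ∀ s ∈ G.cJ C, ∀ t ∈ G.cJ C, s ≠ t → sg G s ≠ t → sg G t ≠ s →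
      gc G (alpha d) s + gc G (alpha d) (sg G s) ≤ 53 / 100 →
      gc G (alpha d) t + gc G (alpha d) (sg G t) < 147 / 100 → False := by
    intro s hs t ht c1 c2 c3 gs gt
    have hsub : ({s, t} : Finset (ℍ × ℍ)) ⊆ G.cJ C := by
      intro r hr
      rcases Finset.mem_insert.1 hr with rfl | hr
      · exact hs
      · rw [Finset.mem_singleton.1 hr]
        exact ht
    have hd : ∀ r ∈ ({s, t} : Finset (ℍ × ℍ)), sg G r ∉ ({s, t} : Finset (ℍ × ℍ)) := by
      intro r hr hr2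
      rcases Finset.mem_insert.1 hr with rfl | hr
      · rcases Finset.mem_insert.1 hr2 with h | h
        · exact sg_ne46 G (cJ_iJ51 G hCi hs).1 h
        · exact c2 (Finset.mem_singleton.1 h)
      · rw [Finset.mem_singleton.1 hr] at hr2
        rcases Finset.mem_insert.1 hr2 with h | h
        · exact c3 h
        · exact sg_ne46 G (cJ_iJ51 G hCi ht).1 (Finset.mem_singleton.1 h)
    have h1 := disj_sum61 G hG hCi hsub hd (f := fun y => 1 - gc G (alpha d) y) fun y hy => by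
      linarith [hle y hy]
    rw [Finset.sum_pair c1] at h1
    linarith
  -- four corners in a row
  have four : ∀ s ∈ G.cJ C, sg G s = z → 3 ≤ un G (alpha d) s → 3 ≤ un G (alpha d) z →
      3 ≤ un G (alpha d) (sg G z) → 3 ≤ un G (alpha d) (sg G (sg G z)) → False := by
    intro s hs hsz v1 v2 v3 v4
    have z1 := sg_cJ90 G hG hCi hz
    have z2 := sg_cJ90 G hG hCi z1
    have w1 := un_before63 hG hD hS hC hd6 h6 hs (by rw [hsz]; exact v2)
    have w2 := un_before63 hG hD hS hC hd6 h6 hz v3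
    have w3 := un_before63 hG hD hS hC hd6 h6 z1 v4
    have w4 := un_after63 hG hD hS hC hd6 h6 z1 v3
    exact hex_four19 hG hD hS hC hd6 h6 hs (by omega) (by rw [hsz]; omega) (by rw [hsz]; omega)
      (by rw [hsz]; omega)
  rcases meet x hx gx with h | h | h
  · rw [h] at n0 n1 n2
    exact far z hz y hy n0 n1 n2 gz gy
  · rcases meet y hy gy with h' | h' | h'
    · rw [h'] at n0 n1 n2
      exact far z hz x hx n0.symm n2 n1 gz gx
    · exact n0 (h.trans h'.symm)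
    · rw [h] at u1 u2
      rw [h'] at u4
      exact four y hy h' u3 u4 u1 u2
  · rcases meet y hy gy with h' | h' | h'
    · exact n1 (h.trans h'.symm)
    · rw [h'] at u3 u4
      rw [h] at u2
      exact four x hx h u1 u2 u3 u4
    · exact n0 (inj x hx y hy (h.trans h'.symm))

/-- the hexagons with `16` units -/
theorem h16_61 (hG : G.Geo4 (alpha d) kp U) (hD : DelG G d) (hS : Sep d G.P)
    {C : G.adj.ConnectedComponent} (hC : C ∈ WF G) (hd6 : (G.cI C).card + 2 = 2 * (G.cT C).card)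
    (h6 : (G.cJ C).card = 6) (hu : uf G (alpha d) C = 16) {L Vw Zp : Finset (ℍ × ℍ)}
    (hL : L ⊆ G.cJ C) (hV : Vw ⊆ G.cJ C) (hVd : ∀ x ∈ Vw, sg G x ∉ Vw)
    (hV1 : ∀ x ∈ Vw, gc G (alpha d) x + gc G (alpha d) (sg G x) ≤ 53 / 100)
    (hZ : Zp ⊆ G.cJ C) (hZd : ∀ x ∈ Zp, sg G x ∉ Zp)
    (hZ1 : ∀ x ∈ Zp, x ∉ L ∧ sg G x ∉ L ∧ 3 ≤ un G (alpha d) x ∧ 3 ≤ un G (alpha d) (sg G x) ∧
      gc G (alpha d) x + gc G (alpha d) (sg G x) < 147 / 100) :
    ∑ z ∈ L, (un G (alpha d) z - 3) + Zp.card + Vw.card ≤ 2 := by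
  have hCi := ((mem_WF89 G).1 hC).1
  have hT : ∀ x ∈ BC G, alpha d ≤ TH G x := fun x hx =>
    TH_ge19 hG hD hS ((mem_BC89 G).1 hx).1
  have hcT : (G.cT C).card = 4 := by
    have := disc_m46 G hCi hd6
    omega
  have hv : Vw.card ≤ 1 := by
    have h1 := disj_card61 G hG hT hC hV hVd (a := 147 / 100) (fun x hx => by
      linarith [hV1 x hx])
    rw [h6, hcT, hu] at h1
    push_cast at h1
    by_contra hc
    push Not at hc
    have h2 : ((2 : ℕ) : ℝ) ≤ Vw.card := by exact_mod_cast hc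
    push_cast at h2
    linarith
  have hpu := pair_units61 G (al := alpha d) hG hC (q := 4) (by rw [hu, h6]) hL hZ hZd
    (fun x hx => ⟨(hZ1 x hx).1, (hZ1 x hx).2.1, (hZ1 x hx).2.2.1, (hZ1 x hx).2.2.2.1⟩)
  have h2c : 2 * ∑ z ∈ L, (un G (alpha d) z - 3) ≤ ∑ z ∈ L, (un G (alpha d) z - 2) := by
    rw [Finset.mul_sum]
    refine Finset.sum_le_sum fun z hz => ?_
    have := hex_un19 hG hD hS hC h6 (hL hz)
    omega
  have hc1 : ∑ z ∈ L, (un G (alpha d) z - 3) ≤ 1 := by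
    have e1 : ∑ z ∈ L, (un G (alpha d) z - 3) ≤ (L.filter fun z => un G (alpha d) z = 4).card := by
      rw [Finset.card_filter]
      refine Finset.sum_le_sum fun z hz => ?_
      have := hex_un19 hG hD hS hC h6 (hL hz)
      split_ifs <;> omega
    refine e1.trans (Finset.card_le_one.2 ?_)
    intro x hx y hy
    rw [Finset.mem_filter] at hx hy
    exact hex_four61 hG hD hS hC hd6 h6 (hL hx.1) (hL hy.1) hx.2 hy.2
  rcases Nat.eq_zero_or_pos Vw.card with h0 | h0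
  · omega
  obtain ⟨z, hzV⟩ := Finset.card_pos.1 h0
  have gz := hV1 z hzV
  by_contra hcon
  push Not at hcon
  have hc2 : 2 ≤ ∑ z ∈ L, (un G (alpha d) z - 3) + Zp.card := by omega
  rcases Nat.eq_zero_or_pos (∑ z ∈ L, (un G (alpha d) z - 3)) with h1 | h1
  · have h3 : 1 < Zp.card := by omega
    obtain ⟨x, hx, y, hy, hxy⟩ := Finset.one_lt_card.1 h3
    obtain ⟨a1, a2, a3, a4, a5⟩ := hZ1 x hx
    obtain ⟨b1, b2, b3, b4, b5⟩ := hZ1 y hy
    exact hex_two61 hG hD hS hC hd6 h6 hu (hZ hy) (hZ hx) (hV hzV) hxy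
      (fun h => hZd x hx (by rw [h]; exact hy)) (fun h => hZd y hy (by rw [h]; exact hx))
      a3 a4 b3 b4 a5 b5 gz
  · have h3 : 0 < Zp.card := by omega
    obtain ⟨x, hx⟩ := Finset.card_pos.1 h3
    obtain ⟨a1, a2, a3, a4, a5⟩ := hZ1 x hx
    obtain ⟨a, haL, ha4⟩ : ∃ a ∈ L, un G (alpha d) a = 4 := by
      by_contra hno
      push Not at hno
      have : ∑ z ∈ L, (un G (alpha d) z - 3) = 0 := by
        refine Finset.sum_eq_zero fun z hz => ?_
        have := hex_un19 hG hD hS hC h6 (hL hz)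
        have := hno z hz
        omega
      omega
    exact hex_pair61 hG hD hS hC hd6 h6 hu (hL haL) (hZ hx) (hV hzV) ha4
      (fun h => a1 (by rw [h]; exact haL)) (fun h => a2 (by rw [h]; exact haL)) a3 a4 a5 gz

/-- **THE WHITE ROW WITH CLAIMS**: every white face except P12 and H17 -/
theorem whiteP61 (hG : G.Geo4 (alpha d) kp U) (hD : DelG G d) (hS : Sep d G.P) {La : ℝ}
    (hLa : 6 ≤ La) {C : G.adj.ConnectedComponent} (hC : C ∈ WF G)
    (e1 : ¬ ((G.cT C).card = 3 ∧ (G.cI C).card = 4 ∧ uf G (alpha d) C = 12))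
    (e2 : ¬ ((G.cT C).card = 4 ∧ (G.cI C).card = 6 ∧ uf G (alpha d) C = 17))
    {L Vw L6 Zp : Finset (ℍ × ℍ)} (hL : L ⊆ G.cJ C) {p : ℍ × ℍ → ℝ}
    (hp : ∀ z ∈ L, p z ≤ ((un G (alpha d) z - 3 : ℕ) : ℝ) ∨
      (Cen61 G (alpha d) z ∧ p z ≤ (un G (alpha d) z : ℝ) - 2))
    (hV : Vw ⊆ G.cJ C) (hVd : ∀ x ∈ Vw, sg G x ∉ Vw)
    (hV1 : ∀ x ∈ Vw, gc G (alpha d) x + gc G (alpha d) (sg G x) ≤ 53 / 100)
    (h6 : L6 ⊆ L) (h61 : ∀ z ∈ L6, 6 ≤ un G (alpha d) z ∧ Cen61 G (alpha d) z)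
    (hZ : Zp ⊆ G.cJ C) (hZd : ∀ x ∈ Zp, sg G x ∉ Zp)
    (hZ1 : ∀ x ∈ Zp, x ∉ L ∧ sg G x ∉ L ∧ 3 ≤ un G (alpha d) x ∧ 3 ≤ un G (alpha d) (sg G x) ∧
      gc G (alpha d) x + gc G (alpha d) (sg G x) < 147 / 100) :
    4 * ((Wk G (alpha d) C).card : ℝ) + ∑ z ∈ L, p z + Vw.card + L6.card + Zp.card ≤
      (La + 5) * ka G (alpha d) C - 6 * qa G C := by
  have hCi := ((mem_WF89 G).1 hC).1
  have hT : ∀ x ∈ BC G, alpha d ≤ TH G x := fun x hx =>
    TH_ge19 hG hD hS ((mem_BC89 G).1 hx).1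
  have hka := ka_nonneg46 G hG hT hC
  have hZ2 : ∀ x ∈ Zp, x ∉ L ∧ sg G x ∉ L ∧ 3 ≤ un G (alpha d) x ∧
      3 ≤ un G (alpha d) (sg G x) :=
    fun x hx => ⟨(hZ1 x hx).1, (hZ1 x hx).2.1, (hZ1 x hx).2.2.1, (hZ1 x hx).2.2.2.1⟩
  have hpc : ∑ z ∈ L, p z ≤ ∑ z ∈ L, (cc61 G (alpha d) z : ℝ) := by
    refine Finset.sum_le_sum fun z hz => ?_
    have h2 := un_ge_WF46 (al := alpha d) G hC (hL hz)
    unfold cc61
    rcases hp z hz with h | ⟨h, h'⟩
    · split_ifs with h3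
      · refine h.trans ?_
        exact_mod_cast (show un G (alpha d) z - 3 ≤ un G (alpha d) z - 2 by omega)
      · exact h
    · rw [if_pos h, Nat.cast_sub h2]
      exact_mod_cast h'
  have main : (4 : ℝ) * (Wk G (alpha d) C).card + ∑ z ∈ L, (cc61 G (alpha d) z : ℝ) +
      Vw.card + L6.card + Zp.card ≤ 11 * ka G (alpha d) C - 6 * qa G C := by
    rcases disc_or46 G C with hd | hd
    swap
    · exact whiteNP61 G hG hT hC hd hL hV hVd hV1 h6 h61 hZ hZd hZ2
    have hm := disc_m46 G hCi hd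
    have h4 := disc_ge46 G hC hd
    rcases Nat.lt_or_ge (G.cJ C).card 5 with h5 | h5
    · -- rhombus
      have hR : RC G C := ⟨by omega, by omega⟩
      obtain ⟨r1, r2, r3, r4⟩ := rhomb_uf46 G hG hC hR.1 hR.2
      have hw : Wk G (alpha d) C = ∅ := by
        rw [Finset.eq_empty_iff_forall_notMem]
        intro z hz
        have h1 := Finset.mem_filter.1 hz
        exact absurd h1.2 (not_lt.2 (rh_sp32 G hG (rf32 hG hD) hC hR h1.1))
      have hc : ∑ z ∈ L, (cc61 G (alpha d) z : ℝ) = 0 := by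
        refine Finset.sum_eq_zero fun z hz => ?_
        have h1 := cc_le61 (al := alpha d) G z
        rw [r1 z (hL hz)] at h1
        have : cc61 G (alpha d) z = 0 := by omega
        rw [this, Nat.cast_zero]
      have hv0 : Vw = ∅ := by
        rw [Finset.eq_empty_iff_forall_notMem]
        intro z hz
        have h1 := rh_sp32 G hG (rf32 hG hD) hC hR (hV hz)
        have h2 := hV1 z hz
        unfold sp at h1
        linarith
      have hl0 : L6 = ∅ := by
        rw [Finset.eq_empty_iff_forall_notMem]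
        intro z hz
        have h1 := (h61 z hz).1
        rw [r1 z (hL (h6 hz))] at h1
        omega
      have hz0 : Zp = ∅ := by
        rw [Finset.eq_empty_iff_forall_notMem]
        intro z hz
        have h1 := (hZ1 z hz).2.2.1
        rw [r1 z (hZ hz)] at h1
        omega
      rw [hw, hc, hv0, hl0, hz0, r4, disc_qa46 G hCi hd, r2]
      norm_num
    · have hpent : (G.cJ C).card = 5 → (G.cT C).card = 3 ∧ (G.cI C).card = 4 := by
        intro h
        omega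
      refine whiteDP61 G hG hT hC hd h5 ?_ ?_ ?_ ?_ ?_ hL hV hVd hV1 h6 h61 hZ hZd hZ2 ?_
      · intro h
        obtain ⟨k1, k2⟩ := hpent h
        exact (pent_class19 hG hD hS hCi k1 k2).1
      · intro z hz
        have h1 := un_vis19 hG hD hS hCi (m := (G.cJ C).card - 2) (by omega) (by omega) hz
        omega
      · intro h hu
        obtain ⟨k1, k2⟩ := hpent h
        exact p11_61 hG hD hS hC k1 k2 hu
      · rintro ⟨h, hu⟩
        obtain ⟨k1, k2⟩ := hpent h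
        exact e1 ⟨k1, k2, hu⟩
      · rintro ⟨h, hu⟩
        exact e2 ⟨by omega, by omega, hu⟩
      · intro h hu
        exact h16_61 hG hD hS hC hd h hu hL hV hVd hV1 hZ hZd hZ1
  nlinarith [mul_nonneg (sub_nonneg.2 hLa) hka]

end conc

end

end Pool.Agent.PEN.E5
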