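import Pool.Agent.E5.Fu15
import Pool.Agent.E5.Op15
import Pool.Agent.E5.Wp61
import Pool.Agent.E5.H8_63
import Pool.Agent.E5.SL2b
import Pool.Agent.E5.Pb39

/-! # PENNY, all small diameters: set B6, the assembly -/

set_option autoImplicit false

namespace Pool.Agent.PEN.E5

open Classical UpperHalfPlane
open Pool.Agent.PEN.Cl

noncomputable section

section general

variable {V : Type} (G : Tg V) {al : ℝ} {kp : V → V → ℝ} {U : ℕ → ℝ}

theorem cJ_BC15 {C : G.adj.ConnectedComponent} (hC : C ∈ WF G) {x : V × V} (hx : x ∈ G.cJ C) :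
    x ∈ BC G := by
  obtain ⟨h1, h2⟩ := Finset.mem_filter.1 hC
  obtain ⟨h3, h4⟩ := cJ_iJ51 G h1 hx
  rw [mem_BC89]
  refine ⟨h3, ?_⟩
  rw [tt_iff89 G h3, h4]
  exact h2.ne_empty

theorem cJ_cl15 {C : G.adj.ConnectedComponent} {x : V × V} (hx : x ∈ G.cJ C) : G.cl x = C :=
  ((Finset.mem_filter.1 hx).2).1

theorem BC_cJ15 {x : V × V} (hx : x ∈ BC G) : x ∈ G.cJ (G.cl x) ∧ G.cl x ∈ WF G := by
  obtain ⟨h1, h2⟩ := (mem_BC89 G).1 hx
  refine ⟨iJ_cJ51 G h1, (mem_WF89 G).2 ⟨cl_iJ71 G h1, ?_⟩⟩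
  rw [Finset.nonempty_iff_ne_empty]
  intro h3
  exact h2 ((tt_iff89 G h1).2 h3)

theorem P12_not_H17 {C : G.adj.ConnectedComponent} (h : P12c G al C) : ¬ H17c G al C := by
  intro h2
  have h3 := h.2.1
  have h4 := h2.2.1
  omega

/-- one element for every class that has one -/
theorem choose15 (S : Finset G.adj.ConnectedComponent) (P : G.adj.ConnectedComponent → V × V → Prop)
    (hP : ∀ C e, P C e → e ∈ G.cJ C) :
    ∃ X : Finset (V × V), (∀ e ∈ X, G.cl e ∈ S ∧ P (G.cl e) e) ∧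
      (∀ C ∈ S, (∃ e, P C e) → ∃ e ∈ X, P C e) ∧
      (∀ e ∈ X, ∀ e' ∈ X, G.cl e = G.cl e' → e = e') := by
  refine ⟨S.biUnion (fun C => if h : ∃ e, P C e then {h.choose} else ∅), ?_, ?_, ?_⟩
  · intro e he
    obtain ⟨C, hC, h1⟩ := Finset.mem_biUnion.1 he
    split_ifs at h1 with h2
    · rw [Finset.mem_singleton] at h1
      have h3 := h2.choose_spec
      rw [← h1] at h3
      have h4 := cJ_cl15 G (hP C e h3)
      rw [h4]
      exact ⟨hC, h3⟩
    · exact absurd h1 (Finset.notMem_empty _)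
  · intro C hC h1
    refine ⟨h1.choose, ?_, h1.choose_spec⟩
    rw [Finset.mem_biUnion]
    refine ⟨C, hC, ?_⟩
    rw [dif_pos h1]
    exact Finset.mem_singleton_self _
  · intro e he e' he' h0
    obtain ⟨C, hC, h1⟩ := Finset.mem_biUnion.1 he
    obtain ⟨C', hC', h1'⟩ := Finset.mem_biUnion.1 he'
    split_ifs at h1 with h2
    · split_ifs at h1' with h2'
      · rw [Finset.mem_singleton] at h1 h1'
        have h3 := h2.choose_spec
        rw [← h1] at h3
        have h3' := h2'.choose_spec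
        rw [← h1'] at h3'
        have h4 := cJ_cl15 G (hP C e h3)
        have h4' := cJ_cl15 G (hP C' e' h3')
        have h5 : C = C' := by rw [← h4, ← h4', h0]
        subst h5
        rw [h1, h1']
      · exact absurd h1' (Finset.notMem_empty _)
    · exact absurd h1 (Finset.notMem_empty _)

/-- the weights give nonnegative gains -/
theorem yk_gain15 {s : V × V} (hs : s ∈ BC G) : 0 ≤ (yK15 G al (ku G s) - 1) * sp G al s := by
  unfold yK15
  split_ifs with h
  · obtain ⟨x, ⟨_, _, h3, _⟩, _⟩ := h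
    have h4 : 0 ≤ sp G al s := by
      by_contra h5
      push Not at h5
      have h6 : s ∈ WsK G al (ku G s) :=
        Finset.mem_filter.2 ⟨(mem_kS42 G).2 ⟨BC_SD14 G hs, rfl⟩, hs, h5⟩
      rw [h3] at h6
      exact absurd h6 (Finset.notMem_empty _)
    linarith
  · linarith

/-- the weak sides of a class and their weights -/
theorem wk_Wk15 {C : G.adj.ConnectedComponent} :
    ∑ x ∈ G.cJ C, wk15 G al x ≤ 4 * (Wk G al C).card := by
  have h : ∑ x ∈ G.cJ C, wk15 G al x ≤ ∑ x ∈ G.cJ C, (if sp G al x < 0 then (4 : ℝ) else 0) := by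
    refine Finset.sum_le_sum fun x _ => ?_
    split_ifs with h1
    · exact wk_le15 G x
    · unfold wk15
      rw [if_neg (fun h2 => h1 h2.2)]
  rw [← Finset.sum_filter, Finset.sum_const, nsmul_eq_mul] at h
  unfold Wk
  linarith

/-- two big gaps at a point with seven units -/
theorem two_gaps15 (hG : G.Geo4 al kp U) {v : V} (hv : v ∈ inN G) (hu : uv G al v = 7)
    {x y : V × V} (hx : x ∈ BC G) (hy : y ∈ BC G) (hxv : x.1 = v) (hyv : y.1 = v)
    (h1 : 1 / 2 ≤ gc G al x) (h2 : 1 / 2 ≤ gc G al y) : x = y := by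
  by_contra hne
  have h3 := sum_Bv15 G hG hv (al := al)
  rw [kv_eq89, hu] at h3
  have h4 := ep_pos89 G hG
  have hxB : x ∈ Bv G v := Finset.mem_filter.2 ⟨hx, hxv⟩
  have hyB : y ∈ Bv G v := Finset.mem_filter.2 ⟨hy, hyv⟩
  have h5 : gc G al x + gc G al y ≤ ∑ x ∈ Bv G v, gc G al x := by
    have h6 : ({x, y} : Finset (V × V)) ⊆ Bv G v := by
      intro z hz
      rw [Finset.mem_insert, Finset.mem_singleton] at hz
      rcases hz with rfl | rfl
      · exact hxB
      · exact hyB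
    have h7 := Finset.sum_le_sum_of_subset_of_nonneg h6 (f := gc G al)
      (fun z _ _ => gc_nonneg89 G hG)
    rw [Finset.sum_pair hne] at h7
    exact h7
  push_cast at h3
  linarith

/-- the payments of the leaf corners fit the white row -/
theorem ps_white15 {z : V × V} (hz : 2 ≤ un G al z) (h1 : ¬ H17c G al (G.cl z))
    (h2 : ¬ P12c G al (G.cl z)) :
    ps15 G al z ≤ ((un G al z - 3 : ℕ) : ℝ) ∨
      (Cen61 G al z ∧ ps15 G al z ≤ (un G al z : ℝ) - 2) := by
  have h4 : (2 : ℝ) ≤ un G al z := by exact_mod_cast hz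
  by_cases h3 : Cen61 G al z
  · right
    refine ⟨h3, ?_⟩
    unfold ps15
    rw [if_pos (Or.inr (Or.inr h3))]
    exact max_le le_rfl (by linarith)
  · left
    unfold ps15
    rw [if_neg (by tauto)]
    unfold pm
    rcases Nat.lt_or_ge (un G al z) 3 with h5 | h5
    · have h6 : (un G al z : ℝ) ≤ 2 := by exact_mod_cast (by omega : un G al z ≤ 2)
      exact max_le (by linarith [Nat.cast_nonneg (α := ℝ) (un G al z - 3)]) (Nat.cast_nonneg _)
    · rw [Nat.cast_sub h5]
      push_cast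
      have h6 : (3 : ℝ) ≤ un G al z := by exact_mod_cast h5
      exact max_le le_rfl (by linarith)

/-- the leaf of a black triangle with a single leaf -/
theorem xb_L615 (hG : G.Geo4 al kp U) (h1 : ∀ x ∈ iJ G, gc G al x ≤ 1)
    {K : (cg G).ConnectedComponent} {x : V × V} (h : Ex1 G al K x) (ht : tK G K = 1) :
    sg G x ∈ L615 G al := by
  obtain ⟨hL, hSf, hW, hr, hin⟩ := h
  have hxL : x ∈ Lv G K := by
    rw [hL]
    exact Finset.mem_singleton_self x
  obtain ⟨hx, hv, hc⟩ := (mem_Lv15 G).1 hxL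
  have hu : uK14 G al K < 1 := by
    have : uK14 G al K = 0 := by
      unfold uK14
      refine Finset.sum_eq_zero fun y hy => ?_
      have h5 := Finset.mem_filter.1 hy
      exact absurd (hin y h5.1) h5.2
    rw [this]
    norm_num
  have h5 := single_cen2 G hG h1 hL hSf hW hu
  have h6 := leaf_sum15 G hG h1 hxL
  refine Finset.mem_filter.2 ⟨(Finset.mem_filter.1 (sg_Bv62 G hG hv
    ((mem_Sv62 G).2 ⟨mem_kS89 G hx, rfl⟩))).1, (mem_lfN15 G).2 ⟨hv, hc⟩, ?_,
    h5.2.2.2.2.2⟩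
  omega

/-- a pentagon class with twelve units has corners with at most four units -/
theorem un_p12_15 {C : G.adj.ConnectedComponent} (hC : C ∈ WF G) (hP : P12c G al C) {x : V × V}
    (hx : x ∈ G.cJ C) : un G al x ≤ 4 := by
  have h1 := hP.2.2.2
  unfold uf at h1
  have h2 : ∑ y ∈ (G.cJ C).erase x, un G al y + un G al x = 12 := by
    rw [Finset.sum_erase_add _ _ hx]
    exact h1
  have h3 : 2 * ((G.cJ C).erase x).card ≤ ∑ y ∈ (G.cJ C).erase x, un G al y := by
    rw [mul_comm, ← smul_eq_mul, ← Finset.sum_const]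
    exact Finset.sum_le_sum fun y hy =>
      un_ge46 G (cJ_BC15 G hC (Finset.mem_of_mem_erase hy))
  have h4 := m_eq46 G ((mem_WF89 G).1 hC).1
  rw [Finset.card_erase_of_mem hx] at h3
  have h5 := hP.2.1
  have h6 := hP.2.2.1
  omega

/-- counts of disjoint sets -/
theorem cC_zero15 {S : Finset (V × V)} {C : G.adj.ConnectedComponent}
    (h : ∀ x ∈ G.cJ C, x ∉ S) : (cC15 G S C : ℝ) = 0 := by
  unfold cC15
  rw [Finset.filter_false_of_mem h, Finset.card_empty, Nat.cast_zero]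

theorem lC_zero15 {S : Finset (V × V)} {C : G.adj.ConnectedComponent}
    (h : ∀ x ∈ G.cJ C, x ∉ S) : (lC15 G S C : ℝ) = 0 := by
  unfold lC15
  rw [Finset.filter_false_of_mem (fun x hx => h x (Finset.mem_filter.1 hx).1), Finset.card_empty,
    Nat.cast_zero]

theorem cC_one15 {S : Finset (V × V)} {C : G.adj.ConnectedComponent} {x : V × V}
    (hx : x ∈ G.cJ C) (h : x ∈ S) : (1 : ℝ) ≤ cC15 G S C := by
  have : 0 < cC15 G S C := Finset.card_pos.2 ⟨x, Finset.mem_filter.2 ⟨hx, h⟩⟩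
  exact_mod_cast this

theorem cC_mono15 {S T : Finset (V × V)} {C : G.adj.ConnectedComponent}
    (h : ∀ x ∈ G.cJ C, x ∈ S → x ∈ T) : (cC15 G S C : ℝ) ≤ cC15 G T C := by
  have : cC15 G S C ≤ cC15 G T C := by
    refine Finset.card_le_card fun x hx => ?_
    obtain ⟨h1, h2⟩ := Finset.mem_filter.1 hx
    exact Finset.mem_filter.2 ⟨h1, h x h1 h2⟩
  exact_mod_cast this

end general

section final

variable {d : ℝ} {kp : ℍ → ℍ → ℝ} {U : ℕ → ℝ} (G : Tg ℍ)

/-- the bad weak sides -/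
def Bs15 (al : ℝ) : Finset (ℍ × ℍ) :=
  (BC G).filter (fun x => Bd39 G al x ∧ P12c G al (G.cl x))

theorem glue15 (hG : G.Geo4 (alpha d) kp U) (hD : DelG G d) (hS : Sep d G.P)
    (h1 : ∀ x ∈ iJ G, gc G (alpha d) x ≤ 1)
    (hOpt : ∀ C, H17c G (alpha d) C → Opt15 G (alpha d) C)
    (h4 : ∀ C, H17c G (alpha d) C → ∀ z ∈ G.cJ C, un G (alpha d) z ≤ 4)
    (hH3 : ∀ C, H17c G (alpha d) C → ∀ z ∈ G.cJ C, 3 ≤ un G (alpha d) z →
      3 ≤ un G (alpha d) (sg G z) → 147 / 100 ≤ gc G (alpha d) z + gc G (alpha d) (sg G z))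
    (hP3 : ∀ C, P12c G (alpha d) C → ∀ z ∈ G.cJ C,
      ¬ (3 ≤ un G (alpha d) z ∧ 3 ≤ un G (alpha d) (sg G z)))
    (hPw : ∀ z ∈ BC G, P12c G (alpha d) (G.cl z) → -(23 : ℝ) / 50 ≤ sp G (alpha d) z)
    (hC2 : ∀ C, P12c G (alpha d) C → ∑ x ∈ G.cJ C, wk15 G (alpha d) x + nH15 G (alpha d) C ≤
      5 + cC15 G (Bs15 G (alpha d)) C)
    (hB0 : ∀ x, Bd39 G (alpha d) x → x.1 ∉ inN G ∨ x.2 ∉ inN G →
      Lv G (ku G x) = ∅ ∧ PK G (alpha d) (ku G x) = ∅ ∧ 1 ≤ oK14 G (ku G x) ∧
        1 / 4 ≤ uK14 G (alpha d) (ku G x))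
    (hKf : ∀ XS VW B0 RP LO : Finset (ℍ × ℍ),
      (∀ e ∈ XS, e ∈ BC G ∧ e ∉ GH G (alpha d) ∧
        ((Xa15 G (alpha d) e ∧ (e.2, e.1) ∈ VW) ∨
          (Xb15 G (alpha d) e ∧ ∀ x, Ex1 G (alpha d) (ku G e) x → sg G x ∈ L615 G (alpha d)) ∨
          Xc15 G (alpha d) e)) →
      (∀ y ∈ RP, y ∈ SD G ∧
        ((y ∈ Lv G (ku G y) ∧ nx G y ∉ Lv G (ku G y) ∧ 3 ≤ rn G (nx G y)) ∨
          (y ∉ Lv G (ku G y) ∧ 3 ≤ rn G y ∧ nx G y ∈ Lv G (ku G y)))) →
      (∀ s ∈ LO, s ∈ SD G ∧ s.2 ∈ inN G ∧ gc G (alpha d) (sg G s) < 1 / 2 ∧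
        gc G (alpha d) (nx G s) < 1 / 2 ∧
        rn G s = 1 ∧ nx G s ∈ Lv G (ku G s) ∧ ∃ y ∈ Lv G (ku G s), nx G y = s) →
      (∀ x ∈ B0, Bd39 G (alpha d) x ∧ Lv G (ku G x) = ∅ ∧ PK G (alpha d) (ku G x) = ∅ ∧
        1 ≤ oK14 G (ku G x) ∧ 1 / 4 ≤ uK14 G (alpha d) (ku G x)) →
      ∀ K ∈ Kc G, wx G 1 K + yK15 G (alpha d) K * (Lv G K).card + F14 G K + Z14 G K +
        cK15 G (GH G (alpha d)) K + cK15 G XS K + rK15 G B0 K + rK15 G RP K + rK15 G LO K ≤
      ∑ s ∈ PK G (alpha d) K, max (4 - (rn G s : ℝ)) 0 +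
      ∑ x ∈ (kS G K).filter (fun x => x ∈ BC G), wk15 G (alpha d) x + cK15 G VW K +
      ∑ x ∈ Lv G K, ps15 G (alpha d) (sg G x) + lK15 G (L615 G (alpha d)) K +
      11 / 2 * uK14 G (alpha d) K -
        (yK15 G (alpha d) K - 1) * (uK14 G (alpha d) K - oK14 G K) + 3 * fe14 G K) :
    Row14 G (alpha d) := by
  -- the chosen corners and sides
  obtain ⟨Q, hQ1, hQ2, _⟩ := choose15 G ((WF G).filter (fun C => H17c G (alpha d) C))
    (fun C z => OB15 G (alpha d) C z) (fun C e h => h.1)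
  obtain ⟨XS, hX1, hX2, hX3⟩ := choose15 G ((WF G).filter (fun C => H17c G (alpha d) C))
    (fun C z => OX15 G (alpha d) C z) (fun C e h => h.1)
  -- the bad sides
  obtain ⟨B0, NP, RP, LO, ZP, hb0, hnp, hrp, hlo, hzp, _, _, hcard⟩ :=
    bad_sum39 hG (Bs15 G (alpha d)) (fun x hx => (Finset.mem_filter.1 hx).2.1)
  have hQB : ∀ x ∈ Q, x ∈ BC G ∧ H17c G (alpha d) (G.cl x) := by
    intro x hx
    obtain ⟨h5, h6⟩ := hQ1 x hx
    obtain ⟨h7, h8⟩ := Finset.mem_filter.1 h5
    exact ⟨cJ_BC15 G h7 h6.1, h8⟩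
  have hXB : ∀ x ∈ XS, x ∈ BC G ∧ H17c G (alpha d) (G.cl x) := by
    intro x hx
    obtain ⟨h5, h6⟩ := hX1 x hx
    obtain ⟨h7, h8⟩ := Finset.mem_filter.1 h5
    exact ⟨cJ_BC15 G h7 h6.1, h8⟩
  have hNPB : ∀ x ∈ NP, x ∈ BC G ∧ P12c G (alpha d) (G.cl x) := by
    intro c hc
    rcases (hnp c hc).1 with h5 | ⟨x, h5, rfl⟩
    · obtain ⟨h6, h7⟩ := Finset.mem_filter.1 h5
      exact ⟨h6, h7.2⟩
    · obtain ⟨h6, h7⟩ := Finset.mem_filter.1 h5
      have h8 := (BC_cJ15 G h6)
      have h9 := sg_cJ46 G hG ((mem_WF89 G).1 h8.2).1 h8.1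
      exact ⟨cJ_BC15 G h8.2 h9, by rw [cJ_cl15 G h9]; exact h7.2⟩
  -- the very weak sides
  set VW : Finset (ℍ × ℍ) := (XS.filter (fun e => Xa15 G (alpha d) e)).image (fun e => (e.2, e.1))
    with hVW
  have hVWm : ∀ x ∈ VW, (x.2, x.1) ∈ XS ∧ Xa15 G (alpha d) (x.2, x.1) ∧ x ∈ BC G ∧
      sp G (alpha d) x < 0 := by
    intro x hx
    obtain ⟨e, he, rfl⟩ := Finset.mem_image.1 hx
    obtain ⟨h5, h6⟩ := Finset.mem_filter.1 he
    have h7 : (e.2, e.1) ∈ WsK G (alpha d) (ku G e) := by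
      rw [h6.1.2.2.1]
      exact Finset.mem_singleton_self _
    obtain ⟨_, h8, h9⟩ := Finset.mem_filter.1 h7
    exact ⟨h5, h6, h8, h9⟩
  have hVWd : ∀ x ∈ VW, sg G x ∉ VW := by
    intro x hx hsx
    obtain ⟨a1, a2, a3, a4⟩ := hVWm x hx
    obtain ⟨b1, b2, b3, b4⟩ := hVWm _ hsx
    have c1 := (hXB _ a1).1
    have c2 := (hXB _ b1).1
    have c3 := BC_cJ15 G c2
    have c4 := sg_cJ46 G hG ((mem_WF89 G).1 c3.2).1 c3.1
    have c5 : x.2 ∈ inN G := by
      refine a2.1.2.2.2.2 (x.1, x.2) ?_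
      have c6 : (x.1, x.2) ∈ WsK G (alpha d) (ku G (x.2, x.1)) := by
        rw [a2.1.2.2.1]
        exact Finset.mem_singleton_self _
      exact (Finset.mem_filter.1 c6).1
    have c7 : (x.2, x.1) = sg G ((sg G x).2, (sg G x).1) :=
      two_gaps15 G hG c5 a2.2.2.1 c1 (cJ_BC15 G c3.2 c4) rfl rfl a2.2.2.2.2.1 b2.2.2.2.2.2
    have c8 : G.cl (x.2, x.1) = G.cl ((sg G x).2, (sg G x).1) := by
      rw [c7]
      exact cJ_cl15 G c4
    have c9 := hX3 _ a1 _ b1 c8
    rw [← c9] at c7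
    have c10 : x.2 = x.1 := congrArg Prod.fst c7
    exact G.ne _ _ (G.sub ((mem_iJ71 G).1 ((mem_BC89 G).1 c1).1).1.1) c10
  -- the sets of the final sum
  refine row_fin_b15 G hG h1 (yK := yK15 G (alpha d)) (fun K _ => yK_one15 G K)
    (wk := wk15 G (alpha d)) (ps := ps15 G (alpha d)) (GH G (alpha d)) XS VW (L615 G (alpha d))
    (Bs15 G (alpha d) ∪ Q) (NP ∪ Q) B0 RP LO ZP ?_ ?_ ?_ ?_ ?_ ?_ ?_ ?_ ?_ ?_
  · intro x hx
    rcases Finset.mem_union.1 hx with h | h
    · exact (Finset.mem_filter.1 h).1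
    · exact (hQB x h).1
  · intro x hx
    rcases Finset.mem_union.1 hx with h | h
    · exact (hnp x h).2.1
    · exact (hQ1 x h).2.2.1
  · intro x hx
    exact BC_SD14 G (Finset.mem_filter.1 (hb0.1 hx)).1
  · intro x hx
    exact (hrp x hx).1
  · intro x hx
    exact (hlo x hx).1
  · intro x hx
    exact (hzp x hx).1
  · -- the count
    have e1 : ((Bs15 G (alpha d) ∪ Q).card : ℝ) ≤ (Bs15 G (alpha d)).card + Q.card := by
      exact_mod_cast Finset.card_union_le _ _
    have e2 : ((NP ∪ Q).card : ℝ) = NP.card + Q.card := by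
      have : Disjoint NP Q := by
        rw [Finset.disjoint_left]
        intro x hx hx'
        exact P12_not_H17 G (hNPB x hx).2 (hQB x hx').2
      exact_mod_cast Finset.card_union_of_disjoint this
    have e3 : (((inN G).filter (fun v => uv G (alpha d) v = 7 ∧ cv G v = 3)).card : ℝ) ≤
        ∑ v ∈ (inN G).filter (fun v => uv G (alpha d) v = 7 ∧ cv G v ≠ 1), ((cv G v : ℝ) - 2) := by
      have e4 : ∑ v ∈ (inN G).filter (fun v => uv G (alpha d) v = 7 ∧ cv G v = 3),
          ((cv G v : ℝ) - 2) ≤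
          ∑ v ∈ (inN G).filter (fun v => uv G (alpha d) v = 7 ∧ cv G v ≠ 1), ((cv G v : ℝ) - 2) := by
        refine Finset.sum_le_sum_of_subset_of_nonneg ?_ ?_
        · intro v hv
          obtain ⟨h5, h6, h7⟩ := Finset.mem_filter.1 hv
          exact Finset.mem_filter.2 ⟨h5, h6, by omega⟩
        · intro v hv _
          obtain ⟨h5, h6, h7⟩ := Finset.mem_filter.1 hv
          have h8 := cv_pos89 G hG h5
          have h9 : (2 : ℝ) ≤ cv G v := by exact_mod_cast (by omega : 2 ≤ cv G v)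
          linarith
      refine le_trans (le_of_eq ?_) e4
      rw [← nsmul_one, ← Finset.sum_const]
      refine Finset.sum_congr rfl fun v hv => ?_
      rw [(Finset.mem_filter.1 hv).2.2]
      norm_num
    have e5 : ((Bs15 G (alpha d)).card : ℝ) ≤ B0.card + NP.card +
        ((inN G).filter (fun v => uv G (alpha d) v = 7 ∧ cv G v = 3)).card + RP.card + LO.card +
        ZP.card := by exact_mod_cast hcard
    linarith
  · -- the rows of the black faces
    refine hKf XS VW B0 RP LO ?_ hrp hlo ?_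
    · intro e he
      obtain ⟨h5, h6, h7, h8⟩ := hX1 e he
      refine ⟨(hXB e he).1, h7, ?_⟩
      rcases h8 with h8 | h8 | h8
      · left
        exact ⟨h8, Finset.mem_image.2 ⟨e, Finset.mem_filter.2 ⟨he, h8⟩, rfl⟩⟩
      · right; left
        exact ⟨h8, fun x hx => xb_L615 G hG h1 hx h8.2.1⟩
      · right; right
        exact h8
    · intro x hx
      have h5 := (Finset.mem_filter.1 (hb0.1 hx)).2.1
      exact ⟨h5, hB0 x h5 (hb0.2 x hx)⟩
  · -- the rows of the white faces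
    intro C hC
    have hJ : ∀ x ∈ G.cJ C, x ∈ BC G ∧ G.cl x = C := fun x hx =>
      ⟨cJ_BC15 G hC hx, cJ_cl15 G hx⟩
    have hgain : 0 ≤ ∑ s ∈ G.cJ C, (yK15 G (alpha d) (ku G s) - 1) * sp G (alpha d) s :=
      Finset.sum_nonneg fun s hs => yk_gain15 G (hJ s hs).1
    have hGH0 : (0 : ℝ) ≤ cC15 G (GH G (alpha d)) C := Nat.cast_nonneg _
    have hXS0 : (0 : ℝ) ≤ cC15 G XS C := Nat.cast_nonneg _
    have hND0 : (0 : ℝ) ≤ cC15 G (Bs15 G (alpha d) ∪ Q) C := Nat.cast_nonneg _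
    by_cases hP : P12c G (alpha d) C
    · -- pentagons with twelve units
      have hz1 : (cC15 G VW C : ℝ) = 0 := by
        refine cC_zero15 G fun x hx hx' => ?_
        obtain ⟨a1, a2, a3, a4⟩ := hVWm x hx'
        have h5 := hPw x (hJ x hx).1 (by rw [(hJ x hx).2]; exact hP)
        have h6 := a2.2.1
        unfold sp at h5
        simp only at h6
        linarith
      have hz2 : (lC15 G (L615 G (alpha d)) C : ℝ) = 0 := by
        refine lC_zero15 G fun x hx hx' => ?_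
        obtain ⟨_, _, h5, _⟩ := Finset.mem_filter.1 hx'
        have h6 := un_p12_15 G hC hP hx
        omega
      have hz3 : (cC15 G ZP C : ℝ) = 0 := by
        refine cC_zero15 G fun x hx hx' => ?_
        obtain ⟨_, _, h5, h6, _⟩ := hzp x hx'
        exact hP3 C hP x hx ⟨h5, h6⟩
      have h5 := hC2 C hP
      have h6 : (cC15 G (Bs15 G (alpha d)) C : ℝ) ≤ cC15 G (Bs15 G (alpha d) ∪ Q) C :=
        cC_mono15 G fun x _ h => Finset.mem_union_left _ h
      have h7 := ka_uf46 G C (al := alpha d)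
      rw [hP.2.2.1, hP.2.1, hP.2.2.2] at h7
      have h8 : qa G C = 1 := by
        unfold qa
        rw [hP.2.2.1, hP.2.1]
        norm_num
      unfold nH15 at h5
      rw [hz1, hz2, hz3, h7, h8]
      push_cast
      linarith
    by_cases hH : H17c G (alpha d) C
    · -- hexagons with seventeen units
      have hWk : Wk G (alpha d) C = ∅ :=
        (h17_row63 hG hD hS hC hH.2.1 hH.2.2.1 hH.2.2.2 (Finset.empty_subset _)
          (p := fun _ => 0) (fun z hz => absurd hz (Finset.notMem_empty _))).1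
      have hw := wk_Wk15 G (al := alpha d) (C := C)
      rw [hWk, Finset.card_empty] at hw
      have hz1 : (cC15 G VW C : ℝ) = 0 := by
        refine cC_zero15 G fun x hx hx' => ?_
        obtain ⟨a1, a2, a3, a4⟩ := hVWm x hx'
        have h5 : x ∈ Wk G (alpha d) C := Finset.mem_filter.2 ⟨hx, a4⟩
        rw [hWk] at h5
        exact absurd h5 (Finset.notMem_empty _)
      have hz2 : (lC15 G (L615 G (alpha d)) C : ℝ) = 0 := by
        refine lC_zero15 G fun x hx hx' => ?_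
        obtain ⟨_, _, h5, _⟩ := Finset.mem_filter.1 hx'
        have h6 := h4 C hH x hx
        omega
      have hz3 : (cC15 G ZP C : ℝ) = 0 := by
        refine cC_zero15 G fun x hx hx' => ?_
        obtain ⟨z1, z2, z3, z4, _, _, _, _, _, _, _, z5⟩ := hzp x hx'
        have h5 := hH3 C hH x hx z3 z4
        obtain ⟨h6, h7⟩ := Finset.mem_filter.1 z2
        have h8 := hPw _ h6 h7.2
        have h9 := ep_pos89 G hG
        unfold sp at h8
        linarith
      have h7 := ka_uf46 G C (al := alpha d)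
      rw [hH.2.2.1, hH.2.1, hH.2.2.2] at h7
      have h8 : qa G C = 2 := by
        unfold qa
        rw [hH.2.2.1, hH.2.1]
        norm_num
      rw [hz1, hz2, hz3, h7, h8]
      push_cast
      push_cast at hw
      have hopt := hOpt C hH
      unfold Opt15 nH15 at hopt
      rcases hopt with h9 | ⟨h9, h10 | h10⟩
      · linarith
      · obtain ⟨z, hz, hz2⟩ := hQ2 C (Finset.mem_filter.2 ⟨hC, hH⟩) h10
        have h11 := cC_one15 G (C := C) (S := Bs15 G (alpha d) ∪ Q) hz2.1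
          (Finset.mem_union_right _ hz)
        linarith
      · obtain ⟨z, hz, hz2⟩ := hX2 C (Finset.mem_filter.2 ⟨hC, hH⟩) h10
        have h11 := cC_one15 G (C := C) (S := XS) hz2.1 hz
        linarith
    · -- the other classes
      have hw := wk_Wk15 G (al := alpha d) (C := C)
      have h5 := whiteP61 hG hD hS (La := 6) le_rfl hC
        (fun h => hP ⟨hC, h.1, h.2.1, h.2.2⟩) (fun h => hH ⟨hC, h.1, h.2.1, h.2.2⟩)
        (L := (G.cJ C).filter (fun x => x.1 ∈ lfN G))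
        (Vw := (G.cJ C).filter (fun x => x ∈ VW))
        (L6 := ((G.cJ C).filter (fun x => x.1 ∈ lfN G)).filter (fun x => x ∈ L615 G (alpha d)))
        (Zp := (G.cJ C).filter (fun x => x ∈ ZP)) (p := ps15 G (alpha d))
        (Finset.filter_subset _ _) ?_ (Finset.filter_subset _ _) ?_ ?_ (Finset.filter_subset _ _) ?_
        (Finset.filter_subset _ _) ?_ ?_
      · unfold cC15 lC15
        unfold cC15 at hGH0 hXS0 hND0
        linarith
      · intro z hz
        have h6 := (Finset.mem_filter.1 hz).1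
        exact ps_white15 G (un_ge46 G (hJ z h6).1) (by rw [(hJ z h6).2]; exact hH)
          (by rw [(hJ z h6).2]; exact hP)
      · intro x hx hx'
        exact hVWd x (Finset.mem_filter.1 hx).2 (Finset.mem_filter.1 hx').2
      · intro x hx
        exact (hVWm x (Finset.mem_filter.1 hx).2).2.1.2.1
      · intro z hz
        obtain ⟨_, _, h6, h7⟩ := Finset.mem_filter.1 (Finset.mem_filter.1 hz).2
        exact ⟨h6, h7⟩
      · intro x hx hx'
        exact (hzp x (Finset.mem_filter.1 hx).2).2.2.2.2.1 (Finset.mem_filter.1 hx').2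
      · intro x hx
        obtain ⟨h6, h7⟩ := Finset.mem_filter.1 hx
        obtain ⟨z1, z2, z3, z4, _, _, _, _, _, z8, z9, z5⟩ := hzp x h7
        obtain ⟨h8, h9⟩ := Finset.mem_filter.1 z2
        have h10 := hPw _ h8 h9.2
        have h11 := ep_pos89 G hG
        unfold sp at h10
        refine ⟨fun h => ?_, fun h => ?_, z3, z4, by linarith⟩
        · have h12 := (mem_lfN15 G).1 (Finset.mem_filter.1 h).2
          omega
        · have h12 := (mem_lfN15 G).1 (Finset.mem_filter.1 h).2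
          have h13 : (sg G x).1 = x.2 := rfl
          rw [h13] at h12
          omega
  · -- the rows of the points
    intro v hv
    refine vrow15 G hG h1 hv fun x hx hxv => ?_
    rcases Finset.mem_union.1 hx with h | h
    · rw [← hxv]
      exact (hnp x h).2.2
    · rw [← hxv]
      exact (hQ1 x h).2.2.2

end final

end

end Pool.Agent.PEN.E5
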