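import Pool.Agent.E5.Hx63
import Pool.Agent.E5.Pc19

/-! # Hyperbolic penny graphs: frames, and the relation of an equilateral pentagon

The position of a point `a` seen from the edge `p q` is given by `cosh r`, `sinh r cos φ`,
`sinh r sin φ`; here are its values seen from the other end. Hence the distance of the ends of a
chain of three sides of length `d`, and the relation of two adjacent corners and the opposite corner
of an equilateral pentagon. -/

set_option autoImplicit false

namespace Pool.Agent.PEN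

open Classical UpperHalfPlane

noncomputable section

/-- the distance from the other end -/
theorem fr_cosh63 {p q a : ℍ} (hq : q ≠ p) (ha : a ≠ p) :
    Real.cosh (dist q a) = Real.cosh (dist p q) * Real.cosh (dist p a) -
      Real.sinh (dist p q) * (Real.sinh (dist p a) * Real.cos (ang p q a)) := by
  have h := cosh_law hq ha
  linarith

/-- the first coordinate from the other end -/
theorem fr_cos63 {p q a : ℍ} (hq : q ≠ p) (ha : a ≠ p) (ha' : a ≠ q) :
    Real.sinh (dist q a) * Real.cos (ang q p a) = Real.sinh (dist p q) * Real.cosh (dist p a) -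
      Real.cosh (dist p q) * (Real.sinh (dist p a) * Real.cos (ang p q a)) := by
  have h1 := fr_cosh63 hq ha
  have h2 := fr_cosh63 hq.symm ha'
  rw [dist_comm q p] at h2
  have s : 0 < Real.sinh (dist p q) := Real.sinh_pos_iff.2 (dist_pos.2 hq.symm)
  have q1 := Real.cosh_sq (dist p q)
  have h3 : Real.sinh (dist p q) * (Real.sinh (dist q a) * Real.cos (ang q p a)) =
      Real.sinh (dist p q) * (Real.sinh (dist p q) * Real.cosh (dist p a) -
      Real.cosh (dist p q) * (Real.sinh (dist p a) * Real.cos (ang p q a))) := by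
    have h4 : Real.sinh (dist p q) * (Real.sinh (dist q a) * Real.cos (ang q p a)) =
        Real.cosh (dist p q) * Real.cosh (dist q a) - Real.cosh (dist p a) := by linarith
    rw [h4, h1]
    linear_combination Real.cosh (dist p a) * q1
  exact mul_left_cancel₀ s.ne' h3

/-- the second coordinate from the other end -/
theorem fr_sin63 {p q a : ℍ} (hq : q ≠ p) (ha : a ≠ p) (ha' : a ≠ q) :
    Real.sinh (dist q a) * Real.sin (ang q p a) =
      - (Real.sinh (dist p a) * Real.sin (ang p q a)) := by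
  have h1 := sin_law66 hq ha
  have h2 := sin_law66 hq.symm ha'
  rw [dist_comm q p] at h2
  have s : 0 < Real.sinh (dist p q) := Real.sinh_pos_iff.2 (dist_pos.2 hq.symm)
  have i1 := p.im_pos
  have i2 := q.im_pos
  have i3 := a.im_pos
  have ho : ori (kl q) (kl p) (kl a) = - ori (kl p) (kl q) (kl a) := by
    unfold ori
    ring
  have h3 : Real.sinh (dist p q) * (Real.sinh (dist q a) * Real.sin (ang q p a)) =
      Real.sinh (dist p q) * (- (Real.sinh (dist p a) * Real.sin (ang p q a))) := by
    have e : ori (kl q) (kl p) (kl a) / (2 * q.im * p.im * a.im) =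
        - (ori (kl p) (kl q) (kl a) / (2 * p.im * q.im * a.im)) := by
      rw [ho, neg_div]
      congr 2
      ring
    rw [← h1, ← h2] at e
    linarith
  exact mul_left_cancel₀ s.ne' h3

/-- change of the reference at a point -/
theorem fr_rot63 {p x y a : ℍ} (hx : x ≠ p) (hy : y ≠ p) (ha : a ≠ p) :
    Real.cos (ang p x a) = Real.cos (ang p x y) * Real.cos (ang p y a) -
      Real.sin (ang p x y) * Real.sin (ang p y a) ∧
    Real.sin (ang p x a) = Real.sin (ang p x y) * Real.cos (ang p y a) +
      Real.cos (ang p x y) * Real.sin (ang p y a) := by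
  have h := ang_coe66 hx hy ha
  rw [← Real.Angle.coe_add] at h
  have h1 := congrArg Real.Angle.cos h
  have h2 := congrArg Real.Angle.sin h
  rw [Real.Angle.cos_coe, Real.Angle.cos_coe] at h1
  rw [Real.Angle.sin_coe, Real.Angle.sin_coe] at h2
  rw [Real.cos_add] at h1
  rw [Real.sin_add] at h2
  constructor
  · linarith
  · linarith

/-- **a chain of three sides** of length `d` -/
theorem chain63 {d : ℝ} (hd : 0 < d) {A B D E : ℍ} (h1 : dist A B = d) (h2 : dist B D = d)
    (h3 : dist D E = d) (hE : E ≠ B) :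
    Real.cosh (dist A E) = Real.cosh d * (Real.cosh d ^ 2 - Real.sinh d ^ 2 *
      Real.cos (ang D B E)) - Real.sinh d ^ 2 * (Real.cosh d * (1 - Real.cos (ang D B E)) *
      Real.cos (ang B A D) + Real.sin (ang D B E) * Real.sin (ang B A D)) := by
  have nAB : A ≠ B := ne63 hd (by rw [dist_comm]; exact h1.ge)
  have nDB : D ≠ B := ne63 hd h2.ge
  have nED : E ≠ D := ne63 hd h3.ge
  have c1 := fr_cosh63 (p := D) (q := B) (a := E) nDB.symm nED
  have c2 := fr_cos63 (p := D) (q := B) (a := E) nDB.symm nED hE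
  have c3 := fr_sin63 (p := D) (q := B) (a := E) nDB.symm nED hE
  have c4 := fr_cosh63 (p := B) (q := A) (a := E) nAB hE
  have c5 := (fr_rot63 (p := B) (x := A) (y := D) (a := E) nAB nDB hE).1
  rw [dist_comm D B, h2, h3] at c1 c2
  rw [h3] at c3
  rw [dist_comm B A, h1, c5] at c4
  rw [c4]
  linear_combination Real.cosh d * c1 - Real.sinh d * Real.cos (ang B A D) * c2 +
    Real.sinh d * Real.sin (ang B A D) * c3

theorem cos_coe63 {s t : ℝ} (h : ((s : ℝ) : Real.Angle) = ((t : ℝ) : Real.Angle)) :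
    Real.cos s = Real.cos t ∧ Real.sin s = Real.sin t := by
  have h1 := congrArg Real.Angle.cos h
  have h2 := congrArg Real.Angle.sin h
  rw [Real.Angle.cos_coe, Real.Angle.cos_coe] at h1
  rw [Real.Angle.sin_coe, Real.Angle.sin_coe] at h2
  exact ⟨h1, h2⟩

/-- **two adjacent corners and the opposite corner of an equilateral pentagon** -/
theorem penta63 {d x y z : ℝ} (hd : 0 < d) {v1 v2 v3 v4 v5 : ℍ} (s1 : dist v1 v2 = d)
    (s2 : dist v2 v3 = d) (s3 : dist v3 v4 = d) (s4 : dist v4 v5 = d) (s5 : dist v5 v1 = d)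
    (n : v5 ≠ v2) (ex : ((ang v1 v2 v5 : ℝ) : Real.Angle) = ((x : ℝ) : Real.Angle))
    (ey : ((ang v2 v3 v1 : ℝ) : Real.Angle) = ((y : ℝ) : Real.Angle))
    (ez : ((ang v4 v5 v3 : ℝ) : Real.Angle) = ((z : ℝ) : Real.Angle)) :
    Real.cosh d * (Real.cos x + Real.cos y) = Real.cosh d ^ 2 / (Real.cosh d + 1) + Real.cos z +
      Real.cosh d * Real.cos x * Real.cos y - Real.sin x * Real.sin y := by
  have c0 : 1 < Real.cosh d := Real.one_lt_cosh.2 hd.ne'
  have hne : Real.cosh d + 1 ≠ 0 := by linarith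
  have hne' : Real.cosh d - 1 ≠ 0 := by linarith
  have q2 := Real.cosh_sq d
  have e6 : Real.sinh d ^ 2 = Real.cosh d ^ 2 - 1 := by linarith
  have hc := chain63 hd (A := v3) (B := v2) (D := v1) (E := v5) (by rw [dist_comm]; exact s2)
    (by rw [dist_comm]; exact s1) (by rw [dist_comm]; exact s5) n
  have n5 : v5 ≠ v4 := ne63 hd s4.ge
  have n3 : v3 ≠ v4 := ne63 hd (by rw [dist_comm]; exact s3.ge)
  have hl := cosh_law n5 n3
  rw [s4, dist_comm v4 v3, s3, (cos_coe63 ez).1, dist_comm v5 v3, hc, (cos_coe63 ex).1,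
    (cos_coe63 ex).2, (cos_coe63 ey).1, (cos_coe63 ey).2, ← pow_two, ← pow_two, e6] at hl
  have h3 : (Real.cosh d ^ 2 - 1) * (Real.cosh d * (Real.cos x + Real.cos y)) =
      (Real.cosh d ^ 2 - 1) * (Real.cosh d ^ 2 / (Real.cosh d + 1) + Real.cos z +
      Real.cosh d * Real.cos x * Real.cos y - Real.sin x * Real.sin y) := by
    have h4 : (Real.cosh d ^ 2 - 1) * (Real.cosh d ^ 2 / (Real.cosh d + 1)) =
        Real.cosh d ^ 3 - Real.cosh d ^ 2 := by
      field_simp
      ring
    linear_combination -h4 - hl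
  have h5 : Real.cosh d ^ 2 - 1 ≠ 0 := by
    have : 0 < Real.cosh d ^ 2 - 1 := by nlinarith
    exact this.ne'
  exact mul_left_cancel₀ h5 h3

/-- **the relation in a pentagon face** -/
theorem pfr_rel63 {G : Tg ℍ} {d : ℝ} (hd : 0 < d) {v1 v2 v3 v4 v5 : ℍ}
    (h : E5.Pfr19 G d v1 v2 v3 v4 v5) :
    Real.cosh d * (Real.cos (TH G (v1, v2)) + Real.cos (TH G (v2, v3))) =
      Real.cosh d ^ 2 / (Real.cosh d + 1) + Real.cos (TH G (v4, v5)) +
      Real.cosh d * Real.cos (TH G (v1, v2)) * Real.cos (TH G (v2, v3)) -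
      Real.sin (TH G (v1, v2)) * Real.sin (TH G (v2, v3)) :=
  penta63 hd h.s1 h.s2 h.s3 h.s4 h.s5 (ne63 hd (by rw [dist_comm]; exact h.d5)) h.e1 h.e2 h.e4

end

end Pool.Agent.PEN
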