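import Pool.Agent.E5.Pe39
import Pool.Agent.E5.Rp63
import Pool.Agent.P4.NumG52

/-! # PENNY, all small diameters: the system of the five gaps of a pentagon class

The five angles of an equilateral pentagon, its relations in monotone form, and the excess. -/

set_option autoImplicit false

namespace Pool.Agent.PEN.E5

open Classical UpperHalfPlane
open Pool.Agent.PEN.Cl

noncomputable section

/-! ### The monotone form -/

/-- the chain of three sides grows with each of its angles -/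
theorem FF_mono2_19 {d : ℝ} (hd : 0 < d) {y a b : ℝ} (hy : alpha d ≤ y) (hy1 : y ≤ Real.pi)
    (ha : alpha d ≤ a) (hab : a ≤ b) (hb : b ≤ Real.pi) : FF66 d y a ≤ FF66 d y b := by
  rw [← sub_nonneg, FF_sub66]
  have hp := Real.pi_pos
  have hal := alpha_lt hd
  have hal0 := alpha_pos hd
  have hC : 1 < Real.cosh d := Real.one_lt_cosh.2 hd.ne'
  have s1 : 0 ≤ Real.sin ((b - a) / 2) :=
    Real.sin_nonneg_of_nonneg_of_le_pi (by linarith) (by linarith)
  have s2 : 0 ≤ Real.sin (y / 2) := Real.sin_nonneg_of_nonneg_of_le_pi (by linarith) (by linarith)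
  have s3 : 0 ≤ Real.sin ((a + b) / 2) :=
    Real.sin_nonneg_of_nonneg_of_le_pi (by linarith) (by linarith)
  have c3 : 0 ≤ Real.cos (y / 2) :=
    Real.cos_nonneg_of_neg_pi_div_two_le_of_le (by linarith) (by linarith)
  have key : 0 ≤ Real.cosh d * Real.sin (y / 2) * Real.sin ((a + b) / 2) -
      Real.cos (y / 2) * Real.cos ((a + b) / 2) := by
    rcases le_total ((a + b) / 2) (Real.pi / 2) with hm | hm
    · have k1 : Real.sin (alpha d) ≤ Real.sin ((a + b) / 2) :=
        Real.sin_le_sin_of_le_of_le_pi_div_two (by linarith) hm (by linarith)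
      have k2 : Real.cos ((a + b) / 2) ≤ Real.cos (alpha d) :=
        Real.cos_le_cos_of_nonneg_of_le_pi hal0.le (by linarith) (by linarith)
      have k3 : Real.sin (alpha d / 2) ≤ Real.sin (y / 2) :=
        Real.sin_le_sin_of_le_of_le_pi_div_two (by linarith) (by linarith) (by linarith)
      have k4 : Real.cos (y / 2) ≤ Real.cos (alpha d / 2) :=
        Real.cos_le_cos_of_nonneg_of_le_pi (by linarith) (by linarith) (by linarith)
      have k5 : 0 ≤ Real.cos ((a + b) / 2) :=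
        Real.cos_nonneg_of_neg_pi_div_two_le_of_le (by linarith) hm
      have k7 : 0 ≤ Real.sin (alpha d) :=
        Real.sin_nonneg_of_nonneg_of_le_pi (by linarith) (by linarith)
      have k8 : Real.sin (alpha d / 2) * Real.sin (alpha d) ≤
          Real.sin (y / 2) * Real.sin ((a + b) / 2) := mul_le_mul k3 k1 k7 s2
      have k9 : Real.cos (y / 2) * Real.cos ((a + b) / 2) ≤
          Real.cos (alpha d / 2) * Real.cos (alpha d) :=
        mul_le_mul k4 k2 k5 (le_trans c3 k4)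
      have k10 := half_alpha66 hd
      have k11 := mul_le_mul_of_nonneg_left k8 (by linarith : (0 : ℝ) ≤ Real.cosh d)
      linarith
    · have k2 : Real.cos ((a + b) / 2) ≤ 0 :=
        Real.cos_nonpos_of_pi_div_two_le_of_le hm (by linarith)
      have k3 : 0 ≤ Real.cosh d * Real.sin (y / 2) * Real.sin ((a + b) / 2) := by positivity
      have k4 : Real.cos (y / 2) * Real.cos ((a + b) / 2) ≤ 0 :=
        mul_nonpos_of_nonneg_of_nonpos c3 k2
      linarith
  positivity

/-- monotone in both angles -/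
theorem FF_mono3_19 {d : ℝ} (hd : 0 < d) {x x' y y' : ℝ} (hx : alpha d ≤ x) (hx' : x ≤ x')
    (hx1 : x' ≤ Real.pi) (hy : alpha d ≤ y) (hy' : y ≤ y') (hy1 : y' ≤ Real.pi) :
    FF66 d x y ≤ FF66 d x' y' := by
  refine (FF_mono2_19 hd hx (by linarith) hy hy' hy1).trans ?_
  rw [FF_comm66 d x, FF_comm66 d x']
  exact FF_mono2_19 hd (by linarith) hy1 hx hx' hx1

theorem GG_mono19 {d : ℝ} (hd : 0 < d) {x y : ℝ} (hx : 0 ≤ x) (h : x ≤ y) (hy : y ≤ Real.pi) :
    GG66 d x ≤ GG66 d y := by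
  have hS : 0 < Real.sinh d := Real.sinh_pos_iff.2 hd
  have h2 : Real.cos y ≤ Real.cos x := Real.cos_le_cos_of_nonneg_of_le_pi hx hy h
  unfold GG66
  have h3 : 0 < Real.sinh d * Real.sinh d := by positivity
  nlinarith

/-! ### The five angles -/

/-- the numerical facts of the five angles of an equilateral pentagon -/
structure Pg19 (d t1 t2 t3 t4 t5 : ℝ) : Prop where
  b1 : alpha d ≤ t1 ∧ t1 ≤ 3 * alpha d
  b2 : alpha d ≤ t2 ∧ t2 ≤ 3 * alpha d
  b3 : alpha d ≤ t3 ∧ t3 ≤ 3 * alpha d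
  b4 : alpha d ≤ t4 ∧ t4 ≤ 3 * alpha d
  b5 : alpha d ≤ t5 ∧ t5 ≤ 3 * alpha d
  r1 : FF66 d t1 t2 = GG66 d t4
  r2 : FF66 d t2 t3 = GG66 d t5
  r3 : FF66 d t3 t4 = GG66 d t1
  r4 : FF66 d t4 t5 = GG66 d t2
  r5 : FF66 d t5 t1 = GG66 d t3

theorem Pg19.rot {d t1 t2 t3 t4 t5 : ℝ} (h : Pg19 d t1 t2 t3 t4 t5) : Pg19 d t2 t3 t4 t5 t1 :=
  { b1 := h.b2, b2 := h.b3, b3 := h.b4, b4 := h.b5, b5 := h.b1,
    r1 := h.r2, r2 := h.r3, r3 := h.r4, r4 := h.r5, r5 := h.r1 }

/-- the function of helper9: a sum of cosines of integral combinations -/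
def HH19 (p q r a : ℝ) : ℝ :=
  (Real.cos ((p + 1) * a) + Real.cos ((p - 1) * a) + Real.cos ((q + 1) * a) +
    Real.cos ((q - 1) * a) - 1 - Real.cos (2 * a) - Real.cos ((p - q + 1) * a) -
    Real.cos ((p - q - 1) * a) + Real.cos ((p - q) * a) - Real.cos ((p + q) * a) -
    2 * Real.cos (r * a) + Real.cos ((r + 1) * a) + Real.cos ((r - 1) * a)) / 2

theorem HH_eq19 {d : ℝ} (hd : 0 < d) (p q r : ℝ) :
    Real.sinh d ^ 2 * HH19 p q r (alpha d) =
      (1 - Real.cos (alpha d)) * (GG66 d (r * alpha d) - FF66 d (p * alpha d) (q * alpha d)) := by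
  have hC : 1 < Real.cosh d := Real.one_lt_cosh.2 hd.ne'
  have hS : 0 < Real.sinh d := Real.sinh_pos_iff.2 hd
  have hc := cos_alpha hd
  have hne : Real.cosh d + 1 ≠ 0 := by linarith
  set a := alpha d with ha
  have e1 : Real.cos ((p + 1) * a) = Real.cos (p * a) * Real.cos a - Real.sin (p * a) * Real.sin a := by
    rw [← Real.cos_add]; ring_nf
  have e2 : Real.cos ((p - 1) * a) = Real.cos (p * a) * Real.cos a + Real.sin (p * a) * Real.sin a := by
    rw [← Real.cos_sub]; ring_nf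
  have e3 : Real.cos ((q + 1) * a) = Real.cos (q * a) * Real.cos a - Real.sin (q * a) * Real.sin a := by
    rw [← Real.cos_add]; ring_nf
  have e4 : Real.cos ((q - 1) * a) = Real.cos (q * a) * Real.cos a + Real.sin (q * a) * Real.sin a := by
    rw [← Real.cos_sub]; ring_nf
  have e5 : Real.cos ((r + 1) * a) = Real.cos (r * a) * Real.cos a - Real.sin (r * a) * Real.sin a := by
    rw [← Real.cos_add]; ring_nf
  have e6 : Real.cos ((r - 1) * a) = Real.cos (r * a) * Real.cos a + Real.sin (r * a) * Real.sin a := by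
    rw [← Real.cos_sub]; ring_nf
  have e7 : Real.cos ((p - q) * a) = Real.cos (p * a) * Real.cos (q * a) +
      Real.sin (p * a) * Real.sin (q * a) := by
    rw [← Real.cos_sub]; ring_nf
  have e8 : Real.cos ((p + q) * a) = Real.cos (p * a) * Real.cos (q * a) -
      Real.sin (p * a) * Real.sin (q * a) := by
    rw [← Real.cos_add]; ring_nf
  have e9 : Real.cos ((p - q + 1) * a) = Real.cos ((p - q) * a) * Real.cos a -
      Real.sin ((p - q) * a) * Real.sin a := by
    rw [← Real.cos_add]; ring_nf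
  have e10 : Real.cos ((p - q - 1) * a) = Real.cos ((p - q) * a) * Real.cos a +
      Real.sin ((p - q) * a) * Real.sin a := by
    rw [← Real.cos_sub]; ring_nf
  have e11 : Real.cos (2 * a) = 2 * Real.cos a ^ 2 - 1 := Real.cos_two_mul a
  have key : HH19 p q r a = Real.cos a * (Real.cos (p * a) + Real.cos (q * a)) -
      Real.cos a ^ 2 - Real.cos a * (Real.cos (p * a) * Real.cos (q * a)) +
      (1 - Real.cos a) * (Real.sin (p * a) * Real.sin (q * a)) -
      (1 - Real.cos a) * Real.cos (r * a) := by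
    unfold HH19
    rw [e9, e10, e1, e2, e3, e4, e5, e6, e7, e8, e11]
    ring
  rw [key]
  unfold FF66 GG66
  have hcs : Real.cosh d * (1 - Real.cos a) = Real.cos a := by
    rw [hc]; field_simp; ring
  have hs2 : Real.sinh d ^ 2 = Real.cosh d ^ 2 - 1 := by
    have := Real.cosh_sq d
    linarith
  have h3 : (1 - Real.cos a) * (Real.cosh d * Real.cosh d - Real.cosh d ^ 3) =
      - (Real.sinh d ^ 2 * Real.cos a ^ 2) := by
    rw [hs2]
    have h4 : Real.cosh d * Real.cosh d - Real.cosh d ^ 3 =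
        Real.cosh d * (Real.cosh d - Real.cosh d ^ 2) := by ring
    rw [h4]
    have h5 : (1 - Real.cos a) * (Real.cosh d * (Real.cosh d - Real.cosh d ^ 2)) =
        (Real.cosh d * (1 - Real.cos a)) * (Real.cosh d - Real.cosh d ^ 2) := by ring
    rw [h5, hcs]
    have h6 : Real.cos a * (Real.cosh d + 1) = Real.cosh d := by
      rw [hc]; field_simp
    linear_combination (Real.cos a * (Real.cosh d - 1)) * h6
  linear_combination (-1 : ℝ) * h3 + (Real.sinh d ^ 2 * (Real.cos (p * a) * Real.cos (q * a)) -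
    Real.sinh d ^ 2 * (Real.cos (p * a) + Real.cos (q * a))) * hcs

theorem HH_nonneg19 {d : ℝ} (hd : 0 < d) {p q r : ℝ} (h : 0 ≤ HH19 p q r (alpha d)) :
    FF66 d (p * alpha d) (q * alpha d) ≤ GG66 d (r * alpha d) := by
  have hS : 0 < Real.sinh d := Real.sinh_pos_iff.2 hd
  have hC : 1 < Real.cosh d := Real.one_lt_cosh.2 hd.ne'
  have h1 := HH_eq19 hd p q r
  have h2 : 0 < 1 - Real.cos (alpha d) := by
    rw [cos_alpha hd, sub_pos, div_lt_one (by linarith)]
    linarith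
  have h3 : 0 ≤ Real.sinh d ^ 2 * HH19 p q r (alpha d) := by positivity
  rw [h1] at h3
  have h4 := nonneg_of_mul_nonneg_right h3 h2
  linarith

theorem HH_nonpos19 {d : ℝ} (hd : 0 < d) {p q r : ℝ} (h : HH19 p q r (alpha d) ≤ 0) :
    GG66 d (r * alpha d) ≤ FF66 d (p * alpha d) (q * alpha d) := by
  have hS : 0 < Real.sinh d := Real.sinh_pos_iff.2 hd
  have hC : 1 < Real.cosh d := Real.one_lt_cosh.2 hd.ne'
  have h1 := HH_eq19 hd p q r
  have h2 : 0 < 1 - Real.cos (alpha d) := by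
    rw [cos_alpha hd, sub_pos, div_lt_one (by linarith)]
    linarith
  have h3 : 0 ≤ Real.sinh d ^ 2 * (- HH19 p q r (alpha d)) :=
    mul_nonneg (by positivity) (by linarith)
  have h5 : 0 ≤ (1 - Real.cos (alpha d)) *
      (FF66 d (p * alpha d) (q * alpha d) - GG66 d (r * alpha d)) := by linarith
  have h4 := nonneg_of_mul_nonneg_right h5 h2
  linarith

/-- **test from above**: two small angles, the opposite angle is small -/
theorem Pg19.up {d t1 t2 t3 t4 t5 : ℝ} (h : Pg19 d t1 t2 t3 t4 t5) (hd : 0 < d) {p q r : ℝ}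
    (h1 : t1 ≤ p * alpha d) (h2 : t2 ≤ q * alpha d) (hp : p ≤ 3) (hq : q ≤ 3) (hr : 0 ≤ r)
    (hH : 0 ≤ HH19 p q r (alpha d)) : t4 ≤ r * alpha d := by
  have hal := alpha_lt hd
  have hal0 := alpha_pos hd
  have hpi := Real.pi_pos
  have p3 : p * alpha d ≤ Real.pi := by nlinarith
  have q3 : q * alpha d ≤ Real.pi := by nlinarith
  have h3 := FF_mono3_19 hd h.b1.1 h1 p3 h.b2.1 h2 q3
  have h4 := HH_nonneg19 hd hH
  rw [h.r1] at h3
  have h5 := h.b4.2
  exact GG_le66 hd (by linarith) (by positivity) (h3.trans h4)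

/-- **test from below**: two large angles, the opposite angle is large -/
theorem Pg19.lo {d t1 t2 t3 t4 t5 : ℝ} (h : Pg19 d t1 t2 t3 t4 t5) (hd : 0 < d) {p q r : ℝ}
    (h1 : p * alpha d ≤ t1) (h2 : q * alpha d ≤ t2) (hp : 1 ≤ p) (hq : 1 ≤ q) (hr : r ≤ 3)
    (hH : HH19 p q r (alpha d) ≤ 0) : r * alpha d ≤ t4 := by
  have hal := alpha_lt hd
  have hal0 := alpha_pos hd
  have hpi := Real.pi_pos
  have p1 : alpha d ≤ p * alpha d := by nlinarith
  have q1 : alpha d ≤ q * alpha d := by nlinarith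
  have r3 : r * alpha d ≤ Real.pi := by nlinarith
  have b1 := h.b1.2
  have b2 := h.b2.2
  have b4 := h.b4.1
  have h3 := FF_mono3_19 hd p1 h1 (by linarith) q1 h2 (by linarith)
  have h4 := HH_nonpos19 hd hH
  rw [h.r1] at h3
  exact GG_le66 hd r3 (by linarith) (h4.trans h3)

/-- **inverse test from above**: opposite angle small, second angle large: first angle small -/
theorem Pg19.up' {d t1 t2 t3 t4 t5 : ℝ} (h : Pg19 d t1 t2 t3 t4 t5) (hd : 0 < d) {p q r : ℝ}
    (h4 : t4 ≤ r * alpha d) (h2 : q * alpha d ≤ t2) (hp : 1 ≤ p) (hq : 1 ≤ q) (hr : r ≤ 3)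
    (hH : HH19 p q r (alpha d) < 0) : t1 ≤ p * alpha d := by
  have hal := alpha_lt hd
  have hal0 := alpha_pos hd
  have hpi := Real.pi_pos
  have hS : 0 < Real.sinh d := Real.sinh_pos_iff.2 hd
  have p1 : alpha d ≤ p * alpha d := by nlinarith
  have q1 : alpha d ≤ q * alpha d := by nlinarith
  have r3 : r * alpha d ≤ Real.pi := by nlinarith
  have b1 := h.b1.2
  have b2 := h.b2.2
  have b4 := h.b4.1
  by_contra hc
  push Not at hc
  have h3 := FF_mono3_19 hd p1 hc.le (by linarith) q1 h2 (by linarith)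
  rw [h.r1] at h3
  have h5 := GG_mono19 hd (by linarith) h4 r3
  have h6 := HH_eq19 hd p q r
  have h7 : Real.sinh d ^ 2 * HH19 p q r (alpha d) < 0 := mul_neg_of_pos_of_neg (by positivity) hH
  rw [h6] at h7
  have h8 : 0 ≤ (1 - Real.cos (alpha d)) *
      (GG66 d (r * alpha d) - FF66 d (p * alpha d) (q * alpha d)) :=
    mul_nonneg (by linarith [Real.cos_le_one (alpha d)]) (by linarith)
  linarith

/-- **inverse test from below** -/
theorem Pg19.lo' {d t1 t2 t3 t4 t5 : ℝ} (h : Pg19 d t1 t2 t3 t4 t5) (hd : 0 < d) {p q r : ℝ}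
    (h4 : r * alpha d ≤ t4) (h2 : t2 ≤ q * alpha d) (hp : p ≤ 3) (hq : q ≤ 3) (hr : 0 ≤ r)
    (hH : 0 < HH19 p q r (alpha d)) : p * alpha d ≤ t1 := by
  have hal := alpha_lt hd
  have hal0 := alpha_pos hd
  have hpi := Real.pi_pos
  have hS : 0 < Real.sinh d := Real.sinh_pos_iff.2 hd
  have p3 : p * alpha d ≤ Real.pi := by nlinarith
  have q3 : q * alpha d ≤ Real.pi := by nlinarith
  have b4 := h.b4.2
  by_contra hc
  push Not at hc
  have h3 := FF_mono3_19 hd h.b1.1 hc.le p3 h.b2.1 h2 q3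
  rw [h.r1] at h3
  have h5 := GG_mono19 hd (by positivity) h4 (by linarith)
  have h6 := HH_eq19 hd p q r
  have h7 : 0 < Real.sinh d ^ 2 * HH19 p q r (alpha d) := by positivity
  rw [h6] at h7
  have h8 : (1 - Real.cos (alpha d)) *
      (GG66 d (r * alpha d) - FF66 d (p * alpha d) (q * alpha d)) ≤ 0 :=
    mul_nonpos_of_nonneg_of_nonpos (by linarith [Real.cos_le_one (alpha d)]) (by linarith)
  linarith

/-! ### Pentagon classes -/

theorem Pfr19.rel19 {G : Tg ℍ} {d : ℝ} {v1 v2 v3 v4 v5 : ℍ} (h : Pfr19 G d v1 v2 v3 v4 v5)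
    (hd : 0 < d) : FF66 d (TH G (v1, v2)) (TH G (v2, v3)) = GG66 d (TH G (v4, v5)) :=
  (rel66 hd (A := v5) (X := v1) (Y := v2) (B := v3) (M := v4) (by rw [dist_comm]; exact h.s5)
    h.s1 h.s2 h.d1 h.s4 (by rw [dist_comm]; exact h.s3) h.e1 h.e2 h.e4).1

theorem Pfr19.pg19 {G : Tg ℍ} {d : ℝ} {v1 v2 v3 v4 v5 : ℍ} (h : Pfr19 G d v1 v2 v3 v4 v5)
    (hd : 0 < d) : Pg19 d (TH G (v1, v2)) (TH G (v2, v3)) (TH G (v3, v4)) (TH G (v4, v5))
      (TH G (v5, v1)) :=
  { b1 := h.b1, b2 := h.b2, b3 := h.b3, b4 := h.b4, b5 := h.b5,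
    r1 := h.rel19 hd, r2 := h.rot.rel19 hd, r3 := h.rot.rot.rel19 hd,
    r4 := h.rot.rot.rot.rel19 hd, r5 := h.rot.rot.rot.rot.rel19 hd }

section conc
variable {G : Tg ℍ} {d : ℝ} {kp : ℍ → ℍ → ℝ} {U : ℕ → ℝ}

/-- **the five angles of a pentagon class** -/
theorem pg_of19 (hG : G.Geo4 (alpha d) kp U) (hD : DelG G d) (hS : Sep d G.P)
    {C : G.adj.ConnectedComponent} (hC : C ∈ G.iC)
    (hm : (G.cT C).card = 3) (hI : (G.cI C).card = 4) {x : ℍ × ℍ} (hx : x ∈ G.cJ C) :
    Pg19 d (TH G x) (TH G (sg G x)) (TH G (sg G (sg G x))) (TH G (sg G (sg G (sg G x))))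
      (TH G (sg G (sg G (sg G (sg G x))))) := by
  obtain ⟨v3, v4, v5, h⟩ := pent_at19 hG hD hS hC hm hI hx
  have e1 : sg G x = (x.2, v3) := h.g1
  rw [e1, h.g2, h.g3, h.g4]
  exact h.pg19 hD.hd

end conc

end

end Pool.Agent.PEN.E5
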