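import Pool.Agent.E5.Hh19
import Pool.Agent.E5.Sf19

/-! # PENNY, all small diameters: the corners of a hexagon face with 17 units

Units `(4, 2, 3, 3, 3, 2)`: the corners with two units next to the large corner have gap `≥ 1/2`. -/

set_option autoImplicit false

namespace Pool.Agent.PEN

open Classical UpperHalfPlane
open Pool.Agent.PEN.Cl

noncomputable section

/-- the angle at the base of an isosceles triangle is acute -/
theorem acute19 {d : ℝ} (hd : 0 < d) {v0 v1 v5 : ℍ} (h05 : dist v0 v5 = d) (h01 : dist v0 v1 = d)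
    (n15 : v5 ≠ v1) : |ang v1 v5 v0| < Real.pi / 2 := by
  have hp := Real.pi_pos
  have hs0 : 0 < Real.sinh d := Real.sinh_pos_iff.2 hd
  have hC1 : 1 < Real.cosh d := Real.one_lt_cosh.2 hd.ne'
  have n01 : v1 ≠ v0 := ne63 hd h01.ge
  have s15 : 0 < Real.sinh (dist v1 v5) := Real.sinh_pos_iff.2 (dist_pos.2 n15.symm)
  have c15 : 1 < Real.cosh (dist v1 v5) := Real.one_lt_cosh.2 (dist_pos.2 n15.symm).ne'
  obtain ⟨y, hy⟩ : ∃ y, y = |ang v1 v5 v0| := ⟨_, rfl⟩
  rw [← hy]
  have cy : Real.cos y = Real.cos (ang v1 v5 v0) := by rw [hy, Real.cos_abs]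
  have yp : y ≤ Real.pi := by rw [hy]; exact E5.abs_ang_le19 _ _ _
  have l2 := cosh_law (v := v1) (a := v5) (b := v0) n15 n01.symm
  rw [dist_comm v5 v0, h05, dist_comm v1 v0, h01, ← cy] at l2
  have cyp : 0 < Real.cos y := by
    have h3 : 0 < Real.sinh (dist v1 v5) * Real.sinh d * Real.cos y := by
      have : 0 < Real.cosh d * (Real.cosh (dist v1 v5) - 1) := mul_pos (by linarith) (by linarith)
      linarith
    exact pos_of_mul_pos_right h3 (mul_pos s15 hs0).le
  by_contra hc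
  push Not at hc
  have := Real.cos_nonpos_of_pi_div_two_le_of_le hc (by linarith)
  linarith

theorem ang_self19 (v a : ℍ) : ang v a a = 0 := by
  unfold ang
  by_cases h : Dv v a = 0
  · rw [h, div_zero, Complex.arg_zero]
  · rw [div_self h, Complex.arg_one]

/-- the sines of two angles of a triangle have the same sign -/
theorem sgn19 {v0 v1 v5 : ℍ} (n01 : v1 ≠ v0) (n05 : v5 ≠ v0) (n15 : v5 ≠ v1) {σ : ℝ}
    (h : σ * Real.sin (ang v0 v1 v5) ≤ 0) : σ * Real.sin (ang v1 v5 v0) ≤ 0 := by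
  have l1 := sin_law66 n01 n05
  have l2 := sin_law66 (v := v1) (a := v5) (b := v0) n15 n01.symm
  have e : ori (kl v1) (kl v5) (kl v0) / (2 * v1.im * v5.im * v0.im) =
      ori (kl v0) (kl v1) (kl v5) / (2 * v0.im * v1.im * v5.im) := by
    congr 1
    · unfold ori
      ring
    · ring
  rw [e, ← l1] at l2
  have s1 : 0 < Real.sinh (dist v0 v1) := Real.sinh_pos_iff.2 (dist_pos.2 n01.symm)
  have s2 : 0 < Real.sinh (dist v0 v5) := Real.sinh_pos_iff.2 (dist_pos.2 n05.symm)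
  have s3 : 0 < Real.sinh (dist v1 v5) := Real.sinh_pos_iff.2 (dist_pos.2 n15.symm)
  have s4 : 0 < Real.sinh (dist v1 v0) := Real.sinh_pos_iff.2 (dist_pos.2 n01)
  have h1 : Real.sinh (dist v1 v5) * Real.sinh (dist v1 v0) * (σ * Real.sin (ang v1 v5 v0)) =
      Real.sinh (dist v0 v1) * Real.sinh (dist v0 v5) * (σ * Real.sin (ang v0 v1 v5)) := by
    linear_combination σ * l2
  have h2 : Real.sinh (dist v0 v1) * Real.sinh (dist v0 v5) * (σ * Real.sin (ang v0 v1 v5)) ≤ 0 :=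
    mul_nonpos_of_nonneg_of_nonpos (by positivity) h
  by_contra hc
  push Not at hc
  have : 0 < Real.sinh (dist v1 v5) * Real.sinh (dist v1 v0) * (σ * Real.sin (ang v1 v5 v0)) := by
    positivity
  linarith

/-- **next to a corner `≥ π`**: `t1 ≤ 3 α / 2` -/
theorem half_geo2_19 {d : ℝ} (hd : 0 < d) (hC : Real.cosh d ≤ 11 / 10) {v0 v1 v2 v3 v4 v5 : ℍ}
    (h01 : dist v0 v1 = d) (h12 : dist v1 v2 = d) (h23 : dist v2 v3 = d) (h34 : dist v3 v4 = d)
    (h45 : dist v4 v5 = d) (h05 : dist v0 v5 = d) {σ t1 t2 t3 : ℝ} (hσ : σ = 1 ∨ σ = -1)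
    (e2 : ang v2 v3 v1 = σ * t2)
    (e3 : ang v3 v4 v2 = σ * t3) (l2 : 2 * alpha d ≤ t2) (u2 : t2 ≤ 3 * alpha d)
    (l3 : 2 * alpha d ≤ t3) (u3 : t3 ≤ 3 * alpha d)
    (h15 : d ≤ dist v1 v5) (hs0 : σ * Real.sin (ang v0 v1 v5) ≤ 0)
    (e1 : ((ang v1 v2 v0 : ℝ) : Real.Angle) = ((σ * t1 : ℝ) : Real.Angle)) (t0 : 0 ≤ t1)
    (u1 : t1 < Real.pi) : t1 ≤ 3 / 2 * alpha d := by
  have cσ : ∀ t : ℝ, Real.cos (σ * t) = Real.cos t := by
    intro t
    rcases hσ with h | h
    · rw [h, one_mul]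
    · rw [h, neg_one_mul, Real.cos_neg]
  have sσ : ∀ t t' : ℝ, Real.sin (σ * t) * Real.sin (σ * t') = Real.sin t * Real.sin t' := by
    intro t t'
    rcases hσ with h | h
    · rw [h, one_mul, one_mul]
    · rw [h, neg_one_mul, neg_one_mul, Real.sin_neg, Real.sin_neg]
      ring
  have hal := alpha_lt hd
  have hal0 := alpha_pos hd
  have hp := Real.pi_pos
  have hC1 : 1 < Real.cosh d := Real.one_lt_cosh.2 hd.ne'
  have hK := K_gt19 hd
  have h4a : Real.pi ≤ 4 * alpha d := by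
    by_contra hc
    push Not at hc
    have h1 : Real.cos (Real.pi / 4) < Real.cos (alpha d) :=
      Real.cos_lt_cos_of_nonneg_of_le_pi hal0.le (by linarith) (by linarith)
    rw [Real.cos_pi_div_four] at h1
    have h2 := cosal_19 hd
    have h3 : (7 : ℝ) / 5 < Real.sqrt 2 := by
      rw [Real.lt_sqrt (by norm_num)]
      norm_num
    have h4 : (Real.cosh d + 1) * (7 / 10) < (Real.cosh d + 1) * Real.cos (alpha d) :=
      mul_lt_mul_of_pos_left (by linarith) (by linarith)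
    linarith
  have c2 : Real.cos (ang v2 v3 v1) ≤ Real.cos (2 * alpha d) := by
    rw [e2, cσ]
    exact Real.cos_le_cos_of_nonneg_of_le_pi (by linarith) (by linarith) l2
  have d13 := diag63 hd h12 h23 c2
  have f1 := first63 hd h12 h23 d13
  have h13 : d ≤ dist v1 v3 := by
    have h3 : Real.cosh d ≤ Real.cosh (dist v1 v3) := by linarith [lon_gt63 hd]
    rw [Real.cosh_le_cosh, abs_of_pos hd, abs_of_nonneg dist_nonneg] at h3
    exact h3
  -- the chord `v1 v4`
  have n24 : v4 ≠ v2 := by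
    intro h
    have h5 := cosh_law (v := v3) (a := v4) (b := v2) (ne63 hd h34.ge)
      (ne63 hd (by rw [dist_comm]; exact h23.ge))
    rw [h, dist_self, Real.cosh_zero, dist_comm v3 v2, h23] at h5
    have h6 : Real.cos (ang v3 v2 v2) ≤ Real.cos (2 * alpha d) := by
      rw [h] at e3
      rw [e3, cσ]
      exact Real.cos_le_cos_of_nonneg_of_le_pi (by linarith) (by linarith) l3
    have h7 : Real.cos (2 * alpha d) < 1 := by
      rw [← Real.cos_zero]
      exact Real.cos_lt_cos_of_nonneg_of_le_pi le_rfl (by linarith) (by linarith)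
    have hS := sinhsq_19 d
    have h8 : Real.sinh d * Real.sinh d = Real.cosh d ^ 2 - 1 := by rw [← sq, hS]
    rw [h8] at h5
    have h9 : 0 < (Real.cosh d ^ 2 - 1) * (1 - Real.cos (ang v3 v2 v2)) :=
      mul_pos (by nlinarith) (by linarith)
    have h10 : (Real.cosh d ^ 2 - 1) * (1 - Real.cos (ang v3 v2 v2)) = 0 := by
      linear_combination (-1) * h5
    linarith
  have h14 : K19 d ≤ Real.cosh (dist v1 v4) := by
    have h5 := chain66 hd (A := v1) (X := v2) (Y := v3) (B := v4) (by rw [dist_comm]; exact h12)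
      h23 h34 n24
    rw [e2, e3, cσ, cσ, sσ] at h5
    rw [h5]
    have h6 := FF_mono19 hd h4a l2 u2 l3 u3
    unfold FF66 at h6
    exact h6
  have f2 := second19 hd hC h34 h13 h14
  have f3 := second19 hd hC (v1 := v1) (v3 := v5) (v4 := v4) (by rw [dist_comm]; exact h45) h15 h14
  -- the sum
  have n12 : v2 ≠ v1 := ne63 hd h12.ge
  have n13 : v3 ≠ v1 := ne63 hd h13
  have n14 : v4 ≠ v1 := by
    intro h
    rw [h, dist_self, Real.cosh_zero] at h14
    linarith
  have n01 : v0 ≠ v1 := ne63 hd (by rw [dist_comm]; exact h01.ge)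
  have n15 : v5 ≠ v1 := ne63 hd h15
  have n05 : v5 ≠ v0 := ne63 hd h05.ge
  rw [E5.abs_ang_comm63 n15 n14] at f3
  have f4 := acute19 hd h05 h01 n15
  have f5 := sgn19 n01.symm n05 n15 hs0
  obtain ⟨q1, q2⟩ := abs_lt.1 f4
  have f6 : σ * ang v1 v5 v0 ≤ 0 := by
    rcases hσ with h | h
    · rw [h, one_mul] at f5 ⊢
      by_contra hc
      push Not at hc
      have := Real.sin_pos_of_pos_of_lt_pi hc (by linarith)
      linarith
    · rw [h] at f5 ⊢
      by_contra hc
      push Not at hc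
      have := Real.sin_pos_of_pos_of_lt_pi (x := - ang v1 v5 v0) (by linarith) (by linarith)
      rw [Real.sin_neg] at this
      linarith
  have hsum : ((σ * t1 : ℝ) : Real.Angle) =
      ((ang v1 v2 v3 + ang v1 v3 v4 + ang v1 v4 v5 + ang v1 v5 v0 : ℝ) : Real.Angle) := by
    have k1 := ang_coe66 n12 n13 n01
    have k2 := ang_coe66 n13 n14 n01
    have k3 := ang_coe66 n14 n15 n01
    rw [← e1, k1, k2, k3, Real.Angle.coe_add, Real.Angle.coe_add, Real.Angle.coe_add]
    abel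
  obtain ⟨a1, a2⟩ := abs_le.1 (le_refl |ang v1 v2 v3|)
  obtain ⟨b1, b2⟩ := abs_le.1 (le_refl |ang v1 v3 v4|)
  obtain ⟨g1, g2⟩ := abs_le.1 (le_refl |ang v1 v4 v5|)
  have h5 := congrArg Real.Angle.toReal hsum
  have r1 : -Real.pi < σ * t1 ∧ σ * t1 ≤ Real.pi := by
    rcases hσ with h | h
    · rw [h]
      constructor <;> linarith
    · rw [h]
      constructor <;> linarith
  rw [Real.Angle.toReal_coe_eq_self_iff.2 r1,
    Real.Angle.toReal_coe_eq_self_iff.2 ⟨by linarith, by linarith⟩] at h5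
  rcases hσ with h | h
  · rw [h] at h5 f6
    linarith
  · rw [h] at h5 f6
    linarith

namespace E5

section conc
variable {G : Tg ℍ} {d : ℝ} {kp : ℍ → ℍ → ℝ} {U : ℕ → ℝ}

/-- **next to a corner in `[π, 4 α]` of a hexagon face** -/
theorem hex_half2_19 (hG : G.Geo4 (alpha d) kp U) (hD : DelG G d) (hS : Sep d G.P)
    (hC6 : Real.cosh d ≤ 11 / 10)
    {C : G.adj.ConnectedComponent} (hC : C ∈ WF G) (hd6 : (G.cI C).card + 2 = 2 * (G.cT C).card)
    (h6 : (G.cJ C).card = 6) {x : ℍ × ℍ} (hx : x ∈ G.cJ C) (h : Real.pi ≤ TH G x)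
    (h' : TH G x ≤ 4 * alpha d)
    (l3 : 2 * alpha d ≤ TH G (sg G (sg G (sg G x))))
    (u3 : TH G (sg G (sg G (sg G x))) ≤ 3 * alpha d) :
    (2 * alpha d ≤ TH G (sg G (sg G x)) → TH G (sg G x) ≤ 3 / 2 * alpha d) ∧
    (2 * alpha d ≤ TH G (sg G (sg G (sg G (sg G x)))) →
      TH G (sg G (sg G (sg G (sg G (sg G x))))) ≤ 3 / 2 * alpha d) := by
  have hCi := ((mem_WF89 G).1 hC).1
  have hd := hD.hd
  have hal := alpha_lt hd
  have hal0 := alpha_pos hd
  have hp := Real.pi_pos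
  obtain ⟨f2, f4, -, -⟩ := hex_fan19 hG hD hS hC hd6 h6 hx (by linarith)
  obtain ⟨v0, v1⟩ := x
  obtain ⟨v2, v3, v4, v5, g0, g1, g2, g3, g4, g5, hset⟩ := hex_pts19 hG hC hd6 h6 hx
  rw [g0, g1] at f2
  rw [g0, g1, g2, g3] at f4
  rw [g0, g1, g2] at l3 u3
  rw [g0, g1, g2, g3, g4]
  have x0 := hx
  have x1 := sg_cJ90 G hG hCi x0
  rw [g0] at x1
  have x2 := sg_cJ90 G hG hCi x1
  rw [g1] at x2
  have x3 := sg_cJ90 G hG hCi x2
  rw [g2] at x3
  have x4 := sg_cJ90 G hG hCi x3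
  rw [g3] at x4
  have x5 := sg_cJ90 G hG hCi x4
  rw [g4] at x5
  have d0 := (side63 hD x0).2.2
  have d1 := (side63 hD x1).2.2
  have d2 := (side63 hD x2).2.2
  have d3 := (side63 hD x3).2.2
  have d4 := (side63 hD x4).2.2
  have d5 := (side63 hD x5).2.2
  have m1 := (side63 hD x1).1
  have m5 := (side63 hD x5).1
  dsimp only at d0 d1 d2 d3 d4 d5 m1 m5
  have i0 := (cJ_iJ51 G hCi x0).1
  have i1 := (cJ_iJ51 G hCi x1).1
  have i2 := (cJ_iJ51 G hCi x2).1
  have i3 := (cJ_iJ51 G hCi x3).1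
  have i4 := (cJ_iJ51 G hCi x4).1
  have i5 := (cJ_iJ51 G hCi x5).1
  have n1 : TH G (v1, v2) < 2 * alpha d := by
    by_contra hc
    push Not at hc
    have := six_before63 hG hD hS hC hd6 h6 x0 (by rw [g0]; exact hc)
    linarith
  have n5 : TH G (v5, v0) < 2 * alpha d := by
    by_contra hc
    push Not at hc
    have := six_after63 hG hD hS hC hd6 h6 x5 hc
    rw [g5] at this
    linarith
  have k0 := TH_coe19 hG hD i5
  rw [g5] at k0
  have k1 := TH_coe19 hG hD i0
  rw [g0] at k1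
  have k5 := TH_coe19 hG hD i4
  rw [g4] at k5
  dsimp only at k0 k1 k5
  have s0 : Real.sin (ang v0 v1 v5) ≤ 0 := by
    have h1 := congrArg Real.Angle.sin k0
    rw [Real.Angle.sin_coe, Real.Angle.sin_coe] at h1
    rw [← h1]
    have h2 : Real.sin (TH G (v0, v1)) = - Real.sin (TH G (v0, v1) - Real.pi) := by
      rw [Real.sin_sub_pi, neg_neg]
    rw [h2]
    have := Real.sin_nonneg_of_nonneg_of_le_pi (x := TH G (v0, v1) - Real.pi) (by linarith)
      (by linarith)
    linarith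
  have n15 : v5 ≠ v1 := by
    intro he
    rw [he, ang_self19] at k0
    have h1 := congrArg Real.Angle.cos k0
    rw [Real.Angle.cos_coe, Real.Angle.cos_coe, Real.cos_zero] at h1
    have h2 : Real.cos (TH G (v0, v1)) = Real.cos (2 * Real.pi - TH G (v0, v1)) := by
      rw [Real.cos_two_pi_sub]
    have h3 : Real.cos (2 * Real.pi - TH G (v0, v1)) < Real.cos 0 :=
      Real.cos_lt_cos_of_nonneg_of_le_pi le_rfl (by linarith) (by linarith)
    rw [Real.cos_zero] at h3
    linarith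
  have h15 : d ≤ dist v1 v5 := hS _ m1 _ m5 n15.symm
  have T0 : ∀ {y : ℍ × ℍ}, y ∈ G.cJ C → 0 ≤ TH G y := by
    intro y hy
    have h1 := TH_ge19 hG hD hS (cJ_iJ51 G hCi hy).1
    linarith
  have neg : ∀ {v a b : ℍ}, ang v a b ≠ Real.pi → ang v b a = -1 * ang v a b := by
    intro v a b hne
    have h1 : ang v b a = if ang v a b = Real.pi then Real.pi else - ang v a b := by
      unfold ang
      have e : Dv v a / Dv v b = (Dv v b / Dv v a)⁻¹ := by
        rw [inv_div]
      rw [e, Complex.arg_inv]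
    rw [h1, if_neg hne]
    ring
  constructor
  · intro l2
    have k2 := ang_TH19 hG hD hS i1 (by rw [g1]; linarith)
    rw [g1] at k2
    have k3 := ang_TH19 hG hD hS i2 (by rw [g2]; linarith)
    rw [g2] at k3
    dsimp only at k2 k3
    exact half_geo2_19 hd hC6 (v0 := v0) (v1 := v1) (v2 := v2) (v3 := v3) (v4 := v4) (v5 := v5)
      (σ := 1) d0 d1 d2 d3 d4 (by rw [dist_comm]; exact d5) (Or.inl rfl)
      (by rw [k2, one_mul]) (by rw [k3, one_mul]) l2 f2 l3 u3 h15 (by rw [one_mul]; exact s0)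
      (by rw [← k1, one_mul]) (T0 x1) (by linarith)
  · intro l4
    have k3 := ang_TH19 hG hD hS i2 (by rw [g2]; linarith)
    rw [g2] at k3
    have k4 := ang_TH19 hG hD hS i3 (by rw [g3]; linarith)
    rw [g3] at k4
    dsimp only at k3 k4
    have k5' : ang v5 v0 v4 ≠ Real.pi := by
      intro h1
      rw [h1] at k5
      have h2 := coe_eq19 k5 (by linarith [TH_ge19 hG hD hS i5]) (by linarith) hp (by linarith)
      linarith
    refine half_geo2_19 hd hC6 (v0 := v0) (v1 := v5) (v2 := v4) (v3 := v3) (v4 := v2) (v5 := v1)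
      (σ := -1) (by rw [dist_comm]; exact d5) (by rw [dist_comm]; exact d4)
      (by rw [dist_comm]; exact d3) (by rw [dist_comm]; exact d2) (by rw [dist_comm]; exact d1)
      d0 (Or.inr rfl) (t2 := TH G (v4, v5)) (t3 := TH G (v3, v4)) ?_ ?_ l4 f4 l3 u3
      (by rw [dist_comm]; exact h15) ?_ ?_ (T0 x5) (by linarith)
    · rw [neg (v := v4) (a := v5) (b := v3) (by rw [k4]; linarith [f4]), k4]
    · rw [neg (v := v3) (a := v4) (b := v2) (by rw [k3]; linarith [u3]), k3]
    · by_cases hq : ang v0 v1 v5 = Real.pi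
      · have h1 : ang v0 v5 v1 = Real.pi := by
          have h2 : ang v0 v5 v1 = if ang v0 v1 v5 = Real.pi then Real.pi else - ang v0 v1 v5 := by
            unfold ang
            have e : Dv v0 v1 / Dv v0 v5 = (Dv v0 v5 / Dv v0 v1)⁻¹ := by
              rw [inv_div]
            rw [e, Complex.arg_inv]
          rw [h2, if_pos hq]
        rw [h1, Real.sin_pi, mul_zero]
      · rw [neg hq, neg_one_mul, neg_one_mul, Real.sin_neg, neg_neg]
        exact s0
    · rw [neg k5', neg_one_mul, neg_one_mul, Real.Angle.coe_neg, Real.Angle.coe_neg, k5]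

/-- **F2**: in a hexagon face with `17` units the corners next to the large corner have gap
at least `1/2` -/
theorem f2_19 (hG : G.Geo4 (alpha d) kp U) (hD : DelG G d) (hS : Sep d G.P)
    (hC6 : Real.cosh d ≤ 11 / 10)
    {C : G.adj.ConnectedComponent} (hC : C ∈ WF G) (hd6 : (G.cI C).card + 2 = 2 * (G.cT C).card)
    (h6 : (G.cJ C).card = 6) {x : ℍ × ℍ} (hx : x ∈ G.cJ C) (u0 : un G (alpha d) x = 4)
    (u1 : un G (alpha d) (sg G x) = 2) (u2 : un G (alpha d) (sg G (sg G x)) = 3)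
    (u3 : un G (alpha d) (sg G (sg G (sg G x))) = 3)
    (u4 : un G (alpha d) (sg G (sg G (sg G (sg G x)))) = 3)
    (u5 : un G (alpha d) (sg G (sg G (sg G (sg G (sg G x))))) = 2) :
    1 / 2 ≤ gc G (alpha d) (sg G x) ∧
      1 / 2 ≤ gc G (alpha d) (sg G (sg G (sg G (sg G (sg G x))))) := by
  have hal := alpha_lt hD.hd
  have hal0 := alpha_pos hD.hd
  have hp := Real.pi_pos
  have b0 := un_gt19 hG (x := x) (n := 3) (by norm_num) (by omega)
  have b2 := un_gt19 hG (x := sg G (sg G x)) (n := 2) le_rfl (by omega)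
  have b3 := un_gt19 hG (x := sg G (sg G (sg G x))) (n := 2) le_rfl (by omega)
  have b4 := un_gt19 hG (x := sg G (sg G (sg G (sg G x)))) (n := 2) le_rfl (by omega)
  have c0 := TH_un19 hG x
  have c3 := TH_un19 hG (sg G (sg G (sg G x)))
  rw [u0] at c0
  rw [u3] at c3
  push_cast at b0 b2 b3 b4 c0 c3
  have h12 : TH G (sg G x) ≤ 3 / 2 * alpha d ∧
      TH G (sg G (sg G (sg G (sg G (sg G x))))) ≤ 3 / 2 * alpha d := by
    rcases le_total (TH G x) Real.pi with hpi | hpi
    · obtain ⟨k1, k2⟩ := hex_half19 hG hD hS hC6 hC hd6 h6 hx b0 (by linarith) b3.le c3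
      exact ⟨k1 b2.le, k2 b4.le⟩
    · obtain ⟨k1, k2⟩ := hex_half2_19 hG hD hS hC6 hC hd6 h6 hx hpi c0 b3.le c3
      exact ⟨k1 b2.le, k2 b4.le⟩
  have t1 := TH_gc19 G hG (sg G x)
  have t5 := TH_gc19 G hG (sg G (sg G (sg G (sg G (sg G x)))))
  rw [u1] at t1
  rw [u5] at t5
  push_cast at t1 t5
  constructor
  · by_contra hc
    push Not at hc
    nlinarith [h12.1]
  · by_contra hc
    push Not at hc
    nlinarith [h12.2]

end conc

end E5

end

end Pool.Agent.PEN
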