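import Pool.Agent.E5.Hg2
import Pool.Agent.E5.Hk19
import Pool.Agent.E5.SL2b

/-! # PENNY, all small diameters: the hexagons with seventeen units, the pattern -/

set_option autoImplicit false

namespace Pool.Agent.PEN.E5

open Classical UpperHalfPlane
open Pool.Agent.PEN.Cl

noncomputable section

section abs

variable {V : Type} (G : Tg V) {al : ℝ} {kp : V → V → ℝ} {U : ℕ → ℝ}

/-- **the hexagon with seventeen units** from its corner `x` with four units:
`x`, `sg x`, .. have `4, 2, 3, 3, 3, 2` units -/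
structure P17 (al : ℝ) (C : G.adj.ConnectedComponent) (x : V × V) : Prop where
  wf : C ∈ WF G
  x0 : x ∈ G.cJ C
  cyc : sg G (sg G (sg G (sg G (sg G (sg G x))))) = x
  J : G.cJ C = {x, sg G x, sg G (sg G x), sg G (sg G (sg G x)), sg G (sg G (sg G (sg G x))),
    sg G (sg G (sg G (sg G (sg G x))))}
  c6 : (G.cJ C).card = 6
  cT : (G.cT C).card = 4
  uf : uf G al C = 17
  u0 : un G al x = 4
  u1 : un G al (sg G x) = 2
  u2 : un G al (sg G (sg G x)) = 3
  u3 : un G al (sg G (sg G (sg G x))) = 3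
  u4 : un G al (sg G (sg G (sg G (sg G x)))) = 3
  u5 : un G al (sg G (sg G (sg G (sg G (sg G x))))) = 2
  mass : 5 ≤ gc G al x + gc G al (sg G x) + gc G al (sg G (sg G x)) +
    gc G al (sg G (sg G (sg G x))) + gc G al (sg G (sg G (sg G (sg G x)))) +
    gc G al (sg G (sg G (sg G (sg G (sg G x)))))
  f1 : 1 + gc G al (sg G x) ≤ gc G al (sg G (sg G (sg G x))) +
    gc G al (sg G (sg G (sg G (sg G x))))
  f5 : 1 + gc G al (sg G (sg G (sg G (sg G (sg G x))))) ≤ gc G al (sg G (sg G (sg G x))) +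
    gc G al (sg G (sg G x))
  g1 : 1 / 2 ≤ gc G al (sg G x)
  g5 : 1 / 2 ≤ gc G al (sg G (sg G (sg G (sg G (sg G x)))))
  f12 : 147 / 100 ≤ gc G al (sg G x) + gc G al (sg G (sg G x))
  f45 : 147 / 100 ≤ gc G al (sg G (sg G (sg G (sg G x)))) +
    gc G al (sg G (sg G (sg G (sg G (sg G x)))))

variable {G} {C : G.adj.ConnectedComponent} {x : V × V}

theorem P17.x1 (h : P17 G al C x) : sg G x ∈ G.cJ C := by
  rw [h.J]
  simp

theorem P17.x2 (h : P17 G al C x) : sg G (sg G x) ∈ G.cJ C := by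
  rw [h.J]
  simp

theorem P17.x3 (h : P17 G al C x) : sg G (sg G (sg G x)) ∈ G.cJ C := by
  rw [h.J]
  simp

theorem P17.x4 (h : P17 G al C x) : sg G (sg G (sg G (sg G x))) ∈ G.cJ C := by
  rw [h.J]
  simp

theorem P17.x5 (h : P17 G al C x) : sg G (sg G (sg G (sg G (sg G x)))) ∈ G.cJ C := by
  rw [h.J]
  simp

/-- sums over the corners -/
theorem P17.sum {M : Type} [AddCommMonoid M] (h : P17 G al C x) (f : V × V → M) :
    ∑ y ∈ G.cJ C, f y = f x + (f (sg G x) + (f (sg G (sg G x)) + (f (sg G (sg G (sg G x))) +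
      (f (sg G (sg G (sg G (sg G x)))) + f (sg G (sg G (sg G (sg G (sg G x))))))))) := by
  have hc := h.c6
  rw [h.J] at hc
  set a0 := x
  set a1 := sg G a0
  set a2 := sg G a1
  set a3 := sg G a2
  set a4 := sg G a3
  set a5 := sg G a4
  have k6 : ∀ (a : V × V) (s : Finset (V × V)), (insert a s).card ≤ s.card + 1 :=
    fun a s => Finset.card_insert_le a s
  have k1 : ({a5} : Finset (V × V)).card = 1 := Finset.card_singleton _
  have c5 := k6 a4 {a5}
  have c4 := k6 a3 {a4, a5}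
  have c3 := k6 a2 {a3, a4, a5}
  have c2 := k6 a1 {a2, a3, a4, a5}
  have c1 := k6 a0 {a1, a2, a3, a4, a5}
  have n0 : a0 ∉ ({a1, a2, a3, a4, a5} : Finset (V × V)) := by
    intro hm
    rw [Finset.insert_eq_of_mem hm] at hc
    omega
  have n1 : a1 ∉ ({a2, a3, a4, a5} : Finset (V × V)) := by
    intro hm
    rw [Finset.insert_eq_of_mem hm] at hc c1
    omega
  have n2 : a2 ∉ ({a3, a4, a5} : Finset (V × V)) := by
    intro hm
    rw [Finset.insert_eq_of_mem hm] at hc c1 c2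
    omega
  have n3 : a3 ∉ ({a4, a5} : Finset (V × V)) := by
    intro hm
    rw [Finset.insert_eq_of_mem hm] at hc c1 c2 c3
    omega
  have n4 : a4 ∉ ({a5} : Finset (V × V)) := by
    intro hm
    rw [Finset.insert_eq_of_mem hm] at hc c1 c2 c3 c4
    omega
  rw [h.J, Finset.sum_insert n0, Finset.sum_insert n1, Finset.sum_insert n2,
    Finset.sum_insert n3, Finset.sum_insert n4, Finset.sum_singleton]

end abs

section conc

variable {G : Tg ℍ} {d : ℝ} {kp : ℍ → ℍ → ℝ} {U : ℕ → ℝ}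

/-- **existence of the pattern** -/
theorem pat49 (hG : G.Geo4 (alpha d) kp U) (hD : DelG G d) (hS : Sep d G.P)
    (h1 : ∀ x ∈ iJ G, gc G (alpha d) x ≤ 1) (hC6 : Real.cosh d ≤ 11 / 10)
    {C : G.adj.ConnectedComponent} (hC : C ∈ WF G) (hT : (G.cT C).card = 4)
    (hI : (G.cI C).card = 6) (h17 : uf G (alpha d) C = 17)
    (h3 : ∀ x ∈ G.cJ C, un G (alpha d) x = 4 → un G (alpha d) (sg G x) = 2 →
      un G (alpha d) (sg G (sg G x)) = 3 → un G (alpha d) (sg G (sg G (sg G x))) = 3 →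
      un G (alpha d) (sg G (sg G (sg G (sg G x)))) = 3 →
      un G (alpha d) (sg G (sg G (sg G (sg G (sg G x))))) = 2 →
      147 / 100 ≤ gc G (alpha d) (sg G x) + gc G (alpha d) (sg G (sg G x)) ∧
      147 / 100 ≤ gc G (alpha d) (sg G (sg G (sg G (sg G x)))) +
        gc G (alpha d) (sg G (sg G (sg G (sg G (sg G x)))))) :
    ∃ x, P17 G (alpha d) C x := by
  have hCi := ((mem_WF89 G).1 hC).1
  have hd6 : (G.cI C).card + 2 = 2 * (G.cT C).card := by omega
  have h6 : (G.cJ C).card = 6 := by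
    have := disc90 G hCi hd6
    omega
  obtain ⟨_, k2⟩ := hex_class19 hG hD hS hC hd6 h6
  obtain ⟨x, hx, a0, a1, a2, a3, a4, a5, g1, g2⟩ := k2 (le_of_eq h17.symm)
  obtain ⟨hset, hcyc⟩ := six90 G hG hC hd6 h6 hx
  obtain ⟨p1, p2⟩ := f2_19 hG hD hS hC6 hC hd6 h6 hx a0 a1 a2 a3 a4 a5
  obtain ⟨q1, q2⟩ := h3 x hx a0 a1 a2 a3 a4 a5
  have hmass : ∑ y ∈ G.cJ C, (1 - gc G (alpha d) y) ≤ 1 := by
    refine mass_le2 G hG hCi ?_
    omega
  obtain ⟨b1, b2⟩ := orb90 G hG hCi hd6 hx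
  have hsum : ∑ y ∈ G.cJ C, (1 - gc G (alpha d) y) =
      (1 - gc G (alpha d) x) + (1 - gc G (alpha d) (sg G x)) +
      (1 - gc G (alpha d) (sg G (sg G x))) + (1 - gc G (alpha d) (sg G (sg G (sg G x)))) +
      (1 - gc G (alpha d) (sg G (sg G (sg G (sg G x))))) +
      (1 - gc G (alpha d) (sg G (sg G (sg G (sg G (sg G x)))))) := by
    have h3 : ∑ y ∈ G.cJ C, (1 - gc G (alpha d) y) =
        ∑ i ∈ Finset.range (G.cJ C).card, (1 - gc G (alpha d) ((sg G)^[i] x)) := by
      conv_lhs => rw [← b1]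
      rw [Finset.sum_image]
      intro i hi j hj hij
      exact orb_inj90 G b1 (Finset.mem_range.1 (Finset.mem_coe.1 hi))
        (Finset.mem_range.1 (Finset.mem_coe.1 hj)) hij
    rw [h3, h6]
    simp only [Finset.sum_range_succ, Finset.sum_range_zero, Function.iterate_zero, id,
      Function.iterate_succ, Function.comp_apply, zero_add]
  rw [hsum] at hmass
  exact ⟨x, hC, hx, hcyc, hset, h6, hT, h17, a0, a1, a2, a3, a4, a5, by linarith, g1, g2, p1, p2,
    q1, q2⟩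

end conc

end

end Pool.Agent.PEN.E5
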