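import Pool.Agent.E5.Fv15
import Pool.Agent.E5.Hx49
import Pool.Agent.E5.Ho19
import Pool.Agent.E5.Pe39
import Pool.Agent.E5.Pw63

/-! # PENNY, all small diameters: set B6, facts on the two special classes -/

set_option autoImplicit false

namespace Pool.Agent.PEN.E5

open Classical UpperHalfPlane
open Pool.Agent.PEN.Cl

noncomputable section

variable {d : ℝ} {kp : ℍ → ℍ → ℝ} {U : ℕ → ℝ} {G : Tg ℍ}

/-- the pattern of a hexagon class with 17 units -/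
theorem pat15 (hG : G.Geo4 (alpha d) kp U) (hD : DelG G d) (hS : Sep d G.P) (hd : 0 < d)
    (hd2 : d ≤ 89 / 250) {C : G.adj.ConnectedComponent} (hC : H17c G (alpha d) C) :
    ∃ x, P17 G (alpha d) C x := by
  obtain ⟨c1, c2, c3, c4⟩ := hC
  have hd6 : (G.cI C).card + 2 = 2 * (G.cT C).card := by omega
  have h6 : (G.cJ C).card = 6 := by
    have := disc90 G ((mem_WF89 G).1 c1).1 hd6
    omega
  have hc := cosh_tight19 hd hd2
  refine pat49 hG hD hS (fun x hx => gc_le_one19' hG hD hS hx) (by linarith) c1 c2 c3 c4 ?_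
  intro x hx a0 a1 a2 a3 a4 a5
  exact f3_19 hG hD hS hd2 c1 hd6 h6 hx a0 a1 a2 a3 a4 a5

theorem h17_un15 {C : G.adj.ConnectedComponent} {x : ℍ × ℍ} (h : P17 G (alpha d) C x)
    {z : ℍ × ℍ} (hz : z ∈ G.cJ C) : un G (alpha d) z ≤ 4 := by
  rw [h.J] at hz
  simp only [Finset.mem_insert, Finset.mem_singleton] at hz
  rcases hz with rfl | rfl | rfl | rfl | rfl | rfl
  · rw [h.u0]
  · rw [h.u1]; norm_num
  · rw [h.u2]; norm_num
  · rw [h.u3]; norm_num
  · rw [h.u4]; norm_num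
  · rw [h.u5]; norm_num

theorem h17_three15 (h1 : ∀ x ∈ iJ G, gc G (alpha d) x ≤ 1) {C : G.adj.ConnectedComponent}
    {x : ℍ × ℍ} (h : P17 G (alpha d) C x)
    {z : ℍ × ℍ} (hz : z ∈ G.cJ C) (z3 : 3 ≤ un G (alpha d) z)
    (z4 : 3 ≤ un G (alpha d) (sg G z)) :
    147 / 100 ≤ gc G (alpha d) z + gc G (alpha d) (sg G z) := by
  have hle : ∀ y ∈ G.cJ C, gc G (alpha d) y ≤ 1 := fun y hy =>
    h1 y ((mem_BC89 G).1 (cJ_BC15 G h.wf hy)).1
  have k0 := hle _ h.x0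
  have k1 := hle _ h.x1
  have k2 := hle _ h.x2
  have k3 := hle _ h.x3
  have k4 := hle _ h.x4
  have k5 := hle _ h.x5
  have m := h.mass
  have f1 := h.f1
  have f5 := h.f5
  have g1 := h.g1
  have g5 := h.g5
  rw [h.J] at hz
  simp only [Finset.mem_insert, Finset.mem_singleton] at hz
  rcases hz with rfl | rfl | rfl | rfl | rfl | rfl
  · rw [h.u1] at z4; omega
  · rw [h.u1] at z3; omega
  · linarith
  · linarith
  · rw [h.u5] at z4; omega
  · rw [h.u5] at z3; omega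

/-- the high gaps -/
theorem h17_high15 (h1 : ∀ x ∈ iJ G, gc G (alpha d) x ≤ 1) {C : G.adj.ConnectedComponent}
    {x : ℍ × ℍ} (h : P17 G (alpha d) C x) :
    1 / 2 ≤ gc G (alpha d) (sg G (sg G x)) ∧ 1 / 2 ≤ gc G (alpha d) (sg G (sg G (sg G x))) ∧
      1 / 2 ≤ gc G (alpha d) (sg G (sg G (sg G (sg G x)))) := by
  have hle : ∀ y ∈ G.cJ C, gc G (alpha d) y ≤ 1 := fun y hy =>
    h1 y ((mem_BC89 G).1 (cJ_BC15 G h.wf hy)).1
  have k2 := hle _ h.x2
  have k3 := hle _ h.x3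
  have k4 := hle _ h.x4
  have f1 := h.f1
  have f5 := h.f5
  have g1 := h.g1
  have g5 := h.g5
  exact ⟨by linarith, by linarith, by linarith⟩

/-- the four unit corner -/
theorem h17_four15 {C : G.adj.ConnectedComponent} {x : ℍ × ℍ} (h : P17 G (alpha d) C x)
    {z : ℍ × ℍ} (hz : z ∈ G.cJ C) (h4 : un G (alpha d) z = 4) : z = x := by
  rw [h.J] at hz
  simp only [Finset.mem_insert, Finset.mem_singleton] at hz
  rcases hz with rfl | rfl | rfl | rfl | rfl | rfl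
  · rfl
  · rw [h.u1] at h4; omega
  · rw [h.u2] at h4; omega
  · rw [h.u3] at h4; omega
  · rw [h.u4] at h4; omega
  · rw [h.u5] at h4; omega

/-- the head of the side before a leaf corner -/
theorem leaf_gap15 (hG : G.Geo4 (alpha d) kp U) (h1 : ∀ x ∈ iJ G, gc G (alpha d) x ≤ 1)
    (he : ep (alpha d) ≤ 1 / 2) {z : ℍ × ℍ} (hz : z ∈ BC G) (hl : z.1 ∈ lfN G) :
    1 / 2 ≤ gc G (alpha d) z := by
  obtain ⟨h3, h4⟩ := (mem_lfN15 G).1 hl
  have h5 := sum_Bv15 G hG h3 (al := alpha d)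
  have h6 : Bv G z.1 = {z} := by
    have h7 : (Bv G z.1).card = 1 := h4
    obtain ⟨w, hw⟩ := Finset.card_eq_one.1 h7
    have h8 : z ∈ Bv G z.1 := Finset.mem_filter.2 ⟨hz, rfl⟩
    rw [hw, Finset.mem_singleton] at h8
    rw [hw, h8]
  rw [h6, Finset.sum_singleton] at h5
  have h9 := kv_ge89 G hG h3 (al := alpha d)
  linarith

/-- the sides `GH` have high gaps -/
theorem gh_high15 (hG : G.Geo4 (alpha d) kp U) (hD : DelG G d) (hS : Sep d G.P) (hd : 0 < d)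
    (hd2 : d ≤ 89 / 250) (he : ep (alpha d) ≤ 1 / 2) {a : ℍ × ℍ} (ha : a ∈ GH G (alpha d)) :
    1 / 2 ≤ gc G (alpha d) a ∧ 1 / 2 ≤ gc G (alpha d) (sg G a) := by
  have h1 : ∀ x ∈ iJ G, gc G (alpha d) x ≤ 1 := fun x hx => gc_le_one19' hG hD hS hx
  obtain ⟨ha1, ⟨hc, z, hz, hz4, hz5⟩, _⟩ := Finset.mem_filter.1 ha
  obtain ⟨x, h⟩ := pat15 hG hD hS hd hd2 hc
  have hzx := h17_four15 h hz hz4
  subst hzx
  obtain ⟨g2, g3, g4⟩ := h17_high15 h1 h
  have g1 := h.g1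
  have g5 := h.g5
  rcases hz5 with (rfl | rfl | rfl | rfl) | hl
  · exact ⟨g1, g2⟩
  · exact ⟨g2, g3⟩
  · exact ⟨g3, g4⟩
  · exact ⟨g4, g5⟩
  · have g0 := leaf_gap15 hG h1 he (cJ_BC15 G h.wf h.x0) hl
    have ha2 := (BC_cJ15 G ha1).1
    rw [h.J] at ha2
    simp only [Finset.mem_insert, Finset.mem_singleton] at ha2
    rcases ha2 with h2 | h2 | h2 | h2 | h2 | h2 <;> rw [h2]
    · exact ⟨g0, g1⟩
    · exact ⟨g1, g2⟩
    · exact ⟨g2, g3⟩
    · exact ⟨g3, g4⟩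
    · exact ⟨g4, g5⟩
    · rw [h.cyc]
      exact ⟨g5, g0⟩

/-- the sides `GH` in black faces without leaf are strong -/
theorem gh_sp15 (hG : G.Geo4 (alpha d) kp U) (hD : DelG G d) (hS : Sep d G.P) (hd : 0 < d)
    (hd2 : d ≤ 89 / 250) {a : ℍ × ℍ} (ha : a ∈ GH G (alpha d)) (hL : Lv G (ku G a) = ∅) :
    47 / 100 ≤ sp G (alpha d) a := by
  have h1 : ∀ x ∈ iJ G, gc G (alpha d) x ≤ 1 := fun x hx => gc_le_one19' hG hD hS hx
  obtain ⟨ha1, ⟨hc, z, hz, hz4, hz5⟩, _⟩ := Finset.mem_filter.1 ha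
  obtain ⟨x, h⟩ := pat15 hG hD hS hd hd2 hc
  have hzx := h17_four15 h hz hz4
  subst hzx
  have g1 := h.g1
  have g5 := h.g5
  have f1 := h.f1
  have f5 := h.f5
  have f12 := h.f12
  have f45 := h.f45
  have e1 : 47 / 100 ≤ sp G (alpha d) (sg G z) := by unfold sp; linarith
  have e2 : 47 / 100 ≤ sp G (alpha d) (sg G (sg G z)) := by unfold sp; linarith
  have e3 : 47 / 100 ≤ sp G (alpha d) (sg G (sg G (sg G z))) := by unfold sp; linarith
  have e4 : 47 / 100 ≤ sp G (alpha d) (sg G (sg G (sg G (sg G z)))) := by unfold sp; linarith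
  rcases hz5 with (rfl | rfl | rfl | rfl) | hl
  · exact e1
  · exact e2
  · exact e3
  · exact e4
  · obtain ⟨hv, hcv⟩ := (mem_lfN15 G).1 hl
    have ha2 := (BC_cJ15 G ha1).1
    rw [h.J] at ha2
    simp only [Finset.mem_insert, Finset.mem_singleton] at ha2
    rcases ha2 with h2 | h2 | h2 | h2 | h2 | h2
    · exfalso
      obtain ⟨p1, p2, p3, p4⟩ := pv_spec39 G hG (BC_SD14 G ha1)
      rw [h2] at p1 p2 p3 p4
      have : pv39 G z ∈ Lv G (ku G a) := by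
        rw [h2]
        refine (mem_Lv15 G).2 ⟨(mem_kS42 G).2 ⟨p1, p3⟩, ?_, ?_⟩
        · rw [p4]; exact hv
        · rw [p4]; exact hcv
      rw [hL] at this
      exact absurd this (Finset.notMem_empty _)
    · rw [h2]; exact e1
    · rw [h2]; exact e2
    · rw [h2]; exact e3
    · rw [h2]; exact e4
    · exfalso
      have h5 : a.2 = z.1 := by
        have h6 := h.cyc
        have h7 : (sg G a).1 = a.2 := rfl
        rw [← h7, h2, h6]
      have : a ∈ Lv G (ku G a) := by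
        refine (mem_Lv15 G).2 ⟨(mem_kS42 G).2 ⟨BC_SD14 G ha1, rfl⟩, ?_, ?_⟩
        · rw [h5]; exact hv
        · rw [h5]; exact hcv
      rw [hL] at this
      exact absurd this (Finset.notMem_empty _)

theorem p12_three15 (hG : G.Geo4 (alpha d) kp U) (hD : DelG G d) (hS : Sep d G.P)
    {C : G.adj.ConnectedComponent} (hC : P12c G (alpha d) C)
    {z : ℍ × ℍ} (hz : z ∈ G.cJ C) :
    ¬ (3 ≤ un G (alpha d) z ∧ 3 ≤ un G (alpha d) (sg G z)) := by
  obtain ⟨c1, c2, c3, c4⟩ := hC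
  obtain ⟨_, _, x, hx, ⟨p0, p1, p2, p3, p4⟩, hJ, hcy, _⟩ := p12_39 hG hD hS c1 c2 c3 (le_of_eq c4.symm)
  rintro ⟨z3, z4⟩
  rw [hJ] at hz
  simp only [Finset.mem_insert, Finset.mem_singleton] at hz
  rcases hz with rfl | rfl | rfl | rfl | rfl
  · omega
  · omega
  · omega
  · omega
  · rw [hcy] at z4
    omega

theorem p12_weak15 (hG : G.Geo4 (alpha d) kp U) (hD : DelG G d) (hS : Sep d G.P) (hd : 0 < d)
    (hd2 : d ≤ 89 / 250) {z : ℍ × ℍ} (hz : z ∈ BC G) (hP : P12c G (alpha d) (G.cl z)) :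
    -(23 : ℝ) / 50 ≤ sp G (alpha d) z := by
  obtain ⟨c1, c2, c3, c4⟩ := hP
  have hc := cosh_tight19 hd hd2
  exact p12_weak63 hG hD hS (by linarith) ((mem_WF89 G).1 c1).1 c2 c3 (le_of_eq c4.symm)
    (BC_cJ15 G hz).1

end

end Pool.Agent.PEN.E5
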