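import Pool.Agent.E5.Lm62
import Pool.Agent.E5.SF54

/-! # PENNY, all small diameters: who pays the charge of a pentagon with 12 units

Page T2, section 2. `P` is a white pentagon with units `(2, 2, 3, 2, 3)` from the weak side `w`; the
black face behind `w` has no server; one of its corners with three units is charged (it is the only
server of its three black faces, all their sides are strong). Then there is a giver: a point with at
least eight units, a point with three big corners, a point `(2, 2; 0, 3)`, or a corner with at least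
three units of another white face, with an item of mass above one, where that white face is not a
pentagon of the same kind with a weak side. Only gaps and runs are used. -/

set_option autoImplicit false

namespace Pool.Agent.PEN.E5

open Classical UpperHalfPlane
open Pool.Agent.PEN.Cl

noncomputable section

variable {V : Type} (G : Tg V) {al : ℝ} {kp : V → V → ℝ} {U : ℕ → ℝ}

/-- the balance: sectors nonpositive outside `A`, sides nonnegative outside `B` -/
theorem bal47 {S A B : Finset (V × V)} {D s : V × V → ℝ} (hS : ∑ x ∈ S, D x = ∑ x ∈ S, s x)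
    (hA : A ⊆ S) (hB : B ⊆ S) (hD : ∀ y ∈ S, y ∉ A → D y ≤ 0)
    (hs : ∀ y ∈ S, y ∉ B → 0 ≤ s y) : ∑ x ∈ B, s x ≤ ∑ x ∈ A, D x := by
  have h1 : ∑ x ∈ S, D x ≤ ∑ x ∈ A, D x := by
    rw [← Finset.sum_sdiff hA]
    have : ∑ x ∈ S \ A, D x ≤ 0 := Finset.sum_nonpos fun x hx => by
      obtain ⟨h2, h3⟩ := Finset.mem_sdiff.1 hx
      exact hD x h2 h3
    linarith
  have h2 : ∑ x ∈ B, s x ≤ ∑ x ∈ S, s x := by
    rw [← Finset.sum_sdiff hB]
    have : 0 ≤ ∑ x ∈ S \ B, s x := by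
      refine Finset.sum_nonneg fun x hx => ?_
      obtain ⟨h4, h5⟩ := Finset.mem_sdiff.1 hx
      exact hs x h4 h5
    linarith
  linarith

/-- the corner `sg x`, at the head of `x`, is charged: eight units, three big corners, the only
server of its three black faces, these are exact and have no weak side -/
structure Ch47 (al : ℝ) (x : V × V) : Prop where
  inn : x.2 ∈ inN G
  xs : x ∈ SD G
  u8 : uv G al x.2 = 8
  c3 : cv G x.2 = 3
  strong : ∀ s ∈ Sv G x.2, ∀ y ∈ kS G (ku G s), 0 ≤ sp G al y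
  neg : ∀ s ∈ Sv G x.2, ∀ y ∈ kS G (ku G s), y ≠ s → Ds G al y ≤ 0
  exact : ∀ s ∈ Sv G x.2, tK G (ku G s) = rn G s

/-- the pentagon with units `(2, 2, 3, 2, 3)` from `w` and gap sum at least three -/
structure Pen47 (al : ℝ) (w : V × V) : Prop where
  u0 : un G al w = 2
  u1 : un G al (sg G w) = 2
  u2 : un G al (sg G (sg G w)) = 3
  u3 : un G al (sg G (sg G (sg G w))) = 2
  u4 : un G al (sg G (sg G (sg G (sg G w)))) = 3
  cyc : sg G (sg G (sg G (sg G (sg G w)))) = w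
  sum : 3 ≤ gc G al w + gc G al (sg G w) + gc G al (sg G (sg G w)) +
    gc G al (sg G (sg G (sg G w))) + gc G al (sg G (sg G (sg G (sg G w))))

/-- `z` is one of the five sides from `w` -/
def In47 (w z : V × V) : Prop :=
  z = w ∨ z = sg G w ∨ z = sg G (sg G w) ∨ z = sg G (sg G (sg G w)) ∨
    z = sg G (sg G (sg G (sg G w)))

/-- `y` is a giver: a corner with at least three units at a point with seven units and two big
corners, in an item `z, sg z, sg (sg z)` of mass above one with strong sides; its white face is not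
a pentagon with 12 units and a weak side -/
structure Big47 (al : ℝ) (z y : V × V) : Prop where
  inn : y.1 ∈ inN G
  u7 : uv G al y.1 = 7
  c2 : cv G y.1 = 2
  u3 : 3 ≤ un G al y
  iny : y = z ∨ y = sg G z ∨ y = sg G (sg G z)
  s1 : 0 ≤ sp G al z
  s2 : 0 ≤ sp G al (sg G z)
  mass : 1 < (1 - gc G al z) + (1 - gc G al (sg G z)) + (1 - gc G al (sg G (sg G z)))
  np : ∀ t, Pen47 G al t → In47 G t z → 0 ≤ sp G al t

/-- the sectors at a charged corner -/
theorem ch47 (hG : G.Geo4 al kp U) {x : V × V} (h : Ch47 G al x) :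
    ∃ y ∈ Sv G x.2, ∃ z ∈ Sv G x.2, x ∈ Sv G x.2 ∧ y ≠ x ∧ z ≠ x ∧ z ≠ y ∧ sg G y = nx G x ∧
      sg G z = nx G y ∧ nx G z = sg G x ∧ ku G (sg G x) = ku G z ∧ sg G x ∈ SD G ∧
      Ds G al x + Ds G al z = gc G al (sg G x) - ep al ∧
      Ds G al y = 1 - ep al - gc G al (sg G x) ∧
      un G al (sg G x) + rn G x + rn G y + rn G z ≤ 4 := by
  have hxS : x ∈ Sv G x.2 := (mem_Sv62 G).2 ⟨h.xs, rfl⟩
  obtain ⟨y, hy, z, hz, hyx, hzx, hzy, hS, hB, e1, e2, e3⟩ := c3_89 G hG h.inn h.c3 hxS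
  obtain ⟨hz1, hz2⟩ := (mem_Sv62 G).1 hz
  have hk := nx_mem42 G hG ((mem_SD42 G).1 hz1).1
  rw [e3] at hk
  have hs := sum_gcB39 G hG h.inn
  have n1 : sg G x ≠ sg G y := fun h' => hyx (sg_injSv89 G hG h.inn hxS hy h').symm
  have n2 : sg G x ≠ sg G z := fun h' => hzx (sg_injSv89 G hG h.inn hxS hz h').symm
  have n3 : sg G y ≠ sg G z := fun h' => hzy (sg_injSv89 G hG h.inn hy hz h').symm
  have m1 : sg G x ∉ ({sg G y, sg G z} : Finset (V × V)) := by
    simp only [Finset.mem_insert, Finset.mem_singleton]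
    rintro (h' | h')
    · exact n1 h'
    · exact n2 h'
  have m2 : sg G y ∉ ({sg G z} : Finset (V × V)) := by
    rw [Finset.mem_singleton]; exact n3
  rw [hB, Finset.sum_insert m1, Finset.sum_insert m2, Finset.sum_singleton, kv_eq89, h.u8] at hs
  have hu := uv_split62 G hG (al := al) x.2
  have m3 : x ∉ ({y, z} : Finset (V × V)) := by
    simp only [Finset.mem_insert, Finset.mem_singleton]
    rintro (h' | h')
    · exact hyx h'.symm
    · exact hzx h'.symm
  have m4 : y ∉ ({z} : Finset (V × V)) := by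
    rw [Finset.mem_singleton]; exact fun h' => hzy h'.symm
  rw [hB, hS, Finset.sum_insert m1, Finset.sum_insert m2, Finset.sum_singleton,
    Finset.sum_insert m3, Finset.sum_insert m4, Finset.sum_singleton, h.u8] at hu
  have b1 := un_ge46 G (al := al) ((mem_Bv62 G).1 (sg_Bv89 G hG h.inn hy)).1
  have b2 := un_ge46 G (al := al) ((mem_Bv62 G).1 (sg_Bv89 G hG h.inn hz)).1
  refine ⟨y, hy, z, hz, hxS, hyx, hzx, hzy, e1, e2, e3, hk.2, hk.1, ?_, ?_, by omega⟩
  · unfold Ds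
    rw [← e1, e3]
    norm_num at hs ⊢
    linarith
  · unfold Ds
    rw [← e2]
    norm_num at hs ⊢
    linarith

/-- a point with a nonpositive sector `s`: at least eight units, or three big corners, or two -/
theorem apex47 (hG : G.Geo4 al kp U) (he : ep al < 1 / 2) {s : V × V} (hs : s ∈ SD G)
    (hin : s.2 ∈ inN G) (hD : Ds G al s ≤ 0) : 8 ≤ uv G al s.2 ∨
      (uv G al s.2 = 7 ∧ cv G s.2 = 3) ∨
      (uv G al s.2 = 7 ∧ cv G s.2 = 2 ∧ ∃ t ∈ Sv G s.2, t ≠ s ∧ sg G t = nx G s ∧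
        nx G t = sg G s ∧ gc G al (sg G s) + gc G al (nx G s) = 1 - ep al ∧
        un G al (sg G s) + un G al (nx G s) + rn G s + rn G t = 7) := by
  have hsS : s ∈ Sv G s.2 := (mem_Sv62 G).2 ⟨hs, rfl⟩
  have h7 := uv_ge89 G hG (al := al) hin
  rcases Nat.lt_or_ge (uv G al s.2) 8 with h8 | h8
  swap
  · exact Or.inl h8
  have h7' : uv G al s.2 = 7 := by omega
  have hc := cv_le39 G hG h7'
  have hp := cv_pos89 G hG hin
  have hn1 : cv G s.2 ≠ 1 := by
    intro hc1
    have h3 := Ds_one89 G hG hin hs rfl hc1 (al := al)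
    rw [kv_eq89, h7'] at h3
    norm_num at h3
    linarith
  rcases (by omega : cv G s.2 = 3 ∨ cv G s.2 = 2) with hc3 | hc2
  · exact Or.inr (Or.inl ⟨h7', hc3⟩)
  · refine Or.inr (Or.inr ⟨h7', hc2, ?_⟩)
    obtain ⟨h0, hB, t, ht, hts, hS, e1, e2⟩ := c2_89 G hG hin hc2 hsS
    have hg := sum_gcB39 G hG hin (al := al)
    rw [hB, Finset.sum_pair h0.symm, kv_eq89, h7'] at hg
    have hu := uv_split62 G hG (al := al) s.2
    rw [hB, hS, Finset.sum_pair h0.symm, Finset.sum_pair hts.symm, h7'] at hu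
    norm_num at hg
    exact ⟨t, ht, hts, e1, e2, hg, by omega⟩

/-- the partner at `b1`, charged corner before the weak side: three big corners are impossible -/
theorem partner_a47 (hG : G.Geo4 al kp U) {x : V × V} (h : Ch47 G al x)
    (hw : WO62 G al (sg G (sg G x))) (hin : (sg G x).2 ∈ inN G) (h7 : uv G al (sg G x).2 = 7)
    (hsum : 3 ≤ gc G al x + gc G al (sg G x) + gc G al (sg G (sg G x)) +
      gc G al (sg G (sg G (sg G x))) + gc G al (sg G (sg G (sg G (sg G x)))))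
    (hq : gc G al (sg G (sg G (sg G (sg G x)))) ≤ 1) (hc1 : cv G (sg G x).2 ≠ 1) :
    cv G (sg G x).2 = 2 ∧ ∃ z ∈ Sv G (sg G x).2, nx G z = sg G (sg G x) ∧
      sg G z = nx G (sg G x) ∧ z ∈ kS G (ku G (sg G (sg G x))) ∧ z ≠ sg G (sg G x) ∧
      0 ≤ sp G al z ∧ 0 ≤ sp G al (sg G z) ∧
      1 + 2 * ep al + (1 - gc G al (sg G (sg G (sg G (sg G x))))) ≤
        (1 - gc G al z) + (1 - gc G al (sg G z)) + (1 - gc G al (sg G (sg G z))) := by
  have hep := ep_pos89 G hG
  obtain ⟨y', hy', z', hz', hxS, hyx, hzx, hzy, e1, e2, e3, ek, hys, hDD, -, -⟩ := ch47 G hG h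
  obtain ⟨hz1, hz2⟩ := (mem_Sv62 G).1 hz'
  have hsS : sg G x ∈ Sv G (sg G x).2 := (mem_Sv62 G).2 ⟨hys, rfl⟩
  have hxK : x ∈ kS G (ku G x) := (mem_kS42 G).2 ⟨h.xs, rfl⟩
  have hsK : sg G x ∈ kS G (ku G z') := (mem_kS42 G).2 ⟨hys, ek⟩
  have hzK : z' ∈ kS G (ku G z') := (mem_kS42 G).2 ⟨hz1, rfl⟩
  have hnK : nx G (sg G x) ∈ kS G (ku G z') := nx_kS89 G hG hsK
  have hzs : z' ≠ sg G x := fun he => nx_self62 G hys (by rw [← he, e3, ← he])
  have hns : nx G (sg G x) ≠ sg G x := nx_self62 G hys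
  -- the face behind `x`
  have b1 := bal47 (S := kS G (ku G x)) (A := {x}) (B := {x}) (D := Ds G al) (s := sp G al)
    (sum_Ds89 G hG _) (Finset.singleton_subset_iff.2 hxK) (Finset.singleton_subset_iff.2 hxK)
    (fun y hy hn => h.neg x hxS y hy (fun he => hn (Finset.mem_singleton.2 he)))
    (fun y hy _ => h.strong x hxS y hy)
  rw [Finset.sum_singleton, Finset.sum_singleton] at b1
  -- the face behind `sg x`
  have b2 : ∀ B : Finset (V × V), B ⊆ kS G (ku G z') →
      ∑ y ∈ B, sp G al y ≤ Ds G al z' + Ds G al (sg G x) := by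
    intro B hB
    have := bal47 (S := kS G (ku G z')) (A := {z', sg G x}) (B := B) (D := Ds G al)
      (s := sp G al) (sum_Ds89 G hG _)
      (by
        intro y hy
        rcases Finset.mem_insert.1 hy with h1 | h1
        · rw [h1]; exact hzK
        · rw [Finset.mem_singleton.1 h1]; exact hsK) hB
      (fun y hy hn => h.neg z' hz' y hy
        (fun he => hn (by rw [he]; exact Finset.mem_insert_self _ _)))
      (fun y hy _ => h.strong z' hz' y hy)
    rwa [Finset.sum_pair hzs] at this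
  have hD0 : Ds G al (sg G x) ≤ 0 := h.neg z' hz' _ hsK (fun he => hzs he.symm)
  have hwK : sg G (sg G x) ∈ kS G (ku G (sg G (sg G x))) := (mem_kS42 G).2 ⟨hw.ws, rfl⟩
  have hle := cv_le39 G hG h7
  have hpos := cv_pos89 G hG hin
  have hn3 : cv G (sg G x).2 ≠ 3 := by
    intro hc
    obtain ⟨y, hy, z, hz, nyx, nzx, nzy, hS, hB, f1, f2, f3⟩ := c3_89 G hG hin hc hsS
    obtain ⟨hzz1, hzz2⟩ := (mem_Sv62 G).1 hz
    have hk := nx_mem42 G hG ((mem_SD42 G).1 hzz1).1
    rw [f3] at hk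
    have hzW : z ∈ kS G (ku G (sg G (sg G x))) := (mem_kS42 G).2 ⟨hzz1, hk.2.symm⟩
    have hg := sum_gcB39 G hG hin (al := al)
    have n1 : sg G (sg G x) ≠ sg G y := fun h' => nyx (sg_injSv89 G hG hin hsS hy h').symm
    have n2 : sg G (sg G x) ≠ sg G z := fun h' => nzx (sg_injSv89 G hG hin hsS hz h').symm
    have n3 : sg G y ≠ sg G z := fun h' => nzy (sg_injSv89 G hG hin hy hz h').symm
    rw [hB, Finset.sum_insert (by
      simp only [Finset.mem_insert, Finset.mem_singleton]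
      rintro (h' | h')
      · exact n1 h'
      · exact n2 h'), Finset.sum_insert (by
      rw [Finset.mem_singleton]; exact n3), Finset.sum_singleton, kv_eq89, h7] at hg
    have c1 := b2 {sg G x} (Finset.singleton_subset_iff.2 hsK)
    rw [Finset.sum_singleton] at c1
    have c2 := bal47 (S := kS G (ku G (sg G (sg G x)))) (A := {z}) (B := {sg G (sg G x)})
      (D := Ds G al) (s := sp G al) (sum_Ds89 G hG _) (Finset.singleton_subset_iff.2 hzW)
      (Finset.singleton_subset_iff.2 hwK) (fun y hy _ => hw.neg y hy)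
      (fun y hy hn => hw.strong y hy (fun he => hn (Finset.mem_singleton.2 he)))
    rw [Finset.sum_singleton, Finset.sum_singleton] at c2
    unfold Ds at c1 c2 b1 hDD
    unfold sp at c1 c2 b1
    rw [e3] at c1 hDD
    rw [f3] at c2
    rw [← f1] at c1
    norm_num at hg
    linarith
  have hc2 : cv G (sg G x).2 = 2 := by omega
  refine ⟨hc2, ?_⟩
  obtain ⟨z, hz, hzv, hzne, g1, g2, g3, g4, g5, g6, g7⟩ := partner62 G hG hys hin h7 hc2
  have hzW : z ∈ kS G (ku G (sg G (sg G x))) := (mem_kS42 G).2 ⟨hz, g3⟩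
  have hzw : z ≠ sg G (sg G x) := fun he => nx_self62 G hz (by rw [g2, he])
  have c1 := b2 {sg G x, nx G (sg G x)} (by
    intro y hy
    rcases Finset.mem_insert.1 hy with h1 | h1
    · rw [h1]; exact hsK
    · rw [Finset.mem_singleton.1 h1]; exact hnK)
  rw [Finset.sum_pair hns.symm] at c1
  have c2 := bal47 (S := kS G (ku G (sg G (sg G x)))) (A := {z}) (B := {sg G (sg G x), z})
    (D := Ds G al) (s := sp G al) (sum_Ds89 G hG _) (Finset.singleton_subset_iff.2 hzW)
    (by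
      intro y hy
      rcases Finset.mem_insert.1 hy with h1 | h1
      · rw [h1]; exact hwK
      · rw [Finset.mem_singleton.1 h1]; exact hzW) (fun y hy _ => hw.neg y hy)
    (fun y hy hn => hw.strong y hy (fun he => hn (by rw [he]; exact Finset.mem_insert_self _ _)))
  rw [Finset.sum_pair hzw.symm, Finset.sum_singleton] at c2
  have d1 : Ds G al (sg G x) ≤ - ep al := Ds_seven62 G hG hin h7 (by omega) hys rfl
  have d2 : Ds G al z ≤ - ep al := Ds_seven62 G hG hin h7 (by omega) hz hzv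
  have s1 : 0 ≤ sp G al z := hw.strong z hzW hzw
  have s2 : 0 ≤ sp G al (nx G (sg G x)) := h.strong z' hz' _ hnK
  refine ⟨z, (mem_Sv62 G).2 ⟨hz, hzv⟩, g2, g1, hzW, hzw, s1, by rw [g1]; exact s2, ?_⟩
  rw [g7]
  have h5 : sp G al (sg G (sg G x)) = gc G al (sg G (sg G x)) +
    gc G al (sg G (sg G (sg G x))) - 1 := rfl
  have h6 : sp G al (sg G x) = gc G al (sg G x) + gc G al (sg G (sg G x)) - 1 := rfl
  have h8 : sp G al x = gc G al x + gc G al (sg G x) - 1 := rfl
  linarith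

/-- the partner at `b2`, charged corner after the weak side: three big corners are impossible -/
theorem partner_b47 (hG : G.Geo4 al kp U) {w : V × V} (h : Ch47 G al (sg G w))
    (hw : WO62 G al w) (hin : w.2 ∈ inN G) (h7 : uv G al w.2 = 7)
    (hsum : 3 ≤ gc G al w + gc G al (sg G w) + gc G al (sg G (sg G w)) +
      gc G al (sg G (sg G (sg G w))) + gc G al (sg G (sg G (sg G (sg G w)))))
    (hq : gc G al (sg G (sg G (sg G (sg G w)))) ≤ 1) (hc1 : cv G w.2 ≠ 1) :
    cv G w.2 = 2 ∧ ∃ z ∈ Sv G w.2, nx G z = sg G w ∧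
      sg G z = nx G w ∧ z ∈ kS G (ku G (sg G w)) ∧ z ≠ sg G w ∧
      0 ≤ sp G al z ∧ 0 ≤ sp G al (sg G z) ∧
      1 + 2 * ep al + (1 - gc G al (sg G (sg G (sg G (sg G w))))) ≤
        (1 - gc G al z) + (1 - gc G al (sg G z)) + (1 - gc G al (sg G (sg G z))) := by
  have hep := ep_pos89 G hG
  obtain ⟨y', hy', z', hz', hxS, hyx, hzx, hzy, e1, e2, e3, ek, hys, hDD, -, -⟩ := ch47 G hG h
  obtain ⟨hz1, hz2⟩ := (mem_Sv62 G).1 hz'
  have hwS : w ∈ Sv G w.2 := (mem_Sv62 G).2 ⟨hw.ws, rfl⟩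
  have hxK : sg G w ∈ kS G (ku G (sg G w)) := (mem_kS42 G).2 ⟨h.xs, rfl⟩
  have hlK : sg G (sg G w) ∈ kS G (ku G z') := (mem_kS42 G).2 ⟨hys, ek⟩
  have hwK : w ∈ kS G (ku G w) := (mem_kS42 G).2 ⟨hw.ws, rfl⟩
  -- the face behind `sg (sg w)`
  have b1 := bal47 (S := kS G (ku G z')) (A := {z'}) (B := {sg G (sg G w)}) (D := Ds G al)
    (s := sp G al) (sum_Ds89 G hG _)
    (Finset.singleton_subset_iff.2 ((mem_kS42 G).2 ⟨hz1, rfl⟩))
    (Finset.singleton_subset_iff.2 hlK)
    (fun y hy hn => h.neg z' hz' y hy (fun he => hn (Finset.mem_singleton.2 he)))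
    (fun y hy _ => h.strong z' hz' y hy)
  rw [Finset.sum_singleton, Finset.sum_singleton] at b1
  -- the face behind `sg w`
  have b2 : ∀ z ∈ kS G (ku G (sg G w)), z ≠ sg G w → ∀ B : Finset (V × V),
      B ⊆ kS G (ku G (sg G w)) → ∑ y ∈ B, sp G al y ≤ Ds G al (sg G w) + Ds G al z := by
    intro z hz hne B hB
    have := bal47 (S := kS G (ku G (sg G w))) (A := {sg G w, z}) (B := B) (D := Ds G al)
      (s := sp G al) (sum_Ds89 G hG _)
      (by
        intro y hy
        rcases Finset.mem_insert.1 hy with h1 | h1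
        · rw [h1]; exact hxK
        · rw [Finset.mem_singleton.1 h1]; exact hz) hB
      (fun y hy hn => h.neg _ hxS y hy
        (fun he => hn (by rw [he]; exact Finset.mem_insert_self _ _)))
      (fun y hy _ => h.strong _ hxS y hy)
    rwa [Finset.sum_pair hne.symm] at this
  have hle := cv_le39 G hG h7
  have hpos := cv_pos89 G hG hin
  have hn3 : cv G w.2 ≠ 3 := by
    intro hc
    obtain ⟨y, hy, z, hz, nyx, nzx, nzy, hS, hB, f1, f2, f3⟩ := c3_89 G hG hin hc hwS
    obtain ⟨hzz1, hzz2⟩ := (mem_Sv62 G).1 hz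
    have hk := nx_mem42 G hG ((mem_SD42 G).1 hzz1).1
    rw [f3] at hk
    have hzK : z ∈ kS G (ku G (sg G w)) := (mem_kS42 G).2 ⟨hzz1, hk.2.symm⟩
    have hzne : z ≠ sg G w := fun he => nx_self62 G hzz1 (by rw [f3, ← he])
    have hg := sum_gcB39 G hG hin (al := al)
    have n1 : sg G w ≠ sg G y := fun h' => nyx (sg_injSv89 G hG hin hwS hy h').symm
    have n2 : sg G w ≠ sg G z := fun h' => nzx (sg_injSv89 G hG hin hwS hz h').symm
    have n3 : sg G y ≠ sg G z := fun h' => nzy (sg_injSv89 G hG hin hy hz h').symm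
    rw [hB, Finset.sum_insert (by
      simp only [Finset.mem_insert, Finset.mem_singleton]
      rintro (h' | h')
      · exact n1 h'
      · exact n2 h'), Finset.sum_insert (by
      rw [Finset.mem_singleton]; exact n3), Finset.sum_singleton, kv_eq89, h7] at hg
    have c1 := b2 z hzK hzne {sg G w} (Finset.singleton_subset_iff.2 hxK)
    rw [Finset.sum_singleton] at c1
    have c2 := bal47 (S := kS G (ku G w)) (A := {w}) (B := {w})
      (D := Ds G al) (s := sp G al) (sum_Ds89 G hG _) (Finset.singleton_subset_iff.2 hwK)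
      (Finset.singleton_subset_iff.2 hwK) (fun y hy _ => hw.neg y hy)
      (fun y hy hn => hw.strong y hy (fun he => hn (Finset.mem_singleton.2 he)))
    rw [Finset.sum_singleton, Finset.sum_singleton] at c2
    unfold Ds at c1 c2 b1 hDD
    unfold sp at c1 c2 b1
    rw [e3] at b1 hDD
    rw [f3] at c1
    rw [← f1] at c2
    norm_num at hg
    linarith
  have hc2 : cv G w.2 = 2 := by omega
  refine ⟨hc2, ?_⟩
  obtain ⟨z, hz, hzv, hzne, g1, g2, g3, g4, g5, g6, g7⟩ := partner62 G hG hw.ws hin h7 hc2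
  have hzK : z ∈ kS G (ku G (sg G w)) := (mem_kS42 G).2 ⟨hz, g3⟩
  have hzs : z ≠ sg G w := fun he => nx_self62 G hz (by rw [g2, he])
  have hnK : nx G w ∈ kS G (ku G w) := nx_kS89 G hG hwK
  have hnw : nx G w ≠ w := nx_self62 G hw.ws
  have c1 := b2 z hzK hzs {sg G w, z} (by
    intro y hy
    rcases Finset.mem_insert.1 hy with h1 | h1
    · rw [h1]; exact hxK
    · rw [Finset.mem_singleton.1 h1]; exact hzK)
  rw [Finset.sum_pair hzs.symm] at c1
  have c2 := bal47 (S := kS G (ku G w)) (A := {w}) (B := {w, nx G w})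
    (D := Ds G al) (s := sp G al) (sum_Ds89 G hG _) (Finset.singleton_subset_iff.2 hwK)
    (by
      intro y hy
      rcases Finset.mem_insert.1 hy with h1 | h1
      · rw [h1]; exact hwK
      · rw [Finset.mem_singleton.1 h1]; exact hnK) (fun y hy _ => hw.neg y hy)
    (fun y hy hn => hw.strong y hy (fun he => hn (by rw [he]; exact Finset.mem_insert_self _ _)))
  rw [Finset.sum_pair hnw.symm, Finset.sum_singleton] at c2
  have d1 : Ds G al w ≤ - ep al := Ds_seven62 G hG hin h7 (by omega) hw.ws rfl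
  have d2 : Ds G al z ≤ - ep al := Ds_seven62 G hG hin h7 (by omega) hz hzv
  have s1 : 0 ≤ sp G al z := h.strong _ hxS z hzK
  have s2 : 0 ≤ sp G al (nx G w) := hw.strong _ hnK hnw
  refine ⟨z, (mem_Sv62 G).2 ⟨hz, hzv⟩, g2, g1, hzK, hzs, s1, by rw [g1]; exact s2, ?_⟩
  rw [g7]
  have h5 : sp G al w = gc G al w + gc G al (sg G w) - 1 := rfl
  have h6 : sp G al (sg G w) = gc G al (sg G w) + gc G al (sg G (sg G w)) - 1 := rfl
  have h8 : sp G al (sg G (sg G w)) = gc G al (sg G (sg G w)) +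
    gc G al (sg G (sg G (sg G w))) - 1 := rfl
  linarith

/-- the class of an item ending at a corner with three units is no pentagon with a weak side -/
theorem np_a47 {y t : V × V} (hP : Pen47 G al t) (hi : In47 G t y)
    (hu : 3 ≤ un G al (sg G (sg G y))) (hs : 0 ≤ sp G al y)
    (hm : 1 < (1 - gc G al y) + (1 - gc G al (sg G y)) + (1 - gc G al (sg G (sg G y)))) :
    0 ≤ sp G al t := by
  have hsum := hP.sum
  rcases hi with h | h | h | h | h
  · rw [← h]; exact hs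
  · rw [h, hP.u3] at hu; omega
  · rw [h] at hm
    unfold sp
    linarith
  · rw [h, hP.cyc, hP.u0] at hu; omega
  · rw [h, hP.cyc, hP.u1] at hu; omega

/-- the same, the item starts at the corner with three units -/
theorem np_b47 {z t : V × V} (hP : Pen47 G al t) (hi : In47 G t z)
    (hu : 3 ≤ un G al z) (hs : 0 ≤ sp G al (sg G z))
    (hm : 1 < (1 - gc G al z) + (1 - gc G al (sg G z)) + (1 - gc G al (sg G (sg G z)))) :
    0 ≤ sp G al t := by
  have hsum := hP.sum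
  rcases hi with h | h | h | h | h
  · rw [h, hP.u0] at hu; omega
  · rw [h, hP.u1] at hu; omega
  · rw [h] at hm
    unfold sp
    linarith
  · rw [h, hP.u3] at hu; omega
  · rw [h, hP.cyc] at hs; exact hs

/-- the units of a pentagon are at most three -/
theorem pen_le47 {z t : V × V} (hP : Pen47 G al t) (hi : In47 G t z) :
    un G al (sg G z) ≤ 3 := by
  rcases hi with h | h | h | h | h
  · rw [h, hP.u1]; omega
  · rw [h, hP.u2]
  · rw [h, hP.u3]; omega
  · rw [h, hP.u4]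
  · rw [h, hP.cyc, hP.u0]; omega

/-- the partner at the end of the weak side is itself a pentagon with 12 units and a weak side,
and has three units there -/
def Pp47 (al : ℝ) (z : V × V) : Prop :=
  un G al (sg G z) = 3 ∧ ∃ t, Pen47 G al t ∧ In47 G t z ∧ sp G al t < 0

/-- a point with at least eight units on a black face of the charged point `v` -/
def Pt47 (al : ℝ) (v : V) : Prop :=
  ∃ r ∈ Sv G v, ∃ s ∈ kS G (ku G r), s ≠ r ∧ s.2 ∈ inN G ∧ 8 ≤ uv G al s.2 ∧ Ds G al s ≤ 0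

/-- **the giver of a charged corner before the weak side** `w`; the charged corner is at the head
of the side `x = sg (sg (sg w))` from the apex `x.1` -/
theorem giver_a47 (hG : G.Geo4 al kp U) (he : ep al < 1 / 2) {w x : V × V}
    (hP : Pen47 G al w) (hw : WO62 G al w) (hx : x = sg G (sg G (sg G w))) (h : Ch47 G al x)
    (hr : ∀ z ∈ SD G, nx G z = w → rn G z ≤ 1) (hq : gc G al (sg G (sg G w)) ≤ 1)
    (hi1 : x.1 ∈ inN G) (hi2 : w.1 ∈ inN G) :
    Pt47 G al x.2 ∨
    (∃ z ∈ kS G (ku G w), z ≠ w ∧ nx G z = w ∧ Big47 G al z (sg G z)) ∨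
    ((∃ z ∈ kS G (ku G w), z ≠ w ∧ nx G z = w ∧ Pp47 G al z ∧ rn G z = 1 ∧ rn G (sg G x) = 1) ∧
      rn G x = 0 ∧ uv G al x.1 = 7 ∧
      (cv G x.1 = 3 ∨
       (cv G x.1 = 2 ∧ un G al (sg G (nx G x)) = 2 ∧ ∃ t ∈ Sv G x.1, sg G t = x ∧ rn G t = 3) ∨
       (∃ y ∈ Sv G x.2, sg G y = nx G x ∧ Big47 G al y (sg G (sg G y))))) := by
  have hep := ep_pos89 G hG
  have ew : sg G (sg G x) = w := by rw [hx]; exact hP.cyc
  have ew1 : (sg G x).2 = w.1 := by rw [← ew]; rfl
  have eu : un G al (sg G x) = 3 := by rw [hx]; exact hP.u4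
  have ea : un G al x = 2 := by rw [hx]; exact hP.u3
  obtain ⟨y', hy', z', hz', hxS, hyx, hzx, hzy, e1, e2, e3, ek, hys, hDD, hDy, hrn⟩ :=
    ch47 G hG h
  obtain ⟨hz1, hz2⟩ := (mem_Sv62 G).1 hz'
  obtain ⟨hy1, hy2⟩ := (mem_Sv62 G).1 hy'
  have hsK : sg G x ∈ kS G (ku G z') := (mem_kS42 G).2 ⟨hys, ek⟩
  have hzs : sg G x ≠ z' := fun he' => nx_self62 G hys (by rw [he', e3, he'])
  have hin : (sg G x).2 ∈ inN G := by rw [ew1]; exact hi2
  have hD0 := h.neg z' hz' _ hsK hzs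
  have hrz : rn G (sg G x) ≤ 1 := by
    have h1 := rn_le_tK63 G hG hys
    rw [ek, h.exact z' hz'] at h1
    omega
  rcases apex47 G hG he hys hin hD0 with h8 | ⟨h7, hc3⟩ | ⟨h7, hc2, t, ht, htne, f1, f2, f3, f4⟩
  · exact Or.inl ⟨z', hz', sg G x, hsK, hzs, hin, h8, hD0⟩
  · exfalso
    have hs5 : 3 ≤ gc G al x + gc G al (sg G x) + gc G al (sg G (sg G x)) +
        gc G al (sg G (sg G (sg G x))) + gc G al (sg G (sg G (sg G (sg G x)))) := by
      have := hP.sum
      rw [ew, hx]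
      linarith
    have := (partner_a47 G hG h (by rw [ew]; exact hw) hin h7 hs5 (by rw [ew]; exact hq)
      (by omega)).1
    omega
  have hs5 : 3 ≤ gc G al x + gc G al (sg G x) + gc G al (sg G (sg G x)) +
      gc G al (sg G (sg G (sg G x))) + gc G al (sg G (sg G (sg G (sg G x)))) := by
    have := hP.sum
    rw [ew, hx]
    linarith
  obtain ⟨-, z, hz, g1, g2, g3, g4, g5, g6, g7⟩ := partner_a47 G hG h (by rw [ew]; exact hw) hin
    h7 hs5 (by rw [ew]; exact hq) (by omega)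
  have hzt : z = t := nx_injSv89 G hG hz ht (by rw [g1, f2])
  subst hzt
  rw [ew] at g1 g3 g4 g7
  rw [ew, hP.u0, ← g2] at f4
  obtain ⟨hzS, hzv⟩ := (mem_Sv62 G).1 hz
  have hrz1 := hr z hzS g1
  have hu3 : 3 ≤ un G al (sg G z) := by omega
  have hmass : 1 < (1 - gc G al z) + (1 - gc G al (sg G z)) + (1 - gc G al (sg G (sg G z))) := by
    linarith
  have hz1' : (sg G z).1 = (sg G x).2 := hzv
  by_cases hnp : ∀ t, Pen47 G al t → In47 G t z → 0 ≤ sp G al t
  · refine Or.inr (Or.inl ⟨z, g3, g4, g1, ?_⟩)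
    exact ⟨by rw [hz1']; exact hin, by rw [hz1']; exact h7, by rw [hz1']; exact hc2, hu3,
      Or.inr (Or.inl rfl), g5, g6, hmass, hnp⟩
  push Not at hnp
  obtain ⟨t, ht1, ht2, ht3⟩ := hnp
  have hle3 := pen_le47 G ht1 ht2
  have hr0 : rn G z = 1 ∧ rn G (sg G x) = 1 ∧ un G al (sg G z) = 3 := by omega
  have hz'r : rn G z' = 1 := by
    have h1 := rn_le_tK63 G hG hys
    rw [ek, h.exact z' hz'] at h1
    omega
  have hx0 : rn G x = 0 := by omega
  obtain ⟨d1, d2, -, -, d3, d4⟩ := digon54 G hG h.xs hx0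
  have hxK : x ∈ kS G (ku G x) := (mem_kS42 G).2 ⟨h.xs, rfl⟩
  have hsx : (x.2, x.1) ∈ kS G (ku G x) := by
    rw [d2]
    exact Finset.mem_insert_of_mem (Finset.mem_singleton_self _)
  have hsne : (x.2, x.1) ≠ x := by rw [← d3]; exact nx_self62 G h.xs
  have hDs := h.neg x hxS _ hsx hsne
  have hnn : nx G (x.2, x.1) = x := by
    have h1 := (digon54 G hG d1 d4).2.2.2.2.1
    rw [h1]
  rcases apex47 G hG he d1 (by exact hi1) hDs with h8 | ⟨h7', hc3⟩ |
      ⟨h7', hc2', s, hs, hsne', k1, k2, k3, k4⟩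
  · exact Or.inl ⟨x, hxS, _, hsx, hsne, hi1, h8, hDs⟩
  · exact Or.inr (Or.inr ⟨⟨z, g3, g4, g1, ⟨hr0.2.2, t, ht1, ht2, ht3⟩, hr0.1, hr0.2.1⟩, hx0, h7',
      Or.inl hc3⟩)
  refine Or.inr (Or.inr ⟨⟨z, g3, g4, g1, ⟨hr0.2.2, t, ht1, ht2, ht3⟩, hr0.1, hr0.2.1⟩, hx0, h7',
    Or.inr ?_⟩)
  rw [hnn] at k1 k3 k4
  rw [ea, d4] at k4
  rw [← d3] at k3 k4
  rcases Nat.lt_or_ge (un G al (sg G (nx G x))) 3 with hu2 | hu3'
  · left
    have hge : 2 ≤ un G al (sg G (nx G x)) := by
      have := sg_Bv89 G hG (v := x.1) hi1 ((mem_Sv62 G).2 ⟨d1, rfl⟩)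
      rw [d3]
      exact un_ge46 G ((mem_Bv62 G).1 this).1
    exact ⟨hc2', by omega, s, hs, k1, by omega⟩
  · right
    refine ⟨y', hy', e1, ?_⟩
    have hyK : y' ∈ kS G (ku G y') := (mem_kS42 G).2 ⟨hy1, rfl⟩
    have c1 := bal47 (S := kS G (ku G y')) (A := {y'}) (B := {y'}) (D := Ds G al)
      (s := sp G al) (sum_Ds89 G hG _) (Finset.singleton_subset_iff.2 hyK)
      (Finset.singleton_subset_iff.2 hyK)
      (fun y hy hn => h.neg y' hy' y hy (fun he => hn (Finset.mem_singleton.2 he)))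
      (fun y hy _ => h.strong y' hy' y hy)
    rw [Finset.sum_singleton, Finset.sum_singleton, hDy] at c1
    have s0 : 0 ≤ sp G al x := h.strong x hxS x hxK
    have s1 : 0 ≤ sp G al y' := h.strong y' hy' y' hyK
    have s2 : 0 ≤ sp G al (nx G x) := h.strong x hxS _ (nx_kS89 G hG hxK)
    have hm : 1 < (1 - gc G al y') + (1 - gc G al (sg G y')) +
        (1 - gc G al (sg G (sg G y'))) := by
      rw [← e1] at k3
      unfold sp at s0 c1
      linarith
    have hu3'' : 3 ≤ un G al (sg G (sg G y')) := by rw [e1]; exact hu3'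
    have hp1 : (sg G (sg G y')).1 = x.1 := by
      rw [e1, d3]
      rfl
    exact ⟨by rw [hp1]; exact hi1, by rw [hp1]; exact h7', by rw [hp1]; exact hc2', hu3'',
      Or.inr (Or.inr rfl), s1, by rw [e1]; exact s2, hm,
      fun t ht hit => np_a47 G ht hit hu3'' s1 hm⟩

/-- **the giver of a charged corner after the weak side** `w`; the charged corner is at the head
of the side `sg w`, the apex is the head of `sg (sg w)` -/
theorem giver_b47 (hG : G.Geo4 al kp U) (he : ep al < 1 / 2) {w : V × V}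
    (hP : Pen47 G al w) (hw : WO62 G al w) (h : Ch47 G al (sg G w))
    (hr : rn G w ≤ 1)
    (hq : gc G al (sg G (sg G (sg G (sg G w)))) ≤ 1)
    (hi1 : (sg G (sg G w)).2 ∈ inN G) (hi2 : w.2 ∈ inN G) :
    Pt47 G al (sg G w).2 ∨
    (∃ z ∈ kS G (ku G (sg G w)), z ≠ sg G w ∧ nx G z = sg G w ∧ sg G z = nx G w ∧
      Big47 G al z (sg G z)) ∨
    ((∃ z ∈ kS G (ku G (sg G w)), z ≠ sg G w ∧ nx G z = sg G w ∧ sg G z = nx G w ∧
        Pp47 G al z ∧ rn G z = 1 ∧ rn G w = 1) ∧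
      rn G (sg G (sg G w)) = 0 ∧ uv G al (sg G (sg G w)).2 = 7 ∧
      (cv G (sg G (sg G w)).2 = 3 ∨
       (cv G (sg G (sg G w)).2 = 2 ∧ un G al (nx G (sg G (sg G w))) = 2 ∧
        ∃ t ∈ Sv G (sg G (sg G w)).2, nx G t = sg G (sg G (sg G w)) ∧ rn G t = 3) ∨
       Big47 G al (nx G (sg G (sg G w))) (nx G (sg G (sg G w))))) := by
  have hep := ep_pos89 G hG
  obtain ⟨y', hy', z', hz', hxS, hyx, hzx, hzy, e1, e2, e3, ek, hys, hDD, hDy, hrn⟩ :=
    ch47 G hG h
  obtain ⟨hz1, hz2⟩ := (mem_Sv62 G).1 hz'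
  obtain ⟨hy1, hy2⟩ := (mem_Sv62 G).1 hy'
  rw [hP.u2] at hrn
  have hxK : sg G w ∈ kS G (ku G (sg G w)) := (mem_kS42 G).2 ⟨h.xs, rfl⟩
  -- the sector at `w.2` on the face behind `sg w`
  obtain ⟨z, hzS, hzn⟩ := nx_surj42 G hG h.xs
  have hzv : z.2 = w.2 := by
    have h1 : (nx G z).1 = (sg G w).1 := by rw [hzn]
    exact h1
  have hzk := (nx_mem42 G hG ((mem_SD42 G).1 hzS).1).2
  rw [hzn] at hzk
  have hzK : z ∈ kS G (ku G (sg G w)) := (mem_kS42 G).2 ⟨hzS, hzk.symm⟩
  have hzne : z ≠ sg G w := fun he' => nx_self62 G hzS (by rw [hzn, he'])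
  have hDz := h.neg _ hxS z hzK hzne
  have hzin : z.2 ∈ inN G := by rw [hzv]; exact hi2
  have hrz : rn G z ≤ rn G (sg G w) := by
    have h1 := rn_le_tK63 G hG hzS
    rw [← hzk, h.exact _ hxS] at h1
    exact h1
  have hwS : w ∈ Sv G w.2 := (mem_Sv62 G).2 ⟨hw.ws, rfl⟩
  have hs5 := hP.sum
  rcases apex47 G hG he hzS hzin hDz with h8 | ⟨h7, hc3⟩ | ⟨h7, hc2, t, ht, htne, f1, f2, f3, f4⟩
  · exact Or.inl ⟨_, hxS, z, hzK, hzne, hzin, h8, hDz⟩
  · exfalso
    rw [hzv] at h7 hc3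
    have := (partner_b47 G hG h hw hi2 h7 hs5 hq (by omega)).1
    omega
  rw [hzv] at h7 hc2 ht
  obtain ⟨-, z2, hz2', g1, g2, g3, g4, g5, g6, g7⟩ := partner_b47 G hG h hw hi2 h7 hs5 hq
    (by omega)
  have hzz : z2 = z := nx_inj42 G hG ((mem_Sv62 G).1 hz2').1 hzS (by rw [g1, hzn])
  subst hzz
  have htw : t = w := sg_injSv89 G hG hi2 ht hwS (by rw [f1, hzn])
  subst htw
  rw [hzn, hP.u1] at f4
  have hu3 : 3 ≤ un G al (sg G z2) := by omega
  have hmass : 1 < (1 - gc G al z2) + (1 - gc G al (sg G z2)) +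
      (1 - gc G al (sg G (sg G z2))) := by
    linarith
  have hz1' : (sg G z2).1 = t.2 := hzv
  by_cases hnp : ∀ t', Pen47 G al t' → In47 G t' z2 → 0 ≤ sp G al t'
  · refine Or.inr (Or.inl ⟨z2, g3, g4, g1, g2, ?_⟩)
    exact ⟨by rw [hz1']; exact hi2, by rw [hz1']; exact h7, by rw [hz1']; exact hc2, hu3,
      Or.inr (Or.inl rfl), g5, g6, hmass, hnp⟩
  push Not at hnp
  obtain ⟨t', ht1, ht2, ht3⟩ := hnp
  have hle3 := pen_le47 G ht1 ht2
  have hr0 : rn G z2 = 1 ∧ rn G t = 1 ∧ un G al (sg G z2) = 3 := by omega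
  have hz'0 : rn G z' = 0 := by omega
  obtain ⟨d1, d2, -, -, d3, d4⟩ := digon54 G hG hz1 hz'0
  rw [e3] at d3
  -- `z' = nx (sg (sg w))`, the digon
  set l := sg G (sg G t) with hl
  have hl1 : (z'.2, z'.1) = l := d3.symm
  have hlS : l ∈ SD G := hys
  have hl0 : rn G l = 0 := by rw [← hl1]; exact d4
  have hlv : l.2 = z'.1 := by rw [← hl1]
  have hlz : nx G l = z' := by
    have h1 := (digon54 G hG hlS hl0).2.2.2.2.1
    rw [h1, ← hl1]
  have hlK : l ∈ kS G (ku G z') := (mem_kS42 G).2 ⟨hlS, ek⟩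
  have hlne : l ≠ z' := fun he' => nx_self62 G hlS (by rw [hlz, ← he'])
  have hDl := h.neg z' hz' l hlK hlne
  have hzK' : z' ∈ kS G (ku G z') := (mem_kS42 G).2 ⟨hz1, rfl⟩
  rcases apex47 G hG he hlS hi1 hDl with h8 | ⟨h7', hc3⟩ |
      ⟨h7', hc2', s, hs, hsne', k1, k2, k3, k4⟩
  · exact Or.inl ⟨z', hz', l, hlK, hlne, hi1, h8, hDl⟩
  · exact Or.inr (Or.inr ⟨⟨z2, g3, g4, g1, g2, ⟨hr0.2.2, t', ht1, ht2, ht3⟩, hr0.1, hr0.2.1⟩,
      hl0, h7', Or.inl hc3⟩)
  refine Or.inr (Or.inr ⟨⟨z2, g3, g4, g1, g2, ⟨hr0.2.2, t', ht1, ht2, ht3⟩, hr0.1, hr0.2.1⟩,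
    hl0, h7', Or.inr ?_⟩)
  have ua : un G al (sg G l) = 2 := hP.u3
  rw [ua, hl0] at k4
  rcases Nat.lt_or_ge (un G al (nx G l)) 3 with hu2 | hu3'
  · left
    have hge : 2 ≤ un G al (nx G l) := by
      have := nx_Bv89 G hG (v := l.2) hi1 ((mem_Sv62 G).2 ⟨hlS, rfl⟩)
      exact un_ge46 G ((mem_Bv62 G).1 this).1
    exact ⟨hc2', by omega, s, hs, k2, by omega⟩
  · right
    have hny : nx G y' ∈ kS G (ku G y') := nx_kS89 G hG ((mem_kS42 G).2 ⟨hy1, rfl⟩)
    have hyK : y' ∈ kS G (ku G y') := (mem_kS42 G).2 ⟨hy1, rfl⟩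
    have c1 := bal47 (S := kS G (ku G y')) (A := {y'}) (B := {nx G y'}) (D := Ds G al)
      (s := sp G al) (sum_Ds89 G hG _) (Finset.singleton_subset_iff.2 hyK)
      (Finset.singleton_subset_iff.2 hny)
      (fun y hy hn => h.neg y' hy' y hy (fun he => hn (Finset.mem_singleton.2 he)))
      (fun y hy _ => h.strong y' hy' y hy)
    rw [Finset.sum_singleton, Finset.sum_singleton, hDy, ← e2] at c1
    have s0 : 0 ≤ sp G al l := h.strong z' hz' l hlK
    have s1 : 0 ≤ sp G al z' := h.strong z' hz' z' hzK'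
    have s2 : 0 ≤ sp G al (sg G z') := by rw [e2]; exact h.strong y' hy' _ hny
    rw [hlz] at k3 hu3' ⊢
    have hm : 1 < (1 - gc G al z') + (1 - gc G al (sg G z')) +
        (1 - gc G al (sg G (sg G z'))) := by
      unfold sp at s0 c1
      linarith
    have hp1 : z'.1 = l.2 := hlv.symm
    exact ⟨by rw [hp1]; exact hi1, by rw [hp1]; exact h7', by rw [hp1]; exact hc2', hu3',
      Or.inl rfl, s1, s2, hm, fun t ht hit => np_b47 G ht hit hu3' s2 hm⟩

end

end Pool.Agent.PEN.E5
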