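import Pool.Agent.E5.Hf19
import Pool.Agent.P4.PentAdj39
import Pool.Agent.E5.Fg46

/-! # PENNY: a hexagon face has no two weak sides at a corner of four units -/

set_option autoImplicit false

namespace Pool.Agent.PEN.E5

open Classical UpperHalfPlane
open Pool.Agent.PEN.Cl

noncomputable section

section conc
variable {G : Tg ℍ} {d : ℝ} {kp : ℍ → ℍ → ℝ} {U : ℕ → ℝ}

/-- a corner larger than `3 α` of a hexagon face and its two neighbours -/
theorem hex4_71 (hG : G.Geo4 (alpha d) kp U) (hD : DelG G d) (hS : Sep d G.P)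
    {C : G.adj.ConnectedComponent} (hC : C ∈ WF G) (hd6 : (G.cI C).card + 2 = 2 * (G.cT C).card)
    (h6 : (G.cJ C).card = 6) {x : ℍ × ℍ} (hx : x ∈ G.cJ C) (h : 3 * alpha d < TH G x) :
    2 * TH G x + TH G (sg G x) + TH G (sg G (sg G (sg G (sg G (sg G x))))) ≤
      10 * alpha d := by
  have hCi := ((mem_WF89 G).1 hC).1
  have hd := hD.hd
  have hal := alpha_lt hd
  have hal0 := alpha_pos hd
  have hp := Real.pi_pos
  obtain ⟨v0, v1⟩ := x
  obtain ⟨v2, v3, v4, v5, g0, g1, g2, g3, g4, g5, hset⟩ := hex_pts19 hG hC hd6 h6 hx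
  have x0 := hx
  have x1 := sg_cJ90 G hG hCi x0
  rw [g0] at x1
  have x2 := sg_cJ90 G hG hCi x1
  rw [g1] at x2
  have x3 := sg_cJ90 G hG hCi x2
  rw [g2] at x3
  have x4 := sg_cJ90 G hG hCi x3
  rw [g3] at x4
  have x5 := sg_cJ90 G hG hCi x4
  rw [g4] at x5
  obtain ⟨P0, P1, d0⟩ := side63 hD x0
  obtain ⟨-, P2, d1⟩ := side63 hD x1
  obtain ⟨-, P3, d2⟩ := side63 hD x2
  obtain ⟨-, P4, d3⟩ := side63 hD x3
  obtain ⟨-, P5, d4⟩ := side63 hD x4
  have d5 := (side63 hD x5).2.2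
  dsimp only at P0 P1 P2 P3 P4 P5 d0 d1 d2 d3 d4 d5
  have i0 := (cJ_iJ51 G hCi x0).1
  have i4 := (cJ_iJ51 G hCi x4).1
  -- the neighbours
  have n1 : TH G (v1, v2) < 2 * alpha d := by
    by_contra hc
    push Not at hc
    have := six_before63 hG hD hS hC hd6 h6 x0 (by rw [g0]; exact hc)
    linarith
  have n5 : TH G (v5, v0) < 2 * alpha d := by
    by_contra hc
    push Not at hc
    have := six_after63 hG hD hS hC hd6 h6 x5 hc
    rw [g5] at this
    linarith
  -- the four sides seen from `v0`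
  obtain ⟨F, hF⟩ : ∃ F, F = (G.cJ C).filter (fun y => y.1 ≠ v0 ∧ y.2 ≠ v0) := ⟨_, rfl⟩
  have hv := TH_vis_ang19 hG hD hS hCi x0
  dsimp only at hv
  rw [← hF] at hv
  have hle : ∀ y ∈ F, ang v0 y.1 y.2 ≤ alpha d := by
    intro y hy
    rw [hF, Finset.mem_filter] at hy
    obtain ⟨q1, q2, q3⟩ := side63 hD hy.1
    exact (abs_le.1 (visual66 hd q3 (hS v0 P0 _ q1 (Ne.symm hy.2.1))
      (hS v0 P0 _ q2 (Ne.symm hy.2.2)))).2
  have hFc : ∀ y, (∑ z ∈ F.erase y, ang v0 z.1 z.2) ≤ (F.erase y).card * alpha d := by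
    intro y
    rw [← nsmul_eq_mul]
    exact Finset.sum_le_card_nsmul _ _ _ fun z hz => hle z (Finset.mem_of_mem_erase hz)
  obtain ⟨T, hT⟩ : ∃ T : Finset (ℍ × ℍ), T = {(v1, v2), (v2, v3), (v3, v4), (v4, v5)} := ⟨_, rfl⟩
  have hFT : F ⊆ T := by
    intro y hy
    rw [hF, Finset.mem_filter, hset] at hy
    obtain ⟨hy, hy1, hy2⟩ := hy
    rw [hT]
    simp only [Finset.mem_insert, Finset.mem_singleton] at hy ⊢
    rcases hy with e | e | e | e | e | e
    · exact absurd (by rw [e]) hy1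
    · exact Or.inl e
    · exact Or.inr (Or.inl e)
    · exact Or.inr (Or.inr (Or.inl e))
    · exact Or.inr (Or.inr (Or.inr e))
    · exact absurd (by rw [e]) hy2
  have hTc : T.card ≤ 4 := by
    rw [hT]
    exact Finset.card_le_four
  have hFle := Finset.card_le_card hFT
  have hFs : (∑ z ∈ F, ang v0 z.1 z.2) ≤ F.card * alpha d := by
    rw [← nsmul_eq_mul]
    exact Finset.sum_le_card_nsmul _ _ _ fun z hz => hle z hz
  have hF4 : F.card = 4 := by
    have h1 : 3 * alpha d < F.card * alpha d := lt_of_lt_of_le h (hv.trans hFs)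
    have h2 : (3 : ℝ) < F.card := lt_of_mul_lt_mul_right h1 hal0.le
    have h3 : 3 < F.card := by exact_mod_cast h2
    omega
  have hFe : F = T := Finset.eq_of_subset_of_card_le hFT (by omega)
  have pos : ∀ y ∈ F, 0 < ang v0 y.1 y.2 := by
    intro y hy
    have h1 := Finset.add_sum_erase F (fun z => ang v0 z.1 z.2) hy
    have h2 := hFc y
    rw [Finset.card_erase_of_mem hy, hF4] at h2
    push_cast at h2
    linarith
  have m1 : (v1, v2) ∈ F := by rw [hFe, hT]; simp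
  have m2 : (v2, v3) ∈ F := by rw [hFe, hT]; simp
  have m3 : (v3, v4) ∈ F := by rw [hFe, hT]; simp
  have m4 : (v4, v5) ∈ F := by rw [hFe, hT]; simp
  have p1 := pos _ m1
  have p4 := pos _ m4
  have l1 := hle _ m1
  have l2 := hle _ m2
  have l3 := hle _ m3
  have l4 := hle _ m4
  have m1' := m1
  have m2' := m2
  have m3' := m3
  have m4' := m4
  rw [hF, Finset.mem_filter] at m1' m2' m3' m4'
  dsimp only at p1 p4 l1 l2 l3 l4 m1' m2' m3' m4'
  have n01 : v1 ≠ v0 := m1'.2.1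
  have n02 : v2 ≠ v0 := m1'.2.2
  have n04 : v4 ≠ v0 := m3'.2.2
  have n05 : v5 ≠ v0 := m4'.2.2
  have r2 := hS v0 P0 v2 P2 n02.symm
  have r4 := hS v0 P0 v4 P4 n04.symm
  have n12 : v2 ≠ v1 := ne63 hd d1.ge
  have n45 : v5 ≠ v4 := ne63 hd d4.ge
  have ori_of : ∀ {a b : ℍ}, a ≠ v0 → b ≠ v0 → 0 < ang v0 a b → ang v0 a b ≤ alpha d →
      0 < ori (kl v0) (kl a) (kl b) := fun ha hb h1 h2 =>
    (ori_sin63 ha hb).2 (Real.sin_pos_of_pos_of_lt_pi h1 (by linarith))
  have o1 := ori_of n01 n02 p1 l1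
  have o4 := ori_of n04 n05 p4 l4
  have z1 : 0 < ang v1 v2 v0 := ang_pos63 n12 n01.symm (by rw [ori_cyc63]; exact o1)
  have z8 : 0 < ang v5 v0 v4 := ang_pos63 n05.symm n45.symm (by rw [← ori_cyc63]; exact o4)
  -- the corners
  have T0 : ∀ {y : ℍ × ℍ}, y ∈ G.cJ C → alpha d ≤ TH G y ∧ TH G y < 2 * Real.pi := by
    intro y hy
    have h1 := TH_ge19 hG hD hS (cJ_iJ51 G hCi hy).1
    have h2 := TH_vis19 hG hD hS hCi hy
    rw [h6] at h2
    push_cast at h2
    exact ⟨by linarith, by linarith⟩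
  have k1 := TH_coe19 hG hD i0
  rw [g0] at k1
  have k5 := TH_coe19 hG hD i4
  rw [g4] at k5
  dsimp only at k1 k5
  have lpi : ∀ v a b : ℍ, ang v a b ≤ Real.pi := fun v a b => Complex.arg_le_pi _
  have E1 := coe_eq19 k1 (by linarith [(T0 x1).1]) (T0 x1).2 z1 (by linarith [lpi v1 v2 v0])
  have E5 := coe_eq19 k5 (by linarith [(T0 x5).1]) (T0 x5).2 z8 (by linarith [lpi v5 v0 v4])
  -- the two isosceles triangles
  have a1 := cosh_law (v := v1) (a := v2) (b := v0) n12 n01.symm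
  rw [dist_comm v2 v0, dist_comm v1 v0] at a1
  have b1 := cosh_law (v := v0) (a := v1) (b := v2) n01 n02
  have a5 := cosh_law (v := v5) (a := v0) (b := v4) n05.symm n45.symm
  have b5 := cosh_law (v := v0) (a := v4) (b := v5) n04 n05
  have d5' : dist v0 v5 = d := by rw [dist_comm]; exact d5
  have d4' : dist v5 v4 = d := by rw [dist_comm]; exact d4
  rw [d1, d0] at a1
  rw [d0, d1] at b1
  rw [d5, d4'] at a5
  rw [d4, d5'] at b5
  have I1 := isoA_sum39 (γ := ang v1 v2 v0) (β := ang v0 v1 v2) hd r2 a1 (by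
    unfold Penny39.Cos
    linarith) (by rw [← E1]; exact (T0 x1).1) (by rw [← E1]; exact n1.le) p1.le
    (by linarith [lpi v0 v1 v2])
  have I5 := isoA_sum39 (γ := ang v5 v0 v4) (β := ang v0 v4 v5) hd r4 (by
    unfold Penny39.Cos
    rw [dist_comm v0 v4] at a5 ⊢
    linarith) (by
    unfold Penny39.Cos
    linarith) (by rw [← E5]; exact (T0 x5).1) (by rw [← E5]; exact n5.le) p4.le
    (by linarith [lpi v0 v4 v5])
  have hs : (∑ z ∈ F, ang v0 z.1 z.2) ≤ ang v0 v1 v2 + alpha d + alpha d + ang v0 v4 v5 := by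
    rw [← Finset.add_sum_erase F (fun z => ang v0 z.1 z.2) m1]
    have q4 : (v4, v5) ∈ F.erase (v1, v2) := Finset.mem_erase.2 ⟨fun e => by
      have h1 : T.card ≤ 3 := by
        rw [hT, e, Finset.insert_eq_of_mem (by simp)]
        exact Finset.card_le_three
      rw [← hFe] at h1
      omega, m4⟩
    rw [← Finset.add_sum_erase _ (fun z => ang v0 z.1 z.2) q4]
    have hc : ((F.erase (v1, v2)).erase (v4, v5)).card = 2 := by
      rw [Finset.card_erase_of_mem q4, Finset.card_erase_of_mem m1, hF4]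
    have hr : (∑ z ∈ (F.erase (v1, v2)).erase (v4, v5), ang v0 z.1 z.2) ≤ 2 * alpha d := by
      have := Finset.sum_le_card_nsmul ((F.erase (v1, v2)).erase (v4, v5))
        (fun z => ang v0 z.1 z.2) (alpha d)
        fun z hz => hle z (Finset.mem_of_mem_erase (Finset.mem_of_mem_erase hz))
      rw [hc, nsmul_eq_mul] at this
      exact_mod_cast this
    dsimp only at hr ⊢
    linarith
  rw [g0, g1, g2, g3, g4, E1, E5]
  linarith

/-- **no two weak sides at a corner of four units of a hexagon face** -/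
theorem hex4_sp71 (hG : G.Geo4 (alpha d) kp U) (hD : DelG G d) (hS : Sep d G.P)
    {C : G.adj.ConnectedComponent} (hC : C ∈ WF G) (hd6 : (G.cI C).card + 2 = 2 * (G.cT C).card)
    (h6 : (G.cJ C).card = 6) {x : ℍ × ℍ} (hx : x ∈ G.cJ C)
    (ux : un G (alpha d) (sg G x) = 4) :
    0 ≤ sp G (alpha d) x + sp G (alpha d) (sg G x) := by
  have hCi := ((mem_WF89 G).1 hC).1
  have hal0 := alpha_pos hD.hd
  obtain ⟨hset, hcyc⟩ := six90 G hG hC hd6 h6 hx
  have x1 := sg_cJ90 G hG hCi hx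
  have x2 := sg_cJ90 G hG hCi x1
  have hbig : 3 * alpha d < TH G (sg G x) := by
    have := un_gt63 hG (m := 3) (x := sg G x) (by norm_num) (by omega)
    push_cast at this
    exact this
  have h1 := hex4_71 hG hD hS hC hd6 h6 x1 hbig
  rw [hcyc] at h1
  have u0 := un_ge_WF46 (al := alpha d) G hC hx
  have u2 := un_ge_WF46 (al := alpha d) G hC x2
  have u0' : (2 : ℝ) ≤ un G (alpha d) x := by exact_mod_cast u0
  have u2' : (2 : ℝ) ≤ un G (alpha d) (sg G (sg G x)) := by exact_mod_cast u2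
  have t0 := TH_gc19 G hG x
  have t1 := TH_gc19 G hG (sg G x)
  have t2 := TH_gc19 G hG (sg G (sg G x))
  rw [ux] at t1
  push_cast at t1
  rw [t0, t1, t2] at h1
  have h2 : (2 * (4 - gc G (alpha d) (sg G x)) + (un G (alpha d) (sg G (sg G x)) -
      gc G (alpha d) (sg G (sg G x))) + (un G (alpha d) x - gc G (alpha d) x)) * alpha d ≤
      10 * alpha d := by linarith
  have h3 := le_of_mul_le_mul_right h2 hal0
  unfold sp
  linarith

end conc

end

end Pool.Agent.PEN.E5
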