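import Pool.Agent.E5.Hx49
import Pool.Agent.E5.Dd15
import Pool.Agent.E5.Ce18
import Pool.Agent.E5.HH63

/-! # PENNY, all small diameters: the hexagons with seventeen units in the set B6, cases A, B, C -/

set_option autoImplicit false

namespace Pool.Agent.PEN.E5

open Classical UpperHalfPlane
open Pool.Agent.PEN.Cl

noncomputable section

variable {V : Type} (G : Tg V) {al : ℝ} {kp : V → V → ℝ} {U : ℕ → ℝ}

/-! ## the face behind a side at an inner corner -/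

theorem cl_cJ49 {C : G.adj.ConnectedComponent} (hC : C ∈ WF G) {y : V × V} (hy : y ∈ G.cJ C) :
    G.cl y = C := (cJ_iJ51 G ((mem_WF89 G).1 hC).1 hy).2

theorem Exc.inner49 {K : (cg G).ConnectedComponent} (h : Exc G al K) :
    ∀ y ∈ kS G K, y.2 ∈ inN G := by
  obtain ⟨x, h | h | h⟩ := h
  · exact h.2.2.2.2
  · exact h.2.2.2.2
  · exact h.2.2.2.2

theorem uK_inner49 {K : (cg G).ConnectedComponent} (h : ∀ y ∈ kS G K, y.2 ∈ inN G) :
    uK14 G al K = 0 := by
  unfold uK14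
  rw [Finset.filter_eq_empty_iff.2 (fun y hy h2 => h2 (h y hy)), Finset.sum_empty]

/-- the head of a side of an exceptional face is inner, and the side is a sector there -/
theorem Exc.sec49 {y : V × V} (hy : y ∈ SD G) (h : Exc G al (ku G y)) :
    y.2 ∈ inN G ∧ y ∈ Sv G y.2 :=
  ⟨h.inner49 G y ((mem_kS42 G).2 ⟨hy, rfl⟩), (mem_Sv89 G).2 ⟨hy, rfl⟩⟩

/-- **both sides at a leaf corner of a class of mass one lie in a face which is not exceptional** -/
theorem leaf_nexc49 (hG : G.Geo4 al kp U) (h1 : ∀ x ∈ iJ G, gc G al x ≤ 1)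
    {C : G.adj.ConnectedComponent} (hC : C ∈ WF G)
    (hm : (G.cJ C).card + 3 * (G.cT C).card < uf G al C + 2) {y : V × V}
    (hy : y ∈ BC G) (hyC : sg G y ∈ G.cJ C) (hl : (sg G y).1 ∈ lfN G) :
    ¬ Exc G al (ku G y) ∧ ¬ Exc G al (ku G (sg G y)) := by
  obtain ⟨hv, hc⟩ := (mem_lfN15 G).1 hl
  have hyS := BC_SD14 G hy
  have hy2 : (sg G y).1 = y.2 := rfl
  rw [hy2] at hv hc
  have hnx : nx G y = sg G y := ((sg_nx_iff89 G hG hv hyS rfl).2 hc).symm
  have hk : ku G (sg G y) = ku G y := by rw [← hnx]; exact (nx_ku63 G hG hyS).2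
  rw [hk]
  have hyL : y ∈ Lv G (ku G y) := (mem_Lv15 G).2 ⟨(mem_kS42 G).2 ⟨hyS, rfl⟩, hv, hc⟩
  have key : ¬ Exc G al (ku G y) := by
    intro hE
    have hin := hE.inner49 G
    obtain ⟨x, h | h | h⟩ := hE
    · have hx : y = x := by
        have := hyL
        rw [h.1, Finset.mem_singleton] at this
        exact this
      subst hx
      have := single_no2 G hG h1 h.1 h.2.1 h.2.2.1
        (by rw [uK_inner49 G hin]; norm_num) hC hyC
      omega
    · rw [h.1] at hyL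
      exact absurd hyL (Finset.notMem_empty _)
    · rw [h.1] at hyL
      exact absurd hyL (Finset.notMem_empty _)
  exact ⟨key, key⟩

variable {G} {C : G.adj.ConnectedComponent} {x : V × V}

theorem P17.bc (h : P17 G al C x) {y : V × V} (hy : y ∈ G.cJ C) : y ∈ BC G :=
  BC_of_WF46 G h.wf hy

theorem P17.cls (h : P17 G al C x) (hI : (G.cI C).card = 6) : H17c G al C :=
  ⟨h.wf, h.cT, hI, h.uf⟩

theorem P17.nleaf (h : P17 G al C x) (hG : G.Geo4 al kp U) (h1 : ∀ x ∈ iJ G, gc G al x ≤ 1)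
    {y : V × V} (hy : y ∈ G.cJ C) (hyC : sg G y ∈ G.cJ C) (hl : (sg G y).1 ∈ lfN G) :
    ¬ Exc G al (ku G y) ∧ ¬ Exc G al (ku G (sg G y)) := by
  refine leaf_nexc49 G hG h1 h.wf ?_ (h.bc hy) hyC hl
  rw [h.c6, h.cT, h.uf]
  norm_num

/-- membership in `GH` of the four sides `e1 .. e4` -/
theorem P17.gh (h : P17 G al C x) (hI : (G.cI C).card = 6) {y : V × V}
    (hy : y = sg G x ∨ y = sg G (sg G x) ∨ y = sg G (sg G (sg G x)) ∨
      y = sg G (sg G (sg G (sg G x)))) (he : ¬ Exc G al (ku G y)) : y ∈ GH G al := by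
  have hyC : y ∈ G.cJ C := by
    rcases hy with rfl | rfl | rfl | rfl
    · exact h.x1
    · exact h.x2
    · exact h.x3
    · exact h.x4
  have hcl := cl_cJ49 G h.wf hyC
  unfold GH
  refine Finset.mem_filter.2 ⟨h.bc hyC, ?_, he⟩
  unfold gH
  rw [hcl]
  exact ⟨h.cls hI, x, h.x0, h.u0, Or.inl hy⟩

/-- membership in `GH` of all sides, if `v0` is a leaf -/
theorem P17.gh0 (h : P17 G al C x) (hI : (G.cI C).card = 6) {y : V × V} (hyC : y ∈ G.cJ C)
    (hl : x.1 ∈ lfN G) (he : ¬ Exc G al (ku G y)) : y ∈ GH G al := by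
  have hcl := cl_cJ49 G h.wf hyC
  unfold GH
  refine Finset.mem_filter.2 ⟨h.bc hyC, ?_, he⟩
  unfold gH
  rw [hcl]
  exact ⟨h.cls hI, x, h.x0, h.u0, Or.inr hl⟩

/-- the count of the sides in a set -/
theorem P17.cC (h : P17 G al C x) (S : Finset (V × V)) :
    cC15 G S C = (if x ∈ S then 1 else 0) + ((if sg G x ∈ S then 1 else 0) +
      ((if sg G (sg G x) ∈ S then 1 else 0) + ((if sg G (sg G (sg G x)) ∈ S then 1 else 0) +
      ((if sg G (sg G (sg G (sg G x))) ∈ S then 1 else 0) +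
      (if sg G (sg G (sg G (sg G (sg G x)))) ∈ S then 1 else 0))))) := by
  unfold cC15
  rw [Finset.card_filter, h.sum (fun y => if y ∈ S then 1 else 0)]

/-- the units to be paid by the leaf corners -/
theorem P17.lsum (h : P17 G al C x) :
    ∑ y ∈ (G.cJ C).filter (fun y => y.1 ∈ lfN G), ((un G al y : ℝ) - 2) =
      (if x.1 ∈ lfN G then 2 else 0) + ((if (sg G (sg G x)).1 ∈ lfN G then 1 else 0) +
      ((if (sg G (sg G (sg G x))).1 ∈ lfN G then 1 else 0) +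
      (if (sg G (sg G (sg G (sg G x)))).1 ∈ lfN G then 1 else 0))) := by
  rw [Finset.sum_filter, h.sum (fun y => if y.1 ∈ lfN G then ((un G al y : ℝ) - 2) else 0),
    h.u0, h.u1, h.u2, h.u3, h.u4, h.u5]
  split_ifs <;> norm_num

/-- **cases A and B**: the leaf corners are paid by the good sides, and if one of the sides
`e1 .. e4` lies in a face which is not exceptional, one unit is left -/
theorem P17.ab49 (h : P17 G al C x) (hG : G.Geo4 al kp U) (h1 : ∀ x ∈ iJ G, gc G al x ≤ 1)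
    (hI : (G.cI C).card = 6) :
    (∑ y ∈ (G.cJ C).filter (fun y => y.1 ∈ lfN G), ((un G al y : ℝ) - 2) ≤
      cC15 G (GH G al) C) ∧
    ((¬ Exc G al (ku G (sg G x)) ∨ ¬ Exc G al (ku G (sg G (sg G x))) ∨
      ¬ Exc G al (ku G (sg G (sg G (sg G x)))) ∨
      ¬ Exc G al (ku G (sg G (sg G (sg G (sg G x)))))) →
      ∑ y ∈ (G.cJ C).filter (fun y => y.1 ∈ lfN G), ((un G al y : ℝ) - 2) + 1 ≤
        cC15 G (GH G al) C) := by
  rw [h.lsum, h.cC]
  have k0 : x.1 ∈ lfN G → x ∈ GH G al ∧ sg G (sg G (sg G (sg G (sg G x)))) ∈ GH G al := by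
    intro hl
    have e := h.nleaf hG h1 h.x5 (by rw [h.cyc]; exact h.x0) (by rw [h.cyc]; exact hl)
    rw [h.cyc] at e
    exact ⟨h.gh0 hI h.x0 hl e.2, h.gh0 hI h.x5 hl e.1⟩
  have k1 := h.gh hI (y := sg G x) (Or.inl rfl)
  have k2 := h.gh hI (y := sg G (sg G x)) (Or.inr (Or.inl rfl))
  have k3 := h.gh hI (y := sg G (sg G (sg G x))) (Or.inr (Or.inr (Or.inl rfl)))
  have k4 := h.gh hI (y := sg G (sg G (sg G (sg G x)))) (Or.inr (Or.inr (Or.inr rfl)))
  have l2 := h.nleaf hG h1 h.x1 h.x2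
  have l3 := h.nleaf hG h1 h.x2 h.x3
  have l4 := h.nleaf hG h1 h.x3 h.x4
  set a0 := x
  set a1 := sg G a0
  set a2 := sg G a1
  set a3 := sg G a2
  set a4 := sg G a3
  set a5 := sg G a4
  have m2 : a2.1 ∈ lfN G → a1 ∈ GH G al ∧ a2 ∈ GH G al := fun hl => ⟨k1 (l2 hl).1, k2 (l2 hl).2⟩
  have m3 : a3.1 ∈ lfN G → a2 ∈ GH G al ∧ a3 ∈ GH G al := fun hl => ⟨k2 (l3 hl).1, k3 (l3 hl).2⟩
  have m4 : a4.1 ∈ lfN G → a3 ∈ GH G al ∧ a4 ∈ GH G al := fun hl => ⟨k3 (l4 hl).1, k4 (l4 hl).2⟩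
  have ind : ∀ (P Q : Prop) [Decidable P] [Decidable Q], (P → Q) →
      (if P then (1 : ℝ) else 0) ≤ if Q then (1 : ℝ) else 0 := by
    intro P Q _ _ hPQ
    by_cases p : P
    · rw [if_pos p, if_pos (hPQ p)]
    · rw [if_neg p]
      split_ifs <;> norm_num
  have e0 : (if a0.1 ∈ lfN G then (2 : ℝ) else 0) = 2 * (if a0.1 ∈ lfN G then (1 : ℝ) else 0) := by
    split_ifs <;> norm_num
  have i0 := ind _ _ (fun hl => (k0 hl).1)
  have i5 := ind _ _ (fun hl => (k0 hl).2)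
  have i21 := ind _ _ (fun hl => (m2 hl).1)
  have i22 := ind _ _ (fun hl => (m2 hl).2)
  have i32 := ind _ _ (fun hl => (m3 hl).1)
  have i33 := ind _ _ (fun hl => (m3 hl).2)
  have i43 := ind _ _ (fun hl => (m4 hl).1)
  have i44 := ind _ _ (fun hl => (m4 hl).2)
  have ge0 : ∀ (P : Prop) [Decidable P], (0 : ℝ) ≤ if P then (1 : ℝ) else 0 := by
    intro P _
    split_ifs <;> norm_num
  have z1 := ge0 (a1 ∈ GH G al)
  have z2 := ge0 (a2 ∈ GH G al)
  have z3 := ge0 (a3 ∈ GH G al)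
  have z4 := ge0 (a4 ∈ GH G al)
  push_cast
  rw [e0]
  refine ⟨by linarith, fun hh => ?_⟩
  rcases hh with hh | hh | hh | hh
  · rw [if_pos (k1 hh)] at *
    linarith
  · rw [if_pos (k2 hh)] at *
    linarith
  · rw [if_pos (k3 hh)] at *
    linarith
  · rw [if_pos (k4 hh)] at *
    linarith

end

end Pool.Agent.PEN.E5
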