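import Pool.Agent.E5.H6_49

/-! # PENNY, all small diameters: the hexagons with seventeen units in the set B6, case C -/

set_option autoImplicit false

namespace Pool.Agent.PEN.E5

open Classical UpperHalfPlane
open Pool.Agent.PEN.Cl

noncomputable section

variable {V : Type} (G : Tg V) {al : ℝ} {kp : V → V → ℝ} {U : ℕ → ℝ}

/-- the next side is another one -/
theorem nx_ne49 {x : V × V} (hx : x ∈ SD G) : nx G x ≠ x := by
  intro he
  have h5 : (nx G x).1 = x.2 := rfl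
  rw [he] at h5
  have h6 := ((mem_KJ42 G).1 ((mem_SD42 G).1 hx).1).1
  have h7 : x = (x.1, x.1) := Prod.ext rfl h5.symm
  rw [h7] at h6
  exact G.ne _ _ h6 rfl

/-- a payer of an exceptional face is its only one, and there is no leaf and no weak side -/
theorem Exc.pay49 {K : (cg G).ConnectedComponent} (h : Exc G al K) {y : V × V}
    (hy : y ∈ PK G al K) : Ex2 G al K y := by
  obtain ⟨x, h | h | h⟩ := h
  · rw [PK_empty15 G h.2.1] at hy
    exact absurd hy (Finset.notMem_empty _)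
  · have hx : y = x := by
      have := hy
      rw [h.2.1, Finset.mem_singleton] at this
      exact this
    rw [hx]
    exact h
  · rw [PK_empty15 G h.2.1] at hy
    exact absurd hy (Finset.notMem_empty _)

/-- **case C at one corner**: a corner with three units, at a point with `k ≥ 2`, both of whose
sides lie in exceptional faces -/
theorem c49 (hG : G.Geo4 al kp U) {y : V × V} (hy : y ∈ SD G) (h8 : 8 ≤ uv G al y.2)
    (hu : 3 ≤ un G al (sg G y)) (hE1 : Exc G al (ku G y)) (hE2 : Exc G al (ku G (sg G y)))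
    (hm : 2 ≤ gc G al y + gc G al (sg G y) + gc G al (sg G (sg G y))) :
    (y.2 ∈ A2 G al ∧ sg G y ∈ Vl39 G al y.2) ∨
      (yK15 G al (ku G y) = 2 ∧ yK15 G al (ku G (sg G y)) = 2) := by
  obtain ⟨hv, hyv⟩ := hE1.sec49 G hy
  by_cases hti : Ti39 G al y.2
  · right
    obtain ⟨hu8, hc, hD⟩ := hti
    obtain ⟨y', hy', z', hz', n1, n2, n3, e1, e2, e3, e4, e5⟩ := c3_89 G hG hv hc hyv
    obtain ⟨hzS, hzv⟩ := (mem_Sv89 G).1 hz'
    have hkz : ku G (sg G y) = ku G z' := by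
      rw [← e5]
      exact (nx_ku63 G hG hzS).2
    have hyK : y ∈ kS G (ku G y) := (mem_kS42 G).2 ⟨hy, rfl⟩
    have hzK : z' ∈ kS G (ku G z') := (mem_kS42 G).2 ⟨hzS, rfl⟩
    have hyP : y ∈ PK G al (ku G y) := (mem_PK63 G).2 ⟨hyK, hv, h8, hD y hyv⟩
    have hzP : z' ∈ PK G al (ku G z') :=
      (mem_PK63 G).2 ⟨hzK, by rw [hzv]; exact hv, by rw [hzv]; exact h8, hD z' hz'⟩
    rw [hkz] at hE2 ⊢
    have x1 := hE1.pay49 G hyP
    have x2 := hE2.pay49 G hzP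
    by_cases hr : ∃ s ∈ Sv G y.2, rn G s ≠ 0
    · constructor
      · unfold yK15
        rw [if_pos ⟨y, x1, Or.inr hr⟩]
      · unfold yK15
        rw [if_pos ⟨z', x2, Or.inr (by rw [hzv]; exact hr)⟩]
    · exfalso
      push Not at hr
      have nn1 := nx_ne49 G hy
      have nn2 := nx_ne49 G hzS
      have hn1 : nx G y ∈ kS G (ku G y) := nx_kS89 G hG hyK
      have hn2 : nx G z' ∈ kS G (ku G z') := nx_kS89 G hG hzK
      have d1 : Ds G al (nx G y) < 0 := by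
        refine Ds_neg63 G hG hn1 (x1.2.2.2.2 _ hn1) ?_ ?_
        · rw [x1.1]
          exact Finset.notMem_empty _
        · rw [x1.2.1, Finset.mem_singleton]
          exact nn1
      have d2 : Ds G al (nx G z') < 0 := by
        refine Ds_neg63 G hG hn2 (x2.2.2.2.2 _ hn2) ?_ ?_
        · rw [x2.1]
          exact Finset.notMem_empty _
        · rw [x2.2.1, Finset.mem_singleton]
          exact nn2
      have s1 : 0 ≤ sp G al (nx G y) := by
        by_contra h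
        push Not at h
        have : nx G y ∈ WsK G al (ku G y) := (mem_WsK63 G).2 ⟨hn1, (BC_head14 G hG hy hv).2, h⟩
        rw [x1.2.2.1] at this
        exact absurd this (Finset.notMem_empty _)
      have s2 : 0 ≤ sp G al z' := by
        by_contra h
        push Not at h
        have : z' ∈ WsK G al (ku G z') :=
          (mem_WsK63 G).2 ⟨hzK, (BC_head14 G hG hzS (by rw [hzv]; exact hv)).1, h⟩
        rw [x2.2.2.1] at this
        exact absurd this (Finset.notMem_empty _)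
      have hne : nx G y ≠ sg G z' := by
        intro h
        rw [← e3] at h
        exact n3 (sg_injSv89 G hG hv hz' hy' h.symm)
      rw [e5] at d2
      have := digons18 G hG hv hyv hz' n2 hne (by omega) e5 (hr y hyv) (hr z' hz') d1.le d2.le
        s1 s2
      have hk := kv_eq89 G (al := al) y.2
      rw [hu8] at hk
      have hep := ep_pos89 G hG
      push_cast at hk
      linarith
  · left
    refine ⟨Finset.mem_filter.2 ⟨hv, h8⟩, ?_⟩
    unfold Vl39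
    exact Finset.mem_filter.2 ⟨sg_Bv89 G hG hv hyv, hti, Or.inl hu⟩

variable {G} {C : G.adj.ConnectedComponent} {x : V × V}

theorem P17.ple (h : P17 G al C x) (h1 : ∀ x ∈ iJ G, gc G al x ≤ 1) {y : V × V}
    (hy : y ∈ G.cJ C) : gc G al y ≤ 1 :=
  h1 y ((mem_BC89 G).1 (h.bc hy)).1

/-- the sides of a hexagon with seventeen units are strong -/
theorem P17.sp0 (h : P17 G al C x) (h1 : ∀ x ∈ iJ G, gc G al x ≤ 1) :
    0 ≤ sp G al x ∧ 0 ≤ sp G al (sg G x) ∧ 0 ≤ sp G al (sg G (sg G x)) ∧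
    0 ≤ sp G al (sg G (sg G (sg G x))) ∧ 0 ≤ sp G al (sg G (sg G (sg G (sg G x)))) ∧
    0 ≤ sp G al (sg G (sg G (sg G (sg G (sg G x))))) := by
  have m0 := h.ple h1 h.x0
  have m1 := h.ple h1 h.x1
  have m2 := h.ple h1 h.x2
  have m3 := h.ple h1 h.x3
  have m4 := h.ple h1 h.x4
  have m5 := h.ple h1 h.x5
  have hm := h.mass
  have e0 := sp_o2 G (al := al) x
  have e1 := sp_o2 G (al := al) (sg G x)
  have e2 := sp_o2 G (al := al) (sg G (sg G x))
  have e3 := sp_o2 G (al := al) (sg G (sg G (sg G x)))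
  have e4 := sp_o2 G (al := al) (sg G (sg G (sg G (sg G x))))
  have e5 := sp_o2 G (al := al) (sg G (sg G (sg G (sg G (sg G x)))))
  rw [h.cyc] at e5
  refine ⟨?_, ?_, ?_, ?_, ?_, ?_⟩ <;> linarith

/-- what the weights give to the sides of the class -/
theorem P17.gain (h : P17 G al C x) (h1 : ∀ x ∈ iJ G, gc G al x ≤ 1) {y : V × V}
    (hy : y = sg G x ∨ y = sg G (sg G x) ∨ y = sg G (sg G (sg G x)))
    (k1 : yK15 G al (ku G y) = 2) (k2 : yK15 G al (ku G (sg G y)) = 2) :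
    1 ≤ ∑ s ∈ G.cJ C, (yK15 G al (ku G s) - 1) * sp G al s := by
  have m0 := h.ple h1 h.x0
  have m1 := h.ple h1 h.x1
  have m2 := h.ple h1 h.x2
  have m3 := h.ple h1 h.x3
  have m4 := h.ple h1 h.x4
  have m5 := h.ple h1 h.x5
  have hm := h.mass
  have f1 := h.f1
  have f5 := h.f5
  obtain ⟨s0, s1, s2, s3, s4, s5⟩ := h.sp0 h1
  rw [h.sum (fun s => (yK15 G al (ku G s) - 1) * sp G al s)]
  have nn : ∀ s, 0 ≤ sp G al s → 0 ≤ (yK15 G al (ku G s) - 1) * sp G al s := fun s hs =>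
    mul_nonneg (by linarith [yK_one15 G (al := al) (ku G s)]) hs
  have t0 := nn _ s0
  have t1 := nn _ s1
  have t2 := nn _ s2
  have t3 := nn _ s3
  have t4 := nn _ s4
  have t5 := nn _ s5
  have e1 := sp_o2 G (al := al) (sg G x)
  have e2 := sp_o2 G (al := al) (sg G (sg G x))
  have e3 := sp_o2 G (al := al) (sg G (sg G (sg G x)))
  have e4 := sp_o2 G (al := al) (sg G (sg G (sg G (sg G x))))
  rcases hy with rfl | rfl | rfl
  · rw [k1, k2]
    linarith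
  · rw [k1, k2]
    linarith
  · rw [k1, k2]
    linarith

/-- the points of the class, if the four faces `K1 .. K4` are exceptional -/
theorem P17.pts (h : P17 G al C x) (hG : G.Geo4 al kp U) (h1 : ∀ x ∈ iJ G, gc G al x ≤ 1)
    (a1 : Exc G al (ku G (sg G x))) (a4 : Exc G al (ku G (sg G (sg G (sg G (sg G x))))))
    (a2 : Exc G al (ku G (sg G (sg G x)))) (a3 : Exc G al (ku G (sg G (sg G (sg G x))))) :
    ((sg G x).1 ∈ inN G ∧ cv G (sg G x).1 ≠ 1) ∧
    ((sg G (sg G x)).1 ∈ inN G ∧ cv G (sg G (sg G x)).1 ≠ 1) ∧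
    ((sg G (sg G (sg G x))).1 ∈ inN G ∧ cv G (sg G (sg G (sg G x))).1 ≠ 1) ∧
    ((sg G (sg G (sg G (sg G x)))).1 ∈ inN G ∧ cv G (sg G (sg G (sg G (sg G x)))).1 ≠ 1) ∧
    ((sg G (sg G (sg G (sg G (sg G x))))).1 ∈ inN G ∧
      cv G (sg G (sg G (sg G (sg G (sg G x))))).1 ≠ 1) := by
  have hS1 := BC_SD14 G (h.bc h.x1)
  have hS2 := BC_SD14 G (h.bc h.x2)
  have hS3 := BC_SD14 G (h.bc h.x3)
  have hS4 := BC_SD14 G (h.bc h.x4)
  have v2 : (sg G (sg G x)).1 ∈ inN G := (a1.sec49 G hS1).1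
  have v3 : (sg G (sg G (sg G x))).1 ∈ inN G := (a2.sec49 G hS2).1
  have v4 : (sg G (sg G (sg G (sg G x)))).1 ∈ inN G := (a3.sec49 G hS3).1
  have v5 : (sg G (sg G (sg G (sg G (sg G x))))).1 ∈ inN G := (a4.sec49 G hS4).1
  have v1 : (sg G x).1 ∈ inN G := by
    obtain ⟨p, hp, hpx⟩ := nx_surj42 G hG hS1
    have hpk := (nx_ku63 G hG hp).2
    rw [hpx] at hpk
    have hin : p.2 ∈ inN G := a1.inner49 G p ((mem_kS42 G).2 ⟨hp, hpk.symm⟩)
    have : (nx G p).1 = p.2 := rfl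
    rw [hpx] at this
    rw [this]
    exact hin
  refine ⟨⟨v1, fun hc => ?_⟩, ⟨v2, fun hc => ?_⟩, ⟨v3, fun hc => ?_⟩, ⟨v4, fun hc => ?_⟩,
    ⟨v5, fun hc => ?_⟩⟩
  · exact (h.nleaf hG h1 h.x0 h.x1 ((mem_lfN15 G).2 ⟨v1, hc⟩)).2 a1
  · exact (h.nleaf hG h1 h.x1 h.x2 ((mem_lfN15 G).2 ⟨v2, hc⟩)).2 a2
  · exact (h.nleaf hG h1 h.x2 h.x3 ((mem_lfN15 G).2 ⟨v3, hc⟩)).2 a3
  · exact (h.nleaf hG h1 h.x3 h.x4 ((mem_lfN15 G).2 ⟨v4, hc⟩)).2 a4
  · exact (h.nleaf hG h1 h.x4 h.x5 ((mem_lfN15 G).2 ⟨v5, hc⟩)).1 a4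

/-- **cases A, B, C of the row of a hexagon with seventeen units**. What is left: the four faces
`K1 .. K4` are exceptional and `v2, v3, v4` have `k = 1` -/
theorem P17.abc49 (h : P17 G al C x) (hG : G.Geo4 al kp U) (h1 : ∀ x ∈ iJ G, gc G al x ≤ 1)
    (hI : (G.cI C).card = 6) :
    (∑ y ∈ (G.cJ C).filter (fun y => y.1 ∈ lfN G), ((un G al y : ℝ) - 2) + 1 ≤
      cC15 G (GH G al) C) ∨
    (∑ y ∈ (G.cJ C).filter (fun y => y.1 ∈ lfN G), ((un G al y : ℝ) - 2) + 1 ≤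
      cC15 G (GH G al) C + ∑ s ∈ G.cJ C, (yK15 G al (ku G s) - 1) * sp G al s) ∨
    (∑ y ∈ (G.cJ C).filter (fun y => y.1 ∈ lfN G), ((un G al y : ℝ) - 2) ≤
      cC15 G (GH G al) C ∧ ∃ z ∈ G.cJ C, z.1 ∈ A2 G al ∧ z ∈ Vl39 G al z.1) ∨
    (∑ y ∈ (G.cJ C).filter (fun y => y.1 ∈ lfN G), ((un G al y : ℝ) - 2) ≤
      cC15 G (GH G al) C ∧ Exc G al (ku G (sg G x)) ∧ Exc G al (ku G (sg G (sg G x))) ∧
      Exc G al (ku G (sg G (sg G (sg G x)))) ∧
      Exc G al (ku G (sg G (sg G (sg G (sg G x))))) ∧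
      uv G al (sg G (sg G x)).1 = 7 ∧ uv G al (sg G (sg G (sg G x))).1 = 7 ∧
      uv G al (sg G (sg G (sg G (sg G x)))).1 = 7) := by
  obtain ⟨hN, hA⟩ := h.ab49 hG h1 hI
  by_cases a1 : Exc G al (ku G (sg G x))
  swap
  · exact Or.inl (hA (Or.inl a1))
  by_cases a2 : Exc G al (ku G (sg G (sg G x)))
  swap
  · exact Or.inl (hA (Or.inr (Or.inl a2)))
  by_cases a3 : Exc G al (ku G (sg G (sg G (sg G x))))
  swap
  · exact Or.inl (hA (Or.inr (Or.inr (Or.inl a3))))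
  by_cases a4 : Exc G al (ku G (sg G (sg G (sg G (sg G x)))))
  swap
  · exact Or.inl (hA (Or.inr (Or.inr (Or.inr a4))))
  have m0 := h.ple h1 h.x0
  have m1 := h.ple h1 h.x1
  have m2 := h.ple h1 h.x2
  have m3 := h.ple h1 h.x3
  have m4 := h.ple h1 h.x4
  have m5 := h.ple h1 h.x5
  have hm := h.mass
  obtain ⟨_, ⟨v2, _⟩, ⟨v3, _⟩, ⟨v4, _⟩, _⟩ := h.pts hG h1 a1 a4 a2 a3
  have w2 := uv_ge89 G (al := al) hG v2
  have w3 := uv_ge89 G (al := al) hG v3
  have w4 := uv_ge89 G (al := al) hG v4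
  by_cases b2 : 8 ≤ uv G al (sg G (sg G x)).1
  · rcases c49 G hG (y := sg G x) (BC_SD14 G (h.bc h.x1)) b2 (by rw [h.u2]) a1 a2 (by linarith)
      with hz | ⟨k1, k2⟩
    · exact Or.inr (Or.inr (Or.inl ⟨hN, _, h.x2, hz.1, hz.2⟩))
    · exact Or.inr (Or.inl (add_le_add hN (h.gain h1 (Or.inl rfl) k1 k2)))
  by_cases b3 : 8 ≤ uv G al (sg G (sg G (sg G x))).1
  · rcases c49 G hG (y := sg G (sg G x)) (BC_SD14 G (h.bc h.x2)) b3 (by rw [h.u3]) a2 a3
      (by linarith) with hz | ⟨k1, k2⟩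
    · exact Or.inr (Or.inr (Or.inl ⟨hN, _, h.x3, hz.1, hz.2⟩))
    · exact Or.inr (Or.inl (add_le_add hN (h.gain h1 (Or.inr (Or.inl rfl)) k1 k2)))
  by_cases b4 : 8 ≤ uv G al (sg G (sg G (sg G (sg G x)))).1
  · rcases c49 G hG (y := sg G (sg G (sg G x))) (BC_SD14 G (h.bc h.x3)) b4 (by rw [h.u4]) a3 a4
      (by linarith) with hz | ⟨k1, k2⟩
    · exact Or.inr (Or.inr (Or.inl ⟨hN, _, h.x4, hz.1, hz.2⟩))
    · exact Or.inr (Or.inl (add_le_add hN (h.gain h1 (Or.inr (Or.inr rfl)) k1 k2)))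
  exact Or.inr (Or.inr (Or.inr ⟨hN, a1, a2, a3, a4, by omega, by omega, by omega⟩))

end

end Pool.Agent.PEN.E5
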