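import Pool.Agent.E5.H6c49

/-! # PENNY, all small diameters: the hexagons with seventeen units in the set B6, case D -/

set_option autoImplicit false

namespace Pool.Agent.PEN.E5

open Classical UpperHalfPlane
open Pool.Agent.PEN.Cl

noncomputable section

variable {V : Type} (G : Tg V) {al : ℝ} {kp : V → V → ℝ} {U : ℕ → ℝ}

/-- the two big corners at a sector of an inner point which is not a leaf -/
theorem two49 (hG : G.Geo4 al kp U) {v : V} (hv : v ∈ inN G) (hc : cv G v ≠ 1) {s : V × V}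
    (hs : s ∈ Sv G v) : gc G al (nx G s) + gc G al (sg G s) ≤ kv G al v - ep al := by
  obtain ⟨hsS, hsv⟩ := (mem_Sv89 G).1 hs
  have hne : nx G s ≠ sg G s := fun h => hc ((sg_nx_iff89 G hG hv hsS hsv).1 h.symm)
  have m1 : nx G s ∈ Jv G v := by
    have h := (BC_head14 G hG hsS (by rw [hsv]; exact hv)).2
    have h2 : (nx G s).1 = s.2 := rfl
    unfold Jv
    exact Finset.mem_filter.2 ⟨((mem_BC89 G).1 h).1, by rw [h2, hsv]⟩
  have m2 : sg G s ∈ Jv G v := by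
    have h := (mem_Bv89 G).1 (sg_Bv89 G hG hv hs)
    unfold Jv
    exact Finset.mem_filter.2 ⟨h.1, h.2.2⟩
  rw [← sum_gc89 G hG hv, ← Finset.sum_pair hne]
  refine Finset.sum_le_sum_of_subset_of_nonneg ?_ (fun y _ _ => gc_nonneg89 G hG)
  intro y hy
  rw [Finset.mem_insert, Finset.mem_singleton] at hy
  rcases hy with rfl | rfl
  · exact m1
  · exact m2

/-- a strong side whose face is a weak digon -/
theorem dig49 (hG : G.Geo4 al kp U) {e : V × V} (he : e ∈ SD G) (hs : 0 ≤ sp G al e)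
    {b : V × V} (h : Ex3 G al (ku G e) b) :
    Ex3 G al (ku G e) (e.2, e.1) ∧ (e.2, e.1) ∈ kS G (ku G e) ∧ rn G e = 0 ∧
      rn G (e.2, e.1) = 0 ∧ nx G e = (e.2, e.1) ∧ nx G (e.2, e.1) = e := by
  have heK : e ∈ kS G (ku G e) := (mem_kS42 G).2 ⟨he, rfl⟩
  have h0 : rn G e = 0 := by
    have h2 := sum_rn63 G hG (ku G e)
    rw [h.2.2.2.1, mul_zero] at h2
    exact Finset.sum_eq_zero_iff.1 h2 e heK
  obtain ⟨d1, d2, _, _, d5, d6⟩ := digon54 G hG he h0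
  obtain ⟨_, _, _, _, d5', _⟩ := digon54 G hG d1 d6
  have hb : b ∈ WsK G al (ku G e) := by
    rw [h.2.2.1]
    exact Finset.mem_singleton_self b
  obtain ⟨b1, _, b3⟩ := (mem_WsK63 G).1 hb
  have hbe : b = (e.2, e.1) := by
    rw [d2, Finset.mem_insert, Finset.mem_singleton] at b1
    rcases b1 with rfl | b1
    · exact absurd hs (not_le.2 b3)
    · exact b1
  rw [← hbe]
  refine ⟨h, ?_, h0, ?_, ?_, ?_⟩
  · exact ((mem_WsK63 G).1 hb).1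
  · rw [hbe]; exact d6
  · rw [hbe]; exact d5
  · rw [hbe]; exact d5'

/-- **case D at one side** -/
theorem d49 (hG : G.Geo4 al kp U) {e : V × V} (he : e ∈ SD G) (hs : 0 ≤ sp G al e)
    {b : V × V} (h : Ex3 G al (ku G e) b) (hc1 : cv G e.1 ≠ 1) (hc2 : cv G e.2 ≠ 1)
    (hg : 147 / 100 ≤ gc G al e + gc G al (sg G e)) :
    (e.1 ∈ A2 G al ∧ e ∈ Vl39 G al e.1) ∨ (e.2 ∈ A2 G al ∧ sg G e ∈ Vl39 G al e.2) ∨
      (uv G al e.1 = 7 ∧ uv G al e.2 = 7 ∧ Ex3 G al (ku G e) (e.2, e.1) ∧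
        gc G al (e.2, e.1) + gc G al (sg G (e.2, e.1)) ≤ 53 / 100) := by
  obtain ⟨k1, k2, k3, k4, k5, k6⟩ := dig49 G hG he hs h
  have heK : e ∈ kS G (ku G e) := (mem_kS42 G).2 ⟨he, rfl⟩
  obtain ⟨hbS, hbK⟩ := (mem_kS42 G).1 k2
  have hv2 : e.2 ∈ inN G := k1.2.2.2.2 e heK
  have hv1 : e.1 ∈ inN G := k1.2.2.2.2 _ k2
  have he2 : e ∈ Sv G e.2 := (mem_Sv89 G).2 ⟨he, rfl⟩
  have hb1 : (e.2, e.1) ∈ Sv G e.1 := (mem_Sv89 G).2 ⟨hbS, rfl⟩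
  have dn : ∀ s ∈ kS G (ku G e), Ds G al s < 0 := by
    intro s hsK
    refine Ds_neg63 G hG hsK (k1.2.2.2.2 s hsK) ?_ ?_
    · rw [k1.1]
      exact Finset.notMem_empty _
    · rw [PK_empty15 G k1.2.1]
      exact Finset.notMem_empty _
  by_cases b1 : 8 ≤ uv G al e.1
  · left
    refine ⟨Finset.mem_filter.2 ⟨hv1, b1⟩, ?_⟩
    unfold Vl39
    refine Finset.mem_filter.2 ⟨?_, ?_, Or.inr (Or.inl ⟨_, hb1, k4, dn _ k2, Or.inr k6⟩)⟩
    · obtain ⟨q1, q2⟩ := (mem_BC89 G).1 (BC_head14 G hG he hv2).1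
      exact (mem_Bv89 G).2 ⟨q1, q2, rfl⟩
    · intro hti
      exact absurd (hti.2.2 _ hb1) (not_le.2 (dn _ k2))
  by_cases b2 : 8 ≤ uv G al e.2
  · right; left
    refine ⟨Finset.mem_filter.2 ⟨hv2, b2⟩, ?_⟩
    unfold Vl39
    refine Finset.mem_filter.2 ⟨sg_Bv89 G hG hv2 he2, ?_,
      Or.inr (Or.inl ⟨_, he2, k3, dn _ heK, Or.inl rfl⟩)⟩
    intro hti
    exact absurd (hti.2.2 _ he2) (not_le.2 (dn _ heK))
  right; right
  have w1 := uv_ge89 G (al := al) hG hv1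
  have w2 := uv_ge89 G (al := al) hG hv2
  have u1 : uv G al e.1 = 7 := by omega
  have u2 : uv G al e.2 = 7 := by omega
  refine ⟨u1, u2, k1, ?_⟩
  have t1 := two49 G hG hv1 hc1 hb1
  have t2 := two49 G hG hv2 hc2 he2
  rw [k6] at t1
  rw [k5] at t2
  have g1 := kv_eq89 G (al := al) e.1
  have g2 := kv_eq89 G (al := al) e.2
  rw [u1] at g1
  rw [u2] at g2
  have hep := ep_pos89 G hG
  push_cast at g1 g2
  linarith

variable {G} {C : G.adj.ConnectedComponent} {x : V × V}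

theorem nGH49 {e : V × V} (h : Exc G al (ku G e)) : e ∉ GH G al := by
  unfold GH
  rw [Finset.mem_filter]
  exact fun h2 => h2.2.2 h

/-- **case D** -/
theorem P17.d49 (h : P17 G al C x) (hG : G.Geo4 al kp U) (h1 : ∀ x ∈ iJ G, gc G al x ≤ 1)
    (a1 : Exc G al (ku G (sg G x))) (a2 : Exc G al (ku G (sg G (sg G x))))
    (a3 : Exc G al (ku G (sg G (sg G (sg G x)))))
    (a4 : Exc G al (ku G (sg G (sg G (sg G (sg G x)))))) {e : V × V}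
    (he : e = sg G x ∨ e = sg G (sg G x) ∨ e = sg G (sg G (sg G x)) ∨
      e = sg G (sg G (sg G (sg G x)))) {b : V × V} (hb : Ex3 G al (ku G e) b) :
    (∃ z ∈ G.cJ C, z.1 ∈ A2 G al ∧ z ∈ Vl39 G al z.1) ∨
      (∃ e ∈ G.cJ C, e ∉ GH G al ∧ Ex3 G al (ku G e) (e.2, e.1) ∧
        gc G al (e.2, e.1) + gc G al (sg G (e.2, e.1)) ≤ 53 / 100 ∧
        uv G al e.1 = 7 ∧ uv G al e.2 = 7 ∧ 1 / 2 ≤ gc G al e ∧ 1 / 2 ≤ gc G al (sg G e)) := by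
  have m0 := h.ple h1 h.x0
  have m1 := h.ple h1 h.x1
  have m2 := h.ple h1 h.x2
  have m3 := h.ple h1 h.x3
  have m4 := h.ple h1 h.x4
  have m5 := h.ple h1 h.x5
  have hm := h.mass
  have f1 := h.f1
  have f5 := h.f5
  have g1 := h.g1
  have g5 := h.g5
  have f12 := h.f12
  have f45 := h.f45
  obtain ⟨s0, s1, s2, s3, s4, s5⟩ := h.sp0 h1
  obtain ⟨⟨_, c1⟩, ⟨_, c2⟩, ⟨_, c3⟩, ⟨_, c4⟩, ⟨_, c5⟩⟩ := h.pts hG h1 a1 a4 a2 a3
  have key : ∀ e : V × V, e ∈ G.cJ C → sg G e ∈ G.cJ C → Exc G al (ku G e) → 0 ≤ sp G al e →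
      cv G e.1 ≠ 1 → cv G (sg G e).1 ≠ 1 → 147 / 100 ≤ gc G al e + gc G al (sg G e) →
      1 / 2 ≤ gc G al e → 1 / 2 ≤ gc G al (sg G e) → (∃ b, Ex3 G al (ku G e) b) →
      (∃ z ∈ G.cJ C, z.1 ∈ A2 G al ∧ z ∈ Vl39 G al z.1) ∨
      (∃ e ∈ G.cJ C, e ∉ GH G al ∧ Ex3 G al (ku G e) (e.2, e.1) ∧
        gc G al (e.2, e.1) + gc G al (sg G (e.2, e.1)) ≤ 53 / 100 ∧
        uv G al e.1 = 7 ∧ uv G al e.2 = 7 ∧ 1 / 2 ≤ gc G al e ∧ 1 / 2 ≤ gc G al (sg G e)) := by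
    intro e heC hsC hE hs hc1 hc2 hg hg1 hg2 ⟨b, hb⟩
    rcases E5.d49 G hG (BC_SD14 G (h.bc heC)) hs hb hc1 hc2 hg with q | q | q
    · exact Or.inl ⟨e, heC, q.1, q.2⟩
    · exact Or.inl ⟨sg G e, hsC, q.1, q.2⟩
    · exact Or.inr ⟨e, heC, nGH49 hE, q.2.2.1, q.2.2.2, q.1, q.2.1, hg1, hg2⟩
  rcases he with rfl | rfl | rfl | rfl
  · exact key _ h.x1 h.x2 a1 s1 c1 c2 f12 g1 (by linarith) ⟨b, hb⟩
  · exact key _ h.x2 h.x3 a2 s2 c2 c3 (by linarith) (by linarith) (by linarith) ⟨b, hb⟩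
  · exact key _ h.x3 h.x4 a3 s3 c3 c4 (by linarith) (by linarith) (by linarith) ⟨b, hb⟩
  · exact key _ h.x4 h.x5 a4 s4 c4 c5 f45 (by linarith) g5 ⟨b, hb⟩

end

end Pool.Agent.PEN.E5
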