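import Pool.Agent.E5.SL2b
import Pool.Agent.E5.Hf19

/-! # PENNY, all small diameters: gains at the sides of a face of mass at most one

`o x = 1 - gc x` is the complement of the gap of a corner. In a class with `∑ o ≤ 1`: every set of
sides has surplus at least its number minus two, two disjoint sides have surplus at least one. The two
sides around the middle corner of three units of a hexagon with seventeen units have surplus at least
`4/3`. A side whose black face has runs `1`, `1` at its ends lies on a single triangle. -/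

set_option autoImplicit false

namespace Pool.Agent.PEN.E5

open Classical UpperHalfPlane
open Pool.Agent.PEN.Cl

noncomputable section

section gen

variable {V : Type} (G : Tg V) {al : ℝ} {kp : V → V → ℝ} {U : ℕ → ℝ}

theorem sp_o2 (x : V × V) :
    sp G al x = 1 - (1 - gc G al x) - (1 - gc G al (sg G x)) := by
  unfold sp
  ring

/-- the mass of a class from its units -/
theorem mass_le2 (hG : G.Geo4 al kp U) {C : G.adj.ConnectedComponent} (hC : C ∈ G.iC)
    (h : (G.cJ C).card + 3 * (G.cT C).card ≤ uf G al C + 1) :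
    ∑ x ∈ G.cJ C, (1 - gc G al x) ≤ 1 := by
  have h1 := sum_cgap46 G hG hC (al := al)
  have h2 : ((G.cJ C).card : ℝ) + 3 * (G.cT C).card ≤ uf G al C + 1 := by exact_mod_cast h
  linarith

/-- **(G1)** a set of sides has surplus at least its number minus twice the mass -/
theorem gain_card2 (hG : G.Geo4 al kp U) (h1 : ∀ x ∈ iJ G, gc G al x ≤ 1)
    {C : G.adj.ConnectedComponent} (hC : C ∈ G.iC) {M : ℝ}
    (hM : ∑ x ∈ G.cJ C, (1 - gc G al x) ≤ M) {A : Finset (V × V)} (hA : A ⊆ G.cJ C) :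
    (A.card : ℝ) - 2 * M ≤ ∑ x ∈ A, sp G al x := by
  have h0 : ∀ x ∈ G.cJ C, 0 ≤ 1 - gc G al x := fun x hx => by
    linarith [h1 x (cJ_iJ51 G hC hx).1]
  have a1 : ∑ x ∈ A, (1 - gc G al x) ≤ ∑ x ∈ G.cJ C, (1 - gc G al x) :=
    Finset.sum_le_sum_of_subset_of_nonneg hA fun x hx _ => h0 x hx
  have a2 : ∑ x ∈ A, (1 - gc G al (sg G x)) ≤ ∑ x ∈ G.cJ C, (1 - gc G al (sg G x)) :=
    Finset.sum_le_sum_of_subset_of_nonneg hA fun x hx _ => h0 _ (sg_cJ46 G hG hC hx)
  rw [sum_sg46 G hG hC (fun x => 1 - gc G al x)] at a2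
  have a3 : ∑ x ∈ A, sp G al x = A.card - ∑ x ∈ A, (1 - gc G al x) -
      ∑ x ∈ A, (1 - gc G al (sg G x)) := by
    rw [Finset.sum_congr rfl fun x _ => sp_o2 G x, Finset.sum_sub_distrib,
      Finset.sum_sub_distrib, Finset.sum_const, nsmul_eq_mul, mul_one]
  rw [a3]
  linarith

/-- three sides of a class of mass at most one -/
theorem gain_three2 (hG : G.Geo4 al kp U) (h1 : ∀ x ∈ iJ G, gc G al x ≤ 1)
    {C : G.adj.ConnectedComponent} (hC : C ∈ G.iC)
    (hM : ∑ x ∈ G.cJ C, (1 - gc G al x) ≤ 1) {A : Finset (V × V)} (hA : A ⊆ G.cJ C)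
    (h3 : 3 ≤ A.card) : 1 ≤ ∑ x ∈ A, sp G al x := by
  have h := gain_card2 G hG h1 hC hM hA
  have h4 : (3 : ℝ) ≤ A.card := by exact_mod_cast h3
  linarith

/-- two disjoint sides of a class -/
theorem gain_two2 (hG : G.Geo4 al kp U) (h1 : ∀ x ∈ iJ G, gc G al x ≤ 1)
    {C : G.adj.ConnectedComponent} (hC : C ∈ G.iC) {M : ℝ}
    (hM : ∑ x ∈ G.cJ C, (1 - gc G al x) ≤ M) {x y : V × V} (hx : x ∈ G.cJ C) (hy : y ∈ G.cJ C)
    (n1 : y ≠ x) (n2 : y ≠ sg G x) (n3 : sg G y ≠ x) :
    2 - M ≤ sp G al x + sp G al y := by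
  have hix := (cJ_iJ51 G hC hx).1
  have hiy := (cJ_iJ51 G hC hy).1
  have n4 : x ≠ sg G x := (sg_ne46 G hix).symm
  have n5 : y ≠ sg G y := (sg_ne46 G hiy).symm
  have n6 : sg G x ≠ sg G y := fun h => n1 (W4.sg_inj51 G hG hix hiy h).symm
  have hsub : ({x, sg G x, y, sg G y} : Finset (V × V)) ⊆ G.cJ C := by
    intro z hz
    simp only [Finset.mem_insert, Finset.mem_singleton] at hz
    rcases hz with h | h | h | h
    · rw [h]; exact hx
    · rw [h]; exact sg_cJ46 G hG hC hx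
    · rw [h]; exact hy
    · rw [h]; exact sg_cJ46 G hG hC hy
  have h3a : ∑ z ∈ ({x, sg G x, y, sg G y} : Finset (V × V)), (1 - gc G al z) =
      (1 - gc G al x) + ((1 - gc G al (sg G x)) + ((1 - gc G al y) + (1 - gc G al (sg G y)))) := by
    rw [Finset.sum_insert (by
      simp only [Finset.mem_insert, Finset.mem_singleton]
      rintro (h | h | h)
      · exact n4 h
      · exact n1 h.symm
      · exact n3 h.symm), Finset.sum_insert (by
      simp only [Finset.mem_insert, Finset.mem_singleton]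
      rintro (h | h)
      · exact n2 h.symm
      · exact n6 h), Finset.sum_pair n5]
  have h3 : ∑ z ∈ ({x, sg G x, y, sg G y} : Finset (V × V)), (1 - gc G al z) ≤
      ∑ z ∈ G.cJ C, (1 - gc G al z) :=
    Finset.sum_le_sum_of_subset_of_nonneg hsub fun z hz _ => by
      linarith [h1 z (cJ_iJ51 G hC hz).1]
  rw [h3a] at h3
  rw [sp_o2 G x, sp_o2 G y]
  linarith

/-- **(G2)** a corner with three units at a point with one unit too much, runs at both sides at least
one: a leaf with run four, or runs `1`, `1` and one more big corner, with two units -/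
theorem three_types2 (hG : G.Geo4 al kp U) {v : V} (hv : v ∈ inN G) (h7 : uv G al v = 7)
    {z : V × V} (h3 : un G al z = 3) {x y : V × V} (hx : x ∈ Sv G v) (hsx : sg G x = z)
    (hy : y ∈ Sv G v) (hny : nx G y = z) (hrx : 1 ≤ rn G x) (hry : 1 ≤ rn G y) :
    (cv G v = 1 ∧ x = y ∧ rn G x = 4) ∨
      (cv G v = 2 ∧ x ≠ y ∧ rn G x = 1 ∧ rn G y = 1 ∧ nx G x = sg G y ∧ un G al (nx G x) = 2) := by
  have hs := uv_split62 G hG v (al := al)
  rw [h7] at hs
  have hc := card_Sv62 G hG hv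
  have hB : (Bv G v).card = cv G v := rfl
  have hz : z ∈ Bv G v := by rw [← hsx]; exact sg_Bv62 G hG hv hx
  have hu2 : ∀ w ∈ Bv G v, 2 ≤ un G al w := fun w hw => un_ge15 G ((mem_Bv89 G).1 hw).2.1
  have hsum : un G al z + 2 * ((Bv G v).erase z).card ≤ ∑ w ∈ Bv G v, un G al w := by
    rw [← Finset.add_sum_erase _ _ hz]
    have : 2 * ((Bv G v).erase z).card ≤ ∑ w ∈ (Bv G v).erase z, un G al w := by
      rw [mul_comm, ← smul_eq_mul, ← Finset.sum_const]
      exact Finset.sum_le_sum fun w hw => hu2 w (Finset.mem_of_mem_erase hw)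
    omega
  rw [Finset.card_erase_of_mem hz, hB, h3] at hsum
  have hr1 : rn G x ≤ ∑ w ∈ Sv G v, rn G w :=
    Finset.single_le_sum (fun _ _ => Nat.zero_le _) hx
  have hcp := cv_pos15 G hG hv
  have hc3 : cv G v ≤ 2 := by omega
  rcases Nat.lt_or_ge (cv G v) 2 with h | h
  · left
    have h1 : cv G v = 1 := by omega
    obtain ⟨e1, e2, e3⟩ := c1_89 G hG hv h1 hx
    have hyx : y = x := by
      rw [e1, Finset.mem_singleton] at hy
      exact hy
    rw [e1, e2, Finset.sum_singleton, Finset.sum_singleton, hsx, h3] at hs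
    exact ⟨h1, hyx.symm, by omega⟩
  · right
    have h2 : cv G v = 2 := by omega
    obtain ⟨e1, e2, y', e3, e4, e5, e6, e7⟩ := c2_89 G hG hv h2 hx
    have hyx : y = y' := by
      rw [e5, Finset.mem_insert, Finset.mem_singleton] at hy
      rcases hy with h8 | h8
      · exfalso
        apply e1
        rw [h8] at hny
        rw [hny, hsx]
      · exact h8
    subst hyx
    rw [e5, Finset.sum_pair e4.symm, e2, Finset.sum_pair e1.symm, hsx, h3] at hs
    have h5 := hu2 _ (by rw [e2]; exact Finset.mem_insert_of_mem (Finset.mem_singleton_self _) :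
      nx G x ∈ Bv G v)
    exact ⟨h2, e4.symm, by omega, by omega, e6.symm, by omega⟩

/-- **(G3)** a side with runs `1`, `1` at its two ends, both at points with one unit too much which are
no leaves: its black face is a single triangle; without weak side its source is the third point -/
theorem tri_source2 (hG : G.Geo4 al kp U) {z x : V × V} (hz : z ∈ SD G) (hx : x ∈ SD G)
    (hxz : nx G x = z) (r1 : rn G x = 1) (r2 : rn G z = 1)
    (hv2 : z.1 ∈ inN G) (u2 : uv G al z.1 = 7) (c2 : cv G z.1 ≠ 1)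
    (hv3 : z.2 ∈ inN G) (u3 : uv G al z.2 = 7) (c3 : cv G z.2 ≠ 1)
    (hw : ∀ y ∈ kS G (ku G z), y ∈ BC G → 0 ≤ sp G al y) :
    kS G (ku G z) = {z, (z.2, G.ap z.2 z.1), (G.ap z.2 z.1, z.1)} ∧ tK G (ku G z) = 1 ∧
    ((G.ap z.2 z.1 ∈ inN G ∧ 0 ≤ Ds G al (z.2, G.ap z.2 z.1) ∧
        (cv G (G.ap z.2 z.1) = 1 ∨ 8 ≤ uv G al (G.ap z.2 z.1))) ∨
      1 ≤ uK14 G al (ku G z)) := by
  obtain ⟨e1, e2, e3, e4⟩ := single54 G hG hx hxz r2 r1
  refine ⟨e3, e4, ?_⟩
  have hzk : z ∈ kS G (ku G z) := (mem_kS42 G).2 ⟨hz, rfl⟩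
  rcases U3_14 G hG (ku G z) ⟨z, hzk, (BC_head14 G hG hz hv3).1⟩ with
    ⟨y, hy, hyv, hyD⟩ | ⟨y, hy, hyb, hys⟩ | ⟨h1, h2⟩
  · left
    have hyS := mem_kS89 G hy
    have hp := pos_sector89 G hG hyv hyS rfl hyD
    rw [e3] at hy
    simp only [Finset.mem_insert, Finset.mem_singleton] at hy
    rcases hy with h | h | h
    · exfalso
      rw [h] at hp
      rcases hp with h3 | h3
      · exact c3 h3
      · omega
    · rw [h] at hyv hyD hp
      exact ⟨hyv, hyD, hp⟩
    · exfalso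
      rw [h] at hp
      rcases hp with h3 | h3
      · exact c2 h3
      · dsimp only at h3
        omega
  · exact absurd hys (not_lt.2 (hw y hy hyb))
  · right
    have : (1 : ℝ) ≤ oK14 G (ku G z) := by exact_mod_cast h1
    linarith

/-- if the third point has at least eight units, then the triangle has no leaf -/
theorem tri_noleaf2 (hG : G.Geo4 al kp U) (h1 : ∀ x ∈ iJ G, gc G al x ≤ 1) {z : V × V}
    (c2 : cv G z.1 ≠ 1) (c3 : cv G z.2 ≠ 1)
    (e3 : kS G (ku G z) = {z, (z.2, G.ap z.2 z.1), (G.ap z.2 z.1, z.1)})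
    (hu : 8 ≤ uv G al (G.ap z.2 z.1)) : Lv G (ku G z) = ∅ := by
  rw [Finset.eq_empty_iff_forall_notMem]
  intro y hy
  obtain ⟨h2, h3, h4⟩ := (mem_Lv15 G).1 hy
  have h5 := leaf_uv39 G hG h1 h3 h4
  rw [e3] at h2
  simp only [Finset.mem_insert, Finset.mem_singleton] at h2
  rcases h2 with h | h | h
  · rw [h] at h4
    exact c3 h4
  · rw [h] at h5
    dsimp only at h5
    omega
  · rw [h] at h4
    exact c2 h4

end gen

section conc

variable {G : Tg ℍ} {d : ℝ} {kp : ℍ → ℍ → ℝ} {U : ℕ → ℝ}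

/-- **(G4)** a hexagon with seventeen units: there is a corner `x` with four units, and the two sides at
the middle corner of three units have surplus at least `4/3`; the complements of the gaps satisfy
`o1 ≥ o3 + o4`, `o5 ≥ o3 + o2` and have sum at most one -/
theorem hex_gain2 (hG : G.Geo4 (alpha d) kp U) (hD : DelG G d) (hS : Sep d G.P)
    (h1 : ∀ x ∈ iJ G, gc G (alpha d) x ≤ 1)
    {C : G.adj.ConnectedComponent} (hC : C ∈ WF G) (hd6 : (G.cI C).card + 2 = 2 * (G.cT C).card)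
    (h6 : (G.cJ C).card = 6) (h17 : 17 ≤ uf G (alpha d) C) :
    ∃ x ∈ G.cJ C, un G (alpha d) x = 4 ∧
      un G (alpha d) (sg G x) = 2 ∧ un G (alpha d) (sg G (sg G x)) = 3 ∧
      un G (alpha d) (sg G (sg G (sg G x))) = 3 ∧
      un G (alpha d) (sg G (sg G (sg G (sg G x)))) = 3 ∧
      un G (alpha d) (sg G (sg G (sg G (sg G (sg G x))))) = 2 ∧
      ∑ y ∈ G.cJ C, (1 - gc G (alpha d) y) ≤ 1 ∧
      4 / 3 ≤ sp G (alpha d) (sg G (sg G x)) + sp G (alpha d) (sg G (sg G (sg G x))) := by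
  have hCi := ((mem_WF89 G).1 hC).1
  obtain ⟨_, k2⟩ := hex_class19 hG hD hS hC hd6 h6
  obtain ⟨x, hx, a0, a1, a2, a3, a4, a5, g1, g2⟩ := k2 h17
  have hcyc := (six90 G hG hC hd6 h6 hx).2
  have hmass : ∑ y ∈ G.cJ C, (1 - gc G (alpha d) y) ≤ 1 := by
    refine mass_le2 G hG hCi ?_
    have h3 := disc90 G hCi hd6
    omega
  refine ⟨x, hx, a0, a1, a2, a3, a4, a5, hmass, ?_⟩
  obtain ⟨hset, hcyc⟩ := six90 G hG hC hd6 h6 hx
  obtain ⟨b1, b2⟩ := orb90 G hG hCi hd6 hx
  have hsum : ∑ y ∈ G.cJ C, (1 - gc G (alpha d) y) =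
      (1 - gc G (alpha d) x) + (1 - gc G (alpha d) (sg G x)) +
      (1 - gc G (alpha d) (sg G (sg G x))) + (1 - gc G (alpha d) (sg G (sg G (sg G x)))) +
      (1 - gc G (alpha d) (sg G (sg G (sg G (sg G x))))) +
      (1 - gc G (alpha d) (sg G (sg G (sg G (sg G (sg G x)))))) := by
    have h3 : ∑ y ∈ G.cJ C, (1 - gc G (alpha d) y) =
        ∑ i ∈ Finset.range (G.cJ C).card, (1 - gc G (alpha d) ((sg G)^[i] x)) := by
      conv_lhs => rw [← b1]
      rw [Finset.sum_image]
      intro i hi j hj hij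
      exact orb_inj90 G b1 (Finset.mem_range.1 (Finset.mem_coe.1 hi))
        (Finset.mem_range.1 (Finset.mem_coe.1 hj)) hij
    rw [h3, h6]
    simp only [Finset.sum_range_succ, Finset.sum_range_zero, Function.iterate_zero, id,
      Function.iterate_succ, Function.comp_apply, zero_add]
  rw [hsum] at hmass
  have o0 : 0 ≤ 1 - gc G (alpha d) x := by linarith [h1 x (cJ_iJ51 G hCi hx).1]
  rw [sp_o2 G (sg G (sg G x)), sp_o2 G (sg G (sg G (sg G x)))]
  have x1 := sg_cJ46 G hG hCi hx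
  have x2 := sg_cJ46 G hG hCi x1
  have x3 := sg_cJ46 G hG hCi x2
  have x4 := sg_cJ46 G hG hCi x3
  have o2 : 0 ≤ 1 - gc G (alpha d) (sg G (sg G x)) := by linarith [h1 _ (cJ_iJ51 G hCi x2).1]
  have o3 : 0 ≤ 1 - gc G (alpha d) (sg G (sg G (sg G x))) := by
    linarith [h1 _ (cJ_iJ51 G hCi x3).1]
  have o4 : 0 ≤ 1 - gc G (alpha d) (sg G (sg G (sg G (sg G x)))) := by
    linarith [h1 _ (cJ_iJ51 G hCi x4).1]
  linarith

end conc

end

end Pool.Agent.PEN.E5
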