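import Pool.Agent.E5.Hf19
import Pool.Agent.P4.Str66

/-! # PENNY, all small diameters: next to a corner `≥ 3 α` of a hexagon face

If `TH v0 ∈ [3 α, 2 π - 3 α]` and `TH v2, TH v3 ∈ [2 α, 3 α]` then `TH v1 ≤ 3 α / 2`. -/

set_option autoImplicit false

namespace Pool.Agent.PEN

open Classical UpperHalfPlane
open Pool.Agent.PEN.Cl

noncomputable section

/-- the range of the problem -/
theorem cosh_le19 {d : ℝ} (hd : 0 < d) (h : d ≤ 2 / 5) : Real.cosh d ≤ 11 / 10 := by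
  have h1 := Real.cosh_le_exp_half_sq d
  have h2 : d ^ 2 / 2 ≤ 2 / 25 := by nlinarith
  have h3 := Real.add_one_le_exp (- (d ^ 2 / 2))
  have h4 : Real.exp (d ^ 2 / 2) * Real.exp (- (d ^ 2 / 2)) = 1 := by
    rw [← Real.exp_add, add_neg_cancel, Real.exp_zero]
  have h5 := Real.exp_pos (d ^ 2 / 2)
  have h6 : Real.exp (d ^ 2 / 2) * (23 / 25) ≤ 1 := by
    rw [← h4]
    exact mul_le_mul_of_nonneg_left (by linarith) h5.le
  linarith

/-- `cosh` of the chord of three equilateral triangles -/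
def K19 (d : ℝ) : ℝ := Real.cosh d ^ 2 - Real.sinh d ^ 2 * Real.cos (3 * alpha d)

theorem K_eq19 {d : ℝ} (hd : 0 < d) :
    K19 d = 1 + (Real.cosh d - 1) * (3 * Real.cosh d + 1) ^ 2 / (Real.cosh d + 1) ^ 2 := by
  have hC : 1 < Real.cosh d := Real.one_lt_cosh.2 hd.ne'
  have hne : Real.cosh d + 1 ≠ 0 := by linarith
  unfold K19
  rw [Real.cos_three_mul, cos_alpha hd, sinhsq_19 d]
  field_simp
  ring

theorem FF_22_19 {d : ℝ} (hd : 0 < d) : FF66 d (2 * alpha d) (2 * alpha d) = K19 d := by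
  have hC : 1 < Real.cosh d := Real.one_lt_cosh.2 hd.ne'
  have hne : Real.cosh d + 1 ≠ 0 := by linarith
  have h1 : Real.sin (2 * alpha d) * Real.sin (2 * alpha d) = 1 - Real.cos (2 * alpha d) ^ 2 := by
    have := Real.sin_sq_add_cos_sq (2 * alpha d)
    rw [← sq]
    linarith
  unfold FF66 K19
  rw [h1, Real.cos_three_mul, Real.cos_two_mul, cos_alpha hd, sinhsq_19 d]
  field_simp
  ring

theorem FF_mono19 {d : ℝ} (hd : 0 < d) (h4 : Real.pi ≤ 4 * alpha d) {x y : ℝ}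
    (x1 : 2 * alpha d ≤ x) (x2 : x ≤ 3 * alpha d) (y1 : 2 * alpha d ≤ y) (y2 : y ≤ 3 * alpha d) :
    K19 d ≤ FF66 d x y := by
  have hal := alpha_lt hd
  have hal0 := alpha_pos hd
  have hp := Real.pi_pos
  have hC : 1 < Real.cosh d := Real.one_lt_cosh.2 hd.ne'
  have key : ∀ {z b : ℝ}, 0 ≤ z → z ≤ Real.pi → 2 * alpha d ≤ b → b ≤ 3 * alpha d →
      FF66 d z (2 * alpha d) ≤ FF66 d z b := by
    intro z b z0 z1 b1 b2
    rw [← sub_nonneg, FF_sub66]
    have s1 : 0 ≤ Real.sin ((b - 2 * alpha d) / 2) :=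
      Real.sin_nonneg_of_nonneg_of_le_pi (by linarith) (by linarith)
    have s2 : 0 ≤ Real.sin (z / 2) := Real.sin_nonneg_of_nonneg_of_le_pi (by linarith) (by linarith)
    have s3 : 0 ≤ Real.sin ((2 * alpha d + b) / 2) :=
      Real.sin_nonneg_of_nonneg_of_le_pi (by linarith) (by linarith)
    have s4 : Real.cos ((2 * alpha d + b) / 2) ≤ 0 :=
      Real.cos_nonpos_of_pi_div_two_le_of_le (by linarith) (by linarith)
    have s5 : 0 ≤ Real.cos (z / 2) := Real.cos_nonneg_of_mem_Icc ⟨by linarith, by linarith⟩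
    have s6 : 0 ≤ Real.cosh d * Real.sin (z / 2) * Real.sin ((2 * alpha d + b) / 2) := by positivity
    have s7 := mul_nonpos_of_nonneg_of_nonpos s5 s4
    refine mul_nonneg (by positivity) (by linarith)
  calc K19 d = FF66 d (2 * alpha d) (2 * alpha d) := (FF_22_19 hd).symm
    _ ≤ FF66 d (2 * alpha d) y := key (by linarith) (by linarith) y1 y2
    _ = FF66 d y (2 * alpha d) := FF_comm66 _ _ _
    _ ≤ FF66 d y x := key (by linarith) (by linarith) x1 x2
    _ = FF66 d x y := FF_comm66 _ _ _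

/-- the square of `sinh` of the chord -/
theorem K_sq19 {d : ℝ} (hd : 0 < d) : (Real.cosh d + 1) ^ 4 * (K19 d ^ 2 - 1) =
    (Real.cosh d - 1) * (3 * Real.cosh d + 1) ^ 2 *
      (2 * (Real.cosh d + 1) ^ 2 + (Real.cosh d - 1) * (3 * Real.cosh d + 1) ^ 2) := by
  have hC : 1 < Real.cosh d := Real.one_lt_cosh.2 hd.ne'
  have hne : Real.cosh d + 1 ≠ 0 := by linarith
  rw [K_eq19 hd]
  field_simp
  ring

theorem K_gt19 {d : ℝ} (hd : 0 < d) : 1 < K19 d := by
  have hC : 1 < Real.cosh d := Real.one_lt_cosh.2 hd.ne'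
  rw [K_eq19 hd]
  have : 0 < (Real.cosh d - 1) * (3 * Real.cosh d + 1) ^ 2 / (Real.cosh d + 1) ^ 2 := by
    apply div_pos
    · apply mul_pos (by linarith)
      positivity
    · positivity
  linarith

/-- (a) -/
theorem num_a19 {C : ℝ} (h1 : 1 < C) (h2 : C ≤ 11 / 10) :
    2 * (C + 1) ^ 6 ≤ (3 * C + 1) ^ 2 * (2 * (C + 1) ^ 2 + (C - 1) * (3 * C + 1) ^ 2) := by
  obtain ⟨e, rfl⟩ : ∃ e, C = 1 + e := ⟨C - 1, by ring⟩
  have e0 : 0 ≤ e := by linarith
  have e1 : e ≤ 1 / 10 := by linarith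
  have h3 : 0 ≤ e ^ 2 := sq_nonneg e
  have h4 : e ^ 6 ≤ e := by
    calc e ^ 6 = e * e ^ 5 := by ring
      _ ≤ e * 1 := by
        apply mul_le_mul_of_nonneg_left _ e0
        exact pow_le_one₀ e0 (by linarith)
      _ = e := by ring
  have h5 : 0 ≤ e ^ 3 := by positivity
  have h6 : 0 ≤ e ^ 4 := by positivity
  have h7 : 0 ≤ e ^ 5 := by positivity
  nlinarith

/-- (b1) -/
theorem num_b19 {C : ℝ} (h1 : 1 < C) (h2 : C ≤ 11 / 10) :
    (C + 1) ^ 4 ≤ (13 / 100 - 27 / 100 * (C - 1)) * (3 * C + 1) ^ 2 *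
      (2 * (C + 1) ^ 2 + (C - 1) * (3 * C + 1) ^ 2) := by
  obtain ⟨e, rfl⟩ : ∃ e, C = 1 + e := ⟨C - 1, by ring⟩
  have e0 : 0 ≤ e := by linarith
  have e1 : e ≤ 1 / 10 := by linarith
  have h2 : 0 ≤ e * (1 / 10 - e) := mul_nonneg e0 (by linarith)
  have h3 : 0 ≤ e ^ 2 * (1 / 10 - e) := mul_nonneg (sq_nonneg e) (by linarith)
  have h4 : 0 ≤ e ^ 3 * (1 / 10 - e) := mul_nonneg (by positivity) (by linarith)
  have h5 : 0 ≤ e ^ 4 * (1 / 10 - e) := mul_nonneg (by positivity) (by linarith)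
  have h6 : 0 ≤ e ^ 5 * (1 / 10 - e) := mul_nonneg (by positivity) (by linarith)
  nlinarith

/-- (b2) -/
theorem num_c19 {C : ℝ} (h1 : 1 < C) (h2 : C ≤ 11 / 10) :
    (2 * C + 1) * (3 * C + 1) ^ 2 ≤ 8 * (C + 1) ^ 3 * (87 / 100 + 27 / 100 * (C - 1)) ^ 2 := by
  obtain ⟨e, rfl⟩ : ∃ e, C = 1 + e := ⟨C - 1, by ring⟩
  have e0 : 0 ≤ e := by linarith
  have e1 : e ≤ 1 / 10 := by linarith
  have h3 : 0 ≤ e ^ 2 := by positivity
  have h4 : 0 ≤ e ^ 3 := by positivity
  have h5 : 0 ≤ e ^ 4 := by positivity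
  have h6 : 0 ≤ e ^ 5 := by positivity
  nlinarith

/-! ### The angles at `v1` -/

theorem cos3half19 {d : ℝ} (hd : 0 < d) :
    (Real.cosh d + 1) * Real.cos (3 * (alpha d / 2)) = (Real.cosh d - 1) * Real.cos (alpha d / 2) := by
  have k5 := half_19 hd
  have k6 := Real.sin_sq_add_cos_sq (alpha d / 2)
  rw [Real.cos_three_mul (alpha d / 2)]
  have : 4 * Real.cos (alpha d / 2) ^ 2 * (Real.cosh d + 1) = 4 * Real.cosh d + 2 := by
    have : Real.cos (alpha d / 2) ^ 2 = 1 - Real.sin (alpha d / 2) ^ 2 := by linarith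
    rw [this]
    linarith
  linear_combination Real.cos (alpha d / 2) * this

theorem coshalf19 {d : ℝ} (hd : 0 < d) :
    2 * (Real.cosh d + 1) * Real.cos (alpha d / 2) ^ 2 = 2 * Real.cosh d + 1 := by
  have k5 := half_19 hd
  have k6 := Real.sin_sq_add_cos_sq (alpha d / 2)
  have : Real.cos (alpha d / 2) ^ 2 = 1 - Real.sin (alpha d / 2) ^ 2 := by linarith
  rw [this]
  linarith

theorem S_K19 {d : ℝ} (hd : 0 < d) (hC : Real.cosh d ≤ 11 / 10) :
    Real.sinh d ^ 2 ≤ Real.sin (alpha d / 2) ^ 2 * (K19 d ^ 2 - 1) := by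
  have hC1 : 1 < Real.cosh d := Real.one_lt_cosh.2 hd.ne'
  have h1 := K_sq19 hd
  have h2 := num_a19 hC1 hC
  have h3 := half_19 hd
  have h4 : 0 < (Real.cosh d + 1) ^ 4 := by positivity
  have h5 : 2 * (1 + Real.cosh d) * Real.sinh d ^ 2 ≤ K19 d ^ 2 - 1 := by
    have h6 : (Real.cosh d + 1) ^ 4 * (2 * (1 + Real.cosh d) * Real.sinh d ^ 2) ≤
        (Real.cosh d + 1) ^ 4 * (K19 d ^ 2 - 1) := by
      rw [h1, sinhsq_19 d]
      have h7 := mul_le_mul_of_nonneg_left h2 (by linarith : (0 : ℝ) ≤ Real.cosh d - 1)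
      calc _ = (Real.cosh d - 1) * (2 * (Real.cosh d + 1) ^ 6) := by ring
        _ ≤ _ := h7
        _ = _ := by ring
    exact le_of_mul_le_mul_left h6 h4
  have h8 := mul_le_mul_of_nonneg_left h5 (sq_nonneg (Real.sin (alpha d / 2)))
  calc Real.sinh d ^ 2 = 2 * (1 + Real.cosh d) * Real.sin (alpha d / 2) ^ 2 * Real.sinh d ^ 2 := by
        rw [h3, one_mul]
    _ = Real.sin (alpha d / 2) ^ 2 * (2 * (1 + Real.cosh d) * Real.sinh d ^ 2) := by ring
    _ ≤ _ := h8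

/-- the second angle -/
theorem second19 {d : ℝ} (hd : 0 < d) (hC : Real.cosh d ≤ 11 / 10) {v1 v3 v4 : ℍ}
    (h34 : dist v3 v4 = d) (h13 : d ≤ dist v1 v3) (h14 : K19 d ≤ Real.cosh (dist v1 v4)) :
    |ang v1 v3 v4| ≤ alpha d / 2 := by
  have hal := alpha_lt hd
  have hal0 := alpha_pos hd
  have hp := Real.pi_pos
  have hC1 : 1 < Real.cosh d := Real.one_lt_cosh.2 hd.ne'
  have hK := K_gt19 hd
  have n14 : v4 ≠ v1 := by
    intro h
    rw [h, dist_self, Real.cosh_zero] at h14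
    linarith
  have n13 : v3 ≠ v1 := by
    intro h
    rw [h, dist_self] at h13
    linarith
  have n34 : v4 ≠ v3 := by
    intro h
    rw [h, dist_self] at h34
    linarith
  have s14 : 0 < Real.sinh (dist v1 v4) := Real.sinh_pos_iff.2 (dist_pos.2 n14.symm)
  have s13 : 0 < Real.sinh (dist v1 v3) := Real.sinh_pos_iff.2 (dist_pos.2 n13.symm)
  have hl := cosh_law (v := v1) (a := v3) (b := v4) n13 n14
  rw [h34] at hl
  -- acute
  have hcos : 0 < Real.cos (ang v1 v3 v4) := by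
    have h1 : Real.cosh d ≤ Real.cosh (dist v1 v3) := by
      rw [Real.cosh_le_cosh, abs_of_pos hd, abs_of_nonneg dist_nonneg]
      exact h13
    have h2 : Real.cosh d * 1 < Real.cosh (dist v1 v3) * Real.cosh (dist v1 v4) :=
      mul_lt_mul' h1 (by linarith) (by norm_num) (by linarith)
    have h3 : 0 < Real.sinh (dist v1 v3) * Real.sinh (dist v1 v4) * Real.cos (ang v1 v3 v4) := by
      linarith
    exact pos_of_mul_pos_right h3 (mul_pos s13 s14).le
  have hx0 : 0 ≤ |ang v1 v3 v4| := abs_nonneg _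
  have hxp := E5.abs_ang_le19 v1 v3 v4
  have hx2 : |ang v1 v3 v4| < Real.pi / 2 := by
    by_contra hc
    push Not at hc
    have := Real.cos_nonpos_of_pi_div_two_le_of_le hc (by linarith)
    rw [Real.cos_abs] at this
    linarith
  -- the law of sines
  have hs := E5.sines19 (v := v4) (a := v1) (b := v3) n14.symm n34.symm n13
  rw [E5.abs_ang_comm63 n14 n13, h34] at hs
  have hs1 : Real.sinh (dist v1 v4) * Real.sin |ang v1 v3 v4| ≤ Real.sinh d := by
    rw [hs]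
    have h1 := Real.sin_le_one |ang v3 v1 v4|
    have h2 : 0 ≤ Real.sinh d := Real.sinh_nonneg_iff.2 hd.le
    have := mul_le_mul_of_nonneg_left h1 h2
    linarith
  have hsx : 0 ≤ Real.sin |ang v1 v3 v4| := Real.sin_nonneg_of_nonneg_of_le_pi hx0 hxp
  have hK2 : K19 d ^ 2 - 1 ≤ Real.sinh (dist v1 v4) ^ 2 := by
    rw [sinhsq_19]
    have := mul_self_le_mul_self (by linarith : (0 : ℝ) ≤ K19 d) h14
    nlinarith
  have hKp : 0 < K19 d ^ 2 - 1 := by nlinarith
  have hsq : (K19 d ^ 2 - 1) * Real.sin |ang v1 v3 v4| ^ 2 ≤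
      (K19 d ^ 2 - 1) * Real.sin (alpha d / 2) ^ 2 := by
    have h1 : (Real.sinh (dist v1 v4) * Real.sin |ang v1 v3 v4|) ^ 2 ≤ Real.sinh d ^ 2 :=
      pow_le_pow_left₀ (mul_nonneg s14.le hsx) hs1 2
    have h2 := S_K19 hd hC
    have h3 := mul_le_mul_of_nonneg_right hK2 (sq_nonneg (Real.sin |ang v1 v3 v4|))
    rw [mul_pow] at h1
    linarith
  have hsin : Real.sin |ang v1 v3 v4| ≤ Real.sin (alpha d / 2) :=
    le_of_sq_le_sq19 (le_of_mul_le_mul_left hsq hKp)
      (Real.sin_nonneg_of_nonneg_of_le_pi (by linarith) (by linarith))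
  by_contra hc
  push Not at hc
  have := Real.sin_lt_sin_of_lt_of_le_pi_div_two (x := alpha d / 2) (y := |ang v1 v3 v4|)
    (by linarith) hx2.le hc
  linarith

/-- the third angle -/
theorem third19 {d : ℝ} (hd : 0 < d) (hC : Real.cosh d ≤ 11 / 10) {v1 v4 v5 : ℍ}
    (h45 : dist v4 v5 = d) (h14 : K19 d ≤ Real.cosh (dist v1 v4))
    (h15 : K19 d ≤ Real.cosh (dist v1 v5)) :
    1 - Real.cos |ang v1 v4 v5| ≤ 13 / 100 - 27 / 100 * (Real.cosh d - 1) := by
  have hC1 : 1 < Real.cosh d := Real.one_lt_cosh.2 hd.ne'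
  have hK := K_gt19 hd
  have n14 : v4 ≠ v1 := by
    intro h
    rw [h, dist_self, Real.cosh_zero] at h14
    linarith
  have n15 : v5 ≠ v1 := by
    intro h
    rw [h, dist_self, Real.cosh_zero] at h15
    linarith
  have s14 : 0 < Real.sinh (dist v1 v4) := Real.sinh_pos_iff.2 (dist_pos.2 n14.symm)
  have s15 : 0 < Real.sinh (dist v1 v5) := Real.sinh_pos_iff.2 (dist_pos.2 n15.symm)
  have hKp : 0 < K19 d ^ 2 - 1 := by nlinarith
  have l1 := cosh_law (v := v1) (a := v4) (b := v5) n14 n15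
  rw [h45] at l1
  obtain ⟨x, hx⟩ : ∃ x, x = |ang v1 v4 v5| := ⟨_, rfl⟩
  rw [← hx]
  have cx : Real.cos x = Real.cos (ang v1 v4 v5) := by rw [hx, Real.cos_abs]
  rw [← cx] at l1
  have hP : K19 d ^ 2 - 1 ≤ Real.sinh (dist v1 v4) * Real.sinh (dist v1 v5) := by
    apply le_of_sq_le_sq19 _ (mul_pos s14 s15).le
    rw [mul_pow, sinhsq_19, sinhsq_19]
    have a1 : K19 d ^ 2 - 1 ≤ Real.cosh (dist v1 v4) ^ 2 - 1 := by
      have := pow_le_pow_left₀ (by linarith : (0 : ℝ) ≤ K19 d) h14 2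
      linarith
    have a2 : K19 d ^ 2 - 1 ≤ Real.cosh (dist v1 v5) ^ 2 - 1 := by
      have := pow_le_pow_left₀ (by linarith : (0 : ℝ) ≤ K19 d) h15 2
      linarith
    rw [sq (K19 d ^ 2 - 1)]
    exact mul_le_mul a1 a2 hKp.le (by linarith)
  have hQ : Real.sinh (dist v1 v4) * Real.sinh (dist v1 v5) + 1 ≤
      Real.cosh (dist v1 v4) * Real.cosh (dist v1 v5) := by
    have h1 := Real.one_le_cosh (dist v1 v4 - dist v1 v5)
    rw [Real.cosh_sub] at h1
    linarith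
  have hx1 : (K19 d ^ 2 - 1) * (1 - Real.cos x) ≤ Real.cosh d - 1 := by
    have h1 : Real.sinh (dist v1 v4) * Real.sinh (dist v1 v5) * (1 - Real.cos x) ≤
        Real.cosh d - 1 := by linarith
    have h2 := mul_le_mul_of_nonneg_right hP (by linarith [Real.cos_le_one x] : 0 ≤ 1 - Real.cos x)
    linarith
  have h1 := K_sq19 hd
  have h2 := num_b19 hC1 hC
  have h3 := mul_le_mul_of_nonneg_left h2 (by linarith : (0 : ℝ) ≤ Real.cosh d - 1)
  have h4 : 0 < (Real.cosh d + 1) ^ 4 := by positivity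
  have h5 : (Real.cosh d + 1) ^ 4 * ((K19 d ^ 2 - 1) * (1 - Real.cos x)) ≤
      (Real.cosh d + 1) ^ 4 * ((K19 d ^ 2 - 1) * (13 / 100 - 27 / 100 * (Real.cosh d - 1))) := by
    calc _ ≤ (Real.cosh d + 1) ^ 4 * (Real.cosh d - 1) := mul_le_mul_of_nonneg_left hx1 h4.le
      _ = (Real.cosh d - 1) * (Real.cosh d + 1) ^ 4 := by ring
      _ ≤ _ := h3
      _ = (13 / 100 - 27 / 100 * (Real.cosh d - 1)) * ((Real.cosh d - 1) *
          (3 * Real.cosh d + 1) ^ 2 * (2 * (Real.cosh d + 1) ^ 2 +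
          (Real.cosh d - 1) * (3 * Real.cosh d + 1) ^ 2)) := by ring
      _ = (13 / 100 - 27 / 100 * (Real.cosh d - 1)) * ((Real.cosh d + 1) ^ 4 *
          (K19 d ^ 2 - 1)) := by rw [h1]
      _ = _ := by ring
  exact le_of_mul_le_mul_left (le_of_mul_le_mul_left h5 h4) hKp

/-- the chord `v1 v5` -/
theorem chord5_19 {d : ℝ} (hd : 0 < d) {v0 v1 v5 : ℍ}
    (h05 : dist v0 v5 = d) (h01 : dist v0 v1 = d)
    (hc0 : Real.cos (ang v0 v1 v5) ≤ Real.cos (3 * alpha d)) :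
    K19 d ≤ Real.cosh (dist v1 v5) := by
  have n01 : v1 ≠ v0 := ne63 hd h01.ge
  have n05 : v5 ≠ v0 := ne63 hd h05.ge
  have l0 := cosh_law (v := v0) (a := v1) (b := v5) n01 n05
  rw [h01, h05] at l0
  rw [l0]
  unfold K19
  have := mul_le_mul_of_nonneg_left hc0 (sq_nonneg (Real.sinh d))
  nlinarith

/-- the fourth angle -/
theorem fourth19 {d : ℝ} (hd : 0 < d) {v0 v1 v5 : ℍ}
    (h05 : dist v0 v5 = d) (h01 : dist v0 v1 = d)
    (hc0 : Real.cos (ang v0 v1 v5) ≤ Real.cos (3 * alpha d)) :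
    |ang v1 v5 v0| < Real.pi / 2 ∧ Real.sin |ang v1 v5 v0| ≤ Real.cos (3 * (alpha d / 2)) := by
  have hal := alpha_lt hd
  have hal0 := alpha_pos hd
  have hp := Real.pi_pos
  have hC1 : 1 < Real.cosh d := Real.one_lt_cosh.2 hd.ne'
  have hK := K_gt19 hd
  have hS := sinhsq_19 d
  have hs0 : 0 < Real.sinh d := Real.sinh_pos_iff.2 hd
  have n01 : v1 ≠ v0 := ne63 hd h01.ge
  have n05 : v5 ≠ v0 := ne63 hd h05.ge
  have l0 := cosh_law (v := v0) (a := v1) (b := v5) n01 n05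
  rw [h01, h05] at l0
  have h15 := chord5_19 hd h05 h01 hc0
  have n15 : v5 ≠ v1 := by
    intro h
    rw [h, dist_self, Real.cosh_zero] at h15
    linarith
  have s15 : 0 < Real.sinh (dist v1 v5) := Real.sinh_pos_iff.2 (dist_pos.2 n15.symm)
  obtain ⟨y, hy⟩ : ∃ y, y = |ang v1 v5 v0| := ⟨_, rfl⟩
  rw [← hy]
  have cy : Real.cos y = Real.cos (ang v1 v5 v0) := by rw [hy, Real.cos_abs]
  have y0 : 0 ≤ y := by rw [hy]; exact abs_nonneg _
  have yp : y ≤ Real.pi := by rw [hy]; exact E5.abs_ang_le19 _ _ _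
  have l2 := cosh_law (v := v1) (a := v5) (b := v0) n15 n01.symm
  rw [dist_comm v5 v0, h05, dist_comm v1 v0, h01, ← cy] at l2
  have cyp : 0 < Real.cos y := by
    have h3 : 0 < Real.sinh (dist v1 v5) * Real.sinh d * Real.cos y := by
      have : 0 < Real.cosh d * (Real.cosh (dist v1 v5) - 1) := mul_pos (by linarith) (by linarith)
      linarith
    exact pos_of_mul_pos_right h3 (mul_pos s15 hs0).le
  have sy0 : 0 ≤ Real.sin y := Real.sin_nonneg_of_nonneg_of_le_pi y0 yp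
  have ls := E5.sines19 (v := v5) (a := v1) (b := v0) n15.symm n05.symm n01.symm
  rw [← hy, h05] at ls
  have g0 : 0 ≤ Real.cos (3 * (alpha d / 2)) :=
    Real.cos_nonneg_of_mem_Icc ⟨by linarith, by linarith⟩
  constructor
  · by_contra hc
    push Not at hc
    have := Real.cos_nonpos_of_pi_div_two_le_of_le hc (by linarith)
    linarith
  · apply le_of_sq_le_sq19 _ g0
    obtain ⟨w, hw⟩ : ∃ w, w = Real.cos (ang v0 v1 v5) := ⟨_, rfl⟩
    have hsw : Real.sin |ang v0 v1 v5| ^ 2 = 1 - w ^ 2 := by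
      have := Real.sin_sq_add_cos_sq |ang v0 v1 v5|
      rw [Real.cos_abs, ← hw] at this
      linarith
    rw [← hw] at hc0 l0
    have hR : Real.cosh (dist v1 v5) = 1 + Real.sinh d ^ 2 * (1 - w) := by
      rw [l0, hS]
      have : Real.sinh d * Real.sinh d = Real.cosh d ^ 2 - 1 := by rw [← sq, hS]
      rw [this]
      ring
    have hpos : 0 < Real.sinh d ^ 2 * (1 - w) := by linarith
    have e1 : (Real.sinh (dist v1 v5) * Real.sin y) ^ 2 = (Real.sinh d * Real.sin |ang v0 v1 v5|) ^ 2 := by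
      rw [ls]
    rw [mul_pow, mul_pow, sinhsq_19 (dist v1 v5), hR, hsw] at e1
    have e2 : Real.sinh d ^ 2 * (1 - w) * ((2 + Real.sinh d ^ 2 * (1 - w)) * Real.sin y ^ 2) =
        Real.sinh d ^ 2 * (1 - w) * (1 + w) := by
      linear_combination e1
    have e3 := mul_left_cancel₀ hpos.ne' e2
    have e4 : Real.cos (3 * alpha d) = 2 * Real.cos (3 * (alpha d / 2)) ^ 2 - 1 := by
      rw [← Real.cos_two_mul]
      congr 1
      ring
    have e5 : 0 ≤ Real.sinh d ^ 2 * (1 - w) * Real.sin y ^ 2 := mul_nonneg hpos.le (sq_nonneg _)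
    have e6 : (2 + Real.sinh d ^ 2 * (1 - w)) * Real.sin y ^ 2 =
        2 * Real.sin y ^ 2 + Real.sinh d ^ 2 * (1 - w) * Real.sin y ^ 2 := by ring
    rw [e6] at e3
    linarith

/-- numbers: the third and the fourth angle -/
theorem sum34_19 {d : ℝ} (hd : 0 < d) (hC : Real.cosh d ≤ 11 / 10) {x y : ℝ} (xp : x ≤ Real.pi)
    (y0 : 0 ≤ y) (hx : 1 - Real.cos x ≤ 13 / 100 - 27 / 100 * (Real.cosh d - 1))
    (y2 : y < Real.pi / 2) (hsy : Real.sin y ≤ Real.cos (3 * (alpha d / 2))) :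
    x + y ≤ alpha d / 2 := by
  have hal := alpha_lt hd
  have hal0 := alpha_pos hd
  have hp := Real.pi_pos
  have hC1 : 1 < Real.cosh d := Real.one_lt_cosh.2 hd.ne'
  have sy0 : 0 ≤ Real.sin y := Real.sin_nonneg_of_nonneg_of_le_pi y0 (by linarith)
  have c1 := cos3half19 hd
  have c2 := coshalf19 hd
  have c3 := half_19 hd
  have cc0 : 0 ≤ Real.cos (alpha d / 2) := Real.cos_nonneg_of_mem_Icc ⟨by linarith, by linarith⟩
  have cc1 := Real.cos_le_one (alpha d / 2)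
  have ss0 : 0 ≤ Real.sin (alpha d / 2) :=
    Real.sin_nonneg_of_nonneg_of_le_pi (by linarith) (by linarith)
  have ss1 : Real.sin (alpha d / 2) ≤ 1 / 2 := by
    apply le_of_sq_le_sq19 _ (by norm_num)
    nlinarith [sq_nonneg (Real.sin (alpha d / 2))]
  have ss2 : 2 / 5 ≤ Real.sin (alpha d / 2) := by
    apply le_of_sq_le_sq19 _ ss0
    nlinarith [sq_nonneg (Real.sin (alpha d / 2))]
  have g1 : Real.cos (3 * (alpha d / 2)) ≤ 1 / 10 := by
    have h1 : (Real.cosh d - 1) * Real.cos (alpha d / 2) ≤ (Real.cosh d - 1) * 1 :=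
      mul_le_mul_of_nonneg_left cc1 (by linarith)
    nlinarith
  have ya : y ≤ alpha d / 2 := by
    by_contra hc
    push Not at hc
    have := Real.sin_lt_sin_of_lt_of_le_pi_div_two (x := alpha d / 2) (y := y)
      (by linarith) y2.le hc
    linarith
  by_contra hc
  push Not at hc
  have h1 : Real.cos x < Real.cos (alpha d / 2 - y) :=
    Real.cos_lt_cos_of_nonneg_of_le_pi (by linarith) xp (by linarith)
  rw [Real.cos_sub] at h1
  have h2 : Real.cos (alpha d / 2) * Real.cos y ≤ Real.cos (alpha d / 2) * 1 :=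
    mul_le_mul_of_nonneg_left (Real.cos_le_one y) cc0
  have h3 : Real.sin (alpha d / 2) * Real.sin y ≤ 1 / 2 * Real.cos (3 * (alpha d / 2)) :=
    mul_le_mul ss1 hsy sy0 (by norm_num)
  -- `c + g / 2 ≤ 87/100 + 27/100 (C - 1)`
  have h4 : Real.cos (alpha d / 2) + 1 / 2 * Real.cos (3 * (alpha d / 2)) ≤
      87 / 100 + 27 / 100 * (Real.cosh d - 1) := by
    have h5 : 2 * (Real.cosh d + 1) * (Real.cos (alpha d / 2) + 1 / 2 * Real.cos (3 * (alpha d / 2))) =
        (3 * Real.cosh d + 1) * Real.cos (alpha d / 2) := by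
      linear_combination c1
    have h6 : ((3 * Real.cosh d + 1) * Real.cos (alpha d / 2)) ^ 2 ≤
        (2 * (Real.cosh d + 1) * (87 / 100 + 27 / 100 * (Real.cosh d - 1))) ^ 2 := by
      have h7 := num_c19 hC1 hC
      have h8 : 0 < 2 * (Real.cosh d + 1) := by linarith
      apply le_of_mul_le_mul_left _ h8
      calc 2 * (Real.cosh d + 1) * ((3 * Real.cosh d + 1) * Real.cos (alpha d / 2)) ^ 2 =
          (3 * Real.cosh d + 1) ^ 2 * (2 * (Real.cosh d + 1) * Real.cos (alpha d / 2) ^ 2) := by ring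
        _ = (2 * Real.cosh d + 1) * (3 * Real.cosh d + 1) ^ 2 := by rw [c2]; ring
        _ ≤ _ := h7
        _ = _ := by ring
    have h9 := le_of_sq_le_sq19 h6 (mul_nonneg (by linarith) (by linarith))
    rw [← h5] at h9
    exact le_of_mul_le_mul_left h9 (by linarith)
  linarith

/-- **next to a corner `≥ 3 α`**: `t1 ≤ 3 α / 2` -/
theorem half_geo19 {d : ℝ} (hd : 0 < d) (hC : Real.cosh d ≤ 11 / 10) {v0 v1 v2 v3 v4 v5 : ℍ}
    (h01 : dist v0 v1 = d) (h12 : dist v1 v2 = d) (h23 : dist v2 v3 = d) (h34 : dist v3 v4 = d)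
    (h45 : dist v4 v5 = d) (h05 : dist v0 v5 = d) {σ t1 t2 t3 : ℝ} (hσ : σ = 1 ∨ σ = -1)
    (e2 : ang v2 v3 v1 = σ * t2)
    (e3 : ang v3 v4 v2 = σ * t3) (l2 : 2 * alpha d ≤ t2) (u2 : t2 ≤ 3 * alpha d)
    (l3 : 2 * alpha d ≤ t3) (u3 : t3 ≤ 3 * alpha d)
    (hc0 : Real.cos (ang v0 v1 v5) ≤ Real.cos (3 * alpha d))
    (e1 : ((ang v1 v2 v0 : ℝ) : Real.Angle) = ((σ * t1 : ℝ) : Real.Angle)) (t0 : 0 ≤ t1)
    (u1 : t1 < Real.pi) : t1 ≤ 3 / 2 * alpha d := by
  have cσ : ∀ t : ℝ, Real.cos (σ * t) = Real.cos t := by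
    intro t
    rcases hσ with h | h
    · rw [h, one_mul]
    · rw [h, neg_one_mul, Real.cos_neg]
  have sσ : ∀ t t' : ℝ, Real.sin (σ * t) * Real.sin (σ * t') = Real.sin t * Real.sin t' := by
    intro t t'
    rcases hσ with h | h
    · rw [h, one_mul, one_mul]
    · rw [h, neg_one_mul, neg_one_mul, Real.sin_neg, Real.sin_neg]
      ring
  have hal := alpha_lt hd
  have hal0 := alpha_pos hd
  have hp := Real.pi_pos
  have hC1 : 1 < Real.cosh d := Real.one_lt_cosh.2 hd.ne'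
  have hK := K_gt19 hd
  have h4a : Real.pi ≤ 4 * alpha d := by
    by_contra hc
    push Not at hc
    have h1 : Real.cos (Real.pi / 4) < Real.cos (alpha d) :=
      Real.cos_lt_cos_of_nonneg_of_le_pi hal0.le (by linarith) (by linarith)
    rw [Real.cos_pi_div_four] at h1
    have h2 := cosal_19 hd
    have h3 : (7 : ℝ) / 5 < Real.sqrt 2 := by
      rw [Real.lt_sqrt (by norm_num)]
      norm_num
    have h4 : (Real.cosh d + 1) * (7 / 10) < (Real.cosh d + 1) * Real.cos (alpha d) :=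
      mul_lt_mul_of_pos_left (by linarith) (by linarith)
    linarith
  have c2 : Real.cos (ang v2 v3 v1) ≤ Real.cos (2 * alpha d) := by
    rw [e2, cσ]
    exact Real.cos_le_cos_of_nonneg_of_le_pi (by linarith) (by linarith) l2
  have d13 := diag63 hd h12 h23 c2
  have f1 := first63 hd h12 h23 d13
  have h13 : d ≤ dist v1 v3 := by
    have h3 : Real.cosh d ≤ Real.cosh (dist v1 v3) := by linarith [lon_gt63 hd]
    rw [Real.cosh_le_cosh, abs_of_pos hd, abs_of_nonneg dist_nonneg] at h3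
    exact h3
  -- the chord `v1 v4`
  have n24 : v4 ≠ v2 := by
    intro h
    have h5 := cosh_law (v := v3) (a := v4) (b := v2) (ne63 hd h34.ge)
      (ne63 hd (by rw [dist_comm]; exact h23.ge))
    rw [h, dist_self, Real.cosh_zero, dist_comm v3 v2, h23] at h5
    have h6 : Real.cos (ang v3 v2 v2) ≤ Real.cos (2 * alpha d) := by
      rw [h] at e3
      rw [e3, cσ]
      exact Real.cos_le_cos_of_nonneg_of_le_pi (by linarith) (by linarith) l3
    have h7 : Real.cos (2 * alpha d) < 1 := by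
      rw [← Real.cos_zero]
      exact Real.cos_lt_cos_of_nonneg_of_le_pi le_rfl (by linarith) (by linarith)
    have hS := sinhsq_19 d
    have h8 : Real.sinh d * Real.sinh d = Real.cosh d ^ 2 - 1 := by rw [← sq, hS]
    rw [h8] at h5
    have h9 : 0 < (Real.cosh d ^ 2 - 1) * (1 - Real.cos (ang v3 v2 v2)) :=
      mul_pos (by nlinarith) (by linarith)
    have h10 : (Real.cosh d ^ 2 - 1) * (1 - Real.cos (ang v3 v2 v2)) = 0 := by
      linear_combination (-1) * h5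
    linarith
  have h14 : K19 d ≤ Real.cosh (dist v1 v4) := by
    have h5 := chain66 hd (A := v1) (X := v2) (Y := v3) (B := v4) (by rw [dist_comm]; exact h12)
      h23 h34 n24
    rw [e2, e3, cσ, cσ, sσ] at h5
    rw [h5]
    have h6 := FF_mono19 hd h4a l2 u2 l3 u3
    unfold FF66 at h6
    exact h6
  have f2 := second19 hd hC h34 h13 h14
  have h15 := chord5_19 hd h05 h01 hc0
  obtain ⟨y2, hsy⟩ := fourth19 hd h05 h01 hc0
  have f3 := sum34_19 hd hC (E5.abs_ang_le19 _ _ _) (abs_nonneg _) (third19 hd hC h45 h14 h15) y2 hsy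
  -- the sum
  have n12 : v2 ≠ v1 := ne63 hd h12.ge
  have n13 : v3 ≠ v1 := ne63 hd h13
  have n14 : v4 ≠ v1 := by
    intro h
    rw [h, dist_self, Real.cosh_zero] at h14
    linarith
  have n01 : v0 ≠ v1 := ne63 hd (by rw [dist_comm]; exact h01.ge)
  have n15 : v5 ≠ v1 := by
    intro h
    rw [h, dist_self, Real.cosh_zero] at h15
    linarith
  have hsum : ((σ * t1 : ℝ) : Real.Angle) =
      ((ang v1 v2 v3 + ang v1 v3 v4 + ang v1 v4 v5 + ang v1 v5 v0 : ℝ) : Real.Angle) := by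
    have k1 := ang_coe66 n12 n13 n01
    have k2 := ang_coe66 n13 n14 n01
    have k3 := ang_coe66 n14 n15 n01
    rw [← e1, k1, k2, k3, Real.Angle.coe_add, Real.Angle.coe_add, Real.Angle.coe_add]
    abel
  obtain ⟨a1, a2⟩ := abs_le.1 (le_refl |ang v1 v2 v3|)
  obtain ⟨b1, b2⟩ := abs_le.1 (le_refl |ang v1 v3 v4|)
  obtain ⟨g1, g2⟩ := abs_le.1 (le_refl |ang v1 v4 v5|)
  obtain ⟨q1, q2⟩ := abs_le.1 (le_refl |ang v1 v5 v0|)
  have h5 := congrArg Real.Angle.toReal hsum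
  have r1 : -Real.pi < σ * t1 ∧ σ * t1 ≤ Real.pi := by
    rcases hσ with h | h
    · rw [h]
      constructor <;> linarith
    · rw [h]
      constructor <;> linarith
  rw [Real.Angle.toReal_coe_eq_self_iff.2 r1,
    Real.Angle.toReal_coe_eq_self_iff.2 ⟨by linarith, by linarith⟩] at h5
  rcases hσ with h | h
  · rw [h] at h5
    linarith
  · rw [h] at h5
    linarith

namespace E5

section conc
variable {G : Tg ℍ} {d : ℝ} {kp : ℍ → ℍ → ℝ} {U : ℕ → ℝ}

/-- **next to a corner in `(3 α, 2 π - 3 α]` of a hexagon face** -/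
theorem hex_half19 (hG : G.Geo4 (alpha d) kp U) (hD : DelG G d) (hS : Sep d G.P)
    (hC6 : Real.cosh d ≤ 11 / 10)
    {C : G.adj.ConnectedComponent} (hC : C ∈ WF G) (hd6 : (G.cI C).card + 2 = 2 * (G.cT C).card)
    (h6 : (G.cJ C).card = 6) {x : ℍ × ℍ} (hx : x ∈ G.cJ C) (h : 3 * alpha d < TH G x)
    (h' : TH G x ≤ 2 * Real.pi - 3 * alpha d)
    (l3 : 2 * alpha d ≤ TH G (sg G (sg G (sg G x))))
    (u3 : TH G (sg G (sg G (sg G x))) ≤ 3 * alpha d) :
    (2 * alpha d ≤ TH G (sg G (sg G x)) → TH G (sg G x) ≤ 3 / 2 * alpha d) ∧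
    (2 * alpha d ≤ TH G (sg G (sg G (sg G (sg G x)))) →
      TH G (sg G (sg G (sg G (sg G (sg G x))))) ≤ 3 / 2 * alpha d) := by
  have hCi := ((mem_WF89 G).1 hC).1
  have hd := hD.hd
  have hal := alpha_lt hd
  have hal0 := alpha_pos hd
  have hp := Real.pi_pos
  obtain ⟨f2, f4, -, -⟩ := hex_fan19 hG hD hS hC hd6 h6 hx h
  obtain ⟨v0, v1⟩ := x
  obtain ⟨v2, v3, v4, v5, g0, g1, g2, g3, g4, g5, hset⟩ := hex_pts19 hG hC hd6 h6 hx
  rw [g0, g1] at f2
  rw [g0, g1, g2, g3] at f4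
  rw [g0, g1, g2] at l3 u3
  rw [g0, g1, g2, g3, g4]
  have x0 := hx
  have x1 := sg_cJ90 G hG hCi x0
  rw [g0] at x1
  have x2 := sg_cJ90 G hG hCi x1
  rw [g1] at x2
  have x3 := sg_cJ90 G hG hCi x2
  rw [g2] at x3
  have x4 := sg_cJ90 G hG hCi x3
  rw [g3] at x4
  have x5 := sg_cJ90 G hG hCi x4
  rw [g4] at x5
  have d0 := (side63 hD x0).2.2
  have d1 := (side63 hD x1).2.2
  have d2 := (side63 hD x2).2.2
  have d3 := (side63 hD x3).2.2
  have d4 := (side63 hD x4).2.2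
  have d5 := (side63 hD x5).2.2
  dsimp only at d0 d1 d2 d3 d4 d5
  have i0 := (cJ_iJ51 G hCi x0).1
  have i1 := (cJ_iJ51 G hCi x1).1
  have i2 := (cJ_iJ51 G hCi x2).1
  have i3 := (cJ_iJ51 G hCi x3).1
  have i4 := (cJ_iJ51 G hCi x4).1
  have i5 := (cJ_iJ51 G hCi x5).1
  have n1 : TH G (v1, v2) < 2 * alpha d := by
    by_contra hc
    push Not at hc
    have := six_before63 hG hD hS hC hd6 h6 x0 (by rw [g0]; exact hc)
    linarith
  have n5 : TH G (v5, v0) < 2 * alpha d := by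
    by_contra hc
    push Not at hc
    have := six_after63 hG hD hS hC hd6 h6 x5 hc
    rw [g5] at this
    linarith
  have k0 := TH_coe19 hG hD i5
  rw [g5] at k0
  have k1 := TH_coe19 hG hD i0
  rw [g0] at k1
  have k5 := TH_coe19 hG hD i4
  rw [g4] at k5
  dsimp only at k0 k1 k5
  have hc0 : Real.cos (ang v0 v1 v5) ≤ Real.cos (3 * alpha d) := by
    have h1 := congrArg Real.Angle.cos k0
    rw [Real.Angle.cos_coe, Real.Angle.cos_coe] at h1
    rw [← h1]
    rcases le_total (TH G (v0, v1)) Real.pi with h2 | h2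
    · exact Real.cos_le_cos_of_nonneg_of_le_pi (by linarith) h2 h.le
    · rw [← Real.cos_two_pi_sub]
      exact Real.cos_le_cos_of_nonneg_of_le_pi (by linarith) (by linarith) (by linarith)
  have n01 : v1 ≠ v0 := ne63 hd d0.ge
  have n05 : v5 ≠ v0 := ne63 hd (by rw [dist_comm]; exact d5.ge)
  have T0 : ∀ {y : ℍ × ℍ}, y ∈ G.cJ C → 0 ≤ TH G y := by
    intro y hy
    have h1 := TH_ge19 hG hD hS (cJ_iJ51 G hCi hy).1
    linarith
  constructor
  · intro l2
    have k2 := ang_TH19 hG hD hS i1 (by rw [g1]; linarith)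
    rw [g1] at k2
    have k3 := ang_TH19 hG hD hS i2 (by rw [g2]; linarith)
    rw [g2] at k3
    dsimp only at k2 k3
    exact half_geo19 hd hC6 (v0 := v0) (v1 := v1) (v2 := v2) (v3 := v3) (v4 := v4) (v5 := v5)
      (σ := 1) d0 d1 d2 d3 d4 (by rw [dist_comm]; exact d5) (Or.inl rfl)
      (by rw [k2, one_mul]) (by rw [k3, one_mul]) l2 f2 l3 u3 hc0
      (by rw [← k1, one_mul]) (T0 x1) (by linarith)
  · intro l4
    have k3 := ang_TH19 hG hD hS i2 (by rw [g2]; linarith)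
    rw [g2] at k3
    have k4 := ang_TH19 hG hD hS i3 (by rw [g3]; linarith)
    rw [g3] at k4
    dsimp only at k3 k4
    have neg : ∀ {v a b : ℍ}, ang v a b ≠ Real.pi → ang v b a = -1 * ang v a b := by
      intro v a b hne
      have h1 : ang v b a = if ang v a b = Real.pi then Real.pi else - ang v a b := by
        unfold ang
        have e : Dv v a / Dv v b = (Dv v b / Dv v a)⁻¹ := by
          rw [inv_div]
        rw [e, Complex.arg_inv]
      rw [h1, if_neg hne]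
      ring
    have k5' : ang v5 v0 v4 ≠ Real.pi := by
      intro h1
      rw [h1] at k5
      have h2 := coe_eq19 k5 (by linarith [TH_ge19 hG hD hS i5]) (by linarith) hp (by linarith)
      linarith
    refine half_geo19 hd hC6 (v0 := v0) (v1 := v5) (v2 := v4) (v3 := v3) (v4 := v2) (v5 := v1)
      (σ := -1) (by rw [dist_comm]; exact d5) (by rw [dist_comm]; exact d4)
      (by rw [dist_comm]; exact d3) (by rw [dist_comm]; exact d2) (by rw [dist_comm]; exact d1)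
      d0 (Or.inr rfl) (t2 := TH G (v4, v5)) (t3 := TH G (v3, v4)) ?_ ?_ l4 f4 l3 u3
      (by rw [cos_ang_comm63 n05 n01]; exact hc0) ?_ (T0 x5) (by linarith)
    · rw [neg (v := v4) (a := v5) (b := v3) (by rw [k4]; linarith [f4]), k4]
    · rw [neg (v := v3) (a := v4) (b := v2) (by rw [k3]; linarith [u3]), k3]
    · rw [neg k5', neg_one_mul, neg_one_mul, Real.Angle.coe_neg, Real.Angle.coe_neg, k5]

end conc

end E5

end

end Pool.Agent.PEN
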