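import Pool.Agent.E5.Kt54

/-! # PENNY: the triangles of a black face without sides (exact count), and the holes with two
leaves or more for `θ = 14/13` -/

set_option autoImplicit false

namespace Pool.Agent.PEN.E5

open Classical UpperHalfPlane
open Pool.Agent.PEN.Cl

noncomputable section

variable {V : Type} (G : Tg V) {al : ℝ} {kp : V → V → ℝ} {U : ℕ → ℝ}

/-- sums over the corners of a black face are invariant under rotation -/
theorem rot_sum54 {K : (cg G).ConnectedComponent} (f : V × V → ℤ) :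
    ∑ z ∈ kT G K, f (z.2, G.ap z.1 z.2) = ∑ z ∈ kT G K, f z := by
  refine Finset.sum_bij' (fun z _ => (z.2, G.ap z.1 z.2)) (fun z _ => (G.ap z.1 z.2, z.1))
    (fun z hz => kT_rot54 G hz) (fun z hz => kT_rot54' G hz) ?_ ?_ (fun z hz => rfl)
  · intro z hz
    have h1 := ((mem_kT42 G).1 hz).1.1
    exact Prod.ext (G.ap3 _ _ h1) rfl
  · intro z hz
    have h1 := ((mem_kT42 G).1 hz).1.1
    exact Prod.ext rfl (G.ap4 _ _ h1)

/-- the corners with a side on the right: one per sector -/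
theorem sides54 (hG : G.Geo4 al kp U) {K : (cg G).ConnectedComponent} (ht : 1 ≤ tK G K) :
    ((kT G K).filter (fun z => ¬ tt G (z.2, z.1))).card = (kS G K).card := by
  refine Finset.card_bij' (fun z _ => (z.2, z.1)) (fun z _ => (z.2, z.1)) ?_ ?_
    (fun z _ => rfl) (fun z _ => rfl)
  · intro z hz
    obtain ⟨h1, h2⟩ := Finset.mem_filter.1 hz
    obtain ⟨h3, h4⟩ := (mem_kT42 G).1 h1
    exact (mem_kS42 G).2 ⟨swap_SD54 G h3 h2, (ku_swap42 G (tt_KJ42 G h3)).trans h4⟩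
  · intro x hx
    obtain ⟨h1, h2⟩ := (mem_kS42 G).1 hx
    have h3 := rn_pos_kS54 G hG ht hx
    have h4 := (rn_pos54 G hG h1).1 (by omega)
    refine Finset.mem_filter.2 ⟨(mem_kT42 G).2 ⟨h4, ?_⟩, ((mem_SD42 G).1 h1).2⟩
    exact (ku_swap42 G ((mem_SD42 G).1 h1).1).trans h2

/-- the tips of the ears -/
theorem tips54 (hG : G.Geo4 al kp U) {K : (cg G).ConnectedComponent} (ht : 1 ≤ tK G K) :
    ((kT G K).filter (fun z => ¬ tt G (z.2, z.1) ∧ ¬ tt G (z.1, G.ap z.1 z.2))).card =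
      (Ea54 G K).card := by
  refine Finset.card_bij' (fun z _ => (z.2, z.1)) (fun z _ => (z.2, z.1)) ?_ ?_
    (fun z _ => rfl) (fun z _ => rfl)
  · intro z hz
    obtain ⟨h1, h2, h5⟩ := Finset.mem_filter.1 hz
    obtain ⟨h3, h4⟩ := (mem_kT42 G).1 h1
    have h6 := swap_SD54 G h3 h2
    refine (mem_Ea54 G).2 ⟨(mem_kS42 G).2 ⟨h6, (ku_swap42 G (tt_KJ42 G h3)).trans h4⟩, ?_⟩
    refine rn_of54 G hG h6 ?_ ?_
    · intro i hi
      have : i = 0 := by omega
      rw [this]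
      exact h3
    · rw [Function.iterate_one]
      exact h5
  · intro x hx
    obtain ⟨h0, h5⟩ := (mem_Ea54 G).1 hx
    obtain ⟨h1, h2⟩ := (mem_kS42 G).1 h0
    have h4 := (rn_pos54 G hG h1).1 (by omega)
    refine Finset.mem_filter.2 ⟨(mem_kT42 G).2 ⟨h4, ?_⟩, ((mem_SD42 G).1 h1).2, ?_⟩
    · exact (ku_swap42 G ((mem_SD42 G).1 h1).1).trans h2
    · have h6 := (run54 G hG h1).2
      rw [h5, Function.iterate_one] at h6
      exact h6

/-- the corners of the triangles without side -/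
def Br54 (K : (cg G).ConnectedComponent) : Finset (V × V) := (kT G K).filter (fun z => sl54 G z)

/-- **the number of triangles without side**, exactly -/
theorem br_count54 (hG : G.Geo4 al kp U) {K : (cg G).ConnectedComponent} (ht : 2 ≤ tK G K) :
    (Br54 G K).card + 3 * (kS G K).card = 3 * tK G K + 3 * (Ea54 G K).card := by
  obtain ⟨i0, hi0⟩ : ∃ i0 : V × V → ℤ, i0 = fun z => if tt G (z.2, z.1) then 0 else 1 := ⟨_, rfl⟩
  obtain ⟨i2, hi2⟩ : ∃ i2 : V × V → ℤ, i2 = fun z => if tt G (z.1, G.ap z.1 z.2) then 0 else 1 :=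
    ⟨_, rfl⟩
  obtain ⟨i1, hi1⟩ : ∃ i1 : V × V → ℤ, i1 = fun z => if tt G (G.ap z.1 z.2, z.2) then 0 else 1 :=
    ⟨_, rfl⟩
  have r0 : ∀ z ∈ kT G K, i0 (z.2, G.ap z.1 z.2) = i1 z := by
    intro z hz
    rw [hi0, hi1]
  have r1 : ∀ z ∈ kT G K, i1 (z.2, G.ap z.1 z.2) = i2 z := by
    intro z hz
    have h1 := ((mem_kT42 G).1 hz).1.1
    rw [hi1, hi2]
    dsimp only
    rw [G.ap3 _ _ h1]
  have r2 : ∀ z ∈ kT G K, i2 (z.2, G.ap z.1 z.2) = i0 z := by
    intro z hz
    have h1 := ((mem_kT42 G).1 hz).1.1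
    rw [hi0, hi2]
    dsimp only
    rw [G.ap3 _ _ h1]
  have s0 : ∑ z ∈ kT G K, i0 z = (kS G K).card := by
    rw [← sides54 G hG (K := K) (by omega), Finset.card_filter]
    push_cast
    refine Finset.sum_congr rfl fun z _ => ?_
    rw [hi0]
    dsimp only
    by_cases h : tt G (z.2, z.1) <;> simp [h]
  have s1 : ∑ z ∈ kT G K, i1 z = (kS G K).card := by
    rw [← s0, ← rot_sum54 G i0]
    exact (Finset.sum_congr rfl r0).symm
  have s2 : ∑ z ∈ kT G K, i2 z = (kS G K).card := by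
    rw [← s1, ← rot_sum54 G i1]
    exact (Finset.sum_congr rfl r1).symm
  have q02 : ∑ z ∈ kT G K, i0 z * i2 z = (Ea54 G K).card := by
    rw [← tips54 G hG (K := K) (by omega), Finset.card_filter]
    push_cast
    refine Finset.sum_congr rfl fun z _ => ?_
    rw [hi0, hi2]
    dsimp only
    by_cases h : tt G (z.2, z.1) <;> by_cases h' : tt G (z.1, G.ap z.1 z.2) <;> simp [h, h']
  have q10 : ∑ z ∈ kT G K, i1 z * i0 z = (Ea54 G K).card := by
    rw [← q02, ← rot_sum54 G (fun z => i0 z * i2 z)]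
    refine (Finset.sum_congr rfl fun z hz => ?_).symm
    rw [r0 z hz, r2 z hz]
  have q21 : ∑ z ∈ kT G K, i2 z * i1 z = (Ea54 G K).card := by
    rw [← q10, ← rot_sum54 G (fun z => i1 z * i0 z)]
    refine (Finset.sum_congr rfl fun z hz => ?_).symm
    rw [r1 z hz, r0 z hz]
  have hpt : ∀ z ∈ kT G K, (if sl54 G z then (1 : ℤ) else 0) = 1 - i0 z - i1 z - i2 z +
      i0 z * i2 z + i1 z * i0 z + i2 z * i1 z := by
    intro z hz
    obtain ⟨z1, z2⟩ := (mem_kT42 G).1 hz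
    rw [hi0, hi1, hi2]
    dsimp only
    unfold sl54
    by_cases h0 : tt G (z.2, z.1) <;> by_cases h1 : tt G (G.ap z.1 z.2, z.2) <;>
      by_cases h2 : tt G (z.1, G.ap z.1 z.2) <;> simp [h0, h1, h2]
    obtain ⟨_, _, h3⟩ := single_of54 G (a := z.1) (b := z.2) (c := G.ap z.1 z.2) z1 rfl h0 h1 h2
    rw [ku_swap42 G (tt_KJ42 G z1), z2] at h3
    omega
  have hB : ((Br54 G K).card : ℤ) = ∑ z ∈ kT G K, (if sl54 G z then (1 : ℤ) else 0) := by
    unfold Br54
    rw [Finset.card_filter]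
    push_cast
    rfl
  have hs := Finset.sum_congr rfl hpt
  rw [← hB, Finset.sum_add_distrib, Finset.sum_add_distrib, Finset.sum_add_distrib,
    Finset.sum_sub_distrib, Finset.sum_sub_distrib, Finset.sum_sub_distrib, q21, q10, q02, s0, s1,
    s2, Finset.sum_const, kT_card63, nsmul_eq_mul] at hs
  push_cast at hs
  omega

/-- the number of corners of a sector in triangles without side -/
def bt54 (x : V × V) : ℕ := ((rd G x).filter (fun z => sl54 G z)).card

theorem sl_filter54 (hG : G.Geo4 al kp U) {x : V × V} :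
    (rd G x).filter (fun z => sl54 G z) ⊆ mc54 G x := by
  intro z hz
  obtain ⟨h1, h2⟩ := Finset.mem_filter.1 hz
  exact (mem_mc54 G).2 ⟨h1, h2.1, h2.2.2⟩

theorem bt_le54 (hG : G.Geo4 al kp U) {x : V × V} (hx : x ∈ SD G) : bt54 G x ≤ rn G x - 2 := by
  rw [← card_mc54 G hG hx]
  exact Finset.card_le_card (sl_filter54 G hG)

/-- a corner in a triangle without side: a middle position -/
theorem sl_pos54 (hG : G.Geo4 al kp U) {x : V × V} (hx : x ∈ SD G) {i : ℕ} (hi : i < rn G x)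
    (h : sl54 G (x.2, (G.ap x.2)^[i] x.1)) : 1 ≤ i ∧ i + 1 < rn G x := by
  refine (mc_pos54 G hG hx).1 ⟨?_, hi⟩
  exact (mem_mc54 G).2 ⟨(mem_rd63 G).2 ⟨i, hi, rfl⟩, h.1, h.2.2⟩

theorem bt_sum54 (hG : G.Geo4 al kp U) (K : (cg G).ConnectedComponent) :
    ∑ x ∈ kS G K, bt54 G x = (Br54 G K).card := by
  unfold Br54
  rw [← cover63 G hG K, Finset.filter_biUnion, Finset.card_biUnion]
  · rfl
  · intro x hx y hy hne
    exact Finset.disjoint_filter_filter (rd_disj63 G hG ((mem_kS42 G).1 hx).1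
      ((mem_kS42 G).1 hy).1 hne)

/-- the sectors with two corners in triangles without side -/
def S2_54 (K : (cg G).ConnectedComponent) : Finset (V × V) :=
  (kS G K).filter (fun x => bt54 G x = 2)

theorem mem_S2_54 {K : (cg G).ConnectedComponent} {x : V × V} :
    x ∈ S2_54 G K ↔ x ∈ kS G K ∧ bt54 G x = 2 := by
  unfold S2_54
  rw [Finset.mem_filter]

/-- run 4, both middle corners -/
theorem s2_prop54 (hG : G.Geo4 al kp U) {K : (cg G).ConnectedComponent} {x : V × V}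
    (hx : x ∈ S2_54 G K) (h4 : rn G x ≤ 4) : rn G x = 4 ∧
      sl54 G (x.2, G.ap x.2 x.1) ∧ sl54 G (x.2, G.ap x.2 (G.ap x.2 x.1)) := by
  obtain ⟨h1, h2⟩ := (mem_S2_54 G).1 hx
  obtain ⟨h3, _⟩ := (mem_kS42 G).1 h1
  have h5 := bt_le54 G hG h3
  have h6 : rn G x = 4 := by omega
  have h7 : (rd G x).filter (fun z => sl54 G z) = mc54 G x := by
    refine Finset.eq_of_subset_of_card_le (sl_filter54 G hG) ?_
    rw [card_mc54 G hG h3]
    unfold bt54 at h2
    omega
  have h8 : ∀ i, 1 ≤ i → i + 1 < rn G x → sl54 G (x.2, (G.ap x.2)^[i] x.1) := by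
    intro i hi1 hi2
    have h9 := ((mc_pos54 G hG h3 (i := i)).2 ⟨hi1, hi2⟩).1
    rw [← h7] at h9
    exact (Finset.mem_filter.1 h9).2
  refine ⟨h6, h8 1 le_rfl (by omega), ?_⟩
  have h10 := h8 2 (by omega) (by omega)
  rw [Function.iterate_succ_apply, Function.iterate_one] at h10
  exact h10

/-- conversely -/
theorem s2_of54 (hG : G.Geo4 al kp U) {K : (cg G).ConnectedComponent} {x : V × V}
    (hx : x ∈ kS G K) (h4 : rn G x = 4) (a1 : sl54 G (x.2, G.ap x.2 x.1))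
    (a2 : sl54 G (x.2, G.ap x.2 (G.ap x.2 x.1))) : x ∈ S2_54 G K := by
  obtain ⟨h3, _⟩ := (mem_kS42 G).1 hx
  refine (mem_S2_54 G).2 ⟨hx, ?_⟩
  have h5 := bt_le54 G hG h3
  have h6 : mc54 G x ⊆ (rd G x).filter (fun z => sl54 G z) := by
    intro z hz
    have hz1 := ((mem_mc54 G).1 hz).1
    obtain ⟨i, hi, rfl⟩ := (mem_rd63 G).1 hz1
    obtain ⟨k1, k2⟩ := (mc_pos54 G hG h3).1 ⟨hz, hi⟩
    refine Finset.mem_filter.2 ⟨hz1, ?_⟩
    have : i = 1 ∨ i = 2 := by omega
    rcases this with rfl | rfl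
    · exact a1
    · rw [Function.iterate_succ_apply, Function.iterate_one]
      exact a2
  have h7 := Finset.card_le_card h6
  rw [card_mc54 G hG h3] at h7
  unfold bt54 at h5 ⊢
  omega

/-- **the partner** of a sector with two corners in triangles without side -/
theorem partner54 (hG : G.Geo4 al kp U) {K : (cg G).ConnectedComponent}
    (hr : ∀ y ∈ kS G K, rn G y ≤ 4) {x : V × V} (hx : x ∈ S2_54 G K) :
    ∃ y ∈ S2_54 G K, y ≠ x ∧ y.2 = G.ap x.2 (G.ap x.2 x.1) ∧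
      G.ap y.2 (G.ap y.2 y.1) = x.2 ∧ x.2 ≠ y.2 ∧
      G.ap y.2 (G.ap y.2 (G.ap y.2 y.1)) = G.ap x.2 x.1 := by
  have hxS := ((mem_S2_54 G).1 hx).1
  obtain ⟨x1, x2⟩ := (mem_kS42 G).1 hxS
  obtain ⟨h4, s1, s2⟩ := s2_prop54 G hG hx (hr x hxS)
  obtain ⟨r1, r2⟩ := run54 G hG x1
  obtain ⟨b, v⟩ := x
  dsimp only at *
  obtain ⟨a1, ha1⟩ : ∃ a1, G.ap v b = a1 := ⟨_, rfl⟩
  obtain ⟨a2, ha2⟩ : ∃ a2, G.ap v a1 = a2 := ⟨_, rfl⟩
  obtain ⟨a3, ha3⟩ : ∃ a3, G.ap v a2 = a3 := ⟨_, rfl⟩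
  have t1 := r1 1 (by omega)
  have t2 := r1 2 (by omega)
  rw [Function.iterate_one] at t1
  rw [Function.iterate_succ_apply, Function.iterate_one] at t2
  rw [ha1] at t1 t2 s1 s2 ⊢
  rw [ha2] at t2 s2 ⊢
  have u1 := tt_rot42 G t2
  dsimp only at u1
  rw [ha3] at u1
  have v1 := G.ap3 _ _ t2.1
  rw [ha3] at v1
  have v2 := G.ap4 _ _ t1.1
  rw [ha2] at v2
  have hk2 : (v, a2) ∈ kT G K := by
    refine (mem_kT42 G).2 ⟨t2, ?_⟩
    have h := (rd_prop63 G hG x1 ((mem_rd63 G).2 ⟨2, by omega, rfl⟩)).2.2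
    rw [Function.iterate_succ_apply, Function.iterate_one] at h
    dsimp only at h
    rw [ha1, ha2] at h
    exact h.trans x2
  have hk3 := kT_rot54 G hk2
  dsimp only at hk3
  rw [ha3, ← cover63 G hG K, Finset.mem_biUnion] at hk3
  obtain ⟨y, hy, hz⟩ := hk3
  obtain ⟨y1, y2⟩ := (mem_kS42 G).1 hy
  obtain ⟨j, hj, hje⟩ := (mem_rd63 G).1 hz
  have q1 : sl54 G (a2, a3) := by
    have h := sl_rot54 G t2 s2
    dsimp only at h
    rw [ha3] at h
    exact h
  have q2 : sl54 G (a2, v) := by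
    have h := sl_rot54' G t1 s1
    dsimp only at h
    rw [ha2] at h
    exact h
  obtain ⟨j1, j2⟩ := sl_pos54 G hG y1 hj (by rw [hje]; exact q1)
  have e1 : y.2 = a2 := congrArg Prod.fst hje
  have e2 : (G.ap y.2)^[j] y.1 = a3 := congrArg Prod.snd hje
  have e3 : (G.ap y.2)^[j + 1] y.1 = v := by
    rw [Function.iterate_succ_apply', e2, e1, v1]
  obtain ⟨j3, j4⟩ := sl_pos54 G hG y1 j2 (by rw [e3, e1]; exact q2)
  have hy4 := hr y hy
  have hj1 : j = 1 := by omega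
  rw [hj1, Function.iterate_one] at e2
  have hne : v ≠ a2 := G.ne _ _ (G.sub t2.1)
  refine ⟨y, s2_of54 G hG hy (by omega) (by rw [e2, e1]; exact q1) ?_, ?_, e1, ?_, ?_, ?_⟩
  · rw [e2, e1, v1]
    exact q2
  · intro h
    have h5 : y.2 = v := by rw [h]
    exact hne (h5.symm.trans e1)
  · rw [e2, e1, v1]
  · rw [e1]
    exact hne
  · rw [e2, e1, v1, v2]

/-- the third corner of the first triangle -/
def g54 (x : V × V) : V × V := (G.ap x.2 x.1, G.ap x.2 (G.ap x.2 x.1))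

theorem g_props54 (hG : G.Geo4 al kp U) {K : (cg G).ConnectedComponent}
    (hr : ∀ y ∈ kS G K, rn G y ≤ 4) {x : V × V} (hx : x ∈ S2_54 G K) :
    g54 G x ∈ Br54 G K ∧ ∀ y ∈ S2_54 G K, g54 G x ∉ rd G y := by
  have hxS := ((mem_S2_54 G).1 hx).1
  obtain ⟨x1, x2⟩ := (mem_kS42 G).1 hxS
  obtain ⟨h4, s1, s2⟩ := s2_prop54 G hG hx (hr x hxS)
  obtain ⟨r1, r2⟩ := run54 G hG x1
  obtain ⟨p, hp, hpx, p1, p2, p3, p4⟩ := partner54 G hG hr hx
  have hpS := ((mem_S2_54 G).1 hp).1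
  obtain ⟨hp4, _, _⟩ := s2_prop54 G hG hp (hr p hpS)
  obtain ⟨pr1, pr2⟩ := run54 G hG ((mem_kS42 G).1 hpS).1
  obtain ⟨b, v⟩ := x
  unfold g54
  dsimp only at *
  obtain ⟨a1, ha1⟩ : ∃ a1, G.ap v b = a1 := ⟨_, rfl⟩
  obtain ⟨a2, ha2⟩ : ∃ a2, G.ap v a1 = a2 := ⟨_, rfl⟩
  have t0 := r1 0 (by omega)
  have t1 := r1 1 (by omega)
  rw [Function.iterate_zero, id_eq] at t0
  rw [Function.iterate_one] at t1
  rw [ha1] at t1 s1 p1 p4 ⊢
  rw [ha2] at p1 ⊢
  have u1 := tt_rot42 G t1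
  dsimp only at u1
  rw [ha2] at u1
  have v1 := G.ap3 _ _ t1.1
  rw [ha2] at v1
  have w1 := G.ap4 _ _ t0.1
  rw [ha1] at w1
  have q1 : sl54 G (a1, a2) := by
    have h := sl_rot54 G t1 s1
    dsimp only at h
    rw [ha2] at h
    exact h
  have hk1 : (v, a1) ∈ kT G K := by
    refine (mem_kT42 G).2 ⟨t1, ?_⟩
    have h := (rd_prop63 G hG x1 ((mem_rd63 G).2 ⟨1, by omega, rfl⟩)).2.2
    rw [Function.iterate_one] at h
    dsimp only at h
    rw [ha1] at h
    exact h.trans x2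
  have hk2 := kT_rot54 G hk1
  dsimp only at hk2
  rw [ha2] at hk2
  refine ⟨Finset.mem_filter.2 ⟨hk2, q1⟩, ?_⟩
  intro y hy hz
  have hyS := ((mem_S2_54 G).1 hy).1
  obtain ⟨y1, y2⟩ := (mem_kS42 G).1 hyS
  obtain ⟨k4, k1, k2⟩ := s2_prop54 G hG hy (hr y hyS)
  obtain ⟨j, hj, hje⟩ := (mem_rd63 G).1 hz
  obtain ⟨j1, j2⟩ := sl_pos54 G hG y1 hj (by rw [hje]; exact q1)
  have e1 : y.2 = a1 := congrArg Prod.fst hje
  have e2 : (G.ap y.2)^[j] y.1 = a2 := congrArg Prod.snd hje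
  have hj12 : j = 1 ∨ j = 2 := by omega
  rcases hj12 with rfl | rfl
  · rw [Function.iterate_one] at e2
    rw [e2, e1, v1] at k2
    have h5 := k2.2.1
    dsimp only at h5
    rw [w1] at h5
    exact ((mem_SD42 G).1 x1).2 h5
  · rw [Function.iterate_succ_apply, Function.iterate_one] at e2
    have h5 := k1.2.1
    dsimp only at h5
    rw [e2, e1] at h5
    -- the last corner of the partner
    have h6 := (run54 G hG y1).1 1 (by omega)
    rw [Function.iterate_one, e1] at h6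
    rw [e1] at e2
    have h7 := G.ap3 _ _ h6.1
    rw [e2] at h7
    have h8 := G.ap4 _ _ h6.1
    rw [e2] at h8
    rw [hp4, Function.iterate_succ_apply, Function.iterate_succ_apply,
      Function.iterate_succ_apply, Function.iterate_one, p4, p1, h8] at pr2
    exact pr2 h5

/-- **the count**: `3 |S2| ≤` the number of corners of triangles without side -/
theorem s2_card54 (hG : G.Geo4 al kp U) {K : (cg G).ConnectedComponent}
    (hr : ∀ y ∈ kS G K, rn G y ≤ 4) : 3 * (S2_54 G K).card ≤ (Br54 G K).card := by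
  have hSD : ∀ x ∈ S2_54 G K, x ∈ SD G := fun x hx =>
    ((mem_kS42 G).1 ((mem_S2_54 G).1 hx).1).1
  obtain ⟨A, hA⟩ : ∃ A, A = (S2_54 G K).biUnion (fun x => (rd G x).filter (fun z => sl54 G z)) :=
    ⟨_, rfl⟩
  have h1 : A.card = 2 * (S2_54 G K).card := by
    rw [hA, Finset.card_biUnion, Finset.sum_const_nat (m := 2), mul_comm]
    · intro x hx
      exact ((mem_S2_54 G).1 hx).2
    · intro x hx y hy hne
      exact Finset.disjoint_filter_filter (rd_disj63 G hG (hSD x hx) (hSD y hy) hne)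
  have h2 : ((S2_54 G K).image (g54 G)).card = (S2_54 G K).card := by
    refine Finset.card_image_of_injOn ?_
    intro x hx y hy he
    have hx := Finset.mem_coe.1 hx
    have hy := Finset.mem_coe.1 hy
    obtain ⟨x1, _, _⟩ := s2_prop54 G hG hx (hr x ((mem_S2_54 G).1 hx).1)
    obtain ⟨y1, _, _⟩ := s2_prop54 G hG hy (hr y ((mem_S2_54 G).1 hy).1)
    have f1 := (run54 G hG (hSD x hx)).1 1 (by omega)
    have f2 := (run54 G hG (hSD y hy)).1 1 (by omega)
    rw [Function.iterate_one] at f1 f2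
    have e1 : G.ap x.2 x.1 = G.ap y.2 y.1 := congrArg Prod.fst he
    have e2 : G.ap x.2 (G.ap x.2 x.1) = G.ap y.2 (G.ap y.2 y.1) := congrArg Prod.snd he
    have g1 := G.ap3 _ _ f1.1
    have g2 := G.ap3 _ _ f2.1
    have e3 : x.2 = y.2 := by
      rw [← g1, ← g2, e2, e1]
    refine (rd_uniq63 G hG (hSD x hx) (hSD y hy) (i := 1) (j := 1) (by omega) (by omega) ?_).1
    rw [Function.iterate_one, Function.iterate_one, e1, e3]
  have h3 : Disjoint A ((S2_54 G K).image (g54 G)) := by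
    rw [Finset.disjoint_right]
    intro z hz hzA
    obtain ⟨x, hx, rfl⟩ := Finset.mem_image.1 hz
    rw [hA, Finset.mem_biUnion] at hzA
    obtain ⟨y, hy, hzy⟩ := hzA
    exact (g_props54 G hG hr hx).2 y hy (Finset.mem_filter.1 hzy).1
  have h4 : A ∪ (S2_54 G K).image (g54 G) ⊆ Br54 G K := by
    intro z hz
    rcases Finset.mem_union.1 hz with hz | hz
    · rw [hA, Finset.mem_biUnion] at hz
      obtain ⟨y, hy, hzy⟩ := hz
      obtain ⟨k1, k2⟩ := Finset.mem_filter.1 hzy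
      refine Finset.mem_filter.2 ⟨?_, k2⟩
      rw [← cover63 G hG K, Finset.mem_biUnion]
      exact ⟨y, ((mem_S2_54 G).1 hy).1, k1⟩
    · obtain ⟨x, hx, rfl⟩ := Finset.mem_image.1 hz
      exact (g_props54 G hG hr hx).1
  have h5 := Finset.card_le_card h4
  rw [Finset.card_union_of_disjoint h3, h1, h2] at h5
  omega

/-- `|S2|` is even -/
theorem s2_even54 (hG : G.Geo4 al kp U) {K : (cg G).ConnectedComponent}
    (hr : ∀ y ∈ kS G K, rn G y ≤ 4) : Even (S2_54 G K).card := by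
  have hSD : ∀ x ∈ S2_54 G K, x ∈ SD G := fun x hx =>
    ((mem_kS42 G).1 ((mem_S2_54 G).1 hx).1).1
  have hex : ∀ x, ∃ y, x ∈ S2_54 G K → y ∈ S2_54 G K ∧ y ≠ x ∧
      y.2 = G.ap x.2 (G.ap x.2 x.1) ∧ G.ap y.2 (G.ap y.2 y.1) = x.2 := by
    intro x
    by_cases hx : x ∈ S2_54 G K
    · obtain ⟨y, h1, h2, h3, h4, _⟩ := partner54 G hG hr hx
      exact ⟨y, fun _ => ⟨h1, h2, h3, h4⟩⟩
    · exact ⟨x, fun h => absurd h hx⟩
  choose p hp using hex
  have h1 : ∑ x ∈ S2_54 G K, (1 : ZMod 2) = 0 := by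
    refine Finset.sum_involution (fun x _ => p x) ?_ ?_ ?_ ?_
    · intro x hx
      decide
    · intro x hx _
      exact (hp x hx).2.1
    · intro x hx
      exact (hp x hx).1
    · intro x hx
      obtain ⟨a1, a2, a3, a4⟩ := hp x hx
      obtain ⟨b1, b2, b3, b4⟩ := hp (p x) a1
      obtain ⟨c1, _, _⟩ := s2_prop54 G hG hx (hr x ((mem_S2_54 G).1 hx).1)
      obtain ⟨d1, _, _⟩ := s2_prop54 G hG b1 (hr _ ((mem_S2_54 G).1 b1).1)
      have e1 : (p (p x)).2 = x.2 := by rw [b3, a4]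
      refine (rd_uniq63 G hG (hSD _ b1) (hSD x hx) (i := 2) (j := 2) (by omega) (by omega)
        ?_).1
      rw [Function.iterate_succ_apply, Function.iterate_one, Function.iterate_succ_apply,
        Function.iterate_one, b4, e1, a3]
  rw [Finset.sum_const, nsmul_eq_mul, mul_one] at h1
  exact (ZMod.natCast_eq_zero_iff_even).1 h1

/-- the number of sectors of run `r` -/
def nr54 (K : (cg G).ConnectedComponent) (r : ℕ) : ℕ := ((kS G K).filter (fun x => rn G x = r)).card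

theorem nr_one54 (K : (cg G).ConnectedComponent) : (Ea54 G K).card = nr54 G K 1 := rfl

/-- **the sectors by runs** -/
theorem nsum54 (hG : G.Geo4 al kp U) {K : (cg G).ConnectedComponent} (ht : 1 ≤ tK G K)
    {S : Finset (V × V)} (hS : S ⊆ kS G K) (hS4 : ∀ x ∈ S, rn G x = 4)
    (h3 : ∀ x ∈ kS G K, x ∉ S → rn G x ≤ 3) :
    (kS G K).card = nr54 G K 1 + nr54 G K 2 + nr54 G K 3 + S.card := by
  have hpos : ∀ x ∈ kS G K, 1 ≤ rn G x := fun x hx => rn_pos_kS54 G hG ht hx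
  have e2 : S.card = ∑ x ∈ kS G K, (if x ∈ S then 1 else 0) := by
    rw [← Finset.card_filter, Finset.filter_mem_eq_inter, Finset.inter_eq_right.2 hS]
  unfold nr54
  rw [e2, Finset.card_filter, Finset.card_filter, Finset.card_filter, ← Finset.sum_add_distrib,
    ← Finset.sum_add_distrib, ← Finset.sum_add_distrib, Finset.card_eq_sum_ones]
  refine Finset.sum_congr rfl fun x hx => ?_
  have k1 := hpos x hx
  by_cases k2 : x ∈ S
  · rw [if_pos k2, hS4 x k2]
    norm_num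
  · have k3 := h3 x hx k2
    rw [if_neg k2]
    have k4 : rn G x = 1 ∨ rn G x = 2 ∨ rn G x = 3 := by omega
    rcases k4 with k4 | k4 | k4 <;> rw [k4] <;> norm_num

/-- **the triangles without side by sectors** -/
theorem brsum54 (hG : G.Geo4 al kp U) {K : (cg G).ConnectedComponent} (ht : 1 ≤ tK G K)
    {S : Finset (V × V)} (hS : S ⊆ kS G K) (hS4 : ∀ x ∈ S, rn G x = 4)
    (h3 : ∀ x ∈ kS G K, x ∉ S → rn G x ≤ 3) :
    (Br54 G K).card ≤ nr54 G K 3 + S.card + (S2_54 G K).card := by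
  have hpos : ∀ x ∈ kS G K, 1 ≤ rn G x := fun x hx => rn_pos_kS54 G hG ht hx
  have e2 : S.card = ∑ x ∈ kS G K, (if x ∈ S then 1 else 0) := by
    rw [← Finset.card_filter, Finset.filter_mem_eq_inter, Finset.inter_eq_right.2 hS]
  unfold nr54 S2_54
  rw [← bt_sum54 G hG K, e2, Finset.card_filter, Finset.card_filter, ← Finset.sum_add_distrib,
    ← Finset.sum_add_distrib]
  refine Finset.sum_le_sum fun x hx => ?_
  have k1 := bt_le54 G hG ((mem_kS42 G).1 hx).1
  by_cases k2 : x ∈ S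
  · rw [if_pos k2]
    rw [hS4 x k2] at k1
    have k5 : bt54 G x = 0 ∨ bt54 G x = 1 ∨ bt54 G x = 2 := by omega
    rcases k5 with k5 | k5 | k5 <;> rw [k5] <;> norm_num
  · have k3 := h3 x hx k2
    rw [if_neg k2]
    have k4 : rn G x = 3 ∨ rn G x ≤ 2 := by omega
    rcases k4 with k4 | k4
    · rw [if_pos k4]
      have k5 : bt54 G x = 0 ∨ bt54 G x = 1 := by omega
      rcases k5 with k5 | k5 <;> rw [k5] <;> norm_num
    · have k5 : bt54 G x = 0 := by omega
      rw [k5]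
      exact Nat.zero_le _

theorem s2_sub54 (hG : G.Geo4 al kp U) {K : (cg G).ConnectedComponent}
    {S : Finset (V × V)} (h3 : ∀ x ∈ kS G K, x ∉ S → rn G x ≤ 3) : S2_54 G K ⊆ S := by
  intro x hx
  by_contra hc
  obtain ⟨h1, h2⟩ := (mem_S2_54 G).1 hx
  have h4 := h3 x h1 hc
  have h5 := bt_le54 G hG ((mem_kS42 G).1 h1).1
  omega

/-- an ear has no neighbouring ear -/
theorem u_ear54 (hG : G.Geo4 al kp U) {K : (cg G).ConnectedComponent} (ht : 2 ≤ tK G K)
    {e : V × V} (he : e ∈ Ea54 G K) : u54 G e = 0 := by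
  obtain ⟨h1, h2⟩ := (mem_Ea54 G).1 he
  obtain ⟨k1, k2⟩ := (mem_kS42 G).1 h1
  obtain ⟨y, hy, hye⟩ := pred54 G hG h1
  obtain ⟨r1, r2, _⟩ := ear54 G hG ht h1 h2 hy hye
  unfold u54 uN54 uP54
  rw [if_neg (by omega), if_neg]
  rintro ⟨z, hz1, hz2, hz3⟩
  have : z = y := nx_inj42 G hG hz1 ((mem_kS42 G).1 hy).1 (hz2.trans hye.symm)
  rw [this] at hz3
  omega

/-- a sector of run 2 has at most one neighbouring ear -/
theorem u_two54 (hG : G.Geo4 al kp U) {K : (cg G).ConnectedComponent} (ht : 3 ≤ tK G K)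
    {x : V × V} (hx : x ∈ kS G K) (h2 : rn G x = 2) : u54 G x ≤ 1 := by
  by_contra hc
  have h0 := uN_le54 G x
  have h0' := uP_le54 G x
  unfold u54 at hc
  have h3 : uN54 G x = 1 := by omega
  have h4 : uP54 G x = 1 := by omega
  unfold uN54 at h3
  unfold uP54 at h4
  have h5 : rn G (nx G x) = 1 := by
    by_contra h
    rw [if_neg h] at h3
    omega
  have h6 : ∃ e ∈ SD G, nx G e = x ∧ rn G e = 1 := by
    by_contra h
    rw [if_neg h] at h4
    omega
  obtain ⟨e, he1, he2, he3⟩ := h6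
  have h7 := pair121_89 G hG he1 he3 (by rw [he2]; exact h2) (by rw [he2]; exact h5)
  have h8 : ku G e = K := by
    rw [← ((mem_kS42 G).1 hx).2, ← he2]
    exact (nx_ku63 G hG he1).2.symm
  rw [h8] at h7
  omega

/-- **both sides of every ear** -/
theorem ears_sum54 (hG : G.Geo4 al kp U) {K : (cg G).ConnectedComponent} (ht : 3 ≤ tK G K)
    {S : Finset (V × V)} (hS : S ⊆ kS G K) (hS4 : ∀ x ∈ S, rn G x = 4)
    (h3 : ∀ x ∈ kS G K, x ∉ S → rn G x ≤ 3) :
    2 * nr54 G K 1 ≤ ∑ x ∈ S, u54 G x + nr54 G K 2 + 2 * nr54 G K 3 := by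
  have hpos : ∀ x ∈ kS G K, 1 ≤ rn G x := fun x hx => rn_pos_kS54 G hG (by omega) hx
  have e1 := uL_sum54 G hG (K := K) (Finset.Subset.refl (kS G K))
  have e2 : uL54 G K (kS G K) = 2 * nr54 G K 1 := by
    unfold uL54 An54 Ap54
    rw [Finset.filter_true_of_mem, Finset.filter_true_of_mem, nr_one54 G]
    · omega
    · intro e he
      exact pred54 G hG ((mem_Ea54 G).1 he).1
    · intro e he
      exact nx_kS89 G hG ((mem_Ea54 G).1 he).1
  have e3 : ∑ x ∈ S, u54 G x = ∑ x ∈ kS G K, (if x ∈ S then u54 G x else 0) := by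
    rw [← Finset.sum_filter, Finset.filter_mem_eq_inter, Finset.inter_eq_right.2 hS]
  rw [← e2, e1, e3]
  unfold nr54
  rw [Finset.card_filter, Finset.card_filter, Finset.mul_sum, ← Finset.sum_add_distrib,
    ← Finset.sum_add_distrib]
  refine Finset.sum_le_sum fun x hx => ?_
  change u54 G x ≤ _
  have k1 := hpos x hx
  by_cases k2 : x ∈ S
  · rw [if_pos k2]
    omega
  · have k3 := h3 x hx k2
    rw [if_neg k2]
    have k4 : rn G x = 1 ∨ rn G x = 2 ∨ rn G x = 3 := by omega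
    rcases k4 with k4 | k4 | k4
    · have := u_ear54 G hG (K := K) (by omega) ((mem_Ea54 G).2 ⟨hx, k4⟩)
      omega
    · have := u_two54 G hG ht hx k4
      rw [k4]
      norm_num
      omega
    · have := u_le54 G x
      rw [k4]
      norm_num
      omega

/-- **the ears away from one sector** have their own triangles -/
theorem ears_one54 (hG : G.Geo4 al kp U) {K : (cg G).ConnectedComponent} (ht : 2 ≤ tK G K)
    {x : V × V} (hx : x ∈ kS G K) (h2 : 2 ≤ rn G x) :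
    nr54 G K 1 + rn G x ≤ tK G K + u54 G x := by
  obtain ⟨x1, x2⟩ := (mem_kS42 G).1 hx
  obtain ⟨A, hA⟩ : ∃ A, A = (Ea54 G K).filter (fun e => nx G e ≠ x ∧ nx G x ≠ e) := ⟨_, rfl⟩
  have hmA : ∀ e ∈ A, e ∈ kS G K ∧ rn G e = 1 ∧ nx G e ≠ x ∧ nx G x ≠ e := by
    intro e he
    rw [hA, Finset.mem_filter, mem_Ea54] at he
    exact ⟨he.1.1, he.1.2, he.2.1, he.2.2⟩
  have h1 : (Ea54 G K).card ≤ A.card + u54 G x := by
    have hsub : Ea54 G K ⊆ A ∪ (An54 G K {x} ∪ Ap54 G K {x}) := by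
      intro e he
      by_cases k1 : nx G e = x
      · refine Finset.mem_union_right _ (Finset.mem_union_left _ (Finset.mem_filter.2 ⟨he, ?_⟩))
        rw [k1]
        exact Finset.mem_singleton_self x
      · by_cases k2 : nx G x = e
        · exact Finset.mem_union_right _ (Finset.mem_union_right _ (Finset.mem_filter.2
            ⟨he, x, Finset.mem_singleton_self x, k2⟩))
        · refine Finset.mem_union_left _ ?_
          rw [hA]
          exact Finset.mem_filter.2 ⟨he, k1, k2⟩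
    have k3 := Finset.card_le_card hsub
    have k4 := Finset.card_union_le A (An54 G K {x} ∪ Ap54 G K {x})
    have k5 := Finset.card_union_le (An54 G K {x}) (Ap54 G K {x})
    have k6 := uL_sum54 G hG (K := K) (S := {x}) (Finset.singleton_subset_iff.2 hx)
    rw [Finset.sum_singleton] at k6
    unfold uL54 at k6
    unfold u54
    omega
  -- the triangles of the ears
  have ear_tri : ∀ e ∈ kS G K, rn G e = 1 → ∀ w ∈ kS G K, ∀ z ∈ rd G w,
      G.tri z = G.tri (e.2, e.1) → w = e ∨ nx G w = e ∨ w = nx G e := by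
    intro e he he1 w hw z hz htri
    obtain ⟨e1, e2⟩ := (mem_kS42 G).1 he
    obtain ⟨w1, w2⟩ := (mem_kS42 G).1 hw
    obtain ⟨y, hy, hye⟩ := pred54 G hG he
    obtain ⟨y1, y2⟩ := (mem_kS42 G).1 hy
    obtain ⟨r1, r2, a1, en, b1, b2, b3, b5, b4, t1, a6⟩ := ear54 G hG ht he he1 hy hye
    obtain ⟨z1, z2, z3⟩ := rd_prop63 G hG w1 hz
    have huniq : ∀ s ∈ SD G, z ∈ rd G s → w = s := by
      intro s hs hzs
      by_contra hne
      exact Finset.disjoint_left.1 (rd_disj63 G hG w1 hs hne) hz hzs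
    rcases (tri_eq_iff G b1.1 z1.1).1 htri.symm with h | h | h
    · left
      refine huniq e e1 ?_
      rw [h]
      exact (mem_rd63 G).2 ⟨0, by omega, rfl⟩
    · right; left
      dsimp only at h
      have : w = y := by
        refine huniq y y1 ?_
        rw [h, mem_rd63]
        refine ⟨rn G y - 1, by omega, ?_⟩
        have := (last54 G hG y1 hye (by omega)).2.2.1
        rw [a1, this]
      rw [this]
      exact hye
    · right; right
      dsimp only at h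
      refine huniq _ ((mem_kS42 G).1 (nx_kS89 G hG he)).1 ?_
      rw [h, mem_rd63]
      refine ⟨0, by omega, ?_⟩
      rw [Function.iterate_zero, id_eq, en]
  have h3 : (A.image (fun e => G.tri (e.2, e.1))).card = A.card := by
    refine Finset.card_image_of_injOn ?_
    intro e he e' he' heq
    obtain ⟨m1, m2, m3, m4⟩ := hmA e (Finset.mem_coe.1 he)
    obtain ⟨n1, n2, n3, n4⟩ := hmA e' (Finset.mem_coe.1 he')
    obtain ⟨y, hy, hye⟩ := pred54 G hG n1
    obtain ⟨r1, r2, _⟩ := ear54 G hG ht n1 n2 hy hye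
    rcases ear_tri e' n1 n2 e m1 (e.2, e.1) ((mem_rd63 G).2 ⟨0, by omega, rfl⟩) heq with
      h | h | h
    · exact h
    · exfalso
      have : e = y := nx_inj42 G hG ((mem_kS42 G).1 m1).1 ((mem_kS42 G).1 hy).1 (h.trans hye.symm)
      rw [← this] at r1
      omega
    · exfalso
      rw [← h] at r2
      omega
  have h4 : Disjoint (A.image (fun e => G.tri (e.2, e.1))) (rt G x) := by
    rw [Finset.disjoint_left]
    intro D hD hDx
    obtain ⟨e, he, rfl⟩ := Finset.mem_image.1 hD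
    obtain ⟨z, hz, hze⟩ := Finset.mem_image.1 hDx
    obtain ⟨m1, m2, m3, m4⟩ := hmA e he
    rcases ear_tri e m1 m2 x hx z hz hze with h | h | h
    · rw [h] at h2
      omega
    · exact m4 h
    · exact m3 h.symm
  have h5 : A.image (fun e => G.tri (e.2, e.1)) ∪ rt G x ⊆ (kT G K).image G.tri := by
    intro D hD
    rcases Finset.mem_union.1 hD with hD | hD
    · obtain ⟨e, he, rfl⟩ := Finset.mem_image.1 hD
      obtain ⟨m1, m2, m3, m4⟩ := hmA e he
      obtain ⟨e1, e2⟩ := (mem_kS42 G).1 m1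
      refine Finset.mem_image.2 ⟨_, (mem_kT42 G).2 ⟨(rn_pos54 G hG e1).1 (by omega), ?_⟩, rfl⟩
      exact (ku_swap42 G ((mem_SD42 G).1 e1).1).trans e2
    · have := rt_sub63 G hG x1 hD
      rw [x2] at this
      exact this
  have h6 := Finset.card_le_card h5
  rw [Finset.card_union_of_disjoint h4, h3, card_rt63 G hG x1] at h6
  rw [← nr_one54 G]
  unfold tK
  omega

/-- the sectors of run at least three without a corner in a triangle without side -/
def Zb54 (K : (cg G).ConnectedComponent) : Finset (V × V) :=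
  (kS G K).filter (fun x => 3 ≤ rn G x ∧ bt54 G x = 0)

/-- `brsum54`, exactly -/
theorem brz54 (hG : G.Geo4 al kp U) {K : (cg G).ConnectedComponent} (ht : 1 ≤ tK G K)
    {S : Finset (V × V)} (hS : S ⊆ kS G K) (hS4 : ∀ x ∈ S, rn G x = 4)
    (h3 : ∀ x ∈ kS G K, x ∉ S → rn G x ≤ 3) :
    (Br54 G K).card + (Zb54 G K).card = nr54 G K 3 + S.card + (S2_54 G K).card := by
  have e2 : S.card = ∑ x ∈ kS G K, (if x ∈ S then 1 else 0) := by
    rw [← Finset.card_filter, Finset.filter_mem_eq_inter, Finset.inter_eq_right.2 hS]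
  unfold nr54 S2_54 Zb54
  rw [← bt_sum54 G hG K, e2, Finset.card_filter, Finset.card_filter, Finset.card_filter,
    ← Finset.sum_add_distrib, ← Finset.sum_add_distrib, ← Finset.sum_add_distrib]
  refine Finset.sum_congr rfl fun x hx => ?_
  have k1 := bt_le54 G hG ((mem_kS42 G).1 hx).1
  by_cases k2 : x ∈ S
  · rw [if_pos k2, hS4 x k2]
    rw [hS4 x k2] at k1
    have k5 : bt54 G x = 0 ∨ bt54 G x = 1 ∨ bt54 G x = 2 := by omega
    rcases k5 with k5 | k5 | k5 <;> rw [k5] <;> norm_num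
  · have k3 := h3 x hx k2
    rw [if_neg k2]
    have k4 : rn G x = 3 ∨ rn G x ≤ 2 := by omega
    rcases k4 with k4 | k4
    · have k5 : bt54 G x = 0 ∨ bt54 G x = 1 := by omega
      rcases k5 with k5 | k5 <;> rw [k4, k5] <;> norm_num
    · have k5 : bt54 G x = 0 := by omega
      have k6 : ¬ 3 ≤ rn G x := by omega
      have k7 : rn G x ≠ 3 := by omega
      rw [k5, if_neg k7, if_neg (fun h => k6 h.1)]
      norm_num

/-- **behind an ear with a neighbour of run two** the triangle has a side -/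
theorem ear_br54 (hG : G.Geo4 al kp U) {K : (cg G).ConnectedComponent} (ht : 2 ≤ tK G K)
    {e y : V × V} (he : e ∈ kS G K) (h1 : rn G e = 1) (hy : y ∈ kS G K) (hye : nx G y = e)
    (h2 : rn G y = 2 ∨ rn G (nx G e) = 2) :
    (rn G (nx G e) = 3 → bt54 G (nx G e) = 0) ∧ (rn G y = 3 → bt54 G y = 0) := by
  obtain ⟨r1, r2, a1, en, b1, b2, b3, b5, b4, t1, a6⟩ := ear54 G hG ht he h1 hy hye
  obtain ⟨y1, y2⟩ := (mem_kS42 G).1 hy
  have hw := nx_kS89 G hG he
  obtain ⟨w1, w2⟩ := (mem_kS42 G).1 hw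
  obtain ⟨q, hq⟩ : ∃ q, G.ap e.2 e.1 = q := ⟨_, rfl⟩
  obtain ⟨r, hr⟩ : ∃ r, G.ap q e.1 = r := ⟨_, rfl⟩
  rw [hq] at en b2 b3 b4 b5 t1 a6
  rw [hr] at a6
  have hn : ¬ sl54 G (q, e.1) := by
    intro h
    rcases h2 with h2 | h2
    · rw [h2, Nat.sub_self, Function.iterate_zero, id_eq] at a6
      have h5 := h.2.1
      dsimp only at h5
      rw [hr, ← a6, ← a1] at h5
      exact ((mem_SD42 G).1 y1).2 h5
    · have h5 := (run54 G hG w1).2
      rw [h2, Function.iterate_succ_apply, Function.iterate_one, en] at h5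
      dsimp only at h5
      rw [b5] at h5
      exact h5 h.2.2
  have hn2 : ¬ sl54 G (e.1, r) := by
    intro h
    have h5 := tt_rot42 G t1
    dsimp only at h5
    rw [hr] at h5
    have h6 := sl_rot54' G h5 h
    dsimp only at h6
    have h7 := G.ap3 _ _ t1.1
    rw [hr] at h7
    rw [h7] at h6
    exact hn h6
  constructor
  · intro h3
    unfold bt54
    rw [Finset.card_eq_zero, Finset.filter_eq_empty_iff]
    intro z hz hs
    obtain ⟨i, hi, rfl⟩ := (mem_rd63 G).1 hz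
    obtain ⟨i1, i2⟩ := sl_pos54 G hG w1 hi hs
    have hi1 : i = 1 := by omega
    rw [hi1, Function.iterate_one, en] at hs
    dsimp only at hs
    rw [b5] at hs
    exact hn hs
  · intro h3
    unfold bt54
    rw [Finset.card_eq_zero, Finset.filter_eq_empty_iff]
    intro z hz hs
    obtain ⟨i, hi, rfl⟩ := (mem_rd63 G).1 hz
    obtain ⟨i1, i2⟩ := sl_pos54 G hG y1 hi hs
    have hi1 : i = rn G y - 2 := by omega
    rw [hi1, a1, a6] at hs
    exact hn2 hs

/-- **all the numbers of a hole** `K` (a disc): `S` = the sectors of run four -/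
theorem nums54 (hG : G.Geo4 al kp U) {K : (cg G).ConnectedComponent} (ht : 2 ≤ tK G K)
    (hd : (kS G K).card = tK G K + 2) {S : Finset (V × V)} (hS : S ⊆ kS G K)
    (hS4 : ∀ x ∈ S, rn G x = 4) (h3 : ∀ x ∈ kS G K, x ∉ S → rn G x ≤ 3) :
    tK G K + 2 = nr54 G K 1 + nr54 G K 2 + nr54 G K 3 + S.card ∧
      2 * nr54 G K 1 + nr54 G K 2 = 6 + S.card ∧
      (Br54 G K).card + 6 = 3 * nr54 G K 1 ∧
      (Br54 G K).card + (Zb54 G K).card = nr54 G K 3 + S.card + (S2_54 G K).card ∧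
      3 * (S2_54 G K).card ≤ (Br54 G K).card ∧ (∃ k, (S2_54 G K).card = k + k) ∧
      (S2_54 G K).card ≤ S.card := by
  have hr : ∀ y ∈ kS G K, rn G y ≤ 4 := by
    intro y hy
    by_cases h : y ∈ S
    · rw [hS4 y h]
    · have := h3 y hy h
      omega
  have e1 := nsum54 G hG (K := K) (by omega) hS hS4 h3
  have e2 := ears_disc54 G hG (K := K) (by omega) hd hS hS4 h3
  have e3 := br_count54 G hG (K := K) ht
  rw [nr_one54 G] at e2 e3
  refine ⟨by omega, e2, by omega, brz54 G hG (by omega) hS hS4 h3, s2_card54 G hG hr,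
    s2_even54 G hG hr, Finset.card_le_card (s2_sub54 G hG h3)⟩

/-- **ears against stoppers** -/
theorem ears_le54 (hG : G.Geo4 al kp U) {K : (cg G).ConnectedComponent} (ht : 2 ≤ tK G K)
    (hd : (kS G K).card = tK G K + 2) {S : Finset (V × V)} (hS : S ⊆ kS G K)
    (hS4 : ∀ x ∈ S, rn G x = 4) (h3 : ∀ x ∈ kS G K, x ∉ S → rn G x ≤ 3)
    (h2 : 2 ≤ S.card + nr54 G K 3) : nr54 G K 1 ≤ S.card + nr54 G K 3 := by
  obtain ⟨c1, c2, c3, c4, c5, ⟨k, c6⟩, c7⟩ := nums54 G hG ht hd hS hS4 h3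
  have h : nr54 G K 1 = 2 ∨ nr54 G K 1 = 3 ∨ 4 ≤ nr54 G K 1 := by omega
  rcases h with h | h | h <;> omega

/-- **(H1)** a hole with one leaf -/
theorem hole1_54 (hG : G.Geo4 al kp U) {K : (cg G).ConnectedComponent}
    (hd : (kS G K).card = tK G K + 2) {x : V × V} (hx : x ∈ kS G K)
    (hx4 : rn G x = 4) (h3 : ∀ y ∈ kS G K, y ≠ x → rn G y ≤ 3) :
    13 * wx G (14 / 13) K + 16 + 4 * (nr54 G K 3 : ℝ) ≤ 14 ∧
      (1 ≤ nr54 G K 3 → 13 * wx G (14 / 13) K + 16 + 4 * (nr54 G K 3 : ℝ) ≤ 8) ∧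
      (u54 G x ≤ 1 → 13 * wx G (14 / 13) K + 16 + 4 * (nr54 G K 3 : ℝ) ≤ 4) ∧
      (u54 G x = 0 → 13 * wx G (14 / 13) K + 16 + 4 * (nr54 G K 3 : ℝ) ≤ -6) := by
  have ht := rn_le_tK63 G hG ((mem_kS42 G).1 hx).1
  rw [((mem_kS42 G).1 hx).2, hx4] at ht
  obtain ⟨c1, c2, c3, _⟩ := nums54 G hG (K := K) (by omega) hd (S := {x})
    (Finset.singleton_subset_iff.2 hx)
    (fun y hy => by rw [Finset.mem_singleton.1 hy]; exact hx4)
    (fun y hy hy2 => h3 y hy fun h => hy2 (Finset.mem_singleton.2 h))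
  rw [Finset.card_singleton] at c1 c2
  have c5 := ears_one54 G hG (K := K) (by omega) hx (by omega)
  have c6 := u_le54 G x
  rw [hx4] at c5
  have hp := wx13_disc54 G hd
  rw [hp]
  have d1 : (tK G K : ℝ) = 6 + nr54 G K 3 - nr54 G K 1 := by
    have : tK G K + nr54 G K 1 = 6 + nr54 G K 3 := by omega
    have h : (tK G K : ℝ) + nr54 G K 1 = 6 + nr54 G K 3 := by exact_mod_cast this
    linarith
  refine ⟨?_, fun h => ?_, fun h => ?_, fun h => ?_⟩
  · have : 56 + 4 * nr54 G K 3 ≤ 14 * tK G K := by omega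
    have h : (56 : ℝ) + 4 * nr54 G K 3 ≤ 14 * tK G K := by exact_mod_cast this
    linarith
  · have : 62 + 4 * nr54 G K 3 ≤ 14 * tK G K := by omega
    have h : (62 : ℝ) + 4 * nr54 G K 3 ≤ 14 * tK G K := by exact_mod_cast this
    linarith
  · have : 66 + 4 * nr54 G K 3 ≤ 14 * tK G K := by omega
    have h : (66 : ℝ) + 4 * nr54 G K 3 ≤ 14 * tK G K := by exact_mod_cast this
    linarith
  · have : 76 + 4 * nr54 G K 3 ≤ 14 * tK G K := by omega
    have h : (76 : ℝ) + 4 * nr54 G K 3 ≤ 14 * tK G K := by exact_mod_cast this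
    linarith

/-- the case of six triangles, two leaves and one middle sector -/
theorem hole21_54 (hG : G.Geo4 al kp U) {K : (cg G).ConnectedComponent} (ht : 2 ≤ tK G K)
    (hd : (kS G K).card = tK G K + 2) {S : Finset (V × V)} (hS : S ⊆ kS G K)
    (hS4 : ∀ x ∈ S, rn G x = 4) (h3 : ∀ x ∈ kS G K, x ∉ S → rn G x ≤ 3)
    (hS2 : S.card = 2) (hn1 : nr54 G K 1 = 3) (hn3 : nr54 G K 3 = 1) :
    3 ≤ ∑ x ∈ S, u54 G x := by
  by_contra hc
  obtain ⟨c1, c2, c3, c4, c5, ⟨k, c6⟩, c7⟩ := nums54 G hG ht hd hS hS4 h3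
  have h1 : uL54 G K S = ∑ x ∈ S, u54 G x := uL_sum54 G hG hS
  have h2 : ¬ Ea54 G K ⊆ An54 G K S ∪ Ap54 G K S := by
    intro h
    have k1 := Finset.card_le_card h
    have k2 := Finset.card_union_le (An54 G K S) (Ap54 G K S)
    rw [nr_one54 G] at k1
    unfold uL54 at h1
    omega
  rw [Finset.not_subset] at h2
  obtain ⟨e, he, hne⟩ := h2
  rw [Finset.mem_union] at hne
  push Not at hne
  obtain ⟨n1, n2⟩ := hne
  obtain ⟨m1, m2⟩ := (mem_Ea54 G).1 he
  obtain ⟨y, hy, hye⟩ := pred54 G hG m1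
  have hw := nx_kS89 G hG m1
  have f1 : nx G e ∉ S := fun h => n1 (Finset.mem_filter.2 ⟨he, h⟩)
  have f2 : y ∉ S := fun h => n2 (Finset.mem_filter.2 ⟨he, y, h, hye⟩)
  have g1 := h3 _ hw f1
  have g2 := h3 y hy f2
  obtain ⟨r1, r2, a1, en, b1, b2, _⟩ := ear54 G hG ht m1 m2 hy hye
  have hyw : y ≠ nx G e := by
    intro h
    have h5 : y.2 = (nx G e).2 := by rw [← h]
    rw [a1, en] at h5
    exact G.ne _ _ (G.sub b2.1) h5
  have h22 : ¬ (rn G y = 2 ∧ rn G (nx G e) = 2) := by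
    rintro ⟨k1, k2⟩
    obtain ⟨s, hs⟩ := Finset.card_pos.1 (by omega : 0 < S.card)
    rcases ear_two54 G hG ht m1 m2 hy hye k1 k2 s (hS hs) with h | h | h
    · rw [hS4 s hs] at h
      omega
    · rw [h] at hs
      exact f2 hs
    · rw [h] at hs
      exact f1 hs
  have h33 : ¬ (rn G y = 3 ∧ rn G (nx G e) = 3) := by
    rintro ⟨k1, k2⟩
    have k3 : ({y, nx G e} : Finset (V × V)) ⊆ (kS G K).filter (fun x => rn G x = 3) := by
      intro z hz
      rw [Finset.mem_insert, Finset.mem_singleton] at hz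
      rcases hz with rfl | rfl
      · exact Finset.mem_filter.2 ⟨hy, k1⟩
      · exact Finset.mem_filter.2 ⟨hw, k2⟩
    have k4 := Finset.card_le_card k3
    rw [Finset.card_pair hyw] at k4
    unfold nr54 at hn3
    omega
  have hz : 1 ≤ (Zb54 G K).card := by
    rw [Nat.one_le_iff_ne_zero, ← Nat.pos_iff_ne_zero, Finset.card_pos]
    have k5 := ear_br54 G hG ht m1 m2 hy hye
    by_cases k6 : rn G y = 3
    · exact ⟨y, Finset.mem_filter.2 ⟨hy, by omega, (k5 (by omega)).2 k6⟩⟩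
    · exact ⟨nx G e, Finset.mem_filter.2 ⟨hw, by omega, (k5 (by omega)).1 (by omega)⟩⟩
  omega

/-- **(H2)** a hole with two leaves or more: `2 u` each, but for the octagon -/
theorem hole2_54 (hG : G.Geo4 al kp U) {K : (cg G).ConnectedComponent}
    (hd : (kS G K).card = tK G K + 2) {S : Finset (V × V)} (hS : S ⊆ kS G K)
    (hS4 : ∀ x ∈ S, rn G x = 4) (h3 : ∀ x ∈ kS G K, x ∉ S → rn G x ≤ 3) (hS2 : 2 ≤ S.card) :
    13 * wx G (14 / 13) K + 16 * (S.card : ℝ) + 4 * (nr54 G K 3 : ℝ) ≤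
        2 * ∑ x ∈ S, (u54 G x : ℝ) ∨
      (S.card = 2 ∧ nr54 G K 1 = 4 ∧ nr54 G K 2 = 0 ∧ nr54 G K 3 = 2 ∧ tK G K = 6 ∧
        (∀ x ∈ S, u54 G x = 2) ∧
        13 * wx G (14 / 13) K + 16 * (S.card : ℝ) + 4 * (nr54 G K 3 : ℝ) = 10) := by
  obtain ⟨s, hs⟩ := Finset.card_pos.1 (by omega : 0 < S.card)
  have ht := rn_le_tK63 G hG ((mem_kS42 G).1 (hS hs)).1
  rw [((mem_kS42 G).1 (hS hs)).2, hS4 s hs] at ht
  obtain ⟨c1, c2, c3, c4, c5, ⟨k, c6⟩, c7⟩ := nums54 G hG (K := K) (by omega) hd hS hS4 h3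
  have c8 := ears_sum54 G hG (K := K) (by omega) hS hS4 h3
  have c9 := lh54 G hG (K := K) (by omega) hS ⟨s, hs⟩ (fun x hx => by rw [hS4 x hx]; norm_num)
  have c10 := hole21_54 G hG (K := K) (by omega) hd hS hS4 h3
  have c11 := ears_le54 G hG (K := K) (by omega) hd hS hS4 h3 (by omega)
  have hu : ∑ x ∈ S, u54 G x ≤ 2 * S.card := by
    have := Finset.sum_le_card_nsmul S (fun x => u54 G x) 2 (fun x _ => u_le54 G x)
    rw [smul_eq_mul] at this
    omega
  have hp := wx13_disc54 G hd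
  -- the lemma of the ears in numbers
  have h1 : ((uL54 G K S : ℕ) : ℝ) = ∑ x ∈ S, (u54 G x : ℝ) := by
    have : uL54 G K S = ∑ x ∈ S, u54 G x := uL_sum54 G hG hS
    rw [this]
    push_cast
    rfl
  have h2 := sum_two54 G hG K
  have h4 := Finset.sum_sdiff (f := fun x => 2 - (rn G x : ℝ)) hS
  have h5 : ∑ x ∈ S, (2 - (rn G x : ℝ)) = -2 * S.card := by
    rw [Finset.sum_congr rfl fun x hx => by rw [hS4 x hx], Finset.sum_const, nsmul_eq_mul]
    push_cast
    ring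
  have hdR : ((kS G K).card : ℝ) = tK G K + 2 := by exact_mod_cast hd
  have h6 : (4 : ℝ) + 2 * S.card ≤ ((∑ x ∈ S, u54 G x : ℕ) : ℝ) + tK G K := by
    push_cast
    rw [← h1]
    linarith
  have h7 : 4 + 2 * S.card ≤ ∑ x ∈ S, u54 G x + tK G K := by exact_mod_cast h6
  by_cases hoct : S.card = 2 ∧ nr54 G K 3 = 2 ∧ nr54 G K 1 = 4
  · right
    obtain ⟨o1, o2, o3⟩ := hoct
    have o4 : tK G K = 6 := by omega
    have o5 : 4 ≤ ∑ x ∈ S, u54 G x := by omega
    refine ⟨o1, o3, by omega, o2, o4, ?_, ?_⟩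
    · intro x hx
      by_contra hne
      have k1 := u_le54 G x
      have k2 : ∑ y ∈ S, u54 G y < ∑ _y ∈ S, 2 :=
        Finset.sum_lt_sum (fun y _ => u_le54 G y) ⟨x, hx, by omega⟩
      rw [Finset.sum_const, smul_eq_mul] at k2
      omega
    · rw [hp, o1, o2, o4]
      norm_num
  · left
    have key : 54 + 16 * S.card + 4 * nr54 G K 3 ≤ 2 * ∑ x ∈ S, u54 G x + 14 * tK G K := by
      by_cases hE : nr54 G K 1 < S.card + nr54 G K 3
      · omega
      · have hE2 : nr54 G K 1 = S.card + nr54 G K 3 := by omega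
        by_cases hl : 3 ≤ S.card
        · omega
        · have hl2 : S.card = 2 := by omega
          have : nr54 G K 3 = 0 ∨ nr54 G K 3 = 1 ∨ nr54 G K 3 = 2 := by omega
          rcases this with hh | hh | hh
          · omega
          · have := c10 hl2 (by omega) hh
            omega
          · omega
    have key' : (54 : ℝ) + 16 * S.card + 4 * nr54 G K 3 ≤
        2 * ((∑ x ∈ S, u54 G x : ℕ) : ℝ) + 14 * tK G K := by exact_mod_cast key
    push_cast at key'
    rw [hp]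
    linarith

/-- **(H4)** the faces without leaves -/
theorem hole0_54 (hG : G.Geo4 al kp U) {K : (cg G).ConnectedComponent} (ht : 2 ≤ tK G K)
    (hd : (kS G K).card = tK G K + 2) (h3 : ∀ x ∈ kS G K, rn G x ≤ 3) :
    (nr54 G K 1 = 2 ∧ 13 * wx G (14 / 13) K + 14 * (nr54 G K 3 : ℝ) = 26) ∨
      (nr54 G K 1 = 3 ∧ 3 ≤ nr54 G K 3 ∧ 13 * wx G (14 / 13) K + 14 * (nr54 G K 3 : ℝ) = 40 ∧
        13 * wx G (14 / 13) K + 10 * (nr54 G K 3 : ℝ) ≤ 28 ∧
        13 * wx G (14 / 13) K + 4 * (nr54 G K 3 : ℝ) ≤ 10) := by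
  obtain ⟨c1, c2, c3, c4, c5, ⟨k, c6⟩, c7⟩ := nums54 G hG (K := K) ht hd (S := ∅)
    (Finset.empty_subset _) (fun x hx => absurd hx (Finset.notMem_empty x))
    (fun x hx _ => h3 x hx)
  rw [Finset.card_empty] at c1 c2 c4 c7
  have hp := wx13_disc54 G hd
  have hcase : nr54 G K 1 = 2 ∨ nr54 G K 1 = 3 := by omega
  have d1 : (tK G K : ℝ) + nr54 G K 1 = 4 + nr54 G K 3 := by
    have : tK G K + nr54 G K 1 = 4 + nr54 G K 3 := by omega
    exact_mod_cast this
  rcases hcase with h | h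
  · left
    refine ⟨h, ?_⟩
    rw [h] at d1
    push_cast at d1
    rw [hp]
    linarith
  · right
    rw [h] at d1
    push_cast at d1
    have h5 : 3 ≤ nr54 G K 3 := by omega
    have h6 : (3 : ℝ) ≤ nr54 G K 3 := by exact_mod_cast h5
    rw [hp]
    exact ⟨h, h5, by linarith, by linarith, by linarith⟩

/-- **(H5)** a hole with leaves costs at most 14 (one leaf), at most 10 (two leaves or more) -/
theorem hole5_54 (hG : G.Geo4 al kp U) {K : (cg G).ConnectedComponent}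
    (hd : (kS G K).card = tK G K + 2) {S : Finset (V × V)} (hS : S ⊆ kS G K)
    (hS4 : ∀ x ∈ S, rn G x = 4) (h3 : ∀ x ∈ kS G K, x ∉ S → rn G x ≤ 3) (hS1 : 1 ≤ S.card) :
    13 * wx G (14 / 13) K + 16 * (S.card : ℝ) + 4 * (nr54 G K 3 : ℝ) ≤ 14 ∧
      (2 ≤ S.card →
        13 * wx G (14 / 13) K + 16 * (S.card : ℝ) + 4 * (nr54 G K 3 : ℝ) ≤ 10) := by
  obtain ⟨s, hs⟩ := Finset.card_pos.1 (by omega : 0 < S.card)
  have ht := rn_le_tK63 G hG ((mem_kS42 G).1 (hS hs)).1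
  rw [((mem_kS42 G).1 (hS hs)).2, hS4 s hs] at ht
  obtain ⟨c1, c2, c3, c4, c5, ⟨k, c6⟩, c7⟩ := nums54 G hG (K := K) (by omega) hd hS hS4 h3
  have hp := wx13_disc54 G hd
  have c11 := ears_le54 G hG (K := K) (by omega) hd hS hS4 h3
  have h2 : 2 ≤ S.card →
      13 * wx G (14 / 13) K + 16 * (S.card : ℝ) + 4 * (nr54 G K 3 : ℝ) ≤ 10 := by
    intro h
    have c12 := c11 (by omega)
    have : 44 + 16 * S.card + 4 * nr54 G K 3 ≤ 14 * tK G K := by omega
    have h' : (44 : ℝ) + 16 * S.card + 4 * nr54 G K 3 ≤ 14 * tK G K := by exact_mod_cast this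
    rw [hp]
    linarith
  refine ⟨?_, h2⟩
  rcases Nat.lt_or_ge S.card 2 with h | h
  · have h1 : S.card = 1 := by omega
    obtain ⟨x, hx⟩ := Finset.card_eq_one.1 h1
    have hxK : x ∈ kS G K := hS (by rw [hx]; exact Finset.mem_singleton_self x)
    have h5 := (hole1_54 G hG hd hxK (hS4 x (by rw [hx]; exact Finset.mem_singleton_self x))
      (fun y hy hne => h3 y hy (by rw [hx, Finset.mem_singleton]; exact hne))).1
    rw [h1]
    push_cast
    linarith
  · have := h2 h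
    linarith

end

end Pool.Agent.PEN.E5
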