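import Pool.Agent.E5.Hk19

/-! # PENNY, all small diameters: pairs of corners of the hexagon with 17 units and of the
pentagon with 12 units

`(4, 2, 3, 3, 3, 2)`: the gaps of `v1, v2` have sum at least `1.47`; `(2, 2, 3, 2, 3)`: the
gaps at the weak side have sum at least `0.54`. -/

set_option autoImplicit false

namespace Pool.Agent.PEN

open Classical UpperHalfPlane
open Pool.Agent.PEN.Cl Pool.Agent.PEN.E5

noncomputable section

/-! ### The chain of three sides with fixed sum of the angles -/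

theorem FF_sum19 (d x y : ℝ) : FF66 d x y = Real.cosh d ^ 3 -
    2 * Real.cosh d * Real.sinh d ^ 2 * (Real.cos ((x + y) / 2) * Real.cos ((x - y) / 2)) +
    Real.sinh d ^ 2 / 2 * ((Real.cosh d + 1) * Real.cos (x + y) +
      (Real.cosh d - 1) * Real.cos (x - y)) := by
  unfold FF66
  have h1 : Real.cos x + Real.cos y = 2 * (Real.cos ((x + y) / 2) * Real.cos ((x - y) / 2)) := by
    rw [Real.cos_add_cos]
    ring
  rw [h1, Real.cos_add, Real.cos_sub]
  ring

/-- fixed sum `≥ π`: the chord decreases with the difference -/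
theorem FF_spread19 {d : ℝ} {x y x' y' : ℝ} (hs : x + y = x' + y') (h0 : 0 ≤ x - y)
    (h1 : x - y ≤ x' - y') (h2 : x' - y' ≤ Real.pi) (h3 : Real.pi ≤ x + y)
    (h4 : x + y ≤ 2 * Real.pi) : FF66 d x' y' ≤ FF66 d x y := by
  have hp := Real.pi_pos
  rw [FF_sum19, FF_sum19, ← hs]
  have c1 : Real.cos ((x' - y') / 2) ≤ Real.cos ((x - y) / 2) :=
    Real.cos_le_cos_of_nonneg_of_le_pi (by linarith) (by linarith) (by linarith)
  have c2 : Real.cos (x' - y') ≤ Real.cos (x - y) :=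
    Real.cos_le_cos_of_nonneg_of_le_pi h0 h2 h1
  have c3 : Real.cos ((x + y) / 2) ≤ 0 :=
    Real.cos_nonpos_of_pi_div_two_le_of_le (by linarith) (by linarith)
  have hC : 1 ≤ Real.cosh d := Real.one_le_cosh d
  have k1 : 0 ≤ (- Real.cos ((x + y) / 2)) * (Real.cos ((x - y) / 2) - Real.cos ((x' - y') / 2)) :=
    mul_nonneg (by linarith) (by linarith)
  have k2 : 0 ≤ 2 * Real.cosh d * Real.sinh d ^ 2 *
      ((- Real.cos ((x + y) / 2)) * (Real.cos ((x - y) / 2) - Real.cos ((x' - y') / 2))) :=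
    mul_nonneg (by positivity) k1
  have k3 : 0 ≤ Real.sinh d ^ 2 / 2 * ((Real.cosh d - 1) * (Real.cos (x - y) - Real.cos (x' - y'))) :=
    mul_nonneg (by positivity) (mul_nonneg (by linarith) (by linarith))
  nlinarith

/-- the same without the order -/
theorem FF_spread2_19 {d : ℝ} {x y x' y' : ℝ} (hs : x + y = x' + y') (h0 : x - y ≤ x' - y')
    (h1 : y - x ≤ x' - y') (h2 : x' - y' ≤ Real.pi) (h3 : Real.pi ≤ x + y)
    (h4 : x + y ≤ 2 * Real.pi) : FF66 d x' y' ≤ FF66 d x y := by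
  rcases le_total 0 (x - y) with h | h
  · exact FF_spread19 hs h h0 h2 h3 h4
  · rw [FF_comm66 d x y]
    exact FF_spread19 (by linarith) (by linarith) (by linarith) h2 (by linarith) (by linarith)

/-- a lower bound of the chord from the sum of the angles -/
theorem FF_ge_sum19 {d : ℝ} (hd : 0 < d) {x y A B : ℝ} (hx : alpha d ≤ x)
    (hx1 : x ≤ Real.pi) (hy1 : y ≤ Real.pi) (hs : A + B ≤ x + y) (_ : B ≤ A)
    (h1 : alpha d ≤ A + B - x) (h2 : x - (A + B - x) ≤ A - B) (h3 : (A + B - x) - x ≤ A - B)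
    (h5 : A - B ≤ Real.pi) (h6 : Real.pi ≤ A + B) (_ : A + B ≤ 2 * Real.pi) :
    FF66 d A B ≤ FF66 d x y := by
  have k1 := FF_mono2_19 hd hx hx1 h1 (by linarith : A + B - x ≤ y) hy1
  exact (FF_spread2_19 (by ring) h2 h3 h5 (by linarith) (by linarith)).trans k1

/-- strict forms of the tests -/
theorem HH_pos19 {d : ℝ} (hd : 0 < d) {p q r : ℝ} (h : 0 < HH19 p q r (alpha d)) :
    FF66 d (p * alpha d) (q * alpha d) < GG66 d (r * alpha d) := by
  have hS : 0 < Real.sinh d := Real.sinh_pos_iff.2 hd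
  have h1 := HH_eq19 hd p q r
  have h3 : 0 < Real.sinh d ^ 2 * HH19 p q r (alpha d) := by positivity
  rw [h1] at h3
  have h2 : 0 ≤ 1 - Real.cos (alpha d) := by linarith [Real.cos_le_one (alpha d)]
  have h4 := pos_of_mul_pos_right h3 h2
  linarith

theorem HH_neg19 {d : ℝ} (hd : 0 < d) {p q r : ℝ} (h : HH19 p q r (alpha d) < 0) :
    GG66 d (r * alpha d) < FF66 d (p * alpha d) (q * alpha d) := by
  have hS : 0 < Real.sinh d := Real.sinh_pos_iff.2 hd
  have h1 := HH_eq19 hd p q r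
  have h3 : 0 < Real.sinh d ^ 2 * (- HH19 p q r (alpha d)) :=
    mul_pos (by positivity) (by linarith)
  have h5 : 0 < (1 - Real.cos (alpha d)) *
      (FF66 d (p * alpha d) (q * alpha d) - GG66 d (r * alpha d)) := by linarith
  have h2 : 0 ≤ 1 - Real.cos (alpha d) := by linarith [Real.cos_le_one (alpha d)]
  have h4 := pos_of_mul_pos_right h5 h2
  linarith

theorem HH_lt19 {d : ℝ} (hd : 0 < d) {p q p' q' r : ℝ}
    (h : HH19 p q r (alpha d) < HH19 p' q' r (alpha d)) :
    FF66 d (p' * alpha d) (q' * alpha d) < FF66 d (p * alpha d) (q * alpha d) := by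
  have hS : 0 < Real.sinh d := Real.sinh_pos_iff.2 hd
  have h1 := HH_eq19 hd p q r
  have h1' := HH_eq19 hd p' q' r
  have h3 : 0 < Real.sinh d ^ 2 * (HH19 p' q' r (alpha d) - HH19 p q r (alpha d)) :=
    mul_pos (by positivity) (by linarith)
  have h5 : 0 < (1 - Real.cos (alpha d)) *
      (FF66 d (p * alpha d) (q * alpha d) - FF66 d (p' * alpha d) (q' * alpha d)) := by linarith
  have h2 : 0 ≤ 1 - Real.cos (alpha d) := by linarith [Real.cos_le_one (alpha d)]
  have h4 := pos_of_mul_pos_right h5 h2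
  linarith

/-! ### The pentagon -/

/-- **the weak side of the pentagon with 12 units** -/
theorem weak_real19 {d : ℝ} (hd : 0 < d) (h4a : Real.pi ≤ 173 / 50 * alpha d)
    (N1 : HH19 2 (146 / 100) (154 / 100) (alpha d) < 0) {t1 t2 t3 t4 t5 : ℝ}
    (h : Pg19 d t1 t2 t3 t4 t5) (b1 : t1 ≤ 2 * alpha d) (b2 : t2 ≤ 2 * alpha d)
    (b3 : 2 * alpha d ≤ t3) (b5 : 2 * alpha d ≤ t5)
    (hs : t1 + t2 + t3 + t4 + t5 ≤ 9 * alpha d) : t1 + t2 ≤ 173 / 50 * alpha d := by
  have hal := alpha_lt hd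
  have hal0 := alpha_pos hd
  have hp := Real.pi_pos
  by_contra hc
  push Not at hc
  have k1 : FF66 d (2 * alpha d) (146 / 100 * alpha d) ≤ FF66 d t1 t2 := by
    refine FF_ge_sum19 hd h.b1.1 (by linarith) (by linarith) (by linarith) (by linarith)
      (by linarith) (by linarith) (by linarith) (by linarith) (by linarith) (by linarith)
  have k2 := HH_neg19 hd N1
  have k3 : GG66 d t4 ≤ GG66 d (154 / 100 * alpha d) :=
    GG_mono19 hd (by linarith [h.b4.1]) (by linarith) (by linarith)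
  rw [h.r1] at k1
  linarith

/-! ### The hexagon -/

/-- the chord grows with the smaller angle, second angle beyond `π` -/
theorem FF_mono4_19 {d : ℝ} {y a b : ℝ} (hy : Real.pi ≤ y) (hy1 : y ≤ 2 * Real.pi)
    (ha : 0 ≤ a) (hab : a ≤ b) (hb : b ≤ Real.pi / 2) : FF66 d y a ≤ FF66 d y b := by
  rw [← sub_nonneg, FF_sub66]
  have hp := Real.pi_pos
  have hC : 1 ≤ Real.cosh d := Real.one_le_cosh d
  have s1 : 0 ≤ Real.sin ((b - a) / 2) :=
    Real.sin_nonneg_of_nonneg_of_le_pi (by linarith) (by linarith)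
  have s2 : 0 ≤ Real.sin (y / 2) := Real.sin_nonneg_of_nonneg_of_le_pi (by linarith) (by linarith)
  have s3 : 0 ≤ Real.sin ((a + b) / 2) :=
    Real.sin_nonneg_of_nonneg_of_le_pi (by linarith) (by linarith)
  have c3 : Real.cos (y / 2) ≤ 0 :=
    Real.cos_nonpos_of_pi_div_two_le_of_le (by linarith) (by linarith)
  have c4 : 0 ≤ Real.cos ((a + b) / 2) :=
    Real.cos_nonneg_of_neg_pi_div_two_le_of_le (by linarith) (by linarith)
  have k1 : 0 ≤ Real.cosh d * Real.sin (y / 2) * Real.sin ((a + b) / 2) := by positivity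
  have k2 : Real.cos (y / 2) * Real.cos ((a + b) / 2) ≤ 0 := mul_nonpos_of_nonpos_of_nonneg c3 c4
  exact mul_nonneg (by positivity) (by linarith)

/-- the chord grows with the large angle, a little beyond `π` -/
theorem FF_mono5_19 {d : ℝ} (hC : Real.cosh d ≤ 11 / 10) {y a b : ℝ} (hy : 0 ≤ y)
    (hy1 : y ≤ Real.pi) (hab : a ≤ b) (ha : Real.pi / 2 ≤ a) (hb : (b - Real.pi) + y / 2 ≤ Real.pi / 3)
    (_ : b ≤ 3 / 2 * Real.pi) : FF66 d y a ≤ FF66 d y b := by
  rw [← sub_nonneg, FF_sub66]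
  have hp := Real.pi_pos
  have hC1 : 1 ≤ Real.cosh d := Real.one_le_cosh d
  have s1 : 0 ≤ Real.sin ((b - a) / 2) :=
    Real.sin_nonneg_of_nonneg_of_le_pi (by linarith) (by linarith)
  have s2 : 0 ≤ Real.sin (y / 2) := Real.sin_nonneg_of_nonneg_of_le_pi (by linarith) (by linarith)
  have key : 0 ≤ Real.cosh d * Real.sin (y / 2) * Real.sin ((a + b) / 2) -
      Real.cos (y / 2) * Real.cos ((a + b) / 2) := by
    obtain ⟨m, hm⟩ : ∃ m, m = (a + b) / 2 := ⟨_, rfl⟩
    rw [← hm]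
    have m1 : Real.pi / 2 ≤ m := by linarith
    have m2 : m ≤ b := by linarith
    have cm : Real.cos m ≤ 0 := Real.cos_nonpos_of_pi_div_two_le_of_le m1 (by linarith)
    have cy : 0 ≤ Real.cos (y / 2) :=
      Real.cos_nonneg_of_neg_pi_div_two_le_of_le (by linarith) (by linarith)
    rcases le_total m Real.pi with h1 | h1
    · have s3 : 0 ≤ Real.sin m := Real.sin_nonneg_of_nonneg_of_le_pi (by linarith) h1
      have k1 : 0 ≤ Real.cosh d * Real.sin (y / 2) * Real.sin m := by positivity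
      have k2 : Real.cos (y / 2) * Real.cos m ≤ 0 := mul_nonpos_of_nonneg_of_nonpos cy cm
      linarith
    · have e1 : Real.sin m = - Real.sin (m - Real.pi) := by rw [Real.sin_sub_pi, neg_neg]
      have e2 : Real.cos m = - Real.cos (m - Real.pi) := by rw [Real.cos_sub_pi, neg_neg]
      have s3 : 0 ≤ Real.sin (m - Real.pi) :=
        Real.sin_nonneg_of_nonneg_of_le_pi (by linarith) (by linarith)
      have e3 : 1 / 2 ≤ Real.cos (y / 2 + (m - Real.pi)) := by
        rw [← Real.cos_pi_div_three]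
        exact Real.cos_le_cos_of_nonneg_of_le_pi (by linarith) (by linarith) (by linarith)
      rw [Real.cos_add] at e3
      have e4 : Real.sin (y / 2) * Real.sin (m - Real.pi) ≤ 1 :=
        mul_le_one₀ (Real.sin_le_one _) s3 (Real.sin_le_one _)
      have e5 : 0 ≤ Real.sin (y / 2) * Real.sin (m - Real.pi) := mul_nonneg s2 s3
      rw [e1, e2]
      nlinarith
  positivity

/-- **the angles `v1, v2` of the hexagon with 17 units** -/
theorem f3_real19 {d : ℝ} (hd : 0 < d) (hC6 : Real.cosh d ≤ 11 / 10)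
    (h4a : Real.pi ≤ 341 / 100 * alpha d)
    (N2 : HH19 (231 / 100) (122 / 100) 0 (alpha d) < HH19 2 (147 / 100) 0 (alpha d))
    (N3 : 0 < HH19 2 (141 / 100) (153 / 100) (alpha d))
    (N4 : 0 < HH19 (306 / 100) (122 / 100) 3 (alpha d))
    {t0 t1 t2 t3 t4 t5 : ℝ} (a0 : 3 * alpha d ≤ t0) (a1 : alpha d ≤ t1) (b1 : t1 ≤ 2 * alpha d)
    (_ : t2 ≤ 3 * alpha d) (a3 : 2 * alpha d ≤ t3) (b3 : t3 ≤ 3 * alpha d)
    (a4 : 2 * alpha d ≤ t4) (b4 : t4 ≤ 3 * alpha d) (a5 : alpha d ≤ t5)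
    (hs : t0 + t1 + t2 + t3 + t4 + t5 ≤ 12 * alpha d)
    (e1 : FF66 d t1 t2 = FF66 d t4 t5) (e2 : FF66 d t0 t1 = FF66 d t3 t4) :
    t1 + t2 ≤ 353 / 100 * alpha d := by
  have hal := alpha_lt hd
  have hal0 := alpha_pos hd
  have hp := Real.pi_pos
  by_contra hc
  push Not at hc
  -- the large corner
  have c0 : t0 ≤ 306 / 100 * alpha d := by
    by_contra hc0
    push Not at hc0
    have k1 : FF66 d (253 / 100 * alpha d) (alpha d) ≤ FF66 d t1 t2 := by
      refine FF_ge_sum19 hd a1 (by linarith) (by linarith) (by linarith) (by linarith)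
        (by linarith) (by linarith) (by linarith) (by linarith) (by linarith) (by linarith)
    have k2 := HH_pos19 hd N3
    have k3 : FF66 d t4 t5 ≤ FF66 d (2 * alpha d) (141 / 100 * alpha d) := by
      have k4 : FF66 d t4 t5 ≤ FF66 d t4 (341 / 100 * alpha d - t4) :=
        FF_mono2_19 hd (by linarith) (by linarith) a5 (by linarith) (by linarith)
      have k5 := k4.trans (FF_spread19 (d := d) (x := 2 * alpha d) (y := 141 / 100 * alpha d)
        (x' := t4) (y' := 341 / 100 * alpha d - t4) (by ring) (by linarith) (by linarith)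
        (by linarith) (by linarith) (by linarith))
      exact k5
    rw [FF_alpha66 hd, show 253 / 100 * alpha d - alpha d = 153 / 100 * alpha d by ring] at k1
    linarith
  have c1 : t1 ≤ 122 / 100 * alpha d := by
    by_contra hc1
    push Not at hc1
    have k1 : FF66 d (231 / 100 * alpha d) (122 / 100 * alpha d) ≤ FF66 d t1 t2 := by
      refine FF_ge_sum19 hd a1 (by linarith) (by linarith) (by linarith) (by linarith)
        (by linarith) (by linarith) (by linarith) (by linarith) (by linarith) (by linarith)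
    have k2 := HH_lt19 hd N2
    have k3 : FF66 d t4 t5 ≤ FF66 d (2 * alpha d) (147 / 100 * alpha d) := by
      have k4 : FF66 d t4 t5 ≤ FF66 d t4 (347 / 100 * alpha d - t4) :=
        FF_mono2_19 hd (by linarith) (by linarith) a5 (by linarith) (by linarith)
      exact k4.trans (FF_spread19 (by ring) (by linarith) (by linarith)
        (by linarith) (by linarith) (by linarith))
    linarith
  have k1 : K19 d ≤ FF66 d t0 t1 := by
    rw [e2]
    exact FF_mono19 hd (by linarith) a3 b3 a4 b4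
  have k2 : FF66 d t0 t1 ≤ FF66 d t0 (122 / 100 * alpha d) := by
    rcases le_total t0 Real.pi with h1 | h1
    · exact FF_mono2_19 hd (by linarith) h1 a1 c1 (by linarith)
    · exact FF_mono4_19 h1 (by linarith) (by linarith) c1 (by linarith)
  have k3 : FF66 d t0 (122 / 100 * alpha d) ≤ FF66 d (306 / 100 * alpha d) (122 / 100 * alpha d) := by
    rw [FF_comm66 d t0, FF_comm66 d (306 / 100 * alpha d)]
    exact FF_mono5_19 hC6 (by linarith) (by linarith) c0 (by linarith) (by linarith) (by linarith)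
  have k4 := HH_pos19 hd N4
  have k5 : K19 d = GG66 d (3 * alpha d) := by
    unfold K19 GG66
    ring
  linarith

namespace E5

section conc
variable {G : Tg ℍ} {d : ℝ} {kp : ℍ → ℍ → ℝ} {U : ℕ → ℝ}

theorem six_sum19 (hG : G.Geo4 (alpha d) kp U)
    {C : G.adj.ConnectedComponent} (hC : C ∈ WF G) (hd6 : (G.cI C).card + 2 = 2 * (G.cT C).card)
    (h6 : (G.cJ C).card = 6) {x : ℍ × ℍ} (hx : x ∈ G.cJ C) (f : ℍ × ℍ → ℝ) :
    ∑ y ∈ G.cJ C, f y = f x + f (sg G x) + f (sg G (sg G x)) + f (sg G (sg G (sg G x))) +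
      f (sg G (sg G (sg G (sg G x)))) + f (sg G (sg G (sg G (sg G (sg G x))))) := by
  have hCi := ((mem_WF89 G).1 hC).1
  obtain ⟨h1, h2⟩ := orb90 G hG hCi hd6 hx
  have h3 : ∑ y ∈ G.cJ C, f y = ∑ i ∈ Finset.range (G.cJ C).card, f ((sg G)^[i] x) := by
    conv_lhs => rw [← h1]
    rw [Finset.sum_image]
    intro i hi j hj hij
    exact orb_inj90 G h1 (Finset.mem_range.1 hi) (Finset.mem_range.1 hj) hij
  rw [h3, h6]
  simp only [Finset.sum_range_succ, Finset.sum_range_zero, Function.iterate_succ_apply',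
    Function.iterate_zero, id_eq, zero_add]

theorem five_sum19 (hG : G.Geo4 (alpha d) kp U)
    {C : G.adj.ConnectedComponent} (hC : C ∈ G.iC)
    (h5 : (G.cJ C).card = 5) {x : ℍ × ℍ} (hx : x ∈ G.cJ C) (f : ℍ × ℍ → ℝ) :
    ∑ y ∈ G.cJ C, f y = f x + f (sg G x) + f (sg G (sg G x)) + f (sg G (sg G (sg G x))) +
      f (sg G (sg G (sg G (sg G x)))) := by
  obtain ⟨h1, h2⟩ := orb5_90 G hG hC h5 hx
  have h3 : ∑ y ∈ G.cJ C, f y = ∑ i ∈ Finset.range (G.cJ C).card, f ((sg G)^[i] x) := by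
    conv_lhs => rw [← h1]
    rw [Finset.sum_image]
    intro i hi j hj hij
    exact orb_inj90 G h1 (Finset.mem_range.1 hi) (Finset.mem_range.1 hj) hij
  rw [h3, h5]
  simp only [Finset.sum_range_succ, Finset.sum_range_zero, Function.iterate_succ_apply',
    Function.iterate_zero, id_eq, zero_add]

/-- the gaps of a class: at least units minus three times the triangles -/
theorem gc_ge19 (hG : G.Geo4 (alpha d) kp U) {C : G.adj.ConnectedComponent} (hC : C ∈ G.iC) :
    (uf G (alpha d) C : ℝ) - 3 * (G.cT C).card ≤ ∑ x ∈ G.cJ C, gc G (alpha d) x := by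
  have h1 := sum_gc_exc15 G hG hC
  have h2 := exc_nonneg15 G hG hC
  linarith

/-- two steps apart: different points -/
theorem ne2_19 (hG : G.Geo4 (alpha d) kp U) (hD : DelG G d) {u v w : ℍ} (hx : (u, v) ∈ iJ G)
    (hw : sg G (u, v) = (v, w)) (h0 : 0 < TH G (v, w)) (h1 : TH G (v, w) < 2 * Real.pi) :
    w ≠ u := by
  intro he
  have k := TH_coe19 hG hD hx
  rw [hw] at k
  dsimp only at k
  rw [he, ang_self19] at k
  have := coe_inj19 k.symm le_rfl (by rw [← he]; exact h0.le) (by rw [← he]; exact h1)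
  rw [← he] at this
  linarith

/-- the chord of two corners -/
theorem chord19 (hG : G.Geo4 (alpha d) kp U) (hD : DelG G d) {v0 v1 v2 v3 : ℍ}
    (x0 : (v0, v1) ∈ iJ G) (x1 : (v1, v2) ∈ iJ G) (g0 : sg G (v0, v1) = (v1, v2))
    (g1 : sg G (v1, v2) = (v2, v3)) (d0 : dist v0 v1 = d) (d1 : dist v1 v2 = d)
    (d2 : dist v2 v3 = d) (n : v3 ≠ v1) :
    Real.cosh (dist v0 v3) = FF66 d (TH G (v1, v2)) (TH G (v2, v3)) := by
  have k0 := TH_coe19 hG hD x0
  rw [g0] at k0
  have k1 := TH_coe19 hG hD x1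
  rw [g1] at k1
  dsimp only at k0 k1
  have h := chain66 hD.hd (A := v0) (X := v1) (Y := v2) (B := v3) (by rw [dist_comm]; exact d0)
    d1 d2 n
  have c0 := congrArg Real.Angle.cos k0
  have s0 := congrArg Real.Angle.sin k0
  have c1 := congrArg Real.Angle.cos k1
  have s1 := congrArg Real.Angle.sin k1
  rw [Real.Angle.cos_coe, Real.Angle.cos_coe] at c0 c1
  rw [Real.Angle.sin_coe, Real.Angle.sin_coe] at s0 s1
  rw [h]
  unfold FF66
  rw [c0, s0, c1, s1]

/-- **F3, with the numbers as hypotheses** -/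
theorem f3_of19 (hG : G.Geo4 (alpha d) kp U) (hD : DelG G d) (hS : Sep d G.P)
    (hC6 : Real.cosh d ≤ 11 / 10) (h4a : Real.pi ≤ 341 / 100 * alpha d)
    (N2 : HH19 (231 / 100) (122 / 100) 0 (alpha d) < HH19 2 (147 / 100) 0 (alpha d))
    (N3 : 0 < HH19 2 (141 / 100) (153 / 100) (alpha d))
    (N4 : 0 < HH19 (306 / 100) (122 / 100) 3 (alpha d))
    {C : G.adj.ConnectedComponent} (hC : C ∈ WF G) (hd6 : (G.cI C).card + 2 = 2 * (G.cT C).card)
    (h6 : (G.cJ C).card = 6) {x : ℍ × ℍ} (hx : x ∈ G.cJ C) (u0 : un G (alpha d) x = 4)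
    (u1 : un G (alpha d) (sg G x) = 2) (u2 : un G (alpha d) (sg G (sg G x)) = 3)
    (u3 : un G (alpha d) (sg G (sg G (sg G x))) = 3)
    (u4 : un G (alpha d) (sg G (sg G (sg G (sg G x)))) = 3)
    (u5 : un G (alpha d) (sg G (sg G (sg G (sg G (sg G x))))) = 2) :
    147 / 100 ≤ gc G (alpha d) (sg G x) + gc G (alpha d) (sg G (sg G x)) ∧
      147 / 100 ≤ gc G (alpha d) (sg G (sg G (sg G (sg G x)))) +
        gc G (alpha d) (sg G (sg G (sg G (sg G (sg G x))))) := by
  have hCi := ((mem_WF89 G).1 hC).1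
  have hd := hD.hd
  have hal := alpha_lt hd
  have hal0 := alpha_pos hd
  have hp := Real.pi_pos
  have hsum := six_sum19 hG hC hd6 h6 hx (fun y => gc G (alpha d) y)
  have husum := hex_sum19 hG hC hd6 h6 hx (fun y => un G (alpha d) y)
  have hge := gc_ge19 hG hCi
  have h4 : (G.cT C).card = 4 := by
    have := disc90 G hCi hd6
    omega
  have huf : uf G (alpha d) C = 17 := by
    unfold uf
    omega
  rw [huf, h4] at hge
  push_cast at hge
  obtain ⟨v0, v1⟩ := x
  obtain ⟨v2, v3, v4, v5, g0, g1, g2, g3, g4, g5, hset⟩ := hex_pts19 hG hC hd6 h6 hx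
  rw [g0, g1, g2, g3, g4] at hsum
  rw [g0] at u1
  rw [g0, g1] at u2
  rw [g0, g1, g2] at u3
  rw [g0, g1, g2, g3] at u4
  rw [g0, g1, g2, g3, g4] at u5
  rw [g0, g1, g2, g3, g4]
  have x0 := hx
  have x1 := sg_cJ90 G hG hCi x0
  rw [g0] at x1
  have x2 := sg_cJ90 G hG hCi x1
  rw [g1] at x2
  have x3 := sg_cJ90 G hG hCi x2
  rw [g2] at x3
  have x4 := sg_cJ90 G hG hCi x3
  rw [g3] at x4
  have x5 := sg_cJ90 G hG hCi x4
  rw [g4] at x5
  have d0 := (side63 hD x0).2.2
  have d1 := (side63 hD x1).2.2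
  have d2 := (side63 hD x2).2.2
  have d3 := (side63 hD x3).2.2
  have d4 := (side63 hD x4).2.2
  have d5 := (side63 hD x5).2.2
  dsimp only at d0 d1 d2 d3 d4 d5
  have i0 := (cJ_iJ51 G hCi x0).1
  have i1 := (cJ_iJ51 G hCi x1).1
  have i2 := (cJ_iJ51 G hCi x2).1
  have i3 := (cJ_iJ51 G hCi x3).1
  have i4 := (cJ_iJ51 G hCi x4).1
  have i5 := (cJ_iJ51 G hCi x5).1
  have b0 := un_gt19 hG (x := (v0, v1)) (n := 3) (by norm_num) (by omega)
  have b2 := un_gt19 hG (x := (v2, v3)) (n := 2) le_rfl (by omega)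
  have b3 := un_gt19 hG (x := (v3, v4)) (n := 2) le_rfl (by omega)
  have b4 := un_gt19 hG (x := (v4, v5)) (n := 2) le_rfl (by omega)
  have c0 := TH_un19 hG (v0, v1)
  have c1 := TH_un19 hG (v1, v2)
  have c2 := TH_un19 hG (v2, v3)
  have c3 := TH_un19 hG (v3, v4)
  have c4 := TH_un19 hG (v4, v5)
  have c5 := TH_un19 hG (v5, v0)
  rw [u0] at c0
  rw [u1] at c1
  rw [u2] at c2
  rw [u3] at c3
  rw [u4] at c4
  rw [u5] at c5
  push_cast at b0 b2 b3 b4 c0 c1 c2 c3 c4 c5
  have a1 := TH_ge19 hG hD hS i1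
  have a5 := TH_ge19 hG hD hS i5
  have T0 := TH_gc19 G hG (v0, v1)
  have T1 := TH_gc19 G hG (v1, v2)
  have T2 := TH_gc19 G hG (v2, v3)
  have T3 := TH_gc19 G hG (v3, v4)
  have T4 := TH_gc19 G hG (v4, v5)
  have T5 := TH_gc19 G hG (v5, v0)
  rw [u0] at T0
  rw [u1] at T1
  rw [u2] at T2
  rw [u3] at T3
  rw [u4] at T4
  rw [u5] at T5
  push_cast at T0 T1 T2 T3 T4 T5
  rw [hsum] at hge
  have hs : TH G (v0, v1) + TH G (v1, v2) + TH G (v2, v3) + TH G (v3, v4) + TH G (v4, v5) +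
      TH G (v5, v0) ≤ 12 * alpha d := by
    have e : TH G (v0, v1) + TH G (v1, v2) + TH G (v2, v3) + TH G (v3, v4) + TH G (v4, v5) +
      TH G (v5, v0) = alpha d * (17 - (gc G (alpha d) (v0, v1) + gc G (alpha d) (v1, v2) +
        gc G (alpha d) (v2, v3) + gc G (alpha d) (v3, v4) + gc G (alpha d) (v4, v5) +
        gc G (alpha d) (v5, v0))) := by
      rw [T0, T1, T2, T3, T4, T5]
      ring
    rw [e]
    have := mul_le_mul_of_nonneg_left hge hal0.le
    linarith
  -- different points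
  have m31 := ne2_19 hG hD i1 g1 (by linarith) (by linarith)
  have m42 := ne2_19 hG hD i2 g2 (by linarith) (by linarith)
  have m53 := ne2_19 hG hD i3 g3 (by linarith) (by linarith)
  have m04 := ne2_19 hG hD i4 g4 (by linarith) (by linarith)
  have m15 := ne2_19 hG hD i5 g5 (by linarith) (by linarith)
  have m20 := ne2_19 hG hD i0 g0 (by linarith) (by linarith)
  -- the chords
  have k03 := chord19 hG hD i0 i1 g0 g1 d0 d1 d2 m31
  have k30 := chord19 hG hD i3 i4 g3 g4 d3 d4 d5 m04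
  have k14 := chord19 hG hD i1 i2 g1 g2 d1 d2 d3 m42
  have k41 := chord19 hG hD i4 i5 g4 g5 d4 d5 d0 m15
  have k25 := chord19 hG hD i2 i3 g2 g3 d2 d3 d4 m53
  have k52 := chord19 hG hD i5 i0 g5 g0 d5 d0 d1 m20
  rw [dist_comm] at k30 k41 k52
  have e1 : FF66 d (TH G (v1, v2)) (TH G (v2, v3)) = FF66 d (TH G (v4, v5)) (TH G (v5, v0)) := by
    rw [← k03, ← k30]
  have e2 : FF66 d (TH G (v0, v1)) (TH G (v1, v2)) = FF66 d (TH G (v3, v4)) (TH G (v4, v5)) := by
    rw [← k25, ← k52]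
  have e3 : FF66 d (TH G (v2, v3)) (TH G (v3, v4)) = FF66 d (TH G (v5, v0)) (TH G (v0, v1)) := by
    rw [← k14, ← k41]
  have r1 := f3_real19 hd hC6 h4a N2 N3 N4 b0.le a1 c1 c2 b3.le c3 b4.le c4 a5 hs e1 e2
  have r2 := f3_real19 hd hC6 h4a N2 N3 N4 (t0 := TH G (v0, v1)) (t1 := TH G (v5, v0))
    (t2 := TH G (v4, v5)) (t3 := TH G (v3, v4)) (t4 := TH G (v2, v3)) (t5 := TH G (v1, v2))
    b0.le a5 c5 c4 b3.le c3 b2.le c2 a1 (by linarith)
    (by rw [FF_comm66 d (TH G (v5, v0)), FF_comm66 d (TH G (v2, v3))]; exact e1.symm)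
    (by rw [FF_comm66 d (TH G (v0, v1)), FF_comm66 d (TH G (v3, v4))]; exact e3.symm)
  rw [T1, T2] at r1
  rw [T4, T5] at r2
  constructor
  · by_contra hc
    push Not at hc
    have := mul_lt_mul_of_pos_left hc hal0
    linarith
  · by_contra hc
    push Not at hc
    have := mul_lt_mul_of_pos_left hc hal0
    linarith

/-- **the weakness of the pentagon with 12 units, with the number as hypothesis** -/
theorem p12weak_of19 (hG : G.Geo4 (alpha d) kp U) (hD : DelG G d) (hS : Sep d G.P)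
    (h4a : Real.pi ≤ 173 / 50 * alpha d)
    (N1 : HH19 2 (146 / 100) (154 / 100) (alpha d) < 0)
    {C : G.adj.ConnectedComponent} (hC : C ∈ G.iC)
    (hm : (G.cT C).card = 3) (hI : (G.cI C).card = 4) {x : ℍ × ℍ} (hx : x ∈ G.cJ C)
    (hU : 12 ≤ uf G (alpha d) C) (u1 : un G (alpha d) x = 2) (u2 : un G (alpha d) (sg G x) = 2)
    (u3 : un G (alpha d) (sg G (sg G x)) = 3)
    (u4 : un G (alpha d) (sg G (sg G (sg G x))) = 2)
    (u5 : un G (alpha d) (sg G (sg G (sg G (sg G x)))) = 3) :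
    54 / 100 ≤ gc G (alpha d) x + gc G (alpha d) (sg G x) := by
  have hal := alpha_lt hD.hd
  have hal0 := alpha_pos hD.hd
  have hp := Real.pi_pos
  have h5 : (G.cJ C).card = 5 := by
    have := m_eq46 G hC
    omega
  have hsum := five_sum19 hG hC h5 hx (fun y => gc G (alpha d) y)
  have hge := gc_ge19 hG hC
  have hU' : (12 : ℝ) ≤ uf G (alpha d) C := by exact_mod_cast hU
  rw [hm, hsum] at hge
  push_cast at hge
  have hp5 := pg_of19 hG hD hS hC hm hI hx
  have b3 := un_gt19 hG (x := sg G (sg G x)) (n := 2) le_rfl (by omega)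
  have b5 := un_gt19 hG (x := sg G (sg G (sg G (sg G x)))) (n := 2) le_rfl (by omega)
  have c1 := TH_un19 hG x
  have c2 := TH_un19 hG (sg G x)
  rw [u1] at c1
  rw [u2] at c2
  push_cast at b3 b5 c1 c2
  have T1 := TH_gc19 G hG x
  have T2 := TH_gc19 G hG (sg G x)
  have T3 := TH_gc19 G hG (sg G (sg G x))
  have T4 := TH_gc19 G hG (sg G (sg G (sg G x)))
  have T5 := TH_gc19 G hG (sg G (sg G (sg G (sg G x))))
  rw [u1] at T1
  rw [u2] at T2
  rw [u3] at T3
  rw [u4] at T4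
  rw [u5] at T5
  push_cast at T1 T2 T3 T4 T5
  have r := weak_real19 hD.hd h4a N1 hp5 c1 c2 b3.le b5.le (by
    rw [T1, T2, T3, T4, T5]
    have := mul_le_mul_of_nonneg_left (show (3 : ℝ) ≤ gc G (alpha d) x +
      gc G (alpha d) (sg G x) + gc G (alpha d) (sg G (sg G x)) +
      gc G (alpha d) (sg G (sg G (sg G x))) +
      gc G (alpha d) (sg G (sg G (sg G (sg G x)))) by linarith) hal0.le
    linarith)
  rw [T1, T2] at r
  by_contra hc
  push Not at hc
  have := mul_lt_mul_of_pos_left hc hal0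
  linarith

end conc

end E5

end

end Pool.Agent.PEN
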