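import Pool.Agent.E5.Hm14

/-! # PENNY, all small diameters: the same numbers from `1.028` on -/

set_option autoImplicit false

namespace Pool.Agent.PEN.E5

open Classical UpperHalfPlane

noncomputable section

/-- the parameter of the interpolation -/
theorem par14b {a : ℝ} (h0 : 257 / 250 ≤ a) (h1 : a ≤ 1309 / 1250) : ∃ s : ℝ, 0 ≤ s ∧ s ≤ 1 ∧
    a = (1 - s) * (257 / 250) + s * (1309 / 1250) := by
  refine ⟨(a - 257 / 250) / (12 / 625), div_nonneg (by linarith) (by norm_num), ?_, ?_⟩
  · rw [div_le_one (by norm_num)]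
    linarith
  · field_simp
    ring

theorem c0_14b : Cb14 (85067 / 25000) (-6038187 / 6250000) (-96610963 / 100000000) := by
  have h0 : Cb14 (85067 / 400000) (1527299 / 1562500) (97747137 / 100000000) := tay14 (by norm_num) (by norm_num) (by norm_num) (by norm_num)
  have h1 : Cb14 (85067 / 200000) (91090051 / 100000000) (11386257 / 12500000) := dp14 h0 (by norm_num) (by norm_num) (by norm_num) (by norm_num)
  have h2 : Cb14 (85067 / 100000) (65947947 / 100000000) (65947967 / 100000000) := dp14 h1 (by norm_num) (by norm_num) (by norm_num) (by norm_num)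
  have h3 : Cb14 (85067 / 50000) (-6508683 / 50000000) (-406791 / 3125000) := dp14 h2 (by norm_num) (by norm_num) (by norm_num) (by norm_num)
  have h4 : Cb14 (85067 / 25000) (-6038187 / 6250000) (-96610963 / 100000000) := dn14 h3 (by norm_num) (by norm_num) (by norm_num) (by norm_num)
  exact h4

theorem c1_14b : Cb14 (33667 / 25000) (22224439 / 100000000) (11112251 / 50000000) := by
  have h0 : Cb14 (33667 / 200000) (24646627 / 25000000) (98586509 / 100000000) := tay14 (by norm_num) (by norm_num) (by norm_num) (by norm_num)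
  have h1 : Cb14 (33667 / 100000) (94385991 / 100000000) (23596499 / 25000000) := dp14 h0 (by norm_num) (by norm_num) (by norm_num) (by norm_num)
  have h2 : Cb14 (33667 / 50000) (15634861 / 20000000) (3126973 / 4000000) := dp14 h1 (by norm_num) (by norm_num) (by norm_num) (by norm_num)
  have h3 : Cb14 (33667 / 25000) (22224439 / 100000000) (11112251 / 50000000) := dp14 h2 (by norm_num) (by norm_num) (by norm_num) (by norm_num)
  exact h3

theorem c2_14b : Cb14 (28527 / 12500) (-13057349 / 20000000) (-65286721 / 100000000) := by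
  have h0 : Cb14 (28527 / 100000) (9595857 / 10000000) (95958571 / 100000000) := tay14 (by norm_num) (by norm_num) (by norm_num) (by norm_num)
  have h1 : Cb14 (28527 / 50000) (84160943 / 100000000) (84160947 / 100000000) := dp14 h0 (by norm_num) (by norm_num) (by norm_num) (by norm_num)
  have h2 : Cb14 (28527 / 25000) (20830643 / 50000000) (416613 / 1000000) := dp14 h1 (by norm_num) (by norm_num) (by norm_num) (by norm_num)
  have h3 : Cb14 (28527 / 12500) (-13057349 / 20000000) (-65286721 / 100000000) := dp14 h2 (by norm_num) (by norm_num) (by norm_num) (by norm_num)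
  exact h3

theorem c3_14b : Cb14 (2827 / 12500) (12181683 / 12500000) (19490693 / 20000000) := by
  have h0 : Cb14 (2827 / 12500) (12181683 / 12500000) (19490693 / 20000000) := tay14 (by norm_num) (by norm_num) (by norm_num) (by norm_num)
  exact h0

theorem c4_14b : Cb14 (257 / 125) (-9327777 / 20000000) (-9327769 / 20000000) := by
  have h0 : Cb14 (257 / 1000) (48357843 / 50000000) (96715687 / 100000000) := tay14 (by norm_num) (by norm_num) (by norm_num) (by norm_num)
  have h1 : Cb14 (257 / 500) (43539239 / 50000000) (87078483 / 100000000) := dp14 h0 (by norm_num) (by norm_num) (by norm_num) (by norm_num)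
  have h2 : Cb14 (257 / 250) (25826613 / 50000000) (10330649 / 20000000) := dp14 h1 (by norm_num) (by norm_num) (by norm_num) (by norm_num)
  have h3 : Cb14 (257 / 125) (-9327777 / 20000000) (-9327769 / 20000000) := dp14 h2 (by norm_num) (by norm_num) (by norm_num) (by norm_num)
  exact h3

theorem c5_14b : Cb14 (53713 / 25000) (-54611857 / 100000000) (-27305911 / 50000000) := by
  have h0 : Cb14 (53713 / 200000) (48207633 / 50000000) (96415267 / 100000000) := tay14 (by norm_num) (by norm_num) (by norm_num) (by norm_num)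
  have h1 : Cb14 (53713 / 100000) (8591807 / 10000000) (3436723 / 4000000) := dp14 h0 (by norm_num) (by norm_num) (by norm_num) (by norm_num)
  have h2 : Cb14 (53713 / 50000) (9527659 / 20000000) (47638313 / 100000000) := dp14 h1 (by norm_num) (by norm_num) (by norm_num) (by norm_num)
  have h3 : Cb14 (53713 / 25000) (-54611857 / 100000000) (-27305911 / 50000000) := dp14 h2 (by norm_num) (by norm_num) (by norm_num) (by norm_num)
  exact h3

theorem c6_14b : Cb14 (2313 / 25000) (99572307 / 100000000) (24893077 / 25000000) := by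
  have h0 : Cb14 (2313 / 25000) (99572307 / 100000000) (24893077 / 25000000) := tay14 (by norm_num) (by norm_num) (by norm_num) (by norm_num)
  exact h0

theorem c7_14b : Cb14 (28013 / 25000) (1740857 / 4000000) (43521443 / 100000000) := by
  have h0 : Cb14 (28013 / 100000) (1922039 / 2000000) (96101951 / 100000000) := tay14 (by norm_num) (by norm_num) (by norm_num) (by norm_num)
  have h1 : Cb14 (28013 / 50000) (16942339 / 20000000) (847117 / 1000000) := dp14 h0 (by norm_num) (by norm_num) (by norm_num) (by norm_num)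
  have h2 : Cb14 (28013 / 25000) (1740857 / 4000000) (43521443 / 100000000) := dp14 h1 (by norm_num) (by norm_num) (by norm_num) (by norm_num)
  exact h2

theorem c8_14b : Cb14 (90721 / 25000) (-44181261 / 50000000) (-22090619 / 25000000) := by
  have h0 : Cb14 (90721 / 400000) (97439037 / 100000000) (48719519 / 50000000) := tay14 (by norm_num) (by norm_num) (by norm_num) (by norm_num)
  have h1 : Cb14 (90721 / 200000) (44943659 / 50000000) (89887323 / 100000000) := dp14 h0 (by norm_num) (by norm_num) (by norm_num) (by norm_num)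
  have h2 : Cb14 (90721 / 100000) (30797299 / 50000000) (61594617 / 100000000) := dp14 h1 (by norm_num) (by norm_num) (by norm_num) (by norm_num)
  have h3 : Cb14 (90721 / 50000) (-2412211 / 10000000) (-24122063 / 100000000) := dp14 h2 (by norm_num) (by norm_num) (by norm_num) (by norm_num)
  have h4 : Cb14 (90721 / 25000) (-44181261 / 50000000) (-22090619 / 25000000) := dn14 h3 (by norm_num) (by norm_num) (by norm_num) (by norm_num)
  exact h4

theorem c9_14b : Cb14 (257 / 250) (25826613 / 50000000) (10330649 / 20000000) := by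
  have h0 : Cb14 (257 / 1000) (48357843 / 50000000) (96715687 / 100000000) := tay14 (by norm_num) (by norm_num) (by norm_num) (by norm_num)
  have h1 : Cb14 (257 / 500) (43539239 / 50000000) (87078483 / 100000000) := dp14 h0 (by norm_num) (by norm_num) (by norm_num) (by norm_num)
  have h2 : Cb14 (257 / 250) (25826613 / 50000000) (10330649 / 20000000) := dp14 h1 (by norm_num) (by norm_num) (by norm_num) (by norm_num)
  exact h2

theorem c10_14b : Cb14 (433279 / 125000) (-94776593 / 100000000) (-94776559 / 100000000) := by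
  have h0 : Cb14 (433279 / 2000000) (97662529 / 100000000) (9766253 / 10000000) := tay14 (by norm_num) (by norm_num) (by norm_num) (by norm_num)
  have h1 : Cb14 (433279 / 1000000) (90759391 / 100000000) (22689849 / 25000000) := dp14 h0 (by norm_num) (by norm_num) (by norm_num) (by norm_num)
  have h2 : Cb14 (433279 / 500000) (64745341 / 100000000) (809317 / 1250000) := dp14 h1 (by norm_num) (by norm_num) (by norm_num) (by norm_num)
  have h3 : Cb14 (433279 / 250000) (-16160817 / 100000000) (-16160767 / 100000000) := dp14 h2 (by norm_num) (by norm_num) (by norm_num) (by norm_num)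
  have h4 : Cb14 (433279 / 125000) (-94776593 / 100000000) (-94776559 / 100000000) := dn14 h3 (by norm_num) (by norm_num) (by norm_num) (by norm_num)
  exact h4

theorem c11_14b : Cb14 (171479 / 125000) (158123 / 800000) (19765437 / 100000000) := by
  have h0 : Cb14 (171479 / 1000000) (49266673 / 50000000) (98533347 / 100000000) := tay14 (by norm_num) (by norm_num) (by norm_num) (by norm_num)
  have h1 : Cb14 (171479 / 500000) (18835281 / 20000000) (9417641 / 10000000) := dp14 h0 (by norm_num) (by norm_num) (by norm_num) (by norm_num)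
  have h2 : Cb14 (171479 / 250000) (15476781 / 20000000) (3095357 / 4000000) := dp14 h1 (by norm_num) (by norm_num) (by norm_num) (by norm_num)
  have h3 : Cb14 (171479 / 125000) (158123 / 800000) (19765437 / 100000000) := dp14 h2 (by norm_num) (by norm_num) (by norm_num) (by norm_num)
  exact h3

theorem c12_14b : Cb14 (145299 / 62500) (-68455121 / 100000000) (-68455093 / 100000000) := by
  have h0 : Cb14 (145299 / 500000) (9580727 / 10000000) (95807271 / 100000000) := tay14 (by norm_num) (by norm_num) (by norm_num) (by norm_num)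
  have h1 : Cb14 (145299 / 250000) (83580659 / 100000000) (10447583 / 12500000) := dp14 h0 (by norm_num) (by norm_num) (by norm_num) (by norm_num)
  have h2 : Cb14 (145299 / 125000) (39714531 / 100000000) (9928637 / 25000000) := dp14 h1 (by norm_num) (by norm_num) (by norm_num) (by norm_num)
  have h3 : Cb14 (145299 / 62500) (-68455121 / 100000000) (-68455093 / 100000000) := dp14 h2 (by norm_num) (by norm_num) (by norm_num) (by norm_num)
  exact h3

theorem c13_14b : Cb14 (14399 / 62500) (97357877 / 100000000) (48678939 / 50000000) := by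
  have h0 : Cb14 (14399 / 62500) (97357877 / 100000000) (48678939 / 50000000) := tay14 (by norm_num) (by norm_num) (by norm_num) (by norm_num)
  exact h0

theorem c14_14b : Cb14 (1309 / 625) (-781257 / 1562500) (-50000417 / 100000000) := by
  have h0 : Cb14 (1309 / 5000) (48296283 / 50000000) (96592567 / 100000000) := tay14 (by norm_num) (by norm_num) (by norm_num) (by norm_num)
  have h1 : Cb14 (1309 / 2500) (21650619 / 25000000) (1082531 / 1250000) := dp14 h0 (by norm_num) (by norm_num) (by norm_num) (by norm_num)
  have h2 : Cb14 (1309 / 1250) (1562493 / 3125000) (49999791 / 100000000) := dp14 h1 (by norm_num) (by norm_num) (by norm_num) (by norm_num)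
  have h3 : Cb14 (1309 / 625) (-781257 / 1562500) (-50000417 / 100000000) := dp14 h2 (by norm_num) (by norm_num) (by norm_num) (by norm_num)
  exact h3

theorem c15_14b : Cb14 (273581 / 125000) (-1158571 / 2000000) (-14482129 / 25000000) := by
  have h0 : Cb14 (273581 / 1000000) (19256191 / 20000000) (24070239 / 25000000) := tay14 (by norm_num) (by norm_num) (by norm_num) (by norm_num)
  have h1 : Cb14 (273581 / 500000) (17080089 / 20000000) (1708009 / 2000000) := dp14 h0 (by norm_num) (by norm_num) (by norm_num) (by norm_num)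
  have h2 : Cb14 (273581 / 250000) (573309 / 1250000) (22932369 / 50000000) := dp14 h1 (by norm_num) (by norm_num) (by norm_num) (by norm_num)
  have h3 : Cb14 (273581 / 125000) (-1158571 / 2000000) (-14482129 / 25000000) := dp14 h2 (by norm_num) (by norm_num) (by norm_num) (by norm_num)
  exact h3

theorem c16_14b : Cb14 (11781 / 125000) (49778097 / 50000000) (19911239 / 20000000) := by
  have h0 : Cb14 (11781 / 125000) (49778097 / 50000000) (19911239 / 20000000) := tay14 (by norm_num) (by norm_num) (by norm_num) (by norm_num)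
  exact h0

theorem c17_14b : Cb14 (142681 / 125000) (41627819 / 100000000) (832557 / 2000000) := by
  have h0 : Cb14 (142681 / 500000) (4797799 / 5000000) (47977991 / 50000000) := tay14 (by norm_num) (by norm_num) (by norm_num) (by norm_num)
  have h1 : Cb14 (142681 / 250000) (84151001 / 100000000) (8415101 / 10000000) := dp14 h0 (by norm_num) (by norm_num) (by norm_num) (by norm_num)
  have h2 : Cb14 (142681 / 125000) (41627819 / 100000000) (832557 / 2000000) := dp14 h1 (by norm_num) (by norm_num) (by norm_num) (by norm_num)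
  exact h2

theorem c18_14b : Cb14 (462077 / 125000) (-84988839 / 100000000) (-42494393 / 50000000) := by
  have h0 : Cb14 (462077 / 2000000) (97342911 / 100000000) (1520983 / 1562500) := tay14 (by norm_num) (by norm_num) (by norm_num) (by norm_num)
  have h1 : Cb14 (462077 / 1000000) (44756423 / 50000000) (89512851 / 100000000) := dp14 h0 (by norm_num) (by norm_num) (by norm_num) (by norm_num)
  have h2 : Cb14 (462077 / 500000) (60250991 / 100000000) (6025101 / 10000000) := dp14 h1 (by norm_num) (by norm_num) (by norm_num) (by norm_num)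
  have h3 : Cb14 (462077 / 250000) (-13698181 / 50000000) (-5479263 / 20000000) := dp14 h2 (by norm_num) (by norm_num) (by norm_num) (by norm_num)
  have h4 : Cb14 (462077 / 125000) (-84988839 / 100000000) (-42494393 / 50000000) := dn14 h3 (by norm_num) (by norm_num) (by norm_num) (by norm_num)
  exact h4

theorem c19_14b : Cb14 (1309 / 1250) (1562493 / 3125000) (49999791 / 100000000) := by
  have h0 : Cb14 (1309 / 5000) (48296283 / 50000000) (96592567 / 100000000) := tay14 (by norm_num) (by norm_num) (by norm_num) (by norm_num)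
  have h1 : Cb14 (1309 / 2500) (21650619 / 25000000) (1082531 / 1250000) := dp14 h0 (by norm_num) (by norm_num) (by norm_num) (by norm_num)
  have h2 : Cb14 (1309 / 1250) (1562493 / 3125000) (49999791 / 100000000) := dp14 h1 (by norm_num) (by norm_num) (by norm_num) (by norm_num)
  exact h2

theorem c20_14b : Cb14 (771 / 250) (-49917101 / 50000000) (-49917097 / 50000000) := by
  have h0 : Cb14 (771 / 4000) (24537029 / 25000000) (98148117 / 100000000) := tay14 (by norm_num) (by norm_num) (by norm_num) (by norm_num)
  have h1 : Cb14 (771 / 2000) (92661053 / 100000000) (46330529 / 50000000) := dp14 h0 (by norm_num) (by norm_num) (by norm_num) (by norm_num)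
  have h2 : Cb14 (771 / 1000) (35860707 / 50000000) (35860717 / 50000000) := dp14 h1 (by norm_num) (by norm_num) (by norm_num) (by norm_num)
  have h3 : Cb14 (771 / 500) (359903 / 12500000) (1439641 / 50000000) := dp14 h2 (by norm_num) (by norm_num) (by norm_num) (by norm_num)
  have h4 : Cb14 (771 / 250) (-49917101 / 50000000) (-49917097 / 50000000) := dp14 h3 (by norm_num) (by norm_num) (by norm_num) (by norm_num)
  exact h4

theorem c21_14b : Cb14 (63479 / 25000) (-41197991 / 50000000) (-41197973 / 50000000) := by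
  have h0 : Cb14 (63479 / 200000) (95005163 / 100000000) (19001033 / 20000000) := tay14 (by norm_num) (by norm_num) (by norm_num) (by norm_num)
  have h1 : Cb14 (63479 / 100000) (80519619 / 100000000) (20129907 / 25000000) := dp14 h0 (by norm_num) (by norm_num) (by norm_num) (by norm_num)
  have h2 : Cb14 (63479 / 50000) (1483409 / 5000000) (2966821 / 10000000) := dp14 h1 (by norm_num) (by norm_num) (by norm_num) (by norm_num)
  have h3 : Cb14 (63479 / 25000) (-41197991 / 50000000) (-41197973 / 50000000) := dp14 h2 (by norm_num) (by norm_num) (by norm_num) (by norm_num)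
  exact h3

theorem c22_14b : Cb14 (12079 / 25000) (44276563 / 50000000) (88553131 / 100000000) := by
  have h0 : Cb14 (12079 / 50000) (97096119 / 100000000) (2427403 / 2500000) := tay14 (by norm_num) (by norm_num) (by norm_num) (by norm_num)
  have h1 : Cb14 (12079 / 25000) (44276563 / 50000000) (88553131 / 100000000) := dp14 h0 (by norm_num) (by norm_num) (by norm_num) (by norm_num)
  exact h1

theorem c23_14b : Cb14 (39321 / 25000) (-10219 / 5000000) (-102163 / 50000000) := by
  have h0 : Cb14 (39321 / 200000) (98073541 / 100000000) (49036771 / 50000000) := tay14 (by norm_num) (by norm_num) (by norm_num) (by norm_num)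
  have h1 : Cb14 (39321 / 100000) (23092097 / 25000000) (92368393 / 100000000) := dp14 h0 (by norm_num) (by norm_num) (by norm_num) (by norm_num)
  have h2 : Cb14 (39321 / 50000) (35319191 / 50000000) (70638401 / 100000000) := dp14 h1 (by norm_num) (by norm_num) (by norm_num) (by norm_num)
  have h3 : Cb14 (39321 / 25000) (-10219 / 5000000) (-102163 / 50000000) := dp14 h2 (by norm_num) (by norm_num) (by norm_num) (by norm_num)
  exact h3

theorem c24_14b : Cb14 (13621 / 25000) (4276051 / 5000000) (3420841 / 4000000) := by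
  have h0 : Cb14 (13621 / 50000) (48156129 / 50000000) (96312259 / 100000000) := tay14 (by norm_num) (by norm_num) (by norm_num) (by norm_num)
  have h1 : Cb14 (13621 / 25000) (4276051 / 5000000) (3420841 / 4000000) := dp14 h0 (by norm_num) (by norm_num) (by norm_num) (by norm_num)
  exact h1

theorem c25_14b : Cb14 (89179 / 25000) (-91080473 / 100000000) (-9108043 / 10000000) := by
  have h0 : Cb14 (89179 / 400000) (97524997 / 100000000) (48762499 / 50000000) := tay14 (by norm_num) (by norm_num) (by norm_num) (by norm_num)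
  have h1 : Cb14 (89179 / 200000) (36089 / 40000) (18044501 / 20000000) := dp14 h0 (by norm_num) (by norm_num) (by norm_num) (by norm_num)
  have h2 : Cb14 (89179 / 100000) (6280199 / 10000000) (62802009 / 100000000) := dp14 h1 (by norm_num) (by norm_num) (by norm_num) (by norm_num)
  have h3 : Cb14 (89179 / 50000) (-10559101 / 50000000) (-21118153 / 100000000) := dp14 h2 (by norm_num) (by norm_num) (by norm_num) (by norm_num)
  have h4 : Cb14 (89179 / 25000) (-91080473 / 100000000) (-9108043 / 10000000) := dn14 h3 (by norm_num) (by norm_num) (by norm_num) (by norm_num)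
  exact h4

theorem c26_14b : Cb14 (3927 / 1250) (-1) (-99999999 / 100000000) := by
  have h0 : Cb14 (3927 / 20000) (98078519 / 100000000) (2451963 / 2500000) := tay14 (by norm_num) (by norm_num) (by norm_num) (by norm_num)
  have h1 : Cb14 (3927 / 10000) (92387917 / 100000000) (46193961 / 50000000) := dp14 h0 (by norm_num) (by norm_num) (by norm_num) (by norm_num)
  have h2 : Cb14 (3927 / 5000) (4419409 / 6250000) (70710563 / 100000000) := dp14 h1 (by norm_num) (by norm_num) (by norm_num) (by norm_num)
  have h3 : Cb14 (3927 / 2500) (-19 / 5000000) (-13 / 4000000) := dp14 h2 (by norm_num) (by norm_num) (by norm_num) (by norm_num)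
  have h4 : Cb14 (3927 / 1250) (-1) (-99999999 / 100000000) := dn14 h3 (by norm_num) (by norm_num) (by norm_num) (by norm_num)
  exact h4

theorem c27_14b : Cb14 (323323 / 125000) (-84989597 / 100000000) (-42494789 / 50000000) := by
  have h0 : Cb14 (323323 / 1000000) (94818487 / 100000000) (11852311 / 12500000) := tay14 (by norm_num) (by norm_num) (by norm_num) (by norm_num)
  have h1 : Cb14 (323323 / 500000) (79810909 / 100000000) (39905457 / 50000000) := dp14 h0 (by norm_num) (by norm_num) (by norm_num) (by norm_num)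
  have h2 : Cb14 (323323 / 250000) (27395623 / 100000000) (684891 / 2500000) := dp14 h1 (by norm_num) (by norm_num) (by norm_num) (by norm_num)
  have h3 : Cb14 (323323 / 125000) (-84989597 / 100000000) (-42494789 / 50000000) := dp14 h2 (by norm_num) (by norm_num) (by norm_num) (by norm_num)
  exact h3

theorem c28_14b : Cb14 (61523 / 125000) (5508143 / 6250000) (88130293 / 100000000) := by
  have h0 : Cb14 (61523 / 250000) (96987187 / 100000000) (24246797 / 25000000) := tay14 (by norm_num) (by norm_num) (by norm_num) (by norm_num)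
  have h1 : Cb14 (61523 / 125000) (5508143 / 6250000) (88130293 / 100000000) := dp14 h0 (by norm_num) (by norm_num) (by norm_num) (by norm_num)
  exact h1

theorem c29_14b : Cb14 (200277 / 125000) (-3141487 / 100000000) (-1570721 / 50000000) := by
  have h0 : Cb14 (200277 / 1000000) (1960023 / 2000000) (98001151 / 100000000) := tay14 (by norm_num) (by norm_num) (by norm_num) (by norm_num)
  have h1 : Cb14 (200277 / 500000) (23021127 / 25000000) (2877641 / 3125000) := dp14 h0 (by norm_num) (by norm_num) (by norm_num) (by norm_num)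
  have h2 : Cb14 (200277 / 250000) (17397783 / 25000000) (17397787 / 25000000) := dp14 h1 (by norm_num) (by norm_num) (by norm_num) (by norm_num)
  have h3 : Cb14 (200277 / 125000) (-3141487 / 100000000) (-1570721 / 50000000) := dp14 h2 (by norm_num) (by norm_num) (by norm_num) (by norm_num)
  exact h3

theorem c30_14b : Cb14 (69377 / 125000) (212473 / 250000) (16997841 / 20000000) := by
  have h0 : Cb14 (69377 / 250000) (96174113 / 100000000) (48087057 / 50000000) := tay14 (by norm_num) (by norm_num) (by norm_num) (by norm_num)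
  have h1 : Cb14 (69377 / 125000) (212473 / 250000) (16997841 / 20000000) := dp14 h0 (by norm_num) (by norm_num) (by norm_num) (by norm_num)
  exact h1

theorem c31_14b : Cb14 (454223 / 125000) (-17625993 / 20000000) (-88129917 / 100000000) := by
  have h0 : Cb14 (454223 / 2000000) (24358021 / 25000000) (19486417 / 20000000) := tay14 (by norm_num) (by norm_num) (by norm_num) (by norm_num)
  have h1 : Cb14 (454223 / 1000000) (89860219 / 100000000) (702033 / 781250) := dp14 h0 (by norm_num) (by norm_num) (by norm_num) (by norm_num)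
  have h2 : Cb14 (454223 / 500000) (61497179 / 100000000) (30748599 / 50000000) := dp14 h1 (by norm_num) (by norm_num) (by norm_num) (by norm_num)
  have h3 : Cb14 (454223 / 250000) (-1218097 / 5000000) (-6090473 / 25000000) := dp14 h2 (by norm_num) (by norm_num) (by norm_num) (by norm_num)
  have h4 : Cb14 (454223 / 125000) (-17625993 / 20000000) (-88129917 / 100000000) := dn14 h3 (by norm_num) (by norm_num) (by norm_num) (by norm_num)
  exact h4

theorem c32_14b : Cb14 (61937 / 25000) (-15749283 / 20000000) (-9843299 / 12500000) := by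
  have h0 : Cb14 (61937 / 200000) (95242961 / 100000000) (47621481 / 50000000) := tay14 (by norm_num) (by norm_num) (by norm_num) (by norm_num)
  have h1 : Cb14 (61937 / 100000) (5089027 / 6250000) (81424437 / 100000000) := dp14 h0 (by norm_num) (by norm_num) (by norm_num) (by norm_num)
  have h2 : Cb14 (61937 / 50000) (16299381 / 50000000) (32598779 / 100000000) := dp14 h1 (by norm_num) (by norm_num) (by norm_num) (by norm_num)
  have h3 : Cb14 (61937 / 25000) (-15749283 / 20000000) (-9843299 / 12500000) := dp14 h2 (by norm_num) (by norm_num) (by norm_num) (by norm_num)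
  exact h3

theorem c33_14b : Cb14 (10537 / 25000) (45624221 / 50000000) (91248447 / 100000000) := by
  have h0 : Cb14 (10537 / 50000) (48893819 / 50000000) (97787639 / 100000000) := tay14 (by norm_num) (by norm_num) (by norm_num) (by norm_num)
  have h1 : Cb14 (10537 / 25000) (45624221 / 50000000) (91248447 / 100000000) := dp14 h0 (by norm_num) (by norm_num) (by norm_num) (by norm_num)
  exact h1

theorem c34_14b : Cb14 (40863 / 25000) (-1273619 / 20000000) (-6368039 / 100000000) := by
  have h0 : Cb14 (40863 / 200000) (97920019 / 100000000) (4896001 / 5000000) := tay14 (by norm_num) (by norm_num) (by norm_num) (by norm_num)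
  have h1 : Cb14 (40863 / 100000) (45883301 / 50000000) (91766607 / 100000000) := dp14 h0 (by norm_num) (by norm_num) (by norm_num) (by norm_num)
  have h2 : Cb14 (40863 / 50000) (8552773 / 12500000) (17105551 / 25000000) := dp14 h1 (by norm_num) (by norm_num) (by norm_num) (by norm_num)
  have h3 : Cb14 (40863 / 25000) (-1273619 / 20000000) (-6368039 / 100000000) := dp14 h2 (by norm_num) (by norm_num) (by norm_num) (by norm_num)
  exact h3

theorem c35_14b : Cb14 (15163 / 25000) (82163659 / 100000000) (5135229 / 6250000) := by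
  have h0 : Cb14 (15163 / 50000) (95436801 / 100000000) (47718401 / 50000000) := tay14 (by norm_num) (by norm_num) (by norm_num) (by norm_num)
  have h1 : Cb14 (15163 / 25000) (82163659 / 100000000) (5135229 / 6250000) := dp14 h0 (by norm_num) (by norm_num) (by norm_num) (by norm_num)
  exact h1

theorem c36_14b : Cb14 (87637 / 25000) (-93452061 / 100000000) (-11681503 / 12500000) := by
  have h0 : Cb14 (87637 / 400000) (97609509 / 100000000) (9760951 / 10000000) := tay14 (by norm_num) (by norm_num) (by norm_num) (by norm_num)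
  have h1 : Cb14 (87637 / 200000) (22638081 / 25000000) (90552329 / 100000000) := dp14 h0 (by norm_num) (by norm_num) (by norm_num) (by norm_num)
  have h2 : Cb14 (87637 / 100000) (63994467 / 100000000) (31997243 / 50000000) := dp14 h1 (by norm_num) (by norm_num) (by norm_num) (by norm_num)
  have h3 : Cb14 (87637 / 50000) (-4523541 / 25000000) (-3618823 / 20000000) := dp14 h2 (by norm_num) (by norm_num) (by norm_num) (by norm_num)
  have h4 : Cb14 (87637 / 25000) (-93452061 / 100000000) (-11681503 / 12500000) := dn14 h3 (by norm_num) (by norm_num) (by norm_num) (by norm_num)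
  exact h4

theorem c37_14b : Cb14 (65021 / 25000) (-17146431 / 20000000) (-10716517 / 12500000) := by
  have h0 : Cb14 (65021 / 200000) (94761719 / 100000000) (2369043 / 2500000) := tay14 (by norm_num) (by norm_num) (by norm_num) (by norm_num)
  have h1 : Cb14 (65021 / 100000) (79595667 / 100000000) (9949459 / 12500000) := dp14 h0 (by norm_num) (by norm_num) (by norm_num) (by norm_num)
  have h2 : Cb14 (65021 / 50000) (6677351 / 25000000) (26709421 / 100000000) := dp14 h1 (by norm_num) (by norm_num) (by norm_num) (by norm_num)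
  have h3 : Cb14 (65021 / 25000) (-17146431 / 20000000) (-10716517 / 12500000) := dp14 h2 (by norm_num) (by norm_num) (by norm_num) (by norm_num)
  exact h3

theorem c38_14b : Cb14 (315469 / 125000) (-4075657 / 5000000) (-81513103 / 100000000) := by
  have h0 : Cb14 (315469 / 1000000) (11883137 / 12500000) (47532549 / 50000000) := tay14 (by norm_num) (by norm_num) (by norm_num) (by norm_num)
  have h1 : Cb14 (315469 / 500000) (80747449 / 100000000) (40373729 / 50000000) := dp14 h0 (by norm_num) (by norm_num) (by norm_num) (by norm_num)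
  have h2 : Cb14 (315469 / 250000) (3040301 / 10000000) (190019 / 625000) := dp14 h1 (by norm_num) (by norm_num) (by norm_num) (by norm_num)
  have h3 : Cb14 (315469 / 125000) (-4075657 / 5000000) (-81513103 / 100000000) := dp14 h2 (by norm_num) (by norm_num) (by norm_num) (by norm_num)
  exact h3

theorem c39_14b : Cb14 (53669 / 125000) (45461783 / 50000000) (90923571 / 100000000) := by
  have h0 : Cb14 (53669 / 250000) (48852273 / 50000000) (97704547 / 100000000) := tay14 (by norm_num) (by norm_num) (by norm_num) (by norm_num)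
  have h1 : Cb14 (53669 / 125000) (45461783 / 50000000) (90923571 / 100000000) := dp14 h0 (by norm_num) (by norm_num) (by norm_num) (by norm_num)
  exact h1

theorem c40_14b : Cb14 (208131 / 125000) (-1882251 / 20000000) (-9411203 / 100000000) := by
  have h0 : Cb14 (208131 / 1000000) (97841881 / 100000000) (48920941 / 50000000) := tay14 (by norm_num) (by norm_num) (by norm_num) (by norm_num)
  have h1 : Cb14 (208131 / 500000) (91460673 / 100000000) (45730339 / 50000000) := dp14 h0 (by norm_num) (by norm_num) (by norm_num) (by norm_num)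
  have h2 : Cb14 (208131 / 250000) (33650547 / 50000000) (67301113 / 100000000) := dp14 h1 (by norm_num) (by norm_num) (by norm_num) (by norm_num)
  have h3 : Cb14 (208131 / 125000) (-1882251 / 20000000) (-9411203 / 100000000) := dp14 h2 (by norm_num) (by norm_num) (by norm_num) (by norm_num)
  exact h3

theorem c41_14b : Cb14 (77231 / 125000) (81512691 / 100000000) (815127 / 1000000) := by
  have h0 : Cb14 (77231 / 250000) (762129 / 800000) (95266127 / 100000000) := tay14 (by norm_num) (by norm_num) (by norm_num) (by norm_num)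
  have h1 : Cb14 (77231 / 125000) (81512691 / 100000000) (815127 / 1000000) := dp14 h0 (by norm_num) (by norm_num) (by norm_num) (by norm_num)
  exact h1

theorem c42_14b : Cb14 (446369 / 125000) (-90923271 / 100000000) (-22730807 / 25000000) := by
  have h0 : Cb14 (446369 / 2000000) (48759877 / 50000000) (19503951 / 20000000) := tay14 (by norm_num) (by norm_num) (by norm_num) (by norm_num)
  have h1 : Cb14 (446369 / 1000000) (1409407 / 1562500) (90202053 / 100000000) := dp14 h0 (by norm_num) (by norm_num) (by norm_num) (by norm_num)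
  have h2 : Cb14 (446369 / 500000) (62728189 / 100000000) (3920513 / 6250000) := dp14 h1 (by norm_num) (by norm_num) (by norm_num) (by norm_num)
  have h3 : Cb14 (446369 / 250000) (-21303487 / 100000000) (-10651719 / 50000000) := dp14 h2 (by norm_num) (by norm_num) (by norm_num) (by norm_num)
  have h4 : Cb14 (446369 / 125000) (-90923271 / 100000000) (-22730807 / 25000000) := dn14 h3 (by norm_num) (by norm_num) (by norm_num) (by norm_num)
  exact h4

theorem c43_14b : Cb14 (331177 / 125000) (-1762613 / 2000000) (-22032659 / 25000000) := by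
  have h0 : Cb14 (331177 / 1000000) (23641507 / 25000000) (94566029 / 100000000) := tay14 (by norm_num) (by norm_num) (by norm_num) (by norm_num)
  have h1 : Cb14 (331177 / 500000) (78854673 / 100000000) (78854677 / 100000000) := dp14 h0 (by norm_num) (by norm_num) (by norm_num) (by norm_num)
  have h2 : Cb14 (331177 / 250000) (24361189 / 100000000) (12180601 / 50000000) := dp14 h1 (by norm_num) (by norm_num) (by norm_num) (by norm_num)
  have h3 : Cb14 (331177 / 125000) (-1762613 / 2000000) (-22032659 / 25000000) := dp14 h2 (by norm_num) (by norm_num) (by norm_num) (by norm_num)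
  exact h3

theorem c44_14b : Cb14 (52171 / 12500) (-5130289 / 10000000) (-51302811 / 100000000) := by
  have h0 : Cb14 (52171 / 200000) (48308491 / 50000000) (96616983 / 100000000) := tay14 (by norm_num) (by norm_num) (by norm_num) (by norm_num)
  have h1 : Cb14 (52171 / 100000) (10837103 / 12500000) (86696829 / 100000000) := dp14 h0 (by norm_num) (by norm_num) (by norm_num) (by norm_num)
  have h2 : Cb14 (52171 / 50000) (10065357 / 20000000) (12581701 / 25000000) := dp14 h1 (by norm_num) (by norm_num) (by norm_num) (by norm_num)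
  have h3 : Cb14 (52171 / 25000) (-9868859 / 20000000) (-9868851 / 20000000) := dp14 h2 (by norm_num) (by norm_num) (by norm_num) (by norm_num)
  have h4 : Cb14 (52171 / 12500) (-5130289 / 10000000) (-51302811 / 100000000) := dn14 h3 (by norm_num) (by norm_num) (by norm_num) (by norm_num)
  exact h4

theorem c45_14b : Cb14 (26471 / 12500) (-26001407 / 50000000) (-6500347 / 12500000) := by
  have h0 : Cb14 (26471 / 100000) (96516841 / 100000000) (48258421 / 50000000) := tay14 (by norm_num) (by norm_num) (by norm_num) (by norm_num)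
  have h1 : Cb14 (26471 / 50000) (86310011 / 100000000) (674297 / 781250) := dp14 h0 (by norm_num) (by norm_num) (by norm_num) (by norm_num)
  have h2 : Cb14 (26471 / 25000) (48988359 / 100000000) (24494189 / 50000000) := dp14 h1 (by norm_num) (by norm_num) (by norm_num) (by norm_num)
  have h3 : Cb14 (26471 / 12500) (-26001407 / 50000000) (-6500347 / 12500000) := dp14 h2 (by norm_num) (by norm_num) (by norm_num) (by norm_num)
  exact h3

theorem c46_14b : Cb14 (18247 / 6250) (-97544323 / 100000000) (-12193037 / 12500000) := by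
  have h0 : Cb14 (18247 / 100000) (12292481 / 12500000) (98339849 / 100000000) := tay14 (by norm_num) (by norm_num) (by norm_num) (by norm_num)
  have h1 : Cb14 (18247 / 50000) (46707257 / 50000000) (93414519 / 100000000) := dp14 h0 (by norm_num) (by norm_num) (by norm_num) (by norm_num)
  have h2 : Cb14 (18247 / 25000) (18631357 / 25000000) (9315681 / 12500000) := dp14 h1 (by norm_num) (by norm_num) (by norm_num) (by norm_num)
  have h3 : Cb14 (18247 / 12500) (2770197 / 25000000) (692553 / 6250000) := dp14 h2 (by norm_num) (by norm_num) (by norm_num) (by norm_num)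
  have h4 : Cb14 (18247 / 6250) (-97544323 / 100000000) (-12193037 / 12500000) := dp14 h3 (by norm_num) (by norm_num) (by norm_num) (by norm_num)
  exact h4

theorem c47_14b : Cb14 (5397 / 6250) (64976579 / 100000000) (32488299 / 50000000) := by
  have h0 : Cb14 (5397 / 25000) (97678827 / 100000000) (24419707 / 25000000) := tay14 (by norm_num) (by norm_num) (by norm_num) (by norm_num)
  have h1 : Cb14 (5397 / 12500) (11352883 / 12500000) (90823069 / 100000000) := dp14 h0 (by norm_num) (by norm_num) (by norm_num) (by norm_num)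
  have h2 : Cb14 (5397 / 6250) (64976579 / 100000000) (32488299 / 50000000) := dp14 h1 (by norm_num) (by norm_num) (by norm_num) (by norm_num)
  exact h2

theorem c48_14b : Cb14 (5911 / 3125) (-15762689 / 50000000) (-7881333 / 25000000) := by
  have h0 : Cb14 (5911 / 25000) (97217803 / 100000000) (24304451 / 25000000) := tay14 (by norm_num) (by norm_num) (by norm_num) (by norm_num)
  have h1 : Cb14 (5911 / 12500) (11128253 / 12500000) (89026029 / 100000000) := dp14 h0 (by norm_num) (by norm_num) (by norm_num) (by norm_num)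
  have h2 : Cb14 (5911 / 6250) (29256329 / 50000000) (58512677 / 100000000) := dp14 h1 (by norm_num) (by norm_num) (by norm_num) (by norm_num)
  have h3 : Cb14 (5911 / 3125) (-15762689 / 50000000) (-7881333 / 25000000) := dp14 h2 (by norm_num) (by norm_num) (by norm_num) (by norm_num)
  exact h3

theorem c49_14b : Cb14 (27499 / 6250) (-15374283 / 50000000) (-6149697 / 20000000) := by
  have h0 : Cb14 (27499 / 100000) (96242791 / 100000000) (12030349 / 12500000) := tay14 (by norm_num) (by norm_num) (by norm_num) (by norm_num)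
  have h1 : Cb14 (27499 / 50000) (10656687 / 12500000) (85253501 / 100000000) := dp14 h0 (by norm_num) (by norm_num) (by norm_num) (by norm_num)
  have h2 : Cb14 (27499 / 25000) (45363171 / 100000000) (45363189 / 100000000) := dp14 h1 (by norm_num) (by norm_num) (by norm_num) (by norm_num)
  have h3 : Cb14 (27499 / 12500) (-11768731 / 20000000) (-58843621 / 100000000) := dp14 h2 (by norm_num) (by norm_num) (by norm_num) (by norm_num)
  have h4 : Cb14 (27499 / 6250) (-15374283 / 50000000) (-6149697 / 20000000) := dn14 h3 (by norm_num) (by norm_num) (by norm_num) (by norm_num)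
  exact h4

theorem c50_14b : Cb14 (514 / 125) (-56496363 / 100000000) (-1765509 / 3125000) := by
  have h0 : Cb14 (257 / 1000) (48357843 / 50000000) (96715687 / 100000000) := tay14 (by norm_num) (by norm_num) (by norm_num) (by norm_num)
  have h1 : Cb14 (257 / 500) (43539239 / 50000000) (87078483 / 100000000) := dp14 h0 (by norm_num) (by norm_num) (by norm_num) (by norm_num)
  have h2 : Cb14 (257 / 250) (25826613 / 50000000) (10330649 / 20000000) := dp14 h1 (by norm_num) (by norm_num) (by norm_num) (by norm_num)
  have h3 : Cb14 (257 / 125) (-9327777 / 20000000) (-9327769 / 20000000) := dp14 h2 (by norm_num) (by norm_num) (by norm_num) (by norm_num)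
  have h4 : Cb14 (514 / 125) (-56496363 / 100000000) (-1765509 / 3125000) := dn14 h3 (by norm_num) (by norm_num) (by norm_num) (by norm_num)
  exact h4

theorem c51_14b : Cb14 (265727 / 62500) (-44462653 / 100000000) (-2778911 / 6250000) := by
  have h0 : Cb14 (265727 / 1000000) (96490183 / 100000000) (12061273 / 12500000) := tay14 (by norm_num) (by norm_num) (by norm_num) (by norm_num)
  have h1 : Cb14 (265727 / 500000) (21551777 / 25000000) (86207113 / 100000000) := dp14 h0 (by norm_num) (by norm_num) (by norm_num) (by norm_num)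
  have h2 : Cb14 (265727 / 250000) (48633309 / 100000000) (48633327 / 100000000) := dp14 h1 (by norm_num) (by norm_num) (by norm_num) (by norm_num)
  have h3 : Cb14 (265727 / 125000) (-26348013 / 50000000) (-5269599 / 10000000) := dp14 h2 (by norm_num) (by norm_num) (by norm_num) (by norm_num)
  have h4 : Cb14 (265727 / 62500) (-44462653 / 100000000) (-2778911 / 6250000) := dn14 h3 (by norm_num) (by norm_num) (by norm_num) (by norm_num)
  exact h4

theorem c52_14b : Cb14 (134827 / 62500) (-55339601 / 100000000) (-27669783 / 50000000) := by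
  have h0 : Cb14 (134827 / 500000) (12048289 / 12500000) (96386313 / 100000000) := tay14 (by norm_num) (by norm_num) (by norm_num) (by norm_num)
  have h1 : Cb14 (134827 / 250000) (42903211 / 50000000) (85806427 / 100000000) := dp14 h0 (by norm_num) (by norm_num) (by norm_num) (by norm_num)
  have h2 : Cb14 (134827 / 125000) (47254841 / 100000000) (47254859 / 100000000) := dp14 h1 (by norm_num) (by norm_num) (by norm_num) (by norm_num)
  have h3 : Cb14 (134827 / 62500) (-55339601 / 100000000) (-27669783 / 50000000) := dp14 h2 (by norm_num) (by norm_num) (by norm_num) (by norm_num)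
  exact h3

theorem c53_14b : Cb14 (92939 / 31250) (-24649933 / 25000000) (-3081241 / 3125000) := by
  have h0 : Cb14 (92939 / 500000) (24569359 / 25000000) (98277437 / 100000000) := tay14 (by norm_num) (by norm_num) (by norm_num) (by norm_num)
  have h1 : Cb14 (92939 / 250000) (1455767 / 1562500) (93169093 / 100000000) := dp14 h0 (by norm_num) (by norm_num) (by norm_num) (by norm_num)
  have h2 : Cb14 (92939 / 125000) (73609579 / 100000000) (36804799 / 50000000) := dp14 h1 (by norm_num) (by norm_num) (by norm_num) (by norm_num)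
  have h3 : Cb14 (92939 / 62500) (4183701 / 50000000) (8367459 / 100000000) := dp14 h2 (by norm_num) (by norm_num) (by norm_num) (by norm_num)
  have h4 : Cb14 (92939 / 31250) (-24649933 / 25000000) (-3081241 / 3125000) := dp14 h3 (by norm_num) (by norm_num) (by norm_num) (by norm_num)
  exact h4

theorem c54_14b : Cb14 (27489 / 31250) (3983889 / 6250000) (63742243 / 100000000) := by
  have h0 : Cb14 (27489 / 125000) (6099479 / 6250000) (19518333 / 20000000) := tay14 (by norm_num) (by norm_num) (by norm_num) (by norm_num)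
  have h1 : Cb14 (27489 / 62500) (90482657 / 100000000) (45241331 / 50000000) := dp14 h0 (by norm_num) (by norm_num) (by norm_num) (by norm_num)
  have h2 : Cb14 (27489 / 31250) (3983889 / 6250000) (63742243 / 100000000) := dp14 h1 (by norm_num) (by norm_num) (by norm_num) (by norm_num)
  exact h2

theorem c55_14b : Cb14 (30107 / 15625) (-697153 / 2000000) (-4357201 / 12500000) := by
  have h0 : Cb14 (30107 / 125000) (48556707 / 50000000) (19422683 / 20000000) := tay14 (by norm_num) (by norm_num) (by norm_num) (by norm_num)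
  have h1 : Cb14 (30107 / 62500) (88620303 / 100000000) (22155077 / 25000000) := dp14 h0 (by norm_num) (by norm_num) (by norm_num) (by norm_num)
  have h2 : Cb14 (30107 / 31250) (28535581 / 50000000) (2853559 / 5000000) := dp14 h1 (by norm_num) (by norm_num) (by norm_num) (by norm_num)
  have h3 : Cb14 (30107 / 15625) (-697153 / 2000000) (-4357201 / 12500000) := dp14 h2 (by norm_num) (by norm_num) (by norm_num) (by norm_num)
  exact h3

theorem c56_14b : Cb14 (140063 / 31250) (-5708519 / 25000000) (-5708499 / 25000000) := by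
  have h0 : Cb14 (140063 / 500000) (4805103 / 5000000) (96102061 / 100000000) := tay14 (by norm_num) (by norm_num) (by norm_num) (by norm_num)
  have h1 : Cb14 (140063 / 250000) (42356059 / 50000000) (84712123 / 100000000) := dp14 h0 (by norm_num) (by norm_num) (by norm_num) (by norm_num)
  have h2 : Cb14 (140063 / 125000) (21761429 / 50000000) (10880719 / 25000000) := dp14 h1 (by norm_num) (by norm_num) (by norm_num) (by norm_num)
  have h3 : Cb14 (140063 / 62500) (-62115217 / 100000000) (-12423037 / 20000000) := dp14 h2 (by norm_num) (by norm_num) (by norm_num) (by norm_num)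
  have h4 : Cb14 (140063 / 31250) (-5708519 / 25000000) (-5708499 / 25000000) := dn14 h3 (by norm_num) (by norm_num) (by norm_num) (by norm_num)
  exact h4

theorem c57_14b : Cb14 (2618 / 625) (-24999583 / 50000000) (-49999103 / 100000000) := by
  have h0 : Cb14 (1309 / 5000) (48296283 / 50000000) (96592567 / 100000000) := tay14 (by norm_num) (by norm_num) (by norm_num) (by norm_num)
  have h1 : Cb14 (1309 / 2500) (21650619 / 25000000) (1082531 / 1250000) := dp14 h0 (by norm_num) (by norm_num) (by norm_num) (by norm_num)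
  have h2 : Cb14 (1309 / 1250) (1562493 / 3125000) (49999791 / 100000000) := dp14 h1 (by norm_num) (by norm_num) (by norm_num) (by norm_num)
  have h3 : Cb14 (1309 / 625) (-781257 / 1562500) (-50000417 / 100000000) := dp14 h2 (by norm_num) (by norm_num) (by norm_num) (by norm_num)
  have h4 : Cb14 (2618 / 625) (-24999583 / 50000000) (-49999103 / 100000000) := dn14 h3 (by norm_num) (by norm_num) (by norm_num) (by norm_num)
  exact h4

theorem n2a_14b : (-1317 / 2500) ≤ HH19 (231 / 100) (61 / 50) 0 (257 / 250) ∧
    HH19 (231 / 100) (61 / 50) 0 (257 / 250) ≤ (-5267 / 10000) := by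
  have c0h := c0_14b
  have c1h := c1_14b
  have c2h := c2_14b
  have c3h := c3_14b
  have c4h := c4_14b
  have c5h := c5_14b
  have c6h := c6_14b
  have c7h := c7_14b
  have c8h := c8_14b
  have c9h := c9_14b
  unfold Cb14 at c0h
  unfold Cb14 at c1h
  unfold Cb14 at c2h
  unfold Cb14 at c3h
  unfold Cb14 at c4h
  unfold Cb14 at c5h
  unfold Cb14 at c6h
  unfold Cb14 at c7h
  unfold Cb14 at c8h
  unfold Cb14 at c9h
  have e0 : Real.cos (((231 / 100) + 1) * (257 / 250) : ℝ) = Real.cos (85067 / 25000) := by rw [show (((231 / 100) + 1) * (257 / 250) : ℝ) = (85067 / 25000) by norm_num]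
  have e1 : Real.cos (((231 / 100) - 1) * (257 / 250) : ℝ) = Real.cos (33667 / 25000) := by rw [show (((231 / 100) - 1) * (257 / 250) : ℝ) = (33667 / 25000) by norm_num]
  have e2 : Real.cos (((61 / 50) + 1) * (257 / 250) : ℝ) = Real.cos (28527 / 12500) := by rw [show (((61 / 50) + 1) * (257 / 250) : ℝ) = (28527 / 12500) by norm_num]
  have e3 : Real.cos (((61 / 50) - 1) * (257 / 250) : ℝ) = Real.cos (2827 / 12500) := by rw [show (((61 / 50) - 1) * (257 / 250) : ℝ) = (2827 / 12500) by norm_num]
  have e4 : Real.cos (2 * (257 / 250) : ℝ) = Real.cos (257 / 125) := by rw [show (2 * (257 / 250) : ℝ) = (257 / 125) by norm_num]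
  have e5 : Real.cos (((231 / 100) - (61 / 50) + 1) * (257 / 250) : ℝ) = Real.cos (53713 / 25000) := by rw [show (((231 / 100) - (61 / 50) + 1) * (257 / 250) : ℝ) = (53713 / 25000) by norm_num]
  have e6 : Real.cos (((231 / 100) - (61 / 50) - 1) * (257 / 250) : ℝ) = Real.cos (2313 / 25000) := by rw [show (((231 / 100) - (61 / 50) - 1) * (257 / 250) : ℝ) = (2313 / 25000) by norm_num]
  have e7 : Real.cos (((231 / 100) - (61 / 50)) * (257 / 250) : ℝ) = Real.cos (28013 / 25000) := by rw [show (((231 / 100) - (61 / 50)) * (257 / 250) : ℝ) = (28013 / 25000) by norm_num]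
  have e8 : Real.cos (((231 / 100) + (61 / 50)) * (257 / 250) : ℝ) = Real.cos (90721 / 25000) := by rw [show (((231 / 100) + (61 / 50)) * (257 / 250) : ℝ) = (90721 / 25000) by norm_num]
  have e9 : Real.cos (0 * (257 / 250) : ℝ) = 1 := by rw [show (0 * (257 / 250) : ℝ) = 0 by norm_num, Real.cos_zero]
  have e10 : Real.cos ((0 + 1) * (257 / 250) : ℝ) = Real.cos (257 / 250) := by rw [show ((0 + 1) * (257 / 250) : ℝ) = (257 / 250) by norm_num]
  have e11 : Real.cos ((0 - 1) * (257 / 250) : ℝ) = Real.cos (257 / 250) := by rw [show ((0 - 1) * (257 / 250) : ℝ) = -(257 / 250) by norm_num, Real.cos_neg]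
  unfold HH19
  rw [e0, e1, e2, e3, e4, e5, e6, e7, e8, e9, e10, e11]
  constructor <;> linarith

theorem n2b_14b : (-1389 / 2500) ≤ HH19 (231 / 100) (61 / 50) 0 (1309 / 1250) ∧
    HH19 (231 / 100) (61 / 50) 0 (1309 / 1250) ≤ (-1111 / 2000) := by
  have c10h := c10_14b
  have c11h := c11_14b
  have c12h := c12_14b
  have c13h := c13_14b
  have c14h := c14_14b
  have c15h := c15_14b
  have c16h := c16_14b
  have c17h := c17_14b
  have c18h := c18_14b
  have c19h := c19_14b
  unfold Cb14 at c10h
  unfold Cb14 at c11h
  unfold Cb14 at c12h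
  unfold Cb14 at c13h
  unfold Cb14 at c14h
  unfold Cb14 at c15h
  unfold Cb14 at c16h
  unfold Cb14 at c17h
  unfold Cb14 at c18h
  unfold Cb14 at c19h
  have e0 : Real.cos (((231 / 100) + 1) * (1309 / 1250) : ℝ) = Real.cos (433279 / 125000) := by rw [show (((231 / 100) + 1) * (1309 / 1250) : ℝ) = (433279 / 125000) by norm_num]
  have e1 : Real.cos (((231 / 100) - 1) * (1309 / 1250) : ℝ) = Real.cos (171479 / 125000) := by rw [show (((231 / 100) - 1) * (1309 / 1250) : ℝ) = (171479 / 125000) by norm_num]
  have e2 : Real.cos (((61 / 50) + 1) * (1309 / 1250) : ℝ) = Real.cos (145299 / 62500) := by rw [show (((61 / 50) + 1) * (1309 / 1250) : ℝ) = (145299 / 62500) by norm_num]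
  have e3 : Real.cos (((61 / 50) - 1) * (1309 / 1250) : ℝ) = Real.cos (14399 / 62500) := by rw [show (((61 / 50) - 1) * (1309 / 1250) : ℝ) = (14399 / 62500) by norm_num]
  have e4 : Real.cos (2 * (1309 / 1250) : ℝ) = Real.cos (1309 / 625) := by rw [show (2 * (1309 / 1250) : ℝ) = (1309 / 625) by norm_num]
  have e5 : Real.cos (((231 / 100) - (61 / 50) + 1) * (1309 / 1250) : ℝ) = Real.cos (273581 / 125000) := by rw [show (((231 / 100) - (61 / 50) + 1) * (1309 / 1250) : ℝ) = (273581 / 125000) by norm_num]
  have e6 : Real.cos (((231 / 100) - (61 / 50) - 1) * (1309 / 1250) : ℝ) = Real.cos (11781 / 125000) := by rw [show (((231 / 100) - (61 / 50) - 1) * (1309 / 1250) : ℝ) = (11781 / 125000) by norm_num]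
  have e7 : Real.cos (((231 / 100) - (61 / 50)) * (1309 / 1250) : ℝ) = Real.cos (142681 / 125000) := by rw [show (((231 / 100) - (61 / 50)) * (1309 / 1250) : ℝ) = (142681 / 125000) by norm_num]
  have e8 : Real.cos (((231 / 100) + (61 / 50)) * (1309 / 1250) : ℝ) = Real.cos (462077 / 125000) := by rw [show (((231 / 100) + (61 / 50)) * (1309 / 1250) : ℝ) = (462077 / 125000) by norm_num]
  have e9 : Real.cos (0 * (1309 / 1250) : ℝ) = 1 := by rw [show (0 * (1309 / 1250) : ℝ) = 0 by norm_num, Real.cos_zero]
  have e10 : Real.cos ((0 + 1) * (1309 / 1250) : ℝ) = Real.cos (1309 / 1250) := by rw [show ((0 + 1) * (1309 / 1250) : ℝ) = (1309 / 1250) by norm_num]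
  have e11 : Real.cos ((0 - 1) * (1309 / 1250) : ℝ) = Real.cos (1309 / 1250) := by rw [show ((0 - 1) * (1309 / 1250) : ℝ) = -(1309 / 1250) by norm_num, Real.cos_neg]
  unfold HH19
  rw [e0, e1, e2, e3, e4, e5, e6, e7, e8, e9, e10, e11]
  constructor <;> linarith

theorem m2a_14b : (-649 / 1250) ≤ HH19 2 (147 / 100) 0 (257 / 250) ∧
    HH19 2 (147 / 100) 0 (257 / 250) ≤ (-5191 / 10000) := by
  have c20h := c20_14b
  have c21h := c21_14b
  have c22h := c22_14b
  have c23h := c23_14b
  have c24h := c24_14b
  have c25h := c25_14b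
  have c4h := c4_14b
  have c9h := c9_14b
  unfold Cb14 at c20h
  unfold Cb14 at c21h
  unfold Cb14 at c22h
  unfold Cb14 at c23h
  unfold Cb14 at c24h
  unfold Cb14 at c25h
  unfold Cb14 at c4h
  unfold Cb14 at c9h
  have e0 : Real.cos ((2 + 1) * (257 / 250) : ℝ) = Real.cos (771 / 250) := by rw [show ((2 + 1) * (257 / 250) : ℝ) = (771 / 250) by norm_num]
  have e1 : Real.cos ((2 - 1) * (257 / 250) : ℝ) = Real.cos (257 / 250) := by rw [show ((2 - 1) * (257 / 250) : ℝ) = (257 / 250) by norm_num]
  have e2 : Real.cos (((147 / 100) + 1) * (257 / 250) : ℝ) = Real.cos (63479 / 25000) := by rw [show (((147 / 100) + 1) * (257 / 250) : ℝ) = (63479 / 25000) by norm_num]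
  have e3 : Real.cos (((147 / 100) - 1) * (257 / 250) : ℝ) = Real.cos (12079 / 25000) := by rw [show (((147 / 100) - 1) * (257 / 250) : ℝ) = (12079 / 25000) by norm_num]
  have e4 : Real.cos (2 * (257 / 250) : ℝ) = Real.cos (257 / 125) := by rw [show (2 * (257 / 250) : ℝ) = (257 / 125) by norm_num]
  have e5 : Real.cos ((2 - (147 / 100) + 1) * (257 / 250) : ℝ) = Real.cos (39321 / 25000) := by rw [show ((2 - (147 / 100) + 1) * (257 / 250) : ℝ) = (39321 / 25000) by norm_num]
  have e6 : Real.cos ((2 - (147 / 100) - 1) * (257 / 250) : ℝ) = Real.cos (12079 / 25000) := by rw [show ((2 - (147 / 100) - 1) * (257 / 250) : ℝ) = -(12079 / 25000) by norm_num, Real.cos_neg]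
  have e7 : Real.cos ((2 - (147 / 100)) * (257 / 250) : ℝ) = Real.cos (13621 / 25000) := by rw [show ((2 - (147 / 100)) * (257 / 250) : ℝ) = (13621 / 25000) by norm_num]
  have e8 : Real.cos ((2 + (147 / 100)) * (257 / 250) : ℝ) = Real.cos (89179 / 25000) := by rw [show ((2 + (147 / 100)) * (257 / 250) : ℝ) = (89179 / 25000) by norm_num]
  have e9 : Real.cos (0 * (257 / 250) : ℝ) = 1 := by rw [show (0 * (257 / 250) : ℝ) = 0 by norm_num, Real.cos_zero]
  have e10 : Real.cos ((0 + 1) * (257 / 250) : ℝ) = Real.cos (257 / 250) := by rw [show ((0 + 1) * (257 / 250) : ℝ) = (257 / 250) by norm_num]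
  have e11 : Real.cos ((0 - 1) * (257 / 250) : ℝ) = Real.cos (257 / 250) := by rw [show ((0 - 1) * (257 / 250) : ℝ) = -(257 / 250) by norm_num, Real.cos_neg]
  unfold HH19
  rw [e0, e1, e2, e3, e4, e5, e6, e7, e8, e9, e10, e11]
  constructor <;> linarith

theorem m2b_14b : (-5437 / 10000) ≤ HH19 2 (147 / 100) 0 (1309 / 1250) ∧
    HH19 2 (147 / 100) 0 (1309 / 1250) ≤ (-1359 / 2500) := by
  have c14h := c14_14b
  have c19h := c19_14b
  have c26h := c26_14b
  have c27h := c27_14b
  have c28h := c28_14b
  have c29h := c29_14b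
  have c30h := c30_14b
  have c31h := c31_14b
  unfold Cb14 at c14h
  unfold Cb14 at c19h
  unfold Cb14 at c26h
  unfold Cb14 at c27h
  unfold Cb14 at c28h
  unfold Cb14 at c29h
  unfold Cb14 at c30h
  unfold Cb14 at c31h
  have e0 : Real.cos ((2 + 1) * (1309 / 1250) : ℝ) = Real.cos (3927 / 1250) := by rw [show ((2 + 1) * (1309 / 1250) : ℝ) = (3927 / 1250) by norm_num]
  have e1 : Real.cos ((2 - 1) * (1309 / 1250) : ℝ) = Real.cos (1309 / 1250) := by rw [show ((2 - 1) * (1309 / 1250) : ℝ) = (1309 / 1250) by norm_num]
  have e2 : Real.cos (((147 / 100) + 1) * (1309 / 1250) : ℝ) = Real.cos (323323 / 125000) := by rw [show (((147 / 100) + 1) * (1309 / 1250) : ℝ) = (323323 / 125000) by norm_num]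
  have e3 : Real.cos (((147 / 100) - 1) * (1309 / 1250) : ℝ) = Real.cos (61523 / 125000) := by rw [show (((147 / 100) - 1) * (1309 / 1250) : ℝ) = (61523 / 125000) by norm_num]
  have e4 : Real.cos (2 * (1309 / 1250) : ℝ) = Real.cos (1309 / 625) := by rw [show (2 * (1309 / 1250) : ℝ) = (1309 / 625) by norm_num]
  have e5 : Real.cos ((2 - (147 / 100) + 1) * (1309 / 1250) : ℝ) = Real.cos (200277 / 125000) := by rw [show ((2 - (147 / 100) + 1) * (1309 / 1250) : ℝ) = (200277 / 125000) by norm_num]
  have e6 : Real.cos ((2 - (147 / 100) - 1) * (1309 / 1250) : ℝ) = Real.cos (61523 / 125000) := by rw [show ((2 - (147 / 100) - 1) * (1309 / 1250) : ℝ) = -(61523 / 125000) by norm_num, Real.cos_neg]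
  have e7 : Real.cos ((2 - (147 / 100)) * (1309 / 1250) : ℝ) = Real.cos (69377 / 125000) := by rw [show ((2 - (147 / 100)) * (1309 / 1250) : ℝ) = (69377 / 125000) by norm_num]
  have e8 : Real.cos ((2 + (147 / 100)) * (1309 / 1250) : ℝ) = Real.cos (454223 / 125000) := by rw [show ((2 + (147 / 100)) * (1309 / 1250) : ℝ) = (454223 / 125000) by norm_num]
  have e9 : Real.cos (0 * (1309 / 1250) : ℝ) = 1 := by rw [show (0 * (1309 / 1250) : ℝ) = 0 by norm_num, Real.cos_zero]
  have e10 : Real.cos ((0 + 1) * (1309 / 1250) : ℝ) = Real.cos (1309 / 1250) := by rw [show ((0 + 1) * (1309 / 1250) : ℝ) = (1309 / 1250) by norm_num]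
  have e11 : Real.cos ((0 - 1) * (1309 / 1250) : ℝ) = Real.cos (1309 / 1250) := by rw [show ((0 - 1) * (1309 / 1250) : ℝ) = -(1309 / 1250) by norm_num, Real.cos_neg]
  unfold HH19
  rw [e0, e1, e2, e3, e4, e5, e6, e7, e8, e9, e10, e11]
  constructor <;> linarith

theorem n3a_14b : (47 / 5000) ≤ HH19 2 (141 / 100) (153 / 100) (257 / 250) ∧
    HH19 2 (141 / 100) (153 / 100) (257 / 250) ≤ (19 / 2000) := by
  have c20h := c20_14b
  have c23h := c23_14b
  have c24h := c24_14b
  have c32h := c32_14b
  have c33h := c33_14b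
  have c34h := c34_14b
  have c35h := c35_14b
  have c36h := c36_14b
  have c37h := c37_14b
  have c4h := c4_14b
  have c9h := c9_14b
  unfold Cb14 at c20h
  unfold Cb14 at c23h
  unfold Cb14 at c24h
  unfold Cb14 at c32h
  unfold Cb14 at c33h
  unfold Cb14 at c34h
  unfold Cb14 at c35h
  unfold Cb14 at c36h
  unfold Cb14 at c37h
  unfold Cb14 at c4h
  unfold Cb14 at c9h
  have e0 : Real.cos ((2 + 1) * (257 / 250) : ℝ) = Real.cos (771 / 250) := by rw [show ((2 + 1) * (257 / 250) : ℝ) = (771 / 250) by norm_num]
  have e1 : Real.cos ((2 - 1) * (257 / 250) : ℝ) = Real.cos (257 / 250) := by rw [show ((2 - 1) * (257 / 250) : ℝ) = (257 / 250) by norm_num]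
  have e2 : Real.cos (((141 / 100) + 1) * (257 / 250) : ℝ) = Real.cos (61937 / 25000) := by rw [show (((141 / 100) + 1) * (257 / 250) : ℝ) = (61937 / 25000) by norm_num]
  have e3 : Real.cos (((141 / 100) - 1) * (257 / 250) : ℝ) = Real.cos (10537 / 25000) := by rw [show (((141 / 100) - 1) * (257 / 250) : ℝ) = (10537 / 25000) by norm_num]
  have e4 : Real.cos (2 * (257 / 250) : ℝ) = Real.cos (257 / 125) := by rw [show (2 * (257 / 250) : ℝ) = (257 / 125) by norm_num]
  have e5 : Real.cos ((2 - (141 / 100) + 1) * (257 / 250) : ℝ) = Real.cos (40863 / 25000) := by rw [show ((2 - (141 / 100) + 1) * (257 / 250) : ℝ) = (40863 / 25000) by norm_num]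
  have e6 : Real.cos ((2 - (141 / 100) - 1) * (257 / 250) : ℝ) = Real.cos (10537 / 25000) := by rw [show ((2 - (141 / 100) - 1) * (257 / 250) : ℝ) = -(10537 / 25000) by norm_num, Real.cos_neg]
  have e7 : Real.cos ((2 - (141 / 100)) * (257 / 250) : ℝ) = Real.cos (15163 / 25000) := by rw [show ((2 - (141 / 100)) * (257 / 250) : ℝ) = (15163 / 25000) by norm_num]
  have e8 : Real.cos ((2 + (141 / 100)) * (257 / 250) : ℝ) = Real.cos (87637 / 25000) := by rw [show ((2 + (141 / 100)) * (257 / 250) : ℝ) = (87637 / 25000) by norm_num]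
  have e9 : Real.cos ((153 / 100) * (257 / 250) : ℝ) = Real.cos (39321 / 25000) := by rw [show ((153 / 100) * (257 / 250) : ℝ) = (39321 / 25000) by norm_num]
  have e10 : Real.cos (((153 / 100) + 1) * (257 / 250) : ℝ) = Real.cos (65021 / 25000) := by rw [show (((153 / 100) + 1) * (257 / 250) : ℝ) = (65021 / 25000) by norm_num]
  have e11 : Real.cos (((153 / 100) - 1) * (257 / 250) : ℝ) = Real.cos (13621 / 25000) := by rw [show (((153 / 100) - 1) * (257 / 250) : ℝ) = (13621 / 25000) by norm_num]
  unfold HH19
  rw [e0, e1, e2, e3, e4, e5, e6, e7, e8, e9, e10, e11]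
  constructor <;> linarith

theorem n3b_14b : (173 / 10000) ≤ HH19 2 (141 / 100) (153 / 100) (1309 / 1250) ∧
    HH19 2 (141 / 100) (153 / 100) (1309 / 1250) ≤ (87 / 5000) := by
  have c14h := c14_14b
  have c19h := c19_14b
  have c26h := c26_14b
  have c29h := c29_14b
  have c30h := c30_14b
  have c38h := c38_14b
  have c39h := c39_14b
  have c40h := c40_14b
  have c41h := c41_14b
  have c42h := c42_14b
  have c43h := c43_14b
  unfold Cb14 at c14h
  unfold Cb14 at c19h
  unfold Cb14 at c26h
  unfold Cb14 at c29h
  unfold Cb14 at c30h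
  unfold Cb14 at c38h
  unfold Cb14 at c39h
  unfold Cb14 at c40h
  unfold Cb14 at c41h
  unfold Cb14 at c42h
  unfold Cb14 at c43h
  have e0 : Real.cos ((2 + 1) * (1309 / 1250) : ℝ) = Real.cos (3927 / 1250) := by rw [show ((2 + 1) * (1309 / 1250) : ℝ) = (3927 / 1250) by norm_num]
  have e1 : Real.cos ((2 - 1) * (1309 / 1250) : ℝ) = Real.cos (1309 / 1250) := by rw [show ((2 - 1) * (1309 / 1250) : ℝ) = (1309 / 1250) by norm_num]
  have e2 : Real.cos (((141 / 100) + 1) * (1309 / 1250) : ℝ) = Real.cos (315469 / 125000) := by rw [show (((141 / 100) + 1) * (1309 / 1250) : ℝ) = (315469 / 125000) by norm_num]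
  have e3 : Real.cos (((141 / 100) - 1) * (1309 / 1250) : ℝ) = Real.cos (53669 / 125000) := by rw [show (((141 / 100) - 1) * (1309 / 1250) : ℝ) = (53669 / 125000) by norm_num]
  have e4 : Real.cos (2 * (1309 / 1250) : ℝ) = Real.cos (1309 / 625) := by rw [show (2 * (1309 / 1250) : ℝ) = (1309 / 625) by norm_num]
  have e5 : Real.cos ((2 - (141 / 100) + 1) * (1309 / 1250) : ℝ) = Real.cos (208131 / 125000) := by rw [show ((2 - (141 / 100) + 1) * (1309 / 1250) : ℝ) = (208131 / 125000) by norm_num]
  have e6 : Real.cos ((2 - (141 / 100) - 1) * (1309 / 1250) : ℝ) = Real.cos (53669 / 125000) := by rw [show ((2 - (141 / 100) - 1) * (1309 / 1250) : ℝ) = -(53669 / 125000) by norm_num, Real.cos_neg]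
  have e7 : Real.cos ((2 - (141 / 100)) * (1309 / 1250) : ℝ) = Real.cos (77231 / 125000) := by rw [show ((2 - (141 / 100)) * (1309 / 1250) : ℝ) = (77231 / 125000) by norm_num]
  have e8 : Real.cos ((2 + (141 / 100)) * (1309 / 1250) : ℝ) = Real.cos (446369 / 125000) := by rw [show ((2 + (141 / 100)) * (1309 / 1250) : ℝ) = (446369 / 125000) by norm_num]
  have e9 : Real.cos ((153 / 100) * (1309 / 1250) : ℝ) = Real.cos (200277 / 125000) := by rw [show ((153 / 100) * (1309 / 1250) : ℝ) = (200277 / 125000) by norm_num]
  have e10 : Real.cos (((153 / 100) + 1) * (1309 / 1250) : ℝ) = Real.cos (331177 / 125000) := by rw [show (((153 / 100) + 1) * (1309 / 1250) : ℝ) = (331177 / 125000) by norm_num]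
  have e11 : Real.cos (((153 / 100) - 1) * (1309 / 1250) : ℝ) = Real.cos (69377 / 125000) := by rw [show (((153 / 100) - 1) * (1309 / 1250) : ℝ) = (69377 / 125000) by norm_num]
  unfold HH19
  rw [e0, e1, e2, e3, e4, e5, e6, e7, e8, e9, e10, e11]
  constructor <;> linarith

theorem n4a_14b : (191 / 10000) ≤ HH19 (153 / 50) (61 / 50) 3 (257 / 250) ∧
    HH19 (153 / 50) (61 / 50) 3 (257 / 250) ≤ (12 / 625) := by
  have c20h := c20_14b
  have c2h := c2_14b
  have c3h := c3_14b
  have c44h := c44_14b
  have c45h := c45_14b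
  have c46h := c46_14b
  have c47h := c47_14b
  have c48h := c48_14b
  have c49h := c49_14b
  have c4h := c4_14b
  have c50h := c50_14b
  unfold Cb14 at c20h
  unfold Cb14 at c2h
  unfold Cb14 at c3h
  unfold Cb14 at c44h
  unfold Cb14 at c45h
  unfold Cb14 at c46h
  unfold Cb14 at c47h
  unfold Cb14 at c48h
  unfold Cb14 at c49h
  unfold Cb14 at c4h
  unfold Cb14 at c50h
  have e0 : Real.cos (((153 / 50) + 1) * (257 / 250) : ℝ) = Real.cos (52171 / 12500) := by rw [show (((153 / 50) + 1) * (257 / 250) : ℝ) = (52171 / 12500) by norm_num]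
  have e1 : Real.cos (((153 / 50) - 1) * (257 / 250) : ℝ) = Real.cos (26471 / 12500) := by rw [show (((153 / 50) - 1) * (257 / 250) : ℝ) = (26471 / 12500) by norm_num]
  have e2 : Real.cos (((61 / 50) + 1) * (257 / 250) : ℝ) = Real.cos (28527 / 12500) := by rw [show (((61 / 50) + 1) * (257 / 250) : ℝ) = (28527 / 12500) by norm_num]
  have e3 : Real.cos (((61 / 50) - 1) * (257 / 250) : ℝ) = Real.cos (2827 / 12500) := by rw [show (((61 / 50) - 1) * (257 / 250) : ℝ) = (2827 / 12500) by norm_num]
  have e4 : Real.cos (2 * (257 / 250) : ℝ) = Real.cos (257 / 125) := by rw [show (2 * (257 / 250) : ℝ) = (257 / 125) by norm_num]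
  have e5 : Real.cos (((153 / 50) - (61 / 50) + 1) * (257 / 250) : ℝ) = Real.cos (18247 / 6250) := by rw [show (((153 / 50) - (61 / 50) + 1) * (257 / 250) : ℝ) = (18247 / 6250) by norm_num]
  have e6 : Real.cos (((153 / 50) - (61 / 50) - 1) * (257 / 250) : ℝ) = Real.cos (5397 / 6250) := by rw [show (((153 / 50) - (61 / 50) - 1) * (257 / 250) : ℝ) = (5397 / 6250) by norm_num]
  have e7 : Real.cos (((153 / 50) - (61 / 50)) * (257 / 250) : ℝ) = Real.cos (5911 / 3125) := by rw [show (((153 / 50) - (61 / 50)) * (257 / 250) : ℝ) = (5911 / 3125) by norm_num]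
  have e8 : Real.cos (((153 / 50) + (61 / 50)) * (257 / 250) : ℝ) = Real.cos (27499 / 6250) := by rw [show (((153 / 50) + (61 / 50)) * (257 / 250) : ℝ) = (27499 / 6250) by norm_num]
  have e9 : Real.cos (3 * (257 / 250) : ℝ) = Real.cos (771 / 250) := by rw [show (3 * (257 / 250) : ℝ) = (771 / 250) by norm_num]
  have e10 : Real.cos ((3 + 1) * (257 / 250) : ℝ) = Real.cos (514 / 125) := by rw [show ((3 + 1) * (257 / 250) : ℝ) = (514 / 125) by norm_num]
  have e11 : Real.cos ((3 - 1) * (257 / 250) : ℝ) = Real.cos (257 / 125) := by rw [show ((3 - 1) * (257 / 250) : ℝ) = (257 / 125) by norm_num]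
  unfold HH19
  rw [e0, e1, e2, e3, e4, e5, e6, e7, e8, e9, e10, e11]
  constructor <;> linarith

theorem n4b_14b : (6 / 625) ≤ HH19 (153 / 50) (61 / 50) 3 (1309 / 1250) ∧
    HH19 (153 / 50) (61 / 50) 3 (1309 / 1250) ≤ (97 / 10000) := by
  have c12h := c12_14b
  have c13h := c13_14b
  have c14h := c14_14b
  have c26h := c26_14b
  have c51h := c51_14b
  have c52h := c52_14b
  have c53h := c53_14b
  have c54h := c54_14b
  have c55h := c55_14b
  have c56h := c56_14b
  have c57h := c57_14b
  unfold Cb14 at c12h
  unfold Cb14 at c13h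
  unfold Cb14 at c14h
  unfold Cb14 at c26h
  unfold Cb14 at c51h
  unfold Cb14 at c52h
  unfold Cb14 at c53h
  unfold Cb14 at c54h
  unfold Cb14 at c55h
  unfold Cb14 at c56h
  unfold Cb14 at c57h
  have e0 : Real.cos (((153 / 50) + 1) * (1309 / 1250) : ℝ) = Real.cos (265727 / 62500) := by rw [show (((153 / 50) + 1) * (1309 / 1250) : ℝ) = (265727 / 62500) by norm_num]
  have e1 : Real.cos (((153 / 50) - 1) * (1309 / 1250) : ℝ) = Real.cos (134827 / 62500) := by rw [show (((153 / 50) - 1) * (1309 / 1250) : ℝ) = (134827 / 62500) by norm_num]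
  have e2 : Real.cos (((61 / 50) + 1) * (1309 / 1250) : ℝ) = Real.cos (145299 / 62500) := by rw [show (((61 / 50) + 1) * (1309 / 1250) : ℝ) = (145299 / 62500) by norm_num]
  have e3 : Real.cos (((61 / 50) - 1) * (1309 / 1250) : ℝ) = Real.cos (14399 / 62500) := by rw [show (((61 / 50) - 1) * (1309 / 1250) : ℝ) = (14399 / 62500) by norm_num]
  have e4 : Real.cos (2 * (1309 / 1250) : ℝ) = Real.cos (1309 / 625) := by rw [show (2 * (1309 / 1250) : ℝ) = (1309 / 625) by norm_num]
  have e5 : Real.cos (((153 / 50) - (61 / 50) + 1) * (1309 / 1250) : ℝ) = Real.cos (92939 / 31250) := by rw [show (((153 / 50) - (61 / 50) + 1) * (1309 / 1250) : ℝ) = (92939 / 31250) by norm_num]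
  have e6 : Real.cos (((153 / 50) - (61 / 50) - 1) * (1309 / 1250) : ℝ) = Real.cos (27489 / 31250) := by rw [show (((153 / 50) - (61 / 50) - 1) * (1309 / 1250) : ℝ) = (27489 / 31250) by norm_num]
  have e7 : Real.cos (((153 / 50) - (61 / 50)) * (1309 / 1250) : ℝ) = Real.cos (30107 / 15625) := by rw [show (((153 / 50) - (61 / 50)) * (1309 / 1250) : ℝ) = (30107 / 15625) by norm_num]
  have e8 : Real.cos (((153 / 50) + (61 / 50)) * (1309 / 1250) : ℝ) = Real.cos (140063 / 31250) := by rw [show (((153 / 50) + (61 / 50)) * (1309 / 1250) : ℝ) = (140063 / 31250) by norm_num]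
  have e9 : Real.cos (3 * (1309 / 1250) : ℝ) = Real.cos (3927 / 1250) := by rw [show (3 * (1309 / 1250) : ℝ) = (3927 / 1250) by norm_num]
  have e10 : Real.cos ((3 + 1) * (1309 / 1250) : ℝ) = Real.cos (2618 / 625) := by rw [show ((3 + 1) * (1309 / 1250) : ℝ) = (2618 / 625) by norm_num]
  have e11 : Real.cos ((3 - 1) * (1309 / 1250) : ℝ) = Real.cos (1309 / 625) := by rw [show ((3 - 1) * (1309 / 1250) : ℝ) = (1309 / 625) by norm_num]
  unfold HH19
  rw [e0, e1, e2, e3, e4, e5, e6, e7, e8, e9, e10, e11]
  constructor <;> linarith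

/-- (N2) -/
theorem N2_14b {a : ℝ} (h0 : 1028 / 1000 ≤ a) (h1 : a ≤ Real.pi / 3) :
    HH19 (231 / 100) (122 / 100) 0 a < HH19 2 (147 / 100) 0 a := by
  obtain ⟨s, s0, s1, hs⟩ := par14b (by linarith) (h1.trans pi3_14)
  have e1 : (122 / 100 : ℝ) = 61 / 50 := by norm_num
  rw [e1]
  have h := (HH_int14 (231 / 100) (61 / 50) 0 s0 s1 hs).2
  have h' := (HH_int14 2 (147 / 100) 0 s0 s1 hs).1
  obtain ⟨_, h3⟩ := n2a_14b
  obtain ⟨_, h5⟩ := n2b_14b
  obtain ⟨h3', _⟩ := m2a_14b
  obtain ⟨h5', _⟩ := m2b_14b
  have hM : Mf14 (231 / 100) (61 / 50) 0 * ((1309 / 1250 - 257 / 250 : ℝ) ^ 2 / 8) ≤ 1 / 500 := by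
    unfold Mf14
    norm_num
  have hM' : Mf14 2 (147 / 100) 0 * ((1309 / 1250 - 257 / 250 : ℝ) ^ 2 / 8) ≤ 1 / 500 := by
    unfold Mf14
    norm_num
  nlinarith [mul_le_mul_of_nonneg_left h3 (by linarith : (0:ℝ) ≤ 1 - s),
    mul_le_mul_of_nonneg_left h5 s0, mul_le_mul_of_nonneg_left h3' (by linarith : (0:ℝ) ≤ 1 - s),
    mul_le_mul_of_nonneg_left h5' s0]

/-- (N3) -/
theorem N3_14b {a : ℝ} (h0 : 1028 / 1000 ≤ a) (h1 : a ≤ Real.pi / 3) :
    0 < HH19 2 (141 / 100) (153 / 100) a := by
  obtain ⟨s, s0, s1, hs⟩ := par14b (by linarith) (h1.trans pi3_14)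
  have h := (HH_int14 2 (141 / 100) (153 / 100) s0 s1 hs).1
  obtain ⟨h3, _⟩ := n3a_14b
  obtain ⟨h5, _⟩ := n3b_14b
  have hM : Mf14 2 (141 / 100) (153 / 100) * ((1309 / 1250 - 257 / 250 : ℝ) ^ 2 / 8) ≤
      1 / 500 := by
    unfold Mf14
    norm_num
  nlinarith [mul_le_mul_of_nonneg_left h3 (by linarith : (0:ℝ) ≤ 1 - s),
    mul_le_mul_of_nonneg_left h5 s0]

/-- (N4) -/
theorem N4_14b {a : ℝ} (h0 : 1028 / 1000 ≤ a) (h1 : a ≤ Real.pi / 3) :
    0 < HH19 (306 / 100) (122 / 100) 3 a := by
  obtain ⟨s, s0, s1, hs⟩ := par14b (by linarith) (h1.trans pi3_14)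
  have e1 : (306 / 100 : ℝ) = 153 / 50 := by norm_num
  have e2 : (122 / 100 : ℝ) = 61 / 50 := by norm_num
  rw [e1, e2]
  have h := (HH_int14 (153 / 50) (61 / 50) 3 s0 s1 hs).1
  obtain ⟨h3, _⟩ := n4a_14b
  obtain ⟨h5, _⟩ := n4b_14b
  have hM : Mf14 (153 / 50) (61 / 50) 3 * ((1309 / 1250 - 257 / 250 : ℝ) ^ 2 / 8) ≤
      1 / 400 := by
    unfold Mf14
    norm_num
  nlinarith [mul_le_mul_of_nonneg_left h3 (by linarith : (0:ℝ) ≤ 1 - s),
    mul_le_mul_of_nonneg_left h5 s0]

end

end Pool.Agent.PEN.E5
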