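import Pool.Agent.E5.Hx63

/-! # Hyperbolic penny graphs: what is seen from a large corner

Two consecutive sides `A B`, `B C` of length `d`, with `A` at least as far from `O` as the long
diagonal of the rhombus of two equilateral triangles, are seen from `O` under an angle at most
`3 α / 2`. Hence a corner of a hexagon larger than `3 α` has neighbours smaller than `2 α`. -/

set_option autoImplicit false

namespace Pool.Agent.PEN

open Classical UpperHalfPlane

noncomputable section

/-- `cosh` of the long diagonal of the rhombus of two equilateral triangles -/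
def lon63 (d : ℝ) : ℝ := (4 * Real.cosh d ^ 2 - Real.cosh d - 1) / (Real.cosh d + 1)

theorem lon_eq63 {d : ℝ} (hd : 0 < d) :
    lon63 d = Real.cosh d ^ 2 - Real.sinh d ^ 2 * Real.cos (2 * alpha d) := by
  have c0 : 1 < Real.cosh d := Real.one_lt_cosh.2 hd.ne'
  have q2 := Real.cosh_sq d
  have e6 : Real.sinh d ^ 2 = Real.cosh d ^ 2 - 1 := by linarith
  have hne : Real.cosh d + 1 ≠ 0 := by linarith
  rw [Real.cos_two_mul, cos_alpha hd, e6]
  unfold lon63
  field_simp
  ring

/-- the square of `cos` of the angle at `O` of the triangle with sides `x, r` at `O` and `d` -/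
theorem cos_seen63 {d : ℝ} {O A B : ℍ} (h : dist A B = d) (hA : A ≠ O) (hB : B ≠ O) :
    Real.sinh (dist O A) * Real.sinh (dist O B) * Real.cos (ang O A B) =
      Real.cosh (dist O A) * Real.cosh (dist O B) - Real.cosh d := by
  have hl := cosh_law hA hB
  rw [h] at hl
  linarith

/-- monotonicity: `r ↦ (cosh r * x - c) / (sinh r)` is increasing where `x ≤ c * cosh r` -/
theorem mono63 {x c R T r t : ℝ} (hR : 1 < R) (hr : 0 < r) (ht : 0 < t) (hRr : R ^ 2 - r ^ 2 = 1)
    (hTt : T ^ 2 - t ^ 2 = 1) (hRT : R ≤ T) (hx : x ≤ c * R) (hc : 0 < c) :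
    (R * x - c) * t ≤ (T * x - c) * r := by
  -- (T x - c) r - (R x - c) t = x (T r - R t) + c (t - r), and R t - T r = (T - R)(T + R) / (R t + T r)
  have hT : 1 < T := lt_of_lt_of_le hR hRT
  have h1 : r ≤ t := by
    have : r ^ 2 ≤ t ^ 2 := by nlinarith
    exact abs_le_of_sq_le_sq' this ht.le |>.2
  have h2 : (R * t - T * r) * (R * t + T * r) = (T - R) * (T + R) := by
    have e1 : t ^ 2 = T ^ 2 - 1 := by linarith
    have e2 : r ^ 2 = R ^ 2 - 1 := by linarith
    have : (R * t - T * r) * (R * t + T * r) = R ^ 2 * t ^ 2 - T ^ 2 * r ^ 2 := by ring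
    rw [this, e1, e2]
    ring
  have h3 : (t - r) * (t + r) = (T - R) * (T + R) := by
    have e1 : t ^ 2 = T ^ 2 - 1 := by linarith
    have e2 : r ^ 2 = R ^ 2 - 1 := by linarith
    have : (t - r) * (t + r) = t ^ 2 - r ^ 2 := by ring
    rw [this, e1, e2]
    ring
  have hp : 0 ≤ R * t - T * r := by
    by_contra hc0
    push Not at hc0
    have : 0 < R * t + T * r := by positivity
    nlinarith
  have hq : 0 ≤ t - r := by linarith
  have h4 : R * (R * t - T * r) ≤ t - r := by
    have h5 : 0 < R * t + T * r := by positivity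
    have h6 : R * (R * t - T * r) * (R * t + T * r) ≤ (t - r) * (R * t + T * r) := by
      have : R * (R * t - T * r) * (R * t + T * r) = (t - r) * (R * t + R * r) := by
        rw [mul_assoc, h2, ← h3]; ring
      rw [this]
      apply mul_le_mul_of_nonneg_left _ hq
      nlinarith
    exact le_of_mul_le_mul_right h6 h5
  have h7 : x * (R * t - T * r) ≤ c * R * (R * t - T * r) := mul_le_mul_of_nonneg_right hx hp
  have h8 : c * (R * (R * t - T * r)) ≤ c * (t - r) := mul_le_mul_of_nonneg_left h4 hc.le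
  nlinarith

theorem lon_gt63 {d : ℝ} (hd : 0 < d) : Real.cosh d < lon63 d := by
  have c0 : 1 < Real.cosh d := Real.one_lt_cosh.2 hd.ne'
  unfold lon63
  rw [lt_div_iff₀ (by linarith)]
  nlinarith

theorem lon_le63 {d : ℝ} (hd : 0 < d) : lon63 d + 1 ≤ 2 * Real.cosh d ^ 2 := by
  have c0 : 1 < Real.cosh d := Real.one_lt_cosh.2 hd.ne'
  have : lon63 d + 1 = 4 * Real.cosh d ^ 2 / (Real.cosh d + 1) := by
    unfold lon63
    field_simp
    ring
  rw [this, div_le_iff₀ (by linarith)]
  have h1 : 0 ≤ Real.cosh d ^ 2 * (Real.cosh d - 1) := mul_nonneg (sq_nonneg _) (by linarith)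
  linarith

/-- `cos (α / 2)` -/
theorem cos_half63 {d : ℝ} (hd : 0 < d) :
    Real.cos (alpha d / 2) ^ 2 = (2 * Real.cosh d + 1) / (2 * (Real.cosh d + 1)) := by
  have c0 : 1 < Real.cosh d := Real.one_lt_cosh.2 hd.ne'
  have hne : Real.cosh d + 1 ≠ 0 := by linarith
  rw [Real.cos_sq, show 2 * (alpha d / 2) = alpha d by ring, cos_alpha hd]
  field_simp
  ring

theorem cos_half_pos63 {d : ℝ} (hd : 0 < d) : 0 < Real.cos (alpha d / 2) := by
  have h1 := alpha_pos hd
  have h2 := alpha_lt hd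
  apply Real.cos_pos_of_mem_Ioo
  constructor <;> linarith [Real.pi_pos]

theorem cos_3half63 {d : ℝ} (hd : 0 < d) :
    Real.cos (3 * alpha d / 2) =
      Real.cos (alpha d / 2) * ((Real.cosh d - 1) / (Real.cosh d + 1)) := by
  have c0 : 1 < Real.cosh d := Real.one_lt_cosh.2 hd.ne'
  have hne : Real.cosh d + 1 ≠ 0 := by linarith
  have h := cos_half63 hd
  rw [show 3 * alpha d / 2 = 3 * (alpha d / 2) by ring, Real.cos_three_mul]
  have e : 4 * Real.cos (alpha d / 2) ^ 3 - 3 * Real.cos (alpha d / 2) =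
      Real.cos (alpha d / 2) * (4 * Real.cos (alpha d / 2) ^ 2 - 3) := by ring
  rw [e, h]
  congr 1
  field_simp
  ring

/-- the value at the rhombus -/
theorem rhomb63 {d m : ℝ} (hd : 0 < d) (hm : 0 < m) (hm2 : m ^ 2 = lon63 d ^ 2 - 1) :
    m * Real.sinh d * Real.cos (alpha d / 2) = Real.cosh d * (lon63 d - 1) := by
  have c0 : 1 < Real.cosh d := Real.one_lt_cosh.2 hd.ne'
  have hne : Real.cosh d + 1 ≠ 0 := by linarith
  have hL := lon_gt63 hd
  have s1 : 0 < Real.sinh d := Real.sinh_pos_iff.2 hd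
  have q2 := Real.cosh_sq d
  have e6 : Real.sinh d ^ 2 = Real.cosh d ^ 2 - 1 := by linarith
  have hu := cos_half_pos63 hd
  have h1 : (m * Real.sinh d * Real.cos (alpha d / 2)) ^ 2 =
      (Real.cosh d * (lon63 d - 1)) ^ 2 := by
    rw [mul_pow, mul_pow, hm2, e6, cos_half63 hd]
    unfold lon63
    field_simp
    ring
  have h2 : 0 ≤ m * Real.sinh d * Real.cos (alpha d / 2) := by positivity
  have h3 : 0 ≤ Real.cosh d * (lon63 d - 1) := mul_nonneg (by linarith) (by linarith)
  exact (pow_left_inj₀ h2 h3 two_ne_zero).1 h1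

theorem rhomb3_63 {d m : ℝ} (hd : 0 < d) (hm : 0 < m) (hm2 : m ^ 2 = lon63 d ^ 2 - 1) :
    m * Real.sinh d * Real.cos (3 * alpha d / 2) =
      Real.cosh d * (lon63 d - Real.cosh d) + Real.sinh d ^ 2 * Real.cos (3 * alpha d) := by
  have c0 : 1 < Real.cosh d := Real.one_lt_cosh.2 hd.ne'
  have hne : Real.cosh d + 1 ≠ 0 := by linarith
  have q2 := Real.cosh_sq d
  have e6 : Real.sinh d ^ 2 = Real.cosh d ^ 2 - 1 := by linarith
  rw [cos_3half63 hd, ← mul_assoc, rhomb63 hd hm hm2, Real.cos_three_mul, cos_alpha hd, e6]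
  unfold lon63
  field_simp
  ring

theorem sq_cb63 {C S x X : ℝ} (c0 : 1 < C) (s1 : 0 < S) (hS2 : S ^ 2 = C ^ 2 - 1) (hX : 0 < X)
    (hX2 : X ^ 2 = x ^ 2 - 1) (hx : C ≤ x) (hxu : x ≤ C ^ 2) :
    ((C * x - C) / (S * X)) ^ 2 ≤ 1 := by
  rw [div_pow, div_le_one (by positivity), mul_pow, hS2, hX2]
  have e : (C ^ 2 - 1) * (x ^ 2 - 1) - (C * x - C) ^ 2 = (x - 1) * (2 * C ^ 2 - x - 1) := by ring
  have : 0 ≤ (x - 1) * (2 * C ^ 2 - x - 1) := mul_nonneg (by linarith) (by nlinarith)
  linarith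

theorem gram63 {C L x : ℝ} (c0 : 1 < C) (hCL : C < L) (hL2 : L + 1 ≤ 2 * C ^ 2) (hx : C ≤ x)
    (hxu : x ≤ C ^ 2) : 0 ≤ 1 - L ^ 2 - x ^ 2 - C ^ 2 + 2 * L * x * C := by
  have e : 1 - L ^ 2 - x ^ 2 - C ^ 2 + 2 * L * x * C =
      (L - 1) * (2 * C ^ 2 - (L + 1)) + (x - C) * (2 * L * C - x - C) := by ring
  rw [e]
  have h1 : 0 ≤ (L - 1) * (2 * C ^ 2 - (L + 1)) := mul_nonneg (by linarith) (by linarith)
  have h2 : C ^ 2 ≤ L * C := by nlinarith
  have h3 : C ≤ C ^ 2 := by nlinarith
  have h4 : 0 ≤ (x - C) * (2 * L * C - x - C) := mul_nonneg (by linarith) (by linarith)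
  linarith

theorem alg63 {C S L m x X : ℝ} (c0 : 1 < C) (s1 : 0 < S) (hS2 : S ^ 2 = C ^ 2 - 1) (hX : 0 < X)
    (hX2 : X ^ 2 = x ^ 2 - 1) (hm : 0 < m) (hm2 : m ^ 2 = L ^ 2 - 1) (hCL : C < L)
    (hL2 : L + 1 ≤ 2 * C ^ 2) (hx : C ≤ x) (hxu : x ≤ C ^ 2) :
    m * S * Real.cos (Real.arccos ((L * x - C) / (m * X)) +
      Real.arccos ((C * x - C) / (S * X))) = C * (L - C) + S ^ 2 * Real.cos
      (Real.arccos ((C * x - L) / (S * X)) + Real.arccos ((C * x - C) / (S * X))) := by
  have hg := gram63 c0 hCL hL2 hx hxu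
  have hb := sq_cb63 c0 s1 hS2 hX hX2 hx hxu
  have hmne : m ≠ 0 := hm.ne'
  have hSne : S ≠ 0 := s1.ne'
  have hXne : X ≠ 0 := hX.ne'
  have hx1 : 1 < x := lt_of_lt_of_le c0 hx
  have e1 : m ^ 2 * (1 - ((L * x - C) / (m * X)) ^ 2) =
      (1 - L ^ 2 - x ^ 2 - C ^ 2 + 2 * L * x * C) / X ^ 2 := by
    have : m ^ 2 * (1 - ((L * x - C) / (m * X)) ^ 2) = (m ^ 2 * X ^ 2 - (L * x - C) ^ 2) / X ^ 2 := by
      field_simp
    rw [this, hm2, hX2]
    congr 1
    ring
  have e2 : S ^ 2 * (1 - ((C * x - L) / (S * X)) ^ 2) =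
      (1 - L ^ 2 - x ^ 2 - C ^ 2 + 2 * L * x * C) / X ^ 2 := by
    have : S ^ 2 * (1 - ((C * x - L) / (S * X)) ^ 2) = (S ^ 2 * X ^ 2 - (C * x - L) ^ 2) / X ^ 2 := by
      field_simp
    rw [this, hS2, hX2]
    congr 1
    ring
  have hq : 0 ≤ (1 - L ^ 2 - x ^ 2 - C ^ 2 + 2 * L * x * C) / X ^ 2 := div_nonneg hg (by positivity)
  have f1 : ((L * x - C) / (m * X)) ^ 2 ≤ 1 := by
    by_contra hc
    push Not at hc
    have : m ^ 2 * (1 - ((L * x - C) / (m * X)) ^ 2) < 0 :=
      mul_neg_of_pos_of_neg (by positivity) (by linarith)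
    linarith
  have a1 : ((C * x - L) / (S * X)) ^ 2 ≤ 1 := by
    by_contra hc
    push Not at hc
    have : S ^ 2 * (1 - ((C * x - L) / (S * X)) ^ 2) < 0 :=
      mul_neg_of_pos_of_neg (by positivity) (by linarith)
    linarith
  have f2 := abs_le.1 ((sq_le_one_iff_abs_le_one _).1 f1)
  have a2 := abs_le.1 ((sq_le_one_iff_abs_le_one _).1 a1)
  have b2 := abs_le.1 ((sq_le_one_iff_abs_le_one _).1 hb)
  have hs : m * Real.sqrt (1 - ((L * x - C) / (m * X)) ^ 2) =
      S * Real.sqrt (1 - ((C * x - L) / (S * X)) ^ 2) := by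
    rw [← Real.sqrt_sq hm.le, ← Real.sqrt_sq s1.le, Real.sqrt_sq hm.le, Real.sqrt_sq s1.le]
    have h1 : m * Real.sqrt (1 - ((L * x - C) / (m * X)) ^ 2) =
        Real.sqrt (m ^ 2 * (1 - ((L * x - C) / (m * X)) ^ 2)) := by
      rw [Real.sqrt_mul (by positivity), Real.sqrt_sq hm.le]
    have h2 : S * Real.sqrt (1 - ((C * x - L) / (S * X)) ^ 2) =
        Real.sqrt (S ^ 2 * (1 - ((C * x - L) / (S * X)) ^ 2)) := by
      rw [Real.sqrt_mul (by positivity), Real.sqrt_sq s1.le]
    rw [h1, h2, e1, e2]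
  rw [Real.cos_add, Real.cos_add, Real.cos_arccos f2.1 f2.2, Real.cos_arccos a2.1 a2.2,
    Real.cos_arccos b2.1 b2.2, Real.sin_arccos, Real.sin_arccos, Real.sin_arccos]
  set sf := Real.sqrt (1 - ((L * x - C) / (m * X)) ^ 2)
  set sa := Real.sqrt (1 - ((C * x - L) / (S * X)) ^ 2)
  set sb := Real.sqrt (1 - ((C * x - C) / (S * X)) ^ 2)
  have g1 : m * S * ((L * x - C) / (m * X) * ((C * x - C) / (S * X))) =
      C * (L - C) + S ^ 2 * ((C * x - L) / (S * X) * ((C * x - C) / (S * X))) := by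
    have k1 : m * S * ((L * x - C) / (m * X) * ((C * x - C) / (S * X))) =
        (L * x - C) * (C * x - C) / X ^ 2 := by
      field_simp
    have k2 : S ^ 2 * ((C * x - L) / (S * X) * ((C * x - C) / (S * X))) =
        (C * x - L) * (C * x - C) / X ^ 2 := by
      field_simp
    rw [k1, k2]
    have k3 : C * (L - C) = C * (L - C) * (x ^ 2 - 1) / X ^ 2 := by
      rw [← hX2]
      field_simp
    rw [k3]
    field_simp
    ring
  have g2 : m * S * (sf * sb) = S ^ 2 * (sa * sb) := by
    have : m * S * (sf * sb) = (m * sf) * S * sb := by ring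
    rw [this, hs]
    ring
  rw [mul_sub, mul_sub, g1, g2]
  ring

/-- two consecutive sides seen from `O`, the critical position -/
theorem crit63 {d x X m : ℝ} (hd : 0 < d) (hx : Real.cosh d ≤ x) (hX : 0 < X)
    (hX2 : X ^ 2 = x ^ 2 - 1) (hm : 0 < m) (hm2 : m ^ 2 = lon63 d ^ 2 - 1)
    (hxu : x ≤ Real.cosh d ^ 2) :
    Real.arccos ((lon63 d * x - Real.cosh d) / (m * X)) +
      Real.arccos ((Real.cosh d * x - Real.cosh d) / (Real.sinh d * X)) ≤ 3 * alpha d / 2 := by
  have c0 : 1 < Real.cosh d := Real.one_lt_cosh.2 hd.ne'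
  have s1 : 0 < Real.sinh d := Real.sinh_pos_iff.2 hd
  have q2 := Real.cosh_sq d
  have hL := lon_gt63 hd
  have hLe := lon_eq63 hd
  have hr3 := rhomb3_63 hd hm hm2
  have hca := cos_alpha hd
  have hap := alpha_pos hd
  have hal := alpha_lt hd
  have h2a : Real.arccos (Real.cos (2 * alpha d)) = 2 * alpha d :=
    Real.arccos_cos (by linarith) (by linarith)
  have h1a : Real.arccos (Real.cos (alpha d)) = alpha d :=
    Real.arccos_cos (by linarith) (by linarith)
  set L := lon63 d with hLdef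
  set C := Real.cosh d with hC
  set S := Real.sinh d with hS
  have hS2 : S ^ 2 = C ^ 2 - 1 := by linarith
  have hSX : 0 < S * X := mul_pos s1 hX
  have hmX : 0 < m * X := mul_pos hm hX
  have hx1 : 1 < x := lt_of_lt_of_le c0 hx
  -- the two angles at `B`
  have ma : (C * C - L) * X ≤ (x * C - L) * S :=
    mono63 (x := C) (c := L) c0 s1 hX (by linarith) (by linarith) hx (by nlinarith) (by linarith)
  have mb : (C * C - C) * X ≤ (x * C - C) * S :=
    mono63 (x := C) (c := C) c0 s1 hX (by linarith) (by linarith) hx (by nlinarith) (by linarith)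
  have ka : Real.cos (2 * alpha d) ≤ (C * x - L) / (S * X) := by
    rw [le_div_iff₀ hSX]
    have e : S ^ 2 * Real.cos (2 * alpha d) = C * C - L := by rw [hLe]; ring
    have h1 : S * (Real.cos (2 * alpha d) * (S * X)) ≤ S * (C * x - L) := by
      have : S * (Real.cos (2 * alpha d) * (S * X)) = (S ^ 2 * Real.cos (2 * alpha d)) * X := by
        ring
      rw [this, e]
      linarith
    exact le_of_mul_le_mul_left h1 s1
  have kb : Real.cos (alpha d) ≤ (C * x - C) / (S * X) := by
    rw [le_div_iff₀ hSX, hca]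
    have e : S ^ 2 * (C / (C + 1)) = C * C - C := by
      rw [hS2]
      field_simp
      ring
    have h1 : S * (C / (C + 1) * (S * X)) ≤ S * (C * x - C) := by
      have : S * (C / (C + 1) * (S * X)) = (S ^ 2 * (C / (C + 1))) * X := by ring
      rw [this, e]
      linarith
    exact le_of_mul_le_mul_left h1 s1
  set ca := (C * x - L) / (S * X) with hcadef
  set cb := (C * x - C) / (S * X) with hcbdef
  set cf := (L * x - C) / (m * X) with hcfdef
  have la : Real.arccos ca ≤ 2 * alpha d := by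
    have := Real.arccos_le_arccos ka
    rwa [h2a] at this
  have lb : Real.arccos cb ≤ alpha d := by
    have := Real.arccos_le_arccos kb
    rwa [h1a] at this
  have hcf0 : 0 ≤ cf := by
    apply div_nonneg _ hmX.le
    have h1 : 1 * x ≤ L * x := mul_le_mul_of_nonneg_right (by linarith) (by linarith)
    linarith
  have hcb0 : 0 ≤ cb := by
    apply div_nonneg _ hSX.le
    have h1 : C * 1 ≤ C * x := mul_le_mul_of_nonneg_left hx1.le (by linarith)
    linarith
  have hL2 : L + 1 ≤ 2 * C ^ 2 := lon_le63 hd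
  have hid := alg63 c0 s1 hS2 hX hX2 hm hm2 hL hL2 hx hxu
  rw [← hcadef, ← hcbdef, ← hcfdef] at hid
  have hmS : 0 < m * S := mul_pos hm s1
  have h3 : Real.cos (3 * alpha d) ≤ Real.cos (Real.arccos ca + Real.arccos cb) := by
    apply Real.cos_le_cos_of_nonneg_of_le_pi
    · exact add_nonneg (Real.arccos_nonneg _) (Real.arccos_nonneg _)
    · linarith
    · linarith
  have h4 : m * S * Real.cos (3 * alpha d / 2) ≤
      m * S * Real.cos (Real.arccos cf + Real.arccos cb) := by
    rw [hid, hr3]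
    have := mul_le_mul_of_nonneg_left h3 (sq_nonneg S)
    linarith
  have h5 : Real.cos (3 * alpha d / 2) ≤ Real.cos (Real.arccos cf + Real.arccos cb) :=
    le_of_mul_le_mul_left h4 hmS
  by_contra hc
  push Not at hc
  have h6 : Real.cos (Real.arccos cf + Real.arccos cb) < Real.cos (3 * alpha d / 2) := by
    apply Real.cos_lt_cos_of_nonneg_of_le_pi _ _ hc
    · linarith
    · have u1 := Real.arccos_le_pi_div_two.2 hcf0
      have u2 := Real.arccos_le_pi_div_two.2 hcb0
      linarith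
  linarith

/-- the side is seen from far -/
theorem far_num63 {d P Q p q t : ℝ} (hd : 0 < d) (hp : 0 < p)
    (hP2 : p ^ 2 = P ^ 2 - 1) (hQ2 : q ^ 2 = Q ^ 2 - 1) (hQ : Real.cosh d ^ 2 ≤ Q)
    (hs : p * q * Real.cos t = P * Q - Real.cosh d) (ht : |t| ≤ alpha d) :
    |t| ≤ 3 * alpha d / 4 := by
  have c0 : 1 < Real.cosh d := Real.one_lt_cosh.2 hd.ne'
  have s1 : 0 < Real.sinh d := Real.sinh_pos_iff.2 hd
  have q2 := Real.cosh_sq d
  have hap := alpha_pos hd
  have hal := alpha_lt hd
  have hu := cos_half_pos63 hd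
  have hu1 := Real.cos_le_one (alpha d / 2)
  have h3h := cos_3half63 hd
  set C := Real.cosh d with hC
  set S := Real.sinh d with hS
  have hS2 : S ^ 2 = C ^ 2 - 1 := by linarith
  have h1 : p ^ 2 * (q ^ 2 * Real.sin t ^ 2) ≤ p ^ 2 * S ^ 2 := by
    have e1 : p ^ 2 * (q ^ 2 * Real.sin t ^ 2) = p ^ 2 * q ^ 2 - (P * Q - C) ^ 2 := by
      rw [← hs, Real.sin_sq]
      ring
    have e2 : p ^ 2 * S ^ 2 - (p ^ 2 * q ^ 2 - (P * Q - C) ^ 2) = (C * P - Q) ^ 2 := by
      rw [hP2, hQ2, hS2]
      ring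
    have := sq_nonneg (C * P - Q)
    linarith
  have h2 : q ^ 2 * Real.sin t ^ 2 ≤ S ^ 2 := le_of_mul_le_mul_left h1 (by positivity)
  have h3 : S ^ 2 * (C ^ 2 + 1) ≤ q ^ 2 := by
    have e3 : S ^ 2 * (C ^ 2 + 1) = (C ^ 2) ^ 2 - 1 := by rw [hS2]; ring
    rw [e3, hQ2]
    have : (C ^ 2) ^ 2 ≤ Q ^ 2 := by
      apply pow_le_pow_left₀ (by positivity) hQ
    linarith
  have h4 : S ^ 2 * ((C ^ 2 + 1) * Real.sin t ^ 2) ≤ S ^ 2 * 1 := by
    have := mul_le_mul_of_nonneg_right h3 (sq_nonneg (Real.sin t))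
    linarith
  have h5 : (C ^ 2 + 1) * Real.sin t ^ 2 ≤ 1 := le_of_mul_le_mul_left h4 (by positivity)
  have h6 : Real.cos (3 * alpha d / 2) ≤ Real.cos (2 * |t|) := by
    rw [show Real.cos (2 * |t|) = Real.cos |2 * t| by rw [abs_mul, abs_two], Real.cos_abs,
      Real.cos_two_mul, h3h]
    have h7 : Real.cos (alpha d / 2) * ((C - 1) / (C + 1)) ≤ (C - 1) / (C + 1) := by
      have h8 : 0 ≤ (C - 1) / (C + 1) := div_nonneg (by linarith) (by linarith)
      nlinarith
    have h9 : (C - 1) / (C + 1) ≤ (C ^ 2 - 1) / (C ^ 2 + 1) := by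
      rw [div_le_div_iff₀ (by linarith) (by positivity)]
      have : 0 ≤ 2 * C * (C - 1) := by nlinarith
      nlinarith
    have h10 : (C ^ 2 - 1) / (C ^ 2 + 1) ≤ 2 * Real.cos t ^ 2 - 1 := by
      rw [div_le_iff₀ (by positivity)]
      have := Real.sin_sq_add_cos_sq t
      have e4 : Real.cos t ^ 2 = 1 - Real.sin t ^ 2 := by linarith
      rw [e4]
      linarith
    linarith
  by_contra hc
  push Not at hc
  have h7 : Real.cos (2 * |t|) < Real.cos (3 * alpha d / 2) := by
    apply Real.cos_lt_cos_of_nonneg_of_le_pi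
    · linarith
    · linarith
    · linarith
  linarith

theorem sq_sinh63 (r : ℝ) : Real.sinh r ^ 2 = Real.cosh r ^ 2 - 1 := by
  have := Real.cosh_sq r
  linarith

/-- two consecutive sides `A B`, `B D` seen from `O`, with `A` far from `O` -/
theorem quarter63 {d : ℝ} (hd : 0 < d) {O A B D : ℍ} (h1 : dist A B = d) (h2 : dist B D = d)
    (hA : lon63 d ≤ Real.cosh (dist O A)) (hB : d ≤ dist O B) (hD : d ≤ dist O D) :
    |ang O A B| + |ang O B D| ≤ 3 * alpha d / 2 := by
  have c0 : 1 < Real.cosh d := Real.one_lt_cosh.2 hd.ne'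
  have s1 : 0 < Real.sinh d := Real.sinh_pos_iff.2 hd
  have hL := lon_gt63 hd
  have hA' : d ≤ dist O A := by
    have h3 : Real.cosh d ≤ Real.cosh (dist O A) := by linarith
    rw [Real.cosh_le_cosh, abs_of_pos hd, abs_of_nonneg dist_nonneg] at h3
    exact h3
  have nA := ne63 hd hA'
  have nB := ne63 hd hB
  have nD := ne63 hd hD
  have v1 := visual66 hd h1 hA' hB
  have v2 := visual66 hd h2 hB hD
  have e1 := cos_seen63 h1 nA nB
  have e2 := cos_seen63 h2 nB nD
  have hr : 0 < Real.sinh (dist O A) := Real.sinh_pos_iff.2 (by linarith)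
  have hX : 0 < Real.sinh (dist O B) := Real.sinh_pos_iff.2 (by linarith)
  have hY : 0 < Real.sinh (dist O D) := Real.sinh_pos_iff.2 (by linarith)
  have r2 := sq_sinh63 (dist O A)
  have X2 := sq_sinh63 (dist O B)
  have Y2 := sq_sinh63 (dist O D)
  have S2 := sq_sinh63 d
  have cB : Real.cosh d ≤ Real.cosh (dist O B) := by
    rw [Real.cosh_le_cosh, abs_of_pos hd, abs_of_nonneg dist_nonneg]
    exact hB
  have cD : Real.cosh d ≤ Real.cosh (dist O D) := by
    rw [Real.cosh_le_cosh, abs_of_pos hd, abs_of_nonneg dist_nonneg]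
    exact hD
  rcases le_or_gt (Real.cosh d ^ 2) (Real.cosh (dist O B)) with hbig | hsm
  · have k1 := far_num63 hd hr r2 X2 hbig e1 v1
    have k2 := far_num63 hd hY Y2 X2 hbig (t := ang O B D) (by linarith) v2
    linarith
  · have hal := alpha_lt hd
    have hpi := Real.pi_pos
    set m := Real.sqrt (lon63 d ^ 2 - 1) with hmdef
    have hm0 : 0 < lon63 d ^ 2 - 1 := by nlinarith
    have hm : 0 < m := Real.sqrt_pos.2 hm0
    have hm2 : m ^ 2 = lon63 d ^ 2 - 1 := Real.sq_sqrt hm0.le
    have hc := crit63 hd cB hX X2 hm hm2 hsm.le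
    have hLC : Real.cosh (dist O B) ≤ Real.cosh d * lon63 d := by nlinarith
    have m1 := mono63 (x := Real.cosh (dist O B)) (c := Real.cosh d) (R := lon63 d)
      (T := Real.cosh (dist O A)) (r := m) (t := Real.sinh (dist O A)) (by linarith) hm hr
      (by linarith) (by linarith) hA hLC (by linarith)
    have m2 := mono63 (x := Real.cosh (dist O B)) (c := Real.cosh d) (R := Real.cosh d)
      (T := Real.cosh (dist O D)) (r := Real.sinh d) (t := Real.sinh (dist O D)) c0 s1 hY
      (by linarith) (by linarith) cD (by nlinarith) (by linarith)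
    have k1 : (lon63 d * Real.cosh (dist O B) - Real.cosh d) / (m * Real.sinh (dist O B)) ≤
        Real.cos (ang O A B) := by
      rw [div_le_iff₀ (mul_pos hm hX)]
      have h3 : Real.sinh (dist O A) *
          (lon63 d * Real.cosh (dist O B) - Real.cosh d) ≤ Real.sinh (dist O A) *
          (Real.cos (ang O A B) * (m * Real.sinh (dist O B))) := by
        have : Real.sinh (dist O A) * (Real.cos (ang O A B) * (m * Real.sinh (dist O B))) =
          (Real.sinh (dist O A) * Real.sinh (dist O B) * Real.cos (ang O A B)) * m := by ring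
        rw [this, e1]
        linarith
      exact le_of_mul_le_mul_left h3 hr
    have k2 : (Real.cosh d * Real.cosh (dist O B) - Real.cosh d) /
        (Real.sinh d * Real.sinh (dist O B)) ≤ Real.cos (ang O B D) := by
      rw [div_le_iff₀ (mul_pos s1 hX)]
      have h3 : Real.sinh (dist O D) *
          (Real.cosh d * Real.cosh (dist O B) - Real.cosh d) ≤ Real.sinh (dist O D) *
          (Real.cos (ang O B D) * (Real.sinh d * Real.sinh (dist O B))) := by
        have : Real.sinh (dist O D) * (Real.cos (ang O B D) * (Real.sinh d *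
          Real.sinh (dist O B))) =
          (Real.sinh (dist O B) * Real.sinh (dist O D) * Real.cos (ang O B D)) *
            Real.sinh d := by ring
        rw [this, e2]
        linarith
      exact le_of_mul_le_mul_left h3 hY
    have a1 : |ang O A B| = Real.arccos (Real.cos (ang O A B)) := by
      rw [← Real.cos_abs, Real.arccos_cos (abs_nonneg _) (by linarith)]
    have a2 : |ang O B D| = Real.arccos (Real.cos (ang O B D)) := by
      rw [← Real.cos_abs, Real.arccos_cos (abs_nonneg _) (by linarith)]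
    rw [a1, a2]
    have b1 := Real.arccos_le_arccos k1
    have b2 := Real.arccos_le_arccos k2
    linarith

/-- the diagonal at a corner at least `2 α` -/
theorem diag63 {d : ℝ} (hd : 0 < d) {O V W : ℍ} (h1 : dist O V = d) (h2 : dist V W = d)
    (hc : Real.cos (ang V W O) ≤ Real.cos (2 * alpha d)) :
    lon63 d ≤ Real.cosh (dist O W) := by
  have nO : O ≠ V := ne63 hd (by rw [dist_comm]; exact h1.ge)
  have nW : W ≠ V := ne63 hd h2.ge
  have hl := cosh_law nW nO
  rw [dist_comm V O, h1, h2, dist_comm W O] at hl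
  rw [hl, lon_eq63 hd]
  have s1 : 0 < Real.sinh d := Real.sinh_pos_iff.2 hd
  have := mul_le_mul_of_nonneg_left hc (sq_nonneg (Real.sinh d))
  nlinarith

/-- the first side is seen under at most `α / 2` -/
theorem first63 {d : ℝ} (hd : 0 < d) {O V W : ℍ} (h1 : dist O V = d) (h2 : dist V W = d)
    (hR : lon63 d ≤ Real.cosh (dist O W)) : |ang O V W| ≤ alpha d / 2 := by
  have c0 : 1 < Real.cosh d := Real.one_lt_cosh.2 hd.ne'
  have s1 : 0 < Real.sinh d := Real.sinh_pos_iff.2 hd
  have hL := lon_gt63 hd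
  have hA' : d ≤ dist O W := by
    have h3 : Real.cosh d ≤ Real.cosh (dist O W) := by linarith
    rw [Real.cosh_le_cosh, abs_of_pos hd, abs_of_nonneg dist_nonneg] at h3
    exact h3
  have nV := ne63 hd h1.ge
  have nW := ne63 hd hA'
  have v1 := visual66 hd h2 h1.ge hA'
  have hal := alpha_lt hd
  have hap := alpha_pos hd
  have hpi := Real.pi_pos
  have e1 := cos_seen63 h2 nV nW
  rw [h1] at e1
  have hr : 0 < Real.sinh (dist O W) := Real.sinh_pos_iff.2 (by linarith)
  have r2 := sq_sinh63 (dist O W)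
  have S2 := sq_sinh63 d
  have hu := cos_half_pos63 hd
  have hu2 := cos_half63 hd
  have hkey : Real.sinh d * Real.sinh (dist O W) * Real.cos (alpha d / 2) ≤
      Real.cosh d * (Real.cosh (dist O W) - 1) := by
    have hLe : (Real.cosh d + 1) * lon63 d = 4 * Real.cosh d ^ 2 - Real.cosh d - 1 := by
      unfold lon63
      field_simp
    have hRL : 4 * Real.cosh d ^ 2 - Real.cosh d - 1 ≤
        (Real.cosh d + 1) * Real.cosh (dist O W) := by
      rw [← hLe]
      exact mul_le_mul_of_nonneg_left hR (by linarith)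
    generalize Real.cosh (dist O W) = R at *
    generalize Real.sinh (dist O W) = r at *
    generalize Real.cos (alpha d / 2) = u at *
    generalize Real.cosh d = C at *
    generalize Real.sinh d = S at *
    have h4 : (S * r * u) ^ 2 ≤ (C * (R - 1)) ^ 2 := by
      have e2 : (S * r * u) ^ 2 = (C - 1) * (2 * C + 1) / 2 * ((R - 1) * (R + 1)) := by
        rw [mul_pow, mul_pow, S2, r2, hu2]
        field_simp
        ring
      have e3 : (C * (R - 1)) ^ 2 - (C - 1) * (2 * C + 1) / 2 * ((R - 1) * (R + 1)) =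
          (R - 1) * (((C + 1) * R - (4 * C ^ 2 - C - 1)) / 2) := by ring
      have : 0 ≤ (R - 1) * (((C + 1) * R - (4 * C ^ 2 - C - 1)) / 2) :=
        mul_nonneg (by linarith) (by linarith)
      linarith
    have h5 : 0 ≤ C * (R - 1) := mul_nonneg (by linarith) (by linarith)
    exact (abs_le_of_sq_le_sq' h4 h5).2
  have h6 : Real.cos (alpha d / 2) ≤ Real.cos |ang O V W| := by
    rw [Real.cos_abs]
    have h7 : Real.sinh d * Real.sinh (dist O W) * Real.cos (alpha d / 2) ≤
        Real.sinh d * Real.sinh (dist O W) * Real.cos (ang O V W) := by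
      rw [e1]
      linarith
    exact le_of_mul_le_mul_left h7 (mul_pos s1 hr)
  by_contra hc
  push Not at hc
  have h8 : Real.cos |ang O V W| < Real.cos (alpha d / 2) := by
    apply Real.cos_lt_cos_of_nonneg_of_le_pi
    · linarith
    · linarith
    · linarith
  linarith

/-- **What a corner of a hexagon sees**: if the corner `v1` is at least `2 α`, the four sides
not at `v0` are seen from `v0` under an angle at most `3 α`. -/
theorem seen63 {d : ℝ} (hd : 0 < d) {v0 v1 v2 v3 v4 v5 : ℍ} (h01 : dist v0 v1 = d)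
    (h12 : dist v1 v2 = d) (h23 : dist v2 v3 = d) (h34 : dist v3 v4 = d) (h45 : dist v4 v5 = d)
    (h05 : dist v0 v5 = d) (h03 : d ≤ dist v0 v3) (h04 : d ≤ dist v0 v4)
    (hc : Real.cos (ang v1 v2 v0) ≤ Real.cos (2 * alpha d)) :
    |ang v0 v1 v2| + |ang v0 v2 v3| + |ang v0 v3 v4| + |ang v0 v4 v5| ≤ 3 * alpha d := by
  have h1 := diag63 hd h01 h12 hc
  have h2 := first63 hd h01 h12 h1
  have h3 := quarter63 hd h23 h34 h1 h03 h04
  have h4 := visual66 hd h45 h04 h05.ge
  linarith

end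

end Pool.Agent.PEN
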