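import Pool.Agent.E5.Ho19

/-! # PENNY, all small diameters: two opposite sides of a hexagon face

If two adjacent corners (both at most `3 α`) have sum at least `5 α`, the two opposite corners have
sum at least `4.8 α`. -/

set_option autoImplicit false

namespace Pool.Agent.PEN.E5

open Classical UpperHalfPlane
open Pool.Agent.PEN.Cl

noncomputable section

theorem k0_q19 : Cb14 (1029 / 250) (-56165863 / 100000000) (-56165671 / 100000000) := by
  have h0 : Cb14 (1029 / 2000) (696431 / 800000) (87053889 / 100000000) := tay14 (by norm_num) (by norm_num) (by norm_num) (by norm_num)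
  have h1 : Cb14 (1029 / 1000) (51567543 / 100000000) (6445949 / 12500000) := dp14 h0 (by norm_num) (by norm_num) (by norm_num) (by norm_num)
  have h2 : Cb14 (1029 / 500) (-46815771 / 100000000) (-46815669 / 100000000) := dp14 h1 (by norm_num) (by norm_num) (by norm_num) (by norm_num)
  have h3 : Cb14 (1029 / 250) (-56165863 / 100000000) (-56165671 / 100000000) := dn14 h2 (by norm_num) (by norm_num) (by norm_num) (by norm_num)
  exact h3

theorem k1_q19 : Cb14 (1029 / 500) (-46815771 / 100000000) (-46815669 / 100000000) := by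
  have h0 : Cb14 (1029 / 2000) (696431 / 800000) (87053889 / 100000000) := tay14 (by norm_num) (by norm_num) (by norm_num) (by norm_num)
  have h1 : Cb14 (1029 / 1000) (51567543 / 100000000) (6445949 / 12500000) := dp14 h0 (by norm_num) (by norm_num) (by norm_num) (by norm_num)
  have h2 : Cb14 (1029 / 500) (-46815771 / 100000000) (-46815669 / 100000000) := dp14 h1 (by norm_num) (by norm_num) (by norm_num) (by norm_num)
  exact h2

theorem k2_q19 : Cb14 (3087 / 1000) (-99851021 / 100000000) (-49925509 / 50000000) := by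
  have h0 : Cb14 (3087 / 8000) (18529389 / 20000000) (92646947 / 100000000) := tay14 (by norm_num) (by norm_num) (by norm_num) (by norm_num)
  have h1 : Cb14 (3087 / 4000) (8958641 / 12500000) (4479321 / 6250000) := dp14 h0 (by norm_num) (by norm_num) (by norm_num) (by norm_num)
  have h2 : Cb14 (3087 / 2000) (1364639 / 50000000) (1364651 / 50000000) := dp14 h1 (by norm_num) (by norm_num) (by norm_num) (by norm_num)
  have h3 : Cb14 (3087 / 1000) (-99851021 / 100000000) (-49925509 / 50000000) := dp14 h2 (by norm_num) (by norm_num) (by norm_num) (by norm_num)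
  exact h3

theorem k3_q19 : Cb14 (1029 / 1000) (51567543 / 100000000) (6445949 / 12500000) := by
  have h0 : Cb14 (1029 / 2000) (696431 / 800000) (87053889 / 100000000) := tay14 (by norm_num) (by norm_num) (by norm_num) (by norm_num)
  have h1 : Cb14 (1029 / 1000) (51567543 / 100000000) (6445949 / 12500000) := dp14 h0 (by norm_num) (by norm_num) (by norm_num) (by norm_num)
  exact h1

theorem k4_q19 : Cb14 0 1 1 := by
  have h0 : Cb14 0 1 1 := tay14 (by norm_num) (by norm_num) (by norm_num) (by norm_num)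
  exact h0

theorem k5_q19 : Cb14 (1029 / 200) (41924253 / 100000000) (41924321 / 100000000) := by
  have h0 : Cb14 (1029 / 3200) (47437137 / 50000000) (3794971 / 4000000) := tay14 (by norm_num) (by norm_num) (by norm_num) (by norm_num)
  have h1 : Cb14 (1029 / 1600) (80022557 / 100000000) (40011281 / 50000000) := dp14 h0 (by norm_num) (by norm_num) (by norm_num) (by norm_num)
  have h2 : Cb14 (1029 / 800) (109657 / 390625) (28072209 / 100000000) := dp14 h1 (by norm_num) (by norm_num) (by norm_num) (by norm_num)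
  have h3 : Cb14 (1029 / 400) (-84239041 / 100000000) (-84239021 / 100000000) := dp14 h2 (by norm_num) (by norm_num) (by norm_num) (by norm_num)
  have h4 : Cb14 (1029 / 200) (41924253 / 100000000) (41924321 / 100000000) := dn14 h3 (by norm_num) (by norm_num) (by norm_num) (by norm_num)
  exact h4

theorem opa_19 : (-862139 / 500000) ≤ HH19 3 2 0 (1029 / 1000) ∧
    HH19 3 2 0 (1029 / 1000) ≤ (-1724273 / 1000000) := by
  have u0 := k0_q19
  unfold Cb14 at u0
  have u1 := k1_q19
  unfold Cb14 at u1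
  have u2 := k2_q19
  unfold Cb14 at u2
  have u3 := k3_q19
  unfold Cb14 at u3
  have u4 := k4_q19
  unfold Cb14 at u4
  have u5 := k5_q19
  unfold Cb14 at u5
  have e0 : Real.cos ((3 + 1) * (1029 / 1000) : ℝ) = Real.cos (1029 / 250) := by rw [show ((3 + 1) * (1029 / 1000) : ℝ) = (1029 / 250) by norm_num]
  have e1 : Real.cos ((3 - 1) * (1029 / 1000) : ℝ) = Real.cos (1029 / 500) := by rw [show ((3 - 1) * (1029 / 1000) : ℝ) = (1029 / 500) by norm_num]
  have e2 : Real.cos ((2 + 1) * (1029 / 1000) : ℝ) = Real.cos (3087 / 1000) := by rw [show ((2 + 1) * (1029 / 1000) : ℝ) = (3087 / 1000) by norm_num]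
  have e3 : Real.cos ((2 - 1) * (1029 / 1000) : ℝ) = Real.cos (1029 / 1000) := by rw [show ((2 - 1) * (1029 / 1000) : ℝ) = (1029 / 1000) by norm_num]
  have e4 : Real.cos (2 * (1029 / 1000) : ℝ) = Real.cos (1029 / 500) := by rw [show (2 * (1029 / 1000) : ℝ) = (1029 / 500) by norm_num]
  have e5 : Real.cos ((3 - 2 + 1) * (1029 / 1000) : ℝ) = Real.cos (1029 / 500) := by rw [show ((3 - 2 + 1) * (1029 / 1000) : ℝ) = (1029 / 500) by norm_num]
  have e6 : Real.cos ((3 - 2 - 1) * (1029 / 1000) : ℝ) = Real.cos 0 := by rw [show ((3 - 2 - 1) * (1029 / 1000) : ℝ) = 0 by norm_num]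
  have e7 : Real.cos ((3 - 2) * (1029 / 1000) : ℝ) = Real.cos (1029 / 1000) := by rw [show ((3 - 2) * (1029 / 1000) : ℝ) = (1029 / 1000) by norm_num]
  have e8 : Real.cos ((3 + 2) * (1029 / 1000) : ℝ) = Real.cos (1029 / 200) := by rw [show ((3 + 2) * (1029 / 1000) : ℝ) = (1029 / 200) by norm_num]
  have e9 : Real.cos (0 * (1029 / 1000) : ℝ) = Real.cos 0 := by rw [show (0 * (1029 / 1000) : ℝ) = 0 by norm_num]
  have e10 : Real.cos ((0 + 1) * (1029 / 1000) : ℝ) = Real.cos (1029 / 1000) := by rw [show ((0 + 1) * (1029 / 1000) : ℝ) = (1029 / 1000) by norm_num]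
  have e11 : Real.cos ((0 - 1) * (1029 / 1000) : ℝ) = Real.cos (1029 / 1000) := by rw [show ((0 - 1) * (1029 / 1000) : ℝ) = -(1029 / 1000) by norm_num, Real.cos_neg]
  unfold HH19
  simp only [e0, e1, e2, e3, e4, e5, e6, e7, e8, e9, e10, e11]
  constructor <;> linarith

theorem k6_q19 : Cb14 (2618 / 625) (-24999583 / 50000000) (-49998951 / 100000000) := by
  have h0 : Cb14 (1309 / 2500) (17320493 / 20000000) (1082531 / 1250000) := tay14 (by norm_num) (by norm_num) (by norm_num) (by norm_num)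
  have h1 : Cb14 (1309 / 1250) (24999869 / 50000000) (49999791 / 100000000) := dp14 h0 (by norm_num) (by norm_num) (by norm_num) (by norm_num)
  have h2 : Cb14 (1309 / 625) (-12500131 / 25000000) (-50000417 / 100000000) := dp14 h1 (by norm_num) (by norm_num) (by norm_num) (by norm_num)
  have h3 : Cb14 (2618 / 625) (-24999583 / 50000000) (-49998951 / 100000000) := dn14 h2 (by norm_num) (by norm_num) (by norm_num) (by norm_num)
  exact h3

theorem k7_q19 : Cb14 (1309 / 625) (-12500131 / 25000000) (-50000417 / 100000000) := by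
  have h0 : Cb14 (1309 / 2500) (17320493 / 20000000) (1082531 / 1250000) := tay14 (by norm_num) (by norm_num) (by norm_num) (by norm_num)
  have h1 : Cb14 (1309 / 1250) (24999869 / 50000000) (49999791 / 100000000) := dp14 h0 (by norm_num) (by norm_num) (by norm_num) (by norm_num)
  have h2 : Cb14 (1309 / 625) (-12500131 / 25000000) (-50000417 / 100000000) := dp14 h1 (by norm_num) (by norm_num) (by norm_num) (by norm_num)
  exact h2

theorem k8_q19 : Cb14 (3927 / 1250) (-1) (-99999999 / 100000000) := by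
  have h0 : Cb14 (3927 / 10000) (23096979 / 25000000) (92387919 / 100000000) := tay14 (by norm_num) (by norm_num) (by norm_num) (by norm_num)
  have h1 : Cb14 (3927 / 5000) (3535527 / 5000000) (8838819 / 12500000) := dp14 h0 (by norm_num) (by norm_num) (by norm_num) (by norm_num)
  have h2 : Cb14 (3927 / 2500) (-391 / 100000000) (-89 / 25000000) := dp14 h1 (by norm_num) (by norm_num) (by norm_num) (by norm_num)
  have h3 : Cb14 (3927 / 1250) (-1) (-99999999 / 100000000) := dn14 h2 (by norm_num) (by norm_num) (by norm_num) (by norm_num)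
  exact h3

theorem k9_q19 : Cb14 (1309 / 1250) (24999869 / 50000000) (49999791 / 100000000) := by
  have h0 : Cb14 (1309 / 2500) (17320493 / 20000000) (1082531 / 1250000) := tay14 (by norm_num) (by norm_num) (by norm_num) (by norm_num)
  have h1 : Cb14 (1309 / 1250) (24999869 / 50000000) (49999791 / 100000000) := dp14 h0 (by norm_num) (by norm_num) (by norm_num) (by norm_num)
  exact h1

theorem k10_q19 : Cb14 (1309 / 250) (2500051 / 5000000) (50001087 / 100000000) := by
  have h0 : Cb14 (1309 / 4000) (23673247 / 25000000) (94692989 / 100000000) := tay14 (by norm_num) (by norm_num) (by norm_num) (by norm_num)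
  have h1 : Cb14 (1309 / 2000) (79335239 / 100000000) (19833811 / 25000000) := dp14 h0 (by norm_num) (by norm_num) (by norm_num) (by norm_num)
  have h2 : Cb14 (1309 / 1000) (12940801 / 50000000) (25881619 / 100000000) := dp14 h1 (by norm_num) (by norm_num) (by norm_num) (by norm_num)
  have h3 : Cb14 (1309 / 500) (-43301427 / 50000000) (-17320567 / 20000000) := dp14 h2 (by norm_num) (by norm_num) (by norm_num) (by norm_num)
  have h4 : Cb14 (1309 / 250) (2500051 / 5000000) (50001087 / 100000000) := dn14 h3 (by norm_num) (by norm_num) (by norm_num) (by norm_num)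
  exact h4

theorem opb_19 : (-350001 / 200000) ≤ HH19 3 2 0 (1309 / 1250) ∧
    HH19 3 2 0 (1309 / 1250) ≤ (-7 / 4) := by
  have u0 := k6_q19
  unfold Cb14 at u0
  have u1 := k7_q19
  unfold Cb14 at u1
  have u2 := k8_q19
  unfold Cb14 at u2
  have u3 := k9_q19
  unfold Cb14 at u3
  have u4 := k4_q19
  unfold Cb14 at u4
  have u5 := k10_q19
  unfold Cb14 at u5
  have e0 : Real.cos ((3 + 1) * (1309 / 1250) : ℝ) = Real.cos (2618 / 625) := by rw [show ((3 + 1) * (1309 / 1250) : ℝ) = (2618 / 625) by norm_num]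
  have e1 : Real.cos ((3 - 1) * (1309 / 1250) : ℝ) = Real.cos (1309 / 625) := by rw [show ((3 - 1) * (1309 / 1250) : ℝ) = (1309 / 625) by norm_num]
  have e2 : Real.cos ((2 + 1) * (1309 / 1250) : ℝ) = Real.cos (3927 / 1250) := by rw [show ((2 + 1) * (1309 / 1250) : ℝ) = (3927 / 1250) by norm_num]
  have e3 : Real.cos ((2 - 1) * (1309 / 1250) : ℝ) = Real.cos (1309 / 1250) := by rw [show ((2 - 1) * (1309 / 1250) : ℝ) = (1309 / 1250) by norm_num]
  have e4 : Real.cos (2 * (1309 / 1250) : ℝ) = Real.cos (1309 / 625) := by rw [show (2 * (1309 / 1250) : ℝ) = (1309 / 625) by norm_num]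
  have e5 : Real.cos ((3 - 2 + 1) * (1309 / 1250) : ℝ) = Real.cos (1309 / 625) := by rw [show ((3 - 2 + 1) * (1309 / 1250) : ℝ) = (1309 / 625) by norm_num]
  have e6 : Real.cos ((3 - 2 - 1) * (1309 / 1250) : ℝ) = Real.cos 0 := by rw [show ((3 - 2 - 1) * (1309 / 1250) : ℝ) = 0 by norm_num]
  have e7 : Real.cos ((3 - 2) * (1309 / 1250) : ℝ) = Real.cos (1309 / 1250) := by rw [show ((3 - 2) * (1309 / 1250) : ℝ) = (1309 / 1250) by norm_num]
  have e8 : Real.cos ((3 + 2) * (1309 / 1250) : ℝ) = Real.cos (1309 / 250) := by rw [show ((3 + 2) * (1309 / 1250) : ℝ) = (1309 / 250) by norm_num]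
  have e9 : Real.cos (0 * (1309 / 1250) : ℝ) = Real.cos 0 := by rw [show (0 * (1309 / 1250) : ℝ) = 0 by norm_num]
  have e10 : Real.cos ((0 + 1) * (1309 / 1250) : ℝ) = Real.cos (1309 / 1250) := by rw [show ((0 + 1) * (1309 / 1250) : ℝ) = (1309 / 1250) by norm_num]
  have e11 : Real.cos ((0 - 1) * (1309 / 1250) : ℝ) = Real.cos (1309 / 1250) := by rw [show ((0 - 1) * (1309 / 1250) : ℝ) = -(1309 / 1250) by norm_num, Real.cos_neg]
  unfold HH19
  simp only [e0, e1, e2, e3, e4, e5, e6, e7, e8, e9, e10, e11]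
  constructor <;> linarith

theorem k11_q19 : Cb14 (17493 / 5000) (-93694693 / 100000000) (-1463979 / 1562500) := by
  have h0 : Cb14 (17493 / 40000) (90588777 / 100000000) (45294391 / 50000000) := tay14 (by norm_num) (by norm_num) (by norm_num) (by norm_num)
  have h1 : Cb14 (17493 / 20000) (6412653 / 10000000) (64126549 / 100000000) := dp14 h0 (by norm_num) (by norm_num) (by norm_num) (by norm_num)
  have h2 : Cb14 (17493 / 10000) (-4438941 / 25000000) (-8877857 / 50000000) := dp14 h1 (by norm_num) (by norm_num) (by norm_num) (by norm_num)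
  have h3 : Cb14 (17493 / 5000) (-93694693 / 100000000) (-1463979 / 1562500) := dn14 h2 (by norm_num) (by norm_num) (by norm_num) (by norm_num)
  exact h3

theorem k12_q19 : Cb14 (7203 / 5000) (6491433 / 50000000) (12982891 / 100000000) := by
  have h0 : Cb14 (7203 / 20000) (23396099 / 25000000) (46792199 / 50000000) := tay14 (by norm_num) (by norm_num) (by norm_num) (by norm_num)
  have h1 : Cb14 (7203 / 10000) (75160783 / 100000000) (75160791 / 100000000) := dp14 h0 (by norm_num) (by norm_num) (by norm_num) (by norm_num)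
  have h2 : Cb14 (7203 / 5000) (6491433 / 50000000) (12982891 / 100000000) := dp14 h1 (by norm_num) (by norm_num) (by norm_num) (by norm_num)
  exact h2

theorem k13_q19 : Cb14 (3087 / 625) (22487083 / 100000000) (22487203 / 100000000) := by
  have h0 : Cb14 (3087 / 10000) (95272933 / 100000000) (19054587 / 20000000) := tay14 (by norm_num) (by norm_num) (by norm_num) (by norm_num)
  have h1 : Cb14 (3087 / 5000) (16307727 / 20000000) (81538643 / 100000000) := dp14 h0 (by norm_num) (by norm_num) (by norm_num) (by norm_num)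
  have h2 : Cb14 (3087 / 2500) (32970979 / 100000000) (32971007 / 100000000) := dp14 h1 (by norm_num) (by norm_num) (by norm_num) (by norm_num)
  have h3 : Cb14 (3087 / 1250) (-78258291 / 100000000) (-78258253 / 100000000) := dp14 h2 (by norm_num) (by norm_num) (by norm_num) (by norm_num)
  have h4 : Cb14 (3087 / 625) (22487083 / 100000000) (22487203 / 100000000) := dn14 h3 (by norm_num) (by norm_num) (by norm_num) (by norm_num)
  exact h4

theorem opc_19 : (-1685477 / 1000000) ≤ HH19 (12 / 5) (12 / 5) 0 (1029 / 1000) ∧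
    HH19 (12 / 5) (12 / 5) 0 (1029 / 1000) ≤ (-1685473 / 1000000) := by
  have u0 := k11_q19
  unfold Cb14 at u0
  have u1 := k12_q19
  unfold Cb14 at u1
  have u2 := k1_q19
  unfold Cb14 at u2
  have u3 := k3_q19
  unfold Cb14 at u3
  have u4 := k4_q19
  unfold Cb14 at u4
  have u5 := k13_q19
  unfold Cb14 at u5
  have e0 : Real.cos (((12 / 5) + 1) * (1029 / 1000) : ℝ) = Real.cos (17493 / 5000) := by rw [show (((12 / 5) + 1) * (1029 / 1000) : ℝ) = (17493 / 5000) by norm_num]
  have e1 : Real.cos (((12 / 5) - 1) * (1029 / 1000) : ℝ) = Real.cos (7203 / 5000) := by rw [show (((12 / 5) - 1) * (1029 / 1000) : ℝ) = (7203 / 5000) by norm_num]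
  have e2 : Real.cos (((12 / 5) + 1) * (1029 / 1000) : ℝ) = Real.cos (17493 / 5000) := by rw [show (((12 / 5) + 1) * (1029 / 1000) : ℝ) = (17493 / 5000) by norm_num]
  have e3 : Real.cos (((12 / 5) - 1) * (1029 / 1000) : ℝ) = Real.cos (7203 / 5000) := by rw [show (((12 / 5) - 1) * (1029 / 1000) : ℝ) = (7203 / 5000) by norm_num]
  have e4 : Real.cos (2 * (1029 / 1000) : ℝ) = Real.cos (1029 / 500) := by rw [show (2 * (1029 / 1000) : ℝ) = (1029 / 500) by norm_num]
  have e5 : Real.cos (((12 / 5) - (12 / 5) + 1) * (1029 / 1000) : ℝ) = Real.cos (1029 / 1000) := by rw [show (((12 / 5) - (12 / 5) + 1) * (1029 / 1000) : ℝ) = (1029 / 1000) by norm_num]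
  have e6 : Real.cos (((12 / 5) - (12 / 5) - 1) * (1029 / 1000) : ℝ) = Real.cos (1029 / 1000) := by rw [show (((12 / 5) - (12 / 5) - 1) * (1029 / 1000) : ℝ) = -(1029 / 1000) by norm_num, Real.cos_neg]
  have e7 : Real.cos (((12 / 5) - (12 / 5)) * (1029 / 1000) : ℝ) = Real.cos 0 := by rw [show (((12 / 5) - (12 / 5)) * (1029 / 1000) : ℝ) = 0 by norm_num]
  have e8 : Real.cos (((12 / 5) + (12 / 5)) * (1029 / 1000) : ℝ) = Real.cos (3087 / 625) := by rw [show (((12 / 5) + (12 / 5)) * (1029 / 1000) : ℝ) = (3087 / 625) by norm_num]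
  have e9 : Real.cos (0 * (1029 / 1000) : ℝ) = Real.cos 0 := by rw [show (0 * (1029 / 1000) : ℝ) = 0 by norm_num]
  have e10 : Real.cos ((0 + 1) * (1029 / 1000) : ℝ) = Real.cos (1029 / 1000) := by rw [show ((0 + 1) * (1029 / 1000) : ℝ) = (1029 / 1000) by norm_num]
  have e11 : Real.cos ((0 - 1) * (1029 / 1000) : ℝ) = Real.cos (1029 / 1000) := by rw [show ((0 - 1) * (1029 / 1000) : ℝ) = -(1029 / 1000) by norm_num, Real.cos_neg]
  unfold HH19
  simp only [e0, e1, e2, e3, e4, e5, e6, e7, e8, e9, e10, e11]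
  constructor <;> linarith

theorem k14_q19 : Cb14 (22253 / 6250) (-91354211 / 100000000) (-9135417 / 10000000) := by
  have h0 : Cb14 (22253 / 50000) (90258479 / 100000000) (22564621 / 25000000) := tay14 (by norm_num) (by norm_num) (by norm_num) (by norm_num)
  have h1 : Cb14 (22253 / 25000) (3146593 / 5000000) (62931879 / 100000000) := dp14 h0 (by norm_num) (by norm_num) (by norm_num) (by norm_num)
  have h2 : Cb14 (22253 / 12500) (-1039581 / 5000000) (-5197893 / 25000000) := dp14 h1 (by norm_num) (by norm_num) (by norm_num) (by norm_num)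
  have h3 : Cb14 (22253 / 6250) (-91354211 / 100000000) (-9135417 / 10000000) := dn14 h2 (by norm_num) (by norm_num) (by norm_num) (by norm_num)
  exact h3

theorem k15_q19 : Cb14 (9163 / 6250) (10452493 / 100000000) (10452509 / 100000000) := by
  have h0 : Cb14 (9163 / 25000) (93358011 / 100000000) (23339503 / 25000000) := tay14 (by norm_num) (by norm_num) (by norm_num) (by norm_num)
  have h1 : Cb14 (9163 / 12500) (18578591 / 25000000) (74314369 / 100000000) := dp14 h0 (by norm_num) (by norm_num) (by norm_num) (by norm_num)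
  have h2 : Cb14 (9163 / 6250) (10452493 / 100000000) (10452509 / 100000000) := dp14 h1 (by norm_num) (by norm_num) (by norm_num) (by norm_num)
  exact h2

theorem k16_q19 : Cb14 (15708 / 3125) (7725701 / 25000000) (7725719 / 25000000) := by
  have h0 : Cb14 (3927 / 12500) (23776407 / 25000000) (95105629 / 100000000) := tay14 (by norm_num) (by norm_num) (by norm_num) (by norm_num)
  have h1 : Cb14 (3927 / 6250) (80901609 / 100000000) (40450807 / 50000000) := dp14 h0 (by norm_num) (by norm_num) (by norm_num) (by norm_num)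
  have h2 : Cb14 (3927 / 3125) (15450703 / 50000000) (30901423 / 100000000) := dp14 h1 (by norm_num) (by norm_num) (by norm_num) (by norm_num)
  have h3 : Cb14 (7854 / 3125) (-80902063 / 100000000) (-80902041 / 100000000) := dp14 h2 (by norm_num) (by norm_num) (by norm_num) (by norm_num)
  have h4 : Cb14 (15708 / 3125) (7725701 / 25000000) (7725719 / 25000000) := dn14 h3 (by norm_num) (by norm_num) (by norm_num) (by norm_num)
  exact h4

theorem opd_19 : (-1713531 / 1000000) ≤ HH19 (12 / 5) (12 / 5) 0 (1309 / 1250) ∧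
    HH19 (12 / 5) (12 / 5) 0 (1309 / 1250) ≤ (-1713527 / 1000000) := by
  have u0 := k14_q19
  unfold Cb14 at u0
  have u1 := k15_q19
  unfold Cb14 at u1
  have u2 := k7_q19
  unfold Cb14 at u2
  have u3 := k9_q19
  unfold Cb14 at u3
  have u4 := k4_q19
  unfold Cb14 at u4
  have u5 := k16_q19
  unfold Cb14 at u5
  have e0 : Real.cos (((12 / 5) + 1) * (1309 / 1250) : ℝ) = Real.cos (22253 / 6250) := by rw [show (((12 / 5) + 1) * (1309 / 1250) : ℝ) = (22253 / 6250) by norm_num]
  have e1 : Real.cos (((12 / 5) - 1) * (1309 / 1250) : ℝ) = Real.cos (9163 / 6250) := by rw [show (((12 / 5) - 1) * (1309 / 1250) : ℝ) = (9163 / 6250) by norm_num]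
  have e2 : Real.cos (((12 / 5) + 1) * (1309 / 1250) : ℝ) = Real.cos (22253 / 6250) := by rw [show (((12 / 5) + 1) * (1309 / 1250) : ℝ) = (22253 / 6250) by norm_num]
  have e3 : Real.cos (((12 / 5) - 1) * (1309 / 1250) : ℝ) = Real.cos (9163 / 6250) := by rw [show (((12 / 5) - 1) * (1309 / 1250) : ℝ) = (9163 / 6250) by norm_num]
  have e4 : Real.cos (2 * (1309 / 1250) : ℝ) = Real.cos (1309 / 625) := by rw [show (2 * (1309 / 1250) : ℝ) = (1309 / 625) by norm_num]
  have e5 : Real.cos (((12 / 5) - (12 / 5) + 1) * (1309 / 1250) : ℝ) = Real.cos (1309 / 1250) := by rw [show (((12 / 5) - (12 / 5) + 1) * (1309 / 1250) : ℝ) = (1309 / 1250) by norm_num]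
  have e6 : Real.cos (((12 / 5) - (12 / 5) - 1) * (1309 / 1250) : ℝ) = Real.cos (1309 / 1250) := by rw [show (((12 / 5) - (12 / 5) - 1) * (1309 / 1250) : ℝ) = -(1309 / 1250) by norm_num, Real.cos_neg]
  have e7 : Real.cos (((12 / 5) - (12 / 5)) * (1309 / 1250) : ℝ) = Real.cos 0 := by rw [show (((12 / 5) - (12 / 5)) * (1309 / 1250) : ℝ) = 0 by norm_num]
  have e8 : Real.cos (((12 / 5) + (12 / 5)) * (1309 / 1250) : ℝ) = Real.cos (15708 / 3125) := by rw [show (((12 / 5) + (12 / 5)) * (1309 / 1250) : ℝ) = (15708 / 3125) by norm_num]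
  have e9 : Real.cos (0 * (1309 / 1250) : ℝ) = Real.cos 0 := by rw [show (0 * (1309 / 1250) : ℝ) = 0 by norm_num]
  have e10 : Real.cos ((0 + 1) * (1309 / 1250) : ℝ) = Real.cos (1309 / 1250) := by rw [show ((0 + 1) * (1309 / 1250) : ℝ) = (1309 / 1250) by norm_num]
  have e11 : Real.cos ((0 - 1) * (1309 / 1250) : ℝ) = Real.cos (1309 / 1250) := by rw [show ((0 - 1) * (1309 / 1250) : ℝ) = -(1309 / 1250) by norm_num, Real.cos_neg]
  unfold HH19
  simp only [e0, e1, e2, e3, e4, e5, e6, e7, e8, e9, e10, e11]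
  constructor <;> linarith

/-- the number -/
theorem opp_num19 {a : ℝ} (h0 : 1029 / 1000 ≤ a) (h1 : a ≤ Real.pi / 3) :
    HH19 3 2 0 a < HH19 (12 / 5) (12 / 5) 0 a := by
  obtain ⟨s, s0, s1, hs⟩ := par14 h0 (h1.trans pi3_14)
  have h := (HH_int14 3 2 0 s0 s1 hs).2
  have h' := (HH_int14 (12 / 5) (12 / 5) 0 s0 s1 hs).1
  obtain ⟨_, h3⟩ := opa_19
  obtain ⟨_, h5⟩ := opb_19
  obtain ⟨h3', _⟩ := opc_19
  obtain ⟨h5', _⟩ := opd_19
  have hM : Mf14 3 2 0 * ((1309 / 1250 - 1029 / 1000 : ℝ) ^ 2 / 8) ≤ 1 / 500 := by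
    unfold Mf14
    norm_num
  have hM' : Mf14 (12 / 5) (12 / 5) 0 * ((1309 / 1250 - 1029 / 1000 : ℝ) ^ 2 / 8) ≤ 1 / 500 := by
    unfold Mf14
    norm_num
  nlinarith [mul_le_mul_of_nonneg_left h3 (by linarith : (0:ℝ) ≤ 1 - s),
    mul_le_mul_of_nonneg_left h5 s0, mul_le_mul_of_nonneg_left h3' (by linarith : (0:ℝ) ≤ 1 - s),
    mul_le_mul_of_nonneg_left h5' s0]

/-- an upper bound of the chord from the sum of the angles -/
theorem FF_le_sum19 {d : ℝ} (hd : 0 < d) {x y s : ℝ} (hx : alpha d ≤ x) (hx1 : x ≤ 3 * alpha d)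
    (hy : alpha d ≤ y) (hy1 : y ≤ 3 * alpha d) (hs : x + y ≤ 2 * s) (h0 : 2 * alpha d ≤ s)
    (h1 : s ≤ 3 * alpha d) (h2 : Real.pi ≤ 2 * s) : FF66 d x y ≤ FF66 d s s := by
  have hal := alpha_lt hd
  have hal0 := alpha_pos hd
  have hp := Real.pi_pos
  rcases le_total (2 * s - 3 * alpha d) x with h | h
  · have k1 : FF66 d x y ≤ FF66 d x (2 * s - x) :=
      FF_mono2_19 hd hx (by linarith) hy (by linarith) (by linarith)
    refine k1.trans ?_
    rcases le_total s x with h3 | h3
    · exact FF_spread19 (by ring) (by linarith) (by linarith) (by linarith) (by linarith)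
        (by linarith)
    · rw [FF_comm66 d x]
      exact FF_spread19 (by ring) (by linarith) (by linarith) (by linarith) (by linarith)
        (by linarith)
  · have k1 : FF66 d x y ≤ FF66 d (2 * s - 3 * alpha d) (3 * alpha d) :=
      FF_mono3_19 hd hx h (by linarith) hy hy1 (by linarith)
    refine k1.trans ?_
    rw [FF_comm66 d (2 * s - 3 * alpha d)]
    exact FF_spread19 (by ring) (by linarith) (by linarith) (by linarith) (by linarith)
      (by linarith)

section conc
variable {G : Tg ℍ} {d : ℝ} {kp : ℍ → ℍ → ℝ} {U : ℕ → ℝ}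

/-- the relation of the three pairs of opposite sides of a hexagon face -/
theorem hex_rel19 (hG : G.Geo4 (alpha d) kp U) (hD : DelG G d) (hS : Sep d G.P)
    {C : G.adj.ConnectedComponent} (hC : C ∈ WF G) (hd6 : (G.cI C).card + 2 = 2 * (G.cT C).card)
    (h6 : (G.cJ C).card = 6) {x : ℍ × ℍ} (hx : x ∈ G.cJ C)
    (hlt : ∀ y ∈ G.cJ C, TH G y < 2 * Real.pi) :
    FF66 d (TH G x) (TH G (sg G x)) =
      FF66 d (TH G (sg G (sg G (sg G x)))) (TH G (sg G (sg G (sg G (sg G x))))) := by
  have hCi := ((mem_WF89 G).1 hC).1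
  have hd := hD.hd
  have hal0 := alpha_pos hd
  obtain ⟨v0, v1⟩ := x
  obtain ⟨v2, v3, v4, v5, g0, g1, g2, g3, g4, g5, hset⟩ := hex_pts19 hG hC hd6 h6 hx
  rw [g0, g1, g2, g3]
  have x0 := hx
  have x1 := sg_cJ90 G hG hCi x0
  rw [g0] at x1
  have x2 := sg_cJ90 G hG hCi x1
  rw [g1] at x2
  have x3 := sg_cJ90 G hG hCi x2
  rw [g2] at x3
  have x4 := sg_cJ90 G hG hCi x3
  rw [g3] at x4
  have x5 := sg_cJ90 G hG hCi x4
  rw [g4] at x5
  have d0 := (side63 hD x0).2.2
  have d1 := (side63 hD x1).2.2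
  have d2 := (side63 hD x2).2.2
  have d3 := (side63 hD x3).2.2
  have d4 := (side63 hD x4).2.2
  have d5 := (side63 hD x5).2.2
  dsimp only at d0 d1 d2 d3 d4 d5
  have i0 := (cJ_iJ51 G hCi x0).1
  have i1 := (cJ_iJ51 G hCi x1).1
  have i2 := (cJ_iJ51 G hCi x2).1
  have i3 := (cJ_iJ51 G hCi x3).1
  have i4 := (cJ_iJ51 G hCi x4).1
  have i5 := (cJ_iJ51 G hCi x5).1
  have lo : ∀ {y : ℍ × ℍ}, y ∈ iJ G → 0 < TH G y := fun hy => by
    have := TH_ge19 hG hD hS hy
    linarith
  have m53 := ne2_19 hG hD i3 g3 (lo i4) (hlt _ x4)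
  have m20 := ne2_19 hG hD i0 g0 (lo i1) (hlt _ x1)
  have k25 := chord19 hG hD i2 i3 g2 g3 d2 d3 d4 m53
  have k52 := chord19 hG hD i5 i0 g5 g0 d5 d0 d1 m20
  rw [dist_comm] at k52
  rw [← k25, ← k52]

/-- **two adjacent corners with sum at least `5 α`** -/
theorem hex_opp19 (hG : G.Geo4 (alpha d) kp U) (hD : DelG G d) (hS : Sep d G.P)
    (hd2 : d ≤ 89 / 250)
    {C : G.adj.ConnectedComponent} (hC : C ∈ WF G) (hd6 : (G.cI C).card + 2 = 2 * (G.cT C).card)
    (h6 : (G.cJ C).card = 6) {x : ℍ × ℍ} (hx : x ∈ G.cJ C)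
    (hlt : ∀ y ∈ G.cJ C, TH G y < 2 * Real.pi)
    (b0 : TH G x ≤ 3 * alpha d) (b1 : TH G (sg G x) ≤ 3 * alpha d)
    (hs : 5 * alpha d ≤ TH G x + TH G (sg G x))
    (b3 : TH G (sg G (sg G (sg G x))) ≤ 3 * alpha d)
    (b4 : TH G (sg G (sg G (sg G (sg G x)))) ≤ 3 * alpha d) :
    24 / 5 * alpha d < TH G (sg G (sg G (sg G x))) + TH G (sg G (sg G (sg G (sg G x)))) := by
  have hCi := ((mem_WF89 G).1 hC).1
  have hd := hD.hd
  have hal := alpha_lt hd
  have hal0 := alpha_pos hd
  have hp := Real.pi_pos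
  have hp4 := Real.pi_lt_d4
  have ha := alpha_ge19 hd hd2
  have hr := hex_rel19 hG hD hS hC hd6 h6 hx hlt
  have x1 := sg_cJ90 G hG hCi hx
  have x2 := sg_cJ90 G hG hCi x1
  have x3 := sg_cJ90 G hG hCi x2
  have x4 := sg_cJ90 G hG hCi x3
  have a0 := TH_ge19 hG hD hS (cJ_iJ51 G hCi hx).1
  have a3 := TH_ge19 hG hD hS (cJ_iJ51 G hCi x3).1
  have a4 := TH_ge19 hG hD hS (cJ_iJ51 G hCi x4).1
  have n := HH_lt19 hd (opp_num19 ha hal.le)
  by_contra hc
  push Not at hc
  have k1 : FF66 d (3 * alpha d) (2 * alpha d) ≤ FF66 d (TH G x) (TH G (sg G x)) := by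
    refine FF_ge_sum19 hd a0 (by linarith) (by linarith) (by linarith) (by linarith)
      (by linarith) (by linarith) (by linarith) (by linarith) (by linarith) (by linarith)
  have k2 := FF_le_sum19 hd (s := 12 / 5 * alpha d) a3 b3 a4 b4 (by linarith) (by linarith)
    (by linarith) (by linarith)
  linarith

end conc

end

end Pool.Agent.PEN.E5
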