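import Pool.Agent.P4.RhoW52
import Pool.Agent.P4.Y9
import Pool.Agent.E5.Nm69

/-! # PENNY: the side conditions and the constants of the dichotomy for `q = 7 / 10`

`V52 t = tan (rho51 / 4)`, `t = tanh (d / 2)`, is between two quadratic polynomials times `t`
for all `t ≤ 1 / 4` (all diameters `d ≤ 1 / 2`). -/

set_option autoImplicit false

namespace Pool.Agent.PEN.E5

noncomputable section

theorem pu45 {t : ℝ} (h1 : 0 ≤ t) (h2 : t ≤ 1 / 4) :
    0 ≤ (67 / 500 - 431 / 1000 * t + 43 / 100 * t ^ 2) * ((1 - t ^ 2 / 2 - t ^ 4 / 7) *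
        (1 - t * (1 + t ^ 2) / 2 + t ^ 2 * (866025 / 1000000 + 1435 / 10000 * t ^ 2))) -
      (1 - t * (1 + t ^ 2) / 2 - (1 - t ^ 2) * (866025 / 1000000 + 1435 / 10000 * t ^ 2)) := by
  have x1 : 0 ≤ t - 0 := by linarith
  have x2 : 0 ≤ 1 / 4 - t := by linarith
  have key : (67 / 500 - 431 / 1000 * t + 43 / 100 * t ^ 2) * ((1 - t ^ 2 / 2 - t ^ 4 / 7) *
        (1 - t * (1 + t ^ 2) / 2 + t ^ 2 * (866025 / 1000000 + 1435 / 10000 * t ^ 2))) -
      (1 - t * (1 + t ^ 2) / 2 - (1 - t ^ 2) * (866025 / 1000000 + 1435 / 10000 * t ^ 2)) =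
      16384 / 625 * t ^ 0 * (1 / 4 - t) ^ 10 +
      98304 / 125 * t ^ 1 * (1 / 4 - t) ^ 9 +
      317554432 / 78125 * t ^ 2 * (1 / 4 - t) ^ 8 +
      694346784 / 78125 * t ^ 3 * (1 / 4 - t) ^ 7 +
      5041178952 / 546875 * t ^ 4 * (1 / 4 - t) ^ 6 +
      430060509 / 109375 * t ^ 5 * (1 / 4 - t) ^ 5 +
      222156633 / 156250 * t ^ 6 * (1 / 4 - t) ^ 4 +
      19190742789 / 4375000 * t ^ 7 * (1 / 4 - t) ^ 3 +
      49305922237 / 8750000 * t ^ 8 * (1 / 4 - t) ^ 2 +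
      1467655199 / 500000 * t ^ 9 * (1 / 4 - t) ^ 1 +
      157353781 / 280000 * t ^ 10 * (1 / 4 - t) ^ 0 := by
    ring
  rw [key]
  positivity

theorem pla45 {t : ℝ} (h1 : 0 ≤ t) (h2 : t ≤ 1 / 16) :
    0 ≤ (1 - t * (1 + t ^ 2) / 2 -
        (1 - t ^ 2) * (8660255 / 10000000 + 1443376 / 10000000 * t ^ 2)) -
      (13397 / 100000 - 173 / 400 * t + 17 / 40 * t ^ 2) * ((1 - t ^ 2 / 2) *
        (1 - t * (1 + t ^ 2) / 2 + t ^ 2 * (8660255 / 10000000 + 1443376 / 10000000 * t ^ 2))) := by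
  have x1 : 0 ≤ t - 0 := by linarith
  have x2 : 0 ≤ 1 / 16 - t := by linarith
  have key : (1 - t * (1 + t ^ 2) / 2 -
        (1 - t ^ 2) * (8660255 / 10000000 + 1443376 / 10000000 * t ^ 2)) -
      (13397 / 100000 - 173 / 400 * t + 17 / 40 * t ^ 2) * ((1 - t ^ 2 / 2) *
        (1 - t * (1 + t ^ 2) / 2 + t ^ 2 * (8660255 / 10000000 + 1443376 / 10000000 * t ^ 2))) =
      301989888 / 15625 * t ^ 0 * (1 / 16 - t) ^ 8 +
      255852544 / 15625 * t ^ 1 * (1 / 16 - t) ^ 7 +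
      4896738316288 / 48828125 * t ^ 2 * (1 / 16 - t) ^ 6 +
      60538421769728 / 48828125 * t ^ 3 * (1 / 16 - t) ^ 5 +
      954532299679128 / 244140625 * t ^ 4 * (1 / 16 - t) ^ 4 +
      1405151639356537 / 244140625 * t ^ 5 * (1 / 16 - t) ^ 3 +
      8798183238273587 / 1953125000 * t ^ 6 * (1 / 16 - t) ^ 2 +
      7126816359933929 / 3906250000 * t ^ 7 * (1 / 16 - t) ^ 1 +
      9441278226495867 / 31250000000 * t ^ 8 * (1 / 16 - t) ^ 0 := by
    ring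
  rw [key]
  positivity

theorem plb45 {t : ℝ} (h1 : 1 / 16 ≤ t) (h2 : t ≤ 1 / 4) :
    0 ≤ (1 - t * (1 + t ^ 2) / 2 -
        (1 - t ^ 2) * (8660255 / 10000000 + 1443376 / 10000000 * t ^ 2)) -
      (13397 / 100000 - 173 / 400 * t + 17 / 40 * t ^ 2) * ((1 - t ^ 2 / 2) *
        (1 - t * (1 + t ^ 2) / 2 + t ^ 2 * (8660255 / 10000000 + 1443376 / 10000000 * t ^ 2))) := by
  have x1 : 0 ≤ t - 1 / 16 := by linarith
  have x2 : 0 ≤ 1 / 4 - t := by linarith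
  have key : (1 - t * (1 + t ^ 2) / 2 -
        (1 - t ^ 2) * (8660255 / 10000000 + 1443376 / 10000000 * t ^ 2)) -
      (13397 / 100000 - 173 / 400 * t + 17 / 40 * t ^ 2) * ((1 - t ^ 2 / 2) *
        (1 - t * (1 + t ^ 2) / 2 + t ^ 2 * (8660255 / 10000000 + 1443376 / 10000000 * t ^ 2))) =
      3147092742165289 / 68343750000000 * (t - 1 / 16) ^ 0 * (1 / 4 - t) ^ 8 +
      5461554608727227 / 8542968750000 * (t - 1 / 16) ^ 1 * (1 / 4 - t) ^ 7 +
      4912572485457949 / 1423828125000 * (t - 1 / 16) ^ 2 * (1 / 4 - t) ^ 6 +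
      4992737612269033 / 533935546875 * (t - 1 / 16) ^ 3 * (1 / 4 - t) ^ 5 +
      7520261964173026 / 533935546875 * (t - 1 / 16) ^ 4 * (1 / 4 - t) ^ 4 +
      2143291089867056 / 177978515625 * (t - 1 / 16) ^ 5 * (1 / 4 - t) ^ 3 +
      2944857670922144 / 533935546875 * (t - 1 / 16) ^ 6 * (1 / 4 - t) ^ 2 +
      577658799633152 / 533935546875 * (t - 1 / 16) ^ 7 * (1 / 4 - t) ^ 1 +
      1079138010112 / 59326171875 * (t - 1 / 16) ^ 8 * (1 / 4 - t) ^ 0 := by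
    ring
  rw [key]
  positivity

theorem le_arcsin45 {x : ℝ} (h0 : 0 ≤ x) (h1 : x ≤ 1) : x ≤ Real.arcsin x := by
  have hpi := Real.pi_gt_three
  have h3 := Real.arcsin_le_arcsin (Real.sin_le h0)
  rwa [Real.arcsin_sin (by linarith) (by linarith)] at h3

/-- the radius of the first branch, `q = 7 / 10` -/
theorem u7_45 {t : ℝ} (h0 : 0 ≤ t) (h1 : t ≤ 1 / 4) :
    2 * Real.arcsin (7 / 10 * t) ≤ 7 / 5 * t + 3 / 25 * t ^ 3 := by
  have hpi := Real.pi_gt_three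
  have h3 : t ^ 3 ≤ (1 / 4) ^ 3 := pow_le_pow_left₀ h0 h1 3
  have h4 : t ^ 2 ≤ (1 / 4) ^ 2 := pow_le_pow_left₀ h0 h1 2
  have h5 : 0 ≤ t ^ 3 := by positivity
  norm_num at h3 h4
  have h6 : Real.arcsin (7 / 10 * t) ≤ 7 / 10 * t + 3 / 50 * t ^ 3 := by
    rw [Real.arcsin_le_iff_le_sin ⟨by linarith, by linarith⟩ ⟨by linarith, by linarith⟩]
    have h7 := Real.sin_ge_sub_cube (x := 7 / 10 * t + 3 / 50 * t ^ 3) (by positivity)
    have h8 : (7 / 10 * t + 3 / 50 * t ^ 3) ^ 3 ≤ 36 / 100 * t ^ 3 := by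
      have e : (7 / 10 * t + 3 / 50 * t ^ 3) ^ 3 = (7 / 10 + 3 / 50 * t ^ 2) ^ 3 * t ^ 3 := by
        ring
      rw [e]
      apply mul_le_mul_of_nonneg_right _ h5
      have h9 : (7 / 10 + 3 / 50 * t ^ 2) ^ 3 ≤ (7 / 10 + 3 / 50 * (1 / 16)) ^ 3 :=
        pow_le_pow_left₀ (by positivity) (by linarith) 3
      norm_num at h9 ⊢
      linarith
    linarith
  linarith

/-- lower bound of the maximal area per boundary dart -/
theorem g_lo45 {d : ℝ} (hd : 0 < d) (hT : Real.tanh (d / 2) ≤ 1 / 4) :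
    2 * Real.tanh (d / 2) + 1 / 3 * Real.tanh (d / 2) ^ 3 ≤ g51 d := by
  have h0 : 0 ≤ Real.tanh (d / 2) := (tanh_rg69 hd).1.le
  unfold g51
  set t := Real.tanh (d / 2) with ht
  have h3 : t ^ 3 ≤ (1 / 4) ^ 3 := pow_le_pow_left₀ h0 hT 3
  have h4 : t ^ 2 ≤ (1 / 4) ^ 2 := pow_le_pow_left₀ h0 hT 2
  have h5 : 0 ≤ t ^ 3 := by positivity
  have h6 : 0 ≤ t ^ 5 := by positivity
  norm_num at h3 h4
  refine le_arcsin_of52 (y := t) (G := 2 * t + 1 / 3 * t ^ 3) (by positivity) (by linarith) rfl ?_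
  have e1 : (2 * t + 1 / 3 * t ^ 3) / 2 = t * (1 + t ^ 2 / 6) := by ring
  rw [e1]
  have e2 : (t * (1 + t ^ 2 / 6)) ^ 3 = t ^ 3 * (1 + t ^ 2 / 2 + t ^ 4 / 12 + t ^ 6 / 216) := by
    ring
  have e3 : (t * (1 + t ^ 2 / 6)) ^ 5 ≤ t ^ 5 * 2 := by
    rw [mul_pow]
    apply mul_le_mul_of_nonneg_left _ h6
    have h9 : (1 + t ^ 2 / 6) ^ 5 ≤ (1 + (1 / 16) / 6) ^ 5 :=
      pow_le_pow_left₀ (by positivity) (by linarith) 5
    norm_num at h9
    linarith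
  have e4 : 0 ≤ t ^ 3 * (t ^ 4 / 12 + t ^ 6 / 216) := by positivity
  have e5 : t ^ 3 * (1 + t ^ 2 / 2 + t ^ 4 / 12 + t ^ 6 / 216) =
      t ^ 3 + t ^ 5 / 2 + t ^ 3 * (t ^ 4 / 12 + t ^ 6 / 216) := by ring
  rw [e2, e5]
  have e6 : t * (1 + t ^ 2 / 6) = t + t ^ 3 / 6 := by ring
  linarith

/-- `4 arcsin (7 / 10)` -/
theorem arcsin7_45 : 31015 / 10000 ≤ 4 * Real.arcsin (7 / 10) := by
  have hpi := Real.pi_gt_d6
  have hpi2 := Real.pi_lt_d6
  have h1 := cos_le8_52 (x := 79541 / 100000) (by norm_num) (by norm_num)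
  have h2 : Real.sin (Real.pi / 2 - 79541 / 100000) ≤ 7 / 10 := by
    rw [Real.sin_pi_div_two_sub]
    refine h1.trans ?_
    norm_num
  have h3 := Real.arcsin_le_arcsin h2
  rw [Real.arcsin_sin (by linarith) (by linarith)] at h3
  linarith

theorem V_up45 {t : ℝ} (h0 : 0 ≤ t) (h1 : t ≤ 1 / 4) :
    V52 t ≤ t * (67 / 500 - 431 / 1000 * t + 43 / 100 * t ^ 2) := by
  have hq : 0 ≤ 67 / 500 - 431 / 1000 * t + 43 / 100 * t ^ 2 := by nlinarith
  apply V_le_poly52 h0 h1 (mul_nonneg h0 hq)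
  have h2 := mul_nonneg h0 (pu45 h0 h1)
  linarith

theorem V_lo45 {t : ℝ} (h0 : 0 ≤ t) (h1 : t ≤ 1 / 4) :
    t * (13397 / 100000 - 173 / 400 * t + 17 / 40 * t ^ 2) ≤ V52 t := by
  have hq : 0 ≤ 13397 / 100000 - 173 / 400 * t + 17 / 40 * t ^ 2 := by nlinarith
  apply V_ge_poly52 h0 h1 (mul_nonneg h0 hq)
  rcases le_total t (1 / 16) with h | h
  · have h2 := mul_nonneg h0 (pla45 h0 h)
    linarith
  · have h2 := mul_nonneg h0 (plb45 h h1)
    linarith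

/-- **upper bound of the deficit** -/
theorem rho_up45 {d : ℝ} (hd : 0 < d) (hT : Real.tanh (d / 2) ≤ 1 / 4) :
    rho51 d (alpha d) ≤ 4 * (Real.tanh (d / 2) *
      (67 / 500 - 431 / 1000 * Real.tanh (d / 2) + 43 / 100 * Real.tanh (d / 2) ^ 2)) := by
  have h0 : 0 ≤ Real.tanh (d / 2) := (tanh_rg69 hd).1.le
  have hq : 0 ≤ 67 / 500 - 431 / 1000 * Real.tanh (d / 2) + 43 / 100 * Real.tanh (d / 2) ^ 2 := by
    nlinarith
  exact rho_le52 hd (V_up45 h0 hT) (mul_nonneg h0 hq)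

/-- **lower bound of the deficit** -/
theorem rho_lo45 {d : ℝ} (hd : 0 < d) (hT : Real.tanh (d / 2) ≤ 1 / 4) :
    39994 / 10000 * (Real.tanh (d / 2) *
      (13397 / 100000 - 173 / 400 * Real.tanh (d / 2) + 17 / 40 * Real.tanh (d / 2) ^ 2)) ≤
        rho51 d (alpha d) := by
  have h0 : 0 ≤ Real.tanh (d / 2) := (tanh_rg69 hd).1.le
  have h1 := V_lo45 h0 hT
  set t := Real.tanh (d / 2) with ht
  have hq : 0 ≤ 13397 / 100000 - 173 / 400 * t + 17 / 40 * t ^ 2 := by nlinarith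
  set y := t * (13397 / 100000 - 173 / 400 * t + 17 / 40 * t ^ 2) with hy
  have hy0 : 0 ≤ y := mul_nonneg h0 hq
  have hy1 : y ≤ 1 / 60 := by
    rw [hy]
    nlinarith [mul_nonneg h0 h0, mul_nonneg (mul_nonneg h0 h0) h0]
  have h2 := le_rho52 (k := 99985 / 100000 * y) hd h1 hy0 (by linarith) (by linarith) (by
    have e1 : (99985 / 100000 * y) ^ 2 ≤ y ^ 2 := by
      rw [mul_pow]
      nlinarith [sq_nonneg y]
    have e2 : y ^ 2 ≤ 1 / 3600 := by nlinarith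
    nlinarith)
  linarith

/-- **the side conditions of the dichotomy for `q = 7 / 10`** -/
theorem side7_tanh45 {d : ℝ} (hd : 0 < d) (hT : Real.tanh (d / 2) ≤ 1 / 4) : Side9 d (7 / 10) := by
  have h0 : 0 ≤ Real.tanh (d / 2) := (tanh_rg69 hd).1.le
  have hr := rho_up45 hd hT
  have hg : g51 d = 2 * Real.arcsin (Real.tanh (d / 2)) := rfl
  have hu := arcsin_mul52 (q := 7 / 10) (t := Real.tanh (d / 2)) (by norm_num) (by norm_num)
    h0 (by linarith)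
  set t := Real.tanh (d / 2) with ht
  have ha : t ≤ Real.arcsin t := le_arcsin45 h0 (by linarith)
  have hb : (7 / 10 : ℝ) ≤ Real.arcsin (7 / 10) := le_arcsin45 (by norm_num) (by norm_num)
  have hr2 : rho51 d (alpha d) ≤ 67 / 125 * t := by nlinarith [mul_nonneg h0 h0]
  exact ⟨by norm_num, by linarith, by linarith, by linarith⟩

/-- **the side conditions of the dichotomy for `q = 7 / 10`** -/
theorem side7_45 {d : ℝ} (hd : 0 < d) (h : d ≤ 89 / 250) : Side9 d (7 / 10) :=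
  side7_tanh45 hd (by linarith [(tanh_rg69 hd).2.1])

/-- the deficit constant in the second branch, in terms of `tanh (d / 2)` -/
theorem K7T_45 {d : ℝ} (hd : 0 < d) (hT : Real.tanh (d / 2) ≤ 1 / 4) :
    31015 / 10000 - 8 * (Real.tanh (d / 2) *
      (67 / 500 - 431 / 1000 * Real.tanh (d / 2) + 43 / 100 * Real.tanh (d / 2) ^ 2)) ≤
        4 * Real.arcsin (7 / 10) - 2 * rho51 d (alpha d) := by
  have h1 := rho_up45 hd hT
  have h2 := arcsin7_45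
  linarith

/-- the deficit constant in the second branch is at least `3` -/
theorem K7_45 {d : ℝ} (hd : 0 < d) (h : d ≤ 89 / 250) :
    3 ≤ 4 * Real.arcsin (7 / 10) - 2 * rho51 d (alpha d) := by
  obtain ⟨t0, t1, _⟩ := tanh_rg69 hd
  have h1 := K7T_45 hd (by linarith)
  set t := Real.tanh (d / 2) with ht
  have h2 : t ≤ 178 / 1000 := by linarith
  have h3 : t * (67 / 500 - 431 / 1000 * t + 43 / 100 * t ^ 2) ≤ 12675 / 1000000 := by
    nlinarith [mul_nonneg t0.le (sub_nonneg.2 h2), mul_nonneg (mul_nonneg t0.le t0.le) (sub_nonneg.2 h2)]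
  linarith

end

end Pool.Agent.PEN.E5
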