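import Pool.Agent.E5.Nc69
import Pool.Agent.E5.S7x45

/-! # PENNY, all small diameters: the numerics of the row with sharp darts (one interval) -/

set_option autoImplicit false

namespace Pool.Agent.PEN.E5

open Classical UpperHalfPlane
open Pool.Agent.PEN.Cl

noncomputable section

/-! ### Functions of the diameter -/

theorem tanh_lo69 {y : ℝ} (h0 : 0 ≤ y) : y - y ^ 3 / 3 ≤ Real.tanh y := by
  rw [Real.tanh_eq_sinh_div_cosh, le_div_iff₀ (Real.cosh_pos _)]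
  have h1 : MonotoneOn (fun x : ℝ => Real.sinh x - (x - x ^ 3 / 3) * Real.cosh x)
      (Set.Ici 0) := by
    apply monotoneOn_of_deriv_nonneg (convex_Ici 0)
    · fun_prop
    · fun_prop
    · intro x hx
      rw [interior_Ici] at hx
      have hx0 : 0 < x := Set.mem_Ioi.1 hx
      have e : HasDerivAt (fun x : ℝ => Real.sinh x - (x - x ^ 3 / 3) * Real.cosh x)
          (Real.cosh x - ((1 - (3 : ℕ) * x ^ 2 / 3) * Real.cosh x +
            (x - x ^ 3 / 3) * Real.sinh x)) x :=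
        (Real.hasDerivAt_sinh x).sub (((hasDerivAt_id' x).sub
          ((hasDerivAt_pow 3 x).div_const 3)).mul (Real.hasDerivAt_cosh x))
      rw [e.deriv]
      have h2 : Real.sinh x ≤ x * Real.cosh x := by
        have := (tanh_rg69 (d := 2 * x) (by linarith)).2.1
        rw [show 2 * x / 2 = x by ring, Real.tanh_eq_sinh_div_cosh,
          div_le_iff₀ (Real.cosh_pos _)] at this
        exact this
      have h3 := mul_le_mul_of_nonneg_left h2 hx0.le
      have h4 : 0 ≤ x ^ 3 / 3 * Real.sinh x :=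
        mul_nonneg (by positivity) (Real.sinh_nonneg_iff.2 hx0.le)
      push_cast
      linarith
  have h2 := h1 (Set.mem_Ici.2 le_rfl) (Set.mem_Ici.2 h0) h0
  simp only [Real.sinh_zero] at h2
  linarith

/-- the area of the contact triangle between two polynomials -/
theorem A3_rg69 {d : ℝ} (hd : 0 < d) (hC : d ≤ 89 / 250) :
    √3 * (Real.tanh (d / 2) ^ 2 + Real.tanh (d / 2) ^ 4 / 6) ≤ A3 (alpha d) ∧
      A3 (alpha d) ≤ √3 * (Real.tanh (d / 2) ^ 2 + 183 / 1000 * Real.tanh (d / 2) ^ 4) := by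
  obtain ⟨a1, a2⟩ := A3_tanh69 hd
  have a3 := a2 (A3_le177_52 hd (cosh_le69 hd hC))
  have hA := A3_pos69 hd
  obtain ⟨T0, T1, _⟩ := tanh_rg69 hd
  set x := A3 (alpha d) / 3 with hx
  have hx0 : 0 < x := by positivity
  have hal : alpha d = Real.pi / 3 - x := by
    rw [hx]
    unfold A3
    ring
  have hcos := (tanh_sq52 hd).1
  rw [hal, Real.cos_sub, Real.cos_pi_div_three, Real.sin_pi_div_three] at hcos
  set T := Real.tanh (d / 2) with hT
  have hT1 : T ≤ 178 / 1000 := by linarith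
  have hT2 : T ^ 2 ≤ (178 / 1000) ^ 2 := pow_le_pow_left₀ T0.le hT1 2
  norm_num at hT2
  have e3 : 3 * x = A3 (alpha d) := by rw [hx]; ring
  have hx1 : x ≤ 3 / 5 * T ^ 2 := by linarith
  have hx2 : x ≤ 2 / 100 := by linarith
  have hs0 : 0 ≤ √(3 : ℝ) := Real.sqrt_nonneg _
  have hq3 : √(3 : ℝ) * √(3 : ℝ) = 3 := Real.mul_self_sqrt (by norm_num)
  have s1 : 1732 / 1000 ≤ √(3 : ℝ) := by
    rw [Real.le_sqrt (by norm_num) (by norm_num)]
    norm_num
  have s2 : √(3 : ℝ) ≤ 1733 / 1000 := by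
    rw [Real.sqrt_le_left (by norm_num)]
    norm_num
  have x2 : 0 ≤ x ^ 2 := by positivity
  have x3 : 0 ≤ x ^ 3 := by positivity
  have xx : x ^ 2 ≤ (3 / 5 * T ^ 2) ^ 2 := pow_le_pow_left₀ hx0.le hx1 2
  constructor
  · -- lower bound
    have c1 := cos_le52 (t := x) hx0.le (by linarith)
    have c2 := sin_le52 (x := x) hx0.le (by linarith)
    have c3 : √3 / 2 * Real.sin x ≤ √3 / 2 * (x - x ^ 3 / 6 + x ^ 5 / 120) :=
      mul_le_mul_of_nonneg_left c2 (by positivity)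
    have c4 : T ^ 2 ≤ √3 * x := by
      have := mul_le_mul_of_nonneg_left a1 hs0
      have e : √3 * (√3 * T ^ 2) = 3 * T ^ 2 := by rw [← mul_assoc, hq3]
      rw [e, ← e3] at this
      linarith
    have c5 : T ^ 4 ≤ 3 * x ^ 2 := by
      have := pow_le_pow_left₀ (by positivity) c4 2
      have e : (√3 * x) ^ 2 = 3 * x ^ 2 := by rw [mul_pow, pow_two √3, hq3]
      rw [e] at this
      linarith
    have c6 : x ^ 4 / 24 + √3 * (x ^ 5 / 120) ≤ √3 * (x ^ 3 / 6) := by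
      have h1 : x ^ 4 = x * x ^ 3 := by ring
      have h2 : x ^ 5 = x ^ 2 * x ^ 3 := by ring
      have h3 : x * x ^ 3 ≤ 2 / 100 * x ^ 3 := mul_le_mul_of_nonneg_right hx2 x3
      have h4 : x ^ 2 * x ^ 3 ≤ 1 * x ^ 3 := mul_le_mul_of_nonneg_right (by nlinarith) x3
      have h5 : √3 * (x ^ 5 / 120) ≤ √3 * (x ^ 3 / 120) :=
        mul_le_mul_of_nonneg_left (by linarith) hs0
      have h6 : 1732 / 1000 * x ^ 3 ≤ √3 * x ^ 3 := mul_le_mul_of_nonneg_right s1 x3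
      linarith
    have c7 : T ^ 2 + T ^ 4 / 6 ≤ √3 * x := by linarith
    have c8 := mul_le_mul_of_nonneg_left c7 hs0
    have e : √3 * (√3 * x) = 3 * x := by rw [← mul_assoc, hq3]
    linarith
  · have c1 := Real.one_sub_sq_div_two_le_cos (x := x)
    have c2 := Real.sin_ge_sub_cube hx0.le
    have c3 : √3 / 2 * (x - x ^ 3 / 6) ≤ √3 / 2 * Real.sin x :=
      mul_le_mul_of_nonneg_left c2 (by positivity)
    have c4 : √3 * (x ^ 3 / 6) ≤ 3 / 1000 * T ^ 4 := by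
      have h1 : x ^ 3 = x * x ^ 2 := by ring
      have h2 : x * x ^ 2 ≤ 2 / 100 * (3 / 5 * T ^ 2) ^ 2 :=
        mul_le_mul hx2 xx x2 (by norm_num)
      have h3 : √3 * (x ^ 3 / 6) ≤ 1733 / 1000 * (x ^ 3 / 6) :=
        mul_le_mul_of_nonneg_right s2 (by positivity)
      have h4 : 0 ≤ T ^ 4 := by positivity
      rw [h1] at h3 ⊢
      nlinarith
    have c7 : √3 * x ≤ T ^ 2 + 183 / 1000 * T ^ 4 := by nlinarith
    have c8 := mul_le_mul_of_nonneg_left c7 hs0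
    have e : √3 * (√3 * x) = 3 * x := by rw [← mul_assoc, hq3]
    linarith

/-- all numbers on one interval of `T = tanh (d / 2)` -/
structure Tab69 (t1 t2 x1 x2 al0 g G c2 r : ℝ) : Prop where
  t0 : 0 < t1
  t3 : t2 ≤ 9 / 50
  hx1 : x1 ≤ 173205 / 100000 * (t1 ^ 2 + t1 ^ 4 / 6)
  hx2 : 173206 / 100000 * (t2 ^ 2 + 183 / 1000 * t2 ^ 4) ≤ x2
  hal : al0 ≤ (31415 / 10000 - x2) / 3
  hg : 2 * t2 + 17 / 50 * t2 ^ 3 ≤ g
  hG : 2 + 17 / 50 * t1 ^ 2 ≤ G * (173205 / 100000 * (t1 * (1 + t1 ^ 2 / 6)))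
  hc : 7 / 5 * t2 + 3 / 25 * t2 ^ 3 ≤ c2
  hr : r ≤ 39994 / 10000 * (t1 * (13397 / 100000 - 173 / 400 * t1 + 17 / 40 * t1 ^ 2))

theorem br69 {d t1 t2 x1 x2 al0 g G c2 r : ℝ} (hd : 0 < d) (hd2 : d ≤ 89 / 250)
    (h1 : t1 ≤ Real.tanh (d / 2)) (h2 : Real.tanh (d / 2) ≤ t2)
    (H : Tab69 t1 t2 x1 x2 al0 g G c2 r) :
    x1 ≤ A3 (alpha d) ∧ A3 (alpha d) ≤ x2 ∧ al0 ≤ alpha d ∧ g51 d ≤ g ∧
      g51 d ≤ G * A3 (alpha d) ∧ 2 * Real.arcsin (7 / 10 * Real.tanh (d / 2)) ≤ c2 ∧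
      r ≤ rho51 d (alpha d) := by
  obtain ⟨a1, a2⟩ := A3_rg69 hd hd2
  obtain ⟨T0, T1, _⟩ := tanh_rg69 hd
  have hT : Real.tanh (d / 2) ≤ 1 / 4 := by linarith
  have b1 := g51_le69 hd (by linarith [H.t3])
  have b2 := u7_45 T0.le hT
  have b3 := rho_lo45 hd hT
  set T := Real.tanh (d / 2) with hTd
  have ht0 := H.t0
  have p2 : t1 ^ 2 ≤ T ^ 2 := pow_le_pow_left₀ ht0.le h1 2
  have p4 : t1 ^ 4 ≤ T ^ 4 := pow_le_pow_left₀ ht0.le h1 4
  have q2 : T ^ 2 ≤ t2 ^ 2 := pow_le_pow_left₀ T0.le h2 2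
  have q3 : T ^ 3 ≤ t2 ^ 3 := pow_le_pow_left₀ T0.le h2 3
  have q4 : T ^ 4 ≤ t2 ^ 4 := pow_le_pow_left₀ T0.le h2 4
  have s1 : 173205 / 100000 ≤ √(3 : ℝ) := by
    rw [Real.le_sqrt (by norm_num) (by norm_num)]
    norm_num
  have s2 : √(3 : ℝ) ≤ 173206 / 100000 := by
    rw [Real.sqrt_le_left (by norm_num)]
    norm_num
  have T2 : 0 ≤ T ^ 2 := by positivity
  have T4 : 0 ≤ T ^ 4 := by positivity
  have c1 : x1 ≤ A3 (alpha d) := by
    have h3 := mul_le_mul_of_nonneg_right s1 (show 0 ≤ T ^ 2 + T ^ 4 / 6 by positivity)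
    linarith [H.hx1]
  have c2' : A3 (alpha d) ≤ x2 := by
    have h3 := mul_le_mul_of_nonneg_right s2
      (show 0 ≤ T ^ 2 + 183 / 1000 * T ^ 4 by positivity)
    linarith [H.hx2]
  refine ⟨c1, c2', ?_, ?_, ?_, ?_, ?_⟩
  · have hpi := Real.pi_gt_d4
    have e : alpha d = (Real.pi - A3 (alpha d)) / 3 := by unfold A3; ring
    rw [e]
    linarith [H.hal]
  · linarith [H.hg]
  · -- the ratio
    have h3 := mul_le_mul_of_nonneg_right s1 (show 0 ≤ T ^ 2 + T ^ 4 / 6 by positivity)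
    have hG0 : 0 ≤ G := by
      by_contra hneg
      push Not at hneg
      have e1 := H.hG
      have e2 : 0 < 173205 / 100000 * (t1 * (1 + t1 ^ 2 / 6)) := by positivity
      have e3 := mul_neg_of_neg_of_pos hneg e2
      have e4 : 0 ≤ t1 ^ 2 := by positivity
      linarith
    have h4 : (2 + 17 / 50 * T ^ 2) * (t1 * (1 + t1 ^ 2 / 6)) ≤
        (2 + 17 / 50 * t1 ^ 2) * (T * (1 + T ^ 2 / 6)) := by
      have e1 : (2 + 17 / 50 * t1 ^ 2) * (T * (1 + T ^ 2 / 6)) -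
          (2 + 17 / 50 * T ^ 2) * (t1 * (1 + t1 ^ 2 / 6)) =
          (T - t1) * (2 - 17 / 50 * (t1 * T) + 1 / 3 * (T ^ 2 + T * t1 + t1 ^ 2) +
            17 / 300 * (t1 * T) ^ 2) := by ring
      have e2 : t1 * T ≤ 1 := by nlinarith
      have e3 : 0 ≤ t1 * T := by positivity
      have e4 : 0 ≤ (T - t1) * (2 - 17 / 50 * (t1 * T) + 1 / 3 * (T ^ 2 + T * t1 + t1 ^ 2) +
            17 / 300 * (t1 * T) ^ 2) := by
        apply mul_nonneg (by linarith)
        have : 0 ≤ T * t1 := by positivity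
        have : 0 ≤ (t1 * T) ^ 2 := by positivity
        have : 0 ≤ t1 ^ 2 := by positivity
        linarith
      linarith
    have h5 : 2 * T + 17 / 50 * T ^ 3 ≤ G * (173205 / 100000 * (T ^ 2 + T ^ 4 / 6)) := by
      have e2 : 0 < t1 * (1 + t1 ^ 2 / 6) := by positivity
      have e3 : (2 + 17 / 50 * T ^ 2) * (t1 * (1 + t1 ^ 2 / 6)) ≤
          G * (173205 / 100000 * (T * (1 + T ^ 2 / 6))) * (t1 * (1 + t1 ^ 2 / 6)) := by
        have e4 := mul_le_mul_of_nonneg_right H.hG (show 0 ≤ T * (1 + T ^ 2 / 6) by positivity)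
        linarith
      have e5 := le_of_mul_le_mul_right e3 e2
      have e6 := mul_le_mul_of_nonneg_left e5 T0.le
      linarith
    have h6 := mul_le_mul_of_nonneg_left (h3.trans a1) hG0
    linarith
  · linarith [H.hc]
  · have h3 : t1 * (13397 / 100000 - 173 / 400 * t1 + 17 / 40 * t1 ^ 2) ≤
        T * (13397 / 100000 - 173 / 400 * T + 17 / 40 * T ^ 2) := by
      have e1 : T * (13397 / 100000 - 173 / 400 * T + 17 / 40 * T ^ 2) -
          t1 * (13397 / 100000 - 173 / 400 * t1 + 17 / 40 * t1 ^ 2) =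
          (T - t1) * (13397 / 100000 - 173 / 400 * (T + t1) +
            17 / 40 * (T ^ 2 + T * t1 + t1 ^ 2)) := by ring
      have e2 : 0 ≤ (T - t1) * (13397 / 100000 - 173 / 400 * (T + t1) +
            17 / 40 * (T ^ 2 + T * t1 + t1 ^ 2)) := by
        apply mul_nonneg (by linarith)
        have e3 : T ≤ 9 / 50 := by linarith [H.t3]
        nlinarith [sq_nonneg (T - t1), mul_nonneg T0.le ht0.le]
      linarith
    linarith [H.hr]

end

end Pool.Agent.PEN.E5
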