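import Pool.Agent.E5.Sf19
import Pool.Agent.E5.Nd69
import Pool.Agent.P4.DensC39

/-! # PENNY, small diameters: the excess of a pentagon class

The area of a class is the sum of the area form over its contact darts; for a pentagon class it is
at most the isoperimetric bound, so the excess is at most `0.99 (π / α - 3)`. -/

set_option autoImplicit false

namespace Pool.Agent.PEN.E5

open Classical UpperHalfPlane
open Pool.Agent.PEN.Cl

noncomputable section

section abs
variable {V : Type} (G : Tg V) {al : ℝ} {kp : V → V → ℝ} {U : ℕ → ℝ}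

/-- the area of a class from its contact darts -/
theorem class_area19 (hG : G.Geo4 al kp U) {C : G.adj.ConnectedComponent} (hC : C ∈ G.iC) :
    ∑ x ∈ G.cD C, G.ar x.1 x.2 / 3 = ∑ x ∈ G.cJ C, kp x.1 x.2 := by
  have hB := cB_of_iC66 G hC
  have e1 : ∑ x ∈ G.cD C, G.ar x.1 x.2 / 3 = ∑ x ∈ G.cD C, kp x.1 x.2 := by
    have h1 : ∑ x ∈ G.cD C, G.ar x.1 x.2 / 3 = (∑ x ∈ G.cD C, kp x.1 x.2 +
        ∑ x ∈ G.cD C, kp x.2 (G.ap x.1 x.2) + ∑ x ∈ G.cD C, kp (G.ap x.1 x.2) x.1) / 3 := by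
      rw [← Finset.sum_add_distrib, ← Finset.sum_add_distrib, Finset.sum_div]
      refine Finset.sum_congr rfl fun x hx => ?_
      rw [hG.kar _ _ ((mem_cD66 G).1 hx).1]
    rw [h1, sum_rotC39, sum_rotC39']
    ring
  have hfil : (G.cD C).filter (fun x => ¬ G.con x.1 x.2) = G.cI C := by
    ext x
    rw [Finset.mem_filter]
    constructor
    · rintro ⟨h1, h2⟩
      exact mem_cI11 G hB h1 h2
    · intro h
      exact ⟨cI_sub11 G h, cI_ncon11 G h⟩
  have hfil2 : (G.cD C).filter (fun x => G.con x.1 x.2) = G.cJ C := by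
    ext x
    rw [Finset.mem_filter, mem_cD66]
    unfold Tg.cJ
    rw [Finset.mem_filter]
    tauto
  have sw : ∑ x ∈ G.cI C, kp x.2 x.1 = ∑ x ∈ G.cI C, kp x.1 x.2 := by
    refine Finset.sum_nbij' (fun x => (x.2, x.1)) (fun x => (x.2, x.1)) ?_ ?_ ?_ ?_ ?_
    · intro x hx; exact swap_cD66 G hx
    · intro x hx; exact swap_cD66 G hx
    · intro x _; rfl
    · intro x _; rfl
    · intro x _; rfl
  have h0 : ∑ x ∈ G.cI C, kp x.1 x.2 = 0 := by
    have h1 : ∑ x ∈ G.cI C, kp x.2 x.1 = - ∑ x ∈ G.cI C, kp x.1 x.2 := by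
      rw [← Finset.sum_neg_distrib]
      exact Finset.sum_congr rfl fun x _ => hG.kanti _ _
    linarith
  rw [e1, ← Finset.sum_filter_add_sum_filter_not (G.cD C) (fun x => G.con x.1 x.2)
      (fun x => kp x.1 x.2), hfil, hfil2, h0, add_zero]

/-- the area of a class with five contact darts -/
theorem area5_19 (hG : G.Geo4 al kp U) {C : G.adj.ConnectedComponent} (hC : C ∈ G.iC)
    (h5 : (G.cJ C).card = 5) : ∑ x ∈ G.cD C, G.ar x.1 x.2 / 3 ≤ U 5 := by
  rw [class_area19 G hG hC]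
  obtain ⟨x, hx⟩ : (G.cJ C).Nonempty := Finset.card_pos.1 (by omega)
  obtain ⟨h1, h2⟩ := orb5_90 G hG hC h5 hx
  have hmem : ∀ i : ℕ, (sg G)^[i] x ∈ G.cJ C := by
    intro i
    induction i with
    | zero => exact hx
    | succ i ih =>
      rw [Function.iterate_succ_apply']
      exact sg_cJ90 G hG hC ih
  have hcon : ∀ y ∈ G.cJ C, y ∈ G.Dp ∧ G.con y.1 y.2 := by
    intro y hy
    unfold Tg.cJ at hy
    rw [Finset.mem_filter] at hy
    exact ⟨hy.1, hy.2.2⟩
  have hnext : ∀ i : ℕ, ((sg G)^[i + 1] x).1 = ((sg G)^[i] x).2 := by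
    intro i
    rw [Function.iterate_succ_apply']
    rfl
  have h3 : ∑ y ∈ G.cJ C, kp y.1 y.2 =
      ∑ i ∈ Finset.range 5, kp ((sg G)^[i] x).1 ((sg G)^[i + 1] x).1 := by
    conv_lhs => rw [← h1]
    rw [Finset.sum_image]
    · rw [h5]
      exact Finset.sum_congr rfl fun i _ => by rw [hnext]
    · intro i hi j hj hij
      exact orb_inj90 G h1 (Finset.mem_range.1 hi) (Finset.mem_range.1 hj) hij
  rw [h3]
  refine hG.walk (fun i => ((sg G)^[i] x).1) 5 ?_ ?_ ?_
  · rw [← h5, h2]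
    rfl
  · intro i _
    rw [hnext]
    exact G.sub (hcon _ (hmem i)).1
  · intro i _
    rw [hnext]
    exact (hcon _ (hmem i)).2

end abs

/-! ### Numbers -/

/-- the contact triangle for `d ≤ 3 / 20` -/
theorem alpha_small19 {d : ℝ} (hd : 0 < d) (h : d ≤ 3 / 20) :
    10000 * A3 (alpha d) ≤ 94 * alpha d ∧ 10439 / 10000 ≤ alpha d := by
  have hp1 := Real.pi_gt_d6
  have hp2 := Real.pi_lt_d6
  have hal := alpha_lt hd
  have hal0 := alpha_pos hd
  have hC : Real.cosh d ≤ 1011319 / 1000000 := by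
    have h1 := Real.cosh_le_exp_half_sq d
    have h2 : d ^ 2 / 2 ≤ 9 / 800 := by nlinarith
    have h3 := Real.one_sub_le_exp_neg (d ^ 2 / 2)
    have h4 : Real.exp (d ^ 2 / 2) * Real.exp (- (d ^ 2 / 2)) = 1 := by
      rw [← Real.exp_add, add_neg_cancel, Real.exp_zero]
    have h5 := Real.exp_pos (d ^ 2 / 2)
    have h6 : Real.exp (d ^ 2 / 2) ≤ Real.exp (9 / 800) := Real.exp_le_exp.2 h2
    have h7 : Real.exp (9 / 800) ≤ 1011319 / 1000000 := by
      have := Real.exp_bound' (x := 9 / 800) (by norm_num) (by norm_num) (n := 3) (by norm_num)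
      norm_num [Finset.sum_range_succ, Nat.factorial] at this
      linarith
    linarith
  have hC1 : 1 < Real.cosh d := Real.one_lt_cosh.2 hd.ne'
  have hc : Real.cos (alpha d) ≤ 502814 / 1000000 := by
    rw [cos_alpha hd, div_le_iff₀ (by linarith)]
    linarith
  have hlow : 10439 / 10000 + 3 / 100000 ≤ alpha d := by
    by_contra hcon
    push Not at hcon
    have h1 : Real.cos (2 * (10439 / 20000 + 3 / 200000)) < Real.cos (alpha d) :=
      Real.cos_lt_cos_of_nonneg_of_le_pi hal0.le (by linarith) (by linarith)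
    have h2 := cos_ge52 (t := 10439 / 20000 + 3 / 200000) (by norm_num) (by norm_num)
    have h4 : (8668404 : ℝ) / 10000000 ≤ Real.cos (10439 / 20000 + 3 / 200000) := by
      refine le_trans ?_ h2
      norm_num
    rw [Real.cos_two_mul] at h1
    have h3 := pow_le_pow_left₀ (by norm_num) h4 2
    norm_num at h3 h1
    linarith
  constructor
  · unfold A3
    linarith
  · linarith

section conc
variable {G : Tg ℍ} {d : ℝ} {kp : ℍ → ℍ → ℝ}

/-- **the excess of a pentagon class** is at most `0.99 (π / α - 3)` -/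
theorem exc_le19 (hd : 0 < d) (hG : G.Geo4 (alpha d) kp (Ust69 d))
    {C : G.adj.ConnectedComponent} (hC : C ∈ G.iC)
    (hm : (G.cT C).card = 3) (hI : (G.cI C).card = 4) :
    alpha d * exc G (alpha d) C ≤ 99 / 100 * A3 (alpha d) := by
  have h5 : (G.cJ C).card = 5 := by
    have := m_eq46 G hC
    omega
  have h1 := area5_19 G hG hC h5
  have h2 := Ust_euclid_pi69 hd (b := 5) (by norm_num)
  have hA := A3_pos69 hd
  have hal0 := alpha_pos hd
  have hp1 := Real.pi_gt_d6
  have hpi := Real.pi_pos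
  have hs3 : 17320508 / 10000000 ≤ √(3 : ℝ) := by
    rw [Real.le_sqrt (by norm_num) (by norm_num)]
    norm_num
  have h6 : (((5 : ℕ) : ℝ) ^ 2 / Real.pi - Real.pi / 3) / √3 ≤ 399 / 100 := by
    rw [div_le_iff₀ (by linarith)]
    have k4 : (((5 : ℕ) : ℝ)) ^ 2 / Real.pi ≤ 795775 / 100000 := by
      rw [div_le_iff₀ hpi]
      push_cast
      linarith
    linarith
  have h7 : Ust69 d 5 ≤ 399 / 100 * A3 (alpha d) :=
    h2.trans (mul_le_mul_of_nonneg_right h6 hA.le)
  unfold exc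
  rw [mul_div_cancel₀ _ hal0.ne', hm]
  push_cast
  linarith

/-- the numbers for `d ≤ 3 / 20` -/
theorem exc_small19 (hd : 0 < d) (h : d ≤ 3 / 20) (hG : G.Geo4 (alpha d) kp (Ust69 d))
    {C : G.adj.ConnectedComponent} (hC : C ∈ G.iC)
    (hm : (G.cT C).card = 3) (hI : (G.cI C).card = 4) :
    0 ≤ exc G (alpha d) C ∧ exc G (alpha d) C ≤ 931 / 100000 := by
  have h1 := exc_le19 hd hG hC hm hI
  obtain ⟨h2, h3⟩ := alpha_small19 hd h
  have hal0 := alpha_pos hd
  refine ⟨exc_nonneg15 G hG hC, ?_⟩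
  by_contra hc
  push Not at hc
  have := mul_lt_mul_of_pos_left hc hal0
  linarith

end conc

end

end Pool.Agent.PEN.E5
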