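import Pool.Agent.E5.Hq19
import Pool.Agent.E5.Sg19

/-! # PENNY: chains of four sides, one corner being a rhombus diagonal

The distance of the ends of a chain of four sides as a function of its three angles. If the angle at
an end is `2 π - 2 α` (a leaf with five units) the chord is computed with the long diagonal of the
rhombus of two contact triangles. -/

set_option autoImplicit false

namespace Pool.Agent.PEN

open Classical UpperHalfPlane
open Pool.Agent.PEN.Cl Pool.Agent.PEN.E5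

noncomputable section

theorem sin_ang_comm19 (v a b : ℍ) : Real.sin (ang v b a) = - Real.sin (ang v a b) := by
  have h1 : ang v b a = if ang v a b = Real.pi then Real.pi else - ang v a b := by
    unfold ang
    have e : Dv v a / Dv v b = (Dv v b / Dv v a)⁻¹ := by
      rw [inv_div]
    rw [e, Complex.arg_inv]
  by_cases h : ang v a b = Real.pi
  · rw [h1, if_pos h, h, Real.sin_pi, neg_zero]
  · rw [h1, if_neg h, Real.sin_neg]

/-- the chord of four sides -/
def F4_19 (d x y z : ℝ) : ℝ :=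
  (Real.cosh d ^ 2 - Real.sinh d ^ 2 * Real.cos x) * (Real.cosh d ^ 2 - Real.sinh d ^ 2 * Real.cos z) -
    Real.sinh d ^ 2 * ((Real.cosh d ^ 2 * ((1 - Real.cos x) * (1 - Real.cos z)) -
      Real.sin x * Real.sin z) * Real.cos y +
      Real.cosh d * ((1 - Real.cos x) * Real.sin z + (1 - Real.cos z) * Real.sin x) * Real.sin y)

theorem F4_comm19 (d x y z : ℝ) : F4_19 d x y z = F4_19 d z y x := by
  unfold F4_19
  ring

/-- **a chain of four sides** -/
theorem chain4_19 {d : ℝ} (hd : 0 < d) {P0 P1 P2 P3 P4 : ℍ} {x y z : ℝ} (h01 : dist P0 P1 = d)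
    (h12 : dist P1 P2 = d) (h23 : dist P2 P3 = d) (h34 : dist P3 P4 = d) (n0 : P0 ≠ P2)
    (n4 : P4 ≠ P2) (ex : ((ang P1 P2 P0 : ℝ) : Real.Angle) = ((x : ℝ) : Real.Angle))
    (ey : ((ang P2 P3 P1 : ℝ) : Real.Angle) = ((y : ℝ) : Real.Angle))
    (ez : ((ang P3 P4 P2 : ℝ) : Real.Angle) = ((z : ℝ) : Real.Angle)) :
    Real.cosh (dist P0 P4) = F4_19 d x y z := by
  have m10 : P0 ≠ P1 := ne63 hd (by rw [dist_comm]; exact h01.ge)
  have m12 : P2 ≠ P1 := ne63 hd h12.ge
  have m32 : P2 ≠ P3 := ne63 hd (by rw [dist_comm]; exact h23.ge)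
  have m34 : P4 ≠ P3 := ne63 hd h34.ge
  -- `P0` seen from `P2`
  have a1 := fr_cosh63 (p := P1) (q := P2) (a := P0) m12 m10
  have a2 := fr_cos63 (p := P1) (q := P2) (a := P0) m12 m10 n0
  have a3 := fr_sin63 (p := P1) (q := P2) (a := P0) m12 m10 n0
  rw [h12, dist_comm P1 P0, h01, (cos_coe63 ex).1] at a1 a2
  rw [dist_comm P1 P0, h01, (cos_coe63 ex).2] at a3
  -- `P4` seen from `P2`
  have b1 := fr_cosh63 (p := P3) (q := P2) (a := P4) m32 m34
  have b2 := fr_cos63 (p := P3) (q := P2) (a := P4) m32 m34 n4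
  have b3 := fr_sin63 (p := P3) (q := P2) (a := P4) m32 m34 n4
  rw [dist_comm P3 P2, h23, h34, cos_ang_comm63 m32 m34, (cos_coe63 ez).1] at b1 b2
  rw [h34, sin_ang_comm19 P3 P4 P2, (cos_coe63 ez).2] at b3
  -- the angle at `P2`
  have r1 := fr_rot63 (p := P2) (x := P4) (y := P3) (a := P0) n4 m32.symm n0
  have r2 := fr_rot63 (p := P2) (x := P3) (y := P1) (a := P0) m32.symm m12.symm n0
  have l := cosh_law n4 n0
  rw [r1.1, r2.1, r2.2, (cos_coe63 ey).1, (cos_coe63 ey).2, sin_ang_comm19 P2 P3 P4,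
    cos_ang_comm63 (v := P2) n4 m32.symm] at l
  rw [dist_comm P0 P4, l]
  unfold F4_19
  obtain ⟨c4, hc4⟩ : ∃ t, t = Real.cos (ang P2 P3 P4) := ⟨_, rfl⟩
  obtain ⟨s4, hs4⟩ : ∃ t, t = Real.sin (ang P2 P3 P4) := ⟨_, rfl⟩
  obtain ⟨c0, hc0⟩ : ∃ t, t = Real.cos (ang P2 P1 P0) := ⟨_, rfl⟩
  obtain ⟨s0, hs0⟩ : ∃ t, t = Real.sin (ang P2 P1 P0) := ⟨_, rfl⟩
  rw [← hc4] at b2 ⊢
  rw [← hs4] at b3 ⊢
  rw [← hc0] at a2 ⊢
  rw [← hs0] at a3 ⊢
  rw [a1, b1]
  linear_combination
    (-(Real.cos y) * Real.sinh (dist P2 P4) * c4 - Real.sin y * Real.sinh (dist P2 P4) * s4) * a2 +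
    (Real.sin y * Real.sinh (dist P2 P4) * c4 - Real.cos y * Real.sinh (dist P2 P4) * s4) * a3 +
    (-(Real.cos y) * (Real.sinh d * Real.cosh d - Real.cosh d * (Real.sinh d * Real.cos x)) -
      Real.sin y * (Real.sinh d * Real.sin x)) * b2 +
    (-(Real.sin y) * (Real.sinh d * Real.cosh d - Real.cosh d * (Real.sinh d * Real.cos x)) +
      Real.cos y * (Real.sinh d * Real.sin x)) * b3

/-! ### The rhombus diagonal -/

/-- `cosh` of the long diagonal of the rhombus of two contact triangles -/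
def CA19 (d : ℝ) : ℝ := Real.cosh d ^ 2 - Real.sinh d ^ 2 * Real.cos (2 * alpha d)

/-- `sinh` of the same diagonal -/
def AA19 (d : ℝ) : ℝ := 4 * Real.sinh d * Real.cos (alpha d) * Real.cos (alpha d / 2)

section reals
variable {d : ℝ}

theorem cC19 (hd : 0 < d) : Real.cosh d * (1 - Real.cos (alpha d)) = Real.cos (alpha d) := by
  have hC : 1 < Real.cosh d := Real.one_lt_cosh.2 hd.ne'
  have hne : Real.cosh d + 1 ≠ 0 := by linarith
  rw [cos_alpha hd]
  field_simp
  ring

theorem CA_eq19 (hd : 0 < d) : CA19 d = 4 * Real.cos (alpha d) * Real.cosh d - 1 := by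
  have h := cC19 hd
  unfold CA19
  rw [Real.cos_two_mul, sinhsq_19 d]
  linear_combination (2 * Real.cosh d * (1 + Real.cos (alpha d)) - 2 * Real.cos (alpha d)) * h

theorem ch2_19 (d : ℝ) : 2 * Real.cos (alpha d / 2) ^ 2 = 1 + Real.cos (alpha d) := by
  have := Real.cos_two_mul (alpha d / 2)
  rw [show 2 * (alpha d / 2) = alpha d by ring] at this
  linarith

theorem sh2_19 (d : ℝ) : 2 * Real.sin (alpha d / 2) ^ 2 = 1 - Real.cos (alpha d) := by
  have h1 := ch2_19 d
  have h2 := Real.sin_sq_add_cos_sq (alpha d / 2)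
  linarith

theorem csh19 (d : ℝ) : 2 * Real.sin (alpha d / 2) * Real.cos (alpha d / 2) = Real.sin (alpha d) := by
  have := Real.sin_two_mul (alpha d / 2)
  rw [show 2 * (alpha d / 2) = alpha d by ring] at this
  linarith

theorem AA_cos19 (hd : 0 < d) : AA19 d * Real.cos (alpha d / 2) =
    Real.sinh d * Real.cosh d * (1 - Real.cos (2 * alpha d)) := by
  have h := cC19 hd
  have h1 := ch2_19 d
  unfold AA19
  rw [Real.cos_two_mul]
  linear_combination 2 * Real.sinh d * Real.cos (alpha d) * h1 -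
    2 * Real.sinh d * (1 + Real.cos (alpha d)) * h

theorem AA_sin19 (d : ℝ) : AA19 d * Real.sin (alpha d / 2) =
    Real.sinh d * Real.sin (2 * alpha d) := by
  have h1 := csh19 d
  unfold AA19
  rw [Real.sin_two_mul]
  linear_combination 2 * Real.sinh d * Real.cos (alpha d) * h1

theorem AA_sq19 (hd : 0 < d) : AA19 d ^ 2 = CA19 d ^ 2 - 1 := by
  have h := cC19 hd
  have h1 := ch2_19 d
  rw [CA_eq19 hd]
  unfold AA19
  have h2 := sinhsq_19 d
  have e : (4 * Real.sinh d * Real.cos (alpha d) * Real.cos (alpha d / 2)) ^ 2 =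
      8 * Real.sinh d ^ 2 * Real.cos (alpha d) ^ 2 * (2 * Real.cos (alpha d / 2) ^ 2) := by ring
  rw [e, h1, h2]
  linear_combination 8 * Real.cos (alpha d) *
    (1 + Real.cos (alpha d) - Real.cosh d * Real.cos (alpha d)) * h

theorem AA_val19 (d : ℝ) : AA19 d ^ 2 =
    8 * Real.sinh d ^ 2 * Real.cos (alpha d) ^ 2 * (1 + Real.cos (alpha d)) := by
  have h1 := ch2_19 d
  unfold AA19
  linear_combination 8 * Real.sinh d ^ 2 * Real.cos (alpha d) ^ 2 * h1

/-- the diagonal at an end of the chain -/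
theorem F4_end19 (hd : 0 < d) {X θ t0 : ℝ} (h1 : Real.cos t0 = Real.cos (2 * alpha d))
    (h2 : Real.sin t0 = - Real.sin (2 * alpha d)) :
    F4_19 d X θ t0 = CA19 d * (Real.cosh d ^ 2 - Real.sinh d ^ 2 * Real.cos X) -
      AA19 d * Real.sinh d * (Real.cosh d * Real.cos (θ + alpha d / 2) * (1 - Real.cos X) +
        Real.sin (θ + alpha d / 2) * Real.sin X) := by
  have A1 := AA_cos19 hd
  have A2 := AA_sin19 d
  rw [Real.cos_add, Real.sin_add]
  unfold F4_19
  rw [h1, h2]
  have e : CA19 d = Real.cosh d ^ 2 - Real.sinh d ^ 2 * Real.cos (2 * alpha d) := rfl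
  rw [e]
  linear_combination
    Real.sinh d * (Real.cosh d * (1 - Real.cos X) * Real.cos θ + Real.sin X * Real.sin θ) * A1 +
    Real.sinh d * (Real.sin X * Real.cos θ - Real.cosh d * (1 - Real.cos X) * Real.sin θ) * A2

/-- the diagonal in the middle of the chain -/
theorem F4_mid19 (hd : 0 < d) {x y t0 : ℝ} (h1 : Real.cos t0 = Real.cos (2 * alpha d))
    (h2 : Real.sin t0 = - Real.sin (2 * alpha d)) :
    F4_19 d x t0 y = Real.cosh d ^ 2 * CA19 d - Real.cosh d * Real.sinh d * AA19 d *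
      (Real.cos (x + alpha d / 2) + Real.cos (y + alpha d / 2)) +
      Real.sinh d ^ 2 * (CA19 d * (Real.cos (x + alpha d / 2) * Real.cos (y + alpha d / 2)) -
        Real.sin (x + alpha d / 2) * Real.sin (y + alpha d / 2)) := by
  have A1 := AA_cos19 hd
  have A2 := AA_sin19 d
  have hCA := CA_eq19 hd
  have h := cC19 hd
  have hca := ch2_19 d
  have hsa := sh2_19 d
  have hcs := csh19 d
  have hS := sinhsq_19 d
  have hk : Real.cos (2 * alpha d) = 2 * Real.cos (alpha d) ^ 2 - 1 := Real.cos_two_mul _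
  have hm : Real.sin (2 * alpha d) = 2 * Real.sin (alpha d) * Real.cos (alpha d) :=
    Real.sin_two_mul _
  have r1 : CA19 d * Real.cos (alpha d / 2) ^ 2 - Real.sin (alpha d / 2) ^ 2 =
      Real.sinh d ^ 2 - Real.cosh d ^ 2 * Real.cos (2 * alpha d) := by
    rw [hS, hk]
    linear_combination Real.cos (alpha d / 2) ^ 2 * hCA +
      (4 * Real.cos (alpha d) * Real.cosh d - 1) / 2 * hca - 1 / 2 * hsa -
      2 * Real.cosh d * (1 + Real.cos (alpha d)) * h
  have r2 : CA19 d * Real.sin (alpha d / 2) ^ 2 - Real.cos (alpha d / 2) ^ 2 =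
      Real.cos (2 * alpha d) := by
    rw [hk]
    linear_combination Real.sin (alpha d / 2) ^ 2 * hCA +
      (4 * Real.cos (alpha d) * Real.cosh d - 1) / 2 * hsa - 1 / 2 * hca +
      2 * Real.cos (alpha d) * h
  have r3 : (CA19 d + 1) * (Real.cos (alpha d / 2) * Real.sin (alpha d / 2)) =
      Real.cosh d * Real.sin (2 * alpha d) := by
    rw [hm]
    linear_combination (Real.cos (alpha d / 2) * Real.sin (alpha d / 2)) * hCA +
      2 * Real.cos (alpha d) * Real.cosh d * hcs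
  rw [Real.cos_add, Real.cos_add, Real.sin_add, Real.sin_add]
  unfold F4_19
  rw [h1, h2]
  have e : CA19 d = Real.cosh d ^ 2 - Real.sinh d ^ 2 * Real.cos (2 * alpha d) := rfl
  linear_combination
    Real.cosh d * Real.sinh d * (Real.cos x + Real.cos y) * A1 -
    Real.cosh d * Real.sinh d * (Real.sin x + Real.sin y) * A2 -
    Real.sinh d ^ 2 * (Real.cos x * Real.cos y) * r1 -
    Real.sinh d ^ 2 * (Real.sin x * Real.sin y) * r2 +
    Real.sinh d ^ 2 * (Real.cos x * Real.sin y + Real.sin x * Real.cos y) * r3 -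
    Real.cosh d ^ 2 * e

/-- numbers of the contact triangle for `d ≤ 3 / 20` -/
theorem cos_rg19 (hd : 0 < d) (h : d ≤ 3 / 20) :
    1 / 2 ≤ Real.cos (alpha d) ∧ Real.cos (alpha d) ≤ 5029 / 10000 ∧
      866 / 1000 ≤ Real.cos (alpha d / 2) ∧ Real.cos (alpha d / 2) ≤ 8669 / 10000 := by
  have hal := alpha_lt hd
  have hal0 := alpha_pos hd
  have hp := Real.pi_pos
  have hC : Real.cosh d ≤ 1011319 / 1000000 := by
    have h1 := Real.cosh_le_exp_half_sq d
    have h2 : d ^ 2 / 2 ≤ 9 / 800 := by nlinarith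
    have h6 : Real.exp (d ^ 2 / 2) ≤ Real.exp (9 / 800) := Real.exp_le_exp.2 h2
    have h7 : Real.exp (9 / 800) ≤ 1011319 / 1000000 := by
      have := Real.exp_bound' (x := 9 / 800) (by norm_num) (by norm_num) (n := 3) (by norm_num)
      norm_num [Finset.sum_range_succ, Nat.factorial] at this
      linarith
    linarith
  have hC1 : 1 < Real.cosh d := Real.one_lt_cosh.2 hd.ne'
  have c1 : 1 / 2 ≤ Real.cos (alpha d) := by
    rw [cos_alpha hd, le_div_iff₀ (by linarith)]
    linarith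
  have c2 : Real.cos (alpha d) ≤ 5029 / 10000 := by
    rw [cos_alpha hd, div_le_iff₀ (by linarith)]
    linarith
  have h2 := ch2_19 d
  have h3 : 0 ≤ Real.cos (alpha d / 2) :=
    Real.cos_nonneg_of_neg_pi_div_two_le_of_le (by linarith) (by linarith)
  refine ⟨c1, c2, ?_, ?_⟩
  · by_contra hc
    push Not at hc
    nlinarith
  · by_contra hc
    push Not at hc
    nlinarith

/-- moving the turn to the diagonal makes the chain longer -/
theorem end_move19 (hd : 0 < d) (h : d ≤ 3 / 20) {X Y δ : ℝ} (hX : 2 * alpha d ≤ X - δ)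
    (hX1 : X ≤ 3 * alpha d) (hY : 3 / 2 * alpha d ≤ Y) (hδ : 0 ≤ δ)
    (hY1 : Y + δ ≤ 2 * alpha d) :
    CA19 d * (Real.cosh d ^ 2 - Real.sinh d ^ 2 * Real.cos X) -
      AA19 d * Real.sinh d * (Real.cosh d * Real.cos Y * (1 - Real.cos X) +
        Real.sin Y * Real.sin X) ≤
    CA19 d * (Real.cosh d ^ 2 - Real.sinh d ^ 2 * Real.cos (X - δ)) -
      AA19 d * Real.sinh d * (Real.cosh d * Real.cos (Y + δ) * (1 - Real.cos (X - δ)) +
        Real.sin (Y + δ) * Real.sin (X - δ)) := by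
  have hal := alpha_lt hd
  have hal0 := alpha_pos hd
  have hp := Real.pi_pos
  obtain ⟨c1, c2, c3, c4⟩ := cos_rg19 hd h
  obtain ⟨-, ha⟩ := alpha_small19 hd h
  have hp2 := Real.pi_lt_d6
  have hS : 0 < Real.sinh d := Real.sinh_pos_iff.2 hd
  have hC1 : 1 < Real.cosh d := Real.one_lt_cosh.2 hd.ne'
  have hcC := cC19 hd
  have hCA := CA_eq19 hd
  have hC2 : Real.cosh d ≤ 1012 / 1000 := by nlinarith
  have hAA : AA19 d = 4 * Real.sinh d * Real.cos (alpha d) * Real.cos (alpha d / 2) := rfl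
  have hAA0 : 0 ≤ AA19 d := by
    rw [hAA]
    have : 0 ≤ Real.cos (alpha d) := by linarith
    have : 0 ≤ Real.cos (alpha d / 2) := by linarith
    positivity
  -- the differences
  have e1 : Real.cos X - Real.cos (X - δ) = - (2 * Real.sin (X - δ / 2) * Real.sin (δ / 2)) := by
    rw [Real.cos_sub_cos]
    rw [show (X + (X - δ)) / 2 = X - δ / 2 by ring, show (X - (X - δ)) / 2 = δ / 2 by ring]
    ring
  have e2 : Real.cos Y - Real.cos (Y + δ) = 2 * Real.sin (Y + δ / 2) * Real.sin (δ / 2) := by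
    rw [Real.cos_sub_cos]
    rw [show (Y + (Y + δ)) / 2 = Y + δ / 2 by ring, show (Y - (Y + δ)) / 2 = - (δ / 2) by ring,
      Real.sin_neg]
    ring
  have e3 : Real.cosh d * (Real.cos (Y + δ) * Real.cos (X - δ)) -
      Real.sin (Y + δ) * Real.sin (X - δ) - (Real.cosh d * (Real.cos Y * Real.cos X) -
        Real.sin Y * Real.sin X) =
      (Real.cosh d - 1) / 2 * (Real.cos (X - δ - (Y + δ)) - Real.cos (X - Y)) := by
    have k1 : Real.cos (X - δ) * Real.cos (Y + δ) - Real.sin (X - δ) * Real.sin (Y + δ) =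
        Real.cos X * Real.cos Y - Real.sin X * Real.sin Y := by
      rw [← Real.cos_add, ← Real.cos_add]
      ring_nf
    rw [Real.cos_sub (X - δ), Real.cos_sub X Y]
    linear_combination (Real.cosh d + 1) / 2 * k1
  have s0 : 0 ≤ Real.sin (δ / 2) :=
    Real.sin_nonneg_of_nonneg_of_le_pi (by linarith) (by linarith)
  have s1 : 0 ≤ Real.sin (X - δ / 2) :=
    Real.sin_nonneg_of_nonneg_of_le_pi (by linarith) (by linarith)
  have s2 : Real.sin (X - δ / 2) ≤ Real.sin (Y + δ / 2) := by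
    have k1 : Real.sin (X - δ / 2) = Real.cos (X - δ / 2 - Real.pi / 2) := by
      rw [Real.cos_sub_pi_div_two]
    rw [k1]
    rcases le_total (Real.pi / 2) (Y + δ / 2) with hy | hy
    · have k2 : Real.sin (Y + δ / 2) = Real.cos (Y + δ / 2 - Real.pi / 2) := by
        rw [Real.cos_sub_pi_div_two]
      rw [k2]
      exact Real.cos_le_cos_of_nonneg_of_le_pi (by linarith) (by linarith) (by linarith)
    · have k2 : Real.sin (Y + δ / 2) = Real.cos (Real.pi / 2 - (Y + δ / 2)) := by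
        rw [Real.cos_pi_div_two_sub]
      rw [k2]
      exact Real.cos_le_cos_of_nonneg_of_le_pi (by linarith) (by linarith) (by linarith)
  have m1 : Real.cos (X - Y) ≤ Real.cos (X - δ - (Y + δ)) := by
    rw [← Real.cos_abs (X - δ - (Y + δ))]
    refine Real.cos_le_cos_of_nonneg_of_le_pi (abs_nonneg _) (by linarith) ?_
    rw [abs_le]
    constructor <;> linarith
  -- the coefficients
  have q1 : CA19 d * Real.sinh d ≤ AA19 d * Real.cosh d := by
    rw [hCA, hAA]
    have k1 : 0 ≤ 1 - 4 * Real.cos (alpha d) * Real.cosh d * (1 - Real.cos (alpha d / 2)) := by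
      have k2 : Real.cos (alpha d) * Real.cosh d ≤ 5029 / 10000 * (1012 / 1000) :=
        mul_le_mul c2 hC2 (by linarith) (by norm_num)
      have k3 : 0 ≤ 1 - Real.cos (alpha d / 2) := by linarith
      have k4 := mul_le_mul_of_nonneg_right k2 k3
      nlinarith
    have k5 := mul_nonneg hS.le k1
    linarith
  have q2 : CA19 d * Real.sinh d * Real.sin (X - δ / 2) ≤
      AA19 d * Real.cosh d * Real.sin (Y + δ / 2) :=
    mul_le_mul q1 s2 s1 (mul_nonneg hAA0 (by linarith))
  have q3 : 0 ≤ 2 * Real.sinh d * Real.sin (δ / 2) *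
      (AA19 d * Real.cosh d * Real.sin (Y + δ / 2) - CA19 d * Real.sinh d * Real.sin (X - δ / 2)) :=
    mul_nonneg (by positivity) (by linarith)
  have q4 : 0 ≤ AA19 d * Real.sinh d * ((Real.cosh d - 1) / 2 *
      (Real.cos (X - δ - (Y + δ)) - Real.cos (X - Y))) :=
    mul_nonneg (mul_nonneg hAA0 hS.le) (mul_nonneg (by linarith) (by linarith))
  rw [← e3] at q4
  have q5 : CA19 d * (Real.cosh d ^ 2 - Real.sinh d ^ 2 * Real.cos (X - δ)) -
      AA19 d * Real.sinh d * (Real.cosh d * Real.cos (Y + δ) * (1 - Real.cos (X - δ)) +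
        Real.sin (Y + δ) * Real.sin (X - δ)) -
      (CA19 d * (Real.cosh d ^ 2 - Real.sinh d ^ 2 * Real.cos X) -
      AA19 d * Real.sinh d * (Real.cosh d * Real.cos Y * (1 - Real.cos X) +
        Real.sin Y * Real.sin X)) =
      CA19 d * Real.sinh d ^ 2 * (Real.cos X - Real.cos (X - δ)) +
      AA19 d * Real.sinh d * Real.cosh d * (Real.cos Y - Real.cos (Y + δ)) +
      AA19 d * Real.sinh d * (Real.cosh d * (Real.cos (Y + δ) * Real.cos (X - δ)) -
      Real.sin (Y + δ) * Real.sin (X - δ) - (Real.cosh d * (Real.cos Y * Real.cos X) -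
        Real.sin Y * Real.sin X)) := by ring
  rw [e1, e2] at q5
  have q6 : CA19 d * Real.sinh d ^ 2 * (- (2 * Real.sin (X - δ / 2) * Real.sin (δ / 2))) +
      AA19 d * Real.sinh d * Real.cosh d * (2 * Real.sin (Y + δ / 2) * Real.sin (δ / 2)) =
      2 * Real.sinh d * Real.sin (δ / 2) *
      (AA19 d * Real.cosh d * Real.sin (Y + δ / 2) - CA19 d * Real.sinh d * Real.sin (X - δ / 2)) := by
    ring
  linarith

/-- the value at the end -/
theorem end_val19 (hd : 0 < d) (Y : ℝ) :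
    CA19 d * (Real.cosh d ^ 2 - Real.sinh d ^ 2 * Real.cos (2 * alpha d)) -
      AA19 d * Real.sinh d * (Real.cosh d * Real.cos Y * (1 - Real.cos (2 * alpha d)) +
        Real.sin Y * Real.sin (2 * alpha d)) =
    1 + AA19 d ^ 2 * (1 - Real.cos (Y - alpha d / 2)) := by
  have A1 := AA_cos19 hd
  have A2 := AA_sin19 d
  have A3 := AA_sq19 hd
  rw [Real.cos_sub]
  have e : Real.cosh d ^ 2 - Real.sinh d ^ 2 * Real.cos (2 * alpha d) = CA19 d := rfl
  rw [e]
  linear_combination (AA19 d * Real.cos Y) * A1 + (AA19 d * Real.sin Y) * A2 - A3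

end reals

end

end Pool.Agent.PEN
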