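import Pool.Agent.E5.Hh54
import Pool.Agent.E5.Fan2

/-! # PENNY: the price identity of a hole and the complete list of the expensive holes

`cost = 13 wx + 16 l + 4 n3 = 10 - 2 n2 - 10 (l + n3 - n1)`, and `n1 + p ≤ l + n3` with `p` the
number of adjacent pairs of sectors of run at least three. -/

set_option autoImplicit false

namespace Pool.Agent.PEN.E5

open Classical UpperHalfPlane
open Pool.Agent.PEN.Cl

noncomputable section

variable {V : Type} (G : Tg V) {al : ℝ} {kp : V → V → ℝ} {U : ℕ → ℝ}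

/-- the sectors of run at least three -/
def Bg54 (K : (cg G).ConnectedComponent) : Finset (V × V) := (kS G K).filter (fun x => 3 ≤ rn G x)

/-- the adjacent pairs -/
def Pg54 (K : (cg G).ConnectedComponent) : Finset (V × V) :=
  (kS G K).filter (fun x => 3 ≤ rn G x ∧ 3 ≤ rn G (nx G x))

theorem big54 (hG : G.Geo4 al kp U) {K : (cg G).ConnectedComponent}
    {S : Finset (V × V)} (hS : S ⊆ kS G K) (hS4 : ∀ x ∈ S, rn G x = 4)
    (h3 : ∀ x ∈ kS G K, x ∉ S → rn G x ≤ 3) :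
    (Bg54 G K).card = nr54 G K 3 + S.card ∧
      ∑ x ∈ Bg54 G K, (4 - (rn G x : ℤ)) = nr54 G K 3 := by
  have e1 : Bg54 G K = (kS G K).filter (fun x => rn G x = 3) ∪ S := by
    ext x
    unfold Bg54
    rw [Finset.mem_filter, Finset.mem_union, Finset.mem_filter]
    constructor
    · rintro ⟨k1, k2⟩
      by_cases k3 : x ∈ S
      · exact Or.inr k3
      · have := h3 x k1 k3
        exact Or.inl ⟨k1, by omega⟩
    · rintro (⟨k1, k2⟩ | k1)
      · exact ⟨k1, by omega⟩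
      · have := hS4 x k1
        exact ⟨hS k1, by omega⟩
  have e2 : Disjoint ((kS G K).filter (fun x => rn G x = 3)) S := by
    rw [Finset.disjoint_left]
    intro x k1 k2
    have k3 := (Finset.mem_filter.1 k1).2
    have k4 := hS4 x k2
    omega
  constructor
  · rw [e1, Finset.card_union_of_disjoint e2]
    rfl
  · rw [e1, Finset.sum_union e2, Finset.sum_congr rfl (g := fun _ => (1 : ℤ)),
      Finset.sum_congr (s₁ := S) rfl (g := fun _ => (0 : ℤ)), Finset.sum_const_zero,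
      Finset.sum_const, add_zero, nsmul_eq_mul, mul_one]
    · rfl
    · intro x hx
      rw [hS4 x hx]
      norm_num
    · intro x hx
      rw [(Finset.mem_filter.1 hx).2]
      norm_num

/-- **ears, stoppers and adjacent stoppers** -/
theorem ears_pairs54 (hG : G.Geo4 al kp U) {K : (cg G).ConnectedComponent} (ht : 2 ≤ tK G K)
    (hd : (kS G K).card = tK G K + 2) {S : Finset (V × V)} (hS : S ⊆ kS G K)
    (hS4 : ∀ x ∈ S, rn G x = 4) (h3 : ∀ x ∈ kS G K, x ∉ S → rn G x ≤ 3)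
    (h2 : 2 ≤ S.card + nr54 G K 3) :
    nr54 G K 1 + (Pg54 G K).card ≤ S.card + nr54 G K 3 := by
  obtain ⟨c1, c2, _⟩ := nums54 G hG ht hd hS hS4 h3
  obtain ⟨b1, b2⟩ := big54 G hG hS hS4 h3
  have hsub : Bg54 G K ⊆ kS G K := Finset.filter_subset _ _
  have h := fan2 G hG K hsub (by omega)
  rw [b2, b1, hd] at h
  have hp : pr2 G K (Bg54 G K) = Pg54 G K := by
    have hst : st2 G K (Bg54 G K) = Bg54 G K := by
      ext x
      rw [mem_st2]
      unfold Bg54
      rw [Finset.mem_filter]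
      tauto
    unfold pr2
    rw [hst]
    ext x
    unfold Pg54 Bg54
    rw [Finset.mem_filter, Finset.mem_filter, Finset.mem_filter, Finset.mem_filter]
    constructor
    · rintro ⟨⟨k1, k2⟩, k3, k4⟩
      exact ⟨k1, k2, k4⟩
    · rintro ⟨k1, k2, k3⟩
      exact ⟨⟨k1, k2⟩, nx_kS89 G hG k1, k3⟩
  rw [hp] at h
  push_cast at h
  omega

/-- **the price identity** of a hole -/
theorem cost_id54 (hG : G.Geo4 al kp U) {K : (cg G).ConnectedComponent} (ht : 2 ≤ tK G K)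
    (hd : (kS G K).card = tK G K + 2) {S : Finset (V × V)} (hS : S ⊆ kS G K)
    (hS4 : ∀ x ∈ S, rn G x = 4) (h3 : ∀ x ∈ kS G K, x ∉ S → rn G x ≤ 3) :
    13 * wx G (14 / 13) K + 16 * (S.card : ℝ) + 4 * (nr54 G K 3 : ℝ) =
      10 - 2 * nr54 G K 2 - 10 * ((S.card : ℝ) + nr54 G K 3 - nr54 G K 1) := by
  obtain ⟨c1, c2, _⟩ := nums54 G hG ht hd hS hS4 h3
  have d1 : (tK G K : ℝ) + 2 = nr54 G K 1 + nr54 G K 2 + nr54 G K 3 + S.card := by exact_mod_cast c1
  have d2 : 2 * (nr54 G K 1 : ℝ) + nr54 G K 2 = 6 + S.card := by exact_mod_cast c2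
  rw [wx13_disc54 G hd]
  linarith

/-- **a hole with two adjacent sectors of run at least three costs nothing** (each pair: `-10`) -/
theorem cost_pairs54 (hG : G.Geo4 al kp U) {K : (cg G).ConnectedComponent} (ht : 2 ≤ tK G K)
    (hd : (kS G K).card = tK G K + 2) {S : Finset (V × V)} (hS : S ⊆ kS G K)
    (hS4 : ∀ x ∈ S, rn G x = 4) (h3 : ∀ x ∈ kS G K, x ∉ S → rn G x ≤ 3)
    (h2 : 2 ≤ S.card + nr54 G K 3) :
    13 * wx G (14 / 13) K + 16 * (S.card : ℝ) + 4 * (nr54 G K 3 : ℝ) ≤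
      10 - 2 * nr54 G K 2 - 10 * (Pg54 G K).card := by
  have h := ears_pairs54 G hG ht hd hS hS4 h3 h2
  have h' : (nr54 G K 1 : ℝ) + (Pg54 G K).card ≤ S.card + nr54 G K 3 := by exact_mod_cast h
  rw [cost_id54 G hG ht hd hS hS4 h3]
  linarith

/-- **the expensive holes**, complete list: words V1 - V8 of T1a by their numbers -/
theorem cost_list54 (hG : G.Geo4 al kp U) {K : (cg G).ConnectedComponent}
    (hd : (kS G K).card = tK G K + 2) {S : Finset (V × V)} (hS : S ⊆ kS G K)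
    (hS4 : ∀ x ∈ S, rn G x = 4) (h3 : ∀ x ∈ kS G K, x ∉ S → rn G x ≤ 3) (hS2 : 2 ≤ S.card)
    (hc : 0 < 13 * wx G (14 / 13) K + 16 * (S.card : ℝ) + 4 * (nr54 G K 3 : ℝ)) :
    tK G K = S.card + 4 ∧ nr54 G K 1 = S.card + nr54 G K 3 ∧ Pg54 G K = ∅ ∧
      ((S.card = 2 ∧ nr54 G K 3 = 0 ∧ nr54 G K 2 = 4) ∨
        (S.card = 2 ∧ nr54 G K 3 = 1 ∧ nr54 G K 2 = 2) ∨
        (S.card = 2 ∧ nr54 G K 3 = 2 ∧ nr54 G K 2 = 0) ∨
        (S.card = 3 ∧ nr54 G K 3 = 0 ∧ nr54 G K 2 = 3) ∨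
        (S.card = 3 ∧ nr54 G K 3 = 1 ∧ nr54 G K 2 = 1) ∨
        (S.card = 4 ∧ nr54 G K 3 = 0 ∧ nr54 G K 2 = 2)) := by
  obtain ⟨s, hs⟩ := Finset.card_pos.1 (by omega : 0 < S.card)
  have ht := rn_le_tK63 G hG ((mem_kS42 G).1 (hS hs)).1
  rw [((mem_kS42 G).1 (hS hs)).2, hS4 s hs] at ht
  obtain ⟨c1, c2, c3, c4, c5, ⟨k, c6⟩, c7⟩ := nums54 G hG (K := K) (by omega) hd hS hS4 h3
  have c8 := ears_pairs54 G hG (K := K) (by omega) hd hS hS4 h3 (by omega)
  rw [cost_id54 G hG (K := K) (by omega) hd hS hS4 h3] at hc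
  have c9 : 2 * nr54 G K 2 + 10 * (S.card + nr54 G K 3) < 10 + 10 * nr54 G K 1 := by
    have : 2 * (nr54 G K 2 : ℝ) + 10 * (S.card + nr54 G K 3) < 10 + 10 * nr54 G K 1 := by linarith
    exact_mod_cast this
  have e1 : (Pg54 G K).card = 0 := by omega
  have e2 : nr54 G K 1 = S.card + nr54 G K 3 := by omega
  have e3 : S.card + 2 * nr54 G K 3 + nr54 G K 2 = 6 := by omega
  refine ⟨by omega, e2, Finset.card_eq_zero.1 e1, ?_⟩
  have hk : k = 0 ∨ k = 1 ∨ 2 ≤ k := by omega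
  have hS6 : S.card = 2 ∨ S.card = 3 ∨ S.card = 4 ∨ S.card = 5 ∨ S.card = 6 := by omega
  rcases hS6 with h | h | h | h | h <;> rcases hk with hk | hk | hk <;> omega

/-- **one leaf**: the fan (14), five triangles (4 or 8), everything else at most `-2` -/
theorem one_list54 (hG : G.Geo4 al kp U) {K : (cg G).ConnectedComponent}
    (hd : (kS G K).card = tK G K + 2) {x : V × V} (hx : x ∈ kS G K)
    (hx4 : rn G x = 4) (h3 : ∀ y ∈ kS G K, y ≠ x → rn G y ≤ 3) :
    (tK G K = 4 ∧ nr54 G K 3 = 0 ∧ u54 G x = 2) ∨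
      (tK G K = 5 ∧ nr54 G K 1 = 2 ∧ nr54 G K 3 = 1 ∧ 1 ≤ u54 G x ∧
        13 * wx G (14 / 13) K + 16 + 4 * (nr54 G K 3 : ℝ) = 4) ∨
      (tK G K = 5 ∧ nr54 G K 1 = 3 ∧ nr54 G K 3 = 2 ∧ u54 G x = 2 ∧
        13 * wx G (14 / 13) K + 16 + 4 * (nr54 G K 3 : ℝ) = 8) ∨
      (6 ≤ tK G K ∧ 13 * wx G (14 / 13) K + 16 + 4 * (nr54 G K 3 : ℝ) ≤ -2) := by
  have ht := rn_le_tK63 G hG ((mem_kS42 G).1 hx).1
  rw [((mem_kS42 G).1 hx).2, hx4] at ht
  have hS4 : ∀ y ∈ ({x} : Finset (V × V)), rn G y = 4 :=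
    fun y hy => by rw [Finset.mem_singleton.1 hy]; exact hx4
  have h3' : ∀ y ∈ kS G K, y ∉ ({x} : Finset (V × V)) → rn G y ≤ 3 :=
    fun y hy hy2 => h3 y hy fun h => hy2 (Finset.mem_singleton.2 h)
  have hxs := Finset.singleton_subset_iff.2 hx
  obtain ⟨c1, c2, c3, _⟩ := nums54 G hG (K := K) (by omega) hd hxs hS4 h3'
  rw [Finset.card_singleton] at c1 c2
  have c5 := ears_one54 G hG (K := K) (by omega) hx (by omega)
  have c6 := u_le54 G x
  rw [hx4] at c5
  have hp := wx13_disc54 G hd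
  rcases Nat.lt_or_ge (tK G K) 5 with h4 | h4
  · left
    exact ⟨by omega, by omega, by omega⟩
  rcases Nat.lt_or_ge (tK G K) 6 with h5 | h5
  · right
    have h6 : tK G K = 5 := by omega
    have h7 : nr54 G K 1 = 2 ∨ nr54 G K 1 = 3 := by omega
    rcases h7 with h7 | h7
    · left
      have h8 : nr54 G K 3 = 1 := by omega
      refine ⟨h6, h7, h8, by omega, ?_⟩
      rw [hp, h6, h8]
      norm_num
    · right; left
      have h8 : nr54 G K 3 = 2 := by omega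
      refine ⟨h6, h7, h8, by omega, ?_⟩
      rw [hp, h6, h8]
      norm_num
  · right; right; right
    refine ⟨h5, ?_⟩
    have h8 : tK G K + nr54 G K 1 = 6 + nr54 G K 3 := by omega
    have : 72 + 4 * nr54 G K 3 ≤ 14 * tK G K := by omega
    have h : (72 : ℝ) + 4 * nr54 G K 3 ≤ 14 * tK G K := by exact_mod_cast this
    rw [hp]
    linarith

/-- **one leaf next to a sector of run three**: at most `0` -/
theorem one_adj54 (hG : G.Geo4 al kp U) {K : (cg G).ConnectedComponent}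
    (hd : (kS G K).card = tK G K + 2) {x : V × V} (hx : x ∈ kS G K)
    (hx4 : rn G x = 4) (h3 : ∀ y ∈ kS G K, y ≠ x → rn G y ≤ 3)
    (hp : (Pg54 G K).Nonempty) (h1 : 1 ≤ nr54 G K 3) :
    13 * wx G (14 / 13) K + 16 + 4 * (nr54 G K 3 : ℝ) ≤ 0 := by
  have ht := rn_le_tK63 G hG ((mem_kS42 G).1 hx).1
  rw [((mem_kS42 G).1 hx).2, hx4] at ht
  have h := cost_pairs54 G hG (K := K) (by omega) hd (Finset.singleton_subset_iff.2 hx)
    (fun y hy => by rw [Finset.mem_singleton.1 hy]; exact hx4)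
    (fun y hy hy2 => h3 y hy fun h => hy2 (Finset.mem_singleton.2 h))
    (by rw [Finset.card_singleton]; omega)
  rw [Finset.card_singleton] at h
  have h5 : (1 : ℝ) ≤ (Pg54 G K).card := by
    have := Finset.card_pos.2 hp
    exact_mod_cast this
  have h6 : (0 : ℝ) ≤ nr54 G K 2 := Nat.cast_nonneg _
  push_cast at h
  linarith

end

end Pool.Agent.PEN.E5
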