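import Pool.Agent.E5.In15

/-! # PENNY, all small diameters: interior assembly with the exact slack of the leaves -/

set_option autoImplicit false

namespace Pool.Agent.PEN.E5

open Classical UpperHalfPlane
open Pool.Agent.PEN.Cl

noncomputable section

variable {V : Type} (G : Tg V) {al : ℝ} {kp : V → V → ℝ} {U : ℕ → ℝ}

/-- the slack of the leaf lemma -/
def lx39 (al θ y : ℝ) (K : (cg G).ConnectedComponent) : ℝ :=
  θ * ∑ x ∈ Lv G K, ((un G al (sg G x) : ℝ) - 2) - wx G θ K - y * (Lv G K).card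

/-- **interior assembly** with the exact slack of the leaf lemma (any `θ ≥ 0`, any `y`) -/
theorem interiorl39 (hG : G.Geo4 al kp U) (h1 : ∀ x ∈ iJ G, gc G al x ≤ 1) {θ y Λ R : ℝ}
    (hθ : 0 ≤ θ) {yK : (cg G).ConnectedComponent → ℝ}
    (hyK : ∀ K ∈ Kc G, 0 ≤ yK K)
    (hR : ∑ K ∈ (Kc G).filter (fun K => Lv G K = ∅ ∧ K ∉ Sf G al), wx G θ K +
        ∑ K ∈ (Kc G).filter (fun K => Lv G K ≠ ∅), (yK K - y) * (Lv G K).card -
        ∑ K ∈ (Kc G).filter (fun K => Lv G K ≠ ∅), lx39 G al θ y K -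
        ∑ K ∈ (Sf G al).filter (fun K => Lv G K = ∅), rx G al θ K -
        ∑ K ∈ (Sf G al).filter (fun K => Lv G K ≠ ∅), ∑ s ∈ PK G al K,
          max (2 + 2 * θ - θ * (rn G s : ℝ)) 0 -
        ∑ v ∈ A2 G al, sl G al θ Λ yK v +
        ∑ v ∈ (inN G).filter (fun v => uv G al v = 7 ∧ cv G v ≠ 1), ∑ s ∈ Sv G v,
          yK (ku G s) * Ds G al s +
        ∑ C ∈ WF G, ((4 + 5 * θ) * qa G C - (3 + 4 * θ + Λ) * ka G al C -
          ∑ s ∈ G.cJ C, yK (ku G s) * sp G al s +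
          θ * ∑ x ∈ (G.cJ C).filter (fun x => x.1 ∈ lfN G), ((un G al x : ℝ) - 2)) +
        ∑ s ∈ (SD G).filter (fun s => s.2 ∉ inN G), yK (ku G s) * Ds G al s -
        ∑ s ∈ G.oJ, yK (ku G s) * sp G al s ≤ R) :
    ((inN G).card : ℝ) ≤ Λ * cost G al + R - (3 + 4 * θ) * (gam G al - cor G al) +
      θ * G.oJ.card - 2 - 4 * θ := by
  have hep := ep_pos89 G hG
  refine masterx15 G hG hθ (yK := yK) ?_
  -- the points with one unit too much
  have a1 : ∑ v ∈ (inN G).filter (fun v => ¬ 8 ≤ uv G al v), ∑ s ∈ Sv G v,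
      yK (ku G s) * Ds G al s ≤ ∑ K ∈ Kc G, yK K * (Lv G K).card +
        ∑ v ∈ (inN G).filter (fun v => uv G al v = 7 ∧ cv G v ≠ 1), ∑ s ∈ Sv G v,
          yK (ku G s) * Ds G al s := by
    rw [← Finset.sum_filter_add_sum_filter_not ((inN G).filter (fun v => ¬ 8 ≤ uv G al v))
      (fun v => cv G v = 1), Finset.filter_filter, Finset.filter_filter]
    have e1 : (inN G).filter (fun v => ¬ 8 ≤ uv G al v ∧ cv G v = 1) = lfN G := by
      ext v
      rw [Finset.mem_filter, mem_lfN15]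
      constructor
      · rintro ⟨h2, _, h3⟩
        exact ⟨h2, h3⟩
      · rintro ⟨h2, h3⟩
        have := leaf_uv39 G hG h1 h2 h3
        exact ⟨h2, by omega, h3⟩
    have e2 : (inN G).filter (fun v => ¬ 8 ≤ uv G al v ∧ ¬ cv G v = 1) =
        (inN G).filter (fun v => uv G al v = 7 ∧ cv G v ≠ 1) := by
      refine Finset.filter_congr fun v hv => ?_
      have := uv_ge89 G hG hv
      constructor
      · rintro ⟨h2, h3⟩
        exact ⟨by omega, h3⟩
      · rintro ⟨h2, h3⟩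
        exact ⟨by omega, h3⟩
    rw [e1, e2]
    refine add_le_add ?_ le_rfl
    have e3 : ∑ K ∈ Kc G, yK K * (Lv G K).card = ∑ K ∈ Kc G, ∑ x ∈ Lv G K, yK (ku G x) := by
      refine Finset.sum_congr rfl fun K _ => ?_
      rw [Finset.sum_congr rfl fun x hx => by
        rw [((mem_kS42 G).1 ((mem_Lv15 G).1 hx).1).2], Finset.sum_const, nsmul_eq_mul, mul_comm]
    rw [e3, sum_leafs15 G (fun x => yK (ku G x))]
    refine Finset.sum_le_sum fun v hv => Finset.sum_le_sum fun s hs => ?_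
    obtain ⟨h2, h3⟩ := (mem_lfN15 G).1 hv
    obtain ⟨h4, h5⟩ := (mem_Sv62 G).1 hs
    have h6 := Ds_one89 G hG h2 h4 h5 h3
    have h7 := leaf_uv39 G hG h1 h2 h3
    rw [kv_eq89, h7] at h6
    have h8 := hyK _ (ku_Kc15 G h4)
    have h9 : Ds G al s ≤ 1 := by
      push_cast at h6
      linarith
    calc yK (ku G s) * Ds G al s ≤ yK (ku G s) * 1 := mul_le_mul_of_nonneg_left h9 h8
      _ = yK (ku G s) := mul_one _
  -- the black faces
  have hSf : (Kc G).filter (fun K => K ∈ Sf G al) = Sf G al := by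
    ext K
    rw [Finset.mem_filter]
    refine ⟨fun h => h.2, fun h => ⟨?_, h⟩⟩
    unfold Sf at h
    exact (Finset.mem_filter.1 h).1
  have b1 : ∑ K ∈ (Kc G).filter (fun K => K ∉ Sf G al), wx G θ K - ∑ K ∈ Sf G al, rx G al θ K =
      ∑ K ∈ Kc G, wx G θ K - ∑ K ∈ Sf G al, ∑ s ∈ PK G al K,
        max (2 + 2 * θ - θ * (rn G s : ℝ)) 0 := by
    rw [← Finset.sum_filter_add_sum_filter_not (Kc G) (fun K => K ∈ Sf G al) (wx G θ), hSf]
    unfold rx
    rw [Finset.sum_sub_distrib]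
    ring
  have b2 : ∑ K ∈ Sf G al, ∑ s ∈ PK G al K, max (2 + 2 * θ - θ * (rn G s : ℝ)) 0 =
      ∑ K ∈ (Sf G al).filter (fun K => Lv G K = ∅), (rx G al θ K + wx G θ K) +
      ∑ K ∈ (Sf G al).filter (fun K => Lv G K ≠ ∅), ∑ s ∈ PK G al K,
        max (2 + 2 * θ - θ * (rn G s : ℝ)) 0 := by
    rw [← Finset.sum_filter_add_sum_filter_not (Sf G al) (fun K => Lv G K = ∅)]
    congr 1
    refine Finset.sum_congr rfl fun K _ => ?_
    unfold rx
    ring
  have b3 : ∑ K ∈ Kc G, wx G θ K =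
      ∑ K ∈ (Kc G).filter (fun K => Lv G K = ∅ ∧ K ∉ Sf G al), wx G θ K +
      ∑ K ∈ (Sf G al).filter (fun K => Lv G K = ∅), wx G θ K +
      ∑ K ∈ (Kc G).filter (fun K => Lv G K ≠ ∅), wx G θ K := by
    rw [← Finset.sum_filter_add_sum_filter_not (Kc G) (fun K => Lv G K = ∅)]
    congr 1
    rw [← Finset.sum_filter_add_sum_filter_not ((Kc G).filter (fun K => Lv G K = ∅))
      (fun K => K ∈ Sf G al), Finset.filter_filter, Finset.filter_filter, add_comm]
    congr 1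
    refine Finset.sum_congr ?_ fun _ _ => rfl
    rw [← hSf, Finset.filter_filter]
    refine Finset.filter_congr fun K _ => ?_
    rw [hSf]
    exact and_comm
  have b4 : ∑ K ∈ (Kc G).filter (fun K => Lv G K ≠ ∅), (wx G θ K + yK K * (Lv G K).card) ≤
      ∑ K ∈ (Kc G).filter (fun K => Lv G K ≠ ∅), (yK K - y) * (Lv G K).card -
      ∑ K ∈ (Kc G).filter (fun K => Lv G K ≠ ∅), lx39 G al θ y K +
        θ * ∑ C ∈ WF G, ∑ x ∈ (G.cJ C).filter (fun x => x.1 ∈ lfN G), ((un G al x : ℝ) - 2) := by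
    have c1 : ∑ K ∈ Kc G, ∑ x ∈ Lv G K, ((un G al (sg G x) : ℝ) - 2) =
        ∑ C ∈ WF G, ∑ x ∈ (G.cJ C).filter (fun x => x.1 ∈ lfN G), ((un G al x : ℝ) - 2) := by
      rw [sum_leafs15 G (fun x => (un G al (sg G x) : ℝ) - 2)]
      exact sum_leafc15 G hG (fun x => (un G al x : ℝ) - 2)
    have c2 : ∑ K ∈ (Kc G).filter (fun K => Lv G K ≠ ∅),
        ∑ x ∈ Lv G K, ((un G al (sg G x) : ℝ) - 2) =
        ∑ K ∈ Kc G, ∑ x ∈ Lv G K, ((un G al (sg G x) : ℝ) - 2) := by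
      refine Finset.sum_filter_of_ne fun K _ h h2 => h ?_
      rw [h2, Finset.sum_empty]
    rw [← c1, ← c2, Finset.mul_sum, ← Finset.sum_sub_distrib, ← Finset.sum_add_distrib]
    refine Finset.sum_le_sum fun K hK => ?_
    unfold lx39
    linarith
  have b5 : ∑ K ∈ (Kc G).filter (fun K => Lv G K ≠ ∅), yK K * (Lv G K).card =
      ∑ K ∈ Kc G, yK K * (Lv G K).card := by
    refine Finset.sum_filter_of_ne fun K _ h h2 => h ?_
    rw [h2, Finset.card_empty, Nat.cast_zero, mul_zero]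
  rw [Finset.sum_add_distrib, b5] at b4
  rw [Finset.sum_add_distrib] at b2
  have b6 : ∑ C ∈ WF G, ((4 + 5 * θ) * qa G C - (3 + 4 * θ + Λ) * ka G al C -
      ∑ s ∈ G.cJ C, yK (ku G s) * sp G al s +
      θ * ∑ x ∈ (G.cJ C).filter (fun x => x.1 ∈ lfN G), ((un G al x : ℝ) - 2)) =
      ∑ C ∈ WF G, ((4 + 5 * θ) * qa G C - (3 + 4 * θ + Λ) * ka G al C -
        ∑ s ∈ G.cJ C, yK (ku G s) * sp G al s) +
      θ * ∑ C ∈ WF G, ∑ x ∈ (G.cJ C).filter (fun x => x.1 ∈ lfN G), ((un G al x : ℝ) - 2) := by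
    rw [Finset.sum_add_distrib, Finset.mul_sum]
  rw [b6] at hR
  rw [b1, b2]
  linarith

end

end Pool.Agent.PEN.E5
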