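import Pool.Agent.E5.Tr42
import Pool.Agent.E5.Fb85
import Pool.Agent.E5.Bk90
import Pool.Agent.E5.Er54b

/-! # PENNY, small diameters: the need of a black face in the set `θ = 14 / 13`

Everything times 13. -/

set_option autoImplicit false

namespace Pool.Agent.PEN.E5

open Classical UpperHalfPlane
open Pool.Agent.PEN.Cl

noncomputable section

variable {V : Type} (G : Tg V) {al : ℝ} {kp : V → V → ℝ} {U : ℕ → ℝ}

theorem wT_wx42 (K : (cg G).ConnectedComponent) :
    wT42 G K = 14 * wx G 1 K - (((kS G K).card : ℝ) - tK G K) := by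
  unfold wx wT42
  ring

theorem wT_le42 (K : (cg G).ConnectedComponent) : wT42 G K ≤ 54 - 14 * tK G K := by
  have h := kS_card63 G K
  have h2 : ((kS G K).card : ℝ) ≤ tK G K + 2 := by exact_mod_cast h
  unfold wT42
  linarith

/-- a black face is a disc or has at most as many sides as triangles -/
theorem disc42 (K : (cg G).ConnectedComponent) :
    (kS G K).card = tK G K + 2 ∨ (kS G K).card ≤ tK G K := by
  have h := kS_card63 G K
  obtain ⟨k, hk⟩ := parity90 G K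
  omega

/-- the leaves and the payers -/
def LP42 (al : ℝ) (K : (cg G).ConnectedComponent) : Finset (V × V) := Lv G K ∪ PK G al K

theorem LPd42 (hG : G.Geo4 al kp U) (h1 : ∀ x ∈ iJ G, gc G al x ≤ 1)
    (K : (cg G).ConnectedComponent) : Disjoint (Lv G K) (PK G al K) := by
  rw [Finset.disjoint_left]
  intro x h2 h3
  obtain ⟨_, h4, h5⟩ := (mem_Lv15 G).1 h2
  obtain ⟨_, _, h6, _⟩ := (mem_Pz15 G).1 (Finset.mem_filter.1 h3).1
  have := leaf_uv39 G hG h1 h4 h5
  omega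

theorem LP_sub42 (hG : G.Geo4 al kp U) (K : (cg G).ConnectedComponent) :
    LP42 G al K ⊆ kS G K := by
  intro x hx
  rcases Finset.mem_union.1 hx with h | h
  · exact ((mem_Lv15 G).1 h).1
  · exact (PK_kS54 G hG h).1

theorem LP_in42 (K : (cg G).ConnectedComponent) {x : V × V} (hx : x ∈ LP42 G al K) :
    x.2 ∈ inN G := by
  rcases Finset.mem_union.1 hx with h | h
  · exact ((mem_Lv15 G).1 h).2.1
  · exact ((mem_Pz15 G).1 (Finset.mem_filter.1 h).1).2.1

theorem LP_sum42 (hG : G.Geo4 al kp U) (h1 : ∀ x ∈ iJ G, gc G al x ≤ 1)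
    (K : (cg G).ConnectedComponent) (f : V × V → ℝ) :
    ∑ x ∈ LP42 G al K, f x = ∑ x ∈ Lv G K, f x + ∑ x ∈ PK G al K, f x :=
  Finset.sum_union (LPd42 G hG h1 K)

theorem LP_card42 (hG : G.Geo4 al kp U) (h1 : ∀ x ∈ iJ G, gc G al x ≤ 1)
    (K : (cg G).ConnectedComponent) :
    (LP42 G al K).card = (Lv G K).card + (PK G al K).card :=
  Finset.card_union_of_disjoint (LPd42 G hG h1 K)

/-- an inner sector which is no leaf and no payer has negative surplus -/
theorem neg42 (hG : G.Geo4 al kp U) {K : (cg G).ConnectedComponent} {x : V × V}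
    (hx : x ∈ kS G K) (h2 : x.2 ∈ inN G) (h3 : x ∉ LP42 G al K) : Ds G al x < 0 := by
  by_contra h6
  push Not at h6
  have h4 := mem_kS89 G hx
  rcases pos_sector89 G hG h2 h4 rfl h6 with h7 | h7
  · exact h3 (Finset.mem_union_left _ ((mem_Lv15 G).2 ⟨hx, h2, h7⟩))
  · exact h3 (Finset.mem_union_right _ (Finset.mem_filter.2
      ⟨(mem_Pz15 G).2 ⟨h4, h2, h7, h6⟩, ((mem_kS42 G).1 hx).2⟩))

/-- **the uses of gaps at outer points** -/
theorem use42 (hG : G.Geo4 al kp U) (K : (cg G).ConnectedComponent) :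
    (oK14 G K : ℝ) + ∑ x ∈ (kS G K).filter (fun x => x ∈ BC G ∧ 0 ≤ sp G al x), sp G al x ≤
      uK14 G al K + ∑ x ∈ LP42 G al K, Ds G al x +
      ∑ x ∈ (kS G K).filter (fun x => x ∈ BC G ∧ sp G al x < 0), (- sp G al x) := by
  have hU := U1_14 G hG (al := al) K
  have e1 : ∑ x ∈ (kS G K).filter (fun x => x ∈ BC G), sp G al x =
      ∑ x ∈ (kS G K).filter (fun x => x ∈ BC G ∧ 0 ≤ sp G al x), sp G al x +
      ∑ x ∈ (kS G K).filter (fun x => x ∈ BC G ∧ sp G al x < 0), sp G al x := by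
    rw [← Finset.sum_filter_add_sum_filter_not ((kS G K).filter (fun x => x ∈ BC G))
      (fun x => 0 ≤ sp G al x), Finset.filter_filter, Finset.filter_filter]
    congr 1
    refine Finset.sum_congr ?_ fun _ _ => rfl
    refine Finset.filter_congr fun x _ => ?_
    rw [not_le]
  have e2 : ∑ x ∈ (kS G K).filter (fun x => x.2 ∈ inN G), Ds G al x ≤
      ∑ x ∈ LP42 G al K, Ds G al x := by
    have e3 : LP42 G al K ⊆ (kS G K).filter (fun x => x.2 ∈ inN G) := fun x hx =>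
      Finset.mem_filter.2 ⟨LP_sub42 G hG K hx, LP_in42 G K hx⟩
    rw [← Finset.sum_sdiff e3]
    have e4 : ∑ x ∈ (kS G K).filter (fun x => x.2 ∈ inN G) \ LP42 G al K, Ds G al x ≤ 0 := by
      refine Finset.sum_nonpos fun x hx => ?_
      obtain ⟨h2, h3⟩ := Finset.mem_sdiff.1 hx
      obtain ⟨h4, h5⟩ := Finset.mem_filter.1 h2
      exact (neg42 G hG h4 h5 h3).le
    linarith
  rw [Finset.sum_neg_distrib]
  linarith

theorem LP_D42 (hG : G.Geo4 al kp U) (h1 : ∀ x ∈ iJ G, gc G al x ≤ 1)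
    (K : (cg G).ConnectedComponent) : ∑ x ∈ LP42 G al K, Ds G al x ≤ (LP42 G al K).card := by
  rw [← mul_one ((LP42 G al K).card : ℝ), ← nsmul_eq_mul, ← Finset.sum_const]
  exact Finset.sum_le_sum fun x hx => Ds_le_one39 G hG h1 (LP_in42 G K hx)
    ((mem_Sv62 G).2 ⟨mem_kS89 G (LP_sub42 G hG K hx), rfl⟩)

theorem use_le42 (hG : G.Geo4 al kp U) (h1 : ∀ x ∈ iJ G, gc G al x ≤ 1)
    (K : (cg G).ConnectedComponent) :
    (oK14 G K : ℝ) ≤ uK14 G al K + (LP42 G al K).card +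
      ∑ x ∈ (kS G K).filter (fun x => x ∈ BC G ∧ sp G al x < 0), (- sp G al x) := by
  have h2 := use42 G hG (al := al) K
  have h3 := LP_D42 G hG h1 K
  have h4 : 0 ≤ ∑ x ∈ (kS G K).filter (fun x => x ∈ BC G ∧ 0 ≤ sp G al x), sp G al x :=
    Finset.sum_nonneg fun x hx => (Finset.mem_filter.1 hx).2.2
  linarith

theorem leaf_un42 (hG : G.Geo4 al kp U) (h1 : ∀ x ∈ iJ G, gc G al x ≤ 1)
    {K : (cg G).ConnectedComponent} {x : V × V} (hx : x ∈ Lv G K) :
    (rn G x : ℝ) + un G al (sg G x) = 7 := by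
  exact_mod_cast leaf_sum15 G hG h1 hx

/-- the run sum -/
theorem sumrn42 (hG : G.Geo4 al kp U) (K : (cg G).ConnectedComponent) :
    ∑ x ∈ kS G K, (rn G x : ℝ) = 3 * tK G K := by
  exact_mod_cast sum_rn63 G hG K

theorem rnpos42 (hG : G.Geo4 al kp U) {K : (cg G).ConnectedComponent} (ht : 1 ≤ tK G K)
    {x : V × V} (hx : x ∈ kS G K) : 1 ≤ rn G x := by
  obtain ⟨h5, h6⟩ := (mem_kS42 G).1 hx
  have h7 := tK_zero54 G hG h5
  rw [h6] at h7
  by_contra hno
  have := h7.2 (by omega)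
  omega

/-- **a black face which is no disc**; `X` are sectors with claims `7 (rn - 1)` -/
theorem kring42 (hG : G.Geo4 al kp U) (h1 : ∀ x ∈ iJ G, gc G al x ≤ 1)
    {K : (cg G).ConnectedComponent} (hN : (kS G K).card ≤ tK G K) (ht : 1 ≤ tK G K)
    {X : Finset (V × V)} (hX : X ⊆ kS G K) (hd : Disjoint X (Lv G K)) :
    wT42 G K + 16 * (Lv G K).card + ∑ x ∈ X, 7 * ((rn G x : ℝ) - 1) ≤
      ∑ x ∈ Lv G K, (14 * ((un G al (sg G x) : ℝ) - 3) + 2) := by
  have hs := sumrn42 G hG K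
  have hLS : Lv G K ⊆ kS G K := Finset.filter_subset _ _
  have h2 : ∑ x ∈ X, ((rn G x : ℝ) - 1) + ∑ x ∈ Lv G K, ((rn G x : ℝ) - 1) ≤
      ∑ x ∈ kS G K, ((rn G x : ℝ) - 1) := by
    rw [← Finset.sum_union hd]
    refine Finset.sum_le_sum_of_subset_of_nonneg (Finset.union_subset hX hLS) fun x hx _ => ?_
    have := rnpos42 G hG ht hx
    have : (1 : ℝ) ≤ rn G x := by exact_mod_cast this
    linarith
  have h3 : ∑ x ∈ kS G K, ((rn G x : ℝ) - 1) = 3 * tK G K - (kS G K).card := by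
    rw [Finset.sum_sub_distrib, hs, Finset.sum_const, nsmul_eq_mul, mul_one]
  have h4 : ∑ x ∈ Lv G K, (14 * ((un G al (sg G x) : ℝ) - 3) + 2) =
      44 * (Lv G K).card - 14 * ∑ x ∈ Lv G K, ((rn G x : ℝ) - 1) := by
    have e : ∀ x ∈ Lv G K, 14 * ((un G al (sg G x) : ℝ) - 3) + 2 = 44 - 14 * ((rn G x : ℝ) - 1) := by
      intro x hx
      have := leaf_un42 G hG h1 hx
      linarith
    rw [Finset.sum_congr rfl e, Finset.sum_sub_distrib, Finset.sum_const, nsmul_eq_mul,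
      ← Finset.mul_sum, mul_comm]
  have h5 : ∑ x ∈ Lv G K, ((rn G x : ℝ) - 1) ≤ 4 * (Lv G K).card := by
    rw [mul_comm, ← nsmul_eq_mul, ← Finset.sum_const]
    refine Finset.sum_le_sum fun x hx => ?_
    have h6 := leaf_un42 G hG h1 hx
    have h7 : (2 : ℝ) ≤ un G al (sg G x) := by exact_mod_cast leaf_un15 G hG hx
    linarith
  have hN' : ((kS G K).card : ℝ) ≤ tK G K := by exact_mod_cast hN
  rw [h4, ← Finset.mul_sum]
  unfold wT42
  linarith

/-- a black face with an inner head and an outer side has a triangle -/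
theorem tpos42 (hG : G.Geo4 al kp U) {K : (cg G).ConnectedComponent} {x : V × V}
    (hx : x ∈ kS G K) (hv : x.2 ∈ inN G) (ho : ∃ y ∈ kS G K, y ∈ G.oJ) : 1 ≤ tK G K := by
  obtain ⟨h2, h3⟩ := (mem_kS42 G).1 hx
  by_contra h4
  have h5 : tK G (ku G x) = 0 := by rw [h3]; omega
  have h6 := (tK_zero54 G hG h2).1 h5
  obtain ⟨_, d2, _, _, d5, _⟩ := digon54 G hG h2 h6
  obtain ⟨h7, h8⟩ := inner_sides85 G hG h2 hv
  obtain ⟨y, hy, hy2⟩ := ho
  rw [← h3, d2, Finset.mem_insert, Finset.mem_singleton] at hy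
  rcases hy with h | h
  · exact h7 (h ▸ hy2)
  · rw [d5, ← h] at h8
    exact h8 hy2

/-- **the fan lemma for `θ = 14 / 13`** (a disc, at least two leaves or payers or an outer side) -/
theorem kfan42 (hG : G.Geo4 al kp U) (h1 : ∀ x ∈ iJ G, gc G al x ≤ 1)
    {K : (cg G).ConnectedComponent} (hN : (kS G K).card = tK G K + 2) (ht : 1 ≤ tK G K)
    (h : 2 ≤ (LP42 G al K).card ∨ ((LP42 G al K).Nonempty ∧ ∃ x ∈ kS G K, x ∈ G.oJ)) :
    wT42 G K + 16 * (Lv G K).card + 14 * (pf85 G K (LP42 G al K)).card + 14 * F14 G K + 2 ≤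
      ∑ x ∈ PK G al K, 14 * ((3 : ℝ) - rn G x) +
      ∑ x ∈ Lv G K, (14 * ((un G al (sg G x) : ℝ) - 3) + 2) + 14 * a85 G K + 14 * j85 G K := by
  have h2 := fanB85 G hG (LP_sub42 G hG K) (fun x hx => LP_in42 G K hx) h ht
  rw [LP_sum42 G hG h1] at h2
  have h3 : ((kS G K).card : ℝ) = tK G K + 2 := by exact_mod_cast hN
  have h4 : (0 : ℝ) ≤ Z14 G K := Nat.cast_nonneg _
  have h5 : ∑ x ∈ Lv G K, (14 * ((un G al (sg G x) : ℝ) - 3) + 2) =
      14 * ∑ x ∈ Lv G K, ((3 : ℝ) - rn G x) + 16 * (Lv G K).card := by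
    have e : ∀ x ∈ Lv G K, 14 * ((un G al (sg G x) : ℝ) - 3) + 2 =
        14 * ((3 : ℝ) - rn G x) + 16 := by
      intro x hx
      have := leaf_un42 G hG h1 hx
      linarith
    rw [Finset.sum_congr rfl e, Finset.sum_add_distrib, Finset.sum_const, nsmul_eq_mul,
      ← Finset.mul_sum, mul_comm ((Lv G K).card : ℝ)]
  rw [wT_wx42, h5, ← Finset.mul_sum]
  linarith

/-- **all sides outer** -/
theorem kout42 (hG : G.Geo4 al kp U) {K : (cg G).ConnectedComponent}
    (h : ∀ x ∈ kS G K, x ∈ G.oJ) : wT42 G K ≤ 27 * fe14 G K := by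
  have h0 := wT_le42 G K
  have hs := sumrn42 G hG K
  have hfe : (0 : ℝ) ≤ fe14 G K := Nat.cast_nonneg _
  rcases disc42 G K with hN | hN
  · have hN' : ((kS G K).card : ℝ) = tK G K + 2 := by exact_mod_cast hN
    rcases Nat.eq_zero_or_pos (tK G K) with ht | ht
    · -- a digon
      have h2 : fe14 G K = 2 := by
        have e : fe14 G K = (kS G K).card := by
          unfold fe14 fv14
          rw [Finset.filter_filter]
          congr 1
          refine Finset.filter_true_of_mem fun x hx => ?_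
          refine ⟨⟨h x hx, h _ (nx_kS89 G hG hx)⟩, ?_⟩
          obtain ⟨h5, h6⟩ := (mem_kS42 G).1 hx
          rw [← h6] at ht
          rw [(tK_zero54 G hG h5).1 ht]
          exact Nat.zero_le _
        rw [e, hN, ht]
      rw [h2]
      push_cast
      have : (0 : ℝ) ≤ tK G K := Nat.cast_nonneg _
      linarith
    · -- ears
      have h3 : ∑ x ∈ kS G K, ((2 : ℝ) - rn G x) ≤ fe14 G K := by
        have e1 : ∑ x ∈ kS G K, ((2 : ℝ) - rn G x) ≤
            ∑ x ∈ kS G K, (if rn G x ≤ 1 then (1 : ℝ) else 0) := by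
          refine Finset.sum_le_sum fun x hx => ?_
          have h4 := rnpos42 G hG ht hx
          have h5 : (1 : ℝ) ≤ rn G x := by exact_mod_cast h4
          split_ifs with h6
          · linarith
          · have h7 : 2 ≤ rn G x := by omega
            have : (2 : ℝ) ≤ rn G x := by exact_mod_cast h7
            linarith
        refine e1.trans (le_of_eq ?_)
        rw [← Finset.sum_filter, Finset.sum_const, nsmul_eq_mul, mul_one]
        unfold fe14 fv14
        rw [Finset.filter_filter]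
        congr 2
        ext x
        rw [Finset.mem_filter, Finset.mem_filter]
        exact ⟨fun h4 => ⟨h4.1, ⟨h x h4.1, h _ (nx_kS89 G hG h4.1)⟩, h4.2⟩,
          fun h4 => ⟨h4.1, h4.2.2⟩⟩
      rw [Finset.sum_sub_distrib, hs, Finset.sum_const, nsmul_eq_mul, hN'] at h3
      rcases Nat.lt_or_ge (tK G K) 4 with h4 | h4
      · have h5 : (tK G K : ℝ) ≤ 4 := by exact_mod_cast h4.le
        linarith
      · have h5 : (4 : ℝ) ≤ tK G K := by exact_mod_cast h4
        linarith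
  · have hN' : ((kS G K).card : ℝ) ≤ tK G K := by exact_mod_cast hN
    have : (0 : ℝ) ≤ (kS G K).card := Nat.cast_nonneg _
    unfold wT42
    linarith

theorem a_le_oJ42 (hG : G.Geo4 al kp U) (K : (cg G).ConnectedComponent) :
    a85 G K ≤ ((kS G K).filter (fun x => x ∈ G.oJ)).card := by
  unfold a85
  refine Finset.card_le_card_of_injOn (nx G) ?_ ?_
  · intro x hx
    obtain ⟨h1, _, h3⟩ := Finset.mem_filter.1 (Finset.mem_coe.1 hx)
    exact Finset.mem_coe.2 (Finset.mem_filter.2 ⟨nx_kS89 G hG h1, h3⟩)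
  · intro x hx y hy h
    exact nx_inj42 G hG (mem_kS89 G (Finset.mem_filter.1 (Finset.mem_coe.1 hx)).1)
      (mem_kS89 G (Finset.mem_filter.1 (Finset.mem_coe.1 hy)).1) h

theorem j_le_fe42 (K : (cg G).ConnectedComponent) : j85 G K ≤ fe14 G K := by
  unfold j85 fe14
  refine Finset.card_le_card fun x hx => ?_
  obtain ⟨h1, h2⟩ := Finset.mem_filter.1 hx
  exact Finset.mem_filter.2 ⟨h1, by omega⟩

/-- **a black face with an outer side and a leaf or a payer** -/
theorem kbd42 (hG : G.Geo4 al kp U) (h1 : ∀ x ∈ iJ G, gc G al x ≤ 1)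
    {K : (cg G).ConnectedComponent} (hS : (LP42 G al K).Nonempty)
    (ho : ∃ x ∈ kS G K, x ∈ G.oJ) (hN : (kS G K).card = tK G K + 2) :
    wT42 G K + 16 * (Lv G K).card + 14 * (pf85 G K (LP42 G al K)).card + 14 * F14 G K +
      10 * (PK G al K).card + 2 ≤
      ∑ x ∈ PK G al K, max (54 - 14 * (rn G x : ℝ)) 0 +
      ∑ x ∈ Lv G K, (14 * ((un G al (sg G x) : ℝ) - 3) + 4) + 2 * uK14 G al K +
      2 * ∑ x ∈ (kS G K).filter (fun x => x ∈ BC G ∧ sp G al x < 0), (- sp G al x) +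
      12 * ((kS G K).filter (fun x => x ∈ G.oJ)).card + 27 * fe14 G K := by
  obtain ⟨s, hs⟩ := hS
  have ht := tpos42 G hG (LP_sub42 G hG K hs) (LP_in42 G K hs) ho
  have h2 := kfan42 G hG h1 hN ht (Or.inr ⟨⟨s, hs⟩, ho⟩)
  have h3 := use_le42 G hG h1 K
  rw [LP_card42 G hG h1] at h3
  push_cast at h3
  have h4 : (a85 G K : ℝ) ≤ ((kS G K).filter (fun x => x ∈ G.oJ)).card := by
    exact_mod_cast a_le_oJ42 G hG K
  have h5 : (a85 G K : ℝ) ≤ oK14 G K := by exact_mod_cast a_le_o85 G K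
  have h6 : (j85 G K : ℝ) ≤ fe14 G K := by exact_mod_cast j_le_fe42 G K
  have h7 : (0 : ℝ) ≤ fe14 G K := Nat.cast_nonneg _
  have h8 : ∑ x ∈ PK G al K, 14 * ((3 : ℝ) - rn G x) + 12 * (PK G al K).card ≤
      ∑ x ∈ PK G al K, max (54 - 14 * (rn G x : ℝ)) 0 := by
    have e : (12 : ℝ) * (PK G al K).card = ∑ x ∈ PK G al K, (12 : ℝ) := by
      rw [Finset.sum_const, nsmul_eq_mul, mul_comm]
    rw [e, ← Finset.sum_add_distrib]
    refine Finset.sum_le_sum fun x _ => le_trans (le_of_eq ?_) (le_max_left _ _)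
    ring
  have h9 : ∑ x ∈ Lv G K, (14 * ((un G al (sg G x) : ℝ) - 3) + 4) =
      ∑ x ∈ Lv G K, (14 * ((un G al (sg G x) : ℝ) - 3) + 2) + 2 * (Lv G K).card := by
    have e : (2 : ℝ) * (Lv G K).card = ∑ x ∈ Lv G K, (2 : ℝ) := by
      rw [Finset.sum_const, nsmul_eq_mul, mul_comm]
    rw [e, ← Finset.sum_add_distrib]
    exact Finset.sum_congr rfl fun x _ => by ring
  rw [h9]
  linarith

/-- a disc with a big side and an outer head has a big side with outer head -/
theorem oK_pos42 (hG : G.Geo4 al kp U) {K : (cg G).ConnectedComponent}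
    (hN : (kS G K).card = tK G K + 2) (hb : ∃ x ∈ kS G K, x ∈ BC G)
    (ho : ∃ x ∈ kS G K, x.2 ∉ inN G) : 1 ≤ oK14 G K := by
  obtain ⟨x, hx, hx2⟩ := ho
  have key : ∃ y ∈ kS G K, y ∈ BC G ∧ y.2 ∉ inN G := by
    rcases BC_or14 G (mem_kS89 G hx) with h | h
    · exact ⟨x, hx, h, hx2⟩
    · have h3 : ∃ y ∈ kS G K, y ∉ G.oJ ∧ nx G y ∈ G.oJ := by
        by_contra hno
        push Not at hno
        obtain ⟨b, hb1, hb2⟩ := hb
        have hbo : b ∉ G.oJ := fun h4 => ((mem_oJ66 G).1 h4).2.2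
          ((mem_iJ71 G).1 ((mem_BC89 G).1 hb2).1).1
        have := ring90 G hG ((kS G K).filter (fun y => y ∉ G.oJ)) (Finset.filter_subset _ _)
          ⟨b, Finset.mem_filter.2 ⟨hb1, hbo⟩⟩ (fun y hy => by
            obtain ⟨h5, h6⟩ := Finset.mem_filter.1 hy
            exact Finset.mem_filter.2 ⟨nx_kS89 G hG h5, hno y h5 h6⟩)
          (fun h4 => by
            rw [← h4] at hx
            exact (Finset.mem_filter.1 hx).2 h)
        omega
      obtain ⟨y, hy, hyo, hyn⟩ := h3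
      refine ⟨y, hy, (BC_or14 G (mem_kS89 G hy)).resolve_right hyo, fun h4 => ?_⟩
      exact (inner_sides85 G hG (mem_kS89 G hy) h4).2 hyn
  obtain ⟨y, hy, hy1, hy2⟩ := key
  unfold oK14
  exact Finset.card_pos.2 ⟨y, Finset.mem_filter.2 ⟨hy, hy1, hy2⟩⟩

/-- **no leaf, no payer, an outer head**: the uses and the weaknesses are at least one unit -/
theorem kopen42 (hG : G.Geo4 al kp U) (h1 : ∀ x ∈ iJ G, gc G al x ≤ 1)
    {K : (cg G).ConnectedComponent} (hN : (kS G K).card = tK G K + 2)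
    (hb : ∃ x ∈ kS G K, x ∈ BC G) (ho : ∃ x ∈ kS G K, x.2 ∉ inN G) (hS : LP42 G al K = ∅) :
    1 ≤ uK14 G al K +
      ∑ x ∈ (kS G K).filter (fun x => x ∈ BC G ∧ sp G al x < 0), (- sp G al x) := by
  have h2 := use_le42 G hG h1 K
  have h3 := oK_pos42 G hG hN hb ho
  have h4 : (1 : ℝ) ≤ oK14 G K := by exact_mod_cast h3
  rw [hS, Finset.card_empty] at h2
  push_cast at h2
  linarith

/-- the need and claims `7 (rn - 1)` of any sectors, in a disc -/
theorem kany42 (hG : G.Geo4 al kp U) {K : (cg G).ConnectedComponent}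
    (hN : (kS G K).card = tK G K + 2) (ht : 1 ≤ tK G K) {X : Finset (V × V)}
    (hX : X ⊆ kS G K) : wT42 G K + ∑ x ∈ X, 7 * ((rn G x : ℝ) - 1) ≤ 40 := by
  have hs := sumrn42 G hG K
  have h3 : ((kS G K).card : ℝ) = tK G K + 2 := by exact_mod_cast hN
  have h4 : ∑ x ∈ X, ((rn G x : ℝ) - 1) ≤ ∑ x ∈ kS G K, ((rn G x : ℝ) - 1) := by
    refine Finset.sum_le_sum_of_subset_of_nonneg hX fun x hx _ => ?_
    have h5 := rnpos42 G hG ht hx
    have : (1 : ℝ) ≤ rn G x := by exact_mod_cast h5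
    linarith
  rw [Finset.sum_sub_distrib (s := kS G K), hs, Finset.sum_const, nsmul_eq_mul, mul_one, h3] at h4
  rw [← Finset.mul_sum]
  unfold wT42
  rw [h3]
  linarith

/-- the same with one distinguished sector -/
theorem kone42 (hG : G.Geo4 al kp U) {K : (cg G).ConnectedComponent}
    (hN : (kS G K).card = tK G K + 2) {s : V × V} (hs : s ∈ kS G K) :
    wT42 G K + 14 * ((tK G K : ℝ) - rn G s) ≤ 54 - 14 * (rn G s : ℝ) ∧ (rn G s : ℝ) ≤ tK G K := by
  have h3 : ((kS G K).card : ℝ) = tK G K + 2 := by exact_mod_cast hN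
  obtain ⟨h5, h6⟩ := (mem_kS42 G).1 hs
  have h7 := rn_le_tK63 G hG h5
  rw [h6] at h7
  refine ⟨?_, by exact_mod_cast h7⟩
  unfold wT42
  rw [h3]
  linarith

/-- **a black face with an outer side and a leaf or a payer**, allowance 2 for each big side with
outer head; the uses of gaps are free -/
theorem kbc42 (hG : G.Geo4 al kp U) (h1 : ∀ x ∈ iJ G, gc G al x ≤ 1)
    {K : (cg G).ConnectedComponent} (hS : (LP42 G al K).Nonempty)
    (ho : ∃ x ∈ kS G K, x ∈ G.oJ) (hN : (kS G K).card = tK G K + 2) :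
    wT42 G K + 16 * (Lv G K).card + 14 * (pf85 G K (LP42 G al K)).card + 14 * F14 G K +
      12 * (PK G al K).card + 2 ≤
      ∑ x ∈ PK G al K, max (54 - 14 * (rn G x : ℝ)) 0 +
      ∑ x ∈ Lv G K, (14 * ((un G al (sg G x) : ℝ) - 3) + 2) + 2 * oK14 G K +
      12 * ((kS G K).filter (fun x => x ∈ G.oJ)).card + 27 * fe14 G K := by
  obtain ⟨s, hs⟩ := hS
  have ht := tpos42 G hG (LP_sub42 G hG K hs) (LP_in42 G K hs) ho
  have h2 := kfan42 G hG h1 hN ht (Or.inr ⟨⟨s, hs⟩, ho⟩)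
  have h4 : (a85 G K : ℝ) ≤ ((kS G K).filter (fun x => x ∈ G.oJ)).card := by
    exact_mod_cast a_le_oJ42 G hG K
  have h5 : (a85 G K : ℝ) ≤ oK14 G K := by exact_mod_cast a_le_o85 G K
  have h6 : (j85 G K : ℝ) ≤ fe14 G K := by exact_mod_cast j_le_fe42 G K
  have h7 : (0 : ℝ) ≤ fe14 G K := Nat.cast_nonneg _
  have h8 : ∑ x ∈ PK G al K, 14 * ((3 : ℝ) - rn G x) + 12 * (PK G al K).card ≤
      ∑ x ∈ PK G al K, max (54 - 14 * (rn G x : ℝ)) 0 := by
    have e : (12 : ℝ) * (PK G al K).card = ∑ x ∈ PK G al K, (12 : ℝ) := by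
      rw [Finset.sum_const, nsmul_eq_mul, mul_comm]
    rw [e, ← Finset.sum_add_distrib]
    refine Finset.sum_le_sum fun x _ => le_trans (le_of_eq ?_) (le_max_left _ _)
    ring
  linarith

/-- **capacity of a black face**, inner or at the boundary: surplus of strong sides `B`, deficits of
inner sectors `Y` without server -/
theorem cap42 (hG : G.Geo4 al kp U) (K : (cg G).ConnectedComponent) {B Y : Finset (V × V)}
    (hB : B ⊆ (kS G K).filter (fun x => x ∈ BC G ∧ 0 ≤ sp G al x))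
    (hY : Y ⊆ (kS G K).filter (fun x => x.2 ∈ inN G ∧ x ∉ LP42 G al K)) :
    ∑ x ∈ B, sp G al x + ∑ x ∈ Y, (- Ds G al x) + oK14 G K ≤
      uK14 G al K + ∑ x ∈ LP42 G al K, Ds G al x +
      ∑ x ∈ (kS G K).filter (fun x => x ∈ BC G ∧ sp G al x < 0), (- sp G al x) := by
  have hU := U1_14 G hG (al := al) K
  have e1 : ∑ x ∈ (kS G K).filter (fun x => x ∈ BC G), sp G al x =
      ∑ x ∈ (kS G K).filter (fun x => x ∈ BC G ∧ 0 ≤ sp G al x), sp G al x +
      ∑ x ∈ (kS G K).filter (fun x => x ∈ BC G ∧ sp G al x < 0), sp G al x := by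
    rw [← Finset.sum_filter_add_sum_filter_not ((kS G K).filter (fun x => x ∈ BC G))
      (fun x => 0 ≤ sp G al x), Finset.filter_filter, Finset.filter_filter]
    congr 1
    refine Finset.sum_congr ?_ fun _ _ => rfl
    refine Finset.filter_congr fun x _ => ?_
    rw [not_le]
  have e0 : ∑ x ∈ B, sp G al x ≤
      ∑ x ∈ (kS G K).filter (fun x => x ∈ BC G ∧ 0 ≤ sp G al x), sp G al x :=
    Finset.sum_le_sum_of_subset_of_nonneg hB fun x hx _ => (Finset.mem_filter.1 hx).2.2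
  have e2 : ∑ x ∈ (kS G K).filter (fun x => x.2 ∈ inN G), Ds G al x =
      ∑ x ∈ LP42 G al K, Ds G al x +
      ∑ x ∈ (kS G K).filter (fun x => x.2 ∈ inN G ∧ x ∉ LP42 G al K), Ds G al x := by
    rw [← Finset.sum_filter_add_sum_filter_not ((kS G K).filter (fun x => x.2 ∈ inN G))
      (fun x => x ∈ LP42 G al K), Finset.filter_filter, Finset.filter_filter]
    congr 1
    refine Finset.sum_congr ?_ fun _ _ => rfl
    ext x
    rw [Finset.mem_filter]
    exact ⟨fun h => h.2.2, fun h => ⟨LP_sub42 G hG K h, LP_in42 G K h, h⟩⟩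
  have e3 : ∑ x ∈ Y, (- Ds G al x) ≤
      ∑ x ∈ (kS G K).filter (fun x => x.2 ∈ inN G ∧ x ∉ LP42 G al K), (- Ds G al x) := by
    refine Finset.sum_le_sum_of_subset_of_nonneg hY fun x hx _ => ?_
    obtain ⟨h2, h3, h4⟩ := Finset.mem_filter.1 hx
    have := neg42 G hG h2 h3 h4
    linarith
  rw [Finset.sum_neg_distrib (f := fun x => Ds G al x)
    (s := (kS G K).filter (fun x => x.2 ∈ inN G ∧ x ∉ LP42 G al K))] at e3
  rw [Finset.sum_neg_distrib (f := fun x => sp G al x)]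
  linarith

end

end Pool.Agent.PEN.E5
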