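import Pool.Agent.E5.SF54

/-! # PENNY: four consecutive runs 1, 2, 2, 1

The black face is a fan of three triangles. -/

set_option autoImplicit false

namespace Pool.Agent.PEN.E5

open Classical UpperHalfPlane
open Pool.Agent.PEN.Cl

noncomputable section

variable {V : Type} (G : Tg V) {al : ℝ} {kp : V → V → ℝ} {U : ℕ → ℝ}

theorem run54q (hG : G.Geo4 al kp U) {x : V × V} (hx : x ∈ SD G) (i : ℕ) (hi : i < rn G x) :
    tt G (x.2, (G.ap x.2)^[i] x.1) := by
  have h := hasN63 G hG hx
  rw [rn_eq63 G h] at hi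
  exact run_tt42 G h hi

/-- **runs 1, 2, 2, 1**: a fan of three triangles -/
theorem fan1221_54 (hG : G.Geo4 al kp U) {x : V × V} (hx : x ∈ SD G) (h1 : rn G x = 1)
    (h2 : rn G (nx G x) = 2) (h3 : rn G (nx G (nx G x)) = 2)
    (h4 : rn G (nx G (nx G (nx G x))) = 1) :
    tK G (ku G x) = 3 ∧ rn G (nx G (nx G (nx G (nx G x)))) = 3 ∧
      nx G (nx G (nx G (nx G (nx G x)))) = x ∧
      kS G (ku G x) = {x, nx G x, nx G (nx G x), nx G (nx G (nx G x)),
        nx G (nx G (nx G (nx G x)))} := by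
  have hmem : ∀ y ∈ SD G, nx G y ∈ SD G := fun y hy => (nx_mem42 G hG ((mem_SD42 G).1 hy).1).1
  have d1 := hmem x hx
  have d2 := hmem _ d1
  have d3 := hmem _ d2
  have d4 := hmem _ d3
  obtain ⟨w, v0⟩ := x
  have e1 := nx_of54 G hG hx
  rw [h1, Function.iterate_one] at e1
  obtain ⟨v1, hv1⟩ : ∃ v1, G.ap v0 w = v1 := ⟨_, rfl⟩
  dsimp only at e1
  rw [hv1] at e1
  rw [e1] at d1 d2 d3 d4 h2 h3 h4 ⊢
  obtain ⟨a1, a2, a3, a4, a5⟩ := first54 G hG hx (by omega)
  dsimp only at a1 a2 a3 a4 a5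
  rw [hv1] at a2 a3 a4 a5
  -- the second visit
  have e2 := nx_of54 G hG d1
  have b0 := (run54q G hG d1 1 (by omega))
  dsimp only at e2 b0
  rw [Function.iterate_one, a5] at b0
  rw [h2, Function.iterate_succ_apply, Function.iterate_one, a5] at e2
  obtain ⟨v2, hv2⟩ : ∃ v2, G.ap v1 w = v2 := ⟨_, rfl⟩
  rw [hv2] at e2
  rw [e2] at d2 d3 d4 h3 h4 ⊢
  have b1 := tt_rot42 G b0
  have b2 := tt_rot42' G b0
  have b3 := G.ap3 _ _ b0.1
  have b4 := G.ap4 _ _ b0.1
  dsimp only at b1 b2
  rw [hv2] at b1 b2 b3 b4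
  -- the third visit
  have e3 := nx_of54 G hG d2
  have c0 := (run54q G hG d2 1 (by omega))
  dsimp only at e3 c0
  rw [Function.iterate_one, b4] at c0
  rw [h3, Function.iterate_succ_apply, Function.iterate_one, b4] at e3
  obtain ⟨v3, hv3⟩ : ∃ v3, G.ap v2 w = v3 := ⟨_, rfl⟩
  rw [hv3] at e3
  rw [e3] at d3 d4 h4 ⊢
  have c1 := tt_rot42 G c0
  have c2 := tt_rot42' G c0
  have c3 := G.ap3 _ _ c0.1
  have c4 := G.ap4 _ _ c0.1
  dsimp only at c1 c2
  rw [hv3] at c1 c2 c3 c4
  -- the fourth visit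
  have e4 := nx_of54 G hG d3
  rw [h4, Function.iterate_one] at e4
  dsimp only at e4
  rw [c4] at e4
  rw [e4] at d4 ⊢
  have n0 := ((mem_SD42 G).1 hx).2
  have n1 := ((mem_SD42 G).1 d1).2
  have n2 := ((mem_SD42 G).1 d2).2
  have n3 := ((mem_SD42 G).1 d3).2
  have n4 := ((mem_SD42 G).1 d4).2
  -- the fifth visit
  have r5 : rn G (v3, w) = 3 := by
    refine rn_of54 G hG d4 ?_ ?_
    · intro i hi
      have h5 : i = 0 ∨ i = 1 ∨ i = 2 := by omega
      rcases h5 with rfl | rfl | rfl
      · exact c1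
      · rw [Function.iterate_one]
        dsimp only
        rw [c3]
        exact b1
      · rw [Function.iterate_succ_apply, Function.iterate_one]
        dsimp only
        rw [c3, b3]
        exact a2
    · rw [Function.iterate_succ_apply, Function.iterate_succ_apply, Function.iterate_one]
      dsimp only
      rw [c3, b3, a4]
      exact n0
  have e5 : nx G (v3, w) = (w, v0) := by
    rw [nx_of54 G hG d4, r5, Function.iterate_succ_apply, Function.iterate_succ_apply,
      Function.iterate_one]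
    dsimp only
    rw [c3, b3, a4]
  have k1 := (nx_ku63 G hG hx).2
  rw [e1] at k1
  have k2 := (nx_ku63 G hG d1).2
  rw [e2, k1] at k2
  have k3 := (nx_ku63 G hG d2).2
  rw [e3, k2] at k3
  have k4 := (nx_ku63 G hG d3).2
  rw [e4, k3] at k4
  have hcl : ∀ y, ku G y = ku G (w, v0) → y ∈ ({(w, v0), (v0, v1), (v1, v2), (v2, v3), (v3, w),
      (v0, w), (w, v1), (v1, v0), (v1, w), (w, v2), (v2, v1), (v2, w), (w, v3), (v3, v2)} :
      Set (V × V)) := by
    intro y hy
    refine closed54 G (F := {(w, v0), (v0, v1), (v1, v2), (v2, v3), (v3, w),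
      (v0, w), (w, v1), (v1, v0), (v1, w), (w, v2), (v2, v1), (v2, w), (w, v3), (v3, v2)}) ?_ ?_
      (Set.mem_insert _ _) hy
    · intro x hx
      simp only [Set.mem_insert_iff, Set.mem_singleton_iff] at hx ⊢
      rcases hx with rfl | rfl | rfl | rfl | rfl | rfl | rfl | rfl | rfl | rfl | rfl | rfl | rfl |
        rfl <;> simp
    · intro x hx hT
      simp only [Set.mem_insert_iff, Set.mem_singleton_iff] at hx ⊢
      rcases hx with rfl | rfl | rfl | rfl | rfl | rfl | rfl | rfl | rfl | rfl | rfl | rfl | rfl |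
        rfl
      · exact absurd hT n0
      · exact absurd hT n1
      · exact absurd hT n2
      · exact absurd hT n3
      · exact absurd hT n4
      · rw [hv1]; simp
      · rw [a4]; simp
      · rw [a5]; simp
      · rw [hv2]; simp
      · rw [b3]; simp
      · rw [b4]; simp
      · rw [hv3]; simp
      · rw [c3]; simp
      · rw [c4]; simp
  have hT : kT G (ku G (w, v0)) ⊆ {(v0, w), (w, v1), (v1, v0), (v1, w), (w, v2), (v2, v1),
      (v2, w), (w, v3), (v3, v2)} := by
    intro y hy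
    obtain ⟨h5, h6⟩ := (mem_kT42 G).1 hy
    have h7 := hcl y h6
    simp only [Set.mem_insert_iff, Set.mem_singleton_iff] at h7
    simp only [Finset.mem_insert, Finset.mem_singleton]
    rcases h7 with rfl | rfl | rfl | rfl | rfl | h7
    · exact absurd h5 n0
    · exact absurd h5 n1
    · exact absurd h5 n2
    · exact absurd h5 n3
    · exact absurd h5 n4
    · exact h7
  have hc : (kT G (ku G (w, v0))).card ≤ 9 := by
    refine (Finset.card_le_card hT).trans ?_
    refine (Finset.card_insert_le _ _).trans (Nat.succ_le_succ ?_)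
    refine (Finset.card_insert_le _ _).trans (Nat.succ_le_succ ?_)
    refine (Finset.card_insert_le _ _).trans (Nat.succ_le_succ ?_)
    refine (Finset.card_insert_le _ _).trans (Nat.succ_le_succ ?_)
    refine (Finset.card_insert_le _ _).trans (Nat.succ_le_succ ?_)
    refine (Finset.card_insert_le _ _).trans (Nat.succ_le_succ ?_)
    exact Finset.card_le_three
  have h8 := card_kT42 G (ku G (w, v0))
  have h9 := rn_le_tK63 G hG d4
  rw [r5, k4] at h9
  have h10 : tK G (ku G (w, v0)) = 3 := by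
    unfold tK at h9 ⊢
    omega
  refine ⟨h10, r5, e5, ?_⟩
  ext y
  rw [mem_kS42]
  simp only [Finset.mem_insert, Finset.mem_singleton]
  constructor
  · rintro ⟨h5, h6⟩
    have h7 := hcl y h6
    have h11 := ((mem_SD42 G).1 h5).2
    simp only [Set.mem_insert_iff, Set.mem_singleton_iff] at h7
    rcases h7 with rfl | rfl | rfl | rfl | rfl | rfl | rfl | rfl | rfl | rfl | rfl | rfl | rfl |
      rfl
    · exact Or.inl rfl
    · exact Or.inr (Or.inl rfl)
    · exact Or.inr (Or.inr (Or.inl rfl))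
    · exact Or.inr (Or.inr (Or.inr (Or.inl rfl)))
    · exact Or.inr (Or.inr (Or.inr (Or.inr rfl)))
    · exact absurd a1 h11
    · exact absurd a2 h11
    · exact absurd a3 h11
    · exact absurd b0 h11
    · exact absurd b1 h11
    · exact absurd b2 h11
    · exact absurd c0 h11
    · exact absurd c1 h11
    · exact absurd c2 h11
  · rintro (rfl | rfl | rfl | rfl | rfl)
    · exact ⟨hx, rfl⟩
    · exact ⟨d1, k1⟩
    · exact ⟨d2, k2⟩
    · exact ⟨d3, k3⟩
    · exact ⟨d4, k4⟩

/-- **runs 1, 2, 2, 1**: three triangles -/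
theorem quad1221_54 (hG : G.Geo4 al kp U) {x : V × V} (hx : x ∈ SD G) (h1 : rn G x = 1)
    (h2 : rn G (nx G x) = 2) (h3 : rn G (nx G (nx G x)) = 2)
    (h4 : rn G (nx G (nx G (nx G x))) = 1) : tK G (ku G x) = 3 :=
  (fan1221_54 G hG hx h1 h2 h3 h4).1

end

end Pool.Agent.PEN.E5
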