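import Pool.Agent.E5.KbC15
import Pool.Agent.E5.SL2b
import Pool.Agent.E5.Ea14
import Pool.Agent.E5.Er54b
import Pool.Agent.E5.Q54

/-! # PENNY, all small diameters: the price of a black face with outer and white sides

(`θ = y = 1`) The price, the leaves and the visits between two outer darts with at least three triangles
are paid by the payers, the weak sides, the gaps at outer points, the full ears and the leaf corners;
a leaf corner pays `un - 2` only if it is a centre corner. -/

set_option autoImplicit false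

namespace Pool.Agent.PEN.E5

open Classical UpperHalfPlane
open Pool.Agent.PEN.Cl

noncomputable section

variable {V : Type} (G : Tg V) {al : ℝ} {kp : V → V → ℝ} {U : ℕ → ℝ}

/-- the leaves followed by a leaf -/
def Jl (K : (cg G).ConnectedComponent) : Finset (V × V) :=
  (Lv G K).filter (fun x => nx G x ∈ Lv G K)

/-- the single leaves whose corner is no centre corner -/
def Nl (al : ℝ) (K : (cg G).ConnectedComponent) : Finset (V × V) :=
  (Lv G K).filter (fun x => nx G x ∉ Lv G K ∧ (∀ y ∈ Lv G K, nx G y ≠ x) ∧ ¬ Cen61 G al (sg G x))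

/-- the leaves with centre corner -/
def Cl15 (al : ℝ) (K : (cg G).ConnectedComponent) : Finset (V × V) :=
  (Lv G K).filter (fun x => Cen61 G al (sg G x))

/-- the ends of leaf chains -/
def El (K : (cg G).ConnectedComponent) : Finset (V × V) :=
  (Lv G K).filter (fun x => nx G x ∉ Lv G K)

theorem Jl_El15 (K : (cg G).ConnectedComponent) :
    (Jl G K).card + (El G K).card = (Lv G K).card :=
  Finset.card_filter_add_card_filter_not (s := Lv G K) (fun x => nx G x ∈ Lv G K)

theorem El_le15 (K : (cg G).ConnectedComponent) :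
    (El G K).card ≤ (Jl G K).card + (Nl G al K).card + (Cl15 G al K).card := by
  have hsub : El G K ⊆ (Jl G K).image (nx G) ∪ Nl G al K ∪ Cl15 G al K := by
    intro x hx
    obtain ⟨h1, h2⟩ := Finset.mem_filter.1 hx
    by_cases h3 : Cen61 G al (sg G x)
    · exact Finset.mem_union_right _ (Finset.mem_filter.2 ⟨h1, h3⟩)
    by_cases h4 : ∀ y ∈ Lv G K, nx G y ≠ x
    · exact Finset.mem_union_left _ (Finset.mem_union_right _
        (Finset.mem_filter.2 ⟨h1, h2, h4, h3⟩))
    · push Not at h4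
      obtain ⟨y, hy, hyx⟩ := h4
      refine Finset.mem_union_left _ (Finset.mem_union_left _ ?_)
      rw [← hyx]
      exact Finset.mem_image_of_mem _ (Finset.mem_filter.2 ⟨hy, by rw [hyx]; exact h1⟩)
  have h1 := Finset.card_le_card hsub
  have h2 := Finset.card_union_le ((Jl G K).image (nx G) ∪ Nl G al K) (Cl15 G al K)
  have h3 := Finset.card_union_le ((Jl G K).image (nx G)) (Nl G al K)
  have h4 := Finset.card_image_le (s := Jl G K) (f := nx G)
  omega

/-- **the gap inequality** -/
theorem gap15 (hG : G.Geo4 al kp U) (hT : ∀ x ∈ iJ G, gc G al x ≤ 1)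
    (K : (cg G).ConnectedComponent) (hw : ∀ x ∈ kS G K, x ∈ BC G → 0 ≤ sp G al x)
    (hu : uK14 G al K < 1) :
    (Nl G al K).card + oK14 G K ≤ (El G K).card + (PK G al K).card := by
  have hep := ep_pos89 G hG
  have hep1 := ep_lt89 G hG
  have hLS : ∀ x ∈ Lv G K, x ∈ SD G ∧ x.2 ∈ inN G ∧ cv G x.2 = 1 := by
    intro x hx
    obtain ⟨h1, h2, h3⟩ := (mem_Lv15 G).1 hx
    exact ⟨mem_kS89 G h1, h2, h3⟩
  have hgc : ∀ x ∈ Lv G K, nx G x = sg G x ∧ gc G al (sg G x) = 1 - ep al := by
    intro x hx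
    obtain ⟨h1, h2, h3⟩ := hLS x hx
    exact leaf_gc2 G hG hT h1 h2 h3
  have hbc : ∀ x ∈ Lv G K, x ∈ BC G ∧ nx G x ∈ BC G := by
    intro x hx
    obtain ⟨h1, h2, h3⟩ := hLS x hx
    exact BC_head14 G hG h1 h2
  have hkS : ∀ x ∈ Lv G K, x ∈ kS G K ∧ nx G x ∈ kS G K := by
    intro x hx
    have h1 := ((mem_Lv15 G).1 hx).1
    exact ⟨h1, nx_kS89 G hG h1⟩
  have hinj : Set.InjOn (nx G) (Lv G K : Set (V × V)) := fun x hx y hy h =>
    nx_inj42 G hG (hLS x (Finset.mem_coe.1 hx)).1 (hLS y (Finset.mem_coe.1 hy)).1 h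
  have hJL : Jl G K ⊆ Lv G K := Finset.filter_subset _ _
  have hNL : Nl G al K ⊆ Lv G K := Finset.filter_subset _ _
  -- lower bound
  have d1 : Disjoint ((Jl G K).image (nx G)) (Nl G al K) := by
    rw [Finset.disjoint_left]
    intro y hy hy2
    obtain ⟨j, hj, rfl⟩ := Finset.mem_image.1 hy
    obtain ⟨_, _, h3, _⟩ := Finset.mem_filter.1 hy2
    exact h3 j (hJL hj) rfl
  have d2 : Disjoint ((Jl G K).image (nx G) ∪ Nl G al K) ((Nl G al K).image (nx G)) := by
    rw [Finset.disjoint_left]
    intro y hy hy2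
    obtain ⟨n, hn, rfl⟩ := Finset.mem_image.1 hy2
    obtain ⟨_, h2, _, _⟩ := Finset.mem_filter.1 hn
    rcases Finset.mem_union.1 hy with h | h
    · obtain ⟨j, hj, hjn⟩ := Finset.mem_image.1 h
      have h3 := (Finset.mem_filter.1 hj).2
      rw [hjn] at h3
      exact h2 h3
    · exact h2 (hNL h)
  have low : (1 - 2 * ep al) * (Jl G K).card + (1 - ep al) * (Nl G al K).card ≤
      ∑ x ∈ (kS G K).filter (fun x => x ∈ BC G), sp G al x := by
    have hsub : ((Jl G K).image (nx G) ∪ Nl G al K) ∪ (Nl G al K).image (nx G) ⊆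
        (kS G K).filter (fun x => x ∈ BC G) := by
      intro y hy
      rcases Finset.mem_union.1 hy with h | h
      · rcases Finset.mem_union.1 h with h | h
        · obtain ⟨j, hj, rfl⟩ := Finset.mem_image.1 h
          exact Finset.mem_filter.2 ⟨(hkS j (hJL hj)).2, (hbc j (hJL hj)).2⟩
        · exact Finset.mem_filter.2 ⟨(hkS y (hNL h)).1, (hbc y (hNL h)).1⟩
      · obtain ⟨j, hj, rfl⟩ := Finset.mem_image.1 h
        exact Finset.mem_filter.2 ⟨(hkS j (hNL hj)).2, (hbc j (hNL hj)).2⟩
    refine le_trans ?_ (Finset.sum_le_sum_of_subset_of_nonneg hsub fun y hy _ =>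
      hw y (Finset.mem_filter.1 hy).1 (Finset.mem_filter.1 hy).2)
    rw [Finset.sum_union d2, Finset.sum_union d1, Finset.sum_image fun x hx y hy h =>
      hinj (Finset.mem_coe.2 (hJL hx)) (Finset.mem_coe.2 (hJL hy)) h,
      Finset.sum_image fun x hx y hy h =>
      hinj (Finset.mem_coe.2 (hNL hx)) (Finset.mem_coe.2 (hNL hy)) h]
    have e1 : ∑ x ∈ Jl G K, sp G al (nx G x) = (1 - 2 * ep al) * (Jl G K).card := by
      rw [Finset.sum_congr rfl (g := fun _ => 1 - 2 * ep al), Finset.sum_const, nsmul_eq_mul,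
        mul_comm]
      intro x hx
      obtain ⟨h1, h2⟩ := Finset.mem_filter.1 hx
      obtain ⟨h3, h4⟩ := hgc x h1
      obtain ⟨h5, h6⟩ := hgc _ h2
      unfold sp
      rw [h6, h3, h4]
      ring
    have e2 : (1 - ep al) * (Nl G al K).card ≤
        ∑ x ∈ Nl G al K, (sp G al x + sp G al (nx G x)) := by
      rw [mul_comm, ← nsmul_eq_mul, ← Finset.sum_const]
      refine Finset.sum_le_sum fun x hx => ?_
      obtain ⟨h1, h2, h3, h4⟩ := Finset.mem_filter.1 hx
      obtain ⟨h5, h6⟩ := hgc x h1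
      obtain ⟨h7, h8⟩ := hbc x h1
      obtain ⟨h9, h10⟩ := hkS x h1
      have h11 := hw x h9 h7
      have h12 := hw _ h10 h8
      rw [h5] at h12 ⊢
      have h13 : ¬ gc G al x + gc G al (sg G x) + gc G al (sg G (sg G x)) < 2 := fun h14 =>
        h4 ⟨x, ((mem_BC89 G).1 h7).1, rfl, h11, h12, h14⟩
      rw [not_lt] at h13
      unfold sp
      linarith
    rw [Finset.sum_add_distrib] at e2
    linarith
  -- upper bound
  have up : ∑ x ∈ (kS G K).filter (fun x => x.2 ∈ inN G), Ds G al x ≤
      (1 - 2 * ep al) * (Lv G K).card + (PK G al K).card := by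
    have e1 : ∑ x ∈ (kS G K).filter (fun x => x.2 ∈ inN G), Ds G al x ≤
        ∑ x ∈ (kS G K).filter (fun x => x.2 ∈ inN G),
          ((if x ∈ Lv G K then 1 - 2 * ep al else 0) + (if x ∈ PK G al K then 1 else 0)) := by
      refine Finset.sum_le_sum fun x hx => ?_
      obtain ⟨h1, h2⟩ := Finset.mem_filter.1 hx
      have h3 := mem_kS89 G h1
      by_cases h4 : x ∈ Lv G K
      · obtain ⟨_, _, h5⟩ := hLS x h4
        have h6 := Ds_one89 G hG h2 h3 rfl h5
        rw [kv_eq89, leaf_uv39 G hG hT h2 h5] at h6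
        rw [if_pos h4, h6]
        push_cast
        split_ifs <;> linarith
      · rw [if_neg h4, zero_add]
        by_cases h5 : x ∈ PK G al K
        · rw [if_pos h5]
          exact Ds_le_one39 G hG hT h2 ((mem_Sv62 G).2 ⟨h3, rfl⟩)
        · rw [if_neg h5]
          by_contra h6
          push Not at h6
          rcases pos_sector89 G hG h2 h3 rfl h6.le with h7 | h7
          · exact h4 ((mem_Lv15 G).2 ⟨h1, h2, h7⟩)
          · exact h5 (Finset.mem_filter.2 ⟨(mem_Pz15 G).2 ⟨h3, h2, h7, h6.le⟩,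
              ((mem_kS42 G).1 h1).2⟩)
    refine e1.trans ?_
    rw [Finset.sum_add_distrib, ← Finset.sum_filter, ← Finset.sum_filter, Finset.sum_const,
      Finset.sum_const, nsmul_eq_mul, nsmul_eq_mul, mul_one]
    have e2 : ((kS G K).filter (fun x => x.2 ∈ inN G)).filter (fun x => x ∈ Lv G K) = Lv G K := by
      ext x
      rw [Finset.mem_filter, Finset.mem_filter]
      exact ⟨fun h => h.2, fun h => ⟨⟨(hkS x h).1, (hLS x h).2.1⟩, h⟩⟩
    have e3 : (((kS G K).filter (fun x => x.2 ∈ inN G)).filter (fun x => x ∈ PK G al K)).card ≤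
        (PK G al K).card := Finset.card_le_card fun x hx => (Finset.mem_filter.1 hx).2
    have e3' : ((((kS G K).filter (fun x => x.2 ∈ inN G)).filter
      (fun x => x ∈ PK G al K)).card : ℝ) ≤ (PK G al K).card := by exact_mod_cast e3
    rw [e2]
    linarith
  have h1 := U1_14 G hG (al := al) K
  have h2 : (Jl G K).card + (El G K).card = (Lv G K).card := Jl_El15 G K
  have h2' : ((Jl G K).card : ℝ) + (El G K).card = (Lv G K).card := by exact_mod_cast h2
  have h3 : (Nl G al K).card ≤ (El G K).card := by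
    refine Finset.card_le_card fun x hx => ?_
    obtain ⟨h4, h5, _, _⟩ := Finset.mem_filter.1 hx
    exact Finset.mem_filter.2 ⟨h4, h5⟩
  have h3' : ((Nl G al K).card : ℝ) ≤ (El G K).card := by exact_mod_cast h3
  have h6 : (0 : ℝ) ≤ (Nl G al K).card := Nat.cast_nonneg _
  have h7 : ((Nl G al K).card : ℝ) + oK14 G K < (El G K).card + (PK G al K).card + 1 := by
    rw [h1] at low
    rw [← h2'] at up
    nlinarith [mul_nonneg hep.le (sub_nonneg.2 h3'), mul_nonneg hep.le (h6.trans h3')]
  have h8 : (Nl G al K).card + oK14 G K < (El G K).card + (PK G al K).card + 1 := by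
    exact_mod_cast h7
  omega

/-- the visits that are no leaf, no payer and not between two outer darts -/
def Xk (al : ℝ) (K : (cg G).ConnectedComponent) : Finset (V × V) :=
  (kS G K).filter (fun x => x ∉ Lv G K ∧ x ∉ PK G al K ∧ ¬ (x ∈ G.oJ ∧ nx G x ∈ G.oJ))

/-- the exact price with boundary terms -/
theorem price15 (hG : G.Geo4 al kp U) (hT : ∀ x ∈ iJ G, gc G al x ≤ 1)
    (K : (cg G).ConnectedComponent) :
    wx G 1 K + (Lv G K).card + F14 G K + Z14 G K + ((Xk G al K).card + (PK G al K).card) ≤ 6 ∧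
    (Xk G al K).card + (Lv G K).card + (PK G al K).card ≤ (kS G K).card := by
  have hs := kS_card63 G K
  have hPS : PK G al K ⊆ kS G K := fun x hx => (PK_kS54 G hG hx).1
  have hLS : Lv G K ⊆ kS G K := Finset.filter_subset _ _
  have hLP : Disjoint (Lv G K) (PK G al K) := by
    rw [Finset.disjoint_left]
    intro x h1 h2
    obtain ⟨_, h3, h4⟩ := (mem_Lv15 G).1 h1
    obtain ⟨_, _, h5, _⟩ := (mem_Pz15 G).1 (Finset.mem_filter.1 h2).1
    have := leaf_uv39 G hG hT h3 h4
    omega
  have hd1 : Disjoint (fv14 G K) (Lv G K ∪ PK G al K) := by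
    rw [Finset.disjoint_left]
    intro x hx hx2
    have h3 := (Finset.mem_filter.1 hx).2.1
    rcases Finset.mem_union.1 hx2 with h | h
    · exact (Lv_out54 G hG h).2 h3
    · exact (PK_kS54 G hG h).2 h3
  have hd2 : Disjoint (Xk G al K) (fv14 G K ∪ (Lv G K ∪ PK G al K)) := by
    rw [Finset.disjoint_left]
    intro x hx hx2
    obtain ⟨_, h2, h3, h4⟩ := Finset.mem_filter.1 hx
    rcases Finset.mem_union.1 hx2 with h | h
    · exact h4 (Finset.mem_filter.1 h).2
    · rcases Finset.mem_union.1 h with h | h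
      · exact h2 h
      · exact h3 h
  have hall : Xk G al K ∪ (fv14 G K ∪ (Lv G K ∪ PK G al K)) = kS G K := by
    ext x
    constructor
    · intro hx
      rcases Finset.mem_union.1 hx with h | h
      · exact (Finset.mem_filter.1 h).1
      · rcases Finset.mem_union.1 h with h | h
        · exact (Finset.mem_filter.1 h).1
        · rcases Finset.mem_union.1 h with h | h
          · exact hLS h
          · exact hPS h
    · intro hx
      by_cases h1 : x ∈ Lv G K
      · exact Finset.mem_union_right _ (Finset.mem_union_right _ (Finset.mem_union_left _ h1))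
      by_cases h2 : x ∈ PK G al K
      · exact Finset.mem_union_right _ (Finset.mem_union_right _ (Finset.mem_union_right _ h2))
      by_cases h3 : x ∈ G.oJ ∧ nx G x ∈ G.oJ
      · exact Finset.mem_union_right _ (Finset.mem_union_left _ (Finset.mem_filter.2 ⟨hx, h3⟩))
      · exact Finset.mem_union_left _ (Finset.mem_filter.2 ⟨hx, h1, h2, h3⟩)
  have c1 := Finset.card_union_of_disjoint hd2
  have c2 := Finset.card_union_of_disjoint hd1
  have c3 := Finset.card_union_of_disjoint hLP
  rw [hall] at c1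
  have c4 := fv_card14 G K
  refine ⟨?_, by omega⟩
  rw [wx_one89]
  have c5 : (kS G K).card = (Xk G al K).card + ((F14 G K + Z14 G K + T14 G K) +
      ((Lv G K).card + (PK G al K).card)) := by omega
  have c5' : ((kS G K).card : ℝ) = (Xk G al K).card + ((F14 G K + Z14 G K + T14 G K) +
      ((Lv G K).card + (PK G al K).card)) := by exact_mod_cast c5
  have hs' : ((kS G K).card : ℝ) ≤ tK G K + 2 := by exact_mod_cast hs
  have hT0 : (0 : ℝ) ≤ T14 G K := Nat.cast_nonneg _
  linarith

/-- **the price of a black face with white and outer sides** -/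
theorem kb15 (hG : G.Geo4 al kp U) (hT : ∀ x ∈ iJ G, gc G al x ≤ 1)
    {K : (cg G).ConnectedComponent} (hk : ∃ x ∈ kS G K, x ∉ G.oJ ∧ nx G x ∈ G.oJ)
    {p : V × V → ℝ} (hp1 : ∀ x ∈ Lv G K, pm G al (sg G x) ≤ p (sg G x))
    (hp2 : ∀ x ∈ Lv G K, Cen61 G al (sg G x) → (un G al (sg G x) : ℝ) - 2 ≤ p (sg G x)) :
    wx G 1 K + (Lv G K).card + F14 G K + Z14 G K ≤
      ∑ s ∈ PK G al K, max (4 - (rn G s : ℝ)) 0 + 4 * (WsK G al K).card +
      4 * uK14 G al K + 3 * fe14 G K + ∑ x ∈ Lv G K, p (sg G x) := by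
  obtain ⟨hpr, hcd⟩ := price15 G hG hT K
  have hP0 : 0 ≤ ∑ s ∈ PK G al K, max (4 - (rn G s : ℝ)) 0 :=
    Finset.sum_nonneg fun s _ => le_max_right _ _
  have hp0 : ∀ x ∈ Lv G K, 0 ≤ p (sg G x) := fun x hx => (pm_nonneg89 G _).trans (hp1 x hx)
  have hL0 : 0 ≤ ∑ x ∈ Lv G K, p (sg G x) := Finset.sum_nonneg hp0
  have hW0 : (0 : ℝ) ≤ (WsK G al K).card := Nat.cast_nonneg _
  have hU := uK_nonneg14 G hG (al := al) K
  have hF0 : (0 : ℝ) ≤ fe14 G K := Nat.cast_nonneg _
  -- the transitions
  have hnxS : ∀ x ∈ kS G K, nx G x ∈ kS G K := fun x hx => nx_kS89 G hG hx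
  have hinj : Set.InjOn (nx G) (kS G K : Set (V × V)) := fun x hx y hy h =>
    nx_inj42 G hG (mem_kS89 G (Finset.mem_coe.1 hx)) (mem_kS89 G (Finset.mem_coe.1 hy)) h
  obtain ⟨a, ha1, ha2, ha3⟩ := hk
  have haX : a ∈ Xk G al K := by
    refine Finset.mem_filter.2 ⟨ha1, fun h => ?_, fun h => ?_, fun h => ha2 h.1⟩
    · obtain ⟨h1, h2, _⟩ := (mem_Lv15 G).1 h
      have h3 := (BC_head14 G hG (mem_kS89 G h1) h2).2
      exact ((mem_oJ66 G).1 ha3).2.2 ((mem_iJ71 G).1 ((mem_BC89 G).1 h3).1).1
    · obtain ⟨h1, h2, _⟩ := (mem_Pz15 G).1 (Finset.mem_filter.1 h).1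
      have h3 := (BC_head14 G hG h1 h2).2
      exact ((mem_oJ66 G).1 ha3).2.2 ((mem_iJ71 G).1 ((mem_BC89 G).1 h3).1).1
  have hb : ∃ b ∈ kS G K, b ∈ G.oJ ∧ nx G b ∉ G.oJ := by
    by_contra hno
    push Not at hno
    have hcl : ∀ x ∈ (kS G K).filter (fun x => x ∈ G.oJ),
        nx G x ∈ (kS G K).filter (fun x => x ∈ G.oJ) := by
      intro x hx
      obtain ⟨h1, h2⟩ := Finset.mem_filter.1 hx
      exact Finset.mem_filter.2 ⟨hnxS x h1, hno x h1 h2⟩
    have himg : ((kS G K).filter (fun x => x ∈ G.oJ)).image (nx G) =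
        (kS G K).filter (fun x => x ∈ G.oJ) := by
      apply Finset.eq_of_subset_of_card_le
      · intro z hz
        obtain ⟨x, hx, rfl⟩ := Finset.mem_image.1 hz
        exact hcl x hx
      · rw [Finset.card_image_of_injOn]
        intro x hx y hy h
        exact hinj (Finset.mem_filter.1 (Finset.mem_coe.1 hx)).1
          (Finset.mem_filter.1 (Finset.mem_coe.1 hy)).1 h
    have h1 : nx G a ∈ ((kS G K).filter (fun x => x ∈ G.oJ)).image (nx G) := by
      rw [himg]
      exact Finset.mem_filter.2 ⟨hnxS a ha1, ha3⟩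
    obtain ⟨x, hx, hxa⟩ := Finset.mem_image.1 h1
    obtain ⟨h2, h3⟩ := Finset.mem_filter.1 hx
    rw [hinj (Finset.mem_coe.2 h2) (Finset.mem_coe.2 ha1) hxa] at h3
    exact ha2 h3
  obtain ⟨b, hb1, hb2, hb3⟩ := hb
  have hbX : b ∈ Xk G al K := by
    refine Finset.mem_filter.2 ⟨hb1, fun h => ?_, fun h => ?_, fun h => hb3 h.2⟩
    · exact (Lv_out54 G hG h).2 hb2
    · exact (PK_kS54 G hG h).2 hb2
  have hab : a ≠ b := fun h => ha2 (by rw [h]; exact hb2)
  have hX2 : 2 ≤ (Xk G al K).card := by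
    have h1 : ({a, b} : Finset (V × V)) ⊆ Xk G al K := by
      intro x hx
      rcases Finset.mem_insert.1 hx with h | h
      · rw [h]
        exact haX
      · rw [Finset.mem_singleton.1 h]
        exact hbX
    have h2 := Finset.card_le_card h1
    rwa [Finset.card_pair hab] at h2
  have hX2' : (2 : ℝ) ≤ (Xk G al K).card := by exact_mod_cast hX2
  have hPc0 : (0 : ℝ) ≤ (PK G al K).card := Nat.cast_nonneg _
  -- the simple cases
  by_cases c1 : 1 ≤ uK14 G al K
  · linarith
  push Not at c1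
  by_cases c2 : WsK G al K = ∅
  swap
  · have h3 : (1 : ℝ) ≤ (WsK G al K).card := by
      exact_mod_cast Finset.card_pos.2 (Finset.nonempty_iff_ne_empty.2 c2)
    linarith
  by_cases c3 : 6 ≤ (Xk G al K).card + (PK G al K).card
  · have h3 : (6 : ℝ) ≤ (Xk G al K).card + (PK G al K).card := by exact_mod_cast c3
    linarith
  push Not at c3
  have hw : ∀ x ∈ kS G K, x ∈ BC G → 0 ≤ sp G al x := by
    intro x hx hxb
    by_contra h
    push Not at h
    have : x ∈ WsK G al K := Finset.mem_filter.2 ⟨hx, hxb, h⟩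
    rw [c2] at this
    exact absurd this (Finset.notMem_empty x)
  have hgap := gap15 G hG hT K hw c1
  have hJE := Jl_El15 G K
  have hEl := El_le15 G (al := al) K
  -- the number of transitions
  have hkO : ((kS G K).filter (fun x => x ∉ (kS G K).filter (fun x => x ∈ G.oJ) ∧
      nx G x ∈ (kS G K).filter (fun x => x ∈ G.oJ))).card ≤ oK14 G K := by
    unfold oK14
    refine Finset.card_le_card fun x hx => ?_
    obtain ⟨h1, h2, h3⟩ := Finset.mem_filter.1 hx
    have h4 : x ∉ G.oJ := fun h => h2 (Finset.mem_filter.2 ⟨h1, h⟩)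
    refine Finset.mem_filter.2 ⟨h1, (BC_or14 G (mem_kS89 G h1)).resolve_right h4, fun h5 => ?_⟩
    unfold inN at h5
    exact (Finset.mem_filter.1 h5).2 ⟨(nx G x).2, (Finset.mem_filter.1 h3).2⟩
  have hk1 : 1 ≤ ((kS G K).filter (fun x => x ∉ (kS G K).filter (fun x => x ∈ G.oJ) ∧
      nx G x ∈ (kS G K).filter (fun x => x ∈ G.oJ))).card := by
    refine Finset.card_pos.2 ⟨a, Finset.mem_filter.2 ⟨ha1, fun h => ha2 (Finset.mem_filter.1 h).2,
      Finset.mem_filter.2 ⟨hnxS a ha1, ha3⟩⟩⟩
  -- there is a leaf or a payer, so there are triangles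
  have hLP0 : 1 ≤ (Lv G K).card + (PK G al K).card := by omega
  have ht1 : 1 ≤ tK G K := by
    have := kS_card63 G K
    omega
  have hpos : ∀ x ∈ kS G K, 1 ≤ rn G x := by
    intro x hx
    obtain ⟨h1, h2⟩ := (mem_kS42 G).1 hx
    by_contra h0
    have h4 : rn G x = 0 := by omega
    have h5 := (tK_zero54 G hG h1).2 h4
    rw [h2] at h5
    omega
  have hXe : (kS G K).filter (fun x => x ∉ Lv G K ∧ x ∉ PK G al K ∧
      ¬ (x ∈ (kS G K).filter (fun x => x ∈ G.oJ) ∧ nx G x ∈ (kS G K).filter (fun x => x ∈ G.oJ))) =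
      Xk G al K := by
    unfold Xk
    refine Finset.filter_congr fun x hx => ?_
    have h1 : x ∈ (kS G K).filter (fun x => x ∈ G.oJ) ↔ x ∈ G.oJ := by
      rw [Finset.mem_filter]
      exact ⟨fun h => h.2, fun h => ⟨hx, h⟩⟩
    have h2 : nx G x ∈ (kS G K).filter (fun x => x ∈ G.oJ) ↔ nx G x ∈ G.oJ := by
      rw [Finset.mem_filter]
      exact ⟨fun h => h.2, fun h => ⟨hnxS x hx, h⟩⟩
    rw [h1, h2]
  have hLP : Disjoint (Lv G K) (PK G al K) := by
    rw [Finset.disjoint_left]
    intro x h1 h2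
    obtain ⟨_, h3, h4⟩ := (mem_Lv15 G).1 h1
    obtain ⟨_, _, h5, _⟩ := (mem_Pz15 G).1 (Finset.mem_filter.1 h2).1
    have := leaf_uv39 G hG hT h3 h4
    omega
  have hcount := kb_count15 (kS G K) (Lv G K) (PK G al K) ((kS G K).filter (fun x => x ∈ G.oJ))
    (Finset.filter_subset _ _) (fun x hx => (PK_kS54 G hG hx).1) hLP (nx G) hnxS hinj (rn G)
    (tK G K) (kS_card63 G K) hpos ?_ ?_ ?_ hk1 ?_ ?_
  · rw [hXe] at hcount
    -- the price as a sum
    have hwx : wx G 1 K + (Lv G K).card + F14 G K + Z14 G K ≤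
        ∑ x ∈ kS G K, ((if x ∈ Lv G K then 3 - (rn G x : ℝ) else 0) +
          (if x ∈ PK G al K then max (4 - (rn G x : ℝ)) 0 - 2 else 0) +
          (if x ∈ (Xk G al K).filter (fun x => rn G x = 1) then 1 else 0) -
          (if x ∈ (Xk G al K).filter (fun x => 3 ≤ rn G x) then 1 else 0) +
          (if x ∈ (fv14 G K).filter (fun x => rn G x ≤ 1) then 3 else 0)) := by
      have e1 : wx G 1 K = ∑ x ∈ kS G K, (2 - (rn G x : ℝ)) := by
        rw [wx_one89, Finset.sum_sub_distrib, Finset.sum_const, nsmul_eq_mul]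
        have := sum_rn63 G hG K
        have h : ((∑ x ∈ kS G K, rn G x : ℕ) : ℝ) = 3 * tK G K := by exact_mod_cast this
        rw [Nat.cast_sum] at h
        rw [h]
        ring
      have e2 : ((Lv G K).card : ℝ) = ∑ x ∈ kS G K, (if x ∈ Lv G K then (1 : ℝ) else 0) := by
        rw [← Finset.sum_filter, Finset.sum_const, nsmul_eq_mul, mul_one]
        congr 2
        ext x
        rw [Finset.mem_filter]
        exact ⟨fun h => ⟨(Finset.mem_filter.1 h).1, h⟩, fun h => h.2⟩
      have e3 : (F14 G K : ℝ) = ∑ x ∈ kS G K, (if x ∈ (fv14 G K).filter (fun x => 3 ≤ rn G x)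
          then (1 : ℝ) else 0) := by
        rw [← Finset.sum_filter, Finset.sum_const, nsmul_eq_mul, mul_one]
        unfold F14
        congr 2
        ext x
        rw [Finset.mem_filter (s := kS G K)]
        exact ⟨fun h => ⟨(Finset.mem_filter.1 (Finset.mem_filter.1 h).1).1, h⟩, fun h => h.2⟩
      have e4 : (Z14 G K : ℝ) = 0 := by
        rw [Z14_zero54 G hG ha1 ha2, Nat.cast_zero]
      rw [e1, e2, e3, e4, add_zero, ← Finset.sum_add_distrib, ← Finset.sum_add_distrib]
      refine Finset.sum_le_sum fun x hx => ?_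
      have hr := hpos x hx
      have hr' : (1 : ℝ) ≤ rn G x := by exact_mod_cast hr
      by_cases m1 : x ∈ Lv G K
      · have m2 : x ∉ PK G al K := fun h => Finset.disjoint_left.1 hLP m1 h
        have m3 : x ∉ fv14 G K := fun h => (Lv_out54 G hG m1).2 (Finset.mem_filter.1 h).2.1
        have m4 : x ∉ Xk G al K := fun h => (Finset.mem_filter.1 h).2.1 m1
        rw [if_pos m1, if_pos m1, if_neg m2, if_neg (fun h => m3 (Finset.mem_filter.1 h).1),
          if_neg (fun h => m4 (Finset.mem_filter.1 h).1),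
          if_neg (fun h => m4 (Finset.mem_filter.1 h).1),
          if_neg (fun h => m3 (Finset.mem_filter.1 h).1)]
        linarith
      by_cases m2 : x ∈ PK G al K
      · have m3 : x ∉ fv14 G K := fun h => (PK_kS54 G hG m2).2 (Finset.mem_filter.1 h).2.1
        have m4 : x ∉ Xk G al K := fun h => (Finset.mem_filter.1 h).2.2.1 m2
        rw [if_neg m1, if_neg m1, if_pos m2, if_neg (fun h => m3 (Finset.mem_filter.1 h).1),
          if_neg (fun h => m4 (Finset.mem_filter.1 h).1),
          if_neg (fun h => m4 (Finset.mem_filter.1 h).1),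
          if_neg (fun h => m3 (Finset.mem_filter.1 h).1)]
        have := le_max_left (4 - (rn G x : ℝ)) 0
        linarith
      by_cases m3 : x ∈ fv14 G K
      · have m4 : x ∉ Xk G al K := fun h => (Finset.mem_filter.1 h).2.2.2
          (Finset.mem_filter.1 m3).2
        rw [if_neg m1, if_neg m1, if_neg m2,
          if_neg (fun h => m4 (Finset.mem_filter.1 h).1),
          if_neg (fun h => m4 (Finset.mem_filter.1 h).1)]
        rcases Nat.lt_or_ge (rn G x) 2 with m5 | m5
        · rw [if_neg (fun h => by have := (Finset.mem_filter.1 h).2; omega),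
            if_pos (Finset.mem_filter.2 ⟨m3, by omega⟩)]
          linarith
        · rw [if_neg (fun h => by have := (Finset.mem_filter.1 h).2; omega) (c := x ∈ (fv14 G K).filter (fun x => rn G x ≤ 1))]
          split_ifs with m6
          · have m7 := (Finset.mem_filter.1 m6).2
            have m8 : (3 : ℝ) ≤ rn G x := by exact_mod_cast m7
            linarith
          · have m8 : (2 : ℝ) ≤ rn G x := by exact_mod_cast m5
            linarith
      · have m4 : x ∈ Xk G al K := Finset.mem_filter.2 ⟨hx, m1, m2, fun h =>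
          m3 (Finset.mem_filter.2 ⟨hx, h⟩)⟩
        rw [if_neg m1, if_neg m1, if_neg m2, if_neg (fun h => m3 (Finset.mem_filter.1 h).1),
          if_neg (fun h => m3 (Finset.mem_filter.1 h).1)]
        rcases Nat.lt_or_ge (rn G x) 2 with m5 | m5
        · rw [if_pos (Finset.mem_filter.2 ⟨m4, by omega⟩),
            if_neg (fun h => by have := (Finset.mem_filter.1 h).2; omega)]
          linarith
        · rw [if_neg (fun h => by have := (Finset.mem_filter.1 h).2; omega) (c := x ∈ (Xk G al K).filter (fun x => rn G x = 1))]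
          split_ifs with m6
          · have m7 := (Finset.mem_filter.1 m6).2
            have m8 : (3 : ℝ) ≤ rn G x := by exact_mod_cast m7
            linarith
          · have m8 : (2 : ℝ) ≤ rn G x := by exact_mod_cast m5
            linarith
    have hval : ∑ x ∈ kS G K, ((if x ∈ Lv G K then 3 - (rn G x : ℝ) else 0) +
          (if x ∈ PK G al K then max (4 - (rn G x : ℝ)) 0 - 2 else 0) +
          (if x ∈ (Xk G al K).filter (fun x => rn G x = 1) then 1 else 0) -
          (if x ∈ (Xk G al K).filter (fun x => 3 ≤ rn G x) then 1 else 0) +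
          (if x ∈ (fv14 G K).filter (fun x => rn G x ≤ 1) then 3 else 0)) =
        ∑ x ∈ Lv G K, (3 - (rn G x : ℝ)) +
        (∑ x ∈ PK G al K, max (4 - (rn G x : ℝ)) 0 - 2 * (PK G al K).card) +
        ((Xk G al K).filter (fun x => rn G x = 1)).card -
        ((Xk G al K).filter (fun x => 3 ≤ rn G x)).card + 3 * fe14 G K := by
      have hf : ∀ (A : Finset (V × V)) (f : V × V → ℝ), A ⊆ kS G K →
          ∑ x ∈ kS G K, (if x ∈ A then f x else 0) = ∑ x ∈ A, f x := by
        intro A f hA
        rw [← Finset.sum_filter]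
        refine Finset.sum_congr ?_ fun _ _ => rfl
        ext x
        rw [Finset.mem_filter]
        exact ⟨fun h => h.2, fun h => ⟨hA h, h⟩⟩
      have hPs : ∑ x ∈ PK G al K, (max (4 - (rn G x : ℝ)) 0 - 2) =
          ∑ x ∈ PK G al K, max (4 - (rn G x : ℝ)) 0 - 2 * (PK G al K).card := by
        rw [Finset.sum_sub_distrib, Finset.sum_const, nsmul_eq_mul]
        ring
      rw [Finset.sum_add_distrib, Finset.sum_sub_distrib, Finset.sum_add_distrib,
        Finset.sum_add_distrib, hf (Lv G K) (fun x => 3 - (rn G x : ℝ)) (Finset.filter_subset _ _),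
        hf (PK G al K) (fun x => max (4 - (rn G x : ℝ)) 0 - 2) (fun x hx => (PK_kS54 G hG hx).1),
        hf ((Xk G al K).filter (fun x => rn G x = 1)) (fun _ => (1 : ℝ))
          ((Finset.filter_subset _ _).trans (Finset.filter_subset _ _)),
        hf ((Xk G al K).filter (fun x => 3 ≤ rn G x)) (fun _ => (1 : ℝ))
          ((Finset.filter_subset _ _).trans (Finset.filter_subset _ _)),
        hf ((fv14 G K).filter (fun x => rn G x ≤ 1)) (fun _ => (3 : ℝ))
          ((Finset.filter_subset _ _).trans (Finset.filter_subset _ _)),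
        hPs, Finset.sum_const, Finset.sum_const, Finset.sum_const, nsmul_eq_mul, nsmul_eq_mul,
        nsmul_eq_mul]
      unfold fe14
      ring
    have hpay : ∑ x ∈ Lv G K, (3 - (rn G x : ℝ)) + (Lv G K).card + (Cl15 G al K).card ≤
        ∑ x ∈ Lv G K, p (sg G x) := by
      have e1 : ((Cl15 G al K).card : ℝ) =
          ∑ x ∈ Lv G K, (if Cen61 G al (sg G x) then (1 : ℝ) else 0) := by
        rw [← Finset.sum_filter, Finset.sum_const, nsmul_eq_mul, mul_one]
        rfl
      have e2 : ((Lv G K).card : ℝ) = ∑ x ∈ Lv G K, (1 : ℝ) := by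
        rw [Finset.sum_const, nsmul_eq_mul, mul_one]
      rw [e1, e2, ← Finset.sum_add_distrib, ← Finset.sum_add_distrib]
      refine Finset.sum_le_sum fun x hx => ?_
      have h1 := leaf_sum15 G hG hT hx
      have h2 : (rn G x : ℝ) + un G al (sg G x) = 7 := by exact_mod_cast h1
      split_ifs with h3
      · have := hp2 x hx h3
        linarith
      · have h4 := hp1 x hx
        have h5 : (un G al (sg G x) : ℝ) - 3 ≤ pm G al (sg G x) := le_max_left _ _
        linarith
    rw [hval] at hwx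
    have hfin : ((Xk G al K).filter (fun x => rn G x = 1)).card ≤
        ((Xk G al K).filter (fun x => 3 ≤ rn G x)).card + (Lv G K).card + (Cl15 G al K).card +
        2 * (PK G al K).card := by
      have hE : (El G K).card = ((Lv G K).filter (fun x => nx G x ∉ Lv G K)).card := rfl
      omega
    have hfin' : (((Xk G al K).filter (fun x => rn G x = 1)).card : ℝ) ≤
        ((Xk G al K).filter (fun x => 3 ≤ rn G x)).card + (Lv G K).card + (Cl15 G al K).card +
        2 * (PK G al K).card := by exact_mod_cast hfin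
    linarith
  · intro ht x hx h1 h2
    obtain ⟨h6, h7⟩ := (mem_kS42 G).1 hx
    obtain ⟨_, _, _, h8⟩ := single54 G hG h6 rfl h2 h1
    rw [(nx_ku63 G hG h6).2, h7] at h8
    omega
  · intro ht x hx h1 h2 h3
    obtain ⟨h6, h7⟩ := (mem_kS42 G).1 hx
    have h9 := pair121_89 G hG h6 h1 h2 h3
    rw [h7] at h9
    omega
  · intro ht x hx h1 h2 h3 h4
    obtain ⟨h6, h7⟩ := (mem_kS42 G).1 hx
    have h9 := quad1221_54 G hG h6 h1 h2 h3 h4
    rw [h7] at h9
    omega
  · have hE : (El G K).card = ((Lv G K).filter (fun x => nx G x ∉ Lv G K)).card := rfl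
    omega
  · rw [hXe]
    omega

end

end Pool.Agent.PEN.E5
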