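import Mathlib

/-! # PENNY, all small diameters: the counting lemma for black faces at the boundary -/

set_option autoImplicit false

namespace Pool.Agent.PEN.E5

/-- **the counting lemma**: `L` leaves, `P` payers, `O` outer sides; `X` the other visits that are not
between two outer sides. The sectors of run one in `X` are at most the leaf chains, the stretches, the
payers and the sectors in `X` with run at least three. -/
theorem kb_count15 {α : Type} [DecidableEq α] (S L P O : Finset α) (hL : L ⊆ S) (hP : P ⊆ S)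
    (hLP : Disjoint L P) (nx : α → α) (hm : ∀ x ∈ S, nx x ∈ S) (hi : Set.InjOn nx S)
    (r : α → ℕ) (t : ℕ) (h2 : S.card ≤ t + 2) (h3 : ∀ x ∈ S, 1 ≤ r x)
    (h4 : 2 ≤ t → ∀ x ∈ S, r x = 1 → r (nx x) ≠ 1)
    (h5 : 3 ≤ t → ∀ x ∈ S, r x = 1 → r (nx x) = 2 → r (nx (nx x)) ≠ 1)
    (h6 : 4 ≤ t → ∀ x ∈ S, r x = 1 → r (nx x) = 2 → r (nx (nx x)) = 2 →
      r (nx (nx (nx x))) ≠ 1)
    (hk : 1 ≤ (S.filter (fun x => x ∉ O ∧ nx x ∈ O)).card)
    (hlk : (S.filter (fun x => x ∉ O ∧ nx x ∈ O)).card ≤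
      (L.filter (fun x => nx x ∉ L)).card + P.card)
    (hlen : (S.filter (fun x => x ∉ L ∧ x ∉ P ∧ ¬ (x ∈ O ∧ nx x ∈ O))).card + P.card ≤ 5) :
    ((S.filter (fun x => x ∉ L ∧ x ∉ P ∧ ¬ (x ∈ O ∧ nx x ∈ O))).filter
        (fun x => r x = 1)).card ≤
      (L.filter (fun x => nx x ∉ L)).card + (S.filter (fun x => x ∉ O ∧ nx x ∈ O)).card + P.card +
      ((S.filter (fun x => x ∉ L ∧ x ∉ P ∧ ¬ (x ∈ O ∧ nx x ∈ O))).filter
        (fun x => 3 ≤ r x)).card := by
  obtain ⟨X, hX⟩ : ∃ X, X = S.filter (fun x => x ∉ L ∧ x ∉ P ∧ ¬ (x ∈ O ∧ nx x ∈ O)) := ⟨_, rfl⟩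
  obtain ⟨T1, hT1⟩ : ∃ T1, T1 = (S.filter (fun x => x ∉ O ∧ nx x ∈ O)).image nx := ⟨_, rfl⟩
  obtain ⟨T2, hT2⟩ : ∃ T2, T2 = (S.filter (fun x => x ∉ L ∧ nx x ∈ L)).image nx := ⟨_, rfl⟩
  obtain ⟨E, hE⟩ : ∃ E, E = X.filter (fun x => r x = 1) := ⟨_, rfl⟩
  obtain ⟨W, hW⟩ : ∃ W, W = X.filter (fun x => r x = 2) := ⟨_, rfl⟩
  obtain ⟨Y, hY⟩ : ∃ Y, Y = X.filter (fun x => 3 ≤ r x) := ⟨_, rfl⟩
  obtain ⟨k, hkk⟩ : ∃ k, k = (S.filter (fun x => x ∉ O ∧ nx x ∈ O)).card := ⟨_, rfl⟩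
  obtain ⟨lam, hlam⟩ : ∃ lam, lam = (L.filter (fun x => nx x ∉ L)).card := ⟨_, rfl⟩
  rw [← hX] at hlen ⊢
  rw [← hE, ← hY, ← hkk, ← hlam]
  rw [← hkk] at hk hlk
  rw [← hlam] at hlk
  have hXS : X ⊆ S := by rw [hX]; exact Finset.filter_subset _ _
  have hXm : ∀ x, x ∈ X ↔ x ∈ S ∧ x ∉ L ∧ x ∉ P ∧ ¬ (x ∈ O ∧ nx x ∈ O) := by
    intro x
    rw [hX, Finset.mem_filter]
  have mE : ∀ x, x ∈ E ↔ x ∈ X ∧ r x = 1 := by intro x; rw [hE, Finset.mem_filter]
  have mW : ∀ x, x ∈ W ↔ x ∈ X ∧ r x = 2 := by intro x; rw [hW, Finset.mem_filter]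
  have mY : ∀ x, x ∈ Y ↔ x ∈ X ∧ 3 ≤ r x := by intro x; rw [hY, Finset.mem_filter]
  -- the classification of the next sector
  have cls : ∀ x ∈ X, nx x ∈ T1 ∪ T2 ∪ P ∪ W ∪ Y ∨ nx x ∈ E := by
    intro x hx
    obtain ⟨x1, x2, x3, x4⟩ := (hXm x).1 hx
    have hnS := hm x x1
    by_cases a1 : nx x ∈ O
    · left
      refine Finset.mem_union_left _ (Finset.mem_union_left _ (Finset.mem_union_left _
        (Finset.mem_union_left _ ?_)))
      rw [hT1]
      exact Finset.mem_image_of_mem _ (Finset.mem_filter.2 ⟨x1, fun h => x4 ⟨h, a1⟩, a1⟩)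
    by_cases a2 : nx x ∈ L
    · left
      refine Finset.mem_union_left _ (Finset.mem_union_left _ (Finset.mem_union_left _
        (Finset.mem_union_right _ ?_)))
      rw [hT2]
      exact Finset.mem_image_of_mem _ (Finset.mem_filter.2 ⟨x1, x2, a2⟩)
    by_cases a3 : nx x ∈ P
    · left
      exact Finset.mem_union_left _ (Finset.mem_union_left _ (Finset.mem_union_right _ a3))
    have a4 : nx x ∈ X := (hXm _).2 ⟨hnS, a2, a3, fun h => a1 h.1⟩
    have a5 := h3 _ hnS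
    rcases Nat.lt_or_ge (r (nx x)) 2 with a6 | a6
    · right
      exact (mE _).2 ⟨a4, by omega⟩
    · left
      rcases Nat.lt_or_ge (r (nx x)) 3 with a7 | a7
      · exact Finset.mem_union_left _ (Finset.mem_union_right _ ((mW _).2 ⟨a4, by omega⟩))
      · exact Finset.mem_union_right _ ((mY _).2 ⟨a4, a7⟩)
  obtain ⟨T, hT⟩ : ∃ T, T = T1 ∪ T2 ∪ P ∪ W ∪ Y := ⟨_, rfl⟩
  rw [← hT] at cls
  -- the size of `T`
  have c1 : T1.card ≤ k := by
    rw [hT1, hkk]
    exact Finset.card_image_le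
  have c2 : T2.card ≤ lam := by
    have e1 : (S.filter (fun x => nx x ∈ L)).card = L.card := by
      have himg : S.image nx = S := by
        apply Finset.eq_of_subset_of_card_le
        · intro z hz
          obtain ⟨x, hx, rfl⟩ := Finset.mem_image.1 hz
          exact hm x hx
        · rw [Finset.card_image_of_injOn hi]
      have e2 : (S.filter (fun x => nx x ∈ L)).image nx = L := by
        ext y
        rw [Finset.mem_image]
        constructor
        · rintro ⟨x, hx, rfl⟩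
          exact (Finset.mem_filter.1 hx).2
        · intro hy
          have h := hL hy
          rw [← himg, Finset.mem_image] at h
          obtain ⟨x, hx, rfl⟩ := h
          exact ⟨x, Finset.mem_filter.2 ⟨hx, hy⟩, rfl⟩
      rw [← e2, Finset.card_image_of_injOn]
      · rw [e2]
      · intro x hx y hy h
        exact hi (Finset.mem_filter.1 (Finset.mem_coe.1 hx)).1
          (Finset.mem_filter.1 (Finset.mem_coe.1 hy)).1 h
    have e3 := Finset.card_filter_add_card_filter_not (s := S.filter (fun x => nx x ∈ L))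
      (fun x => x ∈ L)
    rw [Finset.filter_filter, Finset.filter_filter] at e3
    have e4 := Finset.card_filter_add_card_filter_not (s := L) (fun x => nx x ∈ L)
    have e5 : S.filter (fun x => nx x ∈ L ∧ x ∈ L) = L.filter (fun x => nx x ∈ L) := by
      ext x
      rw [Finset.mem_filter, Finset.mem_filter]
      exact ⟨fun h => ⟨h.2.2, h.2.1⟩, fun h => ⟨hL h.1, h.2, h.1⟩⟩
    have e6 : S.filter (fun x => nx x ∈ L ∧ x ∉ L) = S.filter (fun x => x ∉ L ∧ nx x ∈ L) :=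
      Finset.filter_congr fun x _ => and_comm
    rw [e5, e6] at e3
    rw [hT2]
    refine Finset.card_image_le.trans ?_
    omega
  have c3 : T.card ≤ k + lam + P.card + W.card + Y.card := by
    rw [hT]
    have d1 := Finset.card_union_le (T1 ∪ T2 ∪ P ∪ W) Y
    have d2 := Finset.card_union_le (T1 ∪ T2 ∪ P) W
    have d3 := Finset.card_union_le (T1 ∪ T2) P
    have d4 := Finset.card_union_le T1 T2
    omega
  have c4 : X.card = E.card + W.card + Y.card := by
    rw [hE, hW, hY, Finset.card_filter, Finset.card_filter, Finset.card_filter,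
      Finset.card_eq_sum_ones, ← Finset.sum_add_distrib, ← Finset.sum_add_distrib]
    refine Finset.sum_congr rfl fun x hx => ?_
    have := h3 x (hXS hx)
    split_ifs <;> omega
  have c5 : X.card + L.card + P.card ≤ S.card := by
    have hd1 : Disjoint X (L ∪ P) := by
      rw [Finset.disjoint_left]
      intro x hx hx2
      obtain ⟨_, x2, x3, _⟩ := (hXm x).1 hx
      rcases Finset.mem_union.1 hx2 with h | h
      · exact x2 h
      · exact x3 h
    have hd2 := Finset.card_union_of_disjoint hLP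
    have hd3 := Finset.card_union_of_disjoint hd1
    have hd4 : X ∪ (L ∪ P) ⊆ S := Finset.union_subset hXS (Finset.union_subset hL hP)
    have hd5 := Finset.card_le_card hd4
    omega
  have c6 : lam ≤ L.card := by
    rw [hlam]
    exact Finset.card_filter_le _ _
  by_contra hcon
  push Not at hcon
  -- at least three sectors of run one
  have t2 : 2 ≤ t := by omega
  have inE : ∀ x ∈ E, nx x ∈ T := by
    intro x hx
    obtain ⟨x1, x2⟩ := (mE x).1 hx
    refine (cls x x1).resolve_right fun h => ?_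
    exact h4 t2 x (hXS x1) x2 ((mE _).1 h).2
  obtain ⟨N, hN⟩ : ∃ N, N = E.image nx := ⟨_, rfl⟩
  have hNc : N.card = E.card := by
    rw [hN, Finset.card_image_of_injOn]
    intro x hx y hy h
    exact hi (hXS ((mE x).1 (Finset.mem_coe.1 hx)).1) (hXS ((mE y).1 (Finset.mem_coe.1 hy)).1) h
  have hNT : N ⊆ T := by
    rw [hN]
    intro y hy
    obtain ⟨x, hx, rfl⟩ := Finset.mem_image.1 hy
    exact inE x hx
  have d0 := Finset.card_le_card hNT
  have t3 : 3 ≤ t := by omega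
  have notN : ∀ w ∈ X, r w ≠ 1 → nx w ∉ N := by
    intro w hw hr h
    rw [hN] at h
    obtain ⟨x, hx, hxw⟩ := Finset.mem_image.1 h
    obtain ⟨x1, x2⟩ := (mE x).1 hx
    have := hi (hXS x1) (hXS hw) hxw
    rw [this] at x2
    exact hr x2
  have inW : ∀ w ∈ W ∩ N, nx w ∈ T \ N := by
    intro w hw
    obtain ⟨w1, w2⟩ := Finset.mem_inter.1 hw
    obtain ⟨w3, w4⟩ := (mW w).1 w1
    refine Finset.mem_sdiff.2 ⟨(cls w w3).resolve_right fun h => ?_, notN w w3 (by omega)⟩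
    rw [hN] at w2
    obtain ⟨x, hx, hxw⟩ := Finset.mem_image.1 w2
    obtain ⟨x1, x2⟩ := (mE x).1 hx
    refine h5 t3 x (hXS x1) x2 (by rw [hxw]; exact w4) ?_
    rw [hxw]
    exact ((mE _).1 h).2
  have d1 : (W ∩ N).card ≤ (T \ N).card := by
    refine Finset.card_le_card_of_injOn nx (fun w hw => Finset.mem_coe.2 (inW w hw)) ?_
    intro x hx y hy h
    exact hi (hXS ((mW x).1 (Finset.mem_inter.1 (Finset.mem_coe.1 hx)).1).1)
      (hXS ((mW y).1 (Finset.mem_inter.1 (Finset.mem_coe.1 hy)).1).1) h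
  have hWT : W ⊆ T := by
    rw [hT]
    exact fun x hx => Finset.mem_union_left _ (Finset.mem_union_right _ hx)
  have d2 : (W \ N).card ≤ (T \ N).card :=
    Finset.card_le_card (Finset.sdiff_subset_sdiff hWT (Finset.Subset.refl _))
  have d3 : (T \ N).card + N.card = T.card := Finset.card_sdiff_add_card_eq_card hNT
  have d4 := Finset.card_inter_add_card_sdiff W N
  have d5 : W.card = 2 ∧ (T \ N).card = 1 ∧ (W ∩ N).card = 1 ∧ (W \ N).card = 1 ∧
      L.card ≠ 0 ∧ X.card = 5 := by omega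
  obtain ⟨f1, f2, f3, f4, f5, f6⟩ := d5
  obtain ⟨w1, hw1⟩ := Finset.card_eq_one.1 f3
  obtain ⟨w2, hw2⟩ := Finset.card_eq_one.1 f4
  obtain ⟨z, hz⟩ := Finset.card_eq_one.1 f2
  have g1 : w1 ∈ W ∩ N := by rw [hw1]; exact Finset.mem_singleton_self _
  have g2 : w2 ∈ W \ N := by rw [hw2]; exact Finset.mem_singleton_self _
  have g3 := inW w1 g1
  have g4 : w2 ∈ T \ N := Finset.sdiff_subset_sdiff hWT (Finset.Subset.refl _) g2
  rw [hz, Finset.mem_singleton] at g3 g4
  have g5 : nx w1 = w2 := g3.trans g4.symm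
  obtain ⟨g6, g7⟩ := Finset.mem_inter.1 g1
  obtain ⟨g8, g9⟩ := Finset.mem_sdiff.1 g2
  obtain ⟨u1, u2⟩ := (mW w1).1 g6
  obtain ⟨u3, u4⟩ := (mW w2).1 g8
  have g10 : nx w2 ∈ E := by
    refine (cls w2 u3).resolve_left fun h => ?_
    have h7 : nx w2 ∈ T \ N := Finset.mem_sdiff.2 ⟨h, notN w2 u3 (by omega)⟩
    rw [hz, Finset.mem_singleton] at h7
    have h8 : nx w2 = nx w1 := by rw [h7, g5, g4]
    have h9 := hi (hXS u3) (hXS u1) h8
    rw [h9] at g9
    exact g9 g7
  rw [hN] at g7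
  obtain ⟨x, hx, hxw⟩ := Finset.mem_image.1 g7
  obtain ⟨x1, x2⟩ := (mE x).1 hx
  refine h6 (by omega) x (hXS x1) x2 (by rw [hxw]; exact u2) (by rw [hxw, g5]; exact u4) ?_
  rw [hxw, g5]
  exact ((mE _).1 g10).2

end Pool.Agent.PEN.E5
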