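import Pool.Agent.E5.SF54
import Pool.Agent.E5.Hg2

/-! # PENNY: pure fans

A black face all whose contact triangles contain the head of one of its sectors. -/

set_option autoImplicit false

namespace Pool.Agent.PEN.E5

open Classical UpperHalfPlane
open Pool.Agent.PEN.Cl

noncomputable section

variable {V : Type} (G : Tg V) {al : ℝ} {kp : V → V → ℝ} {U : ℕ → ℝ}

/-- every triangle of a pure fan is in the run of the apex -/
theorem fan_tri54 (hG : G.Geo4 al kp U) {x : V × V} (hx : x ∈ SD G)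
    (ht : rn G x = tK G (ku G x)) {z : V × V} (hz : z ∈ kT G (ku G x)) :
    ∃ w ∈ rd G x, G.tri w = G.tri z := by
  have h1 := rt_sub63 G hG hx
  have h2 := card_rt63 G hG hx
  have h3 : rt G x = (kT G (ku G x)).image G.tri := by
    refine Finset.eq_of_subset_of_card_le h1 ?_
    have h4 : ((kT G (ku G x)).image G.tri).card = tK G (ku G x) := rfl
    rw [h4, h2, ht]
  have h5 : G.tri z ∈ rt G x := by
    rw [h3]
    exact Finset.mem_image_of_mem _ hz
  exact (mem_rt63 G).1 h5

/-- the apex is a corner of every triangle of a pure fan -/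
theorem fan_apex54 (hG : G.Geo4 al kp U) {x : V × V} (hx : x ∈ SD G)
    (ht : rn G x = tK G (ku G x)) {z : V × V} (hz : z ∈ kT G (ku G x)) :
    (z.1 = x.2 ∧ z ∈ rd G x) ∨ z.2 = x.2 ∨ G.ap z.1 z.2 = x.2 := by
  obtain ⟨w, hw, he⟩ := fan_tri54 G hG hx ht hz
  obtain ⟨h1, h2, _⟩ := rd_prop63 G hG hx hw
  have h3 := ((mem_kT42 G).1 hz).1
  rcases (tri_eq_iff G h1.1 h3.1).1 he with h | h | h
  · left
    rw [h]
    exact ⟨h2, hw⟩
  · right; right
    have e1 : z.1 = w.2 := by rw [h]
    have e2 : z.2 = G.ap w.1 w.2 := by rw [h]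
    rw [e1, e2, G.ap3 _ _ h1.1]
    exact h2
  · right; left
    rw [h]
    exact h2

/-- the other sectors of a pure fan have other heads -/
theorem fan_head54 (hG : G.Geo4 al kp U) {x : V × V} (hx : x ∈ SD G)
    (ht : rn G x = tK G (ku G x)) (h0 : 1 ≤ tK G (ku G x)) {y : V × V}
    (hy : y ∈ kS G (ku G x)) (hh : y.2 = x.2) : y = x := by
  obtain ⟨h1, h2⟩ := (mem_kS42 G).1 hy
  have hpos : 0 < rn G y := by
    have := tK_zero54 G hG h1
    rw [h2] at this
    by_contra hc
    have := this.2 (by omega)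
    omega
  have h3 : (y.2, y.1) ∈ rd G y := (mem_rd63 G).2 ⟨0, hpos, rfl⟩
  obtain ⟨h4, h5, h6⟩ := rd_prop63 G hG h1 h3
  have h7 : (y.2, y.1) ∈ kT G (ku G x) := (mem_kT42 G).2 ⟨h4, h6.trans h2⟩
  rcases fan_apex54 G hG hx ht h7 with h | h | h
  · by_contra hne
    exact Finset.disjoint_left.1 (rd_disj63 G hG h1 hx hne) h3 h.2
  · exact absurd (hh.trans h.symm) (G.ne _ _ (G.sub h4.1))
  · exact absurd (h.trans hh.symm) (G.ne _ _ (G.sub (G.ap2 _ _ h4.1)))

/-- **the sectors of a pure fan** -/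
theorem fan_run54 (hG : G.Geo4 al kp U) {x : V × V} (hx : x ∈ SD G)
    (ht : rn G x = tK G (ku G x)) (h0 : 1 ≤ tK G (ku G x)) {y : V × V}
    (hy : y ∈ kS G (ku G x)) (hne : y ≠ x) :
    y.2 ≠ x.2 ∧ (rn G y = 1 ∨ rn G y = 2) ∧ (rn G y = 2 → G.ap y.2 y.1 = x.2) ∧
      (rn G y = 1 ↔ y = nx G x ∨ nx G y = x) := by
  obtain ⟨h1, h2⟩ := (mem_kS42 G).1 hy
  have hh : y.2 ≠ x.2 := fun h => hne (fan_head54 G hG hx ht h0 hy h)
  have hpos : 0 < rn G y := by
    have := tK_zero54 G hG h1
    rw [h2] at this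
    by_contra hc
    have := this.2 (by omega)
    omega
  have hN := hasN63 G hG h1
  have hr := rn_eq63 G hN
  have hrun : ∀ i < rn G y, tt G (y.2, (G.ap y.2)^[i] y.1) := fun i hi => by
    rw [hr] at hi
    exact run_tt42 G hN hi
  have hend : ¬ tt G (y.2, (G.ap y.2)^[rn G y] y.1) := by
    rw [hr]
    exact Nat.find_spec hN
  -- the apex is on every triangle
  have hhit : ∀ i < rn G y, (G.ap y.2)^[i] y.1 = x.2 ∨ (G.ap y.2)^[i + 1] y.1 = x.2 := by
    intro i hi
    have h3 : (y.2, (G.ap y.2)^[i] y.1) ∈ rd G y := (mem_rd63 G).2 ⟨i, hi, rfl⟩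
    obtain ⟨h4, h5, h6⟩ := rd_prop63 G hG h1 h3
    have h7 : (y.2, (G.ap y.2)^[i] y.1) ∈ kT G (ku G x) := (mem_kT42 G).2 ⟨h4, h6.trans h2⟩
    rcases fan_apex54 G hG hx ht h7 with h | h | h
    · exact absurd h.1 hh
    · exact Or.inl h
    · right
      rw [Function.iterate_succ_apply']
      exact h
  -- the neighbours are different
  have hinj : ∀ i j, i < j → j ≤ rn G y → (G.ap y.2)^[i] y.1 ≠ (G.ap y.2)^[j] y.1 := by
    intro i j hij hj he
    rcases Nat.lt_or_ge j (rn G y) with h | h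
    · have he' : (y.2, (G.ap y.2)^[i] y.1) = (y.2, (G.ap y.2)^[j] y.1) := by rw [he]
      have h5 := (rd_uniq63 G hG h1 h1 (i := i) (j := j) (by omega) h he').2
      omega
    · have h3 : j = rn G y := by omega
      rw [h3] at he
      have h4 := hrun i (by omega)
      rw [he] at h4
      exact hend h4
  have hle : rn G y ≤ 2 := by
    by_contra hc
    have a0 := hhit 0 (by omega)
    have a2 := hhit 2 (by omega)
    rcases a0 with a | a <;> rcases a2 with b | b
    · exact hinj 0 2 (by omega) (by omega) (a.trans b.symm)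
    · exact hinj 0 3 (by omega) (by omega) (a.trans b.symm)
    · exact hinj 1 2 (by omega) (by omega) (a.trans b.symm)
    · exact hinj 1 3 (by omega) (by omega) (a.trans b.symm)
  have h2' : rn G y = 2 → G.ap y.2 y.1 = x.2 := by
    intro h
    have a0 := hhit 0 (by omega)
    have a1 := hhit 1 (by omega)
    rcases a0 with a | a
    · rcases a1 with b | b
      · exact absurd (a.trans b.symm) (hinj 0 1 (by omega) (by omega))
      · exact absurd (a.trans b.symm) (hinj 0 2 (by omega) (by omega))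
    · exact a
  refine ⟨hh, by omega, h2', ?_⟩
  have hT0 := hrun 0 hpos
  constructor
  · intro h
    rcases hhit 0 (by omega) with a | a
    · left
      obtain ⟨w, hw, hwy⟩ := nx_surj42 G hG h1
      have e1 := nx_of54 G hG hw
      have e2 : y.1 = w.2 := by
        rw [← hwy, e1]
      have e3 : w.2 = x.2 := by
        rw [← e2]
        exact a
      have e4 : w ∈ kS G (ku G x) := by
        refine (mem_kS42 G).2 ⟨hw, ?_⟩
        rw [← h2, ← hwy]
        exact (nx_ku63 G hG hw).2.symm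
      rw [← hwy, fan_head54 G hG hx ht h0 e4 e3]
    · right
      have e1 := nx_kS89 G hG hy
      refine fan_head54 G hG hx ht h0 e1 ?_
      rw [nx_of54 G hG h1, h]
      exact a
  · rintro (h | h)
    · by_contra hc
      have h3 : rn G y = 2 := by omega
      have h4 := h2' h3
      have h5 : y.1 = x.2 := by rw [h, nx_of54 G hG hx]
      rw [← h5] at h4
      exact G.ne _ _ (G.sub (G.ap1 _ _ hT0.1)) h4.symm
    · by_contra hc
      have h3 : rn G y = 2 := by omega
      have h4 := h2' h3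
      have h5 : x.2 = G.ap y.2 (G.ap y.2 y.1) := by
        conv_lhs => rw [← h, nx_of54 G hG h1, h3]
        rfl
      rw [h4] at h5
      have hT1 := hrun 1 (by omega)
      rw [Function.iterate_one, h4] at hT1
      exact G.ne _ _ (G.sub (G.ap1 _ _ hT1.1)) h5

/-- a pure fan is a disc: two sides more than triangles -/
theorem fan_card54 (hG : G.Geo4 al kp U) {x : V × V} (hx : x ∈ SD G)
    (ht : rn G x = tK G (ku G x)) (h0 : 1 ≤ tK G (ku G x)) :
    (kS G (ku G x)).card = tK G (ku G x) + 2 ∧ rn G (nx G x) = 1 ∧ nx G x ≠ x ∧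
      nx G (nx G x) ≠ x ∧ ∀ y ∈ kS G (ku G x), nx G y = x → rn G y = 1 ∧ y ≠ x := by
  have hxS : x ∈ kS G (ku G x) := (mem_kS42 G).2 ⟨hx, rfl⟩
  have hnS := nx_kS89 G hG hxS
  have hnx : nx G x ≠ x := fun h => by
    have e : x.1 = x.2 := by
      conv_lhs => rw [← h, nx_of54 G hG hx]
    have h1 := ((mem_KJ42 G).1 ((mem_SD42 G).1 hx).1).1
    exact G.ne _ _ h1 e
  have h1 : rn G (nx G x) = 1 := ((fan_run54 G hG hx ht h0 hnS hnx).2.2.2).2 (Or.inl rfl)
  have hp : ∀ y ∈ kS G (ku G x), nx G y = x → rn G y = 1 ∧ y ≠ x := by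
    intro y hy h
    have hne : y ≠ x := fun h2 => hnx (by rw [h2] at h; exact h)
    exact ⟨((fan_run54 G hG hx ht h0 hy hne).2.2.2).2 (Or.inr h), hne⟩
  obtain ⟨w, hw, hwx⟩ := nx_surj42 G hG hx
  have hwS : w ∈ kS G (ku G x) := by
    refine (mem_kS42 G).2 ⟨hw, ?_⟩
    rw [← hwx]
    exact (nx_ku63 G hG hw).2.symm
  obtain ⟨hw1, hw2⟩ := hp w hwS hwx
  have hs := sum_rn63 G hG (ku G x)
  have hc := kS_card63 G (ku G x)
  have e1 := Finset.add_sum_erase (kS G (ku G x)) (fun y => rn G y) hxS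
  have e2 := Finset.card_erase_of_mem hxS
  have hcpos : 0 < (kS G (ku G x)).card := Finset.card_pos.2 ⟨x, hxS⟩
  -- the sum over the other sectors
  have e3 : ∑ y ∈ (kS G (ku G x)).erase x, rn G y +
      (((kS G (ku G x)).erase x).filter (fun y => y = nx G x ∨ nx G y = x)).card =
      2 * ((kS G (ku G x)).erase x).card := by
    rw [Finset.card_filter, ← Finset.sum_add_distrib, mul_comm, ← smul_eq_mul,
      ← Finset.sum_const]
    refine Finset.sum_congr rfl fun y hy => ?_
    obtain ⟨hy1, hy2⟩ := Finset.mem_erase.1 hy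
    obtain ⟨_, h3, _, h4⟩ := fan_run54 G hG hx ht h0 hy2 hy1
    by_cases h5 : y = nx G x ∨ nx G y = x
    · rw [if_pos h5, h4.2 h5]
    · rw [if_neg h5]
      rcases h3 with h3 | h3
      · exact absurd (h4.1 h3) h5
      · omega
  have e4 : ((kS G (ku G x)).erase x).filter (fun y => y = nx G x ∨ nx G y = x) =
      {nx G x, w} := by
    ext y
    rw [Finset.mem_filter, Finset.mem_erase, Finset.mem_insert, Finset.mem_singleton]
    constructor
    · rintro ⟨⟨h3, h4⟩, h5 | h5⟩
      · exact Or.inl h5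
      · right
        exact nx_inj42 G hG (mem_kS89 G h4) hw (h5.trans hwx.symm)
    · rintro (rfl | rfl)
      · exact ⟨⟨hnx, hnS⟩, Or.inl rfl⟩
      · exact ⟨⟨hw2, hwS⟩, Or.inr hwx⟩
  have e5 : ({nx G x, w} : Finset (V × V)).card = 1 ∨ ({nx G x, w} : Finset (V × V)).card = 2 := by
    by_cases h : nx G x = w
    · left
      rw [h, Finset.pair_eq_singleton, Finset.card_singleton]
    · right
      exact Finset.card_pair h
  rw [e4] at e3
  have h6 : (kS G (ku G x)).card = tK G (ku G x) + 2 ∧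
      ({nx G x, w} : Finset (V × V)).card = 2 := by
    omega
  refine ⟨h6.1, h1, hnx, ?_, hp⟩
  intro h
  have h7 : nx G x = w := nx_inj42 G hG (nx_ku63 G hG hx).1 hw (h.trans hwx.symm)
  rw [h7, Finset.pair_eq_singleton, Finset.card_singleton] at h6
  omega

/-- with two triangles there are no two consecutive sectors with run 1 -/
theorem no_one_one54 (hG : G.Geo4 al kp U) {y : V × V} (hy : y ∈ SD G)
    (ht : 2 ≤ tK G (ku G y)) (h1 : rn G y = 1) : rn G (nx G y) ≠ 1 := by
  intro h2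
  obtain ⟨_, _, _, h3⟩ := single54 G hG hy rfl h2 h1
  rw [(nx_ku63 G hG hy).2] at h3
  omega

end

end Pool.Agent.PEN.E5
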