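import Pool.Agent.E5.Lh54
import Pool.Agent.E5.Bk90
import Pool.Agent.E5.Pf54
import Pool.Agent.E5.In15

/-! # PENNY, small diameters: the prices of the black faces for `θ = 14/13`, leaf cost `16/13`

Everything in units `1/13`. -/

set_option autoImplicit false

namespace Pool.Agent.PEN.E5

open Classical UpperHalfPlane
open Pool.Agent.PEN.Cl

noncomputable section

variable {V : Type} (G : Tg V) {al : ℝ} {kp : V → V → ℝ} {U : ℕ → ℝ}

/-- the sum of `2 - rn` over a black face -/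
theorem sum_two54 (hG : G.Geo4 al kp U) (K : (cg G).ConnectedComponent) :
    ∑ x ∈ kS G K, (2 - (rn G x : ℝ)) = 2 * (kS G K).card - 3 * tK G K := by
  have h := sum_rn63 G hG K
  have h' : ∑ x ∈ kS G K, (rn G x : ℝ) = 3 * tK G K := by exact_mod_cast h
  rw [Finset.sum_sub_distrib, h', Finset.sum_const, nsmul_eq_mul]
  ring

/-- **the exact price** in units `1/13` -/
theorem wx13_54 (hG : G.Geo4 al kp U) (K : (cg G).ConnectedComponent) :
    13 * wx G (14 / 13) K = ((tK G K : ℝ) - (kS G K).card) +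
      14 * ∑ x ∈ kS G K, (2 - (rn G x : ℝ)) := by
  rw [sum_two54 G hG]
  unfold wx
  ring

/-- disc or ring -/
theorem disc_or54 (K : (cg G).ConnectedComponent) :
    (kS G K).card = tK G K + 2 ∨ (kS G K).card ≤ tK G K := by
  have h1 := kS_card63 G K
  obtain ⟨k, hk⟩ := parity90 G K
  omega

theorem wx13_le54 (K : (cg G).ConnectedComponent) :
    13 * wx G (14 / 13) K ≤ 54 - 14 * tK G K := by
  have h := wx_le15 G (θ := 14 / 13) (by norm_num) K
  linarith

theorem wx13_disc54 {K : (cg G).ConnectedComponent} (hd : (kS G K).card = tK G K + 2) :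
    13 * wx G (14 / 13) K = 54 - 14 * tK G K := by
  unfold wx
  rw [hd]
  push_cast
  ring

theorem wx13_ring54 {K : (cg G).ConnectedComponent} (hd : (kS G K).card ≤ tK G K) :
    13 * wx G (14 / 13) K ≤ - 14 * tK G K := by
  have h : ((kS G K).card : ℝ) ≤ tK G K := by exact_mod_cast hd
  unfold wx
  linarith

/-- the excess `tK - |kS|` of a disc is `-2` -/
theorem chi_disc54 {K : (cg G).ConnectedComponent} (hd : (kS G K).card = tK G K + 2) :
    (tK G K : ℝ) - (kS G K).card = -2 := by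
  rw [hd]
  push_cast
  ring

/-- **price and leaves**: any nonempty set `S` of sectors with runs at least two; `-12` for run 4,
`-26` for run 5, `2` for run 3, `16` for run 2 -/
theorem lhP54 (hG : G.Geo4 al kp U) {K : (cg G).ConnectedComponent} (ht : 2 ≤ tK G K)
    {S : Finset (V × V)} (hS : S ⊆ kS G K) (hSn : S.Nonempty) (hS2 : ∀ x ∈ S, 2 ≤ rn G x) :
    13 * wx G (14 / 13) K + 16 * S.card ≤ ((tK G K : ℝ) - (kS G K).card) +
      14 * (uL54 G K S : ℝ) + ∑ x ∈ S, (44 - 14 * (rn G x : ℝ)) := by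
  have h1 := lh54 G hG ht hS hSn hS2
  have h2 := Finset.sum_sdiff (f := fun x => 2 - (rn G x : ℝ)) hS
  have h3 := wx13_54 G hG K
  have h4 : ∑ x ∈ S, (44 - 14 * (rn G x : ℝ)) = 14 * ∑ x ∈ S, (2 - (rn G x : ℝ)) +
      16 * S.card := by
    rw [Finset.mul_sum, mul_comm (16 : ℝ), ← nsmul_eq_mul, ← Finset.sum_const,
      ← Finset.sum_add_distrib]
    exact Finset.sum_congr rfl fun x _ => by ring
  rw [h3, h4]
  linarith

/-- the pair (sector, next ear) -/
def uN54 (x : V × V) : ℕ := if rn G (nx G x) = 1 then 1 else 0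

/-- the pair (sector, previous ear) -/
def uP54 (x : V × V) : ℕ := if ∃ e ∈ SD G, nx G e = x ∧ rn G e = 1 then 1 else 0

theorem uN_le54 (x : V × V) : uN54 G x ≤ 1 := by
  unfold uN54
  split_ifs <;> omega

theorem uP_le54 (x : V × V) : uP54 G x ≤ 1 := by
  unfold uP54
  split_ifs <;> omega

/-- **the pairs, sector by sector** -/
theorem uL_sum54 (hG : G.Geo4 al kp U) {K : (cg G).ConnectedComponent}
    {S : Finset (V × V)} (hS : S ⊆ kS G K) :
    uL54 G K S = ∑ x ∈ S, (uN54 G x + uP54 G x) := by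
  have a1 : (Ap54 G K S).card = ∑ x ∈ S, uN54 G x := by
    unfold uN54
    rw [← Finset.card_filter]
    refine (Finset.card_bij (fun x _ => nx G x) ?_ ?_ ?_).symm
    · intro x hx
      obtain ⟨h1, h2⟩ := Finset.mem_filter.1 hx
      exact Finset.mem_filter.2 ⟨(mem_Ea54 G).2 ⟨nx_kS89 G hG (hS h1), h2⟩, x, h1, rfl⟩
    · intro x hx y hy h
      exact nx_inj42 G hG ((mem_kS42 G).1 (hS (Finset.mem_filter.1 hx).1)).1
        ((mem_kS42 G).1 (hS (Finset.mem_filter.1 hy).1)).1 h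
    · intro e he
      obtain ⟨h1, y, h2, h3⟩ := Finset.mem_filter.1 he
      refine ⟨y, Finset.mem_filter.2 ⟨h2, ?_⟩, h3⟩
      rw [h3]
      exact ((mem_Ea54 G).1 h1).2
  have a2 : (An54 G K S).card = ∑ x ∈ S, uP54 G x := by
    unfold uP54
    rw [← Finset.card_filter]
    refine Finset.card_bij (fun e _ => nx G e) ?_ ?_ ?_
    · intro e he
      obtain ⟨h1, h2⟩ := Finset.mem_filter.1 he
      obtain ⟨h3, h4⟩ := (mem_Ea54 G).1 h1
      exact Finset.mem_filter.2 ⟨h2, e, ((mem_kS42 G).1 h3).1, rfl, h4⟩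
    · intro x hx y hy h
      exact nx_inj42 G hG ((mem_kS42 G).1 ((mem_Ea54 G).1 (Finset.mem_filter.1 hx).1).1).1
        ((mem_kS42 G).1 ((mem_Ea54 G).1 (Finset.mem_filter.1 hy).1).1).1 h
    · intro x hx
      obtain ⟨h1, e, h2, h3, h4⟩ := Finset.mem_filter.1 hx
      refine ⟨e, Finset.mem_filter.2 ⟨(mem_Ea54 G).2 ⟨(mem_kS42 G).2 ⟨h2, ?_⟩, h4⟩, ?_⟩, h3⟩
      · rw [← (nx_ku63 G hG h2).2, h3]
        exact ((mem_kS42 G).1 (hS h1)).2
      · rw [h3]
        exact h1
  unfold uL54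
  rw [a1, a2, Finset.sum_add_distrib, add_comm]

/-- the unit count of a leaf -/
def u54 (x : V × V) : ℕ := uN54 G x + uP54 G x

theorem u_le54 (x : V × V) : u54 G x ≤ 2 := by
  have h1 := uN_le54 G x
  have h2 := uP_le54 G x
  unfold u54
  omega

theorem Lv_sub54 (K : (cg G).ConnectedComponent) : Lv G K ⊆ kS G K := Finset.filter_subset _ _

/-- **a black face with leaves**, by leaves: `14 u + 14 un - 54` each, and `-2` for a disc.
A leaf with three units: `14 u - 12`; two units: `14 u - 26`; four units: `14 u + 2`. -/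
theorem leafP54 (hG : G.Geo4 al kp U) (h1 : ∀ x ∈ iJ G, gc G al x ≤ 1)
    {K : (cg G).ConnectedComponent} (ht : 2 ≤ tK G K) (hL : (Lv G K).Nonempty)
    (hu : ∀ x ∈ Lv G K, un G al (sg G x) ≤ 5) :
    13 * wx G (14 / 13) K + 16 * (Lv G K).card ≤ ((tK G K : ℝ) - (kS G K).card) +
      ∑ x ∈ Lv G K, (14 * (u54 G x : ℝ) + 14 * un G al (sg G x) - 54) := by
  have hr : ∀ x ∈ Lv G K, rn G x + un G al (sg G x) = 7 := fun x hx => leaf_sum15 G hG h1 hx
  have h2 := lhP54 G hG ht (Lv_sub54 G K) hL fun x hx => by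
    have h3 := hr x hx
    have h4 := hu x hx
    omega
  have h3 : ((uL54 G K (Lv G K) : ℕ) : ℝ) = ∑ x ∈ Lv G K, (u54 G x : ℝ) := by
    rw [uL_sum54 G hG (Lv_sub54 G K)]
    push_cast
    exact Finset.sum_congr rfl fun x _ => by
      unfold u54
      push_cast
      ring
  have h4 : ∑ x ∈ Lv G K, (14 * (u54 G x : ℝ) + 14 * un G al (sg G x) - 54) =
      14 * ∑ x ∈ Lv G K, (u54 G x : ℝ) + ∑ x ∈ Lv G K, (44 - 14 * (rn G x : ℝ)) := by
    rw [Finset.mul_sum, ← Finset.sum_add_distrib]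
    refine Finset.sum_congr rfl fun x hx => ?_
    have h5 : (rn G x : ℝ) + un G al (sg G x) = 7 := by exact_mod_cast hr x hx
    linarith
  rw [h4, ← h3]
  linarith

/-- **one leaf with three units** in a disc: `14 (u - 1)` -/
theorem leaf1_54 (hG : G.Geo4 al kp U) (h1 : ∀ x ∈ iJ G, gc G al x ≤ 1)
    {K : (cg G).ConnectedComponent} (hd : (kS G K).card = tK G K + 2) {x : V × V}
    (hL : Lv G K = {x}) (h3 : un G al (sg G x) = 3) :
    13 * wx G (14 / 13) K + 16 * (Lv G K).card ≤ 14 * ((u54 G x : ℝ) - 1) := by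
  have hx : x ∈ Lv G K := by
    rw [hL]
    exact Finset.mem_singleton_self x
  have hr := leaf_sum15 G hG h1 hx
  obtain ⟨k1, k2⟩ := (mem_kS42 G).1 (Lv_sub54 G K hx)
  have ht := rn_le_tK63 G hG k1
  rw [k2] at ht
  have h2 := leafP54 G hG h1 (K := K) (by omega) ⟨x, hx⟩ fun y hy => by
    rw [hL, Finset.mem_singleton] at hy
    rw [hy, h3]
    norm_num
  rw [hL, Finset.sum_singleton, h3, chi_disc54 G hd] at h2
  rw [hL]
  push_cast at h2 ⊢
  linarith

/-- one leaf, exactly: the number of triangles outside the fan of the leaf -/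
theorem leaf_exact54 (hG : G.Geo4 al kp U) (h1 : ∀ x ∈ iJ G, gc G al x ≤ 1)
    {K : (cg G).ConnectedComponent} {x : V × V} (hL : Lv G K = {x}) :
    13 * wx G (14 / 13) K + 16 * (Lv G K).card ≤
      14 * (un G al (sg G x) : ℝ) - 28 - 14 * ((tK G K : ℝ) - rn G x) := by
  have hx : x ∈ Lv G K := by
    rw [hL]
    exact Finset.mem_singleton_self x
  have hr := leaf_sum15 G hG h1 hx
  have h5 : (rn G x : ℝ) + un G al (sg G x) = 7 := by exact_mod_cast hr
  have h2 := wx13_le54 G K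
  rw [hL, Finset.card_singleton]
  push_cast
  linarith

/-- **the price with the refunds of the long runs**, exact for a disc -/
theorem refund54 (hG : G.Geo4 al kp U) {K : (cg G).ConnectedComponent} (ht : 1 ≤ tK G K)
    {S : Finset (V × V)} (hS : S ⊆ kS G K) (hS2 : ∀ x ∈ S, 2 ≤ rn G x) :
    13 * wx G (14 / 13) K + 14 * ((∑ x ∈ kS G K \ S, (rn G x - 2) : ℕ) : ℝ) =
      ((tK G K : ℝ) - (kS G K).card) + 14 * (Ea54 G K).card +
        ∑ x ∈ S, (28 - 14 * (rn G x : ℝ)) := by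
  have hpos : ∀ x ∈ kS G K, 1 ≤ rn G x := fun x hx => rn_pos_kS54 G hG ht hx
  have hEa : Ea54 G K = (kS G K \ S).filter (fun e => rn G e = 1) := by
    ext e
    rw [mem_Ea54, Finset.mem_filter, Finset.mem_sdiff]
    constructor
    · rintro ⟨k1, k2⟩
      refine ⟨⟨k1, fun k3 => ?_⟩, k2⟩
      have := hS2 e k3
      omega
    · rintro ⟨⟨k1, _⟩, k2⟩
      exact ⟨k1, k2⟩
  have h3 : ∑ x ∈ kS G K \ S, (2 - (rn G x : ℝ)) =
      (Ea54 G K).card - ((∑ x ∈ kS G K \ S, (rn G x - 2) : ℕ) : ℝ) := by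
    rw [hEa, Finset.card_filter, Nat.cast_sum, Nat.cast_sum, ← Finset.sum_sub_distrib]
    refine Finset.sum_congr rfl fun x hx => ?_
    have k1 := hpos x (Finset.mem_sdiff.1 hx).1
    by_cases k2 : rn G x = 1
    · rw [if_pos k2, k2]
      norm_num
    · rw [if_neg k2, Nat.cast_sub (by omega)]
      push_cast
      ring
  have h2 := Finset.sum_sdiff (f := fun x => 2 - (rn G x : ℝ)) hS
  have h4 : ∑ x ∈ S, (28 - 14 * (rn G x : ℝ)) = 14 * ∑ x ∈ S, (2 - (rn G x : ℝ)) := by
    rw [Finset.mul_sum]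
    exact Finset.sum_congr rfl fun x _ => by ring
  rw [wx13_54 G hG K, h4, ← h2, h3]
  ring

/-- **the number of ears** of a disc whose other sectors have runs at most three and whose leaves
have run four: `2 n1 + n2 = 6 + l` -/
theorem ears_disc54 (hG : G.Geo4 al kp U) {K : (cg G).ConnectedComponent} (ht : 1 ≤ tK G K)
    (hd : (kS G K).card = tK G K + 2) {S : Finset (V × V)} (hS : S ⊆ kS G K)
    (hS4 : ∀ x ∈ S, rn G x = 4) (h3 : ∀ x ∈ kS G K, x ∉ S → rn G x ≤ 3) :
    2 * (Ea54 G K).card + ((kS G K).filter (fun x => rn G x = 2)).card = 6 + S.card := by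
  have hpos : ∀ x ∈ kS G K, 1 ≤ rn G x := fun x hx => rn_pos_kS54 G hG ht hx
  have hs := sum_rn63 G hG K
  have e1 : ∑ x ∈ kS G K, rn G x + 2 * (Ea54 G K).card +
      ((kS G K).filter (fun x => rn G x = 2)).card = 3 * (kS G K).card + S.card := by
    have e2 : S.card = ∑ x ∈ kS G K, (if x ∈ S then 1 else 0) := by
      rw [← Finset.card_filter, Finset.filter_mem_eq_inter, Finset.inter_eq_right.2 hS]
    unfold Ea54
    rw [e2, Finset.card_filter, Finset.card_filter, Finset.mul_sum, ← Finset.sum_add_distrib,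
      ← Finset.sum_add_distrib, Finset.card_eq_sum_ones, Finset.mul_sum,
      ← Finset.sum_add_distrib]
    refine Finset.sum_congr rfl fun x hx => ?_
    have k1 := hpos x hx
    by_cases k2 : x ∈ S
    · rw [if_pos k2, hS4 x k2]
      norm_num
    · have k3 := h3 x hx k2
      rw [if_neg k2]
      have k4 : rn G x = 1 ∨ rn G x = 2 ∨ rn G x = 3 := by omega
      rcases k4 with k4 | k4 | k4 <;> rw [k4] <;> norm_num
  omega

end

end Pool.Agent.PEN.E5
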