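import Pool.Agent.E5.In15

/-! # PENNY, all small diameters: black faces with at least two leaves

A black face with at least two leaves costs only `θ · max ((u - 2) / 2) (u - 3)` for every leaf corner
with `u` units. -/

set_option autoImplicit false

namespace Pool.Agent.PEN.E5

open Classical UpperHalfPlane
open Pool.Agent.PEN.Cl

noncomputable section

variable {V : Type} (G : Tg V) {al : ℝ} {kp : V → V → ℝ} {U : ℕ → ℝ}

/-- what a leaf corner with `u` units pays if its black face has at least two leaves -/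
def kpa (u : ℝ) : ℝ := max ((u - 2) / 2) (u - 3)

theorem kpa_ge_half (u : ℝ) : (u - 2) / 2 ≤ kpa u := le_max_left _ _

theorem kpa_ge_three (u : ℝ) : u - 3 ≤ kpa u := le_max_right _ _

theorem kpa_le_two {u : ℝ} (hu : 2 ≤ u) : kpa u ≤ u - 2 := by
  unfold kpa
  refine max_le (by linarith) (by linarith)

theorem kpa_nonneg {u : ℝ} (hu : 2 ≤ u) : 0 ≤ kpa u :=
  le_trans (by linarith) (kpa_ge_half u)

theorem kpa_two : kpa 2 = 0 := by
  unfold kpa
  norm_num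

theorem kpa_three : kpa 3 = 1 / 2 := by
  unfold kpa
  rw [max_eq_left] <;> norm_num

theorem kpa_four : kpa 4 = 1 := by
  unfold kpa
  norm_num

theorem kpa_five : kpa 5 = 2 := by
  unfold kpa
  rw [max_eq_right] <;> norm_num

/-- two leaves -/
theorem leaf_arith_two49 {θ y : ℝ} (hθ : 0 ≤ θ) (hθ1 : θ ≤ 1) (hy : y ≤ 3 * θ - 2) {s t ρ : ℕ}
    (hs : s ≤ t + 2) (h2 : ρ ≤ t + 2) :
    2 + 2 * θ - θ * t - (1 + θ) * ((t : ℝ) + 2 - s) + y * 2 ≤ θ * (8 - (ρ : ℝ)) := by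
  have hs' : (s : ℝ) ≤ t + 2 := by exact_mod_cast hs
  have h6 : (ρ : ℝ) ≤ t + 2 := by exact_mod_cast h2
  have h7 := mul_le_mul_of_nonneg_left h6 hθ
  have h8 := mul_le_mul_of_nonneg_left hs' (by linarith : (0:ℝ) ≤ 1 + θ)
  linarith

/-- three or more leaves -/
theorem leaf_arith_three49 {θ y : ℝ} (hθ : 0 ≤ θ) (hθ1 : θ ≤ 1) (hy : y ≤ 3 * θ - 2)
    {s t l ρ o : ℕ} (hl : 3 ≤ l) (hs : s ≤ t + 2) (ho : s ≤ l + o) (hsum : ρ + o = 3 * t) :
    2 + 2 * θ - θ * t - (1 + θ) * ((t : ℝ) + 2 - s) + y * l ≤ θ * ((5 * (l : ℝ) - ρ) / 2) := by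
  have hs' : (s : ℝ) ≤ t + 2 := by exact_mod_cast hs
  have h6 : (s : ℝ) ≤ l + o := by exact_mod_cast ho
  have h7 : (ρ : ℝ) + o = 3 * t := by exact_mod_cast hsum
  have h9 : (3 : ℝ) ≤ l := by exact_mod_cast hl
  have hyl : y * l ≤ (3 * θ - 2) * l := mul_le_mul_of_nonneg_right hy (by linarith)
  have a2 := mul_le_mul_of_nonneg_left (by linarith : (ρ : ℝ) ≤ 3 * t - s + l)
    (by linarith : (0:ℝ) ≤ θ / 2)
  have a3 := mul_le_mul_of_nonneg_left hs' (by linarith : (0:ℝ) ≤ 1 + θ / 2)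
  have a4 : 0 ≤ (1 - θ) * (l - 3) := mul_nonneg (by linarith) (by linarith)
  nlinarith [a2, a3, a4]

/-- **refined leaf lemma**: a black face with at least two leaves -/
theorem leaf_two49 (hG : G.Geo4 al kp U) (h1 : ∀ x ∈ iJ G, gc G al x ≤ 1) {θ y : ℝ}
    (hθ : 0 ≤ θ) (hθ1 : θ ≤ 1) (hy : y ≤ 3 * θ - 2) {K : (cg G).ConnectedComponent}
    (hL : 2 ≤ (Lv G K).card) :
    wx G θ K + y * (Lv G K).card ≤ θ * ∑ x ∈ Lv G K, kpa (un G al (sg G x) : ℝ) := by
  have hsum : ∑ x ∈ Lv G K, rn G x + ∑ x ∈ Lv G K, un G al (sg G x) = 7 * (Lv G K).card := by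
    rw [← Finset.sum_add_distrib, Finset.sum_congr rfl fun x hx => leaf_sum15 G hG h1 hx,
      Finset.sum_const, smul_eq_mul, mul_comm]
  have h7 : ((∑ x ∈ Lv G K, rn G x : ℕ) : ℝ) + ((∑ x ∈ Lv G K, un G al (sg G x) : ℕ) : ℝ) =
      7 * ((Lv G K).card : ℝ) := by exact_mod_cast hsum
  have hsub : Lv G K ⊆ kS G K := Finset.filter_subset _ _
  have h3t := sum_rnK62 G hG K
  rw [← Finset.sum_sdiff hsub, add_comm] at h3t
  have hs := card_kS62 G K
  have e1 : (5 * ((Lv G K).card : ℝ) - ((∑ x ∈ Lv G K, rn G x : ℕ) : ℝ)) / 2 ≤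
      ∑ x ∈ Lv G K, kpa (un G al (sg G x) : ℝ) := by
    have h := Finset.sum_le_sum (s := Lv G K) fun x _ => kpa_ge_half (un G al (sg G x) : ℝ)
    rw [← Finset.sum_div, Finset.sum_sub_distrib, Finset.sum_const, nsmul_eq_mul] at h
    push_cast at h7 ⊢
    linarith
  have e2 : 4 * ((Lv G K).card : ℝ) - ((∑ x ∈ Lv G K, rn G x : ℕ) : ℝ) ≤
      ∑ x ∈ Lv G K, kpa (un G al (sg G x) : ℝ) := by
    have h := Finset.sum_le_sum (s := Lv G K) fun x _ => kpa_ge_three (un G al (sg G x) : ℝ)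
    rw [Finset.sum_sub_distrib, Finset.sum_const, nsmul_eq_mul] at h
    push_cast at h7 ⊢
    linarith
  rcases Nat.lt_or_ge (Lv G K).card 3 with h3 | h3
  · have hc : (Lv G K).card = 2 := by omega
    obtain ⟨x, y', hxy, hx⟩ := Finset.card_eq_two.1 hc
    have hxK : x ∈ Lv G K := by rw [hx]; exact Finset.mem_insert_self _ _
    have hyK : y' ∈ Lv G K := by
      rw [hx]; exact Finset.mem_insert_of_mem (Finset.mem_singleton_self _)
    obtain ⟨h2, h3, h4⟩ := (mem_Lv15 G).1 hxK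
    obtain ⟨h2', h3', h4'⟩ := (mem_Lv15 G).1 hyK
    obtain ⟨h5, h6⟩ := (mem_kS42 G).1 h2
    obtain ⟨h5', h6'⟩ := (mem_kS42 G).1 h2'
    have hr : ∑ x ∈ Lv G K, rn G x ≤ tK G K + 2 := by
      rw [hx, Finset.sum_pair hxy, ← h6]
      refine run_two63 G hG h5 h5' (fun hh => hxy ?_) (h6.trans h6'.symm)
      obtain ⟨hS, _⟩ := c1_89 G hG h3 h4 ((mem_Sv62 G).2 ⟨h5, rfl⟩)
      have h7 : y' ∈ Sv G x.2 := (mem_Sv62 G).2 ⟨h5', hh.symm⟩
      rw [hS, Finset.mem_singleton] at h7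
      exact h7.symm
    have h8 := leaf_arith_two49 hθ hθ1 hy hs hr
    have h9 := mul_le_mul_of_nonneg_left e2 hθ
    have hc' : ((Lv G K).card : ℝ) = 2 := by exact_mod_cast hc
    unfold wx
    rw [hc'] at h9 ⊢
    refine h8.trans (le_trans (le_of_eq ?_) h9)
    ring
  · have ht : 1 ≤ tK G K := by
      have := Finset.card_le_card hsub
      omega
    have h4 : ∀ x ∈ kS G K \ Lv G K, 1 ≤ rn G x := by
      intro x hx
      obtain ⟨h5, h6⟩ := (mem_kS42 G).1 (Finset.mem_sdiff.1 hx).1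
      have h7 := tK_zero54 G hG h5
      rw [h6] at h7
      by_contra hno
      have := h7.2 (by omega)
      omega
    have h5 : (kS G K \ Lv G K).card ≤ ∑ x ∈ kS G K \ Lv G K, rn G x := by
      rw [Finset.card_eq_sum_ones]
      exact Finset.sum_le_sum h4
    rw [Finset.card_sdiff_of_subset hsub] at h5
    have h8 := leaf_arith_three49 hθ hθ1 hy h3 hs (o := ∑ x ∈ kS G K \ Lv G K, rn G x)
      (ρ := ∑ x ∈ Lv G K, rn G x) (by omega) h3t
    have h9 := mul_le_mul_of_nonneg_left e1 hθ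
    unfold wx
    exact h8.trans h9

end

end Pool.Agent.PEN.E5
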