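import Pool.Agent.E5.SF54
import Pool.Agent.E5.Vs39
import Pool.Agent.E5.Us14

/-! # PENNY, all small diameters: black faces with several leaves

`θ = y = 1`: the exact price `2 |kS K| - 3 tK` of a black face, plus its leaves, is at most the sum of
the truncated prices `4 - r` of the leaves, as soon as there are at least two leaves. -/

set_option autoImplicit false

namespace Pool.Agent.PEN.E5

open Classical UpperHalfPlane
open Pool.Agent.PEN.Cl

/-- sectors of run 1 are not consecutive: at most half of the sectors -/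
theorem ears_le89 {α : Type} (S : Finset α) (nx : α → α) (hm : ∀ x ∈ S, nx x ∈ S)
    (hi : Set.InjOn nx S) (r : α → ℕ) (h4 : ∀ x ∈ S, r x = 1 → r (nx x) ≠ 1) :
    (S.filter (fun x => r x = 1)).card ≤ (S.filter (fun x => ¬ r x = 1)).card := by
  refine Finset.card_le_card_of_injOn nx ?_ ?_
  · intro x hx
    rw [Finset.mem_coe, Finset.mem_filter] at hx
    rw [Finset.mem_coe, Finset.mem_filter]
    exact ⟨hm x hx.1, h4 x hx.1 hx.2⟩
  · intro x hx y hy h
    exact hi (Finset.mem_filter.1 (Finset.mem_coe.1 hx)).1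
      (Finset.mem_filter.1 (Finset.mem_coe.1 hy)).1 h

/-- **the counting lemma** for at least three leaves -/
theorem count_leaf89 {α : Type} (S L : Finset α) (hL : L ⊆ S) (nx : α → α)
    (hm : ∀ x ∈ S, nx x ∈ S) (hi : Set.InjOn nx S) (r : α → ℕ) (t : ℕ)
    (h1 : ∑ x ∈ S, r x = 3 * t) (h2 : S.card ≤ t + 2) (h3 : ∀ x ∈ S, 1 ≤ r x)
    (h4 : ∀ x ∈ S, r x = 1 → r (nx x) ≠ 1)
    (h5 : ∀ x ∈ S, r x = 1 → r (nx x) = 2 → r (nx (nx x)) ≠ 1) (h6 : ∀ x ∈ L, r x ≤ 5)
    (hl : 3 ≤ L.card) :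
    2 * S.card + L.card ≤ 3 * t + ∑ x ∈ L, (4 - r x) := by
  set N := S \ L with hN
  -- pointwise decompositions
  have c1 : N.card = (N.filter (fun x => r x = 1)).card + (N.filter (fun x => r x = 2)).card +
      (N.filter (fun x => 3 ≤ r x)).card := by
    rw [Finset.card_filter, Finset.card_filter, Finset.card_filter, Finset.card_eq_sum_ones,
      ← Finset.sum_add_distrib, ← Finset.sum_add_distrib]
    refine Finset.sum_congr rfl fun x hx => ?_
    have := h3 x (Finset.mem_sdiff.1 hx).1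
    split_ifs <;> omega
  have c2 : ∑ x ∈ N, r x = (N.filter (fun x => r x = 1)).card +
      2 * (N.filter (fun x => r x = 2)).card + ∑ x ∈ N.filter (fun x => 3 ≤ r x), r x := by
    rw [Finset.card_filter, Finset.card_filter, Finset.sum_filter, Finset.mul_sum,
      ← Finset.sum_add_distrib, ← Finset.sum_add_distrib]
    refine Finset.sum_congr rfl fun x hx => ?_
    have := h3 x (Finset.mem_sdiff.1 hx).1
    split_ifs <;> omega
  have c3 : 3 * (N.filter (fun x => 3 ≤ r x)).card ≤ ∑ x ∈ N.filter (fun x => 3 ≤ r x), r x := by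
    rw [Finset.card_eq_sum_ones, Finset.mul_sum]
    refine Finset.sum_le_sum fun x hx => ?_
    have := (Finset.mem_filter.1 hx).2
    omega
  have c4 : ∑ x ∈ L, r x ≤ 3 * L.card + (L.filter (fun x => r x = 4)).card +
      2 * (L.filter (fun x => r x = 5)).card := by
    rw [Finset.card_filter, Finset.card_filter, Finset.card_eq_sum_ones, Finset.mul_sum,
      Finset.mul_sum, ← Finset.sum_add_distrib, ← Finset.sum_add_distrib]
    refine Finset.sum_le_sum fun x hx => ?_
    have := h6 x hx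
    split_ifs <;> omega
  have c5 : ∑ x ∈ L, r x + ∑ x ∈ L, (4 - r x) = 4 * L.card +
      (L.filter (fun x => r x = 5)).card := by
    rw [Finset.card_filter, Finset.card_eq_sum_ones, Finset.mul_sum, ← Finset.sum_add_distrib,
      ← Finset.sum_add_distrib]
    refine Finset.sum_congr rfl fun x hx => ?_
    have := h6 x hx
    split_ifs <;> omega
  have c6 : (L.filter (fun x => r x = 4)).card + (L.filter (fun x => r x = 5)).card ≤ L.card := by
    rw [Finset.card_filter, Finset.card_filter, Finset.card_eq_sum_ones,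
      ← Finset.sum_add_distrib]
    refine Finset.sum_le_sum fun x _ => ?_
    split_ifs <;> omega
  have c7 : N.card + L.card = S.card := by
    rw [hN]
    exact Finset.card_sdiff_add_card_eq_card hL
  have c8 : ∑ x ∈ N, r x + ∑ x ∈ L, r x = ∑ x ∈ S, r x := by
    rw [hN]
    exact Finset.sum_sdiff hL
  have hear := ears_le89 S nx hm hi r h4
  -- all sectors of run 1 and the others
  have d1 : (N.filter (fun x => r x = 1)).card ≤ (S.filter (fun x => r x = 1)).card := by
    apply Finset.card_le_card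
    intro x hx
    obtain ⟨hx1, hx2⟩ := Finset.mem_filter.1 hx
    exact Finset.mem_filter.2 ⟨(Finset.mem_sdiff.1 hx1).1, hx2⟩
  have d2 : (S.filter (fun x => ¬ r x = 1)).card ≤ L.card +
      (N.filter (fun x => r x = 2)).card + (N.filter (fun x => 3 ≤ r x)).card := by
    have hsub : S.filter (fun x => ¬ r x = 1) ⊆ L ∪ N.filter (fun x => r x = 2) ∪
        N.filter (fun x => 3 ≤ r x) := by
      intro x hx
      obtain ⟨hx1, hx2⟩ := Finset.mem_filter.1 hx
      have := h3 x hx1
      by_cases hxL : x ∈ L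
      · exact Finset.mem_union_left _ (Finset.mem_union_left _ hxL)
      · have hxN : x ∈ N := Finset.mem_sdiff.2 ⟨hx1, hxL⟩
        by_cases hx3 : r x = 2
        · exact Finset.mem_union_left _ (Finset.mem_union_right _ (Finset.mem_filter.2 ⟨hxN, hx3⟩))
        · exact Finset.mem_union_right _ (Finset.mem_filter.2 ⟨hxN, by omega⟩)
    refine (Finset.card_le_card hsub).trans ?_
    refine (Finset.card_union_le _ _).trans ?_
    have := Finset.card_union_le L (N.filter (fun x => r x = 2))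
    omega
  by_contra hcon
  push Not at hcon
  set e1 := (N.filter (fun x => r x = 1)).card with he1
  set m2 := (N.filter (fun x => r x = 2)).card with hm2
  set m3 := (N.filter (fun x => 3 ≤ r x)).card with hm3
  set z := ∑ x ∈ N.filter (fun x => 3 ≤ r x), r x with hz
  set a4 := (L.filter (fun x => r x = 4)).card with ha4
  set a5 := (L.filter (fun x => r x = 5)).card with ha5
  have k1 : m3 = 0 := by omega
  have k2 : m2 = 1 ∧ L.card = 3 ∧ e1 = 4 := by omega
  obtain ⟨k3, k4, k5⟩ := k2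
  -- four ears, the next sectors are exactly the other four
  have q1 : (S.filter (fun x => r x = 1)).card = 4 ∧ (S.filter (fun x => ¬ r x = 1)).card = 4 := by
    omega
  have q2 : (S.filter (fun x => r x = 1)).image nx = S.filter (fun x => ¬ r x = 1) := by
    apply Finset.eq_of_subset_of_card_le
    · intro y hy
      obtain ⟨x, hx, rfl⟩ := Finset.mem_image.1 hy
      obtain ⟨hx1, hx2⟩ := Finset.mem_filter.1 hx
      exact Finset.mem_filter.2 ⟨hm x hx1, h4 x hx1 hx2⟩
    · rw [Finset.card_image_of_injOn, q1.1, q1.2]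
      intro x hx y hy h
      exact hi (Finset.mem_filter.1 (Finset.mem_coe.1 hx)).1
        (Finset.mem_filter.1 (Finset.mem_coe.1 hy)).1 h
  obtain ⟨w, hw⟩ := Finset.card_eq_one.1 (hm2.symm.trans k3)
  have hwm : w ∈ N.filter (fun x => r x = 2) := by rw [hw]; exact Finset.mem_singleton_self w
  obtain ⟨hw1, hw2⟩ := Finset.mem_filter.1 hwm
  have hwS := (Finset.mem_sdiff.1 hw1).1
  have hwE : w ∈ (S.filter (fun x => r x = 1)).image nx := by
    rw [q2]
    exact Finset.mem_filter.2 ⟨hwS, by omega⟩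
  obtain ⟨e, he, hew⟩ := Finset.mem_image.1 hwE
  obtain ⟨he2, he3⟩ := Finset.mem_filter.1 he
  refine h5 e he2 he3 (by rw [hew]; exact hw2) ?_
  rw [hew]
  by_contra hne
  have h7 : nx w ∈ (S.filter (fun x => r x = 1)).image nx := by
    rw [q2]
    exact Finset.mem_filter.2 ⟨hm w hwS, hne⟩
  obtain ⟨e', he', hee⟩ := Finset.mem_image.1 h7
  obtain ⟨he4, he5⟩ := Finset.mem_filter.1 he'
  have h8 := hi he4 hwS hee
  rw [h8] at he5
  omega

noncomputable section

variable {V : Type} (G : Tg V) {al : ℝ} {kp : V → V → ℝ} {U : ℕ → ℝ}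

/-- runs 1, 2, 1: two triangles -/
theorem pair121_89 (hG : G.Geo4 al kp U) {x : V × V} (hx : x ∈ SD G) (h1 : rn G x = 1)
    (h2 : rn G (nx G x) = 2) (h3 : rn G (nx G (nx G x)) = 1) : tK G (ku G x) = 2 := by
  obtain ⟨k1, k2⟩ := nx_ku63 G hG hx
  obtain ⟨k3, k4⟩ := nx_ku63 G hG k1
  obtain ⟨k5, k6⟩ := nx_ku63 G hG k3
  obtain ⟨_, e1, e2, e3, e4, _⟩ := one_two54 G hG hx rfl h2 h1
  set y := nx G x with hy
  set m := G.ap y.2 y.1 with hmm
  set c := G.ap y.2 m with hc
  have n4 : ¬ tt G (y.2, c) := by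
    have := ((mem_SD42 G).1 k3).2
    rwa [e4] at this
  have n1 : ¬ tt G (y.1, y.2) := ((mem_SD42 G).1 k1).2
  have n2 : ¬ tt G (m, y.1) := by
    have := ((mem_SD42 G).1 hx).2
    rwa [e1] at this
  have n3 : ¬ tt G (c, m) := by
    have h7 := nx_of54 G hG k3
    rw [h3, Function.iterate_one, e4] at h7
    dsimp only at h7
    have h8 : G.ap c y.2 = m := by
      have h9 := G.ap4 _ _ e3.1
      exact h9
    rw [h8] at h7
    have h10 := ((mem_SD42 G).1 k5).2
    rw [e4, h7] at h10
    exact h10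
  have h11 := (pair_of54 G (v := y.2) (a := y.1) (m := m) (c := c) e2 rfl e3 rfl n1 n2 n3 n4).2
  rw [← h11, ← k2]

/-- the leaf sectors of a black face -/
def Lk (K : (cg G).ConnectedComponent) : Finset (V × V) :=
  (kS G K).filter (fun x => x.2 ∈ inN G ∧ cv G x.2 = 1)

theorem mem_Lk89 {K : (cg G).ConnectedComponent} {x : V × V} :
    x ∈ Lk G K ↔ x ∈ kS G K ∧ x.2 ∈ inN G ∧ cv G x.2 = 1 := by
  unfold Lk
  rw [Finset.mem_filter]

/-- a leaf: `run + units = 7` -/
theorem leaf_seven89 (hG : G.Geo4 al kp U) (hT : ∀ x ∈ iJ G, gc G al x ≤ 1)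
    {K : (cg G).ConnectedComponent} {x : V × V} (hx : x ∈ Lk G K) :
    rn G x + un G al (nx G x) = 7 ∧ 2 ≤ un G al (nx G x) ∧ nx G x ∈ BC G ∧ nx G x = sg G x ∧
      gc G al (nx G x) = 1 - ep al := by
  obtain ⟨h1, h2, h3⟩ := (mem_Lk89 G).1 hx
  have h4 : x ∈ Sv G x.2 := (mem_Sv89 G).2 ⟨((mem_kS42 G).1 h1).1, rfl⟩
  have h5 := leaf_rn39 G hG (al := al) h2 h3 h4
  have h6 := leaf_uv39 G hG hT h2 h3
  obtain ⟨_, h7, h8⟩ := c1_89 G hG h2 h3 h4
  have h9 := BC_head14 G hG ((mem_kS42 G).1 h1).1 h2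
  have h10 := sum_gcB39 G hG h2
  rw [h7, Finset.sum_singleton, kv_eq89, h6] at h10
  refine ⟨by omega, ?_, h9.2, h8, ?_⟩
  · unfold un
    rw [if_neg ((mem_BC89 G).1 h9.2).2]
    exact le_max_left _ _
  · rw [h8, h10]
    norm_num

/-- two leaves of one black face have different heads -/
theorem leaf_heads89 (hG : G.Geo4 al kp U) {K : (cg G).ConnectedComponent} {x y : V × V}
    (hx : x ∈ Lk G K) (hy : y ∈ Lk G K) (hne : x ≠ y) : x.2 ≠ y.2 := by
  intro h
  obtain ⟨h1, h2, h3⟩ := (mem_Lk89 G).1 hx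
  obtain ⟨h4, _, _⟩ := (mem_Lk89 G).1 hy
  have h5 : x ∈ Sv G x.2 := (mem_Sv89 G).2 ⟨((mem_kS42 G).1 h1).1, rfl⟩
  have h6 : y ∈ Sv G x.2 := (mem_Sv89 G).2 ⟨((mem_kS42 G).1 h4).1, h.symm⟩
  have h7 := (c1_89 G hG h2 h3 h5).1
  rw [h7, Finset.mem_singleton] at h6
  exact hne h6.symm

/-- **the multi leaf lemma** -/
theorem multi_leaf89 (hG : G.Geo4 al kp U) (hT : ∀ x ∈ iJ G, gc G al x ≤ 1)
    (K : (cg G).ConnectedComponent) (hl : 2 ≤ (Lk G K).card) :
    2 * (kS G K).card + (Lk G K).card ≤ 3 * tK G K + ∑ x ∈ Lk G K, (4 - rn G x) := by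
  have hs := kS_card63 G K
  have hsub : Lk G K ⊆ kS G K := Finset.filter_subset _ _
  have hle := Finset.card_le_card hsub
  have hsum := sum_rn63 G hG K
  -- the runs are at most `tK`
  have hrt : ∀ x ∈ kS G K, rn G x ≤ tK G K := by
    intro x hx
    obtain ⟨h1, h2⟩ := (mem_kS42 G).1 hx
    have := rn_le_tK63 G hG h1
    rwa [h2] at this
  rcases Nat.lt_or_ge (Lk G K).card 3 with h3 | h3
  · -- two leaves
    have h2 : (Lk G K).card = 2 := by omega
    obtain ⟨x, y, hxy, he⟩ := Finset.card_eq_two.1 h2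
    have hx : x ∈ Lk G K := by rw [he]; simp
    have hy : y ∈ Lk G K := by rw [he]; simp
    have k1 := ((mem_Lk89 G).1 hx).1
    have k2 := ((mem_Lk89 G).1 hy).1
    obtain ⟨k3, k4⟩ := (mem_kS42 G).1 k1
    obtain ⟨k5, k6⟩ := (mem_kS42 G).1 k2
    have k7 := run_two63 G hG k3 k5 (leaf_heads89 G hG hx hy hxy) (k4.trans k6.symm)
    rw [k4] at k7
    rw [h2, he, Finset.sum_pair hxy]
    omega
  · rcases Nat.lt_or_ge (tK G K) 3 with ht | ht
    · -- small faces
      have h4 : 2 * (Lk G K).card ≤ ∑ x ∈ Lk G K, (4 - rn G x) := by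
        rw [Finset.card_eq_sum_ones, Finset.mul_sum]
        refine Finset.sum_le_sum fun x hx => ?_
        have := hrt x (hsub hx)
        omega
      omega
    · obtain ⟨x0, hx0⟩ : (Lk G K).Nonempty := Finset.card_pos.1 (by omega)
      obtain ⟨hx1, hx2⟩ := (mem_kS42 G).1 (hsub hx0)
      have hpos : ∀ x ∈ kS G K, 1 ≤ rn G x := by
        intro x hx
        obtain ⟨h1, h2⟩ := (mem_kS42 G).1 hx
        by_contra h0
        have h4 : rn G x = 0 := by omega
        have h5 := (tK_zero54 G hG h1).2 h4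
        rw [h2] at h5
        omega
      refine count_leaf89 (kS G K) (Lk G K) hsub (nx G) (fun x hx => nx_kS89 G hG hx) ?_ (rn G)
        (tK G K) hsum hs hpos ?_ ?_ ?_ h3
      · intro x hx y hy h
        exact nx_inj42 G hG ((mem_kS42 G).1 (Finset.mem_coe.1 hx)).1
          ((mem_kS42 G).1 (Finset.mem_coe.1 hy)).1 h
      · intro x hx h4 h5
        obtain ⟨h6, h7⟩ := (mem_kS42 G).1 hx
        obtain ⟨_, _, _, h8⟩ := single54 G hG h6 rfl h5 h4
        rw [(nx_ku63 G hG h6).2, h7] at h8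
        omega
      · intro x hx h4 h5 h6
        obtain ⟨h7, h8⟩ := (mem_kS42 G).1 hx
        have h9 := pair121_89 G hG h7 h4 h5 h6
        rw [h8] at h9
        omega
      · intro x hx
        have := leaf_seven89 G hG hT hx
        omega

end

end Pool.Agent.PEN.E5
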