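import Pool.Agent.E5.Er54
import Pool.Agent.E5.Q54
import Pool.Agent.E5.ML89

/-! # PENNY: the ears of a black face and a set of sectors

For a nonempty set `S` of sectors with runs at least two, the number of ears minus the middle corners
of the other sectors is at most the number of pairs (sector of `S`, neighbouring ear). -/

set_option autoImplicit false

namespace Pool.Agent.PEN.E5

open Classical UpperHalfPlane
open Pool.Agent.PEN.Cl

noncomputable section

variable {V : Type} (G : Tg V) {al : ℝ} {kp : V → V → ℝ} {U : ℕ → ℝ}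

/-- the ears of a black face -/
def Ea54 (K : (cg G).ConnectedComponent) : Finset (V × V) := (kS G K).filter (fun e => rn G e = 1)

/-- the ears whose successor is in `S` -/
def An54 (K : (cg G).ConnectedComponent) (S : Finset (V × V)) : Finset (V × V) :=
  (Ea54 G K).filter (fun e => nx G e ∈ S)

/-- the ears whose predecessor is in `S` -/
def Ap54 (K : (cg G).ConnectedComponent) (S : Finset (V × V)) : Finset (V × V) :=
  (Ea54 G K).filter (fun e => ∃ y ∈ S, nx G y = e)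

/-- the number of pairs (sector of `S`, neighbouring ear) -/
def uL54 (K : (cg G).ConnectedComponent) (S : Finset (V × V)) : ℕ :=
  (An54 G K S).card + (Ap54 G K S).card

theorem mem_Ea54 {K : (cg G).ConnectedComponent} {e : V × V} :
    e ∈ Ea54 G K ↔ e ∈ kS G K ∧ rn G e = 1 := by
  unfold Ea54
  rw [Finset.mem_filter]

/-- the predecessor in the same black face -/
theorem pred54 (hG : G.Geo4 al kp U) {K : (cg G).ConnectedComponent} {e : V × V}
    (he : e ∈ kS G K) : ∃ y ∈ kS G K, nx G y = e := by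
  obtain ⟨h1, h2⟩ := (mem_kS42 G).1 he
  obtain ⟨y, hy, h3⟩ := nx_surj42 G hG h1
  refine ⟨y, (mem_kS42 G).2 ⟨hy, ?_⟩, h3⟩
  rw [← h2, ← h3]
  exact (nx_ku63 G hG hy).2.symm

/-- all runs are positive if there is a triangle -/
theorem rn_pos_kS54 (hG : G.Geo4 al kp U) {K : (cg G).ConnectedComponent} (ht : 1 ≤ tK G K)
    {y : V × V} (hy : y ∈ kS G K) : 1 ≤ rn G y := by
  obtain ⟨h1, h2⟩ := (mem_kS42 G).1 hy
  have := tK_zero54 G hG h1
  rw [h2] at this
  by_contra hc
  have := this.2 (by omega)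
  omega

/-- **the picture at an ear** `e` with predecessor `y`, two triangles at least -/
theorem ear54 (hG : G.Geo4 al kp U) {K : (cg G).ConnectedComponent} (ht : 2 ≤ tK G K)
    {e y : V × V} (he : e ∈ kS G K) (h1 : rn G e = 1) (hy : y ∈ kS G K) (hye : nx G y = e) :
    2 ≤ rn G y ∧ 2 ≤ rn G (nx G e) ∧ y.2 = e.1 ∧ nx G e = (e.2, G.ap e.2 e.1) ∧
      tt G (e.2, e.1) ∧ tt G (e.1, G.ap e.2 e.1) ∧ tt G (G.ap e.2 e.1, e.2) ∧
      G.ap (G.ap e.2 e.1) e.2 = e.1 ∧ G.ap e.1 (G.ap e.2 e.1) = e.2 ∧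
      tt G (G.ap e.2 e.1, e.1) ∧
      (G.ap e.1)^[rn G y - 2] y.1 = G.ap (G.ap e.2 e.1) e.1 := by
  obtain ⟨he1, he2⟩ := (mem_kS42 G).1 he
  obtain ⟨hy1, hy2⟩ := (mem_kS42 G).1 hy
  have hw := nx_kS89 G hG he
  obtain ⟨hw1, hw2⟩ := (mem_kS42 G).1 hw
  have py := rn_pos_kS54 G hG (by omega) hy
  have pw := rn_pos_kS54 G hG (by omega) hw
  obtain ⟨a1, a2, a3, a4, a5⟩ := last54 G hG hy1 hye (by omega)
  obtain ⟨b1, b2, b3, b4, b5⟩ := first54 G hG he1 (by omega)
  have en := nx_of54 G hG he1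
  rw [h1, Function.iterate_one] at en
  have r1 : 2 ≤ rn G y := by
    by_contra hc
    obtain ⟨_, _, _, h4⟩ := single54 G hG hy1 hye h1 (by omega)
    rw [he2] at h4
    omega
  have r2 : 2 ≤ rn G (nx G e) := by
    by_contra hc
    obtain ⟨_, _, _, h4⟩ := single54 G hG he1 rfl (by omega) h1
    rw [hw2] at h4
    omega
  have t1 : tt G (G.ap e.2 e.1, e.1) := by
    have h2 := (run54 G hG hw1).1 1 (by omega)
    rw [Function.iterate_one, en] at h2
    dsimp only at h2
    rw [b5] at h2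
    exact h2
  refine ⟨r1, r2, a1, en, b1, b2, b3, b5, b4, t1, ?_⟩
  -- the last but one triangle of the run of `y`
  have h2 := (run54 G hG hy1).1 (rn G y - 2) (by omega)
  rw [a1] at h2
  have h3 : G.ap e.1 ((G.ap e.1)^[rn G y - 2] y.1) = G.ap e.2 e.1 := by
    rw [← a3, ← Function.iterate_succ_apply' (G.ap e.1)]
    congr 2
    omega
  have h4 := G.ap4 _ _ h2.1
  rw [h3] at h4
  exact h4.symm

/-- two neighbours with run 2: four sectors -/
theorem ear_two54 (hG : G.Geo4 al kp U) {K : (cg G).ConnectedComponent} (ht : 2 ≤ tK G K)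
    {e y : V × V} (he : e ∈ kS G K) (h1 : rn G e = 1) (hy : y ∈ kS G K) (hye : nx G y = e)
    (hy2 : rn G y = 2) (hw2 : rn G (nx G e) = 2) :
    ∀ x ∈ kS G K, rn G x = 1 ∨ x = y ∨ x = nx G e := by
  obtain ⟨r1, r2, a1, en, b1, b2, b3, b5, b4, t1, a6⟩ := ear54 G hG ht he h1 hy hye
  obtain ⟨he1, he2⟩ := (mem_kS42 G).1 he
  obtain ⟨hyS, hyK⟩ := (mem_kS42 G).1 hy
  have hw := nx_kS89 G hG he
  obtain ⟨hwS, hwK⟩ := (mem_kS42 G).1 hw
  have hz := nx_kS89 G hG hw
  obtain ⟨hzS, hzK⟩ := (mem_kS42 G).1 hz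
  obtain ⟨p, v⟩ := e
  dsimp only at *
  obtain ⟨q, hq⟩ : ∃ q, G.ap v p = q := ⟨_, rfl⟩
  obtain ⟨r, hr⟩ : ∃ r, G.ap q p = r := ⟨_, rfl⟩
  rw [hq] at en b2 b3 b4 b5 t1 a6
  rw [hr, hy2, Nat.sub_self, Function.iterate_zero, id_eq] at a6
  have ey : y = (r, p) := Prod.ext a6 a1
  have t2 := tt_rot42 G t1
  have t3 := tt_rot42' G t1
  have t4 := G.ap3 _ _ t1.1
  have t5 := G.ap4 _ _ t1.1
  dsimp only at t2 t3
  rw [hr] at t2 t3 t4 t5
  have ez : nx G (nx G (p, v)) = (q, r) := by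
    rw [nx_of54 G hG hwS, hw2, Function.iterate_succ_apply, Function.iterate_one, en]
    dsimp only
    rw [b5, hr]
  have rz : rn G (nx G (nx G (p, v))) = 1 := by
    rw [ez] at hzS ⊢
    refine rn_of54 G hG hzS ?_ ?_
    · intro k hk
      have : k = 0 := by omega
      rw [this]
      exact t3
    · rw [Function.iterate_one]
      dsimp only
      rw [t5, ← ey]
      exact ((mem_SD42 G).1 hyS).2
  -- the sum of the runs
  have htK := pair121_89 G hG he1 h1 hw2 rz
  rw [he2] at htK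
  have hs := sum_rn63 G hG K
  rw [htK] at hs
  have hpq := G.ne _ _ (G.sub b2.1)
  have hsub : ({(p, v), nx G (p, v), nx G (nx G (p, v)), y} : Finset (V × V)) ⊆ kS G K := by
    intro x hx
    simp only [Finset.mem_insert, Finset.mem_singleton] at hx
    rcases hx with rfl | rfl | rfl | rfl
    · exact he
    · exact hw
    · exact hz
    · exact hy
  intro x hx
  by_contra hc
  push Not at hc
  obtain ⟨c1, c2, c3⟩ := hc
  have hxn : x ∉ ({(p, v), nx G (p, v), nx G (nx G (p, v)), y} : Finset (V × V)) := by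
    simp only [Finset.mem_insert, Finset.mem_singleton]
    rintro (h | h | h | h)
    · rw [h] at c1
      exact c1 h1
    · exact c3 h
    · rw [h] at c1
      exact c1 rz
    · exact c2 h
  have k3 : nx G (nx G (p, v)) ≠ y := by
    rw [ez, ey]
    intro h
    have h4 : q = r := congrArg Prod.fst h
    exact G.ne _ _ (G.sub t3.1) h4.symm
  have k2 : nx G (p, v) ∉ ({nx G (nx G (p, v)), y} : Finset (V × V)) := by
    simp only [Finset.mem_insert, Finset.mem_singleton]
    rintro (h | h)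
    · rw [← h] at rz
      omega
    · rw [en, ey] at h
      exact hpq (congrArg Prod.snd h).symm
  have k1 : (p, v) ∉ ({nx G (p, v), nx G (nx G (p, v)), y} : Finset (V × V)) := by
    simp only [Finset.mem_insert, Finset.mem_singleton]
    rintro (h | h | h)
    · rw [← h] at hw2
      omega
    · rw [ez] at h
      exact hpq (congrArg Prod.fst h)
    · rw [← h] at hy2
      omega
  have hsum : ∑ x ∈ ({(p, v), nx G (p, v), nx G (nx G (p, v)), y} : Finset (V × V)), rn G x =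
      6 := by
    have h5 := Finset.sum_insert (f := fun x => rn G x) k1
    have h6 := Finset.sum_insert (f := fun x => rn G x) k2
    have h7 := Finset.sum_pair (f := fun x => rn G x) k3
    omega
  have h7 := Finset.sum_le_sum_of_subset (f := fun x => rn G x)
    (Finset.insert_subset hx hsub)
  rw [Finset.sum_insert hxn, hsum, hs] at h7
  have h8 := rn_pos_kS54 G hG (by omega) hx
  omega

/-- the runs 1, 3, 1, 2: five sectors -/
theorem ear_three54 (hG : G.Geo4 al kp U) {K : (cg G).ConnectedComponent} (ht : 2 ≤ tK G K)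
    {e : V × V} (he : e ∈ kS G K) (h1 : rn G e = 1) (h3 : rn G (nx G e) = 3)
    (h1' : rn G (nx G (nx G e)) = 1) (h2 : rn G (nx G (nx G (nx G e))) = 2) :
    ∃ y ∈ kS G K, nx G y = e ∧ ∀ x ∈ kS G K, rn G x = 1 ∨ x = nx G e ∨
      x = nx G (nx G (nx G e)) ∨ x = y := by
  obtain ⟨y, hy, hye⟩ := pred54 G hG he
  obtain ⟨r1, r2, a1, en, b1, b2, b3, b5, b4, t1, a6⟩ := ear54 G hG ht he h1 hy hye
  obtain ⟨he1, he2⟩ := (mem_kS42 G).1 he
  have hw := nx_kS89 G hG he
  obtain ⟨hwS, hwK⟩ := (mem_kS42 G).1 hw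
  have hz := nx_kS89 G hG hw
  obtain ⟨hzS, hzK⟩ := (mem_kS42 G).1 hz
  have hz2 := nx_kS89 G hG hz
  obtain ⟨hz2S, hz2K⟩ := (mem_kS42 G).1 hz2
  have hz3 := nx_kS89 G hG hz2
  obtain ⟨hz3S, hz3K⟩ := (mem_kS42 G).1 hz3
  obtain ⟨p, v⟩ := e
  dsimp only at *
  obtain ⟨q, hq⟩ : ∃ q, G.ap v p = q := ⟨_, rfl⟩
  obtain ⟨r, hr⟩ : ∃ r, G.ap q p = r := ⟨_, rfl⟩
  obtain ⟨v', hv'⟩ : ∃ v', G.ap q r = v' := ⟨_, rfl⟩
  rw [hq] at en b2 b3 b4 b5 t1 a6
  have t2 := tt_rot42 G t1
  have t3 := tt_rot42' G t1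
  have t4 := G.ap3 _ _ t1.1
  have t5 := G.ap4 _ _ t1.1
  dsimp only at t2 t3
  rw [hr] at t2 t3 t4 t5
  -- the second ear
  have ez : nx G (nx G (p, v)) = (q, v') := by
    rw [nx_of54 G hG hwS, h3, Function.iterate_succ_apply, Function.iterate_succ_apply,
      Function.iterate_one, en]
    dsimp only
    rw [b5, hr, hv']
  have s1 : tt G (q, r) := by
    have h4 := (run54 G hG hwS).1 2 (by omega)
    rw [Function.iterate_succ_apply, Function.iterate_one, en] at h4
    dsimp only at h4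
    rw [b5, hr] at h4
    exact h4
  have s2 := tt_rot42 G s1
  have s3 := tt_rot42' G s1
  have s4 := G.ap3 _ _ s1.1
  have s5 := G.ap4 _ _ s1.1
  dsimp only at s2 s3
  rw [hv'] at s2 s3 s4 s5
  have ez2 : nx G (nx G (nx G (p, v))) = (v', r) := by
    rw [nx_of54 G hG hzS, h1', Function.iterate_one, ez]
    dsimp only
    rw [s5]
  have ez3 : nx G (nx G (nx G (nx G (p, v)))) = (r, p) := by
    rw [nx_of54 G hG hz2S, h2, Function.iterate_succ_apply, Function.iterate_one, ez2]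
    dsimp only
    rw [s4, t5]
  have n1 := ((mem_SD42 G).1 he1).2
  have r3 : rn G (nx G (nx G (nx G (nx G (p, v))))) = 2 := by
    rw [ez3] at hz3S ⊢
    refine rn_of54 G hG hz3S ?_ ?_
    · intro k hk
      have h5 : k = 0 ∨ k = 1 := by omega
      rcases h5 with rfl | rfl
      · exact t2
      · rw [Function.iterate_one]
        dsimp only
        rw [t4]
        exact b2
    · rw [Function.iterate_succ_apply, Function.iterate_one]
      dsimp only
      rw [t4, b4]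
      exact n1
  have e4 : nx G (nx G (nx G (nx G (nx G (p, v))))) = (p, v) := by
    rw [nx_of54 G hG hz3S, r3, Function.iterate_succ_apply, Function.iterate_one, ez3]
    dsimp only
    rw [t4, b4]
  obtain ⟨_, _, _, hk⟩ := fan1221_54 G hG hzS h1' h2 r3 (by rw [e4]; exact h1)
  rw [hzK] at hk
  refine ⟨_, hz3, e4, fun x hx => ?_⟩
  rw [hk] at hx
  simp only [Finset.mem_insert, Finset.mem_singleton] at hx
  rcases hx with h | h | h | h | h
  · left
    rw [h, h1']
  · exact Or.inr (Or.inr (Or.inl h))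
  · exact Or.inr (Or.inr (Or.inr h))
  · left
    rw [h, e4, h1]
  · right; left
    rw [h, e4]

/-- the ears away from `S` -/
theorem far54 (hG : G.Geo4 al kp U) {K : (cg G).ConnectedComponent} (ht : 2 ≤ tK G K)
    {S : Finset (V × V)} (hS : S ⊆ kS G K) (hSn : S.Nonempty) (hS2 : ∀ x ∈ S, 2 ≤ rn G x) :
    ((Ea54 G K).filter (fun e => nx G e ∉ S ∧ ∀ y ∈ S, nx G y ≠ e)).card ≤
      ∑ x ∈ kS G K \ S, (rn G x - 2) := by
  obtain ⟨A, hA⟩ : ∃ A, A = (Ea54 G K).filter (fun e => nx G e ∉ S ∧ ∀ y ∈ S, nx G y ≠ e) :=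
    ⟨_, rfl⟩
  have hmA : ∀ e ∈ A, e ∈ kS G K ∧ rn G e = 1 ∧ nx G e ∉ S ∧ ∀ y ∈ S, nx G y ≠ e := by
    intro e he
    rw [hA, Finset.mem_filter, mem_Ea54] at he
    exact ⟨he.1.1, he.1.2, he.2.1, he.2.2⟩
  have hex : ∀ e, ∃ y, e ∈ kS G K → y ∈ kS G K ∧ nx G y = e := by
    intro e
    by_cases he : e ∈ kS G K
    · obtain ⟨y, hy, h⟩ := pred54 G hG he
      exact ⟨y, fun _ => ⟨hy, h⟩⟩
    · exact ⟨e, fun h => absurd h he⟩
  choose pr hpr using hex
  obtain ⟨f, hf⟩ : ∃ f : V × V → V × V, f = fun e =>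
      if 3 ≤ rn G (nx G e) then ((nx G e).2, (G.ap (nx G e).2)^[1] (nx G e).1)
      else ((pr e).2, (G.ap (pr e).2)^[rn G (pr e) - 2] (pr e).1) := ⟨_, rfl⟩
  have hne : ∀ e ∈ A, ¬ 3 ≤ rn G (nx G e) → 3 ≤ rn G (pr e) := by
    intro e he h
    obtain ⟨m1, m2, m3, m4⟩ := hmA e he
    obtain ⟨p1, p2⟩ := hpr e m1
    obtain ⟨r1, r2, _⟩ := ear54 G hG ht m1 m2 p1 p2
    by_contra hc
    obtain ⟨s, hs⟩ := hSn
    rcases ear_two54 G hG ht m1 m2 p1 p2 (by omega) (by omega) s (hS hs) with h5 | h5 | h5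
    · have := hS2 s hs
      omega
    · rw [h5] at hs
      exact m4 _ hs p2
    · rw [h5] at hs
      exact m3 hs
  have hmem : ∀ e ∈ A, f e ∈ (kS G K \ S).biUnion (mc54 G) := by
    intro e he
    obtain ⟨m1, m2, m3, m4⟩ := hmA e he
    obtain ⟨p1, p2⟩ := hpr e m1
    rw [Finset.mem_biUnion, hf]
    dsimp only
    by_cases h : 3 ≤ rn G (nx G e)
    · rw [if_pos h]
      have hw := nx_kS89 G hG m1
      exact ⟨nx G e, Finset.mem_sdiff.2 ⟨hw, m3⟩,
        ((mc_pos54 G hG ((mem_kS42 G).1 hw).1 (i := 1)).2 ⟨le_rfl, by omega⟩).1⟩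
    · rw [if_neg h]
      have h3 := hne e he h
      exact ⟨pr e, Finset.mem_sdiff.2 ⟨p1, fun h5 => m4 _ h5 p2⟩,
        ((mc_pos54 G hG ((mem_kS42 G).1 p1).1 (i := rn G (pr e) - 2)).2 ⟨by omega, by omega⟩).1⟩
  -- the mixed case
  have hmix : ∀ e ∈ A, ∀ e' ∈ A, 3 ≤ rn G (nx G e) → ¬ 3 ≤ rn G (nx G e') → f e ≠ f e' := by
    intro e he e' he' h h' heq
    obtain ⟨m1, m2, m3, m4⟩ := hmA e he
    obtain ⟨m1', m2', m3', m4'⟩ := hmA e' he'
    obtain ⟨p1, p2⟩ := hpr e' m1'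
    have h3 := hne e' he' h'
    rw [hf] at heq
    dsimp only at heq
    rw [if_pos h, if_neg h'] at heq
    have hw := nx_kS89 G hG m1
    obtain ⟨u1, u2⟩ := rd_uniq63 G hG ((mem_kS42 G).1 hw).1 ((mem_kS42 G).1 p1).1
      (i := 1) (j := rn G (pr e') - 2) (by omega) (by omega) heq
    have e5 : nx G (nx G e) = e' := by rw [u1]; exact p2
    have e6 : rn G (nx G e) = 3 := by
      rw [u1] at h ⊢
      omega
    have r1 := (ear54 G hG ht m1' m2' p1 p2).2.1
    obtain ⟨y, hy, hye, hall⟩ := ear_three54 G hG ht m1 m2 e6 (by rw [e5]; exact m2')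
      (by rw [e5]; omega)
    obtain ⟨s, hs⟩ := hSn
    rcases hall s (hS hs) with h7 | h7 | h7 | h7
    · have := hS2 s hs
      omega
    · rw [h7] at hs
      exact m3 hs
    · rw [h7, e5] at hs
      exact m3' hs
    · rw [h7] at hs
      exact m4 _ hs hye
  have hinj : Set.InjOn f (A : Set (V × V)) := by
    intro e he e' he' heq
    have he := Finset.mem_coe.1 he
    have he' := Finset.mem_coe.1 he'
    obtain ⟨m1, m2, m3, m4⟩ := hmA e he
    obtain ⟨m1', m2', m3', m4'⟩ := hmA e' he'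
    obtain ⟨p1, p2⟩ := hpr e m1
    obtain ⟨p1', p2'⟩ := hpr e' m1'
    by_cases h : 3 ≤ rn G (nx G e) <;> by_cases h' : 3 ≤ rn G (nx G e')
    · rw [hf] at heq
      dsimp only at heq
      rw [if_pos h, if_pos h'] at heq
      have u1 := (rd_uniq63 G hG ((mem_kS42 G).1 (nx_kS89 G hG m1)).1
        ((mem_kS42 G).1 (nx_kS89 G hG m1')).1 (i := 1) (j := 1) (by omega) (by omega) heq).1
      exact nx_inj42 G hG ((mem_kS42 G).1 m1).1 ((mem_kS42 G).1 m1').1 u1
    · exact absurd heq (hmix e he e' he' h h')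
    · exact absurd heq.symm (hmix e' he' e he h' h)
    · rw [hf] at heq
      dsimp only at heq
      rw [if_neg h, if_neg h'] at heq
      have h3 := hne e he h
      have h3' := hne e' he' h'
      have u1 := (rd_uniq63 G hG ((mem_kS42 G).1 p1).1 ((mem_kS42 G).1 p1').1
        (i := rn G (pr e) - 2) (j := rn G (pr e') - 2) (by omega) (by omega) heq).1
      rw [← p2, ← p2', u1]
  have hc : ((kS G K \ S).biUnion (mc54 G)).card = ∑ x ∈ kS G K \ S, (rn G x - 2) := by
    rw [Finset.card_biUnion]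
    · exact Finset.sum_congr rfl fun x hx =>
        card_mc54 G hG ((mem_kS42 G).1 (Finset.mem_sdiff.1 hx).1).1
    · intro x hx y hy hne
      exact mc_disj54 G hG ((mem_kS42 G).1 (Finset.mem_sdiff.1 hx).1).1
        ((mem_kS42 G).1 (Finset.mem_sdiff.1 hy).1).1 hne
  rw [← hA, ← hc, ← Finset.card_image_of_injOn hinj]
  refine Finset.card_le_card fun z hz => ?_
  obtain ⟨e, he, rfl⟩ := Finset.mem_image.1 hz
  exact hmem e he

/-- **LH**: ears against middle corners and the pairs (sector of `S`, neighbouring ear) -/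
theorem lh54 (hG : G.Geo4 al kp U) {K : (cg G).ConnectedComponent} (ht : 2 ≤ tK G K)
    {S : Finset (V × V)} (hS : S ⊆ kS G K) (hSn : S.Nonempty) (hS2 : ∀ x ∈ S, 2 ≤ rn G x) :
    ∑ x ∈ kS G K \ S, (2 - (rn G x : ℝ)) ≤ uL54 G K S := by
  have h1 := far54 G hG ht hS hSn hS2
  have h2 : (Ea54 G K).card ≤ (An54 G K S).card + (Ap54 G K S).card +
      ((Ea54 G K).filter (fun e => nx G e ∉ S ∧ ∀ y ∈ S, nx G y ≠ e)).card := by
    have hsub : Ea54 G K ⊆ (An54 G K S ∪ Ap54 G K S) ∪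
        (Ea54 G K).filter (fun e => nx G e ∉ S ∧ ∀ y ∈ S, nx G y ≠ e) := by
      intro e he
      rw [Finset.mem_union, Finset.mem_union]
      by_cases k1 : nx G e ∈ S
      · exact Or.inl (Or.inl (Finset.mem_filter.2 ⟨he, k1⟩))
      by_cases k2 : ∃ y ∈ S, nx G y = e
      · exact Or.inl (Or.inr (Finset.mem_filter.2 ⟨he, k2⟩))
      · right
        push Not at k2
        exact Finset.mem_filter.2 ⟨he, k1, k2⟩
    refine (Finset.card_le_card hsub).trans ((Finset.card_union_le _ _).trans ?_)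
    exact Nat.add_le_add_right (Finset.card_union_le _ _) _
  have hpos : ∀ x ∈ kS G K, 1 ≤ rn G x := fun x hx => rn_pos_kS54 G hG (by omega) hx
  have hEa : Ea54 G K = (kS G K \ S).filter (fun e => rn G e = 1) := by
    ext e
    rw [mem_Ea54, Finset.mem_filter, Finset.mem_sdiff]
    constructor
    · rintro ⟨k1, k2⟩
      refine ⟨⟨k1, fun k3 => ?_⟩, k2⟩
      have := hS2 e k3
      omega
    · rintro ⟨⟨k1, _⟩, k2⟩
      exact ⟨k1, k2⟩
  have h3 : ∑ x ∈ kS G K \ S, (2 - (rn G x : ℝ)) =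
      (Ea54 G K).card - ((∑ x ∈ kS G K \ S, (rn G x - 2) : ℕ) : ℝ) := by
    rw [hEa, Finset.card_filter, Nat.cast_sum, Nat.cast_sum, ← Finset.sum_sub_distrib]
    refine Finset.sum_congr rfl fun x hx => ?_
    have k1 := hpos x (Finset.mem_sdiff.1 hx).1
    by_cases k2 : rn G x = 1
    · rw [if_pos k2, k2]
      norm_num
    · rw [if_neg k2, Nat.cast_sub (by omega)]
      push_cast
      ring
  have h4 : ((Ea54 G K).card : ℝ) ≤ uL54 G K S +
      ((∑ x ∈ kS G K \ S, (rn G x - 2) : ℕ) : ℝ) := by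
    unfold uL54
    exact_mod_cast h2.trans (Nat.add_le_add_left h1 _)
  rw [h3]
  linarith

end

end Pool.Agent.PEN.E5
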