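import Pool.Agent.E5.Kt54

/-! # PENNY, small diameters: Lemma H

A black disc with at least two leaves of run four, all other runs at most three: the price with four
for every run three is at most twice the number of pairs (leaf, neighbouring ear); the only exception
is the octagon `4 1 3 1 4 1 3 1`. -/

set_option autoImplicit false

namespace Pool.Agent.PEN.E5

open Classical UpperHalfPlane
open Pool.Agent.PEN.Cl

noncomputable section

variable {V : Type} (G : Tg V) {al : ℝ} {kp : V → V → ℝ} {U : ℕ → ℝ}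

/-- the arithmetic of Lemma H -/
theorem arithH69 {n1 n2 n3 l t u : ℕ} (h0 : n1 + n2 + n3 + l = t + 2) (h1 : 2 * n1 + n2 = 6 + l)
    (h5 : 2 * n1 ≤ u + n2 + 2 * n3) (hu : u ≤ 2 * l) (hl : 2 ≤ l) (h6 : 6 ≤ t)
    (h6' : t = 6 → l = 2 → n1 ≤ u) :
    54 + 16 * l + 4 * n3 ≤ 2 * u + 14 * t ∨ (t = 6 ∧ l = 2 ∧ n3 = 2 ∧ n2 = 0 ∧ n1 = 4 ∧ u = 4) := by
  rcases Nat.lt_or_ge l 3 with h | h
  · have hl2 : l = 2 := by omega
    subst hl2
    rcases Nat.lt_or_ge t 7 with h7 | h7
    · have ht : t = 6 := by omega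
      have h8 := h6' ht rfl
      omega
    · omega
  · omega

theorem mem_tri69 {z : V × V} {w : V} :
    w ∈ G.tri z ↔ w = z.1 ∨ w = z.2 ∨ w = G.ap z.1 z.2 := by
  unfold Tg.tri
  simp

/-- a run 2 sector of a face with three triangles has at most one neighbouring ear -/
theorem u_two69 (hG : G.Geo4 al kp U) {K : (cg G).ConnectedComponent} (ht : 3 ≤ tK G K)
    {x : V × V} (hx : x ∈ kS G K) (h2 : rn G x = 2) : u54 G x ≤ 1 := by
  unfold u54 uN54 uP54
  split_ifs with h3 h4
  · exfalso
    obtain ⟨e, he, hex, he1⟩ := h4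
    have h5 := pair121_89 G hG he he1 (by rw [hex]; exact h2) (by rw [hex]; exact h3)
    obtain ⟨_, h6⟩ := nx_ku63 G hG he
    rw [hex, ((mem_kS42 G).1 hx).2] at h6
    rw [← h6] at h5
    omega
  all_goals omega

/-- ears are never neighbours: every ear gives two pairs -/
theorem ears_pairs69 (hG : G.Geo4 al kp U) {K : (cg G).ConnectedComponent} (ht : 2 ≤ tK G K) :
    2 * (Ea54 G K).card = ∑ x ∈ (kS G K).filter (fun x => rn G x ≠ 1), u54 G x := by
  have h1 := uL_sum54 G hG (K := K) (S := (kS G K).filter (fun x => rn G x ≠ 1))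
    (Finset.filter_subset _ _)
  unfold u54
  rw [← h1]
  unfold uL54
  have e1 : An54 G K ((kS G K).filter (fun x => rn G x ≠ 1)) = Ea54 G K := by
    unfold An54
    refine Finset.filter_true_of_mem fun e he => ?_
    obtain ⟨h2, h3⟩ := (mem_Ea54 G).1 he
    obtain ⟨y, hy, hye⟩ := pred54 G hG h2
    obtain ⟨_, r2, _⟩ := ear54 G hG ht h2 h3 hy hye
    exact Finset.mem_filter.2 ⟨nx_kS89 G hG h2, by omega⟩
  have e2 : Ap54 G K ((kS G K).filter (fun x => rn G x ≠ 1)) = Ea54 G K := by
    unfold Ap54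
    refine Finset.filter_true_of_mem fun e he => ?_
    obtain ⟨h2, h3⟩ := (mem_Ea54 G).1 he
    obtain ⟨y, hy, hye⟩ := pred54 G hG h2
    obtain ⟨r1, _⟩ := ear54 G hG ht h2 h3 hy hye
    exact ⟨y, Finset.mem_filter.2 ⟨hy, by omega⟩, hye⟩
  rw [e1, e2]
  omega

/-- the ears of a face with six triangles and two leaves of run four are next to a leaf -/
theorem six_ears69 (hG : G.Geo4 al kp U) {K : (cg G).ConnectedComponent} (ht : tK G K = 6)
    {x y : V × V} (hx : x ∈ kS G K) (hy : y ∈ kS G K) (hx4 : rn G x = 4) (hy4 : rn G y = 4)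
    (hne : x.2 ≠ y.2) (h1x : ∀ s ∈ kS G K, s.2 = x.2 → s = x)
    (h1y : ∀ s ∈ kS G K, s.2 = y.2 → s = y) {e : V × V} (he : e ∈ Ea54 G K) :
    nx G e = x ∨ nx G e = y ∨ nx G x = e ∨ nx G y = e := by
  obtain ⟨hxS, hxK⟩ := (mem_kS42 G).1 hx
  obtain ⟨hyS, hyK⟩ := (mem_kS42 G).1 hy
  obtain ⟨he1, he2⟩ := (mem_Ea54 G).1 he
  obtain ⟨heS, heK⟩ := (mem_kS42 G).1 he1
  have c1 := Finset.card_union_add_card_inter (rt G x) (rt G y)
  have c2 := Finset.card_le_card (rt_inter63 G hG hxS hyS hne)
  have c3 : ({G.tri (x.2, y.2), G.tri (y.2, x.2)} : Finset (Finset V)).card ≤ 2 :=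
    Finset.card_le_two
  rw [card_rt63 G hG hxS, card_rt63 G hG hyS, hx4, hy4] at c1
  have hsub : rt G x ∪ rt G y ⊆ (kT G K).image G.tri := by
    refine Finset.union_subset ?_ ?_
    · have := rt_sub63 G hG hxS
      rw [hxK] at this
      exact this
    · have := rt_sub63 G hG hyS
      rw [hyK] at this
      exact this
  have heq : rt G x ∪ rt G y = (kT G K).image G.tri := by
    refine Finset.eq_of_subset_of_card_le hsub ?_
    have : ((kT G K).image G.tri).card = tK G K := rfl
    omega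
  -- the triangle of the ear
  obtain ⟨p, hp, hpe⟩ := pred54 G hG he1
  obtain ⟨r1, r2, a1, en, b1, b2, b3, b5, b4, t1, a6⟩ := ear54 G hG (by omega) he1 he2 hp hpe
  have hz : G.tri (e.2, e.1) ∈ rt G x ∪ rt G y := by
    rw [heq]
    refine Finset.mem_image_of_mem _ ?_
    have h3 : (e.2, e.1) ∈ rd G e := (mem_rd63 G).2 ⟨0, by omega, rfl⟩
    obtain ⟨q1, _, q3⟩ := rd_prop63 G hG heS h3
    exact (mem_kT42 G).2 ⟨q1, q3.trans heK⟩
  have key : ∀ z ∈ kS G K, rn G z = 4 → (∀ s ∈ kS G K, s.2 = z.2 → s = z) →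
      G.tri (e.2, e.1) ∈ rt G z → nx G e = z ∨ nx G z = e := by
    intro z hzK hz4 hz1 hzt
    obtain ⟨hzS, hzk⟩ := (mem_kS42 G).1 hzK
    obtain ⟨c, hc, hce⟩ := (mem_rt63 G).1 hzt
    obtain ⟨q1, q2, _⟩ := rd_prop63 G hG hzS hc
    have hm : z.2 ∈ G.tri (e.2, e.1) := by
      rw [← hce, ← q2]
      exact (mem_tri69 G).2 (Or.inl rfl)
    rcases (mem_tri69 G).1 hm with h4 | h4 | h4
    · exfalso
      dsimp only at h4
      have h5 := hz1 e he1 h4.symm
      rw [h5] at he2
      omega
    · right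
      dsimp only at h4
      have h5 := hz1 p hp (by rw [a1, h4])
      rw [← h5]
      exact hpe
    · left
      dsimp only at h4
      refine hz1 (nx G e) (nx_kS89 G hG he1) ?_
      rw [h4, en]
  rcases Finset.mem_union.1 hz with h3 | h3
  · rcases key x hx hx4 h1x h3 with h4 | h4
    · exact Or.inl h4
    · exact Or.inr (Or.inr (Or.inl h4))
  · rcases key y hy hy4 h1y h3 with h4 | h4
    · exact Or.inr (Or.inl h4)
    · exact Or.inr (Or.inr (Or.inr h4))

/-- **Lemma H** (H2): `S` the leaves (run four, one sector at the point), the other runs at most three -/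
theorem lemH69 (hG : G.Geo4 al kp U) {K : (cg G).ConnectedComponent}
    (hd : (kS G K).card = tK G K + 2) {S : Finset (V × V)} (hS : S ⊆ kS G K)
    (hS4 : ∀ x ∈ S, rn G x = 4) (h3 : ∀ x ∈ kS G K, x ∉ S → rn G x ≤ 3) (hl : 2 ≤ S.card)
    (hone : ∀ x ∈ S, ∀ s ∈ kS G K, s.2 = x.2 → s = x) :
    54 + 16 * S.card + 4 * ((kS G K).filter (fun x => rn G x = 3)).card ≤
      2 * ∑ x ∈ S, u54 G x + 14 * tK G K ∨
    (tK G K = 6 ∧ S.card = 2 ∧ ((kS G K).filter (fun x => rn G x = 3)).card = 2 ∧
      ((kS G K).filter (fun x => rn G x = 2)).card = 0 ∧ (Ea54 G K).card = 4 ∧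
      ∑ x ∈ S, u54 G x = 4) := by
  -- two leaves
  obtain ⟨x, hx, y, hy, hxy⟩ := Finset.one_lt_card.1 (by omega : 1 < S.card)
  have hne : x.2 ≠ y.2 := fun h => hxy (hone y hy x (hS hx) h)
  have hxK := (mem_kS42 G).1 (hS hx)
  have hyK := (mem_kS42 G).1 (hS hy)
  have h6 : 6 ≤ tK G K := by
    have := run_two63 G hG hxK.1 hyK.1 hne (hxK.2.trans hyK.2.symm)
    rw [hS4 x hx, hS4 y hy, hxK.2] at this
    omega
  -- the counts
  have h1 := ears_disc54 G hG (by omega) hd hS hS4 h3
  have h0 : (Ea54 G K).card + ((kS G K).filter (fun x => rn G x = 2)).card +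
      ((kS G K).filter (fun x => rn G x = 3)).card + S.card = tK G K + 2 := by
    rw [← hd]
    have e1 : S.card = ((kS G K).filter (fun x => rn G x = 4)).card := by
      congr 1
      ext z
      rw [Finset.mem_filter]
      refine ⟨fun h => ⟨hS h, hS4 z h⟩, fun h => ?_⟩
      by_contra hno
      have := h3 z h.1 hno
      omega
    rw [e1]
    unfold Ea54
    rw [Finset.card_filter, Finset.card_filter, Finset.card_filter, Finset.card_filter,
      ← Finset.sum_add_distrib, ← Finset.sum_add_distrib, ← Finset.sum_add_distrib,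
      Finset.card_eq_sum_ones]
    refine Finset.sum_congr rfl fun z hz => ?_
    have k1 := rn_pos_kS54 G hG (by omega : 1 ≤ tK G K) hz
    have k2 : rn G z ≤ 4 := by
      by_cases hzS : z ∈ S
      · rw [hS4 z hzS]
      · have := h3 z hz hzS
        omega
    have k3 : rn G z = 1 ∨ rn G z = 2 ∨ rn G z = 3 ∨ rn G z = 4 := by omega
    rcases k3 with k | k | k | k <;> rw [k] <;> norm_num
  -- the pairs
  have h5 : 2 * (Ea54 G K).card ≤ ∑ x ∈ S, u54 G x +
      ((kS G K).filter (fun x => rn G x = 2)).card +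
      2 * ((kS G K).filter (fun x => rn G x = 3)).card := by
    rw [ears_pairs69 G hG (by omega : 2 ≤ tK G K)]
    have e1 : ∑ x ∈ (kS G K).filter (fun x => rn G x ≠ 1), u54 G x ≤
        ∑ x ∈ kS G K, ((if x ∈ S then u54 G x else 0) + (if rn G x = 2 then 1 else 0) +
          2 * (if rn G x = 3 then 1 else 0)) := by
      rw [Finset.sum_filter]
      refine Finset.sum_le_sum fun z hz => ?_
      by_cases k1 : rn G z = 1
      · rw [if_neg (not_not.2 k1)]
        exact Nat.zero_le _
      rw [if_pos k1]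
      by_cases hzS : z ∈ S
      · rw [if_pos hzS]
        omega
      · rw [if_neg hzS]
        have k2 := h3 z hz hzS
        have k3 := rn_pos_kS54 G hG (by omega : 1 ≤ tK G K) hz
        by_cases k4 : rn G z = 2
        · rw [if_pos k4]
          have := u_two69 G hG (by omega : 3 ≤ tK G K) hz k4
          omega
        · rw [if_neg k4, if_pos (by omega)]
          have := u_le54 G z
          omega
    refine e1.trans (le_of_eq ?_)
    rw [Finset.sum_add_distrib, Finset.sum_add_distrib, ← Finset.mul_sum, ← Finset.sum_filter,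
      ← Finset.card_filter, ← Finset.card_filter, Finset.filter_mem_eq_inter,
      Finset.inter_eq_right.2 hS]
  have hu : ∑ x ∈ S, u54 G x ≤ 2 * S.card := by
    rw [mul_comm, ← smul_eq_mul]
    exact Finset.sum_le_card_nsmul _ _ _ fun z _ => u_le54 G z
  have h6' : tK G K = 6 → S.card = 2 → (Ea54 G K).card ≤ ∑ x ∈ S, u54 G x := by
    intro ht hc
    have hSe : S = {x, y} := by
      symm
      refine Finset.eq_of_subset_of_card_le ?_ ?_
      · intro z hz
        rcases Finset.mem_insert.1 hz with h | h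
        · rw [h]; exact hx
        · rw [Finset.mem_singleton.1 h]; exact hy
      · rw [hc, Finset.card_pair hxy]
    have hall : Ea54 G K ⊆ An54 G K S ∪ Ap54 G K S := by
      intro e he
      rw [Finset.mem_union]
      unfold An54 Ap54
      rw [Finset.mem_filter, Finset.mem_filter]
      rcases six_ears69 G hG ht (hS hx) (hS hy) (hS4 x hx) (hS4 y hy) hne (hone x hx)
        (hone y hy) he with h | h | h | h
      · exact Or.inl ⟨he, by rw [h]; exact hx⟩
      · exact Or.inl ⟨he, by rw [h]; exact hy⟩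
      · exact Or.inr ⟨he, x, hx, h⟩
      · exact Or.inr ⟨he, y, hy, h⟩
    have e1 := Finset.card_le_card hall
    have e2 := Finset.card_union_le (An54 G K S) (Ap54 G K S)
    have e3 := uL_sum54 G hG hS
    unfold uL54 at e3
    unfold u54
    omega
  exact arithH69 h0 h1 h5 hu hl h6 h6'

end

end Pool.Agent.PEN.E5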