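import Pool.Agent.E5.LmH69

/-! # PENNY, small diameters: Lemma H with far ears

In a black disc with at least two leaves of run four and all other runs at most three, every ear with
one neighbour of run two and no neighbouring leaf saves eight. -/

set_option autoImplicit false

namespace Pool.Agent.PEN.E5

open Classical UpperHalfPlane
open Pool.Agent.PEN.Cl

noncomputable section

variable {V : Type} (G : Tg V) {al : ℝ} {kp : V → V → ℝ} {U : ℕ → ℝ}

/-- the arithmetic -/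
theorem arithF69 {n1 n2 n3 l t u m m0 : ℕ} (h0 : n1 + n2 + n3 + l = t + 2) (h1 : 2 * n1 + n2 = 6 + l)
    (h5 : 2 * n1 + m ≤ u + n2 + 2 * n3) (hu : u ≤ 2 * l) (hl : 2 ≤ l) (hm2 : m ≤ n2) (hm3 : m ≤ n3)
    (hm0 : m ≤ m0) (hn0 : n1 ≤ u + m0) (h6 : l = 2 → 6 + m0 ≤ t)
    (hx : l = 3 → n2 = 1 → n3 = 1 → m = 1 → u ≠ 6) :
    54 + 16 * l + 4 * n3 + 8 * m ≤ 2 * u + 14 * t ∨
      (t = 6 ∧ l = 2 ∧ n3 = 2 ∧ n2 = 0 ∧ n1 = 4 ∧ u = 4) := by
  rcases Nat.lt_or_ge l 4 with h | h
  · have hl2 : l = 2 ∨ l = 3 := by omega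
    rcases hl2 with rfl | rfl
    · have h7 := h6 rfl
      omega
    · by_cases h8 : n2 = 1 ∧ n3 = 1 ∧ m = 1
      · obtain ⟨h8, h9, h10⟩ := h8
        have := hx rfl h8 h9 h10
        omega
      · omega
  · omega

/-- the triangle of an ear: its three corners lie in the ear and its two neighbours -/
theorem ear_tri69 (hG : G.Geo4 al kp U) {K : (cg G).ConnectedComponent} (ht : 2 ≤ tK G K)
    {e p x : V × V} (he : e ∈ kS G K) (h1 : rn G e = 1) (hp : p ∈ kS G K) (hpe : nx G p = e)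
    (hx : x ∈ kS G K) (hxt : G.tri (e.2, e.1) ∈ rt G x) : x = e ∨ x = p ∨ x = nx G e := by
  obtain ⟨heS, heK⟩ := (mem_kS42 G).1 he
  obtain ⟨hpS, hpK⟩ := (mem_kS42 G).1 hp
  obtain ⟨hxS, hxK⟩ := (mem_kS42 G).1 hx
  obtain ⟨hnS, hnK⟩ := nx_ku63 G hG heS
  obtain ⟨r1, r2, a1, en, b1, b2, b3, b5, b4, t1, a6⟩ := ear54 G hG ht he h1 hp hpe
  obtain ⟨l1, l2, l3, l4, l5⟩ := last54 G hG hpS hpe (by omega)
  obtain ⟨c, hc, hce⟩ := (mem_rt63 G).1 hxt
  obtain ⟨q1, q2, _⟩ := rd_prop63 G hG hxS hc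
  have c1 : (e.2, e.1) ∈ rd G e := (mem_rd63 G).2 ⟨0, by omega, rfl⟩
  have c2 : (e.1, G.ap e.2 e.1) ∈ rd G p := by
    refine (mem_rd63 G).2 ⟨rn G p - 1, by omega, ?_⟩
    rw [a1, l3]
  have c3 : (G.ap e.2 e.1, e.2) ∈ rd G (nx G e) := by
    refine (mem_rd63 G).2 ⟨0, by omega, ?_⟩
    rw [en]
    rfl
  have hdis : ∀ {z w : V × V}, z ∈ SD G → w ∈ SD G → ∀ {d : V × V}, d ∈ rd G z → d ∈ rd G w →
      z = w := by
    intro z w hz hw d h2 h3
    by_contra hno
    exact Finset.disjoint_left.1 (rd_disj63 G hG hz hw hno) h2 h3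
  rcases (tri_eq_iff G b1.1 q1.1).1 hce.symm with h | h | h
  · left
    rw [h] at hc
    exact hdis hxS heS hc c1
  · right; left
    rw [h] at hc
    exact hdis hxS hpS hc c2
  · right; right
    rw [h] at hc
    exact hdis hxS hnS hc c3

/-- the runs 2, 1, 3, 1: the next run is 2 (five sectors) -/
theorem ear_three69 (hG : G.Geo4 al kp U) {K : (cg G).ConnectedComponent} (ht : 2 ≤ tK G K)
    {p : V × V} (hp : p ∈ kS G K) (hp2 : rn G p = 2) (h1 : rn G (nx G p) = 1)
    (h3 : rn G (nx G (nx G p)) = 3) (h1' : rn G (nx G (nx G (nx G p))) = 1) :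
    rn G (nx G (nx G (nx G (nx G p)))) = 2 := by
  obtain ⟨e, he0⟩ : ∃ e, nx G p = e := ⟨_, rfl⟩
  rw [he0] at h1 h3 h1' ⊢
  have he : e ∈ kS G K := by
    rw [← he0]
    exact nx_kS89 G hG hp
  obtain ⟨r1, r2, a1, en, b1, b2, b3, b5, b4, t1, a6⟩ := ear54 G hG ht he h1 hp he0
  have hw := nx_kS89 G hG he
  obtain ⟨hwS, hwK⟩ := (mem_kS42 G).1 hw
  have hz := nx_kS89 G hG hw
  obtain ⟨hzS, hzK⟩ := (mem_kS42 G).1 hz
  have hz2 := nx_kS89 G hG hz
  obtain ⟨hz2S, hz2K⟩ := (mem_kS42 G).1 hz2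
  obtain ⟨hpS, hpK⟩ := (mem_kS42 G).1 hp
  obtain ⟨q, hq⟩ : ∃ q, G.ap e.2 e.1 = q := ⟨_, rfl⟩
  obtain ⟨r, hr⟩ : ∃ r, G.ap q e.1 = r := ⟨_, rfl⟩
  obtain ⟨v', hv'⟩ : ∃ v', G.ap q r = v' := ⟨_, rfl⟩
  rw [hq] at en b2 b3 b4 b5 t1 a6
  rw [hr, hp2, Nat.sub_self, Function.iterate_zero, id_eq] at a6
  have t2 := tt_rot42 G t1
  have t3 := tt_rot42' G t1
  have t4 := G.ap3 _ _ t1.1
  have t5 := G.ap4 _ _ t1.1
  dsimp only at t2 t3
  rw [hr] at t2 t3 t4 t5
  -- the second ear
  have ez : nx G (nx G e) = (q, v') := by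
    rw [nx_of54 G hG hwS, h3, Function.iterate_succ_apply, Function.iterate_succ_apply,
      Function.iterate_one, en]
    dsimp only
    rw [b5, hr, hv']
  have s1 : tt G (q, r) := by
    have h4 := (run54 G hG hwS).1 2 (by omega)
    rw [Function.iterate_succ_apply, Function.iterate_one, en] at h4
    dsimp only at h4
    rw [b5, hr] at h4
    exact h4
  have s2 := tt_rot42 G s1
  have s3 := tt_rot42' G s1
  have s4 := G.ap3 _ _ s1.1
  have s5 := G.ap4 _ _ s1.1
  dsimp only at s2 s3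
  rw [hv'] at s2 s3 s4 s5
  have ez2 : nx G (nx G (nx G e)) = (v', r) := by
    rw [nx_of54 G hG hzS, h1', Function.iterate_one, ez]
    dsimp only
    rw [s5]
  rw [ez2] at hz2S ⊢
  have hpe : p = (r, e.1) := Prod.ext a6 a1
  refine rn_of54 G hG hz2S ?_ ?_
  · intro k hk
    have h5 : k = 0 ∨ k = 1 := by omega
    rcases h5 with rfl | rfl
    · exact s2
    · rw [Function.iterate_one]
      dsimp only
      rw [s4]
      exact t3
  · rw [Function.iterate_succ_apply, Function.iterate_one]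
    dsimp only
    rw [s4, t5, ← hpe]
    exact ((mem_SD42 G).1 hpS).2

/-- the ears next to no sector of `S` with one neighbour of run two -/
def M69 (K : (cg G).ConnectedComponent) (S : Finset (V × V)) : Finset (V × V) :=
  (Ea54 G K).filter (fun e => (rn G (nx G e) = 2 ∧ ∀ y ∈ S, nx G y ≠ e) ∨
    ((∃ y ∈ kS G K, nx G y = e ∧ rn G y = 2) ∧ nx G e ∉ S))

/-- the ears next to no sector of `S` -/
def E0_69 (K : (cg G).ConnectedComponent) (S : Finset (V × V)) : Finset (V × V) :=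
  (Ea54 G K).filter (fun e => nx G e ∉ S ∧ ∀ y ∈ S, nx G y ≠ e)

/-- **a far ear** is of type `2 1 3`, and neither neighbour has a second ear -/
theorem far69 (hG : G.Geo4 al kp U) {K : (cg G).ConnectedComponent} (ht : 3 ≤ tK G K)
    {S : Finset (V × V)} (hS : S ⊆ kS G K) (hS4 : ∀ x ∈ S, rn G x = 4)
    (h3 : ∀ x ∈ kS G K, x ∉ S → rn G x ≤ 3) (hl : 2 ≤ S.card) {e p : V × V}
    (he : e ∈ M69 G K S) (hp : p ∈ kS G K) (hpe : nx G p = e) :
    e ∈ kS G K ∧ rn G e = 1 ∧
      ((rn G p = 2 ∧ rn G (nx G e) = 3) ∨ (rn G p = 3 ∧ rn G (nx G e) = 2)) ∧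
      rn G (nx G (nx G e)) ≠ 1 ∧ (∀ y ∈ SD G, nx G y = p → rn G y ≠ 1) ∧ p ∉ S ∧ nx G e ∉ S := by
  obtain ⟨he1, he2⟩ := Finset.mem_filter.1 he
  obtain ⟨heK, hr1⟩ := (mem_Ea54 G).1 he1
  obtain ⟨heS, heKu⟩ := (mem_kS42 G).1 heK
  obtain ⟨hpS, hpKu⟩ := (mem_kS42 G).1 hp
  obtain ⟨hnS, hnKu⟩ := nx_ku63 G hG heS
  have hnK := nx_kS89 G hG heK
  obtain ⟨x, hx, y, hy, hxy⟩ := Finset.one_lt_card.1 (by omega : 1 < S.card)
  obtain ⟨r1, r2, _⟩ := ear54 G hG (by omega : 2 ≤ tK G K) heK hr1 hp hpe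
  have hpnS : p ∉ S := by
    intro h
    rcases he2 with ⟨_, h2⟩ | ⟨⟨z, hz, hz1, hz2⟩, _⟩
    · exact h2 p h hpe
    · have h4 := nx_inj42 G hG ((mem_kS42 G).1 hz).1 hpS (hz1.trans hpe.symm)
      rw [h4, hS4 p h] at hz2
      omega
  have hnnS : nx G e ∉ S := by
    intro h
    rcases he2 with ⟨h2, _⟩ | ⟨_, h2⟩
    · rw [hS4 _ h] at h2
      omega
    · exact h2 h
  have b1 := h3 p hp hpnS
  have b2 := h3 _ hnK hnnS
  have hor : rn G p = 2 ∨ rn G (nx G e) = 2 := by
    rcases he2 with ⟨h2, _⟩ | ⟨⟨z, hz, hz1, hz2⟩, _⟩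
    · exact Or.inr h2
    · left
      have h4 := nx_inj42 G hG ((mem_kS42 G).1 hz).1 hpS (hz1.trans hpe.symm)
      rw [← h4]
      exact hz2
  have hnot : ¬ (rn G p = 2 ∧ rn G (nx G e) = 2) := by
    rintro ⟨h4, h5⟩
    have k := ear_two54 G hG (by omega : 2 ≤ tK G K) heK hr1 hp hpe h4 h5 x (hS hx)
    have k4 := hS4 x hx
    rcases k with k | k | k
    · omega
    · rw [k] at k4
      omega
    · rw [k] at k4
      omega
  have htype : (rn G p = 2 ∧ rn G (nx G e) = 3) ∨ (rn G p = 3 ∧ rn G (nx G e) = 2) := by omega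
  -- five sectors contradict two leaves
  have five : ∀ f ∈ kS G K, rn G f = 1 → rn G (nx G f) = 3 → rn G (nx G (nx G f)) = 1 →
      rn G (nx G (nx G (nx G f))) = 2 → False := by
    intro f hf f1 f2 f3 f4
    obtain ⟨w, hw, hwf, hall⟩ := ear_three54 G hG (by omega : 2 ≤ tK G K) hf f1 f2 f3 f4
    have key : ∀ z ∈ S, z = w := by
      intro z hz
      have k4 := hS4 z hz
      rcases hall z (hS hz) with k | k | k | k
      · omega
      · rw [k] at k4
        omega
      · rw [k] at k4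
        omega
      · exact k
    exact hxy ((key x hx).trans (key y hy).symm)
  refine ⟨heK, hr1, htype, ?_, ?_, hpnS, hnnS⟩
  · intro h
    rcases htype with ⟨h4, h5⟩ | ⟨h4, h5⟩
    · have h6 := ear_three69 G hG (by omega : 2 ≤ tK G K) hp h4 (by rw [hpe]; exact hr1)
        (by rw [hpe]; exact h5) (by rw [hpe]; exact h)
      rw [hpe] at h6
      exact five e heK hr1 h5 h h6
    · have h6 := pair121_89 G hG heS hr1 h5 h
      rw [heKu] at h6
      omega
  · intro f hf hfp hf1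
    have hfK : f ∈ kS G K := by
      refine (mem_kS42 G).2 ⟨hf, ?_⟩
      rw [← (nx_ku63 G hG hf).2, hfp]
      exact hpKu
    rcases htype with ⟨h4, h5⟩ | ⟨h4, h5⟩
    · have h6 := pair121_89 G hG hf hf1 (by rw [hfp]; exact h4) (by rw [hfp, hpe]; exact hr1)
      rw [((mem_kS42 G).1 hfK).2] at h6
      omega
    · exact five f hfK hf1 (by rw [hfp]; exact h4) (by rw [hfp, hpe]; exact hr1)
        (by rw [hfp, hpe]; exact h5)

/-- two leaves of run four: six triangles and the triangles of the ears next to no leaf -/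
theorem six_far69 (hG : G.Geo4 al kp U) {K : (cg G).ConnectedComponent} (ht : 2 ≤ tK G K)
    {S : Finset (V × V)} (hS : S ⊆ kS G K) (hS4 : ∀ x ∈ S, rn G x = 4) {x y : V × V}
    (hx : x ∈ S) (hy : y ∈ S) (hne : x.2 ≠ y.2) : 6 + (E0_69 G K S).card ≤ tK G K := by
  obtain ⟨hxS, hxK⟩ := (mem_kS42 G).1 (hS hx)
  obtain ⟨hyS, hyK⟩ := (mem_kS42 G).1 (hS hy)
  have c1 := Finset.card_union_add_card_inter (rt G x) (rt G y)
  have c2 := Finset.card_le_card (rt_inter63 G hG hxS hyS hne)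
  have c3 : ({G.tri (x.2, y.2), G.tri (y.2, x.2)} : Finset (Finset V)).card ≤ 2 :=
    Finset.card_le_two
  rw [card_rt63 G hG hxS, card_rt63 G hG hyS, hS4 x hx, hS4 y hy] at c1
  have hE : ∀ e ∈ E0_69 G K S, e ∈ kS G K ∧ rn G e = 1 ∧ nx G e ∉ S ∧ ∀ y ∈ S, nx G y ≠ e := by
    intro e he
    obtain ⟨h1, h2, h3⟩ := Finset.mem_filter.1 he
    obtain ⟨h4, h5⟩ := (mem_Ea54 G).1 h1
    exact ⟨h4, h5, h2, h3⟩
  have hself : ∀ e ∈ kS G K, rn G e = 1 → G.tri (e.2, e.1) ∈ rt G e := by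
    intro e he h1
    exact (mem_rt63 G).2 ⟨(e.2, e.1), (mem_rd63 G).2 ⟨0, by omega, rfl⟩, rfl⟩
  have hinj : Set.InjOn (fun e : V × V => G.tri (e.2, e.1)) (E0_69 G K S : Set (V × V)) := by
    intro e he f hf heq
    obtain ⟨k1, k2, _, _⟩ := hE e (Finset.mem_coe.1 he)
    obtain ⟨m1, m2, _, _⟩ := hE f (Finset.mem_coe.1 hf)
    dsimp only at heq
    obtain ⟨p, hp, hpe⟩ := pred54 G hG k1
    obtain ⟨r1, r2, _⟩ := ear54 G hG ht k1 k2 hp hpe
    have h2 := hself f m1 m2
    rw [← heq] at h2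
    rcases ear_tri69 G hG ht k1 k2 hp hpe m1 h2 with h | h | h
    · exact h.symm
    · rw [h] at m2
      omega
    · rw [h] at m2
      omega
  have hdisj : Disjoint (rt G x ∪ rt G y) ((E0_69 G K S).image (fun e => G.tri (e.2, e.1))) := by
    rw [Finset.disjoint_left]
    intro t h1 h2
    obtain ⟨e, he, rfl⟩ := Finset.mem_image.1 h2
    obtain ⟨k1, k2, k3, k4⟩ := hE e he
    obtain ⟨p, hp, hpe⟩ := pred54 G hG k1
    have key : ∀ z ∈ S, G.tri (e.2, e.1) ∈ rt G z → False := by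
      intro z hz h
      rcases ear_tri69 G hG ht k1 k2 hp hpe (hS hz) h with h | h | h
      · rw [h] at hz
        have := hS4 e hz
        omega
      · rw [h] at hz
        exact k4 p hz hpe
      · rw [h] at hz
        exact k3 hz
    rcases Finset.mem_union.1 h1 with h | h
    · exact key x hx h
    · exact key y hy h
  have hsub : (rt G x ∪ rt G y) ∪ (E0_69 G K S).image (fun e => G.tri (e.2, e.1)) ⊆
      (kT G K).image G.tri := by
    refine Finset.union_subset (Finset.union_subset ?_ ?_) ?_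
    · have := rt_sub63 G hG hxS
      rw [hxK] at this
      exact this
    · have := rt_sub63 G hG hyS
      rw [hyK] at this
      exact this
    · intro t h2
      obtain ⟨e, he, rfl⟩ := Finset.mem_image.1 h2
      obtain ⟨k1, k2, _, _⟩ := hE e he
      have h3 := rt_sub63 G hG ((mem_kS42 G).1 k1).1 (hself e k1 k2)
      rw [((mem_kS42 G).1 k1).2] at h3
      exact h3
  have h5 := Finset.card_le_card hsub
  rw [Finset.card_union_of_disjoint hdisj, Finset.card_image_of_injOn hinj] at h5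
  have : ((kT G K).image G.tri).card = tK G K := rfl
  omega

/-- **Lemma H with far ears** (H3*) -/
theorem lemF69 (hG : G.Geo4 al kp U) {K : (cg G).ConnectedComponent}
    (hd : (kS G K).card = tK G K + 2) {S : Finset (V × V)} (hS : S ⊆ kS G K)
    (hS4 : ∀ x ∈ S, rn G x = 4) (h3 : ∀ x ∈ kS G K, x ∉ S → rn G x ≤ 3) (hl : 2 ≤ S.card)
    (hone : ∀ x ∈ S, ∀ s ∈ kS G K, s.2 = x.2 → s = x) :
    54 + 16 * S.card + 4 * ((kS G K).filter (fun x => rn G x = 3)).card + 8 * (M69 G K S).card ≤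
      2 * ∑ x ∈ S, u54 G x + 14 * tK G K ∨
    (tK G K = 6 ∧ S.card = 2 ∧ ((kS G K).filter (fun x => rn G x = 3)).card = 2 ∧
      ((kS G K).filter (fun x => rn G x = 2)).card = 0 ∧ (Ea54 G K).card = 4 ∧
      ∑ x ∈ S, u54 G x = 4) := by
  -- two leaves
  obtain ⟨x, hx, y, hy, hxy⟩ := Finset.one_lt_card.1 (by omega : 1 < S.card)
  have hne : x.2 ≠ y.2 := fun h => hxy (hone y hy x (hS hx) h)
  have hxK := (mem_kS42 G).1 (hS hx)
  have hyK := (mem_kS42 G).1 (hS hy)
  have h6 : 6 ≤ tK G K := by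
    have := run_two63 G hG hxK.1 hyK.1 hne (hxK.2.trans hyK.2.symm)
    rw [hS4 x hx, hS4 y hy, hxK.2] at this
    omega
  have ht2 : 2 ≤ tK G K := by omega
  have h6' := six_far69 G hG ht2 hS hS4 hx hy hne
  -- the counts
  have h1 := ears_disc54 G hG (by omega) hd hS hS4 h3
  have h0 : (Ea54 G K).card + ((kS G K).filter (fun x => rn G x = 2)).card +
      ((kS G K).filter (fun x => rn G x = 3)).card + S.card = tK G K + 2 := by
    rw [← hd]
    have e1 : S.card = ((kS G K).filter (fun x => rn G x = 4)).card := by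
      congr 1
      ext z
      rw [Finset.mem_filter]
      refine ⟨fun h => ⟨hS h, hS4 z h⟩, fun h => ?_⟩
      by_contra hno
      have := h3 z h.1 hno
      omega
    rw [e1]
    unfold Ea54
    rw [Finset.card_filter, Finset.card_filter, Finset.card_filter, Finset.card_filter,
      ← Finset.sum_add_distrib, ← Finset.sum_add_distrib, ← Finset.sum_add_distrib,
      Finset.card_eq_sum_ones]
    refine Finset.sum_congr rfl fun z hz => ?_
    have k1 := rn_pos_kS54 G hG (by omega : 1 ≤ tK G K) hz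
    have k2 : rn G z ≤ 4 := by
      by_cases hzS : z ∈ S
      · rw [hS4 z hzS]
      · have := h3 z hz hzS
        omega
    have k3 : rn G z = 1 ∨ rn G z = 2 ∨ rn G z = 3 ∨ rn G z = 4 := by omega
    rcases k3 with k | k | k | k <;> rw [k] <;> norm_num
  -- predecessors
  have hex : ∀ e, ∃ y, e ∈ kS G K → y ∈ kS G K ∧ nx G y = e := by
    intro e
    by_cases he : e ∈ kS G K
    · obtain ⟨y, hy, h⟩ := pred54 G hG he
      exact ⟨y, fun _ => ⟨hy, h⟩⟩
    · exact ⟨e, fun h => absurd h he⟩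
  choose pr hpr using hex
  have hM : ∀ e ∈ M69 G K S, e ∈ kS G K ∧ pr e ∈ kS G K ∧ nx G (pr e) = e ∧ rn G e = 1 ∧
      ((rn G (pr e) = 2 ∧ rn G (nx G e) = 3) ∨ (rn G (pr e) = 3 ∧ rn G (nx G e) = 2)) ∧
      rn G (nx G (nx G e)) ≠ 1 ∧ (∀ y ∈ SD G, nx G y = pr e → rn G y ≠ 1) ∧ pr e ∉ S ∧
      nx G e ∉ S := by
    intro e he
    have heK : e ∈ kS G K := ((mem_Ea54 G).1 (Finset.mem_filter.1 he).1).1
    obtain ⟨p1, p2⟩ := hpr e heK
    obtain ⟨k1, k2, k3, k4, k5, k6, k7⟩ := far69 G hG (by omega) hS hS4 h3 hl he p1 p2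
    exact ⟨k1, p1, p2, k2, k3, k4, k5, k6, k7⟩
  -- the neighbour of run `j`
  have hinj : ∀ j : ℕ, Set.InjOn (fun e => if rn G (nx G e) = j then nx G e else pr e)
      (M69 G K S : Set (V × V)) := by
    intro j e he f hf heq
    obtain ⟨a1, a2, a3, a4, a5, a6, a7, a8, a9⟩ := hM e (Finset.mem_coe.1 he)
    obtain ⟨b1, b2, b3, b4, b5, b6, b7, b8, b9⟩ := hM f (Finset.mem_coe.1 hf)
    dsimp only at heq
    by_cases c1 : rn G (nx G e) = j <;> by_cases c2 : rn G (nx G f) = j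
    · rw [if_pos c1, if_pos c2] at heq
      exact nx_inj42 G hG ((mem_kS42 G).1 a1).1 ((mem_kS42 G).1 b1).1 heq
    · rw [if_pos c1, if_neg c2] at heq
      exfalso
      apply a6
      rw [heq, b3]
      exact b4
    · rw [if_neg c1, if_pos c2] at heq
      exfalso
      apply b6
      rw [← heq, a3]
      exact a4
    · rw [if_neg c1, if_neg c2] at heq
      rw [← a3, ← b3, heq]
  have hB : ∀ j : ℕ, (j = 2 ∨ j = 3) → ∀ z ∈ (M69 G K S).image
      (fun e => if rn G (nx G e) = j then nx G e else pr e), z ∈ kS G K ∧ rn G z = j ∧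
      z ∉ S ∧ u54 G z ≤ 1 := by
    intro j hj z hz
    obtain ⟨e, he, rfl⟩ := Finset.mem_image.1 hz
    obtain ⟨a1, a2, a3, a4, a5, a6, a7, a8, a9⟩ := hM e he
    by_cases c1 : rn G (nx G e) = j
    · rw [if_pos c1]
      refine ⟨nx_kS89 G hG a1, c1, a9, ?_⟩
      unfold u54 uN54
      rw [if_neg a6]
      have := uP_le54 G (nx G e)
      omega
    · rw [if_neg c1]
      refine ⟨a2, by omega, a8, ?_⟩
      unfold u54 uP54
      rw [if_neg (by
        rintro ⟨f, hf, h1, h2⟩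
        exact a7 f hf h1 h2)]
      have := uN_le54 G (pr e)
      omega
  have hm2 : (M69 G K S).card ≤ ((kS G K).filter (fun x => rn G x = 2)).card := by
    rw [← Finset.card_image_of_injOn (hinj 2)]
    refine Finset.card_le_card fun z hz => ?_
    obtain ⟨k1, k2, _, _⟩ := hB 2 (Or.inl rfl) z hz
    exact Finset.mem_filter.2 ⟨k1, k2⟩
  have hm3 : (M69 G K S).card ≤ ((kS G K).filter (fun x => rn G x = 3)).card := by
    rw [← Finset.card_image_of_injOn (hinj 3)]
    refine Finset.card_le_card fun z hz => ?_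
    obtain ⟨k1, k2, _, _⟩ := hB 3 (Or.inr rfl) z hz
    exact Finset.mem_filter.2 ⟨k1, k2⟩
  -- the pairs
  have h5 : 2 * (Ea54 G K).card + (M69 G K S).card ≤ ∑ x ∈ S, u54 G x +
      ((kS G K).filter (fun x => rn G x = 2)).card +
      2 * ((kS G K).filter (fun x => rn G x = 3)).card := by
    rw [ears_pairs69 G hG ht2, ← Finset.card_image_of_injOn (hinj 3)]
    obtain ⟨B, hBd⟩ : ∃ B, B = (M69 G K S).image
      (fun e => if rn G (nx G e) = 3 then nx G e else pr e) := ⟨_, rfl⟩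
    have hB3 := hB 3 (Or.inr rfl)
    rw [← hBd] at hB3 ⊢
    have e0 : B.card = ∑ z ∈ kS G K, (if z ∈ B then 1 else 0) := by
      rw [← Finset.card_filter, Finset.filter_mem_eq_inter,
        Finset.inter_eq_right.2 fun z hz => (hB3 z hz).1]
    have e1 : ∑ x ∈ (kS G K).filter (fun x => rn G x ≠ 1), u54 G x + B.card ≤
        ∑ x ∈ kS G K, ((if x ∈ S then u54 G x else 0) + (if rn G x = 2 then 1 else 0) +
          2 * (if rn G x = 3 then 1 else 0)) := by
      rw [Finset.sum_filter, e0, ← Finset.sum_add_distrib]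
      refine Finset.sum_le_sum fun z hz => ?_
      by_cases hzB : z ∈ B
      · obtain ⟨_, k2, k3, k4⟩ := hB3 z hzB
        rw [if_pos hzB, if_neg k3, if_pos (by omega), if_neg (by omega), if_pos k2]
        omega
      rw [if_neg hzB, add_zero]
      by_cases k1 : rn G z = 1
      · rw [if_neg (not_not.2 k1)]
        exact Nat.zero_le _
      rw [if_pos k1]
      by_cases hzS : z ∈ S
      · rw [if_pos hzS]
        omega
      · rw [if_neg hzS]
        have k2 := h3 z hz hzS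
        have k3 := rn_pos_kS54 G hG (by omega : 1 ≤ tK G K) hz
        by_cases k4 : rn G z = 2
        · rw [if_pos k4]
          have := u_two69 G hG (by omega : 3 ≤ tK G K) hz k4
          omega
        · rw [if_neg k4, if_pos (by omega)]
          have := u_le54 G z
          omega
    refine e1.trans (le_of_eq ?_)
    rw [Finset.sum_add_distrib, Finset.sum_add_distrib, ← Finset.mul_sum, ← Finset.sum_filter,
      ← Finset.card_filter, ← Finset.card_filter, Finset.filter_mem_eq_inter,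
      Finset.inter_eq_right.2 hS]
  have hu : ∑ x ∈ S, u54 G x ≤ 2 * S.card := by
    rw [mul_comm, ← smul_eq_mul]
    exact Finset.sum_le_card_nsmul _ _ _ fun z _ => u_le54 G z
  have hm0 : (M69 G K S).card ≤ (E0_69 G K S).card := by
    refine Finset.card_le_card fun e he => ?_
    obtain ⟨a1, a2, a3, a4, a5, a6, a7, a8, a9⟩ := hM e he
    refine Finset.mem_filter.2 ⟨(Finset.mem_filter.1 he).1, a9, fun z hz h => a8 ?_⟩
    have h4 := nx_inj42 G hG ((mem_kS42 G).1 (hS hz)).1 ((mem_kS42 G).1 a2).1 (h.trans a3.symm)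
    rw [← h4]
    exact hz
  have hn0 : (Ea54 G K).card ≤ ∑ x ∈ S, u54 G x + (E0_69 G K S).card := by
    have hsub : Ea54 G K ⊆ (An54 G K S ∪ Ap54 G K S) ∪ E0_69 G K S := by
      intro e he
      rw [Finset.mem_union, Finset.mem_union]
      unfold An54 Ap54 E0_69
      rw [Finset.mem_filter, Finset.mem_filter, Finset.mem_filter]
      by_cases c1 : nx G e ∈ S
      · exact Or.inl (Or.inl ⟨he, c1⟩)
      · by_cases c2 : ∃ y ∈ S, nx G y = e
        · exact Or.inl (Or.inr ⟨he, c2⟩)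
        · push Not at c2
          exact Or.inr ⟨he, c1, c2⟩
    have e1 := Finset.card_le_card hsub
    have e2 := Finset.card_union_le (An54 G K S ∪ Ap54 G K S) (E0_69 G K S)
    have e4 := Finset.card_union_le (An54 G K S) (Ap54 G K S)
    have e3 := uL_sum54 G hG hS
    unfold uL54 at e3
    unfold u54
    omega
  -- three leaves, one run 2, one run 3
  have hx3 : S.card = 3 → ((kS G K).filter (fun x => rn G x = 2)).card = 1 →
      ((kS G K).filter (fun x => rn G x = 3)).card = 1 → (M69 G K S).card = 1 →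
      ∑ x ∈ S, u54 G x ≠ 6 := by
    intro c1 c2 c3 c4 c5
    have hall : ∀ z ∈ S, u54 G z = 2 := by
      by_contra hno
      push Not at hno
      obtain ⟨z, hz, hz2⟩ := hno
      have k1 := u_le54 G z
      have k2 := Finset.sum_lt_sum (s := S) (f := fun z => u54 G z) (g := fun _ => 2)
        (fun z _ => u_le54 G z) ⟨z, hz, by omega⟩
      rw [Finset.sum_const, smul_eq_mul, c1] at k2
      omega
    obtain ⟨e, he⟩ : (M69 G K S).Nonempty := by
      rw [← Finset.card_pos]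
      omega
    obtain ⟨a1, a2, a3, a4, a5, a6, a7, a8, a9⟩ := hM e he
    have hq := nx_kS89 G hG a1
    have hw := nx_kS89 G hG hq
    -- the sector after `nx e`
    have w1 : nx G (nx G e) ∉ S := by
      intro h
      have k1 := hall _ h
      unfold u54 uP54 at k1
      rw [if_neg (by
        rintro ⟨f, hf, k2, k3⟩
        have k4 := nx_inj42 G hG hf ((mem_kS42 G).1 hq).1 k2
        rw [k4] at k3
        omega)] at k1
      have := uN_le54 G (nx G (nx G e))
      omega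
    have w2 := h3 _ hw w1
    have w3 := rn_pos_kS54 G hG (by omega : 1 ≤ tK G K) hw
    have w4 : nx G (nx G e) = pr e ∨ nx G (nx G e) = nx G e := by
      obtain ⟨z2, hz2⟩ := Finset.card_eq_one.1 c2
      obtain ⟨z3, hz3⟩ := Finset.card_eq_one.1 c3
      have u2 : ∀ z ∈ kS G K, rn G z = 2 → z = z2 := by
        intro z hz h
        have : z ∈ (kS G K).filter (fun x => rn G x = 2) := Finset.mem_filter.2 ⟨hz, h⟩
        rw [hz2] at this
        exact Finset.mem_singleton.1 this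
      have u3 : ∀ z ∈ kS G K, rn G z = 3 → z = z3 := by
        intro z hz h
        have : z ∈ (kS G K).filter (fun x => rn G x = 3) := Finset.mem_filter.2 ⟨hz, h⟩
        rw [hz3] at this
        exact Finset.mem_singleton.1 this
      have w5 : rn G (nx G (nx G e)) = 2 ∨ rn G (nx G (nx G e)) = 3 := by omega
      rcases a5 with ⟨b1, b2⟩ | ⟨b1, b2⟩
      · rcases w5 with w5 | w5
        · left
          rw [u2 _ hw w5, u2 _ a2 b1]
        · right
          rw [u3 _ hw w5, u3 _ hq b2]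
      · rcases w5 with w5 | w5
        · right
          rw [u2 _ hw w5, u2 _ hq b2]
        · left
          rw [u3 _ hw w5, u3 _ a2 b1]
    rcases w4 with w4 | w4
    · obtain ⟨r1, r2, d1, en, b1, b2, b3, b5, b4, t1, _⟩ := ear54 G hG ht2 a1 a4 a2 a3
      have k1 : pr e = (G.ap e.2 e.1, e.1) := by
        refine Prod.ext ?_ d1
        rw [← w4]
        have : (nx G (nx G e)).1 = (nx G e).2 := rfl
        rw [this, en]
      have k2 := ((mem_SD42 G).1 ((mem_kS42 G).1 a2).1).2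
      rw [k1] at k2
      exact k2 t1
    · have k1 := head_ne63 G hG ((mem_kS42 G).1 hq).1
      rw [w4] at k1
      exact k1 rfl
  exact arithF69 h0 h1 h5 hu hl hm2 hm3 hm0 hn0 (fun _ => h6') hx3

/-- the octagon `4 1 3 1 4 1 3 1` -/
def Oct69 (K : (cg G).ConnectedComponent) (S : Finset (V × V)) : Prop :=
  tK G K = 6 ∧ S.card = 2 ∧ ((kS G K).filter (fun x => rn G x = 3)).card = 2 ∧
    ((kS G K).filter (fun x => rn G x = 2)).card = 0 ∧ (Ea54 G K).card = 4 ∧
    ∑ x ∈ S, u54 G x = 4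

/-- **Lemma H, price form** -/
theorem priceF69 (hG : G.Geo4 al kp U) {K : (cg G).ConnectedComponent}
    (hd : (kS G K).card = tK G K + 2) {S : Finset (V × V)} (hS : S ⊆ kS G K)
    (hS4 : ∀ x ∈ S, rn G x = 4) (h3 : ∀ x ∈ kS G K, x ∉ S → rn G x ≤ 3) (hl : 2 ≤ S.card)
    (hone : ∀ x ∈ S, ∀ s ∈ kS G K, s.2 = x.2 → s = x) :
    13 * wx G (14 / 13) K + 16 * S.card +
      4 * ((kS G K).filter (fun x => rn G x = 3)).card + 8 * (M69 G K S).card ≤
      2 * ((∑ x ∈ S, u54 G x : ℕ) : ℝ) + (if Oct69 G K S then 2 else 0) := by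
  rw [wx13_disc54 G hd]
  rcases lemF69 G hG hd hS hS4 h3 hl hone with h | h
  · have h' : 54 + 16 * (S.card : ℝ) + 4 * ((kS G K).filter (fun x => rn G x = 3)).card +
        8 * (M69 G K S).card ≤ 2 * ((∑ x ∈ S, u54 G x : ℕ) : ℝ) + 14 * tK G K := by
      exact_mod_cast h
    split_ifs <;> linarith
  · have hO : Oct69 G K S := h
    rw [if_pos hO]
    obtain ⟨h4, h5, h6, h7, h8, h9⟩ := h
    have hM : (M69 G K S).card = 0 := by
      rw [Finset.card_eq_zero, Finset.eq_empty_iff_forall_notMem]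
      intro e he
      have heK : e ∈ kS G K := ((mem_Ea54 G).1 (Finset.mem_filter.1 he).1).1
      obtain ⟨p, hp, hpe⟩ := pred54 G hG heK
      obtain ⟨k1, k2, k3, k4, k5, k6, k7⟩ := far69 G hG (by omega) hS hS4 h3 hl he hp hpe
      rw [Finset.card_eq_zero, Finset.eq_empty_iff_forall_notMem] at h7
      rcases k3 with ⟨k3, _⟩ | ⟨_, k3⟩
      · exact h7 p (Finset.mem_filter.2 ⟨hp, k3⟩)
      · exact h7 _ (Finset.mem_filter.2 ⟨nx_kS89 G hG heK, k3⟩)
    rw [h4, h5, h6, hM, h9]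
    norm_num

end

end Pool.Agent.PEN.E5
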