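import Pool.Agent.E5.Num61

/-! # PENNY, all small diameters: the mass lemma (helper61)

The corners of a disc face with `m` sides are numbered cyclically, `h i = 1 - gap` of corner `i`,
side `i` joins the corners `i`, `i + 1`. A weak side has `h i + h (i+1) > 1`, a centre `i + 1` has two
strong sides and `h i + h (i+1) + h (i+2) > 1`. The total mass is at most `Γ`. -/

set_option autoImplicit false

namespace Pool.Agent.PEN.E5

open Finset

/-- rotation of a periodic sum -/
theorem rot_sum61 {M : Type} [AddCommMonoid M] {m : ℕ} {f : ℕ → M} (hf : ∀ i, f (i + m) = f i) (k : ℕ) :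
    ∑ i ∈ range m, f (i + k) = ∑ i ∈ range m, f i := by
  induction k with
  | zero => rfl
  | succ k ih =>
    rw [← ih]
    have h1 := Finset.sum_range_succ' (fun i => f (i + k)) m
    have h2 := Finset.sum_range_succ (fun i => f (i + k)) m
    simp only [zero_add] at h1
    have h3 : f (m + k) = f k := by rw [add_comm]; exact hf k
    rw [h3] at h2
    rcases m with _ | m
    · simp
    · rw [Finset.sum_range_succ, Finset.sum_range_succ' (fun i => f (i + k))]
      have e : f (m + (k + 1)) = f (0 + k) := by
        have := hf k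
        rw [show m + (k + 1) = k + (m + 1) by ring, this, zero_add]
      rw [e]
      congr 1
      exact Finset.sum_congr rfl fun i _ => by rw [show i + 1 + k = i + (k + 1) by ring]

/-- disjoint pairs: a set `S` of sides with no two consecutive, inside `[a, b)`, uses the corners
`[a, b]` only -/
theorem pairs61 {h : ℕ → ℝ} (h0 : ∀ i, 0 ≤ h i) {S T : Finset ℕ}
    (hS : ∀ i ∈ S, 1 < h i + h (i + 1)) (hd : ∀ i ∈ S, i + 1 ∉ S)
    (hT : ∀ i ∈ S, i ∈ T ∧ i + 1 ∈ T) : (S.card : ℝ) ≤ ∑ i ∈ T, h i ∧
      (S.Nonempty → (S.card : ℝ) < ∑ i ∈ T, h i) := by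
  have e1 : ∑ i ∈ S, (h i + h (i + 1)) ≤ ∑ i ∈ T, h i := by
    rw [Finset.sum_add_distrib]
    have e2 : ∑ i ∈ S, h (i + 1) = ∑ i ∈ S.image (· + 1), h i :=
      (Finset.sum_image (fun x _ y _ hxy => Nat.succ.inj hxy)).symm
    have hdis : Disjoint S (S.image (· + 1)) := by
      rw [Finset.disjoint_left]
      intro i hi hi2
      obtain ⟨j, hj, rfl⟩ := Finset.mem_image.1 hi2
      exact hd j hj hi
    rw [e2, ← Finset.sum_union hdis]
    apply Finset.sum_le_sum_of_subset_of_nonneg
    · intro i hi
      rcases Finset.mem_union.1 hi with hi | hi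
      · exact (hT i hi).1
      · obtain ⟨j, hj, rfl⟩ := Finset.mem_image.1 hi
        exact (hT j hj).2
    · intro i _ _
      exact h0 i
  have e3 : (S.card : ℝ) ≤ ∑ i ∈ S, (h i + h (i + 1)) := by
    have := Finset.sum_le_sum (s := S) (f := fun _ => (1 : ℝ)) (g := fun i => h i + h (i + 1))
      fun i hi => (hS i hi).le
    simpa using this
  refine ⟨e3.trans e1, fun hne => lt_of_lt_of_le ?_ e1⟩
  have := Finset.sum_lt_sum_of_nonempty (s := S) (f := fun _ => (1 : ℝ))
    (g := fun i => h i + h (i + 1)) hne fun i hi => hS i hi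
  simpa using this

section
variable {m Γ : ℕ} {h : ℕ → ℝ} {wk : ℕ → Prop} [DecidablePred wk]

/-- number of weak sides -/
theorem card_rot61 (hw : ∀ i, wk (i + m) ↔ wk i) (k : ℕ) :
    ((range m).filter fun i => wk (i + k)).card = ((range m).filter wk).card := by
  rw [Finset.card_filter, Finset.card_filter]
  exact rot_sum61 (f := fun i => if wk i then 1 else 0) (fun i => by simp only [hw i]) k

/-- half of the weak sides of a path, by parity -/
theorem par61 (S : Finset ℕ) : (S.filter fun i => i % 2 = 0).card + (S.filter fun i => ¬ i % 2 = 0).card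
    = S.card := Finset.card_filter_add_card_filter_not (s := S) (fun i => i % 2 = 0)

/-- **mass lemma 1**: the number of weak sides -/
theorem mass_weak61 (hper : ∀ i, h (i + m) = h i) (h0 : ∀ i, 0 ≤ h i)
    (hs : ∑ i ∈ range m, h i ≤ Γ) (hwp : ∀ i, wk (i + m) ↔ wk i)
    (hwk : ∀ i, wk i → 1 < h i + h (i + 1)) :
    ((range m).filter wk).card = 0 ∨ ((range m).filter wk).card + 2 ≤ 2 * Γ ∨
      (((range m).filter wk).card = m ∧ m + 1 ≤ 2 * Γ) := by
  by_cases hall : ∀ i ∈ range m, wk i
  · have hc : (range m).filter wk = range m := Finset.filter_true_of_mem hall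
    rw [hc, card_range]
    rcases Nat.eq_zero_or_pos m with hm | hm
    · exact Or.inl hm
    refine Or.inr (Or.inr ⟨rfl, ?_⟩)
    have e1 : ∑ i ∈ range m, (1 : ℝ) < ∑ i ∈ range m, (h i + h (i + 1)) :=
      Finset.sum_lt_sum_of_nonempty (nonempty_range_iff.2 (by omega)) fun i hi => hwk i (hall i hi)
    rw [Finset.sum_add_distrib, rot_sum61 hper 1] at e1
    simp only [sum_const, card_range, nsmul_eq_mul, mul_one] at e1
    have e2 : (m : ℝ) < ((2 * Γ : ℕ) : ℝ) := by push_cast; linarith
    have e3 : m < 2 * Γ := by exact_mod_cast e2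
    omega
  · push Not at hall
    obtain ⟨k, hk, hnk⟩ := hall
    rw [Finset.mem_range] at hk
    -- rotate: `k` becomes the last side
    set S : Finset ℕ := (range m).filter fun i => wk (i + (k + 1)) with hS
    have hcard : S.card = ((range m).filter wk).card := card_rot61 hwp (k + 1)
    have hlast : m - 1 ∉ S := by
      intro hmem
      have := (Finset.mem_filter.1 hmem).2
      rw [show m - 1 + (k + 1) = k + m by omega, hwp] at this
      exact hnk this
    have hsum : ∑ i ∈ range m, h (i + (k + 1)) ≤ Γ := by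
      rw [rot_sum61 hper]; exact hs
    have hpart : ∀ A : Finset ℕ, A ⊆ S → (∀ i ∈ A, i + 1 ∉ A) → A.card = 0 ∨ A.card + 1 ≤ Γ := by
      intro A hA hd
      rcases A.eq_empty_or_nonempty with rfl | hne
      · exact Or.inl rfl
      right
      have := (pairs61 (h := fun i => h (i + (k + 1))) (fun i => h0 _) (S := A) (T := range m)
        (fun i hi => by
          have h1 := (Finset.mem_filter.1 (hA hi)).2
          have h2 := hwk _ h1
          rw [show i + 1 + (k + 1) = i + (k + 1) + 1 by ring]
          exact h2) hd (fun i hi => by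
          have h1 := Finset.mem_range.1 (Finset.mem_filter.1 (hA hi)).1
          have h2 : i ≠ m - 1 := fun he => hlast (he ▸ hA hi)
          exact ⟨Finset.mem_range.2 h1, Finset.mem_range.2 (by omega)⟩)).2 hne
      have h3 : (A.card : ℝ) < Γ := lt_of_lt_of_le this hsum
      have h4 : A.card < Γ := by exact_mod_cast h3
      omega
    have p1 := hpart (S.filter fun i => i % 2 = 0) (Finset.filter_subset _ _) (by
      intro i hi hi2
      have := (Finset.mem_filter.1 hi).2
      have := (Finset.mem_filter.1 hi2).2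
      omega)
    have p2 := hpart (S.filter fun i => ¬ i % 2 = 0) (Finset.filter_subset _ _) (by
      intro i hi hi2
      have := (Finset.mem_filter.1 hi).2
      have := (Finset.mem_filter.1 hi2).2
      omega)
    have p3 := par61 S
    rw [← hcard]
    omega

/-- **mass lemma 2**: with a centre there are fewer weak sides, unless all other sides are weak -/
theorem mass_centre61 (hm : 3 ≤ m) (hper : ∀ i, h (i + m) = h i) (h0 : ∀ i, 0 ≤ h i)
    (hs : ∑ i ∈ range m, h i ≤ Γ) (hwp : ∀ i, wk (i + m) ↔ wk i)
    (hwk : ∀ i, wk i → 1 < h i + h (i + 1)) {k : ℕ} (hk1 : ¬ wk k) (hk2 : ¬ wk (k + 1))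
    (hk : 1 < h k + h (k + 1) + h (k + 2)) :
    ((range m).filter wk).card + 2 ≤ m ∧ 2 ≤ Γ ∧
    (((range m).filter wk).card + 3 ≤ 2 * Γ ∨ ((range m).filter wk).card + 2 = m) := by
  set S : Finset ℕ := (range m).filter fun i => wk (i + (k + 1)) with hS
  have hcard : S.card = ((range m).filter wk).card := card_rot61 hwp (k + 1)
  have hlast : m - 1 ∉ S := by
    intro hmem
    have := (Finset.mem_filter.1 hmem).2
    rw [show m - 1 + (k + 1) = k + m by omega, hwp] at this
    exact hk1 this
  have hfirst : 0 ∉ S := by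
    intro hmem
    have := (Finset.mem_filter.1 hmem).2
    rw [zero_add] at this
    exact hk2 this
  have hSsub : S ⊆ Finset.Ico 1 (m - 1) := by
    intro i hi
    have h1 := Finset.mem_range.1 (Finset.mem_filter.1 hi).1
    have h2 : i ≠ m - 1 := fun he => hlast (he ▸ hi)
    have h3 : i ≠ 0 := fun he => hfirst (he ▸ hi)
    exact Finset.mem_Ico.2 ⟨by omega, by omega⟩
  have hcS : S.card + 2 ≤ m := by
    have := Finset.card_le_card hSsub
    rw [Nat.card_Ico] at this
    omega
  have hsum : ∑ i ∈ range m, h (i + (k + 1)) ≤ Γ := by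
    rw [rot_sum61 hper]; exact hs
  -- the mass outside the triple of the centre
  have htri : ∑ i ∈ Finset.Ico 2 (m - 1), h (i + (k + 1)) + 1 < (Γ : ℝ) := by
    have e1 : insert (m - 1) (insert 0 (insert 1 (Finset.Ico 2 (m - 1)))) ⊆ range m := by
      intro i hi
      simp only [Finset.mem_insert, Finset.mem_Ico] at hi
      rw [Finset.mem_range]
      omega
    have e2 := Finset.sum_le_sum_of_subset_of_nonneg (f := fun i => h (i + (k + 1))) e1
      (fun i _ _ => h0 _)
    rw [Finset.sum_insert (by simp only [Finset.mem_insert, Finset.mem_Ico]; omega),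
      Finset.sum_insert (by simp only [Finset.mem_insert, Finset.mem_Ico]; omega),
      Finset.sum_insert (by simp only [Finset.mem_Ico]; omega)] at e2
    rw [show m - 1 + (k + 1) = k + m by omega, hper, zero_add,
      show 1 + (k + 1) = k + 2 by omega] at e2
    linarith
  have hnn : 0 ≤ ∑ i ∈ Finset.Ico 2 (m - 1), h (i + (k + 1)) := Finset.sum_nonneg fun i _ => h0 _
  have hΓ2 : 2 ≤ Γ := by
    have h1 : (1 : ℝ) < Γ := by linarith
    have h2 : 1 < Γ := by exact_mod_cast h1
    omega
  refine ⟨by omega, hΓ2, ?_⟩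
  by_contra hcon
  push Not at hcon
  rw [← hcard] at hcon
  obtain ⟨hc1, hc2⟩ := hcon
  -- a strong side `j` between
  obtain ⟨j, hj, hjS⟩ : ∃ j ∈ Finset.Ico 1 (m - 1), j ∉ S := by
    by_contra hno
    push Not at hno
    have := Finset.card_le_card (show Finset.Ico 1 (m - 1) ⊆ S from hno)
    rw [Nat.card_Ico] at this
    omega
  rw [Finset.mem_Ico] at hj
  set A := S.filter fun i => (i < j ∧ i % 2 = 0) ∨ (j < i ∧ i % 2 ≠ m % 2) with hA
  set B := S.filter fun i => ¬ ((i < j ∧ i % 2 = 0) ∨ (j < i ∧ i % 2 ≠ m % 2)) with hB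
  have hAB : A.card + B.card = S.card :=
    Finset.card_filter_add_card_filter_not (s := S) _
  have hSw : ∀ i ∈ S, 1 < h (i + (k + 1)) + h (i + 1 + (k + 1)) := by
    intro i hi
    have h2 := hwk _ (Finset.mem_filter.1 hi).2
    rw [show i + 1 + (k + 1) = i + (k + 1) + 1 by ring]
    exact h2
  have pA := (pairs61 (h := fun i => h (i + (k + 1))) (fun i => h0 _) (S := A)
    (T := Finset.Ico 2 (m - 1)) (fun i hi => hSw i (Finset.filter_subset _ _ hi))
    (fun i hi hi2 => by
      have h1 := (Finset.mem_filter.1 hi).2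
      have h2 := (Finset.mem_filter.1 hi2).2
      omega)
    (fun i hi => by
      have h1 := (Finset.mem_filter.1 hi).2
      have h2 := Finset.mem_Ico.1 (hSsub (Finset.filter_subset _ _ hi))
      rw [Finset.mem_Ico, Finset.mem_Ico]
      omega)).1
  have pB := pairs61 (h := fun i => h (i + (k + 1))) (fun i => h0 _) (S := B)
    (T := range m) (fun i hi => hSw i (Finset.filter_subset _ _ hi))
    (fun i hi hi2 => by
      have h1 := (Finset.mem_filter.1 hi).2
      have h2 := (Finset.mem_filter.1 hi2).2
      have h3 : i ≠ j := fun he => hjS (he ▸ (Finset.filter_subset _ _ hi))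
      have h4 : i + 1 ≠ j := fun he => hjS (he ▸ (Finset.filter_subset _ _ hi2))
      omega)
    (fun i hi => by
      have h2 := Finset.mem_Ico.1 (hSsub (Finset.filter_subset _ _ hi))
      rw [Finset.mem_range, Finset.mem_range]
      omega)
  have qA : A.card + 2 ≤ Γ := by
    have h1 : (A.card : ℝ) + 1 < Γ := by linarith
    have h2 : A.card + 1 < Γ := by exact_mod_cast h1
    omega
  have qB : B.card + 1 ≤ Γ := by
    rcases B.eq_empty_or_nonempty with he | hne
    · rw [he, Finset.card_empty]
      omega
    · have h1 : (B.card : ℝ) < Γ := lt_of_lt_of_le (pB.2 hne) hsum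
      have h2 : B.card < Γ := by exact_mod_cast h1
      omega
  omega

end

end Pool.Agent.PEN.E5
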