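import Pool.Agent.E5.Td71

/-! # PENNY, all small diameters: a disc with a quadruple of mass above one -/

set_option autoImplicit false

namespace Pool.Agent.PEN.E5

open Finset

section
variable {m Γ : ℕ} {h : ℕ → ℝ} {wk : ℕ → Prop} [DecidablePred wk]

/-- **mass lemma for four corners**: with a quadruple of mass above one there are fewer weak sides,
unless all other sides are weak -/
theorem mass_quad71 (hm : 4 ≤ m) (hper : ∀ i, h (i + m) = h i) (h0 : ∀ i, 0 ≤ h i)
    (hs : ∑ i ∈ range m, h i ≤ Γ) (hwp : ∀ i, wk (i + m) ↔ wk i)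
    (hwk : ∀ i, wk i → 1 < h i + h (i + 1)) {k : ℕ} (hk1 : ¬ wk k) (hk2 : ¬ wk (k + 1))
    (hk3 : ¬ wk (k + 2)) (hk : 1 < h k + h (k + 1) + h (k + 2) + h (k + 3)) :
    ((range m).filter wk).card + 3 ≤ m ∧ 2 ≤ Γ ∧
    (((range m).filter wk).card + 3 ≤ 2 * Γ ∨ ((range m).filter wk).card + 3 = m) := by
  set S : Finset ℕ := (range m).filter fun i => wk (i + (k + 1)) with hS
  have hcard : S.card = ((range m).filter wk).card := card_rot61 hwp (k + 1)
  have hlast : m - 1 ∉ S := by
    intro hmem
    have := (Finset.mem_filter.1 hmem).2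
    rw [show m - 1 + (k + 1) = k + m by omega, hwp] at this
    exact hk1 this
  have hfirst : 0 ∉ S := by
    intro hmem
    have := (Finset.mem_filter.1 hmem).2
    rw [zero_add] at this
    exact hk2 this
  have hsecond : 1 ∉ S := by
    intro hmem
    have := (Finset.mem_filter.1 hmem).2
    rw [show 1 + (k + 1) = k + 2 by omega] at this
    exact hk3 this
  have hSsub : S ⊆ Finset.Ico 2 (m - 1) := by
    intro i hi
    have h1 := Finset.mem_range.1 (Finset.mem_filter.1 hi).1
    have h2 : i ≠ m - 1 := fun he => hlast (he ▸ hi)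
    have h3 : i ≠ 0 := fun he => hfirst (he ▸ hi)
    have h4 : i ≠ 1 := fun he => hsecond (he ▸ hi)
    exact Finset.mem_Ico.2 ⟨by omega, by omega⟩
  have hcS : S.card + 3 ≤ m := by
    have := Finset.card_le_card hSsub
    rw [Nat.card_Ico] at this
    omega
  have hsum : ∑ i ∈ range m, h (i + (k + 1)) ≤ Γ := by
    rw [rot_sum61 hper]; exact hs
  -- the mass outside the triple of the centre
  have htri : ∑ i ∈ Finset.Ico 3 (m - 1), h (i + (k + 1)) + 1 < (Γ : ℝ) := by
    have e1 : insert (m - 1) (insert 0 (insert 1 (insert 2 (Finset.Ico 3 (m - 1))))) ⊆ range m := by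
      intro i hi
      simp only [Finset.mem_insert, Finset.mem_Ico] at hi
      rw [Finset.mem_range]
      omega
    have e2 := Finset.sum_le_sum_of_subset_of_nonneg (f := fun i => h (i + (k + 1))) e1
      (fun i _ _ => h0 _)
    rw [Finset.sum_insert (by simp only [Finset.mem_insert, Finset.mem_Ico]; omega),
      Finset.sum_insert (by simp only [Finset.mem_insert, Finset.mem_Ico]; omega),
      Finset.sum_insert (by simp only [Finset.mem_insert, Finset.mem_Ico]; omega),
      Finset.sum_insert (by simp only [Finset.mem_Ico]; omega)] at e2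
    rw [show m - 1 + (k + 1) = k + m by omega, hper, zero_add,
      show 1 + (k + 1) = k + 2 by omega, show 2 + (k + 1) = k + 3 by omega] at e2
    linarith
  have hnn : 0 ≤ ∑ i ∈ Finset.Ico 3 (m - 1), h (i + (k + 1)) := Finset.sum_nonneg fun i _ => h0 _
  have hΓ2 : 2 ≤ Γ := by
    have h1 : (1 : ℝ) < Γ := by linarith
    have h2 : 1 < Γ := by exact_mod_cast h1
    omega
  refine ⟨by omega, hΓ2, ?_⟩
  by_contra hcon
  push Not at hcon
  rw [← hcard] at hcon
  obtain ⟨hc1, hc2⟩ := hcon
  -- a strong side `j` between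
  obtain ⟨j, hj, hjS⟩ : ∃ j ∈ Finset.Ico 2 (m - 1), j ∉ S := by
    by_contra hno
    push Not at hno
    have := Finset.card_le_card (show Finset.Ico 2 (m - 1) ⊆ S from hno)
    rw [Nat.card_Ico] at this
    omega
  rw [Finset.mem_Ico] at hj
  set A := S.filter fun i => (i < j ∧ i % 2 = 1) ∨ (j < i ∧ i % 2 ≠ m % 2) with hA
  set B := S.filter fun i => ¬ ((i < j ∧ i % 2 = 1) ∨ (j < i ∧ i % 2 ≠ m % 2)) with hB
  have hAB : A.card + B.card = S.card :=
    Finset.card_filter_add_card_filter_not (s := S) _
  have hSw : ∀ i ∈ S, 1 < h (i + (k + 1)) + h (i + 1 + (k + 1)) := by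
    intro i hi
    have h2 := hwk _ (Finset.mem_filter.1 hi).2
    rw [show i + 1 + (k + 1) = i + (k + 1) + 1 by ring]
    exact h2
  have pA := (pairs61 (h := fun i => h (i + (k + 1))) (fun i => h0 _) (S := A)
    (T := Finset.Ico 3 (m - 1)) (fun i hi => hSw i (Finset.filter_subset _ _ hi))
    (fun i hi hi2 => by
      have h1 := (Finset.mem_filter.1 hi).2
      have h2 := (Finset.mem_filter.1 hi2).2
      omega)
    (fun i hi => by
      have h1 := (Finset.mem_filter.1 hi).2
      have h2 := Finset.mem_Ico.1 (hSsub (Finset.filter_subset _ _ hi))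
      rw [Finset.mem_Ico, Finset.mem_Ico]
      omega)).1
  have pB := pairs61 (h := fun i => h (i + (k + 1))) (fun i => h0 _) (S := B)
    (T := range m) (fun i hi => hSw i (Finset.filter_subset _ _ hi))
    (fun i hi hi2 => by
      have h1 := (Finset.mem_filter.1 hi).2
      have h2 := (Finset.mem_filter.1 hi2).2
      have h3 : i ≠ j := fun he => hjS (he ▸ (Finset.filter_subset _ _ hi))
      have h4 : i + 1 ≠ j := fun he => hjS (he ▸ (Finset.filter_subset _ _ hi2))
      omega)
    (fun i hi => by
      have h2 := Finset.mem_Ico.1 (hSsub (Finset.filter_subset _ _ hi))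
      rw [Finset.mem_range, Finset.mem_range]
      omega)
  have qA : A.card + 2 ≤ Γ := by
    have h1 : (A.card : ℝ) + 1 < Γ := by linarith
    have h2 : A.card + 1 < Γ := by exact_mod_cast h1
    omega
  have qB : B.card + 1 ≤ Γ := by
    rcases B.eq_empty_or_nonempty with he | hne
    · rw [he, Finset.card_empty]
      omega
    · have h1 : (B.card : ℝ) < Γ := lt_of_lt_of_le (pB.2 hne) hsum
      have h2 : B.card < Γ := by exact_mod_cast h1
      omega
  omega

end

end Pool.Agent.PEN.E5
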