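import Pool.Agent.E5.Vt15

/-! # PENNY, all small diameters: the vertex table with weighted surpluses -/

set_option autoImplicit false

namespace Pool.Agent.PEN.E5

open Classical UpperHalfPlane
open Pool.Agent.PEN.Cl

noncomputable section

variable {V : Type} (G : Tg V) {al : ℝ} {kp : V → V → ℝ} {U : ℕ → ℝ}

/-- the gaps of the big corners at an inner point -/
theorem sum_Bv15 (hG : G.Geo4 al kp U) {v : V} (hv : v ∈ inN G) :
    ∑ x ∈ Bv G v, gc G al x = kv G al v - ep al := by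
  rw [← sum_gc89 G hG hv]
  unfold Bv
  rw [cv_BC89]
  exact Finset.sum_filter_of_ne fun x _ h h3 => h (gc_tt89 G hG h3)

/-- the surpluses of the sectors at an inner point -/
theorem sum_DsSv15 (hG : G.Geo4 al kp U) {v : V} (hv : v ∈ inN G) :
    ∑ s ∈ Sv G v, Ds G al s = 2 * (kv G al v - ep al) - cv G v := by
  unfold Ds
  rw [Finset.sum_sub_distrib, Finset.sum_add_distrib, sum_sgv62 G hG hv (gc G al),
    sum_nxv62 G hG hv (gc G al), sum_Bv15 G hG hv, Finset.sum_const, card_Sv62 G hG hv,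
    nsmul_eq_mul]
  ring

/-- the nonnegative surpluses add up to at most `k - ep` -/
theorem pos_sum15 (hG : G.Geo4 al kp U) {v : V} (hv : v ∈ inN G)
    (hgap : ∀ x ∈ Bv G v, gc G al x ≤ 1) :
    ∑ s ∈ (Sv G v).filter (fun s => 0 ≤ Ds G al s), Ds G al s ≤ kv G al v - ep al := by
  have h1 : ∑ s ∈ Sv G v, ((gc G al (sg G s) + gc G al (nx G s)) / 2) = kv G al v - ep al := by
    rw [← Finset.sum_div, Finset.sum_add_distrib, sum_sgv62 G hG hv (gc G al),
      sum_nxv62 G hG hv (gc G al), sum_Bv15 G hG hv]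
    ring
  rw [← h1]
  calc ∑ s ∈ (Sv G v).filter (fun s => 0 ≤ Ds G al s), Ds G al s ≤
      ∑ s ∈ (Sv G v).filter (fun s => 0 ≤ Ds G al s),
        ((gc G al (sg G s) + gc G al (nx G s)) / 2) := by
        refine Finset.sum_le_sum fun s hs => ?_
        have h2 := (Finset.mem_filter.1 hs).1
        have h3 := hgap _ (sg_Bv62 G hG hv h2)
        have h4 := hgap _ (nx_Bv62 G hG hv h2)
        unfold Ds
        linarith
    _ ≤ _ := by
        refine Finset.sum_le_sum_of_subset_of_nonneg (Finset.filter_subset _ _) fun s _ _ => ?_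
        have h3 := gc_nonneg89 G hG (x := sg G s)
        have h4 := gc_nonneg89 G hG (x := nx G s)
        linarith

/-- lower bound of a surplus -/
theorem Ds_ge15 (hG : G.Geo4 al kp U) {v : V} (hv : v ∈ inN G)
    (hgap : ∀ x ∈ Bv G v, gc G al x ≤ 1) (hc : cv G v ≠ 1) {s : V × V} (hs : s ∈ Sv G v) :
    kv G al v + 1 - cv G v - ep al ≤ Ds G al s := by
  obtain ⟨h1, h2⟩ := (mem_Sv62 G).1 hs
  have ha := sg_Bv62 G hG hv hs
  have hb := nx_Bv62 G hG hv hs
  have hne : nx G s ≠ sg G s := fun h => hc ((sg_nx_iff89 G hG hv h1 h2).1 h.symm)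
  have h := sum_Bv15 G hG hv (al := al)
  have hbm : nx G s ∈ (Bv G v).erase (sg G s) := Finset.mem_erase.2 ⟨hne, hb⟩
  rw [← Finset.add_sum_erase _ _ ha, ← Finset.add_sum_erase _ _ hbm] at h
  have h3 : ∑ y ∈ ((Bv G v).erase (sg G s)).erase (nx G s), gc G al y ≤
      ((((Bv G v).erase (sg G s)).erase (nx G s)).card : ℝ) * 1 := by
    rw [← nsmul_eq_mul]
    exact Finset.sum_le_card_nsmul _ _ _ fun y hy =>
      hgap y (Finset.mem_of_mem_erase (Finset.mem_of_mem_erase hy))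
  have h4 : ((((Bv G v).erase (sg G s)).erase (nx G s)).card : ℝ) = cv G v - 2 := by
    have h5 := Finset.card_erase_add_one hbm
    have h6 := Finset.card_erase_add_one ha
    have h7 : ((((Bv G v).erase (sg G s)).erase (nx G s)).card : ℝ) + 1 + 1 = (Bv G v).card := by
      exact_mod_cast (by omega : (((Bv G v).erase (sg G s)).erase (nx G s)).card + 1 + 1 =
        (Bv G v).card)
    have h8 : (Bv G v).card = cv G v := rfl
    rw [h8] at h7
    linarith
  rw [h4] at h3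
  unfold Ds
  linarith

/-- the weighted surpluses are at most `y` times the nonnegative ones -/
theorem weight_le15 {y : ℝ} {v : V} {yy : V × V → ℝ} (hyy : ∀ s ∈ Sv G v, 0 ≤ yy s ∧ yy s ≤ y) :
    ∑ s ∈ Sv G v, yy s * Ds G al s ≤
      y * ∑ s ∈ (Sv G v).filter (fun s => 0 ≤ Ds G al s), Ds G al s := by
  rw [← Finset.sum_filter_add_sum_filter_not (Sv G v) (fun s => 0 ≤ Ds G al s)
    (fun s => yy s * Ds G al s), Finset.mul_sum]
  have h1 : ∑ s ∈ (Sv G v).filter (fun s => 0 ≤ Ds G al s), yy s * Ds G al s ≤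
      ∑ s ∈ (Sv G v).filter (fun s => 0 ≤ Ds G al s), y * Ds G al s := by
    refine Finset.sum_le_sum fun s hs => ?_
    obtain ⟨h2, h3⟩ := Finset.mem_filter.1 hs
    exact mul_le_mul_of_nonneg_right (hyy s h2).2 h3
  have h2 : ∑ s ∈ (Sv G v).filter (fun s => ¬ 0 ≤ Ds G al s), yy s * Ds G al s ≤ 0 := by
    refine Finset.sum_nonpos fun s hs => ?_
    obtain ⟨h2, h3⟩ := Finset.mem_filter.1 hs
    exact mul_nonpos_of_nonneg_of_nonpos (hyy s h2).1 (le_of_lt (not_le.1 h3))
  linarith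

/-- the prices of the served sectors, crude -/
theorem price_le15 {θ : ℝ} (hθ : 0 ≤ θ) (P : Finset (V × V)) :
    ∑ s ∈ P, max (2 + 2 * θ - θ * (rn G s : ℝ)) 0 ≤ P.card * (2 + 2 * θ) := by
  rw [← nsmul_eq_mul]
  refine Finset.sum_le_card_nsmul _ _ _ fun i _ => ?_
  have h1 : 0 ≤ θ * (rn G i : ℝ) := mul_nonneg hθ (Nat.cast_nonneg _)
  exact max_le (by linarith) (by linarith)

/-- `k = 2`, `c = 3`: runs are at most 2, so prices are exact -/
theorem price_eq15 (hG : G.Geo4 al kp U) {θ : ℝ} (hθ : 0 ≤ θ) {v : V} (hu : uv G al v = 8)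
    (hc : cv G v = 3) {P : Finset (V × V)} (hP : P ⊆ Sv G v) :
    ∑ s ∈ P, max (2 + 2 * θ - θ * (rn G s : ℝ)) 0 =
      P.card * (2 + 2 * θ) - θ * ∑ s ∈ P, (rn G s : ℝ) := by
  have h1 : ∀ s ∈ P, max (2 + 2 * θ - θ * (rn G s : ℝ)) 0 = 2 + 2 * θ - θ * (rn G s : ℝ) := by
    intro s hs
    have h2 := uv_split62 G hG (al := al) v
    have h3 := two_cv_le15 G (al := al) v
    unfold ub15 at h3
    have h4 : rn G s ≤ ∑ j ∈ Sv G v, rn G j :=
      Finset.single_le_sum (fun _ _ => Nat.zero_le _) (hP hs)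
    have h5 : rn G s ≤ 2 := by omega
    have h6 : (rn G s : ℝ) ≤ 2 := by exact_mod_cast h5
    have h7 := mul_le_mul_of_nonneg_left h6 hθ
    exact max_eq_left (by linarith)
  rw [Finset.sum_congr rfl h1, Finset.sum_sub_distrib, Finset.sum_const, nsmul_eq_mul,
    ← Finset.mul_sum]

/-- `k = 2`, `c = 3` and a sector with negative surplus -/
theorem vertexN15 (hG : G.Geo4 al kp U) {θ y Λ : ℝ} (hθ : 0 ≤ θ) (hy : 0 ≤ y) {v : V}
    (hv : v ∈ inN G) (hgap : ∀ x ∈ Bv G v, gc G al x ≤ 1) (hu : uv G al v = 8)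
    (hc : cv G v = 3) {yy : V × V → ℝ} (hyy : ∀ s ∈ Sv G v, 0 ≤ yy s ∧ yy s ≤ y)
    (hneg : ∃ s ∈ Sv G v, Ds G al s < 0) :
    ∑ s ∈ (Sv G v).filter (fun s => 0 ≤ Ds G al s), max (2 + 2 * θ - θ * (rn G s : ℝ)) 0 +
        ∑ s ∈ Sv G v, yy s * Ds G al s ≤
      (3 + 4 * θ + Λ) * (kv G al v - 1) + (1 + y - Λ) -
        θ * ∑ s ∈ (Sv G v).filter (fun s => 0 ≤ Ds G al s), (rn G s : ℝ) := by
  obtain ⟨n, hn, hDn⟩ := hneg
  rw [price_eq15 G hG hθ hu hc (Finset.filter_subset _ _)]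
  have hk : kv G al v = 2 := by rw [kv_eq89, hu]; norm_num
  have hep := ep_pos89 G hG
  have hep1 := ep_lt89 G hG
  have hS : (Sv G v).card = 3 := by rw [card_Sv62 G hG hv, hc]
  have h1 := weight_le15 G (al := al) hyy
  -- the nonnegative surpluses add up to at most one
  have h2 := sum_DsSv15 G hG hv (al := al)
  rw [← Finset.sum_filter_add_sum_filter_not (Sv G v) (fun s => 0 ≤ Ds G al s)] at h2
  have hcard := Finset.card_filter_add_card_filter_not (s := Sv G v) (fun s => 0 ≤ Ds G al s)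
  have hnm : n ∈ (Sv G v).filter (fun s => ¬ 0 ≤ Ds G al s) :=
    Finset.mem_filter.2 ⟨hn, not_le.2 hDn⟩
  have hn1 : 1 ≤ ((Sv G v).filter (fun s => ¬ 0 ≤ Ds G al s)).card :=
    Finset.card_pos.2 ⟨n, hnm⟩
  have hp2 : ((Sv G v).filter (fun s => 0 ≤ Ds G al s)).card ≤ 2 := by omega
  have hp2' : (((Sv G v).filter (fun s => 0 ≤ Ds G al s)).card : ℝ) ≤ 2 := by exact_mod_cast hp2
  have h3 : -(ep al * ((Sv G v).filter (fun s => ¬ 0 ≤ Ds G al s)).card) ≤
      ∑ s ∈ (Sv G v).filter (fun s => ¬ 0 ≤ Ds G al s), Ds G al s := by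
    have : ∀ s ∈ (Sv G v).filter (fun s => ¬ 0 ≤ Ds G al s), - ep al ≤ Ds G al s := by
      intro s hs
      have h4 := Ds_ge15 G hG hv hgap (by omega) (Finset.mem_filter.1 hs).1
      rw [hk, hc] at h4
      push_cast at h4
      linarith
    have h5 := Finset.card_nsmul_le_sum _ _ _ this
    rw [nsmul_eq_mul] at h5
    linarith
  have hD : ∑ s ∈ (Sv G v).filter (fun s => 0 ≤ Ds G al s), Ds G al s ≤ 1 := by
    rcases Nat.eq_zero_or_pos ((Sv G v).filter (fun s => 0 ≤ Ds G al s)).card with h0 | h0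
    · rw [Finset.card_eq_zero] at h0
      rw [h0, Finset.sum_empty]
      norm_num
    · have hm2 : ((Sv G v).filter (fun s => ¬ 0 ≤ Ds G al s)).card ≤ 2 := by omega
      have hm2' : (((Sv G v).filter (fun s => ¬ 0 ≤ Ds G al s)).card : ℝ) ≤ 2 := by
        exact_mod_cast hm2
      have h6 := mul_le_mul_of_nonneg_left hm2' hep.le
      rw [hk, hc] at h2
      push_cast at h2
      linarith
  have h7 := mul_le_mul_of_nonneg_left hD hy
  have h8 := mul_le_mul_of_nonneg_right hp2' (by linarith : (0:ℝ) ≤ 2 + 2 * θ)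
  rw [hk]
  linarith

/-- **weighted vertex table**: the prices of the served sectors and the weighted surpluses against
the cost of a point with `k ≥ 2`. The weights `yy s ∈ [0, y]` are arbitrary -/
theorem vertexD15 (hG : G.Geo4 al kp U) {θ y Λ : ℝ} (hθ : 0 ≤ θ) (hy : 0 ≤ y)
    (hy2 : 2 * y + 1 ≤ Λ) (hy4 : 3 + θ + 3 * y ≤ 2 * Λ) {v : V} (hv : v ∈ inN G)
    (hgap : ∀ x ∈ Bv G v, gc G al x ≤ 1) (h8 : 8 ≤ uv G al v)
    {yy : V × V → ℝ} (hyy : ∀ s ∈ Sv G v, 0 ≤ yy s ∧ yy s ≤ y) :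
    ∑ s ∈ (Sv G v).filter (fun s => 0 ≤ Ds G al s), max (2 + 2 * θ - θ * (rn G s : ℝ)) 0 +
        ∑ s ∈ Sv G v, yy s * Ds G al s ≤
      (3 + 4 * θ + Λ) * (kv G al v - 1) +
        (if uv G al v = 8 ∧ cv G v = 3 then (y + 3 - Λ) + θ * ((ub15 G al v : ℝ) - 6) else 0) := by
  have hep := ep_pos89 G hG
  have h1 := weight_le15 G (al := al) hyy
  have h2 := pos_sum15 G hG hv hgap
  have h3 := mul_le_mul_of_nonneg_left h2 hy
  have h4 := price_le15 G hθ ((Sv G v).filter (fun s => 0 ≤ Ds G al s))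
  have hle := Finset.card_filter_le (Sv G v) (fun s => 0 ≤ Ds G al s)
  have hle' : (((Sv G v).filter (fun s => 0 ≤ Ds G al s)).card : ℝ) ≤ cv G v := by
    rw [card_Sv62 G hG hv] at hle
    exact_mod_cast hle
  have h5 := mul_le_mul_of_nonneg_right hle' (by linarith : (0:ℝ) ≤ 2 + 2 * θ)
  have hyep : 0 ≤ y * ep al := mul_nonneg hy hep.le
  have hsplit := uv_split62 G hG (al := al) v
  have hub := two_cv_le15 G (al := al) v
  unfold ub15 at hub
  have hcu : 2 * cv G v ≤ uv G al v := by omega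
  rw [kv_eq89] at h3 ⊢
  rcases Nat.lt_or_ge 8 (uv G al v) with h9 | h9
  · have hn : ¬ (uv G al v = 8 ∧ cv G v = 3) := by omega
    rw [if_neg hn, add_zero]
    have k3 : (9 : ℝ) ≤ uv G al v := by exact_mod_cast h9
    have hcu' : 2 * (cv G v : ℝ) ≤ uv G al v := by exact_mod_cast hcu
    have p1 : 0 ≤ ((uv G al v : ℝ) / 2 - cv G v) * (2 + 2 * θ) :=
      mul_nonneg (by linarith) (by linarith)
    have p2 : 0 ≤ ((uv G al v : ℝ) - 9) * (2 + 3 * θ + Λ - y) :=
      mul_nonneg (by linarith) (by linarith)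
    nlinarith [p1, p2]
  · have hu8 : uv G al v = 8 := le_antisymm h9 h8
    have hc1 := cv_pos15 G hG hv
    have hc4 : cv G v ≤ 4 := by omega
    by_cases c3 : cv G v = 3
    · rw [if_pos ⟨hu8, c3⟩]
      by_cases hneg : ∃ s ∈ Sv G v, Ds G al s < 0
      · have h6 := vertexN15 G hG (Λ := Λ) hθ hy hv hgap hu8 c3 hyy hneg
        have h7 : 0 ≤ θ * ∑ s ∈ (Sv G v).filter (fun s => 0 ≤ Ds G al s), (rn G s : ℝ) :=
          mul_nonneg hθ (Finset.sum_nonneg fun _ _ => Nat.cast_nonneg _)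
        have h8 : (6 : ℝ) ≤ ub15 G al v := by
          have := two_cv_le15 G (al := al) v
          rw [c3] at this
          exact_mod_cast this
        have h10 : 0 ≤ θ * ((ub15 G al v : ℝ) - 6) := mul_nonneg hθ (by linarith)
        rw [kv_eq89] at h6
        linarith
      · push Not at hneg
        have hall : (Sv G v).filter (fun s => 0 ≤ Ds G al s) = Sv G v :=
          Finset.filter_true_of_mem hneg
        rw [hall] at h1 ⊢
        have h6 := price_eq15 G hG hθ hu8 c3 (Finset.Subset.refl (Sv G v))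
        rw [h6, card_Sv62 G hG hv, c3]
        have h7 := sum_DsSv15 G hG hv (al := al)
        rw [h7, kv_eq89, hu8, c3] at h1
        have h10 : (∑ s ∈ Sv G v, (rn G s : ℝ)) + ub15 G al v = 8 := by
          unfold ub15
          rw [hu8] at hsplit
          exact_mod_cast hsplit
        have h11 : ∑ s ∈ Sv G v, (rn G s : ℝ) = 8 - ub15 G al v := by linarith
        rw [h11, hu8]
        push_cast at h1 ⊢
        linarith
    · rw [if_neg (fun h => c3 h.2), add_zero, hu8]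
      rw [hu8] at h3
      have hc' : cv G v = 1 ∨ cv G v = 2 ∨ cv G v = 4 := by omega
      rcases hc' with h | h | h
      · rw [h] at h5
        push_cast at h3 h5 ⊢
        linarith
      · rw [h] at h5
        push_cast at h3 h5 ⊢
        linarith
      · have h12 := two_of_four15 G hG hv hu8 h
        have h13 : (((Sv G v).filter (fun s => 0 ≤ Ds G al s)).card : ℝ) ≤ 2 := by
          exact_mod_cast h12
        have h14 := mul_le_mul_of_nonneg_right h13 (by linarith : (0:ℝ) ≤ 2 + 2 * θ)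
        push_cast at h3 ⊢
        linarith

end

end Pool.Agent.PEN.E5
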