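import Pool.Agent.E5.Sp15
import Pool.Agent.E5.Vd15

/-! # PENNY, all small diameters: the master inequality -/

set_option autoImplicit false

namespace Pool.Agent.PEN.E5

open Classical UpperHalfPlane
open Pool.Agent.PEN.Cl

noncomputable section

variable {V : Type} (G : Tg V) {al : ℝ} {kp : V → V → ℝ} {U : ℕ → ℝ}

/-- the inner points with `k ≥ 2` -/
def A2 (al : ℝ) : Finset V := (inN G).filter (fun v => 8 ≤ uv G al v)

/-- the payers: sectors with nonnegative surplus at inner points with `k ≥ 2` -/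
def Pz (al : ℝ) : Finset (V × V) := (SD G).filter (fun s => s.2 ∈ A2 G al ∧ 0 ≤ Ds G al s)

/-- the black faces with a payer -/
def Sf (al : ℝ) : Finset (cg G).ConnectedComponent := (Kc G).filter (fun K => K ∈ (Pz G al).image (ku G))

/-- the refund of a black face with a payer -/
def ref (al θ : ℝ) (K : (cg G).ConnectedComponent) : ℝ :=
  ∑ s ∈ (Pz G al).filter (fun s => ku G s = K), max (2 + 2 * θ - θ * (rn G s : ℝ)) 0 -
    (2 + 2 * θ - θ * tK G K)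

theorem mem_Pz15 {s : V × V} : s ∈ Pz G al ↔ s ∈ SD G ∧ s.2 ∈ inN G ∧ 8 ≤ uv G al s.2 ∧
    0 ≤ Ds G al s := by
  unfold Pz A2
  rw [Finset.mem_filter, Finset.mem_filter]
  tauto

theorem ku_Kc15 {x : V × V} (hx : x ∈ SD G) : ku G x ∈ Kc G :=
  Finset.mem_image_of_mem _ ((mem_SD42 G).1 hx).1

theorem mem_Sf15 {K : (cg G).ConnectedComponent} : K ∈ Sf G al ↔ ∃ s ∈ kS G K, s ∈ Pz G al := by
  unfold Sf
  rw [Finset.mem_filter, Finset.mem_image]
  constructor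
  · rintro ⟨_, s, h1, h2⟩
    exact ⟨s, (mem_kS42 G).2 ⟨((mem_Pz15 G).1 h1).1, h2⟩, h1⟩
  · rintro ⟨s, h1, h2⟩
    obtain ⟨h3, h4⟩ := (mem_kS42 G).1 h1
    exact ⟨by rw [← h4]; exact ku_Kc15 G h3, s, h2, h4⟩

/-- refunds are nonnegative -/
theorem ref_nonneg15 (hG : G.Geo4 al kp U) {θ : ℝ} (hθ : 0 ≤ θ) {K : (cg G).ConnectedComponent}
    (hK : K ∈ Sf G al) : 0 ≤ ref G al θ K := by
  obtain ⟨s, h1, h2⟩ := (mem_Sf15 G).1 hK
  obtain ⟨h3, h4⟩ := (mem_kS42 G).1 h1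
  have h5 : s ∈ (Pz G al).filter (fun s => ku G s = K) := Finset.mem_filter.2 ⟨h2, h4⟩
  have h6 := Finset.single_le_sum (f := fun s => max (2 + 2 * θ - θ * (rn G s : ℝ)) 0)
    (fun i _ => le_max_right _ _) h5
  have h7 := rn_le_tK63 G hG h3
  rw [h4] at h7
  have h8 : (rn G s : ℝ) ≤ tK G K := by exact_mod_cast h7
  have h9 := mul_le_mul_of_nonneg_left h8 hθ
  have h10 := le_max_left (2 + 2 * θ - θ * (rn G s : ℝ)) 0
  unfold ref
  linarith

/-- the prices of all black faces -/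
theorem prices15 (θ : ℝ) : ∑ K ∈ Kc G, (2 + 2 * θ - θ * (tK G K : ℝ)) =
    ∑ s ∈ Pz G al, max (2 + 2 * θ - θ * (rn G s : ℝ)) 0 - ∑ K ∈ Sf G al, ref G al θ K +
      ∑ K ∈ (Kc G).filter (fun K => K ∉ Sf G al), (2 + 2 * θ - θ * (tK G K : ℝ)) := by
  have h1 : ∑ s ∈ Pz G al, max (2 + 2 * θ - θ * (rn G s : ℝ)) 0 =
      ∑ K ∈ Sf G al, ∑ s ∈ (Pz G al).filter (fun s => ku G s = K),
        max (2 + 2 * θ - θ * (rn G s : ℝ)) 0 := by
    refine (Finset.sum_fiberwise_of_maps_to (fun s hs => ?_) _).symm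
    refine (mem_Sf15 G).2 ⟨s, (mem_kS42 G).2 ⟨((mem_Pz15 G).1 hs).1, rfl⟩, hs⟩
  have h2 : (Kc G).filter (fun K => K ∈ Sf G al) = Sf G al := by
    ext K
    rw [Finset.mem_filter]
    refine ⟨fun h => h.2, fun h => ⟨?_, h⟩⟩
    unfold Sf at h
    exact (Finset.mem_filter.1 h).1
  have h3 : ∑ K ∈ Sf G al, ref G al θ K = ∑ K ∈ Sf G al,
      ∑ s ∈ (Pz G al).filter (fun s => ku G s = K), max (2 + 2 * θ - θ * (rn G s : ℝ)) 0 -
        ∑ K ∈ Sf G al, (2 + 2 * θ - θ * (tK G K : ℝ)) := by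
    unfold ref
    rw [Finset.sum_sub_distrib]
  rw [h3, h1, ← Finset.sum_filter_add_sum_filter_not (Kc G) (fun K => K ∈ Sf G al), h2]
  ring

/-- sums over sides, by black faces -/
theorem sum_kS15 (f : V × V → ℝ) : ∑ s ∈ SD G, f s = ∑ K ∈ Kc G, ∑ s ∈ kS G K, f s := by
  unfold kS
  exact (Finset.sum_fiberwise_of_maps_to (fun s hs => ku_Kc15 G hs) _).symm

/-- **balance**: sectors against sides, with a weight for every black face -/
theorem balance15 (hG : G.Geo4 al kp U) (yK : (cg G).ConnectedComponent → ℝ) :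
    ∑ s ∈ SD G, yK (ku G s) * Ds G al s = ∑ s ∈ SD G, yK (ku G s) * sp G al s := by
  rw [sum_kS15, sum_kS15]
  refine Finset.sum_congr rfl fun K _ => ?_
  have h1 : ∀ f : V × V → ℝ, ∑ s ∈ kS G K, yK (ku G s) * f s = yK K * ∑ s ∈ kS G K, f s := by
    intro f
    rw [Finset.mul_sum]
    refine Finset.sum_congr rfl fun s hs => ?_
    rw [((mem_kS42 G).1 hs).2]
  rw [h1 (Ds G al), h1 (sp G al), sum_Ds89 G hG K]

/-- sums over big corners, by white faces -/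
theorem sum_BC15 (f : V × V → ℝ) : ∑ s ∈ BC G, f s = ∑ C ∈ WF G, ∑ s ∈ G.cJ C, f s := by
  have h := sum_iJ71 G (fun x => if tt G x then 0 else f x)
  have e1 : ∑ x ∈ iJ G, (if tt G x then (0 : ℝ) else f x) = ∑ x ∈ BC G, f x := by
    unfold BC
    rw [Finset.sum_filter]
    refine Finset.sum_congr rfl fun x _ => ?_
    by_cases h : tt G x
    · rw [if_pos h, if_neg (not_not.2 h)]
    · rw [if_neg h, if_pos h]
  rw [e1] at h
  rw [h]
  unfold WF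
  rw [Finset.sum_filter]
  refine Finset.sum_congr rfl fun C hC => ?_
  by_cases hI : (G.cI C).Nonempty
  · rw [if_pos hI]
    refine Finset.sum_congr rfl fun x hx => ?_
    obtain ⟨h1, h2⟩ := cJ_iJ51 G hC hx
    rw [if_neg]
    rw [tt_iff89 G h1, h2]
    exact hI.ne_empty
  · rw [if_neg hI]
    refine Finset.sum_eq_zero fun x hx => ?_
    obtain ⟨h1, h2⟩ := cJ_iJ51 G hC hx
    rw [if_pos]
    rw [tt_iff89 G h1, h2]
    exact Finset.not_nonempty_iff_eq_empty.1 hI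

/-- sums over sides: white faces and outer darts -/
theorem sum_SD15 (f : V × V → ℝ) :
    ∑ s ∈ SD G, f s = ∑ C ∈ WF G, ∑ s ∈ G.cJ C, f s + ∑ s ∈ G.oJ, f s := by
  have e : SD G = BC G ∪ G.oJ := by
    ext x
    rw [Finset.mem_union, mem_SD42, mem_BC89, mem_KJ42, mem_oJ66, mem_iJ71]
    constructor
    · rintro ⟨⟨h1, h2⟩, h3⟩
      by_cases h : G.inn x
      · exact Or.inl ⟨⟨h, h2⟩, h3⟩
      · exact Or.inr ⟨h1, h2, h⟩
    · rintro (⟨⟨h1, h2⟩, h3⟩ | ⟨h1, h2, h3⟩)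
      · exact ⟨⟨G.sub h1.1, h2⟩, h3⟩
      · exact ⟨⟨h1, h2⟩, fun h => h3 (inn_tt89 G h)⟩
  have hd : Disjoint (BC G) G.oJ := by
    rw [Finset.disjoint_left]
    intro x h1 h2
    exact ((mem_oJ66 G).1 h2).2.2 ((mem_iJ71 G).1 ((mem_BC89 G).1 h1).1).1
  rw [e, Finset.sum_union hd, sum_BC15]

/-- sums over sides, by heads -/
theorem sum_heads15 (f : V × V → ℝ) : ∑ s ∈ SD G, f s =
    ∑ v ∈ A2 G al, ∑ s ∈ Sv G v, f s +
      ∑ v ∈ (inN G).filter (fun v => ¬ 8 ≤ uv G al v), ∑ s ∈ Sv G v, f s +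
      ∑ s ∈ (SD G).filter (fun s => s.2 ∉ inN G), f s := by
  rw [← Finset.sum_filter_add_sum_filter_not (SD G) (fun s => s.2 ∈ inN G)]
  congr 1
  have h1 : ∑ s ∈ (SD G).filter (fun s => s.2 ∈ inN G), f s = ∑ v ∈ inN G, ∑ s ∈ Sv G v, f s := by
    rw [← Finset.sum_fiberwise_of_maps_to (s := (SD G).filter (fun x => x.2 ∈ inN G))
      (t := inN G) (g := Prod.snd) (fun x hx => (Finset.mem_filter.1 hx).2)]
    refine Finset.sum_congr rfl fun v hv => ?_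
    unfold Sv
    rw [Finset.filter_filter]
    refine Finset.sum_congr (Finset.filter_congr fun x _ => ?_) fun _ _ => rfl
    exact ⟨fun h => h.2, fun h => ⟨by rw [h]; exact hv, h⟩⟩
  rw [h1, ← Finset.sum_filter_add_sum_filter_not (inN G) (fun v => 8 ≤ uv G al v)]
  rfl

theorem sum_kv15 (hG : G.Geo4 al kp U) :
    ∑ v ∈ inN G, (kv G al v - 1) = ∑ v ∈ A2 G al, (kv G al v - 1) := by
  symm
  unfold A2
  refine Finset.sum_filter_of_ne fun v hv h => ?_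
  by_contra h6
  have h7 := uv_ge89 G hG hv
  have h8 : uv G al v = 7 := by omega
  refine h ?_
  rw [kv_eq89, h8]
  norm_num

/-- **master inequality**: with arbitrary weights `yK K ∈ [0, y]` the discharging inequality of
`assembly89` follows from an inequality for faces, leaves, exceptions and outer terms -/
theorem master15 (hG : G.Geo4 al kp U) {θ y Λ R : ℝ} (hθ : 0 ≤ θ) (hy : 0 ≤ y)
    (hy2 : 2 * y + 1 ≤ Λ) (hy4 : 3 + θ + 3 * y ≤ 2 * Λ)
    (hgap : ∀ x ∈ BC G, gc G al x ≤ 1) {yK : (cg G).ConnectedComponent → ℝ}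
    (hyK : ∀ K ∈ Kc G, 0 ≤ yK K ∧ yK K ≤ y)
    (hR : ∑ K ∈ (Kc G).filter (fun K => K ∉ Sf G al), (2 + 2 * θ - θ * (tK G K : ℝ)) -
        ∑ K ∈ Sf G al, ref G al θ K +
        ∑ v ∈ (inN G).filter (fun v => ¬ 8 ≤ uv G al v), ∑ s ∈ Sv G v, yK (ku G s) * Ds G al s +
        ∑ v ∈ (inN G).filter (fun v => uv G al v = 8 ∧ cv G v = 3),
          ((y + 3 - Λ) + θ * ((ub15 G al v : ℝ) - 6)) +
        ∑ C ∈ WF G, ((4 + 5 * θ) * qa G C - (3 + 4 * θ + Λ) * ka G al C -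
          ∑ s ∈ G.cJ C, yK (ku G s) * sp G al s) +
        ∑ s ∈ (SD G).filter (fun s => s.2 ∉ inN G), yK (ku G s) * Ds G al s -
        ∑ s ∈ G.oJ, yK (ku G s) * sp G al s ≤ R) :
    ∑ K ∈ Kc G, (2 + 2 * θ - θ * (tK G K : ℝ)) + (4 + 5 * θ) * ∑ C ∈ WF G, qa G C ≤
      (3 + 4 * θ + Λ) * cost G al + R := by
  have h1 := prices15 G (al := al) θ
  have h2 := balance15 G hG yK
  rw [sum_heads15 G (al := al), sum_SD15 G (fun s => yK (ku G s) * sp G al s)] at h2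
  have h3 : ∑ s ∈ Pz G al, max (2 + 2 * θ - θ * (rn G s : ℝ)) 0 =
      ∑ v ∈ A2 G al, ∑ s ∈ (Sv G v).filter (fun s => 0 ≤ Ds G al s),
        max (2 + 2 * θ - θ * (rn G s : ℝ)) 0 := by
    unfold Pz
    exact sum_sectors15 G (A2 G al) (fun s => 0 ≤ Ds G al s) _
  have h4 : ∑ v ∈ A2 G al, (∑ s ∈ (Sv G v).filter (fun s => 0 ≤ Ds G al s),
        max (2 + 2 * θ - θ * (rn G s : ℝ)) 0 + ∑ s ∈ Sv G v, yK (ku G s) * Ds G al s) ≤
      ∑ v ∈ A2 G al, ((3 + 4 * θ + Λ) * (kv G al v - 1) +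
        (if uv G al v = 8 ∧ cv G v = 3 then (y + 3 - Λ) + θ * ((ub15 G al v : ℝ) - 6) else 0)) := by
    refine Finset.sum_le_sum fun v hv => ?_
    unfold A2 at hv
    obtain ⟨h5, h6⟩ := Finset.mem_filter.1 hv
    refine vertexD15 G hG hθ hy hy2 hy4 h5 (fun x hx => hgap x ((mem_Bv62 G).1 hx).1) h6
      (yy := fun s => yK (ku G s)) fun s hs => hyK _ (ku_Kc15 G ((mem_Sv62 G).1 hs).1)
  rw [Finset.sum_add_distrib, Finset.sum_add_distrib, ← Finset.mul_sum, ← Finset.sum_filter] at h4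
  have h5 : (A2 G al).filter (fun v => uv G al v = 8 ∧ cv G v = 3) =
      (inN G).filter (fun v => uv G al v = 8 ∧ cv G v = 3) := by
    unfold A2
    rw [Finset.filter_filter]
    exact Finset.filter_congr fun v _ => ⟨fun h => h.2, fun h => ⟨h.1.ge, h⟩⟩
  rw [h5] at h4
  have h6 := sum_kv15 G hG
  have h7 : ∑ C ∈ WF G, ((4 + 5 * θ) * qa G C - (3 + 4 * θ + Λ) * ka G al C -
      ∑ s ∈ G.cJ C, yK (ku G s) * sp G al s) = (4 + 5 * θ) * ∑ C ∈ WF G, qa G C -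
      (3 + 4 * θ + Λ) * ∑ C ∈ WF G, ka G al C -
      ∑ C ∈ WF G, ∑ s ∈ G.cJ C, yK (ku G s) * sp G al s := by
    rw [Finset.sum_sub_distrib, Finset.sum_sub_distrib, ← Finset.mul_sum, ← Finset.mul_sum]
  rw [h7] at hR
  unfold cost
  rw [h1, h3, h6]
  linarith

/-- the master inequality and the assembly -/
theorem inner15 (hG : G.Geo4 al kp U) {θ y Λ R : ℝ} (hθ : 0 ≤ θ) (hy : 0 ≤ y)
    (hy2 : 2 * y + 1 ≤ Λ) (hy4 : 3 + θ + 3 * y ≤ 2 * Λ)
    (hgap : ∀ x ∈ BC G, gc G al x ≤ 1) {yK : (cg G).ConnectedComponent → ℝ}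
    (hyK : ∀ K ∈ Kc G, 0 ≤ yK K ∧ yK K ≤ y)
    (hR : ∑ K ∈ (Kc G).filter (fun K => K ∉ Sf G al), (2 + 2 * θ - θ * (tK G K : ℝ)) -
        ∑ K ∈ Sf G al, ref G al θ K +
        ∑ v ∈ (inN G).filter (fun v => ¬ 8 ≤ uv G al v), ∑ s ∈ Sv G v, yK (ku G s) * Ds G al s +
        ∑ v ∈ (inN G).filter (fun v => uv G al v = 8 ∧ cv G v = 3),
          ((y + 3 - Λ) + θ * ((ub15 G al v : ℝ) - 6)) +
        ∑ C ∈ WF G, ((4 + 5 * θ) * qa G C - (3 + 4 * θ + Λ) * ka G al C -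
          ∑ s ∈ G.cJ C, yK (ku G s) * sp G al s) +
        ∑ s ∈ (SD G).filter (fun s => s.2 ∉ inN G), yK (ku G s) * Ds G al s -
        ∑ s ∈ G.oJ, yK (ku G s) * sp G al s ≤ R) :
    ((inN G).card : ℝ) ≤ Λ * cost G al + R - (3 + 4 * θ) * (gam G al - cor G al) +
      θ * G.oJ.card - 2 - 4 * θ :=
  assembly89 G hG hθ (master15 G hG hθ hy hy2 hy4 hgap hyK hR)

end

end Pool.Agent.PEN.E5
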