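import Pool.Agent.E5.Sb69

/-! # PENNY, all small diameters: the numerics of the row with sharp darts (arithmetic)

`(Λ + 1) (n - b) + 4 δ + 6 + 3 s ≤ Λ 2 I + (Λ + 5) cor + σ` implies the bound of the number of
contacts, when the area `A` is bounded linearly in `b` and `σ`. -/

set_option autoImplicit false

namespace Pool.Agent.PEN.E5

open Classical UpperHalfPlane
open Pool.Agent.PEN.Cl

noncomputable section

/-- the numbers of a configuration: `a` = area and `al` = angle of the contact triangle, `D` =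
repeated boundary points, `c` = curvature term, `σ` = sharp darts, `J = 2 I` -/
structure Dat69 (Λ a al n b s D c σ J A : ℝ) : Prop where
  a0 : 0 < a
  l0 : 0 < al
  n98 : 98 ≤ n
  b0 : 0 ≤ b
  s0 : 0 ≤ s
  D0 : 0 ≤ D
  g0 : 0 ≤ σ
  gb : σ ≤ b
  ni : 0 ≤ n - b + D
  t0 : 0 ≤ 2 * n - 2 - b - s
  cor : c * al = A - a * (b - 2 - s - 2 * D)
  low : a * (2 * n - 2 - b - s) ≤ A
  sig : (3 + 2 * (a / al)) * σ ≤ (2 + 2 * (a / al)) * b + 6 + 3 * s + 6 * D + c
  row : (Λ + 1) * (n - b) + 4 * D + 6 + 3 * s ≤ Λ * J + (Λ + 5) * c + σ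

theorem Dat69.c0 {Λ a al n b s D c σ J A : ℝ} (H : Dat69 Λ a al n b s D c σ J A) : 0 ≤ c := by
  have h1 := H.cor
  have h2 := H.low
  have h3 := mul_nonneg H.a0.le H.ni
  have h4 : 0 ≤ c * al := by rw [h1]; linarith
  exact nonneg_of_mul_nonneg_left h4 H.l0

theorem Dat69.A0 {Λ a al n b s D c σ J A : ℝ} (H : Dat69 Λ a al n b s D c σ J A) : 0 ≤ A :=
  (mul_nonneg H.a0.le H.t0).trans H.low

/-- **the arithmetic of one alternative**; `l = 1` uses only the row, `l < 1` also inequality B -/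
theorem core69 {Λ l e k m X1 X0 Xr C1 C0 Cr a al n b s D c σ J A : ℝ}
    (H : Dat69 Λ a al n b s D c σ J A) (hΛ : 21 / 5 ≤ Λ) (hl0 : 0 ≤ l) (hl1 : l ≤ 1)
    (hB : l = 1 ∨ n - b - c / 2 ≤ J)
    (he : 2 * (a / al) ≤ e) (hm : 0 ≤ m)
    (hX : A / a ≤ X1 * b + X0 - Xr * σ)
    (hC : c ≤ C1 * b + C0 - Cr * σ + k * (s + 2 * D))
    (h1 : 21 * l - (5 * Λ - 21 * l) / 2 * Xr - (21 * l * (Λ + 5) + 21 / 2 * (1 - l) * Λ) * Cr ≤
      m * (3 + e + Cr))
    (h2 : 0 ≤ 63 * l + 63 * Λ - (5 * Λ - 21 * l) / 2 -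
      (21 * l * (Λ + 5) + 21 / 2 * (1 - l) * Λ + m) * k - 3 * m)
    (h3 : 0 ≤ 84 * l - 2 * (21 * l * (Λ + 5) + 21 / 2 * (1 - l) * Λ + m) * k - 6 * m)
    (h4 : 0 ≤ (21 * Λ - 21 * l - (5 * Λ - 21 * l) / 2 - (5 * Λ - 21 * l) / 2 * X1 -
        (21 * l * (Λ + 5) + 21 / 2 * (1 - l) * Λ + m) * C1 - m * (2 + e)) * b +
      (-((5 * Λ - 21 * l) / 2 * X0) - (5 * Λ - 21 * l - 126 * l + 144 * Λ) -
        (21 * l * (Λ + 5) + 21 / 2 * (1 - l) * Λ + m) * C0 - 6 * m)) :
    26 * n + 144 ≤ 42 * b + 63 * s + 21 * J := by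
  have a0 := H.a0
  have hc0 := H.c0
  set cX := (5 * Λ - 21 * l) / 2 with hcX
  set cc := 21 * l * (Λ + 5) + 21 / 2 * (1 - l) * Λ with hcc
  have X0' : 0 ≤ cX := by rw [hcX]; linarith
  have C0' : 0 ≤ cc := by
    rw [hcc]
    have e1 : 0 ≤ l * (Λ + 5) := mul_nonneg hl0 (by linarith)
    have e2 : 0 ≤ (1 - l) * Λ := mul_nonneg (by linarith) (by linarith)
    linarith
  -- the number of points
  have hn : 2 * n ≤ A / a + b + 2 + s := by
    have : 2 * n - 2 - b - s ≤ A / a := by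
      rw [le_div_iff₀ a0]
      linarith [H.low]
    linarith
  have e1 := mul_le_mul_of_nonneg_left hn X0'
  have e2 := mul_le_mul_of_nonneg_left hX X0'
  -- the sharp darts
  have e3 : (3 + e) * σ ≤ (2 + e) * b + 6 + 3 * s + 6 * D + c := by
    have h5 := H.sig
    have h6 : (e - 2 * (a / al)) * σ ≤ (e - 2 * (a / al)) * b :=
      mul_le_mul_of_nonneg_left H.gb (by linarith)
    linarith
  have e4 := mul_le_mul_of_nonneg_left e3 hm
  have e5 := mul_le_mul_of_nonneg_left hC (show 0 ≤ cc + m by linarith)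
  have e6 : (21 * l) * σ - cX * Xr * σ - cc * Cr * σ ≤ m * (3 + e + Cr) * σ := by
    have := mul_le_mul_of_nonneg_right h1 H.g0
    linarith
  have e7 : 0 ≤ (63 * l + 63 * Λ - cX - (cc + m) * k - 3 * m) * s := mul_nonneg h2 H.s0
  have e8 : 0 ≤ (84 * l - 2 * (cc + m) * k - 6 * m) * D := mul_nonneg h3 H.D0
  -- the rows
  have r1 := mul_le_mul_of_nonneg_left H.row (show 0 ≤ 21 * l by linarith)
  have r2 : (1 - l) * (21 * Λ) * (n - b - c / 2) ≤ (1 - l) * (21 * Λ) * J := by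
    rcases hB with h | h
    · rw [h]
      linarith
    · exact mul_le_mul_of_nonneg_left h (mul_nonneg (by linarith) (by linarith))
  have key : 0 ≤ Λ * (21 * J - 26 * n - 144 + 42 * b + 63 * s) := by
    have f1 : Λ * (21 * J - 26 * n - 144 + 42 * b + 63 * s) =
        21 * l * (Λ * J) + (1 - l) * (21 * Λ) * J - Λ * (26 * n + 144 - 42 * b - 63 * s) := by
      ring
    have f2 : 21 * l * ((Λ + 1) * (n - b) + 4 * D + 6 + 3 * s - (Λ + 5) * c - σ) +
        (1 - l) * (21 * Λ) * (n - b - c / 2) - Λ * (26 * n + 144 - 42 * b - 63 * s) =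
        -(cX * (2 * n)) + (42 * Λ - 21 * l * (Λ + 1) - 21 * (1 - l) * Λ) * b +
        (63 * l + 63 * Λ) * s + 84 * l * D + 126 * l - 144 * Λ - cc * c - 21 * l * σ := by
      rw [hcX, hcc]
      ring
    rw [f1]
    have f3 : 0 ≤ -(cX * (2 * n)) + (42 * Λ - 21 * l * (Λ + 1) - 21 * (1 - l) * Λ) * b +
        (63 * l + 63 * Λ) * s + 84 * l * D + 126 * l - 144 * Λ - cc * c - 21 * l * σ := by
      have f4 : (42 * Λ - 21 * l * (Λ + 1) - 21 * (1 - l) * Λ) * b =
          (21 * Λ - 21 * l) * b := by ring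
      rw [f4]
      have f5 : 2 * cX = 5 * Λ - 21 * l := by rw [hcX]; ring
      linarith
    linarith
  have hΛ0 : 0 < Λ := by linarith
  have := nonneg_of_mul_nonneg_right key hΛ0
  linarith

/-- at most 29 boundary darts: the defect of Euler's formula is large -/
theorem small69 {Λ a al n b s D c σ J A : ℝ} (H : Dat69 Λ a al n b s D c σ J A)
    (h5 : Λ = 6) (hk : a / al ≤ 3 / 50) (hb : b ≤ 29) (hA : A ≤ 154 * a) :
    26 * n + 144 ≤ 42 * b + 63 * s + 21 * J := by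
  have a0 := H.a0
  have hX : A / a ≤ 154 := by rwa [div_le_iff₀ a0]
  have hn : 2 * n ≤ A / a + b + 2 + s := by
    have : 2 * n - 2 - b - s ≤ A / a := by
      rw [le_div_iff₀ a0]
      linarith [H.low]
    linarith
  have hs : 11 ≤ s := by linarith [H.n98]
  have k0 : 0 ≤ a / al := (div_pos a0 H.l0).le
  have hc : c = a / al * (A / a - b + 2 + s + 2 * D) := by
    have h1 := H.cor
    have h2 : c = (A - a * (b - 2 - s - 2 * D)) / al := by
      rw [eq_div_iff H.l0.ne']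
      exact h1
    rw [h2]
    have := H.l0.ne'
    have := a0.ne'
    field_simp
    ring
  have hB : 0 ≤ A / a - b + 2 + s + 2 * D := by
    have := H.ni
    linarith [H.s0, hn]
  have hc1 : c ≤ 3 / 50 * (154 - b + 2 + s + 2 * D) := by
    rw [hc]
    exact mul_le_mul hk (by linarith) hB (by norm_num)
  have h1 := H.row
  have h2 := H.gb
  have h3 := H.D0
  have h4 := H.b0
  rw [h5] at h1
  linarith

theorem lin_mid69 {S K lo hi b : ℝ} (h1 : 0 ≤ S * lo + K) (h2 : 0 ≤ S * hi + K) (hb : lo ≤ b)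
    (hb2 : b ≤ hi) : 0 ≤ S * b + K := by
  rcases le_total 0 S with h | h
  · have := mul_le_mul_of_nonneg_left hb h
    linarith
  · have := mul_le_mul_of_nonpos_left hb2 h
    linarith

theorem lin_tail69 {S K lo b : ℝ} (hS : 0 ≤ S) (h1 : 0 ≤ S * lo + K) (hb : lo ≤ b) :
    0 ≤ S * b + K := by
  have := mul_le_mul_of_nonneg_left hb hS
  linarith

end

end Pool.Agent.PEN.E5
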