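import Pool.Agent.E5.Nd69
import Pool.Agent.P4.Y71m

/-! # PENNY, all small diameters: the numerics of the row with sharp darts (one configuration) -/

set_option autoImplicit false

namespace Pool.Agent.PEN.E5

open Classical UpperHalfPlane
open Pool.Agent.PEN.Cl

noncomputable section

/-- the conditions on one alternative -/
structure Ok69 (Λ l e k m Xr Cr : ℝ) : Prop where
  l0 : 0 ≤ l
  l1 : l ≤ 1
  m0 : 0 ≤ m
  h1 : 21 * l - (5 * Λ - 21 * l) / 2 * Xr - (21 * l * (Λ + 5) + 21 / 2 * (1 - l) * Λ) * Cr ≤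
    m * (3 + e + Cr)
  h2 : 0 ≤ 63 * l + 63 * Λ - (5 * Λ - 21 * l) / 2 -
    (21 * l * (Λ + 5) + 21 / 2 * (1 - l) * Λ + m) * k - 3 * m
  h3 : 0 ≤ 84 * l - 2 * (21 * l * (Λ + 5) + 21 / 2 * (1 - l) * Λ + m) * k - 6 * m

/-- the coefficient of `b` -/
def Sl69 (Λ l e m X1 C1 : ℝ) : ℝ :=
  21 * Λ - 21 * l - (5 * Λ - 21 * l) / 2 - (5 * Λ - 21 * l) / 2 * X1 -
    (21 * l * (Λ + 5) + 21 / 2 * (1 - l) * Λ + m) * C1 - m * (2 + e)

/-- the constant term -/
def Kn69 (Λ l m X0 C0 : ℝ) : ℝ :=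
  -((5 * Λ - 21 * l) / 2 * X0) - (5 * Λ - 21 * l - 126 * l + 144 * Λ) -
    (21 * l * (Λ + 5) + 21 / 2 * (1 - l) * Λ + m) * C0 - 6 * m

theorem div_le_of69 {A a Y x : ℝ} (hA : 0 ≤ A) (hAY : A ≤ Y) (hx : 0 < x) (hxa : x ≤ a) :
    A / a ≤ Y / x := div_le_div₀ (hA.trans hAY) hAY hx hxa

/-- the numerical conditions of one interval -/
structure Cell69 (Λ x1 x2 al0 g G c2 r k e v u B lU mU l1 m1 l2 m2 : ℝ) : Prop where
  x0 : 0 < x1
  r0 : 0 ≤ r
  al00 : 0 < al0
  kk : x2 ≤ k * al0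
  ee : 2 * k ≤ e
  okU : Ok69 Λ lU e k mU 0 0
  U1 : 0 ≤ Sl69 Λ lU e mU v (k * (v - 1)) * 30 + Kn69 Λ lU mU u (k * (u + 2))
  U2 : 0 ≤ Sl69 Λ lU e mU v (k * (v - 1)) * B + Kn69 Λ lU mU u (k * (u + 2))
  ok1 : Ok69 Λ l1 e k m1 0 0
  S1 : 0 ≤ Sl69 Λ l1 e m1 (c2 / x1) ((c2 - x1) / al0)
  V1 : 0 ≤ Sl69 Λ l1 e m1 (c2 / x1) ((c2 - x1) / al0) * B + Kn69 Λ l1 m1 0 (2 * x1 / al0)
  ok2 : Ok69 Λ l2 e k m2 (r / x2) (r / al0)
  S2 : 0 ≤ Sl69 Λ l2 e m2 G ((g - x1) / al0)
  V2 : 0 ≤ Sl69 Λ l2 e m2 G ((g - x1) / al0) * B + Kn69 Λ l2 m2 (-3 / x2) ((2 * x1 - 3) / al0)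

/-- **one interval** -/
theorem cell69 {Λ x1 x2 al0 g G c2 r k e v u B lU mU l1 m1 l2 m2 : ℝ}
    (N : Cell69 Λ x1 x2 al0 g G c2 r k e v u B lU mU l1 m1 l2 m2)
    {a al n b s D c σ J A gd rd Kd cd : ℝ}
    (H : Dat69 Λ a al n b s D c σ J A) (hΛ : 21 / 5 ≤ Λ)
    (hB : (lU = 1 ∧ l1 = 1 ∧ l2 = 1) ∨ n - b - c / 2 ≤ J)
    (ha1 : x1 ≤ a) (ha2 : a ≤ x2) (hal : al0 ≤ al) (hb30 : 30 ≤ b)
    (hU : b ≤ B → A / a ≤ v * b + u)
    (hd : A ≤ b * cd ∨ A ≤ b * gd - Kd - σ * rd) (hcd : cd ≤ c2) (hgd : gd ≤ g)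
    (hGd : gd ≤ G * a) (hKd : 3 ≤ Kd) (hrd : r ≤ rd) :
    26 * n + 144 ≤ 42 * b + 63 * s + 21 * J := by
  have a0 := H.a0
  have l0 := H.l0
  have A0 := H.A0
  have c0 := H.c0
  have x0 := N.x0
  have al00 := N.al00
  have s0 := H.s0
  have D0 := H.D0
  have g0 := H.g0
  have k1 : a / al ≤ k := by
    rw [div_le_iff₀ l0]
    have hk0 : 0 ≤ k := by
      by_contra hneg
      push Not at hneg
      have := mul_neg_of_neg_of_pos hneg al00
      linarith [N.kk]
    have := mul_le_mul_of_nonneg_left hal hk0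
    linarith [N.kk]
  have ka0 : 0 ≤ a / al := (div_pos a0 l0).le
  have he : 2 * (a / al) ≤ e := by linarith [N.ee]
  have hc : c = a / al * (A / a - b + 2 + s + 2 * D) := by
    have h1 := H.cor
    have h2 : c = (A - a * (b - 2 - s - 2 * D)) / al := by
      rw [eq_div_iff l0.ne']
      exact h1
    rw [h2]
    have := l0.ne'
    have := a0.ne'
    field_simp
    ring
  have hT : 2 * n - 2 - b - s ≤ A / a := by
    rw [le_div_iff₀ a0]
    linarith [H.low]
  have hBr : 0 ≤ A / a - b + 2 + s + 2 * D := by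
    have := H.ni
    linarith
  rcases le_total b B with hbB | hbB
  · -- the chord
    have hX := hU hbB
    refine core69 H hΛ N.okU.l0 N.okU.l1 (hB.imp_left (fun h => h.1)) he N.okU.m0
      (X1 := v) (X0 := u) (Xr := 0) (C1 := k * (v - 1)) (C0 := k * (u + 2)) (Cr := 0) (k := k)
      (by linarith) ?_ N.okU.h1 N.okU.h2 N.okU.h3 ?_
    · rw [hc]
      have h3 : a / al * (A / a - b + 2 + s + 2 * D) ≤ k * (v * b + u - b + 2 + s + 2 * D) :=
        mul_le_mul k1 (by linarith) hBr (ka0.trans k1)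
      linarith
    · exact lin_mid69 N.U1 N.U2 hb30 hbB
  · rcases hd with hd | hd
    · have hY : A ≤ b * c2 := hd.trans (mul_le_mul_of_nonneg_left hcd (by linarith))
      refine core69 H hΛ N.ok1.l0 N.ok1.l1 (hB.imp_left (fun h => h.2.1)) he N.ok1.m0
        (X1 := c2 / x1) (X0 := 0) (Xr := 0) (C1 := (c2 - x1) / al0) (C0 := 2 * x1 / al0)
        (Cr := 0) (k := k) ?_ ?_ N.ok1.h1 N.ok1.h2 N.ok1.h3 ?_
      · have h1 := div_le_of69 A0 hY x0 ha1
        have h2 : b * c2 / x1 = c2 / x1 * b + 0 - 0 * σ := by ring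
        linarith
      · have h1 : c * al0 ≤ b * c2 - x1 * (b - 2) + x2 * (s + 2 * D) := by
          have h2 : c * al0 ≤ c * al := mul_le_mul_of_nonneg_left hal c0
          have h3 : x1 * (b - 2) ≤ a * (b - 2) := mul_le_mul_of_nonneg_right ha1 (by linarith)
          have h4 : a * (s + 2 * D) ≤ x2 * (s + 2 * D) :=
            mul_le_mul_of_nonneg_right ha2 (by linarith)
          rw [H.cor] at h2
          linarith
        have h5 : x2 * (s + 2 * D) ≤ k * al0 * (s + 2 * D) :=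
          mul_le_mul_of_nonneg_right N.kk (by linarith)
        have h6 : c ≤ (b * c2 - x1 * (b - 2) + k * al0 * (s + 2 * D)) / al0 := by
          rw [le_div_iff₀ al00]
          linarith
        refine h6.trans (le_of_eq ?_)
        have := al00.ne'
        field_simp
        ring
      · exact lin_tail69 N.S1 N.V1 hbB
    · have hY : A ≤ b * g - 3 - σ * r := by
        have h1 : b * gd ≤ b * g := mul_le_mul_of_nonneg_left hgd (by linarith)
        have h2 : σ * r ≤ σ * rd := mul_le_mul_of_nonneg_left hrd g0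
        linarith
      have x20 : 0 < x2 := by linarith
      refine core69 H hΛ N.ok2.l0 N.ok2.l1 (hB.imp_left (fun h => h.2.2)) he N.ok2.m0
        (X1 := G) (X0 := -3 / x2) (Xr := r / x2) (C1 := (g - x1) / al0)
        (C0 := (2 * x1 - 3) / al0) (Cr := r / al0) (k := k) ?_ ?_ N.ok2.h1 N.ok2.h2 N.ok2.h3 ?_
      · have h1 : A ≤ b * (G * a) - 3 - σ * r := by
          have h1 : b * gd ≤ b * (G * a) := mul_le_mul_of_nonneg_left hGd (by linarith)
          have h2 : σ * r ≤ σ * rd := mul_le_mul_of_nonneg_left hrd g0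
          linarith
        rw [div_le_iff₀ a0]
        have h2 : (3 + σ * r) * (a / x2) ≤ 3 + σ * r := by
          have h3 : a / x2 ≤ 1 := (div_le_one x20).2 ha2
          have h4 : 0 ≤ 3 + σ * r := by
            have := mul_nonneg g0 N.r0
            linarith
          have := mul_le_mul_of_nonneg_left h3 h4
          linarith
        have e1 : (G * b + -3 / x2 - r / x2 * σ) * a = b * (G * a) - (3 + σ * r) * (a / x2) := by
          field_simp
          ring
        rw [e1]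
        linarith
      · have h1 : c * al0 ≤ b * g - 3 - σ * r - x1 * (b - 2) + x2 * (s + 2 * D) := by
          have h2 : c * al0 ≤ c * al := mul_le_mul_of_nonneg_left hal c0
          have h3 : x1 * (b - 2) ≤ a * (b - 2) := mul_le_mul_of_nonneg_right ha1 (by linarith)
          have h4 : a * (s + 2 * D) ≤ x2 * (s + 2 * D) :=
            mul_le_mul_of_nonneg_right ha2 (by linarith)
          rw [H.cor] at h2
          linarith
        have h5 : x2 * (s + 2 * D) ≤ k * al0 * (s + 2 * D) :=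
          mul_le_mul_of_nonneg_right N.kk (by linarith)
        have h6 : c ≤ (b * g - 3 - σ * r - x1 * (b - 2) + k * al0 * (s + 2 * D)) / al0 := by
          rw [le_div_iff₀ al00]
          linarith
        refine h6.trans (le_of_eq ?_)
        have := al00.ne'
        field_simp
        ring
      · exact lin_tail69 N.S2 N.V2 hbB

/-! ### The configuration -/

/-- the row, with the repeated boundary points -/
def Row69 (Λ : ℝ) (G : Tg ℍ) (al : ℝ) : Prop :=
  (Λ + 1) * ((G.P.card : ℝ) - G.oJ.card) + 4 * (G.oJ.card + (inN G).card - G.P.card) + 6 +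
    3 * sE G ≤ Λ * G.iI.card + (Λ + 5) * cor G al + (G.shp al).card

theorem dat69 {d Λ : ℝ} (hd : 0 < d) (hd2 : d ≤ 89 / 250) {G : Tg ℍ}
    (hG : G.Geo4 (alpha d) kap (Ust69 d)) (hD : DelG G d) (hH : HullT G) (hS : Sep d G.P)
    (hn : 98 ≤ G.P.card) (hR : Row69 Λ G (alpha d)) :
    ∃ A : ℝ, Dat69 Λ (A3 (alpha d)) (alpha d) G.P.card G.oJ.card (sE G)
      (G.oJ.card + (inN G).card - G.P.card) (cor G (alpha d)) (G.shp (alpha d)).card
      G.iI.card A ∧ A ≤ Ust69 d G.oJ.card ∧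
      (A ≤ G.oJ.card * (2 * Real.arcsin (7 / 10 * Real.tanh (d / 2))) ∨
        A ≤ G.oJ.card * g51 d - (4 * Real.arcsin (7 / 10) - 2 * rho51 d (alpha d)) -
          (G.shp (alpha d)).card * rho51 d (alpha d)) ∧
      A = ∑ x ∈ G.iD, G.ar x.1 x.2 / 3 := by
  obtain ⟨t, I, A, hN, hiD, hiI, hA⟩ := num5s hG hD (side7_45 hd hd2)
  have hal := alpha_pos hd
  have hA3 := A3_pos69 hd
  have hAr : Ar G = A := by rw [hA]; rfl
  have e2 : (G.iD.card : ℝ) / 3 = t := by
    rw [hiD]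
    push_cast
    ring
  have f4 := card_inN71 G
  have f4' : (G.P.card : ℝ) ≤ G.oJ.card + (inN G).card := by exact_mod_cast f4
  have hsh := shp_bound69 hG hD hH hS
  have hgb : ((G.shp (alpha d)).card : ℝ) ≤ G.oJ.card := by
    have h1 : (G.shp (alpha d)).card ≤ G.iB.card := by
      unfold Tg.shp
      exact Finset.card_filter_le _ _
    have h2 : G.iB.card ≤ G.oJ.card := by
      apply Finset.card_le_card_of_injOn (fun x => (x.2, x.1))
      · intro x hx
        exact Finset.mem_coe.2 (iB_oJ9 G (Finset.mem_coe.1 hx)).2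
      · rintro ⟨a, b⟩ _ ⟨c, e⟩ _ h
        exact Prod.ext (congrArg Prod.snd h) (congrArg Prod.fst h)
    exact_mod_cast h1.trans h2
  have hst : 2 * (G.P.card : ℝ) - 2 - G.oJ.card - sE G = t := by
    unfold sE
    rw [e2]
    ring
  refine ⟨A, ⟨hA3, hal, by exact_mod_cast hn, Nat.cast_nonneg _, sE_nonneg71 G hG, by linarith,
    Nat.cast_nonneg _, hgb, ?_, ?_, ?_, ?_, ?_, ?_⟩, hN.up, hN.dis, hA⟩
  · have : (0 : ℝ) ≤ (inN G).card := Nat.cast_nonneg _
    linarith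
  · rw [hst]
    exact Nat.cast_nonneg _
  · have h1 := cor_mul69 G hal
    rw [hAr] at h1
    rw [h1]
    unfold sE
    ring
  · rw [hst]
    exact hN.low
  · have e : ep (alpha d) = 2 * (A3 (alpha d) / alpha d) := by
      unfold ep A3
      field_simp
      ring
    rw [e] at hsh
    linarith
  · unfold Row69 at hR
    linarith

/-- from the inequality between the numbers to the number of contacts -/
theorem darts_of69 {d : ℝ} (hd : 0 < d) {G : Tg ℍ} (hG : G.Geo4 (alpha d) kap (Ust69 d))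
    (hn : 98 ≤ G.P.card)
    (h : 26 * (G.P.card : ℝ) + 144 ≤ 42 * G.oJ.card + 63 * sE G + 21 * G.iI.card) :
    (G.D.filter (fun x => G.con x.1 x.2)).card ≤ 2 * Lb G.P.card := by
  obtain ⟨t, I, A, hN, hiD, hiI, _⟩ := num4 G hG (Ust69_zero d) (Ust69_mono d) (Ust69_sup d)
  have e1 := hN.edge
  have e1' : ((G.D.filter (fun x => G.con x.1 x.2)).card : ℝ) + 2 * I = 3 * t + G.oJ.card := by
    exact_mod_cast e1
  have e2 : (G.iD.card : ℝ) = 3 * t := by exact_mod_cast hiD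
  have e3 : (G.iI.card : ℝ) = 2 * I := by exact_mod_cast hiI
  unfold sE at h
  rw [e2, e3] at h
  have key : 21 * ((G.D.filter (fun x => G.con x.1 x.2)).card : ℝ) + 270 ≤ 100 * G.P.card := by
    linarith
  have key' : 21 * (G.D.filter (fun x => G.con x.1 x.2)).card + 270 ≤ 100 * G.P.card := by
    exact_mod_cast key
  obtain ⟨k, hk⟩ := hN.even
  unfold Lb
  rw [if_neg (by omega), if_pos (by omega)]
  have h5 : k ≤ (50 * G.P.card - 135) / 21 := by
    rw [Nat.le_div_iff_mul_le (by norm_num)]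
    omega
  have h6 := le_max_right (max ((7 * G.P.card - 15) / 3) ((19 * G.P.card - 48) / 8))
    ((50 * G.P.card - 135) / 21)
  omega

/-- the chord of the areas of the regular polygons between 30 and `B` -/
theorem chord69 {d q1 q2 A : ℝ} (hd : 0 < d) {b B : ℕ} (h1 : Ust69 d 30 ≤ q1 * A3 (alpha d))
    (h2 : Ust69 d B ≤ q2 * A3 (alpha d)) (hb : 30 ≤ b) (hb2 : b ≤ B) (hB : 30 < B)
    (hA : A ≤ Ust69 d b) :
    A / A3 (alpha d) ≤ (q2 - q1) / (B - 30) * b + (q1 - 30 * ((q2 - q1) / (B - 30))) := by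
  have h3 := Ust_chord69 hd (a := 30) (b := b) (c := B) (by norm_num) hb hb2
  have hA3 := A3_pos69 hd
  have c1 : (0 : ℝ) < B - 30 := by
    have : (30 : ℝ) < B := by exact_mod_cast hB
    linarith
  have c2 : (0 : ℝ) ≤ B - b := by
    have : (b : ℝ) ≤ B := by exact_mod_cast hb2
    linarith
  have c3 : (0 : ℝ) ≤ b - 30 := by
    have : (30 : ℝ) ≤ b := by exact_mod_cast hb
    linarith
  push_cast at h3
  have h4 := mul_le_mul_of_nonneg_left h1 c2
  have h5 := mul_le_mul_of_nonneg_left h2 c3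
  have h6 := mul_le_mul_of_nonneg_left hA c1.le
  rw [div_le_iff₀ hA3]
  have h7 : ((B : ℝ) - 30) * A ≤ ((B : ℝ) - 30) *
      (((q2 - q1) / (B - 30) * b + (q1 - 30 * ((q2 - q1) / (B - 30)))) * A3 (alpha d)) := by
    have e : ((B : ℝ) - 30) *
        (((q2 - q1) / (B - 30) * b + (q1 - 30 * ((q2 - q1) / (B - 30)))) * A3 (alpha d)) =
        (B - b) * (q1 * A3 (alpha d)) + (b - 30) * (q2 * A3 (alpha d)) := by
      field_simp
      ring
    rw [e]
    linarith
  exact le_of_mul_le_mul_left h7 c1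

/-- **one interval**: the number of contacts -/
theorem int69 {d : ℝ} (hd : 0 < d) (hd2 : d ≤ 89 / 250) {t1 t2 x1 x2 al0 g Gc c2 r k e : ℝ}
    {lU mU l1 m1 l2 m2 : ℝ} {X S R1 R2 B : ℕ}
    (ht1 : t1 ≤ Real.tanh (d / 2)) (ht2 : Real.tanh (d / 2) ≤ t2)
    (hT : Tab69 t1 t2 x1 x2 al0 g Gc c2 r)
    (hB : 30 < B) (hX0 : 0 < X) (hX : X ≤ 10000) (hXx : (X : ℝ) / 10000 ≤ x1)
    (hS : (S : ℝ) / 10000000 ≤ 1 - ((X : ℝ) / 10000 / 6) ^ 2 / 2 -
      17320509 / 10000000 * ((X : ℝ) / 10000 / 6 - ((X : ℝ) / 10000 / 6) ^ 3 / 6 +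
        ((X : ℝ) / 10000 / 6) ^ 5 / 120))
    (hW1 : chkW52 X S 30 R1 = true) (hW2 : chkW52 X S B R2 = true)
    (hN : Cell69 6 x1 x2 al0 g Gc c2 r k e (((R2 : ℝ) / 100 - R1 / 100) / (B - 30))
      (R1 / 100 - 30 * (((R2 : ℝ) / 100 - R1 / 100) / (B - 30))) B lU mU l1 m1 l2 m2)
    (hk : k ≤ 3 / 50)
    {G : Tg ℍ} (hG : G.Geo4 (alpha d) kap (Ust69 d)) (hD : DelG G d) (hH : HullT G)
    (hSep : Sep d G.P) (hn : 98 ≤ G.P.card) (hR : Row69 6 G (alpha d))
    (hRB : (lU = 1 ∧ l1 = 1 ∧ l2 = 1) ∨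
      (G.P.card : ℝ) - G.oJ.card - cor G (alpha d) / 2 ≤ G.iI.card) :
    (G.D.filter (fun x => G.con x.1 x.2)).card ≤ 2 * Lb G.P.card := by
  obtain ⟨A, H, hup, hdis, _⟩ := dat69 hd hd2 hG hD hH hSep hn hR
  obtain ⟨b1, b2, b3, b4, b5, b6, b7⟩ := br69 hd hd2 ht1 ht2 hT
  have hA3 := A3_pos69 hd
  have hal := alpha_pos hd
  apply darts_of69 hd hG hn
  rcases Nat.lt_or_ge G.oJ.card 30 with hb | hb
  · refine small69 H rfl ?_ ?_ ?_
    · rw [div_le_iff₀ hal]
      have h1 := hN.kk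
      have h2 : k * al0 ≤ 3 / 50 * al0 := mul_le_mul_of_nonneg_right hk hN.al00.le
      linarith
    · have : G.oJ.card ≤ 29 := by omega
      exact_mod_cast this
    · have h1 := hup.trans (Ust69_mono d (show G.oJ.card ≤ 29 by omega))
      have h2 := Ust_zero52 hd (b := 29) (by norm_num)
      have h3 : ((r0_52 29 : ℕ) : ℝ) / 100 ≤ 154 := by
        have : r0_52 29 = 15396 := by decide
        rw [this]
        norm_num
      exact h1.trans (h2.trans (mul_le_mul_of_nonneg_right h3 hA3.le))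
  · have hx0 : (0 : ℝ) < (X : ℝ) / 10000 := by
      have : (0 : ℝ) < X := by exact_mod_cast hX0
      positivity
    have hx1 : (X : ℝ) / 10000 ≤ 1 := by
      have : (X : ℝ) ≤ 10000 := by exact_mod_cast hX
      linarith
    have hsx := sx_lb52 hx0.le hx1 hS
    have u1 := Ust_tab52 hd (b := 30) (by norm_num) hx0 (by linarith) (hXx.trans b1)
      (tabW52 hW1 (by norm_num) hX hsx)
    have u2 := Ust_tab52 hd (b := B) (by omega) hx0 (by linarith) (hXx.trans b1)
      (tabW52 hW2 (by omega) hX hsx)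
    refine cell69 hN H (by norm_num) hRB b1 b2 b3 (by exact_mod_cast hb) (fun hbB => ?_) hdis
      b6 b4 b5 (K7_45 hd hd2) b7
    exact chord69 hd u1 u2 hb (by exact_mod_cast hbB) hB hup

end

end Pool.Agent.PEN.E5
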