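import Pool.Agent.E5.Nf69

/-! # PENNY, all small diameters: the numerics of the row with sharp darts, the intervals below 17 / 100 -/

set_option autoImplicit false

namespace Pool.Agent.PEN.E5

open Classical UpperHalfPlane
open Pool.Agent.PEN.Cl

noncomputable section

/-- the number of contacts at one diameter -/
def CA69 (d : ℝ) : Prop := ∀ G : Tg ℍ, G.Geo4 (alpha d) kap (Ust69 d) → DelG G d → HullT G →
  Sep d G.P → 98 ≤ G.P.card → Row69 6 G (alpha d) →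
    (G.D.filter (fun x => G.con x.1 x.2)).card ≤ 2 * Lb G.P.card

theorem ia0_69 {d : ℝ} (hd : 0 < d) (hd2 : d ≤ 89 / 250)
    (h1 : 1497 / 20000 ≤ Real.tanh (d / 2)) (h2 : Real.tanh (d / 2) ≤ 3 / 40) : CA69 d := by
  intro G hG hD hH hS hn hR
  exact int69 hd hd2 (x1 := 607 / 62500) (x2 := 9753 / 1000000)
    (al0 := 104391 / 100000) (g := 2346 / 15625) (Gc := 385679 / 25000)
    (c2 := 105051 / 1000000) (r := 15563 / 500000)
    (k := 9343 / 1000000) (e := 9343 / 500000)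
    (lU := 1) (mU := 69567 / 10000) (l1 := 1) (m1 := 69567 / 10000)
    (l2 := 1) (m2 := 0)
    (X := 97) (S := 9971985) (R1 := 14804) (R2 := 108325) (B := 104) h1 h2
    (by constructor <;> norm_num) (by norm_num)
    (by norm_num) (by norm_num) (by norm_num) (by norm_num) (by decide +kernel)
    (by decide +kernel)
    (by refine ⟨?_, ?_, ?_, ?_, ?_, ⟨?_, ?_, ?_, ?_, ?_, ?_⟩, ?_, ?_, ⟨?_, ?_, ?_, ?_, ?_, ?_⟩, ?_, ?_,
      ⟨?_, ?_, ?_, ?_, ?_, ?_⟩, ?_, ?_⟩ <;> norm_num [Sl69, Kn69])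
    (by norm_num) hG hD hH hS hn hR (Or.inl ⟨rfl, rfl, rfl⟩)

theorem ia1_69 {d : ℝ} (hd : 0 < d) (hd2 : d ≤ 89 / 250)
    (h1 : 3 / 40 ≤ Real.tanh (d / 2)) (h2 : Real.tanh (d / 2) ≤ 7533 / 100000) : CA69 d := by
  intro G hG hD hH hS hn hR
  exact int69 hd hd2 (x1 := 9751 / 1000000) (x2 := 9839 / 1000000)
    (al0 := 26097 / 25000) (g := 75403 / 500000) (Gc := 1539631 / 100000)
    (c2 := 52757 / 500000) (r := 7793 / 250000)
    (k := 4713 / 500000) (e := 4713 / 250000)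
    (lU := 1) (mU := 69563 / 10000) (l1 := 1) (m1 := 69563 / 10000)
    (l2 := 1) (m2 := 0)
    (X := 97) (S := 9971985) (R1 := 14804) (R2 := 109758) (B := 105) h1 h2
    (by constructor <;> norm_num) (by norm_num)
    (by norm_num) (by norm_num) (by norm_num) (by norm_num) (by decide +kernel)
    (by decide +kernel)
    (by refine ⟨?_, ?_, ?_, ?_, ?_, ⟨?_, ?_, ?_, ?_, ?_, ?_⟩, ?_, ?_, ⟨?_, ?_, ?_, ?_, ?_, ?_⟩, ?_, ?_,
      ⟨?_, ?_, ?_, ?_, ?_, ?_⟩, ?_, ?_⟩ <;> norm_num [Sl69, Kn69])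
    (by norm_num) hG hD hH hS hn hR (Or.inl ⟨rfl, rfl, rfl⟩)

theorem ia2_69 {d : ℝ} (hd : 0 < d) (hd2 : d ≤ 89 / 250)
    (h1 : 7533 / 100000 ≤ Real.tanh (d / 2)) (h2 : Real.tanh (d / 2) ≤ 19 / 250) : CA69 d := by
  intro G hG hD hH hS hn hR
  exact int69 hd hd2 (x1 := 4919 / 500000) (x2 := 2003 / 200000)
    (al0 := 52191 / 50000) (g := 3043 / 20000) (Gc := 766443 / 50000)
    (c2 := 106453 / 1000000) (r := 3909 / 125000)
    (k := 1919 / 200000) (e := 1919 / 100000)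
    (lU := 1) (mU := 17389 / 2500) (l1 := 1) (m1 := 17389 / 2500)
    (l2 := 1) (m2 := 93 / 10000)
    (X := 98) (S := 9971696) (R1 := 14790) (R2 := 110833) (B := 106) h1 h2
    (by constructor <;> norm_num) (by norm_num)
    (by norm_num) (by norm_num) (by norm_num) (by norm_num) (by decide +kernel)
    (by decide +kernel)
    (by refine ⟨?_, ?_, ?_, ?_, ?_, ⟨?_, ?_, ?_, ?_, ?_, ?_⟩, ?_, ?_, ⟨?_, ?_, ?_, ?_, ?_, ?_⟩, ?_, ?_,
      ⟨?_, ?_, ?_, ?_, ?_, ?_⟩, ?_, ?_⟩ <;> norm_num [Sl69, Kn69])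
    (by norm_num) hG hD hH hS hn hR (Or.inl ⟨rfl, rfl, rfl⟩)

theorem ia3_69 {d : ℝ} (hd : 0 < d) (hd2 : d ≤ 89 / 250)
    (h1 : 19 / 250 ≤ Real.tanh (d / 2)) (h2 : Real.tanh (d / 2) ≤ 3853 / 50000) : CA69 d := by
  intro G hG hD hH hS hn hR
  exact int69 hd hd2 (x1 := 10013 / 1000000) (x2 := 10297 / 1000000)
    (al0 := 104373 / 100000) (g := 38569 / 250000) (Gc := 1519373 / 100000)
    (c2 := 107939 / 1000000) (r := 1259 / 40000)
    (k := 4933 / 500000) (e := 4933 / 250000)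
    (lU := 1) (mU := 69543 / 10000) (l1 := 1) (m1 := 69543 / 10000)
    (l2 := 1) (m2 := 457 / 5000)
    (X := 100) (S := 9971118) (R1 := 14762) (R2 := 110126) (B := 106) h1 h2
    (by constructor <;> norm_num) (by norm_num)
    (by norm_num) (by norm_num) (by norm_num) (by norm_num) (by decide +kernel)
    (by decide +kernel)
    (by refine ⟨?_, ?_, ?_, ?_, ?_, ⟨?_, ?_, ?_, ?_, ?_, ?_⟩, ?_, ?_, ⟨?_, ?_, ?_, ?_, ?_, ?_⟩, ?_, ?_,
      ⟨?_, ?_, ?_, ?_, ?_, ?_⟩, ?_, ?_⟩ <;> norm_num [Sl69, Kn69])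
    (by norm_num) hG hD hH hS hn hR (Or.inl ⟨rfl, rfl, rfl⟩)

theorem ia4_69 {d : ℝ} (hd : 0 < d) (hd2 : d ≤ 89 / 250)
    (h1 : 3853 / 50000 ≤ Real.tanh (d / 2)) (h2 : Real.tanh (d / 2) ≤ 246 / 3125) : CA69 d := by
  intro G hG hD hH hS hn hR
  exact int69 hd hd2 (x1 := 2059 / 200000) (x2 := 5373 / 500000)
    (al0 := 52179 / 50000) (g := 78803 / 500000) (Gc := 749237 / 50000)
    (c2 := 110267 / 1000000) (r := 15897 / 500000)
    (k := 5149 / 500000) (e := 5149 / 250000)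
    (lU := 1) (mU := 69523 / 10000) (l1 := 1) (m1 := 69523 / 10000)
    (l2 := 1) (m2 := 17 / 80)
    (X := 102) (S := 9970540) (R1 := 14734) (R2 := 110839) (B := 107) h1 h2
    (by constructor <;> norm_num) (by norm_num)
    (by norm_num) (by norm_num) (by norm_num) (by norm_num) (by decide +kernel)
    (by decide +kernel)
    (by refine ⟨?_, ?_, ?_, ?_, ?_, ⟨?_, ?_, ?_, ?_, ?_, ?_⟩, ?_, ?_, ⟨?_, ?_, ?_, ?_, ?_, ?_⟩, ?_, ?_,
      ⟨?_, ?_, ?_, ?_, ?_, ?_⟩, ?_, ?_⟩ <;> norm_num [Sl69, Kn69])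
    (by norm_num) hG hD hH hS hn hR (Or.inl ⟨rfl, rfl, rfl⟩)

theorem ia5_69 {d : ℝ} (hd : 0 < d) (hd2 : d ≤ 89 / 250)
    (h1 : 246 / 3125 ≤ Real.tanh (d / 2)) (h2 : Real.tanh (d / 2) ≤ 8129 / 100000) : CA69 d := by
  intro G hG hD hH hS hn hR
  exact int69 hd hd2 (x1 := 1343 / 125000) (x2 := 573 / 50000)
    (al0 := 52167 / 50000) (g := 162763 / 1000000) (Gc := 1466877 / 100000)
    (c2 := 113871 / 1000000) (r := 1009 / 31250)
    (k := 1373 / 125000) (e := 1373 / 62500)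
    (lU := 1) (mU := 17373 / 2500) (l1 := 1) (m1 := 17373 / 2500)
    (l2 := 1) (m2 := 1921 / 5000)
    (X := 107) (S := 9969095) (R1 := 14666) (R2 := 109142) (B := 107) h1 h2
    (by constructor <;> norm_num) (by norm_num)
    (by norm_num) (by norm_num) (by norm_num) (by norm_num) (by decide +kernel)
    (by decide +kernel)
    (by refine ⟨?_, ?_, ?_, ?_, ?_, ⟨?_, ?_, ?_, ?_, ?_, ?_⟩, ?_, ?_, ⟨?_, ?_, ?_, ?_, ?_, ?_⟩, ?_, ?_,
      ⟨?_, ?_, ?_, ?_, ?_, ?_⟩, ?_, ?_⟩ <;> norm_num [Sl69, Kn69])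
    (by norm_num) hG hD hH hS hn hR (Or.inl ⟨rfl, rfl, rfl⟩)

theorem ia6_69 {d : ℝ} (hd : 0 < d) (hd2 : d ≤ 89 / 250)
    (h1 : 8129 / 100000 ≤ Real.tanh (d / 2)) (h2 : Real.tanh (d / 2) ≤ 4259 / 50000) : CA69 d := by
  intro G hG hD hH hS hn hR
  exact int69 hd hd2 (x1 := 5729 / 500000) (x2 := 1573 / 125000)
    (al0 := 104297 / 100000) (g := 170571 / 1000000) (Gc := 1420503 / 100000)
    (c2 := 119327 / 1000000) (r := 33037 / 1000000)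
    (k := 6033 / 500000) (e := 6033 / 250000)
    (lU := 1) (mU := 34721 / 5000) (l1 := 1) (m1 := 34721 / 5000)
    (l2 := 1) (m2 := 6117 / 10000)
    (X := 114) (S := 9967073) (R1 := 14572) (R2 := 108243) (B := 108) h1 h2
    (by constructor <;> norm_num) (by norm_num)
    (by norm_num) (by norm_num) (by norm_num) (by norm_num) (by decide +kernel)
    (by decide +kernel)
    (by refine ⟨?_, ?_, ?_, ?_, ?_, ⟨?_, ?_, ?_, ?_, ?_, ?_⟩, ?_, ?_, ⟨?_, ?_, ?_, ?_, ?_, ?_⟩, ?_, ?_,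
      ⟨?_, ?_, ?_, ?_, ?_, ?_⟩, ?_, ?_⟩ <;> norm_num [Sl69, Kn69])
    (by norm_num) hG hD hH hS hn hR (Or.inl ⟨rfl, rfl, rfl⟩)

theorem ia7_69 {d : ℝ} (hd : 0 < d) (hd2 : d ≤ 89 / 250)
    (h1 : 4259 / 50000 ≤ Real.tanh (d / 2)) (h2 : Real.tanh (d / 2) ≤ 9089 / 100000) : CA69 d := by
  intro G hG hD hH hS hn hR
  exact int69 hd hd2 (x1 := 6291 / 500000) (x2 := 14331 / 1000000)
    (al0 := 52119 / 50000) (g := 45509 / 250000) (Gc := 677817 / 50000)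
    (c2 := 127337 / 1000000) (r := 34139 / 1000000)
    (k := 13749 / 1000000) (e := 13749 / 500000)
    (lU := 1) (mU := 13873 / 2000) (l1 := 1) (m1 := 13873 / 2000)
    (l2 := 1) (m2 := 8871 / 10000)
    (X := 125) (S := 9963893) (R1 := 14429) (R2 := 102394) (B := 106) h1 h2
    (by constructor <;> norm_num) (by norm_num)
    (by norm_num) (by norm_num) (by norm_num) (by norm_num) (by decide +kernel)
    (by decide +kernel)
    (by refine ⟨?_, ?_, ?_, ?_, ?_, ⟨?_, ?_, ?_, ?_, ?_, ?_⟩, ?_, ?_, ⟨?_, ?_, ?_, ?_, ?_, ?_⟩, ?_, ?_,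
      ⟨?_, ?_, ?_, ?_, ?_, ?_⟩, ?_, ?_⟩ <;> norm_num [Sl69, Kn69])
    (by norm_num) hG hD hH hS hn hR (Or.inl ⟨rfl, rfl, rfl⟩)

theorem ia8_69 {d : ℝ} (hd : 0 < d) (hd2 : d ≤ 89 / 250)
    (h1 : 9089 / 100000 ≤ Real.tanh (d / 2)) (h2 : Real.tanh (d / 2) ≤ 9881 / 100000) : CA69 d := by
  intro G hG hD hH hS hn hR
  exact int69 hd hd2 (x1 := 1791 / 125000) (x2 := 8471 / 500000)
    (al0 := 104151 / 100000) (g := 197949 / 1000000) (Gc := 1270473 / 100000)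
    (c2 := 2769 / 20000) (r := 7137 / 200000)
    (k := 16267 / 1000000) (e := 16267 / 500000)
    (lU := 1) (mU := 277 / 40) (l1 := 1) (m1 := 277 / 40)
    (l2 := 1) (m2 := 5881 / 5000)
    (X := 143) (S := 9958691) (R1 := 14206) (R2 := 90588) (B := 100) h1 h2
    (by constructor <;> norm_num) (by norm_num)
    (by norm_num) (by norm_num) (by norm_num) (by norm_num) (by decide +kernel)
    (by decide +kernel)
    (by refine ⟨?_, ?_, ?_, ?_, ?_, ⟨?_, ?_, ?_, ?_, ?_, ?_⟩, ?_, ?_, ⟨?_, ?_, ?_, ?_, ?_, ?_⟩, ?_, ?_,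
      ⟨?_, ?_, ?_, ?_, ?_, ?_⟩, ?_, ?_⟩ <;> norm_num [Sl69, Kn69])
    (by norm_num) hG hD hH hS hn hR (Or.inl ⟨rfl, rfl, rfl⟩)

theorem ia9_69 {d : ℝ} (hd : 0 < d) (hd2 : d ≤ 89 / 250)
    (h1 : 9881 / 100000 ≤ Real.tanh (d / 2)) (h2 : Real.tanh (d / 2) ≤ 5447 / 50000) : CA69 d := by
  intro G hG hD hH hS hn hR
  exact int69 hd hd2 (x1 := 8469 / 500000) (x2 := 20601 / 1000000)
    (al0 := 104029 / 100000) (g := 2729 / 12500) (Gc := 584323 / 50000)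
    (c2 := 4771 / 31250) (r := 37693 / 1000000)
    (k := 4951 / 250000) (e := 4951 / 125000)
    (lU := 1) (mU := 4318 / 625) (l1 := 1) (m1 := 4318 / 625)
    (l2 := 1) (m2 := 2859 / 2000)
    (X := 169) (S := 9951174) (R1 := 13906) (R2 := 74467) (B := 90) h1 h2
    (by constructor <;> norm_num) (by norm_num)
    (by norm_num) (by norm_num) (by norm_num) (by norm_num) (by decide +kernel)
    (by decide +kernel)
    (by refine ⟨?_, ?_, ?_, ?_, ?_, ⟨?_, ?_, ?_, ?_, ?_, ?_⟩, ?_, ?_, ⟨?_, ?_, ?_, ?_, ?_, ?_⟩, ?_, ?_,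
      ⟨?_, ?_, ?_, ?_, ?_, ?_⟩, ?_, ?_⟩ <;> norm_num [Sl69, Kn69])
    (by norm_num) hG hD hH hS hn hR (Or.inl ⟨rfl, rfl, rfl⟩)

theorem ia10_69 {d : ℝ} (hd : 0 < d) (hd2 : d ≤ 89 / 250)
    (h1 : 5447 / 50000 ≤ Real.tanh (d / 2)) (h2 : Real.tanh (d / 2) ≤ 2411 / 20000) : CA69 d := by
  intro G hG hD hH hS hn hR
  exact int69 hd hd2 (x1 := 5149 / 250000) (x2 := 12619 / 500000)
    (al0 := 831 / 800) (g := 7553 / 31250) (Gc := 211997 / 20000)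
    (c2 := 168981 / 1000000) (r := 40039 / 1000000)
    (k := 24297 / 1000000) (e := 24297 / 500000)
    (lU := 1) (mU := 13777 / 2000) (l1 := 1) (m1 := 13777 / 2000)
    (l2 := 1) (m2 := 16057 / 10000)
    (X := 205) (S := 9940763) (R1 := 13527) (R2 := 59682) (B := 80) h1 h2
    (by constructor <;> norm_num) (by norm_num)
    (by norm_num) (by norm_num) (by norm_num) (by norm_num) (by decide +kernel)
    (by decide +kernel)
    (by refine ⟨?_, ?_, ?_, ?_, ?_, ⟨?_, ?_, ?_, ?_, ?_, ?_⟩, ?_, ?_, ⟨?_, ?_, ?_, ?_, ?_, ?_⟩, ?_, ?_,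
      ⟨?_, ?_, ?_, ?_, ?_, ?_⟩, ?_, ?_⟩ <;> norm_num [Sl69, Kn69])
    (by norm_num) hG hD hH hS hn hR (Or.inl ⟨rfl, rfl, rfl⟩)

theorem ia11_69 {d : ℝ} (hd : 0 < d) (hd2 : d ≤ 89 / 250)
    (h1 : 2411 / 20000 ≤ Real.tanh (d / 2)) (h2 : Real.tanh (d / 2) ≤ 1323 / 10000) : CA69 d := by
  intro G hG hD hH hS hn hR
  exact int69 hd hd2 (x1 := 25231 / 1000000) (x2 := 15207 / 500000)
    (al0 := 51851 / 50000) (g := 66347 / 250000) (Gc := 957907 / 100000)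
    (c2 := 92749 / 500000) (r := 42431 / 1000000)
    (k := 29329 / 1000000) (e := 29329 / 500000)
    (lU := 1) (mU := 34329 / 5000) (l1 := 1) (m1 := 34329 / 5000)
    (l2 := 1) (m2 := 4251 / 2500)
    (X := 252) (S := 9927165) (R1 := 13086) (R2 := 49325) (B := 73) h1 h2
    (by constructor <;> norm_num) (by norm_num)
    (by norm_num) (by norm_num) (by norm_num) (by norm_num) (by decide +kernel)
    (by decide +kernel)
    (by refine ⟨?_, ?_, ?_, ?_, ?_, ⟨?_, ?_, ?_, ?_, ?_, ?_⟩, ?_, ?_, ⟨?_, ?_, ?_, ?_, ?_, ?_⟩, ?_, ?_,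
      ⟨?_, ?_, ?_, ?_, ?_, ?_⟩, ?_, ?_⟩ <;> norm_num [Sl69, Kn69])
    (by norm_num) hG hD hH hS hn hR (Or.inl ⟨rfl, rfl, rfl⟩)

theorem ia12_69 {d : ℝ} (hd : 0 < d) (hd2 : d ≤ 89 / 250)
    (h1 : 1323 / 10000 ≤ Real.tanh (d / 2)) (h2 : Real.tanh (d / 2) ≤ 14287 / 100000) : CA69 d := by
  intro G hG hD hH hS hn hR
  exact int69 hd hd2 (x1 := 6081 / 200000) (x2 := 35487 / 1000000)
    (al0 := 103533 / 100000) (g := 71683 / 250000) (Gc := 872841 / 100000)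
    (c2 := 12523 / 62500) (r := 22273 / 500000)
    (k := 34277 / 1000000) (e := 34277 / 500000)
    (lU := 1) (mU := 68437 / 10000) (l1 := 1) (m1 := 68437 / 10000)
    (l2 := 1) (m2 := 8697 / 5000)
    (X := 304) (S := 9912114) (R1 := 12655) (R2 := 42163) (B := 68) h1 h2
    (by constructor <;> norm_num) (by norm_num)
    (by norm_num) (by norm_num) (by norm_num) (by norm_num) (by decide +kernel)
    (by decide +kernel)
    (by refine ⟨?_, ?_, ?_, ?_, ?_, ⟨?_, ?_, ?_, ?_, ?_, ?_⟩, ?_, ?_, ⟨?_, ?_, ?_, ?_, ?_, ?_⟩, ?_, ?_,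
      ⟨?_, ?_, ?_, ?_, ?_, ?_⟩, ?_, ?_⟩ <;> norm_num [Sl69, Kn69])
    (by norm_num) hG hD hH hS hn hR (Or.inl ⟨rfl, rfl, rfl⟩)

theorem ia13_69 {d : ℝ} (hd : 0 < d) (hd2 : d ≤ 89 / 250)
    (h1 : 14287 / 100000 ≤ Real.tanh (d / 2)) (h2 : Real.tanh (d / 2) ≤ 3787 / 25000) : CA69 d := by
  intro G hG hD hH hS hn hR
  exact int69 hd hd2 (x1 := 17737 / 500000) (x2 := 4989 / 125000)
    (al0 := 51693 / 50000) (g := 152071 / 500000) (Gc := 808273 / 100000)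
    (c2 := 21249 / 100000) (r := 46199 / 1000000)
    (k := 7721 / 200000) (e := 7721 / 100000)
    (lU := 1) (mU := 17061 / 2500) (l1 := 1) (m1 := 17061 / 2500)
    (l2 := 1) (m2 := 8759 / 5000)
    (X := 354) (S := 9897635) (R1 := 12285) (R2 := 36970) (B := 64) h1 h2
    (by constructor <;> norm_num) (by norm_num)
    (by norm_num) (by norm_num) (by norm_num) (by norm_num) (by decide +kernel)
    (by decide +kernel)
    (by refine ⟨?_, ?_, ?_, ?_, ?_, ⟨?_, ?_, ?_, ?_, ?_, ?_⟩, ?_, ?_, ⟨?_, ?_, ?_, ?_, ?_, ?_⟩, ?_, ?_,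
      ⟨?_, ?_, ?_, ?_, ?_, ?_⟩, ?_, ?_⟩ <;> norm_num [Sl69, Kn69])
    (by norm_num) hG hD hH hS hn hR (Or.inl ⟨rfl, rfl, rfl⟩)

theorem ia14_69 {d : ℝ} (hd : 0 < d) (hd2 : d ≤ 89 / 250)
    (h1 : 3787 / 25000 ≤ Real.tanh (d / 2)) (h2 : Real.tanh (d / 2) ≤ 79 / 500) : CA69 d := by
  intro G hG hD hH hS hn hR
  exact int69 hd hd2 (x1 := 7979 / 200000) (x2 := 43437 / 1000000)
    (al0 := 25817 / 25000) (g := 158671 / 500000) (Gc := 381169 / 50000)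
    (c2 := 110837 / 500000) (r := 2369 / 50000)
    (k := 42063 / 1000000) (e := 42063 / 500000)
    (lU := 1) (mU := 68091 / 10000) (l1 := 1) (m1 := 68091 / 10000)
    (l2 := 1) (m2 := 351 / 200)
    (X := 398) (S := 9884888) (R1 := 11990) (R2 := 34802) (B := 63) h1 h2
    (by constructor <;> norm_num) (by norm_num)
    (by norm_num) (by norm_num) (by norm_num) (by norm_num) (by decide +kernel)
    (by decide +kernel)
    (by refine ⟨?_, ?_, ?_, ?_, ?_, ⟨?_, ?_, ?_, ?_, ?_, ?_⟩, ?_, ?_, ⟨?_, ?_, ?_, ?_, ?_, ?_⟩, ?_, ?_,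
      ⟨?_, ?_, ?_, ?_, ?_, ?_⟩, ?_, ?_⟩ <;> norm_num [Sl69, Kn69])
    (by norm_num) hG hD hH hS hn hR (Or.inl ⟨rfl, rfl, rfl⟩)

theorem ia15_69 {d : ℝ} (hd : 0 < d) (hd2 : d ≤ 89 / 250)
    (h1 : 79 / 500 ≤ Real.tanh (d / 2)) (h2 : Real.tanh (d / 2) ≤ 16269 / 100000) : CA69 d := by
  intro G hG hD hH hS hn hR
  exact int69 hd hd2 (x1 := 21709 / 500000) (x2 := 46067 / 1000000)
    (al0 := 103181 / 100000) (g := 65369 / 200000) (Gc := 146177 / 20000)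
    (c2 := 228283 / 1000000) (r := 48179 / 1000000)
    (k := 44647 / 1000000) (e := 44647 / 500000)
    (lU := 1) (mU := 67977 / 10000) (l1 := 1) (m1 := 67977 / 10000)
    (l2 := 1) (m2 := 17563 / 10000)
    (X := 434) (S := 9874454) (R1 := 11767) (R2 := 33082) (B := 62) h1 h2
    (by constructor <;> norm_num) (by norm_num)
    (by norm_num) (by norm_num) (by norm_num) (by norm_num) (by decide +kernel)
    (by decide +kernel)
    (by refine ⟨?_, ?_, ?_, ?_, ?_, ⟨?_, ?_, ?_, ?_, ?_, ?_⟩, ?_, ?_, ⟨?_, ?_, ?_, ?_, ?_, ?_⟩, ?_, ?_,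
      ⟨?_, ?_, ?_, ?_, ?_, ?_⟩, ?_, ?_⟩ <;> norm_num [Sl69, Kn69])
    (by norm_num) hG hD hH hS hn hR (Or.inl ⟨rfl, rfl, rfl⟩)

theorem ia16_69 {d : ℝ} (hd : 0 < d) (hd2 : d ≤ 89 / 250)
    (h1 : 16269 / 100000 ≤ Real.tanh (d / 2)) (h2 : Real.tanh (d / 2) ≤ 4149 / 25000) : CA69 d := by
  intro G hG hD hH hS hn hR
  exact int69 hd hd2 (x1 := 23023 / 500000) (x2 := 47947 / 1000000)
    (al0 := 51559 / 50000) (g := 13339 / 40000) (Gc := 354909 / 50000)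
    (c2 := 232893 / 1000000) (r := 9741 / 200000)
    (k := 23249 / 500000) (e := 23249 / 250000)
    (lU := 1) (mU := 8487 / 1250) (l1 := 1) (m1 := 8487 / 1250)
    (l2 := 1) (m2 := 17573 / 10000)
    (X := 460) (S := 9866916) (R1 := 11615) (R2 := 32421) (B := 62) h1 h2
    (by constructor <;> norm_num) (by norm_num)
    (by norm_num) (by norm_num) (by norm_num) (by norm_num) (by decide +kernel)
    (by decide +kernel)
    (by refine ⟨?_, ?_, ?_, ?_, ?_, ⟨?_, ?_, ?_, ?_, ?_, ?_⟩, ?_, ?_, ⟨?_, ?_, ?_, ?_, ?_, ?_⟩, ?_, ?_,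
      ⟨?_, ?_, ?_, ?_, ?_, ?_⟩, ?_, ?_⟩ <;> norm_num [Sl69, Kn69])
    (by norm_num) hG hD hH hS hn hR (Or.inl ⟨rfl, rfl, rfl⟩)

theorem ia17_69 {d : ℝ} (hd : 0 < d) (hd2 : d ≤ 89 / 250)
    (h1 : 4149 / 25000 ≤ Real.tanh (d / 2)) (h2 : Real.tanh (d / 2) ≤ 16819 / 100000) : CA69 d := by
  intro G hG hD hH hS hn hR
  exact int69 hd hd2 (x1 := 11981 / 250000) (x2 := 197 / 4000)
    (al0 := 4123 / 4000) (g := 168999 / 500000) (Gc := 139167 / 20000)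
    (c2 := 236037 / 1000000) (r := 49049 / 1000000)
    (k := 47781 / 1000000) (e := 47781 / 500000)
    (lU := 1) (mU := 848 / 125) (l1 := 1) (m1 := 848 / 125)
    (l2 := 1) (m2 := 8791 / 5000)
    (X := 479) (S := 9861407) (R1 := 11508) (R2 := 31965) (B := 62) h1 h2
    (by constructor <;> norm_num) (by norm_num)
    (by norm_num) (by norm_num) (by norm_num) (by norm_num) (by decide +kernel)
    (by decide +kernel)
    (by refine ⟨?_, ?_, ?_, ?_, ?_, ⟨?_, ?_, ?_, ?_, ?_, ?_⟩, ?_, ?_, ⟨?_, ?_, ?_, ?_, ?_, ?_⟩, ?_, ?_,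
      ⟨?_, ?_, ?_, ?_, ?_, ?_⟩, ?_, ?_⟩ <;> norm_num [Sl69, Kn69])
    (by norm_num) hG hD hH hS hn hR (Or.inl ⟨rfl, rfl, rfl⟩)

theorem ia18_69 {d : ℝ} (hd : 0 < d) (hd2 : d ≤ 89 / 250)
    (h1 : 16819 / 100000 ≤ Real.tanh (d / 2)) (h2 : Real.tanh (d / 2) ≤ 2121 / 12500) : CA69 d := by
  intro G hG hD hH hS hn hR
  exact int69 hd hd2 (x1 := 49227 / 1000000) (x2 := 12533 / 250000)
    (al0 := 20609 / 20000) (g := 170511 / 500000) (Gc := 686611 / 100000)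
    (c2 := 238139 / 1000000) (r := 6159 / 125000)
    (k := 48651 / 1000000) (e := 48651 / 500000)
    (lU := 1) (mU := 67801 / 10000) (l1 := 1) (m1 := 67801 / 10000)
    (l2 := 1) (m2 := 17589 / 10000)
    (X := 492) (S := 9857637) (R1 := 11437) (R2 := 31664) (B := 62) h1 h2
    (by constructor <;> norm_num) (by norm_num)
    (by norm_num) (by norm_num) (by norm_num) (by norm_num) (by decide +kernel)
    (by decide +kernel)
    (by refine ⟨?_, ?_, ?_, ?_, ?_, ⟨?_, ?_, ?_, ?_, ?_, ?_⟩, ?_, ?_, ⟨?_, ?_, ?_, ?_, ?_, ?_⟩, ?_, ?_,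
      ⟨?_, ?_, ?_, ?_, ?_, ?_⟩, ?_, ?_⟩ <;> norm_num [Sl69, Kn69])
    (by norm_num) hG hD hH hS hn hR (Or.inl ⟨rfl, rfl, rfl⟩)

theorem ia19_69 {d : ℝ} (hd : 0 < d) (hd2 : d ≤ 89 / 250)
    (h1 : 2121 / 12500 ≤ Real.tanh (d / 2)) (h2 : Real.tanh (d / 2) ≤ 851 / 5000) : CA69 d := by
  intro G hG hD hH hS hn hR
  exact int69 hd hd2 (x1 := 50107 / 1000000) (x2 := 50441 / 1000000)
    (al0 := 20607 / 20000) (g := 342077 / 1000000) (Gc := 340291 / 50000)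
    (c2 := 29859 / 125000) (r := 6177 / 125000)
    (k := 12239 / 250000) (e := 12239 / 125000)
    (lU := 1) (mU := 16947 / 2500) (l1 := 1) (m1 := 16947 / 2500)
    (l2 := 1) (m2 := 4381 / 2500)
    (X := 501) (S := 9855026) (R1 := 11389) (R2 := 31462) (B := 62) h1 h2
    (by constructor <;> norm_num) (by norm_num)
    (by norm_num) (by norm_num) (by norm_num) (by norm_num) (by decide +kernel)
    (by decide +kernel)
    (by refine ⟨?_, ?_, ?_, ?_, ?_, ⟨?_, ?_, ?_, ?_, ?_, ?_⟩, ?_, ?_, ⟨?_, ?_, ?_, ?_, ?_, ?_⟩, ?_, ?_,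
      ⟨?_, ?_, ?_, ?_, ?_, ?_⟩, ?_, ?_⟩ <;> norm_num [Sl69, Kn69])
    (by norm_num) hG hD hH hS hn hR (Or.inl ⟨rfl, rfl, rfl⟩)

end

end Pool.Agent.PEN.E5
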