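import Mathlib

/-! # PENNY, all small diameters: numerics of the face table (row R14, helper61)

Parameters `θ, y, Λ` with `3θ = y + 2`, `3 + y ≤ Λ`, `1 ≤ θ ≤ 6/5`. A disc face has `m` sides, `U` units,
mass `Γ = 4m - 6 - U`, `q = U - 2m` extra units. `w` weak sides (price `2 + 2θ` each at most),
`c` extra units at centres (price `θ` each). -/

set_option autoImplicit false

namespace Pool.Agent.PEN.E5

/-- an affine function nonnegative at both ends is nonnegative between -/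
theorem affine61 {A B t a b : ℝ} (ha : 0 ≤ A + B * a) (hb : 0 ≤ A + B * b) (h1 : a ≤ t) (h2 : t ≤ b) :
    0 ≤ A + B * t := by
  rcases le_total 0 B with h | h
  · nlinarith [mul_le_mul_of_nonneg_left h1 h]
  · nlinarith [mul_le_mul_of_nonneg_left h2 (neg_nonneg.2 h)]

/-- the two integer inequalities behind the table (`θ = 1` and `θ = 6/5`) -/
theorem disc_int61 {m U Γ w c q : ℕ} (hm : 5 ≤ m) (hG : U + Γ + 6 = 4 * m) (hq : U = 2 * m + q)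
    (hΓ : 1 ≤ Γ) (h5 : m = 5 → U ≤ 12) (hG1 : Γ = 1 → w = 0 ∧ c = 0)
    (hw : w + 2 ≤ 2 * Γ ∨ w = 0 ∨ (w = m ∧ m + 1 ≤ 2 * Γ)) (hwm : w ≤ m) (hc : c ≤ q)
    (hcw : m ≤ w + 1 → c = 0) (hc2 : w + 2 = 2 * Γ → w + 2 ≠ m → c = 0)
    (hc1 : Γ = 2 → w = 1 → c + 4 ≤ m)
    (e1 : ¬ (m = 5 ∧ (U = 11 ∨ U = 12))) (e2 : ¬ (m = 6 ∧ U = 17))
    (e3 : ¬ (m = 6 ∧ U = 16 ∧ w = 2)) (e4 : ¬ (m = 6 ∧ U = 15 ∧ w = 4))
    (e5 : ¬ (m = 7 ∧ U = 18 ∧ w = 7)) :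
    4 * w + c + 30 ≤ 9 * Γ + 3 * m ∧ 22 * w + 6 * c + 172 ≤ 46 * Γ + 20 * m := by
  have hU : U = 4 * m - 6 - Γ := by omega
  subst hU
  have hq' : q + Γ + 6 = 2 * m := by omega
  clear hq hG
  rcases Nat.lt_or_ge m 8 with h8 | h8
  · have hΓ2 : Γ ≤ 8 := by omega
    interval_cases m <;> interval_cases Γ <;> omega
  · clear e1 e2 e3 e4 e5 h5
    rcases Nat.lt_or_ge Γ 5 with h | h
    · interval_cases Γ <;> omega
    · rcases hw with hw | hw | hw <;> omega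

/-- **R14, discs.** All disc faces except P12, P11, H17, H16 with two weak sides, H15 with four weak
sides, K18 with seven weak sides are paid by their own slack. -/
theorem disc_table61 {θ y Λ : ℝ} (hy : 3 * θ = y + 2) (hΛ : 3 + y ≤ Λ) (h1 : 1 ≤ θ) (h2 : θ ≤ 6 / 5)
    {m U Γ w c q : ℕ} (hm : 5 ≤ m) (hG : U + Γ + 6 = 4 * m) (hq : U = 2 * m + q)
    (hΓ : 1 ≤ Γ) (h5 : m = 5 → U ≤ 12) (hG1 : Γ = 1 → w = 0 ∧ c = 0)
    (hw : w + 2 ≤ 2 * Γ ∨ w = 0 ∨ (w = m ∧ m + 1 ≤ 2 * Γ)) (hwm : w ≤ m) (hc : c ≤ q)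
    (hcw : m ≤ w + 1 → c = 0) (hc2 : w + 2 = 2 * Γ → w + 2 ≠ m → c = 0)
    (hc1 : Γ = 2 → w = 1 → c + 4 ≤ m)
    (e1 : ¬ (m = 5 ∧ (U = 11 ∨ U = 12))) (e2 : ¬ (m = 6 ∧ U = 17))
    (e3 : ¬ (m = 6 ∧ U = 16 ∧ w = 2)) (e4 : ¬ (m = 6 ∧ U = 15 ∧ w = 4))
    (e5 : ¬ (m = 7 ∧ U = 18 ∧ w = 7)) :
    (2 + 2 * θ) * w + θ * c ≤
      (3 + 4 * θ + Λ - 2 * y) * (5 * (m : ℝ) - 12 - U) - (4 + 5 * θ - 3 * y) * ((m : ℝ) - 4) := by
  obtain ⟨i1, i2⟩ := disc_int61 hm hG hq hΓ h5 hG1 hw hwm hc hcw hc2 hc1 e1 e2 e3 e4 e5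
  have i1' : (4 : ℝ) * w + c + 30 ≤ 9 * Γ + 3 * m := by exact_mod_cast i1
  have i2' : (22 : ℝ) * w + 6 * c + 172 ≤ 46 * Γ + 20 * m := by exact_mod_cast i2
  have hG' : (U : ℝ) + Γ + 6 = 4 * m := by exact_mod_cast hG
  have hm' : (5 : ℝ) ≤ m := by exact_mod_cast hm
  have hΓ' : (1 : ℝ) ≤ Γ := by exact_mod_cast hΓ
  have hU : (U : ℝ) = 4 * m - 6 - Γ := by linarith
  have key := affine61 (A := 8 * Γ - 2 * m - 8 - 2 * w) (B := (Γ : ℝ) + 5 * m - 22 - 2 * w - c)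
    (t := θ) (a := 1) (b := 6 / 5) (by linarith) (by linarith) h1 h2
  have hd : 0 ≤ (Λ - 3 - y) * ((Γ : ℝ) + m - 6) :=
    mul_nonneg (by linarith) (by linarith)
  obtain rfl : y = 3 * θ - 2 := by linarith
  rw [hU]
  nlinarith [key, hd]

/-- **R14, non discs** (`|cI| ≥ 2 |cT|`): `I = |cI|`, `T = |cT|`, `J = |cJ| = 3T - I`; the slack pays
`2 + 2θ` for every weak side and still has `P - Q = 5θ - 2 + (Λ - 3 - y)` for every side. -/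
theorem nondisc61 {θ y Λ : ℝ} (hy : 3 * θ = y + 2) (hΛ : 3 + y ≤ Λ) (h1 : 2 / 3 ≤ θ) (h2 : θ ≤ 4 / 3)
    {I T J U w : ℝ} (hJ : J = 3 * T - I) (hI : 2 * T ≤ I) (hw0 : 0 ≤ w)
    (hw : w ≤ 2 * (J + 3 * T - U)) (_hJ0 : 0 ≤ J) :
    (2 + 2 * θ) * w + (5 * θ - 2 + (Λ - 3 - y)) * J ≤
      (3 + 4 * θ + Λ - 2 * y) * (I + 3 * T - U) - (4 + 5 * θ - 3 * y) * (I - T) := by
  obtain rfl : y = 3 * θ - 2 := by linarith
  have hTJ : 0 ≤ T - J := by linarith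
  have hka : w / 2 + I - J ≤ I + 3 * T - U := by linarith
  have hP : 0 ≤ 3 + 4 * θ + Λ - 2 * (3 * θ - 2) := by nlinarith
  have e1 := mul_le_mul_of_nonneg_left hka hP
  have e2 : 0 ≤ (Λ - 3 - (3 * θ - 2)) * (T - J) := mul_nonneg (by linarith) hTJ
  have e3 : 0 ≤ (5 * θ - 2) * (T - J) := mul_nonneg (by linarith) hTJ
  have e4 : 0 ≤ (4 - 3 * θ) * w := mul_nonneg (by linarith) hw0
  have e5 : 0 ≤ (Λ - 3 - (3 * θ - 2)) * w := mul_nonneg (by linarith) hw0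
  have hIJ : I = 3 * T - J := by linarith
  subst hIJ
  nlinarith [e1, e2, e3, e4, e5]

end Pool.Agent.PEN.E5
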