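import Pool.Agent.E5.SkD89

/-! # PENNY: the boundary of a disc face is one cycle (helper61)

For an inner class `C` with `|cI C| + 2 ≤ 2 |cT C|` (the dual graph is a tree) every nonempty set of
contact darts of `C` which is closed under `sg` is all of `cJ C`. -/

set_option autoImplicit false

namespace Pool.Agent.PEN.E5

open Classical UpperHalfPlane
open Pool.Agent.PEN.Cl

noncomputable section

variable {V : Type} (G : Tg V) {al : ℝ} {kp : V → V → ℝ} {U : ℕ → ℝ}

/-- the triangles of a nonempty class are the vertices of the component -/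
theorem mem_cT61 {C : G.adj.ConnectedComponent} {s : Finset V} (hs : s ∈ G.cT C) (t : Finset V) :
    t ∈ G.cT C ↔ G.adj.connectedComponentMk t = C := by
  have hT : ∀ t, t ∈ G.cT C ↔ ∃ x ∈ G.Dp, G.cl x = C ∧ G.tri x = t := by
    intro t
    unfold Tg.cT
    rw [Finset.mem_image]
    constructor
    · rintro ⟨x, hx, h⟩
      rw [Finset.mem_filter] at hx
      exact ⟨x, hx.1, hx.2, h⟩
    · rintro ⟨x, hx, h, h'⟩
      exact ⟨x, Finset.mem_filter.2 ⟨hx, h⟩, h'⟩
  have hmk : ∀ t ∈ G.cT C, G.adj.connectedComponentMk t = C := by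
    intro t ht
    obtain ⟨x, _, h, rfl⟩ := (hT t).1 ht
    exact h
  refine ⟨hmk t, fun h => ?_⟩
  have h1 : G.adj.Reachable t s := SimpleGraph.ConnectedComponent.exact (h.trans (hmk s hs).symm)
  obtain ⟨p⟩ := h1
  cases p with
  | nil => exact hs
  | cons hadj _ =>
    obtain ⟨_, a, b, h2, h3, h4, h5, h6⟩ := hadj
    rw [hT]
    refine ⟨(a, b), h2, ?_, h5⟩
    unfold Tg.cl
    rw [h5]
    exact h

/-- an adjacency inside a class comes from an inner dart of the class -/
theorem adj_cI61 {C : G.adj.ConnectedComponent} {s t : Finset V} (h : G.adj.Adj s t)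
    (hs : G.adj.connectedComponentMk s = C) :
    ∃ x ∈ G.cI C, G.tri x = s ∧ G.tri (x.2, x.1) = t := by
  obtain ⟨_, a, b, h2, h3, h4, h5, h6⟩ := h
  refine ⟨(a, b), ?_, h5, h6⟩
  unfold Tg.cI
  rw [Finset.mem_filter]
  refine ⟨h2, ?_, h4, h3⟩
  unfold Tg.cl
  rw [h5]
  exact hs

/-- the adjacency of an inner dart -/
theorem cI_adj61 {C : G.adj.ConnectedComponent} {x : V × V} (hx : x ∈ G.cI C) :
    G.adj.Adj (G.tri x) (G.tri (x.2, x.1)) := by
  have h1 := ((mem_cD66 G).1 (cI_sub11 G hx)).1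
  have h2 := cI_swap11 G hx
  exact ⟨tri_swap66 G h1 h2, x.1, x.2, h1, h2, cI_ncon11 G hx, rfl, rfl⟩

/-- in a tree the inner dart is determined by its two triangles -/
theorem cI_inj61 {C : G.adj.ConnectedComponent} (hd : (G.cI C).card + 2 ≤ 2 * (G.cT C).card)
    {x y : V × V} (hx : x ∈ G.cI C) (hy : y ∈ G.cI C) (h1 : G.tri x = G.tri y)
    (h2 : G.tri (x.2, x.1) = G.tri (y.2, y.1)) : x = y := by
  by_contra hne
  have hs := mem_cT66 G (cI_sub11 G hx)
  have h3 := comp_edges66 G.adj C (G.cT C) (mem_cT61 G hs)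
    (((G.cI C).erase x).image fun z => (G.tri z, G.tri (z.2, z.1))) (by
      intro s t hst hsC
      obtain ⟨z, hz, hz1, hz2⟩ := adj_cI61 G hst hsC
      rw [Finset.mem_image]
      by_cases hzx : z = x
      · subst hzx
        exact ⟨y, Finset.mem_erase.2 ⟨fun h => hne h.symm, hy⟩, by rw [← h1, ← h2, hz1, hz2]⟩
      · exact ⟨z, Finset.mem_erase.2 ⟨hzx, hz⟩, by rw [hz1, hz2]⟩)
  have h4 := Finset.card_image_le (s := (G.cI C).erase x)
    (f := fun z => (G.tri z, G.tri (z.2, z.1)))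
  have h5 := Finset.card_erase_of_mem hx
  have h6 := Finset.card_pos.2 ⟨x, hx⟩
  omega

/-- in a tree every inner edge is a bridge -/
theorem bridge61 {C : G.adj.ConnectedComponent} (hd : (G.cI C).card + 2 ≤ 2 * (G.cT C).card)
    {x : V × V} (hx : x ∈ G.cI C) :
    ∃ A : Finset V → Prop, A (G.tri x) ∧ ¬ A (G.tri (x.2, x.1)) ∧
      ∀ y ∈ G.cI C, y ≠ x → A (G.tri y) → y ≠ (x.2, x.1) → A (G.tri (y.2, y.1)) := by
  have hs := mem_cT66 G (cI_sub11 G hx)
  have hx' := swap_cD66 G hx
  set t1 := G.tri x with ht1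
  set t2 := G.tri (x.2, x.1) with ht2
  have hne : t1 ≠ t2 := (cI_adj61 G hx).1
  set H : SimpleGraph (Finset V) := G.adj.deleteEdges {s(t1, t2)} with hH
  have hHadj : ∀ s t, H.Adj s t ↔ G.adj.Adj s t ∧ s(s, t) ≠ s(t1, t2) := by
    intro s t
    rw [hH, SimpleGraph.deleteEdges_adj]
    simp
  have hno : ¬ H.Reachable t1 t2 := by
    intro hr
    -- then `H` is connected on the class
    have hstep : ∀ s t, G.adj.Adj s t → H.Reachable s t := by
      intro s t hst
      by_cases he : s(s, t) = s(t1, t2)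
      · rw [Sym2.eq_iff] at he
        rcases he with ⟨rfl, rfl⟩ | ⟨rfl, rfl⟩
        · exact hr
        · exact hr.symm
      · exact ((hHadj s t).2 ⟨hst, he⟩).reachable
    have hreach : ∀ s t, G.adj.Reachable s t → H.Reachable s t := by
      rintro s t ⟨p⟩
      induction p with
      | nil => exact SimpleGraph.Reachable.refl _
      | cons hadj _ ih => exact (hstep _ _ hadj).trans ih
    have hle : ∀ s t, H.Reachable s t → G.adj.Reachable s t := by
      intro s t h
      exact h.mono (SimpleGraph.deleteEdges_le _)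
    have hcc : ∀ t, t ∈ G.cT C ↔ H.connectedComponentMk t = H.connectedComponentMk t1 := by
      intro t
      rw [mem_cT61 G hs t]
      have hC : G.adj.connectedComponentMk t1 = C := (mem_cT61 G hs t1).1 hs
      constructor
      · intro h
        exact SimpleGraph.ConnectedComponent.sound
          (hreach _ _ (SimpleGraph.ConnectedComponent.exact (h.trans hC.symm)))
      · intro h
        rw [← hC]
        exact SimpleGraph.ConnectedComponent.sound
          (hle _ _ (SimpleGraph.ConnectedComponent.exact h))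
    have h3 := comp_edges66 H (H.connectedComponentMk t1) (G.cT C) hcc
      ((((G.cI C).erase x).erase (x.2, x.1)).image fun z => (G.tri z, G.tri (z.2, z.1))) (by
        intro s t hst hsC
        obtain ⟨h4, h5⟩ := (hHadj s t).1 hst
        have hsC' : G.adj.connectedComponentMk s = C := (mem_cT61 G hs s).1 ((hcc s).2 hsC)
        obtain ⟨z, hz, hz1, hz2⟩ := adj_cI61 G h4 hsC'
        rw [Finset.mem_image]
        refine ⟨z, Finset.mem_erase.2 ⟨?_, Finset.mem_erase.2 ⟨?_, hz⟩⟩, by rw [hz1, hz2]⟩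
        · rintro rfl
          apply h5
          rw [← hz1, ← hz2, Sym2.eq_iff]
          exact Or.inr ⟨rfl, rfl⟩
        · rintro rfl
          apply h5
          rw [← hz1, ← hz2])
    have h4 := Finset.card_image_le (s := ((G.cI C).erase x).erase (x.2, x.1))
      (f := fun z => (G.tri z, G.tri (z.2, z.1)))
    have hxx : (x.2, x.1) ≠ x := by
      intro h
      exact G.ne _ _ (G.sub ((mem_cD66 G).1 (cI_sub11 G hx)).1) (congrArg Prod.snd h)
    have h5 := Finset.card_erase_of_mem (Finset.mem_erase.2 ⟨hxx, hx'⟩)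
    have h6 := Finset.card_erase_of_mem hx
    have h7 := Finset.card_pos.2 ⟨_, Finset.mem_erase.2 ⟨hxx, hx'⟩⟩
    omega
  refine ⟨fun t => H.Reachable t1 t, SimpleGraph.Reachable.refl _, hno, ?_⟩
  intro y hy hyx hA hyx'
  refine hA.trans ?_
  refine ((hHadj _ _).2 ⟨cI_adj61 G hy, ?_⟩).reachable
  intro he
  rw [Sym2.eq_iff] at he
  rcases he with ⟨h1, h2⟩ | ⟨h1, h2⟩
  · exact hyx (cI_inj61 G hd hy hx h1 h2)
  · exact hyx' (cI_inj61 G hd hy hx' h1 h2)

/-- sums over a set of darts closed under rotation -/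
theorem rot_sumD61 {S : Finset (V × V)} (hS : S ⊆ G.Dp)
    (hrot : ∀ x ∈ S, (x.2, G.ap x.1 x.2) ∈ S) (f : V × V → ℤ) :
    ∑ x ∈ S, f (x.2, G.ap x.1 x.2) = ∑ x ∈ S, f x := by
  have hinj : Set.InjOn (fun x : V × V => (x.2, G.ap x.1 x.2)) (S : Set (V × V)) := by
    intro x hx y hy h
    have h1 := G.ap3 _ _ (hS (Finset.mem_coe.1 hx))
    have h2 := G.ap3 _ _ (hS (Finset.mem_coe.1 hy))
    simp only [Prod.mk.injEq] at h
    refine Prod.ext ?_ h.1
    rw [← h1, ← h2, h.2, h.1]
  have himg : S.image (fun x : V × V => (x.2, G.ap x.1 x.2)) = S := by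
    apply Finset.eq_of_subset_of_card_le
    · intro z hz
      obtain ⟨x, hx, rfl⟩ := Finset.mem_image.1 hz
      exact hrot x hx
    · rw [Finset.card_image_of_injOn hinj]
  have e := Finset.sum_image (s := S) (g := fun x : V × V => (x.2, G.ap x.1 x.2)) (f := f) hinj
  rw [himg] at e
  exact e.symm

/-- an antisymmetric function on a set of inner darts closed under the swap has sum zero -/
theorem swap_sum61 {S : Finset (V × V)} (hsw : ∀ x ∈ S, (x.2, x.1) ∈ S) (f : V × V → ℤ)
    (hf : ∀ x ∈ S, f (x.2, x.1) = - f x) : ∑ x ∈ S, f x = 0 := by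
  have hinj : Set.InjOn (fun x : V × V => (x.2, x.1)) (S : Set (V × V)) := by
    intro x _ y _ h
    simp only [Prod.mk.injEq] at h
    exact Prod.ext h.2 h.1
  have himg : S.image (fun x : V × V => (x.2, x.1)) = S := by
    apply Finset.eq_of_subset_of_card_le
    · intro z hz
      obtain ⟨x, hx, rfl⟩ := Finset.mem_image.1 hz
      exact hsw x hx
    · rw [Finset.card_image_of_injOn hinj]
  have e := Finset.sum_image (s := S) (g := fun x : V × V => (x.2, x.1)) (f := f) hinj
  rw [himg, Finset.sum_congr rfl hf, Finset.sum_neg_distrib] at e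
  omega

/-- **the boundary of a disc face is one cycle** -/
theorem one_orbit61 (hG : G.Geo4 al kp U) {C : G.adj.ConnectedComponent} (hC : C ∈ G.iC)
    (hd : (G.cI C).card + 2 ≤ 2 * (G.cT C).card) {F : Finset (V × V)} (hF : F ⊆ G.cJ C)
    (hne : F.Nonempty) (hcl : ∀ x ∈ F, sg G x ∈ F) : F = G.cJ C := by
  -- membership facts
  have hB : G.cB C = ∅ := by
    unfold Tg.iC at hC
    obtain ⟨y, hy, rfl⟩ := Finset.mem_image.1 hC
    exact ((mem_iD27 G).1 hy).2
  have hinn : ∀ x ∈ G.cD C, G.inn x := by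
    intro x hx
    obtain ⟨h1, h2⟩ := (mem_cD66 G).1 hx
    exact ⟨h1, by rw [h2]; exact hB⟩
  have hJ : ∀ x, x ∈ G.cJ C ↔ x ∈ G.cD C ∧ G.con x.1 x.2 := by
    intro x
    rw [mem_cD66]
    unfold Tg.cJ
    rw [Finset.mem_filter]
    tauto
  have hJi : ∀ x ∈ G.cJ C, x ∈ iJ G := fun x hx =>
    (mem_iJ71 G).2 ⟨hinn x ((hJ x).1 hx).1, ((hJ x).1 hx).2⟩
  -- `F` is invariant in both directions
  have hinjF : Set.InjOn (sg G) (F : Set (V × V)) := fun x hx y hy h =>
    W4.sg_inj51 G hG (hJi x (hF (Finset.mem_coe.1 hx))) (hJi y (hF (Finset.mem_coe.1 hy))) h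
  have himg : F.image (sg G) = F := by
    apply Finset.eq_of_subset_of_card_le
    · intro z hz
      obtain ⟨x, hx, rfl⟩ := Finset.mem_image.1 hz
      exact hcl x hx
    · rw [Finset.card_image_of_injOn hinjF]
  have hback : ∀ x ∈ G.cJ C, sg G x ∈ F → x ∈ F := by
    intro x hx h
    rw [← himg] at h
    obtain ⟨y, hy, h2⟩ := Finset.mem_image.1 h
    rw [← W4.sg_inj51 G hG (hJi y (hF hy)) (hJi x hx) h2]
    exact hy
  set own : V × V → V × V := fun y => (y.1, G.og y.1 y.2) with hown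
  set φ : V × V → ℤ := fun y => if own y ∈ F then 1 else 0 with hφ
  set f : V × V → ℤ := fun x => φ (x.2, G.ap x.1 x.2) - φ x with hf
  have hownc : ∀ x ∈ G.cJ C, own x = x := by
    intro x hx
    have := (og_self66 G ((hJ x).1 hx).2).2
    exact Prod.ext rfl this
  -- (1) contact darts
  have f1 : ∀ x ∈ G.cJ C, f x = 0 := by
    intro x hx
    have e1 : own (x.2, G.ap x.1 x.2) = sg G x := rfl
    have e2 := hownc x hx
    simp only [hf, hφ]
    rw [e1, e2]
    by_cases h : x ∈ F
    · rw [if_pos h, if_pos (hcl x h)]; rfl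
    · rw [if_neg h, if_neg (fun h2 => h (hback x hx h2))]; rfl
  -- (2) inner darts
  have f2 : ∀ x ∈ G.cI C, φ (x.1, G.ap x.2 x.1) = φ x := by
    intro x hx
    have h1 := hinn x (cI_sub11 G hx)
    have h2 : G.og x.1 (G.ap x.2 x.1) = G.og x.1 x.2 :=
      og_bk51 G (W4.hasO71 G hG (v := x.1) (a := x.2) h1) (cI_ncon11 G hx)
    simp only [hφ, hown]
    rw [h2]
  have f3 : ∀ x ∈ G.cI C, f (x.2, x.1) = - f x := by
    intro x hx
    have h1 := f2 x hx
    have h2 := f2 (x.2, x.1) (swap_cD66 G hx)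
    simp only at h2
    simp only [hf]
    rw [h1, h2]
    ring
  -- (3) the circulation vanishes on the tree
  have f4 : ∀ x ∈ G.cI C, f x = 0 := by
    intro x hx
    obtain ⟨A, hA1, hA2, hA3⟩ := bridge61 G hd hx
    have hx' := swap_cD66 G hx
    have hxx : (x.2, x.1) ≠ x := by
      intro h
      exact G.ne _ _ (G.sub ((mem_cD66 G).1 (cI_sub11 G hx)).1) (congrArg Prod.snd h)
    set S := (G.cD C).filter fun y => A (G.tri y) with hS
    have e1 : ∑ y ∈ S, f y = 0 := by
      simp only [hf]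
      rw [Finset.sum_sub_distrib, rot_sumD61 G
        (fun y hy => ((mem_cD66 G).1 (Finset.mem_filter.1 hy).1).1) (fun y hy => by
          obtain ⟨h1, h2⟩ := Finset.mem_filter.1 hy
          refine Finset.mem_filter.2 ⟨rot_cD66 G h1, ?_⟩
          rw [tri_rot66 G ((mem_cD66 G).1 h1).1]
          exact h2) φ, sub_self]
    have e2 : ∑ y ∈ S, f y = ∑ y ∈ S.filter (fun y => y ∈ G.cI C), f y := by
      refine (Finset.sum_filter_of_ne ?_).symm
      intro y hy hne0
      by_contra hyI
      apply hne0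
      have h1 := (Finset.mem_filter.1 hy).1
      by_cases hc : G.con y.1 y.2
      · exact f1 y ((hJ y).2 ⟨h1, hc⟩)
      · exact absurd (mem_cI11 G hB h1 hc) hyI
    have hxS : x ∈ S.filter (fun y => y ∈ G.cI C) :=
      Finset.mem_filter.2 ⟨Finset.mem_filter.2 ⟨cI_sub11 G hx, hA1⟩, hx⟩
    have e3 : ∑ y ∈ (S.filter (fun y => y ∈ G.cI C)).erase x, f y = 0 := by
      apply swap_sum61
      · intro y hy
        obtain ⟨h1, h2⟩ := Finset.mem_erase.1 hy
        obtain ⟨h3, h4⟩ := Finset.mem_filter.1 h2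
        obtain ⟨h5, h6⟩ := Finset.mem_filter.1 h3
        have hyx' : y ≠ (x.2, x.1) := by
          rintro rfl
          exact hA2 h6
        have h7 := hA3 y h4 h1 h6 hyx'
        have h8 := swap_cD66 G h4
        refine Finset.mem_erase.2 ⟨?_, Finset.mem_filter.2
          ⟨Finset.mem_filter.2 ⟨cI_sub11 G h8, h7⟩, h8⟩⟩
        intro h9
        apply hyx'
        rw [← h9]
      · intro y hy
        exact f3 y (Finset.mem_filter.1 (Finset.mem_erase.1 hy).2).2
    have e4 := Finset.add_sum_erase _ f hxS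
    rw [e3, add_zero] at e4
    rw [e4, ← e2, e1]
  -- (4) `φ` is constant
  have f5 : ∀ x ∈ G.cD C, φ (x.2, G.ap x.1 x.2) = φ x := by
    intro x hx
    have h0 : f x = 0 := by
      by_cases hc : G.con x.1 x.2
      · exact f1 x ((hJ x).2 ⟨hx, hc⟩)
      · exact f4 x (mem_cI11 G hB hx hc)
    simp only [hf] at h0
    omega
  obtain ⟨x0, hx0⟩ := hne
  have hx0D := ((hJ x0).1 (hF hx0)).1
  have hx0φ : φ x0 = 1 := by
    simp only [hφ]
    rw [hownc x0 (hF hx0), if_pos hx0]
  -- all darts of a triangle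
  have f6 : ∀ x ∈ G.cD C, ∀ y ∈ G.cD C, G.tri x = G.tri y → φ y = φ x := by
    intro x hx y hy h
    have hxp := ((mem_cD66 G).1 hx).1
    rcases (tri_eq_iff G hxp ((mem_cD66 G).1 hy).1).1 h with h1 | h1 | h1
    · rw [h1]
    · rw [h1, f5 x hx]
    · have h2 := f5 _ (rot_cD66 G hx)
      dsimp only at h2
      rw [G.ap3 _ _ hxp] at h2
      rw [h1, h2, f5 x hx]
  have f7 : ∀ s t : Finset V, G.adj.Reachable s t → ∀ x ∈ G.cD C, G.tri x = s →
      ∀ y ∈ G.cD C, G.tri y = t → φ y = φ x := by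
    rintro s t ⟨p⟩
    induction p with
    | nil =>
      intro x hx h1 y hy h2
      exact f6 x hx y hy (h1.trans h2.symm)
    | cons hadj _ ih =>
      intro x hx h1 y hy h2
      have hsC := (mem_cT61 G (mem_cT66 G hx) _).1 (mem_cT66 G hx)
      rw [h1] at hsC
      obtain ⟨z, hz, hz1, hz2⟩ := adj_cI61 G hadj hsC
      have hz' := swap_cD66 G hz
      have e1 := ih (z.2, z.1) (cI_sub11 G hz') hz2 y hy h2
      have e2 := f6 x hx z (cI_sub11 G hz) (h1.trans hz1.symm)
      have e3 := f2 z hz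
      have e4 := f5 (z.2, z.1) (cI_sub11 G hz')
      dsimp only at e4
      rw [e1, ← e4, e3, e2]
  apply Finset.Subset.antisymm hF
  intro y hy
  have hyD := ((hJ y).1 hy).1
  have hr : G.adj.Reachable (G.tri x0) (G.tri y) := by
    have h1 := (mem_cT61 G (mem_cT66 G hx0D) _).1 (mem_cT66 G hx0D)
    have h2 := (mem_cT61 G (mem_cT66 G hx0D) _).1 (mem_cT66 G hyD)
    exact SimpleGraph.ConnectedComponent.exact (h1.trans h2.symm)
  have h1 := f7 _ _ hr x0 hx0D rfl y hyD rfl
  rw [hx0φ] at h1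
  simp only [hφ] at h1
  rw [hownc y hy] at h1
  by_contra hyF
  rw [if_neg hyF] at h1
  exact absurd h1 (by norm_num)

end

end Pool.Agent.PEN.E5
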