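import Pool.Agent.E5.Pe39

/-! # PENNY, all small diameters: a pentagon class with 11 units has at most three weak sides -/

set_option autoImplicit false

namespace Pool.Agent.PEN.E5

open Classical UpperHalfPlane
open Pool.Agent.PEN.Cl

noncomputable section

variable {G : Tg ℍ} {d : ℝ} {kp : ℍ → ℍ → ℝ} {U : ℕ → ℝ}

/-- **the pentagon with 11 units**: exactly one corner has three units, and only the three sides
between corners of two units can be weak -/
theorem p11_69 (hG : G.Geo4 (alpha d) kp U) (hD : DelG G d) (hS : Sep d G.P)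
    {C : G.adj.ConnectedComponent} (hC : C ∈ WF G)
    (hm : (G.cT C).card = 3) (hI : (G.cI C).card = 4) (hU : uf G (alpha d) C = 11) :
    ∃ x ∈ G.cJ C, un G (alpha d) x = 3 ∧ un G (alpha d) (sg G x) = 2 ∧
      un G (alpha d) (sg G (sg G x)) = 2 ∧ un G (alpha d) (sg G (sg G (sg G x))) = 2 ∧
      un G (alpha d) (sg G (sg G (sg G (sg G x)))) = 2 ∧
      G.cJ C = {x, sg G x, sg G (sg G x), sg G (sg G (sg G x)), sg G (sg G (sg G (sg G x)))} ∧
      sg G (sg G (sg G (sg G (sg G x)))) = x ∧
      Wk G (alpha d) C ⊆ {sg G x, sg G (sg G x), sg G (sg G (sg G x))} := by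
  have hCi := ((mem_WF89 G).1 hC).1
  have hm5 : (G.cJ C).card = 5 := by
    have := m_eq46 G hCi
    omega
  -- the corner with three units
  obtain ⟨x, hx, hx3⟩ : ∃ x ∈ G.cJ C, 3 ≤ un G (alpha d) x := by
    by_contra hno
    push Not at hno
    have h1 : uf G (alpha d) C ≤ ∑ x ∈ G.cJ C, 2 := by
      unfold uf
      exact Finset.sum_le_sum fun y hy => by
        have := hno y hy
        omega
    rw [Finset.sum_const, hm5, smul_eq_mul] at h1
    omega
  obtain ⟨hJ, hcy⟩ := five90 G hG hC hm5 hx
  have x2 := sg_cJ46 G hG hCi hx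
  have x3 := sg_cJ46 G hG hCi x2
  have x4 := sg_cJ46 G hG hCi x3
  have x5 := sg_cJ46 G hG hCi x4
  -- the five corners are different
  have hsum : ∑ y ∈ G.cJ C, un G (alpha d) y = un G (alpha d) x + (un G (alpha d) (sg G x) +
      (un G (alpha d) (sg G (sg G x)) + (un G (alpha d) (sg G (sg G (sg G x))) +
        un G (alpha d) (sg G (sg G (sg G (sg G x))))))) := by
    have hc := hm5
    rw [hJ] at hc ⊢
    have k1 := Finset.card_insert_le x ({sg G x, sg G (sg G x), sg G (sg G (sg G x)),
      sg G (sg G (sg G (sg G x)))} : Finset (ℍ × ℍ))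
    have k2 := Finset.card_insert_le (sg G x) ({sg G (sg G x), sg G (sg G (sg G x)),
      sg G (sg G (sg G (sg G x)))} : Finset (ℍ × ℍ))
    have k3 := Finset.card_insert_le (sg G (sg G x)) ({sg G (sg G (sg G x)),
      sg G (sg G (sg G (sg G x)))} : Finset (ℍ × ℍ))
    have k4 := Finset.card_insert_le (sg G (sg G (sg G x)))
      ({sg G (sg G (sg G (sg G x)))} : Finset (ℍ × ℍ))
    rw [Finset.card_singleton] at k4
    have n4 : sg G (sg G (sg G x)) ∉ ({sg G (sg G (sg G (sg G x)))} : Finset (ℍ × ℍ)) := by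
      intro h
      have e := congrArg Finset.card (Finset.insert_eq_of_mem h)
      rw [Finset.card_singleton] at e
      omega
    have n3 : sg G (sg G x) ∉ ({sg G (sg G (sg G x)),
        sg G (sg G (sg G (sg G x)))} : Finset (ℍ × ℍ)) := by
      intro h
      have e := congrArg Finset.card (Finset.insert_eq_of_mem h)
      omega
    have n2 : sg G x ∉ ({sg G (sg G x), sg G (sg G (sg G x)),
        sg G (sg G (sg G (sg G x)))} : Finset (ℍ × ℍ)) := by
      intro h
      have e := congrArg Finset.card (Finset.insert_eq_of_mem h)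
      omega
    have n1 : x ∉ ({sg G x, sg G (sg G x), sg G (sg G (sg G x)),
        sg G (sg G (sg G (sg G x)))} : Finset (ℍ × ℍ)) := by
      intro h
      have e := congrArg Finset.card (Finset.insert_eq_of_mem h)
      omega
    rw [Finset.sum_insert n1, Finset.sum_insert n2, Finset.sum_insert n3, Finset.sum_insert n4,
      Finset.sum_singleton]
  have hU' : ∑ y ∈ G.cJ C, un G (alpha d) y = 11 := hU
  rw [hsum] at hU'
  have u2 := un_ge_WF46 G (al := alpha d) hC x2
  have u3 := un_ge_WF46 G (al := alpha d) hC x3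
  have u4 := un_ge_WF46 G (al := alpha d) hC x4
  have u5 := un_ge_WF46 G (al := alpha d) hC x5
  refine ⟨x, hx, by omega, by omega, by omega, by omega, by omega, hJ, hcy, ?_⟩
  intro y hy
  obtain ⟨h1, h2⟩ := Finset.mem_filter.1 hy
  have hs := (pent_units19 hG hD hS hCi hm hI h1).str
  rw [hJ] at h1
  simp only [Finset.mem_insert, Finset.mem_singleton] at h1 ⊢
  rcases h1 with h | h | h | h | h
  · exfalso
    have := hs (by rw [h]; omega)
    linarith
  · exact Or.inl h
  · exact Or.inr (Or.inl h)
  · exact Or.inr (Or.inr h)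
  · exfalso
    have := hs (by rw [h, hcy]; omega)
    linarith

/-- **at most three weak sides** -/
theorem p11_weak69 (hG : G.Geo4 (alpha d) kp U) (hD : DelG G d) (hS : Sep d G.P)
    {C : G.adj.ConnectedComponent} (hC : C ∈ WF G)
    (hm : (G.cT C).card = 3) (hI : (G.cI C).card = 4) (hU : uf G (alpha d) C = 11) :
    (Wk G (alpha d) C).card ≤ 3 := by
  obtain ⟨x, _, _, _, _, _, _, _, _, hW⟩ := p11_69 hG hD hS hC hm hI hU
  refine (Finset.card_le_card hW).trans ?_
  exact Finset.card_le_three

end

end Pool.Agent.PEN.E5
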