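import Pool.Agent.E5.Lm62
import Pool.Agent.E5.SF54

/-! # PENNY: consecutive served corners of a white face

`n` consecutive corners of a white face, each a leaf or one of three big corners of a point with eight
units, which are the only servers of the black faces behind the `n + 1` sides at them: the mass of
these corners and of the two neighbours is at least `1 + n ep`. For `n = 1` this is the centre lemma,
for `n = 2` the pair lemma (a digon served from both ends). No shapes are used. -/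

set_option autoImplicit false

namespace Pool.Agent.PEN.E5

open Classical UpperHalfPlane
open Pool.Agent.PEN.Cl

noncomputable section

variable {V : Type} (G : Tg V) {al : ℝ} {kp : V → V → ℝ} {U : ℕ → ℝ}

/-- the balance of a finite set of black faces -/
theorem sum_faces14 (hG : G.Geo4 al kp U) (F : Finset (cg G).ConnectedComponent) :
    ∑ x ∈ F.biUnion (kS G), Ds G al x = ∑ x ∈ F.biUnion (kS G), sp G al x := by
  have hd : ∀ K ∈ F, ∀ L ∈ F, K ≠ L → Disjoint (kS G K) (kS G L) := by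
    intro K _ L _ hKL
    rw [Finset.disjoint_left]
    intro x hx hy
    exact hKL (((mem_kS42 G).1 hx).2.symm.trans ((mem_kS42 G).1 hy).2)
  rw [Finset.sum_biUnion hd, Finset.sum_biUnion hd]
  exact Finset.sum_congr rfl fun K _ => sum_Ds89 G hG K

/-- the sectors at the head of `x` next to the white corner `sg x` -/
def A14 (x : V × V) : Finset (V × V) := (Sv G x.2).filter (fun y => y = x ∨ nx G y = sg G x)

theorem mem_A14 {x y : V × V} : y ∈ A14 G x ↔ (y ∈ SD G ∧ y.2 = x.2) ∧ (y = x ∨ nx G y = sg G x) := by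
  unfold A14
  rw [Finset.mem_filter, mem_Sv62]

/-- the two sectors next to a leaf corner or to one of three big corners -/
theorem sum_A14 (hG : G.Geo4 al kp U) {x : V × V} (hin : x.2 ∈ inN G) (hxs : x ∈ SD G)
    (hty : (cv G x.2 = 1 ∧ uv G al x.2 = 7) ∨ (cv G x.2 = 3 ∧ uv G al x.2 = 8)) :
    ∑ y ∈ A14 G x, Ds G al y = gc G al (sg G x) - ep al := by
  have hxS : x ∈ Sv G x.2 := (mem_Sv62 G).2 ⟨hxs, rfl⟩
  unfold A14
  rcases hty with ⟨hc, hu⟩ | ⟨hc, hu⟩
  · obtain ⟨e1, e2, e3⟩ := c1_89 G hG hin hc hxS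
    have hA : (Sv G x.2).filter (fun y => y = x ∨ nx G y = sg G x) = {x} := by
      rw [e1]
      ext y
      rw [Finset.mem_filter, Finset.mem_singleton]
      exact ⟨fun h => h.1, fun h => ⟨h, Or.inl h⟩⟩
    rw [hA, Finset.sum_singleton]
    have h1 := Ds_one89 G hG hin hxs rfl hc
    have h2 := sum_gcB39 G hG hin
    rw [e2, Finset.sum_singleton, kv_eq89, hu] at h2
    rw [h1, kv_eq89, hu, h2]
    norm_num
    ring
  · obtain ⟨y, hy, z, hz, hyx, hzx, hzy, hS, hB, e1, e2, e3⟩ := c3_89 G hG hin hc hxS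
    have hA : (Sv G x.2).filter (fun y => y = x ∨ nx G y = sg G x) = {x, z} := by
      ext t
      rw [Finset.mem_filter, Finset.mem_insert, Finset.mem_singleton]
      constructor
      · rintro ⟨h1, h2 | h2⟩
        · exact Or.inl h2
        · right
          exact nx_injSv89 G hG h1 hz (by rw [h2, e3])
      · rintro (rfl | rfl)
        · exact ⟨hxS, Or.inl rfl⟩
        · exact ⟨hz, Or.inr e3⟩
    rw [hA, Finset.sum_pair hzx.symm]
    have hs := sum_gcB39 G hG hin
    have n1 : sg G x ≠ sg G y := fun h => hyx (sg_injSv89 G hG hin hxS hy h).symm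
    have n2 : sg G x ≠ sg G z := fun h => hzx (sg_injSv89 G hG hin hxS hz h).symm
    have n3 : sg G y ≠ sg G z := fun h => hzy (sg_injSv89 G hG hin hy hz h).symm
    rw [hB, Finset.sum_insert (by
      simp only [Finset.mem_insert, Finset.mem_singleton]
      rintro (h | h)
      · exact n1 h
      · exact n2 h), Finset.sum_insert (by
      rw [Finset.mem_singleton]; exact n3), Finset.sum_singleton, kv_eq89, hu] at hs
    unfold Ds
    rw [← e1, e3]
    norm_num at hs ⊢
    linarith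

/-- `n` consecutive served corners `sg z, ..., sg^n z` of a white face -/
structure Run14 (al : ℝ) (z : V × V) (n : ℕ) : Prop where
  sd : ∀ i ≤ n, (sg G)^[i] z ∈ SD G
  inn : ∀ i < n, ((sg G)^[i] z).2 ∈ inN G
  ty : ∀ i < n, (cv G ((sg G)^[i] z).2 = 1 ∧ uv G al ((sg G)^[i] z).2 = 7) ∨
    (cv G ((sg G)^[i] z).2 = 3 ∧ uv G al ((sg G)^[i] z).2 = 8)
  inj : ∀ i ≤ n, ∀ j ≤ n, (sg G)^[i] z = (sg G)^[j] z → i = j
  inp : ∀ i < n, ∀ j < n, ((sg G)^[i] z).2 = ((sg G)^[j] z).2 → i = j
  strong : ∀ i ≤ n, ∀ y ∈ kS G (ku G ((sg G)^[i] z)), 0 ≤ sp G al y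
  neg : ∀ i ≤ n, ∀ y ∈ kS G (ku G ((sg G)^[i] z)),
    (∀ j < n, y ≠ (sg G)^[j] z ∧ nx G y ≠ (sg G)^[j + 1] z) → Ds G al y ≤ 0

/-- the sides of the black faces of a run -/
def KR14 (z : V × V) (n : ℕ) : Finset (V × V) :=
  ((Finset.range (n + 1)).image (fun i => ku G ((sg G)^[i] z))).biUnion (kS G)

theorem mem_KR14 {z : V × V} {n : ℕ} {y : V × V} :
    y ∈ KR14 G z n ↔ ∃ i ≤ n, y ∈ kS G (ku G ((sg G)^[i] z)) := by
  unfold KR14
  rw [Finset.mem_biUnion]
  constructor
  · rintro ⟨K, hK, hy⟩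
    obtain ⟨i, hi, rfl⟩ := Finset.mem_image.1 hK
    exact ⟨i, by have := Finset.mem_range.1 hi; omega, hy⟩
  · rintro ⟨i, hi, hy⟩
    exact ⟨_, Finset.mem_image.2 ⟨i, Finset.mem_range.2 (by omega), rfl⟩, hy⟩

/-- **capacity of a run of served corners**: foreign surplus `B` and third gaps `T` -/
theorem run_cap14 (hG : G.Geo4 al kp U) {z : V × V} {n : ℕ} (h : Run14 G al z n)
    {B T : Finset (V × V)} (hB : B ⊆ KR14 G z n) (hBz : ∀ i ≤ n, (sg G)^[i] z ∉ B)
    (hT : T ⊆ KR14 G z n)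
    (hTz : ∀ y ∈ T, ∀ j < n, y ≠ (sg G)^[j] z ∧ nx G y ≠ (sg G)^[j + 1] z) :
    ∑ y ∈ B, sp G al y + ∑ y ∈ T, (- Ds G al y) + (1 + n * ep al) ≤
      ∑ i ∈ Finset.range (n + 2), (1 - gc G al ((sg G)^[i] z)) := by
  set S := KR14 G z n with hS
  set A : Finset (V × V) := (Finset.range n).biUnion (fun i => A14 G ((sg G)^[i] z)) with hA
  set Z : Finset (V × V) := (Finset.range (n + 1)).image (fun i => (sg G)^[i] z) with hZ
  have hbal : ∑ x ∈ S, Ds G al x = ∑ x ∈ S, sp G al x := sum_faces14 G hG _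
  have hAS : A ⊆ S := by
    intro y hy
    obtain ⟨i, hi, hy1⟩ := Finset.mem_biUnion.1 hy
    rw [Finset.mem_range] at hi
    obtain ⟨⟨h1, h2⟩, h3⟩ := (mem_A14 G).1 hy1
    refine (mem_KR14 G).2 ?_
    rcases h3 with h3 | h3
    · exact ⟨i, by omega, (mem_kS42 G).2 ⟨h1, by rw [h3]⟩⟩
    · refine ⟨i + 1, by omega, (mem_kS42 G).2 ⟨h1, ?_⟩⟩
      rw [Function.iterate_succ_apply', ← h3]
      exact (nx_mem42 G hG ((mem_SD42 G).1 h1).1).2.symm
  have hZS : Z ⊆ S := by
    intro y hy
    obtain ⟨i, hi, rfl⟩ := Finset.mem_image.1 hy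
    rw [Finset.mem_range] at hi
    exact (mem_KR14 G).2 ⟨i, by omega, (mem_kS42 G).2 ⟨h.sd i (by omega), rfl⟩⟩
  have hAsum : ∑ y ∈ A, Ds G al y = ∑ i ∈ Finset.range n, (gc G al ((sg G)^[i + 1] z) - ep al) := by
    rw [hA, Finset.sum_biUnion]
    · refine Finset.sum_congr rfl fun i hi => ?_
      rw [Finset.mem_range] at hi
      rw [sum_A14 G hG (h.inn i hi) (h.sd i (by omega)) (h.ty i hi), Function.iterate_succ_apply']
    · intro i hi j hj hij
      rw [Function.onFun, Finset.disjoint_left]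
      intro y h1 h2
      have h3 := ((mem_A14 G).1 h1).1.2
      have h4 := ((mem_A14 G).1 h2).1.2
      exact hij (h.inp i (Finset.mem_range.1 (Finset.mem_coe.1 hi)) j
        (Finset.mem_range.1 (Finset.mem_coe.1 hj)) (h3.symm.trans h4))
  have hZsum : ∑ y ∈ Z, sp G al y = ∑ i ∈ Finset.range (n + 1), sp G al ((sg G)^[i] z) := by
    rw [hZ, Finset.sum_image]
    intro i hi j hj hij
    exact h.inj i (by have := Finset.mem_range.1 (Finset.mem_coe.1 hi); omega) j
      (by have := Finset.mem_range.1 (Finset.mem_coe.1 hj); omega) hij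
  have hneg : ∀ y ∈ S, y ∉ A → Ds G al y ≤ 0 := by
    intro y hy hyA
    obtain ⟨i, hi, hy1⟩ := (mem_KR14 G).1 hy
    refine h.neg i hi y hy1 fun j hj => ?_
    by_contra hc
    apply hyA
    have hys := mem_kS89 G hy1
    refine Finset.mem_biUnion.2 ⟨j, Finset.mem_range.2 hj, (mem_A14 G).2 ?_⟩
    by_cases h1 : y = (sg G)^[j] z
    · exact ⟨⟨hys, by rw [h1]⟩, Or.inl h1⟩
    · have h2 : nx G y = (sg G)^[j + 1] z := by
        by_contra h3
        exact hc ⟨h1, h3⟩
      rw [Function.iterate_succ_apply'] at h2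
      refine ⟨⟨hys, ?_⟩, Or.inr h2⟩
      have h5 : (nx G y).1 = (sg G ((sg G)^[j] z)).1 := by rw [h2]
      exact h5
  have hTA : ∀ y ∈ T, y ∈ S \ A := by
    intro y hy
    refine Finset.mem_sdiff.2 ⟨hT hy, fun hyA => ?_⟩
    obtain ⟨j, hj, hy1⟩ := Finset.mem_biUnion.1 hyA
    rw [Finset.mem_range] at hj
    obtain ⟨-, h3⟩ := (mem_A14 G).1 hy1
    obtain ⟨h4, h5⟩ := hTz y hy j hj
    rcases h3 with h3 | h3
    · exact h4 h3
    · rw [Function.iterate_succ_apply'] at h5
      exact h5 h3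
  have hD : ∑ x ∈ S, Ds G al x ≤ ∑ x ∈ A, Ds G al x + ∑ x ∈ T, Ds G al x := by
    rw [← Finset.sum_sdiff hAS, ← Finset.sum_sdiff (s₁ := T) (s₂ := S \ A) hTA]
    have : ∑ x ∈ (S \ A) \ T, Ds G al x ≤ 0 := by
      refine Finset.sum_nonpos fun x hx => ?_
      obtain ⟨h2, h3⟩ := Finset.mem_sdiff.1 hx
      obtain ⟨h4, h5⟩ := Finset.mem_sdiff.1 h2
      exact hneg x h4 h5
    linarith
  have hZB : Disjoint Z B := by
    rw [Finset.disjoint_left]
    intro y hy
    obtain ⟨i, hi, rfl⟩ := Finset.mem_image.1 hy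
    rw [Finset.mem_range] at hi
    exact hBz i (by omega)
  have hs : ∑ x ∈ Z, sp G al x + ∑ x ∈ B, sp G al x ≤ ∑ x ∈ S, sp G al x := by
    rw [← Finset.sum_union hZB]
    refine Finset.sum_le_sum_of_subset_of_nonneg (Finset.union_subset hZS hB) fun y hy _ => ?_
    obtain ⟨i, hi, hy1⟩ := (mem_KR14 G).1 hy
    exact h.strong i hi y hy1
  have hZ2 : ∑ i ∈ Finset.range (n + 1), sp G al ((sg G)^[i] z) =
      ∑ i ∈ Finset.range (n + 1), gc G al ((sg G)^[i] z) +
      ∑ i ∈ Finset.range (n + 1), gc G al ((sg G)^[i + 1] z) - (n + 1) := by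
    rw [← Finset.sum_add_distrib]
    have : ∀ i ∈ Finset.range (n + 1), sp G al ((sg G)^[i] z) =
        (gc G al ((sg G)^[i] z) + gc G al ((sg G)^[i + 1] z)) - 1 := by
      intro i _
      rw [Function.iterate_succ_apply']
      rfl
    rw [Finset.sum_congr rfl this, Finset.sum_sub_distrib, Finset.sum_const, Finset.card_range,
      nsmul_eq_mul, mul_one]
    push_cast
    ring
  have e1 : ∑ i ∈ Finset.range n, (gc G al ((sg G)^[i + 1] z) - ep al) =
      ∑ i ∈ Finset.range n, gc G al ((sg G)^[i + 1] z) - n * ep al := by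
    rw [Finset.sum_sub_distrib, Finset.sum_const, Finset.card_range, nsmul_eq_mul]
  have e2 : ∑ i ∈ Finset.range (n + 2), (1 - gc G al ((sg G)^[i] z)) =
      (n + 2) - (∑ i ∈ Finset.range (n + 1), gc G al ((sg G)^[i] z) +
        gc G al ((sg G)^[n + 1] z)) := by
    rw [Finset.sum_sub_distrib, Finset.sum_const, Finset.card_range, nsmul_eq_mul, mul_one,
      Finset.sum_range_succ]
    push_cast
    ring
  have e3 : ∑ i ∈ Finset.range (n + 1), gc G al ((sg G)^[i + 1] z) =
      ∑ i ∈ Finset.range n, gc G al ((sg G)^[i + 1] z) + gc G al ((sg G)^[n + 1] z) :=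
    Finset.sum_range_succ _ _
  have e4 : ∑ y ∈ T, (- Ds G al y) = - ∑ y ∈ T, Ds G al y := Finset.sum_neg_distrib _
  rw [e2, e4]
  rw [hAsum, e1] at hD
  rw [hZsum, hZ2, e3] at hs
  linarith

/-- **a run of served corners has mass at least `1 + n ep` with its two neighbours** -/
theorem run_mass14 (hG : G.Geo4 al kp U) {z : V × V} {n : ℕ} (h : Run14 G al z n) :
    1 + n * ep al ≤ ∑ i ∈ Finset.range (n + 2), (1 - gc G al ((sg G)^[i] z)) := by
  have := run_cap14 G hG h (B := ∅) (T := ∅) (Finset.empty_subset _)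
    (fun _ _ => Finset.notMem_empty _) (Finset.empty_subset _)
    (fun y hy => absurd hy (Finset.notMem_empty y))
  rw [Finset.sum_empty, Finset.sum_empty] at this
  linarith

/-- the side after a served corner has a black face behind -/
theorem sg_SD14 (hG : G.Geo4 al kp U) {x : V × V} (hin : x.2 ∈ inN G) (hxs : x ∈ SD G)
    (hc : cv G x.2 = 1 ∨ cv G x.2 = 3) : sg G x ∈ SD G := by
  have hxS : x ∈ Sv G x.2 := (mem_Sv62 G).2 ⟨hxs, rfl⟩
  rcases hc with hc | hc
  · obtain ⟨e1, e2, e3⟩ := c1_89 G hG hin hc hxS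
    rw [← e3]
    exact (nx_mem42 G hG ((mem_SD42 G).1 hxs).1).1
  · obtain ⟨y, hy, z, hz, hyx, hzx, hzy, hS, hB, e1, e2, e3⟩ := c3_89 G hG hin hc hxS
    rw [← e3]
    exact (nx_mem42 G hG ((mem_SD42 G).1 ((mem_Sv62 G).1 hz).1).1).1

/-- the side before the next white corner at the same point -/
theorem prev14 (hG : G.Geo4 al kp U) {x : V × V} (hin : x.2 ∈ inN G) (hxs : x ∈ SD G)
    (hc : cv G x.2 = 1 ∨ cv G x.2 = 3) : ∃ y ∈ SD G, y.2 = x.2 ∧ sg G y = nx G x := by
  have hxS : x ∈ Sv G x.2 := (mem_Sv62 G).2 ⟨hxs, rfl⟩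
  rcases hc with hc | hc
  · obtain ⟨e1, e2, e3⟩ := c1_89 G hG hin hc hxS
    exact ⟨x, hxs, rfl, e3.symm⟩
  · obtain ⟨y, hy, z, hz, hyx, hzx, hzy, hS, hB, e1, e2, e3⟩ := c3_89 G hG hin hc hxS
    obtain ⟨h1, h2⟩ := (mem_Sv62 G).1 hy
    exact ⟨y, h1, h2, e1⟩

/-- a run from its points: different heads, and the last side is not the first one -/
theorem run_of14 (hG : G.Geo4 al kp U) {z : V × V} {n : ℕ} (hz : z ∈ SD G)
    (inn : ∀ i < n, ((sg G)^[i] z).2 ∈ inN G)
    (ty : ∀ i < n, (cv G ((sg G)^[i] z).2 = 1 ∧ uv G al ((sg G)^[i] z).2 = 7) ∨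
      (cv G ((sg G)^[i] z).2 = 3 ∧ uv G al ((sg G)^[i] z).2 = 8))
    (inp : ∀ i < n, ∀ j < n, ((sg G)^[i] z).2 = ((sg G)^[j] z).2 → i = j)
    (hne : 0 < n → (sg G)^[n] z ≠ z)
    (strong : ∀ i ≤ n, ∀ y ∈ kS G (ku G ((sg G)^[i] z)), 0 ≤ sp G al y)
    (neg : ∀ i ≤ n, ∀ y ∈ kS G (ku G ((sg G)^[i] z)),
      (∀ j < n, y ≠ (sg G)^[j] z ∧ nx G y ≠ (sg G)^[j + 1] z) → Ds G al y ≤ 0) :
    Run14 G al z n := by
  have hsd : ∀ i ≤ n, (sg G)^[i] z ∈ SD G := by
    intro i
    induction i with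
    | zero => intro _; exact hz
    | succ i ih =>
      intro hi
      rw [Function.iterate_succ_apply']
      refine sg_SD14 G hG (inn i (by omega)) (ih (by omega)) ?_
      rcases ty i (by omega) with h | h
      · exact Or.inl h.1
      · exact Or.inr h.1
  have hlt : ∀ i ≤ n, ∀ j ≤ n, i < j → (sg G)^[i] z ≠ (sg G)^[j] z := by
    intro i hi j hj hij h
    by_cases hjn : j < n
    · have := inp i (by omega) j hjn (by rw [h])
      omega
    · have hjn' : j = n := by omega
      subst hjn'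
      rcases Nat.eq_zero_or_pos i with h0 | h0
      · subst h0
        exact hne (by omega) h.symm
      · obtain ⟨a, rfl⟩ : ∃ a, i = a + 1 := ⟨i - 1, by omega⟩
        obtain ⟨b, rfl⟩ : ∃ b, j = b + 1 := ⟨j - 1, by omega⟩
        rw [Function.iterate_succ_apply', Function.iterate_succ_apply'] at h
        have h1 : (sg G ((sg G)^[a] z)).1 = (sg G ((sg G)^[b] z)).1 := by rw [h]
        have := inp a (by omega) b (by omega) h1
        omega
  refine ⟨hsd, inn, ty, ?_, inp, strong, neg⟩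
  intro i hi j hj h
  rcases Nat.lt_trichotomy i j with h1 | h1 | h1
  · exact absurd h (hlt i hi j hj h1)
  · exact h1
  · exact absurd h.symm (hlt j hj i hi h1)

/-- **one served corner**: mass at least `1 + ep` with its two neighbours -/
theorem one_mass14 (hG : G.Geo4 al kp U) {z : V × V} (hz : z ∈ SD G) (hin : z.2 ∈ inN G)
    (hty : (cv G z.2 = 1 ∧ uv G al z.2 = 7) ∨ (cv G z.2 = 3 ∧ uv G al z.2 = 8))
    (hs1 : ∀ y ∈ kS G (ku G z), 0 ≤ sp G al y)
    (hs2 : ∀ y ∈ kS G (ku G (sg G z)), 0 ≤ sp G al y)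
    (hn1 : ∀ y ∈ kS G (ku G z), y ≠ z → nx G y ≠ sg G z → Ds G al y ≤ 0)
    (hn2 : ∀ y ∈ kS G (ku G (sg G z)), y ≠ z → nx G y ≠ sg G z → Ds G al y ≤ 0) :
    1 + ep al ≤ (1 - gc G al z) + (1 - gc G al (sg G z)) + (1 - gc G al (sg G (sg G z))) := by
  have hc : cv G z.2 = 1 ∨ cv G z.2 = 3 := by
    rcases hty with h | h
    · exact Or.inl h.1
    · exact Or.inr h.1
  have hsz := sg_SD14 G hG hin hz hc
  have hR : Run14 G al z 1 := by
    refine run_of14 G hG hz ?_ ?_ ?_ ?_ ?_ ?_
    · intro i hi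
      obtain rfl : i = 0 := by omega
      exact hin
    · intro i hi
      obtain rfl : i = 0 := by omega
      exact hty
    · intro i hi j hj _
      omega
    · intro _
      exact sg_ne46 G (sector_corners89 G hG hin hz rfl).2.2.1
    · intro i hi
      rcases (show i = 0 ∨ i = 1 by omega) with rfl | rfl
      · exact hs1
      · exact hs2
    · intro i hi y hy h
      obtain ⟨h1, h2⟩ := h 0 (by omega)
      rcases (show i = 0 ∨ i = 1 by omega) with rfl | rfl
      · exact hn1 y hy h1 h2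
      · exact hn2 y hy h1 h2
  have h := run_mass14 G hG hR
  simp only [Finset.sum_range_succ, Finset.sum_range_zero, Function.iterate_succ_apply',
    Function.iterate_zero, id_eq] at h
  push_cast at h
  linarith

/-- **the pair lemma**: two adjacent corners of a white face, both served (`z.2` and `(sg z).2`), the
black face behind the side `sg z` between them is a digon, the black faces behind `z` and
`sg (sg z)` are strong and have no other server: the mass of the two corners and their two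
neighbours is at least `1 + 2 ep` -/
theorem pair_mass14 (hG : G.Geo4 al kp U) {z : V × V} (hz : z ∈ SD G) (hin : z.2 ∈ inN G)
    (hty : (cv G z.2 = 1 ∧ uv G al z.2 = 7) ∨ (cv G z.2 = 3 ∧ uv G al z.2 = 8))
    (hin2 : (sg G z).2 ∈ inN G)
    (hty2 : (cv G (sg G z).2 = 1 ∧ uv G al (sg G z).2 = 7) ∨
      (cv G (sg G z).2 = 3 ∧ uv G al (sg G z).2 = 8))
    (hne : sg G (sg G z) ≠ z) (h0 : rn G (sg G z) = 0)
    (hsd : 0 ≤ sp G al (sg G z)) (hse : 0 ≤ sp G al (nx G (sg G z)))
    (hs1 : ∀ y ∈ kS G (ku G z), 0 ≤ sp G al y)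
    (hs2 : ∀ y ∈ kS G (ku G (sg G (sg G z))), 0 ≤ sp G al y)
    (hn1 : ∀ y ∈ kS G (ku G z), y ≠ z → nx G y ≠ sg G (sg G z) → Ds G al y ≤ 0)
    (hn2 : ∀ y ∈ kS G (ku G (sg G (sg G z))), y ≠ z → nx G y ≠ sg G (sg G z) →
      Ds G al y ≤ 0) :
    1 + 2 * ep al ≤ (1 - gc G al z) + (1 - gc G al (sg G z)) + (1 - gc G al (sg G (sg G z))) +
      (1 - gc G al (sg G (sg G (sg G z)))) := by
  have hc : cv G z.2 = 1 ∨ cv G z.2 = 3 := by
    rcases hty with h | h
    · exact Or.inl h.1
    · exact Or.inr h.1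
  have hsz := sg_SD14 G hG hin hz hc
  obtain ⟨d1, d2, -, -, d5, d6⟩ := digon54 G hG hsz h0
  have hr : nx G ((sg G z).2, (sg G z).1) = sg G z := by
    rw [nx_of54 G hG d1, d6]
    rfl
  have hR : Run14 G al z 2 := by
    refine run_of14 G hG hz ?_ ?_ ?_ ?_ ?_ ?_
    · intro i hi
      rcases (show i = 0 ∨ i = 1 by omega) with rfl | rfl
      · exact hin
      · exact hin2
    · intro i hi
      rcases (show i = 0 ∨ i = 1 by omega) with rfl | rfl
      · exact hty
      · exact hty2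
    · have hd : z.2 ≠ (sg G z).2 := by
        intro h
        have h1 : (sg G z).1 = z.2 := rfl
        have h2 := ((mem_KJ42 G).1 ((mem_SD42 G).1 hsz).1).1
        exact G.ne _ _ h2 (h1.trans h)
      intro i hi j hj h
      rcases (show i = 0 ∨ i = 1 by omega) with rfl | rfl
      · rcases (show j = 0 ∨ j = 1 by omega) with rfl | rfl
        · rfl
        · exact absurd h hd
      · rcases (show j = 0 ∨ j = 1 by omega) with rfl | rfl
        · exact absurd h.symm hd
        · rfl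
    · intro _
      exact hne
    · intro i hi
      rcases (show i = 0 ∨ i = 1 ∨ i = 2 by omega) with rfl | rfl | rfl
      · exact hs1
      · intro y hy
        have hy' : y ∈ kS G (ku G (sg G z)) := hy
        rw [d2, Finset.mem_insert, Finset.mem_singleton] at hy'
        rcases hy' with h | h
        · rw [h]; exact hsd
        · rw [h, ← d5]; exact hse
      · exact hs2
    · intro i hi y hy h
      obtain ⟨a1, a2⟩ := h 0 (by omega)
      obtain ⟨b1, b2⟩ := h 1 (by omega)
      rcases (show i = 0 ∨ i = 1 ∨ i = 2 by omega) with rfl | rfl | rfl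
      · exact hn1 y hy a1 b2
      · exfalso
        have hy' : y ∈ kS G (ku G (sg G z)) := hy
        rw [d2, Finset.mem_insert, Finset.mem_singleton] at hy'
        rcases hy' with h | h
        · exact b1 h
        · exact a2 (by rw [h]; exact hr)
      · exact hn2 y hy a1 b2
  have h := run_mass14 G hG hR
  simp only [Finset.sum_range_succ, Finset.sum_range_zero, Function.iterate_succ_apply',
    Function.iterate_zero, id_eq] at h
  push_cast at h
  linarith

end

end Pool.Agent.PEN.E5
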