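import Pool.Agent.E5.Lm62

/-! # PENNY, small diameters: pairs and runs of served corners of one white face

Exact gap lemmas of page T4 (the pair lemma). No shapes are used. -/

set_option autoImplicit false

namespace Pool.Agent.PEN.E5

open Classical UpperHalfPlane
open Pool.Agent.PEN.Cl

noncomputable section

variable {V : Type} (G : Tg V) {al : ℝ} {kp : V → V → ℝ} {U : ℕ → ℝ}

/-- the two sectors at one big corner of a point with eight units and three big corners -/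
theorem two_sec2 (hG : G.Geo4 al kp U) {x : V × V} (hx : x ∈ SD G) (hin : x.2 ∈ inN G)
    (hc : cv G x.2 = 3) (h8 : uv G al x.2 = 8) :
    ∃ z ∈ SD G, z.2 = x.2 ∧ z ≠ x ∧ nx G z = sg G x ∧
      Ds G al x + Ds G al z = gc G al (sg G x) - ep al := by
  have hxS : x ∈ Sv G x.2 := (mem_Sv62 G).2 ⟨hx, rfl⟩
  obtain ⟨y, hy, z, hz, hyx, hzx, hzy, hS, hB, e1, e2, e3⟩ := c3_89 G hG hin hc hxS
  obtain ⟨hz1, hz2⟩ := (mem_Sv62 G).1 hz
  have hs := sum_gcB39 G hG hin
  have n1 : sg G x ≠ sg G y := fun h => hyx (sg_injSv89 G hG hin hxS hy h).symm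
  have n2 : sg G x ≠ sg G z := fun h => hzx (sg_injSv89 G hG hin hxS hz h).symm
  have n3 : sg G y ≠ sg G z := fun h => hzy (sg_injSv89 G hG hin hy hz h).symm
  rw [hB, Finset.sum_insert (by
    simp only [Finset.mem_insert, Finset.mem_singleton]
    rintro (h | h)
    · exact n1 h
    · exact n2 h), Finset.sum_insert (by
    rw [Finset.mem_singleton]; exact n3), Finset.sum_singleton, kv_eq89, h8] at hs
  refine ⟨z, hz1, hz2, hzx, e3, ?_⟩
  unfold Ds
  rw [← e1, e3]
  norm_num at hs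
  linarith

/-- the balance with at most two positive sectors `a`, `b` and no weak side: one strong side `x` -/
theorem bal2 (hG : G.Geo4 al kp U) {K : (cg G).ConnectedComponent} {a b x : V × V}
    (hx : x ∈ kS G K) (hab : a ≠ b) (ha : a ∈ kS G K) (hb : b ∈ kS G K)
    (hs : ∀ y ∈ kS G K, 0 ≤ sp G al y)
    (hn : ∀ y ∈ kS G K, y ≠ a → y ≠ b → Ds G al y ≤ 0) :
    sp G al x ≤ Ds G al a + Ds G al b := by
  have h1 := sum_Ds89 G hG (al := al) K
  have h2 : sp G al x ≤ ∑ y ∈ kS G K, sp G al y :=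
    Finset.single_le_sum (f := fun y => sp G al y) (fun y hy => hs y hy) hx
  have hA : ({a, b} : Finset (V × V)) ⊆ kS G K := by
    intro y hy
    rcases Finset.mem_insert.1 hy with h | h
    · rw [h]; exact ha
    · rw [Finset.mem_singleton.1 h]; exact hb
  have h3 : ∑ y ∈ kS G K \ {a, b}, Ds G al y ≤ 0 := by
    refine Finset.sum_nonpos fun y hy => ?_
    obtain ⟨h4, h5⟩ := Finset.mem_sdiff.1 hy
    rw [Finset.mem_insert, Finset.mem_singleton] at h5
    push Not at h5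
    exact hn y h4 h5.1 h5.2
  have h4 := Finset.sum_sdiff (f := fun y => Ds G al y) hA
  rw [Finset.sum_pair hab] at h4
  linarith

/-- the balance with at most one positive sector -/
theorem bal1_2 (hG : G.Geo4 al kp U) {K : (cg G).ConnectedComponent} {a x : V × V}
    (hx : x ∈ kS G K) (ha : a ∈ kS G K)
    (hs : ∀ y ∈ kS G K, 0 ≤ sp G al y)
    (hn : ∀ y ∈ kS G K, y ≠ a → Ds G al y ≤ 0) :
    sp G al x ≤ Ds G al a := by
  have h1 := sum_Ds89 G hG (al := al) K
  have h2 : sp G al x ≤ ∑ y ∈ kS G K, sp G al y :=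
    Finset.single_le_sum (f := fun y => sp G al y) (fun y hy => hs y hy) hx
  have h4 := Finset.add_sum_erase (f := fun y => Ds G al y) _ ha
  have h3 : ∑ y ∈ (kS G K).erase a, Ds G al y ≤ 0 :=
    Finset.sum_nonpos fun y hy =>
      hn y (Finset.mem_erase.1 hy).2 (Finset.mem_erase.1 hy).1
  linarith

/-- **start of a run**: the black face of the side `x` has no other server than the head of `x` -/
theorem run_start2 (hG : G.Geo4 al kp U) {x : V × V} (hx : x ∈ SD G)
    (hs : ∀ y ∈ kS G (ku G x), 0 ≤ sp G al y)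
    (hn : ∀ y ∈ kS G (ku G x), y ≠ x → Ds G al y ≤ 0) :
    1 - (1 - gc G al x) - (1 - gc G al (sg G x)) ≤ Ds G al x := by
  have hk : x ∈ kS G (ku G x) := (mem_kS42 G).2 ⟨hx, rfl⟩
  have h := bal1_2 G hG hk hk hs hn
  unfold sp at h
  linarith

/-- **step of a run**: the side `sg x` between two served corners; its black face has no other
server -/
theorem run_step2 (hG : G.Geo4 al kp U) {x : V × V} (hx : x ∈ SD G) (hw : sg G x ∈ SD G)
    (hin : x.2 ∈ inN G) (hc : cv G x.2 = 3) (h8 : uv G al x.2 = 8)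
    (hs : ∀ y ∈ kS G (ku G (sg G x)), 0 ≤ sp G al y)
    (hn : ∀ y ∈ kS G (ku G (sg G x)), y ≠ sg G x → nx G y ≠ sg G x → Ds G al y ≤ 0) :
    Ds G al x - (1 - gc G al (sg G (sg G x))) + ep al ≤ Ds G al (sg G x) := by
  obtain ⟨z, hz, hz2, hzx, e3, hD⟩ := two_sec2 G hG hx hin hc h8
  have hk : sg G x ∈ kS G (ku G (sg G x)) := (mem_kS42 G).2 ⟨hw, rfl⟩
  have hzk : z ∈ kS G (ku G (sg G x)) := by
    have h3 := (nx_mem42 G hG ((mem_SD42 G).1 hz).1).2
    rw [e3] at h3
    exact (mem_kS42 G).2 ⟨hz, h3.symm⟩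
  have hzw : z ≠ sg G x := fun he => nx_self62 G hz (by rw [e3]; exact he.symm)
  have h := bal2 G hG hk hzw hzk hk hs (fun y hy h1 h2 => hn y hy h2 (fun h3 => h1
    (nx_injSv89 G hG (v := x.2) ((mem_Sv62 G).2 ⟨mem_kS89 G hy, by
      have h5 : (nx G y).1 = (sg G x).1 := by rw [h3]
      exact h5⟩) ((mem_Sv62 G).2 ⟨hz, hz2⟩) (by rw [h3, e3]))))
  have h2 : sp G al (sg G x) = gc G al (sg G x) + gc G al (sg G (sg G x)) - 1 := rfl
  linarith

/-- **end of a run**: the black face of the side `sg x` has no other server than the head of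
`x` -/
theorem run_end2 (hG : G.Geo4 al kp U) {x : V × V} (hx : x ∈ SD G) (hw : sg G x ∈ SD G)
    (hin : x.2 ∈ inN G) (hc : cv G x.2 = 3) (h8 : uv G al x.2 = 8)
    (hs : ∀ y ∈ kS G (ku G (sg G x)), 0 ≤ sp G al y)
    (hn : ∀ y ∈ kS G (ku G (sg G x)), nx G y ≠ sg G x → Ds G al y ≤ 0) :
    Ds G al x ≤ (1 - gc G al (sg G (sg G x))) - ep al := by
  obtain ⟨z, hz, hz2, hzx, e3, hD⟩ := two_sec2 G hG hx hin hc h8
  have hk : sg G x ∈ kS G (ku G (sg G x)) := (mem_kS42 G).2 ⟨hw, rfl⟩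
  have hzk : z ∈ kS G (ku G (sg G x)) := by
    have h3 := (nx_mem42 G hG ((mem_SD42 G).1 hz).1).2
    rw [e3] at h3
    exact (mem_kS42 G).2 ⟨hz, h3.symm⟩
  have h := bal1_2 G hG hk hzk hs (fun y hy h1 => hn y hy (fun h3 => h1
    (nx_injSv89 G hG (v := x.2) ((mem_Sv62 G).2 ⟨mem_kS89 G hy, by
      have h5 : (nx G y).1 = (sg G x).1 := by rw [h3]
      exact h5⟩) ((mem_Sv62 G).2 ⟨hz, hz2⟩) (by rw [h3, e3]))))
  have h2 : sp G al (sg G x) = gc G al (sg G x) + gc G al (sg G (sg G x)) - 1 := rfl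
  linarith

/-- **the pair lemma**: two neighbouring corners (heads of `x` and `sg x`), points with eight units
and three big corners, the only servers of the black face between them and of the black faces of
the two neighbouring sides of the white face: the four corners have mass above one -/
theorem pair2 (hG : G.Geo4 al kp U) {x : V × V} (hx : x ∈ SD G) (hw : sg G x ∈ SD G)
    (hw2 : sg G (sg G x) ∈ SD G)
    (hin : x.2 ∈ inN G) (hc : cv G x.2 = 3) (h8 : uv G al x.2 = 8)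
    (hin' : (sg G x).2 ∈ inN G) (hc' : cv G (sg G x).2 = 3) (h8' : uv G al (sg G x).2 = 8)
    (hs1 : ∀ y ∈ kS G (ku G x), 0 ≤ sp G al y)
    (hn1 : ∀ y ∈ kS G (ku G x), y ≠ x → Ds G al y ≤ 0)
    (hs : ∀ y ∈ kS G (ku G (sg G x)), 0 ≤ sp G al y)
    (hn : ∀ y ∈ kS G (ku G (sg G x)), y ≠ sg G x → nx G y ≠ sg G x → Ds G al y ≤ 0)
    (hs2 : ∀ y ∈ kS G (ku G (sg G (sg G x))), 0 ≤ sp G al y)
    (hn2 : ∀ y ∈ kS G (ku G (sg G (sg G x))), nx G y ≠ sg G (sg G x) → Ds G al y ≤ 0) :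
    1 + 2 * ep al ≤ (1 - gc G al x) + (1 - gc G al (sg G x)) + (1 - gc G al (sg G (sg G x))) +
      (1 - gc G al (sg G (sg G (sg G x)))) := by
  have h1 := run_start2 G hG hx hs1 hn1
  have h2 := run_step2 G hG hx hw hin hc h8 hs hn
  have h3 := run_end2 G hG hw hw2 hin' hc' h8' hs2 hn2
  linarith

/-- **runs of `n + 1` served corners**: heads of `x`, `sg x`, .., `sg^n x` -/
theorem run2 (hG : G.Geo4 al kp U) {x : V × V} {n : ℕ}
    (hx : ∀ i ≤ n + 1, (sg G)^[i] x ∈ SD G)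
    (hv : ∀ i ≤ n, ((sg G)^[i] x).2 ∈ inN G ∧ cv G ((sg G)^[i] x).2 = 3 ∧
      uv G al ((sg G)^[i] x).2 = 8)
    (hs : ∀ i ≤ n + 1, ∀ y ∈ kS G (ku G ((sg G)^[i] x)), 0 ≤ sp G al y)
    (hn0 : ∀ y ∈ kS G (ku G x), y ≠ x → Ds G al y ≤ 0)
    (hn : ∀ i, 1 ≤ i → i ≤ n → ∀ y ∈ kS G (ku G ((sg G)^[i] x)), y ≠ (sg G)^[i] x →
      nx G y ≠ (sg G)^[i] x → Ds G al y ≤ 0)
    (hn1 : ∀ y ∈ kS G (ku G ((sg G)^[n + 1] x)), nx G y ≠ (sg G)^[n + 1] x → Ds G al y ≤ 0) :
    1 + ((n : ℝ) + 1) * ep al ≤ ∑ i ∈ Finset.range (n + 3), (1 - gc G al ((sg G)^[i] x)) := by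
  have key : ∀ k ≤ n, 1 + (k : ℝ) * ep al -
      ∑ i ∈ Finset.range (k + 2), (1 - gc G al ((sg G)^[i] x)) ≤ Ds G al ((sg G)^[k] x) := by
    intro k
    induction k with
    | zero =>
      intro _
      have h := run_start2 G hG (x := x) (hx 0 (by omega)) (hs 0 (by omega)) hn0
      rw [Finset.sum_range_succ, Finset.sum_range_succ, Finset.sum_range_zero]
      have e1 : (sg G)^[0 + 1] x = sg G x := rfl
      have e0 : (sg G)^[0] x = x := rfl
      rw [e1, e0]
      push_cast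
      linarith
    | succ k ih =>
      intro hk
      have h0 := ih (by omega)
      have e1 : (sg G)^[k + 1] x = sg G ((sg G)^[k] x) := Function.iterate_succ_apply' _ _ _
      have e2 : (sg G)^[k + 1 + 1] x = sg G (sg G ((sg G)^[k] x)) := by
        rw [Function.iterate_succ_apply', e1]
      obtain ⟨v1, v2, v3⟩ := hv k (by omega)
      have h := run_step2 G hG (x := (sg G)^[k] x) (hx k (by omega))
        (by rw [← e1]; exact hx (k + 1) (by omega)) v1 v2 v3
        (by rw [← e1]; exact hs (k + 1) (by omega))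
        (by rw [← e1]; exact hn (k + 1) (by omega) hk)
      rw [Finset.sum_range_succ, e1]
      rw [← e2] at h
      push_cast
      have e3 : (sg G)^[k + 2] x = (sg G)^[k + 1 + 1] x := rfl
      rw [e3]
      linarith
  have h1 := key n le_rfl
  have e1 : (sg G)^[n + 1] x = sg G ((sg G)^[n] x) := Function.iterate_succ_apply' _ _ _
  have e2 : (sg G)^[n + 2] x = sg G (sg G ((sg G)^[n] x)) := by
    rw [Function.iterate_succ_apply', Function.iterate_succ_apply']
  obtain ⟨v1, v2, v3⟩ := hv n le_rfl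
  have h := run_end2 G hG (x := (sg G)^[n] x) (hx n (by omega))
    (by rw [← e1]; exact hx (n + 1) le_rfl) v1 v2 v3
    (by rw [← e1]; exact hs (n + 1) le_rfl)
    (by rw [← e1]; exact hn1)
  rw [← e2] at h
  rw [Finset.sum_range_succ]
  linarith

end

end Pool.Agent.PEN.E5
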