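import Pool.Agent.E5.SkD89
import Pool.Agent.P4.W4R_71

/-! # PENNY, all small diameters: the rhombus in gaps (row R11)

`Rf G al opp` (file `P4/RfD51`) are the rhombus facts, proved in `W4.rf51` for a triangulated set of
points (`DelG`). -/

set_option autoImplicit false

namespace Pool.Agent.PEN.E5

open Classical UpperHalfPlane
open Pool.Agent.PEN.Cl

noncomputable section

section abs
variable {V : Type} (G : Tg V) {al : ℝ} {kp : V → V → ℝ} {U : ℕ → ℝ}

/-- the corners of a white face are big -/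
theorem ntt_WF32 {C : G.adj.ConnectedComponent} (hC : C ∈ WF G) {x : V × V} (hx : x ∈ G.cJ C) :
    x ∈ iJ G ∧ G.cl x = C ∧ ¬ tt G x := by
  obtain ⟨h1, h2⟩ := (mem_WF89 G).1 hC
  obtain ⟨h3, h4⟩ := cJ_iJ51 G h1 hx
  refine ⟨h3, h4, fun h => ?_⟩
  have h5 := cI_tt89 G h
  rw [h4] at h5
  exact h2.ne_empty h5

/-- a rhombus is a white face -/
theorem RC_WF32 {C : G.adj.ConnectedComponent} (hC : C ∈ G.iC) (hR : RC G C) : C ∈ WF G :=
  (mem_WF89 G).2 ⟨hC, Finset.nonempty_iff_ne_empty.2 (RC_ne51 G hR)⟩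

/-- `sg` stays in the face -/
theorem sg_cJ32 (hG : G.Geo4 al kp U) {C : G.adj.ConnectedComponent} (hC : C ∈ G.iC)
    {x : V × V} (hx : x ∈ G.cJ C) : sg G x ∈ G.cJ C := by
  obtain ⟨h1, h2⟩ := cJ_iJ51 G hC hx
  obtain ⟨h3, h4⟩ := W4.sg_mem51 G hG h1
  have := iJ_cJ51 G h3
  rw [h4, h2] at this
  exact this

/-- the corners of a rhombus have two units -/
theorem rh_un32 (hG : G.Geo4 al kp U) {C : G.adj.ConnectedComponent} (hC : C ∈ WF G)
    (hR : RC G C) {x : V × V} (hx : x ∈ G.cJ C) : un G al x = 2 := by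
  obtain ⟨h1, h2, h3⟩ := ntt_WF32 G hC hx
  have h4 := W4.wc_two71 G hG ((mem_WF89 G).1 hC).1 hR.2 x hx hR.1
  have h5 : wc G al x ≤ 2 := W4.wc_le71 G hG (n := 2) (by push_cast; exact h4)
  unfold un
  rw [if_neg h3, max_eq_left h5]

/-- the gap of a corner of a rhombus -/
theorem rh_gc32 (hG : G.Geo4 al kp U) {C : G.adj.ConnectedComponent} (hC : C ∈ WF G)
    (hR : RC G C) {x : V × V} (hx : x ∈ G.cJ C) : gc G al x = 2 - TH G x / al := by
  unfold gc
  rw [rh_un32 G hG hC hR hx]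
  norm_num

/-- the corners of a rhombus are at least `al` -/
theorem rh_low32 (hG : G.Geo4 al kp U) {C : G.adj.ConnectedComponent} (hC : C ∈ G.iC)
    (hR : RC G C) {x : V × V} (hx : x ∈ G.cJ C) : al ≤ TH G x := by
  obtain ⟨a, b, R1, hx0, s1, s2, s3, s4, t1, t2, t3, t4, _⟩ := W4.rh_data51 G hG hC hR
  have R2 : G.Rh b a := ⟨R1.2.1, R1.1, fun h => R1.2.2.1 (G.csymm _ _ h), R1.2.2.2.2.2.1,
    R1.2.2.2.2.2.2, R1.2.2.2.1, R1.2.2.2.2.1⟩
  have r1 := (hG.rh1 _ _ R1).1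
  have r2 := (hG.rh2 _ _ R1).1
  have r3 := (hG.rh1 _ _ R2).1
  have r4 := (hG.rh2 _ _ R2).1
  rcases hx0 x hx with rfl | rfl | rfl | rfl
  · rw [t1]; linarith
  · rw [t2]; linarith
  · rw [t3]; linarith
  · rw [t4]; linarith

theorem rh_gc_le32 (hG : G.Geo4 al kp U) {C : G.adj.ConnectedComponent} (hC : C ∈ WF G)
    (hR : RC G C) {x : V × V} (hx : x ∈ G.cJ C) : gc G al x ≤ 1 := by
  have hal := W4.al_pos71 G hG
  have h1 := rh_low32 G hG ((mem_WF89 G).1 hC).1 hR hx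
  have h2 : 1 ≤ TH G x / al := (le_div_iff₀ hal).2 (by rw [one_mul]; exact h1)
  rw [rh_gc32 G hG hC hR hx]
  linarith

/-- a rhombus has four corners -/
theorem rh_card32 {C : G.adj.ConnectedComponent} (hC : C ∈ G.iC) (hR : RC G C) :
    (G.cJ C).card = 4 := by
  have hsplit := card_split66 G C
  have hB : (G.cB C).card = 0 := by
    rw [cB_of_iC66 G hC]
    rfl
  have h1 := hR.1
  have h2 := hR.2
  omega

/-- four steps around a rhombus -/
theorem rh_four32 (hG : G.Geo4 al kp U) {C : G.adj.ConnectedComponent} (hC : C ∈ G.iC)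
    (hR : RC G C) {x : V × V} (hx : x ∈ G.cJ C) :
    sg G (sg G (sg G (sg G x))) = x ∧
      G.cJ C = {x, sg G x, sg G (sg G x), sg G (sg G (sg G x))} := by
  obtain ⟨a, b, R1, hx0, s1, s2, s3, s4, _⟩ := W4.rh_data51 G hG hC hR
  have h4 : sg G (sg G (sg G (sg G x))) = x := by
    rcases hx0 x hx with rfl | rfl | rfl | rfl
    · rw [s1, s2, s3, s4]
    · rw [s2, s3, s4, s1]
    · rw [s3, s4, s1, s2]
    · rw [s4, s1, s2, s3]
  refine ⟨h4, ?_⟩
  have m1 := sg_cJ32 G hG hC hx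
  have m2 := sg_cJ32 G hG hC m1
  have m3 := sg_cJ32 G hG hC m2
  have hsub : ({x, sg G x, sg G (sg G x), sg G (sg G (sg G x))} : Finset (V × V)) ⊆ G.cJ C := by
    intro z hz
    rw [Finset.mem_insert, Finset.mem_insert, Finset.mem_insert, Finset.mem_singleton] at hz
    rcases hz with rfl | rfl | rfl | rfl
    · exact hx
    · exact m1
    · exact m2
    · exact m3
  apply Finset.Subset.antisymm _ hsub
  intro z hz
  rw [Finset.mem_insert, Finset.mem_insert, Finset.mem_insert, Finset.mem_singleton]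
  rcases hx0 x hx with rfl | rfl | rfl | rfl
  · rw [s1, s2, s3]
    rcases hx0 z hz with h | h | h | h <;> simp [h]
  · rw [s2, s3, s4]
    rcases hx0 z hz with h | h | h | h <;> simp [h]
  · rw [s3, s4, s1]
    rcases hx0 z hz with h | h | h | h <;> simp [h]
  · rw [s4, s1, s2]
    rcases hx0 z hz with h | h | h | h <;> simp [h]

/-- the four corners of a rhombus are different -/
theorem rh_ne32 (hG : G.Geo4 al kp U) {C : G.adj.ConnectedComponent} (hC : C ∈ G.iC)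
    (hR : RC G C) {x : V × V} (hx : x ∈ G.cJ C) :
    x ≠ sg G x ∧ x ≠ sg G (sg G x) ∧ x ≠ sg G (sg G (sg G x)) := by
  obtain ⟨h1, h2⟩ := rh_four32 G hG hC hR hx
  have h3 := rh_card32 G hC hR
  rw [h2] at h3
  refine ⟨fun h => ?_, fun h => ?_, fun h => ?_⟩
  · rw [← h, ← h, ← h] at h3
    simp at h3
  · have h4 : ({x, sg G x, sg G (sg G x), sg G (sg G (sg G x))} : Finset (V × V)) ⊆
        {x, sg G x} := by
      rw [← h]
      intro z hz
      simp only [Finset.mem_insert, Finset.mem_singleton] at hz ⊢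
      tauto
    have h5 := Finset.card_le_card h4
    have h6 : ({x, sg G x} : Finset (V × V)).card ≤ 2 := Finset.card_le_two
    omega
  · have h4 : ({x, sg G x, sg G (sg G x), sg G (sg G (sg G x))} : Finset (V × V)) ⊆
        {x, sg G x, sg G (sg G x)} := by
      rw [← h]
      intro z hz
      simp only [Finset.mem_insert, Finset.mem_singleton] at hz ⊢
      tauto
    have h5 := Finset.card_le_card h4
    have h6 : ({x, sg G x, sg G (sg G x)} : Finset (V × V)).card ≤ 3 := Finset.card_le_three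
    omega

/-- a rhombus costs nothing -/
theorem rh_ka32 (hG : G.Geo4 al kp U) {C : G.adj.ConnectedComponent} (hC : C ∈ WF G)
    (hR : RC G C) : ka G al C = 0 := by
  have h1 : ∑ x ∈ G.cJ C, (un G al x : ℝ) = 8 := by
    rw [Finset.sum_congr rfl (fun x hx => by rw [rh_un32 G hG hC hR hx]), Finset.sum_const,
      rh_card32 G ((mem_WF89 G).1 hC).1 hR, nsmul_eq_mul]
    norm_num
  unfold ka
  rw [h1, hR.1, hR.2]
  norm_num

/-- `m - 4` is zero -/
theorem rh_qa32 {C : G.adj.ConnectedComponent} (hR : RC G C) : qa G C = 0 := by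
  unfold qa
  rw [hR.1, hR.2]
  norm_num

/-- the sum of the gaps of a rhombus is at least two -/
theorem rh_sum32 (hG : G.Geo4 al kp U) {C : G.adj.ConnectedComponent} (hC : C ∈ WF G)
    (hR : RC G C) : 2 ≤ ∑ x ∈ G.cJ C, gc G al x := by
  have hal := W4.al_pos71 G hG
  have hC' := ((mem_WF89 G).1 hC).1
  have h1 : ∑ x ∈ G.cJ C, gc G al x = 8 - (∑ x ∈ G.cJ C, TH G x) / al := by
    rw [Finset.sum_congr rfl (fun x hx => rh_gc32 G hG hC hR hx), Finset.sum_sub_distrib,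
      Finset.sum_const, rh_card32 G hC' hR, nsmul_eq_mul, Finset.sum_div]
    norm_num
  have h2 := W4.sum_TH_class71 G hG hC'
  have h3 := sum_th71 G C
  have h4 := hG.pol C (cB_of_iC66 G hC')
  rw [hR.1] at h3 h4
  rw [h1, h2, h3]
  have h5 : (Real.pi * ((2 : ℕ) : ℝ) - ∑ x ∈ G.cD C, G.ar x.1 x.2 / 3) / al ≤ 6 := by
    rw [div_le_iff₀ hal]
    unfold A3 at h4
    push_cast at h4 ⊢
    linarith
  linarith

/-! ### with the rhombus facts -/

/-- opposite corners of a rhombus have the same angle and the same gap -/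
theorem rh_opp32 (hG : G.Geo4 al kp U) {op : ℝ → ℝ} (hf : Rf G al op)
    {C : G.adj.ConnectedComponent} (hC : C ∈ WF G) (hR : RC G C) {x : V × V} (hx : x ∈ G.cJ C) :
    TH G (sg G (sg G x)) = TH G x ∧ gc G al (sg G (sg G x)) = gc G al x := by
  have hC' := ((mem_WF89 G).1 hC).1
  obtain ⟨h1, h2⟩ := cJ_iJ51 G hC' hx
  have h3 := hf.per x h1 (by rw [h2]; exact hR)
  refine ⟨h3, ?_⟩
  have m1 := sg_cJ32 G hG hC' hx
  have m2 := sg_cJ32 G hG hC' m1
  rw [rh_gc32 G hG hC hR hx, rh_gc32 G hG hC hR m2, h3]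

/-- **the sides of a rhombus are strong** -/
theorem rh_pair32 (hG : G.Geo4 al kp U) {op : ℝ → ℝ} (hf : Rf G al op)
    {C : G.adj.ConnectedComponent} (hC : C ∈ WF G) (hR : RC G C) {x : V × V} (hx : x ∈ G.cJ C) :
    1 ≤ gc G al x + gc G al (sg G x) := by
  have hal := W4.al_pos71 G hG
  have hC' := ((mem_WF89 G).1 hC).1
  obtain ⟨h1, h2⟩ := cJ_iJ51 G hC' hx
  have h3 := hf.sum x h1 (by rw [h2]; exact hR)
  have m1 := sg_cJ32 G hG hC' hx
  have h4 : (TH G x + TH G (sg G x)) / al ≤ 3 := (div_le_iff₀ hal).2 h3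
  rw [rh_gc32 G hG hC hR hx, rh_gc32 G hG hC hR m1]
  rw [add_div] at h4
  linarith

theorem rh_sp32 (hG : G.Geo4 al kp U) {op : ℝ → ℝ} (hf : Rf G al op)
    {C : G.adj.ConnectedComponent} (hC : C ∈ WF G) (hR : RC G C) {x : V × V} (hx : x ∈ G.cJ C) :
    0 ≤ sp G al x := by
  have := rh_pair32 G hG hf hC hR hx
  unfold sp
  linarith

/-- the two sides at a corner of a rhombus have the same surplus -/
theorem rh_sp_eq32 (hG : G.Geo4 al kp U) {op : ℝ → ℝ} (hf : Rf G al op)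
    {C : G.adj.ConnectedComponent} (hC : C ∈ WF G) (hR : RC G C) {x : V × V} (hx : x ∈ G.cJ C) :
    sp G al (sg G x) = sp G al x := by
  unfold sp
  rw [(rh_opp32 G hG hf hC hR hx).2]
  ring

/-- **row R11** -/
theorem rh32 (hG : G.Geo4 al kp U) {op : ℝ → ℝ} (hf : Rf G al op)
    {C : G.adj.ConnectedComponent} (hC : C ∈ WF G) (hR : RC G C) {x : V × V} (hx : x ∈ G.cJ C) :
    un G al x = 2 ∧ TH G (sg G (sg G x)) = TH G x ∧ gc G al (sg G (sg G x)) = gc G al x ∧
    1 ≤ gc G al x + gc G al (sg G x) ∧ gc G al x ≤ 1 ∧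
    sg G (sg G (sg G (sg G x))) = x ∧
    G.cJ C = {x, sg G x, sg G (sg G x), sg G (sg G (sg G x))} ∧ ka G al C = 0 :=
  ⟨rh_un32 G hG hC hR hx, (rh_opp32 G hG hf hC hR hx).1, (rh_opp32 G hG hf hC hR hx).2,
    rh_pair32 G hG hf hC hR hx, rh_gc_le32 G hG hC hR hx,
    (rh_four32 G hG ((mem_WF89 G).1 hC).1 hR hx).1, (rh_four32 G hG ((mem_WF89 G).1 hC).1 hR hx).2,
    rh_ka32 G hG hC hR⟩

end abs

section conc
variable {G : Tg ℍ} {d : ℝ} {kp : ℍ → ℍ → ℝ} {U : ℕ → ℝ}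

/-- the rhombus facts hold for a triangulated set of points -/
theorem rf32 (hG : G.Geo4 (alpha d) kp U) (hD : DelG G d) : Rf G (alpha d) (opp51 d) :=
  W4.rf51 hG hD (fun C hC => hG.pol C (cB_of_iC66 G hC))

/-- **row R11** for a triangulated set of points -/
theorem rhD32 (hG : G.Geo4 (alpha d) kp U) (hD : DelG G d)
    {C : G.adj.ConnectedComponent} (hC : C ∈ WF G) (hR : RC G C) {x : ℍ × ℍ} (hx : x ∈ G.cJ C) :
    un G (alpha d) x = 2 ∧ TH G (sg G (sg G x)) = TH G x ∧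
    gc G (alpha d) (sg G (sg G x)) = gc G (alpha d) x ∧
    1 ≤ gc G (alpha d) x + gc G (alpha d) (sg G x) ∧ gc G (alpha d) x ≤ 1 ∧
    sg G (sg G (sg G (sg G x))) = x ∧
    G.cJ C = {x, sg G x, sg G (sg G x), sg G (sg G (sg G x))} ∧ ka G (alpha d) C = 0 :=
  rh32 G hG (rf32 hG hD) hC hR hx

end conc

end

end Pool.Agent.PEN.E5
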