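import Pool.Agent.E5.Disc61
import Pool.Agent.E5.Pc19
import Pool.Agent.E5.Vb19
import Pool.Agent.E5.Rh32

/-! # PENNY: the white row of the set `θ = 1, y = 1, Λ ≥ 6` (helper61)

Every white face except P12 and H17 pays `4` for every weak side and `p z` for every corner `z`, where
`p z ≤ un z - 3`, or `p z ≤ un z - 2` if `z` is a centre (`Cen61`). -/

set_option autoImplicit false

namespace Pool.Agent.PEN.E5

open Finset

/-- the table -/
theorem disc_tableB61 {m U Γ w c q : ℕ} (hm : 5 ≤ m) (hG : U + Γ + 6 = 4 * m) (hq : U = 2 * m + q)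
    (hΓ : 1 ≤ Γ) (h5 : m = 5 → U ≤ 12)
    (hw : w + 2 ≤ 2 * Γ ∨ w = 0 ∨ (w = m ∧ m + 1 ≤ 2 * Γ)) (hwm : w ≤ m) (hc : c ≤ q)
    (h7 : m = 7 → Γ = 1 → c ≤ 4) (h6 : m = 6 → Γ = 2 → w = 2 → c ≤ 2)
    (h51 : m = 5 → U = 11 → w ≤ 3) (e1 : ¬ (m = 5 ∧ U = 12)) (e2 : ¬ (m = 6 ∧ U = 17)) :
    4 * w + c + 42 ≤ 5 * m + 11 * Γ := by
  have hU : U = 4 * m - 6 - Γ := by omega
  subst hU
  have hq' : q + Γ + 6 = 2 * m := by omega
  clear hq hG
  rcases Nat.lt_or_ge m 8 with h8 | h8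
  · have hΓ2 : Γ ≤ 8 := by omega
    interval_cases m <;> interval_cases Γ <;> omega
  · clear e1 e2 h5 h7 h6 h51
    rcases Nat.lt_or_ge Γ 5 with h | h
    · interval_cases Γ <;> omega
    · rcases hw with hw | hw | hw <;> omega

end Pool.Agent.PEN.E5

namespace Pool.Agent.PEN.E5

open Finset

open Classical UpperHalfPlane
open Pool.Agent.PEN.Cl

noncomputable section

variable {V : Type} (G : Tg V) {al : ℝ} {kp : V → V → ℝ} {U : ℕ → ℝ}

/-- the charge of a corner -/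
def cc61 (al : ℝ) (z : V × V) : ℕ := if Cen61 G al z then un G al z - 2 else un G al z - 3

theorem cc_le61 (z : V × V) : cc61 G al z ≤ un G al z - 2 := by
  unfold cc61
  split_ifs <;> omega

/-- the extra units of a white face -/
theorem extra61 {C : G.adj.ConnectedComponent} (hC : C ∈ WF G) {q : ℕ}
    (hq : uf G al C = 2 * (G.cJ C).card + q) {L : Finset (V × V)} (hL : L ⊆ G.cJ C) :
    ∑ z ∈ L, (un G al z - 2) ≤ q := by
  have h3 : ∑ z ∈ L, (un G al z - 2) ≤ ∑ z ∈ G.cJ C, (un G al z - 2) :=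
    Finset.sum_le_sum_of_subset hL
  have h4 : ∑ z ∈ G.cJ C, (un G al z - 2) + ∑ z ∈ G.cJ C, 2 = uf G al C := by
    rw [← Finset.sum_add_distrib]
    unfold uf
    exact Finset.sum_congr rfl fun z hz => by
      have := un_ge_WF46 (al := al) G hC hz
      omega
  rw [Finset.sum_const, smul_eq_mul] at h4
  omega

/-- the white row for the discs -/
theorem whiteD61 (hG : G.Geo4 al kp U) (hT : ∀ x ∈ BC G, al ≤ TH G x)
    {C : G.adj.ConnectedComponent} (hC : C ∈ WF G) (hd : (G.cI C).card + 2 = 2 * (G.cT C).card)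
    (hm : 5 ≤ (G.cJ C).card) (h5 : (G.cJ C).card = 5 → uf G al C ≤ 12)
    (hV : ∀ z ∈ G.cJ C, un G al z + 2 ≤ (G.cJ C).card)
    (h51 : (G.cJ C).card = 5 → uf G al C = 11 → (Wk G al C).card ≤ 3)
    (e1 : ¬ ((G.cJ C).card = 5 ∧ uf G al C = 12)) (e2 : ¬ ((G.cJ C).card = 6 ∧ uf G al C = 17))
    {L : Finset (V × V)} (hL : L ⊆ G.cJ C) :
    (4 : ℝ) * (Wk G al C).card + ∑ z ∈ L, (cc61 G al z : ℝ) ≤ 11 * ka G al C - 6 * qa G C := by
  have hCi := ((mem_WF89 G).1 hC).1
  have hufl := disc_uf46 G hG hT hC hd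
  have hufg := uf_ge46 (al := al) G hC
  obtain ⟨Γ, hΓ⟩ : ∃ Γ, uf G al C + Γ + 6 = 4 * (G.cJ C).card :=
    ⟨4 * (G.cJ C).card - 6 - uf G al C, by omega⟩
  obtain ⟨q, hq⟩ : ∃ q, uf G al C = 2 * (G.cJ C).card + q :=
    ⟨uf G al C - 2 * (G.cJ C).card, by omega⟩
  obtain ⟨Ce, hCe⟩ : ∃ Ce, Ce = L.filter (fun z => Cen61 G al z) := ⟨_, rfl⟩
  have hCe1 : Ce ⊆ G.cJ C := by
    rw [hCe]
    exact (Finset.filter_subset _ _).trans hL
  have hCe2 : ∀ z ∈ Ce, Cen61 G al z := by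
    intro z hz
    rw [hCe, Finset.mem_filter] at hz
    exact hz.2
  obtain ⟨a1, a2, a3, a4, a5, a6, a7⟩ := disc_mass61 G hG hT hC hd hm hCe1 hCe2 hΓ
  obtain ⟨c, hc⟩ : ∃ c, c = ∑ z ∈ L, cc61 G al z := ⟨_, rfl⟩
  have hex := extra61 (al := al) G hC hq hL
  have hcq : c ≤ q := by
    rw [hc]
    exact (Finset.sum_le_sum fun z _ => cc_le61 G z).trans hex
  -- without centres
  have hemp : Ce = ∅ → c = ∑ z ∈ L, (un G al z - 3) := by
    intro h
    rw [hc]
    refine Finset.sum_congr rfl fun z hz => ?_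
    unfold cc61
    rw [if_neg]
    intro h2
    have : z ∈ Ce := by
      rw [hCe, Finset.mem_filter]
      exact ⟨hz, h2⟩
    rw [h] at this
    exact absurd this (Finset.notMem_empty z)
  have h7 : (G.cJ C).card = 7 → Γ = 1 → c ≤ 4 := by
    intro hm7 hΓ1
    have h8 := hemp (a2 hΓ1).2
    have h9 : 3 * c ≤ 2 * ∑ z ∈ L, (un G al z - 2) := by
      rw [h8, Finset.mul_sum, Finset.mul_sum]
      refine Finset.sum_le_sum fun z hz => ?_
      have := hV z (hL hz)
      have := un_ge_WF46 (al := al) G hC (hL hz)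
      omega
    omega
  have h6 : (G.cJ C).card = 6 → Γ = 2 → (Wk G al C).card = 2 → c ≤ 2 := by
    intro hm6 hΓ2 hw2
    have h8 := hemp (a6 (by omega) (by omega))
    have h9 : 2 * c ≤ ∑ z ∈ L, (un G al z - 2) := by
      rw [h8, Finset.mul_sum]
      refine Finset.sum_le_sum fun z hz => ?_
      have := hV z (hL hz)
      have := un_ge_WF46 (al := al) G hC (hL hz)
      omega
    omega
  have key := disc_tableB61 (c := c) hm hΓ hq a1 h5 a3 a4 hcq h7 h6 h51 e1 e2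
  have key' : (4 : ℝ) * (Wk G al C).card + c + 42 ≤ 5 * (G.cJ C).card + 11 * Γ := by
    exact_mod_cast key
  have hΓ' : (uf G al C : ℝ) + Γ + 6 = 4 * (G.cJ C).card := by exact_mod_cast hΓ
  have hc' : ∑ z ∈ L, (cc61 G al z : ℝ) = c := by
    rw [hc]
    push_cast
    rfl
  rw [hc', disc_ka46 G hCi hd, disc_qa46 G hCi hd]
  linarith

/-- the white row for the classes that are no disc -/
theorem whiteN61 (hG : G.Geo4 al kp U) (hT : ∀ x ∈ BC G, al ≤ TH G x)
    {C : G.adj.ConnectedComponent} (hC : C ∈ WF G) (hd : 2 * (G.cT C).card ≤ (G.cI C).card)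
    {L : Finset (V × V)} (hL : L ⊆ G.cJ C) :
    (4 : ℝ) * (Wk G al C).card + ∑ z ∈ L, (cc61 G al z : ℝ) ≤ 11 * ka G al C - 6 * qa G C := by
  have hCi := ((mem_WF89 G).1 hC).1
  have h3 := m_eq46 G hCi
  have h3' : ((G.cJ C).card : ℝ) + (G.cI C).card = 3 * (G.cT C).card := by exact_mod_cast h3
  have h4 : 2 * ((G.cT C).card : ℝ) ≤ (G.cI C).card := by exact_mod_cast hd
  have h5 : ((Wk G al C).card : ℝ) ≤
      2 * ((G.cJ C).card + 3 * (G.cT C).card - (uf G al C : ℝ)) := by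
    rcases Finset.eq_empty_or_nonempty (Wk G al C) with h | h
    · rw [h, Finset.card_empty]
      have h6 := uf_lt46 G hG hT hC
      have h7 : (uf G al C : ℝ) + 1 ≤ (G.cJ C).card + 3 * (G.cT C).card := by exact_mod_cast h6
      push_cast
      linarith
    · exact (weak_lt46 G hG hT hC h).le
  have hufg := uf_ge46 (al := al) G hC
  obtain ⟨q, hq⟩ : ∃ q, uf G al C = 2 * (G.cJ C).card + q :=
    ⟨uf G al C - 2 * (G.cJ C).card, by omega⟩
  have hex := extra61 (al := al) G hC hq hL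
  have hcq : ∑ z ∈ L, cc61 G al z ≤ q := (Finset.sum_le_sum fun z _ => cc_le61 G z).trans hex
  have hcq' : ∑ z ∈ L, (cc61 G al z : ℝ) ≤ q := by exact_mod_cast hcq
  have hq' : (uf G al C : ℝ) = 2 * (G.cJ C).card + q := by exact_mod_cast hq
  have hw0 : (0 : ℝ) ≤ (Wk G al C).card := Nat.cast_nonneg _
  have hT0 : (0 : ℝ) ≤ (G.cT C).card := Nat.cast_nonneg _
  rw [ka_uf46]
  unfold qa
  linarith

section conc
variable {G : Tg ℍ} {d : ℝ} {kp : ℍ → ℍ → ℝ} {U : ℕ → ℝ}

/-- a pentagon class with `11` units has at most three weak sides -/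
theorem p11_61 (hG : G.Geo4 (alpha d) kp U) (hD : DelG G d) (hS : Sep d G.P)
    {C : G.adj.ConnectedComponent} (hC : C ∈ WF G) (hm : (G.cT C).card = 3)
    (hI : (G.cI C).card = 4) (hu : uf G (alpha d) C = 11) : (Wk G (alpha d) C).card ≤ 3 := by
  have hCi := ((mem_WF89 G).1 hC).1
  have hm' := m_eq46 G hCi
  have hJ : (G.cJ C).card = 5 := by omega
  have pu : ∀ x ∈ G.cJ C, Pun19 G d x := fun x hx => pent_units19 hG hD hS hCi hm hI hx
  obtain ⟨x, hx, hx3⟩ : ∃ x ∈ G.cJ C, 3 ≤ un G (alpha d) x := by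
    by_contra hno
    push Not at hno
    have : uf G (alpha d) C ≤ ∑ x ∈ G.cJ C, 2 := by
      unfold uf
      exact Finset.sum_le_sum fun x hx => by
        have := hno x hx
        omega
    rw [Finset.sum_const, smul_eq_mul, hJ, hu] at this
    omega
  obtain ⟨y, hy, hyx⟩ := sg_surj19 G hG x (cJ_iJ51 G hCi hx).1
  have hyC : y ∈ G.cJ C := by
    have h4 := (W4.sg_mem51 G hG hy).2
    rw [hyx] at h4
    have h5 := (cJ_iJ51 G hCi hx).2
    have h6 := iJ_cJ51 G hy
    rw [← h4, h5] at h6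
    exact h6
  have hne : x ≠ y := by
    intro h
    exact sg_ne46 G hy (hyx.trans h)
  have s1 : 0 ≤ sp G (alpha d) x := by
    have h1 := pu x hx
    have h2 := (pu (sg G x) (sg_cJ19 hG hCi hx)).two
    exact h1.str (by omega)
  have s2 : 0 ≤ sp G (alpha d) y := by
    have h1 := pu y hyC
    have h2 := h1.two
    refine h1.str ?_
    rw [hyx]
    omega
  have hsub : Wk G (alpha d) C ⊆ ((G.cJ C).erase x).erase y := by
    intro z hz
    have h1 := Finset.mem_filter.1 hz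
    rw [Finset.mem_erase, Finset.mem_erase]
    refine ⟨?_, ?_, h1.1⟩
    · rintro rfl
      exact absurd h1.2 (not_lt.2 s2)
    · rintro rfl
      exact absurd h1.2 (not_lt.2 s1)
  have h7 := Finset.card_le_card hsub
  rw [Finset.card_erase_of_mem (Finset.mem_erase.2 ⟨hne.symm, hyC⟩), Finset.card_erase_of_mem hx,
    hJ] at h7
  exact h7

/-- **THE WHITE ROW**: every white face except P12 and H17 -/
theorem white61 (hG : G.Geo4 (alpha d) kp U) (hD : DelG G d) (hS : Sep d G.P) {La : ℝ}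
    (hLa : 6 ≤ La) {C : G.adj.ConnectedComponent} (hC : C ∈ WF G)
    (e1 : ¬ ((G.cT C).card = 3 ∧ (G.cI C).card = 4 ∧ uf G (alpha d) C = 12))
    (e2 : ¬ ((G.cT C).card = 4 ∧ (G.cI C).card = 6 ∧ uf G (alpha d) C = 17))
    {L : Finset (ℍ × ℍ)} (hL : L ⊆ G.cJ C) {p : ℍ × ℍ → ℝ}
    (hp : ∀ z ∈ L, p z ≤ ((un G (alpha d) z - 3 : ℕ) : ℝ) ∨
      (Cen61 G (alpha d) z ∧ p z ≤ (un G (alpha d) z : ℝ) - 2)) :
    4 * ((Wk G (alpha d) C).card : ℝ) + ∑ z ∈ L, p z ≤
      (La + 5) * ka G (alpha d) C - 6 * qa G C := by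
  have hCi := ((mem_WF89 G).1 hC).1
  have hT : ∀ x ∈ BC G, alpha d ≤ TH G x := fun x hx =>
    TH_ge19 hG hD hS ((mem_BC89 G).1 hx).1
  have hka := ka_nonneg46 G hG hT hC
  have hpc : ∑ z ∈ L, p z ≤ ∑ z ∈ L, (cc61 G (alpha d) z : ℝ) := by
    refine Finset.sum_le_sum fun z hz => ?_
    have h2 := un_ge_WF46 (al := alpha d) G hC (hL hz)
    unfold cc61
    rcases hp z hz with h | ⟨h, h'⟩
    · split_ifs with h3
      · refine h.trans ?_
        exact_mod_cast (show un G (alpha d) z - 3 ≤ un G (alpha d) z - 2 by omega)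
      · exact h
    · rw [if_pos h, Nat.cast_sub h2]
      exact_mod_cast h'
  have main : (4 : ℝ) * (Wk G (alpha d) C).card + ∑ z ∈ L, (cc61 G (alpha d) z : ℝ) ≤
      11 * ka G (alpha d) C - 6 * qa G C := by
    rcases disc_or46 G C with hd | hd
    swap
    · exact whiteN61 G hG hT hC hd hL
    have hm := disc_m46 G hCi hd
    have h4 := disc_ge46 G hC hd
    rcases Nat.lt_or_ge (G.cJ C).card 5 with h5 | h5
    · -- rhombus
      have hR : RC G C := ⟨by omega, by omega⟩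
      obtain ⟨r1, r2, r3, r4⟩ := rhomb_uf46 G hG hC hR.1 hR.2
      have hw : Wk G (alpha d) C = ∅ := by
        rw [Finset.eq_empty_iff_forall_notMem]
        intro z hz
        have h1 := Finset.mem_filter.1 hz
        exact absurd h1.2 (not_lt.2 (rh_sp32 G hG (rf32 hG hD) hC hR h1.1))
      have hc : ∑ z ∈ L, (cc61 G (alpha d) z : ℝ) = 0 := by
        refine Finset.sum_eq_zero fun z hz => ?_
        have h1 := cc_le61 (al := alpha d) G z
        rw [r1 z (hL hz)] at h1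
        have : cc61 G (alpha d) z = 0 := by omega
        rw [this, Nat.cast_zero]
      rw [hw, hc, r4, disc_qa46 G hCi hd, r2]
      norm_num
    · have hpent : (G.cJ C).card = 5 → (G.cT C).card = 3 ∧ (G.cI C).card = 4 := by
        intro h
        omega
      refine whiteD61 G hG hT hC hd h5 ?_ ?_ ?_ ?_ ?_ hL
      · intro h
        obtain ⟨k1, k2⟩ := hpent h
        exact (pent_class19 hG hD hS hCi k1 k2).1
      · intro z hz
        have h1 := un_vis19 hG hD hS hCi (m := (G.cJ C).card - 2) (by omega) (by omega) hz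
        omega
      · intro h hu
        obtain ⟨k1, k2⟩ := hpent h
        exact p11_61 hG hD hS hC k1 k2 hu
      · rintro ⟨h, hu⟩
        obtain ⟨k1, k2⟩ := hpent h
        exact e1 ⟨k1, k2, hu⟩
      · rintro ⟨h, hu⟩
        exact e2 ⟨by omega, by omega, hu⟩
  nlinarith [mul_nonneg (sub_nonneg.2 hLa) hka]

end conc

end

end Pool.Agent.PEN.E5
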