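import Pool.Agent.E5.Bd89
import Pool.Agent.E5.Wb61
import Pool.Agent.E5.Pe39
import Pool.Agent.E5.SL2b
import Pool.Agent.E5.Hf19

/-! # PENNY, all small diameters: the rung `Λ = 8` -/

set_option autoImplicit false

namespace Pool.Agent.PEN.E5

open Classical UpperHalfPlane
open Pool.Agent.PEN.Cl

noncomputable section

section gen

variable {V : Type} (G : Tg V)

/-- the corner payments -/
def p89 (al : ℝ) (z : V × V) : ℝ :=
  if Cen61 G al z then max ((un G al z : ℝ) - 2) 0 else pm G al z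

theorem p89_nonneg (al : ℝ) (z : V × V) : 0 ≤ p89 G al z := by
  unfold p89
  split_ifs
  · exact le_max_right _ _
  · exact pm_nonneg89 G z

theorem pm_le_p89 (al : ℝ) (z : V × V) : pm G al z ≤ p89 G al z := by
  unfold p89
  split_ifs
  · unfold pm
    exact max_le_max (by linarith) le_rfl
  · exact le_rfl

theorem pm_cast89 (al : ℝ) (z : V × V) : pm G al z = ((un G al z - 3 : ℕ) : ℝ) := by
  unfold pm
  rcases Nat.lt_or_ge (un G al z) 3 with h | h
  · rw [Nat.sub_eq_zero_of_le h.le, Nat.cast_zero, max_eq_right]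
    have : (un G al z : ℝ) < 3 := by exact_mod_cast h
    linarith
  · rw [Nat.cast_sub h, max_eq_left]
    · norm_num
    · have : (3 : ℝ) ≤ un G al z := by exact_mod_cast h
      linarith

end gen

section conc

variable {G : Tg ℍ} {d : ℝ} {kp : ℍ → ℍ → ℝ} {U : ℕ → ℝ}

/-- **H17**: no weak side, and the reduced corner payments have sum at most one -/
theorem h17_89 (hG : G.Geo4 (alpha d) kp U) (hD : DelG G d) (hS : Sep d G.P)
    {C : G.adj.ConnectedComponent} (hC : C ∈ WF G)
    (e1 : (G.cT C).card = 4) (e2 : (G.cI C).card = 6) (e3 : uf G (alpha d) C = 17) :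
    (Wk G (alpha d) C).card = 0 ∧ (∀ z ∈ G.cJ C, ¬ Cen61 G (alpha d) z) ∧
      ∑ z ∈ G.cJ C, pm G (alpha d) z ≤ 1 ∧ ka G (alpha d) C = 1 ∧ qa G C = 2 := by
  have hCi := ((mem_WF89 G).1 hC).1
  have hd : (G.cI C).card + 2 = 2 * (G.cT C).card := by omega
  have hm := disc_m46 G hCi hd
  have h6 : (G.cJ C).card = 6 := by omega
  have hT : ∀ x ∈ BC G, alpha d ≤ TH G x := fun x hx =>
    TH_ge19 hG hD hS ((mem_BC89 G).1 hx).1
  refine ⟨?_, ?_, ?_, ?_, ?_⟩
  · exact ((disc_mass61 G hG hT hC hd (by omega) (Ce := ∅) (Finset.empty_subset _)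
      (fun z hz => absurd hz (Finset.notMem_empty z)) (Γ := 1) (by omega)).2.1 rfl).1
  · intro z hz hcz
    have h := ((disc_mass61 G hG hT hC hd (by omega) (Ce := {z})
      (Finset.singleton_subset_iff.2 hz)
      (fun w hw => by rw [Finset.mem_singleton.1 hw]; exact hcz) (Γ := 1) (by omega)).2.1 rfl).2
    exact absurd h (Finset.singleton_ne_empty z)
  · obtain ⟨x, hx, p0, p1, p2, p3, p4, p5, _⟩ := (hex_class19 hG hD hS hC hd h6).2 (by
      have := e3
      unfold uf at this
      omega)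
    have h1 := hex_sum19 hG hC hd h6 hx (fun z => un G (alpha d) z - 3)
    simp only [p0, p1, p2, p3, p4, p5] at h1
    have h2 : ∑ z ∈ G.cJ C, pm G (alpha d) z =
        ((∑ z ∈ G.cJ C, (un G (alpha d) z - 3) : ℕ) : ℝ) := by
      rw [Nat.cast_sum]
      exact Finset.sum_congr rfl fun z _ => pm_cast89 G _ z
    rw [h2, h1]
    norm_num
  · unfold ka
    have : (∑ x ∈ G.cJ C, (un G (alpha d) x : ℝ)) = 17 := by exact_mod_cast e3
    rw [this, e1, e2]
    norm_num
  · unfold qa
    rw [e1, e2]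
    norm_num

/-- **the white row at `Λ = 8`** -/
theorem white8_89 (hG : G.Geo4 (alpha d) kp U) (hD : DelG G d) (hS : Sep d G.P)
    {C : G.adj.ConnectedComponent} (hC : C ∈ WF G) :
    4 * ((Wk G (alpha d) C).card : ℝ) +
      ∑ x ∈ (G.cJ C).filter (fun x => x.1 ∈ lfN G), p89 G (alpha d) x ≤
        (8 + 5) * ka G (alpha d) C - 6 * qa G C := by
  have hCi := ((mem_WF89 G).1 hC).1
  have hsub : (G.cJ C).filter (fun x => x.1 ∈ lfN G) ⊆ G.cJ C := Finset.filter_subset _ _
  have hle : ∑ x ∈ (G.cJ C).filter (fun x => x.1 ∈ lfN G), p89 G (alpha d) x ≤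
      ∑ x ∈ G.cJ C, p89 G (alpha d) x :=
    Finset.sum_le_sum_of_subset_of_nonneg hsub fun x _ _ => p89_nonneg G _ x
  have hun : ∀ x ∈ G.cJ C, (2 : ℝ) ≤ un G (alpha d) x := fun x hx => by
    exact_mod_cast un_ge_WF46 (al := alpha d) G hC hx
  by_cases e1 : (G.cT C).card = 3 ∧ (G.cI C).card = 4 ∧ uf G (alpha d) C = 12
  · have h := p12_row39 hG hD hS hC e1.1 e1.2.1 e1.2.2.ge (fun x => if x ∈ G.cJ C then
      p89 G (alpha d) x else 0) (fun x => by
        split_ifs
        · exact p89_nonneg G _ x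
        · exact le_rfl) (fun x hx => by
        rw [if_pos hx]
        have := hun x hx
        unfold p89 pm
        split_ifs
        · exact max_le le_rfl (by linarith)
        · exact max_le (by linarith) (by linarith)) (Λ := 8) (by norm_num)
    rw [Finset.sum_congr rfl fun x hx => if_pos hx] at h
    linarith
  by_cases e2 : (G.cT C).card = 4 ∧ (G.cI C).card = 6 ∧ uf G (alpha d) C = 17
  · obtain ⟨h1, h2, h3, h4, h5⟩ := h17_89 hG hD hS hC e2.1 e2.2.1 e2.2.2
    have h6 : ∑ x ∈ G.cJ C, p89 G (alpha d) x = ∑ x ∈ G.cJ C, pm G (alpha d) x :=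
      Finset.sum_congr rfl fun x hx => if_neg (h2 x hx)
    rw [h1, h4, h5]
    push_cast
    linarith
  refine white61 hG hD hS (by norm_num) hC e1 e2 hsub fun z hz => ?_
  have hz2 := hun z (hsub hz)
  unfold p89
  split_ifs with h
  · exact Or.inr ⟨h, max_le le_rfl (by linarith)⟩
  · exact Or.inl (pm_cast89 G _ z).le

/-- **the rung `Λ = 8`** -/
theorem rung8_89 (hG : G.Geo4 (alpha d) kp U) (hD : DelG G d) (hS : Sep d G.P) :
    ((inN G).card : ℝ) ≤ 8 * cost G (alpha d) + 3 * gam G (alpha d) + 7 * cor G (alpha d) +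
      G.oJ.card - 6 - 3 * sE G - 2 * (G.oJ.card + (inN G).card - G.P.card) := by
  have hT : ∀ x ∈ iJ G, gc G (alpha d) x ≤ 1 := fun x hx => gc_le_one19' hG hD hS hx
  refine rung89 G hG hT (La := 8) (by norm_num) (p := p89 G (alpha d))
    (fun K _ x _ => pm_le_p89 G _ _) ?_ ?_
  · intro K _ x hL hS' hW hu
    have h := (single_cen2 G hG hT hL hS' hW hu).2.2.2.2.2
    unfold p89
    rw [if_pos h]
    exact le_max_left _ _
  · intro C hC
    have h := white8_89 hG hD hS hC
    have h2 := sum_sp_exc15 G hG ((mem_WF89 G).1 hC).1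
    have h3 := exc_nonneg15 G hG ((mem_WF89 G).1 hC).1
    linarith

end conc

end

end Pool.Agent.PEN.E5
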