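import Pool.Agent.P4.Y71l
import Pool.Agent.P4.Rm69

/-! # PENNY: the linear bound `(29 n - 42) / 12` at the diameter `d(7)` -/

set_option autoImplicit false

namespace Pool.Agent.PEN.E5

open Classical UpperHalfPlane
open Pool.Agent.PEN

noncomputable section

section D
variable {V : Type} (G : Tg V) {al : ℝ} {kp : V → V → ℝ} {U : ℕ → ℝ}

/-- the part of the structure that does not depend on the number of triangles at a point -/
structure Geo7 (al : ℝ) (kp : V → V → ℝ) (U : ℕ → ℝ) : Prop where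
  left : ∀ v a b, (v, a) ∈ G.D → (v, b) ∈ G.D → (v, a) ∉ G.Dp → (v, b) ∉ G.Dp → a = b
  cnt : G.Dp.card + 3 * (G.P.filter G.bd).card + 6 ≤ 6 * G.P.card
  tpos : ∀ a b, (a, b) ∈ G.Dp → 0 < G.ar a b
  pol : ∀ C : G.adj.ConnectedComponent, G.cB C = ∅ →
    A3 al * (G.cT C).card ≤ ∑ x ∈ G.cD C, G.ar x.1 x.2 / 3
  kanti : ∀ a b, kp a b = - kp b a
  kar : ∀ a b, (a, b) ∈ G.Dp → kp a b + kp b (G.ap a b) + kp (G.ap a b) a = G.ar a b
  walk : ∀ (v : ℕ → V) (b : ℕ), v b = v 0 → (∀ i < b, (v i, v (i + 1)) ∈ G.D) →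
    (∀ i < b, G.con (v i) (v (i + 1))) →
    ∑ i ∈ Finset.range b, kp (v i) (v (i + 1)) ≤ U b

/-- the darts with empty left side -/
theorem free_le9x15 (hG : Geo7 G al kp U) :
    (G.D.filter (fun x => x ∉ G.Dp)).card ≤ (G.P.filter G.bd).card := by
  apply Finset.card_le_card_of_injOn (fun x => x.1)
  · rintro ⟨v, a⟩ hx
    rw [Finset.mem_coe, Finset.mem_filter] at hx
    rw [Finset.mem_coe, Finset.mem_filter]
    refine ⟨G.mem _ _ hx.1, ?_⟩
    by_contra hb
    exact hx.2 (G.int1 _ _ (G.mem _ _ hx.1) hb hx.1)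
  · rintro ⟨v, a⟩ hx ⟨v', b⟩ hy h
    rw [Finset.mem_coe, Finset.mem_filter] at hx hy
    have h : v = v' := h
    subst h
    rw [hG.left v a b hx.1 hy.1 hx.2 hy.2]

theorem hull_le9x15 (hG : Geo7 G al kp U) :
    (G.D.filter (fun x => G.con x.1 x.2 ∧ x ∉ G.Dp)).card +
      (G.Dp.filter (fun x => ¬ G.con x.1 x.2 ∧ (x.2, x.1) ∉ G.Dp)).card ≤
      (G.P.filter G.bd).card := by
  refine le_trans ?_ (free_le9x15 G hG)
  have hsw : (G.Dp.filter (fun x => ¬ G.con x.1 x.2 ∧ (x.2, x.1) ∉ G.Dp)).card =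
      ((G.Dp.filter (fun x => ¬ G.con x.1 x.2 ∧ (x.2, x.1) ∉ G.Dp)).image Prod.swap).card :=
    (Finset.card_image_of_injective _ Prod.swap_injective).symm
  rw [hsw, ← Finset.card_union_of_disjoint]
  · apply Finset.card_le_card
    intro x hx
    rw [Finset.mem_union] at hx
    rcases hx with hx | hx
    · rw [Finset.mem_filter] at hx ⊢
      exact ⟨hx.1, hx.2.2⟩
    · obtain ⟨y, hy, rfl⟩ := Finset.mem_image.mp hx
      rw [Finset.mem_filter] at hy ⊢
      exact ⟨G.symm _ _ (G.sub hy.1), hy.2.2⟩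
  · rw [Finset.disjoint_left]
    intro x hx hx'
    obtain ⟨y, hy, rfl⟩ := Finset.mem_image.mp hx'
    rw [Finset.mem_filter] at hx hy
    exact hy.2.1 (G.csymm _ _ hx.2.1)

/-- R1 = (E1) -/
theorem E1_ineqx15 (hG : Geo7 G al kp U) : G.iD.card + 3 * G.oJ.card + 6 ≤ 6 * G.P.card := by
  have h1 := outer_sum9 G
  have h2 := hull_le9x15 G hG
  have h3 := hG.cnt
  have h4 : (G.Dp.filter (fun x => G.inn x)).card + (G.Dp.filter (fun x => ¬ G.inn x)).card =
      G.Dp.card := Finset.card_filter_add_card_filter_not (s := G.Dp) (fun x => G.inn x)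
  have h5 : G.iD = G.Dp.filter (fun x => G.inn x) := rfl
  have h6 : G.oJ.card = (G.Dp.filter (fun x => G.con x.1 x.2 ∧ ¬ G.inn x)).card +
      (G.D.filter (fun x => G.con x.1 x.2 ∧ x ∉ G.Dp)).card := by
    rw [← Finset.card_filter_add_card_filter_not (s := G.oJ) (fun x => x ∈ G.Dp)]
    congr 2
    · ext x
      unfold Tg.oJ
      simp only [Finset.mem_filter]
      constructor
      · rintro ⟨⟨_, h2⟩, h3⟩
        exact ⟨h3, h2⟩
      · rintro ⟨h3, h2⟩
        exact ⟨⟨G.sub h3, h2⟩, h3⟩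
    · ext x
      unfold Tg.oJ
      simp only [Finset.mem_filter]
      constructor
      · rintro ⟨⟨h1, h2, _⟩, h3⟩
        exact ⟨h1, h2, h3⟩
      · rintro ⟨h1, h2, h3⟩
        exact ⟨⟨h1, h2, fun h => h3 h.1⟩, h3⟩
  rw [h5]
  omega

theorem area_eq27x15 (hG : Geo7 G al kp U) :
    ∑ x ∈ G.iD, G.ar x.1 x.2 / 3 = ∑ x ∈ G.iB, kp x.1 x.2 := by
  have e1 : ∑ x ∈ G.iD, G.ar x.1 x.2 / 3 = (∑ x ∈ G.iD, kp x.1 x.2 +
      ∑ x ∈ G.iD, kp x.2 (G.ap x.1 x.2) + ∑ x ∈ G.iD, kp (G.ap x.1 x.2) x.1) / 3 := by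
    rw [← Finset.sum_add_distrib, ← Finset.sum_add_distrib, Finset.sum_div]
    refine Finset.sum_congr rfl fun x hx => ?_
    rw [mem_iD27] at hx
    rw [hG.kar _ _ hx.1]
  have e2 := sum_rot27 G kp
  have e3 := sum_rot27' G kp
  have e4 := iD_split27 G (fun x => kp x.1 x.2)
  have e5 := sum_swap27 G (fun x => kp x.1 x.2)
  dsimp only at e4 e5
  have e6 : ∑ x ∈ G.iD.filter (fun x => G.inn (x.2, x.1)), kp x.2 x.1 =
      - ∑ x ∈ G.iD.filter (fun x => G.inn (x.2, x.1)), kp x.1 x.2 := by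
    rw [← Finset.sum_neg_distrib]
    exact Finset.sum_congr rfl fun x _ => hG.kanti _ _
  linarith

theorem iB_ne27x15 (hG : Geo7 G al kp U) (h : G.iD.Nonempty) : G.iB.Nonempty := by
  by_contra h0
  rw [Finset.not_nonempty_iff_eq_empty] at h0
  have h1 := area_eq27x15 G hG
  rw [h0, Finset.sum_empty] at h1
  have h2 : 0 < ∑ x ∈ G.iD, G.ar x.1 x.2 / 3 := by
    refine Finset.sum_pos (fun x hx => ?_) h
    rw [mem_iD27] at hx
    have h3 := hG.tpos _ _ hx.1
    linarith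
  linarith

/-- Uc3: the boundary of the inner region -/
theorem iB_factsx15 (hG : Geo7 G al kp U) :
    (∀ v, (G.iB.filter (fun x => x.1 = v)).card = (G.iB.filter (fun x => x.2 = v)).card) ∧
    (∀ x ∈ G.iB, G.con x.1 x.2 ∧ x ∈ G.D) ∧ G.iB.card ≤ G.oJ.card ∧
    (G.iD.Nonempty → G.iB.Nonempty) ∧
    ∑ x ∈ G.iD, G.ar x.1 x.2 / 3 = ∑ x ∈ G.iB, kp x.1 x.2 :=
  ⟨iB_bal27 G, fun _ hx => ⟨iB_con27 G hx, iB_D27 G hx⟩, iB_card27 G, iB_ne27x15 G hG,
    area_eq27x15 G hG⟩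

/-- Uc4 -/
theorem area_lex15 (hG : Geo7 G al kp U) (h0 : U 0 = 0) (hm : Monotone U)
    (hs : ∀ a b, U a + U b ≤ U (a + b)) :
    ∑ x ∈ G.iD, G.ar x.1 x.2 / 3 ≤ U G.oJ.card ∧ (G.iD.Nonempty → 3 ≤ G.oJ.card) := by
  obtain ⟨b1, b2, b3, b4, b5⟩ := iB_factsx15 G hG
  constructor
  · rw [b5]
    refine le_trans (bal_sum G.iB kp U h0 hs ?_ b1) (hm b3)
    intro v b hb hv
    exact hG.walk v b hb (fun i hi => (b2 _ (hv i hi)).2) (fun i hi => (b2 _ (hv i hi)).1)
  · intro hne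
    refine le_trans (bal_three G.iB (b4 hne) ?_ ?_ b1) b3
    · intro x hx
      exact G.ne _ _ (b2 x hx).2
    · intro x hx h
      rw [mem_iB27] at hx h
      exact h.2 hx.1

/-- the numbers -/
theorem num_15 (hG : Geo7 G al kp U) (h0 : U 0 = 0) (hm : Monotone U)
    (hs : ∀ a b, U a + U b ≤ U (a + b)) :
    ∃ t I : ℕ, (G.D.filter (fun x => G.con x.1 x.2)).card + 2 * I = 3 * t + G.oJ.card ∧
      t + G.oJ.card + 2 ≤ 2 * G.P.card ∧ A3 al * t ≤ U G.oJ.card ∧ (t ≠ 0 → 3 ≤ G.oJ.card) := by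
  obtain ⟨I, hI⟩ := even_iI71 G
  have h1 := dart_count G
  have h2 := E1_ineqx15 G hG
  have h3 := card_iD27 G
  have h4 := area_lex15 G hG h0 hm hs
  obtain ⟨t, ht⟩ : ∃ t, t = ∑ C ∈ G.iC, (G.cT C).card := ⟨_, rfl⟩
  have h6 : A3 al * (t : ℝ) ≤ ∑ x ∈ G.iD, G.ar x.1 x.2 / 3 := by
    rw [sum_iD27 G (fun x => G.ar x.1 x.2 / 3), ht]
    push_cast
    rw [Finset.mul_sum]
    exact Finset.sum_le_sum fun C hC => hG.pol C (cB_of_iC66 G hC)
  rw [← ht] at h3
  refine ⟨t, I, by omega, by omega, h6.trans h4.1, fun ht0 => h4.2 ?_⟩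
  apply Finset.card_pos.1
  omega

end D

section
variable {d : ℝ} {P : Finset ℍ} {T : Pt → Pt → Prop} {Tr : Pt → Pt → Pt → Prop}

/-- existence of the structure -/
theorem geo7_15 (hd : 0 < d) (hP : Sep d P)
    (hT : PTri (P.image kl) T Tr) (_hT0 : PTri0 (P.image kl) T Tr)
    (hG : ∀ x ∈ P, ∀ y ∈ P, dist x y = d → T (kl x) (kl y))
    (hne : P.Nonempty) (hdeg : ∀ v ∈ P, 3 ≤ (P.filter (fun x => dist v x = d)).card)
    (hDel : DelT P Tr)
    (U : ℕ → ℝ) (hW : WalkP d P U) :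
    Geo7 (tg71 d hT) (alpha d) kap U := by
  have hpi := Real.pi_pos
  have hα := alpha_pos hd
  have hα3 := alpha_lt hd
  have hdist : ∀ a b : ℍ, a ∈ P → b ∈ P → a ≠ b → d ≤ dist a b := fun a b ha hb hab =>
    hP a ha b hb hab
  have hq2 : ∀ v ∈ P.image kl, ∃ x y, x ≠ y ∧ T v x ∧ T v y := by
    intro v hv
    obtain ⟨z, hz, rfl⟩ := Finset.mem_image.mp hv
    have h6 := hdeg z hz
    obtain ⟨x, hx, y, hy, hxy⟩ := Finset.one_lt_card.mp (by omega : 1 <
      (P.filter (fun x => dist z x = d)).card)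
    rw [Finset.mem_filter] at hx hy
    exact ⟨kl x, kl y, fun h => hxy (kl_inj h), hG _ hz _ hx.1 hx.2, hG _ hz _ hy.1 hy.2⟩
  have hnb : ∀ v ∈ P, ∃ a, (v, a) ∈ D71 P T := by
    intro v hv
    obtain ⟨x, hx⟩ := Finset.card_pos.mp (by have := hdeg v hv; omega :
      0 < (P.filter (fun x => dist v x = d)).card)
    obtain ⟨h1, h2⟩ := Finset.mem_filter.mp hx
    exact ⟨x, mem_D71.mpr ⟨⟨hv, h1⟩, hG _ hv _ h1 h2⟩⟩
  have hdegD : ∀ v ∈ P, 3 ≤ ((tg71 d hT).D.filter
      (fun x => x.1 = v ∧ (tg71 d hT).con x.1 x.2)).card := by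
    intro v hv
    refine le_trans (hdeg v hv) ?_
    apply Finset.card_le_card_of_injOn (fun x => (v, x))
    · intro x hx
      have hx := Finset.mem_filter.mp (Finset.mem_coe.mp hx)
      refine Finset.mem_coe.mpr (Finset.mem_filter.mpr ⟨mem_D71.mpr ⟨⟨hv, hx.1⟩,
        hG _ hv _ hx.1 hx.2⟩, rfl, hx.2⟩)
    · intro x _ y _ h
      exact (Prod.mk.inj h).2
  refine ⟨?_, ?_, ?_, ?_, ?_, ?_, ?_⟩
  · -- left
    intro v a b h1' h2' h3' h4'
    obtain ⟨m1, t1⟩ := mem_D71.mp h1'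
    obtain ⟨m2, t2⟩ := mem_D71.mp h2'
    refine kl_inj (hT.left_unique ?_ t1 t2 (fun h => h3' (mem_Dp71.mpr ⟨m1, t1, h⟩))
      (fun h => h4' (mem_Dp71.mpr ⟨m2, t2, h⟩)))
    intro a' ha' b' hb' hab'
    exact ncol71 hT hq2 ha' hab'
  · -- cnt
    have hc2 : 2 ≤ (P.image kl).card := by
      rw [Finset.card_image_of_injective _ kl_inj]
      obtain ⟨v, hv⟩ := hne
      have := hdeg v hv
      have h8 := Finset.card_filter_le P (fun x => dist v x = d)
      omega
    have h9 := hT.card hc2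
    have h10 : (Dp71 P T).card ≤ ((P.image kl ×ˢ P.image kl).filter
        (fun x => T x.1 x.2 ∧ Lft (P.image kl) x.1 x.2)).card := by
      apply Finset.card_le_card_of_injOn (fun x => (kl x.1, kl x.2))
      · intro x hx
        have hx := mem_Dp71.mp (Finset.mem_coe.mp hx : (x.1, x.2) ∈ Dp71 P T)
        exact Finset.mem_coe.mpr (Finset.mem_filter.mpr ⟨Finset.mem_product.mpr
          ⟨Finset.mem_image_of_mem _ hx.1.1, Finset.mem_image_of_mem _ hx.1.2⟩, hx.2⟩)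
      · intro x _ y _ h
        have h := Prod.mk.inj h
        exact Prod.ext (kl_inj h.1) (kl_inj h.2)
    have h11 : (P.filter (fun v => Bd (P.image kl) (kl v))).card
        ≤ ((P.image kl).filter (Bd (P.image kl))).card := by
      apply Finset.card_le_card_of_injOn kl
      · intro x hx
        have hx := Finset.mem_filter.mp (Finset.mem_coe.mp hx)
        exact Finset.mem_coe.mpr (Finset.mem_filter.mpr ⟨Finset.mem_image_of_mem _ hx.1, hx.2⟩)
      · intro x _ y _ h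
        exact kl_inj h
    rw [Finset.card_image_of_injective _ kl_inj] at h9
    change (Dp71 P T).card + 3 * (P.filter (fun v => Bd (P.image kl) (kl v))).card + 6 ≤ 6 * P.card
    omega
  · -- tpos
    intro a b hab
    rw [ar71 hT hab]
    have := ang_sum (ori71 hT hab)
    linarith
  · -- pol
    intro C hB
    exact class_area39 hd hP hT hDel hB
  · -- kanti
    exact fun a b => kap_anti a b
  · -- kar
    intro a b hab
    rw [ar71 hT hab]
    exact S_tri (ori71 hT hab)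
  · -- walk
    intro v b h0 h1 h2
    refine hW v b h0 h2 (fun i hi => ?_)
    exact (mem_D71.mp (h1 i hi)).1.1

end


/-- existence -/
theorem exists_geo7 {d : ℝ} (hd : 0 < d) {P : Finset ℍ} (hP : Sep d P) (hne : P.Nonempty)
    (hdeg : ∀ v ∈ P, 3 ≤ (P.filter (fun x => dist v x = d)).card) :
    ∃ G : Tg ℍ, Geo7 G (alpha d) kap (Ust69 d) ∧ G.P = P ∧
      cd d P = (G.D.filter (fun x => G.con x.1 x.2)).card := by
  obtain ⟨T, Tr, hT, hT0, hG, hDel⟩ := exists_PTri_del hd hP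
  have h4 := geo7_15 hd hP hT hT0 hG hne hdeg hDel _ (walkP_Ust71 d P)
  refine ⟨tg71 d hT, h4, rfl, ?_⟩
  unfold cd
  congr 1
  ext ⟨a, b⟩
  rw [Finset.mem_filter, Finset.mem_filter, Finset.mem_product]
  constructor
  · rintro ⟨h1, h2⟩
    exact ⟨mem_D71.mpr ⟨h1, hG _ h1.1 _ h1.2 h2⟩, h2⟩
  · rintro ⟨h1, h2⟩
    exact ⟨(mem_D71.mp h1).1, h2⟩

/-- the area of the regular polygons at the diameter with `α = 2π/7` -/
theorem U7_15 {d : ℝ} (hd : 0 < d) (ha : alpha d = 2 * Real.pi / 7) {b : ℕ} (hb : 3 ≤ b) :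
    49 * Ust69 d b ≤ Real.pi * (17 * b - 26) := by
  have hb0 : (3 : ℝ) ≤ b := by exact_mod_cast hb
  have hpi := Real.pi_pos
  have p1 := Real.pi_gt_d4
  have p2 := Real.pi_lt_d4
  have hc := Real.cosh_pos (d / 2)
  have hs := sin_half_alpha69 hd
  rw [ha] at hs
  have hs2 : Real.sin (2 * Real.pi / 7 / 2) = Real.sin (Real.pi / 7) := by
    congr 1
    ring
  rw [hs2] at hs
  -- the half angle
  obtain ⟨φ, hφ⟩ : ∃ φ, φ = Real.pi * (17 * b + 72) / (98 * b) := ⟨_, rfl⟩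
  obtain ⟨y, hy⟩ : ∃ y, y = Real.pi / b := ⟨_, rfl⟩
  have hy0 : 0 < y := by rw [hy]; positivity
  have hy3 : y ≤ Real.pi / 3 := by
    rw [hy]
    exact div_le_div_of_nonneg_left hpi.le (by norm_num) hb0
  have hφy : φ = Real.pi / 6 + (Real.pi / 147 + 36 / 49 * y) := by
    rw [hφ, hy]
    field_simp
    ring
  have hφ0 : 0 ≤ φ := by rw [hφy]; positivity
  have hφ1 : φ ≤ Real.pi := by rw [hφy]; linarith
  have h1 : 1 / Real.cosh (d / 2) = 2 * Real.sin (Real.pi / 7) := by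
    rw [hs]
    field_simp
  have hsb := Real.sin_bound (x := Real.pi / 7) (by
    rw [abs_of_pos (by positivity)]
    linarith)
  rw [abs_le, abs_of_pos (by positivity : (0 : ℝ) < Real.pi / 7)] at hsb
  have hS : 0.863 ≤ 2 * Real.sin (Real.pi / 7) := by
    have q1 : Real.pi / 7 ≤ 0.44881 := by linarith
    have q2 : (0.44877 : ℝ) ≤ Real.pi / 7 := by linarith
    have q3 : (Real.pi / 7) ^ 3 ≤ 0.44881 ^ 3 := pow_le_pow_left₀ (by positivity) q1 3
    have q4 : (Real.pi / 7) ^ 4 ≤ 0.44881 ^ 4 := pow_le_pow_left₀ (by positivity) q1 4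
    nlinarith [hsb.1]
  have key : Real.cos φ ≤ Real.cos (Real.pi / b) / Real.cosh (d / 2) := by
    have e1 : Real.cos (Real.pi / b) / Real.cosh (d / 2) =
        Real.cos y * (2 * Real.sin (Real.pi / 7)) := by
      rw [← h1, ← hy]
      ring
    rw [e1]
    rcases Nat.lt_or_ge b 4 with hb4 | hb4
    · have hb3 : b = 3 := by omega
      have hy' : y = Real.pi / 3 := by rw [hy, hb3]; norm_num
      rw [hy', Real.cos_pi_div_three, hφy, hy']
      have e2 : Real.cos (Real.pi / 6 + (Real.pi / 147 + 36 / 49 * (Real.pi / 3))) =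
          Real.sin (12 * Real.pi / 147) := by
        rw [← Real.cos_pi_div_two_sub]
        congr 1
        ring
      rw [e2]
      have := Real.sin_lt (by positivity : 0 < 12 * Real.pi / 147)
      linarith
    · have hb4' : (4 : ℝ) ≤ b := by exact_mod_cast hb4
      have hy4 : y ≤ Real.pi / 4 := by
        rw [hy]
        exact div_le_div_of_nonneg_left hpi.le (by norm_num) hb4'
      obtain ⟨k, hk⟩ : ∃ k, k = Real.pi / 147 + 36 / 49 * y := ⟨_, rfl⟩
      have hk0 : 0 < k := by rw [hk]; positivity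
      have hk1 : k ≤ 0.6 := by rw [hk]; linarith
      have c1 := Real.one_sub_sq_div_two_le_cos (x := y)
      have c2 := Real.sin_gt_sub_cube hk0
      have c3 : Real.cos k ≤ 1 := Real.cos_le_one k
      have c4 : √3 ≤ 1.73206 := by
        rw [Real.sqrt_le_left (by norm_num)]
        norm_num
      have c5 : 0 < √3 := by positivity
      rw [hφy, ← hk, Real.cos_add, Real.cos_pi_div_six, Real.sin_pi_div_six]
      have c6 : √3 / 2 * Real.cos k ≤ 0.86603 := by nlinarith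
      have c7 : k ^ 3 ≤ 0.36 * k := by nlinarith [mul_nonneg hk0.le (sub_nonneg.2 hk1)]
      have c8 : 0.455 * k ≤ 1 / 2 * Real.sin k := by linarith
      have c9 : (1 - y ^ 2 / 2) * 0.863 ≤ Real.cos y * (2 * Real.sin (Real.pi / 7)) := by
        have : 0 ≤ 1 - y ^ 2 / 2 := by nlinarith
        exact mul_le_mul c1 hS (by norm_num) (this.trans c1)
      have c10 : 0.86603 - 0.455 * k ≤ (1 - y ^ 2 / 2) * 0.863 := by
        rw [hk]
        have : 0 ≤ y * (0.7855 - y) := mul_nonneg hy0.le (by linarith)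
        nlinarith
      linarith
  have h2 : Real.arccos (Real.cos (Real.pi / b) / Real.cosh (d / 2)) ≤ φ := by
    have := Real.arccos_le_arccos key
    rwa [Real.arccos_cos hφ0 hφ1] at this
  rw [Ust69_eq (by omega)]
  unfold astar51 psi51
  have h3 : (b : ℝ) * (2 * Real.arccos (Real.cos (Real.pi / b) / Real.cosh (d / 2)) -
      2 * (Real.pi / b)) ≤ b * (2 * φ - 2 * (Real.pi / b)) :=
    mul_le_mul_of_nonneg_left (by linarith) (by linarith)
  have h4 : 49 * (b * (2 * φ - 2 * (Real.pi / b))) = Real.pi * (17 * b - 26) := by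
    rw [hφ]
    field_simp
    ring
  linarith

/-- **the number of contact darts** -/
theorem darts7_15 {d : ℝ} (hd : 0 < d) (ha : alpha d = 2 * Real.pi / 7) {G : Tg ℍ}
    (hG : Geo7 G (alpha d) kap (Ust69 d)) (hn : 2 ≤ G.P.card) :
    6 * (G.D.filter (fun x => G.con x.1 x.2)).card + 42 ≤ 29 * G.P.card := by
  obtain ⟨t, I, e1, e2, e3, e4⟩ := num_15 G hG (Ust69_zero d) (Ust69_mono d) (Ust69_sup d)
  rcases Nat.eq_zero_or_pos t with ht | ht
  · subst ht
    omega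
  · have h3 := e4 (by omega)
    have h5 := U7_15 hd ha h3
    have h6 : A3 (alpha d) = Real.pi / 7 := by
      rw [ha]
      unfold A3
      ring
    rw [h6] at e3
    have h7 : Real.pi * (7 * (t : ℝ)) ≤ Real.pi * (17 * G.oJ.card - 26) := by linarith
    have h8 := le_of_mul_le_mul_left h7 Real.pi_pos
    have h9 : 7 * t + 26 ≤ 17 * G.oJ.card := by
      have : (7 * (t : ℝ) + 26) ≤ 17 * G.oJ.card := by linarith
      exact_mod_cast this
    omega

/-- **the linear bound at the diameter `d(7)`** -/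
theorem eD7_15 {d : ℝ} (hd : 0 < d) (ha : alpha d = 2 * Real.pi / 7) {n : ℕ} (hn : 9 ≤ n) :
    12 * eD d n + 42 ≤ 29 * n := by
  have key : eD d n ≤ (29 * n - 42) / 12 := by
    apply eD_le
    intro P hc hP
    have h1 : cd d P ≤ 2 * ((29 * P.card - 42) / 12) := by
      obtain ⟨m, hm⟩ := Nat.exists_eq_add_of_le (show 9 ≤ P.card by omega)
      rw [hm]
      refine ind_gen71 hd (fun k => (29 * k - 42) / 12) 9 ?_ ?_ ?_ m P hm hP
      · intro k hk
        show (29 * k - 42) / 12 + 2 ≤ (29 * (k + 1) - 42) / 12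
        omega
      · intro Q hc hQ
        have := nine71 hd hQ hc
        show _ ≤ 2 * ((29 * 9 - 42) / 12)
        omega
      · intro Q hc hQ hdeg
        obtain ⟨G, hG, hGP, hcd⟩ := exists_geo7 hd hQ (Finset.card_pos.mp (by omega)) hdeg
        have h2 := darts7_15 hd ha hG (by rw [hGP]; omega)
        obtain ⟨k, hk⟩ := even_con18 G
        rw [hGP] at h2
        rw [hcd]
        show _ ≤ 2 * ((29 * Q.card - 42) / 12)
        omega
    have h4 := two_numEdges hd P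
    rw [hc] at h1
    omega
  omega

end

end Pool.Agent.PEN.E5
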