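import Pool.Agent.E5.Bs14
import Pool.Agent.E5.Asm15
import Pool.Agent.E5.Top71

/-! # PENNY, all small diameters: the frame for the rows of a discharging scheme

Rows: one for every black face, one for every white class, one for every inner point. The corners at
outer points and the outer darts get allowances. The parameters are free. -/

set_option autoImplicit false

namespace Pool.Agent.PEN.E5

open Classical UpperHalfPlane
open Pool.Agent.PEN.Cl

noncomputable section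

variable {V : Type} (G : Tg V) {al : ℝ} {kp : V → V → ℝ} {U : ℕ → ℝ}

theorem oJ_SD42 {x : V × V} (h : x ∈ G.oJ) : x ∈ SD G := by
  obtain ⟨h3, h4, h5⟩ := (mem_oJ66 G).1 h
  exact (mem_SD42 G).2 ⟨(mem_KJ42 G).2 ⟨h3, h4⟩, fun h => h5 (inn_tt89 G h)⟩

/-- the outer darts, black face by black face -/
theorem sum_oJ42 : ∑ K ∈ Kc G, (((kS G K).filter (fun x => x ∈ G.oJ)).card : ℝ) = G.oJ.card := by
  have h1 : G.oJ.card = ∑ K ∈ Kc G, ((kS G K).filter (fun x => x ∈ G.oJ)).card := by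
    rw [Finset.card_eq_sum_card_fiberwise (f := ku G) (t := Kc G)]
    · refine Finset.sum_congr rfl fun K _ => ?_
      congr 1
      ext x
      rw [Finset.mem_filter, Finset.mem_filter, mem_kS42]
      constructor
      · rintro ⟨h1, h2⟩
        exact ⟨⟨oJ_SD42 G h1, h2⟩, h1⟩
      · rintro ⟨⟨_, h2⟩, h3⟩
        exact ⟨h3, h2⟩
    · intro x hx
      exact Finset.mem_coe.2 (ku_Kc15 G (oJ_SD42 G (Finset.mem_coe.1 hx)))
  rw [h1]
  push_cast
  rfl

/-- a function of the big corners at outer points, class by class -/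
theorem sum_out42 (f : V × V → ℝ) :
    ∑ C ∈ WF G, ∑ x ∈ (G.cJ C).filter (fun x => x.1 ∉ inN G), f x =
      ∑ x ∈ (BC G).filter (fun x => x.1 ∉ inN G), f x := by
  have h := sum_BC15 G (fun x => if x.1 ∉ inN G then f x else 0)
  rw [Finset.sum_filter, h]
  exact Finset.sum_congr rfl fun C _ => by rw [Finset.sum_filter]

/-- the big sides with outer head, black face by black face -/
theorem sum_oK42 (hG : G.Geo4 al kp U) :
    ∑ K ∈ Kc G, (oK14 G K : ℝ) = ((BC G).filter (fun x => x.1 ∉ inN G)).card := by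
  have h1 := sum_kBC15 G (fun x => if x.2 ∉ inN G then (1 : ℝ) else 0)
  have h2 := sum_BC15 G (fun x => if x.2 ∉ inN G then (1 : ℝ) else 0)
  have h3 := sum_sg14 G hG (fun x => if x.1 ∉ inN G then (1 : ℝ) else 0)
  have h4 : ∑ x ∈ BC G, (if (sg G x).1 ∉ inN G then (1 : ℝ) else 0) =
      ∑ x ∈ BC G, (if x.2 ∉ inN G then (1 : ℝ) else 0) :=
    Finset.sum_congr rfl fun x _ => rfl
  have h5 : ∑ K ∈ Kc G, (oK14 G K : ℝ) =
      ∑ K ∈ Kc G, ∑ x ∈ (kS G K).filter (fun x => x ∈ BC G),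
        (if x.2 ∉ inN G then (1 : ℝ) else 0) := by
    refine Finset.sum_congr rfl fun K _ => ?_
    unfold oK14
    rw [← Finset.sum_filter, Finset.filter_filter, Finset.sum_const, nsmul_eq_mul, mul_one]
  rw [h5, h1, ← h2, ← h4, h3, ← Finset.sum_filter, Finset.sum_const, nsmul_eq_mul, mul_one]

/-- **the frame**: rows for black faces, white classes and inner points; `a`, `β`, `c`, `μ` are the
allowances at outer points -/
theorem frame42 (hG : G.Geo4 al kp U) (h1 : ∀ x ∈ iJ G, gc G al x ≤ 1)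
    {θ y0 Λ a β c μ ρ : ℝ} {yK : (cg G).ConnectedComponent → ℝ} {w p : V × V → ℝ}
    {rK : (cg G).ConnectedComponent → ℝ} {rC : G.adj.ConnectedComponent → ℝ} {rV : V → ℝ}
    (hyL : ∀ K ∈ Kc G, Lv G K ≠ ∅ → y0 ≤ yK K)
    (hab : 2 * a + β = 3 + 4 * θ + Λ)
    (hK : ∀ K ∈ Kc G, wx G θ K + yK K * (Lv G K).card ≤
      ∑ s ∈ PK G al K, max (2 + 2 * θ - θ * (rn G s : ℝ)) 0 +
      ∑ x ∈ (kS G K).filter (fun x => x ∈ BC G), w x + ∑ x ∈ Lv G K, p (sg G x) +
      (a - yK K) * uK14 G al K + (yK K - c) * oK14 G K +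
      μ * ((kS G K).filter (fun x => x ∈ G.oJ)).card + rK K)
    (hC : ∀ C ∈ WF G, ∑ x ∈ G.cJ C, w x + ∑ x ∈ (G.cJ C).filter (fun x => x.1 ∈ lfN G), p x ≤
      (3 + 4 * θ + Λ - 2 * y0) * ka G al C - (4 + 5 * θ - 3 * y0) * qa G C +
      ∑ s ∈ G.cJ C, (yK (ku G s) - y0) * sp G al s +
      ∑ x ∈ (G.cJ C).filter (fun x => x.1 ∉ inN G), (β * gc G al x + c) + rC C)
    (hV : ∀ v ∈ A2 G al, 2 * y0 * ep al - sl G al θ Λ yK v ≤ rV v)
    (h7 : ∀ v ∈ inN G, uv G al v = 7 → cv G v ≠ 1 →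
      ∑ s ∈ Sv G v, yK (ku G s) * Ds G al s + 2 * y0 * ep al ≤ rV v)
    (hr : ∑ K ∈ Kc G, rK K + ∑ C ∈ WF G, rC C + ∑ v ∈ A2 G al, rV v +
        ∑ v ∈ (inN G).filter (fun v => uv G al v = 7 ∧ cv G v ≠ 1), rV v ≤ ρ) :
    ∑ K ∈ Kc G, wx G θ K + (4 + 5 * θ) * ∑ C ∈ WF G, qa G C + 2 * y0 * cor G al ≤
      (3 + 4 * θ + Λ) * (cost G al + gam G al) + μ * G.oJ.card + ρ := by
  have hep := ep_pos89 G hG
  have key := masterf14 G hG (θ := θ) (Λ := Λ) (y0 := y0) (yK := yK)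
    (R := (3 + 4 * θ + Λ) * gam G al + μ * G.oJ.card + ρ) ?_
  · linarith
  -- the points
  have a1 : ∑ v ∈ (inN G).filter (fun v => ¬ 8 ≤ uv G al v), (∑ s ∈ Sv G v,
      yK (ku G s) * Ds G al s + 2 * y0 * ep al) ≤ ∑ K ∈ Kc G, yK K * (Lv G K).card +
        ∑ v ∈ (inN G).filter (fun v => uv G al v = 7 ∧ cv G v ≠ 1), rV v := by
    rw [← Finset.sum_filter_add_sum_filter_not ((inN G).filter (fun v => ¬ 8 ≤ uv G al v))
      (fun v => cv G v = 1), Finset.filter_filter, Finset.filter_filter]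
    have e1 : (inN G).filter (fun v => ¬ 8 ≤ uv G al v ∧ cv G v = 1) = lfN G := by
      ext v
      rw [Finset.mem_filter, mem_lfN15]
      constructor
      · rintro ⟨h2, _, h3⟩
        exact ⟨h2, h3⟩
      · rintro ⟨h2, h3⟩
        have := leaf_uv39 G hG h1 h2 h3
        exact ⟨h2, by omega, h3⟩
    have e2 : (inN G).filter (fun v => ¬ 8 ≤ uv G al v ∧ ¬ cv G v = 1) =
        (inN G).filter (fun v => uv G al v = 7 ∧ cv G v ≠ 1) := by
      refine Finset.filter_congr fun v hv => ?_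
      have := uv_ge89 G hG hv
      constructor
      · rintro ⟨h2, h3⟩
        exact ⟨by omega, h3⟩
      · rintro ⟨h2, h3⟩
        exact ⟨by omega, h3⟩
    rw [e1, e2]
    refine add_le_add ?_ (Finset.sum_le_sum fun v hv => ?_)
    · have e3 : ∑ K ∈ Kc G, yK K * (Lv G K).card = ∑ K ∈ Kc G, ∑ x ∈ Lv G K, yK (ku G x) := by
        refine Finset.sum_congr rfl fun K _ => ?_
        rw [Finset.sum_congr rfl fun x hx => by
          rw [((mem_kS42 G).1 ((mem_Lv15 G).1 hx).1).2], Finset.sum_const, nsmul_eq_mul, mul_comm]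
      rw [e3, sum_leafs15 G (fun x => yK (ku G x))]
      refine Finset.sum_le_sum fun v hv => ?_
      obtain ⟨h2, h3⟩ := (mem_lfN15 G).1 hv
      obtain ⟨s, hs⟩ := Finset.card_eq_one.1 ((Sv_card89 G hG h2).trans h3)
      rw [hs, Finset.sum_singleton, Finset.sum_singleton]
      have hsm : s ∈ Sv G v := by rw [hs]; exact Finset.mem_singleton_self _
      obtain ⟨h4, h5⟩ := (mem_Sv62 G).1 hsm
      have h6 := pt_flat14 G hG h2
      rw [hs, Finset.sum_singleton, kv_eq89, leaf_uv39 G hG h1 h2 h3, h3] at h6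
      push_cast at h6
      have h7 : Ds G al s = 1 - 2 * ep al := by linarith
      have h8 : y0 ≤ yK (ku G s) := by
        refine hyL _ (ku_Kc15 G h4) ?_
        rw [← Finset.nonempty_iff_ne_empty]
        exact ⟨s, (mem_Lv15 G).2 ⟨(mem_kS42 G).2 ⟨h4, rfl⟩, by rw [h5]; exact h2,
          by rw [h5]; exact h3⟩⟩
      rw [h7]
      nlinarith
    · obtain ⟨h2, h3, h4⟩ := Finset.mem_filter.1 hv
      exact h7 v h2 h3 h4
  have a2 : ∑ v ∈ A2 G al, (2 * y0 * ep al - sl G al θ Λ yK v) ≤ ∑ v ∈ A2 G al, rV v :=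
    Finset.sum_le_sum hV
  have a3 : ∑ v ∈ A2 G al, (2 * y0 * ep al - sl G al θ Λ yK v) =
      - ∑ v ∈ A2 G al, (sl G al θ Λ yK v - 2 * y0 * ep al) := by
    rw [← Finset.sum_neg_distrib]
    exact Finset.sum_congr rfl fun v _ => by ring
  -- the black faces
  have hSf : (Kc G).filter (fun K => K ∈ Sf G al) = Sf G al := by
    ext K
    rw [Finset.mem_filter]
    refine ⟨fun h => h.2, fun h => ⟨?_, h⟩⟩
    unfold Sf at h
    exact (Finset.mem_filter.1 h).1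
  have b0 : ∑ K ∈ Kc G, ∑ s ∈ PK G al K, max (2 + 2 * θ - θ * (rn G s : ℝ)) 0 =
      ∑ K ∈ Sf G al, ∑ s ∈ PK G al K, max (2 + 2 * θ - θ * (rn G s : ℝ)) 0 := by
    rw [← hSf]
    symm
    refine Finset.sum_filter_of_ne fun K _ h => ?_
    by_contra h2
    exact h (by rw [PK_empty15 G h2, Finset.sum_empty])
  have b1 : ∑ K ∈ (Kc G).filter (fun K => K ∉ Sf G al), wx G θ K - ∑ K ∈ Sf G al, rx G al θ K =
      ∑ K ∈ Kc G, wx G θ K -
        ∑ K ∈ Kc G, ∑ s ∈ PK G al K, max (2 + 2 * θ - θ * (rn G s : ℝ)) 0 := by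
    rw [b0, ← Finset.sum_filter_add_sum_filter_not (Kc G) (fun K => K ∈ Sf G al) (wx G θ), hSf]
    unfold rx
    rw [Finset.sum_sub_distrib]
    ring
  have b2 : ∑ K ∈ Kc G, (wx G θ K + yK K * (Lv G K).card) ≤
      ∑ K ∈ Kc G, (∑ s ∈ PK G al K, max (2 + 2 * θ - θ * (rn G s : ℝ)) 0 +
      ∑ x ∈ (kS G K).filter (fun x => x ∈ BC G), w x + ∑ x ∈ Lv G K, p (sg G x) +
      (a - yK K) * uK14 G al K + (yK K - c) * oK14 G K +
      μ * ((kS G K).filter (fun x => x ∈ G.oJ)).card + rK K) :=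
    Finset.sum_le_sum hK
  have b3 : ∑ K ∈ Kc G, (∑ s ∈ PK G al K, max (2 + 2 * θ - θ * (rn G s : ℝ)) 0 +
      ∑ x ∈ (kS G K).filter (fun x => x ∈ BC G), w x + ∑ x ∈ Lv G K, p (sg G x) +
      (a - yK K) * uK14 G al K + (yK K - c) * oK14 G K +
      μ * ((kS G K).filter (fun x => x ∈ G.oJ)).card + rK K) =
      ∑ K ∈ Kc G, ∑ s ∈ PK G al K, max (2 + 2 * θ - θ * (rn G s : ℝ)) 0 +
      ∑ K ∈ Kc G, ∑ x ∈ (kS G K).filter (fun x => x ∈ BC G), w x +
      ∑ K ∈ Kc G, ∑ x ∈ Lv G K, p (sg G x) + a * ∑ K ∈ Kc G, uK14 G al K -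
      c * ∑ K ∈ Kc G, (oK14 G K : ℝ) - ∑ K ∈ Kc G, yK K * (uK14 G al K - oK14 G K) +
      μ * ∑ K ∈ Kc G, (((kS G K).filter (fun x => x ∈ G.oJ)).card : ℝ) + ∑ K ∈ Kc G, rK K := by
    rw [Finset.mul_sum, Finset.mul_sum, Finset.mul_sum]
    simp only [← Finset.sum_add_distrib, ← Finset.sum_sub_distrib]
    exact Finset.sum_congr rfl fun K _ => by ring
  rw [b3, sum_kBC15, sum_leafs15 G (fun x => p (sg G x)), sum_leafc15 G hG p, sum_uK14 G hG,
    sum_oJ42, sum_oK42 G hG, Finset.sum_add_distrib] at b2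
  -- the white classes
  have c1 : ∑ C ∈ WF G, (∑ x ∈ G.cJ C, w x + ∑ x ∈ (G.cJ C).filter (fun x => x.1 ∈ lfN G), p x) ≤
      ∑ C ∈ WF G, ((3 + 4 * θ + Λ - 2 * y0) * ka G al C - (4 + 5 * θ - 3 * y0) * qa G C +
      ∑ s ∈ G.cJ C, (yK (ku G s) - y0) * sp G al s +
      ∑ x ∈ (G.cJ C).filter (fun x => x.1 ∉ inN G), (β * gc G al x + c) + rC C) :=
    Finset.sum_le_sum hC
  have c2 : ∑ C ∈ WF G, ∑ x ∈ (G.cJ C).filter (fun x => x.1 ∉ inN G), (β * gc G al x + c) =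
      β * gam G al + c * ((BC G).filter (fun x => x.1 ∉ inN G)).card := by
    rw [sum_out42, Finset.sum_add_distrib, ← Finset.mul_sum, Finset.sum_filter, gam_BC14 G hG,
      Finset.sum_const, nsmul_eq_mul]
    ring
  have c3 : ∑ C ∈ WF G, ((4 + 5 * θ) * qa G C - (3 + 4 * θ + Λ) * ka G al C -
      ∑ s ∈ G.cJ C, yK (ku G s) * sp G al s + 2 * y0 * fl14 G al C) =
      - ∑ C ∈ WF G, ((3 + 4 * θ + Λ - 2 * y0) * ka G al C - (4 + 5 * θ - 3 * y0) * qa G C +
        ∑ s ∈ G.cJ C, (yK (ku G s) - y0) * sp G al s) := by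
    rw [← Finset.sum_neg_distrib]
    refine Finset.sum_congr rfl fun C hC => ?_
    have e1 := sum_sp_exc15 G hG ((mem_WF89 G).1 hC).1
    have e2 : ∑ s ∈ G.cJ C, (yK (ku G s) - y0) * sp G al s =
        ∑ s ∈ G.cJ C, yK (ku G s) * sp G al s - y0 * ∑ s ∈ G.cJ C, sp G al s := by
      rw [Finset.mul_sum, ← Finset.sum_sub_distrib]
      exact Finset.sum_congr rfl fun s _ => by ring
    have e3 : exc G al C = fl14 G al C := rfl
    rw [e2, e1, e3]
    ring
  rw [Finset.sum_add_distrib, Finset.sum_add_distrib, Finset.sum_add_distrib, c2] at c1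
  rw [c3]
  have hg : (2 * a + β) * gam G al = (3 + 4 * θ + Λ) * gam G al := by rw [hab]
  linarith

/-- **the result row** of the set `θ = 14 / 13`, `Λ = 55 / 13` from the conclusion of the frame -/
theorem rowT42 (hG : G.Geo4 al kp U) {y0 μ ρ : ℝ}
    (hfr : ∑ K ∈ Kc G, wx G (14 / 13) K + (4 + 5 * (14 / 13)) * ∑ C ∈ WF G, qa G C +
      2 * y0 * cor G al ≤ (3 + 4 * (14 / 13) + 55 / 13) * (cost G al + gam G al) +
      μ * G.oJ.card + ρ) :
    68 * ((inN G).card : ℝ) + 82 + 82 * (G.oJ.card + (inN G).card - G.P.card) + 41 * sE G ≤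
      55 * G.iI.card + (150 - 26 * y0) * cor G al + (14 + 13 * μ) * G.oJ.card + 13 * ρ := by
  have f3 := F3_89 G hG
  have g1 : ((SD G).card : ℝ) = (BC G).card + G.oJ.card := by exact_mod_cast SD_card89 G
  have g2 : ((iJ G).card : ℝ) = (BC G).card + (TT G).card := by exact_mod_cast iJ_card89 G
  have g3 : (G.iD.card : ℝ) = (iJ G).card + G.iI.card := by exact_mod_cast iD_card89 G
  have g5 := Q_sum89 G
  have g6 := sum_wx15 G (14 / 13)
  unfold sE
  rw [g6, g5, g1] at hfr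
  have h1 : ((BC G).card : ℝ) = G.iD.card - G.iI.card - (TT G).card := by linarith
  rw [h1] at hfr
  linarith

end

end Pool.Agent.PEN.E5
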