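import Pool.Agent.P4.Cl42b

/-! # PENNY, all small diameters: definitions and the counting identity

Sides `SD` = contact darts without contact triangle on the left (outer darts included). Black faces =
clusters `K ∈ Kc G` (`Cl42`). The sector of a side `x` is at the head `x.2`, between the white corner
`sg x` and the white corner `nx x`. -/

set_option autoImplicit false

namespace Pool.Agent.PEN.E5

open Classical UpperHalfPlane
open Pool.Agent.PEN.Cl

noncomputable section

variable {V : Type} (G : Tg V)

/-- big inner corners: the corner at `x.1` of the white face on the left of `x` -/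
def BC : Finset (V × V) := (iJ G).filter (fun x => ¬ tt G x)

/-- units of a corner: contact triangle 1, other faces at least 2 -/
def un (al : ℝ) (x : V × V) : ℕ := if tt G x then 1 else max 2 (wc G al x)

/-- the gap of a corner -/
def gc (al : ℝ) (x : V × V) : ℝ := (un G al x : ℝ) - TH G x / al

/-- `6 + k` is the number of units at `v` -/
def kv (al : ℝ) (v : V) : ℝ := ∑ x ∈ Jv G v, (un G al x : ℝ) - 6

/-- the number of big corners at `v` -/
def cv (v : V) : ℕ := ((BC G).filter (fun x => x.1 = v)).card

/-- the number of contact triangles of a black face -/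
def tK (K : (cg G).ConnectedComponent) : ℕ := ((kT G K).image G.tri).card

/-- the number of contact triangles in the sector of `x` -/
def rn (x : V × V) : ℕ := if h : HasN G x.2 x.1 then Nat.find h else 0

/-- the surplus of a sector -/
def Ds (al : ℝ) (x : V × V) : ℝ := gc G al (sg G x) + gc G al (nx G x) - 1

/-- the surplus of a side -/
def sp (al : ℝ) (x : V × V) : ℝ := gc G al x + gc G al (sg G x) - 1

/-- white faces -/
def WF : Finset G.adj.ConnectedComponent := G.iC.filter (fun C => (G.cI C).Nonempty)

/-- `kappa` of a white face; `5 m - 12 - U` for a disc with `m` sides -/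
def ka (al : ℝ) (C : G.adj.ConnectedComponent) : ℝ :=
  (G.cI C).card + 3 * (G.cT C).card - ∑ x ∈ G.cJ C, (un G al x : ℝ)

/-- `m - 4` for a disc with `m` sides -/
def qa (C : G.adj.ConnectedComponent) : ℝ := (G.cI C).card - (G.cT C).card

/-- the sum of the gaps of the inner corners at outer points -/
def gam (al : ℝ) : ℝ := ∑ x ∈ (iJ G).filter (fun x => x.1 ∉ inN G), gc G al x

/-- the cost -/
def cost (al : ℝ) : ℝ := ∑ v ∈ inN G, (kv G al v - 1) + ∑ C ∈ WF G, ka G al C

/-- the area of the inner region -/
def Ar : ℝ := ∑ x ∈ G.iD, G.ar x.1 x.2 / 3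

/-- the curvature term -/
def cor (al : ℝ) : ℝ := (2 * A3 al * (inN G).card + Ar G - A3 al * (G.iD.card / 3)) / al

/-- the excess of the points, in units -/
def ep (al : ℝ) : ℝ := 2 * Real.pi / al - 6

end

end Pool.Agent.PEN.E5
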