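import Pool.Agent.E5.Sk89

/-! # PENNY, all small diameters: the counting identities -/

set_option autoImplicit false

namespace Pool.Agent.PEN.E5

open Classical UpperHalfPlane
open Pool.Agent.PEN.Cl

noncomputable section

variable {V : Type} (G : Tg V) {al : ℝ} {kp : V → V → ℝ} {U : ℕ → ℝ}

theorem mem_BC89 {x : V × V} : x ∈ BC G ↔ x ∈ iJ G ∧ ¬ tt G x := by
  unfold BC
  rw [Finset.mem_filter]

/-- the class of a contact triangle -/
theorem cI_tt89 {x : V × V} (h : tt G x) : G.cI (G.cl x) = ∅ := by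
  obtain ⟨hx, h1, h2, h3⟩ := h
  have key : ∀ y ∈ G.Dp, G.tri x = G.tri y → G.con y.1 y.2 := by
    intro y hy he
    rcases (tri_eq_iff G hx hy).1 he with h | h | h
    · rw [h]; exact h1
    · rw [h]; exact h2
    · rw [h]; exact h3
  have hcl : ∀ s, G.adj.Reachable (G.tri x) s → s = G.tri x := by
    intro s hs
    obtain ⟨p⟩ := hs
    cases p with
    | nil => rfl
    | cons hadj _ =>
      obtain ⟨_, a, b, h4, h5, h6, h7, h8⟩ := hadj
      exact absurd (key (a, b) h4 h7.symm) h6
  rw [Finset.eq_empty_iff_forall_notMem]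
  intro y hy
  unfold Tg.cI at hy
  rw [Finset.mem_filter] at hy
  obtain ⟨h4, h5, h6, _⟩ := hy
  have h7 : G.adj.Reachable (G.tri x) (G.tri y) :=
    SimpleGraph.ConnectedComponent.exact h5.symm
  exact h6 (key y h4 (hcl _ h7).symm)

theorem tt_iff89 {x : V × V} (hx : x ∈ iJ G) : tt G x ↔ G.cI (G.cl x) = ∅ := by
  constructor
  · exact cI_tt89 G
  · intro hI
    have hB := cB_of_iC66 G (cl_iJ71 G hx)
    have hxJ := iJ_cJ51 G hx
    have hxD := cJ_sub66 G _ hxJ
    have hcon : ∀ y ∈ G.cD (G.cl x), G.con y.1 y.2 := by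
      intro y hy
      by_contra hc
      have := mem_cI11 G hB hy hc
      rw [hI] at this
      exact absurd this (Finset.notMem_empty _)
    exact ⟨((mem_cD66 G).1 hxD).1, hcon _ hxD, hcon _ (rot_cD66 G hxD), hcon _ (rot_cD66' G hxD)⟩

theorem inn_tt89 {x : V × V} (h : tt G x) : G.inn x := by
  refine ⟨h.1, ?_⟩
  obtain ⟨hx, h1, h2, h3⟩ := h
  have key : ∀ y ∈ G.Dp, G.tri x = G.tri y → G.con y.1 y.2 := by
    intro y hy he
    rcases (tri_eq_iff G hx hy).1 he with h | h | h
    · rw [h]; exact h1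
    · rw [h]; exact h2
    · rw [h]; exact h3
  have hcl : ∀ s, G.adj.Reachable (G.tri x) s → s = G.tri x := by
    intro s hs
    obtain ⟨p⟩ := hs
    cases p with
    | nil => rfl
    | cons hadj _ =>
      obtain ⟨_, a, b, h4, h5, h6, h7, h8⟩ := hadj
      exact absurd (key (a, b) h4 h7.symm) h6
  rw [Finset.eq_empty_iff_forall_notMem]
  intro y hy
  unfold Tg.cB at hy
  rw [Finset.mem_filter] at hy
  obtain ⟨h4, h5, h6, _⟩ := hy
  have h7 : G.adj.Reachable (G.tri x) (G.tri y) :=
    SimpleGraph.ConnectedComponent.exact h5.symm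
  exact h6 (key y h4 (hcl _ h7).symm)

theorem tt_iJ89 {x : V × V} (h : tt G x) : x ∈ iJ G := (mem_iJ71 G).2 ⟨inn_tt89 G h, h.2.1⟩

theorem gc_tt89 (hG : G.Geo4 al kp U) {x : V × V} (h : tt G x) : gc G al x = 0 := by
  have hal := W4.al_pos71 G hG
  unfold gc un
  rw [if_pos h, W4.TH_T51 G hG (tt_iJ89 G h) (cI_tt89 G h), div_self hal.ne']
  push_cast
  ring

theorem gc_nonneg89 (hG : G.Geo4 al kp U) {x : V × V} : 0 ≤ gc G al x := by
  by_cases h : tt G x
  · rw [gc_tt89 G hG h]
  · unfold gc un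
    rw [if_neg h]
    have h1 := Nat.le_ceil (TH G x / al)
    have h2 : ((wc G al x : ℕ) : ℝ) ≤ ((max 2 (wc G al x) : ℕ) : ℝ) := by
      exact_mod_cast le_max_right 2 (wc G al x)
    unfold wc at h2 ⊢
    linarith

/-- the sum of the gaps at an inner point is `k - eps` -/
theorem sum_gc89 (hG : G.Geo4 al kp U) {v : V} (hv : v ∈ inN G) :
    ∑ x ∈ Jv G v, gc G al x = kv G al v - ep al := by
  unfold gc kv ep
  rw [Finset.sum_sub_distrib, ← Finset.sum_div]
  have h := W4.sum_TH_point71 G hG hv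
  have e : Jv G v = (iJ G).filter (fun x => x.1 = v) := rfl
  rw [e, h]
  ring

theorem mem_WF89 {C : G.adj.ConnectedComponent} : C ∈ WF G ↔ C ∈ G.iC ∧ (G.cI C).Nonempty := by
  unfold WF
  rw [Finset.mem_filter]

/-- a class without inner edges is a contact triangle -/
theorem cT_one89 {C : G.adj.ConnectedComponent} (hC : C ∈ G.iC) (hI : G.cI C = ∅) :
    (G.cT C).card = 1 := by
  have h := conn G C
  rw [hI, Finset.card_empty] at h
  have hpos : 0 < (G.cT C).card := by
    unfold Tg.iC at hC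
    obtain ⟨x, hx, rfl⟩ := Finset.mem_image.1 hC
    rw [mem_iD27] at hx
    rw [Finset.card_pos]
    exact ⟨G.tri x, Finset.mem_image_of_mem _ (Finset.mem_filter.2 ⟨hx.1, rfl⟩)⟩
  omega

theorem ka_zero89 (C : G.adj.ConnectedComponent) (hC : C ∈ G.iC) (hI : G.cI C = ∅) :
    ka G al C = 0 := by
  have h1 : ∑ x ∈ G.cJ C, (un G al x : ℝ) = (G.cJ C).card := by
    rw [Finset.card_eq_sum_ones, Nat.cast_sum]
    refine Finset.sum_congr rfl fun x hx => ?_
    obtain ⟨h1, h2⟩ := cJ_iJ51 G hC hx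
    have h3 : tt G x := (tt_iff89 G h1).2 (by rw [h2]; exact hI)
    unfold un
    rw [if_pos h3]
  have h2 := card_split66 G C
  rw [hI, cB_of_iC66 G hC, Finset.card_empty] at h2
  unfold ka
  rw [h1, hI, Finset.card_empty]
  have h3 : ((G.cJ C).card : ℝ) = 3 * (G.cT C).card := by
    have : (G.cJ C).card = 3 * (G.cT C).card := by omega
    exact_mod_cast this
  rw [h3]
  push_cast
  ring

theorem sum_ka89 : ∑ C ∈ WF G, ka G al C = ∑ C ∈ G.iC, ka G al C := by
  unfold WF
  refine Finset.sum_filter_of_ne fun C hC h => ?_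
  by_contra h2
  exact h (ka_zero89 G C hC (Finset.not_nonempty_iff_eq_empty.1 h2))

/-- **F3**: twice the number of missing edges of the inner region -/
theorem F3_89 (hG : G.Geo4 al kp U) :
    (G.iI.card : ℝ) = (inN G).card + cost G al + gam G al - cor G al := by
  have hal := W4.al_pos71 G hG
  -- the units of all corners
  have h1 : ∑ x ∈ iJ G, (un G al x : ℝ) =
      G.iI.card + G.iD.card - ∑ C ∈ WF G, ka G al C := by
    rw [sum_ka89, sum_iJ71 G (fun x => (un G al x : ℝ))]
    unfold ka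
    rw [Finset.sum_sub_distrib, Finset.sum_add_distrib]
    have e1 : ∑ C ∈ G.iC, ((G.cI C).card : ℝ) = G.iI.card := by
      rw [← Nat.cast_sum, sum_cI66 G]
    have e2 : ∑ C ∈ G.iC, (3 * ((G.cT C).card : ℝ)) = G.iD.card := by
      rw [← Finset.mul_sum, ← Nat.cast_sum, card_iD27]
      push_cast
      ring
    rw [e1, e2]
    ring
  -- the gaps of all corners, by angles
  have h2 : ∑ x ∈ iJ G, gc G al x = ∑ x ∈ iJ G, (un G al x : ℝ) -
      (Real.pi * (G.iD.card / 3) - Ar G) / al := by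
    unfold gc
    rw [Finset.sum_sub_distrib, ← Finset.sum_div, W4.sum_TH71 G hG, sum_th_iD71]
    rfl
  -- the gaps of all corners, by points
  have h3 : ∑ x ∈ iJ G, gc G al x = ∑ v ∈ inN G, (kv G al v - ep al) + gam G al := by
    rw [← Finset.sum_filter_add_sum_filter_not (iJ G) (fun x => x.1 ∈ inN G)]
    congr 1
    rw [← Finset.sum_fiberwise_of_maps_to (s := (iJ G).filter (fun x => x.1 ∈ inN G))
      (t := inN G) (g := Prod.fst) (fun x hx => (Finset.mem_filter.1 hx).2)]
    refine Finset.sum_congr rfl fun v hv => ?_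
    rw [← sum_gc89 G hG hv, Finset.filter_filter]
    unfold Jv
    refine Finset.sum_congr (Finset.filter_congr fun x _ => ?_) fun _ _ => rfl
    constructor
    · exact fun h => h.2
    · intro h
      exact ⟨by rw [h]; exact hv, h⟩
  have h4 : ∑ v ∈ inN G, (kv G al v - ep al) = ∑ v ∈ inN G, (kv G al v - 1) +
      (inN G).card * (1 - ep al) := by
    rw [← nsmul_eq_mul, ← Finset.sum_const, ← Finset.sum_add_distrib]
    exact Finset.sum_congr rfl fun v _ => by ring
  have h5 : (7 - 2 * Real.pi / al) = 1 - 2 * A3 al / al := by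
    unfold A3
    field_simp
    ring
  have h6 : Real.pi * ((G.iD.card : ℝ) / 3) / al =
      G.iD.card + A3 al * (G.iD.card / 3) / al := by
    unfold A3
    field_simp
    ring
  have h7 : (2 * A3 al * (inN G).card + Ar G - A3 al * (G.iD.card / 3)) / al =
      2 * A3 al / al * (inN G).card + Ar G / al - A3 al * (G.iD.card / 3) / al := by
    ring
  unfold cost cor
  rw [h7]
  rw [h2, h1, h4, sub_div, h6] at h3
  unfold ep at h3
  have h8 : (1 - (2 * Real.pi / al - 6)) = 1 - 2 * A3 al / al := by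
    rw [← h5]
    ring
  rw [h8] at h3
  linarith

end

end Pool.Agent.PEN.E5
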