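import Pool.Agent.E5.SkA89

/-! # PENNY, all small diameters: the assembly -/

set_option autoImplicit false

namespace Pool.Agent.PEN.E5

open Classical UpperHalfPlane
open Pool.Agent.PEN.Cl

noncomputable section

variable {V : Type} (G : Tg V) {al : ℝ} {kp : V → V → ℝ} {U : ℕ → ℝ}

/-- the sides are the big inner corners and the outer darts -/
theorem SD_card89 : (SD G).card = (BC G).card + G.oJ.card := by
  have e : SD G = BC G ∪ G.oJ := by
    ext x
    rw [Finset.mem_union, mem_SD42, mem_BC89, mem_KJ42, mem_oJ66, mem_iJ71]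
    constructor
    · rintro ⟨⟨h1, h2⟩, h3⟩
      by_cases h : G.inn x
      · exact Or.inl ⟨⟨h, h2⟩, h3⟩
      · exact Or.inr ⟨h1, h2, h⟩
    · rintro (⟨⟨h1, h2⟩, h3⟩ | ⟨h1, h2, h3⟩)
      · exact ⟨⟨G.sub h1.1, h2⟩, h3⟩
      · exact ⟨⟨h1, h2⟩, fun h => h3 (inn_tt89 G h)⟩
  rw [e, Finset.card_union_of_disjoint]
  rw [Finset.disjoint_left]
  intro x h1 h2
  exact ((mem_oJ66 G).1 h2).2.2 ((mem_iJ71 G).1 ((mem_BC89 G).1 h1).1).1

/-- inner contact darts: big corners and darts of contact triangles -/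
theorem iJ_card89 : (iJ G).card = (BC G).card + (TT G).card := by
  have e : TT G = (iJ G).filter (fun x => tt G x) := by
    ext x
    rw [mem_TT42', Finset.mem_filter]
    exact ⟨fun h => ⟨tt_iJ89 G h, h⟩, fun h => h.2⟩
  unfold BC
  rw [e, add_comm, Finset.card_filter_add_card_filter_not]

theorem iD_card89 : G.iD.card = (iJ G).card + G.iI.card := by
  have e : G.iI = G.iD.filter (fun x => ¬ G.con x.1 x.2) := by
    ext x
    unfold Tg.iI Tg.iD
    rw [Finset.mem_filter, Finset.mem_filter, Finset.mem_filter]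
    tauto
  unfold iJ
  rw [e, Finset.card_filter_add_card_filter_not]

theorem TT_card89 : ((TT G).card : ℝ) = 3 * ∑ K ∈ Kc G, (tK G K : ℝ) := by
  have ht : ∑ K ∈ Kc G, (kT G K).card = (TT G).card :=
    (Finset.card_eq_sum_card_fiberwise (f := ku G) fun x hx =>
      Finset.mem_coe.2 (Finset.mem_image_of_mem _ ((mem_TT42 G).1 (Finset.mem_coe.1 hx)).1)).symm
  rw [← ht, Finset.mul_sum]
  push_cast
  refine Finset.sum_congr rfl fun K _ => ?_
  rw [card_kT42 G K]
  unfold tK
  push_cast
  ring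

/-- the number of triangles of the classes -/
theorem cT_sum89 : (∑ C ∈ G.iC, ((G.cT C).card : ℝ)) = G.iD.card / 3 := by
  rw [card_iD27]
  push_cast
  ring

/-- a dart of a contact triangle and its class -/
theorem tri_classes89 : ((TT G).card : ℝ) = 3 * ((G.iC.filter (fun C => ¬ (G.cI C).Nonempty)).card : ℝ) := by
  have h1 : (TT G).card = ∑ C ∈ G.iC.filter (fun C => ¬ (G.cI C).Nonempty), (G.cJ C).card := by
    rw [Finset.card_eq_sum_card_fiberwise (f := G.cl)
      (t := G.iC.filter (fun C => ¬ (G.cI C).Nonempty))]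
    · refine Finset.sum_congr rfl fun C hC => ?_
      rw [Finset.mem_filter, Finset.not_nonempty_iff_eq_empty] at hC
      congr 1
      ext x
      rw [Finset.mem_filter, mem_TT42']
      constructor
      · rintro ⟨h1, h2⟩
        rw [← h2]
        exact iJ_cJ51 G (tt_iJ89 G h1)
      · intro h
        obtain ⟨h1, h2⟩ := cJ_iJ51 G hC.1 h
        exact ⟨(tt_iff89 G h1).2 (by rw [h2]; exact hC.2), h2⟩
    · intro x hx
      have h2 := (mem_TT42' G).1 (Finset.mem_coe.1 hx)
      refine Finset.mem_coe.2 (Finset.mem_filter.2 ⟨cl_iJ71 G (tt_iJ89 G h2), ?_⟩)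
      rw [Finset.not_nonempty_iff_eq_empty]
      exact cI_tt89 G h2
  rw [h1]
  push_cast
  rw [Finset.card_eq_sum_ones, Nat.cast_sum, Finset.mul_sum]
  refine Finset.sum_congr rfl fun C hC => ?_
  rw [Finset.mem_filter, Finset.not_nonempty_iff_eq_empty] at hC
  have h2 := card_split66 G C
  rw [hC.2, cB_of_iC66 G hC.1, Finset.card_empty, cT_one89 G hC.1 hC.2] at h2
  have h3 : (G.cJ C).card = 3 := by omega
  rw [h3]
  norm_num

/-- `Q = 2 I - t_W` -/
theorem Q_sum89 : ∑ C ∈ WF G, qa G C = G.iI.card - (G.iD.card : ℝ) / 3 + (TT G).card / 3 := by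
  have h1 : ∑ C ∈ WF G, ((G.cI C).card : ℝ) = G.iI.card := by
    rw [← sum_cI66 G]
    push_cast
    unfold WF
    refine Finset.sum_filter_of_ne fun C hC h => ?_
    by_contra h2
    rw [Finset.not_nonempty_iff_eq_empty] at h2
    rw [h2, Finset.card_empty] at h
    exact h (by norm_num)
  have h2 : ∑ C ∈ WF G, ((G.cT C).card : ℝ) =
      G.iD.card / 3 - (G.iC.filter (fun C => ¬ (G.cI C).Nonempty)).card := by
    rw [← cT_sum89 G, ← Finset.sum_filter_add_sum_filter_not G.iC (fun C => (G.cI C).Nonempty)]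
    have h3 : ∑ C ∈ G.iC.filter (fun C => ¬ (G.cI C).Nonempty), ((G.cT C).card : ℝ) =
        (G.iC.filter (fun C => ¬ (G.cI C).Nonempty)).card := by
      rw [Finset.card_eq_sum_ones, Nat.cast_sum]
      refine Finset.sum_congr rfl fun C hC => ?_
      rw [Finset.mem_filter, Finset.not_nonempty_iff_eq_empty] at hC
      rw [cT_one89 G hC.1 hC.2]
    rw [h3]
    unfold WF
    ring
  unfold qa
  rw [Finset.sum_sub_distrib, h1, h2, tri_classes89 G]
  ring

/-- **assembly**: from the discharging inequality to the number of inner points. `w t = 2 + 2 θ - θ t`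
is the price of a black face with `t` triangles -/
theorem assembly89 (hG : G.Geo4 al kp U) {θ Λ R : ℝ} (hθ : 0 ≤ θ)
    (hdis : ∑ K ∈ Kc G, (2 + 2 * θ - θ * tK G K) + (4 + 5 * θ) * ∑ C ∈ WF G, qa G C ≤
      (3 + 4 * θ + Λ) * cost G al + R) :
    ((inN G).card : ℝ) ≤ Λ * cost G al + R - (3 + 4 * θ) * (gam G al - cor G al) +
      θ * G.oJ.card - 2 - 4 * θ := by
  have f1 := conn_sum42 G
  have f1' : 3 * ((SD G).card : ℝ) ≤ (TT G).card + 6 * (Kc G).card := by exact_mod_cast f1
  have f2 := W4.E1_ineq G hG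
  have f2' : (G.iD.card : ℝ) + 3 * G.oJ.card + 6 ≤ 6 * G.P.card := by exact_mod_cast f2
  have f3 := F3_89 G hG
  have f4 := card_inN71 G
  have f4' : (G.P.card : ℝ) ≤ G.oJ.card + (inN G).card := by exact_mod_cast f4
  have g1 : ((SD G).card : ℝ) = (BC G).card + G.oJ.card := by exact_mod_cast SD_card89 G
  have g2 : ((iJ G).card : ℝ) = (BC G).card + (TT G).card := by exact_mod_cast iJ_card89 G
  have g3 : (G.iD.card : ℝ) = (iJ G).card + G.iI.card := by exact_mod_cast iD_card89 G
  have g4 := TT_card89 G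
  have g5 := Q_sum89 G
  have g6 : ∑ K ∈ Kc G, (2 + 2 * θ - θ * (tK G K : ℝ)) =
      (2 + 2 * θ) * (Kc G).card - θ * ((TT G).card / 3) := by
    rw [Finset.sum_sub_distrib, ← Finset.mul_sum, Finset.sum_const, nsmul_eq_mul, g4]
    ring
  rw [g6] at hdis
  -- (i)
  have i1 : ((inN G).card : ℝ) ≤ 2 * (Kc G).card - 3 * cost G al + 4 * ∑ C ∈ WF G, qa G C -
      3 * (gam G al - cor G al) - 2 := by
    linarith
  -- (ii)
  have i2 : ((TT G).card : ℝ) / 3 + cost G al - ∑ C ∈ WF G, qa G C + (gam G al - cor G al) -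
      G.oJ.card + 2 ≤ (inN G).card := by
    linarith
  have j1 := mul_le_mul_of_nonneg_left i1 (by linarith : (0:ℝ) ≤ 1 + θ)
  have j2 := mul_le_mul_of_nonneg_left i2 hθ
  linarith

/-- the number of big inner corners at outer points -/
def cB5 : ℕ := ((BC G).filter (fun x => x.1 ∉ inN G)).card

/-- **the multiplier `y`**: points against white faces -/
theorem yident89 (hG : G.Geo4 al kp U) :
    ∑ v ∈ inN G, (2 * (kv G al v - ep al) - cv G v) + 2 * gam G al - cB5 G =
      ∑ C ∈ WF G, ∑ x ∈ G.cJ C, (2 * gc G al x - 1) := by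
  have h0 : ∑ C ∈ WF G, ∑ x ∈ G.cJ C, (2 * gc G al x - 1) = ∑ x ∈ BC G, (2 * gc G al x - 1) := by
    have h := sum_iJ71 G (fun x => if tt G x then 0 else 2 * gc G al x - 1)
    have e1 : ∑ x ∈ iJ G, (if tt G x then (0 : ℝ) else 2 * gc G al x - 1) =
        ∑ x ∈ BC G, (2 * gc G al x - 1) := by
      unfold BC
      rw [Finset.sum_filter]
      refine Finset.sum_congr rfl fun x _ => ?_
      by_cases h : tt G x
      · rw [if_pos h, if_neg (not_not.2 h)]
      · rw [if_neg h, if_pos h]
    rw [e1] at h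
    rw [h]
    unfold WF
    rw [Finset.sum_filter]
    refine Finset.sum_congr rfl fun C hC => ?_
    by_cases hI : (G.cI C).Nonempty
    · rw [if_pos hI]
      refine Finset.sum_congr rfl fun x hx => ?_
      obtain ⟨h1, h2⟩ := cJ_iJ51 G hC hx
      rw [if_neg]
      rw [tt_iff89 G h1, h2]
      exact hI.ne_empty
    · rw [if_neg hI]
      symm
      refine Finset.sum_eq_zero fun x hx => ?_
      obtain ⟨h1, h2⟩ := cJ_iJ51 G hC hx
      rw [if_pos]
      rw [tt_iff89 G h1, h2]
      exact Finset.not_nonempty_iff_eq_empty.1 hI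
  rw [h0, ← Finset.sum_filter_add_sum_filter_not (BC G) (fun x => x.1 ∈ inN G)]
  have h1 : ∑ x ∈ (BC G).filter (fun x => x.1 ∈ inN G), (2 * gc G al x - 1) =
      ∑ v ∈ inN G, (2 * (kv G al v - ep al) - cv G v) := by
    rw [← Finset.sum_fiberwise_of_maps_to (s := (BC G).filter (fun x => x.1 ∈ inN G))
      (t := inN G) (g := Prod.fst) (fun x hx => (Finset.mem_filter.1 hx).2)]
    refine Finset.sum_congr rfl fun v hv => ?_
    have e2 : ((BC G).filter (fun x => x.1 ∈ inN G)).filter (fun x => x.1 = v) =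
        (BC G).filter (fun x => x.1 = v) := by
      rw [Finset.filter_filter]
      refine Finset.filter_congr fun x _ => ?_
      constructor
      · exact fun h => h.2
      · intro h
        exact ⟨by rw [h]; exact hv, h⟩
    rw [e2, Finset.sum_sub_distrib, ← Finset.mul_sum, Finset.sum_const, nsmul_eq_mul, mul_one]
    unfold cv
    congr 2
    rw [← sum_gc89 G hG hv]
    unfold Jv BC
    rw [Finset.filter_filter]
    have e3 : ∀ x ∈ (iJ G).filter (fun x => x.1 = v), gc G al x ≠ 0 →
        ¬ tt G x := fun x _ h h2 => h (gc_tt89 G hG h2)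
    rw [← Finset.sum_filter_of_ne e3, Finset.filter_filter]
    refine Finset.sum_congr (Finset.filter_congr fun x _ => ?_) fun _ _ => rfl
    tauto
  have h2 : ∑ x ∈ (BC G).filter (fun x => x.1 ∉ inN G), (2 * gc G al x - 1) =
      2 * gam G al - cB5 G := by
    rw [Finset.sum_sub_distrib, ← Finset.mul_sum, Finset.sum_const, nsmul_eq_mul, mul_one]
    unfold cB5 gam
    congr 2
    unfold BC
    rw [Finset.filter_filter]
    have e3 : ∀ x ∈ (iJ G).filter (fun x => x.1 ∉ inN G), gc G al x ≠ 0 →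
        ¬ tt G x := fun x _ h h2 => h (gc_tt89 G hG h2)
    rw [← Finset.sum_filter_of_ne e3, Finset.filter_filter]
    refine Finset.sum_congr (Finset.filter_congr fun x _ => ?_) fun _ _ => rfl
    tauto
  rw [h1, h2]
  ring

end

end Pool.Agent.PEN.E5
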