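import Pool.Agent.E5.SkC89

/-! # PENNY, all small diameters: the sectors at a point -/

set_option autoImplicit false

namespace Pool.Agent.PEN.E5

open Classical UpperHalfPlane
open Pool.Agent.PEN.Cl

noncomputable section

variable {V : Type} (G : Tg V) {al : ℝ} {kp : V → V → ℝ} {U : ℕ → ℝ}

/-- the sectors at `v` -/
def Sv (v : V) : Finset (V × V) := (SD G).filter (fun x => x.2 = v)

/-- the big corners at `v` -/
def Bv (v : V) : Finset (V × V) := (BC G).filter (fun x => x.1 = v)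

theorem mem_Sv89 {v : V} {x : V × V} : x ∈ Sv G v ↔ x ∈ SD G ∧ x.2 = v := by
  unfold Sv
  rw [Finset.mem_filter]

theorem mem_Bv89 {v : V} {x : V × V} : x ∈ Bv G v ↔ x ∈ iJ G ∧ ¬ tt G x ∧ x.1 = v := by
  unfold Bv
  rw [Finset.mem_filter, mem_BC89, and_assoc]

theorem Bv_card89 (v : V) : (Bv G v).card = cv G v := rfl

theorem sg_surj89 (hG : G.Geo4 al kp U) {z : V × V} (hz : z ∈ iJ G) :
    ∃ x ∈ iJ G, sg G x = z := by
  have himg : (iJ G).image (sg G) = iJ G := by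
    apply Finset.eq_of_subset_of_card_le
    · intro y hy
      obtain ⟨x, hx, rfl⟩ := Finset.mem_image.1 hy
      exact (W4.sg_mem51 G hG hx).1
    · rw [Finset.card_image_of_injOn]
      intro x hx y hy h
      exact W4.sg_inj51 G hG (Finset.mem_coe.1 hx) (Finset.mem_coe.1 hy) h
  have h := hz
  rw [← himg] at h
  obtain ⟨x, hx, h2⟩ := Finset.mem_image.1 h
  exact ⟨x, hx, h2⟩

theorem tt_sg89 (hG : G.Geo4 al kp U) {x : V × V} (hx : x ∈ iJ G) : tt G (sg G x) ↔ tt G x := by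
  obtain ⟨h1, h2⟩ := W4.sg_mem51 G hG hx
  rw [tt_iff89 G h1, h2, ← tt_iff89 G hx]

theorem sg_Bv89 (hG : G.Geo4 al kp U) {v : V} (hv : v ∈ inN G) {x : V × V} (hx : x ∈ Sv G v) :
    sg G x ∈ Bv G v := by
  obtain ⟨h1, h2⟩ := (mem_Sv89 G).1 hx
  obtain ⟨h3, h4, h5, h6, h7⟩ := sector_corners89 G hG hv h1 h2
  obtain ⟨h8, h9⟩ := (mem_Jv51 G).1 h3
  exact (mem_Bv89 G).2 ⟨h8, h6, h9⟩

theorem nx_Bv89 (hG : G.Geo4 al kp U) {v : V} (hv : v ∈ inN G) {x : V × V} (hx : x ∈ Sv G v) :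
    nx G x ∈ Bv G v := by
  obtain ⟨h1, h2⟩ := (mem_Sv89 G).1 hx
  obtain ⟨h3, h4, h5, h6, h7⟩ := sector_corners89 G hG hv h1 h2
  obtain ⟨h8, h9⟩ := (mem_Jv51 G).1 h4
  exact (mem_Bv89 G).2 ⟨h8, h7, h9⟩

theorem BC_SD89 {x : V × V} (hx : x ∈ iJ G) (ht : ¬ tt G x) : x ∈ SD G := by
  have h := (mem_iJ71 G).1 hx
  exact (mem_SD42 G).2 ⟨(mem_KJ42 G).2 ⟨G.sub h.1.1, h.2⟩, ht⟩

/-- every big corner is the first corner of a sector (`sg`) -/
theorem sg_ex89 (hG : G.Geo4 al kp U) {v : V} {z : V × V} (hz : z ∈ Bv G v) :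
    ∃ x ∈ Sv G v, sg G x = z := by
  obtain ⟨h1, h2, h3⟩ := (mem_Bv89 G).1 hz
  obtain ⟨x, hx, h4⟩ := sg_surj89 G hG h1
  refine ⟨x, (mem_Sv89 G).2 ⟨BC_SD89 G hx fun h => h2 ?_, ?_⟩, h4⟩
  · rw [← h4]
    exact (tt_sg89 G hG hx).2 h
  · rw [← h3, ← h4]
    rfl

/-- every big corner is the second corner of a sector (`nx`) -/
theorem nx_ex89 (hG : G.Geo4 al kp U) {v : V} {z : V × V} (hz : z ∈ Bv G v) :
    ∃ x ∈ Sv G v, nx G x = z := by
  obtain ⟨h1, h2, h3⟩ := (mem_Bv89 G).1 hz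
  obtain ⟨x, hx, h4⟩ := nx_surj42 G hG (BC_SD89 G h1 h2)
  refine ⟨x, (mem_Sv89 G).2 ⟨hx, ?_⟩, h4⟩
  rw [← h3, ← h4]
  rfl

theorem sg_injSv89 (hG : G.Geo4 al kp U) {v : V} (hv : v ∈ inN G) {x y : V × V}
    (hx : x ∈ Sv G v) (hy : y ∈ Sv G v) (h : sg G x = sg G y) : x = y := by
  obtain ⟨h1, h2⟩ := (mem_Sv89 G).1 hx
  obtain ⟨h3, h4⟩ := (mem_Sv89 G).1 hy
  exact W4.sg_inj51 G hG (sector_corners89 G hG hv h1 h2).2.2.1
    (sector_corners89 G hG hv h3 h4).2.2.1 h

theorem nx_injSv89 (hG : G.Geo4 al kp U) {v : V} {x y : V × V}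
    (hx : x ∈ Sv G v) (hy : y ∈ Sv G v) (h : nx G x = nx G y) : x = y :=
  nx_inj42 G hG ((mem_Sv89 G).1 hx).1 ((mem_Sv89 G).1 hy).1 h

/-- as many sectors as big corners -/
theorem Sv_card89 (hG : G.Geo4 al kp U) {v : V} (hv : v ∈ inN G) : (Sv G v).card = cv G v := by
  rw [← Bv_card89]
  refine Finset.card_bij (fun x _ => nx G x) (fun x hx => nx_Bv89 G hG hv hx)
    (fun x hx y hy h => nx_injSv89 G hG hx hy h) fun z hz => ?_
  obtain ⟨x, hx, h⟩ := nx_ex89 G hG hz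
  exact ⟨x, hx, h⟩

theorem cv_pos89 (hG : G.Geo4 al kp U) {v : V} (hv : v ∈ inN G) : 0 < cv G v := by
  rw [← Sv_card89 G hG hv, Finset.card_pos]
  obtain ⟨h1, h2, h3, h4⟩ := W4.inN_all51 G hG hv
  obtain ⟨a, h5, h6⟩ := W4.con_ex66 G hG h1
  have h7 : (a, v) ∈ KJ G := (mem_KJ42 G).2 ⟨G.symm _ _ h5, G.csymm _ _ h6⟩
  obtain ⟨h8, h9⟩ := nx_mem42 G hG h7
  obtain ⟨h10, h11⟩ := (mem_SD42 G).1 h8
  have h12 : nx G (a, v) ∈ Bv G v :=
    (mem_Bv89 G).2 ⟨(mem_iJ_of_inN42 G hG hv (c := (nx G (a, v)).2) h10).1, h11, rfl⟩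
  obtain ⟨x, hx, _⟩ := sg_ex89 G hG h12
  exact ⟨x, hx⟩

/-- one big corner -/
theorem c1_89 (hG : G.Geo4 al kp U) {v : V} (hv : v ∈ inN G) (hc : cv G v = 1) {x : V × V}
    (hx : x ∈ Sv G v) : Sv G v = {x} ∧ Bv G v = {sg G x} ∧ nx G x = sg G x := by
  have h1 : (Sv G v).card = 1 := by rw [Sv_card89 G hG hv, hc]
  have h2 : (Bv G v).card = 1 := by rw [Bv_card89, hc]
  obtain ⟨a, ha⟩ := Finset.card_eq_one.1 h1
  obtain ⟨b, hb⟩ := Finset.card_eq_one.1 h2
  have h3 := hx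
  rw [ha, Finset.mem_singleton] at h3
  have h4 := sg_Bv89 G hG hv hx
  have h5 := nx_Bv89 G hG hv hx
  rw [hb, Finset.mem_singleton] at h4 h5
  exact ⟨by rw [ha, h3], by rw [hb, h4], by rw [h4, h5]⟩

/-- two big corners: the other sector `y` -/
theorem c2_89 (hG : G.Geo4 al kp U) {v : V} (hv : v ∈ inN G) (hc : cv G v = 2) {x : V × V}
    (hx : x ∈ Sv G v) : nx G x ≠ sg G x ∧ Bv G v = {sg G x, nx G x} ∧
      ∃ y ∈ Sv G v, y ≠ x ∧ Sv G v = {x, y} ∧ sg G y = nx G x ∧ nx G y = sg G x := by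
  obtain ⟨hx1, hx2⟩ := (mem_Sv89 G).1 hx
  have h0 : nx G x ≠ sg G x := fun h => by
    have := (sg_nx_iff89 G hG hv hx1 hx2).1 h.symm
    omega
  have h4 := sg_Bv89 G hG hv hx
  have h5 := nx_Bv89 G hG hv hx
  have hB : Bv G v = {sg G x, nx G x} := by
    symm
    apply Finset.eq_of_subset_of_card_le
    · intro z hz
      rcases Finset.mem_insert.1 hz with h | h
      · rw [h]; exact h4
      · rw [Finset.mem_singleton.1 h]; exact h5
    · rw [Bv_card89, hc, Finset.card_pair h0.symm]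
  obtain ⟨y, hy, hy2⟩ := sg_ex89 G hG h5
  have hyx : y ≠ x := fun h => h0 (by rw [← hy2, h])
  have hS : Sv G v = {x, y} := by
    symm
    apply Finset.eq_of_subset_of_card_le
    · intro z hz
      rcases Finset.mem_insert.1 hz with h | h
      · rw [h]; exact hx
      · rw [Finset.mem_singleton.1 h]; exact hy
    · rw [Sv_card89 G hG hv, hc, Finset.card_pair hyx.symm]
  refine ⟨h0, hB, y, hy, hyx, hS, hy2, ?_⟩
  have h6 := nx_Bv89 G hG hv hy
  rw [hB, Finset.mem_insert, Finset.mem_singleton] at h6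
  rcases h6 with h | h
  · exact h
  · exact absurd (nx_injSv89 G hG hy hx h) hyx

/-- the run of a sector -/
theorem run89 (hG : G.Geo4 al kp U) {v : V} {x : V × V} (hx : x ∈ Sv G v) :
    (∀ i < rn G x, tt G (v, (G.ap v)^[i] x.1)) ∧ nx G x = (v, (G.ap v)^[rn G x] x.1) ∧
      ¬ tt G (v, (G.ap v)^[rn G x] x.1) := by
  obtain ⟨h1, h2⟩ := (mem_Sv89 G).1 hx
  obtain ⟨a, v'⟩ := x
  dsimp only at h2
  subst h2
  have h3 := KJ_swap42 G ((mem_SD42 G).1 h1).1
  have hN : HasN G v' a := hasN42 G hG ((mem_KJ42 G).1 h3).1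
  have e : rn G (a, v') = Nat.find hN := by
    unfold rn
    rw [dif_pos hN]
  refine ⟨fun i hi => ?_, ?_, ?_⟩
  · rw [e] at hi
    exact run_tt42 G hN hi
  · unfold nx
    rw [nb_eq42 G hN, e]
  · rw [e]
    exact Nat.find_spec hN

/-- the corner before a contact triangle -/
theorem prev_tt89 {v c : V} (h : tt G (v, c)) : sg G (G.ap v c, v) = (v, c) := pv_tt42 G h

/-- **rotation**: a set of sectors at `v` closed under the previous sector is everything -/
theorem rot89 (hG : G.Geo4 al kp U) {v : V} (hv : v ∈ inN G) (F : Finset (V × V))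
    (hF : F ⊆ Sv G v) (hne : F.Nonempty)
    (hcl : ∀ x ∈ F, ∀ y ∈ Sv G v, nx G y = sg G x → y ∈ F) : F = Sv G v := by
  obtain ⟨F1, hF1⟩ : ∃ F1, F1 = (Jv G v).filter (fun c => (∃ x ∈ F, c = sg G x) ∨
    ∃ x ∈ F, ∃ i < rn G x, c = (v, (G.ap v)^[i] x.1)) := ⟨_, rfl⟩
  have key := W4.closed51 G hG hv F1 (by
      intro c hc
      rw [hF1, Finset.mem_filter] at hc
      exact (mem_Jv51 G).1 hc.1) (by
      obtain ⟨x, hx⟩ := hne
      obtain ⟨h1, h2⟩ := (mem_Sv89 G).1 (hF hx)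
      refine ⟨sg G x, ?_⟩
      rw [hF1, Finset.mem_filter]
      exact ⟨(sector_corners89 G hG hv h1 h2).1, Or.inl ⟨x, hx, rfl⟩⟩) (by
      intro c hc
      rw [hF1, Finset.mem_filter] at hc
      obtain ⟨h1, h2⟩ := hc
      have h3 := (W4.Jv_swap51 G hG hv h1).2
      rw [hF1, Finset.mem_filter]
      refine ⟨h3, ?_⟩
      rcases h2 with ⟨x, hx, rfl⟩ | ⟨x, hx, i, hi, rfl⟩
      · -- the white corner of `x`
        have hB := sg_Bv89 G hG hv (hF hx)
        obtain ⟨y, hy, hy2⟩ := nx_ex89 G hG hB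
        have hyF := hcl x hx y hy hy2
        obtain ⟨r1, r2, r3⟩ := run89 G hG hy
        have e1 : sg G x = (v, (G.ap v)^[rn G y] y.1) := hy2.symm.trans r2
        rcases Nat.eq_zero_or_pos (rn G y) with h0 | h0
        · left
          refine ⟨y, hyF, ?_⟩
          rw [e1, h0]
          obtain ⟨_, h5⟩ := (mem_Sv89 G).1 hy
          have : y = (y.1, v) := Prod.ext rfl h5
          conv_rhs => rw [this]
          rfl
        · right
          refine ⟨y, hyF, rn G y - 1, by omega, ?_⟩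
          have h5 := r1 (rn G y - 1) (by omega)
          have h6 := prev_tt89 G h5
          have h7 : G.ap v ((G.ap v)^[rn G y - 1] y.1) = (G.ap v)^[rn G y] y.1 := by
            rw [← Function.iterate_succ_apply' (G.ap v)]
            congr 1
            rw [show (rn G y - 1).succ = rn G y by omega]
          rw [h7] at h6
          rw [e1]
          exact h6
      · -- a contact triangle in the run of `x`
        obtain ⟨r1, r2, r3⟩ := run89 G hG (hF hx)
        rcases Nat.eq_zero_or_pos i with h0 | h0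
        · left
          refine ⟨x, hx, ?_⟩
          rw [h0]
          obtain ⟨_, h5⟩ := (mem_Sv89 G).1 (hF hx)
          have : x = (x.1, v) := Prod.ext rfl h5
          conv_rhs => rw [this]
          rfl
        · right
          refine ⟨x, hx, i - 1, by omega, ?_⟩
          have h5 := r1 (i - 1) (by omega)
          have h6 := prev_tt89 G h5
          have h7 : G.ap v ((G.ap v)^[i - 1] x.1) = (G.ap v)^[i] x.1 := by
            rw [← Function.iterate_succ_apply' (G.ap v)]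
            congr 1
            rw [show (i - 1).succ = i by omega]
          rw [h7] at h6
          exact h6)
  apply Finset.Subset.antisymm hF
  intro y hy
  have hB := (mem_Bv89 G).1 (sg_Bv89 G hG hv hy)
  have h1 := key (sg G y) hB.1 hB.2.2
  rw [hF1, Finset.mem_filter] at h1
  rcases h1.2 with ⟨x, hx, h2⟩ | ⟨x, hx, i, hi, h2⟩
  · rw [sg_injSv89 G hG hv hy (hF hx) h2]
    exact hx
  · exact absurd (by rw [h2]; exact (run89 G hG (hF hx)).1 i hi) hB.2.1

/-- three big corners: the next sector `y` and the third sector `z` -/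
theorem c3_89 (hG : G.Geo4 al kp U) {v : V} (hv : v ∈ inN G) (hc : cv G v = 3) {x : V × V}
    (hx : x ∈ Sv G v) : ∃ y ∈ Sv G v, ∃ z ∈ Sv G v, y ≠ x ∧ z ≠ x ∧ z ≠ y ∧
      Sv G v = {x, y, z} ∧ Bv G v = {sg G x, sg G y, sg G z} ∧ sg G y = nx G x ∧
      sg G z = nx G y ∧ nx G z = sg G x := by
  obtain ⟨hx1, hx2⟩ := (mem_Sv89 G).1 hx
  have h0 : nx G x ≠ sg G x := fun h => by
    have := (sg_nx_iff89 G hG hv hx1 hx2).1 h.symm
    omega
  have h5 := nx_Bv89 G hG hv hx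
  obtain ⟨y, hy, hy2⟩ := sg_ex89 G hG h5
  have hyx : y ≠ x := fun h => h0 (by rw [← hy2, h])
  obtain ⟨hy3, hy4⟩ := (mem_Sv89 G).1 hy
  have h7 : nx G y ≠ sg G y := fun h => by
    have := (sg_nx_iff89 G hG hv hy3 hy4).1 h.symm
    omega
  have h8 := nx_Bv89 G hG hv hy
  obtain ⟨z, hz, hz2⟩ := sg_ex89 G hG h8
  have hcS : (Sv G v).card = 3 := by rw [Sv_card89 G hG hv, hc]
  have hzy : z ≠ y := fun h => h7 (by rw [← hz2, h])
  have hzx : z ≠ x := by
    intro hzx
    have h10 : nx G y = sg G x := by rw [← hz2, hzx]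
    have hsub : ({x, y} : Finset (V × V)) ⊆ Sv G v := by
      intro w hw
      rcases Finset.mem_insert.1 hw with h | h
      · rw [h]; exact hx
      · rw [Finset.mem_singleton.1 h]; exact hy
    have hrot := rot89 G hG hv {x, y} hsub ⟨x, by simp⟩ (by
      intro w hw u hu huw
      rw [Finset.mem_insert, Finset.mem_singleton] at hw ⊢
      rcases hw with rfl | rfl
      · exact Or.inr (nx_injSv89 G hG hu hy (by rw [huw, h10]))
      · exact Or.inl (nx_injSv89 G hG hu hx (by rw [huw, hy2])))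
    have : (Sv G v).card ≤ 2 := by
      rw [← hrot]
      exact Finset.card_le_two
    omega
  have hS : Sv G v = {x, y, z} := by
    symm
    apply Finset.eq_of_subset_of_card_le
    · intro w hw
      rw [Finset.mem_insert, Finset.mem_insert, Finset.mem_singleton] at hw
      rcases hw with h | h | h
      · rw [h]; exact hx
      · rw [h]; exact hy
      · rw [h]; exact hz
    · rw [hcS, Finset.card_eq_three.2 ⟨x, y, z, hyx.symm, hzx.symm, hzy.symm, rfl⟩]
  refine ⟨y, hy, z, hz, hyx, hzx, hzy, hS, ?_, hy2, hz2, ?_⟩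
  · symm
    apply Finset.eq_of_subset_of_card_le
    · intro w hw
      rw [Finset.mem_insert, Finset.mem_insert, Finset.mem_singleton] at hw
      rcases hw with h | h | h
      · rw [h]; exact sg_Bv89 G hG hv hx
      · rw [h]; exact sg_Bv89 G hG hv hy
      · rw [h]; exact sg_Bv89 G hG hv hz
    · rw [Bv_card89, hc, Finset.card_eq_three.2 ⟨sg G x, sg G y, sg G z,
        fun h => hyx (sg_injSv89 G hG hv hx hy h).symm, fun h => hzx (sg_injSv89 G hG hv hx hz h).symm,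
        fun h => hzy (sg_injSv89 G hG hv hy hz h).symm, rfl⟩]
  · obtain ⟨w, hw, hw2⟩ := nx_ex89 G hG (sg_Bv89 G hG hv hx)
    rw [hS, Finset.mem_insert, Finset.mem_insert, Finset.mem_singleton] at hw
    rcases hw with h | h | h
    · rw [h] at hw2
      exact absurd hw2 h0
    · rw [h] at hw2
      exact absurd (sg_injSv89 G hG hv hz hx (by rw [hz2, hw2])) hzx
    · rw [← h]
      exact hw2

end

end Pool.Agent.PEN.E5
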