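import Pool.Agent.E5.V1_62

/-! # PENNY, all small diameters: the vertex table -/

set_option autoImplicit false

namespace Pool.Agent.PEN.E5

open Classical UpperHalfPlane
open Pool.Agent.PEN.Cl

noncomputable section

variable {V : Type} (G : Tg V) {al : ℝ} {kp : V → V → ℝ} {U : ℕ → ℝ}

/-- there is a big corner at every inner point -/
theorem cv_pos15 (hG : G.Geo4 al kp U) {v : V} (hv : v ∈ inN G) : 1 ≤ cv G v := by
  by_contra hno
  have h0 : cv G v = 0 := by omega
  unfold cv at h0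
  rw [cv_BC89, Finset.card_eq_zero] at h0
  have h1 := sum_gc89 G hG hv
  have h2 : ∑ x ∈ Jv G v, gc G al x = 0 := by
    refine Finset.sum_eq_zero fun x hx => ?_
    refine gc_tt89 G hG ?_
    by_contra h3
    have : x ∈ (Jv G v).filter (fun x => ¬ tt G x) := Finset.mem_filter.2 ⟨hx, h3⟩
    rw [h0] at this
    exact absurd this (Finset.notMem_empty _)
  have h3 := kv_ge89 G hG hv
  have h4 := ep_lt89 G hG
  linarith

theorem un_ge15 {x : V × V} (h : ¬ tt G x) : 2 ≤ un G al x := by
  unfold un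
  rw [if_neg h]
  exact le_max_left _ _

/-- the units of the big corners at `v` -/
def ub15 (al : ℝ) (v : V) : ℕ := ∑ x ∈ Bv G v, un G al x

theorem two_cv_le15 (v : V) : 2 * cv G v ≤ ub15 G al v := by
  unfold ub15 cv
  rw [mul_comm, ← smul_eq_mul]
  exact Finset.card_nsmul_le_sum _ _ _ fun x hx =>
    un_ge15 G ((mem_BC89 G).1 ((mem_Bv62 G).1 hx).1).2

/-- `k = 2` and four big corners: at most two sectors with nonnegative surplus -/
theorem two_of_four15 (hG : G.Geo4 al kp U) {v : V} (hv : v ∈ inN G) (hu : uv G al v = 8)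
    (hc : cv G v = 4) : ((Sv G v).filter (fun x => 0 ≤ Ds G al x)).card ≤ 2 := by
  set B := (Jv G v).filter (fun x => ¬ tt G x) with hB
  have hBc : B.card = 4 := by
    rw [hB, ← cv_BC89]
    exact hc
  have hS4 : (Sv G v).card = 4 := by rw [card_Sv62 G hG hv, hc]
  have hsum : ∑ x ∈ B, gc G al x = 2 - ep al := by
    have h1 := sum_gc89 G hG hv
    have h2 : ∑ x ∈ B, gc G al x = ∑ x ∈ Jv G v, gc G al x := by
      refine Finset.sum_filter_of_ne fun x _ h h3 => h (gc_tt89 G hG h3)
    rw [h2, h1, kv_eq89, hu]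
    norm_num
  have hep := ep_pos89 G hG
  have facts : ∀ x ∈ Sv G v, sg G x ∈ B ∧ nx G x ∈ B ∧ sg G x ≠ nx G x := by
    intro x hx
    obtain ⟨h1, h2⟩ := (mem_Sv62 G).1 hx
    obtain ⟨h3, h4, h5, h6, h7⟩ := sector_corners89 G hG hv h1 h2
    refine ⟨Finset.mem_filter.2 ⟨h3, h6⟩, Finset.mem_filter.2 ⟨h4, h7⟩, fun h => ?_⟩
    have := (sg_nx_iff89 G hG hv h1 h2).1 h
    omega
  have sinj : ∀ x ∈ Sv G v, ∀ y ∈ Sv G v, sg G x = sg G y → x = y := by
    intro x hx y hy h
    obtain ⟨h1, h2⟩ := (mem_Sv62 G).1 hx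
    obtain ⟨h3, h4⟩ := (mem_Sv62 G).1 hy
    obtain ⟨_, _, h5, _, _⟩ := sector_corners89 G hG hv h1 h2
    obtain ⟨_, _, h6, _, _⟩ := sector_corners89 G hG hv h3 h4
    exact W4.sg_inj51 G hG h5 h6 h
  have ninj : ∀ x ∈ Sv G v, ∀ y ∈ Sv G v, nx G x = nx G y → x = y := by
    intro x hx y hy h
    exact nx_inj42 G hG ((mem_Sv62 G).1 hx).1 ((mem_Sv62 G).1 hy).1 h
  -- disjoint sectors are not both nonnegative
  have dis : ∀ x ∈ Sv G v, ∀ y ∈ Sv G v, x ≠ y → 0 ≤ Ds G al x → 0 ≤ Ds G al y →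
      nx G x = sg G y ∨ nx G y = sg G x := by
    intro x hx y hy hxy hDx hDy
    by_contra hno
    push Not at hno
    obtain ⟨n1, n2⟩ := hno
    obtain ⟨a1, a2, a3⟩ := facts x hx
    obtain ⟨b1, b2, b3⟩ := facts y hy
    have c1 : sg G x ≠ sg G y := fun h => hxy (sinj x hx y hy h)
    have c2 : nx G x ≠ nx G y := fun h => hxy (ninj x hx y hy h)
    have hset : ({sg G x, nx G x, sg G y, nx G y} : Finset (V × V)) = B := by
      refine Finset.eq_of_subset_of_card_le ?_ ?_
      · intro z hz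
        simp only [Finset.mem_insert, Finset.mem_singleton] at hz
        rcases hz with rfl | rfl | rfl | rfl <;> assumption
      · rw [hBc, Finset.card_insert_of_notMem, Finset.card_insert_of_notMem,
          Finset.card_insert_of_notMem, Finset.card_singleton]
        · rw [Finset.mem_singleton]; exact b3
        · simp only [Finset.mem_insert, Finset.mem_singleton]
          rintro (h | h)
          · exact n1 h
          · exact c2 h
        · simp only [Finset.mem_insert, Finset.mem_singleton]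
          rintro (h | h | h)
          · exact a3 h
          · exact c1 h
          · exact n2 h.symm
    rw [← hset, Finset.sum_insert, Finset.sum_insert, Finset.sum_insert,
      Finset.sum_singleton] at hsum
    · unfold Ds at hDx hDy
      linarith
    · rw [Finset.mem_singleton]; exact b3
    · simp only [Finset.mem_insert, Finset.mem_singleton]
      rintro (h | h)
      · exact n1 h
      · exact c2 h
    · simp only [Finset.mem_insert, Finset.mem_singleton]
      rintro (h | h | h)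
      · exact a3 h
      · exact c1 h
      · exact n2 h.symm
  by_contra hno
  push Not at hno
  obtain ⟨x, hx, y, hy, z, hz, hxy, hxz, hyz⟩ := Finset.two_lt_card.1 hno
  rw [Finset.mem_filter] at hx hy hz
  obtain ⟨hx, hDx⟩ := hx
  obtain ⟨hy, hDy⟩ := hy
  obtain ⟨hz, hDz⟩ := hz
  -- the fourth sector
  obtain ⟨t, ht, htx, hty, htz⟩ : ∃ t ∈ Sv G v, t ≠ x ∧ t ≠ y ∧ t ≠ z := by
    by_contra hno
    push Not at hno
    have : Sv G v ⊆ {x, y, z} := by
      intro t ht
      simp only [Finset.mem_insert, Finset.mem_singleton]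
      by_cases h1 : t = x
      · exact Or.inl h1
      · by_cases h2 : t = y
        · exact Or.inr (Or.inl h2)
        · exact Or.inr (Or.inr (hno t ht h1 h2))
    have h2 := Finset.card_le_card this
    have h3 := Finset.card_le_three (a := x) (b := y) (c := z)
    omega
  obtain ⟨a1, a2, a3⟩ := facts x hx
  obtain ⟨b1, b2, b3⟩ := facts y hy
  obtain ⟨c1, c2, c3⟩ := facts z hz
  obtain ⟨d1, d2, d3⟩ := facts t ht
  -- the values of `sg` at the four sectors are all corners
  have hall : ({sg G x, sg G y, sg G z, sg G t} : Finset (V × V)) = B := by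
    refine Finset.eq_of_subset_of_card_le ?_ ?_
    · intro w hw
      simp only [Finset.mem_insert, Finset.mem_singleton] at hw
      rcases hw with rfl | rfl | rfl | rfl <;> assumption
    · rw [hBc, Finset.card_insert_of_notMem, Finset.card_insert_of_notMem,
        Finset.card_insert_of_notMem, Finset.card_singleton]
      · rw [Finset.mem_singleton]; exact fun h => htz (sinj z hz t ht h).symm
      · simp only [Finset.mem_insert, Finset.mem_singleton]
        rintro (h | h)
        · exact hyz (sinj y hy z hz h)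
        · exact hty (sinj y hy t ht h).symm
      · simp only [Finset.mem_insert, Finset.mem_singleton]
        rintro (h | h | h)
        · exact hxy (sinj x hx y hy h)
        · exact hxz (sinj x hx z hz h)
        · exact htx (sinj x hx t ht h).symm
  have h4 : nx G t ∈ ({sg G x, sg G y, sg G z, sg G t} : Finset (V × V)) := by
    rw [hall]; exact d2
  simp only [Finset.mem_insert, Finset.mem_singleton] at h4
  rcases dis x hx y hy hxy hDx hDy with e1 | e1 <;>
  rcases dis y hy z hz hyz hDy hDz with e2 | e2 <;>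
  rcases dis x hx z hz hxz hDx hDz with e3 | e3
  · exact hyz (sinj y hy z hz (e1.symm.trans e3))
  · rcases h4 with h | h | h | h
    · exact htz (ninj t ht z hz (h.trans e3.symm))
    · exact htx (ninj t ht x hx (h.trans e1.symm))
    · exact hty (ninj t ht y hy (h.trans e2.symm))
    · exact d3 h.symm
  · exact hyz (sinj y hy z hz (e1.symm.trans e3))
  · exact hxz (ninj x hx z hz (e1.trans e2.symm))
  · exact hxz (sinj x hx z hz (e1.symm.trans e2))
  · exact hxz (sinj x hx z hz (e1.symm.trans e2))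
  · rcases h4 with h | h | h | h
    · exact hty (ninj t ht y hy (h.trans e1.symm))
    · exact htz (ninj t ht z hz (h.trans e2.symm))
    · exact htx (ninj t ht x hx (h.trans e3.symm))
    · exact d3 h.symm
  · exact hxy (sinj x hx y hy (e3.symm.trans e2))

/-- **the arithmetic table**: sectors `i ∈ S` with `t i` triangles, the served ones in `P`, `us` the
units of the big corners, `u` all units (`k = u - 6`). Exception: `k = 2` and three big corners -/
theorem table15 {θ y Λ : ℝ} (hθ : 0 ≤ θ) (hy0 : y ≤ 2 + 2 * θ)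
    (hy2 : 2 * y + 1 ≤ Λ) (hy3 : 3 * y ≤ 1 + 2 * θ + Λ) (hy4 : 3 + θ + 3 / 2 * y ≤ 2 * Λ)
    (hy5 : 3 / 2 * y ≤ 2 + 3 * θ + Λ) (hΛ : 1 ≤ Λ)
    {ι : Type} (S P : Finset ι) (t : ι → ℕ) (u c us : ℕ) (hP : P ⊆ S) (hS : S.card = c)
    (hc : 1 ≤ c) (hus : 2 * c ≤ us) (hu : ∑ i ∈ S, t i + us = u) (h8 : 8 ≤ u)
    (h4 : u = 8 → c = 4 → P.card ≤ 2) :
    ∑ i ∈ P, max (2 + 2 * θ - θ * t i) 0 + y * (2 * ((u : ℝ) - 6) - c) ≤
      (3 + 4 * θ + Λ) * ((u : ℝ) - 6 - 1) +
        (if u = 8 ∧ c = 3 then (y + 3 - Λ) + θ * ((us : ℝ) - 6) else 0) := by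
  have crude : ∑ i ∈ P, max (2 + 2 * θ - θ * t i) 0 ≤ P.card * (2 + 2 * θ) := by
    rw [← nsmul_eq_mul]
    refine Finset.sum_le_card_nsmul _ _ _ fun i _ => ?_
    have h1 : 0 ≤ θ * (t i : ℝ) := mul_nonneg hθ (Nat.cast_nonneg _)
    exact max_le (by linarith) (by linarith)
  have hPc : (P.card : ℝ) ≤ c := by
    rw [← hS]
    exact_mod_cast Finset.card_le_card hP
  have crude2 : ∑ i ∈ P, max (2 + 2 * θ - θ * t i) 0 ≤ c * (2 + 2 * θ) :=
    crude.trans (mul_le_mul_of_nonneg_right hPc (by linarith))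
  have hcu : 2 * c ≤ u := by omega
  rcases Nat.lt_or_ge 8 u with h9 | h9
  · have hn : ¬ (u = 8 ∧ c = 3) := by omega
    rw [if_neg hn, add_zero]
    have k3 : (9 : ℝ) ≤ u := by exact_mod_cast h9
    have hcu' : 2 * (c : ℝ) ≤ u := by exact_mod_cast hcu
    have p1 : 0 ≤ ((u : ℝ) / 2 - c) * (2 + 2 * θ - y) := mul_nonneg (by linarith) (by linarith)
    have p2 : 0 ≤ ((u : ℝ) - 9) * (2 + 3 * θ + Λ - 3 / 2 * y) :=
      mul_nonneg (by linarith) (by linarith)
    nlinarith [p1, p2, crude2]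
  · have hu8 : u = 8 := le_antisymm h9 h8
    have hc4 : c ≤ 4 := by omega
    subst hu8
    by_cases c3 : c = 3
    · rw [if_pos ⟨rfl, c3⟩]
      have e1 : ∑ i ∈ P, max (2 + 2 * θ - θ * t i) 0 ≤ ∑ i ∈ S, (2 + 2 * θ - θ * (t i : ℝ)) := by
        have e2 : ∀ i ∈ S, max (2 + 2 * θ - θ * (t i : ℝ)) 0 = 2 + 2 * θ - θ * (t i : ℝ) := by
          intro i hi
          have h1 : t i ≤ ∑ j ∈ S, t j := Finset.single_le_sum (fun _ _ => Nat.zero_le _) hi
          have h2 : t i ≤ 2 := by omega
          have h3 : (t i : ℝ) ≤ 2 := by exact_mod_cast h2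
          have h4 := mul_le_mul_of_nonneg_left h3 hθ
          exact max_eq_left (by linarith)
        calc ∑ i ∈ P, max (2 + 2 * θ - θ * (t i : ℝ)) 0 ≤
            ∑ i ∈ S, max (2 + 2 * θ - θ * (t i : ℝ)) 0 :=
              Finset.sum_le_sum_of_subset_of_nonneg hP fun _ _ _ => le_max_right _ _
          _ = _ := Finset.sum_congr rfl e2
      have e3 : ∑ i ∈ S, (2 + 2 * θ - θ * (t i : ℝ)) = 3 * (2 + 2 * θ) - θ * (8 - us) := by
        rw [Finset.sum_sub_distrib, Finset.sum_const, hS, c3, ← Finset.mul_sum, nsmul_eq_mul]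
        have : ((∑ i ∈ S, t i : ℕ) : ℝ) + us = 8 := by exact_mod_cast hu
        rw [Nat.cast_sum] at this
        have h5 : ∑ i ∈ S, (t i : ℝ) = 8 - us := by linarith
        rw [h5]
        norm_num
      rw [e3] at e1
      rw [c3]
      push_cast
      linarith
    · rw [if_neg (fun h => c3 h.2), add_zero]
      have hc' : c = 1 ∨ c = 2 ∨ c = 4 := by omega
      rcases hc' with rfl | rfl | rfl
      · push_cast at crude2 ⊢
        linarith
      · push_cast at crude2 ⊢
        linarith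
      · have h2 : (P.card : ℝ) ≤ 2 := by exact_mod_cast h4 rfl rfl
        have h3 := mul_le_mul_of_nonneg_right h2 (by linarith : (0:ℝ) ≤ 2 + 2 * θ)
        push_cast
        linarith

/-- **vertex table** (`k ≥ 2`): the prices of the served sectors against the cost of the point -/
theorem vertex15 (hG : G.Geo4 al kp U) {θ y Λ : ℝ} (hθ : 0 ≤ θ) (hy0 : y ≤ 2 + 2 * θ)
    (hy2 : 2 * y + 1 ≤ Λ) (hy3 : 3 * y ≤ 1 + 2 * θ + Λ) (hy4 : 3 + θ + 3 / 2 * y ≤ 2 * Λ)
    (hy5 : 3 / 2 * y ≤ 2 + 3 * θ + Λ) (hΛ : 1 ≤ Λ) {v : V} (hv : v ∈ inN G)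
    (h8 : 8 ≤ uv G al v) :
    ∑ x ∈ (Sv G v).filter (fun x => 0 ≤ Ds G al x), max (2 + 2 * θ - θ * rn G x) 0 +
        y * (2 * kv G al v - cv G v) ≤
      (3 + 4 * θ + Λ) * (kv G al v - 1) +
        (if uv G al v = 8 ∧ cv G v = 3 then (y + 3 - Λ) + θ * ((ub15 G al v : ℝ) - 6) else 0) := by
  rw [kv_eq89]
  refine table15 hθ hy0 hy2 hy3 hy4 hy5 hΛ (Sv G v) _ (rn G) (uv G al v) (cv G v)
    (ub15 G al v) (Finset.filter_subset _ _) (card_Sv62 G hG hv) (cv_pos15 G hG hv) ?_
    (uv_split62 G hG v) h8 (fun h1 h2 => two_of_four15 G hG hv h1 h2)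
  exact two_cv_le15 G v

end

end Pool.Agent.PEN.E5
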