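import Pool.Agent.E5.R2_63
import Pool.Agent.E5.Vt15

/-! # PENNY, all small diameters: from black faces to points -/

set_option autoImplicit false

namespace Pool.Agent.PEN.E5

open Classical UpperHalfPlane
open Pool.Agent.PEN.Cl

noncomputable section

variable {V : Type} (G : Tg V) {al : ℝ} {kp : V → V → ℝ} {U : ℕ → ℝ}

/-- **servers**: the prices of the black faces with a sector in `Q` -/
theorem servers15 (hG : G.Geo4 al kp U) {θ : ℝ} (hθ : 0 ≤ θ)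
    (Kg : Finset (cg G).ConnectedComponent) (Q : Finset (V × V))
    (hs : ∀ K ∈ Kg, ∃ x ∈ kS G K, x ∈ Q) :
    ∑ K ∈ Kg, max (2 + 2 * θ - θ * (tK G K : ℝ)) 0 ≤
      ∑ x ∈ Q, max (2 + 2 * θ - θ * (rn G x : ℝ)) 0 := by
  rcases Kg.eq_empty_or_nonempty with rfl | ⟨K0, hK0⟩
  · rw [Finset.sum_empty]
    exact Finset.sum_nonneg fun _ _ => le_max_right _ _
  obtain ⟨x0, -⟩ := hs K0 hK0
  have hs' : ∀ K, ∃ x, K ∈ Kg → x ∈ kS G K ∧ x ∈ Q := by
    intro K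
    by_cases h : K ∈ Kg
    · obtain ⟨x, h1, h2⟩ := hs K h
      exact ⟨x, fun _ => ⟨h1, h2⟩⟩
    · exact ⟨x0, fun h2 => absurd h2 h⟩
  choose f hf using hs'
  have hinj : Set.InjOn f (Kg : Set (cg G).ConnectedComponent) := by
    intro K hK K' hK' he
    have h1 := ((mem_kS42 G).1 (hf K (Finset.mem_coe.1 hK)).1).2
    have h2 := ((mem_kS42 G).1 (hf K' (Finset.mem_coe.1 hK')).1).2
    rw [← h1, ← h2, he]
  calc ∑ K ∈ Kg, max (2 + 2 * θ - θ * (tK G K : ℝ)) 0 ≤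
      ∑ K ∈ Kg, max (2 + 2 * θ - θ * (rn G (f K) : ℝ)) 0 := by
        refine Finset.sum_le_sum fun K hK => max_le_max ?_ le_rfl
        obtain ⟨h1, h2⟩ := (mem_kS42 G).1 (hf K hK).1
        have h3 := rn_le_tK63 G hG h1
        rw [h2] at h3
        have h4 : (rn G (f K) : ℝ) ≤ tK G K := by exact_mod_cast h3
        have h5 := mul_le_mul_of_nonneg_left h4 hθ
        linarith
    _ = ∑ x ∈ Kg.image f, max (2 + 2 * θ - θ * (rn G x : ℝ)) 0 :=
        (Finset.sum_image (f := fun x => max (2 + 2 * θ - θ * (rn G x : ℝ)) 0) hinj).symm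
    _ ≤ _ := by
        refine Finset.sum_le_sum_of_subset_of_nonneg ?_ fun _ _ _ => le_max_right _ _
        intro x hx
        obtain ⟨K, hK, rfl⟩ := Finset.mem_image.1 hx
        exact (hf K hK).2

/-- sums over sectors, by points -/
theorem sum_sectors15 (A : Finset V) (P : V × V → Prop) (f : V × V → ℝ) :
    ∑ x ∈ (SD G).filter (fun x => x.2 ∈ A ∧ P x), f x =
      ∑ v ∈ A, ∑ x ∈ (Sv G v).filter P, f x := by
  rw [← Finset.sum_fiberwise_of_maps_to (s := (SD G).filter (fun x => x.2 ∈ A ∧ P x))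
    (t := A) (g := Prod.snd) (fun x hx => (Finset.mem_filter.1 hx).2.1)]
  refine Finset.sum_congr rfl fun v hv => ?_
  unfold Sv
  rw [Finset.filter_filter, Finset.filter_filter]
  refine Finset.sum_congr (Finset.filter_congr fun x _ => ?_) fun _ _ => rfl
  constructor
  · rintro ⟨⟨_, h2⟩, h3⟩
    exact ⟨h3, h2⟩
  · rintro ⟨h1, h2⟩
    exact ⟨⟨by rw [h1]; exact hv, h2⟩, h1⟩

/-- **points against black faces**: the black faces `Kg` have servers at points with `k ≥ 2`; the term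
of the points with `k = 1` is `y (2 - c)` -/
theorem points15 (hG : G.Geo4 al kp U) {θ y Λ : ℝ} (hθ : 0 ≤ θ) (hy0 : y ≤ 2 + 2 * θ)
    (hy2 : 2 * y + 1 ≤ Λ) (hy3 : 3 * y ≤ 1 + 2 * θ + Λ) (hy4 : 3 + θ + 3 / 2 * y ≤ 2 * Λ)
    (hy5 : 3 / 2 * y ≤ 2 + 3 * θ + Λ) (hΛ : 1 ≤ Λ)
    (Kg : Finset (cg G).ConnectedComponent)
    (hs : ∀ K ∈ Kg, ∃ x ∈ kS G K, x.2 ∈ (inN G).filter (fun v => 8 ≤ uv G al v) ∧ 0 ≤ Ds G al x) :
    ∑ K ∈ Kg, max (2 + 2 * θ - θ * (tK G K : ℝ)) 0 +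
        y * ∑ v ∈ inN G, (2 * kv G al v - cv G v) ≤
      (3 + 4 * θ + Λ) * ∑ v ∈ inN G, (kv G al v - 1) +
        ∑ v ∈ (inN G).filter (fun v => uv G al v = 8 ∧ cv G v = 3),
          ((y + 3 - Λ) + θ * ((ub15 G al v : ℝ) - 6)) +
        y * ∑ v ∈ (inN G).filter (fun v => ¬ 8 ≤ uv G al v), (2 - (cv G v : ℝ)) := by
  have h1 : ∑ K ∈ Kg, max (2 + 2 * θ - θ * (tK G K : ℝ)) 0 ≤
      ∑ v ∈ (inN G).filter (fun v => 8 ≤ uv G al v),
        ∑ x ∈ (Sv G v).filter (fun x => 0 ≤ Ds G al x), max (2 + 2 * θ - θ * (rn G x : ℝ)) 0 := by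
    rw [← sum_sectors15 G _ (fun x => 0 ≤ Ds G al x)]
    refine servers15 G hG hθ Kg _ fun K hK => ?_
    obtain ⟨x, h1, h2⟩ := hs K hK
    exact ⟨x, h1, Finset.mem_filter.2 ⟨mem_kS89 G h1, h2⟩⟩
  have h2 : ∑ v ∈ (inN G).filter (fun v => 8 ≤ uv G al v),
      (∑ x ∈ (Sv G v).filter (fun x => 0 ≤ Ds G al x), max (2 + 2 * θ - θ * (rn G x : ℝ)) 0 +
        y * (2 * kv G al v - cv G v)) ≤
      ∑ v ∈ (inN G).filter (fun v => 8 ≤ uv G al v), ((3 + 4 * θ + Λ) * (kv G al v - 1) +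
        (if uv G al v = 8 ∧ cv G v = 3 then (y + 3 - Λ) + θ * ((ub15 G al v : ℝ) - 6) else 0)) :=
    Finset.sum_le_sum fun v hv =>
      vertex15 G hG hθ hy0 hy2 hy3 hy4 hy5 hΛ (Finset.mem_filter.1 hv).1 (Finset.mem_filter.1 hv).2
  rw [Finset.sum_add_distrib, Finset.sum_add_distrib, ← Finset.mul_sum, ← Finset.mul_sum,
    ← Finset.sum_filter, Finset.filter_filter] at h2
  have h3 : (inN G).filter (fun v => 8 ≤ uv G al v ∧ (uv G al v = 8 ∧ cv G v = 3)) =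
      (inN G).filter (fun v => uv G al v = 8 ∧ cv G v = 3) :=
    Finset.filter_congr fun v _ => ⟨fun h => h.2, fun h => ⟨h.1.ge, h⟩⟩
  rw [h3] at h2
  have h4 : ∑ v ∈ inN G, (2 * kv G al v - (cv G v : ℝ)) =
      ∑ v ∈ (inN G).filter (fun v => 8 ≤ uv G al v), (2 * kv G al v - (cv G v : ℝ)) +
        ∑ v ∈ (inN G).filter (fun v => ¬ 8 ≤ uv G al v), (2 - (cv G v : ℝ)) := by
    rw [← Finset.sum_filter_add_sum_filter_not (inN G) (fun v => 8 ≤ uv G al v)]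
    congr 1
    refine Finset.sum_congr rfl fun v hv => ?_
    obtain ⟨h5, h6⟩ := Finset.mem_filter.1 hv
    have h7 := uv_ge89 G hG h5
    have h8 : uv G al v = 7 := by omega
    rw [kv_eq89, h8]
    norm_num
  have h5 : ∑ v ∈ inN G, (kv G al v - 1) =
      ∑ v ∈ (inN G).filter (fun v => 8 ≤ uv G al v), (kv G al v - 1) := by
    symm
    refine Finset.sum_filter_of_ne fun v hv h => ?_
    by_contra h6
    have h7 := uv_ge89 G hG hv
    have h8 : uv G al v = 7 := by omega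
    refine h ?_
    rw [kv_eq89, h8]
    norm_num
  rw [h4, h5]
  linarith

end

end Pool.Agent.PEN.E5
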