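import Pool.Agent.E5.N860_51
import Pool.Agent.E5.Fin7_71
import Pool.Agent.P4.SLc85

/-! # PENNY, more than 870 points: the numerics of the scheme with slope 131 / 55 and the frame
with four layers -/

set_option autoImplicit false

namespace Pool.Agent.PEN.E5

open Classical UpperHalfPlane
open Pool.Agent.PEN.Cl

noncomputable section

/-! ### the frame with the lower bound `Lb85` -/

theorem Lb85_nine71 : Lb85 9 = 16 := by
  unfold Lb85
  rw [Lb_nine71]
  norm_num

theorem Lb85_step71 (n : ℕ) (hn : 9 ≤ n) : Lb85 n + 2 ≤ Lb85 (n + 1) := by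
  have h1 := Lb_step n hn
  have h2 := Lb_le_Lb85 (n + 1)
  have h3 : (if n = 85 then 196 else if 198 ≤ n then (131 * n - 363) / 55 else 0) + 2 ≤
      Lb85 (n + 1) := by
    by_cases h85 : n = 85
    · rw [if_pos h85]
      have h4 : 198 ≤ Lb (n + 1) := by
        rw [h85]
        unfold Lb
        norm_num
      omega
    · rw [if_neg h85]
      by_cases h198 : 198 ≤ n
      · rw [if_pos h198]
        have h4 := layer4_le_Lb85 (n := n + 1) (by omega)
        omega
      · rw [if_neg h198]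
        omega
  have h4 : Lb85 n = max (Lb n)
    (if n = 85 then 196 else if 198 ≤ n then (131 * n - 363) / 55 else 0) := rfl
  rcases le_total (Lb n)
    (if n = 85 then 196 else if 198 ≤ n then (131 * n - 363) / 55 else 0) with h | h
  · rw [h4, max_eq_right h]
    exact h3
  · rw [h4, max_eq_left h]
    omega

/-- **Q1 for one diameter and at most `N` points**, from the structures, with four layers -/
theorem q1_of_main85 {e d : ℝ} (he : 0 < e) (ha : alpha e = 2 * Real.pi / 7) (hd : 0 < d) (N : ℕ)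
    (hmain : d < e → ∀ G : Tg ℍ, G.Geo4 (alpha d) kap (Ust69 d) → DelG G d → HullT G →
      Sep d G.P → 10 ≤ G.P.card → G.P.card ≤ N →
      (G.D.filter (fun x => G.con x.1 x.2)).card ≤ 2 * Lb85 G.P.card)
    {n : ℕ} (hn : n ≤ N) : eD d n ≤ eD e n := by
  rcases Nat.lt_or_ge n 10 with h10 | h10
  · exact q1_above he ha hd (Or.inr (by omega))
  rcases le_or_gt e d with hed | hed
  · exact q1_above he ha hd (Or.inl hed)
  · have ha2 : 2 * Real.pi < 7 * alpha d := by
      have := alpha_anti hd hed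
      rw [ha] at this
      linarith
    obtain ⟨Q, hQc, hQs, hQ⟩ := strip_Lb85 he ha n (by omega)
    have h2 := le_eD he hQc hQs
    have h3 := two_numEdges he Q
    refine le_trans ?_ h2
    apply eD_le
    intro P hc hP
    have h1 : cd d P ≤ 2 * Lb85 P.card :=
      all_gen5 hd ha2 Lb85 (by rw [Lb85_nine71]) Lb85_step71 N (hmain hed) hP (by omega)
        (by omega)
    have h4 := two_numEdges hd P
    rw [hc] at h1
    omega

/-- **Q1 at one diameter with `cosh d ≤ 1.222`**, from the bound of the contact darts for the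
configurations with at least 98 points -/
theorem q1_d85_71 {e d : ℝ} (he : 0 < e) (ha : alpha e = 2 * Real.pi / 7) (hd : 0 < d)
    (hC : Real.cosh d ≤ 611 / 500)
    (hrow : ∀ G : Tg ℍ, G.Geo4 (alpha d) kap (Ust69 d) → DelG G d → HullT G → Sep d G.P →
      98 ≤ G.P.card → (G.D.filter (fun x => G.con x.1 x.2)).card ≤ 2 * Lb85 G.P.card)
    (n : ℕ) : eD d n ≤ eD e n := by
  refine q1_of_main85 he ha hd n (fun _ G hG hD hH hS hn1 _ => ?_) le_rfl
  rcases Nat.lt_or_ge G.P.card 98 with hn2 | hn2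
  · obtain ⟨t, I, A, hN, hiD, hiI, _⟩ := num4 G hG (Ust69_zero d) (Ust69_mono d) (Ust69_sup d)
    refine le_trans ?_ (Nat.mul_le_mul_left 2 (Lb_le_Lb85 _))
    apply fin52 hN
    have hE1 := hN.E1
    exact G_num52 hd hC hn1 (by omega) (by omega) hN.low hN.up hN.G
  · exact hrow G hG hD hH hS hn2

/-- **the combination**: a diameter `d0`, a number `N` of points; below `d0` the bound of the strips
with at most three layers up to `N` points and with four layers for more points; above `d0` the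
bound with at most three layers -/
theorem q1_all85_71 (N : ℕ) (d0 : ℝ)
    (hN : ∀ d : ℝ, 0 < d → d < d0 → d < 89 / 250 → ∀ G : Tg ℍ,
      G.Geo4 (alpha d) kap (Ust69 d) → DelG G d → HullT G → Sep d G.P → 98 ≤ G.P.card →
      G.P.card ≤ N → (G.D.filter (fun x => G.con x.1 x.2)).card ≤ 2 * Lb G.P.card)
    (hT : ∀ d : ℝ, 0 < d → d < d0 → d < 89 / 250 → ∀ G : Tg ℍ,
      G.Geo4 (alpha d) kap (Ust69 d) → DelG G d → HullT G → Sep d G.P → N < G.P.card →
      (G.D.filter (fun x => G.con x.1 x.2)).card ≤ 2 * Lb85 G.P.card)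
    (hU : ∀ d : ℝ, 0 < d → d0 ≤ d → d < 89 / 250 → ∀ G : Tg ℍ,
      G.Geo4 (alpha d) kap (Ust69 d) → DelG G d → HullT G → Sep d G.P → 98 ≤ G.P.card →
      (G.D.filter (fun x => G.con x.1 x.2)).card ≤ 2 * Lb G.P.card)
    {e d : ℝ} (he : 0 < e) (ha : alpha e = 2 * Real.pi / 7) (hd : 0 < d) (n : ℕ) :
    eD d n ≤ eD e n := by
  rcases lt_or_ge d (89 / 250) with hd2 | hd2
  · refine q1_d85_71 he ha hd (cosh_le71 hd hd2) (fun G hG hD hH hS h1 => ?_) n
    rcases lt_or_ge d d0 with h | h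
    · rcases Nat.lt_or_ge N G.P.card with h2 | h2
      · exact hT d hd h hd2 G hG hD hH hS h2
      · exact (hN d hd h hd2 G hG hD hH hS h1 h2).trans (Nat.mul_le_mul_left 2 (Lb_le_Lb85 _))
    · exact (hU d hd h hd2 G hG hD hH hS h1).trans (Nat.mul_le_mul_left 2 (Lb_le_Lb85 _))
  · exact q1_v6_56 he ha hd (Or.inr hd2)

/-! ### the numerics -/

/-- the area of the contact triangle, for small diameters -/
theorem A3_le_sq71 {d : ℝ} (hd : 0 < d) (h : d ≤ 3 / 20) :
    A3 (alpha d) ≤ 434 / 1000 * d ^ 2 := by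
  have hpi := Real.pi_pos
  have hA := A3_pos69 hd
  obtain ⟨t0, t1, _⟩ := tanh_rg69 hd
  have hτ : Real.tanh (d / 2) ≤ 3 / 40 := by linarith
  have hτ2 : Real.tanh (d / 2) ^ 2 ≤ (d / 2) ^ 2 := pow_le_pow_left₀ t0.le t1 2
  have hτ3 : Real.tanh (d / 2) ^ 2 ≤ (3 / 40) ^ 2 := pow_le_pow_left₀ t0.le hτ 2
  have a2 := (A3_tanh69 hd).2 (A3_le177_52 hd (cosh_le69 hd (by linarith)))
  set x := A3 (alpha d) / 3 with hx
  have hx0 : 0 < x := by positivity
  have hx1 : x ≤ 34 / 10000 := by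
    norm_num at hτ3
    rw [hx]
    linarith
  have hal : alpha d = Real.pi / 3 - x := by
    rw [hx]
    unfold A3
    ring
  have hC1 : 1 ≤ Real.cosh (d / 2) := Real.one_le_cosh _
  have hC0 : 0 < Real.cosh (d / 2) := by linarith
  have h1 : Real.cosh d = 2 * Real.cosh (d / 2) ^ 2 - 1 := by
    have := Real.cosh_two_mul (d / 2)
    rw [show 2 * (d / 2) = d by ring] at this
    have h2 := Real.cosh_sq (d / 2)
    linarith
  have hT : Real.tanh (d / 2) ^ 2 = 1 - 1 / Real.cosh (d / 2) ^ 2 := by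
    rw [Real.tanh_eq_sinh_div_cosh, div_pow]
    have := Real.cosh_sq (d / 2)
    field_simp
    linarith
  have hcos := cos_alpha hd
  rw [hal, Real.cos_sub, Real.cos_pi_div_three, Real.sin_pi_div_three, h1] at hcos
  have h2 : (2 * Real.cosh (d / 2) ^ 2 - 1) / (2 * Real.cosh (d / 2) ^ 2 - 1 + 1) =
      1 / 2 + Real.tanh (d / 2) ^ 2 / 2 := by
    rw [hT]
    field_simp
    ring
  rw [h2] at hcos
  have s1 : 1732 / 1000 ≤ √(3 : ℝ) := by
    rw [Real.le_sqrt (by norm_num) (by norm_num)]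
    norm_num
  have c1 := Real.one_sub_sq_div_two_le_cos (x := x)
  have c2 := Real.sin_ge_sub_cube hx0.le
  have c5 : x ^ 2 ≤ 34 / 10000 * x := by nlinarith
  have c4 : x ^ 3 ≤ (34 / 10000) ^ 2 * x := by
    have : x ^ 3 = x * x ^ 2 := by ring
    rw [this]
    nlinarith
  have c3 : 1732 / 1000 / 2 * (x - x ^ 3 / 6) ≤ √3 / 2 * Real.sin x := by
    apply mul_le_mul (by linarith) c2 _ (by positivity)
    norm_num at c4
    linarith
  have c7 : 3 * x = A3 (alpha d) := by rw [hx]; ring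
  norm_num at c4
  have c8 : (d / 2) ^ 2 = d ^ 2 / 4 := by ring
  rw [c8] at hτ2
  linarith

theorem A3_le98_71 {d : ℝ} (hd : 0 < d) (h : d ≤ 3 / 20) : A3 (alpha d) ≤ 98 / 10000 := by
  have h1 := A3_le_sq71 hd h
  have h2 : d ^ 2 ≤ (3 / 20) ^ 2 := pow_le_pow_left₀ hd.le h 2
  norm_num at h2
  linarith

/-- the conditions on the constants of a row
`68 |inN| + c0 + kd δ + ks s ≤ 55 |iI| + kc cor + kb b`, if the contact triangle has area at most
`a1` -/
structure CT71 (a1 c0 kd ks kc kb p q : ℝ) : Prop where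
  a98 : a1 ≤ 98 / 10000
  kc0 : 0 < kc
  kc1 : kc ≤ 1000
  c1 : c0 ≤ 396
  c2 : 396 - c0 ≤ 40 * (42 - kb)
  c3 : 396 - c0 ≤ 10000
  kd1 : 196 / 10000 * kc ≤ 10439 / 10000 * (68 + kd)
  ks1 : 98 / 10000 * kc ≤ 10439 / 10000 * (75 + ks)
  p0 : 0 < p
  p1 : p ≤ 1
  pk : p * kc ≤ 10439 / 10000 * (42 - kb)
  pp : (2316 / 1000 - 2 * p) * a1 ≤ p ^ 2
  q0 : 0 ≤ q
  q1 : q ≤ 6
  qk : 10439 / 10000 * (396 - c0) ≤ q * kc
  pq : (q + 196 / 10000) * (12566 / 1000 - q) ≤
    p * (12566 / 1000 - 2 * q - 392 / 10000) * 40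
  pq1 : q + 196 / 10000 ≤ 40 * p

/-- the polynomial inequality -/
theorem polyT71 {a1 p q a b : ℝ} (ha1 : a1 ≤ 98 / 10000) (p0 : 0 < p) (p1 : p ≤ 1)
    (pp : (2316 / 1000 - 2 * p) * a1 ≤ p ^ 2) (q0 : 0 ≤ q) (q1 : q ≤ 6)
    (pq : (q + 196 / 10000) * (12566 / 1000 - q) ≤
      p * (12566 / 1000 - 2 * q - 392 / 10000) * 40)
    (ha : 0 < a) (ha2 : a ≤ a1) (hb : 40 ≤ b) :
    2316 / 1000 * a * b ^ 2 ≤ (p * b - q + a * (b - 2)) ^ 2 +
      12566 / 1000 * (p * b - q + a * (b - 2)) := by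
  have h1 : 2316 / 1000 * a ≤ (p + a) ^ 2 := by
    have : (2316 / 1000 - 2 * p) * a ≤ (2316 / 1000 - 2 * p) * a1 :=
      mul_le_mul_of_nonneg_left ha2 (by linarith)
    nlinarith [sq_nonneg a]
  have h2 : 2316 / 1000 * a * b ^ 2 ≤ (p + a) ^ 2 * b ^ 2 :=
    mul_le_mul_of_nonneg_right h1 (sq_nonneg b)
  set c := q + 2 * a with hc
  have c1 : c ≤ q + 196 / 10000 := by rw [hc]; linarith
  have c2 : q ≤ c := by rw [hc]; linarith
  have h3 : c * (12566 / 1000 - c) ≤ (q + 196 / 10000) * (12566 / 1000 - q) :=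
    mul_le_mul c1 (by linarith) (by linarith) (by linarith)
  have h4 : p * (12566 / 1000 - 2 * q - 392 / 10000) * 40 ≤
      (p + a) * (12566 / 1000 - 2 * c) * b := by
    apply mul_le_mul _ hb (by norm_num)
    · exact mul_nonneg (by linarith) (by linarith)
    · exact mul_le_mul (by linarith) (by linarith) (by linarith) (by linarith)
  have e : (p * b - q + a * (b - 2)) ^ 2 + 12566 / 1000 * (p * b - q + a * (b - 2)) =
      (p + a) ^ 2 * b ^ 2 + (p + a) * (12566 / 1000 - 2 * c) * b -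
        c * (12566 / 1000 - c) := by
    rw [hc]
    ring
  rw [e]
  linarith

/-- the arithmetic of the last clause -/
theorem arithT71 {a1 c0 kd ks kc kb p q : ℝ} (H : CT71 a1 c0 kd ks kc kb p q)
    {a al A b n s D c : ℝ} (ha : 0 < a) (ha1 : a ≤ a1) (hal : al * 3 = Real.pi - a)
    (hA : 0 ≤ A) (hb : 0 ≤ b) (hn : 861 ≤ n) (hs : 0 ≤ s) (hD : 0 ≤ D)
    (hlow : a * (2 * n - 2 - b - s) ≤ A)
    (hiso : A ^ 2 + 4 * Real.pi * A ≤ 2316 / 1000 * a * b ^ 2)
    (hc : c * al = A - a * (b - 2) + a * (2 * D + s)) :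
    396 - c0 + kc * c ≤ (42 - kb) * b + (165 + ks) * s + (68 + kd) * D := by
  obtain ⟨a1', kc0, kc1, c1, c2, c3, kd1, ks1, p0, p1, pk, pp, q0, q1, qk, pq, pq1⟩ := H
  have hpi := Real.pi_gt_d4
  have ha2 : a ≤ 98 / 10000 := ha1.trans a1'
  have hal1 : 10439 / 10000 ≤ al := by linarith
  have hal0 : 0 < al := by linarith
  have hiso' : A ^ 2 + 12566 / 1000 * A ≤ 2316 / 1000 * a * b ^ 2 := by
    have : 12566 / 1000 * A ≤ 4 * Real.pi * A := mul_le_mul_of_nonneg_right (by linarith) hA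
    linarith
  -- the terms with `s` and `D`
  have u1 : kc * a ≤ 98 / 10000 * kc := by nlinarith
  have u2 : 10439 / 10000 * (75 + ks) ≤ al * (75 + ks) := by
    apply mul_le_mul_of_nonneg_right hal1
    by_contra h
    push Not at h
    nlinarith
  have u3 : 10439 / 10000 * (68 + kd) ≤ al * (68 + kd) := by
    apply mul_le_mul_of_nonneg_right hal1
    by_contra h
    push Not at h
    nlinarith
  have v1 : kc * a * s ≤ al * (75 + ks) * s := mul_le_mul_of_nonneg_right (by linarith) hs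
  have v2 : 2 * (kc * a) * D ≤ al * (68 + kd) * D := mul_le_mul_of_nonneg_right (by linarith) hD
  have kb0 : 0 ≤ 42 - kb := by linarith
  -- the main inequality
  have main : (396 - c0) * al + kc * (A - a * (b - 2)) ≤ al * (42 - kb) * b + 90 * al * s := by
    rcases lt_or_ge b 40 with h | h
    · -- few boundary darts: many defects
      have w1 : b ^ 2 ≤ 40 ^ 2 := pow_le_pow_left₀ hb h.le 2
      have w2 : 12566 / 1000 * A ≤ 2316 / 1000 * a * 40 ^ 2 := by
        have : 2316 / 1000 * a * b ^ 2 ≤ 2316 / 1000 * a * 40 ^ 2 :=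
          mul_le_mul_of_nonneg_left w1 (by positivity)
        nlinarith [sq_nonneg A]
      have w3 : A ≤ a * 295 := by linarith
      have w4 : a * (2 * n - 2 - b - s) ≤ a * 295 := hlow.trans w3
      have w5 : 2 * n - 2 - b - s ≤ 295 := le_of_mul_le_mul_left w4 ha
      have w6 : 1380 ≤ s := by linarith
      have w7 : kc * (A - a * (b - 2)) ≤ 1000 * 4 := by
        have x1 : A - a * (b - 2) ≤ 4 := by nlinarith
        have x2 : kc * (A - a * (b - 2)) ≤ kc * 4 := mul_le_mul_of_nonneg_left x1 kc0.le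
        linarith
      have w8 : (396 - c0) * al ≤ 10000 * al := mul_le_mul_of_nonneg_right c3 hal0.le
      have w9 : 0 ≤ al * (42 - kb) * b := mul_nonneg (mul_nonneg hal0.le kb0) hb
      have w10 : 90 * al * 1380 ≤ 90 * al * s := mul_le_mul_of_nonneg_left w6 (by positivity)
      linarith
    · have w0 : 0 ≤ 90 * al * s := by positivity
      suffices hsuf : (396 - c0) * al + kc * (A - a * (b - 2)) ≤ al * (42 - kb) * b by linarith
      by_contra hcon
      push Not at hcon
      -- `L < A`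
      have x1 : 0 ≤ (42 - kb) * b - (396 - c0) := by nlinarith
      have x2 : 10439 / 10000 * ((42 - kb) * b - (396 - c0)) ≤
          al * ((42 - kb) * b - (396 - c0)) := mul_le_mul_of_nonneg_right hal1 x1
      have x3 : p * kc * b ≤ 10439 / 10000 * (42 - kb) * b :=
        mul_le_mul_of_nonneg_right pk (by linarith)
      have x4 : kc * (p * b - q + a * (b - 2)) < kc * A := by
        have e1 : kc * (p * b - q + a * (b - 2)) = p * kc * b - q * kc + kc * (a * (b - 2)) := by
          ring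
        have e2 : kc * (A - a * (b - 2)) = kc * A - kc * (a * (b - 2)) := by ring
        have e3 : al * ((42 - kb) * b - (396 - c0)) = al * (42 - kb) * b - (396 - c0) * al := by
          ring
        rw [e1]
        rw [e2] at hcon
        rw [e3] at x2
        linarith
      have x5 : p * b - q + a * (b - 2) < A := lt_of_mul_lt_mul_left x4 kc0.le
      have x6 : 0 ≤ p * b - q + a * (b - 2) := by nlinarith
      have x7 := polyT71 a1' p0 p1 pp q0 q1 pq ha ha1 h
      nlinarith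
  -- multiply by `al`
  have fin : (396 - c0 + kc * c) * al ≤
      ((42 - kb) * b + (165 + ks) * s + (68 + kd) * D) * al := by
    have e1 : (396 - c0 + kc * c) * al = (396 - c0) * al + kc * (c * al) := by ring
    rw [e1, hc]
    nlinarith
  exact le_of_mul_le_mul_right fin hal0

/-- **the numeric lemma**, at least 861 points, `d ≤ 3 / 20` -/
theorem numT71 {a1 c0 kd ks kc kb p q : ℝ} (H : CT71 a1 c0 kd ks kc kb p q) {d : ℝ} (hd : 0 < d)
    (hd1 : d ≤ 3 / 20) (ha1 : A3 (alpha d) ≤ a1) {G : Tg ℍ}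
    (hG : G.Geo4 (alpha d) kap (Ust69 d)) (hn : 861 ≤ G.P.card) :
    396 - c0 + kc * cor G (alpha d) ≤ (42 - kb) * G.oJ.card + (165 + ks) * sE G +
      (68 + kd) * (G.oJ.card + (inN G).card - G.P.card) := by
  obtain ⟨t, I, A, hN, hiD, hiI, hA⟩ := num4 G hG (Ust69_zero d) (Ust69_mono d) (Ust69_sup d)
  have hal := alpha_pos hd
  have hA3 := A3_pos69 hd
  have hAr : Ar G = A := by rw [hA]; rfl
  have e2 : (G.iD.card : ℝ) / 3 = t := by
    rw [hiD]
    push_cast
    ring
  have hs := sE_nonneg71 G hG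
  have f4 := card_inN71 G
  have f4' : (G.P.card : ℝ) ≤ G.oJ.card + (inN G).card := by exact_mod_cast f4
  have hn' : (861 : ℝ) ≤ G.P.card := by exact_mod_cast hn
  have hlow := hN.low
  have hA0 : 0 ≤ A := (mul_nonneg hA3.le (Nat.cast_nonneg t)).trans hlow
  set a := A3 (alpha d) with hadef
  set al := alpha d with haldef
  have hal3 : al * 3 = Real.pi - a := by rw [hadef]; unfold A3; ring
  have hs' : sE G = 2 * G.P.card - 2 - G.oJ.card - t := by
    unfold sE
    rw [e2]
  -- the isoperimetric inequality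
  have hiso : A ^ 2 + 4 * Real.pi * A ≤ 2316 / 1000 * a * (G.oJ.card : ℝ) ^ 2 := by
    rcases Nat.lt_or_ge G.oJ.card 3 with hb | hb
    · have h1 : A ≤ 0 := hN.up.trans (Ust69_small (by omega)).le
      have h2 : A = 0 := le_antisymm h1 hA0
      rw [h2]
      have : 0 ≤ 2316 / 1000 * a * (G.oJ.card : ℝ) ^ 2 := by positivity
      linarith
    · have i1 := iso_reg51 d hb
      have i2 := tanh4_51 hd hd1
      have i3 : A ^ 2 ≤ (Ust69 d G.oJ.card) ^ 2 := pow_le_pow_left₀ hA0 hN.up 2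
      have i4 : 4 * Real.pi * A ≤ 4 * Real.pi * Ust69 d G.oJ.card :=
        mul_le_mul_of_nonneg_left hN.up (by positivity)
      have i5 := mul_le_mul_of_nonneg_right i2 (sq_nonneg (G.oJ.card : ℝ))
      rw [← haldef, ← hadef] at i5
      nlinarith
  have hcor : cor G al * al = 2 * a * (inN G).card + A - a * t := by
    have h1 := cor_mul69 G hal
    rw [hAr, e2] at h1
    exact h1
  have hD : 0 ≤ (G.oJ.card : ℝ) + (inN G).card - G.P.card := by linarith
  have hst : (t : ℝ) = 2 * G.P.card - 2 - G.oJ.card - sE G := by linarith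
  exact arithT71 H (a := a) (al := al) (A := A) (b := G.oJ.card) (n := G.P.card)
    (s := sE G) (D := (G.oJ.card : ℝ) + (inN G).card - G.P.card) (c := cor G al) hA3 ha1 hal3
    hA0 (Nat.cast_nonneg _) hn' hs hD (by rw [← hst]; exact hlow) hiso (by
      rw [hcor, hst]
      ring)

/-- **more than 860 points, `d ≤ 3 / 20`**: a row of slope 131 / 55 gives the bound of the strips
with four layers -/
theorem darts_T71 {a1 c0 kd ks kc kb p q : ℝ} (H : CT71 a1 c0 kd ks kc kb p q) {d : ℝ}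
    (hd : 0 < d) (hd1 : d ≤ 3 / 20) (ha1 : A3 (alpha d) ≤ a1) {G : Tg ℍ}
    (hG : G.Geo4 (alpha d) kap (Ust69 d)) (hn : 861 ≤ G.P.card)
    (hR : 68 * ((inN G).card : ℝ) + c0 + kd * (G.oJ.card + (inN G).card - G.P.card) +
      ks * sE G ≤ 55 * G.iI.card + kc * cor G (alpha d) + kb * G.oJ.card) :
    (G.D.filter (fun x => G.con x.1 x.2)).card ≤ 2 * Lb85 G.P.card := by
  have key := numT71 H hd hd1 ha1 hG hn
  obtain ⟨t, I, A, hN, hiD, hiI, hA⟩ := num4 G hG (Ust69_zero d) (Ust69_mono d) (Ust69_sup d)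
  have e2 : (G.iD.card : ℝ) / 3 = t := by
    rw [hiD]
    push_cast
    ring
  have e3 : (G.iI.card : ℝ) = 2 * I := by exact_mod_cast hiI
  have e1 : ((G.D.filter (fun x => G.con x.1 x.2)).card : ℝ) + 2 * I = 3 * t + G.oJ.card := by
    exact_mod_cast hN.edge
  have hs' : sE G = 2 * G.P.card - 2 - G.oJ.card - t := by
    unfold sE
    rw [e2]
  have hst : (t : ℝ) = 2 * G.P.card - 2 - G.oJ.card - sE G := by linarith
  have h198 := layer4_le_Lb85 (n := G.P.card) (by omega)
  rw [e3] at hR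
  have key2 : 55 * ((G.D.filter (fun x => G.con x.1 x.2)).card : ℝ) + 726 ≤
      262 * G.P.card := by
    rw [hst] at e1
    linarith
  have key' : 55 * (G.D.filter (fun x => G.con x.1 x.2)).card + 726 ≤ 262 * G.P.card := by
    exact_mod_cast key2
  obtain ⟨k, hk⟩ := hN.even
  refine le_trans ?_ (Nat.mul_le_mul_left 2 h198)
  have h5 : k ≤ (131 * G.P.card - 363) / 55 := by
    rw [Nat.le_div_iff_mul_le (by norm_num)]
    omega
  omega

/-- the constants of the assembly with `Λ = 55 / 13`, `θ = 14 / 13` and a boundary loss of at most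
`59 / 100` per boundary dart -/
theorem CT_y0_71 : CT71 (98 / 10000) 82 28 41 150 (14 + 13 * (59 / 100)) (1414 / 10000)
    (11 / 5) := by
  constructor <;> norm_num

/-- the constants with `y0 = 0`, boundary loss 15 / 26 -/
theorem CT_y0'_71 : CT71 (98 / 10000) 82 28 41 150 (14 + 15 / 2) (1426 / 10000) (11 / 5) := by
  constructor <;> norm_num

/-- the constants with `y0 = 16 / 13`, boundary loss 12 / 13 -/
theorem CT_y16_71 : CT71 (98 / 10000) 82 28 41 118 26 (1415 / 10000) (28 / 10) := by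
  constructor <;> norm_num

/-- `y0 = 16 / 13` -/
theorem num42a_71 {d : ℝ} (hd : 0 < d) (hd1 : d ≤ 3 / 20) {G : Tg ℍ}
    (hG : G.Geo4 (alpha d) kap (Ust69 d)) (hn : 861 ≤ G.P.card) :
    118 * cor G (alpha d) + 314 + 12 * G.oJ.card ≤ 28 * G.oJ.card +
      96 * (G.oJ.card + (inN G).card - G.P.card) + 206 * sE G := by
  have := numT71 CT_y16_71 hd hd1 (A3_le98_71 hd hd1) hG hn
  linarith

/-- `y0 = 0` -/
theorem num42b_71 {d : ℝ} (hd : 0 < d) (hd1 : d ≤ 3 / 20) {G : Tg ℍ}
    (hG : G.Geo4 (alpha d) kap (Ust69 d)) (hn : 861 ≤ G.P.card) :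
    150 * cor G (alpha d) + 314 + 15 / 2 * G.oJ.card ≤ 28 * G.oJ.card +
      96 * (G.oJ.card + (inN G).card - G.P.card) + 206 * sE G := by
  have := numT71 CT_y0'_71 hd hd1 (A3_le98_71 hd hd1) hG hn
  linarith

end

end Pool.Agent.PEN.E5
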