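import Pool.Agent.E5.Tr42
import Pool.Agent.E5.T7_71

/-! # PENNY, small diameters: the rows of the set `θ = 14 / 13` give the bound -/

set_option autoImplicit false

namespace Pool.Agent.PEN.E5

open Classical UpperHalfPlane
open Pool.Agent.PEN.Cl

noncomputable section

/-- **the bound of the strips with four layers**, from the result row -/
theorem dartsT42 {d : ℝ} (hd : 0 < d) (hd1 : d ≤ 3 / 20) {G : Tg ℍ}
    (hG : G.Geo4 (alpha d) kap (Ust69 d)) (hn : 861 ≤ G.P.card) (hR : RowT42 G (alpha d)) :
    (G.D.filter (fun x => G.con x.1 x.2)).card ≤ 2 * Lb85 G.P.card :=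
  darts_T71 CT_y16_71 hd hd1 (A3_le98_71 hd hd1) hG hn (by
    unfold RowT42 at hR
    linarith)

end

end Pool.Agent.PEN.E5
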