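import Pool.Agent.E5.Hl19
import Pool.Agent.E5.Hm14
import Pool.Agent.E5.Sg19

/-! # PENNY, small diameters: interface of the pentagon with 12 units

For `d ≤ 3 / 20`: the gaps of the pentagon with 12 units (units `2, 3, 2, 2, 3` from the apex) with
all linear facts, and the weakness of its weak side at most `0.45`. -/

set_option autoImplicit false

namespace Pool.Agent.PEN.E5

open Classical UpperHalfPlane
open Pool.Agent.PEN.Cl

noncomputable section

theorem k0_19 : Cb14 (31317 / 10000) (-24998777 / 25000000) (-49997553 / 50000000) := by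
  have h0 : Cb14 (31317 / 80000) (92435203 / 100000000) (18487041 / 20000000) := tay14 (by norm_num) (by norm_num) (by norm_num) (by norm_num)
  have h1 : Cb14 (31317 / 40000) (14177067 / 20000000) (70885343 / 100000000) := dp14 h0 (by norm_num) (by norm_num) (by norm_num) (by norm_num)
  have h2 : Cb14 (31317 / 20000) (247307 / 50000000) (247319 / 50000000) := dp14 h1 (by norm_num) (by norm_num) (by norm_num) (by norm_num)
  have h3 : Cb14 (31317 / 10000) (-24998777 / 25000000) (-49997553 / 50000000) := dp14 h2 (by norm_num) (by norm_num) (by norm_num) (by norm_num)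
  exact h3

theorem k1_19 : Cb14 (10439 / 10000) (50285253 / 100000000) (25142653 / 50000000) := by
  have h0 : Cb14 (10439 / 20000) (86684847 / 100000000) (43342431 / 50000000) := tay14 (by norm_num) (by norm_num) (by norm_num) (by norm_num)
  have h1 : Cb14 (10439 / 10000) (50285253 / 100000000) (25142653 / 50000000) := dp14 h0 (by norm_num) (by norm_num) (by norm_num) (by norm_num)
  exact h1

theorem k2_19 : Cb14 (511511 / 200000) (-83424317 / 100000000) (-834243 / 1000000) := by
  have h0 : Cb14 (511511 / 1600000) (94933151 / 100000000) (2966661 / 3125000) := tay14 (by norm_num) (by norm_num) (by norm_num) (by norm_num)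
  have h1 : Cb14 (511511 / 800000) (80246063 / 100000000) (80246067 / 100000000) := dp14 h0 (by norm_num) (by norm_num) (by norm_num) (by norm_num)
  have h2 : Cb14 (511511 / 400000) (7197153 / 25000000) (14394313 / 50000000) := dp14 h1 (by norm_num) (by norm_num) (by norm_num) (by norm_num)
  have h3 : Cb14 (511511 / 200000) (-83424317 / 100000000) (-834243 / 1000000) := dp14 h2 (by norm_num) (by norm_num) (by norm_num) (by norm_num)
  exact h3

theorem k3_19 : Cb14 (93951 / 200000) (17833583 / 20000000) (44583961 / 50000000) := by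
  have h0 : Cb14 (93951 / 200000) (17833583 / 20000000) (44583961 / 50000000) := tay14 (by norm_num) (by norm_num) (by norm_num) (by norm_num)
  exact h0

theorem k4_19 : Cb14 (10439 / 5000) (-49427867 / 100000000) (-617847 / 1250000) := by
  have h0 : Cb14 (10439 / 20000) (86684847 / 100000000) (43342431 / 50000000) := tay14 (by norm_num) (by norm_num) (by norm_num) (by norm_num)
  have h1 : Cb14 (10439 / 10000) (50285253 / 100000000) (25142653 / 50000000) := dp14 h0 (by norm_num) (by norm_num) (by norm_num) (by norm_num)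
  have h2 : Cb14 (10439 / 5000) (-49427867 / 100000000) (-617847 / 1250000) := dp14 h1 (by norm_num) (by norm_num) (by norm_num) (by norm_num)
  exact h2

theorem k5_19 : Cb14 (323609 / 200000) (-73799 / 1562500) (-2361551 / 50000000) := by
  have h0 : Cb14 (323609 / 800000) (22982371 / 25000000) (91929487 / 100000000) := tay14 (by norm_num) (by norm_num) (by norm_num) (by norm_num)
  have h1 : Cb14 (323609 / 400000) (345103 / 500000) (17255153 / 25000000) := dp14 h0 (by norm_num) (by norm_num) (by norm_num) (by norm_num)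
  have h2 : Cb14 (323609 / 200000) (-73799 / 1562500) (-2361551 / 50000000) := dp14 h1 (by norm_num) (by norm_num) (by norm_num) (by norm_num)
  exact h2

theorem k6_19 : Cb14 (114829 / 200000) (20991417 / 25000000) (41982849 / 50000000) := by
  have h0 : Cb14 (114829 / 200000) (20991417 / 25000000) (41982849 / 50000000) := tay14 (by norm_num) (by norm_num) (by norm_num) (by norm_num)
  exact h0

theorem k7_19 : Cb14 (720291 / 200000) (-89611363 / 100000000) (-89611317 / 100000000) := by
  have h0 : Cb14 (720291 / 1600000) (90036793 / 100000000) (45018399 / 50000000) := tay14 (by norm_num) (by norm_num) (by norm_num) (by norm_num)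
  have h1 : Cb14 (720291 / 800000) (62132481 / 100000000) (24853 / 40000) := dp14 h0 (by norm_num) (by norm_num) (by norm_num) (by norm_num)
  have h2 : Cb14 (720291 / 400000) (-22791097 / 100000000) (-2848881 / 12500000) := dp14 h1 (by norm_num) (by norm_num) (by norm_num) (by norm_num)
  have h3 : Cb14 (720291 / 200000) (-89611363 / 100000000) (-89611317 / 100000000) := dn14 h2 (by norm_num) (by norm_num) (by norm_num) (by norm_num)
  exact h3

theorem k8_19 : Cb14 (532389 / 200000) (-44357883 / 50000000) (-88715749 / 100000000) := by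
  have h0 : Cb14 (532389 / 1600000) (94514989 / 100000000) (9451499 / 10000000) := tay14 (by norm_num) (by norm_num) (by norm_num) (by norm_num)
  have h1 : Cb14 (532389 / 800000) (39330831 / 50000000) (78661667 / 100000000) := dp14 h0 (by norm_num) (by norm_num) (by norm_num) (by norm_num)
  have h2 : Cb14 (532389 / 400000) (23753141 / 100000000) (11876579 / 50000000) := dp14 h1 (by norm_num) (by norm_num) (by norm_num) (by norm_num)
  have h3 : Cb14 (532389 / 200000) (-44357883 / 50000000) (-88715749 / 100000000) := dp14 h2 (by norm_num) (by norm_num) (by norm_num) (by norm_num)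
  exact h3

theorem e45a_19 : (-111 / 31250) ≤ HH19 2 (29 / 20) (31 / 20) (10439 / 10000) ∧
    HH19 2 (29 / 20) (31 / 20) (10439 / 10000) ≤ (-3549 / 1000000) := by
  have u0 := k0_19
  unfold Cb14 at u0
  have u1 := k1_19
  unfold Cb14 at u1
  have u2 := k2_19
  unfold Cb14 at u2
  have u3 := k3_19
  unfold Cb14 at u3
  have u4 := k4_19
  unfold Cb14 at u4
  have u5 := k5_19
  unfold Cb14 at u5
  have u6 := k6_19
  unfold Cb14 at u6
  have u7 := k7_19
  unfold Cb14 at u7
  have u8 := k8_19
  unfold Cb14 at u8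
  have e0 : Real.cos ((2 + 1) * (10439 / 10000) : ℝ) = Real.cos (31317 / 10000) := by rw [show ((2 + 1) * (10439 / 10000) : ℝ) = (31317 / 10000) by norm_num]
  have e1 : Real.cos ((2 - 1) * (10439 / 10000) : ℝ) = Real.cos (10439 / 10000) := by rw [show ((2 - 1) * (10439 / 10000) : ℝ) = (10439 / 10000) by norm_num]
  have e2 : Real.cos (((29 / 20) + 1) * (10439 / 10000) : ℝ) = Real.cos (511511 / 200000) := by rw [show (((29 / 20) + 1) * (10439 / 10000) : ℝ) = (511511 / 200000) by norm_num]
  have e3 : Real.cos (((29 / 20) - 1) * (10439 / 10000) : ℝ) = Real.cos (93951 / 200000) := by rw [show (((29 / 20) - 1) * (10439 / 10000) : ℝ) = (93951 / 200000) by norm_num]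
  have e4 : Real.cos (2 * (10439 / 10000) : ℝ) = Real.cos (10439 / 5000) := by rw [show (2 * (10439 / 10000) : ℝ) = (10439 / 5000) by norm_num]
  have e5 : Real.cos ((2 - (29 / 20) + 1) * (10439 / 10000) : ℝ) = Real.cos (323609 / 200000) := by rw [show ((2 - (29 / 20) + 1) * (10439 / 10000) : ℝ) = (323609 / 200000) by norm_num]
  have e6 : Real.cos ((2 - (29 / 20) - 1) * (10439 / 10000) : ℝ) = Real.cos (93951 / 200000) := by rw [show ((2 - (29 / 20) - 1) * (10439 / 10000) : ℝ) = -(93951 / 200000) by norm_num, Real.cos_neg]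
  have e7 : Real.cos ((2 - (29 / 20)) * (10439 / 10000) : ℝ) = Real.cos (114829 / 200000) := by rw [show ((2 - (29 / 20)) * (10439 / 10000) : ℝ) = (114829 / 200000) by norm_num]
  have e8 : Real.cos ((2 + (29 / 20)) * (10439 / 10000) : ℝ) = Real.cos (720291 / 200000) := by rw [show ((2 + (29 / 20)) * (10439 / 10000) : ℝ) = (720291 / 200000) by norm_num]
  have e9 : Real.cos ((31 / 20) * (10439 / 10000) : ℝ) = Real.cos (323609 / 200000) := by rw [show ((31 / 20) * (10439 / 10000) : ℝ) = (323609 / 200000) by norm_num]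
  have e10 : Real.cos (((31 / 20) + 1) * (10439 / 10000) : ℝ) = Real.cos (532389 / 200000) := by rw [show (((31 / 20) + 1) * (10439 / 10000) : ℝ) = (532389 / 200000) by norm_num]
  have e11 : Real.cos (((31 / 20) - 1) * (10439 / 10000) : ℝ) = Real.cos (114829 / 200000) := by rw [show (((31 / 20) - 1) * (10439 / 10000) : ℝ) = (114829 / 200000) by norm_num]
  unfold HH19
  rw [e0, e1, e2, e3, e4, e5, e6, e7, e8, e9, e10, e11]
  constructor <;> linarith

theorem k9_19 : Cb14 (3927 / 1250) (-1) (-99999999 / 100000000) := by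
  have h0 : Cb14 (3927 / 10000) (23096979 / 25000000) (92387919 / 100000000) := tay14 (by norm_num) (by norm_num) (by norm_num) (by norm_num)
  have h1 : Cb14 (3927 / 5000) (3535527 / 5000000) (8838819 / 12500000) := dp14 h0 (by norm_num) (by norm_num) (by norm_num) (by norm_num)
  have h2 : Cb14 (3927 / 2500) (-391 / 100000000) (-89 / 25000000) := dp14 h1 (by norm_num) (by norm_num) (by norm_num) (by norm_num)
  have h3 : Cb14 (3927 / 1250) (-1) (-99999999 / 100000000) := dn14 h2 (by norm_num) (by norm_num) (by norm_num) (by norm_num)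
  exact h3

theorem k10_19 : Cb14 (1309 / 1250) (24999869 / 50000000) (49999791 / 100000000) := by
  have h0 : Cb14 (1309 / 2500) (17320493 / 20000000) (1082531 / 1250000) := tay14 (by norm_num) (by norm_num) (by norm_num) (by norm_num)
  have h1 : Cb14 (1309 / 1250) (24999869 / 50000000) (49999791 / 100000000) := dp14 h0 (by norm_num) (by norm_num) (by norm_num) (by norm_num)
  exact h1

theorem k11_19 : Cb14 (64141 / 25000) (-83867391 / 100000000) (-8386737 / 10000000) := by
  have h0 : Cb14 (64141 / 200000) (94901341 / 100000000) (47450671 / 50000000) := tay14 (by norm_num) (by norm_num) (by norm_num) (by norm_num)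
  have h1 : Cb14 (64141 / 100000) (8012529 / 10000000) (16025059 / 20000000) := dp14 h0 (by norm_num) (by norm_num) (by norm_num) (by norm_num)
  have h2 : Cb14 (64141 / 50000) (28401241 / 100000000) (14200629 / 50000000) := dp14 h1 (by norm_num) (by norm_num) (by norm_num) (by norm_num)
  have h3 : Cb14 (64141 / 25000) (-83867391 / 100000000) (-8386737 / 10000000) := dp14 h2 (by norm_num) (by norm_num) (by norm_num) (by norm_num)
  exact h3

theorem k12_19 : Cb14 (11781 / 25000) (22275149 / 25000000) (89100603 / 100000000) := by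
  have h0 : Cb14 (11781 / 25000) (22275149 / 25000000) (89100603 / 100000000) := tay14 (by norm_num) (by norm_num) (by norm_num) (by norm_num)
  exact h0

theorem k13_19 : Cb14 (1309 / 625) (-12500131 / 25000000) (-50000417 / 100000000) := by
  have h0 : Cb14 (1309 / 2500) (17320493 / 20000000) (1082531 / 1250000) := tay14 (by norm_num) (by norm_num) (by norm_num) (by norm_num)
  have h1 : Cb14 (1309 / 1250) (24999869 / 50000000) (49999791 / 100000000) := dp14 h0 (by norm_num) (by norm_num) (by norm_num) (by norm_num)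
  have h2 : Cb14 (1309 / 625) (-12500131 / 25000000) (-50000417 / 100000000) := dp14 h1 (by norm_num) (by norm_num) (by norm_num) (by norm_num)
  exact h2

theorem k14_19 : Cb14 (40579 / 25000) (-2617001 / 50000000) (-327123 / 6250000) := by
  have h0 : Cb14 (40579 / 100000) (91879081 / 100000000) (22969771 / 25000000) := tay14 (by norm_num) (by norm_num) (by norm_num) (by norm_num)
  have h1 : Cb14 (40579 / 50000) (6883531 / 10000000) (34417661 / 50000000) := dp14 h0 (by norm_num) (by norm_num) (by norm_num) (by norm_num)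
  have h2 : Cb14 (40579 / 25000) (-2617001 / 50000000) (-327123 / 6250000) := dp14 h1 (by norm_num) (by norm_num) (by norm_num) (by norm_num)
  exact h2

theorem k15_19 : Cb14 (14399 / 25000) (83866953 / 100000000) (10483373 / 12500000) := by
  have h0 : Cb14 (14399 / 25000) (83866953 / 100000000) (10483373 / 12500000) := tay14 (by norm_num) (by norm_num) (by norm_num) (by norm_num)
  exact h0

theorem k16_19 : Cb14 (90321 / 25000) (-89100277 / 100000000) (-89100231 / 100000000) := by
  have h0 : Cb14 (90321 / 200000) (44987389 / 50000000) (89974783 / 100000000) := tay14 (by norm_num) (by norm_num) (by norm_num) (by norm_num)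
  have h1 : Cb14 (90321 / 100000) (61909213 / 100000000) (3869327 / 6250000) := dp14 h0 (by norm_num) (by norm_num) (by norm_num) (by norm_num)
  have h2 : Cb14 (90321 / 50000) (-23344987 / 100000000) (-23344939 / 100000000) := dp14 h1 (by norm_num) (by norm_num) (by norm_num) (by norm_num)
  have h3 : Cb14 (90321 / 25000) (-89100277 / 100000000) (-89100231 / 100000000) := dn14 h2 (by norm_num) (by norm_num) (by norm_num) (by norm_num)
  exact h3

theorem k17_19 : Cb14 (66759 / 25000) (-1782019 / 2000000) (-3564037 / 4000000) := by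
  have h0 : Cb14 (66759 / 200000) (47240289 / 50000000) (4724029 / 5000000) := tay14 (by norm_num) (by norm_num) (by norm_num) (by norm_num)
  have h1 : Cb14 (66759 / 100000) (9816449 / 12500000) (196329 / 250000) := dp14 h0 (by norm_num) (by norm_num) (by norm_num) (by norm_num)
  have h2 : Cb14 (66759 / 50000) (11672109 / 50000000) (5836061 / 25000000) := dp14 h1 (by norm_num) (by norm_num) (by norm_num) (by norm_num)
  have h3 : Cb14 (66759 / 25000) (-1782019 / 2000000) (-3564037 / 4000000) := dp14 h2 (by norm_num) (by norm_num) (by norm_num) (by norm_num)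
  exact h3

theorem e45b_19 : (-2161 / 1000000) ≤ HH19 2 (29 / 20) (31 / 20) (1309 / 1250) ∧
    HH19 2 (29 / 20) (31 / 20) (1309 / 1250) ≤ (-1079 / 500000) := by
  have u0 := k9_19
  unfold Cb14 at u0
  have u1 := k10_19
  unfold Cb14 at u1
  have u2 := k11_19
  unfold Cb14 at u2
  have u3 := k12_19
  unfold Cb14 at u3
  have u4 := k13_19
  unfold Cb14 at u4
  have u5 := k14_19
  unfold Cb14 at u5
  have u6 := k15_19
  unfold Cb14 at u6
  have u7 := k16_19
  unfold Cb14 at u7
  have u8 := k17_19
  unfold Cb14 at u8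
  have e0 : Real.cos ((2 + 1) * (1309 / 1250) : ℝ) = Real.cos (3927 / 1250) := by rw [show ((2 + 1) * (1309 / 1250) : ℝ) = (3927 / 1250) by norm_num]
  have e1 : Real.cos ((2 - 1) * (1309 / 1250) : ℝ) = Real.cos (1309 / 1250) := by rw [show ((2 - 1) * (1309 / 1250) : ℝ) = (1309 / 1250) by norm_num]
  have e2 : Real.cos (((29 / 20) + 1) * (1309 / 1250) : ℝ) = Real.cos (64141 / 25000) := by rw [show (((29 / 20) + 1) * (1309 / 1250) : ℝ) = (64141 / 25000) by norm_num]
  have e3 : Real.cos (((29 / 20) - 1) * (1309 / 1250) : ℝ) = Real.cos (11781 / 25000) := by rw [show (((29 / 20) - 1) * (1309 / 1250) : ℝ) = (11781 / 25000) by norm_num]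
  have e4 : Real.cos (2 * (1309 / 1250) : ℝ) = Real.cos (1309 / 625) := by rw [show (2 * (1309 / 1250) : ℝ) = (1309 / 625) by norm_num]
  have e5 : Real.cos ((2 - (29 / 20) + 1) * (1309 / 1250) : ℝ) = Real.cos (40579 / 25000) := by rw [show ((2 - (29 / 20) + 1) * (1309 / 1250) : ℝ) = (40579 / 25000) by norm_num]
  have e6 : Real.cos ((2 - (29 / 20) - 1) * (1309 / 1250) : ℝ) = Real.cos (11781 / 25000) := by rw [show ((2 - (29 / 20) - 1) * (1309 / 1250) : ℝ) = -(11781 / 25000) by norm_num, Real.cos_neg]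
  have e7 : Real.cos ((2 - (29 / 20)) * (1309 / 1250) : ℝ) = Real.cos (14399 / 25000) := by rw [show ((2 - (29 / 20)) * (1309 / 1250) : ℝ) = (14399 / 25000) by norm_num]
  have e8 : Real.cos ((2 + (29 / 20)) * (1309 / 1250) : ℝ) = Real.cos (90321 / 25000) := by rw [show ((2 + (29 / 20)) * (1309 / 1250) : ℝ) = (90321 / 25000) by norm_num]
  have e9 : Real.cos ((31 / 20) * (1309 / 1250) : ℝ) = Real.cos (40579 / 25000) := by rw [show ((31 / 20) * (1309 / 1250) : ℝ) = (40579 / 25000) by norm_num]
  have e10 : Real.cos (((31 / 20) + 1) * (1309 / 1250) : ℝ) = Real.cos (66759 / 25000) := by rw [show (((31 / 20) + 1) * (1309 / 1250) : ℝ) = (66759 / 25000) by norm_num]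
  have e11 : Real.cos (((31 / 20) - 1) * (1309 / 1250) : ℝ) = Real.cos (14399 / 25000) := by rw [show (((31 / 20) - 1) * (1309 / 1250) : ℝ) = (14399 / 25000) by norm_num]
  unfold HH19
  rw [e0, e1, e2, e3, e4, e5, e6, e7, e8, e9, e10, e11]
  constructor <;> linarith

theorem par19 {a : ℝ} (h0 : 10439 / 10000 ≤ a) (h1 : a ≤ 1309 / 1250) : ∃ s : ℝ, 0 ≤ s ∧ s ≤ 1 ∧
    a = (1 - s) * (10439 / 10000) + s * (1309 / 1250) := by
  refine ⟨(a - 10439 / 10000) / (1309 / 1250 - 10439 / 10000), div_nonneg (by linarith) (by norm_num), ?_, ?_⟩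
  · rw [div_le_one (by norm_num)]
    linarith
  · field_simp
    ring

/-- the number of the weakness `0.45` -/
theorem e45_19 {a : ℝ} (h0 : 10439 / 10000 ≤ a) (h1 : a ≤ Real.pi / 3) :
    HH19 2 (29 / 20) (31 / 20) a < 0 := by
  obtain ⟨s, s0, s1, hs⟩ := par19 h0 (h1.trans pi3_14)
  have h := (HH_int14 2 (29 / 20) (31 / 20) s0 s1 hs).2
  obtain ⟨_, h3⟩ := e45a_19
  obtain ⟨_, h5⟩ := e45b_19
  have hM : Mf14 2 (29 / 20) (31 / 20) * ((1309 / 1250 - 10439 / 10000 : ℝ) ^ 2 / 8) ≤ 1 / 10000 := by
    unfold Mf14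
    norm_num
  nlinarith [mul_le_mul_of_nonneg_left h3 (by linarith : (0:ℝ) ≤ 1 - s),
    mul_le_mul_of_nonneg_left h5 s0]

/-- **the weak side of the pentagon with 12 units**, `d ≤ 3 / 20` -/
theorem weak45_19 {d : ℝ} (hd : 0 < d) (h4a : Real.pi ≤ 69 / 20 * alpha d)
    (N1 : HH19 2 (29 / 20) (31 / 20) (alpha d) < 0) {t1 t2 t3 t4 t5 : ℝ}
    (h : Pg19 d t1 t2 t3 t4 t5) (b1 : t1 ≤ 2 * alpha d) (b2 : t2 ≤ 2 * alpha d)
    (b3 : 2 * alpha d ≤ t3) (b5 : 2 * alpha d ≤ t5)
    (hs : t1 + t2 + t3 + t4 + t5 ≤ 9 * alpha d) : t1 + t2 ≤ 69 / 20 * alpha d := by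
  have hal := alpha_lt hd
  have hal0 := alpha_pos hd
  have hp := Real.pi_pos
  by_contra hc
  push Not at hc
  have k1 : FF66 d (2 * alpha d) (29 / 20 * alpha d) ≤ FF66 d t1 t2 := by
    refine FF_ge_sum19 hd h.b1.1 (by linarith) (by linarith) (by linarith) (by linarith)
      (by linarith) (by linarith) (by linarith) (by linarith) (by linarith) (by linarith)
  have k2 := HH_neg19 hd N1
  have k3 : GG66 d t4 ≤ GG66 d (31 / 20 * alpha d) :=
    GG_mono19 hd (by linarith [h.b4.1]) (by linarith) (by linarith)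
  rw [h.r1] at k1
  linarith

/-- the facts of a pentagon with 12 units, gaps at the corners `a, c, b, b', c'` (units
`2, 3, 2, 2, 3`), for `d ≤ 3 / 20` -/
structure P12g19 (d a c b b' c' : ℝ) : Prop where
  pg : Pg19 d (alpha d * (2 - a)) (alpha d * (3 - c)) (alpha d * (2 - b)) (alpha d * (2 - b'))
    (alpha d * (3 - c'))
  a0 : 0 ≤ a
  c0 : 0 ≤ c
  b0 : 0 ≤ b
  b0' : 0 ≤ b'
  c0' : 0 ≤ c'
  a1 : a ≤ 1
  c1 : c ≤ 1
  b1 : b ≤ 1
  b1' : b' ≤ 1
  c1' : c' ≤ 1
  s0 : 3 ≤ a + c + b + b' + c'
  s1 : a + c + b + b' + c' ≤ 3 + 931 / 100000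
  ac : 1 ≤ a + c
  cb : 1 ≤ c + b
  bc : 1 ≤ b' + c'
  ca : 1 ≤ c' + a
  apx : a ≤ b + b'
  wk : 55 / 100 ≤ b + b'

section conc
variable {G : Tg ℍ} {d : ℝ} {kp : ℍ → ℍ → ℝ}

/-- **the interface** -/
theorem p12g_19 (hd3 : d ≤ 3 / 20) (hG : G.Geo4 (alpha d) kp (Ust69 d)) (hD : DelG G d)
    (hS : Sep d G.P) {C : G.adj.ConnectedComponent} (hC : C ∈ G.iC)
    (hm : (G.cT C).card = 3) (hI : (G.cI C).card = 4) {x : ℍ × ℍ} (hx : x ∈ G.cJ C)
    (hP : Pat39 G d x) :
    P12g19 d (gc G (alpha d) (sg G (sg G (sg G x))))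
      (gc G (alpha d) (sg G (sg G (sg G (sg G x))))) (gc G (alpha d) x)
      (gc G (alpha d) (sg G x)) (gc G (alpha d) (sg G (sg G x))) := by
  have hal := alpha_lt hD.hd
  have hal0 := alpha_pos hD.hd
  have hp := Real.pi_lt_d6
  obtain ⟨hA, ha⟩ := alpha_small19 hD.hd hd3
  obtain ⟨u1, u2, u3, u4, u5⟩ := hP
  have h5 : (G.cJ C).card = 5 := by
    have := m_eq46 G hC
    omega
  have hsum := five_sum19 hG hC h5 hx (fun y => gc G (alpha d) y)
  have husum : uf G (alpha d) C = 12 := by
    have h1 := five_sum19 hG hC h5 hx (fun y => (un G (alpha d) y : ℝ))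
    rw [u1, u2, u3, u4, u5] at h1
    have h2 : (uf G (alpha d) C : ℝ) = 12 := by
      unfold uf
      push_cast
      rw [h1]
      norm_num
    exact_mod_cast h2
  have hex := sum_gc_exc15 G hG hC
  obtain ⟨e0, e1⟩ := exc_small19 hD.hd hd3 hG hC hm hI
  rw [hsum, husum, hm] at hex
  push_cast at hex
  have x1 := sg_cJ19 hG hC hx
  have x2 := sg_cJ19 hG hC x1
  have x3 := sg_cJ19 hG hC x2
  have x4 := sg_cJ19 hG hC x3
  have p0 := pent_units19 hG hD hS hC hm hI hx
  have p1 := pent_units19 hG hD hS hC hm hI x1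
  have p2 := pent_units19 hG hD hS hC hm hI x2
  have p3 := pent_units19 hG hD hS hC hm hI x3
  have p4 := pent_units19 hG hD hS hC hm hI x4
  have hpg := pg_of19 hG hD hS hC hm hI x3
  rw [p0.cyc] at hpg
  have T0 := TH_gc19 G hG x
  have T1 := TH_gc19 G hG (sg G x)
  have T2 := TH_gc19 G hG (sg G (sg G x))
  have T3 := TH_gc19 G hG (sg G (sg G (sg G x)))
  have T4 := TH_gc19 G hG (sg G (sg G (sg G (sg G x))))
  rw [u1] at T0
  rw [u2] at T1
  rw [u3] at T2
  rw [u4] at T3
  rw [u5] at T4
  push_cast at T0 T1 T2 T3 T4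
  rw [T0, T1, T2, T3, T4] at hpg
  have s1 := p1.str (by rw [u2, u3])
  have s2 := p2.str (by rw [u3, u4])
  have s3 := p3.str (by rw [u4, u5])
  have s4 := p4.str (by rw [p0.cyc, u5, u1])
  unfold sp at s1 s2 s3 s4
  rw [p0.cyc] at s4
  have ax := p0.apx u1 u2
  rw [u4] at ax
  push_cast at ax
  have hw := weak45_19 hD.hd (by linarith) (e45_19 ha hal.le) hpg.rot.rot (by nlinarith [p0.g0])
    (by nlinarith [p1.g0]) (by nlinarith [p2.g1]) (by nlinarith [p4.g1]) (by
      have := mul_le_mul_of_nonneg_left (show (3 : ℝ) ≤ gc G (alpha d) x +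
        gc G (alpha d) (sg G x) + gc G (alpha d) (sg G (sg G x)) +
        gc G (alpha d) (sg G (sg G (sg G x))) +
        gc G (alpha d) (sg G (sg G (sg G (sg G x)))) by linarith) hal0.le
      linarith)
  refine ⟨hpg, p3.g0, p4.g0, p0.g0, p1.g0, p2.g0, p3.g1, p4.g1, p0.g1, p1.g1, p2.g1,
    by linarith, by linarith, by linarith, by linarith, by linarith, by linarith, by linarith, ?_⟩
  by_contra hc
  push Not at hc
  have := mul_lt_mul_of_pos_left hc hal0
  linarith

end conc

end

end Pool.Agent.PEN.E5
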