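import Pool.Agent.E5.Lm62
import Pool.Agent.E5.Disc61
import Pool.Agent.E5.Wp61
import Pool.Agent.E5.H4_71

/-! # PENNY, all small diameters: the exceptional white classes (page T4, part (c))

The partner across a middle corner of two weak sides pays; positions of the weak sides of the
classes H16, H15, K18, P11. -/

set_option autoImplicit false

namespace Pool.Agent.PEN.E5

open Classical UpperHalfPlane
open Pool.Agent.PEN.Cl

noncomputable section

section abs
variable {V : Type} (G : Tg V) {al : ℝ} {kp : V → V → ℝ} {U : ℕ → ℝ}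

/-- the units at a point with two big corners -/
theorem uv_two71 (hG : G.Geo4 al kp U) {s : V × V} (hs : s ∈ SD G) (hin : s.2 ∈ inN G)
    (hc : cv G s.2 = 2) {z : V × V} (hz : z ∈ SD G) (hz2 : z.2 = s.2) (hzs : z ≠ s) :
    rn G s + rn G z + un G al (sg G s) + un G al (nx G s) = uv G al s.2 := by
  have hsS : s ∈ Sv G s.2 := (mem_Sv62 G).2 ⟨hs, rfl⟩
  obtain ⟨h0, hB, z', hz', hzs', hS, e1, e2⟩ := c2_89 G hG hin hc hsS
  have hzz : z = z' := by
    have h1 : z ∈ Sv G s.2 := (mem_Sv62 G).2 ⟨hz, hz2⟩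
    rw [hS, Finset.mem_insert, Finset.mem_singleton] at h1
    rcases h1 with h1 | h1
    · exact absurd h1 hzs
    · exact h1
  subst hzz
  have h3 := uv_split62 G hG (al := al) s.2
  rw [hB, hS, Finset.sum_pair hzs'.symm, Finset.sum_pair h0.symm] at h3
  omega

/-- a corner at a middle point of a weak-only black face is not a leaf -/
theorem wo_cv71 (hG : G.Geo4 al kp U) {w : V × V} (h1 : WO62 G al w) (he : ep al < 1 / 2)
    (hin : w.2 ∈ inN G) : cv G w.2 ≠ 1 := by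
  intro hc
  have h2 := Ds_one89 G hG hin h1.ws rfl hc
  have h3 := h1.neg w ((mem_kS42 G).2 ⟨h1.ws, rfl⟩)
  have h4 := uv_ge89 G hG hin
  rw [kv_eq89] at h2
  have h5 : (7 : ℝ) ≤ uv G al w.2 := by exact_mod_cast h4
  linarith

/-- **the payer across a middle corner** -/
theorem mid71 (hG : G.Geo4 al kp U) {w : V × V} (h1 : WO62 G al w) (h2 : WO62 G al (sg G w))
    (hin : w.2 ∈ inN G) (h7 : uv G al w.2 = 7) (hc : cv G w.2 = 2)
    (hm : (1 - gc G al w) + (1 - gc G al (sg G w)) + (1 - gc G al (sg G (sg G w))) < 2 + ep al) :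
    ∃ z ∈ iJ G, z ∈ kS G (ku G (sg G w)) ∧ z ≠ sg G w ∧ z.2 = w.2 ∧ nx G z = sg G w ∧
      sg G z = nx G w ∧ nx G w ∈ kS G (ku G w) ∧ nx G w ≠ w ∧ Cen61 G al (sg G z) ∧
      rn G w + rn G z + un G al (sg G w) + un G al (sg G z) = 7 := by
  obtain ⟨z, hzK, hzw, hz2, e2, e1, hnK, hnw, s1, s2, hg, hmm⟩ := M6a62 G hG h1 h2 hin h7 hc
  have hz : z ∈ SD G := mem_kS89 G hzK
  have hzi : z ∈ iJ G := (sector_corners89 G hG (by rw [hz2]; exact hin) hz rfl).2.2.1
  have hzw' : z ≠ w := by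
    rintro rfl
    obtain ⟨h0, -⟩ := c2_89 G hG hin hc ((mem_Sv62 G).2 ⟨h1.ws, rfl⟩)
    exact h0 e1.symm
  have hep := ep_pos89 G hG
  have hu := uv_two71 (al := al) G hG h1.ws hin hc hz hz2 hzw'
  rw [h7, ← e1] at hu
  exact ⟨z, hzi, hzK, hzw, hz2, e2, e1, hnK, hnw, ⟨z, hzi, rfl, s1, s2, by linarith⟩, hu⟩

/-- the mass of a class with `m` corners in terms of `Γ` -/
theorem mass71 (hG : G.Geo4 al kp U) {C : G.adj.ConnectedComponent} (hC : C ∈ WF G)
    (hd : (G.cI C).card + 2 = 2 * (G.cT C).card) {Γ : ℕ}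
    (hΓ : uf G al C + Γ + 6 = 4 * (G.cJ C).card) :
    ∑ y ∈ G.cJ C, (1 - gc G al y) ≤ (Γ : ℝ) := by
  have hCi := ((mem_WF89 G).1 hC).1
  have h1 := sum_cgap46 G hG hCi (al := al)
  have h2 : ((uf G al C + Γ + 6 : ℕ) : ℝ) = ((4 * (G.cJ C).card : ℕ) : ℝ) := by rw [hΓ]
  have hdm := disc_m46 G hCi hd
  have h3 : ((G.cJ C).card : ℝ) = (G.cT C).card + 2 := by exact_mod_cast hdm
  push_cast at h2
  linarith

/-- the weak side has mass above one -/
theorem wk71 {C : G.adj.ConnectedComponent} {x : V × V} (h : x ∈ Wk G al C) :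
    x ∈ G.cJ C ∧ 1 < (1 - gc G al x) + (1 - gc G al (sg G x)) := by
  obtain ⟨h1, h2⟩ := Finset.mem_filter.1 h
  unfold sp at h2
  exact ⟨h1, by linarith⟩

/-- two disjoint weak sides have mass above two -/
theorem two71 (hG : G.Geo4 al kp U) {C : G.adj.ConnectedComponent} (hC : C ∈ WF G)
    (hle : ∀ y ∈ G.cJ C, gc G al y ≤ 1) {s t : V × V} (hs : s ∈ Wk G al C) (ht : t ∈ Wk G al C)
    (c1 : s ≠ t) (c2 : sg G s ≠ t) (c3 : sg G t ≠ s) :
    2 < ∑ y ∈ G.cJ C, (1 - gc G al y) := by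
  have hCi := ((mem_WF89 G).1 hC).1
  obtain ⟨hs', gs⟩ := wk71 G hs
  obtain ⟨ht', gt⟩ := wk71 G ht
  have hsub : ({s, t} : Finset (V × V)) ⊆ G.cJ C := by
    intro r hr
    rcases Finset.mem_insert.1 hr with rfl | hr
    · exact hs'
    · rw [Finset.mem_singleton.1 hr]
      exact ht'
  have hd : ∀ r ∈ ({s, t} : Finset (V × V)), sg G r ∉ ({s, t} : Finset (V × V)) := by
    intro r hr hr2
    rcases Finset.mem_insert.1 hr with rfl | hr
    · rcases Finset.mem_insert.1 hr2 with h | h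
      · exact sg_ne46 G (cJ_iJ51 G hCi hs').1 h
      · exact c2 (Finset.mem_singleton.1 h)
    · rw [Finset.mem_singleton.1 hr] at hr2
      rcases Finset.mem_insert.1 hr2 with h | h
      · exact c3 h
      · exact sg_ne46 G (cJ_iJ51 G hCi ht').1 (Finset.mem_singleton.1 h)
  have h1 := disj_sum61 G hG hCi hsub hd (f := fun y => 1 - gc G al y) fun y hy => by
    linarith [hle y hy]
  rw [Finset.sum_pair c1] at h1
  linarith

end abs

section conc
variable {G : Tg ℍ} {d : ℝ} {kp : ℍ → ℍ → ℝ} {U : ℕ → ℝ}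

/-- **H16 with two weak sides**: they are adjacent and the middle corner has at most three units -/
theorem h16w71 (hG : G.Geo4 (alpha d) kp U) (hD : DelG G d) (hS : Sep d G.P)
    {C : G.adj.ConnectedComponent} (hC : C ∈ WF G) (hd6 : (G.cI C).card + 2 = 2 * (G.cT C).card)
    (h6 : (G.cJ C).card = 6) (hu : uf G (alpha d) C = 16) (hw : (Wk G (alpha d) C).card = 2) :
    ∃ x ∈ G.cJ C, Wk G (alpha d) C = {x, sg G x} ∧ un G (alpha d) (sg G x) ≤ 3 ∧
      (1 - gc G (alpha d) x) + (1 - gc G (alpha d) (sg G x)) +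
        (1 - gc G (alpha d) (sg G (sg G x))) ≤ 2 := by
  have hCi := ((mem_WF89 G).1 hC).1
  have hT : ∀ x ∈ BC G, alpha d ≤ TH G x := fun x hx =>
    TH_ge19 hG hD hS ((mem_BC89 G).1 hx).1
  have hle : ∀ y ∈ G.cJ C, gc G (alpha d) y ≤ 1 := fun y hy =>
    gc_le_one46 G hG (BC_of_WF46 G hC hy) (hT y (BC_of_WF46 G hC hy))
  have hm := mass71 G hG hC hd6 (Γ := 2) (by omega)
  push_cast at hm
  have main : ∀ x ∈ Wk G (alpha d) C, sg G x ∈ Wk G (alpha d) C → Wk G (alpha d) C = {x, sg G x} →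
      ∃ x ∈ G.cJ C, Wk G (alpha d) C = {x, sg G x} ∧ un G (alpha d) (sg G x) ≤ 3 ∧
      (1 - gc G (alpha d) x) + (1 - gc G (alpha d) (sg G x)) +
        (1 - gc G (alpha d) (sg G (sg G x))) ≤ 2 := by
    intro x h1 h2 h3
    obtain ⟨hx, g1⟩ := wk71 G h1
    obtain ⟨hx1, g2⟩ := wk71 G h2
    refine ⟨x, hx, h3, ?_, ?_⟩
    · have h4 := hex_un19 hG hD hS hC h6 hx1
      by_contra hc
      have h5 := hex4_sp71 hG hD hS hC hd6 h6 hx (by omega)
      unfold sp at h5
      linarith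
    · rw [hex_sumR61 hG hC hd6 h6 hx (fun y => 1 - gc G (alpha d) y)] at hm
      have x2 := sg_cJ90 G hG hCi hx1
      have x3 := sg_cJ90 G hG hCi x2
      have x4 := sg_cJ90 G hG hCi x3
      have x5 := sg_cJ90 G hG hCi x4
      linarith [hle _ x3, hle _ x4, hle _ x5]
  obtain ⟨s, t, hst, hW⟩ := Finset.card_eq_two.1 hw
  have hs : s ∈ Wk G (alpha d) C := by rw [hW]; simp
  have ht : t ∈ Wk G (alpha d) C := by rw [hW]; simp
  by_cases c2 : sg G s = t
  · exact main s hs (by rw [c2]; exact ht) (by rw [c2]; exact hW)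
  by_cases c3 : sg G t = s
  · exact main t ht (by rw [c3]; exact hs) (by rw [c3, hW, Finset.pair_comm])
  exact absurd (two71 G hG hC hle hs ht hst c2 c3) (by linarith)

/-- **H15 with four weak sides**: a path of four, or two pairs -/
theorem h15w71 (hG : G.Geo4 (alpha d) kp U) (hD : DelG G d) (hS : Sep d G.P)
    {C : G.adj.ConnectedComponent} (hC : C ∈ WF G) (hd6 : (G.cI C).card + 2 = 2 * (G.cT C).card)
    (h6 : (G.cJ C).card = 6) (hu : uf G (alpha d) C = 15) (hw : (Wk G (alpha d) C).card = 4) :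
    ∃ x ∈ G.cJ C, ∃ h : ℕ → ℝ, (∀ i, h i = 1 - gc G (alpha d) ((sg G)^[i] x)) ∧
      sp G (alpha d) x < 0 ∧ sp G (alpha d) (sg G x) < 0 ∧
      0 ≤ sp G (alpha d) (sg G (sg G (sg G (sg G (sg G x))))) ∧
      un G (alpha d) (sg G x) ≤ 3 ∧ un G (alpha d) (sg G (sg G (sg G (sg G x)))) ≤ 4 ∧
      ((sp G (alpha d) (sg G (sg G x)) < 0 ∧ sp G (alpha d) (sg G (sg G (sg G x))) < 0 ∧
        0 ≤ sp G (alpha d) (sg G (sg G (sg G (sg G x)))) ∧
        un G (alpha d) (sg G (sg G x)) ≤ 3 ∧ un G (alpha d) (sg G (sg G (sg G x))) ≤ 3 ∧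
        h 0 + h 1 + h 2 < 2 ∧ h 2 + h 3 + h 4 < 2 ∧ (1 < h 4 + h 5 + h 0 → h 1 + h 2 + h 3 < 2)) ∨
       (0 ≤ sp G (alpha d) (sg G (sg G x)) ∧ sp G (alpha d) (sg G (sg G (sg G x))) < 0 ∧
        sp G (alpha d) (sg G (sg G (sg G (sg G x)))) < 0 ∧
        un G (alpha d) (sg G (sg G (sg G (sg G x)))) ≤ 3 ∧
        h 0 + h 1 + h 2 + h 3 + h 4 + h 5 ≤ 3)) := by
  have hCi := ((mem_WF89 G).1 hC).1
  have hT : ∀ x ∈ BC G, alpha d ≤ TH G x := fun x hx =>
    TH_ge19 hG hD hS ((mem_BC89 G).1 hx).1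
  have hle : ∀ y ∈ G.cJ C, gc G (alpha d) y ≤ 1 := fun y hy =>
    gc_le_one46 G hG (BC_of_WF46 G hC hy) (hT y (BC_of_WF46 G hC hy))
  have hm := mass71 G hG hC hd6 (Γ := 3) (by omega)
  push_cast at hm
  -- a strong side
  obtain ⟨a, ha, ha0⟩ : ∃ a ∈ G.cJ C, 0 ≤ sp G (alpha d) a := by
    by_contra hno
    push Not at hno
    have : Wk G (alpha d) C = G.cJ C := Finset.filter_true_of_mem hno
    rw [this] at hw
    omega
  obtain ⟨hset, hcyc⟩ := six90 G hG hC hd6 h6 ha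
  obtain ⟨n, hn⟩ : ∃ n : ℍ × ℍ → ℕ, n = fun y => if sp G (alpha d) y < 0 then 1 else 0 := ⟨_, rfl⟩
  have n1 : ∀ y, n y = 1 ∨ n y = 0 := by
    intro y
    rw [hn]
    dsimp only
    split_ifs
    · exact Or.inl rfl
    · exact Or.inr rfl
  have nw : ∀ {y}, n y = 1 → sp G (alpha d) y < 0 := by
    intro y h
    rw [hn] at h
    dsimp only at h
    by_contra hc
    rw [if_neg hc] at h
    omega
  have ns : ∀ {y}, n y = 0 → 0 ≤ sp G (alpha d) y := by
    intro y h
    rw [hn] at h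
    dsimp only at h
    by_contra hc
    rw [if_pos (not_le.1 hc)] at h
    omega
  have na : n a = 0 := by
    rw [hn]
    exact if_neg (not_lt.2 ha0)
  have hcount : ∑ y ∈ G.cJ C, n y = 4 := by
    rw [hn]
    have e1 : (Wk G (alpha d) C).card = ∑ y ∈ G.cJ C, if sp G (alpha d) y < 0 then 1 else 0 := by
      unfold Wk
      rw [Finset.card_filter]
    rw [← e1, hw]
  rw [hex_sum19 hG hC hd6 h6 ha n] at hcount
  have a1 := sg_cJ90 G hG hCi ha
  have a2 := sg_cJ90 G hG hCi a1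
  have a3 := sg_cJ90 G hG hCi a2
  have a4 := sg_cJ90 G hG hCi a3
  have a5 := sg_cJ90 G hG hCi a4
  have m1 := hm
  rw [hex_sumR61 hG hC hd6 h6 ha (fun y => 1 - gc G (alpha d) y)] at m1
  have u3 : ∀ {y : ℍ × ℍ}, y ∈ G.cJ C → sp G (alpha d) y < 0 → sp G (alpha d) (sg G y) < 0 →
      un G (alpha d) (sg G y) ≤ 3 := by
    intro y hy h1 h2
    have h4 := hex_un19 hG hD hS hC h6 (sg_cJ90 G hG hCi hy)
    by_contra hc
    have h5 := hex4_sp71 hG hD hS hC hd6 h6 hy (by omega)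
    linarith
  have wsum : ∀ {y : ℍ × ℍ}, sp G (alpha d) y < 0 →
      1 < (1 - gc G (alpha d) y) + (1 - gc G (alpha d) (sg G y)) := by
    intro y h
    unfold sp at h
    linarith
  -- a path of four beginning at `x`
  have path : ∀ x ∈ G.cJ C, sp G (alpha d) x < 0 → sp G (alpha d) (sg G x) < 0 →
      sp G (alpha d) (sg G (sg G x)) < 0 → sp G (alpha d) (sg G (sg G (sg G x))) < 0 →
      0 ≤ sp G (alpha d) (sg G (sg G (sg G (sg G x)))) →
      0 ≤ sp G (alpha d) (sg G (sg G (sg G (sg G (sg G x))))) →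
      ∃ x ∈ G.cJ C, ∃ h : ℕ → ℝ, (∀ i, h i = 1 - gc G (alpha d) ((sg G)^[i] x)) ∧
      sp G (alpha d) x < 0 ∧ sp G (alpha d) (sg G x) < 0 ∧
      0 ≤ sp G (alpha d) (sg G (sg G (sg G (sg G (sg G x))))) ∧
      un G (alpha d) (sg G x) ≤ 3 ∧ un G (alpha d) (sg G (sg G (sg G (sg G x)))) ≤ 4 ∧
      ((sp G (alpha d) (sg G (sg G x)) < 0 ∧ sp G (alpha d) (sg G (sg G (sg G x))) < 0 ∧
        0 ≤ sp G (alpha d) (sg G (sg G (sg G (sg G x)))) ∧
        un G (alpha d) (sg G (sg G x)) ≤ 3 ∧ un G (alpha d) (sg G (sg G (sg G x))) ≤ 3 ∧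
        h 0 + h 1 + h 2 < 2 ∧ h 2 + h 3 + h 4 < 2 ∧ (1 < h 4 + h 5 + h 0 → h 1 + h 2 + h 3 < 2)) ∨
       (0 ≤ sp G (alpha d) (sg G (sg G x)) ∧ sp G (alpha d) (sg G (sg G (sg G x))) < 0 ∧
        sp G (alpha d) (sg G (sg G (sg G (sg G x)))) < 0 ∧
        un G (alpha d) (sg G (sg G (sg G (sg G x)))) ≤ 3 ∧
        h 0 + h 1 + h 2 + h 3 + h 4 + h 5 ≤ 3)) := by
    intro x hx s0 s1 s2 s3 s4 s5
    have x1 := sg_cJ90 G hG hCi hx
    have x2 := sg_cJ90 G hG hCi x1
    have x3 := sg_cJ90 G hG hCi x2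
    have x4 := sg_cJ90 G hG hCi x3
    have x5 := sg_cJ90 G hG hCi x4
    have m2 := hm
    rw [hex_sumR61 hG hC hd6 h6 hx (fun y => 1 - gc G (alpha d) y)] at m2
    refine ⟨x, hx, fun i => 1 - gc G (alpha d) ((sg G)^[i] x), fun i => rfl, s0, s1, s5,
      u3 hx s0 s1, (hex_un19 hG hD hS hC h6 x4).2, Or.inl ⟨s2, s3, s4, u3 x1 s1 s2, u3 x2 s2 s3, ?_⟩⟩
    have w0 := wsum s0
    have w1 := wsum s1
    have w2 := wsum s2
    have w3 := wsum s3
    have l5 := hle _ x5
    simp only [Function.iterate_succ_apply', Function.iterate_zero, id_eq]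
    refine ⟨by linarith, by linarith, fun h => by linarith⟩
  rcases n1 (sg G a) with e1 | e1 <;> rcases n1 (sg G (sg G a)) with e2 | e2 <;>
    rcases n1 (sg G (sg G (sg G a))) with e3 | e3 <;>
    rcases n1 (sg G (sg G (sg G (sg G a)))) with e4 | e4 <;>
    rcases n1 (sg G (sg G (sg G (sg G (sg G a))))) with e5 | e5 <;>
    rw [na, e1, e2, e3, e4, e5] at hcount <;> norm_num at hcount
  · exact path _ a1 (nw e1) (nw e2) (nw e3) (nw e4) (ns e5) (by rw [hcyc]; exact ha0)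
  · exfalso
    have w1 := wsum (nw e1)
    have w3 := wsum (nw e3)
    have w5 := wsum (nw e5)
    rw [hcyc] at w5
    linarith
  · -- two pairs
    have m2 := hm
    rw [hex_sumR61 hG hC hd6 h6 a1 (fun y => 1 - gc G (alpha d) y)] at m2
    refine ⟨sg G a, a1, fun i => 1 - gc G (alpha d) ((sg G)^[i] (sg G a)), fun i => rfl,
      nw e1, nw e2, by rw [hcyc]; exact ha0, u3 a1 (nw e1) (nw e2), (hex_un19 hG hD hS hC h6 a5).2,
      Or.inr ⟨ns e3, nw e4, nw e5, u3 a4 (nw e4) (nw e5), ?_⟩⟩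
    simp only [Function.iterate_succ_apply', Function.iterate_zero, id_eq]
    linarith
  · exfalso
    have w1 := wsum (nw e1)
    have w3 := wsum (nw e3)
    have w5 := wsum (nw e5)
    rw [hcyc] at w5
    linarith
  · exact path _ a2 (nw e2) (nw e3) (nw e4) (nw e5) (by rw [hcyc]; exact ha0)
      (by rw [hcyc]; exact ns e1)

/-- **K18 with all sides weak**: a corner of at most four units whose triple is below two -/
theorem k18w71 (hG : G.Geo4 (alpha d) kp U) (hD : DelG G d) (hS : Sep d G.P)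
    {C : G.adj.ConnectedComponent} (hC : C ∈ WF G) (hd6 : (G.cI C).card + 2 = 2 * (G.cT C).card)
    (h7 : (G.cJ C).card = 7) (hu : uf G (alpha d) C = 18) (hw : (Wk G (alpha d) C).card = 7) :
    ∃ x ∈ G.cJ C, un G (alpha d) (sg G x) ≤ 4 ∧
      (1 - gc G (alpha d) x) + (1 - gc G (alpha d) (sg G x)) +
        (1 - gc G (alpha d) (sg G (sg G x))) < 2 := by
  have hCi := ((mem_WF89 G).1 hC).1
  have hT : ∀ x ∈ BC G, alpha d ≤ TH G x := fun x hx =>
    TH_ge19 hG hD hS ((mem_BC89 G).1 hx).1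
  have hle : ∀ y ∈ G.cJ C, gc G (alpha d) y ≤ 1 := fun y hy =>
    gc_le_one46 G hG (BC_of_WF46 G hC hy) (hT y (BC_of_WF46 G hC hy))
  have hm := mass71 G hG hC hd6 (Γ := 4) (by omega)
  push_cast at hm
  have hWk : Wk G (alpha d) C = G.cJ C :=
    Finset.eq_of_subset_of_card_le (Finset.filter_subset _ _) (by omega)
  by_contra hno
  push Not at hno
  obtain ⟨x0, hx0⟩ : (G.cJ C).Nonempty := Finset.card_pos.1 (by omega)
  obtain ⟨q1, q2, q3, q4⟩ := num61 G hG hCi hd6 hx0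
  -- the sums of a shifted function
  have inj := sg_injC90 G hG hCi
  have shift : ∀ f : ℍ × ℍ → ℝ, ∑ y ∈ G.cJ C, f (sg G y) = ∑ y ∈ G.cJ C, f y := by
    intro f
    have himg : (G.cJ C).image (sg G) = G.cJ C := by
      apply Finset.eq_of_subset_of_card_le
      · intro y hy
        obtain ⟨z, hz, rfl⟩ := Finset.mem_image.1 hy
        exact sg_cJ90 G hG hCi hz
      · rw [Finset.card_image_of_injOn]
        intro y hy z hz h
        exact inj y (Finset.mem_coe.1 hy) z (Finset.mem_coe.1 hz) h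
    conv_rhs => rw [← himg]
    rw [Finset.sum_image]
    intro y hy z hz h
    exact inj y (Finset.mem_coe.1 hy) z (Finset.mem_coe.1 hz) h
  have t1 := shift (fun y => 1 - gc G (alpha d) y)
  have t2 := shift (fun y => 1 - gc G (alpha d) (sg G y))
  have tsum : ∑ y ∈ G.cJ C, ((1 - gc G (alpha d) y) + (1 - gc G (alpha d) (sg G y)) +
      (1 - gc G (alpha d) (sg G (sg G y)))) ≤ 12 := by
    rw [Finset.sum_add_distrib, Finset.sum_add_distrib]
    linarith
  -- at most one corner with five units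
  obtain ⟨P, hP⟩ : ∃ P : ℍ × ℍ → Prop, P = fun y => 5 ≤ un G (alpha d) (sg G y) := ⟨_, rfl⟩
  have hcP := Finset.card_filter_add_card_filter_not (s := G.cJ C) (fun y => P y)
  have hPn : ∀ {y}, ¬ P y → un G (alpha d) (sg G y) ≤ 4 := by
    intro y h
    rw [hP] at h
    dsimp only at h
    omega
  have hPy : ∀ {y}, P y → 5 ≤ un G (alpha d) (sg G y) := by
    intro y h
    rw [hP] at h
    exact h
  have hfew : ((G.cJ C).filter (fun y => P y)).card ≤ 1 := by
    by_contra hc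
    push Not at hc
    have h1 : ∑ y ∈ G.cJ C, un G (alpha d) (sg G y) = 18 := by
      have himg : (G.cJ C).image (sg G) = G.cJ C := by
        apply Finset.eq_of_subset_of_card_le
        · intro y hy
          obtain ⟨z, hz, rfl⟩ := Finset.mem_image.1 hy
          exact sg_cJ90 G hG hCi hz
        · rw [Finset.card_image_of_injOn]
          intro y hy z hz h
          exact inj y (Finset.mem_coe.1 hy) z (Finset.mem_coe.1 hz) h
      have h2 : ∑ y ∈ G.cJ C, un G (alpha d) y = 18 := hu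
      rw [← himg, Finset.sum_image] at h2
      · exact h2
      · intro y hy z hz h
        exact inj y (Finset.mem_coe.1 hy) z (Finset.mem_coe.1 hz) h
    have h3 : ∑ y ∈ G.cJ C, (if P y then 5 else 2) ≤ 18 := by
      rw [← h1]
      refine Finset.sum_le_sum fun y hy => ?_
      have := un_ge_WF46 (al := alpha d) G hC (sg_cJ90 G hG hCi hy)
      split_ifs with h
      · exact hPy h
      · exact this
    rw [Finset.sum_ite, Finset.sum_const, Finset.sum_const, smul_eq_mul, smul_eq_mul] at h3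
    have h4 : 2 ≤ ((G.cJ C).filter (fun y => P y)).card := hc
    rw [h7] at hcP
    omega
  have h13 : (13 : ℝ) ≤ ∑ y ∈ G.cJ C, (if P y then 1 else 2) := by
    rw [Finset.sum_ite, Finset.sum_const, Finset.sum_const, nsmul_eq_mul, nsmul_eq_mul]
    rw [h7] at hcP
    have h5 : (((G.cJ C).filter (fun y => P y)).card : ℝ) ≤ 1 := by exact_mod_cast hfew
    have h6 : (((G.cJ C).filter (fun y => P y)).card : ℝ) + ((G.cJ C).filter (fun y => ¬ P y)).card = 7 := by
      exact_mod_cast hcP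
    linarith
  have hlow : ∑ y ∈ G.cJ C, (if P y then (1 : ℝ) else 2) ≤
      ∑ y ∈ G.cJ C, ((1 - gc G (alpha d) y) + (1 - gc G (alpha d) (sg G y)) +
      (1 - gc G (alpha d) (sg G (sg G y)))) := by
    refine Finset.sum_le_sum fun y hy => ?_
    split_ifs with h
    · have h1 : y ∈ Wk G (alpha d) C := by rw [hWk]; exact hy
      have h2 := (wk71 G h1).2
      have h3 := hle _ (sg_cJ90 G hG hCi (sg_cJ90 G hG hCi hy))
      linarith
    · exact hno y hy (hPn h)
  linarith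

end conc

end

end Pool.Agent.PEN.E5
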