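import Pool.Agent.E5.Tc71
import Pool.Agent.E5.P11_69

/-! # PENNY, all small diameters: the pentagon class with eleven units, page T4 (c5)

Three consecutive weak sides with weak-only black faces, the middle one a digon, the two middle
points with two big corners: the face across has four consecutive corners of mass above one. -/

set_option autoImplicit false

namespace Pool.Agent.PEN.E5

open Classical UpperHalfPlane
open Pool.Agent.PEN.Cl

noncomputable section

section abs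
variable {V : Type} (G : Tg V) {al : ℝ} {kp : V → V → ℝ} {U : ℕ → ℝ}

/-- **the face across three weak sides** -/
theorem quad71 (hG : G.Geo4 al kp U) {w : V × V} (h1 : WO62 G al w) (h2 : WO62 G al (sg G w))
    (h3 : WO62 G al (sg G (sg G w))) (i1 : w.2 ∈ inN G) (i2 : (sg G w).2 ∈ inN G)
    (u1 : uv G al w.2 = 7) (u2 : uv G al (sg G w).2 = 7) (c1 : cv G w.2 = 2)
    (c2 : cv G (sg G w).2 = 2) (hdi : nx G (nx G (sg G w)) = sg G w) :
    ∃ y ∈ iJ G, y.2 = (sg G w).2 ∧ nx G y = sg G (sg G w) ∧ sg G y = nx G (sg G w) ∧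
      sg G (sg G y) = nx G w ∧ 0 ≤ sp G al y ∧ 0 ≤ sp G al (sg G y) ∧
      0 ≤ sp G al (sg G (sg G y)) ∧
      rn G (sg G w) + rn G y + un G al (sg G (sg G w)) + un G al (sg G y) = 7 ∧
      rn G w + rn G (nx G (sg G w)) + un G al (sg G w) + un G al (sg G (sg G y)) = 7 ∧
      gc G al w + gc G al (sg G w) + gc G al (sg G (sg G w)) + gc G al (sg G (sg G (sg G w))) +
        2 * ep al ≤
      (1 - gc G al y) + (1 - gc G al (sg G y)) + (1 - gc G al (sg G (sg G y))) +
        (1 - gc G al (sg G (sg G (sg G y)))) := by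
  have hep := ep_pos89 G hG
  obtain ⟨z, hz, hz2, hzs, e1, e2, k1, k2, hn, hg, -⟩ := partner62 G hG h1.ws i1 u1 c1
  obtain ⟨y, hy, hy2, hys, f1, f2, l1, l2, hm, hg', -⟩ := partner62 G hG h2.ws i2 u2 c2
  have hns : nx G (sg G w) ∈ SD G := hm
  have hzy : z = nx G (sg G w) :=
    nx_inj42 G hG hz hns (by rw [e2, hdi])
  have hsy : sg G y = z := by rw [f1, hzy]
  have hssy : sg G (sg G y) = nx G w := by rw [hsy, e1]
  have hyK : y ∈ kS G (ku G (sg G (sg G w))) := (mem_kS42 G).2 ⟨hy, l1⟩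
  have hyw : y ≠ sg G (sg G w) := fun he => nx_self62 G hy (by rw [f2]; exact he.symm)
  have hzK : z ∈ kS G (ku G (sg G w)) := (mem_kS42 G).2 ⟨hz, k1⟩
  have hzw : z ≠ sg G w := fun he => nx_self62 G hz (by rw [e2]; exact he.symm)
  have hnK : nx G w ∈ kS G (ku G w) := (mem_kS42 G).2 ⟨hn, k2⟩
  have hnw := nx_self62 G h1.ws
  have q1 := wo_cap62 G hG h1 (B := {nx G w}) (Finset.singleton_subset_iff.2 hnK)
    (by rw [Finset.mem_singleton]; exact hnw.symm) ((mem_kS42 G).2 ⟨h1.ws, rfl⟩)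
  have q2 := wo_cap62 G hG h3 (B := {y}) (Finset.singleton_subset_iff.2 hyK)
    (by rw [Finset.mem_singleton]; exact hyw.symm) hyK
  rw [Finset.sum_singleton] at q1 q2
  have d1 := Ds_seven62 G hG i1 u1 (by rw [c1]; norm_num) h1.ws rfl
  have d2 := Ds_seven62 G hG i2 u2 (by rw [c2]; norm_num) hy hy2
  have hyi : y ∈ iJ G := (sector_corners89 G hG (by rw [hy2]; exact i2) hy rfl).2.2.1
  have a1 := uv_two71 (al := al) G hG h2.ws i2 c2 hy hy2 hys
  have a2 := uv_two71 (al := al) G hG h1.ws i1 c1 hz hz2 hzs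
  rw [u2, ← f1] at a1
  rw [u1, ← hssy, hzy] at a2
  refine ⟨y, hyi, hy2, f2, f1, hssy, h3.strong y hyK hyw, by rw [hsy]; exact h2.strong z hzK hzw,
    by rw [hssy]; exact h1.strong _ hnK hnw, a1, a2, ?_⟩
  rw [← hssy] at q1
  unfold sp at q1 q2
  linarith

/-- four consecutive corners `y`, `sg y`, `sg² y`, `sg³ y` with strong sides between and mass above
one; the claims are at the two middle ones -/
structure Qu71 (al : ℝ) (y : V × V) : Prop where
  mem : y ∈ iJ G
  s0 : 0 ≤ sp G al y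
  s1 : 0 ≤ sp G al (sg G y)
  s2 : 0 ≤ sp G al (sg G (sg G y))
  mass : gc G al y + gc G al (sg G y) + gc G al (sg G (sg G y)) +
    gc G al (sg G (sg G (sg G y))) < 3

end abs

/-- **P11, all three sides weak**: the face across the two middle corners -/
theorem p11c71 {G : Tg ℍ} {d : ℝ} {kp : ℍ → ℍ → ℝ} {U : ℕ → ℝ}
    (hG : G.Geo4 (alpha d) kp U) (hD : DelG G d) (hS : Sep d G.P)
    {C : G.adj.ConnectedComponent} (hC : C ∈ WF G)
    (hm : (G.cT C).card = 3) (hI : (G.cI C).card = 4) (hU : uf G (alpha d) C = 11)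
    (hw : (Wk G (alpha d) C).card = 3) :
    ∃ w ∈ G.cJ C, Wk G (alpha d) C = {w, sg G w, sg G (sg G w)} ∧
      G.cJ C = {w, sg G w, sg G (sg G w), sg G (sg G (sg G w)),
        sg G (sg G (sg G (sg G w)))} ∧ sg G (sg G (sg G (sg G (sg G w)))) = w ∧
      un G (alpha d) w = 2 ∧ un G (alpha d) (sg G w) = 2 ∧ un G (alpha d) (sg G (sg G w)) = 2 ∧
      un G (alpha d) (sg G (sg G (sg G w))) = 2 ∧
      un G (alpha d) (sg G (sg G (sg G (sg G w)))) = 3 ∧
      (WO62 G (alpha d) w → WO62 G (alpha d) (sg G w) → WO62 G (alpha d) (sg G (sg G w)) →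
        w.2 ∈ inN G → (sg G w).2 ∈ inN G → uv G (alpha d) w.2 = 7 →
        uv G (alpha d) (sg G w).2 = 7 → cv G w.2 = 2 → cv G (sg G w).2 = 2 →
        nx G (nx G (sg G w)) = sg G w → rn G w = 0 → rn G (sg G w) = 0 →
        ∃ y, Qu71 G (alpha d) y ∧ y.2 = (sg G w).2 ∧ nx G y = sg G (sg G w) ∧
          sg G y = nx G (sg G w) ∧ sg G (sg G y) = nx G w ∧
          rn G y + un G (alpha d) (sg G y) = 5 ∧
          rn G (nx G (sg G w)) + un G (alpha d) (sg G (sg G y)) = 5) := by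
  have hCi := ((mem_WF89 G).1 hC).1
  obtain ⟨x, hx, v0, v1, v2, v3, v4, hJ, hcy, hW⟩ := p11_69 hG hD hS hC hm hI hU
  have x1 := sg_cJ46 G hG hCi hx
  have hWe : Wk G (alpha d) C = {sg G x, sg G (sg G x), sg G (sg G (sg G x))} :=
    Finset.eq_of_subset_of_card_le hW (by
      rw [hw]
      exact Finset.card_le_three)
  have hT : ∀ x ∈ BC G, alpha d ≤ TH G x := fun x hx =>
    TH_ge19 hG hD hS ((mem_BC89 G).1 hx).1
  refine ⟨sg G x, x1, hWe, ?_, by rw [hcy], v1, v2, v3, v4, by rw [hcy]; exact v0, ?_⟩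
  · rw [hcy, hJ]
    ext t
    simp only [Finset.mem_insert, Finset.mem_singleton]
    tauto
  · intro h1 h2 h3 i1 i2 u1 u2 c1 c2 hdi r1 r2
    obtain ⟨y, hyi, hy2, f2, f1, f3, s0, s1, s2, a1, a2, hmass⟩ :=
      quad71 G hG h1 h2 h3 i1 i2 u1 u2 c1 c2 hdi
    rw [v2, r1] at a2
    rw [v3, r2] at a1
    refine ⟨y, ⟨hyi, s0, s1, s2, ?_⟩, hy2, f2, f1, f3, by omega, by omega⟩
    have hep := ep_pos89 G hG
    have hmm := mass71 G hG hC (al := alpha d) (by omega) (Γ := 3) (by
      rw [hU]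
      have := m_eq46 G hCi
      omega)
    have hle : gc G (alpha d) x ≤ 1 :=
      gc_le_one46 G hG (BC_of_WF46 G hC hx) (hT x (BC_of_WF46 G hC hx))
    have hd : (G.cI C).card + 2 = 2 * (G.cT C).card := by omega
    have h5 : (G.cJ C).card = 5 := by
      have := m_eq46 G hCi
      omega
    rw [(num61 G hG hCi hd hx).2.2.2 (fun y => 1 - gc G (alpha d) y), h5] at hmm
    simp only [Finset.sum_range_succ, Finset.sum_range_zero, Function.iterate_succ_apply',
      Function.iterate_zero, id_eq, zero_add] at hmm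
    push_cast at hmm
    linarith

end

end Pool.Agent.PEN.E5
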