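import Pool.Agent.E5.Tf14
import Pool.Agent.E5.Ea14
import Pool.Agent.E5.T7_71

/-! # PENNY, small diameters: from the rows of the scheme `(θ, y, Λ) = (14, 16, 55) / 13` to the darts

All amounts are multiplied by 13. -/

set_option autoImplicit false

namespace Pool.Agent.PEN.E5

open Classical UpperHalfPlane
open Pool.Agent.PEN.Cl

noncomputable section

variable {V : Type} (G : Tg V) {al : ℝ} {kp : V → V → ℝ} {U : ℕ → ℝ}

theorem max_div14 (r : ℝ) : max (2 + 2 * (14 / 13) - 14 / 13 * r) 0 = max (54 - 14 * r) 0 / 13 := by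
  rcases le_total (54 - 14 * r) 0 with h | h
  · rw [max_eq_right h, max_eq_right (by linarith)]
    norm_num
  · rw [max_eq_left h, max_eq_left (by linarith)]
    ring

/-- **the result row of the scheme `T (55 / 13)` from its rows and transfers**, all amounts times
13: every black face has 12 for each of its outer darts and 27 for each of its full ears -/
theorem rowsT14 (hG : G.Geo4 al kp U) (h1 : ∀ x ∈ iJ G, gc G al x ≤ 1)
    {a β c : ℝ} {yK : (cg G).ConnectedComponent → ℝ} {w p : V × V → ℝ}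
    {ι : Type} (I : Finset ι) (amt : ι → ℝ) (gv rc : ι → Nd14 G)
    (hI : ∀ i ∈ I, gv i ∈ Dom14 G al ∧ rc i ∈ Dom14 G al)
    (hyL : ∀ K ∈ Kc G, Lv G K ≠ ∅ → 16 ≤ yK K)
    (hab : 2 * a + β = 150)
    (hK : ∀ K ∈ Kc G, 13 * wx G (14 / 13) K + yK K * (Lv G K).card + am14 I amt gv (nK14 G K) ≤
      ∑ s ∈ PK G al K, max (54 - 14 * (rn G s : ℝ)) 0 +
      ∑ x ∈ (kS G K).filter (fun x => x ∈ BC G), w x + ∑ x ∈ Lv G K, p (sg G x) +
      (a - yK K) * uK14 G al K + (yK K - c) * oK14 G K +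
      12 * ((kS G K).filter (fun x => x ∈ G.oJ)).card + 27 * fe14 G K +
      am14 I amt rc (nK14 G K))
    (hC : ∀ C ∈ WF G, ∑ x ∈ G.cJ C, w x + ∑ x ∈ (G.cJ C).filter (fun x => x.1 ∈ lfN G), p x +
        am14 I amt gv (nC14 G C) ≤
      118 * ka G al C - 74 * qa G C +
      ∑ s ∈ G.cJ C, (yK (ku G s) - 16) * sp G al s +
      ∑ x ∈ (G.cJ C).filter (fun x => x.1 ∉ inN G), (β * gc G al x + c) +
      am14 I amt rc (nC14 G C))
    (hV : ∀ v ∈ A2 G al, ∑ s ∈ (Sv G v).filter (fun s => 0 ≤ Ds G al s),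
        max (54 - 14 * (rn G s : ℝ)) 0 + ∑ s ∈ Sv G v, yK (ku G s) * Ds G al s +
        am14 I amt gv (nV14 G v) ≤
      150 * (kv G al v - 1) - 32 * ep al + am14 I amt rc (nV14 G v))
    (h7 : ∀ v ∈ inN G, uv G al v = 7 → cv G v ≠ 1 →
      ∑ s ∈ Sv G v, yK (ku G s) * Ds G al s + 32 * ep al + am14 I amt gv (nV14 G v) ≤
        am14 I amt rc (nV14 G v)) :
    68 * ((inN G).card : ℝ) + 82 + 28 * (G.oJ.card + (inN G).card - G.P.card) + 41 * sE G ≤
      55 * G.iI.card + 118 * cor G al + 26 * G.oJ.card := by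
  have hE := ears_real14 G hG
  have hsum : ∀ (T : Finset (V × V)) (f : V × V → ℝ), ∑ x ∈ T, f x / 13 = (∑ x ∈ T, f x) / 13 :=
    fun T f => (Finset.sum_div _ _ _).symm
  have hsl : ∀ v, sl G al (14 / 13) (55 / 13) (fun K => yK K / 13) v =
      (150 * (kv G al v - 1) - ∑ s ∈ (Sv G v).filter (fun s => 0 ≤ Ds G al s),
        max (54 - 14 * (rn G s : ℝ)) 0 - ∑ s ∈ Sv G v, yK (ku G s) * Ds G al s) / 13 := by
    intro v
    unfold sl
    rw [Finset.sum_congr rfl fun s _ => max_div14 (rn G s : ℝ), hsum,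
      Finset.sum_congr rfl fun s _ => show yK (ku G s) / 13 * Ds G al s =
        yK (ku G s) * Ds G al s / 13 by ring, hsum]
    ring
  have h := frame42 G hG h1 (θ := 14 / 13) (y0 := 16 / 13) (Λ := 55 / 13) (a := a / 13)
    (β := β / 13) (c := c / 13) (μ := 12 / 13)
    (ρ := 27 / 13 * ∑ K ∈ Kc G, (fe14 G K : ℝ)) (yK := fun K => yK K / 13)
    (w := fun x => w x / 13) (p := fun x => p x / 13)
    (rK := fun K => (am14 I amt rc (nK14 G K) - am14 I amt gv (nK14 G K)) / 13 +
      27 / 13 * fe14 G K)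
    (rC := fun C => (am14 I amt rc (nC14 G C) - am14 I amt gv (nC14 G C)) / 13)
    (rV := fun v => (am14 I amt rc (nV14 G v) - am14 I amt gv (nV14 G v)) / 13)
    (fun K hK' h2 => by
      have := hyL K hK' h2
      linarith)
    (by linarith)
    (fun K hK' => by
      have h3 := hK K hK'
      rw [Finset.sum_congr rfl fun s _ => max_div14 (rn G s : ℝ), hsum, hsum, hsum]
      linarith)
    (fun C hC' => by
      have h3 := hC C hC'
      have e1 : ∑ s ∈ G.cJ C, (yK (ku G s) / 13 - 16 / 13) * sp G al s =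
          (∑ s ∈ G.cJ C, (yK (ku G s) - 16) * sp G al s) / 13 := by
        rw [← hsum]
        exact Finset.sum_congr rfl fun s _ => by ring
      have e2 : ∑ x ∈ (G.cJ C).filter (fun x => x.1 ∉ inN G), (β / 13 * gc G al x + c / 13) =
          (∑ x ∈ (G.cJ C).filter (fun x => x.1 ∉ inN G), (β * gc G al x + c)) / 13 := by
        rw [← hsum]
        exact Finset.sum_congr rfl fun s _ => by ring
      rw [hsum, hsum, e1, e2]
      linarith)
    (fun v hv => by
      have h3 := hV v hv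
      rw [hsl]
      linarith)
    (fun v hv h2 h3 => by
      have h4 := h7 v hv h2 h3
      have e1 : ∑ s ∈ Sv G v, yK (ku G s) / 13 * Ds G al s =
          (∑ s ∈ Sv G v, yK (ku G s) * Ds G al s) / 13 := by
        rw [← hsum]
        exact Finset.sum_congr rfl fun s _ => by ring
      rw [e1]
      linarith)
    (by
      have e1 := sum_am14 I amt gv (Dom14 G al) fun i hi => (hI i hi).1
      have e2 := sum_am14 I amt rc (Dom14 G al) fun i hi => (hI i hi).2
      rw [sum_dom14] at e1 e2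
      rw [Finset.sum_add_distrib, ← Finset.sum_div, ← Finset.sum_div, ← Finset.sum_div,
        ← Finset.sum_div, Finset.sum_sub_distrib, Finset.sum_sub_distrib, Finset.sum_sub_distrib,
        Finset.sum_sub_distrib, Finset.mul_sum]
      linarith)
  have h2 := rowT42 G hG h
  have h3 : 13 * (27 / 13 * ∑ K ∈ Kc G, (fe14 G K : ℝ)) = 27 * ∑ K ∈ Kc G, (fe14 G K : ℝ) := by
    ring
  norm_num at h2
  linarith

/-- **the darts from the rows of `T (55 / 13)`** -/
theorem dartsT14 {d : ℝ} (hd : 0 < d) (hd1 : d ≤ 3 / 20) {G : Tg ℍ}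
    (hG : G.Geo4 (alpha d) kap (Ust69 d)) (hn : 861 ≤ G.P.card)
    (hR : 68 * ((inN G).card : ℝ) + 82 + 28 * (G.oJ.card + (inN G).card - G.P.card) +
      41 * sE G ≤ 55 * G.iI.card + 118 * cor G (alpha d) + 26 * G.oJ.card) :
    (G.D.filter (fun x => G.con x.1 x.2)).card ≤ 2 * Lb85 G.P.card :=
  darts_T71 CT_y16_71 hd hd1 (A3_le98_71 hd hd1) hG hn hR

end

end Pool.Agent.PEN.E5
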