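import Pool.Agent.E5.Sd42
import Pool.Agent.E5.Cm15

/-! # PENNY, all small diameters: the frame with transfers

Nodes: the black faces, the white classes and the points that can pay. A transfer has a giver, a
receiver and an amount; the rows carry what the node gives and what it receives, and the sum of all
transfers is inside. -/

set_option autoImplicit false

namespace Pool.Agent.PEN.E5

open Classical UpperHalfPlane
open Pool.Agent.PEN.Cl

noncomputable section

variable {V : Type} (G : Tg V) {al : ℝ} {kp : V → V → ℝ} {U : ℕ → ℝ}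

/-- the nodes -/
abbrev Nd14 : Type := (cg G).ConnectedComponent ⊕ (G.adj.ConnectedComponent ⊕ V)

/-- the black face `K` as a node -/
abbrev nK14 (K : (cg G).ConnectedComponent) : Nd14 G := Sum.inl K
/-- the white class `C` as a node -/
abbrev nC14 (C : G.adj.ConnectedComponent) : Nd14 G := Sum.inr (Sum.inl C)
/-- the point `v` as a node -/
abbrev nV14 (v : V) : Nd14 G := Sum.inr (Sum.inr v)

/-- the nodes that take part -/
def Dom14 (al : ℝ) : Finset (Nd14 G) := (Kc G).disjSum ((WF G).disjSum (PV15 G al))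

theorem domK14 {K : (cg G).ConnectedComponent} : nK14 G K ∈ Dom14 G al ↔ K ∈ Kc G := by
  unfold Dom14
  exact Finset.inl_mem_disjSum

theorem domC14 {C : G.adj.ConnectedComponent} : nC14 G C ∈ Dom14 G al ↔ C ∈ WF G := by
  unfold Dom14
  rw [Finset.inr_mem_disjSum]
  exact Finset.inl_mem_disjSum

theorem domV14 {v : V} : nV14 G v ∈ Dom14 G al ↔ v ∈ PV15 G al := by
  unfold Dom14
  rw [Finset.inr_mem_disjSum]
  exact Finset.inr_mem_disjSum

/-- the sum of the amounts of the transfers in `I` with `f i = n` -/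
def am14 {ι β : Type} (I : Finset ι) (amt : ι → ℝ) (f : ι → β) (n : β) : ℝ :=
  ∑ i ∈ I.filter (fun i => f i = n), amt i

theorem sum_am14 {ι β : Type} (I : Finset ι) (amt : ι → ℝ) (f : ι → β) (S : Finset β)
    (h : ∀ i ∈ I, f i ∈ S) : ∑ n ∈ S, am14 I amt f n = ∑ i ∈ I, amt i := by
  unfold am14
  exact Finset.sum_fiberwise_of_maps_to h amt

theorem sum_dom14 (f : Nd14 G → ℝ) : ∑ n ∈ Dom14 G al, f n =
    ∑ K ∈ Kc G, f (nK14 G K) + (∑ C ∈ WF G, f (nC14 G C) + (∑ v ∈ A2 G al, f (nV14 G v) +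
      ∑ v ∈ (inN G).filter (fun v => uv G al v = 7 ∧ cv G v ≠ 1), f (nV14 G v))) := by
  unfold Dom14
  rw [Finset.sum_disjSum, Finset.sum_disjSum]
  congr 2
  unfold PV15
  rw [Finset.sum_union]
  rw [Finset.disjoint_left]
  intro v h2 h3
  have h4 := (Finset.mem_filter.1 h2).2
  have h5 := (Finset.mem_filter.1 h3).2.1
  omega

/-- **the frame with transfers** -/
theorem frameT14 (hG : G.Geo4 al kp U) (h1 : ∀ x ∈ iJ G, gc G al x ≤ 1)
    {θ y0 Λ a β c μ : ℝ} {yK : (cg G).ConnectedComponent → ℝ} {w p : V × V → ℝ}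
    {ι : Type} (I : Finset ι) (amt : ι → ℝ) (gv rc : ι → Nd14 G)
    (hI : ∀ i ∈ I, gv i ∈ Dom14 G al ∧ rc i ∈ Dom14 G al)
    (hyL : ∀ K ∈ Kc G, Lv G K ≠ ∅ → y0 ≤ yK K)
    (hab : 2 * a + β = 3 + 4 * θ + Λ)
    (hK : ∀ K ∈ Kc G, wx G θ K + yK K * (Lv G K).card + am14 I amt gv (nK14 G K) ≤
      ∑ s ∈ PK G al K, max (2 + 2 * θ - θ * (rn G s : ℝ)) 0 +
      ∑ x ∈ (kS G K).filter (fun x => x ∈ BC G), w x + ∑ x ∈ Lv G K, p (sg G x) +
      (a - yK K) * uK14 G al K + (yK K - c) * oK14 G K +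
      μ * ((kS G K).filter (fun x => x ∈ G.oJ)).card + am14 I amt rc (nK14 G K))
    (hC : ∀ C ∈ WF G, ∑ x ∈ G.cJ C, w x + ∑ x ∈ (G.cJ C).filter (fun x => x.1 ∈ lfN G), p x +
        am14 I amt gv (nC14 G C) ≤
      (3 + 4 * θ + Λ - 2 * y0) * ka G al C - (4 + 5 * θ - 3 * y0) * qa G C +
      ∑ s ∈ G.cJ C, (yK (ku G s) - y0) * sp G al s +
      ∑ x ∈ (G.cJ C).filter (fun x => x.1 ∉ inN G), (β * gc G al x + c) +
      am14 I amt rc (nC14 G C))
    (hV : ∀ v ∈ A2 G al, ∑ s ∈ (Sv G v).filter (fun s => 0 ≤ Ds G al s),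
        max (2 + 2 * θ - θ * (rn G s : ℝ)) 0 + ∑ s ∈ Sv G v, yK (ku G s) * Ds G al s +
        am14 I amt gv (nV14 G v) ≤
      (3 + 4 * θ + Λ) * (kv G al v - 1) - 2 * y0 * ep al + am14 I amt rc (nV14 G v))
    (h7 : ∀ v ∈ inN G, uv G al v = 7 → cv G v ≠ 1 →
      ∑ s ∈ Sv G v, yK (ku G s) * Ds G al s + 2 * y0 * ep al + am14 I amt gv (nV14 G v) ≤
        am14 I amt rc (nV14 G v)) :
    ∑ K ∈ Kc G, wx G θ K + (4 + 5 * θ) * ∑ C ∈ WF G, qa G C + 2 * y0 * cor G al ≤
      (3 + 4 * θ + Λ) * (cost G al + gam G al) + μ * G.oJ.card := by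
  have h := frame42 G hG h1 (θ := θ) (y0 := y0) (Λ := Λ) (a := a) (β := β) (c := c) (μ := μ)
    (ρ := 0) (yK := yK) (w := w) (p := p)
    (rK := fun K => am14 I amt rc (nK14 G K) - am14 I amt gv (nK14 G K))
    (rC := fun C => am14 I amt rc (nC14 G C) - am14 I amt gv (nC14 G C))
    (rV := fun v => am14 I amt rc (nV14 G v) - am14 I amt gv (nV14 G v)) hyL hab ?_ ?_ ?_ ?_ ?_
  · linarith
  · intro K hK'
    have := hK K hK'
    linarith
  · intro C hC'
    have := hC C hC'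
    linarith
  · intro v hv
    have := hV v hv
    unfold sl
    linarith
  · intro v hv h2 h3
    have := h7 v hv h2 h3
    linarith
  · have e1 := sum_am14 I amt gv (Dom14 G al) fun i hi => (hI i hi).1
    have e2 := sum_am14 I amt rc (Dom14 G al) fun i hi => (hI i hi).2
    rw [sum_dom14] at e1 e2
    rw [Finset.sum_sub_distrib, Finset.sum_sub_distrib, Finset.sum_sub_distrib,
      Finset.sum_sub_distrib]
    linarith

end

end Pool.Agent.PEN.E5
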