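import Pool.Agent.E5.Sd42
import Pool.Agent.E5.Ea14

/-! # PENNY, small diameters: the rows of the set `θ = 14 / 13`, `y = 16 / 13`, `Λ = 55 / 13`

All amounts are multiplied by 13. The claims are a finite list, each claim with an amount, a white
class which needs it and a target (a point, a black face or a white class). -/

set_option autoImplicit false

namespace Pool.Agent.PEN.E5

open Classical UpperHalfPlane
open Pool.Agent.PEN.Cl

noncomputable section

variable {V : Type} (G : Tg V) {al : ℝ} {kp : V → V → ℝ} {U : ℕ → ℝ}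

/-- thirteen times the need of a black face -/
def wT42 (K : (cg G).ConnectedComponent) : ℝ :=
  54 - 14 * tK G K - 27 * ((tK G K : ℝ) + 2 - (kS G K).card)

/-- the amount of the claims with target `a` -/
def nT42 {ι A : Type} (am : ι → ℝ) (I : Finset ι) (f : ι → A) (a : A) : ℝ :=
  ∑ i ∈ I.filter (fun i => f i = a), am i

theorem sum_nT42 {ι A : Type} (am : ι → ℝ) (I : Finset ι) (f : ι → A) (T : Finset A)
    (h : ∀ i ∈ I, f i ∈ T) : ∑ a ∈ T, nT42 am I f a = ∑ i ∈ I, am i :=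
  Finset.sum_fiberwise_of_maps_to h am

theorem wx_T42 (K : (cg G).ConnectedComponent) : wx G (14 / 13) K = wT42 G K / 13 := by
  unfold wx wT42
  ring

theorem max_T42 (r : ℝ) :
    max (2 + 2 * (14 / 13) - 14 / 13 * r) 0 = max (54 - 14 * r) 0 / 13 := by
  rcases le_total (54 - 14 * r) 0 with h | h
  · rw [max_eq_right h, max_eq_right (by linarith), zero_div]
  · rw [max_eq_left h, max_eq_left (by linarith)]
    ring

/-- **the result row from the rows with claims**, with free allowances at outer points -/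
theorem rowsG42 (hG : G.Geo4 al kp U) (h1 : ∀ x ∈ iJ G, gc G al x ≤ 1)
    {Y : (cg G).ConnectedComponent → ℝ} (hY : ∀ K ∈ Kc G, Lv G K ≠ ∅ → 16 ≤ Y K)
    {W Q : V × V → ℝ} {a β c μ : ℝ} (hab : 2 * a + β = 150) {ι : Type} (am : ι → ℝ) (IV IK IC : Finset ι)
    (src : ι → G.adj.ConnectedComponent) (tV : ι → V) (tK : ι → (cg G).ConnectedComponent)
    (tC : ι → G.adj.ConnectedComponent)
    (hsV : ∀ i ∈ IV, src i ∈ WF G ∧ (tV i ∈ A2 G al ∨
      (tV i ∈ inN G ∧ uv G al (tV i) = 7 ∧ cv G (tV i) ≠ 1)))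
    (hsK : ∀ i ∈ IK, src i ∈ WF G ∧ tK i ∈ Kc G)
    (hsC : ∀ i ∈ IC, src i ∈ WF G ∧ tC i ∈ WF G)
    (hK : ∀ K ∈ Kc G, wT42 G K + Y K * (Lv G K).card + nT42 am IK tK K ≤
      ∑ s ∈ PK G al K, max (54 - 14 * (rn G s : ℝ)) 0 +
      ∑ x ∈ (kS G K).filter (fun x => x ∈ BC G), W x + ∑ x ∈ Lv G K, Q (sg G x) +
      (a - Y K) * uK14 G al K + (Y K - c) * oK14 G K +
      μ * ((kS G K).filter (fun x => x ∈ G.oJ)).card + 27 * fe14 G K)
    (hC : ∀ C ∈ WF G, ∑ x ∈ G.cJ C, W x + ∑ x ∈ (G.cJ C).filter (fun x => x.1 ∈ lfN G), Q x +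
      nT42 am IC tC C ≤
      118 * ka G al C - 74 * qa G C + ∑ s ∈ G.cJ C, (Y (ku G s) - 16) * sp G al s +
      ∑ x ∈ (G.cJ C).filter (fun x => x.1 ∉ inN G), (β * gc G al x + c) +
      (nT42 am IV src C + nT42 am IK src C + nT42 am IC src C))
    (hV : ∀ v ∈ A2 G al, ∑ s ∈ (Sv G v).filter (fun s => 0 ≤ Ds G al s),
        max (54 - 14 * (rn G s : ℝ)) 0 + ∑ s ∈ Sv G v, Y (ku G s) * Ds G al s +
        nT42 am IV tV v ≤ 150 * (kv G al v - 1) - 32 * ep al)
    (h7 : ∀ v ∈ inN G, uv G al v = 7 → cv G v ≠ 1 →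
      ∑ s ∈ Sv G v, Y (ku G s) * Ds G al s + 32 * ep al + nT42 am IV tV v ≤ 0) :
    68 * ((inN G).card : ℝ) + 82 + 28 * (G.oJ.card + (inN G).card - G.P.card) + 41 * sE G ≤
      55 * G.iI.card + 118 * cor G al + (14 + μ) * G.oJ.card := by
  have hfr := frame42 G hG h1 (θ := 14 / 13) (y0 := 16 / 13) (Λ := 55 / 13) (a := a / 13)
    (β := β / 13) (c := c / 13) (μ := μ / 13)
    (ρ := 54 / 13 * (G.oJ.card + (inN G).card - G.P.card))
    (yK := fun K => Y K / 13) (w := fun x => W x / 13) (p := fun x => Q x / 13)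
    (rK := fun K => (27 * (fe14 G K : ℝ) - nT42 am IK tK K) / 13)
    (rC := fun C => (nT42 am IV src C + nT42 am IK src C + nT42 am IC src C -
      nT42 am IC tC C) / 13)
    (rV := fun v => - nT42 am IV tV v / 13) ?_ (by linarith) ?_ ?_ ?_ ?_ ?_
  · have h := rowT42 G hG (y0 := 16 / 13) (μ := μ / 13) hfr
    linarith
  · intro K hK' hL
    have := hY K hK' hL
    show 16 / 13 ≤ Y K / 13
    linarith
  · intro K hK'
    have h := hK K hK'
    rw [wx_T42]
    simp only [max_T42, ← Finset.sum_div]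
    linarith
  · intro C hC'
    have h := hC C hC'
    have e1 : ∑ s ∈ G.cJ C, (Y (ku G s) / 13 - 16 / 13) * sp G al s =
        (∑ s ∈ G.cJ C, (Y (ku G s) - 16) * sp G al s) / 13 := by
      rw [Finset.sum_div]
      exact Finset.sum_congr rfl fun s _ => by ring
    have e2 : ∑ x ∈ (G.cJ C).filter (fun x => x.1 ∉ inN G), (β / 13 * gc G al x + c / 13) =
        (∑ x ∈ (G.cJ C).filter (fun x => x.1 ∉ inN G), (β * gc G al x + c)) / 13 := by
      rw [Finset.sum_div]
      exact Finset.sum_congr rfl fun s _ => by ring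
    rw [e1, e2]
    simp only [← Finset.sum_div]
    linarith
  · intro v hv
    have h := hV v hv
    unfold sl
    have e1 : ∑ s ∈ Sv G v, Y (ku G s) / 13 * Ds G al s =
        (∑ s ∈ Sv G v, Y (ku G s) * Ds G al s) / 13 := by
      rw [Finset.sum_div]
      exact Finset.sum_congr rfl fun s _ => by ring
    rw [e1]
    simp only [max_T42, ← Finset.sum_div]
    linarith
  · intro v hv h2 h3
    have h := h7 v hv h2 h3
    have e1 : ∑ s ∈ Sv G v, Y (ku G s) / 13 * Ds G al s =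
        (∑ s ∈ Sv G v, Y (ku G s) * Ds G al s) / 13 := by
      rw [Finset.sum_div]
      exact Finset.sum_congr rfl fun s _ => by ring
    rw [e1]
    linarith
  · have e1 := sum_nT42 am IV src (WF G) fun i hi => (hsV i hi).1
    have e2 := sum_nT42 am IK src (WF G) fun i hi => (hsK i hi).1
    have e3 := sum_nT42 am IC src (WF G) fun i hi => (hsC i hi).1
    have e5 := sum_nT42 am IK tK (Kc G) fun i hi => (hsK i hi).2
    have e6 := sum_nT42 am IC tC (WF G) fun i hi => (hsC i hi).2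
    have hd : Disjoint (A2 G al) ((inN G).filter (fun v => uv G al v = 7 ∧ cv G v ≠ 1)) := by
      rw [Finset.disjoint_left]
      intro v h2 h3
      have h4 := (Finset.mem_filter.1 h2).2
      have h5 := (Finset.mem_filter.1 h3).2.1
      omega
    have e4 := sum_nT42 am IV tV
      (A2 G al ∪ (inN G).filter (fun v => uv G al v = 7 ∧ cv G v ≠ 1)) fun i hi => by
        rcases (hsV i hi).2 with h | h
        · exact Finset.mem_union_left _ h
        · exact Finset.mem_union_right _ (Finset.mem_filter.2 h)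
    rw [Finset.sum_union hd] at e4
    have e7 : ∑ K ∈ Kc G, (fe14 G K : ℝ) + 2 * G.P.card ≤ 2 * G.oJ.card + 2 * (inN G).card := by
      exact_mod_cast ears_all14 G hG
    simp only [← Finset.sum_div, Finset.sum_sub_distrib, Finset.sum_add_distrib,
      ← Finset.mul_sum, Finset.sum_neg_distrib]
    rw [e1, e2, e3, e5, e6]
    linarith

/-- **the result row from the rows with claims**, allowances 54 per use, 10 and 16 per corner -/
theorem rowsT42 (hG : G.Geo4 al kp U) (h1 : ∀ x ∈ iJ G, gc G al x ≤ 1)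
    {Y : (cg G).ConnectedComponent → ℝ} (hY : ∀ K ∈ Kc G, Lv G K ≠ ∅ → 16 ≤ Y K)
    {W Q : V × V → ℝ} {μ : ℝ} {ι : Type} (am : ι → ℝ) (IV IK IC : Finset ι)
    (src : ι → G.adj.ConnectedComponent) (tV : ι → V) (tK : ι → (cg G).ConnectedComponent)
    (tC : ι → G.adj.ConnectedComponent)
    (hsV : ∀ i ∈ IV, src i ∈ WF G ∧ (tV i ∈ A2 G al ∨
      (tV i ∈ inN G ∧ uv G al (tV i) = 7 ∧ cv G (tV i) ≠ 1)))
    (hsK : ∀ i ∈ IK, src i ∈ WF G ∧ tK i ∈ Kc G)
    (hsC : ∀ i ∈ IC, src i ∈ WF G ∧ tC i ∈ WF G)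
    (hK : ∀ K ∈ Kc G, wT42 G K + Y K * (Lv G K).card + nT42 am IK tK K ≤
      ∑ s ∈ PK G al K, max (54 - 14 * (rn G s : ℝ)) 0 +
      ∑ x ∈ (kS G K).filter (fun x => x ∈ BC G), W x + ∑ x ∈ Lv G K, Q (sg G x) +
      (70 - Y K) * uK14 G al K + (Y K - 16) * oK14 G K +
      μ * ((kS G K).filter (fun x => x ∈ G.oJ)).card + 27 * fe14 G K)
    (hC : ∀ C ∈ WF G, ∑ x ∈ G.cJ C, W x + ∑ x ∈ (G.cJ C).filter (fun x => x.1 ∈ lfN G), Q x +
      nT42 am IC tC C ≤
      118 * ka G al C - 74 * qa G C + ∑ s ∈ G.cJ C, (Y (ku G s) - 16) * sp G al s +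
      ∑ x ∈ (G.cJ C).filter (fun x => x.1 ∉ inN G), (10 * gc G al x + 16) +
      (nT42 am IV src C + nT42 am IK src C + nT42 am IC src C))
    (hV : ∀ v ∈ A2 G al, ∑ s ∈ (Sv G v).filter (fun s => 0 ≤ Ds G al s),
        max (54 - 14 * (rn G s : ℝ)) 0 + ∑ s ∈ Sv G v, Y (ku G s) * Ds G al s +
        nT42 am IV tV v ≤ 150 * (kv G al v - 1) - 32 * ep al)
    (h7 : ∀ v ∈ inN G, uv G al v = 7 → cv G v ≠ 1 →
      ∑ s ∈ Sv G v, Y (ku G s) * Ds G al s + 32 * ep al + nT42 am IV tV v ≤ 0) :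
    68 * ((inN G).card : ℝ) + 82 + 28 * (G.oJ.card + (inN G).card - G.P.card) + 41 * sE G ≤
      55 * G.iI.card + 118 * cor G al + (14 + μ) * G.oJ.card :=
  rowsG42 G hG h1 hY (a := 70) (β := 10) (c := 16) (by norm_num) am IV IK IC src tV tK tC hsV hsK
    hsC hK hC hV h7

/-- the result row for small diameters (the rows of `rowsT42` with `μ = 12`) -/
def RowT42 (al : ℝ) : Prop :=
  68 * ((inN G).card : ℝ) + 82 + 28 * (G.oJ.card + (inN G).card - G.P.card) + 41 * sE G ≤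
    55 * G.iI.card + 118 * cor G al + (14 + 12) * G.oJ.card

end

end Pool.Agent.PEN.E5
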