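import Pool.Agent.E5.Us14

/-! # PENNY, all small diameters: black faces without white sides

A black face all of whose sides are outer darts has ears; the head of an ear has at least two
outer darts. -/

set_option autoImplicit false

namespace Pool.Agent.PEN.E5

open Classical UpperHalfPlane
open Pool.Agent.PEN.Cl

noncomputable section

variable {V : Type} (G : Tg V) {al : ℝ} {kp : V → V → ℝ} {U : ℕ → ℝ}

/-- a set of contact neighbours closed under the clockwise successor is everything -/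
theorem closed14 (hG : G.Geo4 al kp U) {v : V} (hv : v ∈ G.P) (Y : Finset V) (hne : Y.Nonempty)
    (hY1 : ∀ b ∈ Y, (v, b) ∈ G.D ∧ G.con v b ∧ G.inn (v, b) ∧ G.inn (b, v))
    (hY2 : ∀ b ∈ Y, G.og v (G.bk v b) ∈ Y) :
    ¬ G.bd v ∧ ∀ c, (v, c) ∈ G.D → G.con v c → c ∈ Y := by
  obtain ⟨S, hmem⟩ : ∃ S : Finset V, ∀ b, b ∈ S ↔ (v, b) ∈ G.D ∧
      (G.inn (v, b) ∧ G.og v b ∈ Y) := ⟨_, mem_img66 G v (fun b => G.inn (v, b) ∧ G.og v b ∈ Y)⟩
  have hbv : ∀ b ∈ S, (b, v) ∈ G.Dp := by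
    intro b hb
    obtain ⟨h1, h2, h3⟩ := (hmem b).1 hb
    by_cases hc : G.con v b
    · rw [(og_self66 G hc).2] at h3
      exact (hY1 b h3).2.2.2.1
    · exact (inn_bk71 G h2 hc).1
  have hbk : ∀ b ∈ S, G.bk v b ∈ S := by
    intro b hb
    obtain ⟨h1, h2, h3⟩ := (hmem b).1 hb
    by_cases hc : G.con v b
    · rw [(og_self66 G hc).2] at h3
      have h4 := inn_rot27 G (hY1 b h3).2.2.2
      exact (hmem _).2 ⟨G.sub h4.1, h4, hY2 b h3⟩
    · obtain ⟨_, h5, _⟩ := inn_bk71 G h2 hc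
      refine (hmem _).2 ⟨G.sub h5.1, h5, ?_⟩
      rw [og_bk51 G (W4.hasO71 G hG h2) hc]
      exact h3
  have hfb : ∀ b ∈ S, G.ap v (G.bk v b) = b := fun b hb => fw_bk71 G (hbv b hb)
  have himg : S.image (G.bk v) = S := by
    apply Finset.eq_of_subset_of_card_le
    · intro b hb
      obtain ⟨c, hc, rfl⟩ := Finset.mem_image.1 hb
      exact hbk c hc
    · rw [Finset.card_image_of_injOn]
      intro b hb c hc hbc
      rw [← hfb b (Finset.mem_coe.1 hb), ← hfb c (Finset.mem_coe.1 hc)]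
      exact congrArg _ hbc
  have hfw : ∀ b ∈ S, G.ap v b ∈ S := by
    intro b hb
    rw [← himg] at hb
    obtain ⟨c, hc, rfl⟩ := Finset.mem_image.1 hb
    rw [hfb c hc]
    exact hc
  have hneS : S.Nonempty := by
    obtain ⟨b, hb⟩ := hne
    obtain ⟨h1, h2, h3, h4⟩ := hY1 b hb
    exact ⟨b, (hmem b).2 ⟨h1, h3, by rw [(og_self66 G h2).2]; exact hb⟩⟩
  have hbd : ¬ G.bd v := fun hb =>
    hG.bdno v hv hb S hneS (fun b hb => ⟨((hmem b).1 hb).2.1.1, hfw b hb⟩)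
  refine ⟨hbd, fun c hc1 hc2 => ?_⟩
  by_contra hcY
  have h1 := hG.turn v hv hbd S hneS (fun b hb => ((hmem b).1 hb).1) hfw
  have hcS : c ∉ S := by
    intro h2
    have h3 := ((hmem c).1 h2).2.2
    rw [(og_self66 G hc2).2] at h3
    exact hcY h3
  have h2 : ∑ b ∈ insert c S, G.th v b ≤
      ∑ x ∈ G.D.filter (fun x => x.1 = v), G.th x.1 x.2 := by
    have e := Finset.sum_image (s := insert c S) (g := fun b => (v, b))
      (f := fun x : V × V => G.th x.1 x.2) (fun x _ y _ h => (Prod.mk.inj h).2)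
    dsimp only at e
    rw [← e]
    apply Finset.sum_le_sum_of_subset_of_nonneg
    · intro x hx
      obtain ⟨b, hb, rfl⟩ := Finset.mem_image.1 hx
      rw [Finset.mem_filter]
      refine ⟨?_, rfl⟩
      rcases Finset.mem_insert.1 hb with rfl | hb
      · exact hc1
      · exact ((hmem b).1 hb).1
    · rintro ⟨x1, x2⟩ hx _
      rw [Finset.mem_filter] at hx
      obtain ⟨h3, h4⟩ := hx
      simp only at h4
      subst h4
      exact (G.thpos _ _ (G.int1 _ _ hv hbd h3)).le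
  rw [hG.tot v hv hbd, Finset.sum_insert hcS] at h2
  have h3 := G.thpos _ _ (G.int1 _ _ hv hbd hc1)
  linarith

/-- as many outer darts start as end at a point -/
theorem oJ_bal14 (v : V) :
    (G.oJ.filter (fun x => x.1 = v)).card = (G.oJ.filter (fun x => x.2 = v)).card := by
  have hsw : Function.Injective (fun x : V × V => (x.2, x.1)) := by
    rintro ⟨a, b⟩ ⟨c, e⟩ h
    have h1 := congrArg Prod.fst h
    have h2 := congrArg Prod.snd h
    exact Prod.ext h2 h1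
  have e1 := Finset.card_filter_add_card_filter_not (s := G.oJ.filter (fun x => x.1 = v))
    (fun x => G.inn (x.2, x.1))
  have e2 := Finset.card_filter_add_card_filter_not (s := G.oJ.filter (fun x => x.2 = v))
    (fun x => G.inn (x.2, x.1))
  have k1 : ((G.oJ.filter (fun x => x.1 = v)).filter (fun x => G.inn (x.2, x.1))) =
      (G.iB.filter (fun x => x.2 = v)).image (fun x => (x.2, x.1)) := by
    ext ⟨a, b⟩
    simp only [Finset.mem_filter, Finset.mem_image, mem_oJ66]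
    constructor
    · rintro ⟨⟨⟨h1, h2, h3⟩, h4⟩, h5⟩
      exact ⟨(b, a), ⟨(mem_iB27 G).2 ⟨h5, h3⟩, h4⟩, rfl⟩
    · rintro ⟨⟨c, e⟩, ⟨h1, h2⟩, h3⟩
      obtain ⟨rfl, rfl⟩ := Prod.mk.inj h3
      have c1 := iB_con27 G h1
      have c2 := iB_D27 G h1
      obtain ⟨h4, h5⟩ := (mem_iB27 G).1 h1
      exact ⟨⟨⟨G.symm _ _ c2, G.csymm _ _ c1, h5⟩, h2⟩, h4⟩
  have k2 : ((G.oJ.filter (fun x => x.2 = v)).filter (fun x => G.inn (x.2, x.1))) =
      (G.iB.filter (fun x => x.1 = v)).image (fun x => (x.2, x.1)) := by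
    ext ⟨a, b⟩
    simp only [Finset.mem_filter, Finset.mem_image, mem_oJ66]
    constructor
    · rintro ⟨⟨⟨h1, h2, h3⟩, h4⟩, h5⟩
      exact ⟨(b, a), ⟨(mem_iB27 G).2 ⟨h5, h3⟩, h4⟩, rfl⟩
    · rintro ⟨⟨c, e⟩, ⟨h1, h2⟩, h3⟩
      obtain ⟨rfl, rfl⟩ := Prod.mk.inj h3
      have c1 := iB_con27 G h1
      have c2 := iB_D27 G h1
      obtain ⟨h4, h5⟩ := (mem_iB27 G).1 h1
      exact ⟨⟨⟨G.symm _ _ c2, G.csymm _ _ c1, h5⟩, h2⟩, h4⟩
  have k3 : ((G.oJ.filter (fun x => x.2 = v)).filter (fun x => ¬ G.inn (x.2, x.1))) =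
      ((G.oJ.filter (fun x => x.1 = v)).filter (fun x => ¬ G.inn (x.2, x.1))).image
        (fun x => (x.2, x.1)) := by
    ext ⟨a, b⟩
    simp only [Finset.mem_filter, Finset.mem_image, mem_oJ66]
    constructor
    · rintro ⟨⟨⟨h1, h2, h3⟩, h4⟩, h5⟩
      exact ⟨(b, a), ⟨⟨⟨G.symm _ _ h1, G.csymm _ _ h2, h5⟩, h4⟩, h3⟩, rfl⟩
    · rintro ⟨⟨c, e⟩, ⟨⟨⟨h1, h2, h3⟩, h4⟩, h5⟩, h6⟩
      obtain ⟨rfl, rfl⟩ := Prod.mk.inj h6
      exact ⟨⟨⟨G.symm _ _ h1, G.csymm _ _ h2, h5⟩, h4⟩, h3⟩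
  rw [k1, Finset.card_image_of_injective _ hsw] at e1
  rw [k2, k3, Finset.card_image_of_injective _ hsw, Finset.card_image_of_injective _ hsw,
    iB_bal27 G v] at e2
  omega

/-- at the head of an ear of a black face with outer sides there are two outer darts -/
theorem ear_two14 (hG : G.Geo4 al kp U) {c v : V} (hx : (c, v) ∈ G.oJ)
    (hn : nx G (c, v) ∈ G.oJ) (hr : rn G (c, v) ≤ 1) :
    2 ≤ (G.oJ.filter (fun x => x.1 = v)).card := by
  by_contra hlt
  have hle : (G.oJ.filter (fun x => x.1 = v)).card ≤ 1 := by omega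
  have hle2 : (G.oJ.filter (fun x => x.2 = v)).card ≤ 1 := by
    rw [← oJ_bal14 G v]
    exact hle
  obtain ⟨hx1, hx2, hx3⟩ := (mem_oJ66 G).1 hx
  dsimp only at hx2
  have hvP : v ∈ G.P := G.mem _ _ (G.symm _ _ hx1)
  have hvc : (v, c) ∈ G.D := G.symm _ _ hx1
  have hcv : G.con v c := G.csymm _ _ hx2
  have u1 : ∀ b, (v, b) ∈ G.D → G.con v b → b ≠ (nx G (c, v)).2 → G.inn (v, b) := by
    intro b h1 h2 h3
    by_contra h4
    have h5 : (v, b) ∈ G.oJ.filter (fun x => x.1 = v) :=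
      Finset.mem_filter.2 ⟨(mem_oJ66 G).2 ⟨h1, h2, h4⟩, rfl⟩
    have h6 : nx G (c, v) ∈ G.oJ.filter (fun x => x.1 = v) := Finset.mem_filter.2 ⟨hn, rfl⟩
    have h7 := Finset.card_le_one.1 hle _ h5 _ h6
    exact h3 (congrArg Prod.snd h7)
  have u2 : ∀ b, (v, b) ∈ G.D → G.con v b → b ≠ c → G.inn (b, v) := by
    intro b h1 h2 h3
    by_contra h4
    have h5 : (b, v) ∈ G.oJ.filter (fun x => x.2 = v) :=
      Finset.mem_filter.2 ⟨(mem_oJ66 G).2 ⟨G.symm _ _ h1, G.csymm _ _ h2, h4⟩, rfl⟩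
    have h6 : (c, v) ∈ G.oJ.filter (fun x => x.2 = v) := Finset.mem_filter.2 ⟨hx, rfl⟩
    have h7 := Finset.card_le_one.1 hle2 _ h5 _ h6
    exact h3 (congrArg Prod.fst h7)
  -- the clockwise successor of another neighbour is not `c`
  have hN : HasN G v c := hasN42 G hG hvc
  have hrn : rn G (c, v) = Nat.find hN := by
    unfold rn
    rw [dif_pos hN]
  have hnc : ∀ b, (v, b) ∈ G.D → G.con v b → b ≠ (nx G (c, v)).2 → b ≠ c →
      G.og v (G.bk v b) ≠ c := by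
    intro b h1 h2 h3 h4 h5
    have h6 := u2 b h1 h2 h4
    have e0 : (nx G (c, v)).2 = (G.ap v)^[Nat.find hN] c := nb_eq42 G hN
    rcases Nat.lt_or_ge (Nat.find hN) 1 with hf | hf
    · -- no triangle: `(v, c)` is the outer dart
      have hf0 : Nat.find hN = 0 := by omega
      rw [hf0, Function.iterate_zero, id_eq] at e0
      obtain ⟨h7, h8, _⟩ := W4.og71 G hG (inn_rot27 G h6)
      dsimp only at h7 h8
      have h9 : G.og v (G.ap b v) = c := h5
      rw [h9] at h8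
      have h10 := ((mem_oJ66 G).1 hn).2.2
      apply h10
      have : nx G (c, v) = (v, c) := Prod.ext rfl e0
      rw [this]
      exact h8
    · have hf1 : Nat.find hN = 1 := by omega
      rw [hf1, Function.iterate_one] at e0
      have htt : tt G (v, c) := run_tt42 G hN (i := 0) (by omega)
      have h7 : sg G (G.ap v c, v) = (v, c) := pv_tt42 G htt
      have h8 : sg G (b, v) = (v, c) := Prod.ext rfl h5
      have h9 : (G.ap v c, v) ∈ iJ G := (mem_iJ71 G).2 ⟨inn_tt89 G (tt_rot42' G htt),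
        (tt_rot42' G htt).2.1⟩
      have h10 : (b, v) ∈ iJ G := (mem_iJ71 G).2 ⟨h6, G.csymm _ _ h2⟩
      have h11 := W4.sg_inj51 G hG h10 h9 (h8.trans h7.symm)
      apply h3
      rw [e0]
      exact congrArg Prod.fst h11
  obtain ⟨X, hX⟩ : ∃ X : Finset V, ∀ b, b ∈ X ↔ (v, b) ∈ G.D ∧ G.con v b :=
    ⟨_, mem_img66 G v (fun b => G.con v b)⟩
  have hXc : 3 ≤ X.card := by
    refine le_trans (hG.deg v hvP) ?_
    refine Finset.card_le_card_of_injOn Prod.snd ?_ ?_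
    · rintro ⟨y1, y2⟩ hy
      rw [Finset.mem_coe, Finset.mem_filter] at hy
      obtain ⟨h1, h2, h3⟩ := hy
      dsimp only at h2 h3
      subst h2
      exact Finset.mem_coe.2 ((hX y2).2 ⟨h1, h3⟩)
    · rintro ⟨y1, y2⟩ hy ⟨z1, z2⟩ hz h
      rw [Finset.mem_coe, Finset.mem_filter] at hy hz
      exact Prod.ext (hy.2.1.trans hz.2.1.symm) h
  have hne : ((X.erase (nx G (c, v)).2).erase c).Nonempty := by
    rw [← Finset.card_pos]
    have h1 := Finset.pred_card_le_card_erase (s := X) (a := (nx G (c, v)).2)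
    have h2 := Finset.pred_card_le_card_erase (s := X.erase (nx G (c, v)).2) (a := c)
    omega
  have hYm : ∀ b, b ∈ (X.erase (nx G (c, v)).2).erase c ↔
      b ≠ c ∧ b ≠ (nx G (c, v)).2 ∧ (v, b) ∈ G.D ∧ G.con v b := by
    intro b
    rw [Finset.mem_erase, Finset.mem_erase, hX]
  obtain ⟨_, hall⟩ := closed14 G hG hvP ((X.erase (nx G (c, v)).2).erase c) hne
    (by
      intro b hb
      obtain ⟨h1, h2, h3, h4⟩ := (hYm b).1 hb
      exact ⟨h3, h4, u1 b h3 h4 h2, u2 b h3 h4 h1⟩)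
    (by
      intro b hb
      obtain ⟨h1, h2, h3, h4⟩ := (hYm b).1 hb
      have h6 := u2 b h3 h4 h1
      obtain ⟨h7, h8, _⟩ := W4.og71 G hG (inn_rot27 G h6)
      dsimp only at h7 h8
      refine (hYm _).2 ⟨hnc b h3 h4 h2 h1, ?_, G.sub h8.1, h7⟩
      intro h9
      have h10 := ((mem_oJ66 G).1 hn).2.2
      apply h10
      have h11 : nx G (c, v) = (v, (nx G (c, v)).2) := rfl
      rw [h11, ← h9]
      exact h8)
  exact ((hYm c).1 (hall c hvc hcv)).1 rfl

end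

end Pool.Agent.PEN.E5
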