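import Pool.Agent.E5.Nr69
import Pool.Agent.E5.Sb69
import Pool.Agent.E5.N860_51
import Pool.Agent.E5.Cr89b
import Pool.Agent.E5.Bs14
import Pool.Agent.E5.T7_71

/-! # PENNY, version 7: Q1 for at most 860 points and for `d ≥ 3 / 20` from the result row of
set B6; the frame for all `d` and all `n` -/

set_option autoImplicit false

namespace Pool.Agent.PEN.E5

open Classical UpperHalfPlane
open Pool.Agent.PEN.Cl

noncomputable section

/-- the numerics of the row of set B6 for at most 860 points, every `d < 0.356` -/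
theorem hN_71 {d : ℝ} (hd : 0 < d) (hd2 : d < 89 / 250) (G : Tg ℍ)
    (hG : G.Geo4 (alpha d) kap (Ust69 d)) (hD : DelG G d) (hH : HullT G) (hS : Sep d G.P)
    (hn : 98 ≤ G.P.card) (hn2 : G.P.card ≤ 860) (hR : Row14 G (alpha d)) :
    (G.D.filter (fun x => G.con x.1 x.2)).card ≤ 2 * Lb G.P.card := by
  rcases le_or_gt (3 / 20) d with h | h
  · exact hU69 hd h hd2 G hG hD hH hS hn hR
  · refine darts_860_51 hd h.le hG hn hn2 (Nat.cast_nonneg (G.shp (alpha d)).card)
      (shp_bound69 hG hD hH hS) ?_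
    have h1 : 7 * ((G.P.card : ℝ) - G.oJ.card) + 4 * (G.oJ.card + (inN G).card - G.P.card) + 6 +
      3 * sE G ≤ 6 * G.iI.card + 11 * cor G (alpha d) + (G.shp (alpha d)).card := hR
    linarith

/-- **version 7** from the row of set B6 -/
theorem q1_v7_71
    (hrow : ∀ d : ℝ, 0 < d → d < 89 / 250 → ∀ G : Tg ℍ, G.Geo4 (alpha d) kap (Ust69 d) →
      DelG G d → HullT G → Sep d G.P → 98 ≤ G.P.card → Row14 G (alpha d))
    {e d : ℝ} (he : 0 < e) (ha : alpha e = 2 * Real.pi / 7) (hd : 0 < d) {n : ℕ}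
    (h : n ≤ 860 ∨ 3 / 20 ≤ d) : eD d n ≤ eD e n :=
  q1_v7_of71 (fun d G => Row14 G (alpha d)) 860 (3 / 20) hrow
    (fun _ hd hd2 G hG hD hH hS h1 h2 hR => hN_71 hd hd2 G hG hD hH hS h1 h2 hR)
    (fun _ hd h1 hd2 G hG hD hH hS h2 hR => hU69 hd h1 hd2 G hG hD hH hS h2 hR)
    he ha hd h

/-- **all diameters, all numbers of points**, from the row of set B6 for the configurations with
`98` to `860` points or `d ≥ 3 / 20`, and the bound with four layers for more points at `d < 3 / 20` -/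
theorem q1_fin_71
    (hrow : ∀ d : ℝ, 0 < d → d < 89 / 250 → ∀ G : Tg ℍ, G.Geo4 (alpha d) kap (Ust69 d) →
      DelG G d → HullT G → Sep d G.P → 98 ≤ G.P.card → Row14 G (alpha d))
    (hT : ∀ d : ℝ, 0 < d → d < 3 / 20 → ∀ G : Tg ℍ, G.Geo4 (alpha d) kap (Ust69 d) →
      DelG G d → HullT G → Sep d G.P → 861 ≤ G.P.card →
      (G.D.filter (fun x => G.con x.1 x.2)).card ≤ 2 * Lb85 G.P.card)
    {e d : ℝ} (he : 0 < e) (ha : alpha e = 2 * Real.pi / 7) (hd : 0 < d) (n : ℕ) :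
    eD d n ≤ eD e n :=
  q1_all85_71 860 (3 / 20)
    (fun d hd _ hd2 G hG hD hH hS h1 h2 =>
      hN_71 hd hd2 G hG hD hH hS h1 h2 (hrow d hd hd2 G hG hD hH hS h1))
    (fun d hd h _ G hG hD hH hS h2 => hT d hd h G hG hD hH hS h2)
    (fun d hd h hd2 G hG hD hH hS h2 => hU69 hd h hd2 G hG hD hH hS h2
      (hrow d hd hd2 G hG hD hH hS h2))
    he ha hd n

end

end Pool.Agent.PEN.E5
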