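import Pool.Agent.E5.Vs39

/-! # PENNY, all small diameters: the vertex table of the parameter set `(1, 1, 6)` with weights up to 2 -/

set_option autoImplicit false

namespace Pool.Agent.PEN.E5

open Classical UpperHalfPlane
open Pool.Agent.PEN.Cl

noncomputable section

variable {V : Type} (G : Tg V) {al : ℝ} {kp : V → V → ℝ} {U : ℕ → ℝ}

/-- weights of the sectors against the served ones -/
theorem sum_yy39 {yy : V × V → ℝ} {v : V} (h0 : ∀ s ∈ Sv G v, 0 ≤ yy s) :
    ∑ s ∈ Sv G v, yy s * Ds G al s ≤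
      ∑ s ∈ (Sv G v).filter (fun s => 0 ≤ Ds G al s), yy s * Ds G al s := by
  rw [← Finset.sum_filter_add_sum_filter_not (Sv G v) (fun s => 0 ≤ Ds G al s)]
  have e2 : ∑ s ∈ (Sv G v).filter (fun s => ¬ 0 ≤ Ds G al s), yy s * Ds G al s ≤ 0 :=
    Finset.sum_nonpos fun s hs => mul_nonpos_of_nonneg_of_nonpos (h0 s (Finset.mem_filter.1 hs).1)
      (not_le.1 (Finset.mem_filter.1 hs).2).le
  linarith

/-- **`k = 2`, three big corners**: the units not used by big corners pay for the weights above 1 -/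
theorem vertexBc39 (hG : G.Geo4 al kp U) (h1 : ∀ x ∈ iJ G, gc G al x ≤ 1) {yy : V × V → ℝ}
    {v : V} (hv : v ∈ inN G) (hu : uv G al v = 8) (hc : cv G v = 3)
    (h0 : ∀ s ∈ Sv G v, 0 ≤ yy s) (h2 : ∀ s ∈ Sv G v, yy s ≤ 2) :
    ∑ s ∈ (Sv G v).filter (fun s => 0 ≤ Ds G al s), max (4 - (rn G s : ℝ)) 0 +
        ∑ s ∈ Sv G v, yy s * Ds G al s ≤
      13 * (kv G al v - 1) - (8 - (ub15 G al v : ℝ)) +
        ((Sv G v).filter (fun s => 1 < yy s)).card := by
  have a1 := vertex39 G hG h1 (θ := 1) (y := 1) (Λ := 6) (by norm_num) (by norm_num)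
    (by norm_num) hv hu.ge
  rw [if_pos ⟨hu, hc⟩, Finset.sum_add_distrib] at a1
  have e1 : ∀ s, max (2 + 2 * 1 - 1 * (rn G s : ℝ)) 0 = max (4 - (rn G s : ℝ)) 0 := fun s => by
    norm_num
  rw [Finset.sum_congr rfl fun s _ => e1 s] at a1
  have a2 := sum_yy39 G (al := al) h0
  have a3 : ∑ s ∈ (Sv G v).filter (fun s => 0 ≤ Ds G al s), yy s * Ds G al s ≤
      ∑ s ∈ (Sv G v).filter (fun s => 0 ≤ Ds G al s), (1 * Ds G al s +
        if 1 < yy s then (1 : ℝ) else 0) := by
    refine Finset.sum_le_sum fun s hs => ?_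
    obtain ⟨hs1, hs2⟩ := Finset.mem_filter.1 hs
    have hD := Ds_le_one39 G hG h1 hv hs1
    have b2 := h2 s hs1
    split_ifs with h
    · nlinarith [mul_nonneg (sub_nonneg.2 b2) hs2]
    · push Not at h
      rw [add_zero]
      exact mul_le_mul_of_nonneg_right h hs2
  rw [Finset.sum_add_distrib] at a3
  have a4 : ∑ s ∈ (Sv G v).filter (fun s => 0 ≤ Ds G al s), (if 1 < yy s then (1 : ℝ) else 0) ≤
      ((Sv G v).filter (fun s => 1 < yy s)).card := by
    have b1 : ∑ s ∈ (Sv G v).filter (fun s => 0 ≤ Ds G al s), (if 1 < yy s then (1 : ℝ) else 0) ≤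
        ∑ s ∈ Sv G v, (if 1 < yy s then (1 : ℝ) else 0) :=
      Finset.sum_le_sum_of_subset_of_nonneg (Finset.filter_subset _ _) fun s _ _ => by
        split_ifs
        · norm_num
        · exact le_refl 0
    have b2 : ∑ s ∈ Sv G v, (if 1 < yy s then (1 : ℝ) else 0) =
        ((Sv G v).filter (fun s => 1 < yy s)).card := by
      rw [← Finset.sum_filter, Finset.sum_const, nsmul_eq_mul, mul_one]
    rw [b2] at b1
    exact b1
  linarith

/-- **vertex table** of the set `(1, 1, 6)`: weights up to 2 outside digons -/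
theorem vertexB39 (hG : G.Geo4 al kp U) (h1 : ∀ x ∈ iJ G, gc G al x ≤ 1) {yy : V × V → ℝ}
    {v : V} (hv : v ∈ inN G) (h8 : 8 ≤ uv G al v) (h0 : ∀ s ∈ Sv G v, 0 ≤ yy s)
    (h2 : ∀ s ∈ Sv G v, yy s ≤ 2) (hr : ∀ s ∈ Sv G v, rn G s = 0 → yy s ≤ 1) :
    ∑ s ∈ (Sv G v).filter (fun s => 0 ≤ Ds G al s), max (4 - (rn G s : ℝ)) 0 +
        ∑ s ∈ Sv G v, yy s * Ds G al s ≤ 13 * (kv G al v - 1) := by
  by_cases hx : uv G al v = 8 ∧ cv G v = 3
  · have a1 := vertexBc39 G hG h1 hv hx.1 hx.2 h0 h2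
    have a2 : (((Sv G v).filter (fun s => 1 < yy s)).card : ℝ) ≤ 8 - (ub15 G al v : ℝ) := by
      have b1 : ((Sv G v).filter (fun s => 1 < yy s)).card ≤ ∑ s ∈ Sv G v, rn G s := by
        rw [Finset.card_eq_sum_ones]
        refine (Finset.sum_le_sum (g := fun s => rn G s) fun s hs => ?_).trans
          (Finset.sum_le_sum_of_subset (Finset.filter_subset _ _))
        obtain ⟨hs1, hs2⟩ := Finset.mem_filter.1 hs
        by_contra h
        have h3 := hr s hs1 (by omega)
        linarith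
      have b2 := uv_split62 G hG (al := al) v
      rw [hx.1] at b2
      have b3 : ((∑ s ∈ Sv G v, rn G s : ℕ) : ℝ) + (ub15 G al v : ℝ) = 8 := by
        unfold ub15
        exact_mod_cast b2
      have b4 : (((Sv G v).filter (fun s => 1 < yy s)).card : ℝ) ≤
          ((∑ s ∈ Sv G v, rn G s : ℕ) : ℝ) := by exact_mod_cast b1
      linarith
    linarith
  · have a1 := vertex39 G hG h1 (θ := 1) (y := 2) (Λ := 6) (by norm_num) (by norm_num)
      (by norm_num) hv h8
    rw [if_neg hx, Finset.sum_add_distrib, add_zero] at a1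
    have e1 : ∀ s, max (2 + 2 * 1 - 1 * (rn G s : ℝ)) 0 = max (4 - (rn G s : ℝ)) 0 := fun s => by
      norm_num
    rw [Finset.sum_congr rfl fun s _ => e1 s] at a1
    have a2 := sum_yy39 G (al := al) h0
    have a3 : ∑ s ∈ (Sv G v).filter (fun s => 0 ≤ Ds G al s), yy s * Ds G al s ≤
        ∑ s ∈ (Sv G v).filter (fun s => 0 ≤ Ds G al s), 2 * Ds G al s :=
      Finset.sum_le_sum fun s hs => mul_le_mul_of_nonneg_right (h2 s (Finset.mem_filter.1 hs).1)
        (Finset.mem_filter.1 hs).2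
    norm_num at a1
    linarith

end

end Pool.Agent.PEN.E5
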