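import Pool.Agent.E5.Vb39

/-! # PENNY, all small diameters: the vertex table of the set `(1, 1, 6)` with the curvature credit -/

set_option autoImplicit false

namespace Pool.Agent.PEN.E5

open Classical UpperHalfPlane
open Pool.Agent.PEN.Cl

noncomputable section

variable {V : Type} (G : Tg V) {al : ℝ} {kp : V → V → ℝ} {U : ℕ → ℝ}

/-- weights at least 1: the uniform part exactly, the rest only at nonnegative sectors -/
theorem sum_yyD39 (hG : G.Geo4 al kp U) (h1 : ∀ x ∈ iJ G, gc G al x ≤ 1) {yy : V × V → ℝ}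
    {v : V} (hv : v ∈ inN G) (hy1 : ∀ s ∈ Sv G v, 1 ≤ yy s) (hy2 : ∀ s ∈ Sv G v, yy s ≤ 2) :
    ∑ s ∈ Sv G v, yy s * Ds G al s ≤ (2 * (kv G al v - ep al) - cv G v) +
      ((Sv G v).filter (fun s => 0 ≤ Ds G al s ∧ 1 < yy s)).card := by
  have e1 : ∑ s ∈ Sv G v, yy s * Ds G al s =
      ∑ s ∈ Sv G v, Ds G al s + ∑ s ∈ Sv G v, (yy s - 1) * Ds G al s := by
    rw [← Finset.sum_add_distrib]
    exact Finset.sum_congr rfl fun s _ => by ring
  rw [e1, sum_Dsv39 G hG hv]
  have e2 : ∑ s ∈ Sv G v, (yy s - 1) * Ds G al s ≤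
      ∑ s ∈ Sv G v, (if 0 ≤ Ds G al s ∧ 1 < yy s then (1 : ℝ) else 0) := by
    refine Finset.sum_le_sum fun s hs => ?_
    have hD := Ds_le_one39 G hG h1 hv hs
    have b1 := hy1 s hs
    have b2 := hy2 s hs
    split_ifs with h
    · nlinarith [mul_nonneg (sub_nonneg.2 b2) h.1, mul_nonneg (sub_nonneg.2 b1) h.1]
    · rcases lt_or_ge (Ds G al s) 0 with h3 | h3
      · exact mul_nonpos_of_nonneg_of_nonpos (by linarith) h3.le
      · have h4 : yy s ≤ 1 := by
          by_contra h5
          exact h ⟨h3, not_le.1 h5⟩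
        have h5 : yy s - 1 = 0 := by linarith
        rw [h5, zero_mul]
  rw [← Finset.sum_filter, Finset.sum_const, nsmul_eq_mul, mul_one] at e2
  linarith

/-- **vertex table of `(1, 1, 6)`**, weights `1 ≤ yy ≤ 2`, `yy = 1` on digons, with the credit
`2 ep` -/
theorem vertexE39 (hG : G.Geo4 al kp U) (h1 : ∀ x ∈ iJ G, gc G al x ≤ 1) {yy : V × V → ℝ}
    {v : V} (hv : v ∈ inN G) (h8 : 8 ≤ uv G al v) (hy1 : ∀ s ∈ Sv G v, 1 ≤ yy s)
    (hy2 : ∀ s ∈ Sv G v, yy s ≤ 2) (hr : ∀ s ∈ Sv G v, rn G s = 0 → yy s ≤ 1) :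
    ∑ s ∈ (Sv G v).filter (fun s => 0 ≤ Ds G al s), max (4 - (rn G s : ℝ)) 0 +
        ∑ s ∈ Sv G v, yy s * Ds G al s ≤ 13 * (kv G al v - 1) - 2 * ep al := by
  have a0 := sum_yyD39 G hG h1 hv hy1 hy2
  have hcS := card_Sv62 G hG hv
  have hus := two_cv_le15 G (al := al) v
  have hspl := uv_split62 G hG (al := al) v
  have hcu : 2 * cv G v ≤ uv G al v := by
    unfold ub15 at hus
    omega
  have hk := kv_eq89 G (al := al) v
  set P := (Sv G v).filter (fun s => 0 ≤ Ds G al s) with hPd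
  have hPc : P.card ≤ cv G v := by
    rw [← hcS]
    exact Finset.card_le_card (Finset.filter_subset _ _)
  have hQ : ((Sv G v).filter (fun s => 0 ≤ Ds G al s ∧ 1 < yy s)).card ≤ P.card := by
    refine Finset.card_le_card fun s hs => ?_
    rw [Finset.mem_filter] at hs
    exact Finset.mem_filter.2 ⟨hs.1, hs.2.1⟩
  have crude : ∑ s ∈ P, max (4 - (rn G s : ℝ)) 0 ≤ P.card * 4 := by
    rw [← nsmul_eq_mul]
    refine Finset.sum_le_card_nsmul _ _ _ fun s _ => ?_
    have : (0 : ℝ) ≤ rn G s := Nat.cast_nonneg _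
    exact max_le (by linarith) (by norm_num)
  have hQ' : (((Sv G v).filter (fun s => 0 ≤ Ds G al s ∧ 1 < yy s)).card : ℝ) ≤ P.card := by
    exact_mod_cast hQ
  have hPc' : (P.card : ℝ) ≤ cv G v := by exact_mod_cast hPc
  rcases Nat.lt_or_ge 8 (uv G al v) with h9 | h9
  · have h9' : (9 : ℝ) ≤ uv G al v := by exact_mod_cast h9
    have hcu' : 2 * (cv G v : ℝ) ≤ uv G al v := by exact_mod_cast hcu
    rw [hk] at a0 ⊢
    linarith
  · have hu8 : uv G al v = 8 := le_antisymm h9 h8
    have hk2 : kv G al v = 2 := by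
      rw [hk, hu8]
      norm_num
    have hc4 : cv G v ≤ 4 := by omega
    have hc1 : 1 < cv G v := by
      have := cv_pos15 G hG hv
      by_contra hno
      have := leaf_uv39 G hG h1 hv (by omega)
      omega
    have hc' : cv G v = 2 ∨ cv G v = 3 ∨ cv G v = 4 := by omega
    rcases hc' with hc | hc | hc
    · rw [hk2, hc] at a0
      rw [hc] at hPc'
      rw [hk2]
      push_cast at a0 hPc'
      linarith
    · -- three big corners
      have a1 := vertex15 G hG (θ := 1) (y := 1) (Λ := 6) (by norm_num) (by norm_num)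
        (by norm_num) (by norm_num) (by norm_num) (by norm_num) (by norm_num) hv h8
      rw [if_pos ⟨hu8, hc⟩, hk2, hc] at a1
      have e1 : ∀ s, max (2 + 2 * 1 - 1 * (rn G s : ℝ)) 0 = max (4 - (rn G s : ℝ)) 0 := fun s => by
        norm_num
      rw [Finset.sum_congr rfl fun s _ => e1 s] at a1
      have a2 : (((Sv G v).filter (fun s => 0 ≤ Ds G al s ∧ 1 < yy s)).card : ℝ) ≤
          8 - (ub15 G al v : ℝ) := by
        have b1 : ((Sv G v).filter (fun s => 0 ≤ Ds G al s ∧ 1 < yy s)).card ≤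
            ∑ s ∈ Sv G v, rn G s := by
          rw [Finset.card_eq_sum_ones]
          refine (Finset.sum_le_sum (g := fun s => rn G s) fun s hs => ?_).trans
            (Finset.sum_le_sum_of_subset (Finset.filter_subset _ _))
          obtain ⟨hs1, _, hs2⟩ := Finset.mem_filter.1 hs
          by_contra h
          have h3 := hr s hs1 (by omega)
          linarith
        rw [hu8] at hspl
        have b3 : ((∑ s ∈ Sv G v, rn G s : ℕ) : ℝ) + (ub15 G al v : ℝ) = 8 := by
          unfold ub15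
          exact_mod_cast hspl
        have b4 : (((Sv G v).filter (fun s => 0 ≤ Ds G al s ∧ 1 < yy s)).card : ℝ) ≤
            ((∑ s ∈ Sv G v, rn G s : ℕ) : ℝ) := by exact_mod_cast b1
        linarith
      rw [hk2, hc] at a0
      rw [hk2]
      push_cast at a0 a1
      linarith
    · have h4 := two_of_four15 G hG hv hu8 hc
      have h4' : (P.card : ℝ) ≤ 2 := by exact_mod_cast h4
      rw [hk2, hc] at a0
      rw [hk2]
      push_cast at a0
      linarith

end

end Pool.Agent.PEN.E5
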