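import Pool.Agent.E5.Vc39
import Pool.Agent.E5.Asm15

/-! # PENNY, all small diameters: the vertex row of the set `T(55/13)`

`θ = 14/13`, `y = 16/13`, `Λ = 55/13`, all amounts in units `1/13`. -/

set_option autoImplicit false

namespace Pool.Agent.PEN.E5

open Classical UpperHalfPlane
open Pool.Agent.PEN.Cl

noncomputable section

variable {V : Type} (G : Tg V) {al : ℝ} {kp : V → V → ℝ} {U : ℕ → ℝ}

/-- the prices paid at a point, in units `1/13` -/
def pv69 (al : ℝ) (v : V) : ℝ :=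
  ∑ s ∈ (Sv G v).filter (fun s => 0 ≤ Ds G al s), max (54 - 14 * (rn G s : ℝ)) 0

/-- the slack of a point with `k ≥ 2`, in units `1/13` -/
def sv69 (al : ℝ) (v : V) : ℝ :=
  118 * (uv G al v : ℝ) - 858 + 16 * cv G v - pv69 G al v

theorem max69 (r : ℝ) : 13 * max (2 + 2 * (14 / 13 : ℝ) - 14 / 13 * r) 0 = max (54 - 14 * r) 0 := by
  rw [mul_max_of_nonneg _ _ (by norm_num : (0:ℝ) ≤ 13), mul_zero]
  congr 1
  ring

theorem price69 (v : V) : 13 * ∑ s ∈ (Sv G v).filter (fun s => 0 ≤ Ds G al s),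
    max (2 + 2 * (14 / 13 : ℝ) - 14 / 13 * (rn G s : ℝ)) 0 = pv69 G al v := by
  unfold pv69
  rw [Finset.mul_sum]
  exact Finset.sum_congr rfl fun s _ => max69 _

/-- **the exact vertex row** (any inner point) -/
theorem vrow69 (hG : G.Geo4 al kp U) {v : V} (hv : v ∈ inN G) :
    13 * (∑ s ∈ (Sv G v).filter (fun s => 0 ≤ Ds G al s),
        max (2 + 2 * (14 / 13 : ℝ) - 14 / 13 * (rn G s : ℝ)) 0 +
      ∑ s ∈ Sv G v, (16 / 13 : ℝ) * Ds G al s) + sv69 G al v =
      150 * (kv G al v - 1) - 32 * ep al := by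
  rw [mul_add, price69, ← Finset.mul_sum, sum_Dsv39 G hG hv, kv_eq89]
  unfold sv69
  ring

/-- the slack of the frame -/
theorem sl69 (hG : G.Geo4 al kp U) {v : V} (hv : v ∈ inN G) :
    13 * (2 * (16 / 13 : ℝ) * ep al - sl G al (14 / 13) (55 / 13) (fun _ => 16 / 13) v) =
      - sv69 G al v := by
  have h := vrow69 G hG hv
  unfold sl
  linarith

/-- two or three big corners at `k = 1`: exact -/
theorem seven69 (hG : G.Geo4 al kp U) {v : V} (hv : v ∈ inN G) (h7 : uv G al v = 7) :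
    13 * (∑ s ∈ Sv G v, (16 / 13 : ℝ) * Ds G al s + 2 * (16 / 13 : ℝ) * ep al) =
      - (16 * ((cv G v : ℝ) - 2)) := by
  rw [← Finset.mul_sum, sum_Dsv39 G hG hv, kv_eq89, h7]
  push_cast
  ring

/-- prices by the number of payers -/
theorem pv_le69 (v : V) :
    pv69 G al v ≤ 54 * ((Sv G v).filter (fun s => 0 ≤ Ds G al s)).card := by
  unfold pv69
  rw [mul_comm, ← nsmul_eq_mul]
  refine Finset.sum_le_card_nsmul _ _ _ fun s _ => ?_
  have : (0 : ℝ) ≤ rn G s := Nat.cast_nonneg _
  exact max_le (by linarith) (by norm_num)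

/-- prices by the number of payers, with one payer with a triangle -/
theorem pv_le69' {v : V} {s : V × V} (hs : s ∈ Sv G v) (hD : 0 ≤ Ds G al s) (hr : rn G s ≠ 0) :
    pv69 G al v + 14 ≤ 54 * ((Sv G v).filter (fun s => 0 ≤ Ds G al s)).card := by
  set P := (Sv G v).filter (fun s => 0 ≤ Ds G al s) with hP
  have hsP : s ∈ P := Finset.mem_filter.2 ⟨hs, hD⟩
  have e1 : pv69 G al v = ∑ x ∈ P.erase s, max (54 - 14 * (rn G x : ℝ)) 0 +
      max (54 - 14 * (rn G s : ℝ)) 0 := by
    unfold pv69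
    rw [← hP, Finset.sum_erase_add _ _ hsP]
  have e2 : ∑ x ∈ P.erase s, max (54 - 14 * (rn G x : ℝ)) 0 ≤ ((P.erase s).card : ℝ) * 54 := by
    rw [← nsmul_eq_mul]
    refine Finset.sum_le_card_nsmul _ _ _ fun x _ => ?_
    have : (0 : ℝ) ≤ rn G x := Nat.cast_nonneg _
    exact max_le (by linarith) (by norm_num)
  have e3 : max (54 - 14 * (rn G s : ℝ)) 0 ≤ 40 := by
    have : (1 : ℝ) ≤ rn G s := by exact_mod_cast Nat.one_le_iff_ne_zero.2 hr
    exact max_le (by linarith) (by norm_num)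
  have e4 : ((P.erase s).card : ℝ) + 1 = P.card := by
    exact_mod_cast Finset.card_erase_add_one hsP
  linarith

/-- **a tight point**: the slack is exactly `- 14` for each unit above two of a big corner -/
theorem tight69 (hG : G.Geo4 al kp U) {v : V} (hv : v ∈ inN G) (ht : Ti39 G al v) :
    sv69 G al v = - (14 * ∑ x ∈ Bv G v, ((un G al x : ℝ) - 2)) := by
  obtain ⟨hu, hc, hD⟩ := ht
  have hall : (Sv G v).filter (fun s => 0 ≤ Ds G al s) = Sv G v := Finset.filter_true_of_mem hD
  have h1 := price_eq15 G hG (θ := 14 / 13) (by norm_num) hu hc (Finset.Subset.refl (Sv G v))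
  have h2 := price69 G (al := al) v
  rw [hall, h1, card_Sv62 G hG hv, hc] at h2
  have hspl := uv_split62 G hG (al := al) v
  have h10 : (∑ s ∈ Sv G v, (rn G s : ℝ)) + ∑ x ∈ Bv G v, (un G al x : ℝ) = 8 := by
    rw [hu] at hspl
    exact_mod_cast hspl
  have h11 : ((Bv G v).card : ℝ) = 3 := by
    have : (Bv G v).card = cv G v := rfl
    rw [this, hc]
    norm_num
  rw [Finset.sum_sub_distrib, Finset.sum_const, nsmul_eq_mul, h11]
  unfold sv69
  rw [← h2, hu, hc]
  push_cast
  linarith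

theorem two_cv69 (hG : G.Geo4 al kp U) (v : V) : 2 * cv G v ≤ uv G al v := by
  have h1 := uv_split62 G hG (al := al) v
  have h2 := two_cv_le15 G (al := al) v
  unfold ub15 at h2
  omega

theorem cardP69 (hG : G.Geo4 al kp U) {v : V} (hv : v ∈ inN G) :
    ((Sv G v).filter (fun s => 0 ≤ Ds G al s)).card ≤ cv G v := by
  rw [← card_Sv62 G hG hv]
  exact Finset.card_filter_le _ _

/-- `k ≥ 3`: thirteen for every big corner and 52 in all -/
theorem big69 (hG : G.Geo4 al kp U) {v : V} (hv : v ∈ inN G) (h9 : 9 ≤ uv G al v) :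
    13 * (cv G v : ℝ) ≤ sv69 G al v ∧ 52 ≤ sv69 G al v := by
  have h1 := pv_le69 G (al := al) v
  have h2 := cardP69 G hG (al := al) hv
  have h3 := two_cv69 G hG (al := al) v
  have h4 : 54 * ((Sv G v).filter (fun s => 0 ≤ Ds G al s)).card + 858 + 13 * cv G v ≤
      118 * uv G al v + 16 * cv G v := by omega
  have h5 : 54 * ((Sv G v).filter (fun s => 0 ≤ Ds G al s)).card + 858 + 52 ≤
      118 * uv G al v + 16 * cv G v := by omega
  have h4' : 54 * (((Sv G v).filter (fun s => 0 ≤ Ds G al s)).card : ℝ) + 858 + 13 * cv G v ≤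
      118 * uv G al v + 16 * cv G v := by exact_mod_cast h4
  have h5' : 54 * (((Sv G v).filter (fun s => 0 ≤ Ds G al s)).card : ℝ) + 858 + 52 ≤
      118 * uv G al v + 16 * cv G v := by exact_mod_cast h5
  unfold sv69
  constructor <;> linarith

/-- `k = 2`, four big corners -/
theorem four69 (hG : G.Geo4 al kp U) {v : V} (hv : v ∈ inN G) (hu : uv G al v = 8)
    (hc : cv G v = 4) :
    42 + 54 * (2 - (((Sv G v).filter (fun s => 0 ≤ Ds G al s)).card : ℝ)) ≤ sv69 G al v ∧
      42 ≤ sv69 G al v := by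
  have h1 := pv_le69 G (al := al) v
  have h2 := two_of_four15 G hG hv hu hc
  have h2' : (((Sv G v).filter (fun s => 0 ≤ Ds G al s)).card : ℝ) ≤ 2 := by exact_mod_cast h2
  unfold sv69
  rw [hu, hc]
  push_cast
  constructor <;> linarith

/-- `k = 2`, two big corners -/
theorem two69 (hG : G.Geo4 al kp U) {v : V} (hv : v ∈ inN G) (hu : uv G al v = 8)
    (hc : cv G v = 2) : 10 ≤ sv69 G al v ∧
      ((∃ s ∈ Sv G v, rn G s ≠ 0) → 24 ≤ sv69 G al v) ∧
      ((∃ s ∈ Sv G v, Ds G al s < 0) → 64 ≤ sv69 G al v) := by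
  have h1 := pv_le69 G (al := al) v
  have h2 := cardP69 G hG (al := al) hv
  rw [hc] at h2
  have h2' : (((Sv G v).filter (fun s => 0 ≤ Ds G al s)).card : ℝ) ≤ 2 := by exact_mod_cast h2
  have h3 : (∃ s ∈ Sv G v, Ds G al s < 0) → 64 ≤ sv69 G al v := by
    rintro ⟨s, hs, hD⟩
    have h4 : ((Sv G v).filter (fun s => 0 ≤ Ds G al s)).card < (Sv G v).card :=
      Finset.card_lt_card (Finset.filter_ssubset.2 ⟨s, hs, not_le.2 hD⟩)
    rw [card_Sv62 G hG hv, hc] at h4
    have h5 : (((Sv G v).filter (fun s => 0 ≤ Ds G al s)).card : ℝ) ≤ 1 := by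
      exact_mod_cast Nat.lt_succ_iff.1 h4
    unfold sv69
    rw [hu, hc]
    push_cast
    linarith
  refine ⟨?_, ?_, h3⟩
  · unfold sv69
    rw [hu, hc]
    push_cast
    linarith
  · rintro ⟨s, hs, hr⟩
    by_cases hD : 0 ≤ Ds G al s
    · have h5 := pv_le69' G hs hD hr
      unfold sv69
      rw [hu, hc]
      push_cast
      linarith
    · have := h3 ⟨s, hs, not_le.1 hD⟩
      linarith

/-- `k = 2`, three big corners, a negative sector -/
theorem three69 (hG : G.Geo4 al kp U) {v : V} (hv : v ∈ inN G) (hu : uv G al v = 8)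
    (hc : cv G v = 3) (ht : ¬ Ti39 G al v) : 26 ≤ sv69 G al v ∧
      ((∃ s ∈ Sv G v, 0 ≤ Ds G al s ∧ rn G s ≠ 0) → 40 ≤ sv69 G al v) ∧
      (((Sv G v).filter (fun s => 0 ≤ Ds G al s)).card ≤ 1 → 80 ≤ sv69 G al v) := by
  have h1 := pv_le69 G (al := al) v
  have hneg : ∃ s ∈ Sv G v, Ds G al s < 0 := by
    by_contra hno
    push Not at hno
    exact ht ⟨hu, hc, hno⟩
  obtain ⟨n, hn, hD⟩ := hneg
  have h4 : ((Sv G v).filter (fun s => 0 ≤ Ds G al s)).card < (Sv G v).card :=
    Finset.card_lt_card (Finset.filter_ssubset.2 ⟨n, hn, not_le.2 hD⟩)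
  rw [card_Sv62 G hG hv, hc] at h4
  have h5 : (((Sv G v).filter (fun s => 0 ≤ Ds G al s)).card : ℝ) ≤ 2 := by
    exact_mod_cast Nat.lt_succ_iff.1 h4
  refine ⟨?_, ?_, ?_⟩
  · unfold sv69
    rw [hu, hc]
    push_cast
    linarith
  · rintro ⟨s, hs, hD2, hr⟩
    have h6 := pv_le69' G hs hD2 hr
    unfold sv69
    rw [hu, hc]
    push_cast
    linarith
  · intro h6
    have h6' : (((Sv G v).filter (fun s => 0 ≤ Ds G al s)).card : ℝ) ≤ 1 := by exact_mod_cast h6
    unfold sv69
    rw [hu, hc]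
    push_cast
    linarith

/-- `k = 2`, a single big corner -/
theorem one69 (hG : G.Geo4 al kp U) {v : V} (hv : v ∈ inN G) (hu : uv G al v = 8)
    (hc : cv G v = 1) : 48 ≤ sv69 G al v := by
  have h1 := pv_le69 G (al := al) v
  have h2 := cardP69 G hG (al := al) hv
  rw [hc] at h2
  have h2' : (((Sv G v).filter (fun s => 0 ≤ Ds G al s)).card : ℝ) ≤ 1 := by exact_mod_cast h2
  unfold sv69
  rw [hu, hc]
  push_cast
  linarith

/-- `k ≥ 4` -/
theorem ten69 (hG : G.Geo4 al kp U) {v : V} (hv : v ∈ inN G) (h10 : 10 ≤ uv G al v) :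
    132 ≤ sv69 G al v ∧ 26 * (cv G v : ℝ) ≤ sv69 G al v := by
  have h1 := pv_le69 G (al := al) v
  have h2 := cardP69 G hG (al := al) hv
  have h3 := two_cv69 G hG (al := al) v
  have h4 : 54 * ((Sv G v).filter (fun s => 0 ≤ Ds G al s)).card + 858 + 26 * cv G v ≤
      118 * uv G al v + 16 * cv G v := by omega
  have h5 : 54 * ((Sv G v).filter (fun s => 0 ≤ Ds G al s)).card + 858 + 132 ≤
      118 * uv G al v + 16 * cv G v := by omega
  have h4' : 54 * (((Sv G v).filter (fun s => 0 ≤ Ds G al s)).card : ℝ) + 858 + 26 * cv G v ≤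
      118 * uv G al v + 16 * cv G v := by exact_mod_cast h4
  have h5' : 54 * (((Sv G v).filter (fun s => 0 ≤ Ds G al s)).card : ℝ) + 858 + 132 ≤
      118 * uv G al v + 16 * cv G v := by exact_mod_cast h5
  unfold sv69
  constructor <;> linarith

/-- `k = 2`, three big corners, with the triangles -/
theorem three69' (hG : G.Geo4 al kp U) {v : V} (hv : v ∈ inN G) (hu : uv G al v = 8)
    (hc : cv G v = 3) : 14 * ∑ s ∈ Sv G v, (rn G s : ℝ) - 28 ≤ sv69 G al v := by
  have h1 : pv69 G al v ≤ ∑ s ∈ Sv G v, max (54 - 14 * (rn G s : ℝ)) 0 :=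
    Finset.sum_le_sum_of_subset_of_nonneg (Finset.filter_subset _ _) fun _ _ _ => le_max_right _ _
  have h2 : ∑ s ∈ Sv G v, max (54 - 14 * (rn G s : ℝ)) 0 = ∑ s ∈ Sv G v, (54 - 14 * (rn G s : ℝ)) := by
    refine Finset.sum_congr rfl fun s hs => ?_
    have e2 := uv_split62 G hG (al := al) v
    have e3 := two_cv_le15 G (al := al) v
    unfold ub15 at e3
    have e4 : rn G s ≤ ∑ j ∈ Sv G v, rn G j :=
      Finset.single_le_sum (fun _ _ => Nat.zero_le _) hs
    have e5 : rn G s ≤ 2 := by omega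
    have e6 : (rn G s : ℝ) ≤ 2 := by exact_mod_cast e5
    exact max_eq_left (by linarith)
  rw [h2, Finset.sum_sub_distrib, Finset.sum_const, nsmul_eq_mul, card_Sv62 G hG hv, hc,
    ← Finset.mul_sum] at h1
  unfold sv69
  rw [hu, hc]
  push_cast at h1 ⊢
  linarith

/-- what a tight point needs: `14` for each unit above two of a big corner -/
def need69 (al : ℝ) (v : V) : ℕ :=
  if Ti39 G al v then 14 * ∑ x ∈ Bv G v, (un G al x - 2) else 0

/-- what the other points with `k ≥ 2` can pay -/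
def pay69 (al : ℝ) (v : V) : ℕ :=
  if Ti39 G al v then 0 else
  if uv G al v = 8 then
    (if cv G v = 4 then
      (if ((Sv G v).filter (fun s => 0 ≤ Ds G al s)).card ≤ 1 then 96 else 42) else
    if cv G v = 3 then
      (if ((Sv G v).filter (fun s => 0 ≤ Ds G al s)).card ≤ 1 then 80 else
       if ∃ s ∈ Sv G v, 0 ≤ Ds G al s ∧ rn G s ≠ 0 then 40 else 26) else
    if cv G v = 2 then
      (if ∃ s ∈ Sv G v, Ds G al s < 0 then 64 else
       if ∃ s ∈ Sv G v, rn G s ≠ 0 then 24 else 10) else 48) else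
  max 52 (13 * cv G v)

theorem un_sub69 {v : V} {x : V × V} (hx : x ∈ Bv G v) :
    ((un G al x - 2 : ℕ) : ℝ) = (un G al x : ℝ) - 2 := by
  have h2 := un_ge15 G (al := al) ((mem_BC89 G).1 ((mem_Bv62 G).1 hx).1).2
  rw [Nat.cast_sub h2]
  norm_num

/-- **the vertex row of `T(55/13)`** -/
theorem vertexT69 (hG : G.Geo4 al kp U) {v : V} (hv : v ∈ inN G) (h8 : 8 ≤ uv G al v) :
    (pay69 G al v : ℝ) ≤ sv69 G al v + need69 G al v := by
  by_cases ht : Ti39 G al v
  · have h1 := tight69 G hG hv ht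
    unfold pay69 need69
    rw [if_pos ht, if_pos ht, h1]
    push_cast
    rw [Finset.sum_congr rfl fun x hx => un_sub69 G (al := al) hx]
    linarith
  have hn : need69 G al v = 0 := by
    unfold need69
    rw [if_neg ht]
  rw [hn, Nat.cast_zero, add_zero]
  unfold pay69
  rw [if_neg ht]
  by_cases hu : uv G al v = 8
  · rw [if_pos hu]
    have h2 := two_cv69 G hG (al := al) v
    have h3 := cv_pos15 G hG hv
    by_cases c4 : cv G v = 4
    · rw [if_pos c4]
      obtain ⟨h5, h6⟩ := four69 G hG hv hu c4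
      split_ifs with h
      · have h' : (((Sv G v).filter (fun s => 0 ≤ Ds G al s)).card : ℝ) ≤ 1 := by exact_mod_cast h
        push_cast
        linarith
      · push_cast
        linarith
    · rw [if_neg c4]
      by_cases c3 : cv G v = 3
      · rw [if_pos c3]
        obtain ⟨h5, h6, h7⟩ := three69 G hG hv hu c3 ht
        split_ifs with a1 a2
        · push_cast
          exact h7 a1
        · push_cast
          exact h6 a2
        · push_cast
          exact h5
      · rw [if_neg c3]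
        by_cases c2 : cv G v = 2
        · rw [if_pos c2]
          obtain ⟨h5, h6, h7⟩ := two69 G hG hv hu c2
          split_ifs with a1 a2
          · push_cast
            exact h7 a1
          · push_cast
            exact h6 a2
          · push_cast
            exact h5
        · rw [if_neg c2]
          have := one69 G hG hv hu (by omega)
          push_cast
          exact this
  · rw [if_neg hu]
    obtain ⟨h5, h6⟩ := big69 G hG hv (by omega)
    push_cast
    exact max_le h6 h5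

/-- the vertex row in the letters of the frame -/
theorem vertexT69' (hG : G.Geo4 al kp U) {v : V} (hv : v ∈ A2 G al) :
    13 * (2 * (16 / 13 : ℝ) * ep al - sl G al (14 / 13) (55 / 13) (fun _ => 16 / 13) v) ≤
      need69 G al v - pay69 G al v := by
  obtain ⟨h1, h2⟩ := Finset.mem_filter.1 hv
  rw [sl69 G hG h1]
  linarith [vertexT69 G hG h1 h2]

end

end Pool.Agent.PEN.E5
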