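import Pool.Agent.E5.Pe39

/-! # PENNY: a pentagon class with a corner of three units has at most three weak sides -/

set_option autoImplicit false

namespace Pool.Agent.PEN.E5

open Classical UpperHalfPlane
open Pool.Agent.PEN.Cl

noncomputable section

variable {G : Tg ℍ} {d : ℝ} {kp : ℍ → ℍ → ℝ} {U : ℕ → ℝ}

/-- **pentagons with 11 units**: the corner `x` with three units; its two sides are strong -/
theorem p11_54 (hG : G.Geo4 (alpha d) kp U) (hD : DelG G d) (hS : Sep d G.P)
    {C : G.adj.ConnectedComponent} (hC : C ∈ WF G)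
    (hm : (G.cT C).card = 3) (hI : (G.cI C).card = 4) (hU : 11 ≤ uf G (alpha d) C) :
    ∃ x ∈ G.cJ C, un G (alpha d) x = 3 ∧
      G.cJ C = {x, sg G x, sg G (sg G x), sg G (sg G (sg G x)), sg G (sg G (sg G (sg G x)))} ∧
      sg G (sg G (sg G (sg G (sg G x)))) = x ∧
      Wk G (alpha d) C ⊆ {sg G x, sg G (sg G x), sg G (sg G (sg G x))} := by
  have hCi := ((mem_WF89 G).1 hC).1
  have hm5 : (G.cJ C).card = 5 := by
    have := m_eq46 G hCi
    omega
  have hex : ∃ x ∈ G.cJ C, 3 ≤ un G (alpha d) x := by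
    by_contra hc
    push Not at hc
    have h1 : uf G (alpha d) C ≤ ∑ x ∈ G.cJ C, 2 :=
      Finset.sum_le_sum fun x hx => by
        have := hc x hx
        omega
    rw [Finset.sum_const, hm5, smul_eq_mul] at h1
    omega
  obtain ⟨x, hx, h3⟩ := hex
  obtain ⟨hJ, hcy⟩ := five90 G hG hC hm5 hx
  have p := pent_units19 hG hD hS hCi hm hI hx
  have hx3 : un G (alpha d) x = 3 := le_antisymm p.three h3
  refine ⟨x, hx, hx3, hJ, hcy, ?_⟩
  intro y hy
  obtain ⟨h1, h2⟩ := Finset.mem_filter.1 hy
  have q := pent_units19 hG hD hS hCi hm hI h1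
  rw [hJ] at h1
  simp only [Finset.mem_insert, Finset.mem_singleton] at h1 ⊢
  rcases h1 with h | h | h | h | h
  · exfalso
    have h4 := (pent_units19 hG hD hS hCi hm hI (sg_cJ19 hG hCi hx)).two
    have h5 := q.str (by rw [h]; omega)
    linarith
  · exact Or.inl h
  · exact Or.inr (Or.inl h)
  · exact Or.inr (Or.inr h)
  · exfalso
    have h4 := q.two
    have h5 := q.str (by
      rw [h, hcy]
      rw [h] at h4
      omega)
    linarith

/-- **at most three weak sides** -/
theorem wk11_54 (hG : G.Geo4 (alpha d) kp U) (hD : DelG G d) (hS : Sep d G.P)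
    {C : G.adj.ConnectedComponent} (hC : C ∈ WF G)
    (hm : (G.cT C).card = 3) (hI : (G.cI C).card = 4) (hU : 11 ≤ uf G (alpha d) C) :
    (Wk G (alpha d) C).card ≤ 3 := by
  obtain ⟨x, _, _, _, _, h⟩ := p11_54 hG hD hS hC hm hI hU
  exact (Finset.card_le_card h).trans Finset.card_le_three

end

end Pool.Agent.PEN.E5
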