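import Pool.Agent.E5.Lm62
import Pool.Agent.E5.Sy39

/-! # PENNY, all small diameters: the rich faces at a centre

Page T2, Lemma Z: at a charged centre `v` a digon side whose other face is a pentagon with 12 units
and three units at the other end of the digon carries `v` at an end of its weak side. The case of a
black face with two weak sides. -/

set_option autoImplicit false

namespace Pool.Agent.PEN.E5

open Classical UpperHalfPlane
open Pool.Agent.PEN.Cl

noncomputable section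

section gen

variable {V : Type} (G : Tg V) {al : ℝ} {kp : V → V → ℝ} {U : ℕ → ℝ}

/-- a charged centre: eight units, three big corners, the only server of its three black faces,
which have no weak side -/
structure Cen45 (al : ℝ) (v : V) : Prop where
  inn : v ∈ inN G
  u8 : uv G al v = 8
  c3 : cv G v = 3
  strong : ∀ s ∈ Sv G v, ∀ y ∈ kS G (ku G s), 0 ≤ sp G al y
  neg : ∀ s ∈ Sv G v, ∀ y ∈ kS G (ku G s), y ≠ s → Ds G al y ≤ 0

theorem sg_SD45 (hG : G.Geo4 al kp U) {x : V × V} (hx : x ∈ SD G) (hin : x.2 ∈ inN G) :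
    sg G x ∈ SD G := by
  obtain ⟨h1, h2, -⟩ := (mem_Bv89 G).1 (sg_Bv89 G hG hin ((mem_Sv89 G).2 ⟨hx, rfl⟩))
  exact BC_SD89 G h1 h2

/-- the sector before the side `sg x` -/
theorem pre45 (hG : G.Geo4 al kp U) {x : V × V} (hx : x ∈ SD G) (hin : x.2 ∈ inN G) :
    ∃ z ∈ Sv G x.2, nx G z = sg G x ∧ ku G z = ku G (sg G x) := by
  obtain ⟨z, hz, h⟩ := nx_ex89 G hG (sg_Bv89 G hG hin ((mem_Sv89 G).2 ⟨hx, rfl⟩))
  have h1 := (nx_mem42 G hG ((mem_SD42 G).1 ((mem_Sv89 G).1 hz).1).1).2
  exact ⟨z, hz, h, by rw [← h]; exact h1.symm⟩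

/-- every corner of a charged centre is demanding -/
theorem Cen45.dem (hG : G.Geo4 al kp U) {x : V × V} (h : Cen45 G al x.2) (hx : x ∈ SD G) :
    Dem62 G al x := by
  obtain ⟨z, hz, h1, h2⟩ := pre45 G hG hx h.inn
  have hxS : x ∈ Sv G x.2 := (mem_Sv89 G).2 ⟨hx, rfl⟩
  refine ⟨h.inn, hx, sg_SD45 G hG hx h.inn, ?_, ?_, Or.inr ⟨h.c3, h.u8⟩⟩
  · intro y hy
    rcases Finset.mem_union.1 hy with h3 | h3
    · exact h.strong x hxS y h3
    · exact h.strong z hz y (by rw [h2]; exact h3)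
  · intro y hy hyx hyn
    rcases Finset.mem_union.1 hy with h3 | h3
    · exact h.neg x hxS y h3 hyx
    · refine h.neg z hz y (by rw [h2]; exact h3) fun he => hyn ?_
      rw [he, h1]

/-- a black face without weak side and with one server: a side has at most the surplus of the
server -/
theorem one45 (hG : G.Geo4 al kp U) {K : (cg G).ConnectedComponent} {s b : V × V}
    (hs : s ∈ kS G K) (hb : b ∈ kS G K) (h1 : ∀ y ∈ kS G K, 0 ≤ sp G al y)
    (h2 : ∀ y ∈ kS G K, y ≠ s → Ds G al y ≤ 0) :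
    sp G al b ≤ Ds G al s := by
  have h3 : sp G al b ≤ ∑ y ∈ kS G K, sp G al y := Finset.single_le_sum h1 hb
  have h4 : ∑ y ∈ kS G K, Ds G al y ≤ Ds G al s := by
    rw [← Finset.add_sum_erase _ _ hs]
    have : ∑ y ∈ (kS G K).erase s, Ds G al y ≤ 0 := by
      refine Finset.sum_nonpos fun y hy => ?_
      obtain ⟨h5, h6⟩ := Finset.mem_erase.1 hy
      exact h2 y h6 h5
    linarith
  rw [← sum_Ds89 G hG K] at h3
  linarith

/-- the three gaps at a centre, the third sector -/
theorem third45 (hG : G.Geo4 al kp U) {x : V × V} (h : Cen45 G al x.2) (hx : x ∈ SD G) :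
    ∃ y ∈ Sv G x.2, ∃ z ∈ Sv G x.2, sg G y = nx G x ∧ sg G z = nx G y ∧ nx G z = sg G x ∧
      Ds G al y = 1 - ep al - gc G al (sg G x) := by
  have hxS : x ∈ Sv G x.2 := (mem_Sv89 G).2 ⟨hx, rfl⟩
  obtain ⟨y, hy, z, hz, hyx, hzx, hzy, hS, hB, e1, e2, e3⟩ := c3_89 G hG h.inn h.c3 hxS
  refine ⟨y, hy, z, hz, e1, e2, e3, ?_⟩
  have hs := sum_gcB39 G hG h.inn
  have n1 : sg G x ≠ sg G y := fun h' => hyx (sg_injSv89 G hG h.inn hxS hy h').symm
  have n2 : sg G x ≠ sg G z := fun h' => hzx (sg_injSv89 G hG h.inn hxS hz h').symm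
  have n3 : sg G y ≠ sg G z := fun h' => hzy (sg_injSv89 G hG h.inn hy hz h').symm
  rw [hB, Finset.sum_insert (by
    simp only [Finset.mem_insert, Finset.mem_singleton]
    rintro (h' | h')
    · exact n1 h'
    · exact n2 h'), Finset.sum_insert (by
    rw [Finset.mem_singleton]; exact n3), Finset.sum_singleton, kv_eq89, h.u8] at hs
  unfold Ds
  rw [← e2]
  norm_num at hs
  linarith

/-- **Lemma Z**, the digon behind the side `sg x` after the centre: `z` is the other dart of the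
digon. The side opposite to the centre in the face of `z` is strong. -/
theorem Zout45 (hG : G.Geo4 al kp U) {x : V × V} (h : Cen45 G al x.2) (hx : x ∈ SD G)
    {z : V × V} (hz : nx G (sg G x) = z) (hd : nx G z = sg G x)
    (hsum : 3 ≤ gc G al z + gc G al (sg G z) + gc G al (sg G (sg G z)) +
      gc G al (sg G (sg G (sg G z))) + gc G al (sg G (sg G (sg G (sg G z))))) :
    z ∈ Sv G x.2 ∧ (∃ s ∈ Sv G x.2, ku G (sg G z) = ku G s) ∧
      ep al ≤ sp G al (sg G (sg G (sg G z))) := by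
  obtain ⟨y, hy, z', hz', e1, e2, e3, hD⟩ := third45 G hG h hx
  have hys := sg_SD45 G hG hx h.inn
  have hzSD : z ∈ SD G := by
    rw [← hz]
    exact (nx_mem42 G hG ((mem_SD42 G).1 hys).1).1
  have hzz : z = z' := nx_inj42 G hG hzSD ((mem_Sv89 G).1 hz').1 (by rw [hd, e3])
  subst hzz
  have hk1 := (nx_mem42 G hG ((mem_SD42 G).1 ((mem_Sv89 G).1 hy).1).1).2
  have hk2 := (nx_mem42 G hG ((mem_SD42 G).1 hzSD).1).2
  rw [← e2] at hk1
  rw [hd] at hk2
  have hyK : y ∈ kS G (ku G y) := (mem_kS42 G).2 ⟨((mem_Sv89 G).1 hy).1, rfl⟩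
  have hgK : sg G z ∈ kS G (ku G y) := by
    refine (mem_kS42 G).2 ⟨?_, hk1⟩
    rw [e2]
    exact (nx_mem42 G hG ((mem_SD42 G).1 ((mem_Sv89 G).1 hy).1).1).1
  have hone := one45 G hG hyK hgK (h.strong y hy) (h.neg y hy)
  have hsK : sg G x ∈ kS G (ku G z) := (mem_kS42 G).2 ⟨hys, hk2⟩
  have hne : sg G x ≠ z := by
    rw [← hd]
    exact nx_self62 G hzSD
  have h1 := h.strong z hz' _ hsK
  have h2 := h.neg z hz' _ hsK hne
  refine ⟨hz', ⟨y, hy, hk1⟩, ?_⟩
  unfold Ds at h2
  rw [hz] at h2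
  unfold sp at hone h1 ⊢
  linarith

/-- **Lemma Z**, the digon behind the side `x` before the centre: `nx x` is the other dart of the
digon and `y` the side before it in its white face -/
theorem Zin45 (hG : G.Geo4 al kp U) {x : V × V} (h : Cen45 G al x.2) (hx : x ∈ SD G)
    (hd : nx G (nx G x) = x) {y : V × V} (hy : y ∈ Sv G x.2) (hyt : sg G y = nx G x)
    (hsum : 3 ≤ gc G al y + gc G al (sg G y) + gc G al (sg G (sg G y)) +
      gc G al (sg G (sg G (sg G y))) + gc G al (sg G (sg G (sg G (sg G y))))) :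
    ep al ≤ sp G al (sg G (sg G (sg G y))) := by
  obtain ⟨y', hy', z, hz, e1, e2, e3, hD⟩ := third45 G hG h hx
  have hyy : y = y' := sg_injSv89 G hG h.inn hy hy' (by rw [hyt, e1])
  subst hyy
  have hyK : y ∈ kS G (ku G y) := (mem_kS42 G).2 ⟨((mem_Sv89 G).1 hy).1, rfl⟩
  have hone := one45 G hG hyK hyK (h.strong y hy) (h.neg y hy)
  have hxS : x ∈ Sv G x.2 := (mem_Sv89 G).2 ⟨hx, rfl⟩
  have hxK : x ∈ kS G (ku G x) := (mem_kS42 G).2 ⟨hx, rfl⟩
  obtain ⟨h3, h4⟩ := nx_mem42 G hG ((mem_SD42 G).1 hx).1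
  have hnK : nx G x ∈ kS G (ku G x) := (mem_kS42 G).2 ⟨h3, h4⟩
  have h1 := h.strong x hxS _ hxK
  have h2 := h.neg x hxS _ hnK (nx_self62 G hx)
  unfold Ds at h2
  rw [hd, ← hyt] at h2
  unfold sp at hone h1 ⊢
  linarith

/-- **two weak sides of one black face with at most one triangle at a point with two big corners of
two units each**: the other black face at the point, which contains the sides `s`, `sg w` of both
white faces, has at least two triangles -/
theorem tw45 (hG : G.Geo4 al kp U) {w : V × V} (hw : w ∈ SD G) (hin : w.2 ∈ inN G)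
    (h7 : uv G al w.2 = 7) (hc : cv G w.2 = 2) (u1 : un G al (sg G w) = 2)
    (u2 : un G al (nx G w) = 2) (ht : tK G (ku G w) ≤ 1) :
    ∃ s ∈ Sv G w.2, s ≠ w ∧ nx G s = sg G w ∧ sg G s = nx G w ∧ ku G s = ku G (sg G w) ∧
      2 ≤ rn G s ∧ rn G w + rn G s = 3 ∧ 2 ≤ tK G (ku G (sg G w)) := by
  have hwS : w ∈ Sv G w.2 := (mem_Sv62 G).2 ⟨hw, rfl⟩
  obtain ⟨h0, hB, z, hz, hzs, hS, e1, e2⟩ := c2_89 G hG hin hc hwS
  have hu := uv_sectors62 G hG (al := al) hin
  rw [hS, Finset.sum_pair hzs.symm, e2, u1, u2, h7] at hu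
  have hr := rn_le_tK63 G hG hw
  have hz1 := ((mem_Sv62 G).1 hz).1
  have hr2 := rn_le_tK63 G hG hz1
  have hk := (nx_mem42 G hG ((mem_SD42 G).1 hz1).1).2
  rw [e2] at hk
  rw [← hk] at hr2
  exact ⟨z, hz, hzs, e2, e1, hk.symm, by omega, by omega, by omega⟩

end gen

/-! ### The weak side of the pentagon with 12 units -/

theorem HH_fac45 (p q a : ℝ) : HH19 p q 1 a =
    (Real.cos ((p - q) * a / 2) - Real.cos ((p + q) * a / 2)) *
      (Real.cos ((p + q) * a / 2) - (2 * Real.cos a - 1) * Real.cos ((p - q) * a / 2)) := by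
  have hs1 := Real.sin_sq_add_cos_sq ((p + q) * a / 2)
  have hs2 := Real.sin_sq_add_cos_sq ((p - q) * a / 2)
  have ep1 : p * a = (p + q) * a / 2 + (p - q) * a / 2 := by ring
  have eq1 : q * a = (p + q) * a / 2 - (p - q) * a / 2 := by ring
  have e1 : Real.cos ((p + 1) * a) + Real.cos ((p - 1) * a) = 2 * Real.cos (p * a) * Real.cos a := by
    rw [show (p + 1) * a = p * a + a by ring, show (p - 1) * a = p * a - a by ring, Real.cos_add,
      Real.cos_sub]
    ring
  have e2 : Real.cos ((q + 1) * a) + Real.cos ((q - 1) * a) = 2 * Real.cos (q * a) * Real.cos a := by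
    rw [show (q + 1) * a = q * a + a by ring, show (q - 1) * a = q * a - a by ring, Real.cos_add,
      Real.cos_sub]
    ring
  have e3 : Real.cos ((p - q + 1) * a) + Real.cos ((p - q - 1) * a) =
      2 * Real.cos ((p - q) * a) * Real.cos a := by
    rw [show (p - q + 1) * a = (p - q) * a + a by ring,
      show (p - q - 1) * a = (p - q) * a - a by ring, Real.cos_add, Real.cos_sub]
    ring
  have e4 : Real.cos ((1 + 1) * a) = Real.cos (2 * a) := by
    norm_num
  have e5 : Real.cos ((1 - 1) * a) = 1 := by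
    norm_num
  have e6 : Real.cos ((p - q) * a) = 2 * Real.cos ((p - q) * a / 2) ^ 2 - 1 := by
    rw [← Real.cos_two_mul]
    ring_nf
  have e7 : Real.cos ((p + q) * a) = 2 * Real.cos ((p + q) * a / 2) ^ 2 - 1 := by
    rw [← Real.cos_two_mul]
    ring_nf
  have e8 : Real.cos (p * a) + Real.cos (q * a) =
      2 * Real.cos ((p + q) * a / 2) * Real.cos ((p - q) * a / 2) := by
    rw [ep1, eq1, Real.cos_add, Real.cos_sub]
    ring
  unfold HH19
  rw [e4, e5, one_mul]
  have h : Real.cos ((p + 1) * a) + Real.cos ((p - 1) * a) + Real.cos ((q + 1) * a) +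
      Real.cos ((q - 1) * a) - 1 - Real.cos (2 * a) - Real.cos ((p - q + 1) * a) -
      Real.cos ((p - q - 1) * a) + Real.cos ((p - q) * a) - Real.cos ((p + q) * a) -
      2 * Real.cos a + Real.cos (2 * a) + 1 =
      2 * (Real.cos (p * a) + Real.cos (q * a)) * Real.cos a -
      2 * Real.cos ((p - q) * a) * Real.cos a + Real.cos ((p - q) * a) - Real.cos ((p + q) * a) -
      2 * Real.cos a := by
    linarith
  rw [h, e8, e6, e7]
  ring

/-- two angles whose sum is smaller than three angles of the contact triangle by twice its area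
excess: the ends of the chain are nearer than `d` -/
theorem HH_pos45 {a p q : ℝ} (ha : 2 * Real.pi / 7 < a) (ha3 : a < Real.pi / 3) (hp : 1 ≤ p)
    (hq : 1 ≤ q) (h : (p + q) * a ≤ 9 * a - 2 * Real.pi) : 0 < HH19 p q 1 a := by
  have hpi := Real.pi_pos
  have hpi4 := Real.pi_lt_d2
  have ha0 : 0 < a := by linarith
  rw [HH_fac45]
  set u : ℝ := (p + q) * a / 2 with hu
  set v : ℝ := (p - q) * a / 2 with hv
  have hu0 : 0 < u := by positivity
  have hu1 : u ≤ Real.pi / 2 := by
    rw [hu]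
    linarith
  have hvu : |v| < u := by
    rw [abs_lt, hu, hv]
    constructor <;> nlinarith
  have f1 : Real.cos u < Real.cos v := by
    rw [← Real.cos_abs v]
    exact Real.cos_lt_cos_of_nonneg_of_le_pi (abs_nonneg v) (by linarith) hvu
  have hv1 := Real.cos_le_one v
  -- the number
  set de : ℝ := Real.pi / 2 - 3 * a / 2 with hde
  have hd0 : 0 < de := by rw [hde]; linarith
  have hd1 : de < 1 / 4 := by rw [hde]; nlinarith
  have hs0 : 0 < Real.sin de := Real.sin_pos_of_pos_of_lt_pi hd0 (by linarith)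
  have hs1 : Real.sin de < 1 / 4 := (Real.sin_lt hd0).trans hd1
  have hs3 : Real.sin (3 * de) ≤ Real.cos u := by
    have e : Real.sin (3 * de) = Real.cos (9 * a / 2 - Real.pi) := by
      rw [← Real.cos_pi_div_two_sub]
      congr 1
      rw [hde]
      ring
    rw [e]
    exact Real.cos_le_cos_of_nonneg_of_le_pi hu0.le (by linarith) (by rw [hu]; linarith)
  have hsin : Real.sin de = Real.cos (a / 2) * (2 * Real.cos a - 1) := by
    have e1 : Real.sin de = Real.cos (3 * (a / 2)) := by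
      rw [hde, Real.sin_pi_div_two_sub]
      congr 1
      ring
    have e2 : Real.cos a = 2 * Real.cos (a / 2) ^ 2 - 1 := by
      rw [← Real.cos_two_mul]
      ring_nf
    rw [e1, Real.cos_three_mul, e2]
    ring
  have hc1 : Real.cos (a / 2) ≤ 1 := Real.cos_le_one _
  have hc2 : 3 / 4 ≤ Real.cos (a / 2) := by
    have e := Real.one_sub_sq_div_two_le_cos (x := a / 2)
    have h3 : a / 2 < 53 / 100 := by linarith
    nlinarith
  have hk : 0 < 2 * Real.cos a - 1 := by
    by_contra hk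
    push Not at hk
    nlinarith
  rw [Real.sin_three_mul] at hs3
  have f2 : (2 * Real.cos a - 1) * Real.cos v < Real.cos u := by
    have g1 : (2 * Real.cos a - 1) * Real.cos v ≤ 2 * Real.cos a - 1 := by nlinarith
    have g2 : 3 / 4 * (2 * Real.cos a - 1) ≤ Real.sin de := by
      rw [hsin]
      nlinarith
    have g3 : 11 / 4 * Real.sin de ≤ 3 * Real.sin de - 4 * Real.sin de ^ 3 := by
      have : Real.sin de ^ 2 ≤ 1 / 16 := by nlinarith
      nlinarith
    linarith
  exact mul_pos (by linarith) (by linarith)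

section conc
variable {G : Tg ℍ} {d : ℝ} {kp : ℍ → ℍ → ℝ} {U : ℕ → ℝ}

/-- **a side of a pentagon between two corners with two units**: surplus less than `ep` -/
theorem weak45 (hG : G.Geo4 (alpha d) kp U) (hD : DelG G d) (hS : Sep d G.P)
    {C : G.adj.ConnectedComponent} (hC : C ∈ G.iC) (hm : (G.cT C).card = 3)
    (hI : (G.cI C).card = 4) {x : ℍ × ℍ} (hx : x ∈ G.cJ C) (u1 : un G (alpha d) x = 2)
    (u2 : un G (alpha d) (sg G x) = 2) : sp G (alpha d) x < ep (alpha d) := by
  have hT := pg_of19 hG hD hS hC hm hI hx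
  have hal := alpha_pos hD.hd
  have hlt := alpha_lt hD.hd
  have hep := ep_lt89 G hG
  have hal7 : 2 * Real.pi / 7 < alpha d := by
    unfold ep at hep
    have h1 : 2 * Real.pi / alpha d < 7 := by linarith
    rw [div_lt_iff₀ hal] at h1
    linarith
  have a1 := TH_gc19 G hG x
  have a2 := TH_gc19 G hG (sg G x)
  rw [u1] at a1
  rw [u2] at a2
  push_cast at a1 a2
  by_contra hcon
  push Not at hcon
  have hp : 1 ≤ 2 - gc G (alpha d) x := by
    have := hT.b1.1
    rw [a1] at this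
    by_contra h
    push Not at h
    nlinarith
  have hq : 1 ≤ 2 - gc G (alpha d) (sg G x) := by
    have := hT.b2.1
    rw [a2] at this
    by_contra h
    push Not at h
    nlinarith
  have hsum : (2 - gc G (alpha d) x + (2 - gc G (alpha d) (sg G x))) * alpha d ≤
      9 * alpha d - 2 * Real.pi := by
    unfold sp ep at hcon
    have h1 : 2 * Real.pi / alpha d * alpha d = 2 * Real.pi := div_mul_cancel₀ _ hal.ne'
    nlinarith
  have hpos := HH_pos45 hal7 hlt hp hq hsum
  have heq := HH_eq19 hD.hd (2 - gc G (alpha d) x) (2 - gc G (alpha d) (sg G x)) 1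
  have hS0 : 0 < Real.sinh d := Real.sinh_pos_iff.2 hD.hd
  have hc : Real.cos (alpha d) < 1 := by
    have hC : 1 < Real.cosh d := Real.one_lt_cosh.2 hD.hd.ne'
    rw [cos_alpha hD.hd, div_lt_one (by linarith)]
    linarith
  have hr := hT.r1
  rw [a1, a2, mul_comm (alpha d), mul_comm (alpha d)] at hr
  have hg := GG_mono19 hD.hd hal.le hT.b4.1 (by linarith [hT.b4.2, Real.pi_pos])
  rw [one_mul, hr] at heq
  have h5 : 0 < Real.sinh d ^ 2 * HH19 (2 - gc G (alpha d) x) (2 - gc G (alpha d) (sg G x)) 1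
      (alpha d) := by positivity
  nlinarith

/-- the gaps of a pentagon with 12 units -/
theorem sum12_45 (hG : G.Geo4 (alpha d) kp U) {C : G.adj.ConnectedComponent} (hC : C ∈ WF G)
    (hm : (G.cT C).card = 3) (hI : (G.cI C).card = 4) (hU : 12 ≤ uf G (alpha d) C)
    {x : ℍ × ℍ} (hx : x ∈ G.cJ C) :
    3 ≤ gc G (alpha d) x + gc G (alpha d) (sg G x) + gc G (alpha d) (sg G (sg G x)) +
      gc G (alpha d) (sg G (sg G (sg G x))) + gc G (alpha d) (sg G (sg G (sg G (sg G x)))) := by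
  have hCi := ((mem_WF89 G).1 hC).1
  have hm5 : (G.cJ C).card = 5 := by
    have := m_eq46 G hCi
    omega
  obtain ⟨hJ, hcy⟩ := five90 G hG hC hm5 hx
  have hs := sum_gc_exc15 G hG hCi
  have hex := exc_nonneg15 G hG hCi
  have hle : ∑ y ∈ G.cJ C, gc G (alpha d) y ≤ gc G (alpha d) x + (gc G (alpha d) (sg G x) +
      (gc G (alpha d) (sg G (sg G x)) + (gc G (alpha d) (sg G (sg G (sg G x))) +
      gc G (alpha d) (sg G (sg G (sg G (sg G x))))))) :=
    sum_p39 (gc G (alpha d)) (fun y => gc_nonneg89 G hG) hJ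
  have hU' : (12 : ℝ) ≤ uf G (alpha d) C := by exact_mod_cast hU
  rw [hm] at hs
  push_cast at hs
  linarith

/-- a corner with three units of a pentagon with 12 units whose opposite side has surplus at
least `ep`: impossible, so the corner is the one before the weak side -/
theorem opp45 (hG : G.Geo4 (alpha d) kp U) (hD : DelG G d) (hS : Sep d G.P)
    {C : G.adj.ConnectedComponent} (hC : C ∈ WF G)
    (hm : (G.cT C).card = 3) (hI : (G.cI C).card = 4)
    {w z : ℍ × ℍ} (hw : w ∈ G.cJ C) (hp : Pat39 G d w)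
    (h : ep (alpha d) ≤ sp G (alpha d) (sg G (sg G (sg G z)))) :
    z ≠ sg G (sg G w) := by
  intro he
  have hCi := ((mem_WF89 G).1 hC).1
  have hm5 : (G.cJ C).card = 5 := by
    have := m_eq46 G hCi
    omega
  obtain ⟨hJ, hcy⟩ := five90 G hG hC hm5 hw
  rw [he, hcy] at h
  have h1 := weak45 hG hD hS hCi hm hI hw hp.1 hp.2.1
  have h2 := ep_pos89 G hG
  linarith

/-- **Lemma Z for the pentagon with 12 units behind the digon `sg x`**: if it has three units at
the other end of the digon then its weak side starts at the centre and lies on a black face of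
the centre -/
theorem Zout12_45 (hG : G.Geo4 (alpha d) kp U) (hD : DelG G d) (hS : Sep d G.P)
    {C : G.adj.ConnectedComponent} (hC : C ∈ WF G)
    (hm : (G.cT C).card = 3) (hI : (G.cI C).card = 4) (hU : 12 ≤ uf G (alpha d) C)
    {w : ℍ × ℍ} (hw : w ∈ G.cJ C) (hp : Pat39 G d w)
    {x : ℍ × ℍ} (h : Cen45 G (alpha d) x.2) (hx : x ∈ SD G) {z : ℍ × ℍ}
    (hz : nx G (sg G x) = z) (hd : nx G z = sg G x) (hzC : z ∈ G.cJ C)
    (h3 : un G (alpha d) z = 3) :
    sg G z = w ∧ w.1 = x.2 ∧ ∃ s ∈ Sv G x.2, ku G w = ku G s := by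
  obtain ⟨h4, h5, h6⟩ := Zout45 G hG h hx hz hd (sum12_45 hG hC hm hI hU hzC)
  have h7 := opp45 hG hD hS hC hm hI hw hp h6
  have hCi := ((mem_WF89 G).1 hC).1
  have hm5 : (G.cJ C).card = 5 := by
    have := m_eq46 G hCi
    omega
  obtain ⟨hJ, hcy⟩ := five90 G hG hC hm5 hw
  obtain ⟨p1, p2, p3, p4, p5⟩ := hp
  rw [hJ] at hzC
  simp only [Finset.mem_insert, Finset.mem_singleton] at hzC
  rcases hzC with h8 | h8 | h8 | h8 | h8
  · rw [h8] at h3; omega
  · rw [h8] at h3; omega
  · exact absurd h8 h7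
  · rw [h8] at h3; omega
  · have h9 : sg G z = w := by rw [h8, hcy]
    refine ⟨h9, ?_, ?_⟩
    · rw [← h9]
      exact ((mem_Sv89 G).1 h4).2
    · rw [← h9]
      exact h5

/-- **Lemma Z for the pentagon with 12 units behind the digon `x`**: if it has three units at
the other end of the digon then its weak side ends at the centre -/
theorem Zin12_45 (hG : G.Geo4 (alpha d) kp U) (hD : DelG G d) (hS : Sep d G.P)
    {C : G.adj.ConnectedComponent} (hC : C ∈ WF G)
    (hm : (G.cT C).card = 3) (hI : (G.cI C).card = 4) (hU : 12 ≤ uf G (alpha d) C)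
    {w : ℍ × ℍ} (hw : w ∈ G.cJ C) (hp : Pat39 G d w)
    {x : ℍ × ℍ} (h : Cen45 G (alpha d) x.2) (hx : x ∈ SD G) (hd : nx G (nx G x) = x)
    (hnC : nx G x ∈ G.cJ C) (h3 : un G (alpha d) (sg G (nx G x)) = 3) :
    w ∈ Sv G x.2 ∧ sg G w = nx G x := by
  have hxS : x ∈ Sv G x.2 := (mem_Sv89 G).2 ⟨hx, rfl⟩
  obtain ⟨y, hy, z, hz, e1, e2, e3, hDy⟩ := third45 G hG h hx
  have hCi := ((mem_WF89 G).1 hC).1
  have hm5 : (G.cJ C).card = 5 := by
    have := m_eq46 G hCi
    omega
  -- the side before `nx x` is in the same class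
  have hyC : y ∈ G.cJ C := by
    obtain ⟨hJ, hcy⟩ := five90 G hG hC hm5 hnC
    have h4 : sg G (sg G (sg G (sg G (nx G x)))) ∈ G.cJ C :=
      sg_cJ19 hG hCi (sg_cJ19 hG hCi (sg_cJ19 hG hCi (sg_cJ19 hG hCi hnC)))
    have h5 : y = sg G (sg G (sg G (sg G (nx G x)))) := by
      have hyI := (sector_corners89 G hG h.inn ((mem_Sv89 G).1 hy).1 ((mem_Sv89 G).1 hy).2).2.2.1
      exact W4.sg_inj51 G hG hyI (cJ_iJ51 G hCi h4).1 (by rw [e1, hcy])
    rw [h5]
    exact h4
  have h6 := Zin45 G hG h hx hd hy e1 (sum12_45 hG hC hm hI hU hyC)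
  have h7 := opp45 hG hD hS hC hm hI hw hp h6
  obtain ⟨hJ, hcy⟩ := five90 G hG hC hm5 hw
  obtain ⟨p1, p2, p3, p4, p5⟩ := hp
  rw [← e1] at h3 ⊢
  rw [hJ] at hyC
  simp only [Finset.mem_insert, Finset.mem_singleton] at hyC
  rcases hyC with h8 | h8 | h8 | h8 | h8
  · rw [← h8]
    exact ⟨hy, rfl⟩
  · rw [h8] at h3; omega
  · exact absurd h8 h7
  · rw [h8, hcy] at h3; omega
  · rw [h8, hcy] at h3; omega

end conc

end

end Pool.Agent.PEN.E5
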